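import Mathlib
import Pool.Agent.Lib.MP_d01a95_gt.Defs
import Pool.Agent.Lib.MP_d01a95_gt.Hyp
import Pool.Agent.Lib.MP_d01a95_gt_H.GU
import Pool.Agent.Lib.MP_d01a95_gt_H.Cut
import Pool.Agent.Lib.MP_d01a95_gt_M.Defs

set_option autoImplicit false
set_option linter.all false

open Matrix Filter Topology MeasureTheory

namespace Pool.Agent.MPd01a95.KT

open GU

/-! # Project K: the Kerr surface (part (1) of the case m = 2) -/

/-- vectors of `ℂ^{2,2}` -/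
abbrev V4 : Type := Fin 4 → ℂ

/-- matrices -/
abbrev M4 : Type := Matrix (Fin 4) (Fin 4) ℂ

/-- index type of `ℝ^{4,2}` -/
abbrev I6 : Type := Fin 4 ⊕ Fin 2

/-- the chart form -/
noncomputable def fc (Z W : V4) : ℂ :=
  Complex.I * (Z 0 * star (W 2) - Z 2 * star (W 0) + Z 1 * star (W 3) - Z 3 * star (W 1))

/-- the standard form of signature `(2,2)` -/
noncomputable def hf (v w : V4) : ℂ := CW.hh v w

/-- size of a matrix -/
noncomputable def s1 (g : M4) : ℝ := ‖(fun i j => g i j : Fin 4 → Fin 4 → ℂ)‖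

/-- size of the two by two minors -/
noncomputable def s2 (g : M4) : ℝ :=
  ‖(fun i i' j j' => g i j * g i' j' - g i j' * g i' j : Fin 4 → Fin 4 → Fin 4 → Fin 4 → ℂ)‖

/-- size of the wedge product -/
noncomputable def wd (x y : V4) : ℝ :=
  ‖(fun i j => x i * y j - x j * y i : Fin 4 → Fin 4 → ℂ)‖

/-! ### geometry of the ball -/

/-- the Euclidean space containing the ball -/
abbrev Eb : Type := EuclideanSpace ℂ (Fin 2)

/-- the unit sphere -/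
def Sph : Set Eb := Metric.sphere 0 1

/-- the closed ball -/
def Cb : Set Eb := Metric.closedBall 0 1

/-- the kernel -/
noncomputable def kp (z w : Eb) : ℝ := ‖(1 : ℂ) - inner ℂ z w‖

/-- the lift of a point -/
noncomputable def lv (z : Eb) : Fin 2 ⊕ Unit → ℂ := Sum.elim (fun i => z i) fun _ => 1

/-- the automorphy factor -/
noncomputable def ja (g : GU (Fin 2)) (z : Eb) : ℝ := ‖(g.M *ᵥ lv z) (Sum.inr ())‖

/-- the action on the closed ball -/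
noncomputable def ab (g : GU (Fin 2)) (z : Eb) : Eb :=
  WithLp.toLp 2 fun i => (g.M *ᵥ lv z) (Sum.inl i) / (g.M *ᵥ lv z) (Sum.inr ())

/-- the image of the origin -/
noncomputable def zz (g : GU (Fin 2)) : Eb := ab g 0

/-- `g 0` is at bounded distance of the ray to `θ` -/
def Near (C : ℝ) (g : GU (Fin 2)) (θ : Eb) : Prop := kp (zz g) θ * c g ^ 2 ≤ C

/-! ### the real form of the exterior square -/

/-- the skew matrix attached to a vector of `ℝ^{4,2}` -/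
noncomputable def Sk (x : I6 → ℝ) : M4 :=
  let a : ℂ := (x (Sum.inr 0) : ℂ) + Complex.I * (x (Sum.inr 1) : ℂ)
  let b : ℂ := (x (Sum.inl 0) : ℂ) + Complex.I * (x (Sum.inl 1) : ℂ)
  let d : ℂ := (x (Sum.inl 2) : ℂ) + Complex.I * (x (Sum.inl 3) : ℂ)
  !![0, a, b, d; -a, 0, -star d, star b; -b, star d, 0, star a; -d, -star b, -star a, 0]

/-- real coordinates of a skew matrix -/
noncomputable def co (S : M4) : I6 → ℝ :=
  Sum.elim ![(S 0 2).re, (S 0 2).im, (S 0 3).re, (S 0 3).im] ![(S 0 1).re, (S 0 1).im]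

/-- the action on `ℝ^{4,2}` -/
noncomputable def LR (g : M4) : Matrix I6 I6 ℝ :=
  Matrix.of fun i j => co (g * Sk (Pi.single j 1) * gᵀ) i

/-! ### frames and charts -/

/-- unitary frames -/
def KK : Set M4 := {k | kᴴ * k = 1 ∧ ∀ Z W : V4, hf (k *ᵥ Z) (k *ᵥ W) = fc Z W}

/-- the basis vectors -/
def e0 : V4 := Pi.single 0 1
def e1 : V4 := Pi.single 1 1

/-- chart vectors -/
noncomputable def XX (a μ τ : ℂ) : V4 := ![a, τ - star μ * a, μ, 1]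

/-- the points of the Lagrangian plane -/
noncomputable def yy (μ : ℂ) : V4 := ![1, - star μ, 0, 0]

/-- transitions -/
structure Tr where
  d2 : ℂ
  d3 : ℂ
  β : ℂ
  a : ℝ
  b : ℂ
  e : ℝ
  h2 : d2 ≠ 0
  h3 : d3 ≠ 0

namespace Tr

/-- the map on `μ` -/
noncomputable def m (T : Tr) (μ : ℂ) : ℂ := T.d2 / T.d3 * μ + T.β

/-- the quadratic polynomial -/
noncomputable def q (T : Tr) (μ : ℂ) : ℝ := T.a * ‖μ‖ ^ 2 + 2 * (T.b * star μ).re + T.e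

/-- its derivative in the conjugate variable -/
noncomputable def dq (T : Tr) (μ : ℂ) : ℂ := T.a * μ + T.b

/-- the map on `τ` -/
noncomputable def t (T : Tr) (μ τ : ℂ) : ℂ := (τ + T.q μ) / (‖T.d3‖ ^ 2 : ℝ)

/-- the map on real `t` -/
noncomputable def tr (T : Tr) (μ : ℂ) (t : ℝ) : ℝ := (t + T.q μ) / ‖T.d3‖ ^ 2

/-- the factor of `A` -/
noncomputable def κ (T : Tr) : ℂ := (star T.d2 * T.d3)⁻¹

/-- the map on the real chart -/
noncomputable def G (T : Tr) (x : ℂ × ℝ) : ℂ × ℝ := (T.m x.1, T.tr x.1 x.2)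

/-- compatibility of two functions with a transition -/
def Cmp (T : Tr) (A A' : ℂ → ℝ → ℂ) : Prop :=
  ∀ μ t, A (T.m μ) (T.tr μ t) = T.κ * (A' μ t + T.dq μ)

end Tr

/-- `k⁻¹ g k'` acts by the transition `T` -/
structure Rel (g k k' : M4) (T : Tr) : Prop where
  act : ∀ a μ τ : ℂ, g *ᵥ (k' *ᵥ XX a μ τ) =
    T.d3 • (k *ᵥ XX (T.κ * (a + T.dq μ)) (T.m μ) (T.t μ τ))
  r1 : g *ᵥ (k' *ᵥ e1) = (star T.d3)⁻¹ • (k *ᵥ e1)
  r0 : ∃ p : ℂ, g *ᵥ (k' *ᵥ e0) = (star T.d2)⁻¹ • (k *ᵥ e0) + p • (k *ᵥ e1)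

/-! ### functions in the real chart -/

/-- the linear form of a pair of points; `A` is the function of the chart -/
noncomputable def el (A : ℂ → ℝ → ℂ) (μb : ℂ) (tb : ℝ) (μ : ℂ) (t : ℝ) : ℂ :=
  (t : ℂ) - (tb : ℂ) - A μ t * (star μ - star μb) - star (A μb tb) * (μ - μb)

/-- chart functions: continuous, with a growth condition and transversality -/
structure Ch (A : ℂ → ℝ → ℂ) : Prop where
  cont : Continuous fun x : ℂ × ℝ => A x.1 x.2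
  grow : ∃ ε : ℝ, 0 < ε ∧ ∀ r : ℝ, ∃ C : ℝ, ∀ μ t, ‖μ‖ ≤ r → ‖A μ t‖ ≤ C * (1 + |t|) ^ (1 - ε)
  ne : ∀ μb tb μ t, (μ, t) ≠ (μb, tb) → el A μb tb μ t ≠ 0

/-- derivative in the conjugate of `μ` -/
noncomputable def dbm (φ : ℂ × ℝ → ℂ) (x : ℂ × ℝ) : ℂ :=
  (1 / 2 : ℂ) * (fderiv ℝ φ x (1, 0) + Complex.I * fderiv ℝ φ x (Complex.I, 0))

/-- derivative in `t` -/
noncomputable def dtm (φ : ℂ × ℝ → ℂ) (x : ℂ × ℝ) : ℂ := fderiv ℝ φ x (0, 1)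

/-- conservation laws: `p`, `q` are functions of `(μ, t, a)`, holomorphic in `a` -/
structure Law (N : Set (ℂ × ℝ × ℂ)) (p q : ℂ × ℝ × ℂ → ℂ) : Prop where
  isOpen : IsOpen N
  smp : ContDiffOn ℝ 1 p N
  smq : ContDiffOn ℝ 1 q N
  hp : ∀ x ∈ N, fderiv ℝ p x (0, 0, Complex.I) = Complex.I * fderiv ℝ p x (0, 0, 1)
  hq : ∀ x ∈ N, ∀ v : ℂ, fderiv ℝ q x (0, 0, v) = x.2.2 * fderiv ℝ p x (0, 0, v)
  law : ∀ x ∈ N, (1 / 2 : ℂ) * (fderiv ℝ p x (1, 0, 0) +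
    Complex.I * fderiv ℝ p x (Complex.I, 0, 0)) + fderiv ℝ q x (0, 1, 0) = 0

/-- the weak form of a conservation law -/
noncomputable def TT (A : ℂ → ℝ → ℂ) (p q : ℂ × ℝ × ℂ → ℂ) (φ : ℂ × ℝ → ℂ) : ℂ :=
  ∫ x : ℂ × ℝ, (p (x.1, x.2, A x.1 x.2) * dbm φ x + q (x.1, x.2, A x.1 x.2) * dtm φ x)

/-- all conservation laws hold weakly -/
def WL (A : ℂ → ℝ → ℂ) : Prop :=
  ∀ (N : Set (ℂ × ℝ × ℂ)) (p q : ℂ × ℝ × ℂ → ℂ), Law N p q →
    ∀ φ : ℂ × ℝ → ℂ, ContDiff ℝ 1 φ → HasCompactSupport φ →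
      (∀ x ∈ tsupport φ, (x.1, x.2, A x.1 x.2) ∈ N) → TT A p q φ = 0

/-- the integral of the Liouville argument -/
noncomputable def II (A : ℂ → ℝ → ℂ) (μb : ℂ) (tb : ℝ) (μ : ℂ) : ℂ :=
  ∫ t : ℝ, (1 / ((t : ℂ) + Complex.I) - 1 / el A μb tb μ t)

/-! ### the representation with its limit map -/

/-- A representation of a lattice of `U(2,1)` in `U(2,2)` (up to scalars), with gaps. -/
structure Kp (G : Type) [Group G] where
  σ : G →* GU (Fin 2)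
  R : G → M4
  lat : Lat σ
  pres : ∀ g v w, hf (R g *ᵥ v) (R g *ᵥ w) = hf v w
  one : R 1 = 1
  mul : ∀ g h, ∃ u : ℂ, ‖u‖ = 1 ∧ R (g * h) = u • (R g * R h)
  C : ℝ
  N : ℝ
  ε : ℝ
  hC : 1 ≤ C
  hN : 0 < N
  hε : 0 < ε
  gap : ∀ g, s2 (R g) ≤ C * s1 (R g) ^ (2 - ε)
  lo : ∀ g, c (σ g) ≤ C * s1 (R g) ^ N
  up : ∀ g, s1 (R g) ≤ C * c (σ g) ^ C
  near : ∀ θ ∈ Sph, ∀ s : ℝ, 1 ≤ s → ∃ g, Near C (σ g) θ ∧ s ≤ c (σ g) ∧ c (σ g) ≤ C * s

/-- the same together with its limit map -/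
structure Kd (G : Type) [Group G] extends Kp G where
  xi : Eb → V4
  xnorm : ∀ θ ∈ Sph, ‖xi θ‖ = 1
  xnull : ∀ θ ∈ Sph, hf (xi θ) (xi θ) = 0
  xtv : ∀ θ ∈ Sph, ∀ θ' ∈ Sph, θ ≠ θ' → hf (xi θ) (xi θ') ≠ 0
  xeqv : ∀ g, ∀ θ ∈ Sph, ∃ l : ℂ, l ≠ 0 ∧ R g *ᵥ xi θ = l • xi (ab (σ g) θ)
  xcont : ∀ θ ∈ Sph, ∀ η : ℝ, 0 < η → ∃ δ : ℝ, 0 < δ ∧ ∀ θ' ∈ Sph, ‖θ' - θ‖ < δ →
    ∃ l : ℂ, ‖l‖ = 1 ∧ ‖l • xi θ' - xi θ‖ < η
  xexp : ∀ δ : ℝ, 0 < δ → ∃ a : ℝ, 0 < a ∧ ∀ g, ∀ θ ∈ Sph, δ ≤ kp θ (zz (σ g)⁻¹) →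
    a * s1 (R g) ≤ ‖R g *ᵥ xi θ‖
  xapx : ∃ C' ε' : ℝ, 0 < ε' ∧ ∀ g, ∀ θ ∈ Sph, ∀ w : V4,
    wd (R g *ᵥ w) (xi θ) ≤ C' * s1 (R g) * ‖w‖ * kp (zz (σ g)) θ ^ ε'
  fol : ∀ u v : V4, (∀ a b : ℂ, a • u + b • v = 0 → a = 0 ∧ b = 0) → hf u u = 0 → hf v v = 0 →
    hf u v = 0 → ∃ θ ∈ Sph, ∃ a b : ℂ, xi θ = a • u + b • v

namespace Kd

variable {G : Type} [Group G] (D : Kd G)

/-- the cone over the limit set -/
def Lam : Set V4 := {x | ∃ θ ∈ Sph, ∃ l : ℂ, l ≠ 0 ∧ x = l • D.xi θ}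

/-- the frames of the flags -/
def FF : Set M4 := {k | k ∈ KK ∧ k *ᵥ e1 ∈ D.Lam}

/-- the point at infinity of a frame -/
noncomputable def t0 (k : M4) : Eb := by
  classical
  exact if h : ∃ θ, θ ∈ Sph ∧ ∃ l : ℂ, l ≠ 0 ∧ k *ᵥ e1 = l • D.xi θ then h.choose else 0

/-- the function of the chart of a frame -/
noncomputable def A (k : M4) (μ : ℂ) (t : ℝ) : ℂ := by
  classical
  exact if h : ∃ a : ℂ, k *ᵥ XX a μ t ∈ D.Lam then h.choose else 0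

/-- the point of the sphere with given coordinates -/
noncomputable def th (k : M4) (μ : ℂ) (t : ℝ) : Eb := by
  classical
  exact if h : ∃ θ, θ ∈ Sph ∧ ∃ l : ℂ, l ≠ 0 ∧ k *ᵥ XX (D.A k μ t) μ t = l • D.xi θ then h.choose
    else 0

/-- elements at a given level whose direction is far from `θ` -/
def LL (θ : Eb) (a s : ℝ) : Set G := {g | s ≤ c (D.σ g) ∧ c (D.σ g) ≤ D.C * s ∧ a ≤ kp (zz (D.σ g)) θ}

/-- the level sums -/
noncomputable def SS (θ : Eb) (a s : ℝ) : ℝ := ∑ᶠ g ∈ D.LL θ a s, (s1 (D.R g) ^ 4)⁻¹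

end Kd

/-! ### the half plane -/

/-- Poisson extension in the variable `t` -/
noncomputable def PE (A : ℂ → ℝ → ℂ) (μ τ : ℂ) : ℂ :=
  if 0 < τ.im then (2 * Real.pi * Complex.I)⁻¹ *
    ∫ t : ℝ, A μ t * (1 / ((t : ℂ) - τ) - 1 / ((t : ℂ) - star τ)) else A μ τ.re

/-- the coordinate space -/
abbrev C2 : Type := Fin 2 → ℂ

/-- the coordinate space of the surface -/
def Up : Set C2 := {x | 0 < (x 1).im}

/-- its closure -/
def Upc : Set C2 := {x | 0 ≤ (x 1).im}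

/-- the function of the chart in the half plane -/
noncomputable def Kd.P {G : Type} [Group G] (D : Kd G) (k : M4) (x : C2) : ℂ := PE (D.A k) (x 0) (x 1)

/-- the point of the surface -/
noncomputable def Kd.vx {G : Type} [Group G] (D : Kd G) (k : M4) (x : C2) : V4 :=
  k *ᵥ XX (D.P k x) (x 0) (x 1)

end Pool.Agent.MPd01a95.KT
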