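import Mathlib
import Pool.Agent.Lib.MP_d01a95_gt_K.KDefs

set_option autoImplicit false
set_option linter.all false

open Matrix Filter Topology MeasureTheory
open scoped ContDiff

namespace Pool.Agent.MPd01a95.KT

open GU

variable {G : Type} [Group G]

/-! # Project K: further definitions -/

/-- isometries of the standard form -/
def Iso4 (g : M4) : Prop := ∀ v w : V4, hf (g *ᵥ v) (g *ᵥ w) = hf v w

/-- special isometries -/
def SI (g : M4) : Prop := Iso4 g ∧ g.det = 1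

/-- module E1: limits of normalised elements, if the middle blocks are bounded -/
def Lim (ρ : G →* Matrix I6 I6 ℝ) : Set (Matrix I6 I6 ℝ) :=
  {L | ∃ u : ℕ → G, ∃ l : ℕ → ℝ, (∀ n, 0 < l n) ∧ Tendsto l atTop (𝓝 0) ∧
    Tendsto (fun n => l n • ρ (u n)) atTop (𝓝 L) ∧ L ≠ 0}

namespace Kd

variable (D : Kd G)

/-- the set seen from `g` -/
def OO (C : ℝ) (g : G) : Set Eb := {θ | θ ∈ Sph ∧ Near C (D.σ g) θ}

/-- its open version -/
def OI (C : ℝ) (g : G) : Set Eb := {θ | θ ∈ Sph ∧ kp (zz (D.σ g)) θ * c (D.σ g) ^ 2 < C}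

/-- measures adapted to the point `θ` -/
structure Ms (C a C' S : ℝ) (θ : Eb) (m : Measure Eb) : Prop where
  supp : m {x | ¬ (x ∈ Sph ∧ x ≠ θ)} = 0
  fin : m {x | x ∈ Sph ∧ a / 64 ≤ kp x θ} ≤ ENNReal.ofReal C'
  lo : ∀ g, S ≤ c (D.σ g) → a ≤ kp (zz (D.σ g)) θ →
    ENNReal.ofReal ((C')⁻¹ * (s2 (D.R g) / s1 (D.R g)) ^ 2 * (s1 (D.R g) ^ 4)⁻¹) ≤ m (D.OI C g)
  up : ∀ g, S ≤ c (D.σ g) → a ≤ kp (zz (D.σ g)) θ →
    m (D.OO C g) ≤ ENNReal.ofReal (C' * (s2 (D.R g) / s1 (D.R g)) ^ 2 * (s1 (D.R g) ^ 4)⁻¹)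

end Kd

/-- the centre of the linear form -/
noncomputable def kb (A : ℂ → ℝ → ℂ) (μb : ℂ) (tb : ℝ) (μ : ℂ) : ℂ :=
  (tb : ℂ) - star (star μb - star μ) * star (A μb tb)

namespace Kd

variable (D : Kd G)

/-- the coefficient `n`, as a continuous function -/
noncomputable def nn (k : M4) (μb : ℂ) (tb : ℝ) : ℂ :=
  -(II (D.A k) μb tb (μb + 1) - II (D.A k) μb tb (μb + Complex.I)) / 2

end Kd

/-- the curve -/
def Ks (A : ℂ → ℝ → ℂ) (μ δ : ℂ) : Set ℂ := Set.range fun t : ℝ => (t : ℂ) + δ * A μ t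

/-- the integral as a function of the centre -/
noncomputable def Ph (A : ℂ → ℝ → ℂ) (μ δ κ : ℂ) : ℂ :=
  ∫ t : ℝ, (1 / ((t : ℂ) + Complex.I) - 1 / ((t : ℂ) + δ * A μ t - κ))

/-- the lower component of the complement of the curve -/
def Lo (A : ℂ → ℝ → ℂ) (μ δ : ℂ) : Set ℂ :=
  {z | ∃ Y₀ : ℝ, ∀ Y : ℝ, Y₀ ≤ Y → JoinedIn (Ks A μ δ)ᶜ z (-(Complex.I * Y))}

/-- the involution exchanging the signs of the form -/
def io : M4 := !![0, 0, 1, 0; 0, 0, 0, 1; 1, 0, 0, 0; 0, 1, 0, 0]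

/-- the Cauchy integrals of `A` vanish in the lower half plane -/
def CZ (A : ℂ → ℝ → ℂ) : Prop := ∀ μ κ : ℂ, κ.im < 0 → ∫ t : ℝ, A μ t / ((t : ℂ) - κ) ^ 2 = 0

/-- derivative in the conjugate variable -/
noncomputable def dbc (φ : ℂ → ℂ) (x : ℂ) : ℂ :=
  (1 / 2 : ℂ) * (fderiv ℝ φ x 1 + Complex.I * fderiv ℝ φ x Complex.I)

/-- derivative in `z_a` -/
noncomputable def pd (f : C2 → ℂ) (a : Fin 2) (v : C2) : ℂ :=
  (1 / 2 : ℂ) * (fderiv ℝ f v (Pi.single a 1) - Complex.I * fderiv ℝ f v (Pi.single a Complex.I))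

/-- derivative in the conjugate of `z_a` -/
noncomputable def pb (f : C2 → ℂ) (a : Fin 2) (v : C2) : ℂ :=
  (1 / 2 : ℂ) * (fderiv ℝ f v (Pi.single a 1) + Complex.I * fderiv ℝ f v (Pi.single a Complex.I))

/-- the good situation: conservation laws, extension to the upper half plane -/
structure Good (D : Kd G) : Prop where
  wl : ∀ k ∈ D.FF, WL (D.A k)
  ii : ∀ k ∈ D.FF, ∀ μb tb μ, μ ≠ μb → II (D.A k) μb tb μ = 0
  cz : ∀ k ∈ D.FF, CZ (D.A k)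
  lo : ∀ k ∈ D.FF, ∀ μb tb μ, μ ≠ μb → kb (D.A k) μb tb μ ∈ Lo (D.A k) μ (star μb - star μ)

namespace Kd

variable (D : Kd G)

/-- the cone over the surface of a frame -/
def VV (k : M4) : Set V4 := {v | ∃ x ∈ Up, ∃ l : ℂ, l ≠ 0 ∧ v = l • D.vx k x}

/-- the cone over a disc -/
def DD (k : M4) (m : ℂ) : Set V4 := {v | ∃ τ : ℂ, 0 < τ.im ∧ ∃ l : ℂ, l ≠ 0 ∧ v = l • D.vx k ![m, τ]}

end Kd

end Pool.Agent.MPd01a95.KT
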