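import Mathlib
import Pool.Agent.Lib.MP_d01a95_gt_K.KDefs2

set_option autoImplicit false
set_option linter.all false

open Matrix Filter Topology MeasureTheory
open scoped ContDiff

namespace Pool.Agent.MPd01a95.KT

open GU

variable {G : Type} [Group G]

theorem A1_norm_le {a : Eb} (ha : a ∈ Cb) : ‖a‖ ≤ 1 := by
  simpa [Cb] using ha

theorem A1_mem {a : Eb} (ha : ‖a‖ ≤ 1) : a ∈ Cb := by
  simpa [Cb] using ha

theorem A1_sph {a : Eb} : a ∈ Sph ↔ ‖a‖ = 1 := by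
  simp [Sph]

theorem A1_sub {a : Eb} (ha : a ∈ Sph) : a ∈ Cb := A1_mem (A1_sph.mp ha).le

theorem A1_zero : (0 : Eb) ∈ Cb := A1_mem (by simp)

/-- the form -/
noncomputable def A1_h (x v : Fin 2 ⊕ Unit → ℂ) : ℂ := star x ⬝ᵥ (JC (Fin 2) *ᵥ v)

theorem A1_h_eq (x v : Fin 2 ⊕ Unit → ℂ) : A1_h x v =
    ∑ i, star (x (Sum.inl i)) * v (Sum.inl i) - star (x (Sum.inr ())) * v (Sum.inr ()) :=
  LowAux.herm x v

theorem A1_h_smul (a b : ℂ) (x v : Fin 2 ⊕ Unit → ℂ) : A1_h (a • x) (b • v) = star a * b * A1_h x v := by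
  rw [A1_h_eq, A1_h_eq]
  simp only [Pi.smul_apply, smul_eq_mul, star_mul', Fin.sum_univ_two]
  ring

theorem A1_h_pres (g : GU (Fin 2)) (x v : Fin 2 ⊕ Unit → ℂ) : A1_h (g.M *ᵥ x) (g.M *ᵥ v) = A1_h x v := by
  unfold A1_h
  rw [Matrix.star_mulVec, ← Matrix.dotProduct_mulVec, Matrix.mulVec_mulVec, Matrix.mulVec_mulVec,
      g.pres]

theorem A1_h_adj (g : GU (Fin 2)) (x v : Fin 2 ⊕ Unit → ℂ) : A1_h (g.M *ᵥ x) v = A1_h x (g⁻¹.M *ᵥ v) := by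
  rw [← A1_h_pres g x (g⁻¹.M *ᵥ v), Matrix.mulVec_mulVec, mul_inv_M, Matrix.one_mulVec]

theorem A1_h_lv (z w : Eb) : A1_h (lv z) (lv w) = inner ℂ z w - 1 := by
  rw [A1_h_eq]
  simp [lv, PiLp.inner_apply, mul_comm]

theorem A1_kp (z w : Eb) : kp z w = ‖A1_h (lv z) (lv w)‖ := by
  rw [A1_h_lv, kp, norm_sub_rev]

theorem A1_nq (z : Eb) : LowAux.nqC (lv z) = 1 - ‖z‖ ^ 2 := by
  rw [LowAux.nqC, EuclideanSpace.norm_eq, Real.sq_sqrt (Finset.sum_nonneg fun i _ => by positivity)]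
  simp [lv]

/-- the denominator -/
noncomputable def A1_d (g : GU (Fin 2)) (z : Eb) : ℂ := (g.M *ᵥ lv z) (Sum.inr ())

theorem A1_ja (g : GU (Fin 2)) (z : Eb) : ja g z = ‖A1_d g z‖ := rfl

theorem A1_d_ne (g : GU (Fin 2)) {z : Eb} (hz : z ∈ Cb) : A1_d g z ≠ 0 := by
  intro h0
  have h1 : LowAux.nqC (g.M *ᵥ lv z) = LowAux.nqC (lv z) := LowAux.nqC_iso g.pres _
  rw [A1_nq] at h1
  have h2 : (g.M *ᵥ lv z) (Sum.inr ()) = 0 := h0
  have hn := A1_norm_le hz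
  have hn0 := norm_nonneg z
  unfold LowAux.nqC at h1
  rw [h2, norm_zero, zero_pow two_ne_zero, zero_sub, Fin.sum_univ_two] at h1
  have h3 : (g.M *ᵥ lv z) (Sum.inl 0) = 0 := by
    have : ‖(g.M *ᵥ lv z) (Sum.inl 0)‖ ^ 2 ≤ 0 := by nlinarith [sq_nonneg ‖(g.M *ᵥ lv z) (Sum.inl 1)‖]
    have := pow_eq_zero_iff (two_ne_zero) |>.mp (le_antisymm this (sq_nonneg _))
    exact norm_eq_zero.mp this
  have h4 : (g.M *ᵥ lv z) (Sum.inl 1) = 0 := by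
    have : ‖(g.M *ᵥ lv z) (Sum.inl 1)‖ ^ 2 ≤ 0 := by nlinarith [sq_nonneg ‖(g.M *ᵥ lv z) (Sum.inl 0)‖]
    have := pow_eq_zero_iff (two_ne_zero) |>.mp (le_antisymm this (sq_nonneg _))
    exact norm_eq_zero.mp this
  have h5 : g.M *ᵥ lv z = 0 := by
    funext i
    rcases i with i | i
    · fin_cases i
      · exact h3
      · exact h4
    · exact h2
  have h6 : lv z = 0 := by
    rw [← Matrix.one_mulVec (lv z), ← inv_mul_M g, ← Matrix.mulVec_mulVec, h5, Matrix.mulVec_zero]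
  have := congrFun h6 (Sum.inr ())
  simp [lv] at this

theorem A1_act (g : GU (Fin 2)) {z : Eb} (hz : z ∈ Cb) : g.M *ᵥ lv z = A1_d g z • lv (ab g z) := by
  have hd := A1_d_ne g hz
  funext i
  rcases i with i | i
  · simp only [Pi.smul_apply, smul_eq_mul, lv, Sum.elim_inl, ab]
    change (g.M *ᵥ lv z) (Sum.inl i) = A1_d g z * ((g.M *ᵥ lv z) (Sum.inl i) / A1_d g z)
    field_simp
  · simp only [Pi.smul_apply, smul_eq_mul, lv, Sum.elim_inr, mul_one]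
    rfl

theorem A1_nq_smul (a : ℂ) (v : Fin 2 ⊕ Unit → ℂ) : LowAux.nqC (a • v) = ‖a‖ ^ 2 * LowAux.nqC v := by
  simp only [LowAux.nqC, Pi.smul_apply, smul_eq_mul, norm_mul, mul_pow, mul_sub, Finset.mul_sum]

theorem A1_norm_ab (g : GU (Fin 2)) {z : Eb} (hz : z ∈ Cb) :
    1 - ‖z‖ ^ 2 = ja g z ^ 2 * (1 - ‖ab g z‖ ^ 2) := by
  rw [← A1_nq, ← A1_nq, ← LowAux.nqC_iso g.pres (lv z), A1_ja, ← A1_nq_smul, ← A1_act g hz]

theorem A1_lv_inj {z w : Eb} {a : ℂ} (h : lv z = a • lv w) : z = w := by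
  have h1 := congrFun h (Sum.inr ())
  simp [lv] at h1
  ext i
  have h2 := congrFun h (Sum.inl i)
  simp [lv, ← h1] at h2
  exact h2

theorem A1_lv0 : lv (0 : Eb) = Pi.single (Sum.inr ()) 1 := by
  funext i
  rcases i with i | i
  · simp [lv]
  · simp [lv]

theorem A1_d0 (g : GU (Fin 2)) : A1_d g 0 = g.M (Sum.inr ()) (Sum.inr ()) := by
  rw [A1_d, A1_lv0]
  simp

theorem A1_ja0 (g : GU (Fin 2)) : ja g 0 = c g := by
  rw [A1_ja, A1_d0]; rfl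

theorem A1_kp0 (z : Eb) : kp 0 z = 1 := by
  simp [kp]

theorem A1_h_zero (x : Fin 2 ⊕ Unit → ℂ) : A1_h x (lv 0) = - star (x (Sum.inr ())) := by
  rw [A1_h_eq]
  simp [lv]

theorem A1_inner_le {a b : Eb} (hb : b ∈ Cb) : ‖(inner ℂ a b : ℂ)‖ ≤ ‖a‖ := by
  have h1 := norm_inner_le_norm (𝕜 := ℂ) a b
  have h2 := A1_norm_le hb
  have h3 := norm_nonneg a
  nlinarith

theorem A1_ge {a b : Eb} (hb : b ∈ Cb) : 1 - ‖a‖ ≤ kp a b := by
  have h1 := A1_inner_le (a := a) hb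
  have h2 : ‖(1 : ℂ)‖ - ‖(inner ℂ a b : ℂ)‖ ≤ ‖(1 : ℂ) - inner ℂ a b‖ := norm_sub_norm_le _ _
  rw [norm_one] at h2
  unfold kp
  linarith

theorem A1_sq {a b : Eb} (ha : a ∈ Cb) (hb : b ∈ Cb) : ‖a - b‖ ^ 2 ≤ 2 * kp a b := by
  have h1 := norm_sub_sq (𝕜 := ℂ) a b
  have h2 : 1 - (inner ℂ a b : ℂ).re ≤ kp a b := by
    have := Complex.re_le_norm ((1 : ℂ) - inner ℂ a b)
    rw [Complex.sub_re, Complex.one_re] at this
    exact this
  have h3 := A1_norm_le ha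
  have h4 := A1_norm_le hb
  have h5 := norm_nonneg a
  have h6 := norm_nonneg b
  have h7 : RCLike.re (inner ℂ a b : ℂ) = (inner ℂ a b : ℂ).re := rfl
  rw [h7] at h1
  nlinarith

theorem A1_symm (a b : Eb) : kp a b = kp b a := by
  unfold kp
  rw [← inner_conj_symm (𝕜 := ℂ) a b]
  have : (1 : ℂ) - (starRingEnd ℂ) (inner ℂ b a) = (starRingEnd ℂ) (1 - inner ℂ b a) := by simp
  rw [this, RCLike.norm_conj]

theorem A1_nn (a b : Eb) : 0 ≤ kp a b := norm_nonneg _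

/-- module A1 -/
theorem kp_tri {a b x : Eb} (ha : a ∈ Cb) (hb : b ∈ Cb) (hx : x ∈ Cb) :
    kp a b ≤ 4 * (kp x a + kp x b) := by
  have e : (1 : ℂ) - inner ℂ a b = (1 - inner ℂ a x) + (1 - inner ℂ x b) - (1 - inner ℂ x x) +
      inner ℂ (a - x) (x - b) := by
    simp only [inner_sub_left, inner_sub_right]
    ring
  have h1 : ‖(1 : ℂ) - inner ℂ x x‖ ≤ kp x a + kp x b := by
    have e1 : (1 : ℂ) - inner ℂ x x = ((1 - ‖x‖ ^ 2 : ℝ) : ℂ) := by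
      rw [inner_self_eq_norm_sq_to_K]
      push_cast
      rfl
    rw [e1, Complex.norm_real, Real.norm_eq_abs]
    have h2 := A1_norm_le hx
    have h3 := norm_nonneg x
    rw [abs_of_nonneg (by nlinarith)]
    have h4 := A1_ge (a := x) ha
    have h5 := A1_ge (a := x) hb
    nlinarith
  have h2 : ‖(inner ℂ (a - x) (x - b) : ℂ)‖ ≤ kp x a + kp x b := by
    have h3 := norm_inner_le_norm (𝕜 := ℂ) (a - x) (x - b)
    have h4 := A1_sq hx ha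
    have h5 := A1_sq hx hb
    rw [norm_sub_rev] at h4
    nlinarith [sq_nonneg (‖a - x‖ - ‖x - b‖)]
  have h3 : kp a b ≤ kp a x + kp x b + ‖(1 : ℂ) - inner ℂ x x‖ + ‖(inner ℂ (a - x) (x - b) : ℂ)‖ := by
    unfold kp
    rw [e]
    refine (norm_add_le _ _).trans ?_
    have h6 := norm_sub_le ((1 : ℂ) - inner ℂ a x + (1 - inner ℂ x b)) (1 - inner ℂ x x)
    have h7 := norm_add_le ((1 : ℂ) - inner ℂ a x) (1 - inner ℂ x b)
    linarith
  rw [A1_symm a x] at h3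
  have := A1_nn x a
  have := A1_nn x b
  linarith

/-- module A1 -/
theorem kp_symm (a b : Eb) : kp a b = kp b a := A1_symm a b

/-- module A1 -/
theorem kp_le_two {a b : Eb} (ha : a ∈ Cb) (hb : b ∈ Cb) : kp a b ≤ 2 := by
  have h1 := A1_inner_le (a := a) hb
  have h2 := A1_norm_le ha
  have h3 : ‖(1 : ℂ) - inner ℂ a b‖ ≤ ‖(1 : ℂ)‖ + ‖(inner ℂ a b : ℂ)‖ := norm_sub_le _ _
  rw [norm_one] at h3
  unfold kp
  linarith

/-- module A1 -/
theorem kp_ge {a b : Eb} (ha : a ∈ Cb) (hb : b ∈ Cb) : 1 - ‖a‖ ≤ kp a b := A1_ge hb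

/-- module A1 -/
theorem kp_sq {a b : Eb} (ha : a ∈ Cb) (hb : b ∈ Cb) : ‖a - b‖ ^ 2 ≤ 2 * kp a b := A1_sq ha hb

/-- module A1 -/
theorem kp_self {θ : Eb} (h : θ ∈ Sph) : kp θ θ = 0 := by
  unfold kp
  rw [inner_self_eq_norm_sq_to_K, A1_sph.mp h]
  simp

/-- module A1 -/
theorem kp_pos {a b : Eb} (ha : a ∈ Cb) (hb : b ∈ Cb) (h : a ≠ b) : 0 < kp a b := by
  have h1 := A1_sq ha hb
  have h2 : 0 < ‖a - b‖ := norm_pos_iff.mpr (sub_ne_zero.mpr h)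
  nlinarith [sq_pos_of_pos h2]

/-- module A1 -/
theorem kp_cont : Continuous fun p : Eb × Eb => kp p.1 p.2 := by
  unfold kp
  fun_prop

theorem A1_ja_eq (g : GU (Fin 2)) (z : Eb) : ja g z = c g * kp z (zz g⁻¹) := by
  have h1 : ja g z = ‖A1_h (g.M *ᵥ lv z) (lv 0)‖ := by
    rw [A1_h_zero, norm_neg, norm_star]
    rfl
  rw [h1, A1_h_adj, A1_act g⁻¹ A1_zero]
  have h2 := A1_h_smul 1 (A1_d g⁻¹ 0) (lv z) (lv (ab g⁻¹ 0))
  rw [one_smul, star_one, one_mul] at h2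
  rw [h2, norm_mul, ← A1_ja, A1_ja0, c_inv, ← A1_kp]
  rfl

/-- module A1 -/
theorem ja_eq (g : GU (Fin 2)) {z : Eb} (hz : z ∈ Cb) : ja g z = c g * kp z (zz g⁻¹) := A1_ja_eq g z

/-- module A1 -/
theorem ja_pos (g : GU (Fin 2)) {z : Eb} (hz : z ∈ Cb) : 0 < ja g z := by
  rw [A1_ja]
  exact norm_pos_iff.mpr (A1_d_ne g hz)

/-- module A1 -/
theorem ab_mem (g : GU (Fin 2)) {z : Eb} (hz : z ∈ Cb) : ab g z ∈ Cb := by
  apply A1_mem
  have h1 := A1_norm_ab g hz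
  have h2 := ja_pos g hz
  have h3 := A1_norm_le hz
  have h4 := norm_nonneg z
  have h5 : 0 < ja g z ^ 2 := by positivity
  by_contra hc
  push Not at hc
  have h6 : 1 - ‖ab g z‖ ^ 2 < 0 := by nlinarith
  have h7 := mul_neg_of_pos_of_neg h5 h6
  nlinarith

/-- module A1 -/
theorem ab_sph (g : GU (Fin 2)) {z : Eb} (hz : z ∈ Sph) : ab g z ∈ Sph := by
  rw [A1_sph]
  have h1 := A1_norm_ab g (A1_sub hz)
  have h2 := ja_pos g (A1_sub hz)
  rw [A1_sph.mp hz] at h1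
  have h5 : ja g z ^ 2 ≠ 0 := by positivity
  have h6 : 1 - ‖ab g z‖ ^ 2 = 0 := by
    have : ja g z ^ 2 * (1 - ‖ab g z‖ ^ 2) = 0 := by rw [← h1]; norm_num
    exact (mul_eq_zero.mp this).resolve_left h5
  have h7 := norm_nonneg (ab g z)
  nlinarith

/-- module A1 -/
theorem ab_ball (g : GU (Fin 2)) {z : Eb} (hz : ‖z‖ < 1) : ‖ab g z‖ < 1 := by
  have h1 := A1_norm_ab g (A1_mem hz.le)
  have h2 := ja_pos g (A1_mem hz.le)
  have h4 := norm_nonneg z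
  have h5 : 0 < ja g z ^ 2 := by positivity
  by_contra hc
  push Not at hc
  have h6 : 1 - ‖ab g z‖ ^ 2 ≤ 0 := by nlinarith
  have h7 := mul_nonpos_of_nonneg_of_nonpos h5.le h6
  nlinarith

/-- module A1 -/
theorem kp_ab (g : GU (Fin 2)) {z w : Eb} (hz : z ∈ Cb) (hw : w ∈ Cb) :
    kp (ab g z) (ab g w) * (ja g z * ja g w) = kp z w := by
  rw [A1_kp z w, ← A1_h_pres g, A1_act g hz, A1_act g hw, A1_h_smul, norm_mul, norm_mul, norm_star,
    ← A1_kp, A1_ja, A1_ja]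
  ring

/-- module A1 -/
theorem kp_act (g : GU (Fin 2)) {z w : Eb} (hz : z ∈ Cb) (hw : w ∈ Cb) :
    kp (ab g⁻¹ z) (ab g⁻¹ w) * (c g ^ 2 * kp z (zz g) * kp w (zz g)) = kp z w := by
  have h1 := kp_ab g⁻¹ hz hw
  rw [ja_eq g⁻¹ hz, ja_eq g⁻¹ hw, inv_inv, c_inv] at h1
  rw [← h1]
  ring

/-- module A1 -/
theorem ab_mul (g h : GU (Fin 2)) {z : Eb} (hz : z ∈ Cb) : ab (g * h) z = ab g (ab h z) := by
  have h1 := A1_act (g * h) hz
  have h2 := A1_act h hz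
  have h3 := A1_act g (ab_mem h hz)
  have e : (g * h).M *ᵥ lv z = (A1_d h z * A1_d g (ab h z)) • lv (ab g (ab h z)) := by
    rw [GU.M_mul, ← Matrix.mulVec_mulVec, h2, Matrix.mulVec_smul, h3, smul_smul]
  rw [e] at h1
  have hd := A1_d_ne (g * h) hz
  refine (A1_lv_inj (a := (A1_d (g * h) z)⁻¹ * (A1_d h z * A1_d g (ab h z))) ?_)
  rw [mul_smul, h1, smul_smul, inv_mul_cancel₀ hd, one_smul]

/-- module A1 -/
theorem ab_one (z : Eb) : ab 1 z = z := by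
  ext i
  simp [ab, lv]

/-- module A1 -/
theorem zz_mem (g : GU (Fin 2)) : zz g ∈ Cb := ab_mem g A1_zero

/-- module A1 -/
theorem zz_norm (g : GU (Fin 2)) : ‖zz g‖ ^ 2 = 1 - (c g ^ 2)⁻¹ := by
  have h1 := A1_norm_ab g A1_zero
  rw [A1_ja0, norm_zero] at h1
  change _ = c g ^ 2 * (1 - ‖zz g‖ ^ 2) at h1
  have h2 := c_ge_one g
  have h3 : c g ≠ 0 := by positivity
  field_simp
  nlinarith

/-- module A1 -/
theorem c_div (g h : GU (Fin 2)) : c (g⁻¹ * h) = c g * c h * kp (zz g) (zz h) := by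
  have h1 : c (g⁻¹ * h) = ‖A1_h ((g⁻¹ * h).M *ᵥ lv 0) (lv 0)‖ := by
    rw [A1_h_zero, norm_neg, norm_star, ← A1_ja0]
    rfl
  have h2 : A1_h ((g⁻¹ * h).M *ᵥ lv 0) (lv 0) = A1_h (h.M *ᵥ lv 0) (g.M *ᵥ lv 0) := by
    rw [GU.M_mul, ← Matrix.mulVec_mulVec, A1_h_adj, inv_inv]
  rw [h1, h2, A1_act g A1_zero, A1_act h A1_zero, A1_h_smul, norm_mul, norm_mul, norm_star,
    ← A1_kp, ← A1_ja, ← A1_ja, A1_ja0, A1_ja0, A1_symm]
  change c h * c g * kp (zz g) (zz h) = _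
  ring

/-- module A1 -/
theorem near_dual (g : GU (Fin 2)) {θ : Eb} (hθ : θ ∈ Sph) :
    c g ^ 2 * kp (zz g) θ * kp (zz g⁻¹) (ab g⁻¹ θ) = 1 := by
  have h1 := kp_ab g⁻¹ A1_zero (A1_sub hθ)
  rw [A1_ja0, ja_eq g⁻¹ (A1_sub hθ), inv_inv, c_inv, A1_kp0, A1_symm θ (zz g)] at h1
  change kp (zz g⁻¹) (ab g⁻¹ θ) * _ = 1 at h1
  rw [← h1]
  ring

/-- module A1 -/
theorem ab_cont (g : GU (Fin 2)) : ContinuousOn (ab g) Cb := by
  have hl : Continuous lv := by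
    rw [continuous_pi_iff]
    rintro (i | i)
    · simp only [lv, Sum.elim_inl]
      fun_prop
    · simp only [lv, Sum.elim_inr]
      fun_prop
  have hm : Continuous fun z : Eb => g.M *ᵥ lv z := continuous_const.matrix_mulVec hl
  have h1 : ContinuousOn (fun z : Eb => fun i : Fin 2 =>
      (g.M *ᵥ lv z) (Sum.inl i) / (g.M *ᵥ lv z) (Sum.inr ())) Cb := by
    rw [continuousOn_pi]
    intro i
    refine ContinuousOn.div ((continuous_apply (Sum.inl i)).comp hm).continuousOn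
      ((continuous_apply (Sum.inr ())).comp hm).continuousOn ?_
    intro z hz
    exact A1_d_ne g hz
  exact (PiLp.continuous_toLp 2 (fun _ : Fin 2 => ℂ)).comp_continuousOn h1

/-- module A1 -/
theorem sph_conn : IsConnected Sph := by
  have h : 1 < Module.rank ℝ Eb := by
    have h1 : Module.finrank ℝ Eb = 4 := by
      have := finrank_real_of_complex Eb
      rw [this]
      simp
    rw [← Module.finrank_eq_rank, h1]
    norm_num
  exact isConnected_sphere h 0 zero_le_one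

end Pool.Agent.MPd01a95.KT
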