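import Mathlib
import Pool.Agent.Lib.MP_d01a95_gt_K.KDefs2
import Pool.Agent.Lib.MP_d01a95_gt_K.KA1
import Pool.Agent.Lib.MP_d01a95_gt_H.Boost

set_option autoImplicit false
set_option linter.all false

open Matrix Filter Topology MeasureTheory
open scoped ContDiff

namespace Pool.Agent.MPd01a95.KT

open GU

variable {G : Type} [Group G]

theorem A2_sph_cb {θ : Eb} (h : θ ∈ Sph) : θ ∈ Cb := Metric.sphere_subset_closedBall h

theorem A2_sph_norm {θ : Eb} (h : θ ∈ Sph) : ‖θ‖ = 1 := by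
  have := mem_sphere_zero_iff_norm.mp h
  exact this

theorem A2_cpos (g : GU (Fin 2)) : 0 < c g := lt_of_lt_of_le one_pos (c_ge_one g)

theorem A2_kp_nonneg (z w : Eb) : 0 ≤ kp z w := norm_nonneg _

theorem A2_near_mono {C C' : ℝ} (h : C ≤ C') {g : GU (Fin 2)} {θ : Eb} (hn : Near C g θ) :
    Near C' g θ := le_trans hn h

/-- a positive multiple of a point of the sphere is close to it -/
theorem A2_kp_ray {θ : Eb} (hθ : θ ∈ Sph) {r : ℝ} (h0 : 0 ≤ r) (h1 : r ≤ 1) :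
    kp ((r : ℂ) • θ) θ = 1 - r := by
  have hn := A2_sph_norm hθ
  unfold kp
  rw [inner_smul_left, inner_self_eq_norm_sq_to_K, hn, Complex.conj_ofReal]
  have : (1 : ℂ) - (r : ℂ) * ((1 : ℝ) : ℂ) ^ 2 = ((1 - r : ℝ) : ℂ) := by push_cast; ring
  have h2 : ((1 : ℂ) - (r : ℂ) * (((1 : ℝ) : ℂ)) ^ 2) = ((1 - r : ℝ) : ℂ) := this
  erw [h2]
  rw [Complex.norm_real, Real.norm_of_nonneg (by linarith)]

/-- elements pointing in the direction of `θ` are near `θ` -/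
theorem A2_near_ray {θ : Eb} (hθ : θ ∈ Sph) (g : GU (Fin 2)) {r : ℝ} (h0 : 0 ≤ r)
    (hz : zz g = (r : ℂ) • θ) : kp (zz g) θ * c g ^ 2 ≤ 1 := by
  have hn := A2_sph_norm hθ
  have hr : ‖zz g‖ = r := by
    rw [hz, norm_smul, hn, Complex.norm_real, Real.norm_of_nonneg h0, mul_one]
  have hs := zz_norm g
  rw [hr] at hs
  have hc := A2_cpos g
  have h1 : r ≤ 1 := by
    have : 0 < (c g ^ 2)⁻¹ := by positivity
    nlinarith
  rw [hz, A2_kp_ray hθ h0 h1]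
  have h2 : 1 - r ≤ (c g ^ 2)⁻¹ := by nlinarith
  calc (1 - r) * c g ^ 2 ≤ (c g ^ 2)⁻¹ * c g ^ 2 := by gcongr
    _ = 1 := inv_mul_cancel₀ (by positivity)

/-- boosts in all directions -/
theorem A2_boost {θ : Eb} (hθ : θ ∈ Sph) {T : ℝ} (hT : 1 ≤ T) :
    ∃ b : GU (Fin 2), c b = T ∧ ∃ r : ℝ, 0 ≤ r ∧ zz b = (r : ℂ) • θ := by
  have hn := A2_sph_norm hθ
  have hu : ∑ i, ‖θ i‖ ^ 2 = 1 := by
    have := EuclideanSpace.norm_sq_eq θ
    rw [hn] at this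
    linarith
  obtain ⟨A, hA, hAu⟩ := exists_unitary (0 : Fin 2) (fun i => θ i) hu
  obtain ⟨k, hk, hkM⟩ := exists_K A hA 1 (by simp)
  set t := Real.arcosh T with ht
  have htc : Real.cosh t = T := Real.cosh_arcosh hT
  have ht0 : 0 ≤ t := Real.arcosh_nonneg hT
  have hsh : 0 ≤ Real.sinh t := Real.sinh_nonneg_iff.mpr ht0
  refine ⟨k * bo t (0, true), ?_, Real.sinh t / Real.cosh t, by positivity, ?_⟩
  · rw [c_K_mul _ _ hk, c_bo, htc]
  · have e : lv (0 : Eb) = GU.e0 := by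
      ext i
      cases i with
      | inl i => simp [lv, GU.e0]
      | inr i => simp [lv, GU.e0]
    have hch : (Real.cosh t : ℂ) ≠ 0 := by exact_mod_cast (Real.cosh_pos t).ne'
    have h1 : ∀ i, ((k * bo t (0, true)).M *ᵥ lv 0) (Sum.inl i) = (Real.sinh t : ℂ) * θ i := by
      intro i
      rw [e, M_mul, ← Matrix.mulVec_mulVec, bo_M, boM_e0, hkM]
      simp [Matrix.mulVec, dotProduct, Fintype.sum_sum_type, GU.e0, ej, wb, hAu]
      ring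
    have h2 : ((k * bo t (0, true)).M *ᵥ lv 0) (Sum.inr ()) = (Real.cosh t : ℂ) := by
      rw [e, M_mul, ← Matrix.mulVec_mulVec, bo_M, boM_e0, hkM]
      simp [Matrix.mulVec, dotProduct, Fintype.sum_sum_type, GU.e0, ej, wb]
    ext i
    unfold zz ab
    simp only [h1, h2]
    simp only [PiLp.smul_apply, smul_eq_mul]
    push_cast
    field_simp

/-- module A2 -/
theorem exists_near {σ : G →* GU (Fin 2)} (hL : Lat σ) : ∃ C : ℝ, 1 ≤ C ∧ ∀ θ ∈ Sph, ∀ s : ℝ,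
    1 ≤ s → ∃ g, Near C (σ g) θ ∧ s ≤ c (σ g) ∧ c (σ g) ≤ C * s := by
  obtain ⟨R, hR⟩ := hL.coc
  have hR1 : 1 ≤ R := by
    obtain ⟨g, hg⟩ := hR 1
    exact (c_ge_one _).trans hg
  refine ⟨24 * R ^ 2, by nlinarith, fun θ hθ s hs => ?_⟩
  obtain ⟨b, hb, r, hr0, hr⟩ := A2_boost hθ (T := 2 * R * s) (by nlinarith)
  obtain ⟨g, hg⟩ := hR b
  refine ⟨g⁻¹, ?_⟩
  have hbp := A2_cpos b
  have hgp := A2_cpos (σ g⁻¹)
  have e1 : σ g * b = (σ g⁻¹)⁻¹ * b := by rw [map_inv, inv_inv]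
  have h1 : c (σ g⁻¹) * c b * kp (zz (σ g⁻¹)) (zz b) ≤ R := by
    rw [← c_div, ← e1]; exact hg
  have h2 : c (σ g⁻¹) ≤ 2 * R * c b := by
    have h3 := c_mul (σ g * b) b⁻¹
    rw [mul_inv_cancel_right, c_inv] at h3
    rw [map_inv, c_inv]
    refine h3.trans ?_
    gcongr
  have h3 : c b ≤ 2 * c (σ g⁻¹) * R := by
    have h4 := c_mul (σ g⁻¹) (σ g * b)
    rw [← mul_assoc, ← map_mul, inv_mul_cancel, map_one, one_mul] at h4
    refine h4.trans ?_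
    gcongr
  have hlow : s ≤ c (σ g⁻¹) := by
    rw [hb] at h3
    nlinarith
  have hup : c (σ g⁻¹) ≤ 4 * R ^ 2 * s := by
    rw [hb] at h2
    nlinarith
  refine ⟨?_, hlow, hup.trans (by nlinarith)⟩
  have h4 : kp (zz (σ g⁻¹)) θ ≤ 4 * (kp (zz b) (zz (σ g⁻¹)) + kp (zz b) θ) :=
    kp_tri (zz_mem _) (A2_sph_cb hθ) (zz_mem _)
  have h5 : kp (zz b) θ * c b ^ 2 ≤ 1 := A2_near_ray hθ b hr0 hr
  rw [kp_symm (zz b)] at h4
  have hk1 := A2_kp_nonneg (zz (σ g⁻¹)) (zz b)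
  have hk2 := A2_kp_nonneg (zz b) θ
  have h6 : kp (zz (σ g⁻¹)) (zz b) * c (σ g⁻¹) ^ 2 ≤ 2 * R ^ 2 := by
    calc kp (zz (σ g⁻¹)) (zz b) * c (σ g⁻¹) ^ 2
        = kp (zz (σ g⁻¹)) (zz b) * c (σ g⁻¹) * c (σ g⁻¹) := by ring
      _ ≤ kp (zz (σ g⁻¹)) (zz b) * c (σ g⁻¹) * (2 * R * c b) := by gcongr
      _ = 2 * R * (c (σ g⁻¹) * c b * kp (zz (σ g⁻¹)) (zz b)) := by ring
      _ ≤ 2 * R * R := by gcongr
      _ = 2 * R ^ 2 := by ring
  have h7 : kp (zz b) θ * c (σ g⁻¹) ^ 2 ≤ 4 * R ^ 2 := by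
    calc kp (zz b) θ * c (σ g⁻¹) ^ 2 ≤ kp (zz b) θ * (2 * R * c b) ^ 2 := by gcongr
      _ = 4 * R ^ 2 * (kp (zz b) θ * c b ^ 2) := by ring
      _ ≤ 4 * R ^ 2 * 1 := by gcongr
      _ = 4 * R ^ 2 := by ring
  unfold Near
  calc kp (zz (σ g⁻¹)) θ * c (σ g⁻¹) ^ 2
      ≤ 4 * (kp (zz (σ g⁻¹)) (zz b) + kp (zz b) θ) * c (σ g⁻¹) ^ 2 := by gcongr
    _ = 4 * (kp (zz (σ g⁻¹)) (zz b) * c (σ g⁻¹) ^ 2) + 4 * (kp (zz b) θ * c (σ g⁻¹) ^ 2) := by
      ring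
    _ ≤ 4 * (2 * R ^ 2) + 4 * (4 * R ^ 2) := by gcongr
    _ = 24 * R ^ 2 := by ring

/-- module A2 -/
theorem near_two (C : ℝ) (hC : 1 ≤ C) : ∃ C' : ℝ, 1 ≤ C' ∧ ∀ g h : GU (Fin 2), ∀ θ ∈ Sph,
    Near C g θ → Near C h θ → c g ≤ C * c h →
      c (g⁻¹ * h) * c g ≤ C' * c h ∧ c h ≤ C' * (c (g⁻¹ * h) * c g) := by
  have hC0 : 0 < C := lt_of_lt_of_le one_pos hC
  refine ⟨4 * C * (1 + C ^ 2), by nlinarith [pow_pos hC0 3], fun g h θ hθ hg hh hgh => ?_⟩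
  have hgp := A2_cpos g
  have hhp := A2_cpos h
  have hk0 := A2_kp_nonneg (zz g) (zz h)
  have hk1 := A2_kp_nonneg (zz g) θ
  have hk2 := A2_kp_nonneg (zz h) θ
  rw [c_div]
  have e : c g * c h * kp (zz g) (zz h) * c g = (kp (zz g) (zz h) * c g ^ 2) * c h := by ring
  rw [e]
  constructor
  · have h1 : kp (zz g) (zz h) ≤ 4 * (kp θ (zz g) + kp θ (zz h)) :=
      kp_tri (zz_mem _) (zz_mem _) (A2_sph_cb hθ)
    rw [kp_symm θ, kp_symm θ] at h1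
    have h2 : kp (zz h) θ * c g ^ 2 ≤ C * C ^ 2 := by
      calc kp (zz h) θ * c g ^ 2 ≤ kp (zz h) θ * (C * c h) ^ 2 := by gcongr
        _ = (kp (zz h) θ * c h ^ 2) * C ^ 2 := by ring
        _ ≤ C * C ^ 2 := by
          have : kp (zz h) θ * c h ^ 2 ≤ C := hh
          gcongr
    have h3 : kp (zz g) θ * c g ^ 2 ≤ C := hg
    have h4 : kp (zz g) (zz h) * c g ^ 2 ≤ 4 * C * (1 + C ^ 2) := by
      calc kp (zz g) (zz h) * c g ^ 2 ≤ 4 * (kp (zz g) θ + kp (zz h) θ) * c g ^ 2 := by gcongr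
        _ = 4 * (kp (zz g) θ * c g ^ 2 + kp (zz h) θ * c g ^ 2) := by ring
        _ ≤ 4 * (C + C * C ^ 2) := by gcongr
        _ = 4 * C * (1 + C ^ 2) := by ring
    gcongr
  · have h1 := kp_ge (zz_mem g) (zz_mem h)
    have h2 := zz_norm g
    have h3 : ‖zz g‖ ≤ 1 := by
      have := zz_mem g
      exact mem_closedBall_zero_iff.mp this
    have h4 : (c g ^ 2)⁻¹ / 2 ≤ kp (zz g) (zz h) := by
      nlinarith [norm_nonneg (zz g)]
    have h5 : 1 / 2 ≤ kp (zz g) (zz h) * c g ^ 2 := by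
      calc (1 : ℝ) / 2 = (c g ^ 2)⁻¹ / 2 * c g ^ 2 := by field_simp
        _ ≤ kp (zz g) (zz h) * c g ^ 2 := by gcongr
    have h6 : (2 : ℝ) ≤ 4 * C * (1 + C ^ 2) := by nlinarith [pow_pos hC0 3]
    calc c h = 2 * ((1 / 2) * c h) := by ring
      _ ≤ 4 * C * (1 + C ^ 2) * ((kp (zz g) (zz h) * c g ^ 2) * c h) := by gcongr

/-- module A2 -/
theorem near_fin {σ : G →* GU (Fin 2)} (hL : Lat σ) (C : ℝ) : ∃ F : Finset G, ∀ g h : G,
    ∀ θ ∈ Sph, Near C (σ g) θ → Near C (σ h) θ → c (σ g) ≤ C * c (σ h) → c (σ h) ≤ C * c (σ g) →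
      g⁻¹ * h ∈ F := by
  obtain ⟨C', hC', H⟩ := near_two (max C 1) (le_max_right _ _)
  refine ⟨(hL.finite_c (C' * max C 1)).toFinset, fun g h θ hθ hg hh h1 h2 => ?_⟩
  rw [Set.Finite.mem_toFinset]
  have hgp := A2_cpos (σ g)
  have hhp := A2_cpos (σ h)
  have h3 := (H (σ g) (σ h) θ hθ (A2_near_mono (le_max_left _ _) hg)
    (A2_near_mono (le_max_left _ _) hh) (h1.trans (by gcongr; exact le_max_left _ _))).1
  have h4 : c (σ (g⁻¹ * h)) * c (σ g) ≤ C' * max C 1 * c (σ g) := by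
    rw [map_mul, map_inv]
    refine h3.trans ?_
    rw [mul_assoc]
    have : c (σ h) ≤ max C 1 * c (σ g) := h2.trans (by gcongr; exact le_max_left _ _)
    gcongr
  exact le_of_mul_le_mul_right h4 hgp

theorem A2_near_one {C : ℝ} (hC : 1 ≤ C) {θ : Eb} : Near C 1 θ := by
  have h1 : zz (1 : GU (Fin 2)) = 0 := ab_one 0
  have h2 : c (1 : GU (Fin 2)) = 1 := KU_c 1 (KU (Fin 2)).one_mem
  unfold Near kp
  rw [h1, h2]
  simpa using hC

/-- ladders, with the constants of `exists_near` -/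
theorem A2_ladder {σ : G →* GU (Fin 2)} {C : ℝ} (hC : 1 ≤ C) (H : ∀ θ ∈ Sph, ∀ s : ℝ,
    1 ≤ s → ∃ g, Near C (σ g) θ ∧ s ≤ c (σ g) ∧ c (σ g) ≤ C * s) {θ : Eb} (hθ : θ ∈ Sph) :
    ∃ u : ℕ → G, u 0 = 1 ∧ ∀ i : ℕ, Near C (σ (u i)) θ ∧
      Real.exp i ≤ C * c (σ (u i)) ∧ c (σ (u i)) ≤ C * Real.exp i := by
  choose g hg1 hg2 hg3 using fun i : ℕ => H θ hθ (Real.exp i) (Real.one_le_exp (by positivity))
  refine ⟨fun i => if i = 0 then 1 else g i, by simp, fun i => ?_⟩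
  by_cases hi : i = 0
  · subst hi
    have h2 : c (1 : GU (Fin 2)) = 1 := KU_c 1 (KU (Fin 2)).one_mem
    simp only [if_pos, map_one, h2, Nat.cast_zero, Real.exp_zero, mul_one]
    exact ⟨A2_near_one hC, hC, hC⟩
  · simp only [hi, if_false]
    refine ⟨hg1 i, (hg2 i).trans ?_, hg3 i⟩
    have := A2_cpos (σ (g i))
    nlinarith

/-- module A2: ladders; the ladder of a point of the sphere -/
theorem ladder {σ : G →* GU (Fin 2)} (hL : Lat σ) : ∃ C : ℝ, ∃ F : Finset G, 1 ≤ C ∧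
    ∀ θ ∈ Sph, ∃ u : ℕ → G, u 0 = 1 ∧ ∀ i : ℕ, Near C (σ (u i)) θ ∧
      Real.exp i ≤ C * c (σ (u i)) ∧ c (σ (u i)) ≤ C * Real.exp i ∧ (u i)⁻¹ * u (i + 1) ∈ F := by
  obtain ⟨C, hC, H⟩ := exists_near hL
  obtain ⟨F, hF⟩ := near_fin hL (C * C * Real.exp 1)
  refine ⟨C, F, hC, fun θ hθ => ?_⟩
  obtain ⟨u, hu0, hu⟩ := A2_ladder hC H hθ
  refine ⟨u, hu0, fun i => ⟨(hu i).1, (hu i).2.1, (hu i).2.2, ?_⟩⟩
  have he : (1 : ℝ) ≤ Real.exp 1 := Real.one_le_exp (by norm_num)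
  have hC0 : 0 < C := lt_of_lt_of_le one_pos hC
  have hCC : C ≤ C * C * Real.exp 1 := by
    calc C = C * 1 * 1 := by ring
      _ ≤ C * C * Real.exp 1 := by gcongr
  have e1 : Real.exp ((i + 1 : ℕ) : ℝ) = Real.exp i * Real.exp 1 := by
    rw [← Real.exp_add]; push_cast; rfl
  have h1 := hu i
  have h2 := hu (i + 1)
  rw [e1] at h2
  have p1 := A2_cpos (σ (u i))
  have p2 := A2_cpos (σ (u (i + 1)))
  have p3 := Real.exp_pos (i : ℝ)
  refine hF (u i) (u (i + 1)) θ hθ (A2_near_mono hCC h1.1) (A2_near_mono hCC h2.1) ?_ ?_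
  · calc c (σ (u i)) ≤ C * Real.exp i := h1.2.2
      _ = C * (Real.exp i * 1) := by ring
      _ ≤ C * (Real.exp i * Real.exp 1) := by gcongr
      _ ≤ C * (C * c (σ (u (i + 1)))) := mul_le_mul_of_nonneg_left h2.2.1 hC0.le
      _ = C * C * 1 * c (σ (u (i + 1))) := by ring
      _ ≤ C * C * Real.exp 1 * c (σ (u (i + 1))) := by gcongr
  · calc c (σ (u (i + 1))) ≤ C * (Real.exp i * Real.exp 1) := h2.2.2
      _ ≤ C * ((C * c (σ (u i))) * Real.exp 1) := by gcongr; exact h1.2.1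
      _ = C * C * Real.exp 1 * c (σ (u i)) := by ring

theorem A2_list {F : Finset G} (u : ℕ → G) (hu : ∀ i, (u i)⁻¹ * u (i + 1) ∈ F) (n : ℕ) :
    ∃ l : List G, (∀ x ∈ l, x ∈ F) ∧ l.prod = (u 0)⁻¹ * u n ∧ l.length = n := by
  induction n with
  | zero => exact ⟨[], by simp, by simp, rfl⟩
  | succ n ih =>
    obtain ⟨l, h1, h2, h3⟩ := ih
    refine ⟨l ++ [(u n)⁻¹ * u (n + 1)], ?_, ?_, by simp [h3]⟩
    · intro x hx
      rw [List.mem_append] at hx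
      rcases hx with hx | hx
      · exact h1 x hx
      · rw [List.mem_singleton] at hx
        rw [hx]; exact hu n
    · rw [List.prod_append, h2, List.prod_singleton]
      group

theorem A2_dir (z : Eb) : ∃ θ ∈ Sph, z = ((‖z‖ : ℝ) : ℂ) • θ := by
  by_cases hz : z = 0
  · refine ⟨EuclideanSpace.single 0 1, ?_, ?_⟩
    · rw [Sph, mem_sphere_zero_iff_norm]; simp
    · subst hz; simp
  · have hn : ‖z‖ ≠ 0 := norm_ne_zero_iff.mpr hz
    refine ⟨((‖z‖⁻¹ : ℝ) : ℂ) • z, ?_, ?_⟩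
    · rw [Sph, mem_sphere_zero_iff_norm, norm_smul, Complex.norm_real,
        Real.norm_of_nonneg (by positivity), inv_mul_cancel₀ hn]
    · rw [smul_smul, ← Complex.ofReal_mul, mul_inv_cancel₀ hn, Complex.ofReal_one, one_smul]

/-- module A2: word length -/
theorem word {σ : G →* GU (Fin 2)} (hL : Lat σ) : ∃ F : Finset G, ∃ C : ℝ, ∀ g, ∃ l : List G,
    (∀ x ∈ l, x ∈ F) ∧ l.prod = g ∧ (l.length : ℝ) ≤ C * Real.log (c (σ g)) + C := by
  classical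
  obtain ⟨C, F, hC, H⟩ := ladder hL
  obtain ⟨F', hF'⟩ := near_fin hL (C * Real.exp 1)
  refine ⟨F ∪ F', 1, fun g => ?_⟩
  obtain ⟨θ, hθ, hz⟩ := A2_dir (zz (σ g))
  obtain ⟨u, hu0, hu⟩ := H θ hθ
  have hc1 := c_ge_one (σ g)
  have hcp := A2_cpos (σ g)
  have hlog : 0 ≤ Real.log (c (σ g)) := Real.log_nonneg hc1
  set n := ⌊Real.log (c (σ g))⌋₊ with hn
  have hn1 : (n : ℝ) ≤ Real.log (c (σ g)) := Nat.floor_le hlog
  have hn2 : Real.log (c (σ g)) < n + 1 := Nat.lt_floor_add_one _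
  have hn3 : Real.exp n ≤ c (σ g) := by
    rw [← Real.exp_log hcp]; exact Real.exp_le_exp.mpr hn1
  have hn4 : c (σ g) ≤ Real.exp n * Real.exp 1 := by
    rw [← Real.exp_add]
    calc c (σ g) = Real.exp (Real.log (c (σ g))) := (Real.exp_log hcp).symm
      _ ≤ Real.exp (n + 1) := Real.exp_le_exp.mpr hn2.le
  have he : (1 : ℝ) ≤ Real.exp 1 := Real.one_le_exp (by norm_num)
  have hC0 : 0 < C := lt_of_lt_of_le one_pos hC
  have hCC : C ≤ C * Real.exp 1 := by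
    calc C = C * 1 := by ring
      _ ≤ C * Real.exp 1 := by gcongr
  have p1 := A2_cpos (σ (u n))
  have hl : (u n)⁻¹ * g ∈ F' := by
    refine hF' (u n) g θ hθ (A2_near_mono hCC (hu n).1) ?_ ?_ ?_
    · have h1 := A2_near_ray hθ (σ g) (norm_nonneg _) hz
      exact h1.trans (hC.trans hCC)
    · calc c (σ (u n)) ≤ C * Real.exp n := (hu n).2.2.1
        _ ≤ C * c (σ g) := by gcongr
        _ ≤ C * Real.exp 1 * c (σ g) := by gcongr
    · calc c (σ g) ≤ Real.exp n * Real.exp 1 := hn4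
        _ ≤ (C * c (σ (u n))) * Real.exp 1 := by gcongr; exact (hu n).2.1
        _ = C * Real.exp 1 * c (σ (u n)) := by ring
  obtain ⟨l, hl1, hl2, hl3⟩ := A2_list u (fun i => (hu i).2.2.2) n
  refine ⟨l ++ [(u n)⁻¹ * g], ?_, ?_, ?_⟩
  · intro x hx
    rw [List.mem_append] at hx
    rw [Finset.mem_union]
    rcases hx with hx | hx
    · exact Or.inl (hl1 x hx)
    · rw [List.mem_singleton] at hx
      rw [hx]; exact Or.inr hl
  · rw [List.prod_append, hl2, List.prod_singleton, hu0]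
    group
  · rw [List.length_append, hl3, List.length_singleton]
    push_cast
    linarith

end Pool.Agent.MPd01a95.KT
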