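import Mathlib
import Pool.Agent.Lib.MP_d01a95_gt_K.KDefs2
import Pool.Agent.Lib.MP_d01a95_gt_K.KA1
import Pool.Agent.Lib.MP_d01a95_gt_K.KA2

set_option autoImplicit false
set_option linter.all false

open Matrix Filter Topology MeasureTheory
open scoped ContDiff

namespace Pool.Agent.MPd01a95.KT

open GU

variable {G : Type} [Group G]

theorem A3_sub {θ : Eb} (h : θ ∈ Sph) : θ ∈ Cb := Metric.sphere_subset_closedBall h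

/-- module A3 -/
theorem pair {σ : G →* GU (Fin 2)} (hL : Lat σ) : ∃ C : ℝ, 1 ≤ C ∧ ∀ θ ∈ Sph, ∀ θ' ∈ Sph,
    θ ≠ θ' → ∃ g, Near C (σ g) θ ∧ Near C (σ g) θ' ∧
      C⁻¹ ≤ kp (ab (σ g)⁻¹ θ) (ab (σ g)⁻¹ θ') ∧ C⁻¹ ≤ c (σ g) ^ 2 * kp θ θ' ∧
      c (σ g) ^ 2 * kp θ θ' ≤ C := by
  obtain ⟨C₀, hC₀, hex⟩ := exists_near hL
  have hC1 : 1 ≤ 4 * C₀ + 8 * C₀ ^ 2 := by nlinarith
  have hCC : C₀ ≤ C₀ * (4 * C₀ + 8 * C₀ ^ 2) := by nlinarith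
  have hCC' : 4 * C₀ + 8 * C₀ ^ 2 ≤ C₀ * (4 * C₀ + 8 * C₀ ^ 2) := by nlinarith
  have hCC1 : 1 ≤ C₀ * (4 * C₀ + 8 * C₀ ^ 2) := hC1.trans hCC'
  refine ⟨C₀ * (4 * C₀ + 8 * C₀ ^ 2), hCC1, fun θ hθ θ' hθ' hne => ?_⟩
  have hk : 0 < kp θ θ' := kp_pos (A3_sub hθ) (A3_sub hθ') hne
  have hk2 : kp θ θ' ≤ 2 := kp_le_two (A3_sub hθ) (A3_sub hθ')
  obtain ⟨s, hs1, hs2, hs3⟩ : ∃ s : ℝ, 1 ≤ s ∧ 1 ≤ s ^ 2 * kp θ θ' ∧ s ^ 2 * kp θ θ' ≤ 2 := by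
    rcases le_total (kp θ θ') 1 with h | h
    · refine ⟨1 / Real.sqrt (kp θ θ'), ?_, ?_, ?_⟩
      · rw [le_div_iff₀ (Real.sqrt_pos.2 hk), one_mul]
        exact Real.sqrt_le_one.2 h
      · rw [div_pow, Real.sq_sqrt hk.le, one_pow, one_div, inv_mul_cancel₀ hk.ne']
      · rw [div_pow, Real.sq_sqrt hk.le, one_pow, one_div, inv_mul_cancel₀ hk.ne']
        norm_num
    · exact ⟨1, le_rfl, by simpa using h, by simpa using hk2⟩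
  obtain ⟨g, hg1, hg2, hg3⟩ := hex θ hθ s hs1
  have hc0 : 0 < c (σ g) := lt_of_lt_of_le (by linarith) hg2
  have hlow : 1 ≤ c (σ g) ^ 2 * kp θ θ' := by
    have : s ^ 2 ≤ c (σ g) ^ 2 := by nlinarith
    calc (1 : ℝ) ≤ s ^ 2 * kp θ θ' := hs2
      _ ≤ _ := mul_le_mul_of_nonneg_right this hk.le
  have hup : c (σ g) ^ 2 * kp θ θ' ≤ 2 * C₀ ^ 2 := by
    have : c (σ g) ^ 2 ≤ (C₀ * s) ^ 2 := by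
      have h0 : 0 ≤ C₀ * s := by nlinarith
      nlinarith
    calc c (σ g) ^ 2 * kp θ θ' ≤ (C₀ * s) ^ 2 * kp θ θ' := mul_le_mul_of_nonneg_right this hk.le
      _ = C₀ ^ 2 * (s ^ 2 * kp θ θ') := by ring
      _ ≤ C₀ ^ 2 * 2 := mul_le_mul_of_nonneg_left hs3 (by positivity)
      _ = _ := by ring
  have hg1' : kp (zz (σ g)) θ * c (σ g) ^ 2 ≤ C₀ := hg1
  have htri : kp (zz (σ g)) θ' ≤ 4 * (kp θ (zz (σ g)) + kp θ θ') :=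
    kp_tri (zz_mem _) (A3_sub hθ') (A3_sub hθ)
  have hs : kp θ (zz (σ g)) = kp (zz (σ g)) θ := kp_symm _ _
  have hs' : kp θ' (zz (σ g)) = kp (zz (σ g)) θ' := kp_symm _ _
  have hnear' : kp (zz (σ g)) θ' * c (σ g) ^ 2 ≤ 4 * C₀ + 8 * C₀ ^ 2 := by
    have hc2 : 0 ≤ c (σ g) ^ 2 := by positivity
    calc kp (zz (σ g)) θ' * c (σ g) ^ 2 ≤ (4 * (kp θ (zz (σ g)) + kp θ θ')) * c (σ g) ^ 2 :=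
          mul_le_mul_of_nonneg_right htri hc2
      _ = 4 * (kp (zz (σ g)) θ * c (σ g) ^ 2) + 4 * (c (σ g) ^ 2 * kp θ θ') := by rw [hs]; ring
      _ ≤ _ := by linarith
  refine ⟨g, hg1'.trans hCC, hnear'.trans hCC', ?_, (inv_le_one_of_one_le₀ hCC1).trans hlow,
    hup.trans ?_⟩
  · have hact := kp_act (σ g) (A3_sub hθ) (A3_sub hθ')
    have hK0 : 0 ≤ kp (ab (σ g)⁻¹ θ) (ab (σ g)⁻¹ θ') := norm_nonneg _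
    have hz0 : 0 ≤ kp (zz (σ g)) θ := norm_nonneg _
    have hz0' : 0 ≤ kp (zz (σ g)) θ' := norm_nonneg _
    have h1 : 1 ≤ kp (ab (σ g)⁻¹ θ) (ab (σ g)⁻¹ θ') *
        ((kp (zz (σ g)) θ * c (σ g) ^ 2) * (kp (zz (σ g)) θ' * c (σ g) ^ 2)) := by
      calc (1 : ℝ) ≤ c (σ g) ^ 2 * kp θ θ' := hlow
        _ = c (σ g) ^ 2 * (kp (ab (σ g)⁻¹ θ) (ab (σ g)⁻¹ θ') *
          (c (σ g) ^ 2 * kp θ (zz (σ g)) * kp θ' (zz (σ g)))) := by rw [hact]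
        _ = _ := by rw [hs, hs']; ring
    have h2 : (kp (zz (σ g)) θ * c (σ g) ^ 2) * (kp (zz (σ g)) θ' * c (σ g) ^ 2) ≤
        C₀ * (4 * C₀ + 8 * C₀ ^ 2) :=
      mul_le_mul hg1' hnear' (by positivity) (by linarith)
    have h3 : 1 ≤ kp (ab (σ g)⁻¹ θ) (ab (σ g)⁻¹ θ') * (C₀ * (4 * C₀ + 8 * C₀ ^ 2)) :=
      h1.trans (mul_le_mul_of_nonneg_left h2 hK0)
    rw [inv_eq_one_div, div_le_iff₀ (by linarith)]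
    exact h3
  · nlinarith

theorem A3_one {σ : G →* GU (Fin 2)} {C : ℝ} (hC : 1 ≤ C) {g : G} {θ₁ θ₃ : Eb}
    (h1 : θ₁ ∈ Sph) (h3 : θ₃ ∈ Sph) (hne : θ₁ ≠ θ₃) (hn : Near C (σ g) θ₁)
    (hl : C⁻¹ ≤ c (σ g) ^ 2 * kp θ₁ θ₃) :
    (C * (4 + 4 * C ^ 2))⁻¹ ≤ kp (ab (σ g)⁻¹ θ₁) (ab (σ g)⁻¹ θ₃) := by
  have hk : 0 < kp θ₁ θ₃ := kp_pos (A3_sub h1) (A3_sub h3) hne
  have hC0 : 0 < C := by linarith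
  have hn' : kp (zz (σ g)) θ₁ * c (σ g) ^ 2 ≤ C := hn
  have hact := kp_act (σ g) (A3_sub h1) (A3_sub h3)
  have hs : kp θ₁ (zz (σ g)) = kp (zz (σ g)) θ₁ := kp_symm _ _
  have htri : kp θ₃ (zz (σ g)) ≤ 4 * (kp θ₁ θ₃ + kp θ₁ (zz (σ g))) :=
    kp_tri (A3_sub h3) (zz_mem _) (A3_sub h1)
  have hc2 : 0 < c (σ g) ^ 2 := by
    by_contra hh
    have h0 : c (σ g) ^ 2 = 0 := le_antisymm (not_lt.1 hh) (by positivity)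
    rw [h0, zero_mul] at hl
    have := inv_pos.2 hC0
    linarith
  have hb : kp (zz (σ g)) θ₁ ≤ C ^ 2 * kp θ₁ θ₃ := by
    have h4 : 1 ≤ C * (c (σ g) ^ 2 * kp θ₁ θ₃) := by
      calc (1 : ℝ) = C * C⁻¹ := (mul_inv_cancel₀ hC0.ne').symm
        _ ≤ _ := mul_le_mul_of_nonneg_left hl hC0.le
    have h5 : kp (zz (σ g)) θ₁ * c (σ g) ^ 2 ≤ (C ^ 2 * kp θ₁ θ₃) * c (σ g) ^ 2 := by
      calc kp (zz (σ g)) θ₁ * c (σ g) ^ 2 ≤ C * 1 := by linarith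
        _ ≤ C * (C * (c (σ g) ^ 2 * kp θ₁ θ₃)) := mul_le_mul_of_nonneg_left h4 hC0.le
        _ = _ := by ring
    exact le_of_mul_le_mul_right h5 hc2
  have hK0 : 0 ≤ kp (ab (σ g)⁻¹ θ₁) (ab (σ g)⁻¹ θ₃) := norm_nonneg _
  have hz0 : 0 ≤ kp (zz (σ g)) θ₁ := norm_nonneg _
  have hz3 : 0 ≤ kp θ₃ (zz (σ g)) := norm_nonneg _
  have h6 : kp θ₃ (zz (σ g)) ≤ (4 + 4 * C ^ 2) * kp θ₁ θ₃ := by
    rw [hs] at htri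
    nlinarith
  have h7 : kp θ₁ θ₃ * 1 ≤ kp θ₁ θ₃ *
      (kp (ab (σ g)⁻¹ θ₁) (ab (σ g)⁻¹ θ₃) * (C * (4 + 4 * C ^ 2))) := by
    calc kp θ₁ θ₃ * 1 = kp (ab (σ g)⁻¹ θ₁) (ab (σ g)⁻¹ θ₃) *
          (c (σ g) ^ 2 * kp θ₁ (zz (σ g)) * kp θ₃ (zz (σ g))) := by rw [hact, mul_one]
      _ = kp (ab (σ g)⁻¹ θ₁) (ab (σ g)⁻¹ θ₃) *
          ((kp (zz (σ g)) θ₁ * c (σ g) ^ 2) * kp θ₃ (zz (σ g))) := by rw [hs]; ring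
      _ ≤ kp (ab (σ g)⁻¹ θ₁) (ab (σ g)⁻¹ θ₃) * (C * ((4 + 4 * C ^ 2) * kp θ₁ θ₃)) := by
          refine mul_le_mul_of_nonneg_left ?_ hK0
          exact mul_le_mul hn' h6 hz3 hC0.le
      _ = _ := by ring
  have h8 := le_of_mul_le_mul_left h7 hk
  have h9 : 0 < C * (4 + 4 * C ^ 2) := by positivity
  rw [inv_eq_one_div, div_le_iff₀ h9]
  exact h8

theorem A3_aux {σ : G →* GU (Fin 2)} {C : ℝ} (hC : 1 ≤ C)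
    (hp : ∀ θ ∈ Sph, ∀ θ' ∈ Sph,
    θ ≠ θ' → ∃ g, Near C (σ g) θ ∧ Near C (σ g) θ' ∧
      C⁻¹ ≤ kp (ab (σ g)⁻¹ θ) (ab (σ g)⁻¹ θ') ∧ C⁻¹ ≤ c (σ g) ^ 2 * kp θ θ' ∧
      c (σ g) ^ 2 * kp θ θ' ≤ C) {θ₁ θ₂ θ₃ : Eb} (h1 : θ₁ ∈ Sph) (h2 : θ₂ ∈ Sph) (h3 : θ₃ ∈ Sph)
    (n12 : θ₁ ≠ θ₂) (n13 : θ₁ ≠ θ₃) (n23 : θ₂ ≠ θ₃) (k1 : kp θ₁ θ₂ ≤ kp θ₁ θ₃)
    (k2 : kp θ₁ θ₂ ≤ kp θ₂ θ₃) : ∃ g,
      (C * (4 + 4 * C ^ 2))⁻¹ ≤ kp (ab (σ g)⁻¹ θ₁) (ab (σ g)⁻¹ θ₂) ∧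
      (C * (4 + 4 * C ^ 2))⁻¹ ≤ kp (ab (σ g)⁻¹ θ₁) (ab (σ g)⁻¹ θ₃) ∧
      (C * (4 + 4 * C ^ 2))⁻¹ ≤ kp (ab (σ g)⁻¹ θ₂) (ab (σ g)⁻¹ θ₃) := by
  obtain ⟨g, g1, g2, g3, g4, g5⟩ := hp θ₁ h1 θ₂ h2 n12
  have hc2 : 0 ≤ c (σ g) ^ 2 := by positivity
  refine ⟨g, ?_, ?_, ?_⟩
  · exact A3_one hC h1 h2 n12 g1 g4
  · exact A3_one hC h1 h3 n13 g1 (g4.trans (mul_le_mul_of_nonneg_left k1 hc2))
  · exact A3_one hC h2 h3 n23 g2 (g4.trans (mul_le_mul_of_nonneg_left k2 hc2))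

/-- module A3 -/
theorem triple {σ : G →* GU (Fin 2)} (hL : Lat σ) : ∃ a : ℝ, 0 < a ∧ ∀ θ₁ ∈ Sph, ∀ θ₂ ∈ Sph,
    ∀ θ₃ ∈ Sph, θ₁ ≠ θ₂ → θ₁ ≠ θ₃ → θ₂ ≠ θ₃ → ∃ g,
      a ≤ kp (ab (σ g)⁻¹ θ₁) (ab (σ g)⁻¹ θ₂) ∧ a ≤ kp (ab (σ g)⁻¹ θ₁) (ab (σ g)⁻¹ θ₃) ∧
      a ≤ kp (ab (σ g)⁻¹ θ₂) (ab (σ g)⁻¹ θ₃) := by
  obtain ⟨C, hC, hp⟩ := pair hL
  have hC0 : 0 < C := by linarith
  refine ⟨(C * (4 + 4 * C ^ 2))⁻¹, by positivity, fun θ₁ h1 θ₂ h2 θ₃ h3 n12 n13 n23 => ?_⟩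
  rcases le_total (kp θ₁ θ₂) (kp θ₁ θ₃) with k1 | k1
  · rcases le_total (kp θ₁ θ₂) (kp θ₂ θ₃) with k2 | k2
    · exact A3_aux hC hp h1 h2 h3 n12 n13 n23 k1 k2
    · -- the smallest is `kp θ₂ θ₃`
      obtain ⟨g, a1, a2, a3⟩ := A3_aux hC hp h2 h3 h1 n23 n12.symm n13.symm
        (by rw [kp_symm θ₂ θ₁]; exact k2) (by rw [kp_symm θ₃ θ₁]; exact k2.trans k1)
      refine ⟨g, ?_, ?_, a1⟩
      · rw [kp_symm]; exact a2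
      · rw [kp_symm]; exact a3
  · rcases le_total (kp θ₁ θ₃) (kp θ₂ θ₃) with k2 | k2
    · -- the smallest is `kp θ₁ θ₃`
      obtain ⟨g, a1, a2, a3⟩ := A3_aux hC hp h1 h3 h2 n13 n12 n23.symm k1
        (by rw [kp_symm θ₃ θ₂]; exact k2)
      refine ⟨g, a2, a1, ?_⟩
      rw [kp_symm]; exact a3
    · obtain ⟨g, a1, a2, a3⟩ := A3_aux hC hp h2 h3 h1 n23 n12.symm n13.symm
        (by rw [kp_symm θ₂ θ₁]; exact k2.trans k1) (by rw [kp_symm θ₃ θ₁]; exact k2)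
      refine ⟨g, ?_, ?_, a1⟩
      · rw [kp_symm]; exact a2
      · rw [kp_symm]; exact a3

end Pool.Agent.MPd01a95.KT
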