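import Mathlib
import Pool.Agent.Lib.MP_d01a95_gt_K.KDefs2
import Pool.Agent.Lib.MP_d01a95_gt_K.KA1

set_option autoImplicit false
set_option linter.all false

open Matrix Filter Topology MeasureTheory
open scoped ContDiff

namespace Pool.Agent.MPd01a95.KT

open GU

variable {G : Type} [Group G]

theorem A4_sub {θ : Eb} (h : θ ∈ Sph) : θ ∈ Cb := Metric.sphere_subset_closedBall h

/-- module A4 -/
theorem sep_of_near (C δ : ℝ) (hC : 1 ≤ C) (hδ : 0 < δ) : ∃ S : ℝ, ∀ g : GU (Fin 2),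
    ∀ θ ∈ Sph, ∀ θ' ∈ Sph, Near C g θ → δ ≤ kp (zz g) θ' → S ≤ c g →
      (8 * C)⁻¹ ≤ kp (ab g⁻¹ θ) (ab g⁻¹ θ') := by
  refine ⟨max 1 (8 * C / δ), fun g θ hθ θ' hθ' hn hd hS => ?_⟩
  have hC0 : 0 < C := by linarith
  have hc1 : 1 ≤ c g := (le_max_left _ _).trans hS
  have hc2 : 8 * C / δ ≤ c g := (le_max_right _ _).trans hS
  have hcc : 8 * C / δ ≤ c g ^ 2 := hc2.trans (by nlinarith)
  have hcd : 8 * C ≤ c g ^ 2 * δ := (div_le_iff₀ hδ).1 hcc
  have hcp : 0 < c g ^ 2 := by positivity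
  have hact := kp_act g (A4_sub hθ) (A4_sub hθ')
  have hs : kp θ (zz g) = kp (zz g) θ := kp_symm _ _
  have hs' : kp θ' (zz g) = kp (zz g) θ' := kp_symm _ _
  have htri : kp (zz g) θ' ≤ 4 * (kp θ (zz g) + kp θ θ') :=
    kp_tri (zz_mem g) (A4_sub hθ') (A4_sub hθ)
  rw [hs, hs'] at hact
  rw [hs] at htri
  have hn' : kp (zz g) θ * c g ^ 2 ≤ C := hn
  have hK0 : 0 ≤ kp (ab g⁻¹ θ) (ab g⁻¹ θ') := norm_nonneg _
  have ha0 : 0 ≤ kp (zz g) θ := norm_nonneg _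
  have hb0 : 0 < kp (zz g) θ' := lt_of_lt_of_le hδ hd
  generalize kp (ab g⁻¹ θ) (ab g⁻¹ θ') = K at *
  generalize kp (zz g) θ = a at *
  generalize kp (zz g) θ' = b at *
  generalize c g ^ 2 = q at *
  have h8a : 8 * a ≤ δ := by
    have h1 : (8 * a) * q ≤ δ * q := by nlinarith
    exact le_of_mul_le_mul_right h1 hcp
  have h2 : kp θ θ' ≤ K * C * b := by
    rw [← hact]
    have : K * (q * a * b) = (a * q) * (K * b) := by ring
    rw [this]
    calc (a * q) * (K * b) ≤ C * (K * b) := mul_le_mul_of_nonneg_right hn' (by positivity)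
      _ = _ := by ring
  have h3 : b * 1 ≤ b * (8 * C * K) := by nlinarith
  have h4 := le_of_mul_le_mul_left h3 hb0
  rw [inv_eq_one_div, div_le_iff₀ (by positivity)]
  linarith

/-- module A4 -/
theorem near_of_sep (δ δ' : ℝ) (hδ : 0 < δ) (hδ' : 0 < δ') : ∃ S : ℝ, ∀ g : GU (Fin 2),
    ∀ θ ∈ Sph, ∀ θ' ∈ Sph, δ ≤ kp (zz g) θ' → δ' ≤ kp (ab g⁻¹ θ) (ab g⁻¹ θ') → S ≤ c g →
      Near (8 / δ') g θ := by
  refine ⟨max 1 (2 / (δ * δ' * δ)), fun g θ hθ θ' hθ' hd hd' hS => ?_⟩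
  have hc1 : 1 ≤ c g := (le_max_left _ _).trans hS
  have hc2 : 2 / (δ * δ' * δ) ≤ c g := (le_max_right _ _).trans hS
  have hcc : 2 / (δ * δ' * δ) ≤ c g ^ 2 := hc2.trans (by nlinarith)
  have hcd : 2 ≤ c g ^ 2 * (δ * δ' * δ) := (div_le_iff₀ (by positivity)).1 hcc
  have hcp : 0 < c g ^ 2 := by positivity
  have hact := kp_act g (A4_sub hθ) (A4_sub hθ')
  have hs : kp θ (zz g) = kp (zz g) θ := kp_symm _ _
  have hs' : kp θ' (zz g) = kp (zz g) θ' := kp_symm _ _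
  have htri : kp θ θ' ≤ 4 * (kp (zz g) θ + kp (zz g) θ') :=
    kp_tri (A4_sub hθ) (A4_sub hθ') (zz_mem g)
  have htwo : kp θ θ' ≤ 2 := kp_le_two (A4_sub hθ) (A4_sub hθ')
  rw [hs, hs'] at hact
  have ha0 : 0 ≤ kp (zz g) θ := norm_nonneg _
  have hb0 : 0 < kp (zz g) θ' := lt_of_lt_of_le hδ hd
  change kp (zz g) θ * c g ^ 2 ≤ 8 / δ'
  generalize kp (ab g⁻¹ θ) (ab g⁻¹ θ') = K at *
  generalize kp (zz g) θ = a at *
  generalize kp (zz g) θ' = b at *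
  generalize c g ^ 2 = q at *
  have haq : 0 ≤ a * q := by positivity
  have hK0 : 0 < K := lt_of_lt_of_le hδ' hd'
  have h1 : (a * q) * (δ' * δ) ≤ 2 := by
    calc (a * q) * (δ' * δ) ≤ (a * q) * (K * b) :=
          mul_le_mul_of_nonneg_left (mul_le_mul hd' hd hδ.le hK0.le) haq
      _ = K * (q * a * b) := by ring
      _ = kp θ θ' := hact
      _ ≤ 2 := htwo
  have h2 : a ≤ δ := by
    have h3 : a * (q * (δ' * δ)) ≤ δ * (q * (δ' * δ)) := by
      calc a * (q * (δ' * δ)) = (a * q) * (δ' * δ) := by ring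
        _ ≤ 2 := h1
        _ ≤ q * (δ * δ' * δ) := hcd
        _ = _ := by ring
    exact le_of_mul_le_mul_right h3 (by positivity)
  have h4 : b * ((a * q) * K) ≤ b * 8 := by
    calc b * ((a * q) * K) = K * (q * a * b) := by ring
      _ = kp θ θ' := hact
      _ ≤ b * 8 := by linarith
  have h5 := le_of_mul_le_mul_left h4 hb0
  rw [le_div_iff₀ hδ']
  exact (mul_le_mul_of_nonneg_left hd' haq).trans h5

end Pool.Agent.MPd01a95.KT
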