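import Mathlib
import Pool.Agent.Lib.MP_d01a95_gt_K.KDefs2
import Pool.Agent.Lib.MP_d01a95_gt_K.KA1
import Pool.Agent.Lib.MP_d01a95_gt_K.KA2

set_option autoImplicit false
set_option linter.all false

open Matrix Filter Topology MeasureTheory
open scoped ContDiff

namespace Pool.Agent.MPd01a95.KT

open GU

variable {G : Type} [Group G]

theorem A5_zero_mem : (0 : Eb) ∈ Cb := Metric.mem_closedBall_self zero_le_one

theorem A5_sph_cb {θ : Eb} (h : θ ∈ Sph) : θ ∈ Cb := Metric.sphere_subset_closedBall h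

theorem A5_lv (h : GU (Fin 2)) {z : Eb} (hz : z ∈ Cb) :
    h.M *ᵥ lv z = ((h.M *ᵥ lv z) (Sum.inr ())) • lv (ab h z) := by
  have h0 : (h.M *ᵥ lv z) (Sum.inr ()) ≠ 0 := by
    have h1 := ja_pos h hz
    unfold ja at h1
    exact norm_pos_iff.1 h1
  funext i
  rcases i with i | i
  · rw [Pi.smul_apply, smul_eq_mul]
    have h1 : lv (ab h z) (Sum.inl i) =
        (h.M *ᵥ lv z) (Sum.inl i) / (h.M *ᵥ lv z) (Sum.inr ()) := rfl
    rw [h1, mul_div_cancel₀ _ h0]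
  · rw [Pi.smul_apply, smul_eq_mul]
    have h1 : lv (ab h z) (Sum.inr i) = 1 := rfl
    rw [h1, mul_one]

theorem A5_coc (g h : GU (Fin 2)) {z : Eb} (hz : z ∈ Cb) :
    ja (g * h) z = ja g (ab h z) * ja h z := by
  unfold ja
  rw [M_mul, ← Matrix.mulVec_mulVec, A5_lv h hz, Matrix.mulVec_smul, Pi.smul_apply, smul_eq_mul,
    norm_mul, ← A5_lv h hz, mul_comm]

theorem A5_ja_low (g : GU (Fin 2)) : ∃ δ : ℝ, 0 < δ ∧ ∀ z ∈ Cb, δ ≤ ja g z := by
  have hc := c_ge_one g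
  have h1 : ‖zz g⁻¹‖ < 1 := by
    have h2 := zz_norm g⁻¹
    rw [c_inv] at h2
    have h3 : 0 < (c g ^ 2)⁻¹ := by positivity
    have h4 : ‖zz g⁻¹‖ ^ 2 < 1 := by linarith
    nlinarith [norm_nonneg (zz g⁻¹)]
  refine ⟨c g * (1 - ‖zz g⁻¹‖), by nlinarith, fun z hz => ?_⟩
  rw [ja_eq g hz, kp_symm]
  exact mul_le_mul_of_nonneg_left (kp_ge (zz_mem _) hz) (by linarith)

theorem A5_zz_mul (g h : GU (Fin 2)) : zz (g * h) = ab g (zz h) := by
  unfold zz
  rw [ab_mul g h A5_zero_mem]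

/-- an element commuting with the lattice fixes the sphere -/
theorem A5_cen {σ : G →* GU (Fin 2)} (hL : Lat σ) {k : G} (hk : ∀ g, k * g = g * k) {θ : Eb}
    (hθ : θ ∈ Sph) : ab (σ k) θ = θ := by
  obtain ⟨C, hC, hN⟩ := exists_near hL
  have hex : ∀ i : ℕ, ∃ g, Near C (σ g) θ ∧ (i : ℝ) + 1 ≤ c (σ g) := by
    intro i
    obtain ⟨g, h1, h2, -⟩ := hN θ hθ ((i : ℝ) + 1) (by
      have : (0 : ℝ) ≤ i := Nat.cast_nonneg i
      linarith)
    exact ⟨g, h1, h2⟩
  choose g hg1 hg2 using hex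
  have hinv : Tendsto (fun i : ℕ => ((i : ℝ) + 1)⁻¹) atTop (𝓝 0) := by
    have := tendsto_one_div_add_atTop_nhds_zero_nat (𝕜 := ℝ)
    simpa [one_div] using this
  -- the points `zz (g i)` converge to `θ`
  have hlim : ∀ x y : ℕ → Eb, (∃ K : ℝ, ∀ i, x i ∈ Cb ∧ y i ∈ Cb ∧
      kp (x i) (y i) ≤ K * ((i : ℝ) + 1)⁻¹) → Tendsto (fun i => x i - y i) atTop (𝓝 0) := by
    rintro x y ⟨K, hK⟩
    rw [tendsto_zero_iff_norm_tendsto_zero]
    have h1 : Tendsto (fun i : ℕ => ‖x i - y i‖ ^ 2) atTop (𝓝 0) := by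
      refine squeeze_zero (fun i => by positivity) (fun i => ?_)
        (g := fun i : ℕ => 2 * K * ((i : ℝ) + 1)⁻¹) ?_
      · obtain ⟨h2, h3, h4⟩ := hK i
        have h5 := kp_sq h2 h3
        linarith
      · have := hinv.const_mul (2 * K)
        rwa [mul_zero] at this
    have h2 := h1.sqrt
    rw [Real.sqrt_zero] at h2
    refine h2.congr (fun i => ?_)
    rw [Real.sqrt_sq (norm_nonneg _)]
  have hpos : ∀ i : ℕ, (0 : ℝ) < (i : ℝ) + 1 := fun i => Nat.cast_add_one_pos i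
  have l1 : Tendsto (fun i => zz (σ (g i)) - θ) atTop (𝓝 0) := by
    refine hlim _ (fun _ => θ) ⟨C, fun i => ⟨zz_mem _, A5_sph_cb hθ, ?_⟩⟩
    have h1 : kp (zz (σ (g i))) θ * c (σ (g i)) ^ 2 ≤ C := hg1 i
    have h2 := hg2 i
    have h3 : 1 ≤ c (σ (g i)) := c_ge_one _
    have h4 : (0 : ℝ) ≤ kp (zz (σ (g i))) θ := norm_nonneg _
    rw [← div_eq_mul_inv, le_div_iff₀ (hpos i)]
    have h5 : (i : ℝ) + 1 ≤ c (σ (g i)) ^ 2 := by nlinarith
    have h6 : kp (zz (σ (g i))) θ * ((i : ℝ) + 1) ≤ kp (zz (σ (g i))) θ * c (σ (g i)) ^ 2 :=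
      mul_le_mul_of_nonneg_left h5 h4
    linarith
  have l2 : Tendsto (fun i => zz (σ (g i)) - zz (σ (g i * k))) atTop (𝓝 0) := by
    refine hlim _ _ ⟨c (σ k), fun i => ⟨zz_mem _, zz_mem _, ?_⟩⟩
    have h1 := c_div (σ (g i)) (σ (g i * k))
    have e : (σ (g i))⁻¹ * σ (g i * k) = σ k := by rw [map_mul]; group
    rw [e] at h1
    have h2 := hg2 i
    have h3 : 1 ≤ c (σ (g i * k)) := c_ge_one _
    have h4 : (0 : ℝ) ≤ kp (zz (σ (g i))) (zz (σ (g i * k))) := norm_nonneg _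
    rw [← div_eq_mul_inv, le_div_iff₀ (hpos i), h1]
    have h5 : (i : ℝ) + 1 ≤ c (σ (g i)) * c (σ (g i * k)) := by
      have := hpos i
      nlinarith
    calc kp (zz (σ (g i))) (zz (σ (g i * k))) * ((i : ℝ) + 1)
        ≤ kp (zz (σ (g i))) (zz (σ (g i * k))) * (c (σ (g i)) * c (σ (g i * k))) :=
          mul_le_mul_of_nonneg_left h5 h4
      _ = _ := by ring
  have l1' : Tendsto (fun i => zz (σ (g i))) atTop (𝓝 θ) := by
    have := l1.add_const θ
    simpa using this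
  have l3 : Tendsto (fun i => zz (σ (g i * k))) atTop (𝓝 θ) := by
    have := l1'.sub l2
    simpa using this
  have l4 : Tendsto (fun i => zz (σ (k * g i))) atTop (𝓝 (ab (σ k) θ)) := by
    have h1 : ContinuousWithinAt (ab (σ k)) Cb θ := ab_cont (σ k) θ (A5_sph_cb hθ)
    have h2 : Tendsto (fun i => zz (σ (g i))) atTop (𝓝[Cb] θ) :=
      tendsto_nhdsWithin_iff.2 ⟨l1', Eventually.of_forall fun i => zz_mem _⟩
    have h3 := h1.tendsto.comp h2
    refine h3.congr (fun i => ?_)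
    rw [map_mul, A5_zz_mul]
    rfl
  have l5 : Tendsto (fun i => zz (σ (g i * k))) atTop (𝓝 (ab (σ k) θ)) := by
    refine l4.congr (fun i => ?_)
    rw [hk]
  exact tendsto_nhds_unique l5 l3

theorem A5_ja_one {k : GU (Fin 2)} (hk : ∀ θ ∈ Sph, ab k θ = θ) {θ : Eb} (hθ : θ ∈ Sph) :
    ja k θ = 1 := by
  have hn : ‖θ‖ = 1 := by simpa [Sph] using hθ
  have h0 : θ ≠ 0 := by
    intro h
    rw [h, norm_zero] at hn
    norm_num at hn
  have m2 : -θ ∈ Sph := by simp [Sph, hn]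
  have m3 : Complex.I • θ ∈ Sph := by simp [Sph, norm_smul, hn]
  have key : ∀ x ∈ Sph, ∀ y ∈ Sph, x ≠ y → ja k x * ja k y = 1 := by
    intro x hx y hy hxy
    have h1 := kp_ab k (A5_sph_cb hx) (A5_sph_cb hy)
    rw [hk x hx, hk y hy] at h1
    have h2 := kp_pos (A5_sph_cb hx) (A5_sph_cb hy) hxy
    exact mul_left_cancel₀ h2.ne' (by rw [h1, mul_one])
  have d1 : θ ≠ -θ := by
    intro h
    have : (2 : ℂ) • θ = 0 := by
      rw [two_smul]
      nth_rewrite 1 [h]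
      exact neg_add_cancel θ
    rcases smul_eq_zero.1 this with h2 | h2
    · norm_num at h2
    · exact h0 h2
  have d2 : θ ≠ Complex.I • θ := by
    intro h
    have : ((1 : ℂ) - Complex.I) • θ = 0 := by
      rw [sub_smul, one_smul, ← h, sub_self]
    rcases smul_eq_zero.1 this with h2 | h2
    · have := congrArg Complex.re h2
      simp at this
    · exact h0 h2
  have d3 : -θ ≠ Complex.I • θ := by
    intro h
    have : ((1 : ℂ) + Complex.I) • θ = 0 := by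
      rw [add_smul, one_smul, ← h]
      exact add_neg_cancel θ
    rcases smul_eq_zero.1 this with h2 | h2
    · have := congrArg Complex.re h2
      simp at this
    · exact h0 h2
  have k1 := key _ hθ _ m2 d1
  have k2 := key _ hθ _ m3 d2
  have k3 := key _ m2 _ m3 d3
  have p1 := ja_pos k (A5_sph_cb hθ)
  have p2 := ja_pos k (A5_sph_cb m2)
  have e : ja k (-θ) = ja k (Complex.I • θ) :=
    mul_left_cancel₀ p1.ne' (by rw [k1, k2])
  rw [← e] at k3
  have e2 : ja k (-θ) = 1 := by nlinarith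
  rw [e2, mul_one] at k1
  exact k1

/-- the lattice does not fix a point of the sphere -/
theorem A5_fix {σ : G →* GU (Fin 2)} (hL : Lat σ) {θ : Eb} (hθ : θ ∈ Sph)
    (hfix : ∀ u, ab (σ u) θ = θ) : False := by
  obtain ⟨C, hC, hN⟩ := exists_near hL
  obtain ⟨F, CF, hF⟩ := word hL
  have hj : ∀ g h : G, ja (σ (g * h)) θ = ja (σ g) θ * ja (σ h) θ := by
    intro g h
    rw [map_mul, A5_coc _ _ (A5_sph_cb hθ), hfix]
  have hjp : ∀ g : G, 0 < ja (σ g) θ := fun g => ja_pos _ (A5_sph_cb hθ)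
  have hex : ∀ i : ℕ, ∃ g, Near C (σ g) θ ∧ (i : ℝ) + 1 ≤ c (σ g) := by
    intro i
    obtain ⟨g, h1, h2, -⟩ := hN θ hθ ((i : ℝ) + 1) (by
      have : (0 : ℝ) ≤ i := Nat.cast_nonneg i
      linarith)
    exact ⟨g, h1, h2⟩
  choose h hn hc using hex
  -- lower bound for `j (h n)`
  have hlow : ∀ n : ℕ, ((n : ℝ) + 1) / C ≤ ja (σ (h n)) θ := by
    intro n
    have h1 := near_dual (σ (h n)) hθ
    have h2 : ab (σ (h n))⁻¹ θ = θ := by rw [← map_inv]; exact hfix _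
    rw [h2] at h1
    have h3 : kp (zz (σ (h n))) θ * c (σ (h n)) ^ 2 ≤ C := hn n
    have h4 : ja (σ (h n)) θ = c (σ (h n)) * kp (zz (σ (h n))⁻¹) θ := by
      rw [ja_eq _ (A5_sph_cb hθ), kp_symm]
    have h5 : (0 : ℝ) ≤ kp (zz (σ (h n))⁻¹) θ := norm_nonneg _
    have h6 : 1 ≤ C * kp (zz (σ (h n))⁻¹) θ := by
      calc (1 : ℝ) = (kp (zz (σ (h n))) θ * c (σ (h n)) ^ 2) * kp (zz (σ (h n))⁻¹) θ := by
            rw [← h1]; ring
        _ ≤ C * kp (zz (σ (h n))⁻¹) θ := mul_le_mul_of_nonneg_right h3 h5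
    rw [h4, div_le_iff₀ (by linarith)]
    have h7 := hc n
    have h8 : (0 : ℝ) ≤ (n : ℝ) + 1 := (Nat.cast_add_one_pos n).le
    calc (n : ℝ) + 1 ≤ c (σ (h n)) * 1 := by linarith
      _ ≤ c (σ (h n)) * (C * kp (zz (σ (h n))⁻¹) θ) :=
        mul_le_mul_of_nonneg_left h6 (by linarith)
      _ = _ := by ring
  -- the conjugates are bounded
  have hbd : ∀ g : G, ∃ K : ℝ, ∀ n, c (σ ((h n)⁻¹ * g * h n)) ≤ K := by
    intro g
    obtain ⟨δ, hδ, hδ'⟩ := A5_ja_low (σ g)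
    have cg := c_ge_one (σ g)
    have jg := hjp g
    set C1 : ℝ := max (C * (4 * c (σ g) ^ 2) / (δ * ja (σ g) θ)) (max C (2 * c (σ g))) with hC1
    have hC1a : 1 ≤ C1 := hC.trans ((le_max_left _ _).trans (le_max_right _ _))
    obtain ⟨C2, hC2, h2⟩ := near_two C1 hC1a
    refine ⟨C2 * (2 * c (σ g)), fun n => ?_⟩
    have q1 : c (σ (g * h n)) ≤ 2 * c (σ g) * c (σ (h n)) := by
      rw [map_mul]; exact c_mul _ _
    have q2 : c (σ (h n)) ≤ 2 * c (σ g) * c (σ (g * h n)) := by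
      have := c_mul (σ g⁻¹) (σ (g * h n))
      rw [← map_mul, inv_mul_cancel_left, map_inv, c_inv] at this
      exact this
    have n1 : Near C1 (σ (h n)) θ := by
      have := hn n
      unfold Near at this ⊢
      exact this.trans ((le_max_left _ _).trans (le_max_right _ _))
    have ch := c_ge_one (σ (h n))
    have cgh := c_ge_one (σ (g * h n))
    have n2 : Near C1 (σ (g * h n)) θ := by
      unfold Near
      have e1 := kp_ab (σ g) (zz_mem (σ (h n))) (A5_sph_cb hθ)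
      rw [hfix, ← A5_zz_mul, ← map_mul] at e1
      have e2 := hδ' _ (zz_mem (σ (h n)))
      have e3 : kp (zz (σ (h n))) θ * c (σ (h n)) ^ 2 ≤ C := hn n
      have e4 : (0 : ℝ) ≤ kp (zz (σ (g * h n))) θ := norm_nonneg _
      refine le_trans ?_ (le_max_left _ _)
      rw [le_div_iff₀ (by positivity)]
      have e5 : kp (zz (σ (g * h n))) θ * (δ * ja (σ g) θ) ≤ kp (zz (σ (h n))) θ := by
        rw [← e1]
        exact mul_le_mul_of_nonneg_left (mul_le_mul_of_nonneg_right e2 jg.le) e4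
      have e6 : c (σ (g * h n)) ^ 2 ≤ 4 * c (σ g) ^ 2 * c (σ (h n)) ^ 2 := by
        have : c (σ (g * h n)) ^ 2 ≤ (2 * c (σ g) * c (σ (h n))) ^ 2 :=
          pow_le_pow_left₀ (by linarith) q1 2
        linarith [this, (by ring : (2 * c (σ g) * c (σ (h n))) ^ 2 =
          4 * c (σ g) ^ 2 * c (σ (h n)) ^ 2)]
      have e7 : (0 : ℝ) ≤ kp (zz (σ (h n))) θ := norm_nonneg _
      calc kp (zz (σ (g * h n))) θ * c (σ (g * h n)) ^ 2 * (δ * ja (σ g) θ)
          = (kp (zz (σ (g * h n))) θ * (δ * ja (σ g) θ)) * c (σ (g * h n)) ^ 2 := by ring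
        _ ≤ kp (zz (σ (h n))) θ * (4 * c (σ g) ^ 2 * c (σ (h n)) ^ 2) :=
          mul_le_mul e5 e6 (by positivity) e7
        _ = (kp (zz (σ (h n))) θ * c (σ (h n)) ^ 2) * (4 * c (σ g) ^ 2) := by ring
        _ ≤ C * (4 * c (σ g) ^ 2) := mul_le_mul_of_nonneg_right e3 (by positivity)
    have q3 : c (σ (h n)) ≤ C1 * c (σ (g * h n)) := by
      refine q2.trans (mul_le_mul_of_nonneg_right ?_ (by linarith))
      exact (le_max_right _ _).trans (le_max_right _ _)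
    obtain ⟨r1, -⟩ := h2 (σ (h n)) (σ (g * h n)) θ hθ n1 n2 q3
    have e : σ ((h n)⁻¹ * g * h n) = (σ (h n))⁻¹ * σ (g * h n) := by
      rw [← map_inv, ← map_mul, mul_assoc]
    rw [e]
    have r2 : c ((σ (h n))⁻¹ * σ (g * h n)) * c (σ (h n)) ≤
        (C2 * (2 * c (σ g))) * c (σ (h n)) := by
      refine r1.trans ?_
      calc C2 * c (σ (g * h n)) ≤ C2 * (2 * c (σ g) * c (σ (h n))) :=
            mul_le_mul_of_nonneg_left q1 (by linarith)
        _ = _ := by ring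
    exact le_of_mul_le_mul_right r2 (by linarith)
  choose K hK using hbd
  -- pigeonhole
  have hfin : (Set.range fun n => fun g : F => (h n)⁻¹ * (g : G) * h n).Finite := by
    have : (Set.pi Set.univ fun g : F => {x : G | c (σ x) ≤ K g}).Finite :=
      Set.Finite.pi fun g => hL.finite_c _
    refine this.subset ?_
    rintro _ ⟨n, rfl⟩ g -
    exact hK g n
  obtain ⟨n0, hn0⟩ : ∃ n0, {n | (fun g : F => (h n)⁻¹ * (g : G) * h n) =
      fun g : F => (h n0)⁻¹ * (g : G) * h n0}.Infinite := by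
    by_contra hcon
    simp only [not_exists, Set.not_infinite] at hcon
    have : (Set.univ : Set ℕ).Finite := by
      have h1 : (Set.univ : Set ℕ) ⊆ ⋃ w ∈ Set.range fun n => fun g : F => (h n)⁻¹ * (g : G) * h n,
          {n | (fun g : F => (h n)⁻¹ * (g : G) * h n) = w} := by
        intro n _
        simp only [Set.mem_iUnion]
        exact ⟨_, ⟨n, rfl⟩, rfl⟩
      refine (hfin.biUnion ?_).subset h1
      rintro _ ⟨n, rfl⟩
      exact hcon n
    exact Set.infinite_univ this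
  obtain ⟨m, hm, hm2⟩ := hn0.exists_gt (⌈C * ja (σ (h n0)) θ⌉₊)
  have hm1 : ∀ g ∈ F, (h m)⁻¹ * g * h m = (h n0)⁻¹ * g * h n0 := fun g hg =>
    congrFun hm ⟨g, hg⟩
  set k : G := h m * (h n0)⁻¹ with hk
  have hkF : ∀ g ∈ F, k * g = g * k := by
    intro g hg
    have h1 := hm1 g hg
    have h2 : g * h m = h m * ((h n0)⁻¹ * g * h n0) := by
      rw [← h1]; group
    rw [hk, ← mul_assoc, h2]
    group
  have hkG : ∀ g, k * g = g * k := by
    intro g
    obtain ⟨l, hl, rfl, -⟩ := hF g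
    clear hN
    induction l with
    | nil => simp
    | cons a l ih =>
      rw [List.prod_cons, ← mul_assoc, hkF a (hl a (by simp)), mul_assoc,
        ih (fun x hx => hl x (by simp [hx])), mul_assoc]
  have hk1 : ja (σ k) θ = 1 := A5_ja_one (fun t ht => A5_cen hL hkG ht) hθ
  have e : ja (σ (h m)) θ = ja (σ k) θ * ja (σ (h n0)) θ := by
    rw [← hj, hk, inv_mul_cancel_right]
  rw [hk1, one_mul] at e
  have h1 := hlow m
  rw [e, div_le_iff₀ (by linarith)] at h1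
  have h2 : C * ja (σ (h n0)) θ < m := Nat.lt_of_ceil_lt hm2
  linarith

theorem A5_cont (g : GU (Fin 2)) :
    ContinuousOn (fun p : Eb × Eb => kp (ab g p.1) p.2) (Sph ×ˢ Sph) := by
  have h1 : ContinuousOn (fun p : Eb × Eb => ab g p.1) (Sph ×ˢ Sph) :=
    ContinuousOn.comp (g := ab g) (f := fun p : Eb × Eb => p.1) (t := Cb) (ab_cont g)
      continuousOn_fst (fun p hp => A5_sph_cb hp.1)
  have h2 : ContinuousOn (fun p : Eb × Eb => (ab g p.1, p.2)) (Sph ×ˢ Sph) :=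
    h1.prodMk continuousOn_snd
  exact Continuous.comp_continuousOn (g := fun p : Eb × Eb => kp p.1 p.2)
    (f := fun p : Eb × Eb => (ab g p.1, p.2)) kp_cont h2

/-- module A5 -/
theorem moves {σ : G →* GU (Fin 2)} (hL : Lat σ) : ∃ U : Finset G, ∃ a : ℝ, 0 < a ∧
    ∀ θ ∈ Sph, ∀ θ' ∈ Sph, ∃ u ∈ U, a ≤ kp (ab (σ u) θ) θ' := by
  classical
  have hcp : IsCompact (Sph ×ˢ Sph) := (isCompact_sphere _ _).prod (isCompact_sphere _ _)
  have key : ∃ U : Finset G, ∃ a : ℝ, 0 < a ∧ ∀ p ∈ Sph ×ˢ Sph, ∃ u ∈ U,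
      a ≤ kp (ab (σ u) p.1) p.2 := by
    refine hcp.induction_on (p := fun s => ∃ U : Finset G, ∃ a : ℝ, 0 < a ∧ ∀ p ∈ s, ∃ u ∈ U,
      a ≤ kp (ab (σ u) p.1) p.2) ?_ ?_ ?_ ?_
    · exact ⟨∅, 1, one_pos, fun p hp => hp.elim⟩
    · rintro s t hst ⟨U, a, ha, h⟩
      exact ⟨U, a, ha, fun p hp => h p (hst hp)⟩
    · rintro s t ⟨U, a, ha, h⟩ ⟨U', a', ha', h'⟩
      refine ⟨U ∪ U', min a a', lt_min ha ha', ?_⟩
      rintro p (hp | hp)
      · obtain ⟨u, hu, h1⟩ := h p hp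
        exact ⟨u, Finset.mem_union_left _ hu, (min_le_left _ _).trans h1⟩
      · obtain ⟨u, hu, h1⟩ := h' p hp
        exact ⟨u, Finset.mem_union_right _ hu, (min_le_right _ _).trans h1⟩
    · rintro ⟨θ, θ'⟩ ⟨hθ, hθ'⟩
      have hu : ∃ u, ab (σ u) θ ≠ θ' := by
        by_contra hcon
        simp only [not_exists, not_not] at hcon
        have h1 : θ = θ' := by
          have := hcon 1
          rwa [map_one, ab_one] at this
        subst h1
        exact A5_fix hL hθ hcon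
      obtain ⟨u, hu⟩ := hu
      have hpos : 0 < kp (ab (σ u) θ) θ' :=
        kp_pos (A5_sph_cb (ab_sph _ hθ)) (A5_sph_cb hθ') hu
      have hcont : ContinuousOn (fun p : Eb × Eb => kp (ab (σ u) p.1) p.2) (Sph ×ˢ Sph) :=
        A5_cont (σ u)
      have h2 : ContinuousWithinAt (fun p : Eb × Eb => kp (ab (σ u) p.1) p.2) (Sph ×ˢ Sph)
          (θ, θ') := hcont (θ, θ') ⟨hθ, hθ'⟩
      have h4 : kp (ab (σ u) θ) θ' / 2 <
          (fun p : Eb × Eb => kp (ab (σ u) p.1) p.2) (θ, θ') := half_lt_self hpos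
      have h3 : ∀ᶠ p in 𝓝[Sph ×ˢ Sph] (θ, θ'), kp (ab (σ u) θ) θ' / 2 <
          kp (ab (σ u) p.1) p.2 := h2.eventually_const_lt h4
      refine ⟨_, h3, {u}, kp (ab (σ u) θ) θ' / 2, by positivity, fun p hp => ?_⟩
      exact ⟨u, Finset.mem_singleton_self u, le_of_lt hp⟩
  obtain ⟨U, a, ha, h⟩ := key
  exact ⟨U, a, ha, fun θ hθ θ' hθ' => h (θ, θ') ⟨hθ, hθ'⟩⟩

end Pool.Agent.MPd01a95.KT
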