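import Mathlib
import Pool.Agent.Lib.MP_d01a95_gt_K.KDefs2

set_option autoImplicit false
set_option linter.all false

open Matrix Filter Topology MeasureTheory
open scoped ContDiff

namespace Pool.Agent.MPd01a95.KT

open GU

namespace F0
end F0

open F0

variable {G : Type} [Group G]

/-! Module F0: linear algebra. Auxiliary lemmas live in the namespace `F0`. -/

theorem F0.le_s1 (g : M4) (i j : Fin 4) : ‖g i j‖ ≤ s1 g :=
  (norm_le_pi_norm (fun j => g i j) j).trans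
    (norm_le_pi_norm (fun i j => g i j : Fin 4 → Fin 4 → ℂ) i)

theorem F0.s1_nonneg (g : M4) : 0 ≤ s1 g := norm_nonneg _

theorem F0.s1_le {g : M4} {r : ℝ} (hr : 0 ≤ r) (h : ∀ i j, ‖g i j‖ ≤ r) : s1 g ≤ r :=
  (pi_norm_le_iff_of_nonneg hr).mpr fun i => (pi_norm_le_iff_of_nonneg hr).mpr fun j => h i j

theorem F0.le_s2 (g : M4) (i i' j j' : Fin 4) : ‖g i j * g i' j' - g i j' * g i' j‖ ≤ s2 g :=
  (norm_le_pi_norm (fun j' => g i j * g i' j' - g i j' * g i' j) j').trans <|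
    (norm_le_pi_norm (fun j j' => g i j * g i' j' - g i j' * g i' j : Fin 4 → Fin 4 → ℂ) j).trans <|
    (norm_le_pi_norm (fun i' j j' => g i j * g i' j' - g i j' * g i' j :
      Fin 4 → Fin 4 → Fin 4 → ℂ) i').trans
    (norm_le_pi_norm (fun i i' j j' => g i j * g i' j' - g i j' * g i' j :
      Fin 4 → Fin 4 → Fin 4 → Fin 4 → ℂ) i)

theorem F0.s2_nonneg (g : M4) : 0 ≤ s2 g := norm_nonneg _

theorem F0.s2_le_of {g : M4} {r : ℝ} (hr : 0 ≤ r)
    (h : ∀ i i' j j', ‖g i j * g i' j' - g i j' * g i' j‖ ≤ r) : s2 g ≤ r :=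
  (pi_norm_le_iff_of_nonneg hr).mpr fun i => (pi_norm_le_iff_of_nonneg hr).mpr fun i' =>
    (pi_norm_le_iff_of_nonneg hr).mpr fun j => (pi_norm_le_iff_of_nonneg hr).mpr fun j' =>
      h i i' j j'

theorem F0.le_wd (x y : V4) (i j : Fin 4) : ‖x i * y j - x j * y i‖ ≤ wd x y :=
  (norm_le_pi_norm (fun j => x i * y j - x j * y i) j).trans
    (norm_le_pi_norm (fun i j => x i * y j - x j * y i : Fin 4 → Fin 4 → ℂ) i)

theorem F0.wd_nonneg (x y : V4) : 0 ≤ wd x y := norm_nonneg _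

theorem F0.wd_le_of {x y : V4} {r : ℝ} (hr : 0 ≤ r) (h : ∀ i j, ‖x i * y j - x j * y i‖ ≤ r) :
    wd x y ≤ r :=
  (pi_norm_le_iff_of_nonneg hr).mpr fun i => (pi_norm_le_iff_of_nonneg hr).mpr fun j => h i j

theorem F0.exists_max (x : V4) : ∃ i, ‖x i‖ = ‖x‖ := by
  obtain ⟨i, -, hi⟩ := Finset.exists_mem_eq_sup' (s := (Finset.univ : Finset (Fin 4)))
    ⟨0, Finset.mem_univ _⟩ (fun i => ‖x i‖)
  refine ⟨i, le_antisymm (norm_le_pi_norm x i) ?_⟩
  refine (pi_norm_le_iff_of_nonneg (norm_nonneg _)).mpr fun j => ?_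
  rw [← hi]
  exact Finset.le_sup' (fun i => ‖x i‖) (Finset.mem_univ j)

theorem F0.exists_max2 (g : M4) : ∃ i j, ‖g i j‖ = s1 g := by
  obtain ⟨p, -, hp⟩ := Finset.exists_mem_eq_sup' (s := (Finset.univ : Finset (Fin 4 × Fin 4)))
    ⟨(0, 0), Finset.mem_univ _⟩ (fun p => ‖g p.1 p.2‖)
  refine ⟨p.1, p.2, le_antisymm (le_s1 g _ _) ?_⟩
  refine s1_le (norm_nonneg _) fun i j => ?_
  rw [← hp]
  exact Finset.le_sup' (fun p : Fin 4 × Fin 4 => ‖g p.1 p.2‖) (Finset.mem_univ (i, j))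

theorem F0.norm_sum4_le {f : Fin 4 → ℂ} {r : ℝ} (h : ∀ i, ‖f i‖ ≤ r) : ‖∑ i, f i‖ ≤ 4 * r := by
  refine (norm_sum_le _ _).trans ((Finset.sum_le_sum fun i _ => h i).trans ?_)
  simp

/-- module F0 -/
theorem norm_mulVec (g : M4) (w : V4) : ‖g *ᵥ w‖ ≤ 4 * s1 g * ‖w‖ := by
  have h0 : 0 ≤ 4 * s1 g * ‖w‖ := by have := s1_nonneg g; positivity
  refine (pi_norm_le_iff_of_nonneg h0).mpr fun i => ?_
  simp only [Matrix.mulVec, dotProduct]
  rw [mul_assoc]
  refine norm_sum4_le fun j => ?_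
  rw [norm_mul]
  exact mul_le_mul (le_s1 g i j) (norm_le_pi_norm w j) (norm_nonneg _) (s1_nonneg g)

/-- module F0 -/
theorem s1_mul (g h : M4) : s1 (g * h) ≤ 4 * s1 g * s1 h := by
  have h0 : 0 ≤ 4 * s1 g * s1 h := by
    have := s1_nonneg g
    have := s1_nonneg h
    positivity
  refine s1_le h0 fun i j => ?_
  rw [Matrix.mul_apply, mul_assoc]
  refine norm_sum4_le fun k => ?_
  rw [norm_mul]
  exact mul_le_mul (le_s1 g i k) (le_s1 h k j) (norm_nonneg _) (s1_nonneg g)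

theorem F0.minor_mul (g h : M4) (i i' j j' : Fin 4) :
    (g * h) i j * (g * h) i' j' - (g * h) i j' * (g * h) i' j =
      (g i 0 * g i' 1 - g i 1 * g i' 0) * (h 0 j * h 1 j' - h 0 j' * h 1 j) +
      (g i 0 * g i' 2 - g i 2 * g i' 0) * (h 0 j * h 2 j' - h 0 j' * h 2 j) +
      (g i 0 * g i' 3 - g i 3 * g i' 0) * (h 0 j * h 3 j' - h 0 j' * h 3 j) +
      (g i 1 * g i' 2 - g i 2 * g i' 1) * (h 1 j * h 2 j' - h 1 j' * h 2 j) +
      (g i 1 * g i' 3 - g i 3 * g i' 1) * (h 1 j * h 3 j' - h 1 j' * h 3 j) +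
      (g i 2 * g i' 3 - g i 3 * g i' 2) * (h 2 j * h 3 j' - h 2 j' * h 3 j) := by
  simp only [Matrix.mul_apply, Fin.sum_univ_four]
  ring

theorem F0.norm_add6_le {a b c' d e f : ℂ} {r : ℝ} (ha : ‖a‖ ≤ r) (hb : ‖b‖ ≤ r) (hc : ‖c'‖ ≤ r)
    (hd : ‖d‖ ≤ r) (he : ‖e‖ ≤ r) (hf' : ‖f‖ ≤ r) : ‖a + b + c' + d + e + f‖ ≤ 16 * r := by
  have hr : 0 ≤ r := (norm_nonneg _).trans ha
  have h1 := norm_add_le (a + b + c' + d + e) f
  have h2 := norm_add_le (a + b + c' + d) e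
  have h3 := norm_add_le (a + b + c') d
  have h4 := norm_add_le (a + b) c'
  have h5 := norm_add_le a b
  linarith

/-- module F0 -/
theorem s2_mul (g h : M4) : s2 (g * h) ≤ 16 * s2 g * s2 h := by
  have h0 : 0 ≤ 16 * s2 g * s2 h := by
    have := s2_nonneg g
    have := s2_nonneg h
    positivity
  have key : ∀ i i' j j' k k' : Fin 4,
      ‖(g i k * g i' k' - g i k' * g i' k) * (h k j * h k' j' - h k j' * h k' j)‖ ≤
        s2 g * s2 h := fun i i' j j' k k' => by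
    rw [norm_mul]
    exact mul_le_mul (le_s2 g i i' k k') (le_s2 h k k' j j') (norm_nonneg _) (s2_nonneg g)
  refine s2_le_of h0 fun i i' j j' => ?_
  rw [minor_mul, mul_assoc]
  exact norm_add6_le (key ..) (key ..) (key ..) (key ..) (key ..) (key ..)

/-- module F0 -/
theorem s2_le (g : M4) : s2 g ≤ 2 * s1 g ^ 2 := by
  refine s2_le_of (by positivity) fun i i' j j' => ?_
  refine (norm_sub_le _ _).trans ?_
  rw [norm_mul, norm_mul, two_mul, sq]
  have h0 := s1_nonneg g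
  exact add_le_add (mul_le_mul (le_s1 g _ _) (le_s1 g _ _) (norm_nonneg _) h0)
    (mul_le_mul (le_s1 g _ _) (le_s1 g _ _) (norm_nonneg _) h0)

/-- module F0 -/
theorem wd_mulVec (g : M4) (x y : V4) : wd (g *ᵥ x) (g *ᵥ y) ≤ 16 * s2 g * wd x y := by
  have h0 : 0 ≤ 16 * s2 g * wd x y := by
    have := s2_nonneg g
    have := wd_nonneg x y
    positivity
  have key : ∀ i i' k k' : Fin 4,
      ‖(g i k * g i' k' - g i k' * g i' k) * (x k * y k' - x k' * y k)‖ ≤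
        s2 g * wd x y := fun i i' k k' => by
    rw [norm_mul]
    exact mul_le_mul (le_s2 g i i' k k') (le_wd x y k k') (norm_nonneg _) (s2_nonneg g)
  refine wd_le_of h0 fun i j => ?_
  have e : (g *ᵥ x) i * (g *ᵥ y) j - (g *ᵥ x) j * (g *ᵥ y) i =
      (g i 0 * g j 1 - g i 1 * g j 0) * (x 0 * y 1 - x 1 * y 0) +
      (g i 0 * g j 2 - g i 2 * g j 0) * (x 0 * y 2 - x 2 * y 0) +
      (g i 0 * g j 3 - g i 3 * g j 0) * (x 0 * y 3 - x 3 * y 0) +
      (g i 1 * g j 2 - g i 2 * g j 1) * (x 1 * y 2 - x 2 * y 1) +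
      (g i 1 * g j 3 - g i 3 * g j 1) * (x 1 * y 3 - x 3 * y 1) +
      (g i 2 * g j 3 - g i 3 * g j 2) * (x 2 * y 3 - x 3 * y 2) := by
    simp only [Matrix.mulVec, dotProduct, Fin.sum_univ_four]
    ring
  rw [e, mul_assoc]
  exact norm_add6_le (key ..) (key ..) (key ..) (key ..) (key ..) (key ..)

/-- module F0 -/
theorem wd_le (x y : V4) : wd x y ≤ 2 * ‖x‖ * ‖y‖ := by
  refine wd_le_of (by positivity) fun i j => ?_
  refine (norm_sub_le _ _).trans ?_
  rw [norm_mul, norm_mul, mul_assoc, two_mul]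
  exact add_le_add (mul_le_mul (norm_le_pi_norm x _) (norm_le_pi_norm y _) (norm_nonneg _)
    (norm_nonneg _)) (mul_le_mul (norm_le_pi_norm x _) (norm_le_pi_norm y _) (norm_nonneg _)
    (norm_nonneg _))

theorem F0.wd_symm (x y : V4) : wd x y = wd y x := by
  have key : ∀ x y : V4, wd x y ≤ wd y x := fun x y =>
    wd_le_of (wd_nonneg _ _) fun i j => by
      have := le_wd y x j i
      rwa [show y j * x i - y i * x j = x i * y j - x j * y i by ring] at this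
  exact le_antisymm (key x y) (key y x)

theorem F0.wd_smul (l : ℂ) (x y : V4) : wd (l • x) y = ‖l‖ * wd x y := by
  unfold wd
  rw [← norm_smul]
  congr 1
  funext i j
  simp only [Pi.smul_apply, smul_eq_mul]
  ring

theorem F0.wd_smul' (l : ℂ) (x y : V4) : wd x (l • y) = ‖l‖ * wd x y := by
  rw [wd_symm, wd_smul, wd_symm]

theorem F0.wd_add_left (x x' y : V4) : wd (x + x') y ≤ wd x y + wd x' y := by
  refine wd_le_of (add_nonneg (wd_nonneg _ _) (wd_nonneg _ _)) fun i j => ?_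
  have e : (x + x') i * y j - (x + x') j * y i =
      (x i * y j - x j * y i) + (x' i * y j - x' j * y i) := by
    simp only [Pi.add_apply]
    ring
  rw [e]
  exact (norm_add_le _ _).trans (add_le_add (le_wd x y i j) (le_wd x' y i j))

/-- module F0 -/
theorem wd_tri (x y z : V4) : wd x z * ‖y‖ ≤ 2 * (wd x y * ‖z‖ + wd y z * ‖x‖) := by
  obtain ⟨m, hm⟩ := exists_max y
  rw [← hm]
  have h0 : 0 ≤ 2 * (wd x y * ‖z‖ + wd y z * ‖x‖) := by
    have := wd_nonneg x y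
    have := wd_nonneg y z
    positivity
  have key : ∀ i j, ‖(x i * z j - x j * z i)‖ * ‖y m‖ ≤ 2 * (wd x y * ‖z‖ + wd y z * ‖x‖) := by
    intro i j
    rw [← norm_mul]
    have e : (x i * z j - x j * z i) * y m =
        x i * (y m * z j - y j * z m) - x j * (y m * z i - y i * z m) +
          z m * (x i * y j - x j * y i) := by ring
    rw [e]
    refine (norm_add_le _ _).trans ((add_le_add_left (norm_sub_le _ _) _).trans ?_)
    rw [norm_mul, norm_mul, norm_mul]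
    have h1 : ‖x i‖ * ‖y m * z j - y j * z m‖ ≤ ‖x‖ * wd y z :=
      mul_le_mul (norm_le_pi_norm x i) (le_wd y z m j) (norm_nonneg _) (norm_nonneg _)
    have h2 : ‖x j‖ * ‖y m * z i - y i * z m‖ ≤ ‖x‖ * wd y z :=
      mul_le_mul (norm_le_pi_norm x j) (le_wd y z m i) (norm_nonneg _) (norm_nonneg _)
    have h3 : ‖z m‖ * ‖x i * y j - x j * y i‖ ≤ ‖z‖ * wd x y :=
      mul_le_mul (norm_le_pi_norm z m) (le_wd x y i j) (norm_nonneg _) (norm_nonneg _)
    have h4 : 0 ≤ ‖z‖ * wd x y := mul_nonneg (norm_nonneg _) (wd_nonneg _ _)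
    nlinarith [h1, h2, h3, h4]
  rcases (norm_nonneg (y m)).eq_or_lt with h | h
  · rw [← h, mul_zero]
    exact h0
  · rw [← le_div_iff₀ h]
    refine wd_le_of (div_nonneg h0 h.le) fun i j => ?_
    rw [le_div_iff₀ h]
    exact key i j

theorem F0.wd_decomp (x y : V4) (hy : ‖y‖ = 1) : ∃ l : ℂ, ‖l‖ ≤ ‖x‖ ∧ ‖x - l • y‖ ≤ wd x y := by
  obtain ⟨m, hm⟩ := exists_max y
  rw [hy] at hm
  have hm0 : y m ≠ 0 := fun h => by rw [h, norm_zero] at hm; exact zero_ne_one hm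
  refine ⟨x m / y m, ?_, ?_⟩
  · rw [norm_div, hm, div_one]
    exact norm_le_pi_norm x m
  · refine (pi_norm_le_iff_of_nonneg (wd_nonneg _ _)).mpr fun i => ?_
    have e : (x - (x m / y m) • y) i = (x i * y m - x m * y i) / y m := by
      simp only [Pi.sub_apply, Pi.smul_apply, smul_eq_mul]
      field_simp
    rw [e, norm_div, hm, div_one]
    exact le_wd x y i m

/-- module F0 -/
theorem wd_close (x y : V4) (hx : ‖x‖ = 1) (hy : ‖y‖ = 1) : ∃ l : ℂ, ‖l‖ = 1 ∧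
    ‖l • x - y‖ ≤ 4 * wd x y := by
  obtain ⟨l, hl, hd⟩ := wd_decomp x y hy
  rw [hx] at hl
  have h1 : 1 - ‖l‖ ≤ wd x y := by
    have e := norm_sub_norm_le x (l • y)
    rw [norm_smul, hx, hy, mul_one] at e
    linarith
  by_cases h0 : l = 0
  · refine ⟨1, norm_one, ?_⟩
    rw [h0, norm_zero, sub_zero] at h1
    rw [one_smul]
    have := norm_sub_le x y
    rw [hx, hy] at this
    linarith
  · have hl0 : ‖l‖ ≠ 0 := norm_ne_zero_iff.mpr h0
    refine ⟨(‖l‖ : ℂ) / l, ?_, ?_⟩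
    · rw [norm_div, Complex.norm_real, norm_norm, div_self hl0]
    · have e : ((‖l‖ : ℂ) / l) • x - y = ((‖l‖ : ℂ) / l) • (x - l • y) + ((‖l‖ : ℂ) - 1) • y := by
        funext i
        simp only [Pi.sub_apply, Pi.smul_apply, Pi.add_apply, smul_eq_mul]
        field_simp
        ring
      rw [e]
      refine (norm_add_le _ _).trans ?_
      rw [norm_smul, norm_smul, hy, mul_one, norm_div, Complex.norm_real, norm_norm, div_self hl0,
        one_mul]
      have e2 : ‖(‖l‖ : ℂ) - 1‖ = 1 - ‖l‖ := by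
        rw [show (‖l‖ : ℂ) - 1 = ((‖l‖ - 1 : ℝ) : ℂ) by push_cast; ring, Complex.norm_real,
          Real.norm_eq_abs, abs_of_nonpos (by linarith)]
        ring
      rw [e2]
      have := wd_nonneg x y
      linarith

theorem F0.s1_pos {g : M4} (h : g ≠ 0) : 0 < s1 g := by
  rcases (s1_nonneg g).eq_or_lt with h0 | h0
  · exfalso
    apply h
    ext i j
    have := le_s1 g i j
    rw [← h0] at this
    simpa using this
  · exact h0

theorem F0.mulVec_single_one (g : M4) (j : Fin 4) : g *ᵥ Pi.single j 1 = fun i => g i j := by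
  rw [Matrix.mulVec_single_one]
  rfl

theorem F0.norm_single_one (j : Fin 4) : ‖(Pi.single j 1 : V4)‖ = 1 := by
  rw [Pi.norm_single, norm_one]

/-- module F0: approximation by a matrix of rank one -/
theorem rank_one (g : M4) (h : g ≠ 0) : ∃ u v : V4, ‖u‖ = 1 ∧ ‖v‖ = 1 ∧
    ∀ w, ‖g *ᵥ w - ((s1 g : ℂ) * (v ⬝ᵥ w)) • u‖ ≤ 4 * (s2 g / s1 g) * ‖w‖ := by
  obtain ⟨i₀, j₀, hm⟩ := exists_max2 g
  have hs := s1_pos h
  have hm0 : g i₀ j₀ ≠ 0 := norm_pos_iff.mp (by rw [hm]; exact hs)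
  have hsc : (s1 g : ℂ) ≠ 0 := Complex.ofReal_ne_zero.mpr hs.ne'
  refine ⟨fun i => g i j₀ / g i₀ j₀, fun j => g i₀ j / s1 g, ?_, ?_, fun w => ?_⟩
  · refine le_antisymm ((pi_norm_le_iff_of_nonneg zero_le_one).mpr fun i => ?_) ?_
    · rw [norm_div, hm, div_le_one hs]
      exact le_s1 g i j₀
    · have := norm_le_pi_norm (fun i => g i j₀ / g i₀ j₀) i₀
      rwa [div_self hm0, norm_one] at this
  · refine le_antisymm ((pi_norm_le_iff_of_nonneg zero_le_one).mpr fun j => ?_) ?_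
    · rw [norm_div, Complex.norm_real, Real.norm_of_nonneg hs.le, div_le_one hs]
      exact le_s1 g i₀ j
    · have := norm_le_pi_norm (fun j => g i₀ j / (s1 g : ℂ)) j₀
      rwa [norm_div, Complex.norm_real, Real.norm_of_nonneg hs.le, hm, div_self hs.ne'] at this
  · have h0 : 0 ≤ 4 * (s2 g / s1 g) * ‖w‖ := by
      have := s2_nonneg g
      positivity
    refine (pi_norm_le_iff_of_nonneg h0).mpr fun i => ?_
    have e : (g *ᵥ w - ((s1 g : ℂ) * ((fun j => g i₀ j / (s1 g : ℂ)) ⬝ᵥ w)) •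
        (fun i => g i j₀ / g i₀ j₀ : V4)) i =
        ∑ j, (g i j * g i₀ j₀ - g i j₀ * g i₀ j) / g i₀ j₀ * w j := by
      simp only [Pi.sub_apply, Pi.smul_apply, smul_eq_mul, Matrix.mulVec, dotProduct,
        Fin.sum_univ_four]
      field_simp
      ring
    rw [e, mul_assoc]
    refine norm_sum4_le fun j => ?_
    rw [norm_mul, norm_div, hm]
    exact mul_le_mul (div_le_div_of_nonneg_right (le_s2 g i i₀ j j₀) hs.le)
      (norm_le_pi_norm w j) (norm_nonneg _) (div_nonneg (s2_nonneg g) hs.le)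

/-- module F0 -/
theorem s1_smul (g : M4) (u : ℂ) (hu : ‖u‖ = 1) : s1 (u • g) = s1 g ∧ s2 (u • g) = s2 g := by
  constructor
  · unfold s1
    rw [show (fun i j => (u • g) i j : Fin 4 → Fin 4 → ℂ) =
      u • (fun i j => g i j : Fin 4 → Fin 4 → ℂ) from rfl, norm_smul, hu, one_mul]
  · unfold s2
    rw [show (fun i i' j j' => (u • g) i j * (u • g) i' j' - (u • g) i j' * (u • g) i' j :
        Fin 4 → Fin 4 → Fin 4 → Fin 4 → ℂ) =
      (u ^ 2) • (fun i i' j j' => g i j * g i' j' - g i j' * g i' j :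
        Fin 4 → Fin 4 → Fin 4 → Fin 4 → ℂ) by
        funext i i' j j'
        simp only [Matrix.smul_apply, Pi.smul_apply, smul_eq_mul]
        ring, norm_smul, norm_pow, hu, one_pow, one_mul]

/-- module F0 -/
theorem hf_bd (v w : V4) : ‖hf v w‖ ≤ 4 * ‖v‖ * ‖w‖ := by
  have key : ∀ i, ‖v i * star (w i)‖ ≤ ‖v‖ * ‖w‖ := fun i => by
    rw [norm_mul, norm_star]
    exact mul_le_mul (norm_le_pi_norm v i) (norm_le_pi_norm w i) (norm_nonneg _) (norm_nonneg _)
  unfold hf CW.hh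
  have h1 := norm_sub_le (v 0 * star (w 0) + v 1 * star (w 1) - v 2 * star (w 2))
    (v 3 * star (w 3))
  have h2 := norm_sub_le (v 0 * star (w 0) + v 1 * star (w 1)) (v 2 * star (w 2))
  have h3 := norm_add_le (v 0 * star (w 0)) (v 1 * star (w 1))
  have := key 0
  have := key 1
  have := key 2
  have := key 3
  linarith

/-! ### the form -/

theorem F0.hf_add_left (v v' w : V4) : hf (v + v') w = hf v w + hf v' w := by
  simp only [hf, CW.hh, Pi.add_apply]; ring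

theorem F0.hf_smul_left (l : ℂ) (v w : V4) : hf (l • v) w = l * hf v w := by
  simp only [hf, CW.hh, Pi.smul_apply, smul_eq_mul]; ring

theorem F0.hf_add_right (v w w' : V4) : hf v (w + w') = hf v w + hf v w' := by
  simp only [hf, CW.hh, Pi.add_apply, star_add]; ring

theorem F0.hf_smul_right (l : ℂ) (v w : V4) : hf v (l • w) = star l * hf v w := by
  simp only [hf, CW.hh, Pi.smul_apply, smul_eq_mul, star_mul']; ring

theorem F0.hf_sub_left (v v' w : V4) : hf (v - v') w = hf v w - hf v' w := by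
  simp only [hf, CW.hh, Pi.sub_apply]; ring

theorem F0.hf_sub_right (v w w' : V4) : hf v (w - w') = hf v w - hf v w' := by
  simp only [hf, CW.hh, Pi.sub_apply, star_sub]; ring

theorem F0.hf_symm (v w : V4) : hf w v = star (hf v w) := by
  simp only [hf, CW.hh, star_sub, star_add, star_mul', star_star]; ring

/-- the signs of the form -/
def F0.sg : Fin 4 → ℂ := ![1, 1, -1, -1]

theorem F0.hf_single (v : V4) (j : Fin 4) : hf v (Pi.single j 1) = sg j * v j := by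
  fin_cases j <;> simp [hf, CW.hh, sg, Pi.single_apply]

theorem F0.norm_sg (j : Fin 4) : ‖sg j‖ = 1 := by
  fin_cases j <;> simp [sg]

theorem F0.sg_sq (j : Fin 4) : sg j * sg j = 1 := by
  fin_cases j <;> simp [sg]

theorem F0.star_sg (j : Fin 4) : star (sg j) = sg j := by
  fin_cases j <;> simp [sg]

theorem F0.hf_eq (v w : V4) : hf v w = ∑ i, sg i * (v i * star (w i)) := by
  simp only [hf, CW.hh, sg, Fin.sum_univ_four]
  simp
  ring

/-- the adjoint of a matrix for the form -/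
noncomputable def F0.adj (g : M4) : M4 := Matrix.of fun i j => sg i * star (g j i) * sg j

theorem F0.adj_apply (g : M4) (i j : Fin 4) : adj g i j = sg i * star (g j i) * sg j := rfl

theorem F0.adj_mul_self {g : M4} (hg : Iso4 g) : adj g * g = 1 := by
  ext i j
  have h := hg (Pi.single j 1) (Pi.single i 1)
  rw [mulVec_single_one, mulVec_single_one, hf_single, hf_eq] at h
  rw [Matrix.mul_apply]
  have e : ∑ k, adj g i k * g k j = sg i * ∑ k, sg k * (g k j * star (g k i)) := by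
    rw [Finset.mul_sum]
    exact Finset.sum_congr rfl fun k _ => by rw [adj_apply]; ring
  rw [e, h, ← mul_assoc, sg_sq, one_mul, Matrix.one_apply, Pi.single_apply]

theorem F0.inv_eq_adj {g : M4} (hg : Iso4 g) : g⁻¹ = adj g :=
  Matrix.inv_eq_left_inv (adj_mul_self hg)

theorem F0.isUnit_det {g : M4} (hg : Iso4 g) : IsUnit g.det := by
  have h := congrArg Matrix.det (adj_mul_self hg)
  rw [Matrix.det_mul, Matrix.det_one] at h
  exact IsUnit.of_mul_eq_one _ (by rw [mul_comm]; exact h)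

theorem F0.s1_adj (g : M4) : s1 (adj g) ≤ s1 g := by
  refine s1_le (s1_nonneg g) fun i j => ?_
  rw [adj_apply, norm_mul, norm_mul, norm_sg, norm_sg, norm_star, one_mul, mul_one]
  exact le_s1 g j i

theorem F0.s2_adj (g : M4) : s2 (adj g) ≤ s2 g := by
  refine s2_le_of (s2_nonneg g) fun i i' j j' => ?_
  have e : adj g i j * adj g i' j' - adj g i j' * adj g i' j =
      sg i * sg i' * sg j * sg j' * star (g j i * g j' i' - g j i' * g j' i) := by
    simp only [adj_apply, star_sub, star_mul']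
    ring
  rw [e, norm_mul, norm_mul, norm_mul, norm_mul, norm_sg, norm_sg, norm_sg, norm_sg, norm_star]
  simp only [one_mul]
  exact le_s2 g j j' i i'

theorem F0.iso_inv' {g : M4} (hg : Iso4 g) : Iso4 g⁻¹ := fun v w => by
  have h := hg (g⁻¹ *ᵥ v) (g⁻¹ *ᵥ w)
  rw [Matrix.mulVec_mulVec, Matrix.mulVec_mulVec, Matrix.mul_nonsing_inv _ (isUnit_det hg),
    Matrix.one_mulVec, Matrix.one_mulVec] at h
  exact h.symm

/-- module F0 -/
theorem iso_inv {g : M4} (hg : Iso4 g) : s1 g⁻¹ = s1 g ∧ s2 g⁻¹ = s2 g ∧ Iso4 g⁻¹ ∧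
    g * g⁻¹ = 1 ∧ g⁻¹ * g = 1 ∧ 1 / 2 ≤ s1 g := by
  have hu := isUnit_det hg
  have h1 := iso_inv' hg
  have e1 : g * g⁻¹ = 1 := Matrix.mul_nonsing_inv _ hu
  have e2 : g⁻¹ * g = 1 := Matrix.nonsing_inv_mul _ hu
  have e3 : g = adj g⁻¹ := by
    rw [← inv_eq_adj h1, Matrix.nonsing_inv_nonsing_inv _ hu]
  have a1 : s1 g⁻¹ = s1 g := by
    refine le_antisymm ?_ ?_
    · rw [inv_eq_adj hg]; exact s1_adj g
    · conv_lhs => rw [e3]
      exact s1_adj _
  have a2 : s2 g⁻¹ = s2 g := by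
    refine le_antisymm ?_ ?_
    · rw [inv_eq_adj hg]; exact s2_adj g
    · conv_lhs => rw [e3]
      exact s2_adj _
  refine ⟨a1, a2, h1, e1, e2, ?_⟩
  have h := s1_mul g g⁻¹
  rw [e1, a1] at h
  have h2 : 1 ≤ s1 (1 : M4) := by
    have := le_s1 (1 : M4) 0 0
    simpa using this
  have h3 := s1_nonneg g
  nlinarith

namespace Kp

variable (P : Kp G)

theorem F0_iso (g : G) : Iso4 (P.R g) := P.pres g

theorem R_inv (g : G) : ∃ u : ℂ, ‖u‖ = 1 ∧ P.R g⁻¹ = u • (P.R g)⁻¹ := by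
  obtain ⟨u, hu, h⟩ := P.mul g g⁻¹
  rw [mul_inv_cancel, P.one] at h
  have hu0 : u ≠ 0 := fun h0 => by rw [h0, norm_zero] at hu; exact zero_ne_one hu
  refine ⟨u⁻¹, by rw [norm_inv, hu, inv_one], ?_⟩
  obtain ⟨-, -, -, e1, e2, -⟩ := iso_inv (P.F0_iso g)
  have h3 : (P.R g)⁻¹ = u • P.R g⁻¹ := by
    calc (P.R g)⁻¹ = (P.R g)⁻¹ * (u • (P.R g * P.R g⁻¹)) := by rw [← h, Matrix.mul_one]
      _ = u • ((P.R g)⁻¹ * P.R g * P.R g⁻¹) := by rw [Matrix.mul_smul, Matrix.mul_assoc]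
      _ = u • P.R g⁻¹ := by rw [e2, Matrix.one_mul]
  rw [h3, smul_smul, inv_mul_cancel₀ hu0, one_smul]

/-- module F0 -/
theorem sz_inv (g : G) : s1 (P.R g⁻¹) = s1 (P.R g) ∧ s2 (P.R g⁻¹) = s2 (P.R g) ∧
    1 / 2 ≤ s1 (P.R g) := by
  obtain ⟨u, hu, h⟩ := P.R_inv g
  obtain ⟨a1, a2, -, -, -, a3⟩ := iso_inv (P.F0_iso g)
  obtain ⟨b1, b2⟩ := s1_smul (P.R g)⁻¹ u hu
  exact ⟨by rw [h, b1, a1], by rw [h, b2, a2], a3⟩

theorem F0_s1_pos' (g : G) : 0 < s1 (P.R g) := by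
  have := (P.sz_inv g).2.2
  linarith

theorem F0_R_mul_vec (g h : G) : ∃ u : ℂ, ‖u‖ = 1 ∧ ∀ w, P.R (g * h) *ᵥ w =
    u • (P.R g *ᵥ (P.R h *ᵥ w)) := by
  obtain ⟨u, hu, e⟩ := P.mul g h
  exact ⟨u, hu, fun w => by rw [e, Matrix.smul_mulVec, Matrix.mulVec_mulVec]⟩

theorem F0_s1_mul' (g h : G) : s1 (P.R (g * h)) ≤ 4 * s1 (P.R g) * s1 (P.R h) := by
  obtain ⟨u, hu, e⟩ := P.mul g h
  rw [e, (s1_smul _ u hu).1]
  exact s1_mul _ _

/-- sizes grow with the displacement -/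
theorem F0_s1_large (M : ℝ) : ∃ S : ℝ, ∀ g, S ≤ c (P.σ g) → M ≤ s1 (P.R g) := by
  refine ⟨P.C * (max M 1) ^ P.N + 1, fun g hg => ?_⟩
  by_contra hlt
  rw [not_le] at hlt
  have h0 := P.F0_s1_pos' g
  have h1 := P.lo g
  have hC : 0 < P.C := by have := P.hC; linarith
  have h2 : s1 (P.R g) ^ P.N ≤ (max M 1) ^ P.N :=
    Real.rpow_le_rpow h0.le (hlt.le.trans (le_max_left _ _)) P.hN.le
  have h3 := mul_le_mul_of_nonneg_left h2 hC.le
  linarith

/-- module F0 -/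
theorem gap0 (η : ℝ) (hη : 0 < η) : ∃ S : ℝ, ∀ g, S ≤ c (P.σ g) →
    s2 (P.R g) ≤ η * s1 (P.R g) ^ 2 := by
  have hC : 0 < P.C := by have := P.hC; linarith
  obtain ⟨S, hS⟩ := P.F0_s1_large ((P.C / η) ^ (1 / P.ε))
  refine ⟨S, fun g hg => ?_⟩
  have h1 := hS g hg
  have h0 := P.F0_s1_pos' g
  have hε := P.hε
  have h2 : P.C / η ≤ s1 (P.R g) ^ P.ε := by
    have := Real.rpow_le_rpow (by positivity) h1 hε.le
    rwa [← Real.rpow_mul (by positivity), one_div, inv_mul_cancel₀ hε.ne', Real.rpow_one] at this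
  have h3 := P.gap g
  rw [Real.rpow_sub h0, Real.rpow_two] at h3
  have h4 : 0 < s1 (P.R g) ^ P.ε := Real.rpow_pos_of_pos h0 _
  refine h3.trans ?_
  rw [← mul_div_assoc, div_le_iff₀ h4]
  rw [div_le_iff₀ hη] at h2
  have h5 : 0 ≤ s1 (P.R g) ^ 2 := by positivity
  nlinarith

end Kp

end Pool.Agent.MPd01a95.KT
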