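import Mathlib
import Pool.Agent.Lib.MP_d01a95_gt_K.KDefs2
import Pool.Agent.Lib.MP_d01a95_gt_K.KF0

/-! definitions are in KDefs2 -/
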