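import Mathlib
import Pool.Agent.Lib.MP_d01a95_gt_K.KB0

set_option autoImplicit false
set_option linter.all false

open Matrix Filter Topology MeasureTheory
open scoped ContDiff

namespace Pool.Agent.MPd01a95.KT

open GU

variable {G : Type} [Group G]

namespace KB1A

/-- the standard form -/
def J4 : M4 := Matrix.diagonal ![1, 1, -1, -1]

/-- the dual of a skew matrix -/
def dl (S : M4) : M4 :=
  !![0, S 2 3, -S 1 3, S 1 2; -S 2 3, 0, S 0 3, -S 0 2; S 1 3, -S 0 3, 0, S 0 1;
    -S 1 2, S 0 2, -S 0 1, 0]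

/-- the Pfaffian -/
def pf (S : M4) : ℂ := S 0 1 * S 2 3 - S 0 2 * S 1 3 + S 0 3 * S 1 2

/-- general skew matrix -/
def sk (a b c d e f : ℂ) : M4 :=
  !![0, a, b, c; -a, 0, d, e; -b, -d, 0, f; -c, -e, -f, 0]

theorem skew_eq {S : M4} (h : Sᵀ = -S) : S = sk (S 0 1) (S 0 2) (S 0 3) (S 1 2) (S 1 3) (S 2 3) := by
  have e : ∀ i j, S j i = - S i j := fun i j => congrFun (congrFun h i) j
  have z : ∀ i, S i i = 0 := fun i => by
    have := e i i
    linear_combination this / 2
  ext i j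
  fin_cases i <;> fin_cases j <;> simp [sk, z, e 0 1, e 0 2, e 0 3, e 1 2, e 1 3, e 2 3]

theorem sk_skew (a b c d e f : ℂ) : (sk a b c d e f)ᵀ = - sk a b c d e f := by
  ext i j
  fin_cases i <;> fin_cases j <;> simp [sk]

theorem conj_skew {S : M4} (h : Sᵀ = -S) (g : M4) : (g * S * gᵀ)ᵀ = -(g * S * gᵀ) := by
  rw [transpose_mul, transpose_mul, transpose_transpose, h]
  simp [Matrix.mul_assoc]

theorem det4 (g : M4) : g.det =
    g 0 0 * (g 1 1 * (g 2 2 * g 3 3 - g 2 3 * g 3 2) - g 1 2 * (g 2 1 * g 3 3 - g 2 3 * g 3 1)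
      + g 1 3 * (g 2 1 * g 3 2 - g 2 2 * g 3 1))
    - g 0 1 * (g 1 0 * (g 2 2 * g 3 3 - g 2 3 * g 3 2) - g 1 2 * (g 2 0 * g 3 3 - g 2 3 * g 3 0)
      + g 1 3 * (g 2 0 * g 3 2 - g 2 2 * g 3 0))
    + g 0 2 * (g 1 0 * (g 2 1 * g 3 3 - g 2 3 * g 3 1) - g 1 1 * (g 2 0 * g 3 3 - g 2 3 * g 3 0)
      + g 1 3 * (g 2 0 * g 3 1 - g 2 1 * g 3 0))
    - g 0 3 * (g 1 0 * (g 2 1 * g 3 2 - g 2 2 * g 3 1) - g 1 1 * (g 2 0 * g 3 2 - g 2 2 * g 3 0)
      + g 1 2 * (g 2 0 * g 3 1 - g 2 1 * g 3 0)) := by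
  rw [Matrix.det_succ_row_zero]
  simp [Fin.sum_univ_four, Matrix.det_fin_three, Matrix.submatrix_apply, Fin.succAbove]
  ring

theorem dl_id (g : M4) (a b c d e f : ℂ) :
    gᵀ * dl (g * sk a b c d e f * gᵀ) * g = g.det • dl (sk a b c d e f) := by
  rw [det4]
  ext i j
  fin_cases i <;> fin_cases j <;>
  · simp [dl, sk, Matrix.mul_apply, Fin.sum_univ_four]
    ring

/-- the form as a matrix identity -/
theorem iso_mat {g : M4} (hg : Iso4 g) : gᴴ * J4 * g = J4 := by
  ext i j
  have h := hg (Pi.single j 1) (Pi.single i 1)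
  rw [Matrix.mul_apply]
  simp only [hf, CW.hh, Matrix.mulVec_single_one, Matrix.col_apply] at h
  have e : ∑ k, (gᴴ * J4) i k * g k j = g 0 j * star (g 0 i) + g 1 j * star (g 1 i)
      - g 2 j * star (g 2 i) - g 3 j * star (g 3 i) := by
    simp [J4, Matrix.mul_diagonal, Fin.sum_univ_four]
    ring
  rw [e, h]
  fin_cases i <;> fin_cases j <;> simp [J4]

theorem J4_sq : J4 * J4 = 1 := by
  ext i j
  fin_cases i <;> fin_cases j <;> simp [J4]

theorem iso_mat' {g : M4} (hg : Iso4 g) : g * J4 * gᴴ = J4 := by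
  have h := iso_mat hg
  have h1 : (J4 * gᴴ * J4) * g = 1 := by
    rw [Matrix.mul_assoc J4, Matrix.mul_assoc, h, J4_sq]
  have h2 := mul_eq_one_comm.1 h1
  calc g * J4 * gᴴ = g * J4 * gᴴ * (J4 * J4) := by rw [J4_sq, Matrix.mul_one]
    _ = g * (J4 * gᴴ * J4) * J4 := by simp only [Matrix.mul_assoc]
    _ = J4 := by rw [h2, Matrix.one_mul]

theorem iso_of_mat {g : M4} (h : gᴴ * J4 * g = J4) : Iso4 g := by
  intro v w
  have e : ∀ v w : V4, hf v w = star w ⬝ᵥ (J4 *ᵥ v) := by
    intro v w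
    simp [hf, CW.hh, J4, dotProduct, Fin.sum_univ_four, Matrix.mulVec_diagonal]
    ring
  rw [e, e, star_mulVec, Matrix.dotProduct_mulVec, Matrix.vecMul_vecMul, Matrix.dotProduct_mulVec,
    Matrix.vecMul_vecMul, h, ← Matrix.dotProduct_mulVec]

theorem dl_skew {S : M4} (h : Sᵀ = -S) : (dl S)ᵀ = -dl S := by
  ext i j
  fin_cases i <;> fin_cases j <;> simp [dl]

/-- the dual of the conjugated matrix -/
theorem dl_conj {S : M4} (h : Sᵀ = -S) (g : M4) : gᵀ * dl (g * S * gᵀ) * g = g.det • dl S := by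
  rw [skew_eq h]
  exact dl_id g _ _ _ _ _ _

/-- reality -/
def Rl (S : M4) : Prop := Sᵀ = -S ∧ dl S = J4 * S.map star * J4

theorem isUnit_det {g : M4} (hg : SI g) : IsUnit g.det := by rw [hg.2]; exact isUnit_one

theorem map_star_mul (A B : M4) : (A * B).map star = A.map star * B.map star := by
  ext i j
  simp [Matrix.mul_apply]

theorem real_conj {g S : M4} (hg : SI g) (hS : Rl S) : Rl (g * S * gᵀ) := by
  refine ⟨conj_skew hS.1 g, ?_⟩
  have h1 := dl_conj hS.1 g
  rw [hg.2, one_smul, hS.2] at h1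
  have h2 : gᵀ * J4 * g.map star = J4 := by
    have := congrArg Matrix.transpose (iso_mat hg.1)
    rw [transpose_mul, transpose_mul] at this
    have e1 : (gᴴ)ᵀ = g.map star := by ext i j; simp
    have e2 : J4ᵀ = J4 := by simp [J4]
    rw [e1, e2, ← Matrix.mul_assoc] at this
    exact this
  have h3 : (gᵀ).map star * J4 * g = J4 := by
    have := iso_mat hg.1
    have e1 : gᴴ = (gᵀ).map star := by ext i j; simp
    rwa [e1] at this
  have h4 : gᵀ * (J4 * (g * S * gᵀ).map star * J4) * g = J4 * S.map star * J4 := by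
    rw [map_star_mul, map_star_mul]
    calc gᵀ * (J4 * (g.map star * S.map star * (gᵀ).map star) * J4) * g
        = (gᵀ * J4 * g.map star) * S.map star * ((gᵀ).map star * J4 * g) := by
          simp only [Matrix.mul_assoc]
      _ = J4 * S.map star * J4 := by rw [h2, h3]
  have hu : IsUnit g := (Matrix.isUnit_iff_isUnit_det g).2 (isUnit_det hg)
  have hu' : IsUnit gᵀ := by
    rw [Matrix.isUnit_iff_isUnit_det, det_transpose]; exact isUnit_det hg
  have h5 := h1.trans h4.symm
  exact hu'.mul_left_cancel (hu.mul_right_cancel h5)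

theorem pf_conj {S : M4} (h : Sᵀ = -S) {g : M4} (hg : g.det = 1) :
    pf (g * S * gᵀ) = pf S := by
  have key : ∀ T : M4, Tᵀ = -T → T * dl T = -(pf T) • (1 : M4) := by
    intro T hT
    rw [skew_eq hT]
    ext i j
    fin_cases i <;> fin_cases j <;>
    · simp [dl, sk, pf, Matrix.mul_apply, Fin.sum_univ_four]
      try ring
  have h1 := dl_conj h g
  rw [hg, one_smul] at h1
  have h2 : (g * S * gᵀ) * dl (g * S * gᵀ) * g = g * (S * dl S) := by
    rw [← h1]
    simp only [Matrix.mul_assoc]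
  rw [key _ (conj_skew h g), key _ h] at h2
  have hu : IsUnit g := (Matrix.isUnit_iff_isUnit_det g).2 (by rw [hg]; exact isUnit_one)
  have h3 : (-(pf (g * S * gᵀ))) • (1 : M4) = (-(pf S)) • 1 := by
    apply hu.mul_right_cancel
    rw [h2]
    simp
  have h4 := congrFun (congrFun h3 0) 0
  simp at h4
  exact h4

end KB1A


namespace KB1A

/-- `Sk` as a sum -/
theorem Sk_sum (x : I6 → ℝ) : Sk x = ∑ j, (x j : ℂ) • Sk (Pi.single j 1) := by
  rw [Fintype.sum_sum_type, Fin.sum_univ_four, Fin.sum_univ_two]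
  ext i j
  fin_cases i <;> fin_cases j <;>
  · simp [Sk, Matrix.add_apply, Matrix.smul_apply, Pi.single_apply]
    try ring

theorem co_add (S T : M4) : co (S + T) = co S + co T := by
  ext i
  rcases i with i | i <;> fin_cases i <;> simp [co]

theorem co_smul (r : ℝ) (S : M4) : co ((r : ℂ) • S) = r • co S := by
  ext i
  rcases i with i | i <;> fin_cases i <;> simp [co]

theorem co_zero : co 0 = 0 := by
  ext i
  rcases i with i | i <;> fin_cases i <;> simp [co]

theorem co_sum {ι : Type} (s : Finset ι) (r : ι → ℝ) (S : ι → M4) :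
    co (∑ j ∈ s, (r j : ℂ) • S j) = ∑ j ∈ s, r j • co (S j) := by
  classical
  induction s using Finset.induction_on with
  | empty => simp [co_zero]
  | insert a s ha ih => rw [Finset.sum_insert ha, Finset.sum_insert ha, co_add, co_smul, ih]

theorem LR_mulVec (g : M4) (x : I6 → ℝ) : LR g *ᵥ x = co (g * Sk x * gᵀ) := by
  have e : g * Sk x * gᵀ = ∑ j, (x j : ℂ) • (g * Sk (Pi.single j 1) * gᵀ) := by
    rw [Sk_sum x, Finset.mul_sum, Finset.sum_mul]
    refine Finset.sum_congr rfl fun j _ => ?_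
    rw [Matrix.mul_smul, Matrix.smul_mul]
  rw [e, co_sum]
  ext i
  rw [Finset.sum_apply]
  simp only [Matrix.mulVec, dotProduct, LR, Matrix.of_apply, Pi.smul_apply, smul_eq_mul]
  exact Finset.sum_congr rfl fun j _ => mul_comm _ _

theorem Rl_Sk (x : I6 → ℝ) : Rl (Sk x) := by
  constructor
  · ext i j
    fin_cases i <;> fin_cases j <;> simp [Sk]
  · ext i j
    fin_cases i <;> fin_cases j <;>
      simp [Sk, dl, J4, Matrix.mul_diagonal, Matrix.diagonal_mul] <;>
      try ring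

theorem Sk_co {S : M4} (h : Rl S) : Sk (co S) = S := by
  obtain ⟨h1, h2⟩ := h
  have a1 := congrFun (congrFun h2 0) 1
  have a2 := congrFun (congrFun h2 0) 2
  have a3 := congrFun (congrFun h2 0) 3
  simp [dl, J4, Matrix.mul_diagonal, Matrix.diagonal_mul] at a1 a2 a3
  rw [skew_eq h1]
  have r : ∀ z : ℂ, ((z.re : ℂ) + Complex.I * (z.im : ℂ)) = z := by
    intro z
    rw [mul_comm]
    exact Complex.re_add_im z
  ext i j
  fin_cases i <;> fin_cases j <;> simp [Sk, co, sk, r, a1, a2, a3] <;>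
    simp [Complex.ext_iff]
end KB1A

open KB1A

/-- module B1 -/
theorem Sk_act {g : M4} (hg : SI g) (x : I6 → ℝ) : g * Sk x * gᵀ = Sk (LR g *ᵥ x) := by
  rw [LR_mulVec, Sk_co (real_conj hg (Rl_Sk x))]

/-- module B1 -/
theorem Sk_inj : Function.Injective Sk := by
  intro x y h
  have a1 := congrFun (congrFun h 0) 1
  have a2 := congrFun (congrFun h 0) 2
  have a3 := congrFun (congrFun h 0) 3
  simp [Sk, Complex.ext_iff] at a1 a2 a3
  ext i
  rcases i with i | i <;> fin_cases i
  · exact a2.1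
  · exact a2.2
  · exact a3.1
  · exact a3.2
  · exact a1.1
  · exact a1.2

/-- module B1: the Pfaffian -/
theorem Sk_pf (x : I6 → ℝ) : Sk x 0 1 * Sk x 2 3 - Sk x 0 2 * Sk x 1 3 + Sk x 0 3 * Sk x 1 2 =
    (nq x : ℂ) := by
  have r : ∀ a b : ℝ, ((a : ℂ) + Complex.I * (b : ℂ)) * star ((a : ℂ) + Complex.I * (b : ℂ)) =
      ((a ^ 2 + b ^ 2 : ℝ) : ℂ) := by
    intro a b
    rw [← starRingEnd_apply, Complex.mul_conj]
    congr 1
    simp [Complex.normSq_apply]
    ring
  simp only [Sk, nq, Matrix.of_apply, Matrix.cons_val', Matrix.cons_val_zero, Matrix.cons_val_one,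
    Matrix.cons_val, Matrix.cons_val_fin_one]
  rw [r, r, mul_neg, r, Fin.sum_univ_four]
  push_cast
  ring


namespace KB1A

theorem SI_mul {g h : M4} (hg : SI g) (hh : SI h) : SI (g * h) := by
  refine ⟨fun v w => ?_, by rw [det_mul, hg.2, hh.2, one_mul]⟩
  rw [← Matrix.mulVec_mulVec, ← Matrix.mulVec_mulVec, hg.1, hh.1]

theorem mulVec_ext {R : Type} [CommRing R] {A B : Matrix I6 I6 R} (h : ∀ x, A *ᵥ x = B *ᵥ x) : A = B := by
  ext i j
  have := congrFun (h (Pi.single j 1)) i
  rwa [Matrix.mulVec_single_one, Matrix.mulVec_single_one] at this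

/-- complex coordinates of a skew matrix -/
def ex (S : M4) : I6 → ℂ := Sum.elim ![S 0 2, S 1 3, S 0 3, S 1 2] ![S 0 1, S 2 3]

/-- the skew matrix with given coordinates -/
def SE (x : I6 → ℂ) : M4 :=
  sk (x (Sum.inr 0)) (x (Sum.inl 0)) (x (Sum.inl 2)) (x (Sum.inl 3)) (x (Sum.inl 1)) (x (Sum.inr 1))

theorem SE_ex {S : M4} (h : Sᵀ = -S) : SE (ex S) = S := by
  conv_rhs => rw [skew_eq h]
  simp [SE, ex]

theorem ex_SE (x : I6 → ℂ) : ex (SE x) = x := by
  ext i
  rcases i with i | i <;> fin_cases i <;> simp [SE, ex, sk]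

theorem SE_skew (x : I6 → ℂ) : (SE x)ᵀ = -SE x := sk_skew _ _ _ _ _ _

theorem SE_sum (x : I6 → ℂ) : SE x = ∑ j, x j • SE (Pi.single j 1) := by
  rw [Fintype.sum_sum_type, Fin.sum_univ_four, Fin.sum_univ_two]
  ext i j
  fin_cases i <;> fin_cases j <;>
  simp [SE, sk, Matrix.add_apply, Matrix.smul_apply, Pi.single_apply]

theorem ex_add (S T : M4) : ex (S + T) = ex S + ex T := by
  ext i
  rcases i with i | i <;> fin_cases i <;> simp [ex]

theorem ex_smul (r : ℂ) (S : M4) : ex (r • S) = r • ex S := by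
  ext i
  rcases i with i | i <;> fin_cases i <;> simp [ex]

theorem ex_zero : ex 0 = 0 := by
  ext i
  rcases i with i | i <;> fin_cases i <;> simp [ex]

theorem ex_sum {ι : Type} (s : Finset ι) (r : ι → ℂ) (S : ι → M4) :
    ex (∑ j ∈ s, r j • S j) = ∑ j ∈ s, r j • ex (S j) := by
  classical
  induction s using Finset.induction_on with
  | empty => simp [ex_zero]
  | insert a s ha ih => rw [Finset.sum_insert ha, Finset.sum_insert ha, ex_add, ex_smul, ih]

/-- the second exterior power -/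
def L6 (g : M4) : Matrix I6 I6 ℂ := Matrix.of fun i j => ex (g * SE (Pi.single j 1) * gᵀ) i

theorem L6_mulVec (g : M4) (x : I6 → ℂ) : L6 g *ᵥ x = ex (g * SE x * gᵀ) := by
  have e : g * SE x * gᵀ = ∑ j, x j • (g * SE (Pi.single j 1) * gᵀ) := by
    rw [SE_sum x, Finset.mul_sum, Finset.sum_mul]
    refine Finset.sum_congr rfl fun j _ => ?_
    rw [Matrix.mul_smul, Matrix.smul_mul]
  rw [e, ex_sum]
  ext i
  rw [Finset.sum_apply]
  simp only [Matrix.mulVec, dotProduct, L6, Matrix.of_apply, Pi.smul_apply, smul_eq_mul]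
  exact Finset.sum_congr rfl fun j _ => mul_comm _ _

theorem L6_mul (g h : M4) : L6 (g * h) = L6 g * L6 h := by
  apply mulVec_ext
  intro x
  rw [← Matrix.mulVec_mulVec, L6_mulVec, L6_mulVec, L6_mulVec, SE_ex (conj_skew (SE_skew x) h),
    transpose_mul]
  simp only [Matrix.mul_assoc]

theorem L6_one : L6 1 = 1 := by
  apply mulVec_ext
  intro x
  rw [L6_mulVec, transpose_one, Matrix.mul_one, Matrix.one_mul, ex_SE, Matrix.one_mulVec]

theorem L6_diag (d : Fin 4 → ℂ) : L6 (Matrix.diagonal d) =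
    Matrix.diagonal (Sum.elim ![d 0 * d 2, d 1 * d 3, d 0 * d 3, d 1 * d 2] ![d 0 * d 1, d 2 * d 3]) := by
  apply mulVec_ext
  intro x
  rw [L6_mulVec]
  ext i
  rcases i with i | i <;> fin_cases i <;>
  · simp [ex, SE, sk, Matrix.mulVec_diagonal, Matrix.mul_diagonal, Matrix.diagonal_mul]
    try ring

theorem det_L6 {g : M4} (hg : g.det = 1) : (L6 g).det = 1 := by
  refine Matrix.diagonal_transvection_induction (fun M => (L6 M).det = 1) g ?_ ?_ ?_
  · intro D hD
    rw [hg] at hD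
    rw [L6_diag, det_diagonal, Fintype.prod_sum_type, Fin.prod_univ_four, Fin.prod_univ_two]
    rw [det_diagonal, Fin.prod_univ_four] at hD
    simp
    linear_combination ((D 0 * D 1 * D 2 * D 3) ^ 2 + (D 0 * D 1 * D 2 * D 3) + 1) * hD
  · intro t
    obtain ⟨i, j, hij, r⟩ := t
    set D : M4 := Matrix.diagonal (Function.update 1 i 2) with hD
    set D' : M4 := Matrix.diagonal (Function.update 1 i 2⁻¹) with hD'
    have e1 : D * D' = 1 := by
      rw [hD, hD', Matrix.diagonal_mul_diagonal, ← Matrix.diagonal_one]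
      congr 1
      ext k
      by_cases hk : k = i
      · subst hk; simp
      · simp [Function.update_of_ne hk]
    have e2 : Matrix.transvection i j r = D * Matrix.transvection i j r * D' *
        Matrix.transvection i j (-r) := by
      have e3 : D * Matrix.transvection i j r * D' = Matrix.transvection i j (r + r) := by
        unfold Matrix.transvection
        rw [Matrix.mul_add, Matrix.add_mul, Matrix.mul_one, e1]
        congr 1
        ext a b
        rw [Matrix.mul_diagonal, Matrix.diagonal_mul]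
        simp only [Matrix.single_apply]
        by_cases ha : i = a ∧ j = b
        · obtain ⟨rfl, rfl⟩ := ha
          simp [Function.update_of_ne hij.symm]
          ring
        · simp [ha]
      rw [e3, Matrix.transvection_mul_transvection_same i j hij]
      congr 1
      ring
    have e4 : Matrix.transvection i j r * Matrix.transvection i j (-r) = 1 := by
      rw [Matrix.transvection_mul_transvection_same i j hij]
      simp
    have f1 : (L6 D).det * (L6 D').det = 1 := by rw [← det_mul, ← L6_mul, e1, L6_one, det_one]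
    have f2 : (L6 (Matrix.transvection i j r)).det * (L6 (Matrix.transvection i j (-r))).det = 1 := by
      rw [← det_mul, ← L6_mul, e4, L6_one, det_one]
    change (L6 (Matrix.transvection i j r)).det = 1
    rw [e2, L6_mul, L6_mul, L6_mul, det_mul, det_mul, det_mul]
    linear_combination (L6 (Matrix.transvection i j r)).det * (L6 (Matrix.transvection i j (-r))).det
      * f1 + f2
  · intro A B hA hB
    change (L6 (A * B)).det = 1
    rw [L6_mul, det_mul, hA, hB, one_mul]

end KB1A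



/-- module B1 -/
theorem LR_mul {g h : M4} (hg : SI g) (hh : SI h) : LR (g * h) = LR g * LR h := by
  apply mulVec_ext
  intro x
  apply Sk_inj
  rw [← Sk_act (SI_mul hg hh), ← Matrix.mulVec_mulVec, ← Sk_act hg, ← Sk_act hh, transpose_mul]
  simp only [Matrix.mul_assoc]

namespace KB1A

theorem nq_LR {g : M4} (hg : SI g) (x : I6 → ℝ) : nq (LR g *ᵥ x) = nq x := by
  have h1 := Sk_pf x
  have h2 := Sk_pf (LR g *ᵥ x)
  rw [← Sk_act hg] at h2
  have h3 := pf_conj (Rl_Sk x).1 hg.2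
  have h4 : ((nq (LR g *ᵥ x) : ℝ) : ℂ) = (nq x : ℂ) := by
    rw [← h1, ← h2]
    exact h3
  exact_mod_cast h4

theorem nq_eq (x : I6 → ℝ) : nq x = -(x ⬝ᵥ (J (Fin 4) *ᵥ x)) := by
  simp only [nq, dotProduct, Matrix.mulVec, Fintype.sum_sum_type, J, Fin.sum_univ_two]
  simp [Matrix.fromBlocks, Matrix.one_apply, Fin.sum_univ_four, Finset.sum_ite_eq]
  ring

theorem symm_zero {A : Matrix I6 I6 ℝ} (hA : Aᵀ = A) (h : ∀ x, x ⬝ᵥ (A *ᵥ x) = 0) : A = 0 := by
  have e : ∀ i j, A i j = (Pi.single i 1 : I6 → ℝ) ⬝ᵥ (A *ᵥ Pi.single j 1) := by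
    intro i j
    rw [Matrix.mulVec_single_one, single_one_dotProduct]
    rfl
  ext i j
  have h1 := h (Pi.single i 1 + Pi.single j 1)
  rw [Matrix.mulVec_add, add_dotProduct, dotProduct_add, dotProduct_add, ← e, ← e, ← e, ← e] at h1
  have h2 := h (Pi.single i 1)
  have h3 := h (Pi.single j 1)
  rw [← e] at h2 h3
  have h4 : A j i = A i j := congrFun (congrFun hA i) j
  simp only [Matrix.zero_apply]
  linarith

theorem LR_J1 {g : M4} (hg : SI g) : (LR g)ᵀ * J (Fin 4) * LR g = J (Fin 4) := by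
  rw [← sub_eq_zero]
  have hJs : (J (Fin 4))ᵀ = J (Fin 4) := by
    unfold J
    rw [Matrix.fromBlocks_transpose]
    simp
  apply symm_zero
  · rw [transpose_sub, transpose_mul, transpose_mul, transpose_transpose, hJs, Matrix.mul_assoc]
  · intro x
    rw [Matrix.sub_mulVec, dotProduct_sub, ← Matrix.mulVec_mulVec, ← Matrix.mulVec_mulVec,
      Matrix.dotProduct_mulVec, Matrix.vecMul_transpose]
    have h1 := nq_LR hg x
    rw [nq_eq, nq_eq] at h1
    linarith

/-- complex coordinates of the real basis -/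
noncomputable def PP : Matrix I6 I6 ℂ := Matrix.of fun i j => ex (Sk (Pi.single j 1)) i

/-- its inverse -/
noncomputable def QQ : Matrix I6 I6 ℂ := Matrix.of fun i j =>
  Sum.elim ![(Pi.single (Sum.inl 0) 1 + Pi.single (Sum.inl 1) 1 : I6 → ℂ) j / 2,
    -Complex.I * (Pi.single (Sum.inl 0) 1 - Pi.single (Sum.inl 1) 1 : I6 → ℂ) j / 2,
    (Pi.single (Sum.inl 2) 1 - Pi.single (Sum.inl 3) 1 : I6 → ℂ) j / 2,
    -Complex.I * (Pi.single (Sum.inl 2) 1 + Pi.single (Sum.inl 3) 1 : I6 → ℂ) j / 2]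
    ![(Pi.single (Sum.inr 0) 1 + Pi.single (Sum.inr 1) 1 : I6 → ℂ) j / 2,
    -Complex.I * (Pi.single (Sum.inr 0) 1 - Pi.single (Sum.inr 1) 1 : I6 → ℂ) j / 2] i

theorem QP : QQ * PP = 1 := by
  ext i j
  rw [Matrix.mul_apply, Fintype.sum_sum_type, Fin.sum_univ_four, Fin.sum_univ_two]
  rcases i with i | i <;> fin_cases i <;> rcases j with j | j <;> fin_cases j <;>
  · simp [QQ, PP, ex, Sk, Pi.single_apply, Matrix.one_apply]
    try ring_nf
    try simp
    try ring_nf

end KB1A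



namespace KB1A

theorem PP_LR {g : M4} (hg : SI g) : PP * (LR g).map (fun r : ℝ => (r : ℂ)) = L6 g * PP := by
  have hx : ∀ x : I6 → ℝ, PP *ᵥ (fun i => (x i : ℂ)) = ex (Sk x) := by
    intro x
    rw [Sk_sum x, ex_sum]
    ext i
    rw [Finset.sum_apply]
    simp only [Matrix.mulVec, dotProduct, PP, Matrix.of_apply, Pi.smul_apply, smul_eq_mul]
    exact Finset.sum_congr rfl fun j _ => mul_comm _ _
  ext i j
  have h1 : (PP * (LR g).map (fun r : ℝ => (r : ℂ))) i j =
      (PP *ᵥ (fun k => ((LR g *ᵥ Pi.single j 1) k : ℂ))) i := by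
    have e0 : LR g *ᵥ Pi.single j 1 = fun k => LR g k j := by
      rw [Matrix.mulVec_single_one]
      rfl
    rw [Matrix.mul_apply, e0]
    simp only [Matrix.mulVec, dotProduct, Matrix.map_apply]
  have h2 : (L6 g * PP) i j = (L6 g *ᵥ ex (Sk (Pi.single j 1))) i := by
    rw [Matrix.mul_apply]
    simp only [Matrix.mulVec, dotProduct, PP, Matrix.of_apply]
  rw [h1, h2, hx, ← Sk_act hg, L6_mulVec, SE_ex (Rl_Sk _).1]

theorem det_LR {g : M4} (hg : SI g) : (LR g).det = 1 := by
  have h1 := congrArg Matrix.det (PP_LR hg)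
  rw [det_mul, det_mul, det_L6 hg.2, one_mul] at h1
  have h2 : PP.det ≠ 0 := by
    intro h0
    have := congrArg Matrix.det QP
    rw [det_mul, h0, mul_zero, det_one] at this
    exact zero_ne_one this
  have h3 : ((LR g).map (fun r : ℝ => (r : ℂ))).det = 1 := by
    apply mul_left_cancel₀ h2
    rw [h1, mul_one]
  have h4 : ((LR g).map (fun r : ℝ => (r : ℂ))).det = (((LR g).det : ℝ) : ℂ) := by
    have := (Complex.ofRealHom.map_det (LR g))
    rw [Complex.ofRealHom_eq_coe] at this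
    rw [this]
    rfl
  rw [h4] at h3
  exact_mod_cast h3

theorem blk {g : M4} (hg : SI g) : 0 < (LR g).toBlocks₂₂.det := by
  have h := iso_mat' hg.1
  set α := g 0 0 * g 1 1 - g 0 1 * g 1 0 with hα
  set β := g 0 2 * g 1 3 - g 0 3 * g 1 2 with hβ
  have e1 : (LR g).toBlocks₂₂.det = Complex.normSq α - Complex.normSq β := by
    rw [Matrix.det_fin_two]
    simp only [Matrix.toBlocks₂₂, Matrix.of_apply, LR]
    have a1 : (g * Sk (Pi.single (Sum.inr 0) 1) * gᵀ) 0 1 = α + β := by
      simp [Matrix.mul_apply, Fin.sum_univ_four, Sk, Pi.single_apply, hα, hβ]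
      ring
    have a2 : (g * Sk (Pi.single (Sum.inr 1) 1) * gᵀ) 0 1 = Complex.I * (α - β) := by
      simp [Matrix.mul_apply, Fin.sum_univ_four, Sk, Pi.single_apply, hα, hβ]
      ring
    simp [co, a1, a2, Complex.normSq_apply]
    ring
  have n0 : ∀ z : ℂ, z * star z = (Complex.normSq z : ℂ) := fun z => by
    rw [← starRingEnd_apply, Complex.mul_conj]
  have c00 := congrFun (congrFun h 0) 0
  have c11 := congrFun (congrFun h 1) 1
  have c01 := congrFun (congrFun h 0) 1
  have c10 := congrFun (congrFun h 1) 0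
  simp [J4, Matrix.mul_apply, Fin.sum_univ_four, Matrix.diagonal_apply] at c00 c11 c01 c10
  -- Lagrange identities
  set p := Complex.normSq (g 0 2) + Complex.normSq (g 0 3) with hp
  set q := Complex.normSq (g 1 2) + Complex.normSq (g 1 3) with hq
  have e2 : ((Complex.normSq α - Complex.normSq β : ℝ) : ℂ) = ((1 + p + q : ℝ) : ℂ) := by
    push_cast
    rw [hp, hq]
    push_cast
    simp only [← Complex.mul_conj, hα, hβ, map_sub, map_mul]
    linear_combination (g 1 0 * (starRingEnd ℂ) (g 1 0) + g 1 1 * (starRingEnd ℂ) (g 1 1)) * c00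
      + (1 + (g 0 2 * (starRingEnd ℂ) (g 0 2) + g 0 3 * (starRingEnd ℂ) (g 0 3))) * c11
      - (g 1 0 * (starRingEnd ℂ) (g 0 0) + g 1 1 * (starRingEnd ℂ) (g 0 1)) * c01
      - (g 0 2 * (starRingEnd ℂ) (g 1 2) + g 0 3 * (starRingEnd ℂ) (g 1 3)) * c10
  have e3 : Complex.normSq α - Complex.normSq β = 1 + p + q := by exact_mod_cast e2
  rw [e1, e3]
  have := Complex.normSq_nonneg (g 0 2)
  have := Complex.normSq_nonneg (g 0 3)
  have := Complex.normSq_nonneg (g 1 2)
  have := Complex.normSq_nonneg (g 1 3)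
  linarith

end KB1A

/-- module B1 -/
theorem LR_J {g : M4} (hg : SI g) : (LR g)ᵀ * J (Fin 4) * LR g = J (Fin 4) ∧ (LR g).det = 1 ∧
    0 < (LR g).toBlocks₂₂.det := ⟨LR_J1 hg, det_LR hg, blk hg⟩

namespace KB1A

/-- a skew matrix orthogonal to a nonzero decomposable one -/
theorem prop_dl {s t : M4} (hs : sᵀ = -s) (ht : tᵀ = -t) (hst : s * t = 0) (hs0 : s ≠ 0) :
    ∃ c : ℂ, t = c • dl s := by
  have e : ∀ i j, ∑ k, s i k * t k j = 0 := fun i j => by
    have := congrFun (congrFun hst i) j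
    rwa [Matrix.mul_apply] at this
  obtain ⟨a, b, c, d, e', f, hs'⟩ : ∃ a b c d e f : ℂ, s = sk a b c d e f := ⟨_, _, _, _, _, _, skew_eq hs⟩
  obtain ⟨a', b', c', d', e'', f', ht'⟩ : ∃ a b c d e f : ℂ, t = sk a b c d e f :=
    ⟨_, _, _, _, _, _, skew_eq ht⟩
  subst hs' ht'
  have q00 := e 0 0
  have q01 := e 0 1
  have q02 := e 0 2
  have q03 := e 0 3
  have q10 := e 1 0
  have q11 := e 1 1
  have q12 := e 1 2
  have q13 := e 1 3
  have q20 := e 2 0
  have q21 := e 2 1
  have q22 := e 2 2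
  have q23 := e 2 3
  have q30 := e 3 0
  have q31 := e 3 1
  have q32 := e 3 2
  have q33 := e 3 3
  simp [sk, Fin.sum_univ_four] at q00 q01 q02 q03 q10 q11 q12 q13 q20 q21 q22 q23 q30 q31 q32 q33
  have fin : ∀ r : ℂ, a' = r * f → b' = -(r * e') → c' = r * d → d' = r * c → e'' = -(r * b) →
      f' = r * a → ∃ c_1 : ℂ, sk a' b' c' d' e'' f' = c_1 • dl (sk a b c d e' f) := by
    intro r h1 h2 h3 h4 h5 h6
    refine ⟨r, ?_⟩
    rw [h1, h2, h3, h4, h5, h6]
    ext i j
    fin_cases i <;> fin_cases j <;> simp [sk, dl]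
  have r1 : a * a' = f * f' := by linear_combination (-q00 - q11 + q22 + q33) / 2
  have r2 : b * b' = e' * e'' := by linear_combination (-q00 - q22 + q11 + q33) / 2
  have r3 : c * c' = d * d' := by linear_combination (-q00 - q33 + q11 + q22) / 2
  by_cases ha : a = 0
  swap
  · refine fin (f' / a) ?_ ?_ ?_ ?_ ?_ ?_ <;> field_simp
    · linear_combination r1
    · linear_combination -q12
    · linear_combination -q13
    · linear_combination q02
    · linear_combination q03
  by_cases hb : b = 0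
  swap
  · refine fin (-e'' / b) ?_ ?_ ?_ ?_ ?_ ?_ <;> field_simp
    · linear_combination -q21
    · linear_combination r2
    · linear_combination -q23
    · linear_combination -q01
    · linear_combination q03
  by_cases hc : c = 0
  swap
  · refine fin (d' / c) ?_ ?_ ?_ ?_ ?_ ?_ <;> field_simp
    · linear_combination -q31
    · linear_combination -q32
    · linear_combination r3
    · linear_combination -q01
    · linear_combination -q02
  by_cases hd : d = 0
  swap
  · refine fin (c' / d) ?_ ?_ ?_ ?_ ?_ ?_ <;> field_simp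
    · linear_combination q20
    · linear_combination -q10
    · linear_combination -r3
    · linear_combination -q23
    · linear_combination q13
  by_cases he : e' = 0
  swap
  · refine fin (-b' / e') ?_ ?_ ?_ ?_ ?_ ?_ <;> field_simp
    · linear_combination q30
    · linear_combination -q10
    · linear_combination -q32
    · linear_combination -r2
    · linear_combination -q12
  by_cases hf : f = 0
  swap
  · refine fin (a' / f) ?_ ?_ ?_ ?_ ?_ ?_ <;> field_simp
    · linear_combination q30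
    · linear_combination -q20
    · linear_combination q31
    · linear_combination -q21
    · linear_combination -r1
  exfalso
  apply hs0
  rw [ha, hb, hc, hd, he, hf]
  ext i j
  fin_cases i <;> fin_cases j <;> simp [sk]

end KB1A



/-- module B1: Lagrangian planes are null vectors -/
theorem Sk_null (u v : V4) (hl : ∀ a b : ℂ, a • u + b • v = 0 → a = 0 ∧ b = 0)
    (hu : hf u u = 0) (hv : hf v v = 0) (huv : hf u v = 0) : ∃ x : I6 → ℝ, x ≠ 0 ∧ nq x = 0 ∧
      ∃ l : ℂ, l ≠ 0 ∧ ∀ i j, Sk x i j = l * (u i * v j - u j * v i) := by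
  set s : M4 := Matrix.of fun i j => u i * v j - u j * v i with hs
  have hss : sᵀ = -s := by
    ext i j
    simp [hs]
  have hs0 : s ≠ 0 := by
    intro h0
    have e : ∀ i j, u i * v j - u j * v i = 0 := fun i j => congrFun (congrFun h0 i) j
    have hu0 : ∀ i, u i = 0 := by
      intro i
      have h1 : (v i) • u + (-(u i)) • v = 0 := by
        ext j
        simp only [Pi.add_apply, Pi.smul_apply, smul_eq_mul, Pi.zero_apply]
        linear_combination -(e i j)
      have := (hl _ _ h1).2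
      exact neg_eq_zero.1 this
    have h2 : (1 : ℂ) • u + (0 : ℂ) • v = 0 := by
      ext j
      simp [hu0 j]
    exact one_ne_zero (hl _ _ h2).1
  set t : M4 := J4 * s.map star * J4 with ht
  have htt : tᵀ = -t := by
    have e1 : (s.map star)ᵀ = -(s.map star) := by
      ext i j
      simp [hs]
    have e2 : J4ᵀ = J4 := by simp [J4]
    rw [ht, transpose_mul, transpose_mul, e1, e2]
    simp [Matrix.mul_assoc]
  have hvu : hf v u = 0 := by
    have : hf v u = star (hf u v) := by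
      simp [hf, CW.hh]
      ring
    rw [this, huv, star_zero]
  have hst : s * t = 0 := by
    simp only [hf, CW.hh] at hu hv huv hvu
    simp only [Complex.star_def] at hu hv huv hvu
    have e1 : s * J4 * s.map star = 0 := by
      ext i j
      simp only [Matrix.mul_apply, Fin.sum_univ_four, J4, hs, Matrix.mul_diagonal, Matrix.map_apply,
        Matrix.of_apply, Matrix.zero_apply]
      simp
      linear_combination (-(v i) * (starRingEnd ℂ) (v j)) * hu
        - (u i) * (starRingEnd ℂ) (u j) * hv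
        + (v i) * (starRingEnd ℂ) (u j) * huv
        + (u i) * (starRingEnd ℂ) (v j) * hvu
    rw [ht, ← Matrix.mul_assoc, ← Matrix.mul_assoc, e1, Matrix.zero_mul]
  obtain ⟨c, hc⟩ := prop_dl hss htt hst hs0
  -- the modulus of `c`
  have t01 : t 0 1 = star (s 0 1) := by
    simp [ht, J4, Matrix.mul_diagonal, Matrix.diagonal_mul]
  have t02 : t 0 2 = -star (s 0 2) := by
    simp [ht, J4, Matrix.mul_diagonal, Matrix.diagonal_mul]
  have t03 : t 0 3 = -star (s 0 3) := by
    simp [ht, J4, Matrix.mul_diagonal, Matrix.diagonal_mul]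
  have t12 : t 1 2 = -star (s 1 2) := by
    simp [ht, J4, Matrix.mul_diagonal, Matrix.diagonal_mul]
  have t13 : t 1 3 = -star (s 1 3) := by
    simp [ht, J4, Matrix.mul_diagonal, Matrix.diagonal_mul]
  have t23 : t 2 3 = star (s 2 3) := by
    simp [ht, J4, Matrix.mul_diagonal, Matrix.diagonal_mul]
  have c01 : t 0 1 = c * s 2 3 := by rw [hc]; simp [dl]
  have c02 : t 0 2 = c * -s 1 3 := by rw [hc]; simp [dl]
  have c03 : t 0 3 = c * s 1 2 := by rw [hc]; simp [dl]
  have c12 : t 1 2 = c * s 0 3 := by rw [hc]; simp [dl]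
  have c13 : t 1 3 = c * -s 0 2 := by rw [hc]; simp [dl]
  have c23 : t 2 3 = c * s 0 1 := by rw [hc]; simp [dl]
  have hN : 0 < ‖s 0 1‖ ^ 2 + ‖s 0 2‖ ^ 2 + ‖s 0 3‖ ^ 2 + ‖s 1 2‖ ^ 2 + ‖s 1 3‖ ^ 2 + ‖s 2 3‖ ^ 2 := by
    by_contra hcon
    push Not at hcon
    apply hs0
    have p1 := sq_nonneg ‖s 0 1‖
    have p2 := sq_nonneg ‖s 0 2‖
    have p3 := sq_nonneg ‖s 0 3‖
    have p4 := sq_nonneg ‖s 1 2‖
    have p5 := sq_nonneg ‖s 1 3‖
    have p6 := sq_nonneg ‖s 2 3‖
    have z : ∀ x : ℂ, ‖x‖ ^ 2 ≤ 0 → x = 0 := by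
      intro x hx
      have : ‖x‖ ^ 2 = 0 := le_antisymm hx (sq_nonneg _)
      exact norm_eq_zero.1 (by simpa using this)
    rw [skew_eq hss, z _ (by linarith : ‖s 0 1‖ ^ 2 ≤ 0), z _ (by linarith : ‖s 0 2‖ ^ 2 ≤ 0),
      z _ (by linarith : ‖s 0 3‖ ^ 2 ≤ 0), z _ (by linarith : ‖s 1 2‖ ^ 2 ≤ 0),
      z _ (by linarith : ‖s 1 3‖ ^ 2 ≤ 0), z _ (by linarith : ‖s 2 3‖ ^ 2 ≤ 0)]
    ext i j
    fin_cases i <;> fin_cases j <;> simp [sk]
  have hcn : ‖c‖ = 1 := by
    have n01 : ‖s 0 1‖ ^ 2 = ‖c‖ ^ 2 * ‖s 2 3‖ ^ 2 := by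
      rw [← mul_pow, ← norm_mul, ← c01, t01, norm_star]
    have n02 : ‖s 0 2‖ ^ 2 = ‖c‖ ^ 2 * ‖s 1 3‖ ^ 2 := by
      rw [← mul_pow, ← norm_neg (s 1 3), ← norm_mul, ← c02, t02, norm_neg, norm_star]
    have n03 : ‖s 0 3‖ ^ 2 = ‖c‖ ^ 2 * ‖s 1 2‖ ^ 2 := by
      rw [← mul_pow, ← norm_mul, ← c03, t03, norm_neg, norm_star]
    have n12 : ‖s 1 2‖ ^ 2 = ‖c‖ ^ 2 * ‖s 0 3‖ ^ 2 := by
      rw [← mul_pow, ← norm_mul, ← c12, t12, norm_neg, norm_star]
    have n13 : ‖s 1 3‖ ^ 2 = ‖c‖ ^ 2 * ‖s 0 2‖ ^ 2 := by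
      rw [← mul_pow, ← norm_neg (s 0 2), ← norm_mul, ← c13, t13, norm_neg, norm_star]
    have n23 : ‖s 2 3‖ ^ 2 = ‖c‖ ^ 2 * ‖s 0 1‖ ^ 2 := by
      rw [← mul_pow, ← norm_mul, ← c23, t23, norm_star]
    have h1 : (1 - ‖c‖ ^ 2) * (‖s 0 1‖ ^ 2 + ‖s 0 2‖ ^ 2 + ‖s 0 3‖ ^ 2 + ‖s 1 2‖ ^ 2 + ‖s 1 3‖ ^ 2
        + ‖s 2 3‖ ^ 2) = 0 := by
      linear_combination n01 + n02 + n03 + n12 + n13 + n23
    have h2 : ‖c‖ ^ 2 = 1 := by
      rcases mul_eq_zero.1 h1 with h | h
      · linarith
      · exact absurd h hN.ne'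
    exact (pow_eq_one_iff_of_nonneg (norm_nonneg _) (by norm_num)).1 h2
  obtain ⟨l, hl2⟩ := IsAlgClosed.exists_pow_nat_eq c (n := 2) (by norm_num)
  have hln : ‖l‖ = 1 := by
    have h1 : ‖l‖ ^ 2 = 1 := by rw [← norm_pow, hl2, hcn]
    exact (pow_eq_one_iff_of_nonneg (norm_nonneg _) (by norm_num)).1 h1
  have hl0 : l ≠ 0 := by
    intro h
    rw [h, norm_zero] at hln
    exact zero_ne_one hln
  have hlc : star l * c = l := by
    have h1 : star l * l = 1 := by
      have := Complex.conj_mul' l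
      rw [hln] at this
      simpa using this
    calc star l * c = star l * l * l := by rw [← hl2]; ring
      _ = l := by rw [h1, one_mul]
  have hR : Rl (l • s) := by
    refine ⟨by rw [transpose_smul, hss, smul_neg], ?_⟩
    have e1 : dl (l • s) = l • dl s := by
      ext i j
      fin_cases i <;> fin_cases j <;> simp [dl]
    have e2 : (l • s).map star = star l • s.map star := by
      ext i j
      simp
    rw [e1, e2, Matrix.mul_smul, Matrix.smul_mul, ← ht, hc, smul_smul, hlc]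
  refine ⟨co (l • s), ?_, ?_, l, hl0, ?_⟩
  · intro h0
    have h1 := Sk_co hR
    rw [h0] at h1
    have h2 : Sk 0 = 0 := by
      ext i j
      fin_cases i <;> fin_cases j <;> simp [Sk]
    rw [h2] at h1
    exact hs0 ((smul_eq_zero_iff_right hl0).1 h1.symm)
  · have h1 := Sk_pf (co (l • s))
    rw [Sk_co hR] at h1
    have h2 : (nq (co (l • s)) : ℂ) = 0 := by
      rw [← h1]
      simp [hs]
      ring
    exact_mod_cast h2
  · intro i j
    rw [Sk_co hR]
    simp [hs]

end Pool.Agent.MPd01a95.KT
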