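import Mathlib
import Pool.Agent.Lib.MP_d01a95_gt_K.KB1

set_option autoImplicit false
set_option linter.all false

open Matrix Filter Topology MeasureTheory
open scoped ContDiff

namespace Pool.Agent.MPd01a95.KT

open GU

variable {G : Type} [Group G]

namespace KB2A

open KB1A

/-- the bilinear form -/
noncomputable def bb (x y : I6 → ℝ) : ℝ := x ⬝ᵥ (J (Fin 4) *ᵥ y)

theorem nq_bb (x : I6 → ℝ) : nq x = - bb x x := nq_eq x

theorem bb_add_left (x y z : I6 → ℝ) : bb (x + y) z = bb x z + bb y z := add_dotProduct _ _ _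

theorem bb_smul_left (r : ℝ) (x z : I6 → ℝ) : bb (r • x) z = r * bb x z := by
  unfold bb; rw [smul_dotProduct, smul_eq_mul]

theorem bb_neg_left (x z : I6 → ℝ) : bb (-x) z = - bb x z := neg_dotProduct _ _

theorem bb_sub_left (x y z : I6 → ℝ) : bb (x - y) z = bb x z - bb y z := by
  rw [sub_eq_add_neg, bb_add_left, bb_neg_left, sub_eq_add_neg]

theorem J_symm : (J (Fin 4))ᵀ = J (Fin 4) := by
  unfold J
  rw [Matrix.fromBlocks_transpose]
  simp

theorem bb_comm (x y : I6 → ℝ) : bb x y = bb y x := by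
  unfold bb
  rw [Matrix.dotProduct_mulVec, dotProduct_comm]
  congr 1
  rw [← Matrix.mulVec_transpose, J_symm]

theorem bb_add_right (x y z : I6 → ℝ) : bb x (y + z) = bb x y + bb x z := by
  rw [bb_comm, bb_add_left, bb_comm y, bb_comm z]

theorem bb_smul_right (r : ℝ) (x z : I6 → ℝ) : bb x (r • z) = r * bb x z := by
  rw [bb_comm, bb_smul_left, bb_comm z]

theorem bb_neg_right (x z : I6 → ℝ) : bb x (-z) = - bb x z := by
  rw [bb_comm, bb_neg_left, bb_comm z]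

theorem bb_sub_right (x y z : I6 → ℝ) : bb x (y - z) = bb x y - bb x z := by
  rw [bb_comm, bb_sub_left, bb_comm y, bb_comm z]

theorem bb_iso {h : Matrix I6 I6 ℝ} (hJ : hᵀ * J (Fin 4) * h = J (Fin 4)) (x y : I6 → ℝ) :
    bb (h *ᵥ x) (h *ᵥ y) = bb x y := by
  unfold bb
  rw [Matrix.mulVec_mulVec, ← Matrix.vecMul_transpose, ← Matrix.dotProduct_mulVec,
    Matrix.mulVec_mulVec, ← Matrix.mul_assoc, hJ]

theorem bb_inl (x : I6 → ℝ) (i : Fin 4) : bb x (Pi.single (Sum.inl i) 1) = x (Sum.inl i) := by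
  unfold bb
  rw [Matrix.mulVec_single_one]
  simp [dotProduct, J, Fintype.sum_sum_type, Matrix.fromBlocks, Matrix.one_apply]

theorem bb_inr (x : I6 → ℝ) (i : Fin 2) : bb x (Pi.single (Sum.inr i) 1) = - x (Sum.inr i) := by
  unfold bb
  rw [Matrix.mulVec_single_one]
  simp [dotProduct, J, Fintype.sum_sum_type, Matrix.fromBlocks, Matrix.one_apply]

/-- the reflection -/
noncomputable def rf (w : I6 → ℝ) : Matrix I6 I6 ℝ :=
  1 + (2 / nq w) • vecMulVec w (J (Fin 4) *ᵥ w)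

theorem rf_mulVec (w x : I6 → ℝ) : rf w *ᵥ x = x + (2 / nq w * bb w x) • w := by
  unfold rf
  rw [Matrix.add_mulVec, Matrix.one_mulVec, Matrix.smul_mulVec, Matrix.vecMulVec_mulVec]
  have : (J (Fin 4) *ᵥ w) ⬝ᵥ x = bb w x := by
    rw [bb_comm]
    unfold bb
    rw [dotProduct_comm]
  rw [this]
  ext i
  simp
  ring

theorem rf_fix {w x : I6 → ℝ} (h : bb w x = 0) : rf w *ᵥ x = x := by
  rw [rf_mulVec, h]
  simp

theorem rf_move {u e : I6 → ℝ} (hue : nq u = nq e) (hw : nq (u - e) ≠ 0) : rf (u - e) *ᵥ u = e := by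
  have e1 : nq (u - e) = 2 * (nq u + bb e u) := by
    rw [nq_bb, bb_sub_left, bb_sub_right, bb_sub_right, bb_comm u e]
    have h1 := nq_bb u
    have h2 := nq_bb e
    linarith
  have e2 : bb (u - e) u = -(nq u + bb e u) := by
    rw [bb_sub_left]
    have h1 := nq_bb u
    linarith
  have e3 : 2 / nq (u - e) * bb (u - e) u = -1 := by
    rw [e1] at hw
    have hne : nq u + bb e u ≠ 0 := fun h0 => hw (by rw [h0, mul_zero])
    rw [e1, e2, mul_neg, div_mul_eq_mul_div, div_self hw]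
  rw [rf_mulVec, e3]
  simp

/-! ### Clifford relations -/

theorem Sk_add (x y : I6 → ℝ) : Sk (x + y) = Sk x + Sk y := by
  ext i j
  fin_cases i <;> fin_cases j <;> simp [Sk] <;> ring

theorem Sk_smul (r : ℝ) (x : I6 → ℝ) : Sk (r • x) = (r : ℂ) • Sk x := by
  ext i j
  fin_cases i <;> fin_cases j <;> simp [Sk] <;> ring

theorem dl_add (S T : M4) : dl (S + T) = dl S + dl T := by
  ext i j
  fin_cases i <;> fin_cases j <;> simp [dl] <;> ring

theorem dl_smul (r : ℂ) (S : M4) : dl (r • S) = r • dl S := by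
  ext i j
  fin_cases i <;> fin_cases j <;> simp [dl]

theorem key1 {T : M4} (hT : Tᵀ = -T) : T * dl T = -(pf T) • (1 : M4) := by
  rw [skew_eq hT]
  ext i j
  fin_cases i <;> fin_cases j <;>
  · simp [dl, sk, pf, Matrix.mul_apply, Fin.sum_univ_four]
    try ring

theorem key2 {T : M4} (hT : Tᵀ = -T) : dl T * T = -(pf T) • (1 : M4) := by
  rw [skew_eq hT]
  ext i j
  fin_cases i <;> fin_cases j <;>
  · simp [dl, sk, pf, Matrix.mul_apply, Fin.sum_univ_four]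
    try ring

theorem pf_Sk (x : I6 → ℝ) : pf (Sk x) = (nq x : ℂ) := Sk_pf x

theorem sq1 (x : I6 → ℝ) : Sk x * dl (Sk x) = (-(nq x : ℝ) : ℂ) • (1 : M4) := by
  rw [key1 (Rl_Sk x).1, pf_Sk]

theorem sq2 (x : I6 → ℝ) : dl (Sk x) * Sk x = (-(nq x : ℝ) : ℂ) • (1 : M4) := by
  rw [key2 (Rl_Sk x).1, pf_Sk]

theorem nq_add (x y : I6 → ℝ) : nq (x + y) = nq x + nq y - 2 * bb x y := by
  rw [nq_bb, nq_bb, nq_bb, bb_add_left, bb_add_right, bb_add_right, bb_comm y x]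
  ring

theorem cl1 (x y : I6 → ℝ) : Sk x * dl (Sk y) + Sk y * dl (Sk x) = ((2 * bb x y : ℝ) : ℂ) • (1 : M4) := by
  have h := sq1 (x + y)
  rw [Sk_add, dl_add, Matrix.add_mul, Matrix.mul_add, Matrix.mul_add, sq1, sq1, nq_add] at h
  have h2 : Sk x * dl (Sk y) + Sk y * dl (Sk x) = (-((nq x + nq y - 2 * bb x y : ℝ) : ℂ)) • (1 : M4)
      - (-(nq x : ℂ)) • (1 : M4) - (-(nq y : ℂ)) • (1 : M4) := by
    rw [← h]
    abel
  rw [h2, ← sub_smul, ← sub_smul]
  congr 1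
  push_cast
  ring

theorem cl2 (x y : I6 → ℝ) : dl (Sk x) * Sk y + dl (Sk y) * Sk x = ((2 * bb x y : ℝ) : ℂ) • (1 : M4) := by
  have h := sq2 (x + y)
  rw [Sk_add, dl_add, Matrix.add_mul, Matrix.mul_add, Matrix.mul_add, sq2, sq2, nq_add] at h
  have h2 : dl (Sk x) * Sk y + dl (Sk y) * Sk x = (-((nq x + nq y - 2 * bb x y : ℝ) : ℂ)) • (1 : M4)
      - (-(nq x : ℂ)) • (1 : M4) - (-(nq y : ℂ)) • (1 : M4) := by
    rw [← h]
    abel
  rw [h2, ← sub_smul, ← sub_smul]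
  congr 1
  push_cast
  ring

theorem rf1 {u : I6 → ℝ} (hu : nq u ≠ 0) (x : I6 → ℝ) :
    Sk u * dl (Sk x) * Sk u = (nq u : ℂ) • Sk (rf u *ᵥ x) := by
  have h1 : Sk u * dl (Sk x) = ((2 * bb u x : ℝ) : ℂ) • (1 : M4) - Sk x * dl (Sk u) := by
    rw [← cl1]; abel
  have hc : (nq u : ℂ) ≠ 0 := by exact_mod_cast hu
  rw [h1, Matrix.sub_mul, Matrix.mul_assoc (Sk x), sq2, rf_mulVec, Sk_add, Sk_smul, smul_add,
    smul_smul, Matrix.smul_mul, Matrix.one_mul, Matrix.mul_smul, Matrix.mul_one, neg_smul,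
    sub_neg_eq_add, add_comm]
  congr 2
  push_cast
  field_simp

theorem rf2 {u : I6 → ℝ} (hu : nq u ≠ 0) (x : I6 → ℝ) :
    dl (Sk u) * Sk x * dl (Sk u) = (nq u : ℂ) • dl (Sk (rf u *ᵥ x)) := by
  have h1 : dl (Sk u) * Sk x = ((2 * bb u x : ℝ) : ℂ) • (1 : M4) - dl (Sk x) * Sk u := by
    rw [← cl2]; abel
  have hc : (nq u : ℂ) ≠ 0 := by exact_mod_cast hu
  rw [h1, Matrix.sub_mul, Matrix.mul_assoc (dl (Sk x)), sq1, rf_mulVec, Sk_add, Sk_smul, dl_add,
    dl_smul, smul_add,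
    smul_smul, Matrix.smul_mul, Matrix.one_mul, Matrix.mul_smul, Matrix.mul_one, neg_smul,
    sub_neg_eq_add, add_comm]
  congr 2
  push_cast
  field_simp

theorem form1 (u : I6 → ℝ) : (Sk u)ᴴ * J4 * Sk u = (nq u : ℂ) • J4 := by
  have h := sq2 u
  rw [(Rl_Sk u).2] at h
  have e : (Sk u).map star = -(Sk u)ᴴ := by
    have h2 := (Rl_Sk u).1
    have h3 : (Sk u)ᴴ = ((Sk u)ᵀ).map star := by ext i j; simp
    rw [h3, h2]
    ext i j
    simp
  rw [e] at h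
  calc (Sk u)ᴴ * J4 * Sk u = J4 * J4 * ((Sk u)ᴴ * J4 * Sk u) := by rw [J4_sq, Matrix.one_mul]
    _ = -(J4 * (J4 * -(Sk u)ᴴ * J4 * Sk u)) := by
      simp only [Matrix.mul_neg, Matrix.neg_mul, neg_neg, Matrix.mul_assoc]
    _ = (nq u : ℂ) • J4 := by rw [h]; simp

theorem form2 (u : I6 → ℝ) : (dl (Sk u))ᴴ * J4 * dl (Sk u) = (nq u : ℂ) • J4 := by
  have h := sq1 u
  have e : (dl (Sk u))ᴴ = -(J4 * Sk u * J4) := by
    rw [(Rl_Sk u).2]
    have h2 := (Rl_Sk u).1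
    have h3 : ((Sk u).map star)ᴴ = (Sk u)ᵀ := by ext i j; simp
    rw [conjTranspose_mul, conjTranspose_mul, h3, h2]
    have h4 : J4ᴴ = J4 := by
      ext i j
      fin_cases i <;> fin_cases j <;> simp [J4]
    rw [h4]
    simp [Matrix.mul_assoc]
  rw [e]
  calc -(J4 * Sk u * J4) * J4 * dl (Sk u) = -(J4 * Sk u * (J4 * J4) * dl (Sk u)) := by
        simp only [Matrix.neg_mul, Matrix.mul_assoc]
    _ = -(J4 * (Sk u * dl (Sk u))) := by rw [J4_sq, Matrix.mul_one, Matrix.mul_assoc]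
    _ = (nq u : ℂ) • J4 := by rw [h]; simp

theorem det_Sk (u : I6 → ℝ) : (Sk u).det = (nq u : ℂ) ^ 2 := by
  have h : ∀ a b c d e f : ℂ, (sk a b c d e f).det = (a * f - b * e + c * d) ^ 2 := by
    intro a b c d e f
    rw [det4]
    simp [sk]
    ring
  rw [← pf_Sk, skew_eq (Rl_Sk u).1, h]
  simp [pf, sk]

theorem det_dl (u : I6 → ℝ) : (dl (Sk u)).det = (nq u : ℂ) ^ 2 := by
  have h : ∀ a b c d e f : ℂ, (dl (sk a b c d e f)).det = (a * f - b * e + c * d) ^ 2 := by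
    intro a b c d e f
    rw [det4]
    simp [sk, dl]
    ring
  rw [← pf_Sk, skew_eq (Rl_Sk u).1, h]
  simp [pf, sk]

/-- products of two reflections of the same kind lift -/
theorem lift_rf {u v : I6 → ℝ} (h : 0 < nq u * nq v) : ∃ g : M4, SI g ∧ LR g = rf u * rf v := by
  have hu : nq u ≠ 0 := fun h0 => by rw [h0, zero_mul] at h; exact lt_irrefl _ h
  have hv : nq v ≠ 0 := fun h0 => by rw [h0, mul_zero] at h; exact lt_irrefl _ h
  obtain ⟨s, hs⟩ : ∃ s : ℝ, s ^ 2 * (nq u * nq v) = 1 := by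
    refine ⟨(√(nq u * nq v))⁻¹, ?_⟩
    rw [inv_pow, Real.sq_sqrt h.le, inv_mul_cancel₀ h.ne']
  have hsc : (s : ℂ) ^ 2 * ((nq u : ℂ) * (nq v : ℂ)) = 1 := by exact_mod_cast hs
  set g : M4 := (s : ℂ) • (Sk u * dl (Sk v)) with hg
  have hgt : gᵀ = (s : ℂ) • (dl (Sk v) * Sk u) := by
    rw [hg, transpose_smul, transpose_mul, (Rl_Sk u).1, dl_skew (Rl_Sk v).1]
    simp
  have hSI : SI g := by
    constructor
    · apply iso_of_mat
      have e1 : gᴴ = (s : ℂ) • ((dl (Sk v))ᴴ * (Sk u)ᴴ) := by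
        rw [hg, conjTranspose_smul, conjTranspose_mul]
        simp
      calc gᴴ * J4 * g = ((s : ℂ) * (s : ℂ)) • ((dl (Sk v))ᴴ * ((Sk u)ᴴ * J4 * Sk u) * dl (Sk v)) := by
            rw [e1, hg]
            simp only [Matrix.smul_mul, Matrix.mul_smul, smul_smul, Matrix.mul_assoc]
        _ = ((s : ℂ) * (s : ℂ)) • ((nq u : ℂ) • ((dl (Sk v))ᴴ * J4 * dl (Sk v))) := by
            rw [form1]
            simp only [Matrix.smul_mul, Matrix.mul_smul]
        _ = J4 := by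
            rw [form2, smul_smul, smul_smul]
            have : (s : ℂ) * (s : ℂ) * ((nq u : ℂ) * (nq v : ℂ)) = 1 := by
              rw [← hsc]; ring
            rw [mul_assoc, this, one_smul] 
    · rw [hg, det_smul, det_mul, det_Sk, det_dl]
      simp only [Fintype.card_fin]
      linear_combination ((s : ℂ) ^ 2 * ((nq u : ℂ) * (nq v : ℂ)) + 1) * hsc
  refine ⟨g, hSI, ?_⟩
  apply mulVec_ext
  intro x
  apply Sk_inj
  rw [← Sk_act hSI, hgt, hg]
  calc (s : ℂ) • (Sk u * dl (Sk v)) * Sk x * (s : ℂ) • (dl (Sk v) * Sk u)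
      = ((s : ℂ) * (s : ℂ)) • (Sk u * (dl (Sk v) * Sk x * dl (Sk v)) * Sk u) := by
        simp only [Matrix.smul_mul, Matrix.mul_smul, smul_smul, Matrix.mul_assoc]
    _ = ((s : ℂ) * (s : ℂ)) • ((nq v : ℂ) • (Sk u * dl (Sk (rf v *ᵥ x)) * Sk u)) := by
        rw [rf2 hv]
        simp only [Matrix.smul_mul, Matrix.mul_smul]
    _ = Sk ((rf u * rf v) *ᵥ x) := by
        rw [rf1 hu, smul_smul, smul_smul, Matrix.mulVec_mulVec]
        have : (s : ℂ) * (s : ℂ) * ((nq v : ℂ) * (nq u : ℂ)) = 1 := by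
          rw [← hsc]; ring
        rw [mul_assoc, this, one_smul]


/-! ### the set of liftable matrices -/

def Lf (h : Matrix I6 I6 ℝ) : Prop := ∃ g : M4, SI g ∧ LR g = h

def OJ (h : Matrix I6 I6 ℝ) : Prop := hᵀ * J (Fin 4) * h = J (Fin 4)

theorem Lf_mul {h k : Matrix I6 I6 ℝ} (hh : Lf h) (hk : Lf k) : Lf (h * k) := by
  obtain ⟨g, hg, rfl⟩ := hh
  obtain ⟨g', hg', rfl⟩ := hk
  exact ⟨g * g', SI_mul hg hg', LR_mul hg hg'⟩

theorem Lf_OJ {h : Matrix I6 I6 ℝ} (hh : Lf h) : OJ h := by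
  obtain ⟨g, hg, rfl⟩ := hh
  exact (LR_J hg).1

theorem OJ_mul {h k : Matrix I6 I6 ℝ} (hh : OJ h) (hk : OJ k) : OJ (h * k) := by
  unfold OJ at *
  rw [transpose_mul]
  calc kᵀ * hᵀ * J (Fin 4) * (h * k) = kᵀ * (hᵀ * J (Fin 4) * h) * k := by
        simp only [Matrix.mul_assoc]
    _ = J (Fin 4) := by rw [hh, hk]

theorem SI_one : SI (1 : M4) := ⟨iso_of_mat (by simp), by simp⟩

theorem LR_one : LR (1 : M4) = 1 := by
  apply mulVec_ext
  intro x
  apply Sk_inj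
  rw [← Sk_act SI_one]
  simp

theorem Lf_one : Lf 1 := ⟨1, SI_one, LR_one⟩

theorem J4_conj : J4ᴴ = J4 := by
  ext i j
  fin_cases i <;> fin_cases j <;> simp [J4]

theorem Lf_inv {h : Matrix I6 I6 ℝ} (hh : Lf h) : ∃ k, Lf k ∧ k * h = 1 := by
  obtain ⟨g, hg, rfl⟩ := hh
  have h1 : (J4 * gᴴ * J4) * g = 1 := by
    have := iso_mat hg.1
    calc (J4 * gᴴ * J4) * g = J4 * (gᴴ * J4 * g) := by simp only [Matrix.mul_assoc]
      _ = 1 := by rw [this, J4_sq]
  have h2 : SI (J4 * gᴴ * J4) := by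
    constructor
    · apply iso_of_mat
      have := iso_mat' hg.1
      rw [conjTranspose_mul, conjTranspose_mul, J4_conj, conjTranspose_conjTranspose]
      calc J4 * (g * J4) * J4 * (J4 * gᴴ * J4) = J4 * (g * J4 * (J4 * J4) * gᴴ) * J4 := by
            simp only [Matrix.mul_assoc]
        _ = J4 := by rw [J4_sq, Matrix.mul_one, this, J4_sq, Matrix.one_mul]
    · have h3 := congrArg Matrix.det h1
      rw [det_mul, hg.2, mul_one, det_one] at h3
      exact h3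
  refine ⟨LR (J4 * gᴴ * J4), ⟨_, h2, rfl⟩, ?_⟩
  rw [← LR_mul h2 hg, h1, LR_one]

theorem nq_iso {h : Matrix I6 I6 ℝ} (hJ : OJ h) (x : I6 → ℝ) : nq (h *ᵥ x) = nq x := by
  rw [nq_bb, nq_bb, bb_iso hJ]

theorem nq_sub (x y : I6 → ℝ) : nq (x - y) = nq x + nq y + 2 * bb x y := by
  rw [nq_bb, nq_bb, nq_bb, bb_sub_left, bb_sub_right, bb_sub_right, bb_comm y x]
  ring

theorem nq_neg (x : I6 → ℝ) : nq (-x) = nq x := by
  rw [nq_bb, nq_bb, bb_neg_left, bb_neg_right, neg_neg]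

/-- basis vectors -/
def be (i : I6) : I6 → ℝ := Pi.single i 1

theorem bb_bl (x : I6 → ℝ) (i : Fin 4) : bb x (be (Sum.inl i)) = x (Sum.inl i) := bb_inl x i
theorem bb_br (x : I6 → ℝ) (i : Fin 2) : bb x (be (Sum.inr i)) = - x (Sum.inr i) := bb_inr x i

theorem nq_bl (i : Fin 4) : nq (be (Sum.inl i)) = -1 := by
  rw [nq_bb, bb_bl]; simp [be]

theorem nq_br (i : Fin 2) : nq (be (Sum.inr i)) = 1 := by
  rw [nq_bb, bb_br]; simp [be]

theorem bb_ne {i j : I6} (h : i ≠ j) : bb (be i) (be j) = 0 := by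
  rcases j with j | j
  · rw [bb_bl]; exact Pi.single_eq_of_ne h.symm _
  · rw [bb_br]; simp only [neg_eq_zero]; exact Pi.single_eq_of_ne h.symm _

theorem red {u e' a : I6 → ℝ} (hu : nq u = nq e') (ha : bb a e' = 0) (hna : nq a < 0)
    (hue : u ≠ e' → nq (u - e') < 0) :
    ∃ m, Lf m ∧ m *ᵥ u = e' ∧ ∀ x, bb (u - e') x = 0 → bb a x = 0 → m *ᵥ x = x := by
  by_cases h : u = e'
  · exact ⟨1, Lf_one, by rw [Matrix.one_mulVec, h], fun x _ _ => Matrix.one_mulVec x⟩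
  · have h1 := hue h
    refine ⟨rf a * rf (u - e'), lift_rf (mul_pos_of_neg_of_neg hna h1), ?_, ?_⟩
    · rw [← Matrix.mulVec_mulVec, rf_move hu h1.ne, rf_fix ha]
    · intro x hx hx'
      rw [← Matrix.mulVec_mulVec, rf_fix hx, rf_fix hx']

theorem stepA {h : Matrix I6 I6 ℝ} (hJ : OJ h) : ∃ m, Lf m ∧ (m * h) *ᵥ be (Sum.inr 1) = be (Sum.inr 1) := by
  set e6 := be (Sum.inr 1) with he6
  set u := h *ᵥ e6 with hu
  have hnu : nq u = 1 := by rw [hu, nq_iso hJ, he6, nq_br]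
  have hne : nq e6 = 1 := nq_br 1
  rcases lt_or_ge 0 (nq (u - e6)) with hp | hp
  · refine ⟨rf (be (Sum.inr 0)) * rf (u - e6), lift_rf (by rw [nq_br]; linarith), ?_⟩
    rw [← Matrix.mulVec_mulVec, ← Matrix.mulVec_mulVec, ← hu, rf_move (hnu.trans hne.symm) hp.ne',
      rf_fix (bb_ne (by decide))]
  · have hp' : 0 < nq (u - -e6) := by
      rw [nq_sub, nq_neg, bb_neg_right]
      rw [nq_sub] at hp
      linarith
    refine ⟨rf e6 * rf (u - -e6), lift_rf (by rw [hne]; linarith), ?_⟩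
    rw [← Matrix.mulVec_mulVec, ← Matrix.mulVec_mulVec, ← hu,
      rf_move (by rw [hnu, nq_neg, hne]) hp'.ne', rf_mulVec, bb_neg_right]
    have : bb e6 e6 = -1 := by
      have := nq_bb e6
      linarith
    rw [this, hne]
    ext i
    simp
    ring

theorem nq_expand (x : I6 → ℝ) : nq x = x (Sum.inr 0) ^ 2 + x (Sum.inr 1) ^ 2 -
    (x (Sum.inl 0) ^ 2 + x (Sum.inl 1) ^ 2 + x (Sum.inl 2) ^ 2 + x (Sum.inl 3) ^ 2) := by
  unfold nq
  simp [Fin.sum_univ_four, Fin.sum_univ_two]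

theorem ext6 {x y : I6 → ℝ} (h0 : x (Sum.inl 0) = y (Sum.inl 0)) (h1 : x (Sum.inl 1) = y (Sum.inl 1))
    (h2 : x (Sum.inl 2) = y (Sum.inl 2)) (h3 : x (Sum.inl 3) = y (Sum.inl 3))
    (h4 : x (Sum.inr 0) = y (Sum.inr 0)) (h5 : x (Sum.inr 1) = y (Sum.inr 1)) : x = y := by
  ext i
  rcases i with i | i
  · fin_cases i
    · exact h0
    · exact h1
    · exact h2
    · exact h3
  · fin_cases i
    · exact h4
    · exact h5

theorem stepB {h : Matrix I6 I6 ℝ} (hJ : OJ h) (h6 : h *ᵥ be (Sum.inr 1) = be (Sum.inr 1)) :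
    ∃ m, ∃ ε : ℝ, (ε = 1 ∨ ε = -1) ∧ Lf m ∧ (m * h) *ᵥ be (Sum.inr 1) = be (Sum.inr 1) ∧
      (m * h) *ᵥ be (Sum.inr 0) = ε • be (Sum.inr 0) := by
  set u := h *ᵥ be (Sum.inr 0) with hu
  have hnu : nq u = 1 := by rw [hu, nq_iso hJ, nq_br]
  have hu1 : u (Sum.inr 1) = 0 := by
    have h1 : bb u (be (Sum.inr 1)) = 0 := by
      conv_lhs => rw [← h6, hu]
      rw [bb_iso hJ, bb_ne (by decide)]
    rw [bb_br] at h1
    linarith
  have hex := nq_expand u
  rw [hnu, hu1] at hex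
  obtain ⟨ε, hε, hε2, hε3⟩ : ∃ ε : ℝ, (ε = 1 ∨ ε = -1) ∧ ε * ε = 1 ∧ 1 ≤ ε * u (Sum.inr 0) := by
    have h1 : 1 ≤ (u (Sum.inr 0)) ^ 2 := by
      nlinarith [sq_nonneg (u (Sum.inl 0)), sq_nonneg (u (Sum.inl 1)),
        sq_nonneg (u (Sum.inl 2)), sq_nonneg (u (Sum.inl 3))]
    rcases le_or_gt 0 (u (Sum.inr 0)) with h2 | h2
    · exact ⟨1, Or.inl rfl, by norm_num, by nlinarith⟩
    · exact ⟨-1, Or.inr rfl, by norm_num, by nlinarith⟩
  have hne : nq (ε • be (Sum.inr 0)) = 1 := by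
    rw [nq_bb, bb_smul_left, bb_smul_right, bb_br]
    simp [be]
    linarith
  have hbb : bb u (ε • be (Sum.inr 0)) = -(ε * u (Sum.inr 0)) := by
    rw [bb_smul_right, bb_br]; ring
  obtain ⟨m, hm, hmu, hmx⟩ := red (u := u) (e' := ε • be (Sum.inr 0)) (a := be (Sum.inl 0))
    (by rw [hnu, hne]) (by rw [bb_smul_right, bb_ne (by decide), mul_zero]) (by rw [nq_bl]; norm_num) (by
      intro hne'
      rw [nq_sub, hbb, hnu, hne]
      have : 1 < ε * u (Sum.inr 0) := by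
        refine lt_of_le_of_ne hε3 (fun h0 => hne' ?_)
        have h1 : u (Sum.inr 0) = ε := by
          calc u (Sum.inr 0) = (ε * ε) * u (Sum.inr 0) := by rw [hε2, one_mul]
            _ = ε * (ε * u (Sum.inr 0)) := by ring
            _ = ε := by rw [← h0, mul_one]
        have h2 : u (Sum.inr 0) ^ 2 = 1 := by rw [h1]; nlinarith
        rw [h2] at hex
        have a0 : u (Sum.inl 0) = 0 := by
          nlinarith [sq_nonneg (u (Sum.inl 0)), sq_nonneg (u (Sum.inl 1)),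
            sq_nonneg (u (Sum.inl 2)), sq_nonneg (u (Sum.inl 3))]
        have a1 : u (Sum.inl 1) = 0 := by
          nlinarith [sq_nonneg (u (Sum.inl 0)), sq_nonneg (u (Sum.inl 1)),
            sq_nonneg (u (Sum.inl 2)), sq_nonneg (u (Sum.inl 3))]
        have a2 : u (Sum.inl 2) = 0 := by
          nlinarith [sq_nonneg (u (Sum.inl 0)), sq_nonneg (u (Sum.inl 1)),
            sq_nonneg (u (Sum.inl 2)), sq_nonneg (u (Sum.inl 3))]
        have a3 : u (Sum.inl 3) = 0 := by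
          nlinarith [sq_nonneg (u (Sum.inl 0)), sq_nonneg (u (Sum.inl 1)),
            sq_nonneg (u (Sum.inl 2)), sq_nonneg (u (Sum.inl 3))]
        apply ext6
        · rw [a0]; simp [be]
        · rw [a1]; simp [be]
        · rw [a2]; simp [be]
        · rw [a3]; simp [be]
        · rw [h1]; simp [be]
        · rw [hu1]; simp [be]
      linarith)
  refine ⟨m, ε, hε, hm, ?_, ?_⟩
  · rw [← Matrix.mulVec_mulVec, h6]
    apply hmx
    · rw [bb_sub_left, bb_smul_left, bb_br, hu1, bb_ne (by decide)]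
      simp
    · exact bb_ne (by decide)
  · rw [← Matrix.mulVec_mulVec, ← hu, hmu]

theorem neg_of {x y : I6 → ℝ} (h4 : x (Sum.inr 0) = y (Sum.inr 0)) (h5 : x (Sum.inr 1) = y (Sum.inr 1))
    (hne : x ≠ y) : nq (x - y) < 0 := by
  rw [nq_expand]
  simp only [Pi.sub_apply, h4, h5, sub_self]
  by_contra hcon
  push_neg at hcon
  apply hne
  have q0 := sq_nonneg (x (Sum.inl 0) - y (Sum.inl 0))
  have q1 := sq_nonneg (x (Sum.inl 1) - y (Sum.inl 1))
  have q2 := sq_nonneg (x (Sum.inl 2) - y (Sum.inl 2))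
  have q3 := sq_nonneg (x (Sum.inl 3) - y (Sum.inl 3))
  have a0 : x (Sum.inl 0) - y (Sum.inl 0) = 0 := pow_eq_zero_iff (two_ne_zero) |>.1 (by linarith)
  have a1 : x (Sum.inl 1) - y (Sum.inl 1) = 0 := pow_eq_zero_iff (two_ne_zero) |>.1 (by linarith)
  have a2 : x (Sum.inl 2) - y (Sum.inl 2) = 0 := pow_eq_zero_iff (two_ne_zero) |>.1 (by linarith)
  have a3 : x (Sum.inl 3) - y (Sum.inl 3) = 0 := pow_eq_zero_iff (two_ne_zero) |>.1 (by linarith)
  exact ext6 (by linarith) (by linarith) (by linarith) (by linarith) h4 h5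

theorem stepC {h : Matrix I6 I6 ℝ} (hJ : OJ h) {ε : ℝ} (hε : ε ≠ 0)
    (h6 : h *ᵥ be (Sum.inr 1) = be (Sum.inr 1)) (h5 : h *ᵥ be (Sum.inr 0) = ε • be (Sum.inr 0))
    (i : Fin 4) (hi : i ≠ 0) :
    ∃ m, Lf m ∧ (m * h) *ᵥ be (Sum.inr 1) = be (Sum.inr 1) ∧
      (m * h) *ᵥ be (Sum.inr 0) = ε • be (Sum.inr 0) ∧ (m * h) *ᵥ be (Sum.inl i) = be (Sum.inl i) ∧
      ∀ j : Fin 4, j ≠ 0 → j ≠ i → h *ᵥ be (Sum.inl j) = be (Sum.inl j) →
        (m * h) *ᵥ be (Sum.inl j) = be (Sum.inl j) := by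
  set u := h *ᵥ be (Sum.inl i) with hu
  have hi0 : Sum.inl (0 : Fin 4) ≠ (Sum.inl i : I6) := fun h0 => hi (Sum.inl_injective h0).symm
  have hnu : nq u = -1 := by rw [hu, nq_iso hJ, nq_bl]
  have hu1 : u (Sum.inr 1) = 0 := by
    have h1 : bb u (be (Sum.inr 1)) = 0 := by
      conv_lhs => rw [← h6, hu]
      rw [bb_iso hJ, bb_ne (by simp)]
    rw [bb_br] at h1
    linarith
  have hu0 : u (Sum.inr 0) = 0 := by
    have h1 : bb u (ε • be (Sum.inr 0)) = 0 := by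
      rw [← h5, hu]
      rw [bb_iso hJ, bb_ne (by simp)]
    rw [bb_smul_right, bb_br] at h1
    rcases mul_eq_zero.1 h1 with h2 | h2
    · exact absurd h2 hε
    · linarith
  obtain ⟨m, hm, hmu, hmx⟩ := red (u := u) (e' := be (Sum.inl i)) (a := be (Sum.inl 0))
    (by rw [hnu, nq_bl]) (bb_ne hi0) (by rw [nq_bl]; norm_num)
    (neg_of (by rw [hu0]; simp [be]) (by rw [hu1]; simp [be]))
  refine ⟨m, hm, ?_, ?_, ?_, ?_⟩
  · rw [← Matrix.mulVec_mulVec, h6]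
    apply hmx
    · rw [bb_sub_left, bb_br, hu1, bb_ne (by simp)]
      simp
    · exact bb_ne (by simp)
  · rw [← Matrix.mulVec_mulVec, h5, Matrix.mulVec_smul]
    congr 1
    apply hmx
    · rw [bb_sub_left, bb_br, hu0, bb_ne (by simp)]
      simp
    · exact bb_ne (by simp)
  · rw [← Matrix.mulVec_mulVec, ← hu, hmu]
  · intro j hj hji hhj
    have hij : (Sum.inl i : I6) ≠ Sum.inl j := fun h0 => hji (Sum.inl_injective h0).symm
    have h0j : Sum.inl (0 : Fin 4) ≠ (Sum.inl j : I6) := fun h0 => hj (Sum.inl_injective h0).symm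
    rw [← Matrix.mulVec_mulVec, hhj]
    apply hmx
    · rw [bb_sub_left, bb_ne hij, sub_zero]
      conv_lhs => rw [← hhj, hu]
      rw [bb_iso hJ, bb_ne hij]
    · exact bb_ne h0j

theorem mat_be {h k : Matrix I6 I6 ℝ} (hh : ∀ i, h *ᵥ be i = k *ᵥ be i) : h = k := by
  ext i j
  have h1 := congrFun (hh j) i
  unfold be at h1
  rw [Matrix.mulVec_single_one, Matrix.mulVec_single_one] at h1
  exact h1

/-- the diagonal matrix at the end -/
def Dm (c ε : ℝ) : Matrix I6 I6 ℝ := Matrix.diagonal (Sum.elim ![c, 1, 1, 1] ![ε, 1])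

theorem normal {h : Matrix I6 I6 ℝ} (hJ : OJ h) :
    ∃ m, Lf m ∧ ∃ c ε : ℝ, (ε = 1 ∨ ε = -1) ∧ m * h = Dm c ε := by
  obtain ⟨m1, hm1, hA⟩ := stepA hJ
  have hJ1 := OJ_mul (Lf_OJ hm1) hJ
  obtain ⟨m2, ε, hε, hm2, hB1, hB2⟩ := stepB hJ1 hA
  have hJ2 := OJ_mul (Lf_OJ hm2) hJ1
  have hε0 : ε ≠ 0 := by rcases hε with h | h <;> rw [h] <;> norm_num
  obtain ⟨m3, hm3, hC1, hC2, hC3, -⟩ := stepC hJ2 hε0 hB1 hB2 3 (by decide)
  have hJ3 := OJ_mul (Lf_OJ hm3) hJ2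
  obtain ⟨m4, hm4, hD1, hD2, hD3, hD4⟩ := stepC hJ3 hε0 hC1 hC2 2 (by decide)
  have hJ4 := OJ_mul (Lf_OJ hm4) hJ3
  have hD5 := hD4 3 (by decide) (by decide) hC3
  obtain ⟨m5, hm5, hE1, hE2, hE3, hE4⟩ := stepC hJ4 hε0 hD1 hD2 1 (by decide)
  have hJ5 := OJ_mul (Lf_OJ hm5) hJ4
  have hE5 := hE4 2 (by decide) (by decide) hD3
  have hE6 := hE4 3 (by decide) (by decide) hD5
  refine ⟨m5 * (m4 * (m3 * (m2 * m1))), Lf_mul hm5 (Lf_mul hm4 (Lf_mul hm3 (Lf_mul hm2 hm1))), ?_⟩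
  set k := m5 * (m4 * (m3 * (m2 * (m1 * h)))) with hk
  have hk' : m5 * (m4 * (m3 * (m2 * m1))) * h = k := by
    rw [hk]; simp only [Matrix.mul_assoc]
  rw [hk']
  set u := k *ᵥ be (Sum.inl 0) with hu
  have o1 : u (Sum.inr 1) = 0 := by
    have h1 : bb u (be (Sum.inr 1)) = 0 := by
      conv_lhs => rw [← hE1, hu]
      rw [bb_iso hJ5, bb_ne (by decide)]
    rw [bb_br] at h1
    linarith
  have o0 : u (Sum.inr 0) = 0 := by
    have h1 : bb u (ε • be (Sum.inr 0)) = 0 := by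
      rw [← hE2, hu]
      rw [bb_iso hJ5, bb_ne (by decide)]
    rw [bb_smul_right, bb_br] at h1
    rcases mul_eq_zero.1 h1 with h2 | h2
    · exact absurd h2 hε0
    · linarith
  have p : ∀ j : Fin 4, j ≠ 0 → k *ᵥ be (Sum.inl j) = be (Sum.inl j) → u (Sum.inl j) = 0 := by
    intro j hj h2
    have h1 : bb u (be (Sum.inl j)) = 0 := by
      conv_lhs => rw [← h2, hu]
      rw [bb_iso hJ5, bb_ne (fun h0 => hj (Sum.inl_injective h0).symm)]
    rwa [bb_bl] at h1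
  have p1 := p 1 (by decide) hE3
  have p2 := p 2 (by decide) hE5
  have p3 := p 3 (by decide) hE6
  refine ⟨u (Sum.inl 0), ε, hε, mat_be ?_⟩
  have hdm : ∀ i, Dm (u (Sum.inl 0)) ε *ᵥ be i = (Sum.elim ![u (Sum.inl 0), 1, 1, 1] ![ε, 1] i : ℝ) • be i := by
    intro i
    unfold Dm be
    rw [Matrix.diagonal_mulVec_single]
    ext j
    by_cases hj : j = i
    · subst hj; simp
    · simp [Pi.single_eq_of_ne hj]
  intro i
  rw [hdm]
  rcases i with i | i
  · fin_cases i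
    · show u = _
      apply ext6 <;> simp [be, o0, o1, p1, p2, p3]
    · show k *ᵥ be (Sum.inl 1) = _
      rw [hE3]; simp
    · show k *ᵥ be (Sum.inl 2) = _
      rw [hE5]; simp
    · show k *ᵥ be (Sum.inl 3) = _
      rw [hE6]; simp
  · fin_cases i
    · show k *ᵥ be (Sum.inr 0) = _
      rw [hE2]; simp
    · show k *ᵥ be (Sum.inr 1) = _
      rw [hE1]; simp

theorem Lf_det {h : Matrix I6 I6 ℝ} (hh : Lf h) : h.det = 1 := by
  obtain ⟨g, hg, rfl⟩ := hh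
  exact (LR_J hg).2.1

theorem main (h : Matrix I6 I6 ℝ) (hJ : OJ h) (hd : h.det = 1)
    (hn : 0 < h.toBlocks₂₂.det) : Lf h := by
  obtain ⟨m, hm, c, ε, hε, hmh⟩ := normal hJ
  obtain ⟨k, hk, hkm⟩ := Lf_inv hm
  have hh : h = k * Dm c ε := by rw [← hmh, ← Matrix.mul_assoc, hkm, Matrix.one_mul]
  have hdet : c * ε = 1 := by
    have h1 := congrArg Matrix.det hmh
    rw [det_mul, Lf_det hm, hd] at h1
    unfold Dm at h1
    rw [Matrix.det_diagonal, Fintype.prod_sum_type] at h1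
    simp [Fin.prod_univ_four, Fin.prod_univ_two] at h1
    exact h1.symm
  rcases hε with h1 | h1
  · rw [h1] at hdet hh
    have hc : c = 1 := by linarith
    rw [hc] at hh
    have : Dm 1 1 = 1 := by
      unfold Dm
      rw [← Matrix.diagonal_one]
      congr 1
      ext i
      rcases i with i | i
      · fin_cases i <;> simp
      · fin_cases i <;> simp
    rw [this, Matrix.mul_one] at hh
    rw [hh]; exact hk
  · exfalso
    rw [h1] at hdet hh
    have hk2 : 0 < k.toBlocks₂₂.det := by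
      obtain ⟨g, hg, rfl⟩ := hk
      exact (LR_J hg).2.2
    have hb : h.toBlocks₂₂.det = - k.toBlocks₂₂.det := by
      rw [hh, Matrix.det_fin_two, Matrix.det_fin_two]
      simp [Dm, Matrix.toBlocks₂₂, Matrix.mul_diagonal]
      ring
    linarith

end KB2A

/-- module B2: the double cover is onto -/
theorem exists_lift (h : Matrix I6 I6 ℝ) (hJ : hᵀ * J (Fin 4) * h = J (Fin 4)) (hd : h.det = 1)
    (hn : 0 < h.toBlocks₂₂.det) : ∃ g : M4, SI g ∧ LR g = h := KB2A.main h hJ hd hn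

end Pool.Agent.MPd01a95.KT
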