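import Mathlib
import Pool.Agent.Lib.MP_d01a95_gt_K.KB1
import Pool.Agent.Lib.MP_d01a95_gt_K.KB2
import Pool.Agent.Lib.MP_d01a95_gt.Minor

set_option autoImplicit false
set_option linter.all false

open Matrix Filter Topology MeasureTheory
open scoped ContDiff

namespace Pool.Agent.MPd01a95.KT

open GU

variable {G : Type} [Group G]

namespace B3

/-- coefficients of a skew matrix in the real basis -/
noncomputable def zc (S : M4) : I6 → ℂ :=
  Sum.elim ![(S 0 2 + S 1 3) / 2, -Complex.I * (S 0 2 - S 1 3) / 2,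
    (S 0 3 - S 1 2) / 2, -Complex.I * (S 0 3 + S 1 2) / 2]
    ![(S 0 1 + S 2 3) / 2, -Complex.I * (S 0 1 - S 2 3) / 2]

theorem sk_span (S : M4) (hS : ∀ i j, S i j = - S j i) :
    S = ∑ p, zc S p • Sk (Pi.single p 1) := by
  have hd : ∀ i, S i i = 0 := fun i => by
    have := hS i i
    linear_combination (1 / 2 : ℂ) * this
  have hI := Complex.I_mul_I
  ext i j
  rw [Matrix.sum_apply, Fintype.sum_sum_type, Fin.sum_univ_four, Fin.sum_univ_two]
  simp only [Matrix.smul_apply, smul_eq_mul, zc, Sum.elim_inl, Sum.elim_inr, Sk]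
  have h10 := hS 1 0
  have h20 := hS 2 0
  have h30 := hS 3 0
  have h21 := hS 2 1
  have h31 := hS 3 1
  have h32 := hS 3 2
  fin_cases i <;> fin_cases j <;>
    simp [Pi.single_apply, hd, h10, h20, h30, h21, h31, h32] <;>
    first
      | linear_combination (1 / 2 * (S 0 1 - S 2 3)) * hI
      | linear_combination (-1 / 2 * (S 0 1 - S 2 3)) * hI
      | linear_combination (1 / 2 * (S 0 2 - S 1 3)) * hI
      | linear_combination (-1 / 2 * (S 0 2 - S 1 3)) * hI
      | linear_combination (1 / 2 * (S 0 3 + S 1 2)) * hI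
      | linear_combination (-1 / 2 * (S 0 3 + S 1 2)) * hI

/-- the elementary skew matrix -/
def el2 (i j : Fin 4) : M4 :=
  Matrix.of fun k l => (1 : M4) k i * (1 : M4) l j - (1 : M4) k j * (1 : M4) l i

theorem el2_skew (i j k l : Fin 4) : el2 i j k l = - el2 i j l k := by
  simp only [el2, Matrix.of_apply]
  ring

theorem mul_el2 (h : M4) (i j k l : Fin 4) :
    (h * el2 i j * hᵀ) k l = h k i * h l j - h k j * h l i := by
  rw [Matrix.mul_apply]
  have e : ∀ n, (h * el2 i j) k n = h k i * (1 : M4) n j - h k j * (1 : M4) n i := by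
    intro n
    rw [Matrix.mul_apply]
    simp only [el2, Matrix.of_apply, Matrix.one_apply, mul_sub, Finset.sum_sub_distrib]
    simp [← mul_assoc, mul_ite, ite_mul, Finset.sum_ite_eq, Finset.sum_ite_eq']
  simp only [e, Matrix.transpose_apply, Matrix.one_apply, sub_mul, Finset.sum_sub_distrib]
  simp [mul_assoc, mul_ite, ite_mul, Finset.sum_ite_eq, Finset.sum_ite_eq']

/-- the minors of a product through the real form -/
theorem minor_eq {g : M4} (hg : SI g) (i j k l : Fin 4) :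
    g k i * g l j - g k j * g l i =
      ∑ p, zc (el2 i j) p * Sk (LR g *ᵥ Pi.single p 1) k l := by
  rw [← mul_el2 g i j k l]
  conv_lhs => rw [sk_span (el2 i j) (el2_skew i j)]
  rw [Finset.mul_sum, Finset.sum_mul, Matrix.sum_apply]
  refine Finset.sum_congr rfl fun p _ => ?_
  rw [Matrix.mul_smul, Matrix.smul_mul, Matrix.smul_apply, smul_eq_mul, Sk_act hg]

/-- a matrix with the two by two minors of the identity is scalar -/
theorem scalar_of_minor (h : M4) (hm : ∀ i j k l : Fin 4,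
    h k i * h l j - h k j * h l i = (1 : M4) k i * (1 : M4) l j - (1 : M4) k j * (1 : M4) l i) :
    h = 1 ∨ h = -1 := by
  have hoff : ∀ i k : Fin 4, k ≠ i → h k i = 0 := by
    intro i k hk
    obtain ⟨j, hji, hjk⟩ : ∃ j : Fin 4, j ≠ i ∧ j ≠ k := by
      revert i k
      decide
    have m1 := hm i j i j
    have m2 := hm i j k j
    have m3 := hm i j k i
    rw [Matrix.one_apply_eq, Matrix.one_apply_eq, Matrix.one_apply_ne hji.symm] at m1
    rw [Matrix.one_apply_ne hk, Matrix.one_apply_ne hjk.symm] at m2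
    rw [Matrix.one_apply_ne hk, Matrix.one_apply_ne hji.symm,
      Matrix.one_apply_ne hjk.symm] at m3
    linear_combination h i i * m2 - h k i * m1 - h j i * m3
  have d : ∀ i j : Fin 4, i ≠ j → h i i * h j j = 1 := by
    intro i j hij
    have m1 := hm i j i j
    rw [hoff j i hij] at m1
    rw [Matrix.one_apply_eq, Matrix.one_apply_eq, Matrix.one_apply_ne hij] at m1
    linear_combination m1
  have d01 := d 0 1 (by decide)
  have d02 := d 0 2 (by decide)
  have d12 := d 1 2 (by decide)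
  have d03 := d 0 3 (by decide)
  have d13 := d 1 3 (by decide)
  have e1 : h 1 1 = h 0 0 := by
    linear_combination h 0 0 * d12 - h 1 1 * d02
  have e2 : h 2 2 = h 0 0 := by
    linear_combination h 0 0 * d12 - h 2 2 * d01
  have e3 : h 3 3 = h 0 0 := by
    linear_combination h 0 0 * d13 - h 3 3 * d01
  have hdiag : ∀ i, h i i = h 0 0 := by
    intro i
    fin_cases i
    · rfl
    · exact e1
    · exact e2
    · exact e3
  have hsq : (h 0 0 - 1) * (h 0 0 + 1) = 0 := by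
    rw [e1] at d01
    linear_combination d01
  have hform : ∀ c : ℂ, h 0 0 = c → h = c • (1 : M4) := by
    intro c hc
    ext i j
    rw [Matrix.smul_apply, smul_eq_mul, Matrix.one_apply]
    by_cases hij : i = j
    · subst hij
      rw [if_pos rfl, hdiag, hc, mul_one]
    · rw [if_neg hij, mul_zero, hoff j i hij]
  rcases mul_eq_zero.1 hsq with h0 | h0
  · left
    rw [hform 1 (by linear_combination h0), one_smul]
  · right
    rw [hform (-1) (by linear_combination h0), neg_smul, one_smul]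

theorem SI_mul {g h : M4} (hg : SI g) (hh : SI h) : SI (g * h) := by
  refine ⟨fun v w => ?_, ?_⟩
  · rw [← Matrix.mulVec_mulVec, ← Matrix.mulVec_mulVec, hg.1, hh.1]
  · rw [Matrix.det_mul, hg.2, hh.2, one_mul]

theorem SI_one : SI (1 : M4) :=
  ⟨fun v w => by rw [Matrix.one_mulVec, Matrix.one_mulVec], Matrix.det_one⟩

theorem LR_one : LR (1 : M4) = 1 := by
  have h := LR_mul SI_one SI_one
  rw [Matrix.one_mul] at h
  have hu : IsUnit (LR (1 : M4)).det := by
    rw [(LR_J SI_one).2.1]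
    exact isUnit_one
  have h2 := congrArg (fun M => (LR (1 : M4))⁻¹ * M) h
  replace h2 : (LR (1 : M4))⁻¹ * LR 1 = (LR (1 : M4))⁻¹ * (LR 1 * LR 1) := h2
  rw [Matrix.nonsing_inv_mul _ hu, ← Matrix.mul_assoc, Matrix.nonsing_inv_mul _ hu,
    Matrix.one_mul] at h2
  exact h2.symm

end B3

open B3

/-- module B3 -/
theorem lift_unique {g g' : M4} (hg : SI g) (hg' : SI g') (h : LR g = LR g') :
    g' = g ∨ g' = -g := by
  obtain ⟨-, -, -, e1, e2, -⟩ := iso_inv hg.1
  have key : ∀ i j k l : Fin 4, (g⁻¹ * g') k i * (g⁻¹ * g') l j - (g⁻¹ * g') k j * (g⁻¹ * g') l i =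
      (1 : M4) k i * (1 : M4) l j - (1 : M4) k j * (1 : M4) l i := by
    intro i j k l
    have h1 : g * el2 i j * gᵀ = g' * el2 i j * g'ᵀ := by
      ext k l
      rw [mul_el2, mul_el2, minor_eq hg, minor_eq hg', h]
    rw [← mul_el2 (g⁻¹ * g') i j k l, ← mul_el2 1 i j k l]
    refine congrFun (congrFun (?_ : g⁻¹ * g' * el2 i j * (g⁻¹ * g')ᵀ =
      1 * el2 i j * (1 : M4)ᵀ) k) l
    rw [Matrix.transpose_mul]
    calc g⁻¹ * g' * el2 i j * (g'ᵀ * (g⁻¹)ᵀ) = g⁻¹ * (g' * el2 i j * g'ᵀ) * (g⁻¹)ᵀ := by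
          simp only [Matrix.mul_assoc]
      _ = (g⁻¹ * g) * el2 i j * (g⁻¹ * g)ᵀ := by
          rw [← h1, Matrix.transpose_mul]
          simp only [Matrix.mul_assoc]
      _ = 1 * el2 i j * (1 : M4)ᵀ := by rw [e2]
  have h2 : g' = g * (g⁻¹ * g') := by
    rw [← Matrix.mul_assoc, e1, Matrix.one_mul]
  rcases scalar_of_minor _ key with h3 | h3
  · left
    rw [h2, h3, Matrix.mul_one]
  · right
    rw [h2, h3, Matrix.mul_neg, Matrix.mul_one]

namespace B3

theorem norm_zc_le (i j : Fin 4) (p : I6) : ‖zc (el2 i j) p‖ ≤ 1 := by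
  have h1 : ∀ k l, ‖el2 i j k l‖ ≤ 1 := by
    intro k l
    simp only [el2, Matrix.of_apply, Matrix.one_apply]
    by_cases h1 : k = i <;> by_cases h2 : l = j <;> by_cases h3 : k = j <;> by_cases h4 : l = i <;>
      simp [h1, h2, h3, h4] <;> split_ifs <;> simp
  have ha : ∀ a b : ℂ, ‖a‖ ≤ 1 → ‖b‖ ≤ 1 → ‖(a + b) / 2‖ ≤ 1 := by
    intro a b ha hb
    rw [norm_div, Complex.norm_ofNat]
    have := norm_add_le a b
    linarith
  have hb : ∀ a b : ℂ, ‖a‖ ≤ 1 → ‖b‖ ≤ 1 → ‖(a - b) / 2‖ ≤ 1 := by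
    intro a b ha hb
    rw [norm_div, Complex.norm_ofNat]
    have := norm_sub_le a b
    linarith
  have hc : ∀ a b : ℂ, ‖a‖ ≤ 1 → ‖b‖ ≤ 1 → ‖-Complex.I * (a + b) / 2‖ ≤ 1 := by
    intro a b ha hb
    rw [norm_div, Complex.norm_ofNat, norm_mul, norm_neg, Complex.norm_I, one_mul]
    have := norm_add_le a b
    linarith
  have hd : ∀ a b : ℂ, ‖a‖ ≤ 1 → ‖b‖ ≤ 1 → ‖-Complex.I * (a - b) / 2‖ ≤ 1 := by
    intro a b ha hb
    rw [norm_div, Complex.norm_ofNat, norm_mul, norm_neg, Complex.norm_I, one_mul]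
    have := norm_sub_le a b
    linarith
  rcases p with p | p
  · fin_cases p
    · exact ha _ _ (h1 _ _) (h1 _ _)
    · exact hd _ _ (h1 _ _) (h1 _ _)
    · exact hb _ _ (h1 _ _) (h1 _ _)
    · exact hc _ _ (h1 _ _) (h1 _ _)
  · fin_cases p
    · exact ha _ _ (h1 _ _) (h1 _ _)
    · exact hd _ _ (h1 _ _) (h1 _ _)

theorem norm_Sk_le (x : I6 → ℝ) {r : ℝ} (hr : ∀ p, |x p| ≤ r) (k l : Fin 4) :
    ‖Sk x k l‖ ≤ 2 * r := by
  have h0 : 0 ≤ r := (abs_nonneg _).trans (hr (Sum.inr 0))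
  have hz : ∀ p q, ‖(x p : ℂ) + Complex.I * (x q : ℂ)‖ ≤ 2 * r := by
    intro p q
    refine (norm_add_le _ _).trans ?_
    rw [norm_mul, Complex.norm_I, one_mul, Complex.norm_real, Complex.norm_real,
      Real.norm_eq_abs, Real.norm_eq_abs]
    linarith [hr p, hr q]
  have hz' : ∀ z : ℂ, ‖z‖ ≤ 2 * r → ‖star z‖ ≤ 2 * r ∧ ‖-z‖ ≤ 2 * r ∧ ‖-star z‖ ≤ 2 * r := by
    intro z h
    rw [norm_neg, norm_neg, norm_star]
    exact ⟨h, h, h⟩
  have h00 : ‖(0 : ℂ)‖ ≤ 2 * r := by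
    rw [norm_zero]
    linarith
  have ha := hz (Sum.inr 0) (Sum.inr 1)
  have hb := hz (Sum.inl 0) (Sum.inl 1)
  have hd := hz (Sum.inl 2) (Sum.inl 3)
  obtain ⟨a1, a2, a3⟩ := hz' _ ha
  obtain ⟨b1, b2, b3⟩ := hz' _ hb
  obtain ⟨d1, d2, d3⟩ := hz' _ hd
  unfold Sk
  fin_cases k <;> fin_cases l <;>
    first
      | exact h00
      | exact ha
      | exact hb
      | exact hd
      | exact a1
      | exact a2
      | exact a3
      | exact b1
      | exact b2
      | exact b3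
      | exact d1
      | exact d2
      | exact d3

end B3

namespace B3

theorem Sk_skew (x : I6 → ℝ) (i j : Fin 4) : Sk x i j = - Sk x j i := by
  unfold Sk
  fin_cases i <;> fin_cases j <;> simp

/-- the action on skew matrices in terms of the minors -/
theorem conj_skew (g S : M4) (hS : ∀ i j, S i j = - S j i) (k l : Fin 4) :
    (g * S * gᵀ) k l =
      S 0 1 * (g k 0 * g l 1 - g k 1 * g l 0) + S 0 2 * (g k 0 * g l 2 - g k 2 * g l 0) +
      S 0 3 * (g k 0 * g l 3 - g k 3 * g l 0) + S 1 2 * (g k 1 * g l 2 - g k 2 * g l 1) +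
      S 1 3 * (g k 1 * g l 3 - g k 3 * g l 1) + S 2 3 * (g k 2 * g l 3 - g k 3 * g l 2) := by
  have hd : ∀ i, S i i = 0 := fun i => by
    have := hS i i
    linear_combination (1 / 2 : ℂ) * this
  simp only [Matrix.mul_apply, Fin.sum_univ_four, Matrix.transpose_apply]
  rw [hS 1 0, hS 2 0, hS 3 0, hS 2 1, hS 3 1, hS 3 2, hd 0, hd 1, hd 2, hd 3]
  ring

theorem norm_conj_le (g : M4) (x : I6 → ℝ) (hx : ∀ p, |x p| ≤ 1) (k l : Fin 4) :
    ‖(g * Sk x * gᵀ) k l‖ ≤ 32 * s2 g := by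
  rw [conj_skew g (Sk x) (Sk_skew x) k l]
  have h1 : ∀ a b i i' j j' : Fin 4,
      ‖Sk x a b * (g i j * g i' j' - g i j' * g i' j)‖ ≤ 2 * s2 g := by
    intro a b i i' j j'
    rw [norm_mul]
    have h2 := norm_Sk_le x hx a b
    have h3 := F0.le_s2 g i i' j j'
    exact mul_le_mul (by linarith) h3 (norm_nonneg _) (by norm_num)
  have h4 := F0.norm_add6_le (h1 0 1 k l 0 1) (h1 0 2 k l 0 2) (h1 0 3 k l 0 3) (h1 1 2 k l 1 2)
    (h1 1 3 k l 1 3) (h1 2 3 k l 2 3)
  linarith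

theorem LR_entry_le (g : M4) (i j : I6) : |LR g i j| ≤ 32 * s2 g := by
  have hx : ∀ p, |(Pi.single j 1 : I6 → ℝ) p| ≤ 1 := by
    intro p
    rw [Pi.single_apply]
    split_ifs <;> simp
  have h1 : ∀ k l : Fin 4, |((g * Sk (Pi.single j 1) * gᵀ) k l).re| ≤ 32 * s2 g := fun k l =>
    (Complex.abs_re_le_norm _).trans (norm_conj_le g _ hx k l)
  have h2 : ∀ k l : Fin 4, |((g * Sk (Pi.single j 1) * gᵀ) k l).im| ≤ 32 * s2 g := fun k l =>
    (Complex.abs_im_le_norm _).trans (norm_conj_le g _ hx k l)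
  rcases i with i | i
  · fin_cases i
    · exact h1 0 2
    · exact h2 0 2
    · exact h1 0 3
    · exact h2 0 3
  · fin_cases i
    · exact h1 0 1
    · exact h2 0 1

theorem rr_le_s2 (g : M4) : rr (LR g) ≤ 64 * s2 g := by
  have h0 := F0.s2_nonneg g
  have h1 : ∀ i j, LR g i j ^ 2 ≤ (32 * s2 g) ^ 2 := fun i j => by
    rw [← sq_abs (LR g i j)]
    exact pow_le_pow_left₀ (abs_nonneg _) (LR_entry_le g i j) 2
  refine max_le ?_ ?_
  · refine Real.sqrt_le_iff.2 ⟨by linarith, ?_⟩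
    nlinarith [h1 (Sum.inr 0) (Sum.inr 0), h1 (Sum.inr 0) (Sum.inr 1)]
  · refine Real.sqrt_le_iff.2 ⟨by linarith, ?_⟩
    nlinarith [h1 (Sum.inr 1) (Sum.inr 0), h1 (Sum.inr 1) (Sum.inr 1)]

theorem s2_le_rr {g : M4} (hg : SI g) : s2 g ≤ 36 * rr (LR g) := by
  have hr := MinorAux.rr_nonneg (LR g)
  refine F0.s2_le_of (by linarith) fun i i' j j' => ?_
  rw [minor_eq hg j j' i i']
  refine (norm_sum_le _ _).trans ?_
  have h1 : ∀ p, ‖zc (el2 j j') p * Sk (LR g *ᵥ Pi.single p 1) i i'‖ ≤ 6 * rr (LR g) := by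
    intro p
    rw [norm_mul]
    have h2 := norm_zc_le j j' p
    have h3 : ‖Sk (LR g *ᵥ Pi.single p 1) i i'‖ ≤ 2 * (3 * rr (LR g)) := by
      refine norm_Sk_le _ (fun q => ?_) i i'
      rw [Matrix.mulVec_single_one]
      exact entry_le (LR g) (LR_J hg).1 q p
    calc ‖zc (el2 j j') p‖ * ‖Sk (LR g *ᵥ Pi.single p 1) i i'‖
        ≤ 1 * (2 * (3 * rr (LR g))) := mul_le_mul h2 h3 (norm_nonneg _) zero_le_one
      _ = 6 * rr (LR g) := by ring
  refine (Finset.sum_le_sum fun p _ => h1 p).trans ?_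
  rw [Finset.sum_const, Finset.card_univ, Fintype.card_sum, Fintype.card_fin, Fintype.card_fin,
    nsmul_eq_mul]
  push_cast
  linarith

theorem lag (a b c d : ℂ) : Complex.normSq (a * d - b * c) =
    (Complex.normSq a + Complex.normSq b) * (Complex.normSq c + Complex.normSq d) -
      Complex.normSq (a * star c + b * star d) := by
  simp only [Complex.normSq_apply, Complex.sub_re, Complex.sub_im, Complex.mul_re, Complex.mul_im,
    Complex.add_re, Complex.add_im, Complex.star_def, Complex.conj_re, Complex.conj_im]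
  ring

theorem det_eq (g : M4) : (LR g).toBlocks₂₂.det =
    Complex.normSq (g 0 0 * g 1 1 - g 0 1 * g 1 0) -
      Complex.normSq (g 0 2 * g 1 3 - g 0 3 * g 1 2) := by
  have h0 : (g * Sk (Pi.single (Sum.inr 0) 1) * gᵀ) 0 1 =
      (g 0 0 * g 1 1 - g 0 1 * g 1 0) + (g 0 2 * g 1 3 - g 0 3 * g 1 2) := by
    rw [conj_skew g _ (Sk_skew _) 0 1]
    simp [Sk, Pi.single_apply]
  have h1 : (g * Sk (Pi.single (Sum.inr 1) 1) * gᵀ) 0 1 =
      Complex.I * ((g 0 0 * g 1 1 - g 0 1 * g 1 0) - (g 0 2 * g 1 3 - g 0 3 * g 1 2)) := by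
    rw [conj_skew g _ (Sk_skew _) 0 1]
    simp [Sk, Pi.single_apply]
    ring
  have e00 : LR g (Sum.inr 0) (Sum.inr 0) =
      ((g 0 0 * g 1 1 - g 0 1 * g 1 0) + (g 0 2 * g 1 3 - g 0 3 * g 1 2)).re := by
    rw [← h0]
    rfl
  have e10 : LR g (Sum.inr 1) (Sum.inr 0) =
      ((g 0 0 * g 1 1 - g 0 1 * g 1 0) + (g 0 2 * g 1 3 - g 0 3 * g 1 2)).im := by
    rw [← h0]
    rfl
  have e01 : LR g (Sum.inr 0) (Sum.inr 1) = (Complex.I *
      ((g 0 0 * g 1 1 - g 0 1 * g 1 0) - (g 0 2 * g 1 3 - g 0 3 * g 1 2))).re := by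
    rw [← h1]
    rfl
  have e11 : LR g (Sum.inr 1) (Sum.inr 1) = (Complex.I *
      ((g 0 0 * g 1 1 - g 0 1 * g 1 0) - (g 0 2 * g 1 3 - g 0 3 * g 1 2))).im := by
    rw [← h1]
    rfl
  rw [Matrix.det_fin_two]
  simp only [Matrix.toBlocks₂₂, Matrix.of_apply]
  rw [e00, e01, e10, e11]
  generalize g 0 0 * g 1 1 - g 0 1 * g 1 0 = α
  generalize g 0 2 * g 1 3 - g 0 3 * g 1 2 = β
  simp only [Complex.normSq_apply, Complex.sub_re, Complex.sub_im, Complex.mul_re, Complex.mul_im,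
    Complex.add_re, Complex.add_im, Complex.I_re, Complex.I_im]
  ring

theorem row_rel {g : M4} (hg : SI g) (i k : Fin 4) :
    g i 0 * star (g k 0) + g i 1 * star (g k 1) - g i 2 * star (g k 2) - g i 3 * star (g k 3) =
      F0.sg k * (1 : M4) i k := by
  obtain ⟨-, -, -, e1, -, -⟩ := iso_inv hg.1
  rw [F0.inv_eq_adj hg.1] at e1
  have h := congrFun (congrFun e1 i) k
  rw [Matrix.mul_apply, Fin.sum_univ_four] at h
  simp only [F0.adj_apply] at h
  rw [← h]
  have hk := F0.sg_sq k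
  have s0 : F0.sg 0 = 1 := rfl
  have s1 : F0.sg 1 = 1 := rfl
  have s2 : F0.sg 2 = -1 := rfl
  have s3 : F0.sg 3 = -1 := rfl
  rw [s0, s1, s2, s3]
  linear_combination (-(g i 0 * star (g k 0) + g i 1 * star (g k 1) - g i 2 * star (g k 2) -
    g i 3 * star (g k 3))) * hk

theorem col_rel {g : M4} (hg : SI g) (j : Fin 4) :
    g 0 j * star (g 0 j) + g 1 j * star (g 1 j) - g 2 j * star (g 2 j) - g 3 j * star (g 3 j) =
      F0.sg j := by
  have e1 := F0.adj_mul_self hg.1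
  have h := congrFun (congrFun e1 j) j
  rw [Matrix.mul_apply, Fin.sum_univ_four, Matrix.one_apply_eq] at h
  simp only [F0.adj_apply] at h
  have hk := F0.sg_sq j
  have s0 : F0.sg 0 = 1 := rfl
  have s1 : F0.sg 1 = 1 := rfl
  have s2 : F0.sg 2 = -1 := rfl
  have s3 : F0.sg 3 = -1 := rfl
  rw [s0, s1, s2, s3] at h
  linear_combination (-(g 0 j * star (g 0 j) + g 1 j * star (g 1 j) - g 2 j * star (g 2 j) -
    g 3 j * star (g 3 j))) * hk + F0.sg j * h

theorem msr (z : ℂ) : z * star z = ((Complex.normSq z : ℝ) : ℂ) := by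
  rw [Complex.star_def, Complex.mul_conj]

end B3

/-- module B3: sizes -/
theorem sizes : ∃ C : ℝ, 1 ≤ C ∧ ∀ g : M4, SI g → rr (LR g) ≤ C * s2 g ∧ s2 g ≤ C * rr (LR g) ∧
    Del (LR g) ≤ C * s1 g ^ 2 ∧ s1 g ^ 2 ≤ C * Del (LR g) := by
  refine ⟨64, by norm_num, fun g hg => ?_⟩
  have hr := MinorAux.rr_nonneg (LR g)
  have hD := MinorAux.Del_nonneg (LR g)
  have r0 := row_rel hg 0 0
  have r1 := row_rel hg 1 1
  have r01 := row_rel hg 0 1
  have c0 := col_rel hg 0
  have c1 := col_rel hg 1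
  have c2 := col_rel hg 2
  have c3 := col_rel hg 3
  rw [Matrix.one_apply_eq, mul_one, msr, msr, msr, msr] at r0 r1
  rw [Matrix.one_apply_ne (by decide), mul_zero] at r01
  rw [msr, msr, msr, msr] at c0 c1 c2 c3
  have q0 : F0.sg 0 = ((1 : ℝ) : ℂ) := by push_cast; rfl
  have q1 : F0.sg 1 = ((1 : ℝ) : ℂ) := by push_cast; rfl
  have q2 : F0.sg 2 = ((-1 : ℝ) : ℂ) := by push_cast; rfl
  have q3 : F0.sg 3 = ((-1 : ℝ) : ℂ) := by push_cast; rfl
  rw [q0] at r0 c0
  rw [q1] at r1 c1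
  rw [q2] at c2
  rw [q3] at c3
  have R0 : Complex.normSq (g 0 0) + Complex.normSq (g 0 1) - Complex.normSq (g 0 2) -
      Complex.normSq (g 0 3) = 1 := by exact_mod_cast r0
  have R1 : Complex.normSq (g 1 0) + Complex.normSq (g 1 1) - Complex.normSq (g 1 2) -
      Complex.normSq (g 1 3) = 1 := by exact_mod_cast r1
  have C0 : Complex.normSq (g 0 0) + Complex.normSq (g 1 0) - Complex.normSq (g 2 0) -
      Complex.normSq (g 3 0) = 1 := by exact_mod_cast c0
  have C1 : Complex.normSq (g 0 1) + Complex.normSq (g 1 1) - Complex.normSq (g 2 1) -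
      Complex.normSq (g 3 1) = 1 := by exact_mod_cast c1
  have C2 : Complex.normSq (g 0 2) + Complex.normSq (g 1 2) - Complex.normSq (g 2 2) -
      Complex.normSq (g 3 2) = -1 := by exact_mod_cast c2
  have C3 : Complex.normSq (g 0 3) + Complex.normSq (g 1 3) - Complex.normSq (g 2 3) -
      Complex.normSq (g 3 3) = -1 := by exact_mod_cast c3
  have nn : ∀ i j, 0 ≤ Complex.normSq (g i j) := fun i j => Complex.normSq_nonneg _
  have X : g 0 0 * star (g 1 0) + g 0 1 * star (g 1 1) =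
      g 0 2 * star (g 1 2) + g 0 3 * star (g 1 3) := by linear_combination r01
  have hdet : (LR g).toBlocks₂₂.det = 1 + Complex.normSq (g 0 2) + Complex.normSq (g 0 3) +
      Complex.normSq (g 1 2) + Complex.normSq (g 1 3) := by
    rw [det_eq, lag, lag, X]
    have a1 : Complex.normSq (g 0 0) + Complex.normSq (g 0 1) =
      1 + Complex.normSq (g 0 2) + Complex.normSq (g 0 3) := by linarith
    have a2 : Complex.normSq (g 1 0) + Complex.normSq (g 1 1) =
      1 + Complex.normSq (g 1 2) + Complex.normSq (g 1 3) := by linarith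
    rw [a1, a2]
    ring
  have hDel : Del (LR g) = 1 + Complex.normSq (g 0 2) + Complex.normSq (g 0 3) +
      Complex.normSq (g 1 2) + Complex.normSq (g 1 3) := by
    unfold Del
    rw [hdet, abs_of_nonneg]
    have := nn 0 2
    have := nn 0 3
    have := nn 1 2
    have := nn 1 3
    linarith
  have hs : ∀ i j, Complex.normSq (g i j) ≤ s1 g ^ 2 := fun i j => by
    rw [← Complex.sq_norm]
    exact pow_le_pow_left₀ (norm_nonneg _) (F0.le_s1 g i j) 2
  have hhalf := (iso_inv hg.1).2.2.2.2.2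
  refine ⟨rr_le_s2 g, ?_, ?_, ?_⟩
  · have := s2_le_rr hg
    linarith
  · rw [hDel]
    nlinarith [hs 0 2, hs 0 3, hs 1 2, hs 1 3]
  · obtain ⟨i, j, hij⟩ := F0.exists_max2 g
    rw [← hij, Complex.sq_norm]
    have hle : Complex.normSq (g i j) ≤ Del (LR g) := by
      rw [hDel]
      fin_cases i <;> fin_cases j <;> simp only [Fin.zero_eta, Fin.mk_one, Fin.reduceFinMk] <;>
        linarith [nn 0 0, nn 0 1, nn 0 2, nn 0 3, nn 1 0, nn 1 1, nn 1 2, nn 1 3,
          nn 2 0, nn 2 1, nn 2 2, nn 2 3, nn 3 0, nn 3 1, nn 3 2, nn 3 3]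
    linarith

/-- module B3 -/
theorem exists_R {Γ : Type} [Group Γ] (ρ : Γ →* Matrix I6 I6 ℝ)
    (hJ : ∀ g, (ρ g)ᵀ * J (Fin 4) * ρ g = J (Fin 4))
    (hd : ∀ g, (ρ g).det = 1 ∧ 0 < (ρ g).toBlocks₂₂.det) : ∃ R : Γ → M4, R 1 = 1 ∧
      (∀ g, SI (R g)) ∧ (∀ g, LR (R g) = ρ g) ∧
      ∀ g h, R (g * h) = R g * R h ∨ R (g * h) = -(R g * R h) := by
  classical
  choose R hR hL using fun g => exists_lift (ρ g) (hJ g) (hd g).1 (hd g).2
  refine ⟨fun g => if g = 1 then 1 else R g, if_pos rfl, fun g => ?_, fun g => ?_, ?_⟩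
  · by_cases hg : g = 1
    · simp only [if_pos hg]
      exact SI_one
    · simp only [if_neg hg]
      exact hR g
  · by_cases hg : g = 1
    · simp only [if_pos hg]
      rw [LR_one, hg, map_one]
    · simp only [if_neg hg]
      exact hL g
  · have a1 : ∀ g, SI (if g = 1 then 1 else R g) := by
      intro g
      by_cases hg : g = 1
      · rw [if_pos hg]
        exact SI_one
      · rw [if_neg hg]
        exact hR g
    have a2 : ∀ g, LR (if g = 1 then 1 else R g) = ρ g := by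
      intro g
      by_cases hg : g = 1
      · rw [if_pos hg, LR_one, hg, map_one]
      · rw [if_neg hg]
        exact hL g
    intro g h
    refine lift_unique (SI_mul (a1 g) (a1 h)) (a1 (g * h)) ?_
    rw [LR_mul (a1 g) (a1 h), a2, a2, a2, map_mul]

end Pool.Agent.MPd01a95.KT
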