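import Mathlib
import Pool.Agent.Lib.MP_d01a95_gt_K.KB0
import Pool.Agent.Lib.MP_d01a95_gt.Minor

set_option autoImplicit false
set_option linter.all false

open Matrix Filter Topology MeasureTheory
open scoped ContDiff

namespace Pool.Agent.MPd01a95.KT

open GU

variable {G : Type} [Group G]

namespace KB4Aux

open MinorAux

/-- finitely many coset representatives -/
theorem reps {Γ : Type} [Group Γ] (H : Subgroup Γ) [H.FiniteIndex] :
    ∃ T : Finset Γ, ∀ g : Γ, ∃ t ∈ T, ∃ η ∈ H, g = t * η := by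
  haveI : Finite (Γ ⧸ H) := H.finite_quotient_of_finiteIndex
  have hf : (Set.range (fun q : Γ ⧸ H => q.out)).Finite := Set.finite_range _
  refine ⟨hf.toFinset, fun g => ?_⟩
  obtain ⟨η, hη⟩ := QuotientGroup.mk_out_eq_mul H g
  refine ⟨(g : Γ ⧸ H).out, ?_, (η : Γ)⁻¹, H.inv_mem η.2, ?_⟩
  · rw [Set.Finite.mem_toFinset]
    exact ⟨(g : Γ ⧸ H), rfl⟩
  · rw [hη]; group

/-- a sign character has a kernel of finite index -/
theorem sgn_hom {Γ : Type} [Group Γ] (u : Γ → ℝ) (hu : ∀ g, u g ≠ 0)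
    (hm : ∀ g h, 0 < u (g * h) * (u g * u h)) :
    ∃ f : Γ →* ℤˣ, ∀ g, f g = 1 → 0 < u g := by
  classical
  have key : ∀ g h, (0 < u (g * h)) ↔ (0 < u g ↔ 0 < u h) := by
    intro g h
    have h1 := hm g h
    rcases lt_or_gt_of_ne (hu g) with a | a <;> rcases lt_or_gt_of_ne (hu h) with b | b
    · have : 0 < u g * u h := mul_pos_of_neg_of_neg a b
      have h2 : 0 < u (g * h) := by
        by_contra h3
        have := mul_nonpos_of_nonpos_of_nonneg (not_lt.mp h3) this.le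
        linarith
      exact ⟨fun _ => ⟨fun h => absurd h a.le.not_gt, fun h => absurd h b.le.not_gt⟩, fun _ => h2⟩
    · have : u g * u h < 0 := mul_neg_of_neg_of_pos a b
      have h2 : ¬ 0 < u (g * h) := by
        intro h3
        have := mul_neg_of_pos_of_neg h3 this
        linarith
      exact ⟨fun h => absurd h h2, fun h => absurd (h.2 b) a.le.not_gt⟩
    · have : u g * u h < 0 := mul_neg_of_pos_of_neg a b
      have h2 : ¬ 0 < u (g * h) := by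
        intro h3
        have := mul_neg_of_pos_of_neg h3 this
        linarith
      exact ⟨fun h => absurd h h2, fun h => absurd (h.1 a) b.le.not_gt⟩
    · have : 0 < u g * u h := mul_pos a b
      have h2 : 0 < u (g * h) := by
        by_contra h3
        have := mul_nonpos_of_nonpos_of_nonneg (not_lt.mp h3) this.le
        linarith
      exact ⟨fun _ => ⟨fun _ => b, fun _ => a⟩, fun _ => h2⟩
  refine ⟨MonoidHom.mk' (fun g => if 0 < u g then 1 else -1) ?_, ?_⟩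
  · intro g h
    by_cases a : 0 < u g <;> by_cases b : 0 < u h
    · have : 0 < u (g * h) := (key g h).2 ⟨fun _ => b, fun _ => a⟩
      simp [a, b, this]
    · have : ¬ 0 < u (g * h) := fun c => b (((key g h).1 c).1 a)
      simp [a, b, this]
    · have : ¬ 0 < u (g * h) := fun c => a (((key g h).1 c).2 b)
      simp [a, b, this]
    · have : 0 < u (g * h) := (key g h).2 ⟨fun c => absurd c a, fun c => absurd c b⟩
      simp [a, b, this]
  · intro g hg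
    by_contra a
    simp only [MonoidHom.mk'_apply, a, if_false] at hg
    exact absurd hg (by decide)

theorem form_pos (ε a b c d : ℝ)
    (hq : ∀ y z : ℝ, (y ≠ 0 ∨ z ≠ 0) → 0 < ε * (a * y ^ 2 + (b + c) * (y * z) + d * z ^ 2)) :
    0 < a * d - b * c := by
  have h1 := hq 1 0 (Or.inl one_ne_zero)
  have h1' : 0 < ε * a := by nlinarith
  have ha : a ≠ 0 := by
    rintro rfl
    simp at h1'
  have h2 := hq (-(b + c)) (2 * a) (Or.inr (mul_ne_zero two_ne_zero ha))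
  have h3 : ε * (a * (-(b + c)) ^ 2 + (b + c) * (-(b + c) * (2 * a)) + d * (2 * a) ^ 2) =
      (ε * a) * (4 * (a * d) - (b + c) ^ 2) := by ring
  rw [h3] at h2
  have h4 : 0 < 4 * (a * d) - (b + c) ^ 2 := by
    by_contra h5
    have := mul_nonpos_of_nonneg_of_nonpos h1'.le (not_lt.mp h5)
    linarith
  nlinarith [sq_nonneg (b - c)]

/-- the determinant of the negative block is multiplicative up to a positive factor -/
theorem sgn22 {ι : Type} [Fintype ι] [DecidableEq ι] (h h' : Matrix (ι ⊕ Fin 2) (ι ⊕ Fin 2) ℝ)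
    (hh : hᵀ * J ι * h = J ι) (hh' : h'ᵀ * J ι * h' = J ι) :
    0 < (h * h').toBlocks₂₂.det * (h.toBlocks₂₂.det * h'.toBlocks₂₂.det) := by
  have hD := (rr_le_Del h hh).1
  have hD' := (rr_le_Del h' hh').1
  have r00 := row hh (Sum.inr 0) (Sum.inr 0)
  have r11 := row hh (Sum.inr 1) (Sum.inr 1)
  have r01 := row hh (Sum.inr 0) (Sum.inr 1)
  have q00 := col hh' (Sum.inr 0) (Sum.inr 0)
  have q11 := col hh' (Sum.inr 1) (Sum.inr 1)
  have q01 := col hh' (Sum.inr 0) (Sum.inr 1)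
  rw [J_inr] at r00 r11 r01 q00 q11 q01
  simp only [if_true] at r00 r11 q00 q11
  rw [if_neg (by decide)] at r01 q01
  have e : ∀ p q : Fin 2, (h * h') (Sum.inr p) (Sum.inr q) =
      ∑ i, h (Sum.inr p) (Sum.inl i) * h' (Sum.inl i) (Sum.inr q) +
      (h (Sum.inr p) (Sum.inr 0) * h' (Sum.inr 0) (Sum.inr q) +
        h (Sum.inr p) (Sum.inr 1) * h' (Sum.inr 1) (Sum.inr q)) := by
    intro p q
    rw [Matrix.mul_apply, sumsplit]
  unfold Del at hD hD'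
  rw [Matrix.det_fin_two] at hD hD'
  rw [Matrix.det_fin_two, Matrix.det_fin_two, Matrix.det_fin_two]
  simp only [Matrix.toBlocks₂₂, Matrix.of_apply] at hD hD' ⊢
  have CS : ∀ u0 u1 v0 v1 : ℝ,
      (∑ i, (h (Sum.inr 0) (Sum.inl i) * u0 + h (Sum.inr 1) (Sum.inl i) * u1) *
        (h' (Sum.inl i) (Sum.inr 0) * v0 + h' (Sum.inl i) (Sum.inr 1) * v1)) ^ 2 ≤
      (∑ i, (h (Sum.inr 0) (Sum.inl i) * u0 + h (Sum.inr 1) (Sum.inl i) * u1) ^ 2) *
      (∑ i, (h' (Sum.inl i) (Sum.inr 0) * v0 + h' (Sum.inl i) (Sum.inr 1) * v1) ^ 2) := by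
    intro u0 u1 v0 v1
    exact Finset.sum_mul_sq_le_sq_mul_sq _ _ _
  have E1 : ∀ u0 u1 : ℝ,
      ∑ i, (h (Sum.inr 0) (Sum.inl i) * u0 + h (Sum.inr 1) (Sum.inl i) * u1) ^ 2 =
      (∑ i, h (Sum.inr 0) (Sum.inl i) * h (Sum.inr 0) (Sum.inl i)) * u0 ^ 2 +
      2 * (∑ i, h (Sum.inr 0) (Sum.inl i) * h (Sum.inr 1) (Sum.inl i)) * (u0 * u1) +
      (∑ i, h (Sum.inr 1) (Sum.inl i) * h (Sum.inr 1) (Sum.inl i)) * u1 ^ 2 := by
    intro u0 u1
    rw [Finset.mul_sum, Finset.sum_mul, Finset.sum_mul, Finset.sum_mul, ← Finset.sum_add_distrib,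
      ← Finset.sum_add_distrib]
    exact Finset.sum_congr rfl fun i _ => by ring
  have E2 : ∀ v0 v1 : ℝ,
      ∑ i, (h' (Sum.inl i) (Sum.inr 0) * v0 + h' (Sum.inl i) (Sum.inr 1) * v1) ^ 2 =
      (∑ i, h' (Sum.inl i) (Sum.inr 0) * h' (Sum.inl i) (Sum.inr 0)) * v0 ^ 2 +
      2 * (∑ i, h' (Sum.inl i) (Sum.inr 0) * h' (Sum.inl i) (Sum.inr 1)) * (v0 * v1) +
      (∑ i, h' (Sum.inl i) (Sum.inr 1) * h' (Sum.inl i) (Sum.inr 1)) * v1 ^ 2 := by
    intro v0 v1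
    rw [Finset.mul_sum, Finset.sum_mul, Finset.sum_mul, Finset.sum_mul, ← Finset.sum_add_distrib,
      ← Finset.sum_add_distrib]
    exact Finset.sum_congr rfl fun i _ => by ring
  have E3 : ∀ u0 u1 v0 v1 : ℝ,
      ∑ i, (h (Sum.inr 0) (Sum.inl i) * u0 + h (Sum.inr 1) (Sum.inl i) * u1) *
        (h' (Sum.inl i) (Sum.inr 0) * v0 + h' (Sum.inl i) (Sum.inr 1) * v1) =
      (∑ i, h (Sum.inr 0) (Sum.inl i) * h' (Sum.inl i) (Sum.inr 0)) * (u0 * v0) +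
      (∑ i, h (Sum.inr 0) (Sum.inl i) * h' (Sum.inl i) (Sum.inr 1)) * (u0 * v1) +
      (∑ i, h (Sum.inr 1) (Sum.inl i) * h' (Sum.inl i) (Sum.inr 0)) * (u1 * v0) +
      (∑ i, h (Sum.inr 1) (Sum.inl i) * h' (Sum.inl i) (Sum.inr 1)) * (u1 * v1) := by
    intro u0 u1 v0 v1
    rw [Finset.sum_mul, Finset.sum_mul, Finset.sum_mul, Finset.sum_mul, ← Finset.sum_add_distrib,
      ← Finset.sum_add_distrib, ← Finset.sum_add_distrib]
    exact Finset.sum_congr rfl fun i _ => by ring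
  rw [e 0 0, e 0 1, e 1 0, e 1 1]
  have A00 : ∑ i, h (Sum.inr 0) (Sum.inl i) * h (Sum.inr 0) (Sum.inl i) =
      h (Sum.inr 0) (Sum.inr 0) ^ 2 + h (Sum.inr 0) (Sum.inr 1) ^ 2 - 1 := by linarith
  have A11 : ∑ i, h (Sum.inr 1) (Sum.inl i) * h (Sum.inr 1) (Sum.inl i) =
      h (Sum.inr 1) (Sum.inr 0) ^ 2 + h (Sum.inr 1) (Sum.inr 1) ^ 2 - 1 := by linarith
  have A01 : ∑ i, h (Sum.inr 0) (Sum.inl i) * h (Sum.inr 1) (Sum.inl i) =
      h (Sum.inr 0) (Sum.inr 0) * h (Sum.inr 1) (Sum.inr 0) +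
        h (Sum.inr 0) (Sum.inr 1) * h (Sum.inr 1) (Sum.inr 1) := by linarith
  have B00 : ∑ i, h' (Sum.inl i) (Sum.inr 0) * h' (Sum.inl i) (Sum.inr 0) =
      h' (Sum.inr 0) (Sum.inr 0) ^ 2 + h' (Sum.inr 1) (Sum.inr 0) ^ 2 - 1 := by linarith
  have B11 : ∑ i, h' (Sum.inl i) (Sum.inr 1) * h' (Sum.inl i) (Sum.inr 1) =
      h' (Sum.inr 0) (Sum.inr 1) ^ 2 + h' (Sum.inr 1) (Sum.inr 1) ^ 2 - 1 := by linarith
  have B01 : ∑ i, h' (Sum.inl i) (Sum.inr 0) * h' (Sum.inl i) (Sum.inr 1) =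
      h' (Sum.inr 0) (Sum.inr 0) * h' (Sum.inr 0) (Sum.inr 1) +
        h' (Sum.inr 1) (Sum.inr 0) * h' (Sum.inr 1) (Sum.inr 1) := by linarith
  have NN : ∀ u0 u1 : ℝ, 0 ≤
      ∑ i, (h (Sum.inr 0) (Sum.inl i) * u0 + h (Sum.inr 1) (Sum.inl i) * u1) ^ 2 :=
    fun u0 u1 => Finset.sum_nonneg fun i _ => sq_nonneg _
  simp only [E1, E2, E3, A00, A11, A01, B00, B11, B01] at CS
  simp only [E1, A00, A11, A01] at NN
  generalize (∑ i, h (Sum.inr 0) (Sum.inl i) * h' (Sum.inl i) (Sum.inr 0)) = w00 at CS ⊢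
  generalize (∑ i, h (Sum.inr 0) (Sum.inl i) * h' (Sum.inl i) (Sum.inr 1)) = w01 at CS ⊢
  generalize (∑ i, h (Sum.inr 1) (Sum.inl i) * h' (Sum.inl i) (Sum.inr 0)) = w10 at CS ⊢
  generalize (∑ i, h (Sum.inr 1) (Sum.inl i) * h' (Sum.inl i) (Sum.inr 1)) = w11 at CS ⊢
  clear r00 r11 r01 q00 q11 q01 A00 A11 A01 B00 B11 B01 E1 E2 E3 e
  generalize h (Sum.inr 0) (Sum.inr 0) = s00 at CS NN hD ⊢
  generalize h (Sum.inr 0) (Sum.inr 1) = s01 at CS NN hD ⊢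
  generalize h (Sum.inr 1) (Sum.inr 0) = s10 at CS NN hD ⊢
  generalize h (Sum.inr 1) (Sum.inr 1) = s11 at CS NN hD ⊢
  generalize h' (Sum.inr 0) (Sum.inr 0) = t00 at CS hD' ⊢
  generalize h' (Sum.inr 0) (Sum.inr 1) = t01 at CS hD' ⊢
  generalize h' (Sum.inr 1) (Sum.inr 0) = t10 at CS hD' ⊢
  generalize h' (Sum.inr 1) (Sum.inr 1) = t11 at CS hD' ⊢
  clear hh hh'
  -- the main quadratic form
  obtain ⟨D, hDe⟩ : ∃ D, D = s00 * s11 - s01 * s10 := ⟨_, rfl⟩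
  obtain ⟨D', hDe'⟩ : ∃ D', D' = t00 * t11 - t01 * t10 := ⟨_, rfl⟩
  obtain ⟨m00, hm00⟩ : ∃ m, m = w00 + (s00 * t00 + s01 * t10) := ⟨_, rfl⟩
  obtain ⟨m01, hm01⟩ : ∃ m, m = w01 + (s00 * t01 + s01 * t11) := ⟨_, rfl⟩
  obtain ⟨m10, hm10⟩ : ∃ m, m = w10 + (s10 * t00 + s11 * t10) := ⟨_, rfl⟩
  obtain ⟨m11, hm11⟩ : ∃ m, m = w11 + (s10 * t01 + s11 * t11) := ⟨_, rfl⟩
  rw [← hDe, ← hDe', ← hm00, ← hm01, ← hm10, ← hm11]
  rw [← hDe] at hD
  rw [← hDe'] at hD'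
  have hDD : 1 ≤ D ^ 2 := by
    have : 1 ≤ |D| ^ 2 := by nlinarith
    rwa [sq_abs] at this
  have hDD' : 1 ≤ D' ^ 2 := by
    have : 1 ≤ |D'| ^ 2 := by nlinarith
    rwa [sq_abs] at this
  have hD0 : D ≠ 0 := by rintro rfl; norm_num at hDD
  have hD0' : D' ≠ 0 := by rintro rfl; norm_num at hDD'
  have key := form_pos (D * D')
    ((s11 * m00 - s01 * m10) * t11 - (s11 * m01 - s01 * m11) * t10)
    ((s11 * m00 - s01 * m10) * (-t01) + (s11 * m01 - s01 * m11) * t00)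
    ((-s10 * m00 + s00 * m10) * t11 - (-s10 * m01 + s00 * m11) * t10)
    ((-s10 * m00 + s00 * m10) * (-t01) + (-s10 * m01 + s00 * m11) * t00) ?_
  · have e : ((s11 * m00 - s01 * m10) * t11 - (s11 * m01 - s01 * m11) * t10) *
        ((-s10 * m00 + s00 * m10) * (-t01) + (-s10 * m01 + s00 * m11) * t00) -
        ((s11 * m00 - s01 * m10) * (-t01) + (s11 * m01 - s01 * m11) * t00) *
        ((-s10 * m00 + s00 * m10) * t11 - (-s10 * m01 + s00 * m11) * t10) =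
        (m00 * m11 - m01 * m10) * ((s00 * s11 - s01 * s10) * (t00 * t11 - t01 * t10)) := by ring
    rw [e, ← hDe, ← hDe'] at key
    exact key
  · intro y z hyz
    obtain ⟨u0, hu0⟩ : ∃ u, u = s11 * y - s10 * z := ⟨_, rfl⟩
    obtain ⟨u1, hu1⟩ : ∃ u, u = -s01 * y + s00 * z := ⟨_, rfl⟩
    obtain ⟨v0, hv0⟩ : ∃ v, v = t11 * y - t01 * z := ⟨_, rfl⟩
    obtain ⟨v1, hv1⟩ : ∃ v, v = -t10 * y + t00 * z := ⟨_, rfl⟩
    obtain ⟨X, hX⟩ : ∃ X, X = w00 * (u0 * v0) + w01 * (u0 * v1) + w10 * (u1 * v0) +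
      w11 * (u1 * v1) := ⟨_, rfl⟩
    obtain ⟨n, hn⟩ : ∃ n, n = y ^ 2 + z ^ 2 := ⟨_, rfl⟩
    have hn0 : 0 < n := by
      rw [hn]
      rcases hyz with h1 | h1
      · have := sq_pos_of_ne_zero h1 (R := ℝ)
        have h2 := sq_nonneg z
        linarith
      · have := sq_pos_of_ne_zero h1 (R := ℝ)
        have h2 := sq_nonneg y
        linarith
    have hform : D * D' * (((s11 * m00 - s01 * m10) * t11 - (s11 * m01 - s01 * m11) * t10) * y ^ 2 +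
        ((s11 * m00 - s01 * m10) * (-t01) + (s11 * m01 - s01 * m11) * t00 +
          ((-s10 * m00 + s00 * m10) * t11 - (-s10 * m01 + s00 * m11) * t10)) * (y * z) +
        ((-s10 * m00 + s00 * m10) * (-t01) + (-s10 * m01 + s00 * m11) * t00) * z ^ 2) =
        D * D' * (D * D' * n + X) := by
      rw [hX, hu0, hu1, hv0, hv1, hn, hDe, hDe', hm00, hm01, hm10, hm11]
      ring
    rw [hform]
    have c1 := CS u0 u1 v0 v1
    rw [← hX] at c1
    have a1 : (s00 ^ 2 + s01 ^ 2 - 1) * u0 ^ 2 + 2 * (s00 * s10 + s01 * s11) * (u0 * u1) +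
        (s10 ^ 2 + s11 ^ 2 - 1) * u1 ^ 2 = D ^ 2 * n - (u0 ^ 2 + u1 ^ 2) := by
      rw [hu0, hu1, hn, hDe]; ring
    have a2 : (t00 ^ 2 + t10 ^ 2 - 1) * v0 ^ 2 + 2 * (t00 * t01 + t10 * t11) * (v0 * v1) +
        (t01 ^ 2 + t11 ^ 2 - 1) * v1 ^ 2 = D' ^ 2 * n - (v0 ^ 2 + v1 ^ 2) := by
      rw [hv0, hv1, hn, hDe']; ring
    rw [a1, a2] at c1
    have b1 : 0 < u0 ^ 2 + u1 ^ 2 := by
      have k1 : s00 * u0 + s10 * u1 = D * y := by rw [hu0, hu1, hDe]; ring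
      have k2 : s01 * u0 + s11 * u1 = D * z := by rw [hu0, hu1, hDe]; ring
      by_contra h3
      have h4 : u0 = 0 := by nlinarith [sq_nonneg u0, sq_nonneg u1]
      have h5 : u1 = 0 := by nlinarith [sq_nonneg u0, sq_nonneg u1]
      rw [h4, h5] at k1 k2
      rcases hyz with h6 | h6
      · exact mul_ne_zero hD0 h6 (by linarith)
      · exact mul_ne_zero hD0 h6 (by linarith)
    have b2 : 0 < v0 ^ 2 + v1 ^ 2 := by
      have k1 : t00 * v0 + t01 * v1 = D' * y := by rw [hv0, hv1, hDe']; ring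
      have k2 : t10 * v0 + t11 * v1 = D' * z := by rw [hv0, hv1, hDe']; ring
      by_contra h3
      have h4 : v0 = 0 := by nlinarith [sq_nonneg v0, sq_nonneg v1]
      have h5 : v1 = 0 := by nlinarith [sq_nonneg v0, sq_nonneg v1]
      rw [h4, h5] at k1 k2
      rcases hyz with h6 | h6
      · exact mul_ne_zero hD0' h6 (by linarith)
      · exact mul_ne_zero hD0' h6 (by linarith)
    have p1 : 0 < D ^ 2 * n := by positivity
    have p2 : 0 < D' ^ 2 * n := by positivity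
    have c2 : X ^ 2 < (D * D' * n) ^ 2 := by
      have e1 : (D * D' * n) ^ 2 = (D ^ 2 * n) * (D' ^ 2 * n) := by ring
      rw [e1]
      refine lt_of_le_of_lt c1 ?_
      by_cases h7 : 0 ≤ D ^ 2 * n - (u0 ^ 2 + u1 ^ 2)
      · calc (D ^ 2 * n - (u0 ^ 2 + u1 ^ 2)) * (D' ^ 2 * n - (v0 ^ 2 + v1 ^ 2))
            ≤ (D ^ 2 * n - (u0 ^ 2 + u1 ^ 2)) * (D' ^ 2 * n) :=
              mul_le_mul_of_nonneg_left (by linarith) h7
          _ < (D ^ 2 * n) * (D' ^ 2 * n) := mul_lt_mul_of_pos_right (by linarith) p2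
      · exfalso
        have g1 : 0 ≤ (s00 ^ 2 + s01 ^ 2 - 1) * u0 ^ 2 + 2 * (s00 * s10 + s01 * s11) * (u0 * u1) +
          (s10 ^ 2 + s11 ^ 2 - 1) * u1 ^ 2 := by
          exact NN u0 u1
        rw [a1] at g1
        exact h7 g1
    have c4 : |X| < |D * D' * n| := sq_lt_sq.mp c2
    have e2 : |D * D' * n| = |D * D'| * n := by rw [abs_mul, abs_of_pos hn0]
    have c5 : D * D' * (D * D' * n + X) = (D * D') ^ 2 * n + D * D' * X := by ring
    rw [c5]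
    have c6 : -(|D * D'| * |X|) ≤ D * D' * X := by
      rw [← abs_mul]; exact neg_abs_le _
    have c7 : |D * D'| * |X| < |D * D'| * (|D * D'| * n) := by
      refine mul_lt_mul_of_pos_left (by rw [← e2]; exact c4) ?_
      exact abs_pos.mpr (mul_ne_zero hD0 hD0')
    have c8 : |D * D'| * (|D * D'| * n) = (D * D') ^ 2 * n := by
      rw [← mul_assoc, abs_mul_abs_self]; ring
    linarith

theorem det_sq {ι : Type} [Fintype ι] [DecidableEq ι] (h : Matrix (ι ⊕ Fin 2) (ι ⊕ Fin 2) ℝ)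
    (hh : hᵀ * J ι * h = J ι) : h.det ^ 2 = 1 := by
  have hJ : J ι * J ι = 1 := by
    unfold J
    rw [Matrix.fromBlocks_multiply]
    simp
  have h1 : (J ι).det * (J ι).det = 1 := by rw [← Matrix.det_mul, hJ, Matrix.det_one]
  have h2 := congrArg Matrix.det hh
  rw [Matrix.det_mul, Matrix.det_mul, Matrix.det_transpose] at h2
  have h3 : (J ι).det ≠ 0 := by
    intro h4
    rw [h4] at h1
    norm_num at h1
  have h4 : (h.det ^ 2 - 1) * (J ι).det = 0 := by linear_combination h2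
  rcases mul_eq_zero.mp h4 with h5 | h5
  · linarith
  · exact absurd h5 h3

theorem rr_mul_sq {ι : Type} [Fintype ι] [DecidableEq ι] (h h' : Matrix (ι ⊕ Fin 2) (ι ⊕ Fin 2) ℝ)
    (hh : hᵀ * J ι * h = J ι) (hh' : h'ᵀ * J ι * h' = J ι) :
    rr (h * h') ^ 2 ≤ (2 * (9 * ((Fintype.card ι : ℝ) + 2)) ^ 2) * (rr h ^ 2 * rr h' ^ 2) := by
  have r1 := (rr_le_Del h hh).2.1
  have r2 := (rr_le_Del h' hh').2.1
  have key : ∀ p q : Fin 2, (h * h') (Sum.inr p) (Sum.inr q) ^ 2 ≤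
      ((9 * ((Fintype.card ι : ℝ) + 2)) * (rr h * rr h')) ^ 2 := by
    intro p q
    rw [Matrix.mul_apply, ← sq_abs]
    refine pow_le_pow_left₀ (abs_nonneg _) ?_ 2
    calc |∑ k, h (Sum.inr p) k * h' k (Sum.inr q)|
        ≤ ∑ k, |h (Sum.inr p) k * h' k (Sum.inr q)| := Finset.abs_sum_le_sum_abs _ _
      _ ≤ ∑ k : ι ⊕ Fin 2, (3 * rr h) * (3 * rr h') := by
          refine Finset.sum_le_sum fun k _ => ?_
          rw [abs_mul]
          exact mul_le_mul (entry_le h hh _ _) (entry_le h' hh' _ _) (abs_nonneg _) (by linarith)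
      _ = (9 * ((Fintype.card ι : ℝ) + 2)) * (rr h * rr h') := by
          rw [Finset.sum_const, Finset.card_univ, Fintype.card_sum, Fintype.card_fin]
          simp only [nsmul_eq_mul]
          push_cast
          ring
  have e : (2 * (9 * ((Fintype.card ι : ℝ) + 2)) ^ 2) * (rr h ^ 2 * rr h' ^ 2) =
      2 * ((9 * ((Fintype.card ι : ℝ) + 2)) * (rr h * rr h')) ^ 2 := by ring
  rw [e]
  rcases rr_sq (h * h') with h1 | h1
  · rw [h1]
    have := key 0 0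
    have := key 0 1
    linarith
  · rw [h1]
    have := key 1 0
    have := key 1 1
    linarith

end KB4Aux

open KB4Aux

/-- module B4: restriction to a subgroup of finite index -/
theorem lat_sub {Γ : Type} [Group Γ] {σ : Γ →* GU (Fin 2)} (hL : Lat σ) (H : Subgroup Γ)
    [H.FiniteIndex] : Lat (σ.comp H.subtype) := by
  obtain ⟨U, hU, hU1, hU2⟩ := hL.disc
  refine ⟨⟨U, hU, hU1, fun g hg => Subtype.ext (hU2 g hg)⟩, ?_⟩
  obtain ⟨R, hR⟩ := hL.coc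
  obtain ⟨T, hT⟩ := reps H
  refine ⟨2 * (∑ t ∈ T, c (σ t)) * R, fun h => ?_⟩
  obtain ⟨g, hg⟩ := hR h
  obtain ⟨t, ht, η, hη, rfl⟩ := hT g
  refine ⟨⟨η, hη⟩, ?_⟩
  have e : (σ.comp H.subtype) ⟨η, hη⟩ * h = (σ t)⁻¹ * (σ (t * η) * h) := by
    rw [map_mul]
    simp only [MonoidHom.comp_apply, Subgroup.coe_subtype]
    group
  rw [e]
  have h1 := c_mul (σ t)⁻¹ (σ (t * η) * h)
  rw [c_inv] at h1
  refine h1.trans ?_
  have h2 : c (σ t) ≤ ∑ t ∈ T, c (σ t) :=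
    Finset.single_le_sum (f := fun t => c (σ t))
      (fun t _ => (zero_le_one.trans (c_ge_one (σ t)))) ht
  have h3 := c_ge_one (σ t)
  have h4 := c_ge_one (σ (t * η) * h)
  exact mul_le_mul (by linarith) hg (by linarith) (by linarith)

/-- module B4: the subgroup mapped to the identity component -/
theorem exists_sub {Γ : Type} [Group Γ] (ρ : Γ →* Matrix I6 I6 ℝ)
    (hJ : ∀ g, (ρ g)ᵀ * J (Fin 4) * ρ g = J (Fin 4)) : ∃ H : Subgroup Γ, H.FiniteIndex ∧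
      ∀ h ∈ H, (ρ h).det = 1 ∧ 0 < (ρ h).toBlocks₂₂.det := by
  have d0 : ∀ g, (ρ g).det ≠ 0 := by
    intro g h0
    have := det_sq (ρ g) (hJ g)
    rw [h0] at this
    norm_num at this
  have b0 : ∀ g, (ρ g).toBlocks₂₂.det ≠ 0 := by
    intro g h0
    have := (rr_le_Del (ρ g) (hJ g)).1
    unfold Del at this
    rw [h0] at this
    norm_num at this
  obtain ⟨f1, hf1⟩ := sgn_hom (fun g => (ρ g).det) d0 (by
    intro g h
    simp only [map_mul, Matrix.det_mul]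
    have h1 := mul_ne_zero (d0 g) (d0 h)
    exact mul_self_pos.mpr h1)
  obtain ⟨f2, hf2⟩ := sgn_hom (fun g => (ρ g).toBlocks₂₂.det) b0 (by
    intro g h
    simp only [map_mul]
    exact sgn22 (ρ g) (ρ h) (hJ g) (hJ h))
  refine ⟨(f1.prod f2).ker, inferInstance, fun h hh => ?_⟩
  rw [MonoidHom.mem_ker, MonoidHom.prod_apply, Prod.mk_eq_one] at hh
  have h1 := hf1 h hh.1
  have h2 := hf2 h hh.2
  refine ⟨?_, h2⟩
  have h3 := det_sq (ρ h) (hJ h)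
  nlinarith

/-- module B4: a subgroup of finite index still has unbounded middle blocks -/
theorem unb_sub {Γ : Type} [Group Γ] (ρ : Γ →* Matrix I6 I6 ℝ)
    (hJ : ∀ g, (ρ g)ᵀ * J (Fin 4) * ρ g = J (Fin 4))
    (h : ∀ C : ℝ, ∃ g, C * Del (ρ g) < rr (ρ g) ^ 2) (H : Subgroup Γ) [H.FiniteIndex] :
    ∀ C : ℝ, ∃ g ∈ H, C * Del (ρ g) < rr (ρ g) ^ 2 := by
  intro C
  obtain ⟨T, hT⟩ := reps H
  obtain ⟨K1, hK1⟩ : ∃ K : ℝ, K = 2 * (9 * ((Fintype.card (Fin 4) : ℝ) + 2)) ^ 2 := ⟨_, rfl⟩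
  obtain ⟨K2, hK2⟩ : ∃ K : ℝ, K = 25 * ((Fintype.card (Fin 4) : ℝ) + 2) ^ 2 := ⟨_, rfl⟩
  have hK1p : 0 < K1 := by rw [hK1]; positivity
  have hK2p : 0 < K2 := by rw [hK2]; positivity
  obtain ⟨S1, hS1⟩ : ∃ S : ℝ, S = ∑ t ∈ T, Del (ρ t⁻¹) := ⟨_, rfl⟩
  obtain ⟨S2, hS2⟩ : ∃ S : ℝ, S = ∑ t ∈ T, rr (ρ t) ^ 2 := ⟨_, rfl⟩
  obtain ⟨g, hg⟩ := h ((|C| * (K2 * S1)) * (K1 * S2))
  obtain ⟨t, ht, η, hη, rfl⟩ := hT g
  refine ⟨η, hη, ?_⟩
  have s1 : Del (ρ t⁻¹) ≤ S1 := by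
    rw [hS1]
    exact Finset.single_le_sum (f := fun t => Del (ρ t⁻¹)) (fun t _ => MinorAux.Del_nonneg _) ht
  have s2 : rr (ρ t) ^ 2 ≤ S2 := by
    rw [hS2]
    exact Finset.single_le_sum (f := fun t => rr (ρ t) ^ 2) (fun t _ => sq_nonneg _) ht
  have r1 := rr_mul_sq (ρ t) (ρ η) (hJ t) (hJ η)
  rw [← map_mul, ← hK1] at r1
  have r2 := Del_mul (ρ t⁻¹) (ρ (t * η)) (hJ t⁻¹) (hJ (t * η))
  rw [← map_mul, inv_mul_cancel_left, ← hK2] at r2
  have t1 := (rr_le_Del (ρ t) (hJ t)).2.1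
  have t2 := (rr_le_Del (ρ η) (hJ η)).2.1
  have t3 := (rr_le_Del (ρ (t * η)) (hJ (t * η))).1
  have t4 := (rr_le_Del (ρ t⁻¹) (hJ t⁻¹)).1
  have hS2p : 0 < K1 * S2 := by
    refine mul_pos hK1p (lt_of_lt_of_le ?_ s2)
    positivity
  have u1 : rr (ρ (t * η)) ^ 2 ≤ (K1 * S2) * rr (ρ η) ^ 2 := by
    refine r1.trans ?_
    rw [← mul_assoc]
    refine mul_le_mul_of_nonneg_right ?_ (sq_nonneg _)
    exact mul_le_mul_of_nonneg_left s2 hK1p.le
  have u2 : Del (ρ η) ≤ (K2 * S1) * Del (ρ (t * η)) := by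
    refine r2.trans ?_
    refine mul_le_mul_of_nonneg_right ?_ (by linarith)
    exact mul_le_mul_of_nonneg_left s1 hK2p.le
  have u3 : (|C| * (K2 * S1) * Del (ρ (t * η))) * (K1 * S2) < rr (ρ η) ^ 2 * (K1 * S2) := by
    nlinarith
  have u4 : |C| * (K2 * S1) * Del (ρ (t * η)) < rr (ρ η) ^ 2 := lt_of_mul_lt_mul_right u3 hS2p.le
  have u5 : C * Del (ρ η) ≤ |C| * Del (ρ η) :=
    mul_le_mul_of_nonneg_right (le_abs_self C) (MinorAux.Del_nonneg _)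
  have u6 : |C| * Del (ρ η) ≤ |C| * ((K2 * S1) * Del (ρ (t * η))) :=
    mul_le_mul_of_nonneg_left u2 (abs_nonneg _)
  nlinarith

end Pool.Agent.MPd01a95.KT
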