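import Mathlib
import Pool.Agent.Lib.MP_d01a95_gt_K.KB1
import Pool.Agent.Lib.MP_d01a95_gt.Irr

set_option autoImplicit false
set_option linter.all false

open Matrix Filter Topology MeasureTheory
open scoped ContDiff

namespace Pool.Agent.MPd01a95.KT

open GU

variable {G : Type} [Group G]

namespace KB5A

open KB1A

/-- the projection to the line of `N` -/
noncomputable def Pr (N : V4) : M4 := Matrix.vecMulVec ((hf N N)⁻¹ • N) (J4 *ᵥ star N)

theorem Pr_mulVec (N v : V4) : Pr N *ᵥ v = ((hf N N)⁻¹ * hf v N) • N := by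
  have e : (J4 *ᵥ star N) ⬝ᵥ v = hf v N := by
    simp [hf, CW.hh, J4, dotProduct, Fin.sum_univ_four, Matrix.mulVec_diagonal]
    ring
  rw [Pr, Matrix.vecMulVec_mulVec, e]
  ext i
  simp
  ring

theorem hf_sub (v w N : V4) (s t : ℂ) : hf (v - s • N) (w - t • N) =
    hf v w - star t * hf v N - s * hf N w + s * star t * hf N N := by
  simp [hf, CW.hh]
  ring

theorem hf_smul (v w : V4) (s t : ℂ) : hf (s • v) (t • w) = s * star t * hf v w := by
  simp [hf, CW.hh]
  ring

theorem hf_star (v w : V4) : star (hf v w) = hf w v := by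
  simp [hf, CW.hh]
  ring

/-- the eighth root of unity -/
noncomputable def z8 : ℂ := ((Real.sqrt 2 / 2 : ℝ) : ℂ) * (1 + Complex.I)

theorem z8_sq : z8 * z8 = Complex.I := by
  have h : (((Real.sqrt 2 / 2 : ℝ) : ℂ)) * ((Real.sqrt 2 / 2 : ℝ) : ℂ) = 1 / 2 := by
    rw [← Complex.ofReal_mul]
    have : Real.sqrt 2 / 2 * (Real.sqrt 2 / 2) = 1 / 2 := by
      have := Real.mul_self_sqrt (show (0 : ℝ) ≤ 2 by norm_num)
      linarith
    rw [this]
    push_cast
    rfl
  have h2 := Complex.I_mul_I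
  unfold z8
  linear_combination (1 + Complex.I) ^ 2 * h + h2 / 2

theorem z8_norm : z8 * star z8 = 1 := by
  have h : (((Real.sqrt 2 / 2 : ℝ) : ℂ)) * ((Real.sqrt 2 / 2 : ℝ) : ℂ) = 1 / 2 := by
    rw [← Complex.ofReal_mul]
    have : Real.sqrt 2 / 2 * (Real.sqrt 2 / 2) = 1 / 2 := by
      have := Real.mul_self_sqrt (show (0 : ℝ) ≤ 2 by norm_num)
      linarith
    rw [this]
    push_cast
    rfl
  have h2 := Complex.I_mul_I
  have e : star z8 = ((Real.sqrt 2 / 2 : ℝ) : ℂ) * (1 - Complex.I) := by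
    unfold z8
    rw [star_mul', star_add, star_one, Complex.star_def, Complex.conj_ofReal,
      Complex.conj_I]
    ring
  rw [e]
  unfold z8
  linear_combination (1 + Complex.I) * (1 - Complex.I) * h - h2 / 2

/-- the special isometry -/
noncomputable def U (N : V4) : M4 := z8 • (1 - (2 : ℂ) • Pr N)

theorem U_mulVec (N v : V4) : U N *ᵥ v = z8 • (v - (2 * ((hf N N)⁻¹ * hf v N)) • N) := by
  rw [U, Matrix.smul_mulVec, Matrix.sub_mulVec, Matrix.one_mulVec, Matrix.smul_mulVec, Pr_mulVec,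
    smul_smul]

theorem U_iso {N : V4} (hN : hf N N ≠ 0) : Iso4 (U N) := by
  intro v w
  have hs : star (hf N N) = hf N N := hf_star N N
  rw [U_mulVec, U_mulVec, hf_smul, z8_norm, one_mul, hf_sub]
  have h1 : star (2 * ((hf N N)⁻¹ * hf w N)) = 2 * ((hf N N)⁻¹ * hf N w) := by
    rw [star_mul', star_mul', star_inv₀, hs, hf_star]
    congr 1
    simp
  rw [h1]
  field_simp
  ring

theorem U_sq {N : V4} (hN : hf N N ≠ 0) : U N * U N = Complex.I • 1 := by
  have e : ∀ v, (U N * U N) *ᵥ v = (Complex.I • (1 : M4)) *ᵥ v := by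
    intro v
    rw [← Matrix.mulVec_mulVec, U_mulVec, U_mulVec]
    have h1 : hf (z8 • (v - (2 * ((hf N N)⁻¹ * hf v N)) • N)) N = -(z8 * hf v N) := by
      have := hf_smul (v - (2 * ((hf N N)⁻¹ * hf v N)) • N) N z8 1
      rw [one_smul, star_one, mul_one] at this
      rw [this]
      have h2 := hf_sub v N N (2 * ((hf N N)⁻¹ * hf v N)) 0
      rw [zero_smul, sub_zero, star_zero] at h2
      rw [h2]
      field_simp
      ring
    rw [h1, Matrix.smul_mulVec, Matrix.one_mulVec, ← z8_sq]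
    ext i
    simp only [Pi.smul_apply, Pi.sub_apply, smul_eq_mul]
    ring
  ext i j
  have := congrFun (e (Pi.single j 1)) i
  rwa [Matrix.mulVec_single_one, Matrix.mulVec_single_one] at this

theorem U_det {N : V4} (hN : hf N N ≠ 0) : (U N).det = 1 := by
  have h1 : (1 - (2 : ℂ) • Pr N).det = -1 := by
    have h2 : (1 : M4) - (2 : ℂ) • Pr N =
        1 + Matrix.replicateCol Unit ((-(2 : ℂ) * (hf N N)⁻¹) • N) *
          Matrix.replicateRow Unit (J4 *ᵥ star N) := by
      ext i j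
      simp [Pr, Matrix.vecMulVec_apply, Matrix.mul_apply]
      ring
    rw [h2, Matrix.det_one_add_replicateCol_mul_replicateRow]
    have e : (J4 *ᵥ star N) ⬝ᵥ ((-(2 : ℂ) * (hf N N)⁻¹) • N) = -2 := by
      have e1 : (J4 *ᵥ star N) ⬝ᵥ N = hf N N := by
        simp [hf, CW.hh, J4, dotProduct, Fin.sum_univ_four, Matrix.mulVec_diagonal]
        ring
      rw [dotProduct_smul, e1, smul_eq_mul, mul_assoc, inv_mul_cancel₀ hN, mul_one]
    rw [e]
    norm_num
  rw [U, Matrix.det_smul, h1, Fintype.card_fin]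
  have h2 : z8 ^ 4 = -1 := by
    calc z8 ^ 4 = (z8 * z8) * (z8 * z8) := by ring
      _ = -1 := by rw [z8_sq, Complex.I_mul_I]
  rw [h2]
  norm_num

theorem U_SI {N : V4} (hN : hf N N ≠ 0) : SI (U N) := ⟨U_iso hN, U_det hN⟩

theorem LR_I : LR (Complex.I • (1 : M4)) = -1 := by
  apply mulVec_ext
  intro x
  rw [LR_mulVec]
  have e : (Complex.I • (1 : M4)) * Sk x * (Complex.I • (1 : M4))ᵀ = ((-1 : ℝ) : ℂ) • Sk x := by
    rw [Matrix.transpose_smul, Matrix.transpose_one, Matrix.smul_mul, Matrix.one_mul,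
      Matrix.mul_smul, Matrix.mul_one, smul_smul, Complex.I_mul_I]
    norm_num
  rw [e, co_smul, Matrix.neg_mulVec, Matrix.one_mulVec]
  have e2 : co (Sk x) = x := by
    apply Sk_inj
    exact Sk_co (Rl_Sk x)
  rw [e2]
  simp

theorem U_comm {N : V4} (hN : hf N N ≠ 0) {g : M4} (hg : Iso4 g) {l : ℂ} (hl : g *ᵥ N = l • N) :
    g * U N = U N * g := by
  have hl1 : l * star l = 1 := by
    have h1 := hg N N
    rw [hl, hf_smul] at h1
    exact mul_right_cancel₀ hN (by rw [h1, one_mul])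
  have e : ∀ v, (g * U N) *ᵥ v = (U N * g) *ᵥ v := by
    intro v
    have h2 : hf (g *ᵥ v) N = l * hf v N := by
      have h3 : l • (star l • N) = N := by rw [smul_smul, hl1, one_smul]
      have h4 : N = star l • (g *ᵥ N) := by rw [hl, smul_smul, mul_comm, hl1, one_smul]
      have h5 := hg v N
      calc hf (g *ᵥ v) N = hf (g *ᵥ v) (star l • (g *ᵥ N)) := by rw [← h4]
        _ = l * hf (g *ᵥ v) (g *ᵥ N) := by
          have := hf_smul (g *ᵥ v) (g *ᵥ N) 1 (star l)
          rw [one_smul, star_star, one_mul] at this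
          exact this
        _ = l * hf v N := by rw [h5]
    rw [← Matrix.mulVec_mulVec, ← Matrix.mulVec_mulVec, U_mulVec, U_mulVec, h2, Matrix.mulVec_smul,
      Matrix.mulVec_sub, Matrix.mulVec_smul, hl, smul_smul]
    congr 2
    ring_nf
  ext i j
  have := congrFun (e (Pi.single j 1)) i
  rwa [Matrix.mulVec_single_one, Matrix.mulVec_single_one] at this

end KB5A

open KB1A KB5A

/-- module B5: an invariant definite line contradicts Zariski density -/
theorem zd_contra {Γ : Type} [Group Γ] (ρ : Γ →* Matrix I6 I6 ℝ)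
    (hJ : ∀ g, (ρ g)ᵀ * J (Fin 4) * ρ g = J (Fin 4)) (hz : ZDense ρ) (H : Subgroup Γ)
    [H.FiniteIndex] (R : H → M4) (hR : ∀ h, SI (R h) ∧ LR (R h) = ρ h) (N : V4)
    (hN : hf N N ≠ 0) (hinv : ∀ h, ∃ l : ℂ, R h *ᵥ N = l • N) : False := by
  have hJJ : J (Fin 4) * J (Fin 4) = 1 := by
    unfold J
    rw [Matrix.fromBlocks_multiply]
    simp
  have hJt : (J (Fin 4))ᵀ = J (Fin 4) := by
    unfold J
    rw [Matrix.fromBlocks_transpose]
    simp
  obtain ⟨M, hM⟩ : ∃ M : Matrix I6 I6 ℝ, M = LR (U N) := ⟨_, rfl⟩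
  have hMJ : Mᵀ * J (Fin 4) * M = J (Fin 4) := by
    rw [hM]
    exact (LR_J (U_SI hN)).1
  have hM2 : M * M = -1 := by
    rw [hM, ← LR_mul (U_SI hN) (U_SI hN), U_sq hN, LR_I]
  obtain ⟨S, hS⟩ : ∃ S : Matrix I6 I6 ℝ, S = M * J (Fin 4) - J (Fin 4) * Mᵀ := ⟨_, rfl⟩
  have hSt : Sᵀ = -S := by
    rw [hS, transpose_sub, transpose_mul, transpose_mul, transpose_transpose, hJt]
    abel
  have hS0 : S ≠ 0 := by
    intro h0
    have h1 : M * J (Fin 4) = J (Fin 4) * Mᵀ := by
      rw [hS] at h0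
      exact sub_eq_zero.1 h0
    have h2 : M * M = 1 := by
      calc M * M = M * (J (Fin 4) * J (Fin 4)) * M := by rw [hJJ, Matrix.mul_one]
        _ = (M * J (Fin 4)) * J (Fin 4) * M := by simp only [Matrix.mul_assoc]
        _ = J (Fin 4) * (Mᵀ * J (Fin 4) * M) := by rw [h1]; simp only [Matrix.mul_assoc]
        _ = 1 := by rw [hMJ, hJJ]
    rw [hM2] at h2
    have := congrFun (congrFun h2 (Sum.inl 0)) (Sum.inl 0)
    simp at this
    norm_num at this
  have hcomm : ∀ h : H, ρ h * M = M * ρ h := by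
    intro h
    obtain ⟨l, hl⟩ := hinv h
    rw [← (hR h).2, hM, ← LR_mul (hR h).1 (U_SI hN), ← LR_mul (U_SI hN) (hR h).1,
      U_comm hN (hR h).1.1 hl]
  have hJ' : ∀ g, ρ g * J (Fin 4) * (ρ g)ᵀ = J (Fin 4) := by
    intro g
    have h1 : (J (Fin 4) * (ρ g)ᵀ * J (Fin 4)) * ρ g = 1 := by
      rw [Matrix.mul_assoc (J (Fin 4)), Matrix.mul_assoc, hJ, hJJ]
    have h2 := mul_eq_one_comm.1 h1
    calc ρ g * J (Fin 4) * (ρ g)ᵀ = ρ g * J (Fin 4) * (ρ g)ᵀ * (J (Fin 4) * J (Fin 4)) := by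
          rw [hJJ, Matrix.mul_one]
      _ = ρ g * (J (Fin 4) * (ρ g)ᵀ * J (Fin 4)) * J (Fin 4) := by simp only [Matrix.mul_assoc]
      _ = J (Fin 4) := by rw [h2, Matrix.one_mul]
  have hfix : ∀ h : H, ρ h * S * (ρ h)ᵀ = S := by
    intro h
    have c1 := hcomm h
    have c2 : Mᵀ * (ρ h)ᵀ = (ρ h)ᵀ * Mᵀ := by
      rw [← transpose_mul, ← transpose_mul, c1]
    calc ρ h * S * (ρ h)ᵀ = (ρ h * M) * J (Fin 4) * (ρ h)ᵀ - ρ h * J (Fin 4) * (Mᵀ * (ρ h)ᵀ) := by
          rw [hS, Matrix.mul_sub, Matrix.sub_mul]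
          simp only [Matrix.mul_assoc]
      _ = M * (ρ h * J (Fin 4) * (ρ h)ᵀ) - (ρ h * J (Fin 4) * (ρ h)ᵀ) * Mᵀ := by
          rw [c1, c2]
          simp only [Matrix.mul_assoc]
      _ = S := by rw [hJ', hS]
  have key := irr (ι := Fin 4) (by simp) ρ hz H inferInstance (Submodule.span ℝ {S}) (by
      intro T hT
      obtain ⟨r, rfl⟩ := Submodule.mem_span_singleton.1 hT
      rw [transpose_smul, hSt, smul_neg]) ⟨S, Submodule.mem_span_singleton_self S, hS0⟩ (by
      intro g hg T hT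
      obtain ⟨r, rfl⟩ := Submodule.mem_span_singleton.1 hT
      rw [Matrix.mul_smul, Matrix.smul_mul]
      have := hfix ⟨g, hg⟩
      simp only at this
      rw [this]
      exact Submodule.smul_mem _ _ (Submodule.mem_span_singleton_self S))
  have k1 := key (Matrix.single (Sum.inl 0) (Sum.inl 1) 1 - Matrix.single (Sum.inl 1) (Sum.inl 0) 1) (by
    rw [transpose_sub, Matrix.transpose_single, Matrix.transpose_single]
    abel)
  have k2 := key (Matrix.single (Sum.inl 0) (Sum.inl 2) 1 - Matrix.single (Sum.inl 2) (Sum.inl 0) 1) (by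
    rw [transpose_sub, Matrix.transpose_single, Matrix.transpose_single]
    abel)
  obtain ⟨r, hr⟩ := Submodule.mem_span_singleton.1 k1
  obtain ⟨t, ht⟩ := Submodule.mem_span_singleton.1 k2
  have r1 := congrFun (congrFun hr (Sum.inl 0)) (Sum.inl 1)
  have r2 := congrFun (congrFun hr (Sum.inl 0)) (Sum.inl 2)
  have t1 := congrFun (congrFun ht (Sum.inl 0)) (Sum.inl 1)
  have t2 := congrFun (congrFun ht (Sum.inl 0)) (Sum.inl 2)
  simp [Matrix.single_apply] at r1 r2 t1 t2
  rcases r2 with h | h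
  · rw [h, zero_mul] at r1
    exact zero_ne_one r1
  · rw [h, mul_zero] at t2
    exact zero_ne_one t2

end Pool.Agent.MPd01a95.KT
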