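import Mathlib
import Pool.Agent.Lib.MP_d01a95_gt_K.KDefs2
import Pool.Agent.Lib.MP_d01a95_gt_P.E0
import Pool.Agent.Lib.MP_d01a95_gt.Low

set_option autoImplicit false
set_option linter.all false

open Matrix Filter Topology MeasureTheory
open scoped ContDiff

namespace Pool.Agent.MPd01a95.KT

open GU

variable {G : Type} [Group G]

namespace C0

theorem nv_sq (g : GU (Fin 2)) : (1 - ‖HypAux.nv g.M‖ ^ 2) * c g ^ 2 = 1 := by
  have h1 := c_ge_one g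
  have h2 := HypAux.col_n g.M g.pres
  have h3 : ‖HypAux.nv g.M‖ ^ 2 =
      (∑ k : Fin 2, ‖g.M (Sum.inl k) (Sum.inr ())‖ ^ 2) / c g ^ 2 := by
    rw [EuclideanSpace.norm_sq_eq, Finset.sum_div]
    refine Finset.sum_congr rfl fun k _ => ?_
    simp only [HypAux.nv, norm_div, div_pow]
    rfl
  rw [h3, h2]
  have h4 : c g ≠ 0 := by positivity
  unfold c at h4 ⊢
  field_simp
  ring

theorem nv_lt (g : GU (Fin 2)) : ‖HypAux.nv g.M‖ < 1 := by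
  have h1 := nv_sq g
  have h2 := c_ge_one g
  by_contra h
  push Not at h
  have h3 : 1 - ‖HypAux.nv g.M‖ ^ 2 ≤ 0 := by nlinarith
  nlinarith [mul_nonneg (neg_nonneg.2 h3) (sq_nonneg (c g))]

theorem near_iff (C : ℝ) (g h : GU (Fin 2)) :
    E0.Near C (HypAux.nv g.M) (HypAux.nv h.M) ↔ c (g⁻¹ * h) ^ 2 ≤ C := by
  have h1 : c (g⁻¹ * h) = c g * c h * ‖1 - inner ℂ (HypAux.nv g.M) (HypAux.nv h.M)‖ := by
    exact (HypAux.cc_pair (GU.Mhom (κ := Fin 2)) (fun g => g.pres) g h).trans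
      (HypAux.pair_eq g.M h.M (GU.pres g) (GU.pres h))
  have hg := nv_sq g
  have hh := nv_sq h
  have hg1 := c_ge_one g
  have hh1 := c_ge_one h
  have hp : 0 < c g ^ 2 * c h ^ 2 := by positivity
  unfold E0.Near
  rw [h1, ← mul_le_mul_iff_right₀ hp]
  have e1 : c g ^ 2 * c h ^ 2 * ‖1 - inner ℂ (HypAux.nv g.M) (HypAux.nv h.M)‖ ^ 2 =
      (c g * c h * ‖1 - inner ℂ (HypAux.nv g.M) (HypAux.nv h.M)‖) ^ 2 := by ring
  have e2 : c g ^ 2 * c h ^ 2 * (C * ((1 - ‖HypAux.nv g.M‖ ^ 2) * (1 - ‖HypAux.nv h.M‖ ^ 2))) =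
      C * (((1 - ‖HypAux.nv g.M‖ ^ 2) * c g ^ 2) * ((1 - ‖HypAux.nv h.M‖ ^ 2) * c h ^ 2)) := by ring
  rw [e1, e2, hg, hh]
  simp

theorem exists_pt (z : EuclideanSpace ℂ (Fin 2)) (hz : ‖z‖ < 1) :
    ∃ h : GU (Fin 2), HypAux.nv h.M = z := by
  have hz2 : 0 < 1 - ‖z‖ ^ 2 := by nlinarith [norm_nonneg z]
  obtain ⟨s, hs⟩ : ∃ s, s = Real.sqrt (1 - ‖z‖ ^ 2) := ⟨_, rfl⟩
  have hs0 : 0 < s := by rw [hs]; exact Real.sqrt_pos.2 hz2
  have hs2 : s ^ 2 = 1 - ‖z‖ ^ 2 := by rw [hs]; exact Real.sq_sqrt hz2.le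
  obtain ⟨w, hw⟩ : ∃ w : Fin 2 ⊕ Unit → ℂ,
      w = fun i => Sum.elim (fun j => z j / (s : ℂ)) (fun _ => 1 / (s : ℂ)) i := ⟨_, rfl⟩
  have hn : LowAux.nqC w = 1 := by
    unfold LowAux.nqC
    rw [hw]
    simp only [Sum.elim_inl, Sum.elim_inr, norm_div, norm_one, Complex.norm_real,
      Real.norm_of_nonneg hs0.le, div_pow]
    rw [← Finset.sum_div, ← EuclideanSpace.norm_sq_eq, hs2]
    field_simp
  obtain ⟨h, hh, hh2⟩ := LowAux.exists_iso w hn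
  refine ⟨⟨h, hh⟩, ?_⟩
  have hsC : (s : ℂ) ≠ 0 := by exact_mod_cast hs0.ne'
  have h3 : ∀ i, h i (Sum.inr ()) = w i := by
    intro i
    rw [← hh2]
    simp [Matrix.mulVec, dotProduct, Fintype.sum_sum_type, LowAux.ee]
  ext k
  show h (Sum.inl k) (Sum.inr ()) / h (Sum.inr ()) (Sum.inr ()) = z k
  rw [h3, h3, hw]
  simp only [Sum.elim_inl, Sum.elim_inr]
  field_simp

end C0

/-- module C (squad): a lattice acting properly acts cocompactly -/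
theorem cocpt {σ : G →* GU (Fin 2)} (hL : Lat σ) (ρ : G →* Matrix I6 I6 ℝ)
    (hJ : ∀ g, (ρ g)ᵀ * J (Fin 4) * ρ g = J (Fin 4))
    (hd : ∀ g, (ρ g).det = 1 ∧ 0 < (ρ g).toBlocks₂₂.det) (hp : PropAdS ρ) :
    ∃ K : Set (I6 → ℝ), IsCompact K ∧ (∀ x ∈ K, nq x = 1) ∧
      ∀ x, nq x = 1 → ∃ g, ∃ y ∈ K, ρ g *ᵥ y = x := by
  obtain ⟨R, hR⟩ := hL.coc
  have hR0 : 0 ≤ R := by
    obtain ⟨g, hg⟩ := hR 1
    have := c_ge_one (σ g * 1)
    linarith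
  have key := E0.cocompact_abs ρ hJ hp (fun g => HypAux.nv (σ g).M) (fun g => C0.nv_lt _)
    ?_ ?_ (R ^ 2 + 1) (by positivity) ?_ ?_
  · obtain ⟨M, hM⟩ := key
    refine ⟨PropAAux.Kc (Fin 4) (Real.sqrt M), PropAAux.isCompact_Kc _, fun x hx => hx.1, ?_⟩
    intro x hx
    obtain ⟨g, hg⟩ := hM x hx
    refine ⟨g⁻¹, ρ g *ᵥ x, ⟨?_, fun i => ?_⟩, ?_⟩
    · rw [PropAAux.nq_mulVec _ (hJ g), hx]
    · exact (E0.abs_le_sq _ i).trans (Real.sqrt_le_sqrt hg)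
    · rw [Matrix.mulVec_mulVec, ← map_mul, inv_mul_cancel, map_one, Matrix.one_mulVec]
  · intro C
    refine (hL.finite_c (Real.sqrt C)).subset ?_
    rintro h ⟨g, hg⟩
    have h1 := (C0.near_iff C (σ g) (σ (g * h))).1 hg
    have h2 : (σ g)⁻¹ * σ (g * h) = σ h := by rw [map_mul, inv_mul_cancel_left]
    rw [h2] at h1
    exact Real.le_sqrt_of_sq_le h1
  · intro h
    refine ⟨c (σ h) ^ 2, fun g => ?_⟩
    refine (C0.near_iff _ (σ g) (σ (g * h))).2 ?_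
    have h2 : (σ g)⁻¹ * σ (g * h) = σ h := by rw [map_mul, inv_mul_cancel_left]
    rw [h2]
  · intro z hz
    obtain ⟨h, rfl⟩ := C0.exists_pt z hz
    obtain ⟨g, hg⟩ := hR h
    refine ⟨g⁻¹, ?_⟩
    have h1 : (σ g⁻¹)⁻¹ * h = σ g * h := by rw [map_inv, inv_inv]
    refine (C0.near_iff _ (σ g⁻¹) h).2 ?_
    rw [h1]
    have h2 := c_ge_one (σ g * h)
    nlinarith
  · simp [finrank_euclideanSpace]

end Pool.Agent.MPd01a95.KT
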