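import Mathlib
import Pool.Agent.Lib.MP_d01a95_gt_K.KDefs2

set_option autoImplicit false
set_option linter.all false

open Matrix Filter Topology MeasureTheory
open scoped ContDiff

namespace Pool.Agent.MPd01a95.KT

open GU

variable {G : Type} [Group G]

/-- square root of the inverse, cut off -/
private noncomputable def D1_k (l : ℝ) : ℝ := max (Real.exp (-2)) (min (Real.exp 2) l)

private theorem D1_kpos (l : ℝ) : 0 < D1_k l := lt_of_lt_of_le (Real.exp_pos _) (le_max_left _ _)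

private theorem D1_kge (l : ℝ) : Real.exp (-2) ≤ D1_k l := le_max_left _ _

private theorem D1_kmul {l m : ℝ} (hl : 0 < l) (h : l * m = 1) : D1_k l * D1_k m = 1 := by
  have hm : m = l⁻¹ := by
    field_simp
    linarith
  have hee : Real.exp (-2) * Real.exp 2 = 1 := by rw [← Real.exp_add]; norm_num
  have hlt : Real.exp (-2) ≤ Real.exp 2 := Real.exp_le_exp.2 (by norm_num)
  have hp := Real.exp_pos 2
  have hp' := Real.exp_pos (-2)
  have hinv : (Real.exp 2)⁻¹ = Real.exp (-2) := by rw [← Real.exp_neg]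
  have hinv' : (Real.exp (-2))⁻¹ = Real.exp 2 := by rw [← Real.exp_neg, neg_neg]
  unfold D1_k
  rcases le_total (Real.exp 2) l with h1 | h1
  · have h2 : m ≤ Real.exp (-2) := by
      rw [hm, ← hinv]
      exact inv_anti₀ hp h1
    rw [min_eq_left h1, max_eq_right hlt, min_eq_right (h2.trans hlt), max_eq_left h2, mul_comm]
    exact hee
  · rcases le_total l (Real.exp (-2)) with h3 | h3
    · have h2 : Real.exp 2 ≤ m := by
        rw [hm, ← hinv']
        exact inv_anti₀ hl h3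
      rw [min_eq_right h1, max_eq_left h3, min_eq_left h2, max_eq_right hlt]
      exact hee
    · have h4 : m ≤ Real.exp 2 := by
        rw [hm, ← hinv']
        exact inv_anti₀ hp' h3
      have h5 : Real.exp (-2) ≤ m := by
        rw [hm, ← hinv]
        exact inv_anti₀ hl h1
      rw [min_eq_right h1, max_eq_right h3, min_eq_right h4, max_eq_right h5]
      exact h

private noncomputable def D1_f (l : ℝ) : ℝ := (Real.sqrt (D1_k l))⁻¹

private theorem D1_fmul {l m : ℝ} (hl : 0 < l) (h : l * m = 1) : D1_f l * D1_f m = 1 := by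
  unfold D1_f
  rw [← mul_inv, ← Real.sqrt_mul (D1_kpos l).le, D1_kmul hl h, Real.sqrt_one, inv_one]

private theorem D1_f0 (l : ℝ) : 0 ≤ D1_f l := inv_nonneg.2 (Real.sqrt_nonneg _)

private theorem D1_fsq (l : ℝ) : D1_f l ^ 2 = (D1_k l)⁻¹ := by
  unfold D1_f
  rw [inv_pow, Real.sq_sqrt (D1_kpos l).le]

private theorem D1_fle (l : ℝ) : D1_f l ≤ Real.exp 1 := by
  have h1 : D1_f l ^ 2 ≤ Real.exp 1 ^ 2 := by
    rw [D1_fsq, ← Real.exp_nat_mul]
    have h2 : Real.exp ((2 : ℕ) * 1) = (Real.exp (-2))⁻¹ := by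
      rw [← Real.exp_neg]
      norm_num
    rw [h2]
    exact inv_anti₀ (Real.exp_pos _) (D1_kge l)
  exact le_of_sq_le_sq h1 (Real.exp_pos _).le

private theorem D1_key {l : ℝ} (hl : 0 < l) : l * D1_f l ^ 2 ≤ Real.exp (-2) * l + 1 := by
  rw [D1_fsq, ← div_eq_mul_inv, div_le_iff₀ (D1_kpos l)]
  have hp' := Real.exp_pos (-2)
  have hee : Real.exp (-2) * Real.exp 2 = 1 := by rw [← Real.exp_add]; norm_num
  have hlt : Real.exp (-2) ≤ Real.exp 2 := Real.exp_le_exp.2 (by norm_num)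
  have hk := D1_kpos l
  rcases le_total (Real.exp 2) l with h1 | h1
  · have h2 : D1_k l = Real.exp 2 := by
      unfold D1_k
      rw [min_eq_left h1, max_eq_right hlt]
    rw [h2]
    have h3 : (Real.exp (-2) * l + 1) * Real.exp 2 = l + Real.exp 2 := by
      calc (Real.exp (-2) * l + 1) * Real.exp 2 =
          (Real.exp (-2) * Real.exp 2) * l + Real.exp 2 := by ring
        _ = l + Real.exp 2 := by rw [hee, one_mul]
    rw [h3]
    linarith [Real.exp_pos 2]
  · have h2 : l ≤ D1_k l := by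
      unfold D1_k
      rw [min_eq_right h1]
      exact le_max_right _ _
    nlinarith [mul_pos hp' hl]

private theorem D1_JJ : J (Fin 4) * J (Fin 4) = 1 := by
  unfold J
  rw [fromBlocks_multiply]
  simp

private theorem D1_JT : (J (Fin 4))ᵀ = J (Fin 4) := by
  unfold J
  rw [fromBlocks_transpose]
  simp

private theorem D1_spec {S : Matrix I6 I6 ℝ} (hS : S.PosDef) : ∃ (U : Matrix I6 I6 ℝ)
    (l : I6 → ℝ), U * Uᵀ = 1 ∧ Uᵀ * U = 1 ∧ (∀ i, 0 < l i) ∧ S = U * diagonal l * Uᵀ := by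
  have hH := hS.1
  refine ⟨(hH.eigenvectorUnitary : Matrix I6 I6 ℝ), hH.eigenvalues, ?_, ?_,
    fun i => hS.eigenvalues_pos i, ?_⟩
  · have h1 := Matrix.mem_unitaryGroup_iff.1 hH.eigenvectorUnitary.2
    rw [star_eq_conjTranspose, conjTranspose_eq_transpose_of_trivial] at h1
    exact h1
  · have h1 := Matrix.mem_unitaryGroup_iff'.1 hH.eigenvectorUnitary.2
    rw [star_eq_conjTranspose, conjTranspose_eq_transpose_of_trivial] at h1
    exact h1
  · have h1 := hH.spectral_theorem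
    rw [Unitary.conjStarAlgAut_apply] at h1
    rw [star_eq_conjTranspose, conjTranspose_eq_transpose_of_trivial] at h1
    exact h1

private theorem D1_quad (A : Matrix I6 I6 ℝ) (y : I6 → ℝ) :
    ∑ i, (A *ᵥ y) i ^ 2 = y ⬝ᵥ ((Aᵀ * A) *ᵥ y) := by
  have h1 : ∑ i, (A *ᵥ y) i ^ 2 = (A *ᵥ y) ⬝ᵥ (A *ᵥ y) := by
    unfold dotProduct
    exact Finset.sum_congr rfl fun i _ => by ring
  rw [h1, ← mulVec_mulVec, Matrix.dotProduct_mulVec, Matrix.dotProduct_mulVec,
    Matrix.vecMul_transpose, ← Matrix.dotProduct_mulVec]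

private theorem D1_diag {U : Matrix I6 I6 ℝ} (l : I6 → ℝ) (y : I6 → ℝ) :
    y ⬝ᵥ ((U * diagonal l * Uᵀ) *ᵥ y) = ∑ i, l i * (Uᵀ *ᵥ y) i ^ 2 := by
  have h1 : (U * diagonal l * Uᵀ) *ᵥ y = U *ᵥ (diagonal l *ᵥ (Uᵀ *ᵥ y)) := by
    rw [mulVec_mulVec, mulVec_mulVec, Matrix.mul_assoc]
  have h2 : y ᵥ* U = Uᵀ *ᵥ y := (Matrix.mulVec_transpose U y).symm
  rw [h1, Matrix.dotProduct_mulVec, h2]
  unfold dotProduct
  refine Finset.sum_congr rfl fun i _ => ?_
  rw [mulVec_diagonal]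
  ring

/-- module D1: one step -/
theorem one_step (r : ℝ) : ∃ C : ℝ, 1 ≤ C ∧ ∀ h : Matrix I6 I6 ℝ, hᵀ * J (Fin 4) * h = J (Fin 4) →
    ∃ b : Matrix I6 I6 ℝ, bᵀ * J (Fin 4) * b = J (Fin 4) ∧ (∀ i j, |b i j| ≤ C) ∧
      ∀ y : I6 → ℝ, nq y = 1 → (∀ i, |y i| ≤ r) → C ≤ ∑ i, (h *ᵥ y) i ^ 2 →
        ∑ i, (h *ᵥ (b *ᵥ y)) i ^ 2 ≤ Real.exp (-1) * ∑ i, (h *ᵥ y) i ^ 2 := by
  have hgap : 0 < Real.exp (-1) - Real.exp (-2) := by
    have := Real.exp_lt_exp.2 (show (-2 : ℝ) < -1 by norm_num)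
    linarith
  refine ⟨max 1 (max (6 * Real.exp 1) (6 * r ^ 2 / (Real.exp (-1) - Real.exp (-2)))),
    le_max_left _ _, fun h hh => ?_⟩
  have hinv : (J (Fin 4) * hᵀ * J (Fin 4)) * h = 1 := by
    rw [Matrix.mul_assoc, Matrix.mul_assoc, ← Matrix.mul_assoc hᵀ, hh, D1_JJ]
  have hinv' : h * (J (Fin 4) * hᵀ * J (Fin 4)) = 1 := mul_eq_one_comm.1 hinv
  have hJ : h * J (Fin 4) * hᵀ = J (Fin 4) := by
    have h1 : h * J (Fin 4) * hᵀ = (h * (J (Fin 4) * hᵀ * J (Fin 4))) * J (Fin 4) := by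
      simp only [Matrix.mul_assoc, D1_JJ, Matrix.mul_one]
    rw [h1, hinv', Matrix.one_mul]
  have hinj : Function.Injective h.mulVec := by
    intro x y hxy
    have h1 : (J (Fin 4) * hᵀ * J (Fin 4)) *ᵥ (h *ᵥ x) = (J (Fin 4) * hᵀ * J (Fin 4)) *ᵥ (h *ᵥ y) :=
      congrArg _ hxy
    rwa [mulVec_mulVec, mulVec_mulVec, hinv, one_mulVec, one_mulVec] at h1
  have hpos : (hᵀ * h).PosDef := by
    have := Matrix.PosDef.conjTranspose_mul_self h hinj
    rwa [conjTranspose_eq_transpose_of_trivial] at this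
  obtain ⟨U, l, hU, hU', hl, hS⟩ := D1_spec hpos
  set M : Matrix I6 I6 ℝ := Uᵀ * J (Fin 4) * U with hM
  have hD : Uᵀ * (hᵀ * h) * U = diagonal l := by
    rw [hS]
    calc Uᵀ * (U * diagonal l * Uᵀ) * U = (Uᵀ * U) * diagonal l * (Uᵀ * U) := by
          simp only [Matrix.mul_assoc]
      _ = diagonal l := by rw [hU', Matrix.one_mul, Matrix.mul_one]
  have hSJS : (hᵀ * h) * J (Fin 4) * (hᵀ * h) = J (Fin 4) := by
    calc (hᵀ * h) * J (Fin 4) * (hᵀ * h) = hᵀ * (h * J (Fin 4) * hᵀ) * h := by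
          simp only [Matrix.mul_assoc]
      _ = J (Fin 4) := by rw [hJ, hh]
  have hDMD : diagonal l * M * diagonal l = M := by
    rw [← hD, hM]
    calc Uᵀ * (hᵀ * h) * U * (Uᵀ * J (Fin 4) * U) * (Uᵀ * (hᵀ * h) * U)
        = Uᵀ * (hᵀ * h) * (U * Uᵀ) * J (Fin 4) * (U * Uᵀ) * (hᵀ * h) * U := by
          simp only [Matrix.mul_assoc]
      _ = Uᵀ * ((hᵀ * h) * J (Fin 4) * (hᵀ * h)) * U := by
          rw [hU]
          simp only [Matrix.mul_assoc, Matrix.one_mul, Matrix.mul_one]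
      _ = Uᵀ * J (Fin 4) * U := by rw [hSJS]
  have hent : ∀ i j, M i j ≠ 0 → l i * l j = 1 := by
    intro i j hij
    have h1 := congrFun (congrFun hDMD i) j
    rw [Matrix.mul_diagonal, Matrix.diagonal_mul] at h1
    have h2 : M i j * (l i * l j - 1) = 0 := by linarith
    rcases mul_eq_zero.1 h2 with h3 | h3
    · exact absurd h3 hij
    · linarith
  set f : I6 → ℝ := fun i => D1_f (l i) with hf
  have hfMf : diagonal f * M * diagonal f = M := by
    ext i j
    rw [Matrix.mul_diagonal, Matrix.diagonal_mul]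
    by_cases hij : M i j = 0
    · rw [hij]
      ring
    · have h1 : f i * f j = 1 := D1_fmul (hl i) (hent i j hij)
      calc f i * M i j * f j = (f i * f j) * M i j := by ring
        _ = M i j := by rw [h1, one_mul]
  refine ⟨U * diagonal f * Uᵀ, ?_, ?_, ?_⟩
  · have ht : (U * diagonal f * Uᵀ)ᵀ = U * diagonal f * Uᵀ := by
      rw [transpose_mul, transpose_mul, transpose_transpose, diagonal_transpose, Matrix.mul_assoc]
    rw [ht]
    calc U * diagonal f * Uᵀ * J (Fin 4) * (U * diagonal f * Uᵀ)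
        = U * (diagonal f * (Uᵀ * J (Fin 4) * U) * diagonal f) * Uᵀ := by
          simp only [Matrix.mul_assoc]
      _ = U * (Uᵀ * J (Fin 4) * U) * Uᵀ := by rw [← hM, hfMf]
      _ = (U * Uᵀ) * J (Fin 4) * (U * Uᵀ) := by simp only [Matrix.mul_assoc]
      _ = J (Fin 4) := by rw [hU, Matrix.one_mul, Matrix.mul_one]
  · intro i j
    have hrow : ∀ a b, |U a b| ≤ 1 := by
      intro a b
      have h1 := congrFun (congrFun hU a) a
      rw [Matrix.mul_apply, Matrix.one_apply_eq] at h1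
      have h2 : U a b * Uᵀ b a ≤ ∑ c, U a c * Uᵀ c a :=
        Finset.single_le_sum (f := fun c => U a c * Uᵀ c a)
          (fun c _ => by simp only [transpose_apply]; exact mul_self_nonneg _) (Finset.mem_univ b)
      rw [h1, transpose_apply] at h2
      rw [abs_le]
      constructor <;> nlinarith
    refine le_trans ?_ ((le_max_left _ _).trans (le_max_right _ _))
    rw [Matrix.mul_apply]
    refine (Finset.abs_sum_le_sum_abs _ _).trans ?_
    calc ∑ c, |(U * diagonal f) i c * Uᵀ c j| ≤ ∑ c : I6, Real.exp 1 := by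
          refine Finset.sum_le_sum fun c _ => ?_
          rw [Matrix.mul_diagonal, transpose_apply, abs_mul, abs_mul]
          have h1 := hrow i c
          have h2 := hrow j c
          have h3 : |f c| ≤ Real.exp 1 := by
            rw [abs_of_nonneg (D1_f0 _)]
            exact D1_fle _
          have h4 : |U i c| * |f c| ≤ 1 * Real.exp 1 :=
            mul_le_mul h1 h3 (abs_nonneg _) zero_le_one
          calc |U i c| * |f c| * |U j c| ≤ (1 * Real.exp 1) * 1 :=
                mul_le_mul h4 h2 (abs_nonneg _) (by positivity)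
            _ = Real.exp 1 := by ring
      _ = 6 * Real.exp 1 := by simp
  · intro y _ hy hC
    set c : I6 → ℝ := Uᵀ *ᵥ y with hc
    have e1 : ∑ i, (h *ᵥ y) i ^ 2 = ∑ i, l i * c i ^ 2 := by
      rw [D1_quad, hS, D1_diag]
    have e2 : ∑ i, (h *ᵥ ((U * diagonal f * Uᵀ) *ᵥ y)) i ^ 2 = ∑ i, l i * (f i * c i) ^ 2 := by
      rw [D1_quad, hS, D1_diag]
      refine Finset.sum_congr rfl fun i _ => ?_
      have h1 : Uᵀ *ᵥ ((U * diagonal f * Uᵀ) *ᵥ y) = diagonal f *ᵥ c := by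
        rw [hc, mulVec_mulVec, mulVec_mulVec]
        congr 1
        calc Uᵀ * (U * diagonal f * Uᵀ) = (Uᵀ * U) * diagonal f * Uᵀ := by
              simp only [Matrix.mul_assoc]
          _ = diagonal f * Uᵀ := by rw [hU', Matrix.one_mul]
      rw [h1, mulVec_diagonal]
    have e3 : ∑ i, c i ^ 2 = ∑ i, y i ^ 2 := by
      have h1 := D1_quad Uᵀ y
      rw [transpose_transpose, hU, one_mulVec] at h1
      rw [hc, h1]
      unfold dotProduct
      exact Finset.sum_congr rfl fun i _ => by ring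
    have e4 : ∑ i, y i ^ 2 ≤ 6 * r ^ 2 := by
      calc ∑ i, y i ^ 2 ≤ ∑ i : I6, r ^ 2 := by
            refine Finset.sum_le_sum fun i _ => ?_
            rw [← sq_abs (y i)]
            exact pow_le_pow_left₀ (abs_nonneg _) (hy i) 2
        _ = 6 * r ^ 2 := by simp
    rw [e2, e1]
    rw [e1] at hC
    have e5 : ∑ i, l i * (f i * c i) ^ 2 ≤ ∑ i, (Real.exp (-2) * (l i * c i ^ 2) + c i ^ 2) := by
      refine Finset.sum_le_sum fun i _ => ?_
      have h1 := D1_key (hl i)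
      calc l i * (f i * c i) ^ 2 = (l i * D1_f (l i) ^ 2) * c i ^ 2 := by rw [hf]; ring
        _ ≤ (Real.exp (-2) * l i + 1) * c i ^ 2 := mul_le_mul_of_nonneg_right h1 (sq_nonneg _)
        _ = _ := by ring
    rw [Finset.sum_add_distrib, ← Finset.mul_sum, e3] at e5
    have e6 : 6 * r ^ 2 / (Real.exp (-1) - Real.exp (-2)) ≤ ∑ i, l i * c i ^ 2 :=
      ((le_max_right _ _).trans (le_max_right _ _)).trans hC
    rw [div_le_iff₀ hgap] at e6
    linarith

end Pool.Agent.MPd01a95.KT
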