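import Mathlib
import Pool.Agent.Lib.MP_d01a95_gt_K.KDefs2
import Pool.Agent.Lib.MP_d01a95_gt.PropA

set_option autoImplicit false
set_option linter.all false

open Matrix Filter Topology MeasureTheory
open scoped ContDiff

namespace Pool.Agent.MPd01a95.KT

open GU

variable {G : Type} [Group G]

namespace D2

theorem core (h : Matrix I6 I6 ℝ) (hJ : hᵀ * J (Fin 4) * h = J (Fin 4)) (p q r : ℝ) (hr : 0 < r)
    (hpq : p ^ 2 + q ^ 2 = r ^ 2)
    (hd : (h (Sum.inr 0) (Sum.inr 0) * (-q) + h (Sum.inr 0) (Sum.inr 1) * p) ^ 2 +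
      (h (Sum.inr 1) (Sum.inr 0) * (-q) + h (Sum.inr 1) (Sum.inr 1) * p) ^ 2 = Del h ^ 2) :
    ∃ y : I6 → ℝ, nq y = 1 ∧ (∀ i, |y i| ≤ 1) ∧
      r ^ 2 * ∑ i, (h *ᵥ y) i ^ 2 ≤ 2 * Del h ^ 2 := by
  obtain ⟨y, hy⟩ : ∃ y : I6 → ℝ, y = Sum.elim (fun _ => 0) ![-q / r, p / r] := ⟨_, rfl⟩
  have h1 : (-q / r) ^ 2 + (p / r) ^ 2 = 1 := by
    have : (-q / r) ^ 2 + (p / r) ^ 2 = (p ^ 2 + q ^ 2) / r ^ 2 := by ring
    rw [this, hpq, div_self (by positivity)]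
  have hn : nq y = 1 := by
    rw [hy]
    simp only [nq, Sum.elim_inr, Sum.elim_inl]
    simp
    simpa using h1
  refine ⟨y, hn, ?_, ?_⟩
  · intro i
    rw [hy]
    rcases i with i | i
    · simp
    · fin_cases i
      · show |(-q / r)| ≤ 1
        rw [← Real.sqrt_sq_eq_abs, Real.sqrt_le_one]
        nlinarith [sq_nonneg (p / r)]
      · show |p / r| ≤ 1
        rw [← Real.sqrt_sq_eq_abs, Real.sqrt_le_one]
        nlinarith [sq_nonneg (-q / r)]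
  · have e : ∀ k : Fin 2, (h *ᵥ y) (Sum.inr k) =
        (h (Sum.inr k) (Sum.inr 0) * (-q) + h (Sum.inr k) (Sum.inr 1) * p) / r := by
      intro k
      rw [hy]
      simp only [Matrix.mulVec, dotProduct, Fintype.sum_sum_type, Fin.sum_univ_two, Sum.elim_inl,
        Sum.elim_inr, mul_zero, Finset.sum_const_zero, zero_add]
      simp
      ring
    have h2 := PropAAux.nq_mulVec h hJ y
    rw [hn] at h2
    have h3 : ∑ i, (h *ᵥ y) i ^ 2 = ∑ i : Fin 4, (h *ᵥ y) (Sum.inl i) ^ 2 +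
        ((h *ᵥ y) (Sum.inr 0) ^ 2 + (h *ᵥ y) (Sum.inr 1) ^ 2) := by
      rw [Fintype.sum_sum_type, Fin.sum_univ_two]
    unfold nq at h2
    have h4 : r ^ 2 * ((h *ᵥ y) (Sum.inr 0) ^ 2 + (h *ᵥ y) (Sum.inr 1) ^ 2) = Del h ^ 2 := by
      rw [e, e, ← hd]
      field_simp
    rw [h3]
    nlinarith [sq_nonneg r]

end D2

/-- module D2: a vector which is not stretched too much -/
theorem min_vec (h : Matrix I6 I6 ℝ) (hJ : hᵀ * J (Fin 4) * h = J (Fin 4)) :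
    ∃ y : I6 → ℝ, nq y = 1 ∧ (∀ i, |y i| ≤ 1) ∧
      rr h ^ 2 * ∑ i, (h *ᵥ y) i ^ 2 ≤ 2 * Del h ^ 2 := by
  have hD : Del h ^ 2 = (h (Sum.inr 0) (Sum.inr 0) * h (Sum.inr 1) (Sum.inr 1) -
      h (Sum.inr 0) (Sum.inr 1) * h (Sum.inr 1) (Sum.inr 0)) ^ 2 := by
    unfold Del
    rw [sq_abs, Matrix.det_fin_two]
    rfl
  have h0 : nq (h *ᵥ Pi.single (Sum.inr 0) 1) = 1 := by
    rw [PropAAux.nq_mulVec h hJ]
    simp [nq, Pi.single_apply]
  have hpos : 0 < rr h := by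
    by_contra hcon
    push Not at hcon
    have h1 := (le_max_left _ _ : Real.sqrt (h (Sum.inr 0) (Sum.inr 0) ^ 2 +
      h (Sum.inr 0) (Sum.inr 1) ^ 2) ≤ rr h).trans hcon
    have h2 := (le_max_right _ _ : Real.sqrt (h (Sum.inr 1) (Sum.inr 0) ^ 2 +
      h (Sum.inr 1) (Sum.inr 1) ^ 2) ≤ rr h).trans hcon
    have h1' := Real.sqrt_eq_zero'.1 (le_antisymm h1 (Real.sqrt_nonneg _))
    have h2' := Real.sqrt_eq_zero'.1 (le_antisymm h2 (Real.sqrt_nonneg _))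
    have h3 : h (Sum.inr 0) (Sum.inr 0) = 0 := by
      have e1 := sq_nonneg (h (Sum.inr 0) (Sum.inr 0))
      have e2 := sq_nonneg (h (Sum.inr 0) (Sum.inr 1))
      exact pow_eq_zero_iff two_ne_zero |>.1 (by linarith)
    have h4 : h (Sum.inr 1) (Sum.inr 0) = 0 := by
      have e1 := sq_nonneg (h (Sum.inr 1) (Sum.inr 0))
      have e2 := sq_nonneg (h (Sum.inr 1) (Sum.inr 1))
      exact pow_eq_zero_iff two_ne_zero |>.1 (by linarith)
    unfold nq at h0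
    simp only [Matrix.mulVec_single_one, Matrix.col_apply] at h0
    rw [h3, h4] at h0
    have h5 : 0 ≤ ∑ i : Fin 4, h (Sum.inl i) (Sum.inr 0) ^ 2 :=
      Finset.sum_nonneg fun i _ => sq_nonneg _
    linarith
  have hmax : rr h = Real.sqrt (h (Sum.inr 0) (Sum.inr 0) ^ 2 + h (Sum.inr 0) (Sum.inr 1) ^ 2) ∨
      rr h = Real.sqrt (h (Sum.inr 1) (Sum.inr 0) ^ 2 + h (Sum.inr 1) (Sum.inr 1) ^ 2) :=
    max_choice _ _
  rcases hmax with e | e
  · refine D2.core h hJ (h (Sum.inr 0) (Sum.inr 0)) (h (Sum.inr 0) (Sum.inr 1)) (rr h) hpos ?_ ?_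
    · rw [e, Real.sq_sqrt (by positivity)]
    · rw [hD]; ring
  · refine D2.core h hJ (h (Sum.inr 1) (Sum.inr 0)) (h (Sum.inr 1) (Sum.inr 1)) (rr h) hpos ?_ ?_
    · rw [e, Real.sq_sqrt (by positivity)]
    · rw [hD]; ring

end Pool.Agent.MPd01a95.KT
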