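import Mathlib
import Pool.Agent.Lib.MP_d01a95_gt_K.KDefs2
import Pool.Agent.Lib.MP_d01a95_gt_K.KA1
import Pool.Agent.Lib.MP_d01a95_gt_K.KA2
import Pool.Agent.Lib.MP_d01a95_gt_K.KD1
import Pool.Agent.Lib.MP_d01a95_gt_K.KD2

set_option autoImplicit false
set_option linter.all false

open Matrix Filter Topology MeasureTheory
open scoped ContDiff

namespace Pool.Agent.MPd01a95.KT

open GU

variable {G : Type} [Group G]

private theorem D3_JJ : J (Fin 4) * J (Fin 4) = 1 := by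
  unfold J
  rw [fromBlocks_multiply]
  simp

private theorem D3_dual (h : Matrix I6 I6 ℝ) (hh : hᵀ * J (Fin 4) * h = J (Fin 4)) :
    h * J (Fin 4) * hᵀ = J (Fin 4) := by
  have hinv : (J (Fin 4) * hᵀ * J (Fin 4)) * h = 1 := by
    rw [Matrix.mul_assoc, Matrix.mul_assoc, ← Matrix.mul_assoc hᵀ, hh, D3_JJ]
  have hinv' : h * (J (Fin 4) * hᵀ * J (Fin 4)) = 1 := mul_eq_one_comm.1 hinv
  have h1 : h * J (Fin 4) * hᵀ = (h * (J (Fin 4) * hᵀ * J (Fin 4))) * J (Fin 4) := by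
    simp only [Matrix.mul_assoc, D3_JJ, Matrix.mul_one]
  rw [h1, hinv', Matrix.one_mul]

private theorem D3_ent (h : Matrix I6 I6 ℝ) (hh : hᵀ * J (Fin 4) * h = J (Fin 4)) (i j : I6) :
    ∑ k : Fin 4, h i (Sum.inl k) * h j (Sum.inl k) -
      (h i (Sum.inr 0) * h j (Sum.inr 0) + h i (Sum.inr 1) * h j (Sum.inr 1)) =
      J (Fin 4) i j := by
  have h1 := congrFun (congrFun (D3_dual h hh) i) j
  rw [← h1]
  have hJd : J (Fin 4) = Matrix.diagonal (Sum.elim (fun _ => (1 : ℝ)) (fun _ => -1)) := by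
    ext i j
    rcases i with i | i <;> rcases j with j | j
    · by_cases h : i = j
      · subst h; simp [J]
      · simp [J, Matrix.diagonal, h]
    · simp [J, Matrix.diagonal]
    · simp [J, Matrix.diagonal]
    · by_cases h : i = j
      · subst h; simp [J]
      · simp [J, Matrix.diagonal, h]
  rw [hJd, Matrix.mul_apply, Fintype.sum_sum_type]
  simp only [Matrix.mul_diagonal, Matrix.transpose_apply, Sum.elim_inl, Sum.elim_inr, mul_one,
    Fin.sum_univ_two]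
  ring

/-- the negative block: entries of `N Nᵀ = 1 + P` -/
private theorem D3_rr (h : Matrix I6 I6 ℝ) (hh : hᵀ * J (Fin 4) * h = J (Fin 4)) :
    1 ≤ rr h ∧ rr h ≤ Del h := by
  have e00 := D3_ent h hh (Sum.inr 0) (Sum.inr 0)
  have e11 := D3_ent h hh (Sum.inr 1) (Sum.inr 1)
  have e01 := D3_ent h hh (Sum.inr 0) (Sum.inr 1)
  have j00 : J (Fin 4) (Sum.inr 0) (Sum.inr 0) = -1 := by simp [J]
  have j11 : J (Fin 4) (Sum.inr 1) (Sum.inr 1) = -1 := by simp [J]
  have j01 : J (Fin 4) (Sum.inr 0) (Sum.inr 1) = 0 := by simp [J]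
  rw [j00] at e00
  rw [j11] at e11
  rw [j01] at e01
  set p : ℝ := ∑ k : Fin 4, h (Sum.inr 0) (Sum.inl k) * h (Sum.inr 0) (Sum.inl k) with hp
  set q : ℝ := ∑ k : Fin 4, h (Sum.inr 1) (Sum.inl k) * h (Sum.inr 1) (Sum.inl k) with hq
  set s : ℝ := ∑ k : Fin 4, h (Sum.inr 0) (Sum.inl k) * h (Sum.inr 1) (Sum.inl k) with hs
  have hp0 : 0 ≤ p := Finset.sum_nonneg fun k _ => mul_self_nonneg _
  have hq0 : 0 ≤ q := Finset.sum_nonneg fun k _ => mul_self_nonneg _
  have hcs : s ^ 2 ≤ p * q := by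
    have := Finset.sum_mul_sq_le_sq_mul_sq Finset.univ
      (fun k : Fin 4 => h (Sum.inr 0) (Sum.inl k)) (fun k : Fin 4 => h (Sum.inr 1) (Sum.inl k))
    simpa only [hp, hq, hs, pow_two] using this
  set a := h (Sum.inr 0) (Sum.inr 0) with ha
  set b := h (Sum.inr 0) (Sum.inr 1) with hb
  set c' := h (Sum.inr 1) (Sum.inr 0) with hc'
  set d := h (Sum.inr 1) (Sum.inr 1) with hd
  have hD : Del h ^ 2 = (a * d - b * c') ^ 2 := by
    unfold Del
    rw [sq_abs, Matrix.det_fin_two]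
    rfl
  have hD0 : 0 ≤ Del h := abs_nonneg _
  have r1 : 1 ≤ a ^ 2 + b ^ 2 := by nlinarith
  have r2 : 1 ≤ c' ^ 2 + d ^ 2 := by nlinarith
  have hlag : (a * d - b * c') ^ 2 = (a ^ 2 + b ^ 2) * (c' ^ 2 + d ^ 2) -
      (a * c' + b * d) ^ 2 := by ring
  have ea : a ^ 2 + b ^ 2 = 1 + p := by linarith
  have eb : c' ^ 2 + d ^ 2 = 1 + q := by linarith
  have ec : a * c' + b * d = s := by linarith
  have hD2 : 1 + p + q ≤ Del h ^ 2 := by
    rw [hD, hlag, ea, eb, ec]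
    nlinarith
  constructor
  · unfold rr
    refine le_trans ?_ (le_max_left _ _)
    rw [Real.one_le_sqrt]
    exact r1
  · unfold rr
    refine max_le ?_ ?_
    · refine Real.sqrt_le_iff.2 ⟨hD0, ?_⟩
      linarith
    · refine Real.sqrt_le_iff.2 ⟨hD0, ?_⟩
      linarith

private noncomputable def D3_m (h : Matrix I6 I6 ℝ) : ℝ := ∑ i, ∑ j, |h i j|

private theorem D3_m_nonneg (h : Matrix I6 I6 ℝ) : 0 ≤ D3_m h :=
  Finset.sum_nonneg fun _ _ => Finset.sum_nonneg fun _ _ => abs_nonneg _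

private theorem D3_m_entry (h : Matrix I6 I6 ℝ) (i j : I6) : |h i j| ≤ D3_m h := by
  have h1 : |h i j| ≤ ∑ j, |h i j| :=
    Finset.single_le_sum (f := fun j => |h i j|) (fun _ _ => abs_nonneg _) (Finset.mem_univ j)
  have h2 : ∑ j, |h i j| ≤ ∑ i, ∑ j, |h i j| :=
    Finset.single_le_sum (f := fun i => ∑ j, |h i j|)
      (fun _ _ => Finset.sum_nonneg fun _ _ => abs_nonneg _) (Finset.mem_univ i)
  exact h1.trans h2

private theorem D3_m_mul (h k : Matrix I6 I6 ℝ) : D3_m (h * k) ≤ D3_m h * D3_m k := by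
  have h1 : ∀ i j, |(h * k) i j| ≤ ∑ l, |h i l| * |k l j| := by
    intro i j
    rw [Matrix.mul_apply]
    refine (Finset.abs_sum_le_sum_abs _ _).trans (le_of_eq ?_)
    simp only [abs_mul]
  have h2 : ∀ i l, ∑ j, |h i l| * |k l j| ≤ |h i l| * D3_m k := by
    intro i l
    rw [← Finset.mul_sum]
    refine mul_le_mul_of_nonneg_left ?_ (abs_nonneg _)
    exact Finset.single_le_sum (f := fun i => ∑ j, |k i j|)
      (fun _ _ => Finset.sum_nonneg fun _ _ => abs_nonneg _) (Finset.mem_univ l)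
  calc D3_m (h * k) ≤ ∑ i, ∑ j, ∑ l, |h i l| * |k l j| :=
        Finset.sum_le_sum fun i _ => Finset.sum_le_sum fun j _ => h1 i j
    _ = ∑ i, ∑ l, ∑ j, |h i l| * |k l j| :=
        Finset.sum_congr rfl fun i _ => Finset.sum_comm
    _ ≤ ∑ i, ∑ l, |h i l| * D3_m k :=
        Finset.sum_le_sum fun i _ => Finset.sum_le_sum fun l _ => h2 i l
    _ = D3_m h * D3_m k := by
        unfold D3_m
        rw [Finset.sum_mul]
        refine Finset.sum_congr rfl fun i _ => ?_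
        rw [Finset.sum_mul]

private theorem D3_rr_le (h : Matrix I6 I6 ℝ) : rr h ≤ 2 * D3_m h := by
  have h0 := D3_m_nonneg h
  have key : ∀ i : I6, Real.sqrt (h i (Sum.inr 0) ^ 2 + h i (Sum.inr 1) ^ 2) ≤ 2 * D3_m h := by
    intro i
    refine Real.sqrt_le_iff.2 ⟨by positivity, ?_⟩
    have h1 := D3_m_entry h i (Sum.inr 0)
    have h2 := D3_m_entry h i (Sum.inr 1)
    have h3 : h i (Sum.inr 0) ^ 2 ≤ D3_m h ^ 2 := by
      rw [← sq_abs]
      exact pow_le_pow_left₀ (abs_nonneg _) h1 2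
    have h4 : h i (Sum.inr 1) ^ 2 ≤ D3_m h ^ 2 := by
      rw [← sq_abs]
      exact pow_le_pow_left₀ (abs_nonneg _) h2 2
    nlinarith
  exact max_le (key _) (key _)

/-- the upper bound by the word length -/
private theorem D3_up {σ : G →* GU (Fin 2)} (hL : Lat σ) (ρ : G →* Matrix I6 I6 ℝ) :
    ∃ C : ℝ, 1 ≤ C ∧ ∀ g, rr (ρ g) ≤ C * c (σ g) ^ C := by
  obtain ⟨F, C0, hF⟩ := word hL
  obtain ⟨M, hM1, hM⟩ : ∃ M : ℝ, 1 ≤ M ∧ ∀ x ∈ F, D3_m (ρ x) ≤ M := by
    refine ⟨1 + ∑ x ∈ F, D3_m (ρ x), ?_, fun x hx => ?_⟩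
    · have : 0 ≤ ∑ x ∈ F, D3_m (ρ x) := Finset.sum_nonneg fun x _ => D3_m_nonneg _
      linarith
    · have h1 : D3_m (ρ x) ≤ ∑ x ∈ F, D3_m (ρ x) :=
        Finset.single_le_sum (f := fun x => D3_m (ρ x)) (fun x _ => D3_m_nonneg _) hx
      linarith
  have hlist : ∀ l : List G, (∀ x ∈ l, x ∈ F) → D3_m (ρ l.prod) ≤ D3_m 1 * M ^ l.length := by
    intro l
    induction l with
    | nil => intro _; simp
    | cons x l ih =>
      intro hl
      rw [List.prod_cons, map_mul, List.length_cons]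
      have h1 := ih fun y hy => hl y (List.mem_cons_of_mem x hy)
      have h2 := hM x (hl x List.mem_cons_self)
      calc D3_m (ρ x * ρ l.prod) ≤ D3_m (ρ x) * D3_m (ρ l.prod) := D3_m_mul _ _
        _ ≤ M * (D3_m 1 * M ^ l.length) :=
            mul_le_mul h2 h1 (D3_m_nonneg _) (by linarith)
        _ = D3_m 1 * M ^ (l.length + 1) := by rw [pow_succ]; ring
  set D0 : ℝ := max C0 0 with hD0
  set E : ℝ := 2 * D3_m 1 * Real.exp (D0 * Real.log M) with hE
  set L : ℝ := D0 * Real.log M with hLL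
  have hlogM : 0 ≤ Real.log M := Real.log_nonneg hM1
  refine ⟨max 1 (max E L), le_max_left _ _, fun g => ?_⟩
  obtain ⟨l, hl, hlp, hlen⟩ := hF g
  have hc1 := c_ge_one (σ g)
  have hlog : 0 ≤ Real.log (c (σ g)) := Real.log_nonneg hc1
  have hlen' : (l.length : ℝ) ≤ D0 * Real.log (c (σ g)) + D0 := by
    refine hlen.trans ?_
    have : C0 ≤ D0 := le_max_left _ _
    nlinarith
  have h1 : rr (ρ g) ≤ 2 * (D3_m 1 * M ^ l.length) := by
    refine (D3_rr_le _).trans ?_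
    have := hlist l hl
    rw [hlp] at this
    linarith
  have h2 : M ^ l.length ≤ Real.exp L * c (σ g) ^ L := by
    have e1 : M ^ l.length = Real.exp (l.length * Real.log M) := by
      rw [Real.exp_nat_mul, Real.exp_log (by linarith)]
    rw [e1, Real.rpow_def_of_pos (by linarith), ← Real.exp_add]
    refine Real.exp_le_exp.2 ?_
    have := mul_le_mul_of_nonneg_right hlen' hlogM
    rw [hLL]
    linarith
  have hm0 := D3_m_nonneg (1 : Matrix I6 I6 ℝ)
  have hcp : 0 ≤ c (σ g) ^ L := Real.rpow_nonneg (by linarith) _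
  calc rr (ρ g) ≤ 2 * (D3_m 1 * M ^ l.length) := h1
    _ ≤ 2 * (D3_m 1 * (Real.exp L * c (σ g) ^ L)) := by
        have := mul_le_mul_of_nonneg_left h2 hm0
        linarith
    _ = E * c (σ g) ^ L := by rw [hE]; ring
    _ ≤ max 1 (max E L) * c (σ g) ^ (max 1 (max E L)) := by
        refine mul_le_mul ((le_max_left _ _).trans (le_max_right _ _))
          (Real.rpow_le_rpow_of_exponent_le hc1 ((le_max_right _ _).trans (le_max_right _ _)))
          hcp (zero_le_one.trans (le_max_left _ _))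

private theorem D3_nq_continuous : Continuous (nq : (I6 → ℝ) → ℝ) := by
  unfold nq
  fun_prop

private theorem D3_box (M : ℝ) : IsCompact {x : I6 → ℝ | nq x = 1 ∧ ∀ i, |x i| ≤ M} := by
  have h1 : IsCompact (Set.univ.pi fun _ : I6 => Set.Icc (-M) M) :=
    isCompact_univ_pi fun _ => isCompact_Icc
  refine h1.of_isClosed_subset ?_ ?_
  · have : {x : I6 → ℝ | nq x = 1 ∧ ∀ i, |x i| ≤ M} =
        {x | nq x = 1} ∩ ⋂ i, {x : I6 → ℝ | |x i| ≤ M} := by
      ext x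
      simp
    rw [this]
    refine (isClosed_eq D3_nq_continuous continuous_const).inter
      (isClosed_iInter fun i => isClosed_le (by fun_prop) continuous_const)
  · intro x hx i _
    exact abs_le.1 (hx.2 i)

/-- the lower bound -/
private theorem D3_lo {σ : G →* GU (Fin 2)} (ρ : G →* Matrix I6 I6 ℝ)
    (hJ : ∀ g, (ρ g)ᵀ * J (Fin 4) * ρ g = J (Fin 4)) (hp : PropAdS ρ)
    (hc : ∃ K : Set (I6 → ℝ), IsCompact K ∧ (∀ x ∈ K, nq x = 1) ∧
      ∀ x, nq x = 1 → ∃ g, ∃ y ∈ K, ρ g *ᵥ y = x) : ∃ A L : ℝ, 0 ≤ A ∧ 0 ≤ L ∧ ∀ g,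
      c (σ g) ≤ A * (Del (ρ g) / rr (ρ g)) ^ L := by
  obtain ⟨K, hKc, hK1, hKG⟩ := hc
  obtain ⟨r, hr1, hr⟩ : ∃ r : ℝ, 1 ≤ r ∧ ∀ y ∈ K, ∀ i, |y i| ≤ r := by
    obtain ⟨R, hR⟩ := hKc.isBounded.exists_norm_le
    refine ⟨max 1 R, le_max_left _ _, fun y hy i => ?_⟩
    have h1 := norm_le_pi_norm y i
    rw [Real.norm_eq_abs] at h1
    exact h1.trans ((hR y hy).trans (le_max_right _ _))
  obtain ⟨C1, hC1, hstep⟩ := one_step r
  set M : ℝ := 6 * (C1 * r) with hM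
  have hMr : r ≤ M := by nlinarith
  have hMC : C1 ≤ M := by nlinarith
  set B : Set (I6 → ℝ) := {x | nq x = 1 ∧ ∀ i, |x i| ≤ M} with hB
  have hfin := hp B (D3_box M) fun x hx => hx.1
  set F1 : Set G := {g : G | ∃ x ∈ B, ρ g *ᵥ x ∈ B} with hF1
  obtain ⟨C2, hC2, hC2F⟩ : ∃ C2 : ℝ, 1 ≤ C2 ∧ ∀ g ∈ F1, 2 * c (σ g) ≤ C2 := by
    refine ⟨1 + ∑ g ∈ hfin.toFinset, 2 * c (σ g), ?_, fun g hg => ?_⟩
    · have : 0 ≤ ∑ g ∈ hfin.toFinset, 2 * c (σ g) :=
        Finset.sum_nonneg fun g _ => by linarith [c_ge_one (σ g)]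
      linarith
    · have h1 : 2 * c (σ g) ≤ ∑ g ∈ hfin.toFinset, 2 * c (σ g) :=
        Finset.single_le_sum (f := fun g => 2 * c (σ g))
          (fun g _ => by linarith [c_ge_one (σ g)]) (hfin.mem_toFinset.2 hg)
      linarith
  have hbase : ∀ g : G, ∀ y : I6 → ℝ, nq y = 1 → (∀ i, |y i| ≤ r) →
      ∑ i, (ρ g *ᵥ y) i ^ 2 ≤ C1 → c (σ g) ≤ C2 := by
    intro g y hy1 hy hs
    have hg : g ∈ F1 := by
      refine ⟨y, ⟨hy1, fun i => (hy i).trans hMr⟩, ?_, fun i => ?_⟩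
      · show nq (ρ g *ᵥ y) = 1
        rw [PropAAux.nq_mulVec (ρ g) (hJ g), hy1]
      · have h1 : (ρ g *ᵥ y) i ^ 2 ≤ C1 :=
          (Finset.single_le_sum (f := fun i => (ρ g *ᵥ y) i ^ 2) (fun _ _ => sq_nonneg _)
            (Finset.mem_univ i)).trans hs
        refine le_trans (abs_le_of_sq_le_sq ?_ (by linarith)) hMC
        nlinarith
    have h2 := hC2F g hg
    linarith [c_ge_one (σ g)]
  have hind : ∀ n : ℕ, ∀ g : G, ∀ y : I6 → ℝ, nq y = 1 → (∀ i, |y i| ≤ r) →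
      ∑ i, (ρ g *ᵥ y) i ^ 2 ≤ C1 * Real.exp n → c (σ g) ≤ C2 ^ (n + 1) := by
    intro n
    induction n with
    | zero =>
      intro g y hy1 hy hs
      rw [Nat.cast_zero, Real.exp_zero, mul_one] at hs
      rw [zero_add, pow_one]
      exact hbase g y hy1 hy hs
    | succ n ih =>
      intro g y hy1 hy hs
      rcases le_total (∑ i, (ρ g *ᵥ y) i ^ 2) C1 with h1 | h1
      · refine (hbase g y hy1 hy h1).trans ?_
        have := pow_le_pow_right₀ hC2 (show 1 ≤ n + 1 + 1 by omega)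
        rwa [pow_one] at this
      · obtain ⟨b, hbJ, hbC, hb⟩ := hstep (ρ g) (hJ g)
        have h2 := hb y hy1 hy h1
        have hx1 : nq (b *ᵥ y) = 1 := by rw [PropAAux.nq_mulVec b hbJ, hy1]
        obtain ⟨γ, y', hy'K, hγ⟩ := hKG (b *ᵥ y) hx1
        have hγF : γ ∈ F1 := by
          refine ⟨y', ⟨hK1 y' hy'K, fun i => (hr y' hy'K i).trans hMr⟩, ?_, fun i => ?_⟩
          · show nq (ρ γ *ᵥ y') = 1
            rw [hγ, hx1]
          · rw [hγ]
            have e1 : |(b *ᵥ y) i| ≤ ∑ j : I6, C1 * r := by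
              unfold Matrix.mulVec dotProduct
              refine (Finset.abs_sum_le_sum_abs _ _).trans (Finset.sum_le_sum fun j _ => ?_)
              rw [abs_mul]
              exact mul_le_mul (hbC i j) (hy j) (abs_nonneg _) (by linarith)
            refine e1.trans (le_of_eq ?_)
            simp [hM]
        have h3 : ∑ i, (ρ (g * γ) *ᵥ y') i ^ 2 ≤ C1 * Real.exp n := by
          rw [map_mul, ← Matrix.mulVec_mulVec, hγ]
          refine h2.trans ?_
          have h4 := mul_le_mul_of_nonneg_left hs (Real.exp_pos (-1)).le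
          refine h4.trans (le_of_eq ?_)
          rw [Nat.cast_succ, mul_left_comm, ← Real.exp_add]
          congr 2
          ring
        have h5 := ih (g * γ) y' (hK1 y' hy'K) (hr y' hy'K) h3
        have h6 : c (σ g) ≤ 2 * c (σ (g * γ)) * c (σ γ) := by
          have h7 := c_mul (σ (g * γ)) (σ γ)⁻¹
          rw [c_inv] at h7
          have h8 : σ (g * γ) * (σ γ)⁻¹ = σ g := by
            rw [map_mul, mul_assoc, mul_inv_cancel, mul_one]
          rwa [h8] at h7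
        have h9 := hC2F γ hγF
        have h10 := c_ge_one (σ γ)
        calc c (σ g) ≤ 2 * c (σ (g * γ)) * c (σ γ) := h6
          _ = c (σ (g * γ)) * (2 * c (σ γ)) := by ring
          _ ≤ C2 ^ (n + 1) * C2 := mul_le_mul h5 h9 (by linarith) (by positivity)
          _ = C2 ^ (n + 1 + 1) := (pow_succ _ _).symm
  have hlogC2 : 0 ≤ Real.log C2 := Real.log_nonneg hC2
  refine ⟨C2 ^ 2 * Real.exp (Real.log C2 * Real.log 2), 2 * Real.log C2, by positivity,
    by positivity, fun g => ?_⟩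
  obtain ⟨hr1', hrD⟩ := D3_rr (ρ g) (hJ g)
  set t : ℝ := Del (ρ g) / rr (ρ g) with ht
  have ht1 : 1 ≤ t := by
    rw [ht, le_div_iff₀ (by linarith)]
    linarith
  obtain ⟨y, hy1, hy, hyD⟩ := min_vec (ρ g) (hJ g)
  have hX : ∑ i, (ρ g *ᵥ y) i ^ 2 ≤ 2 * t ^ 2 := by
    have h1 : 2 * t ^ 2 = 2 * Del (ρ g) ^ 2 / rr (ρ g) ^ 2 := by rw [ht, div_pow]; ring
    rw [h1, le_div_iff₀ (by positivity), mul_comm]
    exact hyD
  set n : ℕ := ⌈Real.log (2 * t ^ 2)⌉₊ with hn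
  have ht2 : 0 < 2 * t ^ 2 := by positivity
  have hlog0 : 0 ≤ Real.log (2 * t ^ 2) := Real.log_nonneg (by nlinarith)
  have hn1 : Real.log (2 * t ^ 2) ≤ n := Nat.le_ceil _
  have hn2 : (n : ℝ) < Real.log (2 * t ^ 2) + 1 := Nat.ceil_lt_add_one hlog0
  have hX2 : ∑ i, (ρ g *ᵥ y) i ^ 2 ≤ C1 * Real.exp n := by
    refine hX.trans ?_
    have h1 : 2 * t ^ 2 ≤ Real.exp n := by
      rw [← Real.exp_log ht2]
      exact Real.exp_le_exp.2 hn1
    have h2 := Real.exp_pos (n : ℝ)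
    nlinarith
  have h3 := hind n g y hy1 (fun i => (hy i).trans hr1) hX2
  refine h3.trans ?_
  have e1 : C2 ^ (n + 1) = Real.exp ((n + 1 : ℕ) * Real.log C2) := by
    rw [Real.exp_nat_mul, Real.exp_log (by linarith)]
  have e2 : C2 ^ 2 = Real.exp (2 * Real.log C2) := by
    have := Real.exp_nat_mul (Real.log C2) 2
    rw [Real.exp_log (by linarith)] at this
    rw [← this]
    norm_num
  rw [e1, e2, Real.rpow_def_of_pos (by linarith), ← Real.exp_add, ← Real.exp_add]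
  refine Real.exp_le_exp.2 ?_
  have e3 : Real.log (2 * t ^ 2) = Real.log 2 + 2 * Real.log t := by
    rw [Real.log_mul (by norm_num) (by positivity), Real.log_pow]
    norm_num
  push_cast
  have h4 : ((n : ℝ) + 1) * Real.log C2 ≤ (Real.log 2 + 2 * Real.log t + 2) * Real.log C2 := by
    refine mul_le_mul_of_nonneg_right ?_ hlogC2
    rw [← e3]
    linarith
  refine h4.trans (le_of_eq ?_)
  ring

/-- module D3: sharpness -/
theorem sharp {σ : G →* GU (Fin 2)} (hL : Lat σ) (ρ : G →* Matrix I6 I6 ℝ)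
    (hJ : ∀ g, (ρ g)ᵀ * J (Fin 4) * ρ g = J (Fin 4)) (hp : PropAdS ρ)
    (hc : ∃ K : Set (I6 → ℝ), IsCompact K ∧ (∀ x ∈ K, nq x = 1) ∧
      ∀ x, nq x = 1 → ∃ g, ∃ y ∈ K, ρ g *ᵥ y = x) : ∃ C : ℝ, 1 ≤ C ∧ ∀ g,
      c (σ g) * rr (ρ g) ^ C ≤ C * Del (ρ g) ^ C ∧ rr (ρ g) ≤ C * c (σ g) ^ C ∧
        1 ≤ C * rr (ρ g) := by
  obtain ⟨A, L, hA, hL0, hlo⟩ := D3_lo (σ := σ) ρ hJ hp hc
  obtain ⟨C', hC', hup⟩ := D3_up hL ρ
  refine ⟨max 1 (max (max A L) C'), le_max_left _ _, fun g => ?_⟩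
  set C : ℝ := max 1 (max (max A L) C') with hC
  have hC1 : 1 ≤ C := le_max_left _ _
  have hCA : A ≤ C := ((le_max_left _ _).trans (le_max_left _ _)).trans (le_max_right _ _)
  have hCL : L ≤ C := ((le_max_right _ _).trans (le_max_left _ _)).trans (le_max_right _ _)
  have hCC : C' ≤ C := (le_max_right _ _).trans (le_max_right _ _)
  obtain ⟨hr1, hrD⟩ := D3_rr (ρ g) (hJ g)
  have hc1 := c_ge_one (σ g)
  have hr0 : 0 < rr (ρ g) := by linarith
  refine ⟨?_, ?_, ?_⟩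
  · set t : ℝ := Del (ρ g) / rr (ρ g) with ht
    have ht1 : 1 ≤ t := by
      rw [ht, le_div_iff₀ (by linarith)]
      linarith
    have h1 : c (σ g) ≤ C * t ^ C := by
      refine (hlo g).trans ?_
      refine mul_le_mul hCA (Real.rpow_le_rpow_of_exponent_le ht1 hCL)
        (Real.rpow_nonneg (by linarith) _) (by linarith)
    have h2 : Del (ρ g) ^ C = t ^ C * rr (ρ g) ^ C := by
      rw [← Real.mul_rpow (by linarith) hr0.le]
      congr 1
      rw [ht]
      field_simp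
    rw [h2, ← mul_assoc]
    exact mul_le_mul_of_nonneg_right h1 (Real.rpow_nonneg hr0.le _)
  · refine (hup g).trans ?_
    exact mul_le_mul hCC (Real.rpow_le_rpow_of_exponent_le hc1 hCC)
      (Real.rpow_nonneg (by linarith) _) (by linarith)
  · nlinarith

end Pool.Agent.MPd01a95.KT
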