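import Mathlib
import Pool.Agent.Lib.MP_d01a95_gt_K.KDefs2
import Pool.Agent.Lib.MP_d01a95_gt_K.KA2
import Pool.Agent.Lib.MP_d01a95_gt_K.KB3
import Pool.Agent.Lib.MP_d01a95_gt.Minor

set_option autoImplicit false
set_option linter.all false

open Matrix Filter Topology MeasureTheory
open scoped ContDiff

namespace Pool.Agent.MPd01a95.KT

open GU

variable {G : Type} [Group G]

namespace D4

/-- the numerical part -/
theorem num {C0 C1 : ℝ} (h0 : 1 ≤ C0) (h1 : 1 ≤ C1) : ∃ K : ℝ, 1 ≤ K ∧ ∀ a b r D x : ℝ, 0 ≤ a →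
    0 ≤ b → 0 ≤ D → 1 ≤ x → r ≤ C1 * b → b ≤ C1 * r → D ≤ C1 * a ^ 2 → a ^ 2 ≤ C1 * D →
    x * r ^ C0 ≤ C0 * D ^ C0 → r ≤ C0 * x ^ C0 → 1 ≤ C0 * r → D ≤ r ^ 2 →
    b ≤ K * a ^ (2 - (C0 ^ 2)⁻¹) ∧ x ≤ K * a ^ (2 * C0) ∧ a ≤ K * x ^ C0 := by
  have p0 : 0 < C0 := by linarith
  have p1 : 0 < C1 := by linarith
  obtain ⟨K1, hK1⟩ : ∃ K1, K1 = C1 * C0 := ⟨_, rfl⟩
  have pK1 : 0 < K1 := by rw [hK1]; positivity
  obtain ⟨K2, hK2⟩ : ∃ K2, K2 = C0 * (C0 * C1) ^ C0 := ⟨_, rfl⟩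
  obtain ⟨K3, hK3⟩ : ∃ K3, K3 = C1 * (C0 ^ (C0⁻¹) * C1 * K1 ^ ((C0 ^ 2)⁻¹)) := ⟨_, rfl⟩
  have q2 : 0 ≤ K2 := by rw [hK2]; positivity
  have q3 : 0 ≤ K3 := by rw [hK3]; positivity
  refine ⟨1 + K1 + K2 + K3, by linarith, ?_⟩
  intro a b r D x ha hb hD hx e1 e2 e3 e4 e5 e6 e7 e8
  have px : 0 < x := by linarith
  have pr : 0 < r := by
    by_contra h
    push Not at h
    nlinarith
  have pD : 0 < D := by
    rcases hD.lt_or_eq with h | h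
    · exact h
    · exfalso
      rw [← h, Real.zero_rpow p0.ne', mul_zero] at e5
      have : 0 < x * r ^ C0 := mul_pos px (Real.rpow_pos_of_pos pr _)
      linarith
  have pa : 0 < a := by
    rcases ha.lt_or_eq with h | h
    · exact h
    · exfalso
      rw [← h] at e3
      simp at e3
      linarith
  -- upper bound of a
  have f1 : a ≤ K1 * x ^ C0 := by
    have hxC : 0 < x ^ C0 := Real.rpow_pos_of_pos px _
    have g1 : a ^ 2 ≤ (K1 * x ^ C0) ^ 2 := by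
      have g2 : r ^ 2 ≤ (C0 * x ^ C0) ^ 2 := pow_le_pow_left₀ pr.le e6 2
      calc a ^ 2 ≤ C1 * D := e4
        _ ≤ C1 * r ^ 2 := mul_le_mul_of_nonneg_left e8 p1.le
        _ ≤ C1 * (C0 * x ^ C0) ^ 2 := mul_le_mul_of_nonneg_left g2 p1.le
        _ ≤ C1 ^ 2 * (C0 * x ^ C0) ^ 2 := by
            apply mul_le_mul_of_nonneg_right _ (sq_nonneg _)
            nlinarith
        _ = (K1 * x ^ C0) ^ 2 := by rw [hK1]; ring
    exact le_of_sq_le_sq g1 (by positivity)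
  -- lower bound
  have f2 : x ≤ K2 * a ^ (2 * C0) := by
    have g1 : 1 ≤ (C0 * r) ^ C0 := Real.one_le_rpow e7 p0.le
    rw [Real.mul_rpow p0.le pr.le] at g1
    have g2 : D ^ C0 ≤ (C1 * a ^ 2) ^ C0 := Real.rpow_le_rpow hD e3 p0.le
    have g3 : (a ^ 2) ^ C0 = a ^ (2 * C0) := by
      rw [← Real.rpow_natCast, ← Real.rpow_mul ha]
      norm_num
    rw [Real.mul_rpow p1.le (sq_nonneg a), g3] at g2
    have g4 : 0 ≤ C0 ^ C0 := Real.rpow_nonneg p0.le _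
    calc x = x * 1 := (mul_one x).symm
      _ ≤ x * (C0 ^ C0 * r ^ C0) := mul_le_mul_of_nonneg_left g1 px.le
      _ = C0 ^ C0 * (x * r ^ C0) := by ring
      _ ≤ C0 ^ C0 * (C0 * D ^ C0) := mul_le_mul_of_nonneg_left e5 g4
      _ ≤ C0 ^ C0 * (C0 * (C1 ^ C0 * a ^ (2 * C0))) := by
          apply mul_le_mul_of_nonneg_left _ g4
          exact mul_le_mul_of_nonneg_left g2 p0.le
      _ = K2 * a ^ (2 * C0) := by
          rw [hK2, Real.mul_rpow p0.le p1.le]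
          ring
  -- the gap
  have f3 : b ≤ K3 * a ^ (2 - (C0 ^ 2)⁻¹) := by
    have g1 : x ^ (C0⁻¹) * r ≤ C0 ^ (C0⁻¹) * D := by
      have g2 := Real.rpow_le_rpow (by positivity) e5 (inv_nonneg.2 p0.le)
      rw [Real.mul_rpow px.le (by positivity), Real.mul_rpow p0.le (by positivity),
        ← Real.rpow_mul pr.le, ← Real.rpow_mul hD, mul_inv_cancel₀ p0.ne', Real.rpow_one,
        Real.rpow_one] at g2
      exact g2
    have g3 : a ^ ((C0 ^ 2)⁻¹) ≤ K1 ^ ((C0 ^ 2)⁻¹) * x ^ (C0⁻¹) := by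
      have g4 := Real.rpow_le_rpow ha f1 (by positivity : 0 ≤ (C0 ^ 2)⁻¹)
      rw [Real.mul_rpow pK1.le (by positivity), ← Real.rpow_mul px.le] at g4
      have g5 : C0 * (C0 ^ 2)⁻¹ = C0⁻¹ := by
        field_simp
      rw [g5] at g4
      exact g4
    have g6 : 0 < a ^ ((C0 ^ 2)⁻¹) := Real.rpow_pos_of_pos pa _
    have g7 : 0 < x ^ (C0⁻¹) := Real.rpow_pos_of_pos px _
    have g8 : 0 ≤ K1 ^ ((C0 ^ 2)⁻¹) := Real.rpow_nonneg pK1.le _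
    have g9 : 0 ≤ C0 ^ (C0⁻¹) := Real.rpow_nonneg p0.le _
    rw [Real.rpow_sub pa, Real.rpow_two, ← mul_div_assoc, le_div_iff₀ g6]
    calc b * a ^ ((C0 ^ 2)⁻¹) ≤ (C1 * r) * (K1 ^ ((C0 ^ 2)⁻¹) * x ^ (C0⁻¹)) :=
          mul_le_mul e2 g3 g6.le (by positivity)
      _ = C1 * K1 ^ ((C0 ^ 2)⁻¹) * (x ^ (C0⁻¹) * r) := by ring
      _ ≤ C1 * K1 ^ ((C0 ^ 2)⁻¹) * (C0 ^ (C0⁻¹) * D) :=
          mul_le_mul_of_nonneg_left g1 (by positivity)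
      _ ≤ C1 * K1 ^ ((C0 ^ 2)⁻¹) * (C0 ^ (C0⁻¹) * (C1 * a ^ 2)) := by
          apply mul_le_mul_of_nonneg_left _ (by positivity)
          exact mul_le_mul_of_nonneg_left e3 g9
      _ = K3 * a ^ 2 := by rw [hK3]; ring
  have n1 : 0 ≤ a ^ (2 - (C0 ^ 2)⁻¹) := Real.rpow_nonneg ha _
  have n2 : 0 ≤ a ^ (2 * C0) := Real.rpow_nonneg ha _
  have n3 : 0 ≤ x ^ C0 := Real.rpow_nonneg px.le _
  refine ⟨f3.trans (mul_le_mul_of_nonneg_right (by linarith) n1),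
    f2.trans (mul_le_mul_of_nonneg_right (by linarith) n2),
    f1.trans (mul_le_mul_of_nonneg_right (by linarith) n3)⟩

end D4

/-- module D4: the data -/
theorem exists_kp {σ : G →* GU (Fin 2)} (hL : Lat σ) (R : G → M4) (h1 : R 1 = 1)
    (hm : ∀ g h, R (g * h) = R g * R h ∨ R (g * h) = -(R g * R h)) (hS : ∀ g, SI (R g))
    (hs : ∃ C : ℝ, 1 ≤ C ∧ ∀ g, c (σ g) * rr (LR (R g)) ^ C ≤ C * Del (LR (R g)) ^ C ∧
      rr (LR (R g)) ≤ C * c (σ g) ^ C ∧ 1 ≤ C * rr (LR (R g))) :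
    ∃ P : Kp G, P.σ = σ ∧ P.R = R := by
  obtain ⟨C0, hC0, hs⟩ := hs
  obtain ⟨C1, hC1, hz⟩ := sizes
  obtain ⟨C2, hC2, hn⟩ := exists_near hL
  obtain ⟨K, hK, hnum⟩ := D4.num hC0 hC1
  have key : ∀ g, s2 (R g) ≤ K * s1 (R g) ^ (2 - (C0 ^ 2)⁻¹) ∧
      c (σ g) ≤ K * s1 (R g) ^ (2 * C0) ∧ s1 (R g) ≤ K * c (σ g) ^ C0 := by
    intro g
    obtain ⟨z1, z2, z3, z4⟩ := hz (R g) (hS g)
    obtain ⟨t1, t2, t3⟩ := hs g
    exact hnum (s1 (R g)) (s2 (R g)) (rr (LR (R g))) (Del (LR (R g))) (c (σ g))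
      (norm_nonneg _) (norm_nonneg _) (abs_nonneg _) (c_ge_one _) z1 z2 z3 z4 t1 t2 t3
      (Del_le_sq _)
  obtain ⟨C, hCd⟩ : ∃ C, C = K + C0 + C2 := ⟨_, rfl⟩
  have hCK : K ≤ C := by rw [hCd]; linarith
  have hCC0 : C0 ≤ C := by rw [hCd]; linarith
  have hCC2 : C2 ≤ C := by rw [hCd]; linarith
  have pp : ∀ (g : G) (t : ℝ), 0 ≤ s1 (R g) ^ t := fun g t => Real.rpow_nonneg (norm_nonneg _) _
  refine ⟨⟨σ, R, hL, fun g => (hS g).1, h1, ?_, C, 2 * C0, (C0 ^ 2)⁻¹, by linarith, by linarith,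
    by positivity, fun g => (key g).1.trans (mul_le_mul_of_nonneg_right hCK (pp g _)),
    fun g => (key g).2.1.trans (mul_le_mul_of_nonneg_right hCK (pp g _)), ?_, ?_⟩, rfl, rfl⟩
  · intro g h
    rcases hm g h with e | e
    · exact ⟨1, norm_one, by rw [e, one_smul]⟩
    · exact ⟨-1, by rw [norm_neg, norm_one], by rw [e, neg_smul, one_smul]⟩
  · intro g
    refine (key g).2.2.trans ?_
    have hc := c_ge_one (σ g)
    have h2 : c (σ g) ^ C0 ≤ c (σ g) ^ C := Real.rpow_le_rpow_of_exponent_le hc hCC0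
    have h3 : 0 ≤ c (σ g) ^ C0 := Real.rpow_nonneg (by linarith) _
    exact mul_le_mul hCK h2 h3 (by linarith)
  · intro θ hθ s hs1
    obtain ⟨g, n1, n2, n3⟩ := hn θ hθ s hs1
    refine ⟨g, le_trans n1 hCC2, n2, n3.trans (mul_le_mul_of_nonneg_right hCC2 (by linarith))⟩

end Pool.Agent.MPd01a95.KT
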