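import Mathlib
import Pool.Agent.Lib.MP_d01a95_gt_K.KDefs2
import Pool.Agent.Lib.MP_d01a95_gt_A.Unbd

set_option autoImplicit false
set_option linter.all false

open Matrix Filter Topology MeasureTheory
open scoped ContDiff

namespace Pool.Agent.MPd01a95.KT

open GU

variable {G : Type} [Group G]

namespace EZ

/-- the rotation of the negative plane -/
noncomputable def rot (a b : ℝ) : Matrix I6 I6 ℝ :=
  Matrix.fromBlocks 1 0 0 !![a, -b; b, a]

theorem rot_iso {a b : ℝ} (h : a ^ 2 + b ^ 2 = 1) : (rot a b)ᵀ * J (Fin 4) * rot a b = J (Fin 4) := by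
  have h1 : (!![a, -b; b, a] : Matrix (Fin 2) (Fin 2) ℝ)ᵀ * !![a, -b; b, a] = 1 := by
    ext i j
    fin_cases i <;> fin_cases j <;> simp [Matrix.mul_apply, Fin.sum_univ_two] <;> nlinarith
  unfold rot J
  rw [Matrix.fromBlocks_transpose, Matrix.fromBlocks_multiply, Matrix.fromBlocks_multiply]
  simp only [Matrix.transpose_one, Matrix.transpose_zero, Matrix.mul_one, Matrix.one_mul,
    Matrix.mul_zero, Matrix.zero_mul, add_zero, zero_add, Matrix.mul_neg, Matrix.neg_mul, h1, neg_zero]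

theorem rot_det {a b : ℝ} (h : a ^ 2 + b ^ 2 = 1) : (rot a b).det = 1 := by
  unfold rot
  rw [Matrix.det_fromBlocks_zero₁₂, Matrix.det_one, one_mul, Matrix.det_fin_two_of]
  nlinarith

theorem infinite_of_zdense (ρ : G →* Matrix I6 I6 ℝ) (hz : ZDense ρ) : Infinite G := by
  by_contra hcon
  rw [not_infinite_iff_finite] at hcon
  have := Fintype.ofFinite G
  classical
  obtain ⟨a, ha, ha2⟩ : ∃ a ∈ Set.Icc (-1 : ℝ) 1,
      a ∉ Set.range fun g : G => ρ g (Sum.inr 0) (Sum.inr 0) :=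
    (Set.Icc_infinite (by norm_num : (-1 : ℝ) < 1)).exists_notMem_finite (Set.finite_range _)
  have hb : a ^ 2 + Real.sqrt (1 - a ^ 2) ^ 2 = 1 := by
    have h1 : 0 ≤ 1 - a ^ 2 := by
      have := ha.1
      have := ha.2
      nlinarith
    rw [Real.sq_sqrt h1]
    ring
  obtain ⟨p, hp⟩ : ∃ p : MvPolynomial (I6 × I6) ℝ,
      p = ∏ g : G, (MvPolynomial.X (Sum.inr 0, Sum.inr 0) -
        MvPolynomial.C (ρ g (Sum.inr 0) (Sum.inr 0))) := ⟨_, rfl⟩
  have h2 := hz p ?_ (rot a (Real.sqrt (1 - a ^ 2))) (rot_iso hb) (rot_det hb)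
  · rw [hp, map_prod] at h2
    obtain ⟨g, -, hg⟩ := Finset.prod_eq_zero_iff.1 h2
    refine ha2 ⟨g, ?_⟩
    rw [map_sub, MvPolynomial.eval_X, MvPolynomial.eval_C] at hg
    have h3 : rot a (Real.sqrt (1 - a ^ 2)) (Sum.inr 0) (Sum.inr 0) = a := by
      simp [rot]
    simp only at hg
    rw [h3] at hg
    show ρ g (Sum.inr 0) (Sum.inr 0) = a
    linarith
  · intro g
    rw [hp, map_prod]
    refine Finset.prod_eq_zero (Finset.mem_univ g) ?_
    rw [map_sub, MvPolynomial.eval_X, MvPolynomial.eval_C]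
    simp

end EZ

/-- the middle blocks are unbounded -/
theorem mid_unb (ρ : G →* Matrix I6 I6 ℝ) (hJ : ∀ g, (ρ g)ᵀ * J (Fin 4) * ρ g = J (Fin 4))
    (hz : ZDense ρ) (hp : PropAdS ρ) : ∀ C : ℝ, ∃ g, C * Del (ρ g) < rr (ρ g) ^ 2 := by
  intro C
  have := EZ.infinite_of_zdense ρ hz
  exact A2Unb.a2_unbounded (by simp) ρ hJ hp hz C

end Pool.Agent.MPd01a95.KT
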