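import Mathlib
import Pool.Agent.Lib.MP_d01a95_gt_K.KDefs2
import Pool.Agent.Lib.MP_d01a95_gt_K.KA1
import Pool.Agent.Lib.MP_d01a95_gt_K.KA2
import Pool.Agent.Lib.MP_d01a95_gt_K.KF0

set_option autoImplicit false
set_option linter.all false

open Matrix Filter Topology MeasureTheory
open scoped ContDiff

namespace Pool.Agent.MPd01a95.KT

open GU F0

variable {G : Type} [Group G]

namespace F1

theorem sph_cb {θ : Eb} (h : θ ∈ Sph) : θ ∈ Cb := Metric.sphere_subset_closedBall h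

theorem c_pos (g : GU (Fin 2)) : 0 < c g := lt_of_lt_of_le one_pos (c_ge_one g)

/-- lower bound of the kernel -/
theorem kp_low (g : GU (Fin 2)) {θ : Eb} (hθ : θ ∈ Cb) : (c g ^ 2)⁻¹ ≤ 2 * kp (zz g) θ := by
  have h1 := kp_ge (zz_mem g) hθ
  have h2 := zz_norm g
  have h3 : ‖zz g‖ ≤ 1 := by
    have := zz_mem g
    rwa [Cb, mem_closedBall_zero_iff] at this
  have h4 := norm_nonneg (zz g)
  nlinarith

theorem kp_pos' (g : GU (Fin 2)) {θ : Eb} (hθ : θ ∈ Cb) : 0 < kp (zz g) θ := by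
  have h1 := kp_low g hθ
  have h2 : 0 < (c g ^ 2)⁻¹ := by have := c_pos g; positivity
  linarith

theorem kp_nonneg (a b : Eb) : 0 ≤ kp a b := norm_nonneg _

theorem wd_unit_sub (x y : V4) (l : ℂ) : wd (x - l • y) y = wd x y := by
  unfold wd
  congr 1
  funext i j
  simp only [Pi.sub_apply, Pi.smul_apply, smul_eq_mul]
  ring

/-- a sequence of unit vectors which is Cauchy for the wedge -/
theorem seq_lim {x : ℕ → V4} (hx : ∀ i, ‖x i‖ = 1) {K r : ℝ} (hr0 : 0 < r) (hr : r < 1)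
    (h : ∀ i, wd (x (i + 1)) (x i) ≤ K * r ^ i) :
    ∃ y : V4, ‖y‖ = 1 ∧ ∀ i, wd (x i) y ≤ 8 * K / (1 - r) * r ^ i := by
  have hu : ∀ (n : ℕ) (l : {l : ℂ // ‖l‖ = 1}), ∃ m : {l : ℂ // ‖l‖ = 1},
      ‖m.1 • x (n + 1) - l.1 • x n‖ ≤ 4 * wd (x (n + 1)) (x n) := by
    intro n l
    obtain ⟨m, hm, hd⟩ := wd_close (x (n + 1)) (l.1 • x n) (hx _) (by rw [norm_smul, l.2, hx, one_mul])
    rw [wd_smul', l.2, one_mul] at hd
    exact ⟨⟨m, hm⟩, hd⟩
  choose F hF using hu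
  let l : ℕ → {l : ℂ // ‖l‖ = 1} := fun n => Nat.rec ⟨1, norm_one⟩ (fun n l => F n l) n
  have hl : ∀ n, ‖(l (n + 1)).1 • x (n + 1) - (l n).1 • x n‖ ≤ 4 * wd (x (n + 1)) (x n) :=
    fun n => hF n (l n)
  let f : ℕ → V4 := fun n => (l n).1 • x n
  have hf1 : ∀ n, ‖f n‖ = 1 := fun n => by
    change ‖(l n).1 • x n‖ = 1
    rw [norm_smul, (l n).2, hx, one_mul]
  have hd : ∀ n, dist (f n) (f (n + 1)) ≤ 4 * K * r ^ n := fun n => by
    rw [dist_comm, dist_eq_norm]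
    refine (hl n).trans ?_
    have := h n
    linarith
  have hc : CauchySeq f := cauchySeq_of_le_geometric r (4 * K) hr hd
  obtain ⟨y, hy⟩ := cauchySeq_tendsto_of_complete hc
  have hy1 : ‖y‖ = 1 := by
    have h1 := (continuous_norm.tendsto y).comp hy
    have h2 : (norm ∘ f) = fun _ => (1 : ℝ) := funext hf1
    rw [h2] at h1
    exact tendsto_nhds_unique h1 tendsto_const_nhds
  refine ⟨y, hy1, fun i => ?_⟩
  have h3 := dist_le_of_le_geometric_of_tendsto r (4 * K) hr hd hy i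
  rw [dist_eq_norm] at h3
  have h4 : wd (x i) y = wd (f i) y := by
    change _ = wd ((l i).1 • x i) y
    rw [wd_smul, (l i).2, one_mul]
  rw [h4, ← wd_unit_sub (f i) y 1, one_smul]
  refine (wd_le _ _).trans ?_
  rw [hy1, mul_one]
  calc 2 * ‖f i - y‖ ≤ 2 * (4 * K * r ^ i / (1 - r)) := by linarith
    _ = 8 * K / (1 - r) * r ^ i := by ring

/-- transitivity for unit vectors -/
theorem tri1 {x y z : V4} (hx : ‖x‖ = 1) (hy : ‖y‖ = 1) (hz : ‖z‖ = 1) :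
    wd x z ≤ 2 * (wd x y + wd y z) := by
  have h := wd_tri x y z
  rwa [hx, hy, hz, mul_one, mul_one, mul_one] at h

section

variable (P : Kp G)

theorem R_ne (g : G) : P.R g ≠ 0 := by
  intro h
  have h1 := P.F0_s1_pos' g
  have h2 : s1 (P.R g) ≤ 0 := s1_le le_rfl fun i j => by rw [h]; simp
  linarith

theorem exists_UV : ∃ U V : G → V4, (∀ g, ‖U g‖ = 1) ∧ (∀ g, ‖V g‖ = 1) ∧ ∀ g w,
    ‖P.R g *ᵥ w - ((s1 (P.R g) : ℂ) * (V g ⬝ᵥ w)) • U g‖ ≤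
      4 * (s2 (P.R g) / s1 (P.R g)) * ‖w‖ := by
  choose U V h1 h2 h3 using fun g => rank_one (P.R g) (R_ne P g)
  exact ⟨U, V, h1, h2, h3⟩

/-- the gap in terms of the displacement -/
theorem gap1 : ∃ K e : ℝ, 0 < K ∧ 0 < e ∧ ∀ g, s2 (P.R g) / s1 (P.R g) ≤
    K * s1 (P.R g) * c (P.σ g) ^ (-e) := by
  have hC : 0 < P.C := lt_of_lt_of_le one_pos P.hC
  have hε := P.hε
  have hN := P.hN
  refine ⟨P.C * P.C ^ (P.ε / P.N), P.ε / P.N, by positivity, by positivity, fun g => ?_⟩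
  have hs := P.F0_s1_pos' g
  have hc := c_pos (P.σ g)
  have h1 : c (P.σ g) ^ (P.ε / P.N) ≤ P.C ^ (P.ε / P.N) * s1 (P.R g) ^ P.ε := by
    have := Real.rpow_le_rpow hc.le (P.lo g) (by positivity : 0 ≤ P.ε / P.N)
    rwa [Real.mul_rpow hC.le (by positivity), ← Real.rpow_mul hs.le,
      mul_div_cancel₀ _ hN.ne'] at this
  have h2 := P.gap g
  rw [Real.rpow_sub hs, Real.rpow_two] at h2
  rw [div_le_iff₀ hs, Real.rpow_neg hc.le]
  have h3 : 0 < s1 (P.R g) ^ P.ε := Real.rpow_pos_of_pos hs _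
  have h4 : 0 < c (P.σ g) ^ (P.ε / P.N) := Real.rpow_pos_of_pos hc _
  have h5 : (s1 (P.R g) ^ P.ε)⁻¹ ≤ P.C ^ (P.ε / P.N) * (c (P.σ g) ^ (P.ε / P.N))⁻¹ := by
    rw [inv_le_iff_one_le_mul₀ h3, ← div_eq_mul_inv, div_mul_eq_mul_div, one_le_div h4]
    exact h1
  calc s2 (P.R g) ≤ P.C * s1 (P.R g) ^ 2 * (s1 (P.R g) ^ P.ε)⁻¹ := by
        refine h2.trans (le_of_eq ?_)
        ring
    _ ≤ P.C * s1 (P.R g) ^ 2 * (P.C ^ (P.ε / P.N) * (c (P.σ g) ^ (P.ε / P.N))⁻¹) :=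
        mul_le_mul_of_nonneg_left h5 (by positivity)
    _ = _ := by ring

variable {U V : G → V4} (hU : ∀ g, ‖U g‖ = 1) (hV : ∀ g, ‖V g‖ = 1) (hUV : ∀ g w,
    ‖P.R g *ᵥ w - ((s1 (P.R g) : ℂ) * (V g ⬝ᵥ w)) • U g‖ ≤
      4 * (s2 (P.R g) / s1 (P.R g)) * ‖w‖)

include hU hUV in
/-- images are close to the direction -/
theorem wd_RU (g : G) (w : V4) : wd (P.R g *ᵥ w) (U g) ≤ 8 * (s2 (P.R g) / s1 (P.R g)) * ‖w‖ := by
  rw [← wd_unit_sub _ (U g) ((s1 (P.R g) : ℂ) * (V g ⬝ᵥ w))]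
  refine (wd_le _ _).trans ?_
  rw [hU, mul_one]
  have := hUV g w
  linarith

include hU hV hUV in
/-- neighbours have close directions -/
theorem step {K e : ℝ} (hK : 0 < K) (he : 0 < e) (hg : ∀ g, s2 (P.R g) / s1 (P.R g) ≤
    K * s1 (P.R g) * c (P.σ g) ^ (-e)) (B : ℝ) : ∃ K' : ℝ, 0 < K' ∧ ∀ g h : G,
      c (P.σ (g⁻¹ * h)) ≤ B → wd (U h) (U g) ≤ K' * (c (P.σ g) ^ (-e) + c (P.σ h) ^ (-e)) := by
  have hC : 0 < P.C := lt_of_lt_of_le one_pos P.hC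
  set M : ℝ := P.C * (max B 1) ^ P.C with hM
  have hM0 : 0 < M := by positivity
  refine ⟨128 * M ^ 2 * K + 8 * K, by positivity, fun g h hB => ?_⟩
  have hM1 : s1 (P.R (g⁻¹ * h)) ≤ M := by
    refine (P.up _).trans (mul_le_mul_of_nonneg_left ?_ hC.le)
    exact Real.rpow_le_rpow (c_pos _).le (hB.trans (le_max_left _ _)) hC.le
  have hM2 : s1 (P.R g) ≤ 4 * M * s1 (P.R h) := by
    have e1 : g = h * (g⁻¹ * h)⁻¹ := by group
    have h1 := P.F0_s1_mul' h (g⁻¹ * h)⁻¹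
    rw [← e1, (P.sz_inv (g⁻¹ * h)).1] at h1
    have h2 := P.F0_s1_pos' h
    nlinarith
  obtain ⟨j, hj⟩ := exists_max (V h)
  rw [hV] at hj
  set w : V4 := Pi.single j 1 with hw
  have hw1 : ‖w‖ = 1 := norm_single_one j
  have hsg := P.F0_s1_pos' g
  have hsh := P.F0_s1_pos' h
  have a1 : wd (P.R h *ᵥ w) (U g) ≤ 32 * M * (s2 (P.R g) / s1 (P.R g)) := by
    have e1 : h = g * (g⁻¹ * h) := by group
    obtain ⟨u, hu, hm⟩ := P.F0_R_mul_vec g (g⁻¹ * h)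
    rw [← e1] at hm
    rw [hm w, wd_smul, hu, one_mul]
    refine (wd_RU P hU hUV g _).trans ?_
    have h3 := norm_mulVec (P.R (g⁻¹ * h)) w
    rw [hw1, mul_one] at h3
    have h4 : 0 ≤ s2 (P.R g) / s1 (P.R g) := div_nonneg (s2_nonneg _) hsg.le
    have h5 : ‖P.R (g⁻¹ * h) *ᵥ w‖ ≤ 4 * M := by linarith
    calc 8 * (s2 (P.R g) / s1 (P.R g)) * ‖P.R (g⁻¹ * h) *ᵥ w‖
        ≤ 8 * (s2 (P.R g) / s1 (P.R g)) * (4 * M) :=
          mul_le_mul_of_nonneg_left h5 (by positivity)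
      _ = _ := by ring
  have a2 : s1 (P.R h) * wd (U h) (U g) ≤ wd (P.R h *ᵥ w) (U g) +
      8 * (s2 (P.R h) / s1 (P.R h)) := by
    have e1 : V h ⬝ᵥ w = V h j := by rw [hw, dotProduct_single_one]
    have h1 := hUV h w
    rw [hw1, mul_one, e1] at h1
    have e2 : wd (((s1 (P.R h) : ℂ) * V h j) • U h) (U g) = s1 (P.R h) * wd (U h) (U g) := by
      rw [wd_smul, norm_mul, hj, mul_one, Complex.norm_real, Real.norm_of_nonneg hsh.le]
    rw [← e2]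
    have e3 : ((s1 (P.R h) : ℂ) * V h j) • U h = P.R h *ᵥ w +
        (-1 : ℂ) • (P.R h *ᵥ w - ((s1 (P.R h) : ℂ) * V h j) • U h) := by
      rw [neg_one_smul]; abel
    rw [e3]
    refine (wd_add_left _ _ _).trans (add_le_add le_rfl ?_)
    rw [wd_smul, norm_neg, norm_one, one_mul]
    refine (wd_le _ _).trans ?_
    rw [hU, mul_one]
    linarith
  have b1 := hg g
  have b2 := hg h
  have c1 : 0 < c (P.σ g) ^ (-e) := Real.rpow_pos_of_pos (c_pos _) _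
  have c2 : 0 < c (P.σ h) ^ (-e) := Real.rpow_pos_of_pos (c_pos _) _
  have d1 : s2 (P.R g) / s1 (P.R g) ≤ 4 * M * K * s1 (P.R h) * c (P.σ g) ^ (-e) := by
    refine b1.trans ?_
    have : K * s1 (P.R g) ≤ K * (4 * M * s1 (P.R h)) := mul_le_mul_of_nonneg_left hM2 hK.le
    calc K * s1 (P.R g) * c (P.σ g) ^ (-e) ≤ K * (4 * M * s1 (P.R h)) * c (P.σ g) ^ (-e) :=
          mul_le_mul_of_nonneg_right this c1.le
      _ = _ := by ring
  have d2 : s1 (P.R h) * wd (U h) (U g) ≤ s1 (P.R h) * ((128 * M ^ 2 * K + 8 * K) *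
      (c (P.σ g) ^ (-e) + c (P.σ h) ^ (-e))) := by
    calc s1 (P.R h) * wd (U h) (U g)
        ≤ 32 * M * (4 * M * K * s1 (P.R h) * c (P.σ g) ^ (-e)) +
          8 * (K * s1 (P.R h) * c (P.σ h) ^ (-e)) := by
          refine a2.trans (add_le_add (a1.trans ?_) ?_)
          · exact mul_le_mul_of_nonneg_left d1 (by positivity)
          · exact mul_le_mul_of_nonneg_left b2 (by norm_num)
      _ = s1 (P.R h) * (128 * M ^ 2 * K * c (P.σ g) ^ (-e) + 8 * K * c (P.σ h) ^ (-e)) := by ring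
      _ ≤ _ := by
          refine mul_le_mul_of_nonneg_left ?_ hsh.le
          have : 0 ≤ 128 * M ^ 2 * K * c (P.σ h) ^ (-e) + 8 * K * c (P.σ g) ^ (-e) := by positivity
          linarith [this]
  exact le_of_mul_le_mul_left d2 hsh

end

section

variable (P : Kp G)

variable {U V : G → V4} (hU : ∀ g, ‖U g‖ = 1) (hV : ∀ g, ‖V g‖ = 1) (hUV : ∀ g w,
    ‖P.R g *ᵥ w - ((s1 (P.R g) : ℂ) * (V g ⬝ᵥ w)) • U g‖ ≤
      4 * (s2 (P.R g) / s1 (P.R g)) * ‖w‖)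

theorem exists_B (σ : G →* GU (Fin 2)) (F : Finset G) : ∃ B : ℝ, ∀ g ∈ F, c (σ g) ≤ B := by
  obtain ⟨B, hB⟩ := (F.finite_toSet.image fun g => c (σ g)).bddAbove
  exact ⟨B, fun g hg => hB ⟨g, hg, rfl⟩⟩

include hU hV hUV in
/-- the limit map along ladders -/
theorem lad {K e : ℝ} (hK : 0 < K) (he : 0 < e) (hg : ∀ g, s2 (P.R g) / s1 (P.R g) ≤
    K * s1 (P.R g) * c (P.σ g) ^ (-e)) : ∃ C K' : ℝ, 1 ≤ C ∧ 0 < K' ∧ ∃ (u : Eb → ℕ → G)
      (xi : Eb → V4), ∀ θ ∈ Sph, ‖xi θ‖ = 1 ∧ ∀ i : ℕ, Near C (P.σ (u θ i)) θ ∧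
        Real.exp i ≤ C * c (P.σ (u θ i)) ∧ c (P.σ (u θ i)) ≤ C * Real.exp i ∧
          wd (U (u θ i)) (xi θ) ≤ K' * Real.exp i ^ (-e) := by
  obtain ⟨C, F, hC, hlad⟩ := ladder P.lat
  obtain ⟨B, hB⟩ := exists_B P.σ F
  obtain ⟨K1, hK1, hstep⟩ := step P hU hV hUV hK he hg B
  have hC0 : 0 < C := by linarith
  set r : ℝ := Real.exp (-e) with hr
  have hr0 : 0 < r := Real.exp_pos _
  have hr1 : r < 1 := by rw [hr, Real.exp_lt_one_iff]; linarith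
  have hri : ∀ i : ℕ, r ^ i = Real.exp i ^ (-e) := fun i => by
    rw [hr, ← Real.exp_nat_mul, ← Real.exp_mul]
  have key : ∀ θ ∈ Sph, ∃ (u : ℕ → G) (x : V4), ‖x‖ = 1 ∧ ∀ i : ℕ, Near C (P.σ (u i)) θ ∧
      Real.exp i ≤ C * c (P.σ (u i)) ∧ c (P.σ (u i)) ≤ C * Real.exp i ∧
        wd (U (u i)) x ≤ (8 * (2 * K1 * C ^ e) / (1 - r)) * Real.exp i ^ (-e) := by
    intro θ hθ
    obtain ⟨u, -, hu⟩ := hlad θ hθ
    have hci : ∀ i : ℕ, c (P.σ (u i)) ^ (-e) ≤ C ^ e * r ^ i := fun i => by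
      rw [hri, Real.rpow_neg (c_pos _).le, Real.rpow_neg (Real.exp_pos _).le]
      have h1 := (hu i).2.1
      have h2 := Real.rpow_le_rpow (Real.exp_pos _).le h1 he.le
      rw [Real.mul_rpow hC0.le (c_pos _).le] at h2
      have h3 : 0 < c (P.σ (u i)) ^ e := Real.rpow_pos_of_pos (c_pos _) _
      have h4 : 0 < Real.exp (i : ℝ) ^ e := Real.rpow_pos_of_pos (Real.exp_pos _) _
      rw [inv_le_iff_one_le_mul₀ h3, ← div_eq_mul_inv, div_mul_eq_mul_div, one_le_div h4]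
      exact h2
    obtain ⟨y, hy1, hy2⟩ := seq_lim (x := fun i => U (u i)) (fun i => hU _) (K := 2 * K1 * C ^ e)
      hr0 hr1 (fun i => by
        have h1 := hstep (u i) (u (i + 1)) (hB _ (hu i).2.2.2)
        have h2 := hci i
        have h3 := hci (i + 1)
        have h4 : r ^ (i + 1) ≤ r ^ i := pow_le_pow_of_le_one hr0.le hr1.le (Nat.le_succ i)
        have h5 : 0 < C ^ e := Real.rpow_pos_of_pos hC0 _
        refine h1.trans ?_
        have h6 : C ^ e * r ^ (i + 1) ≤ C ^ e * r ^ i := mul_le_mul_of_nonneg_left h4 h5.le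
        calc K1 * (c (P.σ (u i)) ^ (-e) + c (P.σ (u (i + 1))) ^ (-e))
            ≤ K1 * (C ^ e * r ^ i + C ^ e * r ^ i) :=
              mul_le_mul_of_nonneg_left (by linarith) hK1.le
          _ = _ := by ring)
    refine ⟨u, y, hy1, fun i => ⟨(hu i).1, (hu i).2.1, (hu i).2.2.1, ?_⟩⟩
    rw [← hri]
    exact hy2 i
  refine ⟨C, 8 * (2 * K1 * C ^ e) / (1 - r), hC, ?_, ?_⟩
  · have : 0 < 1 - r := by linarith
    have h5 : 0 < C ^ e := Real.rpow_pos_of_pos hC0 _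
    positivity
  · choose! u xi h using key
    exact ⟨u, xi, h⟩

include hU hV hUV in
/-- elements near a point -/
theorem near_xi {K e : ℝ} (hK : 0 < K) (he : 0 < e) (hg : ∀ g, s2 (P.R g) / s1 (P.R g) ≤
    K * s1 (P.R g) * c (P.σ g) ^ (-e)) {C K' : ℝ} (hC : 1 ≤ C) (hK' : 0 < K')
    {u : Eb → ℕ → G} {xi : Eb → V4} (hu : ∀ θ ∈ Sph, ‖xi θ‖ = 1 ∧ ∀ i : ℕ,
      Near C (P.σ (u θ i)) θ ∧ Real.exp i ≤ C * c (P.σ (u θ i)) ∧
        c (P.σ (u θ i)) ≤ C * Real.exp i ∧ wd (U (u θ i)) (xi θ) ≤ K' * Real.exp i ^ (-e))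
    (C' : ℝ) : ∃ L : ℝ, 0 < L ∧ ∀ g, ∀ θ ∈ Sph, Near C' (P.σ g) θ →
      wd (U g) (xi θ) ≤ L * c (P.σ g) ^ (-e) := by
  have hC0 : 0 < C := by linarith
  set C2 : ℝ := max C' (C * Real.exp 1) with hC2
  obtain ⟨F, hF⟩ := near_fin P.lat C2
  obtain ⟨B, hB⟩ := exists_B P.σ F
  obtain ⟨K1, hK1, hstep⟩ := step P hU hV hUV hK he hg B
  have hE : 1 ≤ Real.exp 1 := Real.one_le_exp zero_le_one
  have hE0 := Real.exp_pos 1
  have hCE : C ≤ C * Real.exp 1 := by nlinarith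
  refine ⟨2 * (K1 * (1 + (C * Real.exp 1) ^ e) + K' * Real.exp 1 ^ e), by positivity,
    fun g θ hθ hn => ?_⟩
  have hcg := c_ge_one (P.σ g)
  have hcg0 := c_pos (P.σ g)
  set i : ℕ := ⌊Real.log (c (P.σ g))⌋₊ with hi
  have hlog : 0 ≤ Real.log (c (P.σ g)) := Real.log_nonneg hcg
  have hi1 : (i : ℝ) ≤ Real.log (c (P.σ g)) := Nat.floor_le hlog
  have hi2 : Real.log (c (P.σ g)) < i + 1 := Nat.lt_floor_add_one _
  have he1 : Real.exp i ≤ c (P.σ g) := by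
    rw [← Real.exp_log hcg0]
    exact Real.exp_le_exp.mpr hi1
  have he2 : c (P.σ g) ≤ Real.exp 1 * Real.exp i := by
    rw [← Real.exp_add]
    conv_lhs => rw [← Real.exp_log hcg0]
    exact Real.exp_le_exp.mpr (by linarith)
  obtain ⟨hx1, hx⟩ := hu θ hθ
  obtain ⟨n1, n2, n3, n4⟩ := hx i
  set h := u θ i with hh
  have hch0 := c_pos (P.σ h)
  have hfin : h⁻¹ * g ∈ F := by
    refine hF h g θ hθ (n1.trans ?_) (hn.trans (le_max_left _ _)) ?_ ?_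
    · exact hCE.trans (le_max_right _ _)
    · calc c (P.σ h) ≤ C * Real.exp i := n3
        _ ≤ C * c (P.σ g) := mul_le_mul_of_nonneg_left he1 hC0.le
        _ ≤ C2 * c (P.σ g) := mul_le_mul_of_nonneg_right (hCE.trans (le_max_right _ _)) hcg0.le
    · calc c (P.σ g) ≤ Real.exp 1 * Real.exp i := he2
        _ ≤ Real.exp 1 * (C * c (P.σ h)) := mul_le_mul_of_nonneg_left n2 hE0.le
        _ = (C * Real.exp 1) * c (P.σ h) := by ring
        _ ≤ C2 * c (P.σ h) := mul_le_mul_of_nonneg_right (le_max_right _ _) hch0.le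
  have hst := hstep h g (hB _ hfin)
  have ht := tri1 (hU g) (hU h) hx1
  have hc1 : c (P.σ h) ^ (-e) ≤ (C * Real.exp 1) ^ e * c (P.σ g) ^ (-e) := by
    have h1 : c (P.σ g) ≤ (C * Real.exp 1) * c (P.σ h) := by
      refine he2.trans ((mul_le_mul_of_nonneg_left n2 hE0.le).trans (le_of_eq ?_))
      ring
    rw [Real.rpow_neg hch0.le, Real.rpow_neg hcg0.le]
    have h2 := Real.rpow_le_rpow hcg0.le h1 he.le
    rw [Real.mul_rpow (by positivity) hch0.le] at h2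
    have h3 : 0 < c (P.σ h) ^ e := Real.rpow_pos_of_pos hch0 _
    have h4 : 0 < c (P.σ g) ^ e := Real.rpow_pos_of_pos hcg0 _
    rw [inv_le_iff_one_le_mul₀ h3, ← div_eq_mul_inv, div_mul_eq_mul_div, one_le_div h4]
    exact h2
  have hc2 : Real.exp i ^ (-e) ≤ Real.exp 1 ^ e * c (P.σ g) ^ (-e) := by
    rw [Real.rpow_neg (Real.exp_pos _).le, Real.rpow_neg hcg0.le]
    have h2 := Real.rpow_le_rpow hcg0.le he2 he.le
    rw [Real.mul_rpow hE0.le (Real.exp_pos _).le] at h2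
    have h3 : 0 < Real.exp (i : ℝ) ^ e := Real.rpow_pos_of_pos (Real.exp_pos _) _
    have h4 : 0 < c (P.σ g) ^ e := Real.rpow_pos_of_pos hcg0 _
    rw [inv_le_iff_one_le_mul₀ h3, ← div_eq_mul_inv, div_mul_eq_mul_div, one_le_div h4]
    exact h2
  calc wd (U g) (xi θ) ≤ 2 * (wd (U g) (U h) + wd (U h) (xi θ)) := ht
    _ ≤ 2 * (K1 * ((C * Real.exp 1) ^ e * c (P.σ g) ^ (-e) + c (P.σ g) ^ (-e)) +
        K' * (Real.exp 1 ^ e * c (P.σ g) ^ (-e))) := by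
        refine mul_le_mul_of_nonneg_left (add_le_add ?_ ?_) (by norm_num)
        · exact hst.trans (mul_le_mul_of_nonneg_left (by linarith) hK1.le)
        · exact n4.trans (mul_le_mul_of_nonneg_left hc2 hK'.le)
    _ = _ := by ring

/-- powers of the kernel control powers of the displacement -/
theorem c_pow_le (g : GU (Fin 2)) {θ : Eb} (hθ : θ ∈ Cb) {e : ℝ} (he : 0 < e) :
    c g ^ (-e) ≤ (2 : ℝ) ^ (e / 2) * kp (zz g) θ ^ (e / 2) := by
  have h1 := kp_low g hθ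
  have h0 := c_pos g
  have h2 := Real.rpow_le_rpow (by positivity) h1 (by positivity : 0 ≤ e / 2)
  rw [Real.mul_rpow (by norm_num) (kp_nonneg _ _)] at h2
  refine le_trans (le_of_eq ?_) h2
  rw [← Real.rpow_natCast, ← Real.rpow_neg h0.le, ← Real.rpow_mul h0.le]
  congr 1
  push_cast
  ring

end

end F1

open F1

/-- module F1: the limit map -/
theorem exists_xi (P : Kp G) : ∃ xi : Eb → V4, (∀ θ ∈ Sph, ‖xi θ‖ = 1) ∧
    ∃ C ε : ℝ, 0 < ε ∧ ∀ g, ∀ θ ∈ Sph, ∀ w : V4,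
      wd (P.R g *ᵥ w) (xi θ) ≤ C * s1 (P.R g) * ‖w‖ * kp (zz (P.σ g)) θ ^ ε := by
  obtain ⟨U, V, hU, hV, hUV⟩ := exists_UV P
  obtain ⟨K, e, hK, he, hg⟩ := gap1 P
  obtain ⟨C, K', hC, hK', u, xi, hu⟩ := lad P hU hV hUV hK he hg
  have hPC : 1 ≤ P.C := P.hC
  -- the constants
  set C2 : ℝ := 4 * (4 * (P.C + P.C ^ 2) + 2 * P.C ^ 2) + P.C + 1 with hC2
  obtain ⟨L, hL, hnear⟩ := near_xi P hU hV hUV hK he hg hC hK' hu C2
  have hxi : ∀ θ ∈ Sph, ‖xi θ‖ = 1 := fun θ hθ => (hu θ hθ).1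
  -- the main estimate for the directions
  have main : ∃ M : ℝ, 0 < M ∧ ∀ g, ∀ θ ∈ Sph, wd (U g) (xi θ) ≤ M * kp (zz (P.σ g)) θ ^ (e / 2) := by
    refine ⟨(2 : ℝ) ^ (e / 2) * (2 * L + 2) + 8 * L + 8, by positivity, fun g θ hθ => ?_⟩
    set κ : ℝ := kp (zz (P.σ g)) θ with hκ
    have hκ0 : 0 < κ := kp_pos' _ (sph_cb hθ)
    have hκe : 0 < κ ^ (e / 2) := Real.rpow_pos_of_pos hκ0 _
    have h2e : 0 < (2 : ℝ) ^ (e / 2) := Real.rpow_pos_of_pos (by norm_num) _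
    rcases le_or_gt (1 / 2) κ with hbig | hsmall
    · -- trivial bound
      have h1 := wd_le (U g) (xi θ)
      rw [hU, hxi θ hθ] at h1
      have h2 : 1 ≤ (2 : ℝ) ^ (e / 2) * κ ^ (e / 2) := by
        rw [← Real.mul_rpow (by norm_num) hκ0.le]
        exact Real.one_le_rpow (by linarith) (by positivity)
      have h3 : 0 ≤ (2 : ℝ) ^ (e / 2) * (2 * L) * κ ^ (e / 2) := by positivity
      have h4 : 0 ≤ (8 * L + 8) * κ ^ (e / 2) := by positivity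
      calc wd (U g) (xi θ) ≤ 2 := by linarith
        _ ≤ 2 * ((2 : ℝ) ^ (e / 2) * κ ^ (e / 2)) := by linarith
        _ ≤ 2 * ((2 : ℝ) ^ (e / 2) * κ ^ (e / 2)) + (2 : ℝ) ^ (e / 2) * (2 * L) * κ ^ (e / 2) +
            (8 * L + 8) * κ ^ (e / 2) := by linarith
        _ = _ := by ring
    · -- the direction of g
      set z := zz (P.σ g) with hz
      have hzc : z ∈ Cb := zz_mem _
      have hz1 : ‖z‖ ≤ 1 := by rwa [Cb, mem_closedBall_zero_iff] at hzc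
      have hzk : 1 - ‖z‖ ≤ κ := kp_ge hzc (sph_cb hθ)
      have hz0 : 0 < ‖z‖ := by linarith
      set θ' : Eb := ((‖z‖⁻¹ : ℝ) : ℂ) • z with hθ'
      have hθ's : θ' ∈ Sph := by
        rw [Sph, mem_sphere_zero_iff_norm, hθ', norm_smul, Complex.norm_real, norm_inv, norm_norm,
          inv_mul_cancel₀ hz0.ne']
      have hkz : kp z θ' = 1 - ‖z‖ := by
        unfold kp
        rw [hθ', inner_smul_right, inner_self_eq_norm_sq_to_K]
        have : (1 : ℂ) - ((‖z‖⁻¹ : ℝ) : ℂ) * ((‖z‖ : ℂ)) ^ 2 = ((1 - ‖z‖ : ℝ) : ℂ) := by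
          push_cast
          have h0 : (‖z‖ : ℂ) ≠ 0 := by exact_mod_cast hz0.ne'
          field_simp
        erw [this]
        rw [Complex.norm_real, Real.norm_of_nonneg (by linarith)]
      have hcz := zz_norm (P.σ g)
      rw [← hz] at hcz
      have hcg0 := c_pos (P.σ g)
      have hkz2 : kp z θ' ≤ (c (P.σ g) ^ 2)⁻¹ := by
        rw [hkz]
        nlinarith
      have hkl : (c (P.σ g) ^ 2)⁻¹ ≤ 2 * κ := kp_low _ (sph_cb hθ)
      -- the element k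
      set s : ℝ := κ ^ (-(1 / 2 : ℝ)) with hs
      have hs1 : 1 ≤ s := Real.one_le_rpow_of_pos_of_le_one_of_nonpos hκ0 (by linarith) (by norm_num)
      have hs0 : 0 < s := by linarith
      have hs2 : s ^ 2 * κ = 1 := by
        rw [hs, ← Real.rpow_natCast, ← Real.rpow_mul hκ0.le]
        norm_num
        rw [Real.rpow_neg_one, inv_mul_cancel₀ hκ0.ne']
      obtain ⟨k, hk1, hk2, hk3⟩ := P.near θ hθ s hs1
      have hck0 := c_pos (P.σ k)
      have hkk : kp (zz (P.σ k)) θ * c (P.σ k) ^ 2 ≤ P.C := hk1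
      have hκk : κ * c (P.σ k) ^ 2 ≤ P.C ^ 2 := by
        have h1 : c (P.σ k) ^ 2 ≤ (P.C * s) ^ 2 := pow_le_pow_left₀ hck0.le hk3 2
        calc κ * c (P.σ k) ^ 2 ≤ κ * (P.C * s) ^ 2 := mul_le_mul_of_nonneg_left h1 hκ0.le
          _ = P.C ^ 2 * (s ^ 2 * κ) := by ring
          _ = P.C ^ 2 := by rw [hs2, mul_one]
      have hnk' : Near C2 (P.σ k) θ' := by
        have t1 := kp_tri (zz_mem (P.σ k)) (sph_cb hθ's) hzc
        have t2 := kp_tri hzc (zz_mem (P.σ k)) (sph_cb hθ)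
        rw [kp_symm θ z, kp_symm θ (zz (P.σ k))] at t2
        have hk20 : 0 < c (P.σ k) ^ 2 := by positivity
        have t3 : kp (zz (P.σ k)) θ' ≤ 4 * (4 * (κ + kp (zz (P.σ k)) θ) + 2 * κ) := by
          refine t1.trans ?_
          have : kp z (zz (P.σ k)) ≤ 4 * (κ + kp (zz (P.σ k)) θ) := t2
          linarith
        unfold Near
        calc kp (zz (P.σ k)) θ' * c (P.σ k) ^ 2
            ≤ 4 * (4 * (κ + kp (zz (P.σ k)) θ) + 2 * κ) * c (P.σ k) ^ 2 :=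
              mul_le_mul_of_nonneg_right t3 hk20.le
          _ = 4 * (4 * (κ * c (P.σ k) ^ 2 + kp (zz (P.σ k)) θ * c (P.σ k) ^ 2) +
                2 * (κ * c (P.σ k) ^ 2)) := by ring
          _ ≤ C2 := by rw [hC2]; linarith
      have hnk : Near C2 (P.σ k) θ := hk1.trans (by rw [hC2]; nlinarith)
      have hng : Near C2 (P.σ g) θ' := by
        unfold Near
        rw [← hz]
        have hg20 : 0 < c (P.σ g) ^ 2 := by positivity
        calc kp z θ' * c (P.σ g) ^ 2 ≤ (c (P.σ g) ^ 2)⁻¹ * c (P.σ g) ^ 2 :=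
              mul_le_mul_of_nonneg_right hkz2 hg20.le
          _ = 1 := inv_mul_cancel₀ hg20.ne'
          _ ≤ C2 := by rw [hC2]; nlinarith
      have b1 := hnear g θ' hθ's hng
      have b2 := hnear k θ' hθ's hnk'
      have b3 := hnear k θ hθ hnk
      have hcg := c_pow_le (P.σ g) (sph_cb hθ) he
      have hck : c (P.σ k) ^ (-e) ≤ κ ^ (e / 2) := by
        have h1 : s ^ e ≤ c (P.σ k) ^ e := Real.rpow_le_rpow hs0.le hk2 he.le
        have h2 : κ ^ (e / 2) = (s ^ e)⁻¹ := by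
          rw [hs, ← Real.rpow_mul hκ0.le, ← Real.rpow_neg hκ0.le]
          congr 1
          ring
        rw [h2, Real.rpow_neg hck0.le]
        exact inv_anti₀ (Real.rpow_pos_of_pos hs0 _) h1
      have t1 := tri1 (hU g) (hxi θ' hθ's) (hxi θ hθ)
      have t2 := tri1 (hxi θ' hθ's) (hU k) (hxi θ hθ)
      rw [wd_symm (xi θ') (U k)] at t2
      have e1 : L * c (P.σ g) ^ (-e) ≤ L * ((2 : ℝ) ^ (e / 2) * κ ^ (e / 2)) :=
        mul_le_mul_of_nonneg_left hcg hL.le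
      have e2 : L * c (P.σ k) ^ (-e) ≤ L * κ ^ (e / 2) := mul_le_mul_of_nonneg_left hck hL.le
      have h5 : 0 ≤ (2 : ℝ) ^ (e / 2) * κ ^ (e / 2) := by positivity
      calc wd (U g) (xi θ) ≤ 2 * (L * ((2 : ℝ) ^ (e / 2) * κ ^ (e / 2)) +
            2 * (L * κ ^ (e / 2) + L * κ ^ (e / 2))) := by linarith
        _ ≤ 2 * (L * ((2 : ℝ) ^ (e / 2) * κ ^ (e / 2)) +
            2 * (L * κ ^ (e / 2) + L * κ ^ (e / 2))) + 2 * ((2 : ℝ) ^ (e / 2) * κ ^ (e / 2)) +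
              8 * κ ^ (e / 2) := by linarith
        _ = _ := by ring
  obtain ⟨M, hM, hmain⟩ := main
  refine ⟨xi, hxi, 4 * M + 8 * K * (2 : ℝ) ^ (e / 2), e / 2, by positivity, fun g θ hθ w => ?_⟩
  have hs := P.F0_s1_pos' g
  have h1 := hmain g θ hθ
  have h2 := hUV g w
  have h3 : ‖V g ⬝ᵥ w‖ ≤ 4 * ‖w‖ := by
    unfold dotProduct
    refine norm_sum4_le fun i => ?_
    rw [norm_mul]
    have e1 := norm_le_pi_norm (V g) i
    rw [hV] at e1
    calc ‖V g i‖ * ‖w i‖ ≤ 1 * ‖w‖ :=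
          mul_le_mul e1 (norm_le_pi_norm w i) (norm_nonneg _) zero_le_one
      _ = ‖w‖ := one_mul _
  have e3 : P.R g *ᵥ w = ((s1 (P.R g) : ℂ) * (V g ⬝ᵥ w)) • U g +
      (P.R g *ᵥ w - ((s1 (P.R g) : ℂ) * (V g ⬝ᵥ w)) • U g) := by abel
  have h4 : s2 (P.R g) / s1 (P.R g) ≤ K * s1 (P.R g) *
      ((2 : ℝ) ^ (e / 2) * kp (zz (P.σ g)) θ ^ (e / 2)) :=
    (hg g).trans (mul_le_mul_of_nonneg_left (c_pow_le (P.σ g) (sph_cb hθ) he) (by positivity))
  rw [e3]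
  have hκ : 0 ≤ kp (zz (P.σ g)) θ ^ (e / 2) := Real.rpow_nonneg (kp_nonneg _ _) _
  calc wd (((s1 (P.R g) : ℂ) * (V g ⬝ᵥ w)) • U g +
        (P.R g *ᵥ w - ((s1 (P.R g) : ℂ) * (V g ⬝ᵥ w)) • U g)) (xi θ)
      ≤ wd (((s1 (P.R g) : ℂ) * (V g ⬝ᵥ w)) • U g) (xi θ) +
        wd (P.R g *ᵥ w - ((s1 (P.R g) : ℂ) * (V g ⬝ᵥ w)) • U g) (xi θ) := wd_add_left _ _ _
    _ ≤ s1 (P.R g) * (4 * ‖w‖) * (M * kp (zz (P.σ g)) θ ^ (e / 2)) +
        2 * (4 * (K * s1 (P.R g) *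
          ((2 : ℝ) ^ (e / 2) * kp (zz (P.σ g)) θ ^ (e / 2))) * ‖w‖) := by
        refine add_le_add ?_ ?_
        · rw [wd_smul, norm_mul, Complex.norm_real, Real.norm_of_nonneg hs.le]
          exact mul_le_mul (mul_le_mul_of_nonneg_left h3 hs.le) h1 (wd_nonneg _ _) (by positivity)
        · refine (wd_le _ _).trans ?_
          rw [hxi θ hθ, mul_one]
          refine mul_le_mul_of_nonneg_left (h2.trans ?_) (by norm_num)
          refine mul_le_mul_of_nonneg_right ?_ (norm_nonneg _)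
          exact mul_le_mul_of_nonneg_left h4 (by norm_num)
    _ = _ := by ring

end Pool.Agent.MPd01a95.KT
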