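import Mathlib
import Pool.Agent.Lib.MP_d01a95_gt_K.KDefs2
import Pool.Agent.Lib.MP_d01a95_gt_K.KA1
import Pool.Agent.Lib.MP_d01a95_gt_K.KA2
import Pool.Agent.Lib.MP_d01a95_gt_K.KA4
import Pool.Agent.Lib.MP_d01a95_gt_K.KF0
import Pool.Agent.Lib.MP_d01a95_gt_K.KF1

set_option autoImplicit false
set_option linter.all false

open Matrix Filter Topology MeasureTheory
open scoped ContDiff

namespace Pool.Agent.MPd01a95.KT

open GU F0

variable {G : Type} [Group G]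

namespace F2

open F1

theorem hf_cont : Continuous fun p : V4 × V4 => hf p.1 p.2 := by
  unfold hf CW.hh
  have h1 : ∀ i : Fin 4, Continuous fun p : V4 × V4 => p.1 i := fun i =>
    (continuous_apply i).comp continuous_fst
  have h2 : ∀ i : Fin 4, Continuous fun p : V4 × V4 => star (p.2 i) := fun i =>
    continuous_star.comp ((continuous_apply i).comp continuous_snd)
  exact ((((h1 0).mul (h2 0)).add ((h1 1).mul (h2 1))).sub ((h1 2).mul (h2 2))).sub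
    ((h1 3).mul (h2 3))

theorem wd_cont (y : V4) : Continuous fun x : V4 => wd x y := by
  unfold wd
  refine continuous_norm.comp (continuous_pi fun i => continuous_pi fun j => ?_)
  exact ((continuous_apply i).mul continuous_const).sub ((continuous_apply j).mul continuous_const)

theorem kp_le_dist {θ θ' : Eb} (h : θ ∈ Sph) : kp θ θ' ≤ ‖θ' - θ‖ := by
  unfold kp
  have hn : ‖θ‖ = 1 := by rwa [Sph, mem_sphere_zero_iff_norm] at h
  have e : (1 : ℂ) - inner ℂ θ θ' = - inner ℂ θ (θ' - θ) := by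
    rw [inner_sub_right, inner_self_eq_norm_sq_to_K, hn]
    simp
  rw [e, norm_neg]
  refine (norm_inner_le_norm _ _).trans ?_
  rw [hn, one_mul]

theorem kp_ab_le (g : GU (Fin 2)) {z w : Eb} (hz : z ∈ Cb) (hw : w ∈ Cb) :
    kp (ab g z) (ab g w) ≤ 4 * c g ^ 2 * kp z w := by
  have h1 := kp_ab g hz hw
  have hj : ∀ {x : Eb}, x ∈ Cb → 1 ≤ 2 * c g * ja g x := fun {x} hx => by
    rw [ja_eq g hx, kp_symm]
    have h2 := kp_low g⁻¹ hx
    rw [c_inv] at h2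
    have h0 := c_pos g
    have h3 : 1 ≤ c g ^ 2 * (2 * kp (zz g⁻¹) x) := by
      have := mul_le_mul_of_nonneg_left h2 (by positivity : 0 ≤ c g ^ 2)
      rwa [mul_inv_cancel₀ (by positivity)] at this
    linarith
  have h0 := c_pos g
  have ha := hj hz
  have hb := hj hw
  have hk := kp_nonneg (ab g z) (ab g w)
  have hab : 1 ≤ 4 * c g ^ 2 * (ja g z * ja g w) := by
    have h5 : 1 ≤ (2 * c g * ja g z) * (2 * c g * ja g w) := one_le_mul_of_one_le_of_one_le ha hb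
    linarith
  calc kp (ab g z) (ab g w) = kp (ab g z) (ab g w) * 1 := (mul_one _).symm
    _ ≤ kp (ab g z) (ab g w) * (4 * c g ^ 2 * (ja g z * ja g w)) := mul_le_mul_of_nonneg_left hab hk
    _ = 4 * c g ^ 2 * (kp (ab g z) (ab g w) * (ja g z * ja g w)) := by ring
    _ = _ := by rw [h1]

theorem zero_cb : (0 : Eb) ∈ Cb := by
  rw [Cb, mem_closedBall_zero_iff, norm_zero]; exact zero_le_one

theorem zz_mul (g h : GU (Fin 2)) : zz (g * h) = ab g (zz h) := by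
  unfold zz
  exact ab_mul g h zero_cb

theorem rpow_small {C ε : ℝ} (hC : 0 < C) (hε : 0 < ε) {η : ℝ} (hη : 0 < η) :
    ∃ δ : ℝ, 0 < δ ∧ ∀ x : ℝ, 0 ≤ x → x ≤ δ → C * x ^ ε < η := by
  refine ⟨(η / (2 * C)) ^ (1 / ε), by positivity, fun x hx hx2 => ?_⟩
  have h1 := Real.rpow_le_rpow hx hx2 hε.le
  rw [← Real.rpow_mul (by positivity), one_div, inv_mul_cancel₀ hε.ne', Real.rpow_one] at h1
  calc C * x ^ ε ≤ C * (η / (2 * C)) := mul_le_mul_of_nonneg_left h1 hC.le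
    _ = η / 2 := by field_simp
    _ < η := by linarith

section lm

variable (P : Kp G) (xi : Eb → V4) (h1 : ∀ θ ∈ Sph, ‖xi θ‖ = 1)
  {C ε : ℝ} (hC : 0 < C) (hε : 0 < ε) (h2 : ∀ g, ∀ θ ∈ Sph, ∀ w : V4,
      wd (P.R g *ᵥ w) (xi θ) ≤ C * s1 (P.R g) * ‖w‖ * kp (zz (P.σ g)) θ ^ ε)

/-- the column of the maximal entry -/
theorem col (g : G) : ∃ j : Fin 4, ‖P.R g *ᵥ (Pi.single j 1 : V4)‖ = s1 (P.R g) := by
  obtain ⟨i, j, hij⟩ := exists_max2 (P.R g)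
  refine ⟨j, le_antisymm ?_ ?_⟩
  · rw [mulVec_single_one]
    exact (pi_norm_le_iff_of_nonneg (s1_nonneg _)).mpr fun i => le_s1 _ i j
  · rw [mulVec_single_one, ← hij]
    exact norm_le_pi_norm (fun i => P.R g i j) i

include h1 h2 in
/-- a unit vector in the image close to the limit line -/
theorem dir (g : G) {θ : Eb} (hθ : θ ∈ Sph) : ∃ j : Fin 4, ∃ l : ℂ, ‖l‖ * s1 (P.R g) = 1 ∧
    ‖l • (P.R g *ᵥ (Pi.single j 1 : V4)) - xi θ‖ ≤ 4 * (C * kp (zz (P.σ g)) θ ^ ε) := by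
  obtain ⟨j, hj⟩ := col P g
  have hs := P.F0_s1_pos' g
  set m : ℂ := (((s1 (P.R g))⁻¹ : ℝ) : ℂ) with hm
  have hmn : ‖m‖ = (s1 (P.R g))⁻¹ := by
    rw [hm, Complex.norm_real, Real.norm_of_nonneg (by positivity)]
  have hx : ‖m • (P.R g *ᵥ (Pi.single j 1 : V4))‖ = 1 := by
    rw [norm_smul, hj, hmn, inv_mul_cancel₀ hs.ne']
  obtain ⟨l, hl, hd⟩ := wd_close _ (xi θ) hx (h1 θ hθ)
  refine ⟨j, l * m, ?_, ?_⟩
  · rw [norm_mul, hl, one_mul, hmn, inv_mul_cancel₀ hs.ne']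
  · rw [← smul_smul]
    refine hd.trans (mul_le_mul_of_nonneg_left ?_ (by norm_num))
    rw [wd_smul, hmn]
    have h3 := h2 g θ hθ (Pi.single j 1)
    rw [norm_single_one, mul_one] at h3
    calc (s1 (P.R g))⁻¹ * wd (P.R g *ᵥ (Pi.single j 1 : V4)) (xi θ)
        ≤ (s1 (P.R g))⁻¹ * (C * s1 (P.R g) * kp (zz (P.σ g)) θ ^ ε) :=
          mul_le_mul_of_nonneg_left h3 (by positivity)
      _ = C * kp (zz (P.σ g)) θ ^ ε * ((s1 (P.R g))⁻¹ * s1 (P.R g)) := by ring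
      _ = _ := by rw [inv_mul_cancel₀ hs.ne', mul_one]

/-- sequences converging to a point -/
theorem exists_seq {θ : Eb} (hθ : θ ∈ Sph) : ∃ g : ℕ → G,
    Tendsto (fun n => c (P.σ (g n))) atTop atTop ∧
      Tendsto (fun n => kp (zz (P.σ (g n))) θ) atTop (𝓝 0) ∧
        ∀ n, Near P.C (P.σ (g n)) θ := by
  have h : ∀ n : ℕ, ∃ g, Near P.C (P.σ g) θ ∧ ((n : ℝ) + 1) ≤ c (P.σ g) := fun n => by
    obtain ⟨g, hg1, hg2, -⟩ := P.near θ hθ (n + 1) (by linarith [n.cast_nonneg (α := ℝ)])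
    exact ⟨g, hg1, hg2⟩
  choose g hg1 hg2 using h
  have ht : Tendsto (fun n => c (P.σ (g n))) atTop atTop := by
    refine tendsto_atTop_mono hg2 ?_
    exact tendsto_atTop_add_const_right _ _ tendsto_natCast_atTop_atTop
  refine ⟨g, ht, ?_, hg1⟩
  have h3 : ∀ n, kp (zz (P.σ (g n))) θ ≤ P.C / c (P.σ (g n)) := fun n => by
    have h4 := hg1 n
    unfold Near at h4
    have h5 := c_ge_one (P.σ (g n))
    have h6 := c_pos (P.σ (g n))
    rw [le_div_iff₀ h6]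
    refine le_trans ?_ h4
    refine mul_le_mul_of_nonneg_left ?_ (kp_nonneg _ _)
    nlinarith
  exact squeeze_zero (fun n => kp_nonneg _ _) h3 (Tendsto.const_div_atTop ht _)

theorem s1_tendsto {g : ℕ → G} (hg : Tendsto (fun n => c (P.σ (g n))) atTop atTop) :
    Tendsto (fun n => s1 (P.R (g n))) atTop atTop := by
  refine tendsto_atTop.mpr fun M => ?_
  obtain ⟨S, hS⟩ := P.F0_s1_large M
  exact (tendsto_atTop.mp hg S).mono fun n hn => hS _ hn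

theorem rpow_zero {f : ℕ → ℝ} (hε : 0 < ε) (hf : Tendsto f atTop (𝓝 0)) :
    Tendsto (fun n => f n ^ ε) atTop (𝓝 0) := by
  have := hf.rpow_const (p := ε) (Or.inr hε.le)
  rwa [Real.zero_rpow hε.ne'] at this

include h1 h2 hε in
/-- unit vectors in the images converging to the limit line -/
theorem dir_seq {g : ℕ → G} {θ : Eb} (hθ : θ ∈ Sph)
    (hk : Tendsto (fun n => kp (zz (P.σ (g n))) θ) atTop (𝓝 0)) :
    ∃ (j : ℕ → Fin 4) (l : ℕ → ℂ), (∀ n, ‖l n‖ * s1 (P.R (g n)) = 1) ∧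
      Tendsto (fun n => l n • (P.R (g n) *ᵥ (Pi.single (j n) 1 : V4))) atTop (𝓝 (xi θ)) := by
  choose j l hl hd using fun n => dir P xi h1 h2 (g n) hθ
  refine ⟨j, l, hl, ?_⟩
  rw [tendsto_iff_norm_sub_tendsto_zero]
  refine squeeze_zero (fun n => norm_nonneg _) hd ?_
  have := ((rpow_zero hε hk).const_mul C).const_mul 4
  simpa using this

end lm

end F2

open F1 F2

theorem F2.pos_const {P : Kp G} {xi : Eb → V4} (h2 : ∃ C ε : ℝ, 0 < ε ∧ ∀ g, ∀ θ ∈ Sph, ∀ w : V4,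
      wd (P.R g *ᵥ w) (xi θ) ≤ C * s1 (P.R g) * ‖w‖ * kp (zz (P.σ g)) θ ^ ε) :
    ∃ C ε : ℝ, 0 < C ∧ 0 < ε ∧ ∀ g, ∀ θ ∈ Sph, ∀ w : V4,
      wd (P.R g *ᵥ w) (xi θ) ≤ C * s1 (P.R g) * ‖w‖ * kp (zz (P.σ g)) θ ^ ε := by
  obtain ⟨C, ε, hε, h⟩ := h2
  refine ⟨max C 1, ε, by positivity, hε, fun g θ hθ w => (h g θ hθ w).trans ?_⟩
  have h3 : 0 ≤ s1 (P.R g) * ‖w‖ * kp (zz (P.σ g)) θ ^ ε := by
    have := s1_nonneg (P.R g)
    have := Real.rpow_nonneg (kp_nonneg (zz (P.σ g)) θ) ε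
    positivity
  calc C * s1 (P.R g) * ‖w‖ * kp (zz (P.σ g)) θ ^ ε
      = C * (s1 (P.R g) * ‖w‖ * kp (zz (P.σ g)) θ ^ ε) := by ring
    _ ≤ max C 1 * (s1 (P.R g) * ‖w‖ * kp (zz (P.σ g)) θ ^ ε) :=
        mul_le_mul_of_nonneg_right (le_max_left _ _) h3
    _ = _ := by ring

section lm

variable (P : Kp G) (xi : Eb → V4) (h1 : ∀ θ ∈ Sph, ‖xi θ‖ = 1)
  (h2 : ∃ C ε : ℝ, 0 < ε ∧ ∀ g, ∀ θ ∈ Sph, ∀ w : V4,
      wd (P.R g *ᵥ w) (xi θ) ≤ C * s1 (P.R g) * ‖w‖ * kp (zz (P.σ g)) θ ^ ε)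

include h1 h2

/-- module F2 -/
theorem xi_eqv : ∀ g, ∀ θ ∈ Sph, ∃ l : ℂ, l ≠ 0 ∧ P.R g *ᵥ xi θ = l • xi (ab (P.σ g) θ) := by
  intro g θ hθ
  obtain ⟨C, ε, hC, hε, h2⟩ := pos_const h2
  obtain ⟨u, hu1, hu2, -⟩ := exists_seq P hθ
  obtain ⟨j, l, hl, ht⟩ := dir_seq P xi h1 hε h2 hθ hu2
  set θ' := ab (P.σ g) θ with hθ'
  have hθ's : θ' ∈ Sph := ab_sph _ hθ
  have hs := P.F0_s1_pos' g
  -- the wedge with the limit line of `g θ`
  have hb : ∀ n, wd (P.R g *ᵥ (l n • (P.R (u n) *ᵥ (Pi.single (j n) 1 : V4)))) (xi θ') ≤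
      C * (4 * s1 (P.R g)) * (4 * c (P.σ g) ^ 2 * kp (zz (P.σ (u n))) θ) ^ ε := fun n => by
    obtain ⟨a, ha, hm⟩ := P.F0_R_mul_vec g (u n)
    have e1 : wd (P.R g *ᵥ (P.R (u n) *ᵥ (Pi.single (j n) 1 : V4))) (xi θ') =
        wd (P.R (g * u n) *ᵥ (Pi.single (j n) 1 : V4)) (xi θ') := by
      rw [hm, wd_smul, ha, one_mul]
    rw [Matrix.mulVec_smul, wd_smul, e1]
    have h3 := h2 (g * u n) θ' hθ's (Pi.single (j n) 1)
    rw [norm_single_one, mul_one, map_mul, zz_mul] at h3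
    have h4 := kp_ab_le (P.σ g) (zz_mem (P.σ (u n))) (sph_cb hθ)
    have h5 := P.F0_s1_mul' g (u n)
    have h6 := Real.rpow_le_rpow (kp_nonneg _ _) h4 hε.le
    have h7 : 0 ≤ kp (ab (P.σ g) (zz (P.σ (u n)))) θ' ^ ε := Real.rpow_nonneg (kp_nonneg _ _) _
    have h8 : wd (P.R (g * u n) *ᵥ (Pi.single (j n) 1 : V4)) (xi θ') ≤
        C * (4 * s1 (P.R g) * s1 (P.R (u n))) *
          (4 * c (P.σ g) ^ 2 * kp (zz (P.σ (u n))) θ) ^ ε := by
      refine h3.trans (mul_le_mul (mul_le_mul_of_nonneg_left h5 hC.le) h6 h7 ?_)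
      have := P.F0_s1_pos' (u n)
      positivity
    calc ‖l n‖ * wd (P.R (g * u n) *ᵥ (Pi.single (j n) 1 : V4)) (xi θ')
        ≤ ‖l n‖ * (C * (4 * s1 (P.R g) * s1 (P.R (u n))) *
          (4 * c (P.σ g) ^ 2 * kp (zz (P.σ (u n))) θ) ^ ε) :=
          mul_le_mul_of_nonneg_left h8 (norm_nonneg _)
      _ = C * (4 * s1 (P.R g)) * (4 * c (P.σ g) ^ 2 * kp (zz (P.σ (u n))) θ) ^ ε *
          (‖l n‖ * s1 (P.R (u n))) := by ring
      _ = _ := by rw [hl, mul_one]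
  have hz : Tendsto (fun n => C * (4 * s1 (P.R g)) *
      (4 * c (P.σ g) ^ 2 * kp (zz (P.σ (u n))) θ) ^ ε) atTop (𝓝 0) := by
    have h3 := hu2.const_mul (4 * c (P.σ g) ^ 2)
    rw [mul_zero] at h3
    have h4 := (rpow_zero hε h3).const_mul (C * (4 * s1 (P.R g)))
    rwa [mul_zero] at h4
  have hw0 : Tendsto (fun n => wd (P.R g *ᵥ (l n • (P.R (u n) *ᵥ (Pi.single (j n) 1 : V4)))) (xi θ'))
      atTop (𝓝 0) := squeeze_zero (fun n => wd_nonneg _ _) hb hz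
  have hw1 : Tendsto (fun n => wd (P.R g *ᵥ (l n • (P.R (u n) *ᵥ (Pi.single (j n) 1 : V4)))) (xi θ'))
      atTop (𝓝 (wd (P.R g *ᵥ xi θ) (xi θ'))) := by
    have hc : Continuous fun x : V4 => wd (P.R g *ᵥ x) (xi θ') :=
      (wd_cont (xi θ')).comp (Continuous.matrix_mulVec continuous_const continuous_id)
    exact (hc.tendsto _).comp ht
  have hw := tendsto_nhds_unique hw1 hw0
  obtain ⟨m, -, hm⟩ := wd_decomp (P.R g *ᵥ xi θ) (xi θ') (h1 θ' hθ's)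
  rw [hw] at hm
  have he : P.R g *ᵥ xi θ = m • xi θ' := by
    rw [← sub_eq_zero]
    exact norm_le_zero_iff.mp hm
  refine ⟨m, fun h0 => ?_, he⟩
  rw [h0, zero_smul] at he
  obtain ⟨-, -, -, -, e2, -⟩ := iso_inv (P.F0_iso g)
  have h3 : xi θ = 0 := by
    rw [← Matrix.one_mulVec (xi θ), ← e2, ← Matrix.mulVec_mulVec, he, Matrix.mulVec_zero]
  have h4 := h1 θ hθ
  rw [h3, norm_zero] at h4
  exact zero_ne_one h4

/-- module F2 -/
theorem xi_null : ∀ θ ∈ Sph, hf (xi θ) (xi θ) = 0 := by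
  intro θ hθ
  obtain ⟨C, ε, hC, hε, h2⟩ := pos_const h2
  obtain ⟨u, hu1, hu2, -⟩ := exists_seq P hθ
  obtain ⟨j, l, hl, ht⟩ := dir_seq P xi h1 hε h2 hθ hu2
  have hs := s1_tendsto P hu1
  have hl0 : Tendsto (fun n => ‖l n‖) atTop (𝓝 0) := by
    have e : (fun n => ‖l n‖) = fun n => (s1 (P.R (u n)))⁻¹ := by
      funext n
      exact eq_inv_of_mul_eq_one_left (hl n)
    rw [e]
    exact tendsto_inv_atTop_zero.comp hs
  have h3 : ∀ n, ‖hf (l n • (P.R (u n) *ᵥ (Pi.single (j n) 1 : V4)))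
      (l n • (P.R (u n) *ᵥ (Pi.single (j n) 1 : V4)))‖ ≤ 4 * (‖l n‖ * ‖l n‖) := fun n => by
    rw [hf_smul_left, hf_smul_right, P.pres, norm_mul, norm_mul, norm_star, ← mul_assoc]
    have h4 := hf_bd (Pi.single (j n) 1) (Pi.single (j n) 1)
    rw [norm_single_one, mul_one, mul_one] at h4
    calc ‖l n‖ * ‖l n‖ * ‖hf (Pi.single (j n) 1) (Pi.single (j n) 1)‖ ≤ ‖l n‖ * ‖l n‖ * 4 :=
          mul_le_mul_of_nonneg_left h4 (by positivity)
      _ = _ := by ring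
  have h4 : Tendsto (fun n => 4 * (‖l n‖ * ‖l n‖)) atTop (𝓝 0) := by
    have := (hl0.mul hl0).const_mul 4
    simpa using this
  have h5 := squeeze_zero (fun n => norm_nonneg _) h3 h4
  have h6 : Tendsto (fun n => hf (l n • (P.R (u n) *ᵥ (Pi.single (j n) 1 : V4)))
      (l n • (P.R (u n) *ᵥ (Pi.single (j n) 1 : V4)))) atTop (𝓝 (hf (xi θ) (xi θ))) := by
    have hc : Continuous fun x : V4 => hf x x := hf_cont.comp (continuous_id.prodMk continuous_id)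
    exact (hc.tendsto _).comp ht
  have h7 := tendsto_nhds_unique h6.norm h5
  exact norm_eq_zero.mp h7

/-- module F2 -/
theorem xi_cont : ∀ θ ∈ Sph, ∀ η : ℝ, 0 < η → ∃ δ : ℝ, 0 < δ ∧ ∀ θ' ∈ Sph, ‖θ' - θ‖ < δ →
    ∃ l : ℂ, ‖l‖ = 1 ∧ ‖l • xi θ' - xi θ‖ < η := by
  intro θ hθ η hη
  obtain ⟨C, ε, hC, hε, h2⟩ := pos_const h2
  obtain ⟨δ, hδ, hδ2⟩ := rpow_small (by positivity : 0 < 16 * C) hε hη
  obtain ⟨u, hu1, hu2, -⟩ := exists_seq P hθ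
  have hev : ∀ᶠ n in atTop, kp (zz (P.σ (u n))) θ < δ / 8 :=
    (tendsto_order.mp hu2).2 _ (by positivity)
  obtain ⟨n, hn⟩ := hev.exists
  refine ⟨δ / 8, by positivity, fun θ' hθ' hd => ?_⟩
  set g := u n with hg
  obtain ⟨j, hj⟩ := col P g
  have hs := P.F0_s1_pos' g
  have hk' : kp (zz (P.σ g)) θ' ≤ δ := by
    have t := kp_tri (zz_mem (P.σ g)) (sph_cb hθ') (sph_cb hθ)
    have t2 := kp_le_dist (θ' := θ') hθ
    rw [kp_symm θ (zz (P.σ g))] at t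
    linarith
  have hk : kp (zz (P.σ g)) θ ≤ δ := by linarith
  set m : ℂ := (((s1 (P.R g))⁻¹ : ℝ) : ℂ) with hm
  have hmn : ‖m‖ = (s1 (P.R g))⁻¹ := by
    rw [hm, Complex.norm_real, Real.norm_of_nonneg (by positivity)]
  have hx : ‖m • (P.R g *ᵥ (Pi.single j 1 : V4))‖ = 1 := by
    rw [norm_smul, hj, hmn, inv_mul_cancel₀ hs.ne']
  have hw : ∀ φ ∈ Sph, wd (m • (P.R g *ᵥ (Pi.single j 1 : V4))) (xi φ) ≤
      C * kp (zz (P.σ g)) φ ^ ε := fun φ hφ => by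
    rw [wd_smul, hmn]
    have h3 := h2 g φ hφ (Pi.single j 1)
    rw [norm_single_one, mul_one] at h3
    calc (s1 (P.R g))⁻¹ * wd (P.R g *ᵥ (Pi.single j 1 : V4)) (xi φ)
        ≤ (s1 (P.R g))⁻¹ * (C * s1 (P.R g) * kp (zz (P.σ g)) φ ^ ε) :=
          mul_le_mul_of_nonneg_left h3 (by positivity)
      _ = C * kp (zz (P.σ g)) φ ^ ε * ((s1 (P.R g))⁻¹ * s1 (P.R g)) := by ring
      _ = _ := by rw [inv_mul_cancel₀ hs.ne', mul_one]
  have hw1 := hw θ hθ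
  have hw2 := hw θ' hθ'
  have ht := tri1 (h1 θ' hθ') hx (h1 θ hθ)
  rw [wd_symm (xi θ') (m • (P.R g *ᵥ (Pi.single j 1 : V4)))] at ht
  obtain ⟨l, hl, hd2⟩ := wd_close (xi θ') (xi θ) (h1 θ' hθ') (h1 θ hθ)
  refine ⟨l, hl, lt_of_le_of_lt hd2 ?_⟩
  have a1 := hδ2 _ (kp_nonneg _ _) hk
  have a2 := hδ2 _ (kp_nonneg _ _) hk'
  linarith

end lm

end Pool.Agent.MPd01a95.KT
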