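import Mathlib
import Pool.Agent.Lib.MP_d01a95_gt_K.KDefs2
import Pool.Agent.Lib.MP_d01a95_gt_K.KA1
import Pool.Agent.Lib.MP_d01a95_gt_K.KA2
import Pool.Agent.Lib.MP_d01a95_gt_K.KA3
import Pool.Agent.Lib.MP_d01a95_gt_K.KA4
import Pool.Agent.Lib.MP_d01a95_gt_K.KA5
import Pool.Agent.Lib.MP_d01a95_gt_K.KF0
import Pool.Agent.Lib.MP_d01a95_gt_K.KF2

set_option autoImplicit false
set_option linter.all false

open Matrix Filter Topology MeasureTheory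
open scoped ContDiff

namespace Pool.Agent.MPd01a95.KT

open GU

variable {G : Type} [Group G]

/-! ### auxiliary lemmas on the ball -/

theorem F3_zero_mem : (0 : Eb) ∈ Cb := Metric.mem_closedBall_self zero_le_one

theorem F3_sph {θ : Eb} (h : θ ∈ Sph) : θ ∈ Cb := Metric.sphere_subset_closedBall h

theorem F3_kp_nonneg (a b : Eb) : 0 ≤ kp a b := norm_nonneg _

theorem F3_zz (g h : GU (Fin 2)) : zz (g⁻¹ * h) = ab g⁻¹ (zz h) := ab_mul g⁻¹ h F3_zero_mem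

theorem F3_c_pos (g : GU (Fin 2)) : 0 < c g := lt_of_lt_of_le one_pos (c_ge_one g)

theorem F3_lo (g : GU (Fin 2)) {b : Eb} (hb : b ∈ Cb) : 1 / 2 ≤ kp (zz g) b * c g ^ 2 := by
  have h1 := kp_ge (zz_mem g) hb
  have h2 := zz_norm g
  have h3 : (c g ^ 2)⁻¹ / 2 ≤ kp (zz g) b := by
    nlinarith [sq_nonneg (1 - ‖zz g‖)]
  have h4 : 0 < c g ^ 2 := pow_pos (F3_c_pos g) 2
  have h5 := mul_le_mul_of_nonneg_right h3 h4.le
  have h6 : (c g ^ 2)⁻¹ / 2 * c g ^ 2 = 1 / 2 := by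
    rw [div_mul_eq_mul_div, inv_mul_cancel₀ h4.ne']
  linarith

theorem F3_key (g h : GU (Fin 2)) {w : Eb} (hw : w ∈ Cb) :
    kp (zz (g⁻¹ * h)) (ab g⁻¹ w) * c (g⁻¹ * h) ^ 2 * kp (zz g) w =
      c h ^ 2 * kp (zz h) w * kp (zz g) (zz h) := by
  have h1 := kp_act g (zz_mem h) hw
  rw [kp_symm (zz h) (zz g), kp_symm w (zz g)] at h1
  rw [F3_zz, c_div]
  linear_combination (c h ^ 2 * kp (zz g) (zz h)) * h1

theorem F3_bd1 {C : ℝ} (hC : 1 ≤ C) {g h : GU (Fin 2)} {θ : Eb} (hθ : θ ∈ Sph)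
    (hg : Near C g θ) (hh : Near C h θ) (hc : c g ≤ C ^ 2 * c h) :
    kp (zz (g⁻¹ * h)) (ab g⁻¹ θ) * c (g⁻¹ * h) ^ 2 ≤ 4 * C * (1 + 2 * C ^ 5) := by
  have hθ' := F3_sph hθ
  have hkey := F3_key g h hθ'
  have ha := F3_c_pos g
  have hb := F3_c_pos h
  have hlo := F3_lo g hθ'
  have htri := kp_tri (zz_mem g) (zz_mem h) hθ'
  rw [kp_symm θ (zz g), kp_symm θ (zz h)] at htri
  have hx0 := F3_kp_nonneg (zz g) θ
  have hy0 := F3_kp_nonneg (zz h) θ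
  have hz0 := F3_kp_nonneg (zz g) (zz h)
  unfold Near at hg hh
  set N := kp (zz (g⁻¹ * h)) (ab g⁻¹ θ) * c (g⁻¹ * h) ^ 2 with hN
  set x := kp (zz g) θ with hx
  set y := kp (zz h) θ with hy
  set z := kp (zz g) (zz h) with hz
  set a := c g with hadef
  set b := c h with hbdef
  have hC0 : 0 < C := by linarith
  have ha2 : 0 < a ^ 2 := by positivity
  have hxpos : 0 < x := by
    by_contra hn
    have : x = 0 := le_antisymm (not_lt.1 hn) hx0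
    rw [this] at hlo
    linarith
  have h1 : a ^ 2 ≤ C ^ 4 * b ^ 2 := by
    have := pow_le_pow_left₀ ha.le hc 2
    calc a ^ 2 ≤ (C ^ 2 * b) ^ 2 := this
      _ = C ^ 4 * b ^ 2 := by ring
  have h2 : y * a ^ 2 ≤ C ^ 5 := by
    calc y * a ^ 2 ≤ y * (C ^ 4 * b ^ 2) := mul_le_mul_of_nonneg_left h1 hy0
      _ = C ^ 4 * (y * b ^ 2) := by ring
      _ ≤ C ^ 4 * C := mul_le_mul_of_nonneg_left hh (by positivity)
      _ = C ^ 5 := by ring
  have h3 : y ≤ 2 * C ^ 5 * x := by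
    have h4 : y * a ^ 2 ≤ (2 * C ^ 5 * x) * a ^ 2 := by
      have h5 : C ^ 5 * (1 / 2) ≤ C ^ 5 * (x * a ^ 2) :=
        mul_le_mul_of_nonneg_left hlo (by positivity)
      nlinarith
    exact le_of_mul_le_mul_right h4 ha2
  have h4 : N * x ≤ 4 * C * (1 + 2 * C ^ 5) * x := by
    rw [hkey]
    have h5 : b ^ 2 * y ≤ C := by rw [mul_comm]; exact hh
    have h6 : z ≤ 4 * (1 + 2 * C ^ 5) * x := by nlinarith
    calc b ^ 2 * y * z ≤ C * z := mul_le_mul_of_nonneg_right h5 hz0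
      _ ≤ C * (4 * (1 + 2 * C ^ 5) * x) := mul_le_mul_of_nonneg_left h6 hC0.le
      _ = 4 * C * (1 + 2 * C ^ 5) * x := by ring
  exact le_of_mul_le_mul_right h4 hxpos

theorem F3_bd2 {C : ℝ} (hC : 1 ≤ C) {g h : GU (Fin 2)} {θ θ' : Eb} (hθ : θ ∈ Sph)
    (hθ' : θ' ∈ Sph) (hκ : 0 < kp θ θ') (hg : Near C g θ) (hh : Near C h θ)
    (hc : c h ≤ C ^ 2 * c g) :
    kp (zz (g⁻¹ * h)) (ab g⁻¹ θ') * c (g⁻¹ * h) ^ 2 ≤
      8 * (C ^ 5 + C) * (16 * C / kp θ θ') := by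
  have mθ := F3_sph hθ
  have mθ' := F3_sph hθ'
  have hkey := F3_key g h mθ'
  have ha := F3_c_pos g
  have hb := F3_c_pos h
  have hlo := F3_lo g mθ'
  have htri := kp_tri (zz_mem g) (zz_mem h) mθ
  have htri2 := kp_tri mθ mθ' (zz_mem g)
  have h2 := kp_le_two (zz_mem h) mθ'
  rw [kp_symm θ (zz g), kp_symm θ (zz h)] at htri
  have hx0 := F3_kp_nonneg (zz g) θ
  have hy0 := F3_kp_nonneg (zz h) θ
  have hz0 := F3_kp_nonneg (zz g) (zz h)
  have hp0 := F3_kp_nonneg (zz h) θ'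
  have hw0 := F3_kp_nonneg (zz g) θ'
  unfold Near at hg hh
  set N := kp (zz (g⁻¹ * h)) (ab g⁻¹ θ') * c (g⁻¹ * h) ^ 2 with hN
  set x := kp (zz g) θ with hx
  set y := kp (zz h) θ with hy
  set z := kp (zz g) (zz h) with hz
  set w := kp (zz g) θ' with hw
  set p := kp (zz h) θ' with hp
  set κ := kp θ θ' with hκdef
  set a := c g with hadef
  set b := c h with hbdef
  have hC0 : 0 < C := by linarith
  have ha2 : 0 < a ^ 2 := by positivity
  have h1 : b ^ 2 ≤ C ^ 4 * a ^ 2 := by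
    have := pow_le_pow_left₀ hb.le hc 2
    calc b ^ 2 ≤ (C ^ 2 * a) ^ 2 := this
      _ = C ^ 4 * a ^ 2 := by ring
  have h3 : b ^ 2 * x ≤ C ^ 5 := by
    calc b ^ 2 * x ≤ C ^ 4 * a ^ 2 * x := mul_le_mul_of_nonneg_right h1 hx0
      _ = C ^ 4 * (x * a ^ 2) := by ring
      _ ≤ C ^ 4 * C := mul_le_mul_of_nonneg_left hg (by positivity)
      _ = C ^ 5 := by ring
  have h4 : b ^ 2 * z ≤ 4 * (C ^ 5 + C) := by
    have h5 : b ^ 2 * z ≤ b ^ 2 * (4 * (x + y)) := mul_le_mul_of_nonneg_left htri (by positivity)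
    nlinarith
  have h6 : N * w ≤ 8 * (C ^ 5 + C) := by
    rw [hkey]
    calc b ^ 2 * p * z = (b ^ 2 * z) * p := by ring
      _ ≤ (b ^ 2 * z) * 2 := mul_le_mul_of_nonneg_left h2 (by positivity)
      _ ≤ 4 * (C ^ 5 + C) * 2 := mul_le_mul_of_nonneg_right h4 (by norm_num)
      _ = 8 * (C ^ 5 + C) := by ring
  have h7 : κ / (16 * C) ≤ w := by
    rw [div_le_iff₀ (by positivity)]
    by_cases hcase : x ≤ κ / 8
    · nlinarith
    · rw [not_le] at hcase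
      -- `C ≥ x a^2 > κ a^2 / 8`
      have h8 : κ * a ^ 2 ≤ 8 * C := by nlinarith
      have h9 : κ ≤ κ * a ^ 2 * (2 * w) := by
        have : κ * 1 ≤ κ * (2 * (w * a ^ 2)) := mul_le_mul_of_nonneg_left (by linarith) hκ.le
        nlinarith
      have h10 : κ * a ^ 2 * (2 * w) ≤ 8 * C * (2 * w) :=
        mul_le_mul_of_nonneg_right h8 (by linarith)
      nlinarith
  have hN0 : 0 ≤ N := mul_nonneg (F3_kp_nonneg _ _) (by positivity)
  have h11 : N * (κ / (16 * C)) ≤ 8 * (C ^ 5 + C) :=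
    (mul_le_mul_of_nonneg_left h7 hN0).trans h6
  have h12 : N * κ ≤ 8 * (C ^ 5 + C) * (16 * C) := by
    rw [← mul_div_assoc, div_le_iff₀ (by positivity)] at h11
    exact h11
  rw [← mul_div_assoc, le_div_iff₀ hκ]
  exact h12

/-! ### linear algebra -/

theorem F3_hf {x y : V4} (hx : ‖x‖ = 1) (hy : ‖y‖ = 1) (h : hf x y = 0) (x' y' : V4) :
    ‖hf x' y'‖ ≤ 4 * (wd x' x * ‖y'‖ + ‖x'‖ * wd y' y) := by
  obtain ⟨l, hl, hr⟩ := F0.wd_decomp x' x hx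
  obtain ⟨m, hm, hs⟩ := F0.wd_decomp y' y hy
  have e : hf x' y' = l * hf x (y' - m • y) + hf (x' - l • x) y' := by
    rw [F0.hf_sub_right, F0.hf_smul_right, h, mul_zero, sub_zero, F0.hf_sub_left,
      F0.hf_smul_left]
    ring
  rw [e]
  refine (norm_add_le _ _).trans ?_
  rw [norm_mul]
  have h1 := hf_bd x (y' - m • y)
  have h2 := hf_bd (x' - l • x) y'
  rw [hx] at h1
  have h3 : ‖l‖ * ‖hf x (y' - m • y)‖ ≤ ‖x'‖ * (4 * wd y' y) := by
    refine mul_le_mul hl ?_ (norm_nonneg _) (norm_nonneg _)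
    refine h1.trans ?_
    nlinarith
  have h4 : ‖hf (x' - l • x) y'‖ ≤ 4 * wd x' x * ‖y'‖ := by
    refine h2.trans ?_
    exact mul_le_mul_of_nonneg_right (by linarith) (norm_nonneg _)
  nlinarith

theorem F3_entry (P : Kp G) (g h : G) (a b : Fin 4) :
    ‖P.R (g * h) a b‖ = ‖hf (P.R h *ᵥ (Pi.single b 1)) (P.R g⁻¹ *ᵥ (Pi.single a 1))‖ := by
  obtain ⟨u, hu, he⟩ := P.F0_R_mul_vec g⁻¹ (g * h)
  have h1 : P.R h *ᵥ (Pi.single b 1) =
      u • (P.R g⁻¹ *ᵥ (P.R (g * h) *ᵥ (Pi.single b 1))) := by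
    rw [← he, inv_mul_cancel_left]
  rw [h1, F0.hf_smul_left, P.pres, F0.hf_single, norm_mul, norm_mul, hu, F0.norm_sg, one_mul,
    one_mul, F0.mulVec_single_one]

theorem F3_vec (P : Kp G) (g : G) (b : Fin 4) : ‖P.R g *ᵥ (Pi.single b 1)‖ ≤ 4 * s1 (P.R g) := by
  have h := norm_mulVec (P.R g) (Pi.single b 1)
  rwa [F0.norm_single_one, mul_one] at h

section lm

variable (P : Kp G) (xi : Eb → V4) (h1 : ∀ θ ∈ Sph, ‖xi θ‖ = 1)
  (h2 : ∃ C ε : ℝ, 0 < ε ∧ ∀ g, ∀ θ ∈ Sph, ∀ w : V4,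
      wd (P.R g *ᵥ w) (xi θ) ≤ C * s1 (P.R g) * ‖w‖ * kp (zz (P.σ g)) θ ^ ε)

include h1 h2

/-- module F3: transversality -/
theorem xi_tv : ∀ θ ∈ Sph, ∀ θ' ∈ Sph, θ ≠ θ' → hf (xi θ) (xi θ') ≠ 0 := by
  intro θ hθ θ' hθ' hne hzero
  have heqv := xi_eqv P xi h1 h2
  obtain ⟨C0, ε0, hε0, hest⟩ := h2
  have hκ : 0 < kp θ θ' := kp_pos (F3_sph hθ) (F3_sph hθ') hne
  obtain ⟨C, F, hC, hlad⟩ := ladder P.lat
  obtain ⟨u, -, hu⟩ := hlad θ hθ
  have hC0 : 0 < C := by linarith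
  have hC2 : 1 ≤ C ^ 2 := one_le_pow₀ hC
  obtain ⟨C', hC', hnt⟩ := near_two (C ^ 2) hC2
  have hCle : C ≤ C ^ 2 := by nlinarith
  -- monotonicity along the ladder
  have hmono : ∀ i j : ℕ, i ≤ j → c (P.σ (u i)) ≤ C ^ 2 * c (P.σ (u j)) := by
    intro i j hij
    obtain ⟨-, -, h3, -⟩ := hu i
    obtain ⟨-, h4, -, -⟩ := hu j
    have h5 : Real.exp i ≤ Real.exp j := Real.exp_le_exp.2 (by exact_mod_cast hij)
    calc c (P.σ (u i)) ≤ C * Real.exp i := h3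
      _ ≤ C * Real.exp j := mul_le_mul_of_nonneg_left h5 hC0.le
      _ ≤ C * (C * c (P.σ (u j))) := mul_le_mul_of_nonneg_left h4 hC0.le
      _ = C ^ 2 * c (P.σ (u j)) := by ring
  have hnear2 : ∀ i, Near (C ^ 2) (P.σ (u i)) θ := fun i => (hu i).1.trans hCle
  -- (A)
  have hA : ∀ i j : ℕ, i ≤ j →
      c ((P.σ (u i))⁻¹ * P.σ (u j)) ≤ C' * C ^ 2 * Real.exp ((j : ℝ) - i) ∧
      Real.exp ((j : ℝ) - i) ≤ C' * C ^ 2 * c ((P.σ (u i))⁻¹ * P.σ (u j)) := by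
    intro i j hij
    obtain ⟨h3, h4⟩ := hnt (P.σ (u i)) (P.σ (u j)) θ hθ (hnear2 i) (hnear2 j) (hmono i j hij)
    obtain ⟨-, h5, h6, -⟩ := hu i
    obtain ⟨-, h7, h8, -⟩ := hu j
    have hci := F3_c_pos (P.σ (u i))
    have hcj := F3_c_pos (P.σ (u j))
    have hcij := F3_c_pos ((P.σ (u i))⁻¹ * P.σ (u j))
    have hei := Real.exp_pos (i : ℝ)
    have hej := Real.exp_pos (j : ℝ)
    have hsub : Real.exp ((j : ℝ) - i) * Real.exp i = Real.exp j := by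
      rw [← Real.exp_add]
      congr 1
      ring
    constructor
    · have h9 : c ((P.σ (u i))⁻¹ * P.σ (u j)) * Real.exp i ≤
          (C' * C ^ 2 * Real.exp ((j : ℝ) - i)) * Real.exp i := by
        calc c ((P.σ (u i))⁻¹ * P.σ (u j)) * Real.exp i
            ≤ c ((P.σ (u i))⁻¹ * P.σ (u j)) * (C * c (P.σ (u i))) :=
              mul_le_mul_of_nonneg_left h5 hcij.le
          _ = C * (c ((P.σ (u i))⁻¹ * P.σ (u j)) * c (P.σ (u i))) := by ring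
          _ ≤ C * (C' * c (P.σ (u j))) := mul_le_mul_of_nonneg_left h3 hC0.le
          _ ≤ C * (C' * (C * Real.exp j)) := by
              refine mul_le_mul_of_nonneg_left (mul_le_mul_of_nonneg_left h8 ?_) hC0.le
              linarith
          _ = (C' * C ^ 2 * Real.exp ((j : ℝ) - i)) * Real.exp i := by
              rw [mul_assoc (C' * C ^ 2), hsub]
              ring
      exact le_of_mul_le_mul_right h9 hei
    · have h9 : Real.exp ((j : ℝ) - i) * Real.exp i ≤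
          (C' * C ^ 2 * c ((P.σ (u i))⁻¹ * P.σ (u j))) * Real.exp i := by
        rw [hsub]
        calc Real.exp j ≤ C * c (P.σ (u j)) := h7
          _ ≤ C * (C' * (c ((P.σ (u i))⁻¹ * P.σ (u j)) * c (P.σ (u i)))) :=
              mul_le_mul_of_nonneg_left h4 hC0.le
          _ ≤ C * (C' * (c ((P.σ (u i))⁻¹ * P.σ (u j)) * (C * Real.exp i))) := by
              refine mul_le_mul_of_nonneg_left (mul_le_mul_of_nonneg_left
                (mul_le_mul_of_nonneg_left h6 hcij.le) ?_) hC0.le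
              linarith
          _ = (C' * C ^ 2 * c ((P.σ (u i))⁻¹ * P.σ (u j))) * Real.exp i := by ring
      exact le_of_mul_le_mul_right h9 hei
  have hcinv : ∀ i j : ℕ, c ((P.σ (u j))⁻¹ * P.σ (u i)) = c ((P.σ (u i))⁻¹ * P.σ (u j)) := by
    intro i j
    rw [← c_inv ((P.σ (u i))⁻¹ * P.σ (u j))]
    congr 1
    group
  -- the constants
  set B : ℝ := 4 * C * (1 + 2 * C ^ 5) + 8 * (C ^ 5 + C) * (16 * C / kp θ θ') with hB
  have hB1 : 0 ≤ 4 * C * (1 + 2 * C ^ 5) := by positivity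
  have hB2 : 0 ≤ 8 * (C ^ 5 + C) * (16 * C / kp θ θ') := by positivity
  set Q : ℝ := B * (C' * C ^ 2) ^ 2 with hQ
  have hQ0 : 0 ≤ Q := by
    rw [hQ, hB]
    positivity
  -- general bound from the product bound
  have hgen : ∀ (t N : ℝ) (i j : ℕ), i ≤ j → 0 ≤ t →
      t * c ((P.σ (u i))⁻¹ * P.σ (u j)) ^ 2 ≤ N → N ≤ B →
      t ^ ε0 ≤ Q ^ ε0 * Real.exp (-(2 * ε0 * ((j : ℝ) - i))) := by
    intro t N i j hij ht hN hNB
    have h3 := (hA i j hij).2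
    have hcij := F3_c_pos ((P.σ (u i))⁻¹ * P.σ (u j))
    have hexp := Real.exp_pos ((j : ℝ) - i)
    have h4 : t * Real.exp ((j : ℝ) - i) ^ 2 ≤ Q := by
      have h5 := pow_le_pow_left₀ hexp.le h3 2
      calc t * Real.exp ((j : ℝ) - i) ^ 2
          ≤ t * (C' * C ^ 2 * c ((P.σ (u i))⁻¹ * P.σ (u j))) ^ 2 :=
            mul_le_mul_of_nonneg_left h5 ht
        _ = (t * c ((P.σ (u i))⁻¹ * P.σ (u j)) ^ 2) * (C' * C ^ 2) ^ 2 := by ring
        _ ≤ B * (C' * C ^ 2) ^ 2 := mul_le_mul_of_nonneg_right (hN.trans hNB) (by positivity)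
    have h6 : t ≤ Q * Real.exp (-(2 * ((j : ℝ) - i))) := by
      have h7 : t = t * Real.exp ((j : ℝ) - i) ^ 2 * Real.exp (-(2 * ((j : ℝ) - i))) := by
        rw [mul_assoc, ← Real.exp_nat_mul, ← Real.exp_add]
        have : ((2 : ℕ) : ℝ) * ((j : ℝ) - i) + -(2 * ((j : ℝ) - i)) = 0 := by
          push_cast
          ring
        rw [this, Real.exp_zero, mul_one]
      rw [h7]
      exact mul_le_mul_of_nonneg_right h4 (Real.exp_pos _).le
    have h8 := Real.rpow_le_rpow ht h6 hε0.le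
    rw [Real.mul_rpow hQ0 (Real.exp_pos _).le, ← Real.exp_mul] at h8
    have h9 : -(2 * ((j : ℝ) - i)) * ε0 = -(2 * ε0 * ((j : ℝ) - i)) := by ring
    rwa [h9] at h8
  -- (D)
  have hD : ∀ j : ℕ, hf (xi (ab (P.σ (u j))⁻¹ θ)) (xi (ab (P.σ (u j))⁻¹ θ')) = 0 := by
    intro j
    obtain ⟨l, hl, hl'⟩ := heqv (u j)⁻¹ θ hθ
    obtain ⟨m, hm, hm'⟩ := heqv (u j)⁻¹ θ' hθ'
    have h3 := P.pres (u j)⁻¹ (xi θ) (xi θ')
    rw [hl', hm', hzero, F0.hf_smul_left, F0.hf_smul_right, map_inv] at h3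
    rcases mul_eq_zero.1 h3 with h4 | h4
    · exact absurd h4 hl
    · rcases mul_eq_zero.1 h4 with h5 | h5
      · exact absurd (star_eq_zero.1 h5) hm
      · exact h5
  -- (F)
  set K : ℝ := max (16 * max C0 0 * Q ^ ε0) 1 with hK
  have hK1 : 1 ≤ K := le_max_right _ _
  have hKl : 16 * max C0 0 * Q ^ ε0 ≤ K := le_max_left _ _
  have hF : ∀ i j k : ℕ, i ≤ j → j ≤ k →
      s1 (P.R ((u i)⁻¹ * u k)) ≤ K * (s1 (P.R ((u i)⁻¹ * u j)) * s1 (P.R ((u j)⁻¹ * u k))) *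
        (Real.exp (-(2 * ε0 * ((k : ℝ) - j))) + Real.exp (-(2 * ε0 * ((j : ℝ) - i)))) := by
    intro i j k hij hjk
    set g := (u i)⁻¹ * u j with hgdef
    set h := (u j)⁻¹ * u k with hhdef
    have hgh : (u i)⁻¹ * u k = g * h := by
      rw [hgdef, hhdef]
      group
    have hginv : g⁻¹ = (u j)⁻¹ * u i := by
      rw [hgdef]
      group
    have sσh : P.σ h = (P.σ (u j))⁻¹ * P.σ (u k) := by
      rw [hhdef, map_mul, map_inv]
    have sσg : P.σ g⁻¹ = (P.σ (u j))⁻¹ * P.σ (u i) := by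
      rw [hginv, map_mul, map_inv]
    have mθ : ab (P.σ (u j))⁻¹ θ ∈ Sph := ab_sph _ hθ
    have mθ' : ab (P.σ (u j))⁻¹ θ' ∈ Sph := ab_sph _ hθ'
    -- first estimate
    have q1 : kp (zz (P.σ h)) (ab (P.σ (u j))⁻¹ θ) ^ ε0 ≤
        Q ^ ε0 * Real.exp (-(2 * ε0 * ((k : ℝ) - j))) := by
      rw [sσh]
      exact hgen _ _ j k hjk (F3_kp_nonneg _ _)
        (F3_bd1 hC hθ (hu j).1 (hu k).1 (hmono j k hjk)) (by rw [hB]; linarith)
    have q2 : kp (zz (P.σ g⁻¹)) (ab (P.σ (u j))⁻¹ θ') ^ ε0 ≤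
        Q ^ ε0 * Real.exp (-(2 * ε0 * ((j : ℝ) - i))) := by
      rw [sσg]
      refine hgen _ (8 * (C ^ 5 + C) * (16 * C / kp θ θ')) i j hij (F3_kp_nonneg _ _) ?_
        (by rw [hB]; linarith)
      rw [← hcinv i j]
      exact F3_bd2 hC hθ hθ' hκ (hu j).1 (hu i).1 (hmono i j hij)
    have sg := F0.s1_nonneg (P.R g)
    have sh := F0.s1_nonneg (P.R h)
    have sinv : s1 (P.R g⁻¹) = s1 (P.R g) := (P.sz_inv g).1
    have hQε : 0 ≤ Q ^ ε0 := Real.rpow_nonneg hQ0 _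
    have he1 := (Real.exp_pos (-(2 * ε0 * ((k : ℝ) - j)))).le
    have he2 := (Real.exp_pos (-(2 * ε0 * ((j : ℝ) - i)))).le
    have hC0m : 0 ≤ max C0 0 := le_max_right _ _
    rw [hgh]
    refine F0.s1_le (by positivity) fun a b => ?_
    rw [F3_entry P g h a b]
    refine (F3_hf (h1 _ mθ) (h1 _ mθ') (hD j) _ _).trans ?_
    have w1 : wd (P.R h *ᵥ (Pi.single b 1)) (xi (ab (P.σ (u j))⁻¹ θ)) ≤
        max C0 0 * s1 (P.R h) * (Q ^ ε0 * Real.exp (-(2 * ε0 * ((k : ℝ) - j)))) := by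
      have h3 := hest h _ mθ (Pi.single b 1)
      rw [F0.norm_single_one, mul_one] at h3
      refine h3.trans ?_
      have h4 : C0 * s1 (P.R h) ≤ max C0 0 * s1 (P.R h) :=
        mul_le_mul_of_nonneg_right (le_max_left _ _) sh
      exact mul_le_mul h4 q1 (Real.rpow_nonneg (F3_kp_nonneg _ _) _) (by positivity)
    have w2 : wd (P.R g⁻¹ *ᵥ (Pi.single a 1)) (xi (ab (P.σ (u j))⁻¹ θ')) ≤
        max C0 0 * s1 (P.R g) * (Q ^ ε0 * Real.exp (-(2 * ε0 * ((j : ℝ) - i)))) := by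
      have h3 := hest g⁻¹ _ mθ' (Pi.single a 1)
      rw [F0.norm_single_one, mul_one, sinv] at h3
      refine h3.trans ?_
      have h4 : C0 * s1 (P.R g) ≤ max C0 0 * s1 (P.R g) :=
        mul_le_mul_of_nonneg_right (le_max_left _ _) sg
      exact mul_le_mul h4 q2 (Real.rpow_nonneg (F3_kp_nonneg _ _) _) (by positivity)
    have v1 := F3_vec P h b
    have v2 := F3_vec P g⁻¹ a
    rw [sinv] at v2
    have n1 := F0.wd_nonneg (P.R h *ᵥ (Pi.single b 1)) (xi (ab (P.σ (u j))⁻¹ θ))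
    have n2 := F0.wd_nonneg (P.R g⁻¹ *ᵥ (Pi.single a 1)) (xi (ab (P.σ (u j))⁻¹ θ'))
    have t1 : wd (P.R h *ᵥ (Pi.single b 1)) (xi (ab (P.σ (u j))⁻¹ θ)) *
        ‖P.R g⁻¹ *ᵥ (Pi.single a 1)‖ ≤
        (max C0 0 * s1 (P.R h) * (Q ^ ε0 * Real.exp (-(2 * ε0 * ((k : ℝ) - j))))) *
          (4 * s1 (P.R g)) := mul_le_mul w1 v2 (norm_nonneg _) (by positivity)
    have t2 : ‖P.R h *ᵥ (Pi.single b 1)‖ *
        wd (P.R g⁻¹ *ᵥ (Pi.single a 1)) (xi (ab (P.σ (u j))⁻¹ θ')) ≤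
        (4 * s1 (P.R h)) *
          (max C0 0 * s1 (P.R g) * (Q ^ ε0 * Real.exp (-(2 * ε0 * ((j : ℝ) - i))))) :=
      mul_le_mul v1 w2 n2 (by positivity)
    calc 4 * (wd (P.R h *ᵥ (Pi.single b 1)) (xi (ab (P.σ (u j))⁻¹ θ)) *
          ‖P.R g⁻¹ *ᵥ (Pi.single a 1)‖ + ‖P.R h *ᵥ (Pi.single b 1)‖ *
          wd (P.R g⁻¹ *ᵥ (Pi.single a 1)) (xi (ab (P.σ (u j))⁻¹ θ')))
        ≤ 4 * ((max C0 0 * s1 (P.R h) * (Q ^ ε0 * Real.exp (-(2 * ε0 * ((k : ℝ) - j))))) *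
          (4 * s1 (P.R g)) + (4 * s1 (P.R h)) *
          (max C0 0 * s1 (P.R g) * (Q ^ ε0 * Real.exp (-(2 * ε0 * ((j : ℝ) - i)))))) := by
          linarith
      _ = (16 * max C0 0 * Q ^ ε0) * (s1 (P.R g) * s1 (P.R h)) *
          (Real.exp (-(2 * ε0 * ((k : ℝ) - j))) + Real.exp (-(2 * ε0 * ((j : ℝ) - i)))) := by
          ring
      _ ≤ K * (s1 (P.R g) * s1 (P.R h)) *
          (Real.exp (-(2 * ε0 * ((k : ℝ) - j))) + Real.exp (-(2 * ε0 * ((j : ℝ) - i)))) := by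
          refine mul_le_mul_of_nonneg_right (mul_le_mul_of_nonneg_right hKl ?_) ?_
          · positivity
          · positivity
  -- (G)
  set c1 : ℝ := C' * C ^ 2 * Real.exp 1 with hc1
  set a0 : ℝ := Real.log (P.C * c1 ^ P.C) with ha0
  set M : ℝ := Real.log (2 * K) with hM
  have hM0 : 0 ≤ M := Real.log_nonneg (by linarith)
  have hind : ∀ n : ℕ, ∀ i : ℕ, Real.log (s1 (P.R ((u i)⁻¹ * u (i + 2 ^ n)))) ≤
      2 ^ n * (a0 + M - ε0 * n) - M := by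
    intro n
    induction n with
    | zero =>
      intro i
      have h3 := P.up ((u i)⁻¹ * u (i + 2 ^ 0))
      have h4 := (hA i (i + 2 ^ 0) (Nat.le_add_right _ _)).1
      have h5 : ((i + 2 ^ 0 : ℕ) : ℝ) - i = 1 := by
        push_cast
        ring
      rw [h5] at h4
      rw [map_mul, map_inv] at h3
      have hPC : 1 ≤ P.C := P.hC
      have h6 : c ((P.σ (u i))⁻¹ * P.σ (u (i + 2 ^ 0))) ^ P.C ≤ c1 ^ P.C :=
        Real.rpow_le_rpow (F3_c_pos _).le h4 (by linarith)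
      have h7 : s1 (P.R ((u i)⁻¹ * u (i + 2 ^ 0))) ≤ P.C * c1 ^ P.C :=
        h3.trans (mul_le_mul_of_nonneg_left h6 (by linarith))
      have h8 := Real.log_le_log (P.F0_s1_pos' _) h7
      simp only [pow_zero, Nat.cast_zero, mul_zero, sub_zero, one_mul] at h8 ⊢
      linarith
    | succ n ih =>
      intro i
      have h3 := hF i (i + 2 ^ n) (i + 2 ^ (n + 1)) (Nat.le_add_right _ _)
        (Nat.add_le_add_left (Nat.pow_le_pow_right (by norm_num) (Nat.le_succ n)) i)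
      have h4 := ih i
      have h5 := ih (i + 2 ^ n)
      have h6 : i + 2 ^ n + 2 ^ n = i + 2 ^ (n + 1) := by
        rw [pow_succ]
        ring
      rw [h6] at h5
      have e1 : ((i + 2 ^ (n + 1) : ℕ) : ℝ) - ((i + 2 ^ n : ℕ) : ℝ) = 2 ^ n := by
        push_cast
        ring
      have e2 : ((i + 2 ^ n : ℕ) : ℝ) - (i : ℝ) = 2 ^ n := by
        push_cast
        ring
      rw [e1, e2] at h3
      have p1 := P.F0_s1_pos' ((u i)⁻¹ * u (i + 2 ^ n))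
      have p2 := P.F0_s1_pos' ((u (i + 2 ^ n))⁻¹ * u (i + 2 ^ (n + 1)))
      have p3 := P.F0_s1_pos' ((u i)⁻¹ * u (i + 2 ^ (n + 1)))
      have h7 : s1 (P.R ((u i)⁻¹ * u (i + 2 ^ (n + 1)))) ≤
          (2 * K) * (s1 (P.R ((u i)⁻¹ * u (i + 2 ^ n))) *
            s1 (P.R ((u (i + 2 ^ n))⁻¹ * u (i + 2 ^ (n + 1))))) *
            Real.exp (-(2 * ε0 * 2 ^ n)) := by
        refine h3.trans (le_of_eq ?_)
        ring
      have h8 := Real.log_le_log p3 h7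
      rw [Real.log_mul (by positivity) (Real.exp_pos _).ne', Real.log_mul (by positivity)
        (by positivity), Real.log_mul p1.ne' p2.ne', Real.log_exp] at h8
      rw [← hM] at h8
      have h9 : (2 : ℝ) ^ (n + 1) * (a0 + M - ε0 * ((n + 1 : ℕ) : ℝ)) - M =
          M - 2 * ε0 * 2 ^ n + 2 * (2 ^ n * (a0 + M - ε0 * n) - M) := by
        push_cast
        ring
      rw [h9]
      linarith
  obtain ⟨n, hn⟩ := exists_nat_ge ((a0 + M + 1) / ε0)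
  rw [div_le_iff₀ hε0] at hn
  have h3 := hind n 0
  have h4 : (2 : ℝ) ^ n * (a0 + M - ε0 * n) ≤ -1 := by
    have h5 : a0 + M - ε0 * n ≤ -1 := by linarith
    have h6 : (1 : ℝ) ≤ 2 ^ n := one_le_pow₀ (by norm_num)
    nlinarith
  have h5 := (P.sz_inv ((u 0)⁻¹ * u (0 + 2 ^ n))).2.2
  have h6 := Real.log_le_log (by norm_num) h5
  have h7 : Real.log (1 / 2) = - Real.log 2 := by
    rw [one_div, Real.log_inv]
  have h8 := Real.log_two_lt_d9
  rw [h7] at h6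
  linarith

end lm

end Pool.Agent.MPd01a95.KT
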