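import Mathlib
import Pool.Agent.Lib.MP_d01a95_gt_K.KDefs2
import Pool.Agent.Lib.MP_d01a95_gt_K.KA1
import Pool.Agent.Lib.MP_d01a95_gt_K.KA2
import Pool.Agent.Lib.MP_d01a95_gt_K.KA3
import Pool.Agent.Lib.MP_d01a95_gt_K.KA4
import Pool.Agent.Lib.MP_d01a95_gt_K.KA5
import Pool.Agent.Lib.MP_d01a95_gt_K.KF0
import Pool.Agent.Lib.MP_d01a95_gt_K.KF2
import Pool.Agent.Lib.MP_d01a95_gt_K.KF3

set_option autoImplicit false
set_option linter.all false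

open Matrix Filter Topology MeasureTheory
open scoped ContDiff

namespace Pool.Agent.MPd01a95.KT

open GU F0

variable {G : Type} [Group G]

namespace F4

open F1 F2

theorem isCompact_Sph : IsCompact Sph := isCompact_sphere 0 1

/-- continuity of the modulus of the form on pairs of limit lines -/
theorem hf_contOn {xi : Eb → V4} (h1 : ∀ θ ∈ Sph, ‖xi θ‖ = 1)
    (hc : ∀ θ ∈ Sph, ∀ η : ℝ, 0 < η → ∃ δ : ℝ, 0 < δ ∧ ∀ θ' ∈ Sph, ‖θ' - θ‖ < δ →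
      ∃ l : ℂ, ‖l‖ = 1 ∧ ‖l • xi θ' - xi θ‖ < η) :
    ContinuousOn (fun p : Eb × Eb => ‖hf (xi p.1) (xi p.2)‖) (Sph ×ˢ Sph) := by
  rw [Metric.continuousOn_iff]
  rintro ⟨a, b⟩ ⟨ha, hb⟩ η hη
  obtain ⟨δ, hδ, hδ2⟩ := hc a ha (η / 8) (by positivity)
  obtain ⟨δ', hδ', hδ2'⟩ := hc b hb (η / 8) (by positivity)
  refine ⟨min δ δ', lt_min hδ hδ', ?_⟩
  rintro ⟨a', b'⟩ ⟨ha', hb'⟩ hd
  rw [Prod.dist_eq, max_lt_iff] at hd
  simp only at hd ha hb ha' hb' ⊢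
  rw [dist_eq_norm, dist_eq_norm] at hd
  obtain ⟨l, hl, hl2⟩ := hδ2 a' ha' (hd.1.trans_le (min_le_left _ _))
  obtain ⟨m, hm, hm2⟩ := hδ2' b' hb' (hd.2.trans_le (min_le_right _ _))
  have e1 : ‖hf (xi a') (xi b')‖ = ‖hf (l • xi a') (m • xi b')‖ := by
    rw [hf_smul_left, hf_smul_right, norm_mul, norm_mul, norm_star, hl, hm, one_mul, one_mul]
  have e2 : hf (l • xi a') (m • xi b') - hf (xi a) (xi b) =
      hf (l • xi a' - xi a) (m • xi b') + hf (xi a) (m • xi b' - xi b) := by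
    rw [hf_sub_left, hf_sub_right]; ring
  rw [Real.dist_eq, e1]
  refine lt_of_le_of_lt (abs_norm_sub_norm_le _ _) ?_
  rw [e2]
  refine lt_of_le_of_lt (norm_add_le _ _) ?_
  have b1 := hf_bd (l • xi a' - xi a) (m • xi b')
  have b2 := hf_bd (xi a) (m • xi b' - xi b)
  rw [norm_smul m, hm, h1 b' hb', mul_one, mul_one] at b1
  rw [h1 a ha, mul_one] at b2
  linarith

/-- lower bound of the form on separated pairs -/
theorem low {xi : Eb → V4} (h1 : ∀ θ ∈ Sph, ‖xi θ‖ = 1)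
    (hc : ∀ θ ∈ Sph, ∀ η : ℝ, 0 < η → ∃ δ : ℝ, 0 < δ ∧ ∀ θ' ∈ Sph, ‖θ' - θ‖ < δ →
      ∃ l : ℂ, ‖l‖ = 1 ∧ ‖l • xi θ' - xi θ‖ < η)
    (ht : ∀ θ ∈ Sph, ∀ θ' ∈ Sph, θ ≠ θ' → hf (xi θ) (xi θ') ≠ 0) {δ : ℝ} (hδ : 0 < δ) :
    ∃ b : ℝ, 0 < b ∧ ∀ θ ∈ Sph, ∀ θ' ∈ Sph, δ ≤ kp θ θ' → b ≤ ‖hf (xi θ) (xi θ')‖ := by
  set K : Set (Eb × Eb) := (Sph ×ˢ Sph) ∩ {p | δ ≤ kp p.1 p.2} with hK
  have hKc : IsCompact K :=
    (isCompact_Sph.prod isCompact_Sph).inter_right (isClosed_le continuous_const kp_cont)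
  rcases K.eq_empty_or_nonempty with he | hne
  · refine ⟨1, one_pos, fun θ hθ θ' hθ' hk => ?_⟩
    exact absurd (show (θ, θ') ∈ K from ⟨⟨hθ, hθ'⟩, hk⟩) (by rw [he]; exact fun h => h)
  · obtain ⟨p, hp, hmin⟩ := hKc.exists_isMinOn hne
      ((hf_contOn h1 hc).mono Set.inter_subset_left)
    refine ⟨‖hf (xi p.1) (xi p.2)‖, ?_, fun θ hθ θ' hθ' hk => ?_⟩
    · refine norm_pos_iff.mpr (ht p.1 hp.1.1 p.2 hp.1.2 fun h => ?_)
      have h3 : δ ≤ kp p.1 p.2 := hp.2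
      rw [← h, kp_self hp.1.1] at h3
      linarith
    · exact isMinOn_iff.mp hmin (θ, θ') ⟨⟨hθ, hθ'⟩, hk⟩

/-- the radial projection of a point close to the sphere -/
theorem radial {z : Eb} (hz : z ∈ Cb) (h : 1 / 2 ≤ ‖z‖) : ∃ θ ∈ Sph, kp z θ = 1 - ‖z‖ := by
  have hz1 : ‖z‖ ≤ 1 := by rwa [Cb, mem_closedBall_zero_iff] at hz
  have hz0 : 0 < ‖z‖ := by linarith
  refine ⟨((‖z‖⁻¹ : ℝ) : ℂ) • z, ?_, ?_⟩
  · rw [Sph, mem_sphere_zero_iff_norm, norm_smul, Complex.norm_real, norm_inv, norm_norm,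
      inv_mul_cancel₀ hz0.ne']
  · unfold kp
    rw [inner_smul_right, inner_self_eq_norm_sq_to_K]
    have : (1 : ℂ) - ((‖z‖⁻¹ : ℝ) : ℂ) * ((‖z‖ : ℂ)) ^ 2 = ((1 - ‖z‖ : ℝ) : ℂ) := by
      push_cast
      have h0 : (‖z‖ : ℂ) ≠ 0 := by exact_mod_cast hz0.ne'
      field_simp
    erw [this]
    rw [Complex.norm_real, Real.norm_of_nonneg (by linarith)]

end F4

open F1 F2 F4

section lm

variable (P : Kp G) (xi : Eb → V4) (h1 : ∀ θ ∈ Sph, ‖xi θ‖ = 1)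
  (h2 : ∃ C ε : ℝ, 0 < ε ∧ ∀ g, ∀ θ ∈ Sph, ∀ w : V4,
      wd (P.R g *ᵥ w) (xi θ) ≤ C * s1 (P.R g) * ‖w‖ * kp (zz (P.σ g)) θ ^ ε)

include h1 h2

/-- module F4 -/
theorem xi_exp : ∀ δ : ℝ, 0 < δ → ∃ a : ℝ, 0 < a ∧ ∀ g, ∀ θ ∈ Sph,
    δ ≤ kp θ (zz (P.σ g)⁻¹) → a * s1 (P.R g) ≤ ‖P.R g *ᵥ xi θ‖ := by
  intro δ hδ
  obtain ⟨b, hb, hb2⟩ := low h1 (xi_cont P xi h1 h2) (xi_tv P xi h1 h2)
    (by positivity : 0 < δ / 8)
  obtain ⟨C, ε, hC, hε, h2'⟩ := pos_const h2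
  -- threshold
  obtain ⟨r, hr, hr2⟩ := rpow_small (by positivity : 0 < 32 * C) hε hb
  set r' : ℝ := min r (min (δ / 8) (1 / 2)) with hr'
  have hr'0 : 0 < r' := lt_min hr (lt_min (by positivity) (by norm_num))
  set S : ℝ := r'⁻¹ with hS
  have hS0 : 0 < S := by positivity
  set M : ℝ := P.C * (max S 1) ^ P.C with hM
  have hPC : 0 < P.C := lt_of_lt_of_le one_pos P.hC
  have hM0 : 0 < M := by positivity
  refine ⟨min (b / 8) (1 / (4 * M ^ 2)), lt_min (by positivity) (by positivity),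
    fun g θ hθ hk => ?_⟩
  have hs := P.F0_s1_pos' g
  rcases le_or_gt (c (P.σ g)) S with hle | hgt
  · -- bounded elements
    have hs1 : s1 (P.R g) ≤ M := by
      refine (P.up g).trans (mul_le_mul_of_nonneg_left ?_ hPC.le)
      exact Real.rpow_le_rpow (c_pos _).le (hle.trans (le_max_left _ _)) hPC.le
    obtain ⟨a1, -, -, -, a2, -⟩ := iso_inv (P.F0_iso g)
    have h3 : 1 ≤ 4 * s1 (P.R g) * ‖P.R g *ᵥ xi θ‖ := by
      have h4 := norm_mulVec (P.R g)⁻¹ (P.R g *ᵥ xi θ)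
      rwa [Matrix.mulVec_mulVec, a2, Matrix.one_mulVec, h1 θ hθ, a1] at h4
    have h5 : min (b / 8) (1 / (4 * M ^ 2)) * s1 (P.R g) ≤ 1 / (4 * M ^ 2) * s1 (P.R g) :=
      mul_le_mul_of_nonneg_right (min_le_right _ _) hs.le
    refine h5.trans ?_
    have h6 : 1 / (4 * s1 (P.R g)) ≤ ‖P.R g *ᵥ xi θ‖ := by
      rw [div_le_iff₀ (by positivity)]
      linarith
    refine le_trans ?_ h6
    rw [div_mul_eq_mul_div, one_mul, div_le_div_iff₀ (by positivity) (by positivity)]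
    have h7 : s1 (P.R g) * s1 (P.R g) ≤ M * M := mul_le_mul hs1 hs1 hs.le hM0.le
    linarith
  · -- large elements
    set z := zz (P.σ g)⁻¹ with hz
    have hzc : z ∈ Cb := zz_mem _
    have hz1 : ‖z‖ ≤ 1 := by rwa [Cb, mem_closedBall_zero_iff] at hzc
    have hcg := c_ge_one (P.σ g)
    have hzn := zz_norm (P.σ g)⁻¹
    rw [← hz, c_inv] at hzn
    have hcr : (c (P.σ g) ^ 2)⁻¹ ≤ r' := by
      have h3 : (c (P.σ g) ^ 2)⁻¹ ≤ (c (P.σ g))⁻¹ := inv_anti₀ (by linarith) (by nlinarith)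
      have h4 : (c (P.σ g))⁻¹ ≤ S⁻¹ := inv_anti₀ hS0 hgt.le
      rw [hS, inv_inv] at h4
      exact h3.trans h4
    have hr'2 : r' ≤ 1 / 2 := (min_le_right _ _).trans (min_le_right _ _)
    have hr'1 : r' ≤ δ / 8 := (min_le_right _ _).trans (min_le_left _ _)
    have hz2 : 1 / 2 ≤ ‖z‖ := by
      have := norm_nonneg z
      nlinarith
    obtain ⟨θ', hθ', hkz⟩ := radial hzc hz2
    have hkz2 : kp z θ' ≤ r' := by
      rw [hkz]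
      have := norm_nonneg z
      nlinarith
    have hsep : δ / 8 ≤ kp θ θ' := by
      have t := kp_tri (sph_cb hθ) hzc (sph_cb hθ')
      rw [kp_symm θ' θ, kp_symm θ' z] at t
      linarith
    have hlow := hb2 θ hθ θ' hθ' hsep
    obtain ⟨j, l, hl, hd⟩ := dir P xi h1 h2' g⁻¹ hθ'
    rw [map_inv] at hd
    have hd2 : ‖l • (P.R g⁻¹ *ᵥ (Pi.single j 1 : V4)) - xi θ'‖ ≤ b / 8 := by
      have h3 := hr2 (kp z θ') (kp_nonneg _ _) (hkz2.trans (min_le_left _ _))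
      refine hd.trans ?_
      linarith
    obtain ⟨m, hm, hm2⟩ := P.R_inv g
    rw [(P.sz_inv g).1] at hl
    -- pairing
    have e1 : hf (P.R g *ᵥ xi θ) (Pi.single j 1) =
        hf (xi θ) ((P.R g)⁻¹ *ᵥ (Pi.single j 1 : V4)) := by
      obtain ⟨-, -, -, a1, -, -⟩ := iso_inv (P.F0_iso g)
      rw [← P.pres g (xi θ), Matrix.mulVec_mulVec, a1, Matrix.one_mulVec]
    have e2 : ‖hf (xi θ) (l • (P.R g⁻¹ *ᵥ (Pi.single j 1 : V4)))‖ =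
        ‖l‖ * ‖hf (P.R g *ᵥ xi θ) (Pi.single j 1)‖ := by
      rw [hm2, Matrix.smul_mulVec, hf_smul_right, hf_smul_right, e1, norm_mul, norm_mul,
        norm_star, norm_star, hm, one_mul]
    have e3 := hf_bd (P.R g *ᵥ xi θ) (Pi.single j 1)
    rw [norm_single_one, mul_one] at e3
    have e4 : b / 2 ≤ ‖hf (xi θ) (l • (P.R g⁻¹ *ᵥ (Pi.single j 1 : V4)))‖ := by
      have e5 : hf (xi θ) (xi θ') = hf (xi θ) (l • (P.R g⁻¹ *ᵥ (Pi.single j 1 : V4))) -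
          hf (xi θ) (l • (P.R g⁻¹ *ᵥ (Pi.single j 1 : V4)) - xi θ') := by
        rw [hf_sub_right]; ring
      have e6 := norm_sub_le (hf (xi θ) (l • (P.R g⁻¹ *ᵥ (Pi.single j 1 : V4))))
        (hf (xi θ) (l • (P.R g⁻¹ *ᵥ (Pi.single j 1 : V4)) - xi θ'))
      rw [← e5] at e6
      have e7 := hf_bd (xi θ) (l • (P.R g⁻¹ *ᵥ (Pi.single j 1 : V4)) - xi θ')
      rw [h1 θ hθ, mul_one] at e7
      linarith
    rw [e2] at e4
    have e8 : b / 2 * s1 (P.R g) ≤ 4 * ‖P.R g *ᵥ xi θ‖ := by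
      have h3 := mul_le_mul_of_nonneg_right e4 hs.le
      have h4 : ‖l‖ * ‖hf (P.R g *ᵥ xi θ) (Pi.single j 1)‖ * s1 (P.R g) =
          ‖hf (P.R g *ᵥ xi θ) (Pi.single j 1)‖ * (‖l‖ * s1 (P.R g)) := by ring
      rw [h4, hl, mul_one] at h3
      linarith
    have h5 : min (b / 8) (1 / (4 * M ^ 2)) * s1 (P.R g) ≤ b / 8 * s1 (P.R g) :=
      mul_le_mul_of_nonneg_right (min_le_left _ _) hs.le
    linarith

end lm

end Pool.Agent.MPd01a95.KT
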