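import Mathlib
import Pool.Agent.Lib.MP_d01a95_gt_K.KDefs2
import Pool.Agent.Lib.MP_d01a95_gt_K.KA1
import Pool.Agent.Lib.MP_d01a95_gt_K.KA2
import Pool.Agent.Lib.MP_d01a95_gt_K.KA4
import Pool.Agent.Lib.MP_d01a95_gt_K.KF0
import Pool.Agent.Lib.MP_d01a95_gt_K.KF2
import Pool.Agent.Lib.MP_d01a95_gt_K.KF3
import Pool.Agent.Lib.MP_d01a95_gt_K.KF4
import Pool.Agent.Lib.MP_d01a95_gt_K.KB1

set_option autoImplicit false
set_option linter.all false

open Matrix Filter Topology MeasureTheory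
open scoped ContDiff

namespace Pool.Agent.MPd01a95.KT

open GU

variable {G : Type} [Group G]

/-! ### the covector of a vector and a skew matrix -/

/-- for `S = a bᵀ - b aᵀ` the covector `w ↦ det (w, p, a, b)` -/
def F5_T (p : V4) (S : M4) : V4 :=
  ![p 1 * S 2 3 - p 2 * S 1 3 + p 3 * S 1 2, -(p 0 * S 2 3 - p 2 * S 0 3 + p 3 * S 0 2),
    p 0 * S 1 3 - p 1 * S 0 3 + p 3 * S 0 1, -(p 0 * S 1 2 - p 1 * S 0 2 + p 2 * S 0 1)]

theorem F5_T_smul (a b : ℂ) (p : V4) (S : M4) : F5_T (a • p) (b • S) = (a * b) • F5_T p S := by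
  funext i
  fin_cases i <;> simp [F5_T] <;> ring

theorem F5_T_lim {a : ℕ → V4} {b : ℕ → M4} {x : V4} {S : M4} (ha : Tendsto a atTop (𝓝 x))
    (hb : Tendsto b atTop (𝓝 S)) : Tendsto (fun n => F5_T (a n) (b n)) atTop (𝓝 (F5_T x S)) := by
  have ha' : ∀ i, Tendsto (fun n => a n i) atTop (𝓝 (x i)) := tendsto_pi_nhds.mp ha
  have hb' : ∀ i j, Tendsto (fun n => b n i j) atTop (𝓝 (S i j)) := fun i j =>
    tendsto_pi_nhds.mp (tendsto_pi_nhds.mp hb i) j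
  have h0 : Tendsto (fun n => F5_T (a n) (b n) 0) atTop (𝓝 (F5_T x S 0)) :=
    (((ha' 1).mul (hb' 2 3)).sub ((ha' 2).mul (hb' 1 3))).add ((ha' 3).mul (hb' 1 2))
  have h1 : Tendsto (fun n => F5_T (a n) (b n) 1) atTop (𝓝 (F5_T x S 1)) :=
    ((((ha' 0).mul (hb' 2 3)).sub ((ha' 2).mul (hb' 0 3))).add ((ha' 3).mul (hb' 0 2))).neg
  have h2 : Tendsto (fun n => F5_T (a n) (b n) 2) atTop (𝓝 (F5_T x S 2)) :=
    (((ha' 0).mul (hb' 1 3)).sub ((ha' 1).mul (hb' 0 3))).add ((ha' 3).mul (hb' 0 1))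
  have h3 : Tendsto (fun n => F5_T (a n) (b n) 3) atTop (𝓝 (F5_T x S 3)) :=
    ((((ha' 0).mul (hb' 1 2)).sub ((ha' 1).mul (hb' 0 2))).add ((ha' 2).mul (hb' 0 1))).neg
  refine tendsto_pi_nhds.mpr fun i => ?_
  fin_cases i
  · exact h0
  · exact h1
  · exact h2
  · exact h3

theorem F5_T_bd (p : V4) (S : M4) : ‖F5_T p S‖ ≤ 3 * ‖p‖ * s1 S := by
  have h0 : 0 ≤ 3 * ‖p‖ * s1 S := by
    have := F0.s1_nonneg S
    positivity
  have key : ∀ i j k : Fin 4, ‖p i * S j k‖ ≤ ‖p‖ * s1 S := fun i j k => by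
    rw [norm_mul]
    exact mul_le_mul (norm_le_pi_norm p i) (F0.le_s1 S j k) (norm_nonneg _) (norm_nonneg _)
  have key2 : ∀ a b c : ℂ, ‖a‖ ≤ ‖p‖ * s1 S → ‖b‖ ≤ ‖p‖ * s1 S → ‖c‖ ≤ ‖p‖ * s1 S →
      ‖a - b + c‖ ≤ 3 * ‖p‖ * s1 S := fun a b c ha hb hc => by
    have h1 := norm_add_le (a - b) c
    have h2 := norm_sub_le a b
    linarith
  refine (pi_norm_le_iff_of_nonneg h0).mpr fun i => ?_
  fin_cases i
  · exact key2 _ _ _ (key ..) (key ..) (key ..)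
  · change ‖-(_ : ℂ)‖ ≤ _
    rw [norm_neg]
    exact key2 _ _ _ (key ..) (key ..) (key ..)
  · exact key2 _ _ _ (key ..) (key ..) (key ..)
  · change ‖-(_ : ℂ)‖ ≤ _
    rw [norm_neg]
    exact key2 _ _ _ (key ..) (key ..) (key ..)

/-- the covector is equivariant -/
theorem F5_T_act (g S : M4) (p : V4) (hS : ∀ i j, S j i = - S i j) :
    gᵀ *ᵥ F5_T (g *ᵥ p) (g * S * gᵀ) = g.det • F5_T p S := by
  have hd : ∀ i, S i i = 0 := fun i => by
    have := hS i i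
    exact self_eq_neg.mp this
  have h10 := hS 0 1
  have h20 := hS 0 2
  have h30 := hS 0 3
  have h21 := hS 1 2
  have h31 := hS 1 3
  have h32 := hS 2 3
  have h00 := hd 0
  have h11 := hd 1
  have h22 := hd 2
  have h33 := hd 3
  have e : ∀ a b : Fin 4, (g * S * gᵀ) a b =
      (g a 0 * g b 1 - g a 1 * g b 0) * S 0 1 + (g a 0 * g b 2 - g a 2 * g b 0) * S 0 2 +
      (g a 0 * g b 3 - g a 3 * g b 0) * S 0 3 + (g a 1 * g b 2 - g a 2 * g b 1) * S 1 2 +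
      (g a 1 * g b 3 - g a 3 * g b 1) * S 1 3 + (g a 2 * g b 3 - g a 3 * g b 2) * S 2 3 := by
    intro a b
    simp only [Matrix.mul_apply, Matrix.transpose_apply, Fin.sum_univ_four]
    rw [h10, h20, h30, h21, h31, h32, h00, h11, h22, h33]
    ring
  have eg : ∀ a : Fin 4, (g *ᵥ p) a = g a 0 * p 0 + g a 1 * p 1 + g a 2 * p 2 + g a 3 * p 3 := by
    intro a
    simp only [Matrix.mulVec, dotProduct, Fin.sum_univ_four]
  have ed : g.det = g 0 0 * (g 1 1 * (g 2 2 * g 3 3 - g 2 3 * g 3 2) -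
      g 1 2 * (g 2 1 * g 3 3 - g 2 3 * g 3 1) + g 1 3 * (g 2 1 * g 3 2 - g 2 2 * g 3 1)) -
      g 0 1 * (g 1 0 * (g 2 2 * g 3 3 - g 2 3 * g 3 2) -
      g 1 2 * (g 2 0 * g 3 3 - g 2 3 * g 3 0) + g 1 3 * (g 2 0 * g 3 2 - g 2 2 * g 3 0)) +
      g 0 2 * (g 1 0 * (g 2 1 * g 3 3 - g 2 3 * g 3 1) -
      g 1 1 * (g 2 0 * g 3 3 - g 2 3 * g 3 0) + g 1 3 * (g 2 0 * g 3 1 - g 2 1 * g 3 0)) -
      g 0 3 * (g 1 0 * (g 2 1 * g 3 2 - g 2 2 * g 3 1) -
      g 1 1 * (g 2 0 * g 3 2 - g 2 2 * g 3 0) + g 1 2 * (g 2 0 * g 3 1 - g 2 1 * g 3 0)) := by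
    simp [Matrix.det_succ_row_zero, Fin.sum_univ_succ, Fin.succAbove]
    ring
  have et : ∀ (w : V4) (i : Fin 4), (gᵀ *ᵥ w) i = g 0 i * w 0 + g 1 i * w 1 + g 2 i * w 2 +
      g 3 i * w 3 := by
    intro w i
    simp only [Matrix.mulVec, dotProduct, Matrix.transpose_apply, Fin.sum_univ_four]
  have t0 : ∀ (q : V4) (A : M4), F5_T q A 0 = q 1 * A 2 3 - q 2 * A 1 3 + q 3 * A 1 2 :=
    fun q A => rfl
  have t1 : ∀ (q : V4) (A : M4), F5_T q A 1 = -(q 0 * A 2 3 - q 2 * A 0 3 + q 3 * A 0 2) :=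
    fun q A => rfl
  have t2 : ∀ (q : V4) (A : M4), F5_T q A 2 = q 0 * A 1 3 - q 1 * A 0 3 + q 3 * A 0 1 :=
    fun q A => rfl
  have t3 : ∀ (q : V4) (A : M4), F5_T q A 3 = -(q 0 * A 1 2 - q 1 * A 0 2 + q 2 * A 0 1) :=
    fun q A => rfl
  have a0 : (gᵀ *ᵥ F5_T (g *ᵥ p) (g * S * gᵀ)) 0 = g.det * F5_T p S 0 := by
    rw [et, t0, t1, t2, t3, t0]
    simp only [e, eg]
    rw [ed]
    ring
  have a1 : (gᵀ *ᵥ F5_T (g *ᵥ p) (g * S * gᵀ)) 1 = g.det * F5_T p S 1 := by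
    rw [et, t0, t1, t2, t3, t1]
    simp only [e, eg]
    rw [ed]
    ring
  have a2 : (gᵀ *ᵥ F5_T (g *ᵥ p) (g * S * gᵀ)) 2 = g.det * F5_T p S 2 := by
    rw [et, t0, t1, t2, t3, t2]
    simp only [e, eg]
    rw [ed]
    ring
  have a3 : (gᵀ *ᵥ F5_T (g *ᵥ p) (g * S * gᵀ)) 3 = g.det * F5_T p S 3 := by
    rw [et, t0, t1, t2, t3, t3]
    simp only [e, eg]
    rw [ed]
    ring
  funext i
  fin_cases i
  · exact a0
  · exact a1
  · exact a2
  · exact a3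

/-! ### skew matrices -/

theorem F5_Sk_add (x y : I6 → ℝ) : Sk (x + y) = Sk x + Sk y := by
  ext i j
  fin_cases i <;> fin_cases j <;> simp [Sk] <;> ring

theorem F5_Sk_smul (t : ℝ) (x : I6 → ℝ) : Sk (t • x) = (t : ℂ) • Sk x := by
  ext i j
  fin_cases i <;> fin_cases j <;> simp [Sk] <;> ring

theorem F5_Sk_skew (x : I6 → ℝ) (i j : Fin 4) : Sk x j i = - Sk x i j := by
  fin_cases i <;> fin_cases j <;> simp [Sk]

theorem F5_Sk_bd (x : I6 → ℝ) : s1 (Sk x) ≤ 2 * ‖x‖ := by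
  have h0 : 0 ≤ 2 * ‖x‖ := by positivity
  have key : ∀ i j : I6, ‖(x i : ℂ) + Complex.I * (x j : ℂ)‖ ≤ 2 * ‖x‖ := fun i j => by
    refine (norm_add_le _ _).trans ?_
    rw [norm_mul, Complex.norm_I, one_mul, Complex.norm_real, Complex.norm_real]
    have h1 := norm_le_pi_norm x i
    have h2 := norm_le_pi_norm x j
    linarith
  have key' : ∀ i j : I6, ‖-((x i : ℂ) + Complex.I * (x j : ℂ))‖ ≤ 2 * ‖x‖ := fun i j => by
    rw [norm_neg]; exact key i j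
  have ks : ∀ i j : I6, ‖star ((x i : ℂ) + Complex.I * (x j : ℂ))‖ ≤ 2 * ‖x‖ := fun i j => by
    rw [norm_star]; exact key i j
  have ks' : ∀ i j : I6, ‖-star ((x i : ℂ) + Complex.I * (x j : ℂ))‖ ≤ 2 * ‖x‖ := fun i j => by
    rw [norm_neg]; exact ks i j
  have kz : ‖(0 : ℂ)‖ ≤ 2 * ‖x‖ := by rw [norm_zero]; exact h0
  refine F0.s1_le h0 fun i j => ?_
  fin_cases i <;> fin_cases j <;>
    first | exact kz | exact key _ _ | exact key' _ _ | exact ks _ _ | exact ks' _ _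

/-! ### linear algebra of planes -/

theorem F5_minor (u v : V4) (hl : ∀ a b : ℂ, a • u + b • v = 0 → a = 0 ∧ b = 0) :
    ∃ i j, u i * v j - u j * v i ≠ 0 := by
  by_contra hcon
  have hcon : ∀ i j, u i * v j - u j * v i = 0 := fun i j => by
    by_contra h
    exact hcon ⟨i, j, h⟩
  have hu : u = 0 := by
    funext i
    have h := hl (v i) (-u i) (by
      funext j
      have := hcon i j
      simp only [Pi.add_apply, Pi.smul_apply, smul_eq_mul, Pi.zero_apply]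
      linear_combination -this)
    have := h.2
    simpa using this
  have h := hl 1 0 (by rw [hu]; simp)
  exact one_ne_zero h.1

theorem F5_span (x u v : V4) (S : M4) (l : ℂ) (hl : l ≠ 0)
    (hS : ∀ i j, S i j = l * (u i * v j - u j * v i)) (hT : F5_T x S = 0)
    (h : ∃ i j, u i * v j - u j * v i ≠ 0) : ∃ a b : ℂ, x = a • u + b • v := by
  obtain ⟨i, j, hij⟩ := h
  have t0 : x 1 * S 2 3 - x 2 * S 1 3 + x 3 * S 1 2 = 0 := congrFun hT 0
  have t1 : -(x 0 * S 2 3 - x 2 * S 0 3 + x 3 * S 0 2) = 0 := congrFun hT 1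
  have t2 : x 0 * S 1 3 - x 1 * S 0 3 + x 3 * S 0 1 = 0 := congrFun hT 2
  have t3 : -(x 0 * S 1 2 - x 1 * S 0 2 + x 2 * S 0 1) = 0 := congrFun hT 3
  simp only [hS] at t0 t1 t2 t3
  have key : ∀ a b c : Fin 4, l * (x a * (u b * v c - u c * v b) - x b * (u a * v c - u c * v a) +
      x c * (u a * v b - u b * v a)) = 0 := by
    intro a b c
    fin_cases a <;> fin_cases b <;> fin_cases c <;> simp only [Fin.zero_eta, Fin.mk_one,
      Fin.reduceFinMk] <;>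
      first | ring1 | linear_combination t0 | linear_combination -t0 | linear_combination t1 |
        linear_combination -t1 | linear_combination t2 | linear_combination -t2 |
        linear_combination t3 | linear_combination -t3
  refine ⟨(x i * v j - x j * v i) / (u i * v j - u j * v i),
    (u i * x j - u j * x i) / (u i * v j - u j * v i), ?_⟩
  funext k
  have h1 := (mul_eq_zero.mp (key i j k)).resolve_left hl
  simp only [Pi.add_apply, Pi.smul_apply, smul_eq_mul]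
  rw [div_mul_eq_mul_div, div_mul_eq_mul_div, ← add_div, eq_div_iff hij]
  linear_combination h1

/-! ### the auxiliary vector -/

theorem F5_aux (x0 : I6 → ℝ) (h0 : x0 ≠ 0) (hn : nq x0 = 0) :
    ∃ y : I6 → ℝ, ∀ t : ℝ, nq (y + t • x0) = 1 := by
  have hr : 0 < x0 (Sum.inr 0) ^ 2 + x0 (Sum.inr 1) ^ 2 := by
    rcases (add_nonneg (sq_nonneg (x0 (Sum.inr 0))) (sq_nonneg (x0 (Sum.inr 1)))).eq_or_lt with h | h
    · exfalso
      have e1 : x0 (Sum.inr 0) = 0 := by nlinarith [sq_nonneg (x0 (Sum.inr 0)), sq_nonneg (x0 (Sum.inr 1))]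
      have e2 : x0 (Sum.inr 1) = 0 := by nlinarith [sq_nonneg (x0 (Sum.inr 0)), sq_nonneg (x0 (Sum.inr 1))]
      have e3 : ∑ i, x0 (Sum.inl i) ^ 2 = 0 := by
        have := hn
        unfold nq at this
        rw [e1, e2] at this
        linarith
      have e4 := (Finset.sum_eq_zero_iff_of_nonneg fun i _ => sq_nonneg (x0 (Sum.inl i))).mp e3
      apply h0
      funext i
      rcases i with i | i
      · exact pow_eq_zero_iff (two_ne_zero) |>.mp (e4 i (Finset.mem_univ i))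
      · fin_cases i
        · exact e1
        · exact e2
    · exact h
  set r := Real.sqrt (x0 (Sum.inr 0) ^ 2 + x0 (Sum.inr 1) ^ 2) with hrd
  have hr1 : 0 < r := Real.sqrt_pos.mpr hr
  have hr2 : r ^ 2 = x0 (Sum.inr 0) ^ 2 + x0 (Sum.inr 1) ^ 2 := Real.sq_sqrt hr.le
  refine ⟨Sum.elim (fun _ => 0) ![-x0 (Sum.inr 1) / r, x0 (Sum.inr 0) / r], fun t => ?_⟩
  have hn' := hn
  unfold nq at hn' ⊢
  simp only [Pi.add_apply, Pi.smul_apply, smul_eq_mul, Sum.elim_inr, Sum.elim_inl, zero_add,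
    Matrix.cons_val_zero, Matrix.cons_val_one]
  have e : ∑ i : Fin 4, (t * x0 (Sum.inl i)) ^ 2 = t ^ 2 * ∑ i : Fin 4, x0 (Sum.inl i) ^ 2 := by
    rw [Finset.mul_sum]
    exact Finset.sum_congr rfl fun i _ => by ring
  rw [e]
  have e2 : (-x0 (Sum.inr 1) / r + t * x0 (Sum.inr 0)) ^ 2 + (x0 (Sum.inr 0) / r + t * x0 (Sum.inr 1)) ^ 2 =
      (x0 (Sum.inr 0) ^ 2 + x0 (Sum.inr 1) ^ 2) / r ^ 2 + t ^ 2 * (x0 (Sum.inr 0) ^ 2 + x0 (Sum.inr 1) ^ 2) := by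
    field_simp
    ring
  rw [e2, ← hr2, div_self (by positivity), hr2]
  linear_combination t ^ 2 * hn'

section lm

variable (P : Kp G) (xi : Eb → V4) (h1 : ∀ θ ∈ Sph, ‖xi θ‖ = 1)
  (h2 : ∃ C ε : ℝ, 0 < ε ∧ ∀ g, ∀ θ ∈ Sph, ∀ w : V4,
      wd (P.R g *ᵥ w) (xi θ) ≤ C * s1 (P.R g) * ‖w‖ * kp (zz (P.σ g)) θ ^ ε)

/-- a sequence with growing sizes has a subsequence converging to a point of the sphere -/
theorem F5_sub (g : ℕ → G) (hg : Tendsto (fun n => s1 (P.R (g n))) atTop atTop) :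
    ∃ φ : ℕ → ℕ, StrictMono φ ∧ ∃ θ ∈ Sph,
      Tendsto (fun n => kp (zz (P.σ (g (φ n)))) θ) atTop (𝓝 0) := by
  have hc : Tendsto (fun n => c (P.σ (g n))) atTop atTop := by
    refine tendsto_atTop.mpr fun b => ?_
    have hC : 0 < P.C := by have := P.hC; linarith
    filter_upwards [hg.eventually_gt_atTop (P.C * (max b 1) ^ P.C)] with n hn
    by_contra hlt
    rw [not_le] at hlt
    have a1 := P.up (g n)
    have a2 : 1 ≤ c (P.σ (g n)) := c_ge_one _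
    have a3 : c (P.σ (g n)) ^ P.C ≤ (max b 1) ^ P.C :=
      Real.rpow_le_rpow (by linarith) (hlt.le.trans (le_max_left _ _)) hC.le
    have a4 := mul_le_mul_of_nonneg_left a3 hC.le
    linarith
  obtain ⟨θ, hθ, φ, hφ, hlim⟩ := (isCompact_closedBall (0 : Eb) 1).tendsto_subseq
    (fun n => zz_mem (P.σ (g n)))
  refine ⟨φ, hφ, θ, ?_, ?_⟩
  · have b1 : Tendsto (fun n => ‖zz (P.σ (g (φ n)))‖ ^ 2) atTop (𝓝 (‖θ‖ ^ 2)) :=
      (hlim.norm).pow 2
    have b2 : Tendsto (fun n => ‖zz (P.σ (g (φ n)))‖ ^ 2) atTop (𝓝 (1 - 0)) := by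
      simp only [zz_norm]
      refine Tendsto.sub tendsto_const_nhds ?_
      refine Tendsto.inv_tendsto_atTop ?_
      exact (tendsto_pow_atTop (two_ne_zero)).comp (hc.comp hφ.tendsto_atTop)
    have b3 := tendsto_nhds_unique b1 b2
    have b4 : ‖θ‖ = 1 := by
      have : 0 ≤ ‖θ‖ := norm_nonneg _
      nlinarith
    exact mem_sphere_zero_iff_norm.mpr b4
  · have hθ' : θ ∈ Sph := by
      have b1 : Tendsto (fun n => ‖zz (P.σ (g (φ n)))‖ ^ 2) atTop (𝓝 (‖θ‖ ^ 2)) :=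
        (hlim.norm).pow 2
      have b2 : Tendsto (fun n => ‖zz (P.σ (g (φ n)))‖ ^ 2) atTop (𝓝 (1 - 0)) := by
        simp only [zz_norm]
        refine Tendsto.sub tendsto_const_nhds ?_
        refine Tendsto.inv_tendsto_atTop ?_
        exact (tendsto_pow_atTop (two_ne_zero)).comp (hc.comp hφ.tendsto_atTop)
      have b3 := tendsto_nhds_unique b1 b2
      have b4 : ‖θ‖ = 1 := by
        have : 0 ≤ ‖θ‖ := norm_nonneg _
        nlinarith
      exact mem_sphere_zero_iff_norm.mpr b4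
    have c1 : Tendsto (fun n => kp (zz (P.σ (g (φ n)))) θ) atTop (𝓝 (kp θ θ)) := by
      have := (kp_cont.tendsto (θ, θ)).comp (hlim.prodMk_nhds tendsto_const_nhds)
      exact this
    rwa [kp_self hθ'] at c1

include h1 h2

/-- the images of suitable basis vectors converge to the limit line -/
theorem F5_lim (g : ℕ → G) (θ : Eb) (hθ : θ ∈ Sph)
    (hg : Tendsto (fun n => kp (zz (P.σ (g n))) θ) atTop (𝓝 0)) :
    ∃ (j : ℕ → Fin 4) (l : ℕ → ℂ), (∀ n, ‖l n‖ = (s1 (P.R (g n)))⁻¹) ∧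
      Tendsto (fun n => l n • (P.R (g n) *ᵥ Pi.single (j n) 1)) atTop (𝓝 (xi θ)) := by
  obtain ⟨C, ε, hε, h2⟩ := h2
  have hj : ∀ n, ∃ j : Fin 4, ‖P.R (g n) *ᵥ Pi.single j 1‖ = s1 (P.R (g n)) := fun n => by
    obtain ⟨i, j, hij⟩ := F0.exists_max2 (P.R (g n))
    refine ⟨j, ?_⟩
    rw [F0.mulVec_single_one]
    refine le_antisymm ((pi_norm_le_iff_of_nonneg (F0.s1_nonneg _)).mpr fun i => F0.le_s1 _ i j) ?_
    rw [← hij]
    exact norm_le_pi_norm (fun i => P.R (g n) i j) i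
  choose j hj using hj
  have hl : ∀ n, ∃ l : ℂ, ‖l‖ = (s1 (P.R (g n)))⁻¹ ∧
      ‖l • (P.R (g n) *ᵥ Pi.single (j n) 1) - xi θ‖ ≤ 4 * (C * kp (zz (P.σ (g n))) θ ^ ε) := fun n => by
    have hs := P.F0_s1_pos' (g n)
    have hsn : ‖((s1 (P.R (g n)))⁻¹ : ℂ)‖ = (s1 (P.R (g n)))⁻¹ := by
      rw [norm_inv, Complex.norm_real, Real.norm_of_nonneg hs.le]
    have hq : ‖((s1 (P.R (g n)))⁻¹ : ℂ) • (P.R (g n) *ᵥ Pi.single (j n) 1)‖ = 1 := by
      rw [norm_smul, hsn, hj n, inv_mul_cancel₀ hs.ne']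
    obtain ⟨l, hl1, hl2⟩ := wd_close _ (xi θ) hq (h1 θ hθ)
    refine ⟨l * ((s1 (P.R (g n)))⁻¹ : ℂ), ?_, ?_⟩
    · rw [norm_mul, hl1, one_mul, hsn]
    · rw [← smul_smul]
      refine hl2.trans ?_
      rw [F0.wd_smul, hsn]
      have h3 := h2 (g n) θ hθ (Pi.single (j n) 1)
      rw [F0.norm_single_one] at h3
      have h4 := mul_le_mul_of_nonneg_left h3 (inv_nonneg.mpr hs.le)
      have e : (s1 (P.R (g n)))⁻¹ * (C * s1 (P.R (g n)) * 1 * kp (zz (P.σ (g n))) θ ^ ε) =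
          C * kp (zz (P.σ (g n))) θ ^ ε := by
        field_simp
      linarith
  choose l hl1 hl2 using hl
  refine ⟨j, l, hl1, ?_⟩
  rw [tendsto_iff_norm_sub_tendsto_zero]
  have h5 : Tendsto (fun n => 4 * (C * kp (zz (P.σ (g n))) θ ^ ε)) atTop (𝓝 0) := by
    have h6 : Tendsto (fun n => kp (zz (P.σ (g n))) θ ^ ε) atTop (𝓝 0) := by
      have := hg.rpow_const (p := ε) (Or.inr hε.le)
      rwa [Real.zero_rpow hε.ne'] at this
    have := (h6.const_mul C).const_mul 4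
    simpa using this
  exact squeeze_zero (fun n => norm_nonneg _) hl2 h5

/-- module F5: the foliation -/
theorem xi_fol (hd : ∀ g, (P.R g).det = 1) (hc : ∃ K : Set (I6 → ℝ), IsCompact K ∧
      (∀ x ∈ K, nq x = 1) ∧ ∀ x, nq x = 1 → ∃ g, ∃ y ∈ K, LR (P.R g) *ᵥ y = x) :
    ∀ u v : V4, (∀ a b : ℂ, a • u + b • v = 0 → a = 0 ∧ b = 0) → hf u u = 0 → hf v v = 0 →
      hf u v = 0 → ∃ θ ∈ Sph, ∃ a b : ℂ, xi θ = a • u + b • v := by
  intro u v hl hu hv huv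
  obtain ⟨x0, hx0, hn0, l, hl0, hS0⟩ := Sk_null u v hl hu hv huv
  obtain ⟨y, hy⟩ := F5_aux x0 hx0 hn0
  obtain ⟨K, hK, hK1, hcov⟩ := hc
  obtain ⟨M, hM⟩ := hK.isBounded.exists_norm_le
  -- the points of the orbit
  have hex : ∀ n : ℕ, ∃ g : G, ∃ k ∈ K, P.R g * Sk k * (P.R g)ᵀ = Sk y + (n : ℂ) • Sk x0 := by
    intro n
    obtain ⟨g, k, hk, e⟩ := hcov (y + (n : ℝ) • x0) (hy n)
    refine ⟨g, k, hk, ?_⟩
    rw [Sk_act ⟨P.F0_iso g, hd g⟩, e, F5_Sk_add, F5_Sk_smul]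
    norm_cast
  choose g k hk hgk using hex
  have hkM : ∀ n, s1 (Sk (k n)) ≤ 2 * M := fun n =>
    (F5_Sk_bd _).trans (by have := hM _ (hk n); linarith)
  have hM0 : 0 ≤ M := (norm_nonneg _).trans (hM _ (hk 0))
  -- some entry of `Sk x0` is nonzero
  obtain ⟨i0, j0, hij0⟩ := F5_minor u v hl
  have hent : Sk x0 i0 j0 ≠ 0 := by
    rw [hS0]
    exact mul_ne_zero hl0 hij0
  have hent' : 0 < ‖Sk x0 i0 j0‖ := norm_pos_iff.mpr hent
  -- sizes grow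
  have hsz : ∀ n : ℕ, (n : ℝ) * ‖Sk x0 i0 j0‖ - ‖Sk y i0 j0‖ ≤ 32 * M * s1 (P.R (g n)) ^ 2 := by
    intro n
    have a1 := F0.le_s1 (P.R (g n) * Sk (k n) * (P.R (g n))ᵀ) i0 j0
    have a2 := s1_mul (P.R (g n) * Sk (k n)) (P.R (g n))ᵀ
    have a3 := s1_mul (P.R (g n)) (Sk (k n))
    have a4 : s1 (P.R (g n))ᵀ ≤ s1 (P.R (g n)) :=
      F0.s1_le (F0.s1_nonneg _) fun i j => F0.le_s1 (P.R (g n)) j i
    have a5 := F0.s1_nonneg (P.R (g n))
    have a6 := hkM n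
    have a7 := F0.s1_nonneg (P.R (g n) * Sk (k n))
    have a8 : s1 (P.R (g n) * Sk (k n)) ≤ 4 * s1 (P.R (g n)) * (2 * M) :=
      a3.trans (mul_le_mul_of_nonneg_left a6 (by positivity))
    have a9 : s1 (P.R (g n) * Sk (k n) * (P.R (g n))ᵀ) ≤
        4 * (4 * s1 (P.R (g n)) * (2 * M)) * s1 (P.R (g n)) :=
      a2.trans (mul_le_mul (by linarith) a4 (F0.s1_nonneg _) (by positivity))
    rw [hgk n] at a1 a9
    have b1 : (Sk y + (n : ℂ) • Sk x0) i0 j0 = Sk y i0 j0 + (n : ℂ) * Sk x0 i0 j0 := rfl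
    rw [b1] at a1
    have b2 := norm_sub_le (Sk y i0 j0 + (n : ℂ) * Sk x0 i0 j0) (Sk y i0 j0)
    rw [add_sub_cancel_left, norm_mul, Complex.norm_natCast] at b2
    nlinarith
  have hgrow : Tendsto (fun n => s1 (P.R (g n))) atTop atTop := by
    have c1 : Tendsto (fun n : ℕ => (n : ℝ) * ‖Sk x0 i0 j0‖ - ‖Sk y i0 j0‖) atTop atTop :=
      tendsto_atTop_add_const_right _ _ (tendsto_natCast_atTop_atTop.atTop_mul_const hent')
    refine tendsto_atTop.mpr fun b => ?_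
    filter_upwards [c1.eventually_gt_atTop (32 * M * (max b 0) ^ 2)] with n hn
    by_contra hlt
    rw [not_le] at hlt
    have d1 := hsz n
    have d2 := F0.s1_nonneg (P.R (g n))
    have d3 : s1 (P.R (g n)) ^ 2 ≤ (max b 0) ^ 2 :=
      pow_le_pow_left₀ d2 (hlt.le.trans (le_max_left _ _)) 2
    have d4 := mul_le_mul_of_nonneg_left d3 (by positivity : (0 : ℝ) ≤ 32 * M)
    linarith
  obtain ⟨φ, hφ, θ, hθ, hkp⟩ := F5_sub P g hgrow
  obtain ⟨j, m, hm, hlim⟩ := F5_lim P xi h1 h2 (fun n => g (φ n)) θ hθ hkp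
  refine ⟨θ, hθ, ?_⟩
  -- the covectors are small
  have hTn : ∀ (n : ℕ) (i : Fin 4), ‖F5_T (P.R (g n) *ᵥ Pi.single i 1)
      (Sk y + (n : ℂ) • Sk x0)‖ ≤ 24 * M * s1 (P.R (g n)) := by
    intro n i
    have e1 := F5_T_act (P.R (g n)) (Sk (k n)) (Pi.single i 1) (F5_Sk_skew _)
    rw [hd, one_smul, hgk n] at e1
    obtain ⟨b1, -, -, b2, b3, -⟩ := iso_inv (P.F0_iso (g n))
    have e2 : F5_T (P.R (g n) *ᵥ Pi.single i 1) (Sk y + (n : ℂ) • Sk x0) =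
        ((P.R (g n))⁻¹)ᵀ *ᵥ F5_T (Pi.single i 1) (Sk (k n)) := by
      rw [← e1, Matrix.mulVec_mulVec, ← Matrix.transpose_mul, b2, Matrix.transpose_one,
        Matrix.one_mulVec]
    rw [e2]
    have c1 := norm_mulVec ((P.R (g n))⁻¹)ᵀ (F5_T (Pi.single i 1) (Sk (k n)))
    have c2 : s1 ((P.R (g n))⁻¹)ᵀ ≤ s1 (P.R (g n)) := by
      rw [← b1]
      exact F0.s1_le (F0.s1_nonneg _) fun i j => F0.le_s1 (P.R (g n))⁻¹ j i
    have c3 := F5_T_bd (Pi.single i 1) (Sk (k n))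
    rw [F0.norm_single_one, mul_one] at c3
    have c4 := hkM n
    have c5 : ‖F5_T (Pi.single i 1) (Sk (k n))‖ ≤ 6 * M := by linarith
    have c6 := F0.s1_nonneg (P.R (g n))
    have c7 : 4 * s1 ((P.R (g n))⁻¹)ᵀ * ‖F5_T (Pi.single i 1) (Sk (k n))‖ ≤
        4 * s1 (P.R (g n)) * (6 * M) :=
      mul_le_mul (by linarith) c5 (norm_nonneg _) (by positivity)
    linarith
  -- the rescaled covectors tend to zero
  have hφn : Tendsto (fun n => ((φ n : ℕ) : ℝ)) atTop atTop :=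
    tendsto_natCast_atTop_atTop.comp hφ.tendsto_atTop
  have hzero : Tendsto (fun n => F5_T (m n • (P.R (g (φ n)) *ᵥ Pi.single (j n) 1))
      ((((φ n : ℕ) : ℂ))⁻¹ • (Sk y + ((φ n : ℕ) : ℂ) • Sk x0))) atTop (𝓝 0) := by
    have hb : ∀ n, ‖F5_T (m n • (P.R (g (φ n)) *ᵥ Pi.single (j n) 1))
      ((((φ n : ℕ) : ℂ))⁻¹ • (Sk y + ((φ n : ℕ) : ℂ) • Sk x0))‖ ≤ 24 * M * ((φ n : ℕ) : ℝ)⁻¹ := by
      intro n
      rw [F5_T_smul, norm_smul, norm_mul, hm n, norm_inv, Complex.norm_natCast]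
      have d1 := hTn (φ n) (j n)
      have d2 := P.F0_s1_pos' (g (φ n))
      have d3 : 0 ≤ (s1 (P.R (g (φ n))))⁻¹ * ((φ n : ℕ) : ℝ)⁻¹ := by positivity
      refine (mul_le_mul_of_nonneg_left d1 d3).trans (le_of_eq ?_)
      field_simp
    refine squeeze_zero_norm hb ?_
    have := (tendsto_inv_atTop_zero.comp hφn).const_mul (24 * M)
    simpa using this
  have hSlim : Tendsto (fun n => (((φ n : ℕ) : ℂ))⁻¹ • (Sk y + ((φ n : ℕ) : ℂ) • Sk x0)) atTop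
      (𝓝 (Sk x0)) := by
    have e1 : Tendsto (fun n => (((φ n : ℕ) : ℂ))⁻¹) atTop (𝓝 0) := by
      have e2 : Tendsto (fun n => ‖(((φ n : ℕ) : ℂ))⁻¹‖) atTop (𝓝 0) := by
        simp only [norm_inv, Complex.norm_natCast]
        exact tendsto_inv_atTop_zero.comp hφn
      exact tendsto_zero_iff_norm_tendsto_zero.mpr e2
    have e3 : Tendsto (fun n => (((φ n : ℕ) : ℂ))⁻¹ • Sk y + Sk x0) atTop
        (𝓝 ((0 : ℂ) • Sk y + Sk x0)) := (e1.smul_const (Sk y)).add_const (Sk x0)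
    rw [zero_smul, zero_add] at e3
    refine e3.congr' ?_
    filter_upwards [hφn.eventually_gt_atTop 0] with n hn
    have hn' : ((φ n : ℕ) : ℂ) ≠ 0 := by
      have : (φ n : ℕ) ≠ 0 := fun h => by rw [h] at hn; simp at hn
      exact_mod_cast this
    rw [smul_add, smul_smul, inv_mul_cancel₀ hn', one_smul]
  have hlimT : Tendsto (fun n => F5_T (m n • (P.R (g (φ n)) *ᵥ Pi.single (j n) 1))
      ((((φ n : ℕ) : ℂ))⁻¹ • (Sk y + ((φ n : ℕ) : ℂ) • Sk x0))) atTop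
      (𝓝 (F5_T (xi θ) (Sk x0))) := F5_T_lim hlim hSlim
  have hfin : F5_T (xi θ) (Sk x0) = 0 := tendsto_nhds_unique hlimT hzero
  exact F5_span (xi θ) u v (Sk x0) l hl0 hS0 hfin ⟨i0, j0, hij0⟩

end lm

end Pool.Agent.MPd01a95.KT
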