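import Mathlib
import Pool.Agent.Lib.MP_d01a95_gt_K.KDefs2
import Pool.Agent.Lib.MP_d01a95_gt_K.KA1
import Pool.Agent.Lib.MP_d01a95_gt_K.KA2
import Pool.Agent.Lib.MP_d01a95_gt_K.KA4
import Pool.Agent.Lib.MP_d01a95_gt_K.KF0

set_option autoImplicit false
set_option linter.all false

open Matrix Filter Topology MeasureTheory
open scoped ContDiff

namespace Pool.Agent.MPd01a95.KT

open GU

variable {G : Type} [Group G]

theorem F6_sph_cb {θ : Eb} (h : θ ∈ Sph) : θ ∈ Cb := Metric.sphere_subset_closedBall h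

theorem F6_hf_tendsto {x y : ℕ → V4} {x0 y0 : V4} (hx : Tendsto x atTop (𝓝 x0))
    (hy : Tendsto y atTop (𝓝 y0)) : Tendsto (fun n => hf (x n) (y n)) atTop (𝓝 (hf x0 y0)) := by
  have hx' : ∀ i, Tendsto (fun n => x n i) atTop (𝓝 (x0 i)) := fun i => tendsto_pi_nhds.mp hx i
  have hy' : ∀ i, Tendsto (fun n => star (y n i)) atTop (𝓝 (star (y0 i))) := fun i =>
    (tendsto_pi_nhds.mp hy i).star
  have h : ∀ i, Tendsto (fun n => x n i * star (y n i)) atTop (𝓝 (x0 i * star (y0 i))) := fun i =>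
    (hx' i).mul (hy' i)
  exact (((h 0).add (h 1)).sub (h 2)).sub (h 3)

theorem F6_kp_nonneg (a b : Eb) : 0 ≤ kp a b := norm_nonneg _

theorem F6_near_mono {C C' : ℝ} {g : GU (Fin 2)} {θ : Eb} (h : Near C g θ) (hC : C ≤ C') :
    Near C' g θ := le_trans (show kp (zz g) θ * c g ^ 2 ≤ C from h) hC

/-- the quotient of two elements near the same point -/
theorem F6_near_quot {C : ℝ} (hC : 1 ≤ C) {g h : GU (Fin 2)} {θ : Eb} (hθ : θ ∈ Sph)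
    (hh : Near C h θ) (hg : Near C g θ) (hc : c h ≤ C * c g) :
    Near (4 * C * (1 + 2 * C ^ 3)) (h⁻¹ * g) (ab h⁻¹ θ) := by
  have hθc := F6_sph_cb hθ
  have e1 : zz (h⁻¹ * g) = ab h⁻¹ (zz g) := by
    unfold zz
    exact ab_mul h⁻¹ g (by simp [Cb])
  have e2 := kp_act h (zz_mem g) hθc
  have e3 := c_div h g
  have hcg := c_ge_one g
  have hch := c_ge_one h
  have hg' : kp (zz g) θ * c g ^ 2 ≤ C := hg
  have hh' : kp (zz h) θ * c h ^ 2 ≤ C := hh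
  have k1 := kp_tri (zz_mem g) (zz_mem h) hθc
  have k2 := kp_ge (zz_mem h) hθc
  have k3 := zz_norm h
  have s1' := kp_symm (zz g) (zz h)
  have s2' := kp_symm θ (zz g)
  have s3' := kp_symm θ (zz h)
  unfold Near
  rw [e1, e3]
  set X := kp (ab h⁻¹ (zz g)) (ab h⁻¹ θ) with hX
  set p := kp (zz g) (zz h) with hp
  set r := kp θ (zz h) with hr
  set q := kp (zz g) θ with hq
  rw [← s1'] 
  rw [s2'] at k1
  rw [← s3'] at hh' k2
  have hr0 : (c h ^ 2)⁻¹ / 2 ≤ r := by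
    have h1 : ‖zz h‖ ≤ 1 := by
      have := zz_mem h
      simpa [Cb] using this
    have h2 := norm_nonneg (zz h)
    nlinarith
  have hi : 0 < (c h ^ 2)⁻¹ := by positivity
  have hrp : 0 < r := by linarith
  have hq0 : 0 ≤ q := F6_kp_nonneg _ _
  have hp0 : 0 ≤ p := F6_kp_nonneg _ _
  have hX0 : 0 ≤ X := F6_kp_nonneg _ _
  -- q ≤ 2 C^3 r
  have hqr : q ≤ 2 * C ^ 3 * r := by
    have h1 : c h ^ 2 ≤ C ^ 2 * c g ^ 2 := by
      have := pow_le_pow_left₀ (by linarith) hc 2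
      rwa [mul_pow] at this
    have h2 : q * c h ^ 2 ≤ C ^ 3 := by
      calc q * c h ^ 2 ≤ q * (C ^ 2 * c g ^ 2) := by gcongr
        _ = C ^ 2 * (q * c g ^ 2) := by ring
        _ ≤ C ^ 2 * C := by gcongr
        _ = C ^ 3 := by ring
    have h3 : q ≤ C ^ 3 * (c h ^ 2)⁻¹ := by
      rw [← div_eq_mul_inv, le_div_iff₀ (by positivity)]
      exact h2
    have h4 : C ^ 3 * (c h ^ 2)⁻¹ ≤ C ^ 3 * (2 * r) := by
      gcongr
      linarith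
    linarith
  have key : (X * (c h * c g * p) ^ 2) * r = c g ^ 2 * q * p := by
    rw [← e2]
    ring
  have h5 : c g ^ 2 * q * p ≤ 4 * C * (1 + 2 * C ^ 3) * r := by
    have h6 : c g ^ 2 * q ≤ C := by linarith
    have h7 : p ≤ 4 * (q + r) := k1
    have h8 : p ≤ 4 * ((1 + 2 * C ^ 3) * r) := by nlinarith
    calc c g ^ 2 * q * p ≤ C * (4 * ((1 + 2 * C ^ 3) * r)) := by
          apply mul_le_mul h6 h8 hp0 (by linarith)
      _ = _ := by ring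
  rw [← key] at h5
  exact le_of_mul_le_mul_right h5 hrp

namespace Kd

variable (D : Kd G)

theorem F6_back (g : G) (w : V4) : ∃ u : ℂ, ‖u‖ = 1 ∧ D.R g *ᵥ (D.R g⁻¹ *ᵥ w) = u • w := by
  obtain ⟨u, hu, h⟩ := D.toKp.F0_R_mul_vec g g⁻¹
  have h1 := h w
  rw [mul_inv_cancel, D.one, Matrix.one_mulVec] at h1
  have hu0 : u ≠ 0 := fun h0 => by rw [h0, norm_zero] at hu; exact zero_ne_one hu
  refine ⟨u⁻¹, by rw [norm_inv, hu, inv_one], ?_⟩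
  conv_rhs => rw [h1]
  rw [smul_smul, inv_mul_cancel₀ hu0, one_smul]

/-- module F6: contraction of the attracting direction -/
theorem con_near (C : ℝ) : ∃ C' : ℝ, 1 ≤ C' ∧ ∀ g, ∀ θ ∈ Sph, Near C (D.σ g) θ →
    ‖D.R g⁻¹ *ᵥ D.xi θ‖ * s1 (D.R g) ≤ C' ∧ 1 ≤ C' * (‖D.R g⁻¹ *ᵥ D.xi θ‖ * s1 (D.R g)) := by
  obtain ⟨a, ha, hexp⟩ := D.xexp (1 / max C 1) (by positivity)
  refine ⟨max 4 (1 / a), le_trans (by norm_num) (le_max_left _ _), fun g θ hθ hn => ?_⟩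
  have hs : 0 < s1 (D.R g) := D.toKp.F0_s1_pos' g
  obtain ⟨u, hu, hb⟩ := D.F6_back g (D.xi θ)
  have hx := D.xnorm θ hθ
  constructor
  · -- upper bound
    obtain ⟨l, hl0, hl⟩ := D.xeqv g⁻¹ θ hθ
    have hσ : D.σ g⁻¹ = (D.σ g)⁻¹ := map_inv _ _
    rw [hσ] at hl
    set θ1 := ab (D.σ g)⁻¹ θ with hθ1
    have hθ1s : θ1 ∈ Sph := ab_sph _ hθ
    have hx1 := D.xnorm θ1 hθ1s
    have e1 : ‖l‖ * ‖D.R g *ᵥ D.xi θ1‖ = 1 := by
      rw [hl, Matrix.mulVec_smul] at hb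
      rw [← norm_smul, hb, norm_smul, hu, hx, one_mul]
    have hnd := near_dual (D.σ g) hθ
    have hn' : kp (zz (D.σ g)) θ * c (D.σ g) ^ 2 ≤ max C 1 := le_trans hn (le_max_left _ _)
    have hk0 : 0 ≤ kp (zz (D.σ g)⁻¹) θ1 := F6_kp_nonneg _ _
    have hδ : 1 / max C 1 ≤ kp θ1 (zz (D.σ g)⁻¹) := by
      rw [kp_symm, div_le_iff₀ (by positivity)]
      have hnd' : c (D.σ g) ^ 2 * kp (zz (D.σ g)) θ * kp (zz (D.σ g)⁻¹) θ1 = 1 := hnd
      nlinarith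
    have h2 := hexp g θ1 hθ1s hδ
    rw [hl, norm_smul, hx1, mul_one]
    refine le_trans ?_ (le_max_right _ _)
    rw [le_div_iff₀ ha]
    have h3 : ‖l‖ * (a * s1 (D.R g)) ≤ ‖l‖ * ‖D.R g *ᵥ D.xi θ1‖ := by gcongr
    rw [e1] at h3
    linarith
  · have h1 := norm_mulVec (D.R g) (D.R g⁻¹ *ᵥ D.xi θ)
    rw [hb, norm_smul, hu, hx, one_mul] at h1
    have h2 : 0 ≤ ‖D.R g⁻¹ *ᵥ D.xi θ‖ * s1 (D.R g) := by positivity
    have h3 : (4 : ℝ) ≤ max 4 (1 / a) := le_max_left _ _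
    nlinarith

/-- module F6: expansion of the other directions -/
theorem exp_far (δ : ℝ) (hδ : 0 < δ) : ∃ a : ℝ, 0 < a ∧ ∀ g, ∀ θ ∈ Sph,
    δ ≤ kp (zz (D.σ g)) θ → a * s1 (D.R g) ≤ ‖D.R g⁻¹ *ᵥ D.xi θ‖ := by
  obtain ⟨a, ha, h⟩ := D.xexp δ hδ
  refine ⟨a, ha, fun g θ hθ hk => ?_⟩
  have h1 := h g⁻¹ θ hθ (by rw [map_inv, inv_inv, kp_symm]; exact hk)
  rwa [(D.toKp.sz_inv g).1] at h1

/-- module F6: multiplicativity -/
theorem s1_mult (C : ℝ) : ∃ a : ℝ, 0 < a ∧ ∀ g h, ∀ θ ∈ Sph, Near C (D.σ h) θ →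
    Near C (D.σ g) θ → c (D.σ h) ≤ C * c (D.σ g) →
      a * (s1 (D.R h) * s1 (D.R (h⁻¹ * g))) ≤ s1 (D.R g) := by
  set C₁ := max C 1 with hC₁
  have h1C : 1 ≤ C₁ := le_max_right _ _
  obtain ⟨A, hA, hA'⟩ := D.con_near C₁
  obtain ⟨B, hB, hB'⟩ := D.con_near (4 * C₁ * (1 + 2 * C₁ ^ 3))
  refine ⟨1 / (A * A * B), by positivity, fun g h θ hθ hh hg hc => ?_⟩
  have hh1 := F6_near_mono hh (le_max_left C 1)
  have hg1 := F6_near_mono hg (le_max_left C 1)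
  have hc1 : c (D.σ h) ≤ C₁ * c (D.σ g) := by
    refine hc.trans ?_
    have := c_ge_one (D.σ g)
    have := le_max_left C 1
    gcongr
  have hq := F6_near_quot h1C hθ hh1 hg1 hc1
  have hθ1 : ab (D.σ h)⁻¹ θ ∈ Sph := ab_sph _ hθ
  set θ1 := ab (D.σ h)⁻¹ θ with hθ1d
  have hσ : D.σ (h⁻¹ * g) = (D.σ h)⁻¹ * D.σ g := by rw [map_mul, map_inv]
  rw [← hσ] at hq
  have b1 := (hB' (h⁻¹ * g) θ1 hθ1 hq).1
  have a1 := (hA' g θ hθ hg1).2
  have a2 := (hA' h θ hθ hh1).1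
  obtain ⟨l, hl0, hl⟩ := D.xeqv h⁻¹ θ hθ
  rw [map_inv, ← hθ1d] at hl
  obtain ⟨u, hu, hm⟩ := D.toKp.F0_R_mul_vec (h⁻¹ * g)⁻¹ h⁻¹
  have e1 : D.R g⁻¹ *ᵥ D.xi θ = u • l • (D.R (h⁻¹ * g)⁻¹ *ᵥ D.xi θ1) := by
    have := hm (D.xi θ)
    rw [show (h⁻¹ * g)⁻¹ * h⁻¹ = g⁻¹ by group] at this
    rw [this, hl, Matrix.mulVec_smul]
  have hx1 := D.xnorm θ1 hθ1
  rw [hl, norm_smul, hx1, mul_one] at a2
  rw [e1, norm_smul, norm_smul, hu, one_mul] at a1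
  have p1 : 0 < s1 (D.R h) := D.toKp.F0_s1_pos' h
  have p2 : 0 < s1 (D.R (h⁻¹ * g)) := D.toKp.F0_s1_pos' _
  have p3 : 0 < s1 (D.R g) := D.toKp.F0_s1_pos' g
  set x := ‖D.R (h⁻¹ * g)⁻¹ *ᵥ D.xi θ1‖ with hx
  have hx0 : 0 ≤ x := norm_nonneg _
  have hl1 : 0 ≤ ‖l‖ := norm_nonneg _
  rw [one_div, inv_mul_le_iff₀ (by positivity)]
  -- s1 h * s1 q ≤ A*A*B * s1 g
  calc s1 (D.R h) * s1 (D.R (h⁻¹ * g))
      ≤ (s1 (D.R h) * s1 (D.R (h⁻¹ * g))) * (A * (‖l‖ * x * s1 (D.R g))) := by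
        refine le_mul_of_one_le_right (by positivity) a1
    _ = A * s1 (D.R g) * ((‖l‖ * s1 (D.R h)) * (x * s1 (D.R (h⁻¹ * g)))) := by ring
    _ ≤ A * s1 (D.R g) * (A * B) := by
        refine mul_le_mul_of_nonneg_left ?_ (by positivity)
        exact mul_le_mul a2 b1 (by positivity) (by linarith)
    _ = A * A * B * s1 (D.R g) := by ring

theorem F6_zz_tendsto {u : ℕ → Eb} {θ : Eb} (hθ : θ ∈ Sph) (h : Tendsto u atTop (𝓝 θ)) :
    Tendsto (fun n => kp (u n) θ) atTop (𝓝 0) := by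
  have h1 : Tendsto (fun n => (u n, θ)) atTop (𝓝 (θ, θ)) := h.prodMk_nhds tendsto_const_nhds
  have h2 := (kp_cont.tendsto (θ, θ)).comp h1
  rw [show kp (θ, θ).1 (θ, θ).2 = 0 from kp_self hθ] at h2
  exact h2

theorem F6_rpow_tendsto {u : ℕ → ℝ} (h : Tendsto u atTop (𝓝 0)) {ε : ℝ} (hε : 0 < ε) :
    Tendsto (fun n => u n ^ ε) atTop (𝓝 0) := by
  have := h.rpow_const (Or.inr hε.le : (0 : ℝ) ≠ 0 ∨ 0 ≤ ε)
  rwa [Real.zero_rpow hε.ne'] at this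

/-- module F6: dynamics on sequences -/
theorem dyn {u : ℕ → G} {θ θ' : Eb} (hθ : θ ∈ Sph) (hθ' : θ' ∈ Sph)
    (h1 : Tendsto (fun n => c (D.σ (u n))) atTop atTop)
    (h2 : Tendsto (fun n => zz (D.σ (u n))) atTop (𝓝 θ))
    (h3 : Tendsto (fun n => zz (D.σ (u n))⁻¹) atTop (𝓝 θ')) {y : ℕ → V4} {y0 : V4}
    (hy : Tendsto y atTop (𝓝 y0)) (hn : hf y0 (D.xi θ') ≠ 0) :
    (∃ a : ℝ, 0 < a ∧ ∀ᶠ n in atTop, a * s1 (D.R (u n)) ≤ ‖D.R (u n) *ᵥ y n‖) ∧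
      Tendsto (fun n => wd (D.R (u n) *ᵥ y n) (D.xi θ) / ‖D.R (u n) *ᵥ y n‖) atTop (𝓝 0) := by
  obtain ⟨K, ε, hε, hap⟩ := D.xapx
  have hx' := D.xnorm θ' hθ'
  have hx := D.xnorm θ hθ
  have hs : ∀ n, 0 < s1 (D.R (u n)) := fun n => D.toKp.F0_s1_pos' (u n)
  -- the maximal columns
  have hcol : ∀ n, ∃ j : Fin 4, ∃ q : V4, ‖q‖ = 1 ∧
      D.R (u n)⁻¹ *ᵥ (Pi.single j 1 : V4) = (s1 (D.R (u n)) : ℂ) • q := by
    intro n
    obtain ⟨i, j, hij⟩ := F0.exists_max2 (D.R (u n)⁻¹)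
    have hsz := (D.toKp.sz_inv (u n)).1
    have hsc : (s1 (D.R (u n)) : ℂ) ≠ 0 := Complex.ofReal_ne_zero.mpr (hs n).ne'
    refine ⟨j, (s1 (D.R (u n)) : ℂ)⁻¹ • (D.R (u n)⁻¹ *ᵥ (Pi.single j 1 : V4)), ?_, ?_⟩
    · rw [norm_smul, norm_inv, Complex.norm_real, Real.norm_of_nonneg (hs n).le,
        F0.mulVec_single_one]
      have : ‖(fun i => D.R (u n)⁻¹ i j : V4)‖ = s1 (D.R (u n)) := by
        rw [← hsz]
        refine le_antisymm ?_ ?_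
        · exact (pi_norm_le_iff_of_nonneg (F0.s1_nonneg _)).mpr fun i => F0.le_s1 _ _ _
        · rw [← hij]
          exact norm_le_pi_norm (fun i => D.R (u n)⁻¹ i j : V4) i
      rw [this, inv_mul_cancel₀ (hs n).ne']
    · rw [smul_smul, mul_inv_cancel₀ hsc, one_smul]
  choose j q hq1 hqe using hcol
  -- the columns converge to xi θ'
  have hkp' : Tendsto (fun n => kp (zz (D.σ (u n))⁻¹) θ' ^ ε) atTop (𝓝 0) :=
    F6_rpow_tendsto (F6_zz_tendsto hθ' h3) hε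
  have hwd : ∀ n, wd (q n) (D.xi θ') ≤ |K| * kp (zz (D.σ (u n))⁻¹) θ' ^ ε := by
    intro n
    have h4 := hap (u n)⁻¹ θ' hθ' (Pi.single (j n) 1)
    rw [hqe, F0.wd_smul, Complex.norm_real, Real.norm_of_nonneg (hs n).le, map_inv,
      (D.toKp.sz_inv (u n)).1, F0.norm_single_one, mul_one] at h4
    have h5 : 0 ≤ kp (zz (D.σ (u n))⁻¹) θ' ^ ε := Real.rpow_nonneg (F6_kp_nonneg _ _) _
    have h6 : s1 (D.R (u n)) * wd (q n) (D.xi θ') ≤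
        s1 (D.R (u n)) * (|K| * kp (zz (D.σ (u n))⁻¹) θ' ^ ε) := by
      calc _ ≤ K * s1 (D.R (u n)) * kp (zz (D.σ (u n))⁻¹) θ' ^ ε := h4
        _ ≤ |K| * s1 (D.R (u n)) * kp (zz (D.σ (u n))⁻¹) θ' ^ ε := by
            have := (hs n).le
            gcongr
            exact le_abs_self K
        _ = _ := by ring
    exact le_of_mul_le_mul_left h6 (hs n)
  have hcl : ∀ n, ∃ l : ℂ, ‖l‖ = 1 ∧ ‖l • q n - D.xi θ'‖ ≤ 4 * wd (q n) (D.xi θ') := fun n =>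
    wd_close _ _ (hq1 n) hx'
  choose l hl1 hl using hcl
  have hconv : Tendsto (fun n => l n • q n) atTop (𝓝 (D.xi θ')) := by
    rw [tendsto_iff_norm_sub_tendsto_zero]
    have h4 : Tendsto (fun n => 4 * (|K| * kp (zz (D.σ (u n))⁻¹) θ' ^ ε)) atTop (𝓝 0) := by
      have := (hkp'.const_mul |K|).const_mul 4
      simpa using this
    refine squeeze_zero (fun n => norm_nonneg _) (fun n => ?_) h4
    exact (hl n).trans (by linarith [hwd n])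
  have hhf : Tendsto (fun n => hf (y n) (l n • q n)) atTop (𝓝 (hf y0 (D.xi θ'))) := by
    exact F6_hf_tendsto hy hconv
  have hpos : 0 < ‖hf y0 (D.xi θ')‖ := norm_pos_iff.mpr hn
  have hev : ∀ᶠ n in atTop, ‖hf y0 (D.xi θ')‖ / 2 < ‖hf (y n) (l n • q n)‖ :=
    hhf.norm.eventually_const_lt (by linarith)
  have main : ∀ᶠ n in atTop, ‖hf y0 (D.xi θ')‖ / 8 * s1 (D.R (u n)) ≤ ‖D.R (u n) *ᵥ y n‖ := by
    filter_upwards [hev] with n hn1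
    have e1 : ‖hf (y n) (l n • q n)‖ = ‖hf (y n) (q n)‖ := by
      rw [F0.hf_smul_right, norm_mul, norm_star, hl1, one_mul]
    rw [e1] at hn1
    -- hf (R y) e = unit * s1 * hf y q
    obtain ⟨v, hv, hb⟩ := D.F6_back (u n) (Pi.single (j n) 1)
    have e2 : hf (D.R (u n) *ᵥ y n) (v • (Pi.single (j n) 1 : V4)) =
        (s1 (D.R (u n)) : ℂ) * hf (y n) (q n) := by
      rw [← hb, D.pres, hqe, F0.hf_smul_right]
      simp
    have e3 : ‖hf (D.R (u n) *ᵥ y n) (v • (Pi.single (j n) 1 : V4))‖ ≤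
        4 * ‖D.R (u n) *ᵥ y n‖ * 1 := by
      refine (hf_bd _ _).trans ?_
      rw [norm_smul, hv, F0.norm_single_one, mul_one]
    rw [e2, norm_mul, Complex.norm_real, Real.norm_of_nonneg (hs n).le] at e3
    have h4 := mul_le_mul_of_nonneg_left hn1.le (hs n).le
    linarith
  refine ⟨⟨‖hf y0 (D.xi θ')‖ / 8, by positivity, main⟩, ?_⟩
  have hkp : Tendsto (fun n => kp (zz (D.σ (u n))) θ ^ ε) atTop (𝓝 0) :=
    F6_rpow_tendsto (F6_zz_tendsto hθ h2) hε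
  set a := ‖hf y0 (D.xi θ')‖ / 8 with ha
  have ha0 : 0 < a := by positivity
  have hb : Tendsto (fun n => |K| / a * (‖y n‖ * kp (zz (D.σ (u n))) θ ^ ε)) atTop (𝓝 0) := by
    have := (hy.norm.mul hkp).const_mul (|K| / a)
    simpa using this
  refine squeeze_zero' (Eventually.of_forall fun n => ?_) ?_ hb
  · exact div_nonneg (F0.wd_nonneg _ _) (norm_nonneg _)
  · filter_upwards [main] with n hm
    have h4 := hap (u n) θ hθ (y n)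
    have h5 : 0 ≤ kp (zz (D.σ (u n))) θ ^ ε := Real.rpow_nonneg (F6_kp_nonneg _ _) _
    have h6 : 0 < ‖D.R (u n) *ᵥ y n‖ := lt_of_lt_of_le (mul_pos ha0 (hs n)) hm
    rw [div_le_iff₀ h6]
    have h7 : K * s1 (D.R (u n)) * ‖y n‖ * kp (zz (D.σ (u n))) θ ^ ε ≤
        |K| * s1 (D.R (u n)) * ‖y n‖ * kp (zz (D.σ (u n))) θ ^ ε := by
      have := (hs n).le
      gcongr
      exact le_abs_self K
    refine h4.trans (h7.trans ?_)
    have h8 : 0 ≤ |K| / a * (‖y n‖ * kp (zz (D.σ (u n))) θ ^ ε) := by positivity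
    calc |K| * s1 (D.R (u n)) * ‖y n‖ * kp (zz (D.σ (u n))) θ ^ ε
        = |K| / a * (‖y n‖ * kp (zz (D.σ (u n))) θ ^ ε) * (a * s1 (D.R (u n))) := by
          field_simp
      _ ≤ |K| / a * (‖y n‖ * kp (zz (D.σ (u n))) θ ^ ε) * ‖D.R (u n) *ᵥ y n‖ := by
          gcongr

end Kd

end Pool.Agent.MPd01a95.KT
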