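import Mathlib
import Pool.Agent.Lib.MP_d01a95_gt_K.KDefs2
import Pool.Agent.Lib.MP_d01a95_gt_K.KF1
import Pool.Agent.Lib.MP_d01a95_gt_K.KF2
import Pool.Agent.Lib.MP_d01a95_gt_K.KF3
import Pool.Agent.Lib.MP_d01a95_gt_K.KF4
import Pool.Agent.Lib.MP_d01a95_gt_K.KF5

set_option autoImplicit false
set_option linter.all false

open Matrix Filter Topology MeasureTheory
open scoped ContDiff

namespace Pool.Agent.MPd01a95.KT

open GU

variable {G : Type} [Group G]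

/-- assembly -/
theorem exists_kd (P : Kp G) (hd : ∀ g, (P.R g).det = 1) (hc : ∃ K : Set (I6 → ℝ), IsCompact K ∧
      (∀ x ∈ K, nq x = 1) ∧ ∀ x, nq x = 1 → ∃ g, ∃ y ∈ K, LR (P.R g) *ᵥ y = x) :
    ∃ D : Kd G, D.toKp = P := by
  obtain ⟨xi, h1, h2⟩ := exists_xi P
  exact ⟨{ P with
    xi := xi
    xnorm := h1
    xnull := xi_null P xi h1 h2
    xtv := xi_tv P xi h1 h2
    xeqv := xi_eqv P xi h1 h2
    xcont := xi_cont P xi h1 h2
    xexp := xi_exp P xi h1 h2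
    xapx := h2
    fol := xi_fol P xi h1 h2 hd hc }, rfl⟩

end Pool.Agent.MPd01a95.KT
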