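import Mathlib
import Pool.Agent.Lib.MP_d01a95_gt_K.KDefs2
import Pool.Agent.Lib.MP_d01a95_gt_K.KF0

set_option autoImplicit false
set_option linter.all false

open Matrix Filter Topology MeasureTheory
open scoped ContDiff

namespace Pool.Agent.MPd01a95.KT

open GU

namespace H1
end H1

open F0 H1

variable {G : Type} [Group G]

/-- module H1: the chart form -/
theorem fc_XX (a μ τ a' μ' τ' : ℂ) : fc (XX a μ τ) (XX a' μ' τ') = Complex.I *
    ((τ - star τ') - a * (star μ - star μ') - star a' * (μ - μ')) := by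
  simp only [fc, XX, Matrix.cons_val_zero, Matrix.cons_val_one, Matrix.cons_val, star_sub,
    star_mul', star_star, star_one]
  ring

/-- module H1 -/
theorem fc_yy (a μ τ m : ℂ) : fc (XX a μ τ) (yy m) = -Complex.I * (μ - m) := by
  simp only [fc, XX, yy, Matrix.cons_val_zero, Matrix.cons_val_one, Matrix.cons_val, star_neg,
    star_star, star_one, star_zero]
  ring

/-- module H1 -/
theorem fc_e1 (Z : V4) : fc Z e1 = -Complex.I * Z 3 := by
  simp [fc, e1, Pi.single_apply]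

/-- module H1: null vectors -/
theorem null_iff (Z : V4) (h : Z 3 = 1) : (fc Z Z = 0) ↔ ∃ a μ : ℂ, ∃ t : ℝ, Z = XX a μ t := by
  constructor
  · intro h0
    have e : star (Z 1 + star (Z 2) * Z 0) = Z 1 + star (Z 2) * Z 0 := by
      have h1 : Z 0 * star (Z 2) - Z 2 * star (Z 0) + Z 1 * star (Z 3) - Z 3 * star (Z 1) = 0 := by
        have := h0
        unfold fc at this
        exact (mul_eq_zero.mp this).resolve_left Complex.I_ne_zero
      rw [h, star_one] at h1
      simp only [star_add, star_mul', star_star]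
      linear_combination -h1
    obtain ⟨t, ht⟩ := Complex.conj_eq_iff_real.mp e
    refine ⟨Z 0, Z 2, t, ?_⟩
    funext i
    fin_cases i
    · simp [XX]
    · simp only [XX, Fin.mk_one, Matrix.cons_val_one, Matrix.cons_val_zero]
      rw [← ht]
      ring
    · simp [XX]
    · simpa [XX] using h
  · rintro ⟨a, μ, t, rfl⟩
    rw [fc_XX]
    have : star (t : ℂ) = (t : ℂ) := Complex.conj_ofReal t
    rw [this]
    ring

/-- the Hermitian inner product -/
noncomputable def H1.nf (v w : V4) : ℂ :=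
  v 0 * star (w 0) + v 1 * star (w 1) + v 2 * star (w 2) + v 3 * star (w 3)

theorem H1.nf_self (v : V4) : nf v v =
    ((‖v 0‖ ^ 2 + ‖v 1‖ ^ 2 + ‖v 2‖ ^ 2 + ‖v 3‖ ^ 2 : ℝ) : ℂ) := by
  have key : ∀ z : ℂ, z * star z = ((‖z‖ ^ 2 : ℝ) : ℂ) := fun z => by
    have := Complex.mul_conj z
    rw [Complex.normSq_eq_norm_sq] at this
    exact this
  simp only [nf, key]
  push_cast
  ring

theorem H1.nf_pos {v : V4} (h : v ≠ 0) : ∃ r : ℝ, 0 < r ∧ nf v v = (r : ℂ) := by
  refine ⟨_, ?_, nf_self v⟩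
  by_contra hn
  rw [not_lt] at hn
  apply h
  have h0 := sq_nonneg ‖v 0‖
  have h1 := sq_nonneg ‖v 1‖
  have h2 := sq_nonneg ‖v 2‖
  have h3 := sq_nonneg ‖v 3‖
  have z : ∀ x : ℝ, x ^ 2 ≤ 0 → x = 0 := fun x hx => by nlinarith
  have e0 : v 0 = 0 := norm_eq_zero.mp (z _ (by linarith))
  have e1 : v 1 = 0 := norm_eq_zero.mp (z _ (by linarith))
  have e2 : v 2 = 0 := norm_eq_zero.mp (z _ (by linarith))
  have e3 : v 3 = 0 := norm_eq_zero.mp (z _ (by linarith))
  funext i
  fin_cases i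
  · exact e0
  · exact e1
  · exact e2
  · exact e3

theorem H1.nf_smul (a b : ℂ) (v w : V4) : nf (a • v) (b • w) = a * star b * nf v w := by
  simp only [nf, Pi.smul_apply, smul_eq_mul, star_mul']
  ring

theorem H1.nf_unit {v : V4} (h : v ≠ 0) : ∃ s : ℝ, 0 < s ∧
    nf ((s : ℂ) • v) ((s : ℂ) • v) = 1 := by
  obtain ⟨r, hr, e⟩ := nf_pos h
  refine ⟨(Real.sqrt r)⁻¹, inv_pos.mpr (Real.sqrt_pos.mpr hr), ?_⟩
  rw [nf_smul, e]
  have e2 : star ((((Real.sqrt r)⁻¹ : ℝ)) : ℂ) = (((Real.sqrt r)⁻¹ : ℝ) : ℂ) :=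
    Complex.conj_ofReal _
  rw [e2, ← Complex.ofReal_mul, ← Complex.ofReal_mul]
  have e3 : (Real.sqrt r)⁻¹ * (Real.sqrt r)⁻¹ * r = 1 := by
    have h1 : Real.sqrt r * Real.sqrt r = r := Real.mul_self_sqrt hr.le
    have h2 : Real.sqrt r ≠ 0 := (Real.sqrt_pos.mpr hr).ne'
    field_simp
    nlinarith [h1]
  rw [e3, Complex.ofReal_one]

theorem H1.nf_symm (v w : V4) : nf w v = star (nf v w) := by
  simp only [nf, star_add, star_mul', star_star]
  ring

/-- the matrix of a frame -/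
noncomputable def H1.mk (f g : V4) : M4 :=
  Matrix.of fun i j => (![f i, g i, -Complex.I * (sg i * f i), -Complex.I * (sg i * g i)] : V4) j

theorem H1.mk_mem {f g : V4} (hf1 : nf f f = 1) (hg1 : nf g g = 1) (hfg : nf f g = 0)
    (hff : hf f f = 0) (hgg : hf g g = 0) (hh : hf f g = 0) : mk f g ∈ KK := by
  have hgf : nf g f = 0 := by rw [nf_symm, hfg, star_zero]
  have hhs : hf g f = 0 := by rw [hf_symm, hh, star_zero]
  simp only [nf] at hf1 hg1 hfg hgf
  simp only [hf, CW.hh] at hff hgg hh hhs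
  have hI : star Complex.I = -Complex.I := Complex.conj_I
  have hII : Complex.I * Complex.I = -1 := Complex.I_mul_I
  constructor
  · simp only [← starRingEnd_apply] at hf1 hg1 hfg hgf hff hgg hh hhs
    ext i j
    rw [Matrix.mul_apply, Fin.sum_univ_four]
    simp only [Matrix.conjTranspose_apply, mk, Matrix.of_apply]
    fin_cases i <;> fin_cases j <;>
      simp [sg, Matrix.one_apply]
    · linear_combination hf1
    · linear_combination hgf
    · linear_combination -Complex.I * hff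
    · linear_combination -Complex.I * hhs
    · linear_combination hfg
    · linear_combination hg1
    · linear_combination -Complex.I * hh
    · linear_combination -Complex.I * hgg
    · linear_combination Complex.I * hff
    · linear_combination Complex.I * hhs
    · linear_combination hf1 - (f 0 * starRingEnd ℂ (f 0) + f 1 * starRingEnd ℂ (f 1) +
        f 2 * starRingEnd ℂ (f 2) + f 3 * starRingEnd ℂ (f 3)) * hII
    · linear_combination hgf - (g 0 * starRingEnd ℂ (f 0) + g 1 * starRingEnd ℂ (f 1) +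
        g 2 * starRingEnd ℂ (f 2) + g 3 * starRingEnd ℂ (f 3)) * hII
    · linear_combination Complex.I * hh
    · linear_combination Complex.I * hgg
    · linear_combination hfg - (f 0 * starRingEnd ℂ (g 0) + f 1 * starRingEnd ℂ (g 1) +
        f 2 * starRingEnd ℂ (g 2) + f 3 * starRingEnd ℂ (g 3)) * hII
    · linear_combination hg1 - (g 0 * starRingEnd ℂ (g 0) + g 1 * starRingEnd ℂ (g 1) +
        g 2 * starRingEnd ℂ (g 2) + g 3 * starRingEnd ℂ (g 3)) * hII
  · intro Z W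
    simp only [hf, CW.hh, fc, mk, Matrix.mulVec, dotProduct, Fin.sum_univ_four, Matrix.of_apply,
      Matrix.cons_val_zero, Matrix.cons_val_one, Matrix.cons_val, sg, star_add, star_mul', star_neg,
      hI, star_one]
    linear_combination Z 0 * star (W 0) * hff + Z 0 * star (W 1) * hh + Z 1 * star (W 0) * hhs +
      Z 1 * star (W 1) * hgg + Complex.I * Z 0 * star (W 2) * hf1 +
      Complex.I * Z 0 * star (W 3) * hfg + Complex.I * Z 1 * star (W 2) * hgf +
      Complex.I * Z 1 * star (W 3) * hg1 - Complex.I * Z 2 * star (W 0) * hf1 -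
      Complex.I * Z 2 * star (W 1) * hfg - Complex.I * Z 3 * star (W 0) * hgf -
      Complex.I * Z 3 * star (W 1) * hg1 -
      Complex.I * Complex.I * (Z 2 * star (W 2) * hff + Z 2 * star (W 3) * hh +
      Z 3 * star (W 2) * hhs + Z 3 * star (W 3) * hgg)

theorem H1.mk_e0 (f g : V4) : mk f g *ᵥ e0 = f := by
  rw [e0, F0.mulVec_single_one]
  rfl

theorem H1.mk_e1 (f g : V4) : mk f g *ᵥ e1 = g := by
  rw [e1, F0.mulVec_single_one]
  rfl

/-- module H1: frames exist -/
theorem exists_frame (u v : V4) (hl : ∀ a b : ℂ, a • u + b • v = 0 → a = 0 ∧ b = 0)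
    (hu : hf u u = 0) (hv : hf v v = 0) (huv : hf u v = 0) : ∃ k ∈ KK,
      (∃ l : ℂ, l ≠ 0 ∧ k *ᵥ e1 = l • v) ∧ ∃ a b : ℂ, a ≠ 0 ∧ k *ᵥ e0 = a • u + b • v := by
  have hvu : hf v u = 0 := by rw [hf_symm, huv, star_zero]
  have hv0 : v ≠ 0 := fun h => one_ne_zero (hl 0 1 (by rw [h]; simp)).2
  obtain ⟨s, hs, hs1⟩ := nf_unit hv0
  have hsc : (s : ℂ) ≠ 0 := Complex.ofReal_ne_zero.mpr hs.ne'
  obtain ⟨r, hr, hr1⟩ := nf_pos hv0
  have hrc : (r : ℂ) ≠ 0 := Complex.ofReal_ne_zero.mpr hr.ne'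
  set w : V4 := u - (nf u v / r) • v with hw
  have hw0 : w ≠ 0 := by
    intro h
    have := (hl 1 (-(nf u v / r)) (by rw [one_smul, neg_smul, ← sub_eq_add_neg]; exact h)).1
    exact one_ne_zero this
  have hwv : nf w v = 0 := by
    have e : nf w v = nf u v - nf u v / r * nf v v := by
      simp only [hw, nf, Pi.sub_apply, Pi.smul_apply, smul_eq_mul]
      ring
    rw [e, hr1]
    field_simp
    ring
  have hww : hf w w = 0 := by
    rw [hw, hf_sub_left, hf_sub_right, hf_sub_right, hf_smul_left, hf_smul_left, hf_smul_right,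
      hf_smul_right, hu, huv, hvu, hv]
    ring
  have hwv' : hf w v = 0 := by
    rw [hw, hf_sub_left, hf_smul_left, huv, hv]
    ring
  obtain ⟨p, hp, hp1⟩ := nf_unit hw0
  have hpc : (p : ℂ) ≠ 0 := Complex.ofReal_ne_zero.mpr hp.ne'
  refine ⟨mk ((p : ℂ) • w) ((s : ℂ) • v), mk_mem hp1 hs1 ?_ ?_ ?_ ?_, ⟨s, hsc, mk_e1 _ _⟩,
    p, -(p * (nf u v / r)), hpc, ?_⟩
  · rw [nf_smul, hwv, mul_zero]
  · rw [hf_smul_left, hf_smul_right, hww, mul_zero, mul_zero]
  · rw [hf_smul_left, hf_smul_right, hv, mul_zero, mul_zero]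
  · rw [hf_smul_left, hf_smul_right, hwv', mul_zero, mul_zero]
  · rw [mk_e0, hw, smul_sub, smul_smul, neg_smul, ← sub_eq_add_neg]

theorem H1.fc_cont (Z W : V4) : Continuous fun k : M4 => hf (k *ᵥ Z) (k *ᵥ W) := by
  have h1 : Continuous fun k : M4 => k *ᵥ Z := continuous_id.matrix_mulVec continuous_const
  have h2 : Continuous fun k : M4 => k *ᵥ W := continuous_id.matrix_mulVec continuous_const
  have h1' : ∀ i, Continuous fun k : M4 => (k *ᵥ Z) i := fun i => (continuous_apply i).comp h1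
  have h2' : ∀ i, Continuous fun k : M4 => star ((k *ᵥ W) i) :=
    fun i => continuous_star.comp ((continuous_apply i).comp h2)
  exact ((((h1' 0).mul (h2' 0)).add ((h1' 1).mul (h2' 1))).sub ((h1' 2).mul (h2' 2))).sub
    ((h1' 3).mul (h2' 3))

theorem H1.kk_closed : IsClosed KK := by
  have h1 : IsClosed {k : M4 | kᴴ * k = 1} :=
    isClosed_eq (continuous_id.matrix_conjTranspose.matrix_mul continuous_id) continuous_const
  have h2 : IsClosed {k : M4 | ∀ Z W : V4, hf (k *ᵥ Z) (k *ᵥ W) = fc Z W} := by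
    simp only [Set.setOf_forall]
    exact isClosed_iInter fun Z => isClosed_iInter fun W =>
      isClosed_eq (fc_cont Z W) continuous_const
  exact h1.inter h2

theorem H1.nf_mul {k : M4} (hk : k ∈ KK) (v w : V4) : nf (k *ᵥ v) (k *ᵥ w) = nf v w := by
  have e : ∀ x y : V4, nf x y = star y ⬝ᵥ x := fun x y => by
    simp only [nf, dotProduct, Fin.sum_univ_four, Pi.star_apply]
    ring
  rw [e, e, Matrix.star_mulVec, ← Matrix.dotProduct_mulVec, Matrix.mulVec_mulVec, hk.1,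
    Matrix.one_mulVec]

theorem H1.entry_le {k : M4} (hk : k ∈ KK) (i j : Fin 4) : ‖k i j‖ ≤ 1 := by
  have h := nf_mul hk (Pi.single j 1) (Pi.single j 1)
  rw [F0.mulVec_single_one, nf_self, nf_self] at h
  have h2 : ‖k 0 j‖ ^ 2 + ‖k 1 j‖ ^ 2 + ‖k 2 j‖ ^ 2 + ‖k 3 j‖ ^ 2 = 1 := by
    have h3 := Complex.ofReal_injective h
    rw [h3]
    fin_cases j <;> simp [Pi.single_apply]
  have h0 := sq_nonneg ‖k 0 j‖
  have h1 := sq_nonneg ‖k 1 j‖
  have h2' := sq_nonneg ‖k 2 j‖
  have h3 := sq_nonneg ‖k 3 j‖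
  have z : ∀ x : ℝ, x ^ 2 ≤ 1 → x ≤ 1 := fun x hx => by nlinarith [sq_nonneg (x - 1)]
  have a0 := z ‖k 0 j‖ (by linarith)
  have a1 := z ‖k 1 j‖ (by linarith)
  have a2 := z ‖k 2 j‖ (by linarith)
  have a3 := z ‖k 3 j‖ (by linarith)
  fin_cases i
  · exact a0
  · exact a1
  · exact a2
  · exact a3

/-- module H1 -/
theorem kk_compact : IsCompact KK := by
  have hc : IsCompact (Set.univ.pi fun _ : Fin 4 => Set.univ.pi fun _ : Fin 4 =>
      Metric.closedBall (0 : ℂ) 1) :=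
    isCompact_univ_pi fun _ => isCompact_univ_pi fun _ => isCompact_closedBall 0 1
  refine IsCompact.of_isClosed_subset (s := (Set.univ.pi fun _ : Fin 4 => Set.univ.pi fun _ : Fin 4 =>
      Metric.closedBall (0 : ℂ) 1 : Set M4)) hc kk_closed fun k hk => ?_
  intro i _ j _
  rw [mem_closedBall_zero_iff]
  exact entry_le hk i j

/-- module H1: unitary frames change norms by bounded factors -/
theorem kk_norm {k : M4} (hk : k ∈ KK) (v : V4) : ‖k *ᵥ v‖ ≤ 2 * ‖v‖ ∧ ‖v‖ ≤ 2 * ‖k *ᵥ v‖ := by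
  have h := nf_mul hk v v
  rw [nf_self, nf_self] at h
  have h2 := Complex.ofReal_injective h
  have key : ∀ x y : V4, ‖x 0‖ ^ 2 + ‖x 1‖ ^ 2 + ‖x 2‖ ^ 2 + ‖x 3‖ ^ 2 =
      ‖y 0‖ ^ 2 + ‖y 1‖ ^ 2 + ‖y 2‖ ^ 2 + ‖y 3‖ ^ 2 → ‖x‖ ≤ 2 * ‖y‖ := by
    intro x y hxy
    have hy : ∀ i, ‖y i‖ ^ 2 ≤ ‖y‖ ^ 2 := fun i =>
      pow_le_pow_left₀ (norm_nonneg _) (norm_le_pi_norm y i) 2
    have z : ∀ i, ‖x i‖ ^ 2 ≤ (2 * ‖y‖) ^ 2 → ‖x i‖ ≤ 2 * ‖y‖ := fun i hi =>
      (pow_le_pow_iff_left₀ (norm_nonneg _) (by positivity) two_ne_zero).mp hi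
    have h0 := sq_nonneg ‖x 0‖
    have h1 := sq_nonneg ‖x 1‖
    have h2 := sq_nonneg ‖x 2‖
    have h3 := sq_nonneg ‖x 3‖
    have y0 := hy 0
    have y1 := hy 1
    have y2 := hy 2
    have y3 := hy 3
    have a0 := z 0 (by nlinarith)
    have a1 := z 1 (by nlinarith)
    have a2 := z 2 (by nlinarith)
    have a3 := z 3 (by nlinarith)
    refine (pi_norm_le_iff_of_nonneg (by positivity)).mpr fun i => ?_
    fin_cases i
    · exact a0
    · exact a1
    · exact a2
    · exact a3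
  exact ⟨key _ _ h2, key _ _ h2.symm⟩

end Pool.Agent.MPd01a95.KT
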