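import Mathlib
import Pool.Agent.Lib.MP_d01a95_gt_K.KDefs2
import Pool.Agent.Lib.MP_d01a95_gt_K.KA1
import Pool.Agent.Lib.MP_d01a95_gt_K.KF0
import Pool.Agent.Lib.MP_d01a95_gt_K.KH1

set_option autoImplicit false
set_option linter.all false

open Matrix Filter Topology MeasureTheory
open scoped ContDiff

namespace Pool.Agent.MPd01a95.KT

open GU

namespace H2
end H2

open F0 H1 H2

variable {G : Type} [Group G]

theorem H2.hf_cont : Continuous fun p : V4 × V4 => hf p.1 p.2 := by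
  have h1 : ∀ i, Continuous fun p : V4 × V4 => p.1 i := fun i =>
    (continuous_apply i).comp continuous_fst
  have h2 : ∀ i, Continuous fun p : V4 × V4 => star (p.2 i) := fun i =>
    continuous_star.comp ((continuous_apply i).comp continuous_snd)
  exact ((((h1 0).mul (h2 0)).add ((h1 1).mul (h2 1))).sub ((h1 2).mul (h2 2))).sub
    ((h1 3).mul (h2 3))

theorem H2.hf_tendsto {X : Type*} {l : Filter X} {f g : X → V4} {x y : V4}
    (hf' : Tendsto f l (𝓝 x)) (hg : Tendsto g l (𝓝 y)) :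
    Tendsto (fun p => hf (f p) (g p)) l (𝓝 (hf x y)) := by
  have h := (H2.hf_cont.tendsto (x, y)).comp (hf'.prodMk_nhds hg)
  exact h

theorem H2.wd_cont : Continuous fun p : V4 × V4 => wd p.1 p.2 := by
  have h1 : ∀ i, Continuous fun p : V4 × V4 => p.1 i := fun i =>
    (continuous_apply i).comp continuous_fst
  have h2 : ∀ i, Continuous fun p : V4 × V4 => p.2 i := fun i =>
    (continuous_apply i).comp continuous_snd
  exact continuous_norm.comp (continuous_pi fun i => continuous_pi fun j =>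
    ((h1 i).mul (h2 j)).sub ((h1 j).mul (h2 i)))

theorem H2.cont_of_unique {X : Type*} [TopologicalSpace X] {S : Set X} {f : X → Eb}
    (hf : ∀ x ∈ S, f x ∈ Sph) {F : X → Eb → ℝ}
    (hF : ∀ x ∈ S, ∀ θ ∈ Sph, Tendsto (fun p : X × Eb => F p.1 p.2) (𝓝[S] x ×ˢ 𝓝[Sph] θ)
      (𝓝 (F x θ))) (h0 : ∀ x ∈ S, F x (f x) = 0)
    (h1 : ∀ x ∈ S, ∀ θ ∈ Sph, F x θ = 0 → θ = f x) : ContinuousOn f S := by
  intro x hx
  refine IsCompact.tendsto_nhds_of_unique_mapClusterPt (s := Sph) (isCompact_sphere 0 1)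
    (eventually_nhdsWithin_of_forall hf) fun θ hθ hc => h1 x hx θ hθ ?_
  by_contra hne
  have h2 : ∀ᶠ p : X × Eb in 𝓝[S] x ×ˢ 𝓝[Sph] θ, F p.1 p.2 ≠ 0 :=
    (hF x hx θ hθ).eventually_ne hne
  obtain ⟨U, hU, V, hV, hUV⟩ := Filter.eventually_prod_iff.mp h2
  obtain ⟨W, hW, hWV⟩ := mem_nhdsWithin_iff_exists_mem_nhds_inter.mp hV
  have h3 : ∃ᶠ y in 𝓝[S] x, f y ∈ W := mapClusterPt_iff_frequently.mp hc W hW
  obtain ⟨y, hy1, hy2, hy3⟩ := (h3.and_eventually (hU.and self_mem_nhdsWithin)).exists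
  exact hUV hy2 (hWV ⟨hy1, hf y hy3⟩) (h0 y hy3)

theorem H2.kk_inj {k : M4} (hk : k ∈ KK) {v w : V4} (h : k *ᵥ v = k *ᵥ w) : v = w := by
  have := congrArg (fun x => kᴴ *ᵥ x) h
  simpa only [Matrix.mulVec_mulVec, hk.1, Matrix.one_mulVec] using this

theorem H2.kk_surj {k : M4} (hk : k ∈ KK) (v : V4) : ∃ w, k *ᵥ w = v := by
  have h : k * kᴴ = 1 := mul_eq_one_comm.mp hk.1
  exact ⟨kᴴ *ᵥ v, by rw [Matrix.mulVec_mulVec, h, Matrix.one_mulVec]⟩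

theorem H2.XX_split (a μ t : ℂ) : XX a μ t = a • yy μ + XX 0 μ t := by
  funext i
  fin_cases i
  · simp [XX, yy]
  · simp [XX, yy]
    ring
  · simp [XX, yy]
  · simp [XX, yy]

namespace Kd

variable (D : Kd G)

/-- locally the limit map has continuous lifts -/
theorem H2_sec {θ : Eb} (hθ : θ ∈ Sph) : ∃ l : Eb → ℂ, (∀ x, ‖l x‖ = 1) ∧
    Tendsto (fun x => l x • D.xi x) (𝓝[Sph] θ) (𝓝 (D.xi θ)) := by
  have h : ∀ x, ∃ l : ℂ, ‖l‖ = 1 ∧ (x ∈ Sph → ‖l • D.xi x - D.xi θ‖ ≤ 4 * wd (D.xi x) (D.xi θ)) :=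
    fun x => by
      by_cases hx : x ∈ Sph
      · obtain ⟨l, h1, h2⟩ := wd_close (D.xi x) (D.xi θ) (D.xnorm x hx) (D.xnorm θ hθ)
        exact ⟨l, h1, fun _ => h2⟩
      · exact ⟨1, norm_one, fun h => (hx h).elim⟩
  choose l h1 h2 using h
  refine ⟨l, h1, ?_⟩
  rw [Metric.tendsto_nhdsWithin_nhds]
  intro η hη
  obtain ⟨δ, hδ, h3⟩ := D.xcont θ hθ (η / 16) (by positivity)
  refine ⟨δ, hδ, fun x hx hd => ?_⟩
  rw [dist_eq_norm] at hd ⊢
  obtain ⟨l', h4, h5⟩ := h3 x hx hd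
  refine (h2 x hx).trans_lt ?_
  have h6 : wd (D.xi x) (D.xi θ) = wd (l' • D.xi x) (D.xi θ) := by
    rw [wd_smul, h4, one_mul]
  have h7 : wd (D.xi θ) (D.xi θ) ≤ 0 := wd_le_of le_rfl fun i j => by
    rw [mul_comm, sub_self, norm_zero]
  have h8 := wd_add_left (l' • D.xi x - D.xi θ) (D.xi θ) (D.xi θ)
  rw [sub_add_cancel] at h8
  have h9 := wd_le (l' • D.xi x - D.xi θ) (D.xi θ)
  rw [D.xnorm θ hθ] at h9
  rw [h6]
  linarith

theorem H2_hfc {θ : Eb} (hθ : θ ∈ Sph) {X : Type*} {l : Filter X} {f : X → Eb} {g : X → V4}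
    {x : V4} (hf' : Tendsto f l (𝓝[Sph] θ)) (hg : Tendsto g l (𝓝 x)) :
    Tendsto (fun p => ‖hf (D.xi (f p)) (g p)‖) l (𝓝 ‖hf (D.xi θ) x‖) := by
  obtain ⟨m, h1, h2⟩ := D.H2_sec hθ
  have h3 : Tendsto (fun p => m (f p) • D.xi (f p)) l (𝓝 (D.xi θ)) := h2.comp hf'
  have h4 := H2.hf_tendsto h3 hg
  refine (h4.norm).congr fun p => ?_
  simp only [hf_smul_left, norm_mul, h1, one_mul]

theorem H2_eq {θ θ' : Eb} (hθ : θ ∈ Sph) (hθ' : θ' ∈ Sph) (h : hf (D.xi θ) (D.xi θ') = 0) :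
    θ = θ' := by
  by_contra hn
  exact D.xtv θ hθ θ' hθ' hn h

theorem H2_ne0 {θ : Eb} (hθ : θ ∈ Sph) : D.xi θ ≠ 0 := fun h => by
  have := D.xnorm θ hθ
  rw [h, norm_zero] at this
  exact zero_ne_one this

/-- module H2 -/
theorem ff_compact : IsCompact D.FF := by
  have h1 : ContinuousOn (fun p : M4 × Eb => wd (p.1 *ᵥ e1) (D.xi p.2)) (KK ×ˢ Sph) := by
    rintro ⟨k, θ⟩ ⟨hk, hθ⟩
    obtain ⟨m, h1, h2⟩ := D.H2_sec hθ
    unfold ContinuousWithinAt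
    rw [nhdsWithin_prod_eq]
    have h3 : Tendsto (fun p : M4 × Eb => m p.2 • D.xi p.2) (𝓝[KK] k ×ˢ 𝓝[Sph] θ)
        (𝓝 (D.xi θ)) := h2.comp tendsto_snd
    have h4 : Tendsto (fun p : M4 × Eb => p.1 *ᵥ e1) (𝓝[KK] k ×ˢ 𝓝[Sph] θ) (𝓝 (k *ᵥ e1)) := by
      have h5 : Continuous fun k : M4 => k *ᵥ e1 := continuous_id.matrix_mulVec continuous_const
      exact ((h5.tendsto k).mono_left nhdsWithin_le_nhds).comp tendsto_fst
    have h5 := (H2.wd_cont.tendsto (k *ᵥ e1, D.xi θ)).comp (h4.prodMk_nhds h3)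
    refine h5.congr fun p => ?_
    simp only [Function.comp_apply, wd_smul', h1, one_mul]
  have h2 : IsCompact (KK ×ˢ Sph) := kk_compact.prod (isCompact_sphere 0 1)
  have h3 : IsCompact ((KK ×ˢ Sph) ∩ (fun p : M4 × Eb => wd (p.1 *ᵥ e1) (D.xi p.2)) ⁻¹' {0}) :=
    h2.of_isClosed_subset (h1.preimage_isClosed_of_isClosed h2.isClosed isClosed_singleton)
      Set.inter_subset_left
  have h4 : D.FF = Prod.fst '' ((KK ×ˢ Sph) ∩
      (fun p : M4 × Eb => wd (p.1 *ᵥ e1) (D.xi p.2)) ⁻¹' {0}) := by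
    ext k
    constructor
    · rintro ⟨hk, θ, hθ, l, hl, h⟩
      refine ⟨(k, θ), ⟨⟨hk, hθ⟩, ?_⟩, rfl⟩
      simp only [Set.mem_preimage, Set.mem_singleton_iff]
      rw [h, wd_smul]
      have h7 : wd (D.xi θ) (D.xi θ) ≤ 0 := wd_le_of le_rfl fun i j => by
        rw [mul_comm, sub_self, norm_zero]
      rw [le_antisymm h7 (wd_nonneg _ _), mul_zero]
    · rintro ⟨⟨k', θ⟩, ⟨⟨hk, hθ⟩, h⟩, rfl⟩
      simp only [Set.mem_preimage, Set.mem_singleton_iff] at h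
      obtain ⟨l, -, hl2⟩ := wd_decomp (k' *ᵥ e1) (D.xi θ) (D.xnorm θ hθ)
      rw [h] at hl2
      have h5 : k' *ᵥ e1 = l • D.xi θ := sub_eq_zero.mp (norm_le_zero_iff.mp hl2)
      refine ⟨hk, θ, hθ, l, fun h0 => ?_, h5⟩
      rw [h0, zero_smul] at h5
      have h6 : (e1 : V4) = 0 := H2.kk_inj hk (by rw [h5, Matrix.mulVec_zero])
      have := congrFun h6 1
      simp [e1] at this
  rw [h4]
  exact h3.image continuous_fst

/-- module H2 -/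
theorem t0_spec {k : M4} (hk : k ∈ D.FF) : D.t0 k ∈ Sph ∧ ∃ l : ℂ, l ≠ 0 ∧
    k *ᵥ e1 = l • D.xi (D.t0 k) := by
  have h : ∃ θ, θ ∈ Sph ∧ ∃ l : ℂ, l ≠ 0 ∧ k *ᵥ e1 = l • D.xi θ := by
    obtain ⟨θ, h1, h2⟩ := hk.2
    exact ⟨θ, h1, h2⟩
  unfold t0
  rw [dif_pos h]
  exact h.choose_spec

theorem H2_mulVec_cont (Z : V4) : Continuous fun k : M4 => k *ᵥ Z :=
  continuous_id.matrix_mulVec continuous_const

/-- module H2 -/
theorem t0_cont : ContinuousOn D.t0 D.FF := by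
  refine H2.cont_of_unique (F := fun k θ => ‖hf (D.xi θ) (k *ᵥ e1)‖)
    (fun k hk => (D.t0_spec hk).1) ?_ ?_ ?_
  · intro k hk θ hθ
    refine D.H2_hfc hθ tendsto_snd ?_
    exact (((H2_mulVec_cont e1).tendsto k).mono_left nhdsWithin_le_nhds).comp tendsto_fst
  · intro k hk
    obtain ⟨h1, l, -, h2⟩ := D.t0_spec hk
    simp only [h2, hf_smul_right, D.xnull _ h1, mul_zero, norm_zero]
  · intro k hk θ hθ h
    obtain ⟨h1, l, hl, h2⟩ := D.t0_spec hk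
    simp only [h2, hf_smul_right, norm_mul, norm_star] at h
    refine D.H2_eq hθ h1 (norm_eq_zero.mp ((mul_eq_zero.mp h).resolve_left ?_))
    exact norm_ne_zero_iff.mpr hl

theorem H2_exA {k : M4} (hk : k ∈ D.FF) (μ : ℂ) (t : ℝ) : ∃ a : ℂ, k *ᵥ XX a μ t ∈ D.Lam := by
  have hstar : star (t : ℂ) = (t : ℂ) := Complex.conj_ofReal t
  have hyX : XX 1 μ t - XX 0 μ t = yy μ := by rw [XX_split 1 μ t]; simp
  have e11 : hf (k *ᵥ yy μ) (k *ᵥ yy μ) = 0 := by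
    rw [hk.1.2]
    simp [fc, yy]
  have e12 : hf (k *ᵥ yy μ) (k *ᵥ XX 0 μ t) = 0 := by
    rw [hk.1.2]
    simp [fc, yy, XX]
  have e22 : hf (k *ᵥ XX 0 μ t) (k *ᵥ XX 0 μ t) = 0 := by
    rw [hk.1.2, fc_XX, hstar]
    simp
  obtain ⟨θ, hθ, a, b, h⟩ := D.fol (k *ᵥ yy μ) (k *ᵥ XX 0 μ t) (fun a b h => by
    rw [← Matrix.mulVec_smul, ← Matrix.mulVec_smul, ← Matrix.mulVec_add] at h
    have h2 : a • yy μ + b • XX 0 μ t = 0 := H2.kk_inj hk.1 (by rw [h, Matrix.mulVec_zero])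
    have h3 := congrFun h2 3
    have h4 := congrFun h2 0
    simp [yy, XX] at h3 h4
    exact ⟨h4, h3⟩) e11 e22 e12
  have hb : b ≠ 0 := by
    intro hb
    rw [hb, zero_smul, add_zero, ← Matrix.mulVec_smul] at h
    obtain ⟨h1, l, hl, h2⟩ := D.t0_spec hk
    have h3 : hf (D.xi θ) (k *ᵥ e1) = 0 := by
      rw [h, hk.1.2, fc_e1]
      simp [yy]
    rw [h2, hf_smul_right] at h3
    have h4 : θ = D.t0 k := D.H2_eq hθ h1
      ((mul_eq_zero.mp h3).resolve_left (star_ne_zero.mpr hl))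
    rw [← h4, h, ← Matrix.mulVec_smul] at h2
    have h5 := congrFun (H2.kk_inj hk.1 h2) 0
    simp [e1, yy, hl] at h5
    rw [h5, zero_smul, Matrix.mulVec_zero] at h
    exact D.H2_ne0 hθ h
  refine ⟨a / b, θ, hθ, b⁻¹, inv_ne_zero hb, ?_⟩
  rw [h, XX_split, Matrix.mulVec_add, Matrix.mulVec_smul, smul_add, smul_smul, smul_smul,
    inv_mul_cancel₀ hb, one_smul, div_eq_inv_mul]

theorem H2_A_mem {k : M4} (hk : k ∈ D.FF) (μ : ℂ) (t : ℝ) : k *ᵥ XX (D.A k μ t) μ t ∈ D.Lam := by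
  have h := D.H2_exA hk μ t
  unfold A
  rw [dif_pos h]
  exact h.choose_spec

/-- module H2 -/
theorem A_spec {k : M4} (hk : k ∈ D.FF) (μ : ℂ) (t : ℝ) : D.th k μ t ∈ Sph ∧
    D.th k μ t ≠ D.t0 k ∧ ∃ l : ℂ, l ≠ 0 ∧ k *ᵥ XX (D.A k μ t) μ t = l • D.xi (D.th k μ t) := by
  have h : ∃ θ, θ ∈ Sph ∧ ∃ l : ℂ, l ≠ 0 ∧ k *ᵥ XX (D.A k μ t) μ t = l • D.xi θ := by
    obtain ⟨θ, h1, h2⟩ := D.H2_A_mem hk μ t
    exact ⟨θ, h1, h2⟩
  have h2 : D.th k μ t ∈ Sph ∧ ∃ l : ℂ, l ≠ 0 ∧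
      k *ᵥ XX (D.A k μ t) μ t = l • D.xi (D.th k μ t) := by
    unfold th
    rw [dif_pos h]
    exact h.choose_spec
  obtain ⟨h3, l, hl, h4⟩ := h2
  refine ⟨h3, fun he => ?_, l, hl, h4⟩
  obtain ⟨-, l', hl', h5⟩ := D.t0_spec hk
  rw [he] at h4
  have h6 : l' • XX (D.A k μ t) μ t = l • e1 := H2.kk_inj hk.1 (by
    rw [Matrix.mulVec_smul, Matrix.mulVec_smul, h4, h5, smul_smul, smul_smul, mul_comm])
  have h7 := congrFun h6 3
  simp [XX, e1] at h7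
  exact hl' h7

theorem H2_A_unique' {k : M4} (hk : k ∈ D.FF) (a μ a' μ' : ℂ) (t t' : ℝ) {θ : Eb} {l l' : ℂ}
    (hl : l ≠ 0) (hl' : l' ≠ 0)
    (h : k *ᵥ XX a μ t = l • D.xi θ) (h' : k *ᵥ XX a' μ' t' = l' • D.xi θ) :
    a = a' ∧ μ = μ' ∧ t = t' := by
  have h6 : l' • XX a μ t = l • XX a' μ' t' := H2.kk_inj hk.1 (by
    rw [Matrix.mulVec_smul, Matrix.mulVec_smul, h, h', smul_smul, smul_smul, mul_comm])
  have h3 := congrFun h6 3
  have h0 := congrFun h6 0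
  have h1 := congrFun h6 1
  have h2 := congrFun h6 2
  simp only [XX, Pi.smul_apply, smul_eq_mul, Matrix.cons_val_zero, Matrix.cons_val_one,
    Matrix.cons_val, mul_one] at h0 h1 h2 h3
  subst h3
  have e0 := mul_left_cancel₀ hl h0
  have e2 := mul_left_cancel₀ hl h2
  have e1 := mul_left_cancel₀ hl h1
  rw [e0, e2] at e1
  refine ⟨e0, e2, ?_⟩
  have : (t : ℂ) = (t' : ℂ) := by linear_combination e1
  exact_mod_cast this

theorem H2_A_unique {k : M4} (hk : k ∈ D.FF) (a μ : ℂ) (t : ℝ) {θ : Eb} (hθ : θ ∈ Sph) {l : ℂ}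
    (hl : l ≠ 0) (h : k *ᵥ XX a μ t = l • D.xi θ) : a = D.A k μ t ∧ θ = D.th k μ t := by
  obtain ⟨h1, -, l', hl', h2⟩ := D.A_spec hk μ t
  have e : hf (k *ᵥ XX a μ t) (k *ᵥ XX (D.A k μ t) μ t) = 0 := by
    have hstar : star (t : ℂ) = (t : ℂ) := Complex.conj_ofReal t
    rw [hk.1.2, fc_XX, hstar]
    ring
  rw [h, h2, hf_smul_left, hf_smul_right] at e
  have e2 : θ = D.th k μ t := D.H2_eq hθ h1
    ((mul_eq_zero.mp ((mul_eq_zero.mp e).resolve_left hl)).resolve_left (star_ne_zero.mpr hl'))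
  rw [← e2] at h2
  exact ⟨(D.H2_A_unique' hk a μ (D.A k μ t) μ t t hl hl' h h2).1, e2⟩

/-- module H2 -/
theorem A_unique {k : M4} (hk : k ∈ D.FF) (a μ : ℂ) (t : ℝ) (h : k *ᵥ XX a μ t ∈ D.Lam) :
    a = D.A k μ t := by
  obtain ⟨θ, hθ, l, hl, h1⟩ := h
  exact (D.H2_A_unique hk a μ t hθ hl h1).1

theorem H2_ne_zero {k : M4} (hk : k ∈ D.FF) {θ : Eb} (hθ : θ ∈ Sph) (h : θ ≠ D.t0 k) :
    hf (D.xi θ) (k *ᵥ e1) ≠ 0 := by
  obtain ⟨h1, l, hl, h2⟩ := D.t0_spec hk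
  rw [h2, hf_smul_right]
  exact mul_ne_zero (star_ne_zero.mpr hl) (D.xtv θ hθ _ h1 h)

/-- module H2 -/
theorem th_surj {k : M4} (hk : k ∈ D.FF) {θ : Eb} (hθ : θ ∈ Sph) (h : θ ≠ D.t0 k) :
    ∃ μ : ℂ, ∃ t : ℝ, D.th k μ t = θ := by
  obtain ⟨Z, hZ⟩ := H2.kk_surj hk.1 (D.xi θ)
  have h1 := D.H2_ne_zero hk hθ h
  rw [← hZ, hk.1.2, fc_e1] at h1
  have h3 : Z 3 ≠ 0 := right_ne_zero_of_mul h1
  have h4 : fc ((Z 3)⁻¹ • Z) ((Z 3)⁻¹ • Z) = 0 := by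
    rw [← hk.1.2, Matrix.mulVec_smul, hZ, hf_smul_left, hf_smul_right, D.xnull θ hθ]
    ring
  obtain ⟨a, μ, t, h5⟩ := (null_iff ((Z 3)⁻¹ • Z) (by
    rw [Pi.smul_apply, smul_eq_mul, inv_mul_cancel₀ h3])).mp h4
  refine ⟨μ, t, ((D.H2_A_unique hk a μ t hθ (inv_ne_zero h3) ?_).2).symm⟩
  rw [← h5, Matrix.mulVec_smul, hZ]

/-- module H2 -/
theorem th_inj {k : M4} (hk : k ∈ D.FF) (μ μ' : ℂ) (t t' : ℝ) (h : D.th k μ t = D.th k μ' t') :
    μ = μ' ∧ t = t' := by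
  obtain ⟨h1, -, l, hl, h2⟩ := D.A_spec hk μ t
  obtain ⟨h1', -, l', hl', h2'⟩ := D.A_spec hk μ' t'
  rw [← h] at h2'
  exact (D.H2_A_unique' hk _ μ _ μ' t t' hl hl' h2 h2').2

/-- module H2 -/
theorem th_cont : ContinuousOn (fun p : M4 × ℂ × ℝ => D.th p.1 p.2.1 p.2.2)
    (D.FF ×ˢ Set.univ) := by
  have hy : Continuous fun p : M4 × ℂ × ℝ => p.1 *ᵥ yy p.2.1 := by
    refine continuous_fst.matrix_mulVec (continuous_pi fun i => ?_)
    fin_cases i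
    · exact continuous_const
    · exact (continuous_star.comp (continuous_fst.comp continuous_snd)).neg
    · exact continuous_const
    · exact continuous_const
  have hX : Continuous fun p : M4 × ℂ × ℝ => p.1 *ᵥ XX 0 p.2.1 p.2.2 := by
    refine continuous_fst.matrix_mulVec (continuous_pi fun i => ?_)
    fin_cases i
    · exact continuous_const
    · exact (Complex.continuous_ofReal.comp (continuous_snd.comp continuous_snd)).sub
        ((continuous_star.comp (continuous_fst.comp continuous_snd)).mul continuous_const)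
    · exact continuous_fst.comp continuous_snd
    · exact continuous_const
  refine H2.cont_of_unique (F := fun p θ => ‖hf (D.xi θ) (p.1 *ᵥ yy p.2.1)‖ +
    ‖hf (D.xi θ) (p.1 *ᵥ XX 0 p.2.1 p.2.2)‖)
    (fun p hp => (D.A_spec hp.1 p.2.1 p.2.2).1) ?_ ?_ ?_
  · intro p hp θ hθ
    refine (D.H2_hfc hθ tendsto_snd ?_).add (D.H2_hfc hθ tendsto_snd ?_)
    · exact ((hy.tendsto p).mono_left nhdsWithin_le_nhds).comp tendsto_fst
    · exact ((hX.tendsto p).mono_left nhdsWithin_le_nhds).comp tendsto_fst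
  · intro p hp
    obtain ⟨h1, -, l, hl, h2⟩ := D.A_spec hp.1 p.2.1 p.2.2
    have e1 : hf (p.1 *ᵥ XX (D.A p.1 p.2.1 p.2.2) p.2.1 p.2.2) (p.1 *ᵥ yy p.2.1) = 0 := by
      rw [hp.1.1.2, fc_yy]
      ring
    have e2 : hf (p.1 *ᵥ XX (D.A p.1 p.2.1 p.2.2) p.2.1 p.2.2)
        (p.1 *ᵥ XX 0 p.2.1 p.2.2) = 0 := by
      have hstar : star (p.2.2 : ℂ) = (p.2.2 : ℂ) := Complex.conj_ofReal _
      rw [hp.1.1.2, fc_XX, hstar]
      ring
    rw [h2, hf_smul_left] at e1 e2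
    simp only [(mul_eq_zero.mp e1).resolve_left hl, (mul_eq_zero.mp e2).resolve_left hl, norm_zero,
      add_zero]
  · intro p hp θ hθ h
    have hk := hp.1
    have a1 := norm_nonneg (hf (D.xi θ) (p.1 *ᵥ yy p.2.1))
    have a2 := norm_nonneg (hf (D.xi θ) (p.1 *ᵥ XX 0 p.2.1 p.2.2))
    have b1 : hf (D.xi θ) (p.1 *ᵥ yy p.2.1) = 0 := norm_eq_zero.mp (by linarith)
    have b2 : hf (D.xi θ) (p.1 *ᵥ XX 0 p.2.1 p.2.2) = 0 := norm_eq_zero.mp (by linarith)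
    obtain ⟨h1, -, l, hl, h2⟩ := D.A_spec hk p.2.1 p.2.2
    rw [XX_split, Matrix.mulVec_add, Matrix.mulVec_smul] at h2
    have e : hf (D.xi θ) (l • D.xi (D.th p.1 p.2.1 p.2.2)) = 0 := by
      rw [← h2, hf_add_right, hf_smul_right, b1, b2, mul_zero, add_zero]
    rw [hf_smul_right] at e
    exact D.H2_eq hθ h1 ((mul_eq_zero.mp e).resolve_left (star_ne_zero.mpr hl))

theorem H2_A_eq {k : M4} (hk : k ∈ D.FF) (μ : ℂ) (t : ℝ) : D.A k μ t =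
    -(hf (D.xi (D.th k μ t)) (k *ᵥ Pi.single 2 1)) / hf (D.xi (D.th k μ t)) (k *ᵥ e1) := by
  obtain ⟨h1, h0, l, hl, h2⟩ := D.A_spec hk μ t
  have e1' := D.H2_ne_zero hk h1 h0
  have e2 : hf (k *ᵥ XX (D.A k μ t) μ t) (k *ᵥ Pi.single 2 1) = Complex.I * D.A k μ t := by
    rw [hk.1.2]
    simp [fc, XX, Pi.single_apply]
  have e3 : hf (k *ᵥ XX (D.A k μ t) μ t) (k *ᵥ e1) = -Complex.I := by
    rw [hk.1.2, fc_e1]
    simp [XX]
  rw [h2, hf_smul_left] at e2 e3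
  rw [eq_div_iff e1']
  have e4 : l * (D.A k μ t * hf (D.xi (D.th k μ t)) (k *ᵥ e1)) =
      l * -(hf (D.xi (D.th k μ t)) (k *ᵥ Pi.single 2 1)) := by
    linear_combination D.A k μ t * e3 + e2
  exact mul_left_cancel₀ hl e4

theorem H2_quot {θ : Eb} (hθ : θ ∈ Sph) {X : Type*} {l : Filter X} {f : X → Eb} {g g' : X → V4}
    {x x' : V4} (hf' : Tendsto f l (𝓝[Sph] θ)) (hg : Tendsto g l (𝓝 x)) (hg' : Tendsto g' l (𝓝 x'))
    (h0 : hf (D.xi θ) x' ≠ 0) :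
    Tendsto (fun p => -(hf (D.xi (f p)) (g p)) / hf (D.xi (f p)) (g' p)) l
      (𝓝 (-(hf (D.xi θ) x) / hf (D.xi θ) x')) := by
  obtain ⟨m, h1, h2⟩ := D.H2_sec hθ
  have h3 : Tendsto (fun p => m (f p) • D.xi (f p)) l (𝓝 (D.xi θ)) := h2.comp hf'
  have h4 := H2.hf_tendsto h3 hg
  have h5 := H2.hf_tendsto h3 hg'
  have h6 : Tendsto (fun p => -(hf (m (f p) • D.xi (f p)) (g p)) /
      hf (m (f p) • D.xi (f p)) (g' p)) l (𝓝 (-(hf (D.xi θ) x) / hf (D.xi θ) x')) :=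
    (h4.neg).div h5 h0
  refine h6.congr fun p => ?_
  have hm0 : m (f p) ≠ 0 := fun h => by
    have := h1 (f p)
    rw [h, norm_zero] at this
    exact zero_ne_one this
  rw [hf_smul_left, hf_smul_left, ← mul_neg, mul_div_mul_left _ _ hm0]

/-- module H2 -/
theorem A_cont : ContinuousOn (fun p : M4 × ℂ × ℝ => D.A p.1 p.2.1 p.2.2)
    (D.FF ×ˢ Set.univ) := by
  intro p hp
  have hk := hp.1
  obtain ⟨h1, h0, -⟩ := D.A_spec hk p.2.1 p.2.2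
  have hth : Tendsto (fun q : M4 × ℂ × ℝ => D.th q.1 q.2.1 q.2.2)
      (𝓝[D.FF ×ˢ Set.univ] p) (𝓝[Sph] (D.th p.1 p.2.1 p.2.2)) :=
    tendsto_nhdsWithin_iff.mpr ⟨D.th_cont p hp, eventually_nhdsWithin_of_forall fun q hq =>
      (D.A_spec hq.1 q.2.1 q.2.2).1⟩
  have h4 : ∀ Z : V4, Tendsto (fun q : M4 × ℂ × ℝ => q.1 *ᵥ Z) (𝓝[D.FF ×ˢ Set.univ] p)
      (𝓝 (p.1 *ᵥ Z)) := fun Z => by
    have : Continuous fun q : M4 × ℂ × ℝ => q.1 *ᵥ Z :=
      continuous_fst.matrix_mulVec continuous_const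
    exact (this.tendsto p).mono_left nhdsWithin_le_nhds
  have h6 := D.H2_quot h1 hth (h4 (Pi.single 2 1)) (h4 e1) (D.H2_ne_zero hk h1 h0)
  have h7 : Tendsto (fun q : M4 × ℂ × ℝ => D.A q.1 q.2.1 q.2.2) (𝓝[D.FF ×ˢ Set.univ] p)
      (𝓝 (D.A p.1 p.2.1 p.2.2)) := by
    rw [D.H2_A_eq hk]
    refine h6.congr' ?_
    filter_upwards [self_mem_nhdsWithin] with q hq
    exact (D.H2_A_eq hq.1 q.2.1 q.2.2).symm
  exact h7

/-- module H2: transversality in the chart -/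
theorem el_ne {k : M4} (hk : k ∈ D.FF) (μb : ℂ) (tb : ℝ) (μ : ℂ) (t : ℝ)
    (h : (μ, t) ≠ (μb, tb)) : el (D.A k) μb tb μ t ≠ 0 := by
  obtain ⟨h1, -, l, hl, h2⟩ := D.A_spec hk μ t
  obtain ⟨h1', -, l', hl', h2'⟩ := D.A_spec hk μb tb
  have hne : D.th k μ t ≠ D.th k μb tb := fun he => by
    obtain ⟨e1, e2⟩ := D.th_inj hk _ _ _ _ he
    exact h (by rw [e1, e2])
  have e : hf (k *ᵥ XX (D.A k μ t) μ t) (k *ᵥ XX (D.A k μb tb) μb tb) =
      Complex.I * el (D.A k) μb tb μ t := by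
    have hstar : star (tb : ℂ) = (tb : ℂ) := Complex.conj_ofReal _
    rw [hk.1.2, fc_XX, hstar]
    rfl
  rw [h2, h2', hf_smul_left, hf_smul_right] at e
  intro h0
  rw [h0, mul_zero] at e
  exact mul_ne_zero hl (mul_ne_zero (star_ne_zero.mpr hl') (D.xtv _ h1 _ h1' hne)) e

end Kd

theorem H2.hsq (z : ℂ) : z * star z = ((‖z‖ ^ 2 : ℝ) : ℂ) := by
  have := Complex.mul_conj z
  rw [Complex.normSq_eq_norm_sq] at this
  exact this

theorem H2.hpos (v : V4) (hv : v ≠ 0) (hn : hf v v = 0) : v 0 * star (v 0) + v 1 * star (v 1) ≠ 0 := by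
  have hn' : v 0 * star (v 0) + v 1 * star (v 1) - v 2 * star (v 2) - v 3 * star (v 3) = 0 := hn
  rw [H2.hsq, H2.hsq, H2.hsq, H2.hsq] at hn'
  rw [H2.hsq, H2.hsq, ← Complex.ofReal_add]
  rw [← Complex.ofReal_add, ← Complex.ofReal_sub, ← Complex.ofReal_sub] at hn'
  have hn2 : ‖v 0‖ ^ 2 + ‖v 1‖ ^ 2 - ‖v 2‖ ^ 2 - ‖v 3‖ ^ 2 = 0 := Complex.ofReal_eq_zero.mp hn'
  intro h0'
  have h0 := Complex.ofReal_eq_zero.mp h0'
  apply hv
  have g0 := sq_nonneg ‖v 0‖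
  have g1 := sq_nonneg ‖v 1‖
  have g2 := sq_nonneg ‖v 2‖
  have g3 := sq_nonneg ‖v 3‖
  have z : ∀ x : ℝ, x ^ 2 ≤ 0 → x = 0 := fun x hx => by nlinarith
  have a0 : v 0 = 0 := norm_eq_zero.mp (z _ (by linarith))
  have a1 : v 1 = 0 := norm_eq_zero.mp (z _ (by linarith))
  have a2 : v 2 = 0 := norm_eq_zero.mp (z _ (by linarith))
  have a3 : v 3 = 0 := norm_eq_zero.mp (z _ (by linarith))
  funext i
  fin_cases i
  · exact a0
  · exact a1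
  · exact a2
  · exact a3

/-- an orthogonal vector -/
noncomputable def H2.ov (v : V4) : V4 := ![-star (v 1), star (v 0), -star (v 3), star (v 2)]

theorem H2.huu (v : V4) (hn : hf v v = 0) : hf (ov v) (ov v) = 0 := by
  have hn' : v 0 * star (v 0) + v 1 * star (v 1) - v 2 * star (v 2) - v 3 * star (v 3) = 0 := hn
  simp only [hf, CW.hh, ov, Matrix.cons_val_zero, Matrix.cons_val_one, Matrix.cons_val, star_neg,
    star_star]
  linear_combination hn'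

theorem H2.huv (v : V4) : hf (ov v) v = 0 := by
  simp only [hf, CW.hh, ov, Matrix.cons_val_zero, Matrix.cons_val_one, Matrix.cons_val]
  ring

theorem H2.ov_indep (v : V4) (hv : v ≠ 0) (hn : hf v v = 0) (a b : ℂ)
    (h : a • ov v + b • v = 0) : a = 0 ∧ b = 0 := by
  have hposc := H2.hpos v hv hn
  have h0 := congrFun h 0
  have h1 := congrFun h 1
  simp only [ov, Pi.add_apply, Pi.smul_apply, smul_eq_mul, Matrix.cons_val_zero,
    Matrix.cons_val_one, Pi.zero_apply] at h0 h1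
  constructor
  · have : a * (v 0 * star (v 0) + v 1 * star (v 1)) = 0 := by
      linear_combination v 0 * h1 - v 1 * h0
    exact (mul_eq_zero.mp this).resolve_right hposc
  · have : b * (v 0 * star (v 0) + v 1 * star (v 1)) = 0 := by
      linear_combination star (v 0) * h0 + star (v 1) * h1
    exact (mul_eq_zero.mp this).resolve_right hposc

theorem H2.frame_of_null (v : V4) (hv : v ≠ 0) (hn : hf v v = 0) : ∃ k ∈ KK, ∃ l : ℂ, l ≠ 0 ∧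
    k *ᵥ e1 = l • v := by
  obtain ⟨k, hk, ⟨l, hl, h1⟩, -⟩ := exists_frame (ov v) v (ov_indep v hv hn) (H2.huu v hn) hn
    (H2.huv v)
  exact ⟨k, hk, l, hl, h1⟩

/-- module H1: there is a frame -/
theorem Kd.ff_nonempty (D : Kd G) : D.FF.Nonempty := by
  have hθ : (EuclideanSpace.single 0 1 : Eb) ∈ Sph := by
    rw [Sph, mem_sphere_zero_iff_norm]
    simp
  obtain ⟨k, hk, l, hl, h1⟩ := H2.frame_of_null _ (D.H2_ne0 hθ) (D.xnull _ hθ)
  exact ⟨k, hk, _, hθ, l, hl, h1⟩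

end Pool.Agent.MPd01a95.KT
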