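import Mathlib
import Pool.Agent.Lib.MP_d01a95_gt_K.KDefs2
import Pool.Agent.Lib.MP_d01a95_gt_K.KA1
import Pool.Agent.Lib.MP_d01a95_gt_K.KF0
import Pool.Agent.Lib.MP_d01a95_gt_K.KH1
import Pool.Agent.Lib.MP_d01a95_gt_K.KH2

set_option autoImplicit false
set_option linter.all false

open Matrix Filter Topology MeasureTheory
open scoped ContDiff

namespace Pool.Agent.MPd01a95.KT

open GU

variable {G : Type} [Group G]

/-! ### algebra of the transitions -/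

theorem H3_q (T : Tr) (μ : ℂ) : ((T.q μ : ℝ) : ℂ) =
    T.a * (μ * star μ) + T.b * star μ + star T.b * μ + T.e := by
  unfold Tr.q
  push_cast
  have h1 : (((T.b * star μ).re : ℝ) : ℂ) * 2 = T.b * star μ + star T.b * μ := by
    have := Complex.add_conj (T.b * star μ)
    rw [map_mul] at this
    simp only [Complex.star_def, Complex.conj_conj] at this ⊢
    rw [this]
    push_cast
    ring
  have h2 : ((‖μ‖ : ℝ) : ℂ) ^ 2 = μ * star μ := by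
    rw [Complex.star_def, Complex.mul_conj, Complex.normSq_eq_norm_sq]
    push_cast
    ring
  rw [h2]
  linear_combination h1

theorem H3_sq (z : ℂ) : (((‖z‖ ^ 2 : ℝ)) : ℂ) = z * star z := by
  rw [Complex.star_def, Complex.mul_conj, Complex.normSq_eq_norm_sq]

theorem H3_t (T : Tr) (μ τ : ℂ) : T.t μ τ =
    (τ + (T.a * (μ * star μ) + T.b * star μ + star T.b * μ + T.e)) / (T.d3 * star T.d3) := by
  unfold Tr.t
  rw [H3_q, H3_sq]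

theorem H3_tr (T : Tr) (μ : ℂ) (t : ℝ) : ((T.tr μ t : ℝ) : ℂ) = T.t μ t := by
  unfold Tr.tr Tr.t
  push_cast
  ring

theorem H3_star_ne {z : ℂ} (h : z ≠ 0) : star z ≠ 0 := star_ne_zero.mpr h

theorem H3_mulVec_XX (M : M4) (a μ τ : ℂ) (i : Fin 4) : (M *ᵥ XX a μ τ) i =
    M i 0 * a + M i 1 * (τ - star μ * a) + M i 2 * μ + M i 3 := by
  simp [Matrix.mulVec, dotProduct, Fin.sum_univ_four, XX]

theorem H3_mulVec_e0 (M : M4) (i : Fin 4) : (M *ᵥ e0) i = M i 0 := by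
  unfold e0
  rw [F0.mulVec_single_one]

theorem H3_mulVec_e1 (M : M4) (i : Fin 4) : (M *ᵥ e1) i = M i 1 := by
  unfold e1
  rw [F0.mulVec_single_one]

/-- the matrices preserving the chart form and the flag -/
theorem H3_form (M : M4) (hM : ∀ Z W, fc (M *ᵥ Z) (M *ᵥ W) = fc Z W) (l l0 l' : ℂ)
    (h1 : M *ᵥ e1 = l • e1) (h0 : M *ᵥ e0 = l0 • e0 + l' • e1) : ∃ T : Tr,
      (∀ a μ τ, M *ᵥ XX a μ τ = T.d3 • XX (T.κ * (a + T.dq μ)) (T.m μ) (T.t μ τ)) ∧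
      l = (star T.d3)⁻¹ ∧ l0 = (star T.d2)⁻¹ := by
  have a0 := congrFun h0 0
  have a1 := congrFun h0 1
  have a2 := congrFun h0 2
  have a3 := congrFun h0 3
  have b0 := congrFun h1 0
  have b1 := congrFun h1 1
  have b2 := congrFun h1 2
  have b3 := congrFun h1 3
  rw [H3_mulVec_e0] at a0 a1 a2 a3
  rw [H3_mulVec_e1] at b0 b1 b2 b3
  simp [e0, e1, Pi.single_apply] at a0 a1 a2 a3 b0 b1 b2 b3
  have hI := Complex.I_ne_zero
  have hc : ∀ i j, fc (fun k => M k i) (fun k => M k j) = fc (Pi.single i 1) (Pi.single j 1) := by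
    intro i j
    have h := hM (Pi.single i 1) (Pi.single j 1)
    rw [F0.mulVec_single_one, F0.mulVec_single_one] at h
    exact h
  have c02 := hc 0 2
  have c13 := hc 1 3
  have c12 := hc 1 2
  have c03 := hc 0 3
  have c22 := hc 2 2
  have c33 := hc 3 3
  have c23 := hc 2 3
  simp only [fc] at c02 c13 c12 c03 c22 c33 c23
  simp [Pi.single_apply, a0, a1, a2, a3, b0, b1, b2, b3] at c02 c13 c12 c03 c22 c33 c23
  have hl : l ≠ 0 := fun h => by rw [h, zero_mul] at c13; exact zero_ne_one c13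
  have m32 : M 3 2 = 0 := c12.resolve_left hl
  rw [m32] at c02 c22 c23
  simp only [map_zero, mul_zero, zero_mul, add_zero, sub_zero] at c02 c22 c23
  have h22 : M 2 2 ≠ 0 := fun h => by
    rw [h, map_zero, mul_zero] at c02
    exact zero_ne_one c02
  have h33 : M 3 3 ≠ 0 := fun h => by
    rw [h, map_zero, mul_zero] at c13
    exact zero_ne_one c13
  have k22 : (starRingEnd ℂ) (M 2 2) ≠ 0 := (map_ne_zero _).2 h22
  have k33 : (starRingEnd ℂ) (M 3 3) ≠ 0 := (map_ne_zero _).2 h33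
  have ha : ((((starRingEnd ℂ) (M 2 2) * M 0 2).re : ℝ) : ℂ) = (starRingEnd ℂ) (M 2 2) * M 0 2 := by
    refine Complex.conj_eq_iff_re.1 ?_
    rw [map_mul, Complex.conj_conj]
    linear_combination -c22
  have he : ((((starRingEnd ℂ) (M 3 3) * M 1 3 + (starRingEnd ℂ) (M 2 3) * M 0 3).re : ℝ) : ℂ) =
      (starRingEnd ℂ) (M 3 3) * M 1 3 + (starRingEnd ℂ) (M 2 3) * M 0 3 := by
    refine Complex.conj_eq_iff_re.1 ?_
    rw [map_add, map_mul, map_mul, Complex.conj_conj, Complex.conj_conj]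
    linear_combination -c33
  have el : l = ((starRingEnd ℂ) (M 3 3))⁻¹ := eq_inv_of_mul_eq_one_left c13
  have el0 : l0 = ((starRingEnd ℂ) (M 2 2))⁻¹ := eq_inv_of_mul_eq_one_left c02
  have el' : l' = -((starRingEnd ℂ) (M 2 3) / ((starRingEnd ℂ) (M 2 2) * (starRingEnd ℂ) (M 3 3))) := by
    rw [el0] at c03
    field_simp at c03 ⊢
    linear_combination c03
  have m12 : M 1 2 = (M 2 2 * (starRingEnd ℂ) (M 0 3) - M 0 2 * (starRingEnd ℂ) (M 2 3)) /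
      (starRingEnd ℂ) (M 3 3) := by
    field_simp
    linear_combination c23
  refine ⟨⟨M 2 2, M 3 3, M 2 3 / M 3 3, ((starRingEnd ℂ) (M 2 2) * M 0 2).re,
    (starRingEnd ℂ) (M 2 2) * M 0 3,
    ((starRingEnd ℂ) (M 3 3) * M 1 3 + (starRingEnd ℂ) (M 2 3) * M 0 3).re, h22, h33⟩, ?_, el, el0⟩
  intro a μ τ
  ext i
  rw [H3_mulVec_XX, Pi.smul_apply, smul_eq_mul, H3_t]
  simp only [Tr.κ, Tr.dq, Tr.m, XX, Complex.star_def]
  rw [ha, he]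
  simp only [map_add, map_mul, map_div₀, Complex.conj_conj]
  fin_cases i
  · simp [a0, b0, el0]
    field_simp
    ring
  · simp [a1, b1, el, el', m12]
    field_simp
    ring
  · simp [a2, b2]
    field_simp
  · simp [a3, b3, m32]

/-! ### unitary matrices -/

theorem H3_inv {k : M4} (hk : k ∈ KK) : k * kᴴ = 1 := mul_eq_one_comm.mp hk.1

theorem H3_colsum {k : M4} (hk : k ∈ KK) (i : Fin 4) :
    ‖k 0 i‖ ^ 2 + ‖k 1 i‖ ^ 2 + ‖k 2 i‖ ^ 2 + ‖k 3 i‖ ^ 2 = 1 := by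
  have h := congrFun (congrFun hk.1 i) i
  rw [Matrix.mul_apply, Fin.sum_univ_four, Matrix.one_apply_eq] at h
  simp only [Matrix.conjTranspose_apply] at h
  have e : ∀ z : ℂ, star z * z = ((‖z‖ ^ 2 : ℝ) : ℂ) := fun z => by rw [H3_sq, mul_comm]
  rw [e, e, e, e] at h
  exact_mod_cast h

theorem H3_entry_le {k : M4} (hk : k ∈ KK) (i j : Fin 4) : ‖k i j‖ ≤ 1 := by
  have h := H3_colsum hk j
  have n0 := norm_nonneg (k 0 j)
  have n1 := norm_nonneg (k 1 j)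
  have n2 := norm_nonneg (k 2 j)
  have n3 := norm_nonneg (k 3 j)
  fin_cases i <;> simp only [Fin.zero_eta, Fin.mk_one, Fin.reduceFinMk] <;> nlinarith

theorem H3_sum_le {k : M4} (hk : k ∈ KK) (i : Fin 4) :
    ‖k 0 i‖ + ‖k 1 i‖ + ‖k 2 i‖ + ‖k 3 i‖ ≤ 2 := by
  have h := H3_colsum hk i
  nlinarith [sq_nonneg (‖k 0 i‖ - 1 / 2), sq_nonneg (‖k 1 i‖ - 1 / 2),
    sq_nonneg (‖k 2 i‖ - 1 / 2), sq_nonneg (‖k 3 i‖ - 1 / 2)]

/-- entries of a matrix in unitary frames -/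
theorem H3_conj_le {k k' : M4} (hk : k ∈ KK) (hk' : k' ∈ KK) (g : M4) (i j : Fin 4) :
    ‖(kᴴ * g * k') i j‖ ≤ 4 * s1 g := by
  have h0 := F0.s1_nonneg g
  have h1 : ∀ n, ‖(kᴴ * g) i n‖ ≤ 2 * s1 g := by
    intro n
    rw [Matrix.mul_apply, Fin.sum_univ_four]
    simp only [Matrix.conjTranspose_apply]
    have e : ∀ m, ‖star (k m i) * g m n‖ ≤ ‖k m i‖ * s1 g := fun m => by
      rw [norm_mul, norm_star]
      exact mul_le_mul_of_nonneg_left (F0.le_s1 g m n) (norm_nonneg _)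
    have e0 := e 0
    have e1 := e 1
    have e2 := e 2
    have e3 := e 3
    have t1 := norm_add_le (star (k 0 i) * g 0 n + star (k 1 i) * g 1 n + star (k 2 i) * g 2 n)
      (star (k 3 i) * g 3 n)
    have t2 := norm_add_le (star (k 0 i) * g 0 n + star (k 1 i) * g 1 n) (star (k 2 i) * g 2 n)
    have t3 := norm_add_le (star (k 0 i) * g 0 n) (star (k 1 i) * g 1 n)
    have hs := H3_sum_le hk i
    nlinarith
  rw [Matrix.mul_apply, Fin.sum_univ_four]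
  have e : ∀ m, ‖(kᴴ * g) i m * k' m j‖ ≤ 2 * s1 g * ‖k' m j‖ := fun m => by
    rw [norm_mul]
    exact mul_le_mul_of_nonneg_right (h1 m) (norm_nonneg _)
  have e0 := e 0
  have e1 := e 1
  have e2 := e 2
  have e3 := e 3
  have t1 := norm_add_le ((kᴴ * g) i 0 * k' 0 j + (kᴴ * g) i 1 * k' 1 j + (kᴴ * g) i 2 * k' 2 j)
    ((kᴴ * g) i 3 * k' 3 j)
  have t2 := norm_add_le ((kᴴ * g) i 0 * k' 0 j + (kᴴ * g) i 1 * k' 1 j) ((kᴴ * g) i 2 * k' 2 j)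
  have t3 := norm_add_le ((kᴴ * g) i 0 * k' 0 j) ((kᴴ * g) i 1 * k' 1 j)
  have hs := H3_sum_le hk' j
  nlinarith

theorem H3_cancel {k : M4} (hk : k ∈ KK) (Z : V4) : kᴴ *ᵥ (k *ᵥ Z) = Z := by
  rw [Matrix.mulVec_mulVec, hk.1, Matrix.one_mulVec]

/-- the entries of the matrix of a transition -/
theorem H3_entries {g k k' : M4} (hk : k ∈ KK) {T : Tr} (h : Rel g k k' T) :
    (kᴴ * g * k') 3 3 = T.d3 ∧ (kᴴ * g * k') 2 2 = T.d2 ∧ (kᴴ * g * k') 2 3 = T.d3 * T.β ∧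
    (kᴴ * g * k') 0 2 = T.a / star T.d2 ∧ (kᴴ * g * k') 0 3 = T.b / star T.d2 ∧
    (kᴴ * g * k') 1 1 = (star T.d3)⁻¹ ∧ (kᴴ * g * k') 0 0 = (star T.d2)⁻¹ ∧
    (kᴴ * g * k') 1 3 = T.d3 * (T.e / (T.d3 * star T.d3) - star T.β * (T.κ * T.b)) := by
  have h2 := T.h2
  have h3 := T.h3
  have s2 : (starRingEnd ℂ) T.d2 ≠ 0 := (map_ne_zero _).2 h2
  have s3 : (starRingEnd ℂ) T.d3 ≠ 0 := (map_ne_zero _).2 h3
  have hm : ∀ Z : V4, kᴴ *ᵥ (g *ᵥ (k' *ᵥ Z)) = (kᴴ * g * k') *ᵥ Z := fun Z => by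
    rw [Matrix.mulVec_mulVec, Matrix.mulVec_mulVec, Matrix.mul_assoc]
  have hA : ∀ a μ τ : ℂ, (kᴴ * g * k') *ᵥ XX a μ τ =
      T.d3 • XX (T.κ * (a + T.dq μ)) (T.m μ) (T.t μ τ) := by
    intro a μ τ
    rw [← hm, h.act, Matrix.mulVec_smul, H3_cancel hk]
  have h00 := hA 0 0 0
  have h01 := hA 0 1 0
  have hr1 : (kᴴ * g * k') *ᵥ e1 = (star T.d3)⁻¹ • e1 := by
    rw [← hm, h.r1, Matrix.mulVec_smul, H3_cancel hk]
  obtain ⟨p, hp⟩ := h.r0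
  have hr0 : (kᴴ * g * k') *ᵥ e0 = (star T.d2)⁻¹ • e0 + p • e1 := by
    rw [← hm, hp, Matrix.mulVec_add, Matrix.mulVec_smul, Matrix.mulVec_smul, H3_cancel hk,
      H3_cancel hk]
  have r1 := congrFun hr1 1
  have r0 := congrFun hr0 0
  rw [H3_mulVec_e1] at r1
  rw [H3_mulVec_e0] at r0
  have p0 := congrFun h00 0
  have p1 := congrFun h00 1
  have p2 := congrFun h00 2
  have p3 := congrFun h00 3
  have q0 := congrFun h01 0
  have q2 := congrFun h01 2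
  rw [H3_mulVec_XX, Pi.smul_apply, smul_eq_mul] at p0 p1 p2 p3 q0 q2
  rw [H3_t] at p1
  simp only [Tr.κ, Tr.dq, Tr.m, XX, Complex.star_def] at p0 p1 p2 p3 q0 q2
  simp at p0 p1 p2 p3 q0 q2
  simp [e0, e1] at r0 r1
  simp only [Tr.κ, Complex.star_def]
  refine ⟨p3, ?_, p2, ?_, ?_, r1, r0, ?_⟩
  · rw [p2] at q2
    field_simp at q2
    linear_combination q2
  · rw [p0] at q0
    field_simp at q0 ⊢
    linear_combination q0
  · rw [p0]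
    field_simp
  · rw [p1]
    field_simp

theorem H3_kkT {k : M4} (hk : k ∈ KK) (Z : V4) : k *ᵥ (kᴴ *ᵥ Z) = Z := by
  rw [Matrix.mulVec_mulVec, H3_inv hk, Matrix.one_mulVec]

theorem H3_kk_inj {k : M4} (hk : k ∈ KK) {Z W : V4} (h : k *ᵥ Z = k *ᵥ W) : Z = W := by
  rw [← H3_cancel hk Z, h, H3_cancel hk]

theorem H3_fc_00 : fc e0 e0 = 0 := by simp [fc, e0]
theorem H3_fc_11 : fc e1 e1 = 0 := by simp [fc, e1]
theorem H3_fc_01 : fc e0 e1 = 0 := by simp [fc, e0, e1]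

theorem H3_sph_cb {θ : Eb} (h : θ ∈ Sph) : θ ∈ Cb := Metric.sphere_subset_closedBall h

namespace Kd

variable (D : Kd G)

/-- proportional limit vectors belong to the same point -/
theorem H3_xi_inj {θ θ' : Eb} (hθ : θ ∈ Sph) (hθ' : θ' ∈ Sph) (l : ℂ)
    (h : D.xi θ = l • D.xi θ') : θ = θ' := by
  by_contra hne
  have h1 := D.xtv θ hθ θ' hθ' hne
  rw [h, F0.hf_smul_left, D.xnull θ' hθ', mul_zero] at h1
  exact h1 rfl

theorem H3_xi_inj' {θ θ' : Eb} (hθ : θ ∈ Sph) (hθ' : θ' ∈ Sph) (l l' : ℂ) (hl : l ≠ 0)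
    (h : l • D.xi θ = l' • D.xi θ') : θ = θ' := by
  refine D.H3_xi_inj hθ hθ' (l⁻¹ * l') ?_
  rw [← smul_smul, ← h, smul_smul, inv_mul_cancel₀ hl, one_smul]

/-- the action preserves the cone over the limit set -/
theorem H3_lam {g : G} {Z : V4} (h : Z ∈ D.Lam) : D.R g *ᵥ Z ∈ D.Lam := by
  obtain ⟨θ, hθ, l, hl, rfl⟩ := h
  obtain ⟨l', hl', he⟩ := D.xeqv g θ hθ
  refine ⟨ab (D.σ g) θ, ab_sph _ hθ, l * l', mul_ne_zero hl hl', ?_⟩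
  rw [Matrix.mulVec_smul, he, smul_smul]

theorem H3_lam_smul {Z : V4} {c : ℂ} (hc : c ≠ 0) (h : Z ∈ D.Lam) : c • Z ∈ D.Lam := by
  obtain ⟨θ, hθ, l, hl, rfl⟩ := h
  exact ⟨θ, hθ, c * l, mul_ne_zero hc hl, by rw [smul_smul]⟩

/-- the inverse matrix also preserves it -/
theorem H3_lam_inv {g : G} {Z : V4} (h : Z ∈ D.Lam) : (D.R g)⁻¹ *ᵥ Z ∈ D.Lam := by
  obtain ⟨u, hu, he⟩ := D.R_inv g
  have hu0 : u ≠ 0 := fun h0 => by rw [h0, norm_zero] at hu; exact zero_ne_one hu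
  have h1 : (D.R g)⁻¹ = u⁻¹ • D.R g⁻¹ := by
    rw [he, smul_smul, inv_mul_cancel₀ hu0, one_smul]
  rw [h1, Matrix.smul_mulVec]
  exact D.H3_lam_smul (inv_ne_zero hu0) (D.H3_lam h)

/-- module H3: transitions between given frames -/
theorem exists_tr' (g : G) {k k' : M4} (hk : k ∈ D.FF) (hk' : k' ∈ D.FF)
    (h1 : ∃ l : ℂ, D.R g *ᵥ (k' *ᵥ e1) = l • (k *ᵥ e1))
    (h2 : ∃ l l' : ℂ, D.R g *ᵥ (k' *ᵥ e0) = l • (k *ᵥ e0) + l' • (k *ᵥ e1)) :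
    ∃ T : Tr, Rel (D.R g) k k' T := by
  obtain ⟨l, hl⟩ := h1
  obtain ⟨l0, l', hl0⟩ := h2
  have hm : ∀ Z : V4, kᴴ *ᵥ (D.R g *ᵥ (k' *ᵥ Z)) = (kᴴ * D.R g * k') *ᵥ Z := fun Z => by
    rw [Matrix.mulVec_mulVec, Matrix.mulVec_mulVec, Matrix.mul_assoc]
  have hm' : ∀ Z : V4, D.R g *ᵥ (k' *ᵥ Z) = k *ᵥ ((kᴴ * D.R g * k') *ᵥ Z) := fun Z => by
    rw [← hm, H3_kkT hk.1]
  have hM : ∀ Z W : V4, fc ((kᴴ * D.R g * k') *ᵥ Z) ((kᴴ * D.R g * k') *ᵥ W) = fc Z W := by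
    intro Z W
    rw [← hk.1.2, ← hm', ← hm', D.pres, hk'.1.2]
  have hM1 : (kᴴ * D.R g * k') *ᵥ e1 = l • e1 := by
    rw [← hm, hl, Matrix.mulVec_smul, H3_cancel hk.1]
  have hM0 : (kᴴ * D.R g * k') *ᵥ e0 = l0 • e0 + l' • e1 := by
    rw [← hm, hl0, Matrix.mulVec_add, Matrix.mulVec_smul, Matrix.mulVec_smul, H3_cancel hk.1,
      H3_cancel hk.1]
  obtain ⟨T, hT, e1', e0'⟩ := H3_form _ hM l l0 l' hM1 hM0
  refine ⟨T, ⟨fun a μ τ => ?_, ?_, ⟨l', ?_⟩⟩⟩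
  · rw [hm', hT, Matrix.mulVec_smul]
  · rw [hl, e1']
  · rw [hl0, e0']

/-- module H3: transitions exist -/
theorem exists_tr (g : G) {k : M4} (hk : k ∈ D.FF) : ∃ k' ∈ D.FF, ∃ T : Tr,
    Rel (D.R g) k k' T := by
  obtain ⟨-, -, hiso, e1', e2', -⟩ := iso_inv (D.pres g)
  have hb : ∀ Z : V4, D.R g *ᵥ ((D.R g)⁻¹ *ᵥ Z) = Z := fun Z => by
    rw [Matrix.mulVec_mulVec, e1', Matrix.one_mulVec]
  have hl : ∀ a b : ℂ, a • ((D.R g)⁻¹ *ᵥ (k *ᵥ e0)) + b • ((D.R g)⁻¹ *ᵥ (k *ᵥ e1)) = 0 →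
      a = 0 ∧ b = 0 := by
    intro a b hab
    have h1 := congrArg (fun Z => kᴴ *ᵥ (D.R g *ᵥ Z)) hab
    simp only [Matrix.mulVec_add, Matrix.mulVec_smul, hb, Matrix.mulVec_zero] at h1
    rw [H3_cancel hk.1, H3_cancel hk.1] at h1
    have h2 := congrFun h1 0
    have h3 := congrFun h1 1
    simp [e0, e1] at h2 h3
    exact ⟨h2, h3⟩
  have f00 : hf ((D.R g)⁻¹ *ᵥ (k *ᵥ e0)) ((D.R g)⁻¹ *ᵥ (k *ᵥ e0)) = 0 := by
    rw [hiso, hk.1.2, H3_fc_00]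
  have f11 : hf ((D.R g)⁻¹ *ᵥ (k *ᵥ e1)) ((D.R g)⁻¹ *ᵥ (k *ᵥ e1)) = 0 := by
    rw [hiso, hk.1.2, H3_fc_11]
  have f01 : hf ((D.R g)⁻¹ *ᵥ (k *ᵥ e0)) ((D.R g)⁻¹ *ᵥ (k *ᵥ e1)) = 0 := by
    rw [hiso, hk.1.2, H3_fc_01]
  obtain ⟨k', hk', ⟨l, hl0, hl1⟩, a, b, ha, hab⟩ := exists_frame _ _ hl f00 f11 f01
  have hFF : k' ∈ D.FF := by
    refine ⟨hk', ?_⟩
    rw [hl1]
    exact D.H3_lam_smul hl0 (D.H3_lam_inv hk.2)
  obtain ⟨T, hT⟩ := D.exists_tr' g hk hFF ⟨l, by rw [hl1, Matrix.mulVec_smul, hb]⟩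
    ⟨a, b, by rw [hab, Matrix.mulVec_add, Matrix.mulVec_smul, Matrix.mulVec_smul, hb, hb]⟩
  exact ⟨k', hFF, T, hT⟩

/-- module H3 -/
theorem rel_cmp {g : G} {k k' : M4} (hk : k ∈ D.FF) (hk' : k' ∈ D.FF) {T : Tr}
    (h : Rel (D.R g) k k' T) : T.Cmp (D.A k) (D.A k') ∧
      D.t0 k = ab (D.σ g) (D.t0 k') ∧
      ∀ μ t, D.th k (T.m μ) (T.tr μ t) = ab (D.σ g) (D.th k' μ t) := by
  have h3 := T.h3
  have key : ∀ μ : ℂ, ∀ t : ℝ, k *ᵥ XX (T.κ * (D.A k' μ t + T.dq μ)) (T.m μ) (T.tr μ t) ∈ D.Lam ∧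
      ∃ l : ℂ, l ≠ 0 ∧ k *ᵥ XX (T.κ * (D.A k' μ t + T.dq μ)) (T.m μ) (T.tr μ t) =
        l • D.xi (ab (D.σ g) (D.th k' μ t)) := by
    intro μ t
    obtain ⟨hs, -, l, hl, he⟩ := D.A_spec hk' μ t
    obtain ⟨l', hl', he'⟩ := D.xeqv g _ hs
    have h1 := h.act (D.A k' μ t) μ t
    rw [he, Matrix.mulVec_smul, he', smul_smul] at h1
    have h2 : k *ᵥ XX (T.κ * (D.A k' μ t + T.dq μ)) (T.m μ) (T.tr μ t) =
        (T.d3⁻¹ * (l * l')) • D.xi (ab (D.σ g) (D.th k' μ t)) := by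
      rw [H3_tr, ← smul_smul, h1, smul_smul, inv_mul_cancel₀ h3, one_smul]
    have h4 : T.d3⁻¹ * (l * l') ≠ 0 := mul_ne_zero (inv_ne_zero h3) (mul_ne_zero hl hl')
    exact ⟨⟨_, ab_sph _ hs, _, h4, h2⟩, _, h4, h2⟩
  have hA : ∀ μ : ℂ, ∀ t : ℝ, T.κ * (D.A k' μ t + T.dq μ) = D.A k (T.m μ) (T.tr μ t) :=
    fun μ t => D.A_unique hk _ _ _ (key μ t).1
  refine ⟨fun μ t => (hA μ t).symm, ?_, fun μ t => ?_⟩
  · obtain ⟨hs, l, hl, he⟩ := D.t0_spec hk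
    obtain ⟨hs', l', hl', he'⟩ := D.t0_spec hk'
    obtain ⟨l'', hl'', he''⟩ := D.xeqv g _ hs'
    have h1 := h.r1
    rw [he, he', Matrix.mulVec_smul, he'', smul_smul, smul_smul] at h1
    exact (D.H3_xi_inj' (ab_sph _ hs') hs _ _ (mul_ne_zero hl' hl'') h1).symm
  · obtain ⟨hs, -, l, hl, he⟩ := D.A_spec hk (T.m μ) (T.tr μ t)
    obtain ⟨-, l', hl', he'⟩ := key μ t
    rw [hA, he] at he'
    exact D.H3_xi_inj' hs (ab_sph _ (D.A_spec hk' μ t).1) _ _ hl he'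

/-- module H3: sizes of the coefficients -/
theorem rel_size {g : G} {k k' : M4} (hk : k ∈ D.FF) (hk' : k' ∈ D.FF) {T : Tr}
    (h : Rel (D.R g) k k' T) : ‖D.R g *ᵥ D.xi (D.t0 k')‖ ≤ 2 * ‖T.d3‖⁻¹ ∧
      ‖T.d3‖⁻¹ ≤ 2 * ‖D.R g *ᵥ D.xi (D.t0 k')‖ ∧ |T.a| ≤ 4 * ‖T.d2‖ * s1 (D.R g) := by
  have n2 : 0 < ‖T.d2‖ := norm_pos_iff.2 T.h2
  have n3 : 0 < ‖T.d3‖⁻¹ := inv_pos.2 (norm_pos_iff.2 T.h3)
  have hb : ∀ k : M4, k ∈ KK → ‖k *ᵥ e1‖ ≤ 1 ∧ 1 ≤ 2 * ‖k *ᵥ e1‖ := by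
    intro k hk
    constructor
    · refine (pi_norm_le_iff_of_nonneg zero_le_one).mpr fun i => ?_
      rw [H3_mulVec_e1]
      exact H3_entry_le hk i 1
    · have h1 := (kk_norm hk e1).2
      rwa [show ‖(e1 : V4)‖ = 1 from F0.norm_single_one 1] at h1
  obtain ⟨b1, b2⟩ := hb k hk.1
  obtain ⟨b1', b2'⟩ := hb k' hk'.1
  obtain ⟨hs', l', hl', he'⟩ := D.t0_spec hk'
  have hl : ‖k' *ᵥ e1‖ = ‖l'‖ := by
    rw [he', norm_smul, D.xnorm _ hs', mul_one]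
  rw [hl] at b1' b2'
  have h1 := congrArg norm h.r1
  rw [he', Matrix.mulVec_smul, norm_smul, norm_smul, norm_inv, norm_star] at h1
  have hx := norm_nonneg (D.R g *ᵥ D.xi (D.t0 k'))
  refine ⟨?_, ?_, ?_⟩
  · nlinarith
  · nlinarith
  · obtain ⟨-, -, -, e02, -⟩ := H3_entries hk.1 h
    have h2 := H3_conj_le hk.1 hk'.1 (D.R g) 0 2
    rw [e02, norm_div, norm_star, Complex.norm_real, Real.norm_eq_abs, div_le_iff₀ n2] at h2
    linarith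

/-- module H3: bounded families of transitions -/
theorem rel_bdd (F : Finset G) : ∃ C : ℝ, ∀ g ∈ F, ∀ k ∈ D.FF, ∀ k' ∈ D.FF, ∀ T : Tr,
    Rel (D.R g) k k' T → ‖T.d2‖ ≤ C ∧ ‖T.d3‖ ≤ C ∧ ‖T.d2‖⁻¹ ≤ C ∧ ‖T.d3‖⁻¹ ≤ C ∧ ‖T.β‖ ≤ C ∧
      |T.a| ≤ C ∧ ‖T.b‖ ≤ C ∧ |T.e| ≤ C := by
  obtain ⟨B, hB⟩ : ∃ B : ℝ, B = 4 * ∑ g ∈ F, s1 (D.R g) + 1 := ⟨_, rfl⟩
  have hB1 : 1 ≤ B := by
    have : 0 ≤ ∑ g ∈ F, s1 (D.R g) := Finset.sum_nonneg fun g _ => F0.s1_nonneg _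
    rw [hB]
    linarith
  have hB0 : 0 ≤ B := by linarith
  refine ⟨2 * B ^ 8, fun g hg k hk k' hk' T h => ?_⟩
  have hs : 4 * s1 (D.R g) ≤ B := by
    have h1 : s1 (D.R g) ≤ ∑ g ∈ F, s1 (D.R g) :=
      Finset.single_le_sum (f := fun g => s1 (D.R g)) (fun g _ => F0.s1_nonneg _) hg
    rw [hB]
    linarith
  have hM : ∀ i j, ‖(kᴴ * D.R g * k') i j‖ ≤ B := fun i j =>
    (H3_conj_le hk.1 hk'.1 (D.R g) i j).trans hs
  obtain ⟨E33, E22, E23, E02, E03, E11, E00, E13⟩ := H3_entries hk.1 h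
  have n2 : 0 < ‖T.d2‖ := norm_pos_iff.2 T.h2
  have n3 : 0 < ‖T.d3‖ := norm_pos_iff.2 T.h3
  have b2 : ‖T.d2‖ ≤ B := by rw [← E22]; exact hM 2 2
  have b3 : ‖T.d3‖ ≤ B := by rw [← E33]; exact hM 3 3
  have b2' : ‖T.d2‖⁻¹ ≤ B := by
    have := hM 0 0
    rwa [E00, norm_inv, norm_star] at this
  have b3' : ‖T.d3‖⁻¹ ≤ B := by
    have := hM 1 1
    rwa [E11, norm_inv, norm_star] at this
  have bβ : ‖T.β‖ ≤ B ^ 2 := by
    have h1 := hM 2 3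
    rw [E23, norm_mul] at h1
    have h2 : ‖T.β‖ = ‖T.d3‖⁻¹ * (‖T.d3‖ * ‖T.β‖) := by
      field_simp
    rw [h2, pow_two]
    exact mul_le_mul b3' h1 (by positivity) hB0
  have ba : |T.a| ≤ B ^ 2 := by
    have h1 := hM 0 2
    rw [E02, norm_div, norm_star, Complex.norm_real, Real.norm_eq_abs, div_le_iff₀ n2] at h1
    rw [pow_two]
    exact h1.trans (mul_le_mul_of_nonneg_left b2 hB0)
  have bb : ‖T.b‖ ≤ B ^ 2 := by
    have h1 := hM 0 3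
    rw [E03, norm_div, norm_star, div_le_iff₀ n2] at h1
    rw [pow_two]
    exact h1.trans (mul_le_mul_of_nonneg_left b2 hB0)
  have bk : ‖T.κ‖ ≤ B ^ 2 := by
    unfold Tr.κ
    rw [norm_inv, norm_mul, norm_star, mul_inv, pow_two]
    exact mul_le_mul b2' b3' (by positivity) hB0
  have be : |T.e| ≤ 2 * B ^ 8 := by
    have h1 := hM 1 3
    have h2 : (T.e : ℂ) = (T.d3 * star T.d3) * (T.d3⁻¹ * (kᴴ * D.R g * k') 1 3 +
        star T.β * (T.κ * T.b)) := by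
      have h3 := T.h3
      have s3 := H3_star_ne h3
      rw [E13]
      field_simp
      ring
    have h3 : |T.e| = ‖(T.e : ℂ)‖ := by rw [Complex.norm_real, Real.norm_eq_abs]
    rw [h3, h2, norm_mul, norm_mul, norm_star]
    have h4 : ‖T.d3⁻¹ * (kᴴ * D.R g * k') 1 3 + star T.β * (T.κ * T.b)‖ ≤
        B * B + B ^ 2 * (B ^ 2 * B ^ 2) := by
      refine (norm_add_le _ _).trans (add_le_add ?_ ?_)
      · rw [norm_mul, norm_inv]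
        exact mul_le_mul b3' h1 (norm_nonneg _) hB0
      · rw [norm_mul, norm_mul, norm_star]
        exact mul_le_mul bβ (mul_le_mul bk bb (norm_nonneg _) (by positivity)) (by positivity)
          (by positivity)
    have h5 : ‖T.d3‖ * ‖T.d3‖ ≤ B * B := mul_le_mul b3 b3 (norm_nonneg _) hB0
    have h6 := mul_le_mul h5 h4 (norm_nonneg _) (by positivity)
    refine h6.trans ?_
    have h7 : B ^ 4 ≤ B ^ 8 := pow_le_pow_right₀ hB1 (by norm_num)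
    have h8 : B * B * (B * B + B ^ 2 * (B ^ 2 * B ^ 2)) = B ^ 4 + B ^ 8 := by ring
    rw [h8]
    linarith
  have hBC : B ≤ 2 * B ^ 8 := by
    have h7 : B ^ 1 ≤ B ^ 8 := pow_le_pow_right₀ hB1 (by norm_num)
    rw [pow_one] at h7
    have h9 : 0 ≤ B ^ 8 := by positivity
    linarith
  have hBC2 : B ^ 2 ≤ 2 * B ^ 8 := by
    have h7 : B ^ 2 ≤ B ^ 8 := pow_le_pow_right₀ hB1 (by norm_num)
    have h9 : 0 ≤ B ^ 8 := by positivity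
    linarith
  exact ⟨b2.trans hBC, b3.trans hBC, b2'.trans hBC, b3'.trans hBC, bβ.trans hBC2, ba.trans hBC2,
    bb.trans hBC2, be⟩

theorem H3_unit {u : ℂ} (hu : ‖u‖ = 1) : u ≠ 0 ∧ star u = u⁻¹ := by
  have h0 : u ≠ 0 := fun h0 => by rw [h0, norm_zero] at hu; exact zero_ne_one hu
  refine ⟨h0, ?_⟩
  have h1 := H3_sq u
  rw [hu] at h1
  field_simp
  rw [mul_comm, ← h1]
  norm_num

/-- module H3: the cocycle relation -/
theorem rel_comp {g h : G} {k k' k'' : M4} {T T' : Tr} (h1 : Rel (D.R g) k k' T)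
    (h2 : Rel (D.R h) k' k'' T') : ∃ T'' : Tr, Rel (D.R (g * h)) k k'' T'' ∧
      ‖T''.d2‖ = ‖T.d2‖ * ‖T'.d2‖ ∧ ‖T''.d3‖ = ‖T.d3‖ * ‖T'.d3‖ ∧
      (∀ μ, T''.m μ = T.m (T'.m μ)) ∧ ∀ μ τ, T''.t μ τ = T.t (T'.m μ) (T'.t μ τ) := by
  obtain ⟨u, hu, he⟩ := D.mul g h
  obtain ⟨u0, us⟩ := H3_unit hu
  have hR : ∀ Z : V4, D.R (g * h) *ᵥ Z = u • (D.R g *ᵥ (D.R h *ᵥ Z)) := fun Z => by
    rw [he, Matrix.smul_mulVec, Matrix.mulVec_mulVec]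
  have t2 := T.h2
  have t3 := T.h3
  have t2' := T'.h2
  have t3' := T'.h3
  have st2 := H3_star_ne t2
  have st3 := H3_star_ne t3
  have st2' := H3_star_ne t2'
  have st3' := H3_star_ne t3'
  have hm : ∀ μ, (u * T.d2 * T'.d2) / (u * T.d3 * T'.d3) * μ + (T.d2 / T.d3 * T'.β + T.β) =
      T.m (T'.m μ) := by
    intro μ
    simp only [Tr.m]
    field_simp
    ring
  have ht : ∀ μ τ, Tr.t ⟨u * T.d2 * T'.d2, u * T.d3 * T'.d3, T.d2 / T.d3 * T'.β + T.β,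
      T'.a + T.a * ‖T'.d2‖ ^ 2, T'.b + star T'.d2 * T'.d3 * (T.a * T'.β + T.b),
      T'.e + ‖T'.d3‖ ^ 2 * T.q T'.β, mul_ne_zero (mul_ne_zero u0 t2) t2',
      mul_ne_zero (mul_ne_zero u0 t3) t3'⟩ μ τ = T.t (T'.m μ) (T'.t μ τ) := by
    intro μ τ
    simp only [H3_t, Complex.ofReal_add, Complex.ofReal_mul, H3_sq, H3_q, Tr.m, star_add,
      star_mul', star_div₀, star_star, us, Complex.star_def, map_add, map_mul, map_div₀,
      Complex.conj_conj, Complex.conj_ofReal] at *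
    field_simp
    ring
  refine ⟨⟨u * T.d2 * T'.d2, u * T.d3 * T'.d3, T.d2 / T.d3 * T'.β + T.β,
      T'.a + T.a * ‖T'.d2‖ ^ 2, T'.b + star T'.d2 * T'.d3 * (T.a * T'.β + T.b),
      T'.e + ‖T'.d3‖ ^ 2 * T.q T'.β, mul_ne_zero (mul_ne_zero u0 t2) t2',
      mul_ne_zero (mul_ne_zero u0 t3) t3'⟩, ⟨fun a μ τ => ?_, ?_, ?_⟩, ?_, ?_, hm, ht⟩
  · rw [hR, h2.act, Matrix.mulVec_smul, h1.act, ht, smul_smul, smul_smul]
    have e1 : Tr.m ⟨u * T.d2 * T'.d2, u * T.d3 * T'.d3, T.d2 / T.d3 * T'.β + T.β,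
      T'.a + T.a * ‖T'.d2‖ ^ 2, T'.b + star T'.d2 * T'.d3 * (T.a * T'.β + T.b),
      T'.e + ‖T'.d3‖ ^ 2 * T.q T'.β, mul_ne_zero (mul_ne_zero u0 t2) t2',
      mul_ne_zero (mul_ne_zero u0 t3) t3'⟩ μ = T.m (T'.m μ) := hm μ
    have e2 : u * T'.d3 * T.d3 = u * T.d3 * T'.d3 := by ring
    rw [e1, e2]
    congr 3
    simp only [Tr.κ, Tr.dq, Tr.m, Complex.ofReal_add, Complex.ofReal_mul, H3_sq, star_mul', us]
    field_simp
    ring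
  · rw [hR, h2.r1, Matrix.mulVec_smul, h1.r1, smul_smul, smul_smul]
    congr 1
    simp only [star_mul', us]
    field_simp
  · obtain ⟨p, hp⟩ := h1.r0
    obtain ⟨p', hp'⟩ := h2.r0
    refine ⟨u * (star T'.d2)⁻¹ * p + u * p' * (star T.d3)⁻¹, ?_⟩
    rw [hR, hp', Matrix.mulVec_add, Matrix.mulVec_smul, Matrix.mulVec_smul, hp, h1.r1]
    simp only [smul_add, smul_smul, add_smul, star_mul', us]
    rw [add_assoc]
    congr 2
    · field_simp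
    · rw [mul_assoc]
    · rw [mul_assoc]
  · simp [norm_mul, hu]
  · simp [norm_mul, hu]

/-- module H3: the inverse relation -/
theorem rel_inv {g : G} {k k' : M4} {T : Tr} (h : Rel (D.R g) k k' T) : ∃ T' : Tr,
    Rel (D.R g⁻¹) k' k T' ∧ ‖T'.d2‖ = ‖T.d2‖⁻¹ ∧ ‖T'.d3‖ = ‖T.d3‖⁻¹ ∧
      (∀ μ, T'.m (T.m μ) = μ ∧ T.m (T'.m μ) = μ) ∧
      (∀ μ τ, T'.t (T.m μ) (T.t μ τ) = τ ∧ T.t (T'.m μ) (T'.t μ τ) = τ) := by
  obtain ⟨u, hu, he⟩ := D.R_inv g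
  obtain ⟨u0, us⟩ := H3_unit hu
  obtain ⟨-, -, -, e1', e2', -⟩ := iso_inv (D.pres g)
  have hR : ∀ Z : V4, D.R g⁻¹ *ᵥ (D.R g *ᵥ Z) = u • Z := fun Z => by
    rw [he, Matrix.smul_mulVec, Matrix.mulVec_mulVec, e2', Matrix.one_mulVec]
  have t2 := T.h2
  have t3 := T.h3
  have st2 := H3_star_ne t2
  have st3 := H3_star_ne t3
  have nn2 : ((‖T.d2‖ ^ 2 : ℝ) : ℂ) = T.d2 * star T.d2 := H3_sq _
  have nn3 : ((‖T.d3‖ ^ 2 : ℝ) : ℂ) = T.d3 * star T.d3 := H3_sq _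
  have n2 : ‖T.d2‖ ≠ 0 := norm_ne_zero_iff.2 t2
  have n3 : ‖T.d3‖ ≠ 0 := norm_ne_zero_iff.2 t3
  obtain ⟨T', hT'⟩ : ∃ T' : Tr, T' = ⟨u / T.d2, u / T.d3, -(T.d3 / T.d2 * T.β), -T.a / ‖T.d2‖ ^ 2,
      -(T.κ * (T.a * -(T.d3 / T.d2 * T.β) + T.b)), -T.q (-(T.d3 / T.d2 * T.β)) / ‖T.d3‖ ^ 2,
      div_ne_zero u0 t2, div_ne_zero u0 t3⟩ := ⟨_, rfl⟩
  have q2 : T'.d2 = u / T.d2 := by rw [hT']
  have q3 : T'.d3 = u / T.d3 := by rw [hT']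
  have qβ : T'.β = -(T.d3 / T.d2 * T.β) := by rw [hT']
  have qa : (T'.a : ℂ) = -T.a / (T.d2 * star T.d2) := by rw [hT', ← nn2]; push_cast; ring
  have qb : T'.b = -(T.κ * (T.a * -(T.d3 / T.d2 * T.β) + T.b)) := by rw [hT']
  have qe : (T'.e : ℂ) = -T.q (-(T.d3 / T.d2 * T.β)) / (T.d3 * star T.d3) := by
    rw [hT', ← nn3]; push_cast; ring
  have hm1 : ∀ μ, T'.m (T.m μ) = μ := by
    intro μ
    simp only [Tr.m, q2, q3, qβ]
    field_simp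
    ring
  have hm2 : ∀ μ, T.m (T'.m μ) = μ := by
    intro μ
    simp only [Tr.m, q2, q3, qβ]
    field_simp
    ring
  have ht1 : ∀ μ τ, T'.t (T.m μ) (T.t μ τ) = τ := by
    intro μ τ
    simp only [H3_t, H3_q, Tr.m, q2, q3, qβ, qa, qb, qe, Tr.κ, star_add, star_mul', star_div₀,
      star_star, star_neg, star_inv₀, us, Complex.star_def, map_add, map_mul, map_div₀, map_neg,
      map_inv₀, Complex.conj_conj, Complex.conj_ofReal] at *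
    field_simp
    ring
  have ht2 : ∀ μ τ, T.t (T'.m μ) (T'.t μ τ) = τ := by
    intro μ τ
    simp only [H3_t, H3_q, Tr.m, q2, q3, qβ, qa, qb, qe, Tr.κ, star_add, star_mul', star_div₀,
      star_star, star_neg, star_inv₀, us, Complex.star_def, map_add, map_mul, map_div₀, map_neg,
      map_inv₀, Complex.conj_conj, Complex.conj_ofReal] at *
    field_simp
    ring
  have hκ : T'.κ * T.κ = 1 := by
    simp only [Tr.κ, q2, q3, star_div₀, us]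
    field_simp
  have hdq : ∀ μ, T.κ * (T'.κ * (T'.dq μ) + T.dq (T'.m μ)) = 0 := by
    intro μ
    rw [mul_add, ← mul_assoc, mul_comm T.κ, hκ, one_mul]
    simp only [Tr.κ, Tr.dq, Tr.m, q2, q3, qβ, qa, qb]
    field_simp
    ring
  refine ⟨T', ⟨fun a μ τ => ?_, ?_, ?_⟩, ?_, ?_, fun μ => ⟨hm1 μ, hm2 μ⟩,
    fun μ τ => ⟨ht1 μ τ, ht2 μ τ⟩⟩
  · have h1 := congrArg (fun Z => D.R g⁻¹ *ᵥ Z)
      (h.act (T'.κ * (a + T'.dq μ)) (T'.m μ) (T'.t μ τ))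
    simp only [hR, hm2, ht2, Matrix.mulVec_smul] at h1
    have h2 : T.κ * (T'.κ * (a + T'.dq μ) + T.dq (T'.m μ)) = a := by
      have h3 := hdq μ
      linear_combination h3 + a * hκ
    rw [h2] at h1
    rw [q3, div_eq_inv_mul, ← smul_smul, h1, smul_smul, inv_mul_cancel₀ t3, one_smul]
  · have h1 := congrArg (fun Z => D.R g⁻¹ *ᵥ Z) h.r1
    simp only [hR, Matrix.mulVec_smul] at h1
    have h2 : (star T'.d3)⁻¹ = star T.d3 * u := by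
      rw [q3, star_div₀, us]
      field_simp
    rw [h2, ← smul_smul, h1, smul_smul, mul_inv_cancel₀ st3, one_smul]
  · obtain ⟨p, hp⟩ := h.r0
    have h1 := congrArg (fun Z => D.R g⁻¹ *ᵥ Z) h.r1
    have h0 := congrArg (fun Z => D.R g⁻¹ *ᵥ Z) hp
    simp only [hR, Matrix.mulVec_smul, Matrix.mulVec_add] at h1 h0
    have h2 : (star T'.d2)⁻¹ = star T.d2 * u := by
      rw [q2, star_div₀, us]
      field_simp
    have h3 : D.R g⁻¹ *ᵥ (k *ᵥ e1) = (star T.d3 * u) • (k' *ᵥ e1) := by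
      rw [← smul_smul, h1, smul_smul, mul_inv_cancel₀ st3, one_smul]
    refine ⟨-(star T.d2 * (p * (star T.d3 * u))), ?_⟩
    rw [h3, smul_smul] at h0
    rw [h2, ← smul_smul, h0, smul_add, smul_smul, smul_smul, mul_inv_cancel₀ st2, one_smul,
      neg_smul, add_assoc, ← sub_eq_add_neg, sub_self, add_zero]
  · rw [q2, norm_div, hu, one_div]
  · rw [q3, norm_div, hu, one_div]

end Kd

end Pool.Agent.MPd01a95.KT
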