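import Mathlib
import Pool.Agent.Lib.MP_d01a95_gt_K.KDefs2
import Pool.Agent.Lib.MP_d01a95_gt_K.KA1
import Pool.Agent.Lib.MP_d01a95_gt_K.KF0
import Pool.Agent.Lib.MP_d01a95_gt_K.KH1
import Pool.Agent.Lib.MP_d01a95_gt_K.KH2

set_option autoImplicit false
set_option linter.all false

open Matrix Filter Topology MeasureTheory
open scoped ContDiff

namespace Pool.Agent.MPd01a95.KT

open GU

variable {G : Type} [Group G]

namespace Kd

variable (D : Kd G)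

/-- module H4a: the modulus of the pairing of two limit points is continuous -/
theorem H4a_cont : ContinuousOn (fun p : Eb × Eb => ‖hf (D.xi p.1) (D.xi p.2)‖) (Sph ×ˢ Sph) := by
  rw [Metric.continuousOn_iff]
  rintro ⟨a, b⟩ ⟨ha, hb⟩ ε hε
  simp only at ha hb
  obtain ⟨δ1, hδ1, h1⟩ := D.xcont a ha (ε / 16) (by positivity)
  obtain ⟨δ2, hδ2, h2⟩ := D.xcont b hb (ε / 16) (by positivity)
  refine ⟨min δ1 δ2, lt_min hδ1 hδ2, ?_⟩
  rintro ⟨x, y⟩ ⟨hx, hy⟩ hd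
  simp only at hx hy
  rw [Prod.dist_eq, max_lt_iff] at hd
  simp only at hd
  obtain ⟨l, hl, hlx⟩ := h1 x hx (by rw [← dist_eq_norm]; exact hd.1.trans_le (min_le_left _ _))
  obtain ⟨m, hm, hmy⟩ := h2 y hy (by rw [← dist_eq_norm]; exact hd.2.trans_le (min_le_right _ _))
  have e1 : ‖hf (D.xi x) (D.xi y)‖ = ‖hf (l • D.xi x) (m • D.xi y)‖ := by
    rw [F0.hf_smul_left, F0.hf_smul_right, norm_mul, norm_mul, norm_star, hl, hm, one_mul, one_mul]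
  have e2 : hf (l • D.xi x) (m • D.xi y) - hf (D.xi a) (D.xi b) =
      hf (l • D.xi x - D.xi a) (m • D.xi y) + hf (D.xi a) (m • D.xi y - D.xi b) := by
    rw [F0.hf_sub_left, F0.hf_sub_right]; ring
  have n1 : ‖m • D.xi y‖ = 1 := by rw [norm_smul, hm, D.xnorm y hy, one_mul]
  have n2 := D.xnorm a ha
  have b1 := hf_bd (l • D.xi x - D.xi a) (m • D.xi y)
  have b2 := hf_bd (D.xi a) (m • D.xi y - D.xi b)
  rw [n1] at b1
  rw [n2] at b2
  show dist ‖hf (D.xi x) (D.xi y)‖ ‖hf (D.xi a) (D.xi b)‖ < ε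
  rw [e1, Real.dist_eq]
  calc |‖hf (l • D.xi x) (m • D.xi y)‖ - ‖hf (D.xi a) (D.xi b)‖|
      ≤ ‖hf (l • D.xi x) (m • D.xi y) - hf (D.xi a) (D.xi b)‖ := abs_norm_sub_norm_le _ _
    _ ≤ ‖hf (l • D.xi x - D.xi a) (m • D.xi y)‖ + ‖hf (D.xi a) (m • D.xi y - D.xi b)‖ := by
        rw [e2]; exact norm_add_le _ _
    _ < ε := by linarith

theorem H4a_sph_compact : IsCompact Sph := isCompact_sphere _ _

theorem H4a_sph_cb {θ : Eb} (h : θ ∈ Sph) : θ ∈ Cb := Metric.sphere_subset_closedBall h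

/-- module H4a -/
theorem H4a_low (a : ℝ) (ha : 0 < a) : ∃ b : ℝ, 0 < b ∧ ∀ θ ∈ Sph, ∀ θ' ∈ Sph, a ≤ kp θ θ' →
    b ≤ ‖hf (D.xi θ) (D.xi θ')‖ := by
  set K : Set (Eb × Eb) := (Sph ×ˢ Sph) ∩ {p | a ≤ kp p.1 p.2} with hK
  have hKc : IsCompact K := (H4a_sph_compact.prod H4a_sph_compact).inter_right
    (isClosed_le continuous_const kp_cont)
  rcases K.eq_empty_or_nonempty with h | h
  · refine ⟨1, one_pos, fun θ hθ θ' hθ' hk => ?_⟩
    have : (θ, θ') ∈ K := ⟨⟨hθ, hθ'⟩, hk⟩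
    rw [h] at this
    exact absurd this (Set.notMem_empty _)
  · obtain ⟨p, hp, hmin⟩ := hKc.exists_isMinOn h ((D.H4a_cont).mono Set.inter_subset_left)
    refine ⟨‖hf (D.xi p.1) (D.xi p.2)‖, ?_, fun θ hθ θ' hθ' hk => ?_⟩
    · rw [norm_pos_iff]
      apply D.xtv p.1 hp.1.1 p.2 hp.1.2
      intro h0
      have h1 : a ≤ kp p.1 p.2 := hp.2
      rw [← h0, kp_self hp.1.1] at h1
      linarith
    · have hx : (θ, θ') ∈ K := ⟨⟨hθ, hθ'⟩, hk⟩
      have h5 := isMinOn_iff.1 hmin _ hx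
      exact h5

theorem H4a_kpc {α : Type} [TopologicalSpace α] {f g : α → Eb} {s : Set α}
    (hf' : ContinuousOn f s) (hg : ContinuousOn g s) : ContinuousOn (fun p => kp (f p) (g p)) s := by
  have h1 := hf'.prodMk hg
  have h2 := kp_cont.continuousOn (s := Set.univ)
  have h3 := h2.comp h1 (fun _ _ => Set.mem_univ _)
  exact h3

/-- module H4a: boxes (this is box_far of KH4) -/
theorem H4a_box_far (r : ℝ) : ∃ a : ℝ, 0 < a ∧ ∀ k ∈ D.FF, ∀ μ t, ‖μ‖ ≤ r → |t| ≤ r →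
    a ≤ kp (D.th k μ t) (D.t0 k) := by
  set K : Set (M4 × ℂ × ℝ) := D.FF ×ˢ (Metric.closedBall 0 r ×ˢ Set.Icc (-r) r) with hK
  have hKc : IsCompact K := D.ff_compact.prod ((isCompact_closedBall _ _).prod isCompact_Icc)
  have hc : ContinuousOn (fun p : M4 × ℂ × ℝ => kp (D.th p.1 p.2.1 p.2.2) (D.t0 p.1)) K := by
    have g1 : ContinuousOn (fun p : M4 × ℂ × ℝ => D.th p.1 p.2.1 p.2.2) K := by
      refine D.th_cont.mono ?_
      intro p hp
      exact Set.mem_prod.2 ⟨(Set.mem_prod.1 hp).1, Set.mem_univ _⟩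
    have g2 : ContinuousOn (fun p : M4 × ℂ × ℝ => D.t0 p.1) K := by
      refine D.t0_cont.comp continuousOn_fst ?_
      intro p hp
      exact (Set.mem_prod.1 hp).1
    exact H4a_kpc g1 g2
  rcases K.eq_empty_or_nonempty with h | h
  · refine ⟨1, one_pos, fun k hk μ t hμ ht => ?_⟩
    have : (k, μ, t) ∈ K := ⟨hk, by simpa using hμ, by simpa [abs_le] using ht⟩
    rw [h] at this
    exact absurd this (Set.notMem_empty _)
  · obtain ⟨p, hp, hmin⟩ := hKc.exists_isMinOn h hc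
    refine ⟨kp (D.th p.1 p.2.1 p.2.2) (D.t0 p.1), ?_, fun k hk μ t hμ ht => ?_⟩
    · obtain ⟨s1, s2, -⟩ := D.A_spec hp.1 p.2.1 p.2.2
      exact kp_pos (H4a_sph_cb s1) (H4a_sph_cb (D.t0_spec hp.1).1) s2
    · have hx : (k, μ, t) ∈ K := ⟨hk, by simpa using hμ, by simpa [abs_le] using ht⟩
      have h5 := isMinOn_iff.1 hmin _ hx
      exact h5

/-- module H4a (this is far_box of KH4) -/
theorem H4a_far_box (a : ℝ) (ha : 0 < a) : ∃ r : ℝ, ∀ k ∈ D.FF, ∀ μ t,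
    a ≤ kp (D.th k μ t) (D.t0 k) → ‖μ‖ ≤ r ∧ |t| ≤ r := by
  obtain ⟨b, hb, hlow⟩ := D.H4a_low a ha
  refine ⟨4 / b + 16 / b ^ 2, fun k hk μ t hfar => ?_⟩
  obtain ⟨sθ, -, l, hl, hkl⟩ := D.A_spec hk μ t
  obtain ⟨s0, l', hl', hkl'⟩ := D.t0_spec hk
  have hbb := hlow _ sθ _ s0 hfar
  set Z : V4 := XX (D.A k μ t) μ t with hZ
  have hKK : k ∈ KK := hk.1
  have z0 : Z 0 = D.A k μ t := by rw [hZ]; rfl
  have z1 : Z 1 = (t : ℂ) - star μ * D.A k μ t := by rw [hZ]; rfl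
  have z2 : Z 2 = μ := by rw [hZ]; rfl
  have z3 : Z 3 = 1 := by rw [hZ]; rfl
  have h1 : hf (k *ᵥ Z) (k *ᵥ e1) = -Complex.I := by
    rw [hKK.2, fc_e1, z3, mul_one]
  rw [hkl, hkl', F0.hf_smul_left, F0.hf_smul_right] at h1
  have h2 := congrArg norm h1
  rw [norm_mul, norm_mul, norm_star, norm_neg, Complex.norm_I] at h2
  have he1 : ‖(e1 : V4)‖ = 1 := F0.norm_single_one 1
  have h3 : 1 ≤ 2 * ‖l'‖ := by
    have h := (kk_norm hKK e1).2
    rw [he1, hkl', norm_smul, D.xnorm _ s0, mul_one] at h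
    exact h
  have hlp : 0 < ‖l‖ := norm_pos_iff.2 hl
  have hl2 : ‖l‖ ≤ 2 / b := by
    rw [le_div_iff₀ hb]
    have h4 : ‖l‖ * ((1 / 2) * b) ≤ ‖l‖ * (‖l'‖ * ‖hf (D.xi (D.th k μ t)) (D.xi (D.t0 k))‖) := by
      apply mul_le_mul_of_nonneg_left _ hlp.le
      exact mul_le_mul (by linarith) hbb hb.le (norm_nonneg _)
    rw [h2] at h4
    linarith
  have hZn : ‖Z‖ ≤ 4 / b := by
    have h := (kk_norm hKK Z).2
    rw [hkl, norm_smul, D.xnorm _ sθ, mul_one] at h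
    have : 4 / b = 2 * (2 / b) := by ring
    rw [this]
    linarith
  have c0 : ‖D.A k μ t‖ ≤ 4 / b := by rw [← z0]; exact (norm_le_pi_norm Z 0).trans hZn
  have c1 : ‖(t : ℂ) - star μ * D.A k μ t‖ ≤ 4 / b := by
    rw [← z1]; exact (norm_le_pi_norm Z 1).trans hZn
  have c2 : ‖μ‖ ≤ 4 / b := by
    have := (norm_le_pi_norm Z 2).trans hZn
    rwa [z2] at this
  have h4b : 0 < 4 / b := by positivity
  have h16 : (4 / b) * (4 / b) = 16 / b ^ 2 := by field_simp; norm_num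
  have h16' : 0 < 16 / b ^ 2 := by positivity
  refine ⟨by linarith, ?_⟩
  have c3 : ‖star μ * D.A k μ t‖ ≤ 16 / b ^ 2 := by
    rw [norm_mul, norm_star, ← h16]
    exact mul_le_mul c2 c0 (norm_nonneg _) h4b.le
  calc |t| = ‖(t : ℂ)‖ := by rw [Complex.norm_real, Real.norm_eq_abs]
    _ = ‖((t : ℂ) - star μ * D.A k μ t) + star μ * D.A k μ t‖ := by rw [sub_add_cancel]
    _ ≤ ‖(t : ℂ) - star μ * D.A k μ t‖ + ‖star μ * D.A k μ t‖ := norm_add_le _ _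
    _ ≤ 4 / b + 16 / b ^ 2 := add_le_add c1 c3

end Kd

end Pool.Agent.MPd01a95.KT
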