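import Mathlib
import Pool.Agent.Lib.MP_d01a95_gt_K.KDefs2
import Pool.Agent.Lib.MP_d01a95_gt_K.KA1
import Pool.Agent.Lib.MP_d01a95_gt_K.KA2
import Pool.Agent.Lib.MP_d01a95_gt_K.KA3
import Pool.Agent.Lib.MP_d01a95_gt_K.KA4
import Pool.Agent.Lib.MP_d01a95_gt_K.KF0
import Pool.Agent.Lib.MP_d01a95_gt_K.KF6
import Pool.Agent.Lib.MP_d01a95_gt_K.KH1
import Pool.Agent.Lib.MP_d01a95_gt_K.KH2
import Pool.Agent.Lib.MP_d01a95_gt_K.KH3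
import Pool.Agent.Lib.MP_d01a95_gt_K.KH4a

set_option autoImplicit false
set_option linter.all false

open Matrix Filter Topology MeasureTheory
open scoped ContDiff

namespace Pool.Agent.MPd01a95.KT

open GU

variable {G : Type} [Group G]

/-- an elementary inequality -/
theorem H4_num {ε K : ℝ} (hε : 0 < ε) (hε1 : ε < 1) (hK : 0 ≤ K) {A X : ℝ} (hA : 0 ≤ A)
    (hX : 1 ≤ X) (h : A ≤ K * (X + A) ^ (1 - ε)) :
    A ≤ (2 * K + (2 * K) ^ (1 / ε)) * X ^ (1 - ε) := by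
  have h1ε : 0 < 1 - ε := by linarith
  have hX0 : 0 < X := by linarith
  have hXp : 1 ≤ X ^ (1 - ε) := Real.one_le_rpow hX h1ε.le
  have h2 : (2 : ℝ) ^ (1 - ε) ≤ 2 := by
    calc (2 : ℝ) ^ (1 - ε) ≤ 2 ^ (1 : ℝ) :=
          Real.rpow_le_rpow_of_exponent_le (by norm_num) (by linarith)
      _ = 2 := Real.rpow_one 2
  have hdbl : ∀ B : ℝ, 0 ≤ B → X + A ≤ 2 * B → A ≤ 2 * K * B ^ (1 - ε) := by
    intro B hB hXB
    have hBp : 0 ≤ B ^ (1 - ε) := Real.rpow_nonneg hB _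
    calc A ≤ K * (X + A) ^ (1 - ε) := h
      _ ≤ K * (2 * B) ^ (1 - ε) :=
          mul_le_mul_of_nonneg_left (Real.rpow_le_rpow (by linarith) hXB h1ε.le) hK
      _ = K * (2 ^ (1 - ε) * B ^ (1 - ε)) := by rw [Real.mul_rpow (by norm_num) hB]
      _ ≤ K * (2 * B ^ (1 - ε)) := by gcongr
      _ = _ := by ring
  have hp : 0 ≤ (2 * K) ^ (1 / ε) := Real.rpow_nonneg (by linarith) _
  rcases le_total A X with hc | hc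
  · have h3 := hdbl X hX0.le (by linarith)
    have h4 : 0 ≤ (2 * K) ^ (1 / ε) * X ^ (1 - ε) := by positivity
    linarith [h3, h4, add_mul (2 * K) ((2 * K) ^ (1 / ε)) (X ^ (1 - ε))]
  · have h3 := hdbl A hA (by linarith)
    have hA0 : 0 < A := by linarith
    have h4 : A ^ ε ≤ 2 * K := by
      have h5 : A ^ ε * A ^ (1 - ε) = A := by rw [← Real.rpow_add hA0]; simp
      have h6 : 0 < A ^ (1 - ε) := Real.rpow_pos_of_pos hA0 _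
      have h8 : A ^ ε * A ^ (1 - ε) ≤ 2 * K * A ^ (1 - ε) := by rw [h5]; exact h3
      exact le_of_mul_le_mul_right h8 h6
    have h7 : A ≤ (2 * K) ^ (1 / ε) := by
      have h9 := Real.rpow_le_rpow (by positivity) h4 (by positivity : 0 ≤ 1 / ε)
      rwa [← Real.rpow_mul hA, mul_one_div_cancel hε.ne', Real.rpow_one] at h9
    have h10 : 0 ≤ 2 * K * X ^ (1 - ε) := by positivity
    have h11 : (2 * K) ^ (1 / ε) ≤ (2 * K) ^ (1 / ε) * X ^ (1 - ε) :=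
      le_mul_of_one_le_right hp hXp
    linarith [add_mul (2 * K) ((2 * K) ^ (1 / ε)) (X ^ (1 - ε))]

/-- another elementary inequality -/
theorem H4_num2 {A s c p Z K1 K2 C N ε' ε2 : ℝ} (hs : 0 < s) (hc : 1 ≤ c) (hp : 0 ≤ p)
    (hZ : 0 ≤ Z) (hK1 : 0 ≤ K1) (hK2 : 0 ≤ K2) (hC : 1 ≤ C) (hN : 1 ≤ N) (hε2 : 0 < ε2)
    (hε : ε2 ≤ ε') (hε1 : ε2 / N < 1) (h1 : A ≤ K1 * s ^ 2 * p ^ ε') (h2 : p * c ^ 2 ≤ C)
    (h3 : s ≤ N * c ^ N) (h4 : s ^ 2 ≤ K2 * Z) :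
    A ≤ (K1 * C ^ ε' * (N ^ 2) ^ (ε2 / N) * K2 ^ (1 - ε2 / N)) * Z ^ (1 - ε2 / N) := by
  have hN0 : 0 < N := by linarith
  have hc0 : 0 < c := by linarith
  obtain ⟨ε, hεd⟩ : ∃ ε, ε = ε2 / N := ⟨_, rfl⟩
  rw [← hεd] at hε1 ⊢
  have hε0 : 0 < ε := by rw [hεd]; positivity
  have hεN : N * ε = ε2 := by rw [hεd]; field_simp
  have hy1 : 1 ≤ c ^ 2 := by nlinarith
  have hy0 : 0 < c ^ 2 := by linarith
  have hx0 : 0 < s ^ 2 := by positivity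
  have hyi : (c ^ 2)⁻¹ ≤ 1 := inv_le_one_of_one_le₀ hy1
  have hyi0 : 0 < (c ^ 2)⁻¹ := by positivity
  have p1 : p ≤ C * (c ^ 2)⁻¹ := by
    rw [← div_eq_mul_inv, le_div_iff₀ hy0]
    exact h2
  have p2 : p ^ ε' ≤ C ^ ε' * ((c ^ 2)⁻¹) ^ ε2 := by
    calc p ^ ε' ≤ (C * (c ^ 2)⁻¹) ^ ε' := Real.rpow_le_rpow hp p1 (by linarith)
      _ = C ^ ε' * ((c ^ 2)⁻¹) ^ ε' := Real.mul_rpow (by linarith) hyi0.le
      _ ≤ C ^ ε' * ((c ^ 2)⁻¹) ^ ε2 :=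
          mul_le_mul_of_nonneg_left (Real.rpow_le_rpow_of_exponent_ge hyi0 hyi hε)
            (Real.rpow_nonneg (by linarith) _)
  have x1 : s ^ 2 ≤ N ^ 2 * (c ^ 2) ^ N := by
    have e : (c ^ N) ^ 2 = (c ^ 2) ^ N := by
      rw [← Real.rpow_natCast (c ^ N) 2, ← Real.rpow_natCast c 2, ← Real.rpow_mul hc0.le,
        ← Real.rpow_mul hc0.le, mul_comm]
    have h5 := pow_le_pow_left₀ hs.le h3 2
    rwa [mul_pow, e] at h5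
  have x2 : (s ^ 2) ^ ε ≤ (N ^ 2) ^ ε * (c ^ 2) ^ ε2 := by
    calc (s ^ 2) ^ ε ≤ (N ^ 2 * (c ^ 2) ^ N) ^ ε := Real.rpow_le_rpow hx0.le x1 hε0.le
      _ = (N ^ 2) ^ ε * (c ^ 2) ^ ε2 := by
          rw [Real.mul_rpow (by positivity) (by positivity), ← Real.rpow_mul hy0.le, hεN]
  have x3 : (s ^ 2) ^ ε * ((c ^ 2)⁻¹) ^ ε2 ≤ (N ^ 2) ^ ε := by
    have e : (c ^ 2) ^ ε2 * ((c ^ 2)⁻¹) ^ ε2 = 1 := by
      rw [← Real.mul_rpow hy0.le hyi0.le, mul_inv_cancel₀ hy0.ne', Real.one_rpow]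
    calc (s ^ 2) ^ ε * ((c ^ 2)⁻¹) ^ ε2 ≤ ((N ^ 2) ^ ε * (c ^ 2) ^ ε2) * ((c ^ 2)⁻¹) ^ ε2 :=
          mul_le_mul_of_nonneg_right x2 (Real.rpow_nonneg hyi0.le _)
      _ = (N ^ 2) ^ ε * ((c ^ 2) ^ ε2 * ((c ^ 2)⁻¹) ^ ε2) := by ring
      _ = _ := by rw [e, mul_one]
  have x4 : (s ^ 2) ^ (1 - ε) * (s ^ 2) ^ ε = s ^ 2 := by
    rw [← Real.rpow_add hx0]
    simp
  have x5 : (s ^ 2) ^ (1 - ε) ≤ K2 ^ (1 - ε) * Z ^ (1 - ε) := by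
    rw [← Real.mul_rpow hK2 hZ]
    exact Real.rpow_le_rpow hx0.le h4 (by linarith)
  have q1 : 0 ≤ C ^ ε' := Real.rpow_nonneg (by linarith) _
  have q2 : 0 ≤ (N ^ 2) ^ ε := Real.rpow_nonneg (by positivity) _
  have q3 : 0 ≤ (s ^ 2) ^ (1 - ε) := Real.rpow_nonneg hx0.le _
  calc A ≤ K1 * s ^ 2 * p ^ ε' := h1
    _ ≤ K1 * s ^ 2 * (C ^ ε' * ((c ^ 2)⁻¹) ^ ε2) :=
        mul_le_mul_of_nonneg_left p2 (by positivity)
    _ = K1 * C ^ ε' * ((s ^ 2) ^ (1 - ε) * ((s ^ 2) ^ ε * ((c ^ 2)⁻¹) ^ ε2)) := by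
        conv_lhs => rw [← x4]
        ring
    _ ≤ K1 * C ^ ε' * ((K2 ^ (1 - ε) * Z ^ (1 - ε)) * (N ^ 2) ^ ε) := by
        refine mul_le_mul_of_nonneg_left ?_ (by positivity)
        exact mul_le_mul x5 x3 (by positivity) (q3.trans x5)
    _ = _ := by ring

/-- norms of the chart vectors -/
theorem H4_XX_le {a μ : ℂ} {t r : ℝ} (hμ : ‖μ‖ ≤ r) :
    ‖XX a μ (t : ℂ)‖ ≤ (1 + r) * ((1 + |t|) + ‖a‖) := by
  have hr : 0 ≤ r := (norm_nonneg _).trans hμ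
  have ha := norm_nonneg a
  have ht := abs_nonneg t
  have hra : 0 ≤ r * ‖a‖ := by positivity
  have hrt : 0 ≤ r * |t| := by positivity
  refine (pi_norm_le_iff_of_nonneg (by positivity)).mpr fun i => ?_
  fin_cases i
  · simp [XX]
    nlinarith
  · have h1 : ‖(t : ℂ) - star μ * a‖ ≤ |t| + ‖μ‖ * ‖a‖ := by
      refine (norm_sub_le _ _).trans ?_
      rw [norm_mul, norm_star, Complex.norm_real, Real.norm_eq_abs]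
    have h2 : ‖μ‖ * ‖a‖ ≤ r * ‖a‖ := mul_le_mul_of_nonneg_right hμ ha
    have h3 : ‖XX a μ (t : ℂ) 1‖ = ‖(t : ℂ) - star μ * a‖ := by simp [XX]
    show ‖XX a μ (t : ℂ) 1‖ ≤ _
    rw [h3]
    nlinarith
  · simp [XX]
    nlinarith
  · simp [XX]
    nlinarith

theorem H4_one_le_XX (a μ τ : ℂ) : 1 ≤ ‖XX a μ τ‖ := by
  have h := norm_le_pi_norm (XX a μ τ) 3
  simpa [XX] using h

theorem H4_Z0_le (a μ τ : ℂ) : ‖a‖ ≤ wd (XX a μ τ) e1 := by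
  have h := F0.le_wd (XX a μ τ) e1 0 1
  simpa [XX, e1] using h

theorem H4_s1_kh {k : M4} (hk : k ∈ KK) : s1 kᴴ ≤ 1 :=
  F0.s1_le zero_le_one fun i j => by
    rw [Matrix.conjTranspose_apply, norm_star]
    exact H3_entry_le hk j i

theorem H4_ab_back (g : GU (Fin 2)) {θ : Eb} (hθ : θ ∈ Cb) : ab g (ab g⁻¹ θ) = θ := by
  rw [← ab_mul g g⁻¹ hθ, mul_inv_cancel, ab_one]

theorem H4_ab_back' (g : GU (Fin 2)) {θ : Eb} (hθ : θ ∈ Cb) : ab g⁻¹ (ab g θ) = θ := by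
  rw [← ab_mul g⁻¹ g hθ, inv_mul_cancel, ab_one]

namespace Kd

variable (D : Kd G)

/-- module H4: boxes -/
theorem box_far (r : ℝ) : ∃ a : ℝ, 0 < a ∧ ∀ k ∈ D.FF, ∀ μ t, ‖μ‖ ≤ r → |t| ≤ r →
    a ≤ kp (D.th k μ t) (D.t0 k) := D.H4a_box_far r

/-- module H4 -/
theorem far_box (a : ℝ) (ha : 0 < a) : ∃ r : ℝ, ∀ k ∈ D.FF, ∀ μ t,
    a ≤ kp (D.th k μ t) (D.t0 k) → ‖μ‖ ≤ r ∧ |t| ≤ r := D.H4a_far_box a ha

/-- the functions of the charts are bounded on boxes -/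
theorem H4_box (r : ℝ) : ∃ M : ℝ, 1 ≤ M ∧ ∀ k ∈ D.FF, ∀ μ t, ‖μ‖ ≤ r → |t| ≤ r →
    ‖XX (D.A k μ t) μ (t : ℂ)‖ ≤ M := by
  have hK : IsCompact (D.FF ×ˢ (Metric.closedBall (0 : ℂ) r ×ˢ Set.Icc (-r) r)) :=
    D.ff_compact.prod ((isCompact_closedBall 0 r).prod isCompact_Icc)
  obtain ⟨B, hB⟩ := hK.exists_bound_of_continuousOn (f := fun p : M4 × ℂ × ℝ =>
    D.A p.1 p.2.1 p.2.2) (D.A_cont.mono (Set.prod_mono_right (Set.subset_univ _)))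
  refine ⟨max 1 ((1 + r) * ((1 + r) + B)), le_max_left _ _, fun k hk μ t hμ ht => ?_⟩
  have hr : 0 ≤ r := (abs_nonneg _).trans ht
  have h1 : ‖D.A k μ t‖ ≤ B := hB (k, μ, t) ⟨hk, by simpa using hμ, abs_le.1 ht⟩
  refine (H4_XX_le hμ).trans (le_trans ?_ (le_max_right _ _))
  gcongr

/-- size of `d3` -/
theorem H4_d3 (C : ℝ) : ∃ C' : ℝ, 1 ≤ C' ∧ ∀ g, ∀ k ∈ D.FF, ∀ k' ∈ D.FF, ∀ T : Tr,
    Rel (D.R g) k k' T → Near C (D.σ g) (D.t0 k) →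
      ‖T.d3‖⁻¹ ≤ C' * s1 (D.R g) ∧ s1 (D.R g) ≤ C' * ‖T.d3‖⁻¹ := by
  obtain ⟨B, hB, h⟩ := D.con_near C
  refine ⟨2 * B, by linarith, fun g k hk k' hk' T hT hn => ?_⟩
  obtain ⟨r1, r2, -⟩ := D.rel_size hk hk' hT
  obtain ⟨-, ht, -⟩ := D.rel_cmp hk hk' hT
  obtain ⟨hs, -⟩ := D.t0_spec hk
  obtain ⟨hs', -⟩ := D.t0_spec hk'
  obtain ⟨b1, b2⟩ := h g _ hs hn
  obtain ⟨l, hl0, hl⟩ := D.xeqv g⁻¹ _ hs
  have e1 : ab (D.σ g⁻¹) (D.t0 k) = D.t0 k' := by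
    rw [map_inv, ht, H4_ab_back' _ (H3_sph_cb hs')]
  rw [e1] at hl
  obtain ⟨u, hu, hb⟩ := D.F6_back g (D.xi (D.t0 k))
  rw [hl, Matrix.mulVec_smul] at hb
  have e2 := congrArg norm hb
  rw [norm_smul, norm_smul, hu, D.xnorm _ hs, one_mul] at e2
  rw [hl, norm_smul, D.xnorm _ hs', mul_one] at b1 b2
  have s0 := D.toKp.F0_s1_pos' g
  have hl' : 0 < ‖l‖ := norm_pos_iff.2 hl0
  have x0 := norm_nonneg (D.R g *ᵥ D.xi (D.t0 k'))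
  -- x = 1 / ‖l‖
  have f1 : ‖D.R g *ᵥ D.xi (D.t0 k')‖ ≤ B * s1 (D.R g) := by
    calc ‖D.R g *ᵥ D.xi (D.t0 k')‖ = ‖D.R g *ᵥ D.xi (D.t0 k')‖ * 1 := (mul_one _).symm
      _ ≤ ‖D.R g *ᵥ D.xi (D.t0 k')‖ * (B * (‖l‖ * s1 (D.R g))) :=
          mul_le_mul_of_nonneg_left b2 x0
      _ = (‖l‖ * ‖D.R g *ᵥ D.xi (D.t0 k')‖) * (B * s1 (D.R g)) := by ring
      _ = _ := by rw [e2, one_mul]
  have f2 : s1 (D.R g) ≤ B * ‖D.R g *ᵥ D.xi (D.t0 k')‖ := by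
    calc s1 (D.R g) = (‖l‖ * ‖D.R g *ᵥ D.xi (D.t0 k')‖) * s1 (D.R g) := by rw [e2, one_mul]
      _ = (‖l‖ * s1 (D.R g)) * ‖D.R g *ᵥ D.xi (D.t0 k')‖ := by ring
      _ ≤ _ := mul_le_mul_of_nonneg_right b1 x0
  constructor
  · nlinarith
  · nlinarith

/-- the main estimate -/
theorem H4_key : ∃ ε K : ℝ, 0 < ε ∧ ε < 1 ∧ 0 ≤ K ∧ ∀ k ∈ D.FF, ∀ μ t,
    ‖D.A k μ t‖ ≤ K * ‖XX (D.A k μ t) μ (t : ℂ)‖ ^ (1 - ε) := by
  obtain ⟨C, hC, hpair⟩ := pair D.lat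
  have hC0 : 0 < C := by linarith
  obtain ⟨r, hbox⟩ := D.far_box C⁻¹ (by positivity)
  obtain ⟨M, hM, hMb⟩ := D.H4_box r
  obtain ⟨B, hB, hd3⟩ := D.H4_d3 C
  obtain ⟨a, ha, hexp⟩ := D.xexp C⁻¹ (by positivity)
  obtain ⟨C1, ε', hε', hap⟩ := D.xapx
  have hN : 1 ≤ D.C := D.hC
  have hN0 : 0 < D.C := by linarith
  have e20 : 0 < min ε' (D.C / 2) := lt_min hε' (by linarith)
  have e21 : min ε' (D.C / 2) ≤ ε' := min_le_left _ _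
  have e22 : min ε' (D.C / 2) / D.C < 1 := by
    rw [div_lt_one hN0]
    exact (min_le_right _ _).trans_lt (by linarith)
  have hB0 : 0 < B := by linarith
  refine ⟨min ε' (D.C / 2) / D.C, (128 * B * |C1| * M) * C ^ ε' *
    (D.C ^ 2) ^ (min ε' (D.C / 2) / D.C) * (4 * B / a) ^ (1 - min ε' (D.C / 2) / D.C),
    by positivity, e22, by positivity, fun k hk μ t => ?_⟩
  -- the two points
  obtain ⟨hθ, hne, l, hl0, hl⟩ := D.A_spec hk μ t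
  obtain ⟨hθ0, l0, hl00, hl0e⟩ := D.t0_spec hk
  obtain ⟨g, n1, n0, hfar, -, -⟩ := hpair _ hθ _ hθ0 hne
  obtain ⟨k', hk', T, hT⟩ := D.exists_tr g hk
  obtain ⟨hcmp, ht0, hth⟩ := D.rel_cmp hk hk' hT
  obtain ⟨hs0', -⟩ := D.t0_spec hk'
  have e0' : ab (D.σ g)⁻¹ (D.t0 k) = D.t0 k' := by
    rw [ht0, H4_ab_back' _ (H3_sph_cb hs0')]
  rw [e0'] at hfar
  have hθ' : ab (D.σ g)⁻¹ (D.th k μ t) ∈ Sph := ab_sph _ hθ
  have hne' : ab (D.σ g)⁻¹ (D.th k μ t) ≠ D.t0 k' := by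
    intro h0
    rw [h0, kp_self hs0'] at hfar
    have : 0 < C⁻¹ := by positivity
    linarith
  obtain ⟨μ', t', hθe⟩ := D.th_surj hk' hθ' hne'
  rw [← hθe] at hfar
  obtain ⟨hμ', ht'⟩ := hbox k' hk' μ' t' hfar
  have hZ' := hMb k' hk' μ' t' hμ' ht'
  have hth' := hth μ' t'
  rw [hθe, H4_ab_back _ (H3_sph_cb hθ)] at hth'
  obtain ⟨eμ, et⟩ := D.th_inj hk _ _ _ _ hth'.symm
  -- the vector
  have hact := hT.act (D.A k' μ' t') μ' t'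
  rw [← hcmp μ' t', ← H3_tr, ← eμ, ← et] at hact
  obtain ⟨f1, f2⟩ := hd3 g k hk k' hk' T hT n0
  have s0 := D.toKp.F0_s1_pos' g
  have t3 := T.h3
  have n3 : 0 < ‖T.d3‖⁻¹ := inv_pos.2 (norm_pos_iff.2 t3)
  have hkZ : k *ᵥ XX (D.A k μ t) μ t = T.d3⁻¹ • (D.R g *ᵥ (k' *ᵥ XX (D.A k' μ' t') μ' t')) := by
    rw [hact, smul_smul, inv_mul_cancel₀ t3, one_smul]
  have hp0 : 0 ≤ kp (zz (D.σ g)) (D.t0 k) := norm_nonneg _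
  have hpe : 0 ≤ kp (zz (D.σ g)) (D.t0 k) ^ ε' := Real.rpow_nonneg hp0 _
  refine H4_num2 (s := s1 (D.R g)) (c := c (D.σ g)) (p := kp (zz (D.σ g)) (D.t0 k)) s0
    (c_ge_one _) hp0 (norm_nonneg _) (by positivity) (by positivity) hC hN e20 e21 e22 ?_ n0
    (D.up g) ?_
  · -- upper bound
    have w1 : ‖D.A k μ t‖ ≤ wd (XX (D.A k μ t) μ (t : ℂ)) e1 := H4_Z0_le _ _ _
    have w2 := wd_mulVec kᴴ (k *ᵥ XX (D.A k μ t) μ (t : ℂ)) (k *ᵥ e1)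
    rw [H3_cancel hk.1, H3_cancel hk.1] at w2
    have w3 : s2 kᴴ ≤ 2 := by
      have h1 := s2_le kᴴ
      have h2 := H4_s1_kh hk.1
      have h3 := F0.s1_nonneg kᴴ
      nlinarith
    have w4 : wd (k *ᵥ XX (D.A k μ t) μ (t : ℂ)) (k *ᵥ e1) =
        ‖T.d3‖⁻¹ * (‖l0‖ * wd (D.R g *ᵥ (k' *ᵥ XX (D.A k' μ' t') μ' t')) (D.xi (D.t0 k))) := by
      rw [hl0e, hkZ, F0.wd_smul, F0.wd_smul', norm_inv]
    have w5 : ‖l0‖ ≤ 2 := by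
      have h1 := (kk_norm hk.1 e1).1
      have h2 : ‖(e1 : V4)‖ = 1 := F0.norm_single_one 1
      rw [hl0e, norm_smul, D.xnorm _ hθ0, h2] at h1
      linarith
    have w6 := hap g _ hθ0 (k' *ᵥ XX (D.A k' μ' t') μ' t')
    have w7 : ‖k' *ᵥ XX (D.A k' μ' t') μ' t'‖ ≤ 2 * M := by
      have h1 := (kk_norm hk'.1 (XX (D.A k' μ' t') μ' t')).1
      linarith
    have w8 : wd (D.R g *ᵥ (k' *ᵥ XX (D.A k' μ' t') μ' t')) (D.xi (D.t0 k)) ≤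
        |C1| * s1 (D.R g) * (2 * M) * kp (zz (D.σ g)) (D.t0 k) ^ ε' := by
      refine w6.trans (mul_le_mul_of_nonneg_right ?_ hpe)
      have h1 : C1 * s1 (D.R g) ≤ |C1| * s1 (D.R g) :=
        mul_le_mul_of_nonneg_right (le_abs_self _) s0.le
      calc C1 * s1 (D.R g) * ‖k' *ᵥ XX (D.A k' μ' t') μ' t'‖
          ≤ |C1| * s1 (D.R g) * ‖k' *ᵥ XX (D.A k' μ' t') μ' t'‖ :=
            mul_le_mul_of_nonneg_right h1 (norm_nonneg _)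
        _ ≤ _ := mul_le_mul_of_nonneg_left w7 (by positivity)
    have w0 := F0.wd_nonneg (D.R g *ᵥ (k' *ᵥ XX (D.A k' μ' t') μ' t')) (D.xi (D.t0 k))
    have w9 : ‖l0‖ * wd (D.R g *ᵥ (k' *ᵥ XX (D.A k' μ' t') μ' t')) (D.xi (D.t0 k)) ≤
        2 * (|C1| * s1 (D.R g) * (2 * M) * kp (zz (D.σ g)) (D.t0 k) ^ ε') :=
      mul_le_mul w5 w8 w0 (by norm_num)
    have w10 : ‖T.d3‖⁻¹ * (‖l0‖ * wd (D.R g *ᵥ (k' *ᵥ XX (D.A k' μ' t') μ' t'))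
        (D.xi (D.t0 k))) ≤ (B * s1 (D.R g)) *
        (2 * (|C1| * s1 (D.R g) * (2 * M) * kp (zz (D.σ g)) (D.t0 k) ^ ε')) :=
      mul_le_mul f1 w9 (by positivity) (by positivity)
    rw [← w4] at w10
    have w11 : 0 ≤ wd (k *ᵥ XX (D.A k μ t) μ (t : ℂ)) (k *ᵥ e1) := F0.wd_nonneg _ _
    calc ‖D.A k μ t‖ ≤ 16 * s2 kᴴ * wd (k *ᵥ XX (D.A k μ t) μ (t : ℂ)) (k *ᵥ e1) := w1.trans w2
      _ ≤ 16 * 2 * wd (k *ᵥ XX (D.A k μ t) μ (t : ℂ)) (k *ᵥ e1) :=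
          mul_le_mul_of_nonneg_right (by linarith) w11
      _ ≤ 16 * 2 * ((B * s1 (D.R g)) *
        (2 * (|C1| * s1 (D.R g) * (2 * M) * kp (zz (D.σ g)) (D.t0 k) ^ ε'))) :=
          mul_le_mul_of_nonneg_left w10 (by norm_num)
      _ = _ := by ring
  · -- lower bound
    obtain ⟨-, -, l', hl'0, hl'⟩ := D.A_spec hk' μ' t'
    have v1 : 1 ≤ 2 * ‖l'‖ := by
      have h1 := (kk_norm hk'.1 (XX (D.A k' μ' t') μ' t')).2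
      rw [hl', norm_smul, D.xnorm _ (by rw [hθe]; exact hθ'), mul_one] at h1
      exact (H4_one_le_XX _ _ _).trans h1
    have v2 : C⁻¹ ≤ kp (ab (D.σ g)⁻¹ (D.th k μ t)) (zz (D.σ g)⁻¹) := by
      have h1 := near_dual (D.σ g) hθ
      have h2 : kp (zz (D.σ g)) (D.th k μ t) * c (D.σ g) ^ 2 ≤ C := n1
      have h3 : 0 ≤ kp (zz (D.σ g)⁻¹) (ab (D.σ g)⁻¹ (D.th k μ t)) := norm_nonneg _
      rw [kp_symm, inv_eq_one_div, div_le_iff₀ hC0]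
      nlinarith
    have v3 := hexp g _ hθ' v2
    have v4 := (kk_norm hk.1 (XX (D.A k μ t) μ (t : ℂ))).1
    rw [hkZ, hl', hθe, Matrix.mulVec_smul, norm_smul, norm_smul, norm_inv] at v4
    have v5 : (1 / 2) * (a * s1 (D.R g)) ≤
        ‖l'‖ * ‖D.R g *ᵥ D.xi (ab (D.σ g)⁻¹ (D.th k μ t))‖ :=
      mul_le_mul (by linarith) v3 (by positivity) (norm_nonneg _)
    have v6 : ‖T.d3‖⁻¹ * ((1 / 2) * (a * s1 (D.R g))) ≤ 2 * ‖XX (D.A k μ t) μ (t : ℂ)‖ :=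
      (mul_le_mul_of_nonneg_left v5 n3.le).trans v4
    have v7 : s1 (D.R g) ^ 2 * a ≤ 4 * B * ‖XX (D.A k μ t) μ (t : ℂ)‖ := by
      calc s1 (D.R g) ^ 2 * a = s1 (D.R g) * (a * s1 (D.R g)) := by ring
        _ ≤ (B * ‖T.d3‖⁻¹) * (a * s1 (D.R g)) := mul_le_mul_of_nonneg_right f2 (by positivity)
        _ = 2 * B * (‖T.d3‖⁻¹ * ((1 / 2) * (a * s1 (D.R g)))) := by ring
        _ ≤ 2 * B * (2 * ‖XX (D.A k μ t) μ (t : ℂ)‖) :=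
            mul_le_mul_of_nonneg_left v6 (by positivity)
        _ = _ := by ring
    rw [div_mul_eq_mul_div, le_div_iff₀ ha]
    exact v7

/-- module H4: growth -/
theorem growth : ∃ ε : ℝ, 0 < ε ∧ ε < 1 ∧ ∀ r : ℝ, ∃ C : ℝ, ∀ k ∈ D.FF, ∀ μ t, ‖μ‖ ≤ r →
    ‖D.A k μ t‖ ≤ C * (1 + |t|) ^ (1 - ε) := by
  obtain ⟨ε, K, hε, hε1, hK, h⟩ := D.H4_key
  refine ⟨ε, hε, hε1, fun r => ?_⟩
  refine ⟨2 * (K * (1 + |r|) ^ (1 - ε)) + (2 * (K * (1 + |r|) ^ (1 - ε))) ^ (1 / ε),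
    fun k hk μ t hμ => ?_⟩
  have hr : 0 ≤ r := (norm_nonneg _).trans hμ
  rw [abs_of_nonneg hr]
  refine H4_num hε hε1 (by positivity) (norm_nonneg _) (by linarith [abs_nonneg t]) ?_
  refine (h k hk μ t).trans ?_
  have h1 := H4_XX_le (a := D.A k μ t) (t := t) hμ
  have h2 : 0 ≤ 1 + |t| + ‖D.A k μ t‖ := by positivity
  rw [mul_assoc, ← Real.mul_rpow (by positivity) h2]
  exact mul_le_mul_of_nonneg_left (Real.rpow_le_rpow (norm_nonneg _) h1 (by linarith)) hK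

/-- module H4 -/
theorem ch {k : M4} (hk : k ∈ D.FF) : Ch (D.A k) := by
  obtain ⟨ε, h1, h1', h2⟩ := D.growth
  refine ⟨?_, ⟨ε, h1, fun r => ?_⟩, fun μb tb μ t h => D.el_ne hk μb tb μ t h⟩
  · have h := D.A_cont
    have : Continuous fun x : ℂ × ℝ => ((k, x.1, x.2) : M4 × ℂ × ℝ) := by fun_prop
    exact h.comp_continuous this fun x => ⟨hk, Set.mem_univ _⟩
  · obtain ⟨C, hC⟩ := h2 r
    exact ⟨C, fun μ t h => hC k hk μ t h⟩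

end Kd

end Pool.Agent.MPd01a95.KT
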