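import Mathlib
import Pool.Agent.Lib.MP_d01a95_gt_K.KDefs

/-!
# Module KI1: localisation of the weak form of a law
-/

set_option autoImplicit false
set_option linter.all false

open Matrix Filter Topology MeasureTheory
open scoped ContDiff

namespace Pool.Agent.MPd01a95.KT

/-- derivative of the chart map of a transition -/
theorem Tr.I1_G_fderiv (T : Tr) (x : ℂ × ℝ) : ∃ D : (ℂ × ℝ) →L[ℝ] (ℂ × ℝ), HasFDerivAt T.G D x ∧
    ∀ v : ℂ × ℝ, D v = (T.d2 / T.d3 * v.1,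
      (v.2 + 2 * (T.dq x.1 * star v.1).re) / ‖T.d3‖ ^ 2) := by
  have h1 : HasFDerivAt (fun y : ℂ × ℝ => T.m y.1)
      ((T.d2 / T.d3) • ContinuousLinearMap.fst ℝ ℂ ℝ) x := by
    have := ((hasFDerivAt_fst (𝕜 := ℝ) (p := x)).const_mul (T.d2 / T.d3)).add_const T.β
    exact this
  have h2 : HasFDerivAt (fun y : ℂ × ℝ => ‖y.1‖ ^ 2)
      ((2 • (innerSL ℝ) x.1).comp (ContinuousLinearMap.fst ℝ ℂ ℝ)) x :=
    (hasStrictFDerivAt_norm_sq x.1).hasFDerivAt.comp x (hasFDerivAt_fst (𝕜 := ℝ) (p := x))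
  let L : ℂ →L[ℝ] ℝ := Complex.reCLM.comp (T.b • (Complex.conjCLE : ℂ →L[ℝ] ℂ))
  have h3 : HasFDerivAt (fun y : ℂ × ℝ => (T.b * star y.1).re)
      (L.comp (ContinuousLinearMap.fst ℝ ℂ ℝ)) x :=
    L.hasFDerivAt.comp x (hasFDerivAt_fst (𝕜 := ℝ) (p := x))
  have h4 : HasFDerivAt (fun y : ℂ × ℝ => T.q y.1)
      (T.a • ((2 • (innerSL ℝ) x.1).comp (ContinuousLinearMap.fst ℝ ℂ ℝ)) +
        (2 : ℝ) • (L.comp (ContinuousLinearMap.fst ℝ ℂ ℝ))) x :=
    ((h2.const_mul T.a).add (h3.const_mul 2)).add_const T.e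
  have h5 : HasFDerivAt (fun y : ℂ × ℝ => T.tr y.1 y.2)
      ((‖T.d3‖ ^ 2)⁻¹ • (ContinuousLinearMap.snd ℝ ℂ ℝ +
        (T.a • ((2 • (innerSL ℝ) x.1).comp (ContinuousLinearMap.fst ℝ ℂ ℝ)) +
        (2 : ℝ) • (L.comp (ContinuousLinearMap.fst ℝ ℂ ℝ))))) x := by
    have := ((hasFDerivAt_snd (𝕜 := ℝ) (p := x)).add h4).const_mul ((‖T.d3‖ ^ 2)⁻¹)
    refine this.congr_of_eventuallyEq (Eventually.of_forall fun y => ?_)
    show (y.2 + T.q y.1) / ‖T.d3‖ ^ 2 = (‖T.d3‖ ^ 2)⁻¹ * (y.2 + T.q y.1)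
    rw [div_eq_mul_inv, mul_comm]
  refine ⟨_, h1.prodMk h5, fun v => ?_⟩
  refine Prod.ext ?_ ?_
  · simp
  · simp only [ContinuousLinearMap.prod_apply, ContinuousLinearMap.smul_apply,
      ContinuousLinearMap.add_apply, ContinuousLinearMap.comp_apply, ContinuousLinearMap.coe_fst',
      ContinuousLinearMap.coe_snd', smul_eq_mul, innerSL_apply_apply, L,
      ContinuousLinearMap.coe_coe, Complex.conjCLE_apply, Complex.reCLM_apply, Tr.dq]
    have e1 : inner ℝ x.1 v.1 = (x.1 * star v.1).re := by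
      simp [Complex.inner]
      ring
    have e2 : (T.b * (↑Complex.conjCLE : ℂ →L[ℝ] ℂ) v.1).re = (T.b * star v.1).re := rfl
    rw [e1, e2, add_mul, Complex.add_re, mul_assoc, Complex.re_ofReal_mul]
    simp only [nsmul_eq_mul]
    push_cast
    ring

theorem Tr.I1_G_contDiff (T : Tr) : ContDiff ℝ ⊤ T.G := by
  have h1 : ContDiff ℝ ⊤ (fun y : ℂ × ℝ => T.m y.1) :=
    (contDiff_const.mul contDiff_fst).add contDiff_const
  have h2 : ContDiff ℝ ⊤ (fun y : ℂ × ℝ => ‖y.1‖ ^ 2) :=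
    (contDiff_norm_sq ℝ).comp contDiff_fst
  have h3 : ContDiff ℝ ⊤ (fun y : ℂ × ℝ => (T.b * star y.1).re) :=
    (Complex.reCLM.comp (T.b • (Complex.conjCLE : ℂ →L[ℝ] ℂ))).contDiff.comp contDiff_fst
  have h4 : ContDiff ℝ ⊤ (fun y : ℂ × ℝ => T.q y.1) :=
    ((contDiff_const.mul h2).add (contDiff_const.mul h3)).add contDiff_const
  exact h1.prodMk ((contDiff_snd.add h4).div_const _)

theorem Tr.I1_m_inj (T : Tr) {μ ν : ℂ} (h : T.m μ = T.m ν) : μ = ν := by
  have h0 : T.d2 / T.d3 ≠ 0 := div_ne_zero T.h2 T.h3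
  have h' : T.d2 / T.d3 * μ + T.β = T.d2 / T.d3 * ν + T.β := h
  exact mul_left_cancel₀ h0 (add_right_cancel h')

theorem Tr.I1_G_inj (T : Tr) : Function.Injective T.G := by
  intro x y h
  have h1 : T.m x.1 = T.m y.1 := congrArg Prod.fst h
  have h2 : T.tr x.1 x.2 = T.tr y.1 y.2 := congrArg Prod.snd h
  have h3 := T.I1_m_inj h1
  have hd : ‖T.d3‖ ^ 2 ≠ 0 := pow_ne_zero _ (norm_ne_zero_iff.mpr T.h3)
  refine Prod.ext h3 ?_
  have h2' : (x.2 + T.q x.1) / ‖T.d3‖ ^ 2 = (y.2 + T.q y.1) / ‖T.d3‖ ^ 2 := h2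
  rw [h3] at h2'
  have := (div_left_inj' hd).mp h2'
  linarith

theorem I1_map_mul (α : ℂ) (hα : α ≠ 0) (β : ℂ) :
    Measure.map (fun μ : ℂ => α * μ + β) volume = ENNReal.ofReal ((‖α‖ ^ 2)⁻¹) • volume := by
  have h1 : LinearMap.det ((Algebra.lmul ℝ ℂ) α) = ‖α‖ ^ 2 := by
    rw [← Algebra.norm_apply, Algebra.norm_complex_apply, Complex.normSq_eq_norm_sq]
  have h0 : ‖α‖ ^ 2 ≠ 0 := pow_ne_zero _ (norm_ne_zero_iff.mpr hα)
  have h2 := Measure.map_linearMap_addHaar_eq_smul_addHaar (volume : Measure ℂ)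
    (f := (Algebra.lmul ℝ ℂ) α) (by rw [h1]; exact h0)
  rw [h1, abs_of_nonneg (by positivity)] at h2
  have h3 : (fun μ : ℂ => α * μ + β) = (fun z : ℂ => z + β) ∘ (⇑((Algebra.lmul ℝ ℂ) α)) := by
    funext μ; simp
  have hm : Measurable (⇑((Algebra.lmul ℝ ℂ) α)) := by
    have : (⇑((Algebra.lmul ℝ ℂ) α)) = fun μ : ℂ => α * μ := by funext μ; simp
    rw [this]; exact measurable_const_mul α
  rw [h3, ← Measure.map_map (measurable_add_const β) hm, h2, Measure.map_smul,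
    map_add_right_eq_self]

theorem I1_map_real (c d : ℝ) (hd : 0 < d) :
    Measure.map (fun t : ℝ => (t + c) / d) volume = ENNReal.ofReal d • volume := by
  have h3 : (fun t : ℝ => (t + c) / d) = (fun z : ℝ => z * d⁻¹) ∘ (fun z : ℝ => z + c) := by
    funext t; simp [div_eq_mul_inv]
  have h4 := Real.map_volume_mul_right (a := d⁻¹) (inv_ne_zero hd.ne')
  rw [inv_inv, abs_of_pos hd] at h4
  rw [h3, ← Measure.map_map (measurable_mul_const _) (measurable_add_const c),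
    map_add_right_eq_self, h4]

theorem Tr.I1_mp (T : Tr) : MeasurePreserving T.G (volume.prod volume)
    ((ENNReal.ofReal ((‖T.d2 / T.d3‖ ^ 2)⁻¹) • volume).prod
      (ENNReal.ofReal (‖T.d3‖ ^ 2) • volume)) := by
  have hd : 0 < ‖T.d3‖ ^ 2 := pow_pos (norm_pos_iff.mpr T.h3) 2
  have h1 : MeasurePreserving T.m volume (ENNReal.ofReal ((‖T.d2 / T.d3‖ ^ 2)⁻¹) • volume) := by
    refine ⟨?_, I1_map_mul _ (div_ne_zero T.h2 T.h3) _⟩
    exact (measurable_const_mul _).add_const _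
  refine h1.skew_product (g := T.tr) ?_ (Eventually.of_forall fun μ => I1_map_real _ _ hd)
  have := T.I1_G_contDiff.continuous.snd
  exact this.measurable

/-- change of variables for the chart map of a transition -/
theorem Tr.I1_integral_G (T : Tr) (f : ℂ × ℝ → ℂ) :
    ∫ x, f x = ((‖T.d2‖ ^ 2 / ‖T.d3‖ ^ 4 : ℝ) : ℂ) * ∫ x, f (T.G x) := by
  have hd : 0 < ‖T.d3‖ := norm_pos_iff.mpr T.h3
  have hd2 : 0 < ‖T.d2‖ := norm_pos_iff.mpr T.h2
  have hme : MeasurableEmbedding T.G :=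
    T.I1_G_contDiff.continuous.measurableEmbedding T.I1_G_inj
  have h1 := T.I1_mp.integral_comp hme f
  rw [Measure.volume_eq_prod, h1, Measure.prod_smul_left, Measure.prod_smul_right, smul_smul,
    integral_smul_measure, ENNReal.toReal_mul, ENNReal.toReal_ofReal (by positivity),
    ENNReal.toReal_ofReal (by positivity), Complex.real_smul, ← mul_assoc, ← Complex.ofReal_mul]
  have : ‖T.d2‖ ^ 2 / ‖T.d3‖ ^ 4 * ((‖T.d2 / T.d3‖ ^ 2)⁻¹ * ‖T.d3‖ ^ 2) = 1 := by
    rw [norm_div]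
    field_simp
  rw [this, Complex.ofReal_one, one_mul]

/-- the derivatives of a function composed with a transition -/
theorem Tr.I1_dtm_comp (T : Tr) {φ : ℂ × ℝ → ℂ} (hφ : Differentiable ℝ φ) (x : ℂ × ℝ) :
    dtm (fun y => φ (T.G y)) x = ((‖T.d3‖ ^ 2 : ℝ) : ℂ)⁻¹ * dtm φ (T.G x) := by
  obtain ⟨D, hD, hv⟩ := T.I1_G_fderiv x
  have h1 : HasFDerivAt (fun y => φ (T.G y)) ((fderiv ℝ φ (T.G x)).comp D) x :=
    (hφ (T.G x)).hasFDerivAt.comp x hD
  have h2 : D (0, 1) = ((‖T.d3‖ ^ 2)⁻¹ : ℝ) • ((0, 1) : ℂ × ℝ) := by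
    rw [hv]; simp
  unfold dtm
  rw [h1.fderiv, ContinuousLinearMap.comp_apply, h2, map_smul, Complex.real_smul,
    Complex.ofReal_inv]

theorem I1_lin (L : (ℂ × ℝ) →L[ℝ] ℂ) (z : ℂ) (c : ℝ) :
    L (z, c) = (z.re : ℂ) * L (1, 0) + (z.im : ℂ) * L (Complex.I, 0) + (c : ℂ) * L (0, 1) := by
  have h : ((z, c) : ℂ × ℝ) = z.re • ((1, 0) : ℂ × ℝ) + z.im • ((Complex.I, 0) : ℂ × ℝ) +
      c • ((0, 1) : ℂ × ℝ) := by
    refine Prod.ext ?_ ?_
    · simp
    · simp
  rw [h, map_add, map_add, map_smul, map_smul, map_smul]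
  simp only [Complex.real_smul]

theorem Tr.I1_dbm_comp (T : Tr) {φ : ℂ × ℝ → ℂ} (hφ : Differentiable ℝ φ) (x : ℂ × ℝ) :
    dbm (fun y => φ (T.G y)) x = star (T.d2 / T.d3) * dbm φ (T.G x) +
      T.dq x.1 * dtm (fun y => φ (T.G y)) x := by
  rw [T.I1_dtm_comp hφ x]
  obtain ⟨D, hD, hv⟩ := T.I1_G_fderiv x
  have h1 : HasFDerivAt (fun y => φ (T.G y)) ((fderiv ℝ φ (T.G x)).comp D) x :=
    (hφ (T.G x)).hasFDerivAt.comp x hD
  unfold dbm dtm
  rw [h1.fderiv, ContinuousLinearMap.comp_apply, ContinuousLinearMap.comp_apply, hv, hv]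
  set L := fderiv ℝ φ (T.G x)
  rw [I1_lin L, I1_lin L (T.d2 / T.d3 * (Complex.I, (0 : ℝ)).1)]
  have hd : ((‖T.d3‖ ^ 2 : ℝ) : ℂ) ≠ 0 := by
    exact_mod_cast pow_ne_zero _ (norm_ne_zero_iff.mpr T.h3)
  set z := T.d2 / T.d3
  set d := T.dq x.1
  set N : ℝ := ‖T.d3‖ ^ 2
  have hz : star z = (z.re : ℂ) - z.im * Complex.I := by
    apply Complex.ext <;> simp
  have hdd : d = (d.re : ℂ) + d.im * Complex.I := (Complex.re_add_im d).symm
  have e1 : (d * star ((1, (0:ℝ)) : ℂ × ℝ).1).re = d.re := by simp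
  have e2 : (d * star ((Complex.I, (0:ℝ)) : ℂ × ℝ).1).re = d.im := by simp
  have e3 : (z * ((1, (0:ℝ)) : ℂ × ℝ).1) = z := by simp
  have e4 : (z * ((Complex.I, (0:ℝ)) : ℂ × ℝ).1).re = - z.im := by simp
  have e5 : (z * ((Complex.I, (0:ℝ)) : ℂ × ℝ).1).im = z.re := by simp
  rw [e1, e2, e3, e4, e5, hz]
  generalize L (1, 0) = L1
  generalize L (Complex.I, 0) = L2
  generalize L (0, 1) = L3
  push_cast
  have hI : Complex.I ^ 2 = -1 := Complex.I_sq
  have h2 : (d : ℂ) * ((N : ℂ)⁻¹ * L3) = ((d.re : ℂ) + d.im * Complex.I) * ((N : ℂ)⁻¹ * L3) := by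
    rw [← hdd]
  rw [h2]
  field_simp
  ring_nf
  rw [hI]
  ring


/-! ### cut-off products -/

theorem I1_dtm_off {φ : ℂ × ℝ → ℂ} {x : ℂ × ℝ} (hx : x ∉ tsupport φ) : dtm φ x = 0 := by
  have h : fderiv ℝ φ x = 0 := by
    by_contra h
    exact hx (support_fderiv_subset ℝ h)
  unfold dtm
  rw [h]; simp

theorem I1_dbm_off {φ : ℂ × ℝ → ℂ} {x : ℂ × ℝ} (hx : x ∉ tsupport φ) : dbm φ x = 0 := by
  have h : fderiv ℝ φ x = 0 := by
    by_contra h
    exact hx (support_fderiv_subset ℝ h)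
  unfold dbm
  rw [h]; simp

theorem I1_dtm_cont {φ : ℂ × ℝ → ℂ} (hφ : ContDiff ℝ 1 φ) : Continuous (dtm φ) :=
  (hφ.continuous_fderiv one_ne_zero).clm_apply continuous_const

theorem I1_dbm_cont {φ : ℂ × ℝ → ℂ} (hφ : ContDiff ℝ 1 φ) : Continuous (dbm φ) := by
  have h := hφ.continuous_fderiv one_ne_zero
  exact continuous_const.mul ((h.clm_apply continuous_const).add
    (continuous_const.mul (h.clm_apply continuous_const)))

/-- a product with a function supported in an open set is continuous -/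
theorem I1_cont_mul {K U : Set (ℂ × ℝ)} (hK : IsClosed K) (hU : IsOpen U) (hKU : K ⊆ U)
    {f g : ℂ × ℝ → ℂ} (hf : ContinuousOn f U) (hg : Continuous g) (h0 : ∀ x ∉ K, g x = 0) :
    Continuous fun x => f x * g x := by
  rw [continuous_iff_continuousAt]
  intro x
  by_cases hx : x ∈ K
  · exact (hf.continuousAt (hU.mem_nhds (hKU hx))).mul hg.continuousAt
  · have h1 : ∀ᶠ y in 𝓝 x, y ∉ K := hK.isOpen_compl.mem_nhds hx
    have h2 : (fun _ => (0 : ℂ)) =ᶠ[𝓝 x] fun y => f y * g y := by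
      filter_upwards [h1] with y hy
      rw [h0 y hy, mul_zero]
    exact continuousAt_const.congr h2

theorem I1_integrable_mul {K U : Set (ℂ × ℝ)} (hK : IsCompact K) (hU : IsOpen U) (hKU : K ⊆ U)
    {f g : ℂ × ℝ → ℂ} (hf : ContinuousOn f U) (hg : Continuous g) (h0 : ∀ x ∉ K, g x = 0) :
    Integrable fun x => f x * g x := by
  refine (I1_cont_mul hK.isClosed hU hKU hf hg h0).integrable_of_hasCompactSupport ?_
  refine HasCompactSupport.intro hK fun x hx => ?_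
  rw [h0 x hx, mul_zero]

theorem I1_contDiff_mul {K U : Set (ℂ × ℝ)} (hK : IsClosed K) (hU : IsOpen U) (hKU : K ⊆ U)
    {f g : ℂ × ℝ → ℂ} (hf : ContDiffOn ℝ 1 f U) (hg : ContDiff ℝ 1 g) (h0 : ∀ x ∉ K, g x = 0) :
    ContDiff ℝ 1 fun x => f x * g x := by
  rw [contDiff_iff_contDiffAt]
  intro x
  by_cases hx : x ∈ K
  · exact (hf.contDiffAt (hU.mem_nhds (hKU hx))).mul hg.contDiffAt
  · have h1 : ∀ᶠ y in 𝓝 x, y ∉ K := hK.isOpen_compl.mem_nhds hx
    have h2 : (fun y => f y * g y) =ᶠ[𝓝 x] fun _ => (0 : ℂ) := by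
      filter_upwards [h1] with y hy
      rw [h0 y hy, mul_zero]
    exact contDiffAt_const.congr_of_eventuallyEq h2

/-- the integral of a directional derivative of a compactly supported function is zero -/
theorem I1_int_fderiv {F : ℂ × ℝ → ℂ} (hF : ContDiff ℝ 1 F) (hc : HasCompactSupport F)
    (v : ℂ × ℝ) : Integrable (fun x => fderiv ℝ F x v) ∧ ∫ x, fderiv ℝ F x v = 0 := by
  have h1 : Continuous fun x => fderiv ℝ F x v :=
    (hF.continuous_fderiv one_ne_zero).clm_apply continuous_const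
  have h2 : HasCompactSupport fun x => fderiv ℝ F x v := by
    refine HasCompactSupport.intro hc fun x hx => ?_
    have h : fderiv ℝ F x = 0 := by
      by_contra h
      exact hx (support_fderiv_subset ℝ h)
    rw [h]; simp
  have h3 := h1.integrable_of_hasCompactSupport (μ := volume) h2
  refine ⟨h3, ?_⟩
  haveI : (volume : Measure (ℂ × ℝ)).IsAddHaarMeasure := by
    rw [Measure.volume_eq_prod]; infer_instance
  have h4 := integral_mul_fderiv_eq_neg_fderiv_mul_of_integrable (μ := (volume : Measure (ℂ × ℝ)))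
    (𝕜 := ℂ) (f := fun _ => (1 : ℂ)) (g := F) (v := v) (by simp) (by simpa using h3)
    (by simpa using hF.continuous.integrable_of_hasCompactSupport hc)
    (fun x _ => differentiableAt_const _) (fun x _ => hF.differentiable one_ne_zero x)
  simpa using h4

theorem I1_int_dtm {F : ℂ × ℝ → ℂ} (hF : ContDiff ℝ 1 F) (hc : HasCompactSupport F) :
    Integrable (dtm F) ∧ ∫ x, dtm F x = 0 := I1_int_fderiv hF hc (0, 1)

theorem I1_int_dbm {F : ℂ × ℝ → ℂ} (hF : ContDiff ℝ 1 F) (hc : HasCompactSupport F) :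
    Integrable (dbm F) ∧ ∫ x, dbm F x = 0 := by
  obtain ⟨h1, h2⟩ := I1_int_fderiv hF hc (1, 0)
  obtain ⟨h3, h4⟩ := I1_int_fderiv hF hc (Complex.I, 0)
  refine ⟨(h1.add (h3.const_mul _)).const_mul _, ?_⟩
  unfold dbm
  rw [integral_const_mul, integral_add h1 (h3.const_mul _), integral_const_mul, h2, h4]
  simp

theorem I1_dtm_mul {f g : ℂ × ℝ → ℂ} {x : ℂ × ℝ} (hf : DifferentiableAt ℝ f x)
    (hg : DifferentiableAt ℝ g x) :
    dtm (fun y => f y * g y) x = f x * dtm g x + dtm f x * g x := by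
  unfold dtm
  rw [fderiv_fun_mul hf hg]
  simp
  ring

theorem I1_dbm_mul {f g : ℂ × ℝ → ℂ} {x : ℂ × ℝ} (hf : DifferentiableAt ℝ f x)
    (hg : DifferentiableAt ℝ g x) :
    dbm (fun y => f y * g y) x = f x * dbm g x + dbm f x * g x := by
  unfold dbm
  rw [fderiv_fun_mul hf hg]
  simp
  ring

theorem I1_hol {L : (ℂ × ℝ × ℂ) →L[ℝ] ℂ} (h : L (0, 0, Complex.I) = Complex.I * L (0, 0, 1))
    (v : ℂ) : L (0, 0, v) = v * L (0, 0, 1) := by
  have e : ((0, 0, v) : ℂ × ℝ × ℂ) = v.re • ((0, 0, 1) : ℂ × ℝ × ℂ) +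
      v.im • ((0, 0, Complex.I) : ℂ × ℝ × ℂ) := by
    refine Prod.ext ?_ (Prod.ext ?_ ?_)
    · simp
    · simp
    · simp
  rw [e, map_add, map_smul, map_smul, h, Complex.real_smul, Complex.real_smul, ← mul_assoc,
    ← add_mul, Complex.re_add_im]

/-- a function `a` which is holomorphic in `μ` and does not depend on `t` satisfies the law
classically -/
theorem I1_classical {N : Set (ℂ × ℝ × ℂ)} {p q : ℂ × ℝ × ℂ → ℂ} (hL : Law N p q)
    (φ : ℂ × ℝ → ℂ) (hφ : ContDiff ℝ 1 φ) (hφc : HasCompactSupport φ) (a : ℂ → ℂ)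
    (ha : Differentiable ℂ a) (hN : ∀ x ∈ tsupport φ, (x.1, x.2, a x.1) ∈ N) :
    ∫ x : ℂ × ℝ, (p (x.1, x.2, a x.1) * dbm φ x + q (x.1, x.2, a x.1) * dtm φ x) = 0 := by
  have haC : ContDiff ℝ 1 a := (ha.contDiff (n := 1)).restrict_scalars ℝ
  set S : ℂ × ℝ → ℂ × ℝ × ℂ := fun x => (x.1, x.2, a x.1) with hS
  have hSC : ContDiff ℝ 1 S := contDiff_fst.prodMk (contDiff_snd.prodMk (haC.comp contDiff_fst))
  set U : Set (ℂ × ℝ) := S ⁻¹' N with hUdef
  have hU : IsOpen U := hL.isOpen.preimage hSC.continuous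
  have hKU : tsupport φ ⊆ U := fun x hx => hN x hx
  have hP : ContDiffOn ℝ 1 (fun x => p (S x)) U := hL.smp.comp hSC.contDiffOn fun x hx => hx
  have hQ : ContDiffOn ℝ 1 (fun x => q (S x)) U := hL.smq.comp hSC.contDiffOn fun x hx => hx
  have h0 : ∀ x ∉ tsupport φ, φ x = 0 := fun x hx => image_eq_zero_of_notMem_tsupport hx
  have hF := I1_contDiff_mul (isClosed_tsupport φ) hU hKU hP hφ h0
  have hH := I1_contDiff_mul (isClosed_tsupport φ) hU hKU hQ hφ h0
  have hFc : HasCompactSupport fun x => p (S x) * φ x :=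
    HasCompactSupport.intro hφc fun x hx => by rw [h0 x hx, mul_zero]
  have hHc : HasCompactSupport fun x => q (S x) * φ x :=
    HasCompactSupport.intro hφc fun x hx => by rw [h0 x hx, mul_zero]
  obtain ⟨i1, i2⟩ := I1_int_dbm hF hFc
  obtain ⟨i3, i4⟩ := I1_int_dtm hH hHc
  have key : ∀ x, p (S x) * dbm φ x + q (S x) * dtm φ x =
      dbm (fun x => p (S x) * φ x) x + dtm (fun x => q (S x) * φ x) x := by
    intro x
    by_cases hx : x ∈ tsupport φ
    · have hxU : x ∈ U := hKU hx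
      have dP : DifferentiableAt ℝ (fun x => p (S x)) x :=
        (hP.contDiffAt (hU.mem_nhds hxU)).differentiableAt one_ne_zero
      have dQ : DifferentiableAt ℝ (fun x => q (S x)) x :=
        (hQ.contDiffAt (hU.mem_nhds hxU)).differentiableAt one_ne_zero
      have dφ : DifferentiableAt ℝ φ x := hφ.differentiable one_ne_zero x
      rw [I1_dbm_mul dP dφ, I1_dtm_mul dQ dφ]
      suffices hs : dbm (fun x => p (S x)) x + dtm (fun x => q (S x)) x = 0 by
        have : dbm (fun x => p (S x)) x * φ x + dtm (fun x => q (S x)) x * φ x = 0 := by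
          rw [← add_mul, hs, zero_mul]
        linear_combination -this
      have dp : HasFDerivAt p (fderiv ℝ p (S x)) (S x) :=
        ((hL.smp.contDiffAt (hL.isOpen.mem_nhds hxU)).differentiableAt one_ne_zero).hasFDerivAt
      have dq : HasFDerivAt q (fderiv ℝ q (S x)) (S x) :=
        ((hL.smq.contDiffAt (hL.isOpen.mem_nhds hxU)).differentiableAt one_ne_zero).hasFDerivAt
      have da : HasFDerivAt (fun y : ℂ × ℝ => a y.1)
          (((ContinuousLinearMap.toSpanSingleton ℂ (deriv a x.1)).restrictScalars ℝ).comp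
            (ContinuousLinearMap.fst ℝ ℂ ℝ)) x :=
        ((ha x.1).hasDerivAt.hasFDerivAt.restrictScalars ℝ).comp x
          (hasFDerivAt_fst (𝕜 := ℝ) (p := x))
      have dS : HasFDerivAt S ((ContinuousLinearMap.fst ℝ ℂ ℝ).prod
          ((ContinuousLinearMap.snd ℝ ℂ ℝ).prod
          (((ContinuousLinearMap.toSpanSingleton ℂ (deriv a x.1)).restrictScalars ℝ).comp
            (ContinuousLinearMap.fst ℝ ℂ ℝ)))) x :=
        (hasFDerivAt_fst (𝕜 := ℝ) (p := x)).prodMk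
          ((hasFDerivAt_snd (𝕜 := ℝ) (p := x)).prodMk da)
      have cP : fderiv ℝ (fun x => p (S x)) x = _ := (dp.comp x dS).fderiv
      have cQ : fderiv ℝ (fun x => q (S x)) x = _ := (dq.comp x dS).fderiv
      unfold dbm dtm
      rw [cP, cQ]
      simp only [ContinuousLinearMap.comp_apply, ContinuousLinearMap.prod_apply,
        ContinuousLinearMap.coe_fst', ContinuousLinearMap.coe_snd',
        ContinuousLinearMap.coe_restrictScalars', ContinuousLinearMap.toSpanSingleton_apply,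
        smul_eq_mul, one_mul, zero_mul]
      have hlin := fun v => I1_hol (hL.hp (S x) hxU) v
      have s1 : fderiv ℝ p (S x) (1, 0, deriv a x.1) = fderiv ℝ p (S x) (1, 0, 0) +
          deriv a x.1 * fderiv ℝ p (S x) (0, 0, 1) := by
        rw [← hlin, ← map_add]; simp
      have s2 : fderiv ℝ p (S x) (Complex.I, 0, Complex.I * deriv a x.1) =
          fderiv ℝ p (S x) (Complex.I, 0, 0) +
          Complex.I * deriv a x.1 * fderiv ℝ p (S x) (0, 0, 1) := by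
        rw [← hlin, ← map_add]; simp
      rw [s1, s2]
      have hlaw := hL.law (S x) hxU
      have hI : Complex.I * Complex.I = -1 := Complex.I_mul_I
      linear_combination hlaw + (1 / 2) * deriv a x.1 * fderiv ℝ p (S x) (0, 0, 1) * hI
    · rw [I1_dbm_off hx, I1_dtm_off hx]
      have hx1 : x ∉ tsupport (fun x => p (S x) * φ x) := fun h =>
        hx (tsupport_mul_subset_right h)
      have hx2 : x ∉ tsupport (fun x => q (S x) * φ x) := fun h =>
        hx (tsupport_mul_subset_right h)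
      rw [I1_dbm_off hx1, I1_dtm_off hx2]
      simp
  rw [integral_congr_ae (Eventually.of_forall key), integral_add i1 i3, i2, i4, add_zero]

/-- differences of `p` and `q` along a segment in the last variable -/
theorem I1_segment {N : Set (ℂ × ℝ × ℂ)} {p q : ℂ × ℝ × ℂ → ℂ} (hL : Law N p q) (μ : ℂ) (t : ℝ)
    (a b : ℂ) (h : ∀ s ∈ Set.Icc (0 : ℝ) 1, (μ, t, a + s * b) ∈ N) :
    p (μ, t, a + b) - p (μ, t, a) =
      ∫ s in (0 : ℝ)..1, b * fderiv ℝ p (μ, t, a + s * b) (0, 0, 1) ∧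
    q (μ, t, a + b) - q (μ, t, a) =
      ∫ s in (0 : ℝ)..1, (a + s * b) * (b * fderiv ℝ p (μ, t, a + s * b) (0, 0, 1)) := by
  have hS : ∀ s : ℝ, HasDerivAt (fun s : ℝ => ((μ, t, a + s * b) : ℂ × ℝ × ℂ)) (0, 0, b) s := by
    intro s
    have h1 : HasDerivAt (fun s : ℝ => a + (s : ℂ) * b) b s := by
      have := ((Complex.ofRealCLM.hasDerivAt (x := s)).mul_const b).const_add a
      simpa using this
    exact (hasDerivAt_const s μ).prodMk ((hasDerivAt_const s t).prodMk h1)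
  have hSc : Continuous (fun s : ℝ => ((μ, t, a + s * b) : ℂ × ℝ × ℂ)) :=
    continuous_iff_continuousAt.mpr fun s => (hS s).continuousAt
  have hc1 : ContinuousOn (fun s : ℝ => fderiv ℝ p (μ, t, a + s * b) (0, 0, 1))
      (Set.uIcc (0 : ℝ) 1) := by
    rw [Set.uIcc_of_le zero_le_one]
    have := (hL.smp.continuousOn_fderiv_of_isOpen hL.isOpen le_rfl).comp
      hSc.continuousOn (s := Set.Icc (0 : ℝ) 1) fun s hs => h s hs
    exact this.clm_apply continuousOn_const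
  have hc2 : ContinuousOn (fun s : ℝ => b * fderiv ℝ p (μ, t, a + s * b) (0, 0, 1))
      (Set.uIcc (0 : ℝ) 1) := continuousOn_const.mul hc1
  have hc3 : ContinuousOn (fun s : ℝ => (a + s * b) *
      (b * fderiv ℝ p (μ, t, a + s * b) (0, 0, 1))) (Set.uIcc (0 : ℝ) 1) :=
    (Continuous.continuousOn (by fun_prop)).mul hc2
  constructor
  · have hd : ∀ s ∈ Set.uIcc (0 : ℝ) 1, HasDerivAt (fun s : ℝ => p (μ, t, a + s * b))
        (b * fderiv ℝ p (μ, t, a + s * b) (0, 0, 1)) s := by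
      intro s hs
      rw [Set.uIcc_of_le zero_le_one] at hs
      have hm := h s hs
      have dp : HasFDerivAt p (fderiv ℝ p (μ, t, a + s * b)) (μ, t, a + s * b) :=
        ((hL.smp.contDiffAt (hL.isOpen.mem_nhds hm)).differentiableAt one_ne_zero).hasFDerivAt
      have := dp.comp_hasDerivAt s (hS s)
      rwa [I1_hol (hL.hp _ hm)] at this
    have := intervalIntegral.integral_eq_sub_of_hasDerivAt hd hc2.intervalIntegrable
    rw [this]
    simp
  · have hd : ∀ s ∈ Set.uIcc (0 : ℝ) 1, HasDerivAt (fun s : ℝ => q (μ, t, a + s * b))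
        ((a + s * b) * (b * fderiv ℝ p (μ, t, a + s * b) (0, 0, 1))) s := by
      intro s hs
      rw [Set.uIcc_of_le zero_le_one] at hs
      have hm := h s hs
      have dq : HasFDerivAt q (fderiv ℝ q (μ, t, a + s * b)) (μ, t, a + s * b) :=
        ((hL.smq.contDiffAt (hL.isOpen.mem_nhds hm)).differentiableAt one_ne_zero).hasFDerivAt
      have := dq.comp_hasDerivAt s (hS s)
      rwa [hL.hq _ hm, I1_hol (hL.hp _ hm)] at this
    have := intervalIntegral.integral_eq_sub_of_hasDerivAt hd hc3.intervalIntegrable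
    rw [this]
    simp

/-- module I1: localisation -/
theorem loc_bound (T : Tr) (A A' : ℂ → ℝ → ℂ) (hA : Continuous fun x : ℂ × ℝ => A x.1 x.2)
    (hA' : Continuous fun x : ℂ × ℝ => A' x.1 x.2) (hc : T.Cmp A A')
    {N : Set (ℂ × ℝ × ℂ)} {p q : ℂ × ℝ × ℂ → ℂ} (hL : Law N p q)
    (φ : ℂ × ℝ → ℂ) (hφ : ContDiff ℝ 1 φ) (hφc : HasCompactSupport φ)
    (r B B' L : ℝ) (hr : 0 ≤ r) (hB : 0 ≤ B) (hB' : 0 ≤ B') (hL0 : 0 ≤ L)
    (h1 : tsupport φ ⊆ T.G '' (Metric.closedBall 0 r ×ˢ Set.Icc (-r) r))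
    (h2 : ∀ μ t, ‖μ‖ ≤ r → |t| ≤ r → ‖A' μ t‖ ≤ B')
    (h3 : ∀ μ t, ‖μ‖ ≤ r → |t| ≤ r → T.G (μ, t) ∈ tsupport φ → ∀ s ∈ Set.Icc (0 : ℝ) 1,
      (T.m μ, T.tr μ t, T.κ * (s * A' μ t + T.dq μ)) ∈ N ∧
      ‖fderiv ℝ p (T.m μ, T.tr μ t, T.κ * (s * A' μ t + T.dq μ)) (0, 0, 1)‖ ≤ B)
    (h4 : ∀ x, ‖dbm (fun y => φ (T.G y)) x‖ ≤ L ∧ ‖dtm (fun y => φ (T.G y)) x‖ ≤ L) :
    ‖TT A p q φ‖ ≤ 8 * (r + 1) ^ 3 * B * B' * (1 + B') * L * (‖T.d3‖ ^ 4)⁻¹ := by
  have hd3 : 0 < ‖T.d3‖ := norm_pos_iff.mpr T.h3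
  have hd2 : 0 < ‖T.d2‖ := norm_pos_iff.mpr T.h2
  have hα : T.d2 / T.d3 ≠ 0 := div_ne_zero T.h2 T.h3
  -- the holomorphic comparison function
  set a0 : ℂ → ℂ := fun ν => T.κ * T.dq ((ν - T.β) / (T.d2 / T.d3)) with ha0
  have ha0m : ∀ μ, a0 (T.m μ) = T.κ * T.dq μ := by
    intro μ
    have : (T.m μ - T.β) / (T.d2 / T.d3) = μ := by
      unfold Tr.m
      rw [add_sub_cancel_right, mul_div_cancel_left₀ _ hα]
    simp only [ha0, this]
  have ha0d : Differentiable ℂ a0 := by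
    have : Differentiable ℂ fun ν : ℂ => T.κ * ((T.a : ℂ) * ((ν - T.β) / (T.d2 / T.d3)) + T.b) :=
      by fun_prop
    exact this
  have hpt : ∀ x ∈ tsupport φ, ∃ y : ℂ × ℝ, ‖y.1‖ ≤ r ∧ |y.2| ≤ r ∧ T.G y = x := by
    intro x hx
    obtain ⟨y, hy, hyx⟩ := h1 hx
    refine ⟨y, ?_, ?_, hyx⟩
    · simpa using hy.1
    · exact abs_le.mpr hy.2
  have hN0 : ∀ x ∈ tsupport φ, (x.1, x.2, a0 x.1) ∈ N := by
    intro x hx
    obtain ⟨y, hy1, hy2, rfl⟩ := hpt x hx
    have := (h3 y.1 y.2 hy1 hy2 hx 0 ⟨le_rfl, zero_le_one⟩).1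
    simp only [Complex.ofReal_zero, zero_mul, zero_add] at this
    show (T.m y.1, T.tr y.1 y.2, a0 (T.m y.1)) ∈ N
    rw [ha0m]; exact this
  have hN1 : ∀ x ∈ tsupport φ, (x.1, x.2, A x.1 x.2) ∈ N := by
    intro x hx
    obtain ⟨y, hy1, hy2, rfl⟩ := hpt x hx
    have := (h3 y.1 y.2 hy1 hy2 hx 1 ⟨zero_le_one, le_rfl⟩).1
    simp only [Complex.ofReal_one, one_mul] at this
    show (T.m y.1, T.tr y.1 y.2, A (T.m y.1) (T.tr y.1 y.2)) ∈ N
    rw [hc]; exact this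
  -- integrability
  have hint : ∀ a : ℂ × ℝ → ℂ, Continuous a → (∀ x ∈ tsupport φ, (x.1, x.2, a x) ∈ N) →
      Integrable fun x : ℂ × ℝ => p (x.1, x.2, a x) * dbm φ x + q (x.1, x.2, a x) * dtm φ x := by
    intro a ha hNa
    have hS : Continuous fun x : ℂ × ℝ => ((x.1, x.2, a x) : ℂ × ℝ × ℂ) := by fun_prop
    set U : Set (ℂ × ℝ) := (fun x : ℂ × ℝ => ((x.1, x.2, a x) : ℂ × ℝ × ℂ)) ⁻¹' N
    have hU : IsOpen U := hL.isOpen.preimage hS
    have hKU : tsupport φ ⊆ U := fun x hx => hNa x hx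
    have c1 : ContinuousOn (fun x : ℂ × ℝ => p (x.1, x.2, a x)) U :=
      hL.smp.continuousOn.comp hS.continuousOn fun x hx => hx
    have c2 : ContinuousOn (fun x : ℂ × ℝ => q (x.1, x.2, a x)) U :=
      hL.smq.continuousOn.comp hS.continuousOn fun x hx => hx
    exact (I1_integrable_mul hφc hU hKU c1 (I1_dbm_cont hφ) fun x hx => I1_dbm_off hx).add
      (I1_integrable_mul hφc hU hKU c2 (I1_dtm_cont hφ) fun x hx => I1_dtm_off hx)
  have i1 := hint (fun x => A x.1 x.2) hA hN1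
  have i0 := hint (fun x => a0 x.1) (ha0d.continuous.comp continuous_fst) hN0
  have hcl := I1_classical hL φ hφ hφc a0 ha0d hN0
  set F : ℂ × ℝ → ℂ := fun x =>
    (p (x.1, x.2, A x.1 x.2) - p (x.1, x.2, a0 x.1)) * dbm φ x +
      (q (x.1, x.2, A x.1 x.2) - q (x.1, x.2, a0 x.1)) * dtm φ x with hF
  have hTT : TT A p q φ = ∫ x, F x := by
    have : (fun x => F x) = fun x : ℂ × ℝ =>
        (p (x.1, x.2, A x.1 x.2) * dbm φ x + q (x.1, x.2, A x.1 x.2) * dtm φ x) -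
        (p (x.1, x.2, a0 x.1) * dbm φ x + q (x.1, x.2, a0 x.1) * dtm φ x) := by
      funext x; simp only [hF]; ring
    rw [this, integral_sub i1 i0, hcl, sub_zero]
    rfl
  -- the pointwise bound
  have hψd : Differentiable ℝ φ := hφ.differentiable one_ne_zero
  set C : ℝ := B * B' * (1 + B') * L / ‖T.d2‖ ^ 2 with hC
  have hC0 : 0 ≤ C := by positivity
  have hbound : ∀ y : ℂ × ℝ, ‖F (T.G y)‖ ≤ C := by
    intro y
    by_cases hy : T.G y ∈ tsupport φ
    · obtain ⟨y', hy1, hy2, hyy⟩ := hpt _ hy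
      have hyy' : y' = y := T.I1_G_inj hyy
      subst hyy'
      set dqv := T.dq y'.1 with hdqv
      set Av := A' y'.1 y'.2 with hAv
      have hseg : ∀ s ∈ Set.Icc (0 : ℝ) 1,
          (T.m y'.1, T.tr y'.1 y'.2, T.κ * dqv + s * (T.κ * Av)) ∈ N ∧
          ‖fderiv ℝ p (T.m y'.1, T.tr y'.1 y'.2, T.κ * dqv + s * (T.κ * Av)) (0, 0, 1)‖ ≤ B := by
        intro s hs
        have := h3 y'.1 y'.2 hy1 hy2 hy s hs
        have e : T.κ * dqv + s * (T.κ * Av) = T.κ * (s * A' y'.1 y'.2 + T.dq y'.1) := by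
          rw [hdqv, hAv]; ring
        rw [e]; exact this
      obtain ⟨s1, s2⟩ := I1_segment hL (T.m y'.1) (T.tr y'.1 y'.2) (T.κ * dqv) (T.κ * Av)
        fun s hs => (hseg s hs).1
      have hAe : A (T.m y'.1) (T.tr y'.1 y'.2) = T.κ * dqv + T.κ * Av := by
        rw [hc, hdqv, hAv]; ring
      have hFe : F (T.G y') = (p (T.m y'.1, T.tr y'.1 y'.2, T.κ * dqv + T.κ * Av) -
            p (T.m y'.1, T.tr y'.1 y'.2, T.κ * dqv)) * dbm φ (T.G y') +
          (q (T.m y'.1, T.tr y'.1 y'.2, T.κ * dqv + T.κ * Av) -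
            q (T.m y'.1, T.tr y'.1 y'.2, T.κ * dqv)) * dtm φ (T.G y') := by
        show (p (T.m y'.1, T.tr y'.1 y'.2, A (T.m y'.1) (T.tr y'.1 y'.2)) -
            p (T.m y'.1, T.tr y'.1 y'.2, a0 (T.m y'.1))) * dbm φ (T.G y') +
          (q (T.m y'.1, T.tr y'.1 y'.2, A (T.m y'.1) (T.tr y'.1 y'.2)) -
            q (T.m y'.1, T.tr y'.1 y'.2, a0 (T.m y'.1))) * dtm φ (T.G y') = _
        rw [hAe, ha0m]
      rw [hFe, s1, s2, ← intervalIntegral.integral_mul_const,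
        ← intervalIntegral.integral_mul_const]
      -- integrability on the segment
      have hSc : Continuous (fun s : ℝ =>
          ((T.m y'.1, T.tr y'.1 y'.2, T.κ * dqv + s * (T.κ * Av)) : ℂ × ℝ × ℂ)) := by fun_prop
      have hc1 : ContinuousOn (fun s : ℝ => fderiv ℝ p
          (T.m y'.1, T.tr y'.1 y'.2, T.κ * dqv + s * (T.κ * Av)) (0, 0, 1))
          (Set.uIcc (0 : ℝ) 1) := by
        rw [Set.uIcc_of_le zero_le_one]
        have := (hL.smp.continuousOn_fderiv_of_isOpen hL.isOpen le_rfl).comp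
          hSc.continuousOn (s := Set.Icc (0 : ℝ) 1) fun s hs => (hseg s hs).1
        exact this.clm_apply continuousOn_const
      have j1 : IntervalIntegrable (fun s : ℝ => T.κ * Av * fderiv ℝ p
          (T.m y'.1, T.tr y'.1 y'.2, T.κ * dqv + s * (T.κ * Av)) (0, 0, 1) * dbm φ (T.G y'))
          volume 0 1 :=
        ((continuousOn_const.mul hc1).mul continuousOn_const).intervalIntegrable
      have j2 : IntervalIntegrable (fun s : ℝ => (T.κ * dqv + s * (T.κ * Av)) *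
          (T.κ * Av * fderiv ℝ p
          (T.m y'.1, T.tr y'.1 y'.2, T.κ * dqv + s * (T.κ * Av)) (0, 0, 1)) * dtm φ (T.G y'))
          volume 0 1 :=
        (((Continuous.continuousOn (by fun_prop)).mul
          (continuousOn_const.mul hc1)).mul continuousOn_const).intervalIntegrable
      rw [← intervalIntegral.integral_add j1 j2]
      have hfin : ∀ s ∈ Set.uIoc (0 : ℝ) 1, ‖T.κ * Av * fderiv ℝ p
          (T.m y'.1, T.tr y'.1 y'.2, T.κ * dqv + s * (T.κ * Av)) (0, 0, 1) * dbm φ (T.G y') +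
          (T.κ * dqv + s * (T.κ * Av)) * (T.κ * Av * fderiv ℝ p
          (T.m y'.1, T.tr y'.1 y'.2, T.κ * dqv + s * (T.κ * Av)) (0, 0, 1)) * dtm φ (T.G y')‖
          ≤ C := by
        intro s hs
        rw [Set.uIoc_of_le zero_le_one] at hs
        have hs' : s ∈ Set.Icc (0 : ℝ) 1 := ⟨hs.1.le, hs.2⟩
        have hBs := (hseg s hs').2
        set E := fderiv ℝ p (T.m y'.1, T.tr y'.1 y'.2, T.κ * dqv + s * (T.κ * Av)) (0, 0, 1)
        have e1 := T.I1_dtm_comp hψd y'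
        have e2 := T.I1_dbm_comp hψd y'
        obtain ⟨b1, b2⟩ := h4 y'
        set X := dbm (fun y => φ (T.G y)) y'
        set Y := dtm (fun y => φ (T.G y)) y'
        have hd3c : ((‖T.d3‖ ^ 2 : ℝ) : ℂ) = T.d3 * star T.d3 := by
          rw [Complex.star_def, Complex.mul_conj, Complex.normSq_eq_norm_sq]
        have hsd2 : star T.d2 ≠ 0 := star_ne_zero.mpr T.h2
        have hsd3 : star T.d3 ≠ 0 := star_ne_zero.mpr T.h3
        have h3' := T.h3
        have e1' : dtm φ (T.G y') = T.d3 * star T.d3 * Y := by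
          rw [e1, hd3c]
          field_simp
        have e2' : dbm φ (T.G y') = (star T.d3 / star T.d2) * (X - dqv * Y) := by
          rw [e2, star_div₀]
          field_simp
          ring
        have hid : T.κ * Av * E * dbm φ (T.G y') +
            (T.κ * dqv + s * (T.κ * Av)) * (T.κ * Av * E) * dtm φ (T.G y') =
            T.κ * Av * E * ((star T.d3 / star T.d2) * (X + s * Av * Y)) := by
          rw [e1', e2']
          unfold Tr.κ
          field_simp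
          ring
        rw [hid]
        have nκ : ‖T.κ‖ = (‖T.d2‖ * ‖T.d3‖)⁻¹ := by
          unfold Tr.κ
          rw [norm_inv, norm_mul, norm_star]
        have hAb : ‖Av‖ ≤ B' := h2 y'.1 y'.2 hy1 hy2
        have hsn : ‖(s : ℂ)‖ ≤ 1 := by
          rw [Complex.norm_real, Real.norm_eq_abs, abs_of_nonneg hs'.1]; exact hs'.2
        have n1 : ‖X + s * Av * Y‖ ≤ (1 + B') * L := by
          calc ‖X + s * Av * Y‖ ≤ ‖X‖ + ‖(s : ℂ) * Av * Y‖ := norm_add_le _ _
            _ = ‖X‖ + ‖(s : ℂ)‖ * ‖Av‖ * ‖Y‖ := by rw [norm_mul, norm_mul]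
            _ ≤ L + 1 * B' * L := by gcongr
            _ = (1 + B') * L := by ring
        calc ‖T.κ * Av * E * ((star T.d3 / star T.d2) * (X + s * Av * Y))‖
            = (‖T.d2‖ * ‖T.d3‖)⁻¹ * ‖Av‖ * ‖E‖ * ((‖T.d3‖ / ‖T.d2‖) * ‖X + s * Av * Y‖) := by
              rw [norm_mul, norm_mul, norm_mul, norm_mul, nκ, norm_div, norm_star, norm_star]
          _ ≤ (‖T.d2‖ * ‖T.d3‖)⁻¹ * B' * B * ((‖T.d3‖ / ‖T.d2‖) * ((1 + B') * L)) := by
              gcongr
          _ = C := by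
              rw [hC]
              field_simp
      have := intervalIntegral.norm_integral_le_of_norm_le_const hfin
      simpa using this
    · have : F (T.G y) = 0 := by
        simp only [hF]
        rw [I1_dbm_off hy, I1_dtm_off hy]
        simp
      rw [this, norm_zero]
      exact hC0
  -- the change of variables
  set box : Set (ℂ × ℝ) := Metric.closedBall 0 r ×ˢ Set.Icc (-r) r with hbox
  have hoff : ∀ y ∉ box, F (T.G y) = 0 := by
    intro y hy
    have hy' : T.G y ∉ tsupport φ := by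
      intro h
      obtain ⟨y', hy1, hyy⟩ := h1 h
      exact hy (T.I1_G_inj hyy ▸ hy1)
    simp only [hF]
    rw [I1_dbm_off hy', I1_dtm_off hy']
    simp
  have hvol : (volume : Measure (ℂ × ℝ)) box = ENNReal.ofReal (r ^ 2 * Real.pi * (2 * r)) := by
    rw [hbox, Measure.volume_eq_prod, Measure.prod_prod, Complex.volume_closedBall,
      Real.volume_Icc]
    rw [ENNReal.ofReal_mul (by positivity), ENNReal.ofReal_mul (by positivity),
      ENNReal.ofReal_pow hr]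
    congr 2
    · rw [← NNReal.coe_real_pi, ENNReal.ofReal_coe_nnreal]
    · ring
  have hI : ‖∫ y, F (T.G y)‖ ≤ C * (r ^ 2 * Real.pi * (2 * r)) := by
    rw [← setIntegral_eq_integral_of_forall_compl_eq_zero hoff]
    have := norm_setIntegral_le_of_norm_le_const (μ := (volume : Measure (ℂ × ℝ))) (s := box)
      (f := fun y => F (T.G y)) (C := C) (by rw [hvol]; exact ENNReal.ofReal_lt_top)
      fun y _ => hbound y
    rwa [Measure.real, hvol, ENNReal.toReal_ofReal (by positivity)] at this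
  rw [hTT, T.I1_integral_G, norm_mul, Complex.norm_real, Real.norm_eq_abs,
    abs_of_nonneg (by positivity)]
  have hpi : Real.pi ≤ 4 := Real.pi_le_four
  have hr3 : r ^ 3 ≤ (r + 1) ^ 3 := pow_le_pow_left₀ hr (by linarith) 3
  calc ‖T.d2‖ ^ 2 / ‖T.d3‖ ^ 4 * ‖∫ y, F (T.G y)‖
      ≤ ‖T.d2‖ ^ 2 / ‖T.d3‖ ^ 4 * (C * (r ^ 2 * Real.pi * (2 * r))) := by gcongr
    _ = 2 * Real.pi * r ^ 3 * B * B' * (1 + B') * L * (‖T.d3‖ ^ 4)⁻¹ := by
        rw [hC]
        field_simp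
    _ ≤ 2 * 4 * (r + 1) ^ 3 * B * B' * (1 + B') * L * (‖T.d3‖ ^ 4)⁻¹ := by gcongr
    _ = 8 * (r + 1) ^ 3 * B * B' * (1 + B') * L * (‖T.d3‖ ^ 4)⁻¹ := by ring

end Pool.Agent.MPd01a95.KT
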