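import Mathlib
import Pool.Agent.Lib.MP_d01a95_gt_K.KDefs2
import Pool.Agent.Lib.MP_d01a95_gt_K.KA1
import Pool.Agent.Lib.MP_d01a95_gt_K.KA2
import Pool.Agent.Lib.MP_d01a95_gt_K.KA4
import Pool.Agent.Lib.MP_d01a95_gt_K.KF0
import Pool.Agent.Lib.MP_d01a95_gt_K.KF6
import Pool.Agent.Lib.MP_d01a95_gt_K.KH1
import Pool.Agent.Lib.MP_d01a95_gt_K.KH2
import Pool.Agent.Lib.MP_d01a95_gt_K.KH3
import Pool.Agent.Lib.MP_d01a95_gt_K.KH4

set_option autoImplicit false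
set_option linter.all false

open Matrix Filter Topology MeasureTheory
open scoped ContDiff

namespace Pool.Agent.MPd01a95.KT

open GU

variable {G : Type} [Group G]

/-- the matrix of a transition -/
noncomputable def I2_Mx (T : Tr) : M4 :=
  !![(star T.d2)⁻¹, 0, T.a / star T.d2, T.b / star T.d2;
     -(star T.β / star T.d2), (star T.d3)⁻¹,
       star T.b / star T.d3 - T.a * star T.β / star T.d2,
       T.e / star T.d3 - star T.β * T.b / star T.d2;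
     0, 0, T.d2, T.d3 * T.β;
     0, 0, 0, T.d3]

theorem I2_mat {g k k' : M4} {T : Tr} (hg : Iso4 g) (hk : k ∈ KK) (hk' : k' ∈ KK)
    (h : Rel g k k' T) : kᴴ * g * k' = I2_Mx T := by
  have key : ∀ w z : V4, g *ᵥ (k' *ᵥ w) = k *ᵥ z → (kᴴ * g * k') *ᵥ w = z := by
    intro w z hw
    rw [← Matrix.mulVec_mulVec, ← Matrix.mulVec_mulVec, hw, Matrix.mulVec_mulVec, hk.1,
      Matrix.one_mulVec]
  have n2 : (starRingEnd ℂ) T.d2 ≠ 0 := star_ne_zero.mpr T.h2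
  have n3 : (starRingEnd ℂ) T.d3 ≠ 0 := star_ne_zero.mpr T.h3
  obtain ⟨p, hp⟩ := h.r0
  have hX := h.act 0 0 0
  have hX1 := h.act 0 1 0
  have h33 : ((‖T.d3‖ ^ 2 : ℝ) : ℂ) = T.d3 * (starRingEnd ℂ) T.d3 := by
    rw [Complex.mul_conj, Complex.normSq_eq_norm_sq]
  have h33' : ((‖T.d3‖ : ℝ) : ℂ) ^ 2 = T.d3 * (starRingEnd ℂ) T.d3 := by
    rw [← h33]; push_cast; rfl
  have hb : (2 : ℂ) * ((T.b.re : ℝ) : ℂ) = T.b + (starRingEnd ℂ) T.b := by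
    rw [Complex.add_conj]; push_cast; ring
  -- the coefficient `p`
  have hp' : p = -((starRingEnd ℂ) T.β / (starRingEnd ℂ) T.d2) := by
    have h1 := hg (k' *ᵥ e0) (k' *ᵥ XX 0 0 0)
    rw [hp, hX] at h1
    have h2 : (star T.d2)⁻¹ • (k *ᵥ e0) + p • (k *ᵥ e1) =
        k *ᵥ ((star T.d2)⁻¹ • e0 + p • e1) := by
      rw [Matrix.mulVec_add, Matrix.mulVec_smul, Matrix.mulVec_smul]
    rw [h2, ← Matrix.mulVec_smul, hk.2, hk'.2] at h1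
    simp [fc, XX, e0, e1, Tr.m, Pi.single_apply] at h1
    rw [← sub_eq_zero]
    have h4 : p * (starRingEnd ℂ) T.d3 + (starRingEnd ℂ) T.d3 * (starRingEnd ℂ) T.β /
        (starRingEnd ℂ) T.d2 = 0 := by
      linear_combination h1
    field_simp at h4 ⊢
    have h5 : (starRingEnd ℂ) T.d3 * (p * (starRingEnd ℂ) T.d2 + (starRingEnd ℂ) T.β) = 0 := by
      linear_combination h4
    rcases mul_eq_zero.mp h5 with h6 | h6
    · exact absurd h6 n3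
    · linear_combination h6
  have c0 := key e0 ((star T.d2)⁻¹ • e0 + p • e1) (by
    rw [hp, Matrix.mulVec_add, Matrix.mulVec_smul, Matrix.mulVec_smul])
  have c1 := key e1 ((star T.d3)⁻¹ • e1) (by rw [h.r1, Matrix.mulVec_smul])
  have c3 := key (XX 0 0 0) (T.d3 • XX (T.κ * (0 + T.dq 0)) (T.m 0) (T.t 0 0))
    (by rw [hX, Matrix.mulVec_smul])
  have c23 := key (XX 0 1 0) (T.d3 • XX (T.κ * (0 + T.dq 1)) (T.m 1) (T.t 1 0))
    (by rw [hX1, Matrix.mulVec_smul])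
  have x3 : XX 0 0 0 = Pi.single 3 1 := by
    ext i; fin_cases i <;> simp [XX]
  have x23 : XX 0 1 0 = Pi.single 2 1 + Pi.single 3 1 := by
    ext i; fin_cases i <;> simp [XX]
  rw [x3] at c3
  rw [x23, Matrix.mulVec_add, c3] at c23
  set M := kᴴ * g * k' with hM
  have d : ∀ i j : Fin 4, M i j = (M *ᵥ Pi.single j 1) i := fun i j => by
    rw [F0.mulVec_single_one]
  have d0 : ∀ i, M i 0 = ((star T.d2)⁻¹ • e0 + p • e1 : V4) i := fun i => by rw [d, ← c0]; rfl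
  have d1 : ∀ i, M i 1 = ((star T.d3)⁻¹ • e1 : V4) i := fun i => by rw [d, ← c1]; rfl
  have d3 : ∀ i, M i 3 = (T.d3 • XX (T.κ * (0 + T.dq 0)) (T.m 0) (T.t 0 0) : V4) i :=
    fun i => by rw [d, ← c3]
  have d2 : ∀ i, M i 2 = (T.d3 • XX (T.κ * (0 + T.dq 1)) (T.m 1) (T.t 1 0) : V4) i -
      (T.d3 • XX (T.κ * (0 + T.dq 0)) (T.m 0) (T.t 0 0) : V4) i := fun i => by
    rw [d, ← c23]
    simp
  clear_value M
  ext i j
  fin_cases j
  · simp only [Fin.zero_eta, d0]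
    fin_cases i <;> simp [I2_Mx, e0, e1, hp', Pi.single_apply]
  · simp only [Fin.mk_one, d1]
    fin_cases i <;> simp [I2_Mx, e0, e1, hp', Pi.single_apply]
  · change M i 2 = _
    rw [d2]
    have h3 := T.h3
    have h2 := T.h2
    fin_cases i <;> simp [I2_Mx, XX, Tr.κ, Tr.dq, Tr.m, Tr.t, Tr.q]
    · field_simp
      ring
    · rw [hb, h33']
      field_simp
      ring
    · field_simp
      ring
  · change M i 3 = _
    rw [d3]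
    have h3 := T.h3
    have h2 := T.h2
    fin_cases i <;> simp [I2_Mx, XX, Tr.κ, Tr.dq, Tr.m, Tr.t, Tr.q]
    · field_simp
    · rw [h33']
      field_simp

theorem I2_kk' {k : M4} (hk : kᴴ * k = 1) : k * kᴴ = 1 := mul_eq_one_comm.mp hk

theorem I2_entry {k : M4} (hk : kᴴ * k = 1) (i j : Fin 4) : ‖k i j‖ ≤ 1 :=
  entry_norm_bound_of_unitary (Matrix.mem_unitaryGroup_iff'.mpr hk) i j

theorem I2_s1 {k : M4} (hk : kᴴ * k = 1) : s1 k ≤ 1 := F0.s1_le zero_le_one (I2_entry hk)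

theorem I2_s1' {k : M4} (hk : kᴴ * k = 1) : s1 kᴴ ≤ 1 := I2_s1 (by
  rw [Matrix.conjTranspose_conjTranspose]; exact I2_kk' hk)

theorem I2_s2 {k : M4} (hk : kᴴ * k = 1) : s2 k ≤ 2 := by
  have h1 := s2_le k
  have h2 := I2_s1 hk
  have h3 := F0.s1_nonneg k
  nlinarith

theorem I2_s2' {k : M4} (hk : kᴴ * k = 1) : s2 kᴴ ≤ 2 := I2_s2 (by
  rw [Matrix.conjTranspose_conjTranspose]; exact I2_kk' hk)

theorem I2_sz {g k k' : M4} (hk : kᴴ * k = 1) (hk' : k'ᴴ * k' = 1) :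
    s1 (kᴴ * g * k') ≤ 16 * s1 g ∧ s2 (kᴴ * g * k') ≤ 1024 * s2 g := by
  have a1 := s1_mul (kᴴ * g) k'
  have a2 := s1_mul kᴴ g
  have a3 := I2_s1 hk'
  have a4 := I2_s1' hk
  have b1 := s2_mul (kᴴ * g) k'
  have b2 := s2_mul kᴴ g
  have b3 := I2_s2 hk'
  have b4 := I2_s2' hk
  have p1 := F0.s1_nonneg g
  have p2 := F0.s1_nonneg (kᴴ * g)
  have p3 := F0.s1_nonneg k'
  have p4 := F0.s1_nonneg kᴴ
  have q1 := F0.s2_nonneg g
  have q2 := F0.s2_nonneg (kᴴ * g)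
  have q3 := F0.s2_nonneg k'
  have q4 := F0.s2_nonneg kᴴ
  constructor
  · have h1 : s1 (kᴴ * g) ≤ 4 * s1 g := by nlinarith
    have h2 : s1 (kᴴ * g) * s1 k' ≤ s1 (kᴴ * g) * 1 := mul_le_mul_of_nonneg_left a3 p2
    linarith
  · have h1 : s2 (kᴴ * g) ≤ 32 * s2 g := by nlinarith
    have h2 : s2 (kᴴ * g) * s2 k' ≤ s2 (kᴴ * g) * 2 := mul_le_mul_of_nonneg_left b3 q2
    linarith

theorem I2_sz' {g k k' : M4} (hk : kᴴ * k = 1) (hk' : k'ᴴ * k' = 1) :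
    s1 g ≤ 16 * s1 (kᴴ * g * k') ∧ s2 g ≤ 1024 * s2 (kᴴ * g * k') := by
  have e : g = kᴴᴴ * (kᴴ * g * k') * k'ᴴ := by
    rw [Matrix.conjTranspose_conjTranspose]
    calc g = (k * kᴴ) * g * (k' * k'ᴴ) := by rw [I2_kk' hk, I2_kk' hk']; simp
      _ = k * (kᴴ * g * k') * k'ᴴ := by simp only [Matrix.mul_assoc]
  have := I2_sz (g := kᴴ * g * k') (k := kᴴ) (k' := k'ᴴ)
    (by rw [Matrix.conjTranspose_conjTranspose]; exact I2_kk' hk)
    (by rw [Matrix.conjTranspose_conjTranspose]; exact I2_kk' hk')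
  rw [← e] at this
  exact this

/-- a rotation of the frame -/
noncomputable def I2_U : M4 :=
  !![3 / 5, 0, 4 / 5, 0; 0, 1, 0, 0; -(4 / 5), 0, 3 / 5, 0; 0, 0, 0, 1]

theorem I2_U_one : I2_Uᴴ * I2_U = 1 := by
  ext i j
  have h3 : (starRingEnd ℂ) 3 = 3 := map_ofNat _ _
  have h4 : (starRingEnd ℂ) 4 = 4 := map_ofNat _ _
  have h5 : (starRingEnd ℂ) 5 = 5 := map_ofNat _ _
  fin_cases i <;> fin_cases j <;>
    simp [I2_U, Matrix.mul_apply, Fin.sum_univ_four, h3, h4, h5] <;> norm_num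

theorem I2_U_form (Z W : V4) : fc (I2_U *ᵥ Z) (I2_U *ᵥ W) = fc Z W := by
  simp [fc, I2_U, Matrix.mulVec, dotProduct, Fin.sum_univ_four]
  ring

theorem I2_U_mem {k : M4} (hk : k ∈ KK) : k * I2_U ∈ KK := by
  refine ⟨?_, fun Z W => ?_⟩
  · rw [Matrix.conjTranspose_mul]
    calc I2_Uᴴ * kᴴ * (k * I2_U) = I2_Uᴴ * (kᴴ * k) * I2_U := by simp only [Matrix.mul_assoc]
      _ = 1 := by rw [hk.1, Matrix.mul_one, I2_U_one]
  · rw [← Matrix.mulVec_mulVec, ← Matrix.mulVec_mulVec, hk.2, I2_U_form]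

theorem I2_U_e1 (k : M4) : (k * I2_U) *ᵥ e1 = k *ᵥ e1 := by
  rw [← Matrix.mulVec_mulVec]
  congr 1
  ext i
  fin_cases i <;> simp [I2_U, e1]

/-- if the last row of a matrix is a multiple of the last unit vector, the minors are bounded
by the other columns -/
theorem I2_minor {M : M4} {K s : ℝ} (hK : 0 ≤ K) (hs : s1 M ≤ s) (h3 : ∀ j, j ≠ 3 → M 3 j = 0)
    (h33 : M 3 3 ≠ 0) (h : ∀ i j, j ≠ 3 → ‖M i j‖ ≤ K) : s2 M ≤ 4 * K * s := by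
  have hs0 : 0 ≤ s := (F0.s1_nonneg M).trans hs
  have hn : ∀ i, ‖M i‖ ≤ s := fun i =>
    (pi_norm_le_iff_of_nonneg hs0).mpr fun j => (F0.le_s1 M i j).trans hs
  have e3 : ‖M 3‖ = ‖M 3 3‖ := by
    refine le_antisymm ((pi_norm_le_iff_of_nonneg (norm_nonneg _)).mpr fun j => ?_)
      (norm_le_pi_norm _ _)
    by_cases hj : j = 3
    · rw [hj]
    · rw [h3 j hj, norm_zero]; exact norm_nonneg _
  have hp : 0 < ‖M 3‖ := by rw [e3]; exact norm_pos_iff.mpr h33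
  have hw : ∀ i, wd (M i) (M 3) ≤ K * ‖M 3‖ := by
    intro i
    refine F0.wd_le_of (by positivity) fun j j' => ?_
    by_cases hj : j = 3
    · by_cases hj' : j' = 3
      · rw [hj, hj', sub_self, norm_zero]; positivity
      · rw [hj, h3 j' hj', mul_zero, zero_sub, norm_neg, norm_mul, e3]
        exact mul_le_mul_of_nonneg_right (h i j' hj') (norm_nonneg _)
    · rw [h3 j hj, mul_zero, sub_zero, norm_mul]
      exact mul_le_mul (h i j hj) (norm_le_pi_norm _ _) (norm_nonneg _) hK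
  have hw2 : ∀ i i', wd (M i) (M i') ≤ 4 * K * s := by
    intro i i'
    have h1 := wd_tri (M i) (M 3) (M i')
    rw [F0.wd_symm (M 3) (M i')] at h1
    have h2 : wd (M i) (M 3) * ‖M i'‖ ≤ K * ‖M 3‖ * s :=
      mul_le_mul (hw i) (hn i') (norm_nonneg _) (by positivity)
    have h4 : wd (M i') (M 3) * ‖M i‖ ≤ K * ‖M 3‖ * s :=
      mul_le_mul (hw i') (hn i) (norm_nonneg _) (by positivity)
    have h5 : wd (M i) (M i') * ‖M 3‖ ≤ 4 * K * s * ‖M 3‖ := by linarith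
    exact le_of_mul_le_mul_right h5 hp
  refine F0.s2_le_of (by positivity) fun i i' j j' => ?_
  exact (F0.le_wd (M i) (M i') j j').trans (hw2 i i')

namespace Kd

variable (D : Kd G)

/-- inequalities between the coefficients and the sizes -/
theorem I2_raw {g : G} {k k' : M4} (hk : k ∈ D.FF) (hk' : k' ∈ D.FF) {T : Tr}
    (h : Rel (D.R g) k k' T) : ‖T.d3‖ ≤ 16 * s1 (D.R g) ∧ ‖T.d2‖ * ‖T.d3‖ ≤ 1024 * s2 (D.R g) ∧
      ‖T.d3‖ ≤ 1024 * (‖T.d2‖ * s2 (D.R g)) ∧ ‖T.d2‖ ≤ 1024 * (‖T.d3‖ * s2 (D.R g)) ∧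
      1 ≤ 1024 * (‖T.d2‖ * ‖T.d3‖ * s2 (D.R g)) ∧
      ‖D.R g⁻¹ *ᵥ D.xi (D.t0 k)‖ ≤ 2 * ‖T.d3‖ ∧ ‖T.d3‖ ≤ 2 * ‖D.R g⁻¹ *ᵥ D.xi (D.t0 k)‖ := by
  obtain ⟨a1, a2⟩ := I2_sz (g := D.R g) hk.1.1 hk'.1.1
  rw [I2_mat (D.pres g) hk.1 hk'.1 h] at a1 a2
  have b1 := F0.le_s1 (I2_Mx T) 3 3
  have c1 := F0.le_s2 (I2_Mx T) 2 3 2 3
  have c2 := F0.le_s2 (I2_Mx T) 0 3 0 3
  have c3 := F0.le_s2 (I2_Mx T) 1 2 1 2
  have c4 := F0.le_s2 (I2_Mx T) 0 1 0 1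
  generalize s1 (I2_Mx T) = S1 at *
  generalize s2 (I2_Mx T) = S2 at *
  simp [I2_Mx] at b1 c1 c2 c3 c4
  have p2 : 0 < ‖T.d2‖ := norm_pos_iff.mpr T.h2
  have p3 : 0 < ‖T.d3‖ := norm_pos_iff.mpr T.h3
  obtain ⟨T', h1, h2, h3, -, -⟩ := D.rel_inv h
  obtain ⟨e1, e2, -⟩ := D.rel_size hk' hk h1
  rw [h3, inv_inv] at e1 e2
  refine ⟨b1.trans a1, c1.trans a2, ?_, ?_, ?_, e1, e2⟩
  · have := c2.trans a2
    rw [inv_mul_le_iff₀ p2] at this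
    linarith
  · have := c3.trans a2
    rw [inv_mul_le_iff₀ p3] at this
    linarith
  · have := c4.trans a2
    rw [inv_mul_le_iff₀ p2, inv_le_iff_one_le_mul₀ p3] at this
    linarith

/-- module I2: sizes of the coefficients of a transition, far from the point at infinity -/
theorem coef_far (δ : ℝ) (hδ : 0 < δ) : ∃ a C : ℝ, 0 < a ∧ ∀ g, ∀ k ∈ D.FF, ∀ k' ∈ D.FF,
    ∀ T : Tr, Rel (D.R g) k k' T → δ ≤ kp (zz (D.σ g)) (D.t0 k) →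
      a * s1 (D.R g) ≤ ‖T.d3‖ ∧ ‖T.d3‖ ≤ C * s1 (D.R g) ∧
      ‖T.d2‖ * s1 (D.R g) ≤ C * s2 (D.R g) ∧ a * s1 (D.R g) ≤ ‖T.d2‖ * s2 (D.R g) := by
  obtain ⟨a, ha, h⟩ := D.exp_far δ hδ
  refine ⟨a / 2048, 16 + 2048 / a, by positivity, fun g k hk k' hk' T hT hf => ?_⟩
  obtain ⟨r1, r2, r3, -, -, r6, -⟩ := D.I2_raw hk hk' hT
  have h1 := h g (D.t0 k) (D.t0_spec hk).1 hf
  have p1 : 0 ≤ s1 (D.R g) := F0.s1_nonneg _
  have p2 : 0 ≤ s2 (D.R g) := F0.s2_nonneg _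
  have q2 : 0 < ‖T.d2‖ := norm_pos_iff.mpr T.h2
  have h3 : a * s1 (D.R g) ≤ 2 * ‖T.d3‖ := h1.trans r6
  have h4 : 0 ≤ 2048 / a := by positivity
  have h5 : 0 ≤ a * s1 (D.R g) := by positivity
  refine ⟨by linarith, ?_, ?_, ?_⟩
  · nlinarith
  · have h6 : a * (‖T.d2‖ * s1 (D.R g)) ≤ 2048 * s2 (D.R g) := by nlinarith
    have h7 : ‖T.d2‖ * s1 (D.R g) ≤ 2048 / a * s2 (D.R g) := by
      rw [div_mul_eq_mul_div, le_div_iff₀ ha]
      linarith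
    linarith
  · linarith

/-- module I2: the same, near the point at infinity -/
theorem coef_near (C : ℝ) : ∃ a C' : ℝ, 0 < a ∧ ∀ g, ∀ k ∈ D.FF, ∀ k' ∈ D.FF,
    ∀ T : Tr, Rel (D.R g) k k' T → Near C (D.σ g) (D.t0 k) →
      ‖T.d3‖ * s1 (D.R g) ≤ C' ∧ a ≤ ‖T.d3‖ * s1 (D.R g) ∧
      ‖T.d2‖ * s1 (D.R g) ≤ C' * s2 (D.R g) ∧ a * s1 (D.R g) ≤ ‖T.d2‖ * s2 (D.R g) := by
  obtain ⟨K, hK, h⟩ := D.con_near C
  refine ⟨(2048 * K)⁻¹, 2048 * K, by positivity, fun g k hk k' hk' T hT hf => ?_⟩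
  obtain ⟨r1, -, -, r4, r5, r6, r7⟩ := D.I2_raw hk hk' hT
  obtain ⟨h1, h2⟩ := h g (D.t0 k) (D.t0_spec hk).1 hf
  have p1 : 0 ≤ s1 (D.R g) := F0.s1_nonneg _
  have p2 : 0 ≤ s2 (D.R g) := F0.s2_nonneg _
  have q2 : 0 < ‖T.d2‖ := norm_pos_iff.mpr T.h2
  have q3 : 0 < ‖T.d3‖ := norm_pos_iff.mpr T.h3
  have h3 : ‖T.d3‖ * s1 (D.R g) ≤ 2 * K := by nlinarith
  have h4 : 1 ≤ 2 * K * (‖T.d3‖ * s1 (D.R g)) := by
    have : ‖D.R g⁻¹ *ᵥ D.xi (D.t0 k)‖ * s1 (D.R g) ≤ 2 * (‖T.d3‖ * s1 (D.R g)) := by nlinarith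
    nlinarith
  have hK0 : 0 < 2048 * K := by positivity
  have q4 : 0 ≤ ‖T.d3‖ * s1 (D.R g) := by positivity
  refine ⟨by linarith, ?_, ?_, ?_⟩
  · rw [inv_le_iff_one_le_mul₀ hK0]
    nlinarith
  · have h5 := mul_le_mul_of_nonneg_right r4 p1
    have h6 : s2 (D.R g) * (‖T.d3‖ * s1 (D.R g)) ≤ s2 (D.R g) * (2 * K) :=
      mul_le_mul_of_nonneg_left h3 p2
    linarith
  · rw [inv_mul_le_iff₀ hK0]
    have h5 := mul_le_mul_of_nonneg_right r5 p1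
    have h6 : (‖T.d2‖ * s2 (D.R g)) * (‖T.d3‖ * s1 (D.R g)) ≤ (‖T.d2‖ * s2 (D.R g)) * (2 * K) :=
      mul_le_mul_of_nonneg_left h3 (by positivity)
    linarith

theorem I2_U_FF {k : M4} (hk : k ∈ D.FF) : k * I2_U ∈ D.FF :=
  ⟨I2_U_mem hk.1, by rw [I2_U_e1]; exact hk.2⟩

theorem I2_t0 {k k' : M4} (h : k *ᵥ e1 = k' *ᵥ e1) : D.t0 k = D.t0 k' := by
  unfold t0
  generalize k *ᵥ e1 = v at h ⊢
  subst h
  rfl

/-- module I2: uniform version of `coef_two` -/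
theorem I2_two (δ : ℝ) (hδ : 0 < δ) : ∃ a : ℝ, 0 < a ∧ ∀ g, ∀ k ∈ D.FF, ∀ k' ∈ D.FF,
    ∀ k₂' ∈ D.FF, ∀ T T₂ : Tr, Rel (D.R g) k k' T → Rel (D.R g) (k * I2_U) k₂' T₂ →
      δ ≤ kp (zz (D.σ g)) (D.t0 k) →
        a * s2 (D.R g) ≤ max ‖T.d2‖ ‖T₂.d2‖ * s1 (D.R g) := by
  obtain ⟨a, C, ha, h⟩ := D.coef_far δ hδ
  set A : ℝ := 16 / a + 1 with hA
  have hA1 : 1 ≤ A := by
    have : 0 < 16 / a := by positivity
    linarith
  refine ⟨(65536 * (7 * A + 6))⁻¹, by positivity, ?_⟩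
  intro g k hk k' hk' k₂' hk₂' T T₂ hT hT₂ hf
  obtain ⟨h1, -, -, -⟩ := h g k hk k' hk' T hT hf
  obtain ⟨z1, -⟩ := I2_sz (g := D.R g) hk.1.1 hk'.1.1
  obtain ⟨-, z2⟩ := I2_sz' (g := D.R g) hk.1.1 hk'.1.1
  have hM := I2_mat (D.pres g) hk.1 hk'.1 hT
  have hM₂ := I2_mat (D.pres g) (I2_U_mem hk.1) hk₂'.1 hT₂
  have hV : I2_Uᴴ * (kᴴ * D.R g * k') = (((k * I2_U)ᴴ * D.R g * k₂')) * (k₂'ᴴ * k') := by
    calc I2_Uᴴ * (kᴴ * D.R g * k') = (I2_Uᴴ * kᴴ) * D.R g * ((k₂' * k₂'ᴴ) * k') := by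
          rw [I2_kk' hk₂'.1.1, Matrix.one_mul]; simp only [Matrix.mul_assoc]
      _ = _ := by rw [Matrix.conjTranspose_mul]; simp only [Matrix.mul_assoc]
  rw [hM, hM₂] at hV
  rw [hM] at z1 z2
  have hVs : ∀ i j, ‖(k₂'ᴴ * k') i j‖ ≤ 4 := fun i j => by
    have y1 := s1_mul k₂'ᴴ k'
    have y2 := I2_s1 hk'.1.1
    have y3 := I2_s1' hk₂'.1.1
    have y4 := F0.s1_nonneg k'
    have y5 := F0.s1_nonneg k₂'ᴴ
    have y6 := F0.le_s1 (k₂'ᴴ * k') i j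
    nlinarith
  have hpar : ∃ ζ : ℂ, k₂' *ᵥ e1 = ζ • (k' *ᵥ e1) := by
    refine ⟨(star T₂.d3)⁻¹ * star T.d3, ?_⟩
    have q1 := hT.r1
    have q2 := hT₂.r1
    rw [I2_U_e1] at q2
    obtain ⟨-, -, -, -, e2, -⟩ := iso_inv (D.F0_iso g)
    have q3 := congrArg (fun v => (D.R g)⁻¹ *ᵥ v) q1
    have q4 := congrArg (fun v => (D.R g)⁻¹ *ᵥ v) q2
    simp only [Matrix.mulVec_smul] at q3 q4
    rw [Matrix.mulVec_mulVec, e2, Matrix.one_mulVec] at q3 q4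
    rw [q3, q4, smul_smul]
    have n3 : star T.d3 ≠ 0 := star_ne_zero.mpr T.h3
    rw [mul_assoc, mul_inv_cancel₀ n3, mul_one]
  have hV3 : ∀ j, j ≠ 3 → (k₂'ᴴ * k') 3 j = 0 := by
    intro j hj
    obtain ⟨ζ, hζ⟩ := hpar
    have q1 := hk₂'.1.2 ((k₂'ᴴ * k') *ᵥ Pi.single j 1) e1
    rw [Matrix.mulVec_mulVec, ← Matrix.mul_assoc, I2_kk' hk₂'.1.1, Matrix.one_mul, hζ,
      ← Matrix.mulVec_smul, hk'.1.2, F0.mulVec_single_one] at q1
    have hj' : (3 : Fin 4) ≠ j := fun h => hj h.symm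
    simp [fc, e1, hj', Pi.single_apply] at q1
    exact q1
  have g2 : 0 < ‖T.d2‖ := norm_pos_iff.mpr T.h2
  have g3 : 0 < ‖T.d3‖ := norm_pos_iff.mpr T.h3
  set m := max ‖T.d2‖ ‖T₂.d2‖ with hm
  have m1 : ‖T.d2‖ ≤ m := le_max_left _ _
  have m2 : ‖T₂.d2‖ ≤ m := le_max_right _ _
  have E0 := congrFun (congrFun hV 2) 0
  have E2 := congrFun (congrFun hV 2) 2
  rw [Matrix.mul_apply, Matrix.mul_apply] at E0 E2
  rw [Fin.sum_univ_four, Fin.sum_univ_four] at E0 E2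
  rw [hV3 0 (by decide)] at E0
  rw [hV3 2 (by decide)] at E2
  have b20 := hVs 2 0
  have b22 := hVs 2 2
  generalize (k₂'ᴴ * k') 2 0 = v0 at E0 b20
  generalize (k₂'ᴴ * k') 2 2 = v2 at E2 b22
  have h4 : (starRingEnd ℂ) 4 = 4 := map_ofNat _ _
  have h5 : (starRingEnd ℂ) 5 = 5 := map_ofNat _ _
  have h3 : (starRingEnd ℂ) 3 = 3 := map_ofNat _ _
  simp [I2_Mx, I2_U, h3, h4, h5] at E0 E2
  have m0 : 0 < m := lt_of_lt_of_le g2 m1
  have n00 : ‖T.d2‖⁻¹ ≤ 5 * m := by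
    have := congrArg norm E0
    simp at this
    have h6 : ‖T₂.d2‖ * ‖v0‖ ≤ m * 4 := mul_le_mul m2 b20 (norm_nonneg _) m0.le
    linarith
  have n02 : ‖(T.a : ℂ) / (starRingEnd ℂ) T.d2‖ ≤ 6 * m := by
    have e : (T.a : ℂ) / (starRingEnd ℂ) T.d2 = 5 / 4 * (T₂.d2 * v2) - 3 / 4 * T.d2 := by
      linear_combination (5 / 4) * E2
    rw [e]
    refine (norm_sub_le _ _).trans ?_
    have h6 : ‖T₂.d2‖ * ‖v2‖ ≤ m * 4 := mul_le_mul m2 b22 (norm_nonneg _) m0.le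
    simp
    linarith
  have l5 : (1 : ℝ) ≤ 5 * m := by
    have q1 : ‖T.d2‖ * ‖T.d2‖⁻¹ = 1 := mul_inv_cancel₀ g2.ne'
    by_contra hlt
    rw [not_le] at hlt
    have q2 : ‖T.d2‖ * ‖T.d2‖⁻¹ ≤ m * (5 * m) :=
      mul_le_mul m1 n00 (by positivity) m0.le
    nlinarith
  set s := 16 * s1 (D.R g) with hs
  have s00 := (F0.le_s1 (I2_Mx T) 0 0).trans z1
  have s22 := (F0.le_s1 (I2_Mx T) 2 2).trans z1
  have s23 := (F0.le_s1 (I2_Mx T) 2 3).trans z1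
  have s03 := (F0.le_s1 (I2_Mx T) 0 3).trans z1
  simp [I2_Mx] at s00 s22 s23 s03
  have s0 : 0 ≤ s := (F0.s1_nonneg _).trans z1
  have ls : 1 ≤ s := by
    have q1 : ‖T.d2‖ * ‖T.d2‖⁻¹ = 1 := mul_inv_cancel₀ g2.ne'
    by_contra hlt
    rw [not_le] at hlt
    have q2 : ‖T.d2‖ * ‖T.d2‖⁻¹ ≤ s * s := mul_le_mul s22 s00 (by positivity) s0
    nlinarith
  have hsA : s ≤ A * ‖T.d3‖ := by
    have q1 : s ≤ 16 / a * ‖T.d3‖ := by
      rw [div_mul_eq_mul_div, le_div_iff₀ ha, hs]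
      linarith
    have : 0 ≤ ‖T.d3‖ := g3.le
    linarith
  have hβ : ‖T.β‖ ≤ A := by
    have q1 : ‖T.d3‖ * ‖T.β‖ ≤ ‖T.d3‖ * A := by linarith
    exact le_of_mul_le_mul_left q1 g3
  have hi3 : ‖T.d3‖⁻¹ ≤ A := by
    rw [inv_le_iff_one_le_mul₀ g3]
    linarith
  have hb3 : ‖T.b‖ / ‖T.d3‖ ≤ A * m := by
    rw [div_le_iff₀ g3]
    rw [div_le_iff₀ g2] at s03
    have q1 : s * ‖T.d2‖ ≤ (A * ‖T.d3‖) * m := mul_le_mul hsA m1 g2.le (by positivity)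
    linarith
  have hsm : s2 (I2_Mx T) ≤ 4 * ((7 * A + 6) * m) * s := by
    refine I2_minor (by positivity) z1 ?_ ?_ ?_
    · intro j hj
      fin_cases j <;> simp_all [I2_Mx]
    · simp [I2_Mx, T.h3]
    · have k0 : 0 ≤ (7 * A + 6) * m := by positivity
      have Am : m ≤ A * m := by nlinarith
      have w00 : ‖I2_Mx T 0 0‖ ≤ (7 * A + 6) * m := by
        simp only [I2_Mx]; simp; linarith
      have w01 : ‖I2_Mx T 0 1‖ ≤ (7 * A + 6) * m := by simp [I2_Mx]; exact k0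
      have w02 : ‖I2_Mx T 0 2‖ ≤ (7 * A + 6) * m := by
        simp only [I2_Mx]; simp; simp at n02; linarith
      have w10 : ‖I2_Mx T 1 0‖ ≤ (7 * A + 6) * m := by
        simp only [I2_Mx]; simp
        have q1 : ‖T.β‖ * ‖T.d2‖⁻¹ ≤ A * (5 * m) :=
          mul_le_mul hβ n00 (by positivity) (by positivity)
        rw [div_eq_mul_inv]
        linarith
      have w11 : ‖I2_Mx T 1 1‖ ≤ (7 * A + 6) * m := by
        simp only [I2_Mx]; simp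
        have q1 : A * 1 ≤ A * (5 * m) := mul_le_mul_of_nonneg_left l5 (by positivity)
        linarith
      have w12 : ‖I2_Mx T 1 2‖ ≤ (7 * A + 6) * m := by
        have e : I2_Mx T 1 2 = star T.b / star T.d3 - star T.β * (T.a / (starRingEnd ℂ) T.d2) := by
          simp [I2_Mx]; ring
        rw [e]
        refine (norm_sub_le _ _).trans ?_
        rw [norm_div, norm_star, norm_star, norm_mul, norm_star]
        have q1 : ‖T.β‖ * ‖(T.a : ℂ) / (starRingEnd ℂ) T.d2‖ ≤ A * (6 * m) :=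
          mul_le_mul hβ n02 (by positivity) (by positivity)
        linarith
      have w20 : ‖I2_Mx T 2 0‖ ≤ (7 * A + 6) * m := by simp [I2_Mx]; exact k0
      have w21 : ‖I2_Mx T 2 1‖ ≤ (7 * A + 6) * m := by simp [I2_Mx]; exact k0
      have w22 : ‖I2_Mx T 2 2‖ ≤ (7 * A + 6) * m := by simp [I2_Mx]; linarith
      have w30 : ‖I2_Mx T 3 0‖ ≤ (7 * A + 6) * m := by simp [I2_Mx]; exact k0
      have w31 : ‖I2_Mx T 3 1‖ ≤ (7 * A + 6) * m := by simp [I2_Mx]; exact k0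
      have w32 : ‖I2_Mx T 3 2‖ ≤ (7 * A + 6) * m := by simp [I2_Mx]; exact k0
      intro i j hj
      fin_cases i <;> fin_cases j <;>
        first
        | exact absurd rfl hj
        | exact w00
        | exact w01
        | exact w02
        | exact w10
        | exact w11
        | exact w12
        | exact w20
        | exact w21
        | exact w22
        | exact w30
        | exact w31
        | exact w32
  have hpos : 0 < 65536 * (7 * A + 6) := by positivity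
  rw [inv_mul_le_iff₀ hpos]
  rw [hs] at hsm
  linarith

/-- module I2: two different frames with the same point at infinity see the middle block -/
theorem coef_two : ∃ f : M4 → M4, (∀ k ∈ D.FF, f k ∈ D.FF ∧ D.t0 (f k) = D.t0 k) ∧
    ∀ δ : ℝ, 0 < δ → ∃ a : ℝ, 0 < a ∧ ∀ k ∈ D.FF, ∀ g, ∀ k' ∈ D.FF, ∀ k₂' ∈ D.FF,
      ∀ T T₂ : Tr, Rel (D.R g) k k' T → Rel (D.R g) (f k) k₂' T₂ →
        δ ≤ kp (zz (D.σ g)) (D.t0 k) →
          a * s2 (D.R g) ≤ max ‖T.d2‖ ‖T₂.d2‖ * s1 (D.R g) := by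
  refine ⟨fun k => k * I2_U, fun k hk => ⟨D.I2_U_FF hk, D.I2_t0 (I2_U_e1 k)⟩, fun δ hδ => ?_⟩
  obtain ⟨a, ha, h⟩ := D.I2_two δ hδ
  exact ⟨a, ha, fun k hk g k' hk' k₂' hk₂' T T₂ hT hT₂ hf => h g k hk k' hk' k₂' hk₂' T T₂ hT hT₂ hf⟩

/-- there is a frame over every point -/
theorem I2_frame {θ : Eb} (hθ : θ ∈ Sph) : ∃ k ∈ D.FF, D.t0 k = θ := by
  set v := D.xi θ with hv
  have hn := D.xnorm θ hθ
  have h0 := D.xnull θ hθ
  set u : V4 := ![-star (v 1), star (v 0), -star (v 3), star (v 2)] with hu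
  have h0' : v 0 * star (v 0) + v 1 * star (v 1) = v 2 * star (v 2) + v 3 * star (v 3) := by
    simp only [hf, CW.hh] at h0
    linear_combination h0
  have n1 : hf u u = 0 := by
    simp only [hf, CW.hh, hu]
    simp only [Matrix.cons_val_zero, Matrix.cons_val_one, Matrix.cons_val, star_neg, star_star]
    linear_combination h0'
  have n2 : hf u v = 0 := by
    simp only [hf, CW.hh, hu]
    simp only [Matrix.cons_val_zero, Matrix.cons_val_one, Matrix.cons_val, star_neg, star_star]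
    ring
  have hpos : v 0 * star (v 0) + v 1 * star (v 1) ≠ 0 := by
    intro hz
    have hz2 := h0'.symm.trans hz
    have sq : ∀ z : ℂ, z * star z = ((‖z‖ ^ 2 : ℝ) : ℂ) := fun z => by
      change z * (starRingEnd ℂ) z = _
      rw [Complex.mul_conj, Complex.normSq_eq_norm_sq]
    rw [sq, sq, ← Complex.ofReal_add, Complex.ofReal_eq_zero] at hz hz2
    have t0 : ‖v 0‖ = 0 := by nlinarith [sq_nonneg ‖v 0‖, sq_nonneg ‖v 1‖, norm_nonneg (v 0)]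
    have t1 : ‖v 1‖ = 0 := by nlinarith [sq_nonneg ‖v 0‖, sq_nonneg ‖v 1‖, norm_nonneg (v 1)]
    have t2 : ‖v 2‖ = 0 := by nlinarith [sq_nonneg ‖v 2‖, sq_nonneg ‖v 3‖, norm_nonneg (v 2)]
    have t3 : ‖v 3‖ = 0 := by nlinarith [sq_nonneg ‖v 2‖, sq_nonneg ‖v 3‖, norm_nonneg (v 3)]
    obtain ⟨m, hm⟩ := F0.exists_max v
    rw [hn] at hm
    fin_cases m <;> simp_all
  have lin : ∀ a b : ℂ, a • u + b • v = 0 → a = 0 ∧ b = 0 := by
    intro a b hab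
    have c0 := congrFun hab 0
    have c1 := congrFun hab 1
    simp only [hu, Pi.add_apply, Pi.smul_apply, smul_eq_mul, Matrix.cons_val_zero,
      Matrix.cons_val_one, Pi.zero_apply] at c0 c1
    have e1 : a * (v 0 * star (v 0) + v 1 * star (v 1)) = 0 := by
      linear_combination (v 0) * c1 - (v 1) * c0
    have e2 : b * (v 0 * star (v 0) + v 1 * star (v 1)) = 0 := by
      linear_combination star (v 0) * c0 + star (v 1) * c1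
    exact ⟨(mul_eq_zero.mp e1).resolve_right hpos, (mul_eq_zero.mp e2).resolve_right hpos⟩
  obtain ⟨k, hk, ⟨l, hl, hkl⟩, -⟩ := exists_frame u v lin n1 h0 n2
  have hF : k ∈ D.FF := ⟨hk, θ, hθ, l, hl, hkl⟩
  refine ⟨k, hF, ?_⟩
  obtain ⟨s1, l', hl', h'⟩ := D.t0_spec hF
  by_contra hne
  apply D.xtv _ s1 _ hθ hne
  have e : D.xi (D.t0 k) = (l'⁻¹ * l) • v := by
    rw [← smul_smul, ← hkl, h', smul_smul, inv_mul_cancel₀ hl', one_smul]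
  rw [e, F0.hf_smul_left, h0, mul_zero]

/-- module I2: the middle blocks of aligned products -/
theorem mid_mul (δ : ℝ) (hδ : 0 < δ) : ∃ a : ℝ, 0 < a ∧ ∀ g h, ∀ θ ∈ Sph,
    δ ≤ kp (zz (D.σ g)) θ → δ ≤ kp (zz (D.σ h)) (ab (D.σ g)⁻¹ θ) →
      δ ≤ kp (zz (D.σ (g * h))) θ →
      a * (s2 (D.R h) / s1 (D.R h)) ≤ s2 (D.R g) / s1 (D.R g) *
        (s2 (D.R (g * h)) / s1 (D.R (g * h))) := by
  obtain ⟨a, C, ha, hfar⟩ := D.coef_far δ hδ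
  obtain ⟨b, hb, htwo⟩ := D.I2_two δ hδ
  refine ⟨a * b / (|C| + 1), by positivity, fun g h θ hθ f1 f2 f3 => ?_⟩
  have p1 : ∀ g, 0 < s1 (D.R g) := fun g => D.F0_s1_pos' g
  have p2 : ∀ g, 0 ≤ s2 (D.R g) := fun g => F0.s2_nonneg _
  -- the general step
  have step : ∀ κ' ∈ D.FF, D.t0 κ' = ab (D.σ g)⁻¹ θ → ∀ κ'' ∈ D.FF, ∀ T : Tr,
      Rel (D.R h) κ' κ'' T → a * (s1 (D.R g) / s2 (D.R g)) * ‖T.d2‖ ≤
        (|C| + 1) * (s2 (D.R (g * h)) / s1 (D.R (g * h))) ∧ 0 < s2 (D.R g) := by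
    intro κ' hκ' ht κ'' hκ'' T hT
    obtain ⟨κ, hκ, S, hS⟩ := D.exists_tr g⁻¹ hκ'
    obtain ⟨S', hS', -, -, -, -⟩ := D.rel_inv hS
    rw [inv_inv] at hS'
    have hθ' : ab (D.σ g)⁻¹ θ ∈ Cb := Metric.sphere_subset_closedBall (ab_sph _ hθ)
    have htκ : D.t0 κ = θ := by
      rw [(D.rel_cmp hκ hκ' hS').2.1, ht, ← ab_mul _ _ (Metric.sphere_subset_closedBall hθ),
        mul_inv_cancel, ab_one]
    obtain ⟨T'', hT'', e2, -, -, -⟩ := D.rel_comp hS' hT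
    obtain ⟨-, -, -, q1⟩ := hfar g κ hκ κ' hκ' S' hS' (by rw [htκ]; exact f1)
    obtain ⟨-, -, q2, -⟩ := hfar (g * h) κ hκ κ'' hκ'' T'' hT'' (by rw [htκ]; exact f3)
    have hs2 : 0 < s2 (D.R g) := by
      rcases (p2 g).eq_or_lt with h0 | h0
      · rw [← h0, mul_zero] at q1
        have := mul_pos ha (p1 g)
        linarith
      · exact h0
    refine ⟨?_, hs2⟩
    have q3 : a * (s1 (D.R g) / s2 (D.R g)) ≤ ‖S'.d2‖ := by
      rw [← mul_div_assoc, div_le_iff₀ hs2]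
      exact q1
    have q4 : ‖T''.d2‖ ≤ (|C| + 1) * (s2 (D.R (g * h)) / s1 (D.R (g * h))) := by
      rw [← mul_div_assoc, le_div_iff₀ (p1 _)]
      have := mul_le_mul_of_nonneg_right (le_abs_self C) (p2 (g * h))
      have := p2 (g * h)
      linarith
    calc a * (s1 (D.R g) / s2 (D.R g)) * ‖T.d2‖ ≤ ‖S'.d2‖ * ‖T.d2‖ :=
          mul_le_mul_of_nonneg_right q3 (norm_nonneg _)
      _ = ‖T''.d2‖ := e2.symm
      _ ≤ _ := q4
  obtain ⟨κ, hκ, hκt⟩ := D.I2_frame (ab_sph (D.σ g)⁻¹ hθ)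
  obtain ⟨κ', hκ', T, hT⟩ := D.exists_tr h hκ
  obtain ⟨κ₂, hκ₂, T₂, hT₂⟩ := D.exists_tr h (D.I2_U_FF hκ)
  have h1 := htwo h κ hκ κ' hκ' κ₂ hκ₂ T T₂ hT hT₂ (by rw [hκt]; exact f2)
  obtain ⟨h2, hs2⟩ := step κ hκ hκt κ' hκ' T hT
  obtain ⟨h3, -⟩ := step (κ * I2_U) (D.I2_U_FF hκ) (by rw [D.I2_t0 (I2_U_e1 κ), hκt]) κ₂ hκ₂ T₂ hT₂
  have h4 : a * (s1 (D.R g) / s2 (D.R g)) * max ‖T.d2‖ ‖T₂.d2‖ ≤
      (|C| + 1) * (s2 (D.R (g * h)) / s1 (D.R (g * h))) := by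
    rcases max_choice ‖T.d2‖ ‖T₂.d2‖ with e | e <;> rw [e]
    · exact h2
    · exact h3
  have h5 : b * (s2 (D.R h) / s1 (D.R h)) ≤ max ‖T.d2‖ ‖T₂.d2‖ := by
    rw [← mul_div_assoc, div_le_iff₀ (p1 _)]
    exact h1
  have pg : 0 < s1 (D.R g) / s2 (D.R g) := div_pos (p1 g) hs2
  have h6 : a * (s1 (D.R g) / s2 (D.R g)) * (b * (s2 (D.R h) / s1 (D.R h))) ≤
      (|C| + 1) * (s2 (D.R (g * h)) / s1 (D.R (g * h))) :=
    (mul_le_mul_of_nonneg_left h5 (by positivity)).trans h4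
  have hC : 0 < |C| + 1 := by positivity
  have h7 := mul_le_mul_of_nonneg_right h6 (div_pos hs2 (p1 g)).le
  have e7 : a * (s1 (D.R g) / s2 (D.R g)) * (b * (s2 (D.R h) / s1 (D.R h))) *
      (s2 (D.R g) / s1 (D.R g)) = a * b * (s2 (D.R h) / s1 (D.R h)) := by
    have := (p1 g).ne'
    have := hs2.ne'
    field_simp
  rw [e7] at h7
  rw [div_mul_eq_mul_div, div_le_iff₀ hC]
  linarith

end Kd

end Pool.Agent.MPd01a95.KT
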