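import Mathlib
import Pool.Agent.Lib.MP_d01a95_gt_K.KDefs
import Pool.Agent.Lib.MP_d01a95_gt_K.KI1

/-!
# Module KI3a: partition of unity adapted to a finite family of transitions
-/

set_option autoImplicit false
set_option linter.all false

open Matrix Filter Topology MeasureTheory
open scoped ContDiff

namespace Pool.Agent.MPd01a95.KT

/-- a cutoff function of a box -/
theorem I3_cut (r : ℝ) (hr : 1 ≤ r) : ∃ (w : ℂ × ℝ → ℝ) (K : ℝ), ContDiff ℝ 1 w ∧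
    HasCompactSupport w ∧ (∀ x, 0 ≤ w x ∧ w x ≤ 1) ∧ 0 ≤ K ∧ (∀ x, ‖fderiv ℝ w x‖ ≤ K) ∧
    (∀ x : ℂ × ℝ, ‖x.1‖ ≤ r → |x.2| ≤ r → w x = 1) ∧
    ∀ x ∈ tsupport w, ‖x.1‖ ≤ 2 * r ∧ |x.2| ≤ 2 * r := by
  let f1 : ContDiffBump (0 : ℂ) := ⟨r, 2 * r, by linarith, by linarith⟩
  let f2 : ContDiffBump (0 : ℝ) := ⟨r, 2 * r, by linarith, by linarith⟩
  let w : ℂ × ℝ → ℝ := fun x => f1 x.1 * f2 x.2
  have hw : ContDiff ℝ 1 w := (f1.contDiff.comp contDiff_fst).mul (f2.contDiff.comp contDiff_snd)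
  have hS : ∀ x ∈ tsupport w, ‖x.1‖ ≤ 2 * r ∧ |x.2| ≤ 2 * r := by
    have hc : IsClosed {x : ℂ × ℝ | ‖x.1‖ ≤ 2 * r ∧ |x.2| ≤ 2 * r} := by
      refine IsClosed.inter ?_ ?_
      · exact isClosed_le (continuous_norm.comp continuous_fst) continuous_const
      · exact isClosed_le (continuous_abs.comp continuous_snd) continuous_const
    intro x hx
    refine closure_minimal ?_ hc hx
    intro y hy
    have h1 : f1 y.1 ≠ 0 := fun h => hy (by simp [w, h])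
    have h2 : f2 y.2 ≠ 0 := fun h => hy (by simp [w, h])
    have h1' : y.1 ∈ Function.support f1 := h1
    have h2' : y.2 ∈ Function.support f2 := h2
    rw [f1.support_eq] at h1'
    rw [f2.support_eq] at h2'
    have e1 : f1.rOut = 2 * r := rfl
    have e2 : f2.rOut = 2 * r := rfl
    rw [e1] at h1'
    rw [e2] at h2'
    simp only [Metric.mem_ball, dist_zero_right] at h1' h2'
    exact ⟨h1'.le, h2'.le⟩
  have hwc : HasCompactSupport w := by
    refine IsCompact.of_isClosed_subset (isCompact_closedBall (0 : ℂ × ℝ) (2 * r))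
      (isClosed_tsupport w) ?_
    intro x hx
    obtain ⟨h1, h2⟩ := hS x hx
    rw [Metric.mem_closedBall, dist_zero_right, Prod.norm_def]
    exact max_le h1 h2
  obtain ⟨K, hK⟩ := (hw.continuous_fderiv one_ne_zero).bounded_above_of_compact_support
    (hwc.fderiv ℝ)
  refine ⟨w, max K 0, hw, hwc, fun x => ⟨mul_nonneg f1.nonneg f2.nonneg,
    mul_le_one₀ f1.le_one f2.nonneg f2.le_one⟩, le_max_right _ _,
    fun x => (hK x).trans (le_max_left _ _), fun x h1 h2 => ?_, hS⟩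
  have e1 : f1 x.1 = 1 := f1.one_of_mem_closedBall (by simpa using h1)
  have e2 : f2 x.2 = 1 := f2.one_of_mem_closedBall (by simpa using h2)
  simp only [w, e1, e2, mul_one]

/-- the chart map of a transition has a smooth inverse -/
theorem Tr.I3_G_inv (T : Tr) : ∃ H : ℂ × ℝ → ℂ × ℝ, ContDiff ℝ 1 H ∧ (∀ x, T.G (H x) = x) ∧
    ∀ y, H (T.G y) = y := by
  have hq : ContDiff ℝ 1 T.q := by
    have h2 : ContDiff ℝ 1 (fun y : ℂ => ‖y‖ ^ 2) := contDiff_norm_sq ℝ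
    have h3 : ContDiff ℝ 1 (fun y : ℂ => (T.b * star y).re) :=
      (Complex.reCLM.comp (T.b • (Complex.conjCLE : ℂ →L[ℝ] ℂ))).contDiff
    exact ((contDiff_const.mul h2).add (contDiff_const.mul h3)).add contDiff_const
  have hd3 : (‖T.d3‖ ^ 2 : ℝ) ≠ 0 := pow_ne_zero _ (norm_ne_zero_iff.mpr T.h3)
  have h2 := T.h2
  have h3 := T.h3
  refine ⟨fun x => ((x.1 - T.β) * (T.d3 / T.d2),
    x.2 * ‖T.d3‖ ^ 2 - T.q ((x.1 - T.β) * (T.d3 / T.d2))), ?_, ?_, ?_⟩
  · have hl : ContDiff ℝ 1 (fun x : ℂ × ℝ => (x.1 - T.β) * (T.d3 / T.d2)) :=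
      (contDiff_fst.sub contDiff_const).mul contDiff_const
    exact hl.prodMk ((contDiff_snd.mul contDiff_const).sub (hq.comp hl))
  · intro x
    refine Prod.ext ?_ ?_
    · show T.d2 / T.d3 * ((x.1 - T.β) * (T.d3 / T.d2)) + T.β = x.1
      field_simp
      ring
    · show (x.2 * ‖T.d3‖ ^ 2 - T.q ((x.1 - T.β) * (T.d3 / T.d2)) +
        T.q ((x.1 - T.β) * (T.d3 / T.d2))) / ‖T.d3‖ ^ 2 = x.2
      rw [sub_add_cancel, mul_div_assoc, div_self hd3, mul_one]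
  · intro y
    have e : (T.m y.1 - T.β) * (T.d3 / T.d2) = y.1 := by
      unfold Tr.m
      field_simp
      ring
    refine Prod.ext ?_ ?_
    · show (T.m y.1 - T.β) * (T.d3 / T.d2) = y.1
      exact e
    · show T.tr y.1 y.2 * ‖T.d3‖ ^ 2 - T.q ((T.m y.1 - T.β) * (T.d3 / T.d2)) = y.2
      rw [e]
      unfold Tr.tr
      rw [div_mul_cancel₀ _ hd3, add_sub_cancel_right]

/-- the weak form is additive -/
theorem I3_TT_sum {ι : Type} (s : Finset ι) (A : ℂ → ℝ → ℂ)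
    (hA : Continuous fun x : ℂ × ℝ => A x.1 x.2) {N : Set (ℂ × ℝ × ℂ)} {p q : ℂ × ℝ × ℂ → ℂ}
    (hL : Law N p q) (φ : ι → ℂ × ℝ → ℂ) (hφ : ∀ i ∈ s, ContDiff ℝ 1 (φ i))
    (hφc : ∀ i ∈ s, HasCompactSupport (φ i))
    (hN : ∀ i ∈ s, ∀ x ∈ tsupport (φ i), (x.1, x.2, A x.1 x.2) ∈ N) :
    TT A p q (fun x => ∑ i ∈ s, φ i x) = ∑ i ∈ s, TT A p q (φ i) := by
  have hd : ∀ i ∈ s, ∀ x, DifferentiableAt ℝ (φ i) x := fun i hi x =>
    (hφ i hi).differentiable one_ne_zero x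
  have h1 : ∀ x, dbm (fun x => ∑ i ∈ s, φ i x) x = ∑ i ∈ s, dbm (φ i) x := by
    intro x
    unfold dbm
    rw [fderiv_fun_sum fun i hi => hd i hi x]
    simp only [ContinuousLinearMap.sum_apply]
    rw [Finset.mul_sum, ← Finset.sum_add_distrib, Finset.mul_sum]
  have h2 : ∀ x, dtm (fun x => ∑ i ∈ s, φ i x) x = ∑ i ∈ s, dtm (φ i) x := by
    intro x
    unfold dtm
    rw [fderiv_fun_sum fun i hi => hd i hi x]
    simp only [ContinuousLinearMap.sum_apply]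
  have hS : Continuous fun x : ℂ × ℝ => ((x.1, x.2, A x.1 x.2) : ℂ × ℝ × ℂ) := by fun_prop
  have hint : ∀ i ∈ s, Integrable fun x : ℂ × ℝ =>
      p (x.1, x.2, A x.1 x.2) * dbm (φ i) x + q (x.1, x.2, A x.1 x.2) * dtm (φ i) x := by
    intro i hi
    set U : Set (ℂ × ℝ) := (fun x : ℂ × ℝ => ((x.1, x.2, A x.1 x.2) : ℂ × ℝ × ℂ)) ⁻¹' N
    have hU : IsOpen U := hL.isOpen.preimage hS
    have hKU : tsupport (φ i) ⊆ U := fun x hx => hN i hi x hx
    have c1 : ContinuousOn (fun x : ℂ × ℝ => p (x.1, x.2, A x.1 x.2)) U :=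
      hL.smp.continuousOn.comp hS.continuousOn fun x hx => hx
    have c2 : ContinuousOn (fun x : ℂ × ℝ => q (x.1, x.2, A x.1 x.2)) U :=
      hL.smq.continuousOn.comp hS.continuousOn fun x hx => hx
    exact (I1_integrable_mul (hφc i hi) hU hKU c1 (I1_dbm_cont (hφ i hi))
      fun x hx => I1_dbm_off hx).add
      (I1_integrable_mul (hφc i hi) hU hKU c2 (I1_dtm_cont (hφ i hi)) fun x hx => I1_dtm_off hx)
  unfold TT
  rw [← integral_finset_sum s hint]
  refine integral_congr_ae (Eventually.of_forall fun x => ?_)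
  simp only
  rw [h1, h2, Finset.mul_sum, Finset.mul_sum, ← Finset.sum_add_distrib]

theorem I3_dbm_le (f : ℂ × ℝ → ℂ) (x : ℂ × ℝ) : ‖dbm f x‖ ≤ ‖fderiv ℝ f x‖ := by
  have h1 : ‖fderiv ℝ f x (1, 0)‖ ≤ ‖fderiv ℝ f x‖ := by
    have := (fderiv ℝ f x).le_opNorm ((1, 0) : ℂ × ℝ)
    simpa [Prod.norm_def] using this
  have h2 : ‖fderiv ℝ f x (Complex.I, 0)‖ ≤ ‖fderiv ℝ f x‖ := by
    have := (fderiv ℝ f x).le_opNorm ((Complex.I, 0) : ℂ × ℝ)
    simpa [Prod.norm_def] using this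
  unfold dbm
  rw [norm_mul]
  have h3 : ‖(1 / 2 : ℂ)‖ = 1 / 2 := by norm_num
  rw [h3]
  have h4 : ‖fderiv ℝ f x (1, 0) + Complex.I * fderiv ℝ f x (Complex.I, 0)‖ ≤
      ‖fderiv ℝ f x‖ + ‖fderiv ℝ f x‖ := by
    refine (norm_add_le _ _).trans (add_le_add h1 ?_)
    rw [norm_mul, Complex.norm_I, one_mul]
    exact h2
  linarith

theorem I3_dtm_le (f : ℂ × ℝ → ℂ) (x : ℂ × ℝ) : ‖dtm f x‖ ≤ ‖fderiv ℝ f x‖ := by
  have := (fderiv ℝ f x).le_opNorm ((0, 1) : ℂ × ℝ)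
  simpa [Prod.norm_def, dtm] using this

/-- bound of the derivatives of a composition with a transition -/
theorem Tr.I3_comp_le (T : Tr) {f : ℂ × ℝ → ℂ} (hf : ContDiff ℝ 1 f) (K M : ℝ) (hK : 0 ≤ K)
    (hM : 0 ≤ M) (x : ℂ × ℝ) (hfM : ∀ x, ‖fderiv ℝ f x‖ ≤ M) (h1 : ‖T.d2 / T.d3‖ ≤ K)
    (h2 : (1 + 2 * ‖T.dq x.1‖) / ‖T.d3‖ ^ 2 ≤ K) :
    ‖dbm (fun y => f (T.G y)) x‖ ≤ 2 * K * M ∧ ‖dtm (fun y => f (T.G y)) x‖ ≤ 2 * K * M := by
  have hd : 0 < ‖T.d3‖ ^ 2 := pow_pos (norm_pos_iff.mpr T.h3) 2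
  have hdf : Differentiable ℝ f := hf.differentiable one_ne_zero
  have e1 := T.I1_dtm_comp hdf x
  have e2 := T.I1_dbm_comp hdf x
  have a1 : ‖dtm f (T.G x)‖ ≤ M := (I3_dtm_le f _).trans (hfM _)
  have a2 : ‖dbm f (T.G x)‖ ≤ M := (I3_dbm_le f _).trans (hfM _)
  have hdq : 0 ≤ ‖T.dq x.1‖ := norm_nonneg _
  have b1 : (‖T.d3‖ ^ 2)⁻¹ ≤ K := by
    refine le_trans ?_ h2
    rw [← one_div]
    gcongr
    linarith
  have b2 : ‖T.dq x.1‖ * (‖T.d3‖ ^ 2)⁻¹ ≤ K := by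
    refine le_trans ?_ h2
    rw [← div_eq_mul_inv]
    gcongr
    linarith
  have n1 : ‖dtm (fun y => f (T.G y)) x‖ ≤ (‖T.d3‖ ^ 2)⁻¹ * M := by
    rw [e1, norm_mul, norm_inv, Complex.norm_real, Real.norm_eq_abs, abs_of_pos hd]
    gcongr
  constructor
  · rw [e2]
    refine (norm_add_le _ _).trans ?_
    rw [norm_mul, norm_mul, norm_star]
    have c1 : ‖T.d2 / T.d3‖ * ‖dbm f (T.G x)‖ ≤ K * M := by gcongr
    have c2 : ‖T.dq x.1‖ * ‖dtm (fun y => f (T.G y)) x‖ ≤ K * M := by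
      calc ‖T.dq x.1‖ * ‖dtm (fun y => f (T.G y)) x‖ ≤ ‖T.dq x.1‖ * ((‖T.d3‖ ^ 2)⁻¹ * M) := by
            gcongr
        _ = (‖T.dq x.1‖ * (‖T.d3‖ ^ 2)⁻¹) * M := by ring
        _ ≤ K * M := by gcongr
    linarith
  · have : (‖T.d3‖ ^ 2)⁻¹ * M ≤ K * M := by gcongr
    have : 0 ≤ K * M := by positivity
    linarith

/-- the derivatives of a product of functions bounded by one -/
theorem I3_prod_le {ι : Type} (t : Finset ι) (f : ι → ℂ × ℝ → ℂ) (b : ι → ℝ) (x : ℂ × ℝ)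
    (hf : ∀ j ∈ t, DifferentiableAt ℝ (f j) x) (h1 : ∀ j ∈ t, ‖f j x‖ ≤ 1)
    (hb : ∀ j ∈ t, ‖dbm (f j) x‖ ≤ b j ∧ ‖dtm (f j) x‖ ≤ b j) :
    DifferentiableAt ℝ (fun y => ∏ j ∈ t, f j y) x ∧ ‖∏ j ∈ t, f j x‖ ≤ 1 ∧
      ‖dbm (fun y => ∏ j ∈ t, f j y) x‖ ≤ ∑ j ∈ t, b j ∧
      ‖dtm (fun y => ∏ j ∈ t, f j y) x‖ ≤ ∑ j ∈ t, b j := by
  classical
  induction t using Finset.induction_on with
  | empty =>
    refine ⟨by simp, by simp, ?_, ?_⟩
    · simp [dbm]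
    · simp [dtm]
  | insert a t ha ih =>
    obtain ⟨i1, i2, i3, i4⟩ := ih (fun j hj => hf j (Finset.mem_insert_of_mem hj))
      (fun j hj => h1 j (Finset.mem_insert_of_mem hj))
      (fun j hj => hb j (Finset.mem_insert_of_mem hj))
    have ha' := Finset.mem_insert_self a t
    have fa := hf a ha'
    have ga := h1 a ha'
    obtain ⟨b1, b2⟩ := hb a ha'
    have e : (fun y => ∏ j ∈ insert a t, f j y) = fun y => f a y * ∏ j ∈ t, f j y := by
      funext y; rw [Finset.prod_insert ha]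
    have hm : ∀ (u v U V c d : ℝ), 0 ≤ u → 0 ≤ v → u ≤ 1 → v ≤ 1 → 0 ≤ U → 0 ≤ V → U ≤ c →
        V ≤ d → u * V + U * v ≤ c + d := by
      intro u v U V c d hu hv hu1 hv1 hU hV hUc hVd
      nlinarith [mul_le_mul_of_nonneg_right hu1 hV, mul_le_mul_of_nonneg_left hv1 hU]
    rw [e, Finset.prod_insert ha, Finset.sum_insert ha]
    refine ⟨fa.mul i1, ?_, ?_, ?_⟩
    · rw [norm_mul]
      exact mul_le_one₀ ga (norm_nonneg _) i2
    · rw [I1_dbm_mul fa i1]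
      refine (norm_add_le _ _).trans ?_
      rw [norm_mul, norm_mul]
      exact hm _ _ _ _ _ _ (norm_nonneg _) (norm_nonneg _) ga i2 (norm_nonneg _) (norm_nonneg _)
        b1 i3
    · rw [I1_dtm_mul fa i1]
      refine (norm_add_le _ _).trans ?_
      rw [norm_mul, norm_mul]
      exact hm _ _ _ _ _ _ (norm_nonneg _) (norm_nonneg _) ga i2 (norm_nonneg _) (norm_nonneg _)
        b2 i4

/-- the bound of the weak form by a finite family of localised pieces -/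
theorem I3_part (r B B' K M : ℝ) (n : ℕ) (hr : 1 ≤ r) (hB : 0 ≤ B) (hB' : 0 ≤ B')
    (hK : 0 ≤ K) (hM : 0 ≤ M) : ∃ C : ℝ, ∀ (ι : Type) (s : Finset ι) (A : ℂ → ℝ → ℂ)
    (hA : Continuous fun x : ℂ × ℝ => A x.1 x.2) (N : Set (ℂ × ℝ × ℂ)) (p q : ℂ × ℝ × ℂ → ℂ)
    (hL : Law N p q) (φ : ℂ × ℝ → ℂ) (hφ : ContDiff ℝ 1 φ) (hφc : HasCompactSupport φ)
    (hφM : ∀ x, ‖φ x‖ ≤ M ∧ ‖fderiv ℝ φ x‖ ≤ M)
    (hN : ∀ x ∈ tsupport φ, (x.1, x.2, A x.1 x.2) ∈ N)
    (T : ι → Tr) (A' : ι → ℂ → ℝ → ℂ)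
    (hA' : ∀ i ∈ s, Continuous fun x : ℂ × ℝ => A' i x.1 x.2)
    (hc : ∀ i ∈ s, (T i).Cmp A (A' i))
    (hcov : ∀ x ∈ tsupport φ, ∃ i ∈ s, ∃ y : ℂ × ℝ, ‖y.1‖ ≤ r ∧ |y.2| ≤ r ∧ (T i).G y = x)
    (hbd : ∀ i ∈ s, ∀ μ t, ‖μ‖ ≤ 2 * r → |t| ≤ 2 * r → ‖A' i μ t‖ ≤ B')
    (hseg : ∀ i ∈ s, ∀ μ t, ‖μ‖ ≤ 2 * r → |t| ≤ 2 * r → (T i).G (μ, t) ∈ tsupport φ →
      ∀ u ∈ Set.Icc (0 : ℝ) 1,
        ((T i).m μ, (T i).tr μ t, (T i).κ * (u * A' i μ t + (T i).dq μ)) ∈ N ∧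
        ‖fderiv ℝ p ((T i).m μ, (T i).tr μ t, (T i).κ * (u * A' i μ t + (T i).dq μ))
          (0, 0, 1)‖ ≤ B)
    (hder : ∀ i ∈ s, ∀ μ t, ‖μ‖ ≤ 2 * r → |t| ≤ 2 * r → (T i).G (μ, t) ∈ tsupport φ →
      ‖(T i).d2 / (T i).d3‖ ≤ K ∧ (1 + 2 * ‖(T i).dq μ‖) / ‖(T i).d3‖ ^ 2 ≤ K)
    (hovl : ∀ i ∈ s, ∃ F : Finset ι, F.card ≤ n ∧ ∀ j ∈ s, (∃ y z : ℂ × ℝ, ‖y.1‖ ≤ 2 * r ∧
        |y.2| ≤ 2 * r ∧ ‖z.1‖ ≤ 2 * r ∧ |z.2| ≤ 2 * r ∧ (T i).G y = (T j).G z) →
      j ∈ F ∧ ∃ T' : Tr, (∀ y, (T j).G (T'.G y) = (T i).G y) ∧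
        ∀ μ : ℂ, ‖μ‖ ≤ 2 * r →
          ‖T'.d2 / T'.d3‖ ≤ K ∧ (1 + 2 * ‖T'.dq μ‖) / ‖T'.d3‖ ^ 2 ≤ K),
    ‖TT A p q φ‖ ≤ C * ∑ i ∈ s, (‖(T i).d3‖ ^ 4)⁻¹ := by
  obtain ⟨w, Kw, hw, hwc, hw01, hKw, hwK, hw1, hwS⟩ := I3_cut r hr
  set L : ℝ := M * (Kw + n * (2 * K * Kw)) + 2 * K * M with hLdef
  have hL0 : 0 ≤ L := by positivity
  refine ⟨8 * (2 * r + 1) ^ 3 * B * B' * (1 + B') * L, ?_⟩
  intro ι s A hA N p q hL φ hφ hφc hφM hN T A' hA' hc hcov hbd hseg hder hovl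
  classical
  letI : LinearOrder ι := IsWellOrder.linearOrder WellOrderingRel
  choose H hH hGH hHG using fun i => (T i).I3_G_inv
  -- the complex cutoffs
  set wc : ℂ × ℝ → ℂ := fun x => ((w x : ℝ) : ℂ) with hwcdef
  have hwcC : ContDiff ℝ 1 wc := Complex.ofRealCLM.contDiff.comp hw
  have hwcK : ∀ x, ‖fderiv ℝ wc x‖ ≤ Kw := by
    intro x
    have h1 : HasFDerivAt wc (Complex.ofRealCLM.comp (fderiv ℝ w x)) x :=
      Complex.ofRealCLM.hasFDerivAt.comp x (hw.differentiable one_ne_zero x).hasFDerivAt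
    rw [h1.fderiv]
    refine ContinuousLinearMap.opNorm_le_bound _ hKw fun v => ?_
    rw [ContinuousLinearMap.comp_apply]
    have : ‖Complex.ofRealCLM (fderiv ℝ w x v)‖ = ‖fderiv ℝ w x v‖ := Complex.norm_real _
    rw [this]
    exact ((fderiv ℝ w x).le_opNorm v).trans (by gcongr; exact hwK x)
  have hwcn : ∀ x, ‖wc x‖ ≤ 1 := by
    intro x
    rw [hwcdef]
    simp only [Complex.norm_real, Real.norm_eq_abs]
    rw [abs_of_nonneg (hw01 x).1]
    exact (hw01 x).2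
  have hwcn' : ∀ x, ‖1 - wc x‖ ≤ 1 := by
    intro x
    have : (1 : ℂ) - wc x = ((1 - w x : ℝ) : ℂ) := by simp [hwcdef]
    rw [this, Complex.norm_real, Real.norm_eq_abs, abs_of_nonneg (by linarith [(hw01 x).2])]
    linarith [(hw01 x).1]
  have hwc0 : ∀ x, x ∉ tsupport w → wc =ᶠ[𝓝 x] fun _ => 0 := by
    intro x hx
    have := notMem_tsupport_iff_eventuallyEq.mp hx
    filter_upwards [this] with y hy
    rw [hwcdef]
    simp only [Pi.zero_apply] at hy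
    simp [hy]
  set W : ι → ℂ × ℝ → ℂ := fun i x => wc (H i x) with hWdef
  have hWC : ∀ i, ContDiff ℝ 1 (W i) := fun i => hwcC.comp (hH i)
  set Q : ι → ℂ × ℝ → ℂ := fun i x => W i x * ∏ j ∈ s with j < i, (1 - W j x) with hQdef
  have hQC : ∀ i, ContDiff ℝ 1 (Q i) := by
    intro i
    refine (hWC i).mul ?_
    refine contDiff_prod fun j _ => ?_
    exact contDiff_const.sub (hWC j)
  have hsupp : ∀ i, tsupport (fun x => φ x * Q i x) ⊆
      {x | x ∈ tsupport φ ∧ H i x ∈ tsupport w} := by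
    intro i
    refine closure_minimal ?_ ?_
    · intro x hx
      constructor
      · refine subset_tsupport φ ?_
        intro h
        exact hx (by simp [h])
      · refine subset_tsupport w ?_
        intro h
        refine hx ?_
        have : W i x = 0 := by simp [hWdef, hwcdef, h]
        simp [hQdef, this]
    · exact (isClosed_tsupport φ).inter ((isClosed_tsupport w).preimage (hH i).continuous)
  have hφi : ∀ i ∈ s, ContDiff ℝ 1 (fun x => φ x * Q i x) := fun i _ => hφ.mul (hQC i)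
  have hφic : ∀ i ∈ s, HasCompactSupport (fun x => φ x * Q i x) := fun i _ =>
    hφc.of_isClosed_subset (isClosed_tsupport _) fun x hx => (hsupp i hx).1
  have hsum : φ = fun x => ∑ i ∈ s, φ x * Q i x := by
    funext x
    rw [← Finset.mul_sum]
    by_cases hx : x ∈ tsupport φ
    · have h1 := Finset.prod_one_sub_ordered s (fun i => W i x)
      obtain ⟨i, hi, y, hy1, hy2, hyx⟩ := hcov x hx
      have h2 : W i x = 1 := by
        simp only [hWdef, hwcdef]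
        rw [← hyx, hHG, hw1 y hy1 hy2, Complex.ofReal_one]
      have h3 : ∏ i ∈ s, (1 - W i x) = 0 :=
        Finset.prod_eq_zero hi (by rw [h2, sub_self])
      rw [h3] at h1
      have h4 : ∑ i ∈ s, Q i x = 1 := (sub_eq_zero.mp h1.symm).symm
      rw [h4, mul_one]
    · have : φ x = 0 := image_eq_zero_of_notMem_tsupport hx
      rw [this, zero_mul]
  have hTT : TT A p q φ = ∑ i ∈ s, TT A p q (fun x => φ x * Q i x) := by
    conv_lhs => rw [hsum]
    exact I3_TT_sum s A hA hL (fun i x => φ x * Q i x) hφi hφic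
      fun i _ x hx => hN x (hsupp i hx).1
  rw [hTT, Finset.mul_sum]
  refine (norm_sum_le _ _).trans (Finset.sum_le_sum fun i hi => ?_)
  have hloc := loc_bound (T i) A (A' i) hA (hA' i hi) (hc i hi) hL (fun x => φ x * Q i x)
    (hφi i hi) (hφic i hi) (2 * r) B B' L (by linarith) hB hB' hL0
  refine hloc ?_ (hbd i hi) ?_ ?_
  · intro x hx
    obtain ⟨h1, h2⟩ := hsupp i hx
    obtain ⟨h3, h4⟩ := hwS _ h2
    refine ⟨H i x, ⟨?_, ?_⟩, hGH i x⟩
    · simpa using h3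
    · exact abs_le.mp h4
  · intro μ t hμ ht hx u hu
    exact hseg i hi μ t hμ ht (hsupp i hx).1 u hu
  · -- the derivatives
    intro y
    by_cases hy : (T i).G y ∈ tsupport φ ∧ y ∈ tsupport w
    swap
    · have h1 : y ∉ tsupport (fun y => φ ((T i).G y) * Q i ((T i).G y)) := by
        intro h
        refine hy ?_
        have h2 : tsupport (fun y => φ ((T i).G y) * Q i ((T i).G y)) ⊆
            {y | (T i).G y ∈ tsupport φ ∧ y ∈ tsupport w} := by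
          refine closure_minimal ?_ ?_
          · intro z hz
            have h3 : (T i).G z ∈ Function.support (fun x => φ x * Q i x) := hz
            have h4 := hsupp i (subset_tsupport _ h3)
            exact ⟨h4.1, by simpa only [hHG] using h4.2⟩
          · exact ((isClosed_tsupport φ).preimage (T i).I1_G_contDiff.continuous).inter
              (isClosed_tsupport w)
        exact h2 h
      show ‖dbm (fun y => φ ((T i).G y) * Q i ((T i).G y)) y‖ ≤ L ∧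
        ‖dtm (fun y => φ ((T i).G y) * Q i ((T i).G y)) y‖ ≤ L
      rw [I1_dbm_off h1, I1_dtm_off h1, norm_zero]
      exact ⟨hL0, hL0⟩
    obtain ⟨hyφ, hyw⟩ := hy
    obtain ⟨hy1, hy2⟩ := hwS y hyw
    obtain ⟨k1, k2⟩ := hder i hi y.1 y.2 hy1 hy2 hyφ
    obtain ⟨c1, c2⟩ := (T i).I3_comp_le hφ K M hK hM y (fun x => (hφM x).2) k1 k2
    obtain ⟨F, hF, hFj⟩ := hovl i hi
    have hGd : ContDiff ℝ 1 (T i).G := (T i).I1_G_contDiff.of_le le_top
    have hWG : ∀ j, ContDiff ℝ 1 (fun y => W j ((T i).G y)) := fun j => (hWC j).comp hGd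
    -- the factors
    have hfac : ∀ j ∈ s.filter (· < i), ‖dbm (fun y => 1 - W j ((T i).G y)) y‖ ≤
        (if j ∈ F then 2 * K * Kw else 0) ∧ ‖dtm (fun y => 1 - W j ((T i).G y)) y‖ ≤
        (if j ∈ F then 2 * K * Kw else 0) := by
      intro j hj
      have hjs : j ∈ s := (Finset.mem_filter.mp hj).1
      have hbase : 0 ≤ (if j ∈ F then 2 * K * Kw else 0 : ℝ) := by
        split_ifs
        · positivity
        · exact le_rfl
      by_cases hz : H j ((T i).G y) ∈ tsupport w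
      · obtain ⟨hz1, hz2⟩ := hwS _ hz
        obtain ⟨hjF, T', hT1, hT2⟩ := hFj j hjs
          ⟨y, H j ((T i).G y), hy1, hy2, hz1, hz2, (hGH j _).symm⟩
        rw [if_pos hjF]
        obtain ⟨m1, m2⟩ := hT2 y.1 hy1
        have e : (fun y => 1 - W j ((T i).G y)) = fun y => (fun x => 1 - wc x) (T'.G y) := by
          funext y
          have : H j ((T i).G y) = T'.G y := by rw [← hT1, hHG]
          simp only [hWdef, this]
        rw [e]
        refine T'.I3_comp_le (f := fun x => 1 - wc x) (contDiff_const.sub hwcC) K Kw hK hKw y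
          (fun x => ?_) m1 m2
        rw [fderiv_const_sub, norm_neg]
        exact hwcK x
      · have h1 : (fun y => 1 - W j ((T i).G y)) =ᶠ[𝓝 y] fun _ => (1 : ℂ) := by
          have hct : ContinuousAt (fun y => H j ((T i).G y)) y :=
            ((hH j).continuous.comp hGd.continuous).continuousAt
          have := hct.eventually (hwc0 _ hz)
          filter_upwards [this] with z hz'
          simp only [hWdef]
          rw [hz', sub_zero]
        have h2 : fderiv ℝ (fun y => 1 - W j ((T i).G y)) y = 0 := by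
          rw [h1.fderiv_eq]; simp
        have h3 : dbm (fun y => 1 - W j ((T i).G y)) y = 0 := by
          unfold dbm; rw [h2]; simp
        have h4 : dtm (fun y => 1 - W j ((T i).G y)) y = 0 := by
          unfold dtm; rw [h2]; simp
        rw [h3, h4, norm_zero]
        exact ⟨hbase, hbase⟩
    obtain ⟨d1, d2, d3, d4⟩ := I3_prod_le (s.filter (· < i)) (fun j y => 1 - W j ((T i).G y))
      (fun j => if j ∈ F then 2 * K * Kw else 0) y
      (fun j _ => (contDiff_const.sub (hWG j)).differentiable one_ne_zero y)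
      (fun j _ => hwcn' _) hfac
    have hcount : ∑ j ∈ s.filter (· < i), (if j ∈ F then 2 * K * Kw else 0) ≤
        n * (2 * K * Kw) := by
      rw [← Finset.sum_filter, Finset.sum_const, nsmul_eq_mul]
      have h1 : ((s.filter (· < i)).filter (· ∈ F)).card ≤ n := by
        refine (Finset.card_le_card ?_).trans hF
        intro j hj
        exact (Finset.mem_filter.mp hj).2
      gcongr
    have hWi : (fun y => W i ((T i).G y)) = wc := by
      funext y; simp only [hWdef, hHG]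
    have f1 : DifferentiableAt ℝ wc y := hwcC.differentiable one_ne_zero y
    have hP : (fun y => φ ((T i).G y) * Q i ((T i).G y)) =
        fun y => φ ((T i).G y) * (wc y * ∏ j ∈ s.filter (· < i), (1 - W j ((T i).G y))) := by
      funext z
      have := congrFun hWi z
      simp only [hQdef]
      rw [this]
    show ‖dbm (fun y => φ ((T i).G y) * Q i ((T i).G y)) y‖ ≤ L ∧
      ‖dtm (fun y => φ ((T i).G y) * Q i ((T i).G y)) y‖ ≤ L
    rw [hP]
    have g1 : DifferentiableAt ℝ (fun y => φ ((T i).G y)) y :=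
      (hφ.comp hGd).differentiable one_ne_zero y
    have g2 : DifferentiableAt ℝ
        (fun y => wc y * ∏ j ∈ s.filter (· < i), (1 - W j ((T i).G y))) y := f1.mul d1
    have hKw1 : ‖dbm wc y‖ ≤ Kw := (I3_dbm_le _ _).trans (hwcK _)
    have hKw2 : ‖dtm wc y‖ ≤ Kw := (I3_dtm_le _ _).trans (hwcK _)
    have q0 : ‖wc y * ∏ j ∈ s.filter (· < i), (1 - W j ((T i).G y))‖ ≤ 1 := by
      rw [norm_mul]
      exact mul_le_one₀ (hwcn y) (norm_nonneg _) d2
    have hm : ∀ (u v U V c d : ℝ), 0 ≤ u → 0 ≤ v → u ≤ 1 → v ≤ 1 → 0 ≤ U → 0 ≤ V → U ≤ c →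
        V ≤ d → u * V + U * v ≤ c + d := by
      intro u v U V c d hu hv hu1 hv1 hU hV hUc hVd
      nlinarith [mul_le_mul_of_nonneg_right hu1 hV, mul_le_mul_of_nonneg_left hv1 hU]
    have q1 : ‖dbm (fun y => wc y * ∏ j ∈ s.filter (· < i), (1 - W j ((T i).G y))) y‖ ≤
        Kw + n * (2 * K * Kw) := by
      rw [I1_dbm_mul f1 d1]
      refine (norm_add_le _ _).trans ?_
      rw [norm_mul, norm_mul]
      refine hm _ _ _ _ _ _ (norm_nonneg _) (norm_nonneg _) (hwcn y) d2 (norm_nonneg _)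
        (norm_nonneg _) hKw1 (d3.trans hcount)
    have q2 : ‖dtm (fun y => wc y * ∏ j ∈ s.filter (· < i), (1 - W j ((T i).G y))) y‖ ≤
        Kw + n * (2 * K * Kw) := by
      rw [I1_dtm_mul f1 d1]
      refine (norm_add_le _ _).trans ?_
      rw [norm_mul, norm_mul]
      refine hm _ _ _ _ _ _ (norm_nonneg _) (norm_nonneg _) (hwcn y) d2 (norm_nonneg _)
        (norm_nonneg _) hKw2 (d4.trans hcount)
    have hfin : ∀ (u v U V : ℝ), 0 ≤ u → 0 ≤ v → u ≤ M → v ≤ 1 → 0 ≤ U → 0 ≤ V →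
        U ≤ 2 * K * M → V ≤ Kw + n * (2 * K * Kw) → u * V + U * v ≤ L := by
      intro u v U V hu hv hu1 hv1 hU hV hUc hVd
      have t1 : u * V ≤ M * (Kw + n * (2 * K * Kw)) := by gcongr
      have t2 : U * v ≤ (2 * K * M) * 1 := by gcongr
      rw [hLdef]; linarith
    constructor
    · rw [I1_dbm_mul g1 g2]
      refine (norm_add_le _ _).trans ?_
      rw [norm_mul, norm_mul]
      exact hfin _ _ _ _ (norm_nonneg _) (norm_nonneg _) (hφM _).1 q0 (norm_nonneg _)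
        (norm_nonneg _) c1 q1
    · rw [I1_dtm_mul g1 g2]
      refine (norm_add_le _ _).trans ?_
      rw [norm_mul, norm_mul]
      exact hfin _ _ _ _ (norm_nonneg _) (norm_nonneg _) (hφM _).1 q0 (norm_nonneg _)
        (norm_nonneg _) c2 q2

end Pool.Agent.MPd01a95.KT
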