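import Mathlib
import Pool.Agent.Lib.MP_d01a95_gt_K.KDefs2
import Pool.Agent.Lib.MP_d01a95_gt_K.KA1
import Pool.Agent.Lib.MP_d01a95_gt_K.KA2
import Pool.Agent.Lib.MP_d01a95_gt_K.KA4
import Pool.Agent.Lib.MP_d01a95_gt_K.KF0
import Pool.Agent.Lib.MP_d01a95_gt_K.KH1
import Pool.Agent.Lib.MP_d01a95_gt_K.KH2
import Pool.Agent.Lib.MP_d01a95_gt_K.KH3
import Pool.Agent.Lib.MP_d01a95_gt_K.KH4
import Pool.Agent.Lib.MP_d01a95_gt_K.KI0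
import Pool.Agent.Lib.MP_d01a95_gt_K.KI1
import Pool.Agent.Lib.MP_d01a95_gt_K.KI2
import Pool.Agent.Lib.MP_d01a95_gt_K.KI3a

set_option autoImplicit false
set_option linter.all false

open Matrix Filter Topology MeasureTheory
open scoped ContDiff

namespace Pool.Agent.MPd01a95.KT

open GU

variable {G : Type} [Group G]

theorem Tr.I3_t_real (T : Tr) (μ : ℂ) (t : ℝ) : T.t μ t = (T.tr μ t : ℂ) := by
  simp only [Tr.t, Tr.tr]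
  push_cast
  ring

/-- transitions compose -/
theorem Tr.I3_G_comp {T T' T'' : Tr} (hm : ∀ μ, T''.m μ = T.m (T'.m μ))
    (ht : ∀ μ τ, T''.t μ τ = T.t (T'.m μ) (T'.t μ τ)) (y : ℂ × ℝ) : T''.G y = T.G (T'.G y) := by
  refine Prod.ext (hm y.1) ?_
  have h := ht y.1 y.2
  rw [Tr.I3_t_real, Tr.I3_t_real, Tr.I3_t_real] at h
  exact Complex.ofReal_injective h

theorem Tr.I3_G_left {T T' : Tr} (hm : ∀ μ, T'.m (T.m μ) = μ)
    (ht : ∀ μ τ, T'.t (T.m μ) (T.t μ τ) = τ) (y : ℂ × ℝ) : T'.G (T.G y) = y := by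
  refine Prod.ext (hm y.1) ?_
  have h := ht y.1 y.2
  rw [Tr.I3_t_real, Tr.I3_t_real] at h
  exact Complex.ofReal_injective h

namespace Kd

variable (D : Kd G)

theorem I3_ab_inv (g : G) {z : Eb} (hz : z ∈ Cb) : ab (D.σ g)⁻¹ (ab (D.σ g) z) = z := by
  rw [← ab_mul _ _ hz, inv_mul_cancel, ab_one]

theorem I3_ab_inv' (g : G) {z : Eb} (hz : z ∈ Cb) : ab (D.σ g) (ab (D.σ g)⁻¹ z) = z := by
  rw [← ab_mul _ _ hz, mul_inv_cancel, ab_one]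

/-- points near `g 0` are in the box of the chart of `g` -/
theorem I3_cover (a C : ℝ) (ha : 0 < a) (hC : 1 ≤ C) : ∃ r S : ℝ, ∀ k ∈ D.FF, ∀ g, ∀ k' ∈ D.FF,
    ∀ T : Tr, Rel (D.R g) k k' T → a ≤ kp (zz (D.σ g)) (D.t0 k) → S ≤ c (D.σ g) →
    ∀ x : ℂ × ℝ, Near C (D.σ g) (D.th k x.1 x.2) →
      ∃ y : ℂ × ℝ, ‖y.1‖ ≤ r ∧ |y.2| ≤ r ∧ T.G y = x := by
  obtain ⟨r, hr⟩ := D.far_box (8 * C)⁻¹ (by positivity)
  obtain ⟨S, hS⟩ := sep_of_near C a hC ha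
  refine ⟨r, S, fun k hk g k' hk' T hT hg hs x hx => ?_⟩
  obtain ⟨-, ht0, hth⟩ := D.rel_cmp hk hk' hT
  obtain ⟨hx1, hx2, -⟩ := D.A_spec hk x.1 x.2
  have h0 := (D.t0_spec hk).1
  have h0' := (D.t0_spec hk').1
  have hne : ab (D.σ g)⁻¹ (D.th k x.1 x.2) ≠ D.t0 k' := by
    intro h
    apply hx2
    rw [ht0, ← h, D.I3_ab_inv' g (I0_sph_cb hx1)]
  obtain ⟨μ, t, hμt⟩ := D.th_surj hk' (ab_sph _ hx1) hne
  have h1 := hth μ t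
  rw [hμt, D.I3_ab_inv' g (I0_sph_cb hx1)] at h1
  obtain ⟨e1, e2⟩ := D.th_inj hk _ _ _ _ h1
  have h2 := hS (D.σ g) _ hx1 _ h0 hx hg hs
  have h3 : ab (D.σ g)⁻¹ (D.t0 k) = D.t0 k' := by rw [ht0, D.I3_ab_inv g (I0_sph_cb h0')]
  rw [h3, ← hμt] at h2
  obtain ⟨e3, e4⟩ := hr k' hk' μ t h2
  exact ⟨(μ, t), e3, e4, Prod.ext e1 e2⟩

/-- bounds of a transition in a bounded family -/
theorem I3_bd (T : Tr) (C r μr : ℝ) (hr : 0 ≤ r) (h2 : ‖T.d2‖ ≤ C) (h3 : ‖T.d3‖⁻¹ ≤ C)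
    (ha : |T.a| ≤ C) (hb : ‖T.b‖ ≤ C) (μ : ℂ) (hμ : ‖μ‖ ≤ r) :
    ‖T.d2 / T.d3‖ ≤ (1 + 2 * (C * r + C)) * C ^ 2 + C ^ 2 ∧
      (1 + 2 * ‖T.dq μ‖) / ‖T.d3‖ ^ 2 ≤ (1 + 2 * (C * r + C)) * C ^ 2 + C ^ 2 := by
  have hC : 0 ≤ C := (norm_nonneg _).trans h2
  have h3' : (0 : ℝ) ≤ ‖T.d3‖⁻¹ := by positivity
  have hd : ‖T.dq μ‖ ≤ C * r + C := by
    unfold Tr.dq
    refine (norm_add_le _ _).trans (add_le_add ?_ hb)
    rw [norm_mul, Complex.norm_real, Real.norm_eq_abs]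
    exact mul_le_mul ha hμ (norm_nonneg _) hC
  have hd0 := norm_nonneg (T.dq μ)
  constructor
  · rw [norm_div, div_eq_mul_inv]
    have : ‖T.d2‖ * ‖T.d3‖⁻¹ ≤ C * C := mul_le_mul h2 h3 h3' hC
    have h5 : 0 ≤ (1 + 2 * (C * r + C)) * C ^ 2 := by positivity
    nlinarith
  · rw [div_eq_mul_inv, ← inv_pow]
    have h4 : ‖T.d3‖⁻¹ ^ 2 ≤ C ^ 2 := pow_le_pow_left₀ h3' h3 2
    have h5 : (1 + 2 * ‖T.dq μ‖) * ‖T.d3‖⁻¹ ^ 2 ≤ (1 + 2 * (C * r + C)) * C ^ 2 :=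
      mul_le_mul (by linarith) h4 (by positivity) (by positivity)
    nlinarith [sq_nonneg C]

/-- overlapping charts are related by a bounded family of transitions -/
theorem I3_ovl (a r : ℝ) (ha : 0 < a) (hr : 0 ≤ r) : ∃ (F : Finset G) (K S : ℝ), 0 ≤ K ∧
    ∀ k ∈ D.FF, ∀ s, S ≤ s → ∀ g ∈ D.LL (D.t0 k) a s, ∀ h ∈ D.LL (D.t0 k) a s,
    ∀ kg ∈ D.FF, ∀ kh ∈ D.FF, ∀ Tg Th : Tr, Rel (D.R g) k kg Tg → Rel (D.R h) k kh Th →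
    ∀ y z : ℂ × ℝ, ‖y.1‖ ≤ r → |y.2| ≤ r → ‖z.1‖ ≤ r → |z.2| ≤ r → Tg.G y = Th.G z →
      g⁻¹ * h ∈ F ∧ ∃ T' : Tr, (∀ y, Th.G (T'.G y) = Tg.G y) ∧
        ∀ μ : ℂ, ‖μ‖ ≤ r →
          ‖T'.d2 / T'.d3‖ ≤ K ∧ (1 + 2 * ‖T'.dq μ‖) / ‖T'.d3‖ ^ 2 ≤ K := by
  classical
  obtain ⟨a₂, ha₂, hbox⟩ := D.box_far r
  obtain ⟨S, hS⟩ := near_of_sep a a₂ ha ha₂
  obtain ⟨F, hF⟩ := near_fin D.lat (max (8 / a₂) D.C)
  obtain ⟨C, hC⟩ := D.rel_bdd (F.image fun g => g⁻¹)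
  refine ⟨F, max 0 ((1 + 2 * (C * r + C)) * C ^ 2 + C ^ 2), max S 1, le_max_left _ _, ?_⟩
  intro k hk s hs g hg h hh kg hkg kh hkh Tg Th hTg hTh y z hy1 hy2 hz1 hz2 hyz
  have h0 := (D.t0_spec hk).1
  have hs1 : S ≤ s := (le_max_left _ _).trans hs
  have hs2 : 1 ≤ s := (le_max_right _ _).trans hs
  have hD1 := D.hC
  -- a common point
  have key : ∀ g ∈ D.LL (D.t0 k) a s, ∀ kg ∈ D.FF, ∀ Tg : Tr, Rel (D.R g) k kg Tg →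
      ∀ y : ℂ × ℝ, ‖y.1‖ ≤ r → |y.2| ≤ r →
        Near (max (8 / a₂) D.C) (D.σ g) (D.th k (Tg.G y).1 (Tg.G y).2) := by
    intro g hg kg hkg Tg hTg y hy1 hy2
    obtain ⟨-, ht0, hth⟩ := D.rel_cmp hk hkg hTg
    have h1 := hbox kg hkg y.1 y.2 hy1 hy2
    have hy := (D.A_spec hkg y.1 y.2).1
    have h2 : D.th k (Tg.G y).1 (Tg.G y).2 = ab (D.σ g) (D.th kg y.1 y.2) := hth y.1 y.2
    have h3 : ab (D.σ g)⁻¹ (D.th k (Tg.G y).1 (Tg.G y).2) = D.th kg y.1 y.2 := by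
      rw [h2, D.I3_ab_inv g (I0_sph_cb hy)]
    have h4 : ab (D.σ g)⁻¹ (D.t0 k) = D.t0 kg := by
      rw [ht0, D.I3_ab_inv g (I0_sph_cb (D.t0_spec hkg).1)]
    have h5 : D.th k (Tg.G y).1 (Tg.G y).2 ∈ Sph := by rw [h2]; exact ab_sph _ hy
    have h6 := hS (D.σ g) _ h5 _ h0 hg.2.2 (by rw [h3, h4]; exact h1) (hs1.trans hg.1)
    exact h6.trans (le_max_left _ _)
  have n1 := key g hg kg hkg Tg hTg y hy1 hy2
  have n2 := key h hh kh hkh Th hTh z hz1 hz2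
  rw [← hyz] at n2
  have hx : D.th k (Tg.G y).1 (Tg.G y).2 ∈ Sph := (D.A_spec hk _ _).1
  have hle : ∀ g ∈ D.LL (D.t0 k) a s, ∀ h ∈ D.LL (D.t0 k) a s,
      c (D.σ g) ≤ max (8 / a₂) D.C * c (D.σ h) := by
    intro g hg h hh
    refine hg.2.1.trans ?_
    refine mul_le_mul (le_max_right _ _) hh.1 (by linarith) ?_
    exact (by linarith : (0 : ℝ) ≤ D.C).trans (le_max_right _ _)
  have hmem : g⁻¹ * h ∈ F := hF g h _ hx n1 n2 (hle g hg h hh) (hle h hh g hg)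
  refine ⟨hmem, ?_⟩
  obtain ⟨Ti, hTi, -, -, hTm, hTt⟩ := D.rel_inv hTh
  obtain ⟨T', hT', -, -, hT'm, hT't⟩ := D.rel_comp hTi hTg
  refine ⟨T', fun y => ?_, fun μ hμ => ?_⟩
  · rw [Tr.I3_G_comp hT'm hT't y]
    exact Tr.I3_G_left (fun μ => (hTm μ).2) (fun μ τ => (hTt μ τ).2) _
  · have hm2 : h⁻¹ * g ∈ F.image fun g => g⁻¹ :=
      Finset.mem_image.mpr ⟨_, hmem, by simp⟩
    obtain ⟨b1, -, -, b4, -, b6, b7, -⟩ := hC _ hm2 kh hkh kg hkg T' hT'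
    obtain ⟨c1, c2⟩ := I3_bd T' C r r hr b1 b4 b6 b7 μ hμ
    exact ⟨c1.trans (le_max_right _ _), c2.trans (le_max_right _ _)⟩

/-- uniform bound of the chart functions on boxes -/
theorem I3_Abd (r : ℝ) : ∃ B : ℝ, 0 ≤ B ∧ ∀ k ∈ D.FF, ∀ (μ : ℂ) (t : ℝ), ‖μ‖ ≤ r → |t| ≤ r →
    ‖D.A k μ t‖ ≤ B := by
  obtain ⟨ε, h1, h1', h2⟩ := D.growth
  obtain ⟨C, hC⟩ := h2 r
  refine ⟨|C| * (1 + |r|), by positivity, fun k hk μ t hμ ht => ?_⟩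
  refine (hC k hk μ t hμ).trans ?_
  have h3 : (1 : ℝ) ≤ 1 + |t| := by have := abs_nonneg t; linarith
  have h4 : (1 + |t|) ^ (1 - ε) ≤ (1 + |t|) ^ (1 : ℝ) :=
    Real.rpow_le_rpow_of_exponent_le h3 (by linarith)
  rw [Real.rpow_one] at h4
  have h5 : (0 : ℝ) ≤ (1 + |t|) ^ (1 - ε) := by positivity
  have h6 : 1 + |t| ≤ 1 + |r| := by have := le_abs_self r; linarith
  exact mul_le_mul (le_abs_self C) (h4.trans h6) h5 (abs_nonneg C)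

/-- the point of the segment seen from the chart of `g` -/
theorem I3_seg {T : Tr} {A A' : ℂ → ℝ → ℂ} (hc : T.Cmp A A') (μ : ℂ) (t : ℝ) (u : ℝ)
    (hu : u ∈ Set.Icc (0 : ℝ) 1) (B : ℝ) (hB : ‖A' μ t‖ ≤ B) :
    dist ((T.m μ, T.tr μ t, T.κ * (u * A' μ t + T.dq μ)) : ℂ × ℝ × ℂ)
      ((T.G (μ, t)).1, (T.G (μ, t)).2, A (T.G (μ, t)).1 (T.G (μ, t)).2) ≤
        B * (‖T.d2‖ * ‖T.d3‖)⁻¹ := by
  have h := hc μ t
  have e : dist ((T.m μ, T.tr μ t, T.κ * (u * A' μ t + T.dq μ)) : ℂ × ℝ × ℂ)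
      ((T.G (μ, t)).1, (T.G (μ, t)).2, A (T.G (μ, t)).1 (T.G (μ, t)).2) =
      ‖T.κ * (u * A' μ t + T.dq μ) - T.κ * (A' μ t + T.dq μ)‖ := by
    simp only [Tr.G]
    rw [h, Prod.dist_eq, Prod.dist_eq]
    simp [dist_eq_norm]
  rw [e, ← mul_sub, norm_mul]
  have e2 : (u : ℂ) * A' μ t + T.dq μ - (A' μ t + T.dq μ) = ((u - 1 : ℝ) : ℂ) * A' μ t := by
    push_cast; ring
  rw [e2, norm_mul, Complex.norm_real, Real.norm_eq_abs]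
  have e3 : ‖T.κ‖ = (‖T.d2‖ * ‖T.d3‖)⁻¹ := by
    unfold Tr.κ
    rw [norm_inv, norm_mul, norm_star]
  rw [e3, mul_comm B]
  refine mul_le_mul_of_nonneg_left ?_ (by positivity)
  have h1 : |u - 1| ≤ 1 := by rw [abs_le]; constructor <;> linarith [hu.1, hu.2]
  calc |u - 1| * ‖A' μ t‖ ≤ 1 * B := mul_le_mul h1 hB (norm_nonneg _) zero_le_one
    _ = B := one_mul B

/-- the derivative of the quadratic polynomial of a transition -/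
theorem I3_dq {T : Tr} {A A' : ℂ → ℝ → ℂ} (hc : T.Cmp A A') (μ : ℂ) (t : ℝ) (B M : ℝ)
    (hB : ‖A' μ t‖ ≤ B) (hM : ‖A (T.G (μ, t)).1 (T.G (μ, t)).2‖ ≤ M) :
    ‖T.dq μ‖ ≤ M * (‖T.d2‖ * ‖T.d3‖) + B := by
  have h := hc μ t
  have h2 := T.h2
  have h3 := T.h3
  have hs2 : star T.d2 ≠ 0 := star_ne_zero.mpr h2
  have e : T.dq μ = A (T.G (μ, t)).1 (T.G (μ, t)).2 * (star T.d2 * T.d3) - A' μ t := by
    simp only [Tr.G]
    rw [h]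
    unfold Tr.κ
    field_simp
    ring
  rw [e]
  refine (norm_sub_le _ _).trans (add_le_add ?_ hB)
  rw [norm_mul, norm_mul, norm_star]
  exact mul_le_mul_of_nonneg_right hM (by positivity)

/-- module I3: the weak form is bounded by the level sums -/
theorem TT_le {k : M4} (hk : k ∈ D.FF) {N : Set (ℂ × ℝ × ℂ)} {p q : ℂ × ℝ × ℂ → ℂ}
    (hL : Law N p q) (φ : ℂ × ℝ → ℂ) (hφ : ContDiff ℝ 1 φ) (hφc : HasCompactSupport φ)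
    (hN : ∀ x ∈ tsupport φ, (x.1, x.2, D.A k x.1 x.2) ∈ N) :
    ∃ a C S : ℝ, 0 < a ∧ ∀ s : ℝ, S ≤ s → ‖TT (D.A k) p q φ‖ ≤ C * D.SS (D.t0 k) a s := by
  classical
  have h0 := (D.t0_spec hk).1
  have hD1 := D.hC
  have hAc := (D.ch hk).cont
  -- the support
  obtain ⟨R, hR⟩ := hφc.isCompact.isBounded.exists_norm_le
  obtain ⟨a₁, ha₁, hbox⟩ := D.box_far R
  have ha : 0 < a₁ / 8 := by positivity
  obtain ⟨r₀, S₁, hcov⟩ := D.I3_cover (a₁ / 8) D.C ha hD1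
  set r := max 1 r₀ with hrdef
  have hr1 : 1 ≤ r := le_max_left _ _
  have hr0 : r₀ ≤ r := le_max_right _ _
  obtain ⟨F, K₁, S₂, hK₁, hovl⟩ := D.I3_ovl (a₁ / 8) (2 * r) ha (by positivity)
  obtain ⟨a₃, C₃, ha₃, hcoef⟩ := D.coef_far (a₁ / 8) ha
  obtain ⟨B', hB', hAbd⟩ := D.I3_Abd (2 * r)
  -- the graph
  set gr : ℂ × ℝ → ℂ × ℝ × ℂ := fun x => (x.1, x.2, D.A k x.1 x.2) with hgr
  have hgrc : Continuous gr := by
    rw [hgr]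
    exact continuous_fst.prodMk (continuous_snd.prodMk hAc)
  have hKc : IsCompact (gr '' tsupport φ) := hφc.isCompact.image hgrc
  obtain ⟨ε, hε, hth⟩ := hKc.exists_cthickening_subset_open hL.isOpen
    (by rintro _ ⟨x, hx, rfl⟩; exact hN x hx)
  have hcc : IsCompact (Metric.cthickening ε (gr '' tsupport φ)) := hKc.cthickening
  obtain ⟨B, hB⟩ := hcc.exists_bound_of_continuousOn (f := fun x => fderiv ℝ p x (0, 0, 1))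
    (((hL.smp.continuousOn_fderiv_of_isOpen hL.isOpen le_rfl).clm_apply
      continuousOn_const).mono hth)
  have hB0 : 0 ≤ max B 0 := le_max_right _ _
  obtain ⟨MA, hMA⟩ := hKc.isBounded.exists_norm_le
  obtain ⟨M₁, hM₁⟩ := hφ.continuous.bounded_above_of_compact_support hφc
  obtain ⟨M₂, hM₂⟩ := (hφ.continuous_fderiv one_ne_zero).bounded_above_of_compact_support
    (hφc.fderiv (𝕜 := ℝ))
  set M := max M₁ M₂ with hM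
  have hM0 : 0 ≤ M := (norm_nonneg (φ 0)).trans ((hM₁ 0).trans (le_max_left _ _))
  -- constants
  set Q := 2 * |C₃| / a₃ with hQ
  have hQ0 : 0 ≤ Q := by positivity
  set K := max K₁ ((1 + 2 * B') * (4 / a₃ ^ 2) + 2 * |MA| * Q + Q) with hK
  have hK0 : 0 ≤ K := hK₁.trans (le_max_left _ _)
  obtain ⟨S₃, hS₃⟩ := D.gap0 (ε * a₃ ^ 2 / (B' + 1)) (by positivity)
  obtain ⟨C, hC⟩ := I3_part r (max B 0) B' K M F.card hr1 hB0 hB' hK0 hM0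
  choose kf hkf Tf hTf using fun g => D.exists_tr g hk
  refine ⟨a₁ / 8, |C| * (a₃ ^ 4)⁻¹, max (max S₁ S₂) (max S₃ (max 1 (8 * D.C / a₁))), ha,
    fun s hs => ?_⟩
  have hs1 : S₁ ≤ s := (le_max_left _ _).trans ((le_max_left _ _).trans hs)
  have hs2 : S₂ ≤ s := (le_max_right _ _).trans ((le_max_left _ _).trans hs)
  have hs3 : S₃ ≤ s := (le_max_left _ _).trans ((le_max_right _ _).trans hs)
  have hs4 : 1 ≤ s := (le_max_left _ _).trans ((le_max_right _ _).trans ((le_max_right _ _).trans hs))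
  have hs5 : 8 * D.C / a₁ ≤ s :=
    (le_max_right _ _).trans ((le_max_right _ _).trans ((le_max_right _ _).trans hs))
  -- facts on the coefficients
  have hco : ∀ g ∈ D.LL (D.t0 k) (a₁ / 8) s, 0 < s1 (D.R g) ∧ a₃ * s1 (D.R g) ≤ ‖(Tf g).d3‖ ∧
      ‖(Tf g).d2 / (Tf g).d3‖ ≤ Q ∧ (‖(Tf g).d3‖ ^ 2)⁻¹ ≤ 4 / a₃ ^ 2 ∧
      B' * (‖(Tf g).d2‖ * ‖(Tf g).d3‖)⁻¹ ≤ ε := by
    intro g hg
    obtain ⟨q1, q2, q3, q4⟩ := hcoef g k hk (kf g) (hkf g) (Tf g) (hTf g) hg.2.2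
    have hs0 := D.F0_s1_pos' g
    have hs12 := (D.sz_inv g).2.2
    have hd3 : 0 < ‖(Tf g).d3‖ := norm_pos_iff.mpr (Tf g).h3
    have hd2 : 0 < ‖(Tf g).d2‖ := norm_pos_iff.mpr (Tf g).h2
    have hs2le := s2_le (D.R g)
    have hs20 := F0.s2_nonneg (D.R g)
    have e1 : ‖(Tf g).d2‖ ≤ 2 * |C₃| * s1 (D.R g) := by
      have h1 : ‖(Tf g).d2‖ * s1 (D.R g) ≤ (2 * |C₃| * s1 (D.R g)) * s1 (D.R g) := by
        calc ‖(Tf g).d2‖ * s1 (D.R g) ≤ C₃ * s2 (D.R g) := q3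
          _ ≤ |C₃| * s2 (D.R g) := mul_le_mul_of_nonneg_right (le_abs_self _) hs20
          _ ≤ |C₃| * (2 * s1 (D.R g) ^ 2) := mul_le_mul_of_nonneg_left hs2le (abs_nonneg _)
          _ = _ := by ring
      exact le_of_mul_le_mul_right h1 hs0
    refine ⟨hs0, q1, ?_, ?_, ?_⟩
    · rw [norm_div, div_le_iff₀ hd3, hQ]
      calc ‖(Tf g).d2‖ ≤ 2 * |C₃| * s1 (D.R g) := e1
        _ = 2 * |C₃| / a₃ * (a₃ * s1 (D.R g)) := by field_simp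
        _ ≤ 2 * |C₃| / a₃ * ‖(Tf g).d3‖ := mul_le_mul_of_nonneg_left q1 hQ0
    · have h1 : a₃ / 2 ≤ ‖(Tf g).d3‖ := by nlinarith
      have h2 : (a₃ / 2) ^ 2 ≤ ‖(Tf g).d3‖ ^ 2 := pow_le_pow_left₀ (by positivity) h1 2
      calc (‖(Tf g).d3‖ ^ 2)⁻¹ ≤ ((a₃ / 2) ^ 2)⁻¹ := inv_anti₀ (by positivity) h2
        _ = 4 / a₃ ^ 2 := by field_simp; ring
    · have h1 := hS₃ g (hs3.trans hg.1)
      have h2 : a₃ ≤ ‖(Tf g).d2‖ * (ε * a₃ ^ 2 / (B' + 1)) * s1 (D.R g) := by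
        have h3 : a₃ * s1 (D.R g) ≤
            (‖(Tf g).d2‖ * (ε * a₃ ^ 2 / (B' + 1)) * s1 (D.R g)) * s1 (D.R g) := by
          calc a₃ * s1 (D.R g) ≤ ‖(Tf g).d2‖ * s2 (D.R g) := q4
            _ ≤ ‖(Tf g).d2‖ * (ε * a₃ ^ 2 / (B' + 1) * s1 (D.R g) ^ 2) :=
              mul_le_mul_of_nonneg_left h1 hd2.le
            _ = _ := by ring
        exact le_of_mul_le_mul_right h3 hs0
      have h4 : a₃ * a₃ ≤ (‖(Tf g).d2‖ * ‖(Tf g).d3‖) * (ε * a₃ ^ 2 / (B' + 1)) := by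
        calc a₃ * a₃ ≤ (‖(Tf g).d2‖ * (ε * a₃ ^ 2 / (B' + 1)) * s1 (D.R g)) * a₃ :=
              mul_le_mul_of_nonneg_right h2 ha₃.le
          _ = (‖(Tf g).d2‖ * (a₃ * s1 (D.R g))) * (ε * a₃ ^ 2 / (B' + 1)) := by ring
          _ ≤ (‖(Tf g).d2‖ * ‖(Tf g).d3‖) * (ε * a₃ ^ 2 / (B' + 1)) := by gcongr
      have h5 : (B' + 1) ≤ (‖(Tf g).d2‖ * ‖(Tf g).d3‖) * ε := by
        have h6 : a₃ * a₃ * (B' + 1) ≤ a₃ * a₃ * ((‖(Tf g).d2‖ * ‖(Tf g).d3‖) * ε) := by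
          calc a₃ * a₃ * (B' + 1) ≤
                ((‖(Tf g).d2‖ * ‖(Tf g).d3‖) * (ε * a₃ ^ 2 / (B' + 1))) * (B' + 1) := by gcongr
            _ = a₃ * a₃ * ((‖(Tf g).d2‖ * ‖(Tf g).d3‖) * ε) := by field_simp
        exact le_of_mul_le_mul_left h6 (by positivity)
      rw [← div_eq_mul_inv, div_le_iff₀ (by positivity)]
      linarith
  -- application of the partition lemma
  have hfin := D.I0_LL_fin (D.t0 k) (a₁ / 8) s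
  have hmem : ∀ g, g ∈ hfin.toFinset ↔ g ∈ D.LL (D.t0 k) (a₁ / 8) s := fun g => hfin.mem_toFinset
  have hcmp : ∀ g, (Tf g).Cmp (D.A k) (D.A (kf g)) := fun g => (D.rel_cmp hk (hkf g) (hTf g)).1
  have hmain := hC G hfin.toFinset (D.A k) hAc N p q hL φ hφ hφc
    (fun x => ⟨(hM₁ x).trans (le_max_left _ _), (hM₂ x).trans (le_max_right _ _)⟩) hN
    Tf (fun g => D.A (kf g)) (fun g _ => (D.ch (hkf g)).cont) (fun g _ => hcmp g)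
    ?_ ?_ ?_ ?_ ?_
  · -- conclusion
    rw [D.I0_SS_eq]
    refine hmain.trans ?_
    have hnn : (0 : ℝ) ≤ ∑ i ∈ hfin.toFinset, (‖(Tf i).d3‖ ^ 4)⁻¹ :=
      Finset.sum_nonneg fun i _ => by positivity
    refine (mul_le_mul_of_nonneg_right (le_abs_self C) hnn).trans ?_
    rw [mul_assoc, Finset.mul_sum (a := (a₃ ^ 4)⁻¹)]
    refine mul_le_mul_of_nonneg_left (Finset.sum_le_sum fun g hg => ?_) (abs_nonneg C)
    obtain ⟨q0, q1, -⟩ := hco g ((hmem g).mp hg)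
    rw [← mul_inv, ← mul_pow]
    exact inv_anti₀ (by positivity) (pow_le_pow_left₀ (by positivity) q1 4)
  · -- cover
    intro x hx
    have hxs := (D.A_spec hk x.1 x.2).1
    obtain ⟨g, hg1, hg2, hg3⟩ := D.near _ hxs s hs4
    have hxR := hR x hx
    have e1 := hbox k hk x.1 x.2 ((norm_fst_le x).trans hxR) ((norm_snd_le x).trans hxR)
    have e2 := kp_tri (I0_sph_cb hxs) (I0_sph_cb h0) (zz_mem (D.σ g))
    have e3 : kp (zz (D.σ g)) (D.th k x.1 x.2) ≤ a₁ / 8 := by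
      have hk0 : 0 ≤ kp (zz (D.σ g)) (D.th k x.1 x.2) := norm_nonneg _
      have h1 : kp (zz (D.σ g)) (D.th k x.1 x.2) * s ≤ D.C := by
        refine le_trans (mul_le_mul_of_nonneg_left ?_ hk0) hg1
        nlinarith
      have h2 : 8 * D.C ≤ s * a₁ := by rwa [div_le_iff₀ ha₁] at hs5
      have h3 : kp (zz (D.σ g)) (D.th k x.1 x.2) * s ≤ a₁ / 8 * s := by linarith
      exact le_of_mul_le_mul_right h3 (by linarith)
    have hg4 : a₁ / 8 ≤ kp (zz (D.σ g)) (D.t0 k) := by linarith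
    obtain ⟨y, hy1, hy2, hy3⟩ := hcov k hk g (kf g) (hkf g) (Tf g) (hTf g) hg4 (hs1.trans hg2) x hg1
    exact ⟨g, (hmem g).mpr ⟨hg2, hg3, hg4⟩, y, hy1.trans hr0, hy2.trans hr0, hy3⟩
  · -- bounds
    exact fun g _ μ t hμ ht => hAbd (kf g) (hkf g) μ t hμ ht
  · -- segments
    intro g hg μ t hμ ht hx u hu
    obtain ⟨q0, q1, q2, q3, q4⟩ := hco g ((hmem g).mp hg)
    have h1 := I3_seg (hcmp g) μ t u hu B' (hAbd (kf g) (hkf g) μ t hμ ht)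
    have h2 : ((Tf g).m μ, (Tf g).tr μ t, (Tf g).κ * (u * D.A (kf g) μ t + (Tf g).dq μ)) ∈
        Metric.cthickening ε (gr '' tsupport φ) :=
      Metric.mem_cthickening_of_dist_le _ (gr ((Tf g).G (μ, t))) _ _ ⟨_, hx, rfl⟩ (h1.trans q4)
    exact ⟨hth h2, (hB _ h2).trans (le_max_left _ _)⟩
  · -- derivatives
    intro g hg μ t hμ ht hx
    obtain ⟨q0, q1, q2, q3, q4⟩ := hco g ((hmem g).mp hg)
    have h1 : ‖D.A k ((Tf g).G (μ, t)).1 ((Tf g).G (μ, t)).2‖ ≤ |MA| := by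
      have h2 := hMA _ ⟨_, hx, rfl⟩
      have h3 : ‖D.A k ((Tf g).G (μ, t)).1 ((Tf g).G (μ, t)).2‖ ≤ ‖gr ((Tf g).G (μ, t))‖ :=
        (norm_snd_le (gr ((Tf g).G (μ, t))).2).trans (norm_snd_le (gr ((Tf g).G (μ, t))))
      exact h3.trans (h2.trans (le_abs_self _))
    have h2 := I3_dq (hcmp g) μ t B' |MA| (hAbd (kf g) (hkf g) μ t hμ ht) h1
    have hd3 : 0 < ‖(Tf g).d3‖ := norm_pos_iff.mpr (Tf g).h3
    refine ⟨?_, ?_⟩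
    · refine q2.trans (le_trans ?_ (le_max_right _ _))
      have : 0 ≤ (1 + 2 * B') * (4 / a₃ ^ 2) + 2 * |MA| * Q := by positivity
      linarith
    · refine le_trans ?_ (le_max_right _ _)
      have h3 : (1 + 2 * ‖(Tf g).dq μ‖) / ‖(Tf g).d3‖ ^ 2 ≤
          (1 + 2 * B') * (‖(Tf g).d3‖ ^ 2)⁻¹ + 2 * |MA| * ‖(Tf g).d2 / (Tf g).d3‖ := by
        rw [norm_div]
        have e : (1 + 2 * B') * (‖(Tf g).d3‖ ^ 2)⁻¹ + 2 * |MA| * (‖(Tf g).d2‖ / ‖(Tf g).d3‖) =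
            (1 + 2 * (|MA| * (‖(Tf g).d2‖ * ‖(Tf g).d3‖) + B')) / ‖(Tf g).d3‖ ^ 2 := by
          field_simp
          ring
        rw [e]
        gcongr
      have h4 : (1 + 2 * B') * (‖(Tf g).d3‖ ^ 2)⁻¹ ≤ (1 + 2 * B') * (4 / a₃ ^ 2) := by gcongr
      have h5 : 2 * |MA| * ‖(Tf g).d2 / (Tf g).d3‖ ≤ 2 * |MA| * Q := by gcongr
      linarith
  · -- overlaps
    intro g hg
    refine ⟨F.image fun f => g * f, Finset.card_image_le, fun h hh hyz => ?_⟩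
    obtain ⟨y, z, hy1, hy2, hz1, hz2, hyz⟩ := hyz
    obtain ⟨e1, T', e2, e3⟩ := hovl k hk s hs2 g ((hmem g).mp hg) h ((hmem h).mp hh) (kf g) (hkf g)
      (kf h) (hkf h) (Tf g) (Tf h) (hTf g) (hTf h) y z hy1 hy2 hz1 hz2 hyz
    refine ⟨Finset.mem_image.mpr ⟨_, e1, by simp⟩, T', e2, fun μ hμ => ?_⟩
    obtain ⟨e4, e5⟩ := e3 μ hμ
    exact ⟨e4.trans (le_max_left _ _), e5.trans (le_max_left _ _)⟩

end Kd

end Pool.Agent.MPd01a95.KT
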