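import Mathlib
import Pool.Agent.Lib.MP_d01a95_gt_K.KDefs2
import Pool.Agent.Lib.MP_d01a95_gt_K.KA1
import Pool.Agent.Lib.MP_d01a95_gt_K.KA2
import Pool.Agent.Lib.MP_d01a95_gt_K.KA4
import Pool.Agent.Lib.MP_d01a95_gt_K.KF0
import Pool.Agent.Lib.MP_d01a95_gt_K.KF6
import Pool.Agent.Lib.MP_d01a95_gt_K.KH1
import Pool.Agent.Lib.MP_d01a95_gt_K.KH2
import Pool.Agent.Lib.MP_d01a95_gt_K.KH3
import Pool.Agent.Lib.MP_d01a95_gt_K.KH4
import Pool.Agent.Lib.MP_d01a95_gt_K.KI2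

set_option autoImplicit false
set_option linter.all false

open Matrix Filter Topology MeasureTheory
open scoped ContDiff

namespace Pool.Agent.MPd01a95.KT

open GU

variable {G : Type} [Group G]

/-- a box -/
def I4_B (r : ℝ) : Set (ℂ × ℝ) := Metric.closedBall 0 r ×ˢ Set.Icc (-r) r

theorem I4_vol_B (r : ℝ) : volume (I4_B r) < ⊤ := by
  have h : IsCompact (I4_B r) := (isCompact_closedBall _ _).prod isCompact_Icc
  exact h.measure_lt_top

/-- the image of a ball under the affine map of a transition -/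
theorem I4_m_image (T : Tr) {r : ℝ} (hr : 0 ≤ r) :
    T.m '' Metric.closedBall 0 r = Metric.closedBall T.β (‖T.d2‖ / ‖T.d3‖ * r) := by
  have h3 := T.h3
  have h2 := T.h2
  have p : 0 < ‖T.d2 / T.d3‖ := norm_pos_iff.mpr (div_ne_zero h2 h3)
  ext x
  constructor
  · rintro ⟨y, hy, rfl⟩
    rw [mem_closedBall_zero_iff] at hy
    rw [mem_closedBall_iff_norm]
    have : T.m y - T.β = T.d2 / T.d3 * y := by simp [Tr.m]
    rw [this, norm_mul, ← norm_div]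
    exact mul_le_mul_of_nonneg_left hy (norm_nonneg _)
  · intro hx
    rw [mem_closedBall_iff_norm, ← norm_div] at hx
    refine ⟨(x - T.β) / (T.d2 / T.d3), ?_, ?_⟩
    · rw [mem_closedBall_zero_iff, norm_div, div_le_iff₀ p]
      linarith
    · simp only [Tr.m]
      rw [mul_div_cancel₀ _ (div_ne_zero h2 h3)]
      ring

theorem I4_m_inj (T : Tr) {x y : ℂ} (h : T.m x = T.m y) : x = y := by
  simp only [Tr.m] at h
  have h0 := div_ne_zero T.h2 T.h3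
  have h1 : T.d2 / T.d3 * (x - y) = 0 := by linear_combination h
  exact sub_eq_zero.mp ((mul_eq_zero.mp h1).resolve_left h0)

theorem I4_q_cont (T : Tr) : Continuous T.q := by
  unfold Tr.q
  fun_prop

theorem I4_G_cont (T : Tr) : Continuous T.G := by
  have := I4_q_cont T
  unfold Tr.G Tr.m Tr.tr
  fun_prop

/-- the volume of the image of a box -/
theorem I4_vol (T : Tr) {r : ℝ} (hr : 0 ≤ r) : volume (T.G '' I4_B r) =
    ENNReal.ofReal (‖T.d2‖ ^ 2 * (‖T.d3‖ ^ 4)⁻¹) * volume (I4_B r) := by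
  have p3 : 0 < ‖T.d3‖ := norm_pos_iff.mpr T.h3
  have p2 : 0 < ‖T.d2‖ := norm_pos_iff.mpr T.h2
  have hK : IsCompact (I4_B r) := (isCompact_closedBall _ _).prod isCompact_Icc
  have hm : MeasurableSet (T.G '' I4_B r) := (hK.image (I4_G_cont T)).measurableSet
  have hmb : MeasurableSet (T.m '' Metric.closedBall 0 r) := by
    rw [I4_m_image T hr]; exact Metric.isClosed_closedBall.measurableSet
  have sec : ∀ x : ℂ, volume (Prod.mk x ⁻¹' (T.G '' I4_B r)) =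
      (T.m '' Metric.closedBall 0 r).indicator
        (fun _ => ENNReal.ofReal (2 * r / ‖T.d3‖ ^ 2)) x := by
    intro x
    by_cases hx : x ∈ T.m '' Metric.closedBall 0 r
    · rw [Set.indicator_of_mem hx]
      obtain ⟨y, hy, rfl⟩ := hx
      have e : Prod.mk (T.m y) ⁻¹' (T.G '' I4_B r) =
          Set.Icc ((-r + T.q y) / ‖T.d3‖ ^ 2) ((r + T.q y) / ‖T.d3‖ ^ 2) := by
        ext s
        constructor
        · rintro ⟨⟨y', t⟩, ⟨hy', ht⟩, he⟩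
          simp only [Tr.G, Prod.mk.injEq] at he
          obtain rfl := I4_m_inj T he.1
          rw [← he.2]
          simp only [Tr.tr]
          have ht' : -r ≤ t ∧ t ≤ r := ht
          constructor
          · gcongr; exact ht'.1
          · gcongr; exact ht'.2
        · rintro ⟨h1, h2⟩
          rw [div_le_iff₀ (by positivity)] at h1
          rw [le_div_iff₀ (by positivity)] at h2
          refine ⟨(y, s * ‖T.d3‖ ^ 2 - T.q y), ⟨hy, ?_, ?_⟩, ?_⟩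
          · change -r ≤ _; simp only; linarith
          · change _ ≤ r; simp only; linarith
          · simp only [Tr.G, Tr.tr, Prod.mk.injEq, true_and]
            field_simp
            ring
      rw [e, Real.volume_Icc]
      congr 1
      ring
    · rw [Set.indicator_of_notMem hx]
      have e : Prod.mk x ⁻¹' (T.G '' I4_B r) = ∅ := by
        ext s
        simp only [Set.mem_preimage, Set.mem_empty_iff_false, iff_false]
        rintro ⟨⟨y', t⟩, ⟨hy', ht⟩, he⟩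
        simp only [Tr.G, Prod.mk.injEq] at he
        exact hx ⟨y', hy', he.1⟩
      rw [e, measure_empty]
  rw [Measure.volume_eq_prod, Measure.prod_apply hm]
  simp_rw [sec]
  rw [lintegral_indicator hmb, setLIntegral_const, I4_m_image T hr, I4_B, Measure.prod_prod,
    Complex.volume_closedBall, Complex.volume_closedBall, Real.volume_Icc,
    ← ENNReal.ofReal_pow (by positivity), ← ENNReal.ofReal_pow hr]
  generalize (NNReal.pi : ENNReal) = P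
  have e1 : ENNReal.ofReal (2 * r / ‖T.d3‖ ^ 2) *
      (ENNReal.ofReal ((‖T.d2‖ / ‖T.d3‖ * r) ^ 2) * P) =
      ENNReal.ofReal (2 * r / ‖T.d3‖ ^ 2 * (‖T.d2‖ / ‖T.d3‖ * r) ^ 2) * P := by
    rw [ENNReal.ofReal_mul (by positivity)]; ring
  have e2 : ENNReal.ofReal (‖T.d2‖ ^ 2 * (‖T.d3‖ ^ 4)⁻¹) *
      (ENNReal.ofReal (r ^ 2) * P * ENNReal.ofReal (r - -r)) =
      ENNReal.ofReal (‖T.d2‖ ^ 2 * (‖T.d3‖ ^ 4)⁻¹ * (r ^ 2 * (r - -r))) * P := by
    have h1 : 0 ≤ ‖T.d2‖ ^ 2 * (‖T.d3‖ ^ 4)⁻¹ := by positivity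
    have h2 : 0 ≤ r ^ 2 := by positivity
    rw [ENNReal.ofReal_mul h1, ENNReal.ofReal_mul h2]; ring
  rw [e1, e2]
  congr 2
  field_simp
  ring

namespace Kd

variable (D : Kd G)

/-- the chart as a function of two variables -/
noncomputable def I4_th (k : M4) (x : ℂ × ℝ) : Eb := D.th k x.1 x.2

theorem I4_th_cont {k : M4} (hk : k ∈ D.FF) : Continuous (D.I4_th k) := by
  have h := D.th_cont
  have h2 : Continuous fun x : ℂ × ℝ => ((k, x.1, x.2) : M4 × ℂ × ℝ) := by fun_prop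
  exact h.comp_continuous h2 fun x => ⟨hk, Set.mem_univ _⟩

/-- the measure -/
noncomputable def I4_m (k k₂ : M4) : Measure Eb :=
  Measure.map (D.I4_th k) volume + Measure.map (D.I4_th k₂) volume

theorem I4_m_apply {k k₂ : M4} (hk : k ∈ D.FF) (hk₂ : k₂ ∈ D.FF) {S : Set Eb}
    (hS : MeasurableSet S) : D.I4_m k k₂ S =
      volume (D.I4_th k ⁻¹' S) + volume (D.I4_th k₂ ⁻¹' S) := by
  rw [I4_m, Measure.add_apply, Measure.map_apply (D.I4_th_cont hk).measurable hS,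
    Measure.map_apply (D.I4_th_cont hk₂).measurable hS]

theorem I4_kp_cont (z : Eb) : Continuous fun x => kp z x := by
  have h : Continuous fun x : Eb => ((z, x) : Eb × Eb) := continuous_const.prodMk continuous_id
  have h2 := Continuous.comp kp_cont h
  simpa only [Function.comp_def] using h2

theorem I4_kp_cont' (z : Eb) : Continuous fun x => kp x z := by
  have h : Continuous fun x : Eb => ((x, z) : Eb × Eb) := continuous_id.prodMk continuous_const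
  have h2 := Continuous.comp kp_cont h
  simpa only [Function.comp_def] using h2

theorem I4_Sph_closed : IsClosed Sph := Metric.isClosed_sphere

theorem I4_OO (C : ℝ) (g : G) : MeasurableSet (D.OO C g) := by
  have e : D.OO C g = Sph ∩ {θ | kp (zz (D.σ g)) θ * c (D.σ g) ^ 2 ≤ C} := rfl
  rw [e]
  exact (I4_Sph_closed.inter
    (isClosed_le ((I4_kp_cont _).mul continuous_const) continuous_const)).measurableSet

theorem I4_OI (C : ℝ) (g : G) : MeasurableSet (D.OI C g) := by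
  have e : D.OI C g = Sph ∩ {θ | kp (zz (D.σ g)) θ * c (D.σ g) ^ 2 < C} := rfl
  rw [e]
  exact I4_Sph_closed.measurableSet.inter
    (isOpen_lt ((I4_kp_cont _).mul continuous_const) continuous_const).measurableSet

theorem I4_surj (T : Tr) (x : ℂ × ℝ) : ∃ y : ℂ × ℝ, T.G y = x := by
  have h3 := T.h3
  have h2 := T.h2
  have p3 : ‖T.d3‖ ≠ 0 := norm_ne_zero_iff.mpr T.h3
  refine ⟨((x.1 - T.β) / (T.d2 / T.d3), x.2 * ‖T.d3‖ ^ 2 - T.q ((x.1 - T.β) / (T.d2 / T.d3))), ?_⟩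
  have e1 : T.m ((x.1 - T.β) / (T.d2 / T.d3)) = x.1 := by
    simp only [Tr.m]
    rw [mul_div_cancel₀ _ (div_ne_zero h2 h3)]
    ring
  have e2 : T.tr ((x.1 - T.β) / (T.d2 / T.d3))
      (x.2 * ‖T.d3‖ ^ 2 - T.q ((x.1 - T.β) / (T.d2 / T.d3))) = x.2 := by
    simp only [Tr.tr]
    field_simp
    ring
  simp only [Tr.G]
  rw [e1, e2]

theorem I4_inv_ab (g : GU (Fin 2)) {z : Eb} (hz : z ∈ Sph) : ab g⁻¹ (ab g z) = z := by
  rw [← ab_mul _ _ (Metric.sphere_subset_closedBall hz), inv_mul_cancel, ab_one]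

/-- upper bound of the mass of a set seen from `g` in one chart -/
theorem I4_up (C a : ℝ) (hC : 1 ≤ C) (ha : 0 < a) : ∃ C' S : ℝ, 0 ≤ C' ∧ ∀ k ∈ D.FF, ∀ g,
    S ≤ c (D.σ g) → a ≤ kp (zz (D.σ g)) (D.t0 k) → volume (D.I4_th k ⁻¹' D.OO C g) ≤
      ENNReal.ofReal (C' * (s2 (D.R g) / s1 (D.R g)) ^ 2 * (s1 (D.R g) ^ 4)⁻¹) := by
  obtain ⟨S, hS⟩ := sep_of_near C a hC ha
  obtain ⟨r, hr⟩ := D.far_box (8 * C)⁻¹ (by positivity)
  obtain ⟨b, K, hb, hfar⟩ := D.coef_far a ha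
  set r' := max r 0 with hr'
  have hr0 : 0 ≤ r' := le_max_right _ _
  set V := (volume (I4_B r')).toReal with hV
  have hV0 : 0 ≤ V := ENNReal.toReal_nonneg
  refine ⟨K ^ 2 * (b ^ 4)⁻¹ * V, S, by positivity, fun k hk g hg hf => ?_⟩
  obtain ⟨k', hk', T, hT⟩ := D.exists_tr g hk
  obtain ⟨-, ht, hth⟩ := D.rel_cmp hk hk' hT
  obtain ⟨f1, -, f3, -⟩ := hfar g k hk k' hk' T hT hf
  have p1 : 0 < s1 (D.R g) := D.F0_s1_pos' g
  have p2 : 0 ≤ s2 (D.R g) := F0.s2_nonneg _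
  have p3 : 0 < ‖T.d3‖ := norm_pos_iff.mpr T.h3
  have hsub : D.I4_th k ⁻¹' D.OO C g ⊆ T.G '' I4_B r' := by
    intro x hx
    obtain ⟨y, rfl⟩ := I4_surj T x
    refine ⟨y, ?_, rfl⟩
    have hx' : D.th k (T.m y.1) (T.tr y.1 y.2) ∈ D.OO C g := hx
    rw [hth] at hx'
    have h1 := hS (D.σ g) _ hx'.1 (D.t0 k) (D.t0_spec hk).1 hx'.2 hf hg
    rw [I4_inv_ab _ (D.A_spec hk' y.1 y.2).1, ht, I4_inv_ab _ (D.t0_spec hk').1] at h1
    obtain ⟨h2, h3⟩ := hr k' hk' y.1 y.2 h1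
    have h4 := abs_le.mp (h3.trans (le_max_left r 0))
    exact ⟨mem_closedBall_zero_iff.mpr (h2.trans (le_max_left _ _)), h4.1, h4.2⟩
  refine (measure_mono hsub).trans ?_
  rw [I4_vol T hr0, ← ENNReal.ofReal_toReal (I4_vol_B r').ne, ← hV,
    ← ENNReal.ofReal_mul (by positivity)]
  apply ENNReal.ofReal_le_ofReal
  have q1 : ‖T.d2‖ ≤ K * (s2 (D.R g) / s1 (D.R g)) := by
    rw [← mul_div_assoc, le_div_iff₀ p1]
    exact f3
  have q2 : ‖T.d2‖ ^ 2 ≤ (K * (s2 (D.R g) / s1 (D.R g))) ^ 2 :=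
    pow_le_pow_left₀ (norm_nonneg _) q1 2
  have q3 : (b * s1 (D.R g)) ^ 4 ≤ ‖T.d3‖ ^ 4 := pow_le_pow_left₀ (by positivity) f1 4
  have q4 : (‖T.d3‖ ^ 4)⁻¹ ≤ ((b * s1 (D.R g)) ^ 4)⁻¹ := inv_anti₀ (by positivity) q3
  have q5 : ‖T.d2‖ ^ 2 * (‖T.d3‖ ^ 4)⁻¹ ≤ (K * (s2 (D.R g) / s1 (D.R g))) ^ 2 *
      ((b * s1 (D.R g)) ^ 4)⁻¹ := mul_le_mul q2 q4 (by positivity) (by positivity)
  have q6 := mul_le_mul_of_nonneg_right q5 hV0
  refine q6.trans (le_of_eq ?_)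
  rw [mul_pow, mul_pow, mul_inv]
  ring

theorem I4_V1 : 0 < (volume (I4_B 1)).toReal := by
  apply ENNReal.toReal_pos _ (I4_vol_B 1).ne
  have h : volume (I4_B 1) = volume (Metric.closedBall (0 : ℂ) 1) *
      volume (Set.Icc (-1 : ℝ) 1) := by
    rw [I4_B, Measure.volume_eq_prod, Measure.prod_prod]
  rw [h]
  have h1 : volume (Metric.closedBall (0 : ℂ) 1) ≠ 0 :=
    (Metric.measure_closedBall_pos volume (0 : ℂ) one_pos).ne'
  have h2 : volume (Set.Icc (-1 : ℝ) 1) ≠ 0 := by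
    rw [Real.volume_Icc]
    norm_num
  exact mul_ne_zero h1 h2

/-- lower bound of the mass of a set seen from `g` in one chart -/
theorem I4_lo : ∃ C₀ : ℝ, 1 ≤ C₀ ∧ ∀ C : ℝ, C₀ ≤ C → ∀ a : ℝ, 0 < a → ∃ c' S : ℝ, 0 < c' ∧
    ∀ k ∈ D.FF, ∀ g, S ≤ c (D.σ g) → a ≤ kp (zz (D.σ g)) (D.t0 k) → ∀ k' ∈ D.FF, ∀ T : Tr,
      Rel (D.R g) k k' T →
      ENNReal.ofReal (c' * ‖T.d2‖ ^ 2 * (s1 (D.R g) ^ 4)⁻¹) ≤ volume (D.I4_th k ⁻¹' D.OI C g) := by
  obtain ⟨a₁, ha₁, hbox⟩ := D.box_far 1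
  refine ⟨8 / a₁ + 1, by have : 0 < 8 / a₁ := by positivity
                         linarith, fun C hC a ha => ?_⟩
  obtain ⟨S, hS⟩ := near_of_sep a a₁ ha ha₁
  have hV1 := I4_V1
  set V := (volume (I4_B 1)).toReal with hV
  refine ⟨(16 ^ 4)⁻¹ * V, S, by positivity, fun k hk g hg hf k' hk' T hT => ?_⟩
  obtain ⟨-, ht, hth⟩ := D.rel_cmp hk hk' hT
  obtain ⟨r1, -⟩ := D.I2_raw hk hk' hT
  have p1 : 0 < s1 (D.R g) := D.F0_s1_pos' g
  have p3 : 0 < ‖T.d3‖ := norm_pos_iff.mpr T.h3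
  have hsub : T.G '' I4_B 1 ⊆ D.I4_th k ⁻¹' D.OI C g := by
    rintro _ ⟨y, ⟨hy1, hy2⟩, rfl⟩
    change D.th k (T.m y.1) (T.tr y.1 y.2) ∈ D.OI C g
    rw [hth]
    have hs := (D.A_spec hk' y.1 y.2).1
    have hy2' : |y.2| ≤ 1 := abs_le.mpr hy2
    have h1 := hbox k' hk' y.1 y.2 (mem_closedBall_zero_iff.mp hy1) hy2'
    have h2 := hS (D.σ g) (ab (D.σ g) (D.th k' y.1 y.2)) (ab_sph _ hs) (D.t0 k)
      (D.t0_spec hk).1 hf (by
        rw [I4_inv_ab _ hs, ht, I4_inv_ab _ (D.t0_spec hk').1]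
        exact h1) hg
    refine ⟨ab_sph _ hs, ?_⟩
    have h3 : kp (zz (D.σ g)) (ab (D.σ g) (D.th k' y.1 y.2)) * c (D.σ g) ^ 2 ≤ 8 / a₁ := h2
    linarith
  refine le_trans ?_ (measure_mono hsub)
  rw [I4_vol T zero_le_one, ← ENNReal.ofReal_toReal (I4_vol_B 1).ne, ← hV,
    ← ENNReal.ofReal_mul (by positivity)]
  apply ENNReal.ofReal_le_ofReal
  have q3 : ‖T.d3‖ ^ 4 ≤ (16 * s1 (D.R g)) ^ 4 := pow_le_pow_left₀ (norm_nonneg _) r1 4
  have q4 : ((16 * s1 (D.R g)) ^ 4)⁻¹ ≤ (‖T.d3‖ ^ 4)⁻¹ := inv_anti₀ (by positivity) q3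
  have q5 : ‖T.d2‖ ^ 2 * ((16 * s1 (D.R g)) ^ 4)⁻¹ ≤ ‖T.d2‖ ^ 2 * (‖T.d3‖ ^ 4)⁻¹ :=
    mul_le_mul_of_nonneg_left q4 (by positivity)
  have q6 := mul_le_mul_of_nonneg_right q5 hV1.le
  refine le_trans (le_of_eq ?_) q6
  rw [mul_pow, mul_inv]
  ring

/-- module I4: existence of the measures, uniformly in the point. (The sum of the images of
Lebesgue measure under the charts `th k`, `th k₂` of `coef_two`.) -/
theorem exists_ms : ∃ C₀ : ℝ, 1 ≤ C₀ ∧ ∀ C : ℝ, C₀ ≤ C → ∀ a : ℝ, 0 < a → ∃ C' S : ℝ, 1 ≤ C' ∧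
    ∀ θ ∈ Sph, ∃ m : Measure Eb, D.Ms C a C' S θ m := by
  obtain ⟨C₀, hC₀, hlo⟩ := D.I4_lo
  refine ⟨C₀, hC₀, fun C hC a ha => ?_⟩
  obtain ⟨c', S₂, hc', hlo⟩ := hlo C hC a ha
  obtain ⟨C₁, S₁, hC₁, hup⟩ := D.I4_up C a (hC₀.trans hC) ha
  obtain ⟨r, hr⟩ := D.far_box (a / 64) (by positivity)
  obtain ⟨b, hb, htwo⟩ := D.I2_two a ha
  set r' := max r 0 with hr'
  have hr0 : 0 ≤ r' := le_max_right _ _
  set V := (volume (I4_B r')).toReal with hV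
  have hV0 : 0 ≤ V := ENNReal.toReal_nonneg
  set C' : ℝ := 1 + 2 * V + 2 * C₁ + (c' * b ^ 2)⁻¹ with hC'
  have hi : 0 < (c' * b ^ 2)⁻¹ := by positivity
  refine ⟨C', max S₁ S₂, by linarith, fun θ hθ => ?_⟩
  obtain ⟨k, hk, hkt⟩ := D.I2_frame hθ
  have hk₂ := D.I2_U_FF hk
  have hk₂t : D.t0 (k * I2_U) = θ := by rw [D.I2_t0 (I2_U_e1 k), hkt]
  refine ⟨D.I4_m k (k * I2_U), ⟨?_, ?_, ?_, ?_⟩⟩
  · have hm : MeasurableSet {x : Eb | ¬(x ∈ Sph ∧ x ≠ θ)} :=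
      (I4_Sph_closed.measurableSet.inter
        (isClosed_singleton (x := θ)).measurableSet.compl).compl
    rw [D.I4_m_apply hk hk₂ hm]
    have e : ∀ κ ∈ D.FF, D.t0 κ = θ →
        D.I4_th κ ⁻¹' {x : Eb | ¬(x ∈ Sph ∧ x ≠ θ)} = ∅ := by
      intro κ hκ hκt
      ext x
      simp only [Set.mem_preimage, Set.mem_setOf_eq, Set.mem_empty_iff_false, iff_false, not_not]
      have := D.A_spec hκ x.1 x.2
      exact ⟨this.1, by rw [← hκt]; exact this.2.1⟩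
    rw [e k hk hkt, e _ hk₂ hk₂t]
    simp
  · have hm : MeasurableSet {x : Eb | x ∈ Sph ∧ a / 64 ≤ kp x θ} := by
      have e : {x : Eb | x ∈ Sph ∧ a / 64 ≤ kp x θ} = Sph ∩ {x | a / 64 ≤ kp x θ} := rfl
      rw [e]
      exact (I4_Sph_closed.inter (isClosed_le continuous_const (I4_kp_cont' θ))).measurableSet
    rw [D.I4_m_apply hk hk₂ hm]
    have e : ∀ κ ∈ D.FF, D.t0 κ = θ →
        volume (D.I4_th κ ⁻¹' {x : Eb | x ∈ Sph ∧ a / 64 ≤ kp x θ}) ≤ ENNReal.ofReal V := by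
      intro κ hκ hκt
      rw [hV, ENNReal.ofReal_toReal (I4_vol_B r').ne]
      apply measure_mono
      intro x hx
      have hx2 : a / 64 ≤ kp (D.th κ x.1 x.2) (D.t0 κ) := by rw [hκt]; exact hx.2
      obtain ⟨h2, h3⟩ := hr κ hκ x.1 x.2 hx2
      have h4 := abs_le.mp (h3.trans (le_max_left r 0))
      exact ⟨mem_closedBall_zero_iff.mpr (h2.trans (le_max_left _ _)), h4.1, h4.2⟩
    refine (add_le_add (e k hk hkt) (e _ hk₂ hk₂t)).trans ?_
    rw [← ENNReal.ofReal_add hV0 hV0]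
    apply ENNReal.ofReal_le_ofReal
    linarith
  · intro g hg hf
    obtain ⟨k', hk', T, hT⟩ := D.exists_tr g hk
    obtain ⟨k₂', hk₂', T₂, hT₂⟩ := D.exists_tr g hk₂
    have p1 : 0 < s1 (D.R g) := D.F0_s1_pos' g
    have p2 : 0 ≤ s2 (D.R g) := F0.s2_nonneg _
    have hf1 : a ≤ kp (zz (D.σ g)) (D.t0 k) := by rw [hkt]; exact hf
    have hf2 : a ≤ kp (zz (D.σ g)) (D.t0 (k * I2_U)) := by rw [hk₂t]; exact hf
    have hS2 := (le_max_right S₁ S₂).trans hg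
    have l1 := hlo k hk g hS2 hf1 k' hk' T hT
    have l2 := hlo _ hk₂ g hS2 hf2 k₂' hk₂' T₂ hT₂
    have h1 := htwo g k hk k' hk' k₂' hk₂' T T₂ hT hT₂ hf1
    rw [D.I4_m_apply hk hk₂ (D.I4_OI C g)]
    have h5 : b * (s2 (D.R g) / s1 (D.R g)) ≤ max ‖T.d2‖ ‖T₂.d2‖ := by
      rw [← mul_div_assoc, div_le_iff₀ p1]
      exact h1
    have hC'i : C'⁻¹ ≤ c' * b ^ 2 := by
      rw [inv_le_comm₀ (by positivity) (by positivity)]
      linarith
    have key : ∀ d : ℝ, 0 ≤ d → b * (s2 (D.R g) / s1 (D.R g)) ≤ d →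
        (C')⁻¹ * (s2 (D.R g) / s1 (D.R g)) ^ 2 * (s1 (D.R g) ^ 4)⁻¹ ≤
          c' * d ^ 2 * (s1 (D.R g) ^ 4)⁻¹ := by
      intro d hd hd2
      have hq : 0 ≤ s2 (D.R g) / s1 (D.R g) := by positivity
      have h6 : (b * (s2 (D.R g) / s1 (D.R g))) ^ 2 ≤ d ^ 2 :=
        pow_le_pow_left₀ (by positivity) hd2 2
      have h7 : (C')⁻¹ * (s2 (D.R g) / s1 (D.R g)) ^ 2 ≤ c' * d ^ 2 := by
        have h8 : (C')⁻¹ * (s2 (D.R g) / s1 (D.R g)) ^ 2 ≤
            c' * b ^ 2 * (s2 (D.R g) / s1 (D.R g)) ^ 2 :=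
          mul_le_mul_of_nonneg_right hC'i (by positivity)
        have h9 := mul_le_mul_of_nonneg_left h6 hc'.le
        rw [mul_pow] at h9
        linarith
      exact mul_le_mul_of_nonneg_right h7 (by positivity)
    rcases max_choice ‖T.d2‖ ‖T₂.d2‖ with e | e
    · rw [e] at h5
      exact ((ENNReal.ofReal_le_ofReal (key _ (norm_nonneg _) h5)).trans l1).trans le_self_add
    · rw [e] at h5
      exact ((ENNReal.ofReal_le_ofReal (key _ (norm_nonneg _) h5)).trans l2).trans le_add_self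
  · intro g hg hf
    have p1 : 0 < s1 (D.R g) := D.F0_s1_pos' g
    have hf1 : a ≤ kp (zz (D.σ g)) (D.t0 k) := by rw [hkt]; exact hf
    have hf2 : a ≤ kp (zz (D.σ g)) (D.t0 (k * I2_U)) := by rw [hk₂t]; exact hf
    have hS1 := (le_max_left S₁ S₂).trans hg
    rw [D.I4_m_apply hk hk₂ (D.I4_OO C g)]
    refine (add_le_add (hup k hk g hS1 hf1) (hup _ hk₂ g hS1 hf2)).trans ?_
    have h0 : 0 ≤ C₁ * (s2 (D.R g) / s1 (D.R g)) ^ 2 * (s1 (D.R g) ^ 4)⁻¹ := by positivity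
    rw [← ENNReal.ofReal_add h0 h0]
    apply ENNReal.ofReal_le_ofReal
    have h1 : (2 * C₁) * ((s2 (D.R g) / s1 (D.R g)) ^ 2 * (s1 (D.R g) ^ 4)⁻¹) ≤
        C' * ((s2 (D.R g) / s1 (D.R g)) ^ 2 * (s1 (D.R g) ^ 4)⁻¹) :=
      mul_le_mul_of_nonneg_right (by linarith) (by positivity)
    linarith

end Kd

end Pool.Agent.MPd01a95.KT
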