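import Mathlib
import Pool.Agent.Lib.MP_d01a95_gt_K.KDefs2
import Pool.Agent.Lib.MP_d01a95_gt_K.KA1
import Pool.Agent.Lib.MP_d01a95_gt_K.KA2
import Pool.Agent.Lib.MP_d01a95_gt_K.KA4
import Pool.Agent.Lib.MP_d01a95_gt_K.KF0
import Pool.Agent.Lib.MP_d01a95_gt_K.KF6
import Pool.Agent.Lib.MP_d01a95_gt_K.KH1
import Pool.Agent.Lib.MP_d01a95_gt_K.KH2
import Pool.Agent.Lib.MP_d01a95_gt_K.KH3
import Pool.Agent.Lib.MP_d01a95_gt_K.KH4
import Pool.Agent.Lib.MP_d01a95_gt_K.KI2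
import Pool.Agent.Lib.MP_d01a95_gt_K.KI4

set_option autoImplicit false
set_option linter.all false

open Matrix Filter Topology MeasureTheory
open scoped ContDiff

namespace Pool.Agent.MPd01a95.KT

open GU

variable {G : Type} [Group G]

theorem I5_cb {x : Eb} (h : x ∈ Sph) : x ∈ Cb := Metric.sphere_subset_closedBall h

namespace Kd

variable (D : Kd G)

/-- the middle block is bounded below -/
theorem I5_low (a : ℝ) (ha : 0 < a) : ∃ b : ℝ, 0 < b ∧ ∀ θ ∈ Sph, ∀ g,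
    a ≤ kp (zz (D.σ g)) θ → b ≤ (s2 (D.R g) / s1 (D.R g)) ^ 2 := by
  obtain ⟨a', C, ha', hfar⟩ := D.coef_far a ha
  refine ⟨a' / (|C| + 1), by positivity, fun θ hθ g hf => ?_⟩
  obtain ⟨k, hk, hkt⟩ := D.I2_frame hθ
  obtain ⟨k', hk', T, hT⟩ := D.exists_tr g hk
  obtain ⟨-, -, f3, f4⟩ := hfar g k hk k' hk' T hT (by rw [hkt]; exact hf)
  have p1 : 0 < s1 (D.R g) := D.F0_s1_pos' g
  have p2 : 0 ≤ s2 (D.R g) := F0.s2_nonneg _
  have hC : 0 < |C| + 1 := by positivity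
  rw [div_pow, div_le_div_iff₀ hC (by positivity)]
  have h1 : ‖T.d2‖ * s1 (D.R g) ≤ (|C| + 1) * s2 (D.R g) := by
    have := mul_le_mul_of_nonneg_right (le_abs_self C) p2
    linarith
  have h2 := mul_le_mul_of_nonneg_right f4 p1.le
  have h3 := mul_le_mul_of_nonneg_right h1 p2
  calc a' * s1 (D.R g) ^ 2 = a' * s1 (D.R g) * s1 (D.R g) := by ring
    _ ≤ ‖T.d2‖ * s2 (D.R g) * s1 (D.R g) := h2
    _ = ‖T.d2‖ * s1 (D.R g) * s2 (D.R g) := by ring
    _ ≤ (|C| + 1) * s2 (D.R g) * s2 (D.R g) := h3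
    _ = s2 (D.R g) ^ 2 * (|C| + 1) := by ring

/-- bounded overlap -/
theorem I5_card (C : ℝ) (x : Eb) (F E : Finset G)
    (h : ∀ g ∈ F, ∀ g' ∈ F, x ∈ D.OI C g → x ∈ D.OI C g' → g⁻¹ * g' ∈ E) :
    ∑ g ∈ F, (D.OI C g).indicator (fun _ => (1 : ENNReal)) x ≤ (E.card : ENNReal) := by
  classical
  have e : ∑ g ∈ F, (D.OI C g).indicator (fun _ => (1 : ENNReal)) x =
      ((F.filter fun g => x ∈ D.OI C g).card : ENNReal) := by
    rw [← Finset.sum_boole]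
    exact Finset.sum_congr rfl fun g _ => by rw [Set.indicator_apply]
  rw [e, Nat.cast_le]
  rcases (F.filter fun g => x ∈ D.OI C g).eq_empty_or_nonempty with h0 | ⟨g₀, hg₀⟩
  · rw [h0]; simp
  · rw [Finset.mem_filter] at hg₀
    refine Finset.card_le_card_of_injOn (fun g => g₀⁻¹ * g) ?_ ?_
    · intro g hg
      have hg' := (Finset.mem_filter.mp hg)
      exact h g₀ hg₀.1 g hg'.1 hg₀.2 hg'.2
    · intro g _ g' _ he
      exact mul_left_cancel he

/-- the general bound for level sums -/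
theorem I5_gen (a K : ℝ) (ha : 0 < a) (hK : 1 ≤ K) : ∃ C : ℝ, 0 ≤ C ∧ ∀ θ ∈ Sph, ∀ s : ℝ,
    ∀ F : Finset G, (∀ g ∈ F, s ≤ c (D.σ g) ∧ c (D.σ g) ≤ K * s ∧ a ≤ kp (zz (D.σ g)) θ) →
      ∑ g ∈ F, (s1 (D.R g) ^ 4)⁻¹ ≤ C := by
  classical
  obtain ⟨C₀, hC₀, hms⟩ := D.exists_ms
  obtain ⟨C', S, hC', hms⟩ := hms C₀ le_rfl a ha
  obtain ⟨b, hb, hlow⟩ := D.I5_low a ha
  obtain ⟨E, hE⟩ := near_fin D.lat (max C₀ K)
  set S' := max S (8 * C₀ / a + 1) with hS'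
  have hfin := D.lat.finite_c (K * S')
  set B₀ := ∑ g ∈ hfin.toFinset, (s1 (D.R g) ^ 4)⁻¹ with hB₀
  have hpos : ∀ g, 0 ≤ (s1 (D.R g) ^ 4)⁻¹ := fun g => by positivity
  have hB₀' : 0 ≤ B₀ := Finset.sum_nonneg fun g _ => hpos g
  set B₁ : ℝ := C' * b⁻¹ * (E.card * C') with hB₁
  have hB₁' : 0 ≤ B₁ := by positivity
  refine ⟨B₀ + B₁, by positivity, fun θ hθ s F hF => ?_⟩
  rcases lt_or_ge s S' with hs | hs
  · -- small levels
    have hsub : F ⊆ hfin.toFinset := by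
      intro g hg
      rw [Set.Finite.mem_toFinset]
      obtain ⟨-, h2, -⟩ := hF g hg
      exact h2.trans (mul_le_mul_of_nonneg_left hs.le (by linarith))
    have := Finset.sum_le_sum_of_subset_of_nonneg hsub fun g _ _ => hpos g
    linarith
  · obtain ⟨m, hm⟩ := hms θ hθ
    have hgS : ∀ g ∈ F, S ≤ c (D.σ g) := fun g hg =>
      ((le_max_left _ _).trans hs).trans (hF g hg).1
    have hg8 : ∀ g ∈ F, 8 * C₀ / a + 1 ≤ c (D.σ g) := fun g hg =>
      ((le_max_right _ _).trans hs).trans (hF g hg).1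
    -- the sum of the masses
    have h1 : ∑ g ∈ F, m (D.OI C₀ g) ≤ (E.card : ENNReal) * ENNReal.ofReal C' := by
      have e1 : ∑ g ∈ F, m (D.OI C₀ g) =
          ∫⁻ x, ∑ g ∈ F, (D.OI C₀ g).indicator (fun _ => (1 : ENNReal)) x ∂m := by
        rw [lintegral_finset_sum _ fun g _ => measurable_const.indicator (D.I4_OI C₀ g)]
        refine Finset.sum_congr rfl fun g _ => ?_
        rw [lintegral_indicator (D.I4_OI C₀ g), setLIntegral_one]
      have hAm : MeasurableSet {x : Eb | x ∈ Sph ∧ a / 64 ≤ kp x θ} := by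
        have e : {x : Eb | x ∈ Sph ∧ a / 64 ≤ kp x θ} = Sph ∩ {x | a / 64 ≤ kp x θ} := rfl
        rw [e]
        exact (I4_Sph_closed.inter (isClosed_le continuous_const (I4_kp_cont' θ))).measurableSet
      have e2 : ∀ x, ∑ g ∈ F, (D.OI C₀ g).indicator (fun _ => (1 : ENNReal)) x ≤
          {x : Eb | x ∈ Sph ∧ a / 64 ≤ kp x θ}.indicator (fun _ => (E.card : ENNReal)) x := by
        intro x
        by_cases hx : ∃ g ∈ F, x ∈ D.OI C₀ g
        · obtain ⟨g, hg, hxg⟩ := hx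
          have hxA : x ∈ {x : Eb | x ∈ Sph ∧ a / 64 ≤ kp x θ} := by
            refine ⟨hxg.1, ?_⟩
            have t1 := kp_tri (zz_mem (D.σ g)) (I5_cb hθ) (I5_cb hxg.1)
            rw [kp_symm x (zz (D.σ g))] at t1
            have t2 := (hF g hg).2.2
            have t3 : kp (zz (D.σ g)) x * c (D.σ g) ^ 2 < C₀ := hxg.2
            have t4 := hg8 g hg
            have t5 : 0 ≤ kp (zz (D.σ g)) x := norm_nonneg _
            have t6 : 0 < 8 * C₀ / a := by positivity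
            have t7 : 8 * C₀ / a ≤ c (D.σ g) ^ 2 := by nlinarith
            have t8 : kp (zz (D.σ g)) x * (8 * C₀ / a) < C₀ :=
              (mul_le_mul_of_nonneg_left t7 t5).trans_lt t3
            have t9 : kp (zz (D.σ g)) x * 8 < a := by
              have e : kp (zz (D.σ g)) x * (8 * C₀ / a) = kp (zz (D.σ g)) x * 8 / a * C₀ := by
                ring
              rw [e] at t8
              have : kp (zz (D.σ g)) x * 8 / a < 1 := by
                by_contra hcon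
                rw [not_lt] at hcon
                nlinarith
              rw [div_lt_one ha] at this
              exact this
            linarith
          rw [Set.indicator_of_mem hxA]
          apply D.I5_card
          intro g hg g' hg' hx hx'
          obtain ⟨u1, u2, -⟩ := hF g hg
          obtain ⟨v1, v2, -⟩ := hF g' hg'
          have hc1 := c_ge_one (D.σ g)
          have hc2 := c_ge_one (D.σ g')
          refine hE g g' x hx.1 (hx.2.le.trans (le_max_left _ _))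
            (hx'.2.le.trans (le_max_left _ _)) ?_ ?_
          · calc c (D.σ g) ≤ K * s := u2
              _ ≤ K * c (D.σ g') := mul_le_mul_of_nonneg_left v1 (by linarith)
              _ ≤ max C₀ K * c (D.σ g') := mul_le_mul_of_nonneg_right (le_max_right _ _) (by linarith)
          · calc c (D.σ g') ≤ K * s := v2
              _ ≤ K * c (D.σ g) := mul_le_mul_of_nonneg_left u1 (by linarith)
              _ ≤ max C₀ K * c (D.σ g) := mul_le_mul_of_nonneg_right (le_max_right _ _) (by linarith)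
        · push Not at hx
          rw [Finset.sum_eq_zero fun g hg => Set.indicator_of_notMem (hx g hg) _]
          exact bot_le
      rw [e1]
      refine (lintegral_mono e2).trans ?_
      rw [lintegral_indicator hAm, setLIntegral_const]
      exact mul_le_mul_right hm.fin _
    have h2 : ∀ g ∈ F, ENNReal.ofReal ((s1 (D.R g) ^ 4)⁻¹) ≤
        ENNReal.ofReal (C' * b⁻¹) * m (D.OI C₀ g) := by
      intro g hg
      have l1 := hm.lo g (hgS g hg) (hF g hg).2.2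
      have l2 := hlow θ hθ g (hF g hg).2.2
      have hC0 : 0 < C' := by linarith
      refine le_trans ?_ (mul_le_mul_right l1 _)
      rw [← ENNReal.ofReal_mul (by positivity)]
      apply ENNReal.ofReal_le_ofReal
      have e : C' * b⁻¹ * (C'⁻¹ * (s2 (D.R g) / s1 (D.R g)) ^ 2 * (s1 (D.R g) ^ 4)⁻¹) =
          b⁻¹ * (s2 (D.R g) / s1 (D.R g)) ^ 2 * (s1 (D.R g) ^ 4)⁻¹ := by
        field_simp
      rw [e]
      have h3 : 1 ≤ b⁻¹ * (s2 (D.R g) / s1 (D.R g)) ^ 2 := by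
        rw [le_inv_mul_iff₀ hb]
        linarith
      have := mul_le_mul_of_nonneg_right h3 (hpos g)
      linarith
    have h3 : ∑ g ∈ F, ENNReal.ofReal ((s1 (D.R g) ^ 4)⁻¹) ≤ ENNReal.ofReal B₁ := by
      refine (Finset.sum_le_sum h2).trans ?_
      rw [← Finset.mul_sum]
      refine (mul_le_mul_right h1 _).trans ?_
      rw [hB₁, ENNReal.ofReal_mul (p := C' * b⁻¹) (by positivity),
        ENNReal.ofReal_mul (p := (E.card : ℝ)) (by positivity), ENNReal.ofReal_natCast]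
    rw [← ENNReal.ofReal_sum_of_nonneg fun g _ => hpos g,
      ENNReal.ofReal_le_ofReal_iff hB₁'] at h3
    linarith

theorem I5_LL_fin (θ : Eb) (a s : ℝ) : (D.LL θ a s).Finite :=
  (D.lat.finite_c (D.C * s)).subset fun g hg => hg.2.1

/-- module I5: level sums are bounded -/
theorem SS_le (a : ℝ) (ha : 0 < a) : ∃ C : ℝ, ∀ θ ∈ Sph, ∀ s : ℝ, 1 ≤ s → D.SS θ a s ≤ C := by
  obtain ⟨C, -, h⟩ := D.I5_gen a D.C ha D.hC
  refine ⟨C, fun θ hθ s hs => ?_⟩
  rw [SS, finsum_mem_eq_finite_toFinset_sum _ (D.I5_LL_fin θ a s)]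
  exact h θ hθ s _ fun g hg => by
    rw [Set.Finite.mem_toFinset] at hg
    exact hg

/-- module I5: descendants -/
theorem desc (C a : ℝ) (hC : 1 ≤ C) (ha : 0 < a) : ∃ C' : ℝ, ∀ θ ∈ Sph, ∀ h : G, ∀ s : ℝ,
    c (D.σ h) ≤ C * s →
      (∑ᶠ g ∈ {g | g ∈ D.LL θ a s ∧ (D.OO C g ∩ D.OO C h).Nonempty}, (s1 (D.R g) ^ 4)⁻¹) ≤
        C' * (s1 (D.R h) ^ 4)⁻¹ := by
  classical
  obtain ⟨a₁, ha₁, hmult⟩ := D.s1_mult C
  obtain ⟨C₂, hC₂, htwo⟩ := near_two C hC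
  set L : ℝ := 4 * (C ^ 3 + C) with hL
  have hL0 : 0 < L := by positivity
  have hDC := D.hC
  have hK : 1 ≤ C₂ ^ 2 * D.C := by nlinarith [mul_le_mul hC₂ hC₂ zero_le_one (by linarith)]
  obtain ⟨C₆, hC₆, hgen⟩ := D.I5_gen (a / (2 * L)) (C₂ ^ 2 * D.C) (by positivity) hK
  refine ⟨(a₁ ^ 4)⁻¹ * C₆, fun θ hθ h s hs => ?_⟩
  set Q := {g | g ∈ D.LL θ a s ∧ (D.OO C g ∩ D.OO C h).Nonempty} with hQ
  have hQf : Q.Finite := (D.I5_LL_fin θ a s).subset fun g hg => hg.1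
  rw [finsum_mem_eq_finite_toFinset_sum _ hQf]
  have hch := c_ge_one (D.σ h)
  -- the members
  have hmem : ∀ g ∈ hQf.toFinset, s / (C₂ * c (D.σ h)) ≤ c (D.σ (h⁻¹ * g)) ∧
      c (D.σ (h⁻¹ * g)) ≤ C₂ ^ 2 * D.C * (s / (C₂ * c (D.σ h))) ∧
      a / (2 * L) ≤ kp (zz (D.σ (h⁻¹ * g))) (ab (D.σ h)⁻¹ θ) ∧
      (s1 (D.R g) ^ 4)⁻¹ ≤ (a₁ ^ 4)⁻¹ * (s1 (D.R h) ^ 4)⁻¹ * (s1 (D.R (h⁻¹ * g)) ^ 4)⁻¹ := by
    intro g hg
    rw [Set.Finite.mem_toFinset] at hg
    obtain ⟨⟨g1, g2, g3⟩, x, hxg, hxh⟩ := hg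
    have hcg := c_ge_one (D.σ g)
    have hcc : c (D.σ h) ≤ C * c (D.σ g) := by
      have := mul_le_mul_of_nonneg_left g1 (by linarith : 0 ≤ C)
      linarith
    obtain ⟨t1, t2⟩ := htwo (D.σ h) (D.σ g) x hxg.1 hxh.2 hxg.2 hcc
    have e : D.σ (h⁻¹ * g) = (D.σ h)⁻¹ * D.σ g := by rw [map_mul, map_inv]
    have hC20 : 0 < C₂ := by linarith
    have hch0 : 0 < c (D.σ h) := by linarith
    refine ⟨?_, ?_, ?_, ?_⟩
    · rw [e, div_le_iff₀ (by positivity)]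
      linarith
    · rw [e]
      have e2 : C₂ ^ 2 * D.C * (s / (C₂ * c (D.σ h))) = C₂ * (D.C * s) / c (D.σ h) := by
        field_simp
      rw [e2, le_div_iff₀ hch0]
      exact t1.trans (mul_le_mul_of_nonneg_left g2 hC20.le)
    · have hzz : zz (D.σ (h⁻¹ * g)) = ab (D.σ h)⁻¹ (zz (D.σ g)) := by
        rw [e]
        unfold zz
        exact ab_mul _ _ (by unfold Cb; simp)
      have k1 := kp_act (D.σ h) (zz_mem (D.σ g)) (I5_cb hθ)
      rw [← hzz] at k1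
      have k2 := kp_tri (zz_mem (D.σ g)) (zz_mem (D.σ h)) (I5_cb hxg.1)
      rw [kp_symm x, kp_symm x] at k2
      have k3 : kp (zz (D.σ g)) x * c (D.σ g) ^ 2 ≤ C := hxg.2
      have k4 : kp (zz (D.σ h)) x * c (D.σ h) ^ 2 ≤ C := hxh.2
      have k5 := kp_le_two (I5_cb hθ) (zz_mem (D.σ h))
      have n1 : 0 ≤ kp (zz (D.σ g)) x := norm_nonneg _
      have n2 : 0 ≤ kp (zz (D.σ g)) (zz (D.σ h)) := norm_nonneg _
      have n3 : 0 ≤ kp θ (zz (D.σ h)) := norm_nonneg _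
      have n4 : 0 ≤ kp (zz (D.σ (h⁻¹ * g))) (ab (D.σ h)⁻¹ θ) := norm_nonneg _
      have k6 : c (D.σ h) ^ 2 ≤ C ^ 2 * c (D.σ g) ^ 2 := by
        rw [← mul_pow]
        exact pow_le_pow_left₀ hch0.le hcc 2
      have k7 : kp (zz (D.σ g)) x * c (D.σ h) ^ 2 ≤ C ^ 3 := by
        calc kp (zz (D.σ g)) x * c (D.σ h) ^ 2 ≤ kp (zz (D.σ g)) x * (C ^ 2 * c (D.σ g) ^ 2) :=
              mul_le_mul_of_nonneg_left k6 n1
          _ = C ^ 2 * (kp (zz (D.σ g)) x * c (D.σ g) ^ 2) := by ring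
          _ ≤ C ^ 2 * C := mul_le_mul_of_nonneg_left k3 (by positivity)
          _ = C ^ 3 := by ring
      have k8 : c (D.σ h) ^ 2 * kp (zz (D.σ g)) (zz (D.σ h)) ≤ L := by
        have := mul_le_mul_of_nonneg_left k2 (by positivity : 0 ≤ c (D.σ h) ^ 2)
        rw [hL]
        linarith
      have k9 : c (D.σ h) ^ 2 * kp (zz (D.σ g)) (zz (D.σ h)) * kp θ (zz (D.σ h)) ≤ L * 2 :=
        mul_le_mul k8 k5 n3 hL0.le
      rw [div_le_iff₀ (by positivity)]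
      have := mul_le_mul_of_nonneg_left k9 n4
      linarith
    · have m1 := hmult g h x hxg.1 hxh.2 hxg.2 hcc
      have p1 : 0 < s1 (D.R g) := D.F0_s1_pos' g
      have p2 : 0 < s1 (D.R h) := D.F0_s1_pos' h
      have p3 : 0 < s1 (D.R (h⁻¹ * g)) := D.F0_s1_pos' _
      have m2 := inv_anti₀ (by positivity) (pow_le_pow_left₀ (by positivity) m1 4)
      refine m2.trans (le_of_eq ?_)
      rw [mul_pow, mul_pow, mul_inv, mul_inv]
      ring
  have h1 : ∑ g ∈ hQf.toFinset, (s1 (D.R g) ^ 4)⁻¹ ≤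
      ∑ g ∈ hQf.toFinset, (a₁ ^ 4)⁻¹ * (s1 (D.R h) ^ 4)⁻¹ * (s1 (D.R (h⁻¹ * g)) ^ 4)⁻¹ :=
    Finset.sum_le_sum fun g hg => (hmem g hg).2.2.2
  rw [← Finset.mul_sum] at h1
  have h2 : ∑ g ∈ hQf.toFinset, (s1 (D.R (h⁻¹ * g)) ^ 4)⁻¹ =
      ∑ g ∈ hQf.toFinset.image (fun g => h⁻¹ * g), (s1 (D.R g) ^ 4)⁻¹ := by
    rw [Finset.sum_image]
    intro x _ y _ hxy
    exact mul_left_cancel hxy
  have h3 := hgen (ab (D.σ h)⁻¹ θ) (ab_sph _ hθ) (s / (C₂ * c (D.σ h)))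
    (hQf.toFinset.image fun g => h⁻¹ * g) (by
      intro g' hg'
      rw [Finset.mem_image] at hg'
      obtain ⟨g, hg, rfl⟩ := hg'
      obtain ⟨q1, q2, q3, -⟩ := hmem g hg
      exact ⟨q1, q2, q3⟩)
  rw [← h2] at h3
  have p2 : 0 < s1 (D.R h) := D.F0_s1_pos' h
  have h4 := mul_le_mul_of_nonneg_left h3
    (by positivity : 0 ≤ (a₁ ^ 4)⁻¹ * (s1 (D.R h) ^ 4)⁻¹)
  linarith

end Kd

end Pool.Agent.MPd01a95.KT
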