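import Mathlib
import Pool.Agent.Lib.MP_d01a95_gt_K.KDefs2
import Pool.Agent.Lib.MP_d01a95_gt_K.KA1
import Pool.Agent.Lib.MP_d01a95_gt_K.KA2
import Pool.Agent.Lib.MP_d01a95_gt_K.KA5
import Pool.Agent.Lib.MP_d01a95_gt_K.KF0
import Pool.Agent.Lib.MP_d01a95_gt_K.KH1
import Pool.Agent.Lib.MP_d01a95_gt_K.KH2
import Pool.Agent.Lib.MP_d01a95_gt_K.KH3
import Pool.Agent.Lib.MP_d01a95_gt_K.KI2

/-!
# Module KI0: common lemmas of block I
-/

set_option autoImplicit false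
set_option linter.all false

open Matrix Filter Topology MeasureTheory
open scoped ContDiff

namespace Pool.Agent.MPd01a95.KT

open GU

variable {G : Type} [Group G]

/-- bounded overlap -/
theorem I0_overlap {α ι : Type} [MeasurableSpace α] (m : Measure α) (N : ℕ) (T : Finset ι)
    (O : ι → Set α) (hO : ∀ i ∈ T, MeasurableSet (O i))
    (h : ∀ x, ∀ T' : Finset ι, T' ⊆ T → (∀ i ∈ T', x ∈ O i) → T'.card ≤ N) :
    ∑ i ∈ T, m (O i) ≤ N * m (⋃ i ∈ T, O i) := by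
  classical
  have hU : MeasurableSet (⋃ i ∈ T, O i) := Finset.measurableSet_biUnion T hO
  have h1 : ∑ i ∈ T, m (O i) = ∫⁻ x, ∑ i ∈ T, (O i).indicator (fun _ => (1 : ENNReal)) x ∂m := by
    rw [lintegral_finsetSum' T fun i hi => ?_]
    · refine Finset.sum_congr rfl fun i hi => ?_
      rw [lintegral_indicator (hO i hi)]
      simp
    · exact (measurable_const.indicator (hO i hi)).aemeasurable
  have h2 : (N : ENNReal) * m (⋃ i ∈ T, O i) =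
      ∫⁻ x, (N : ENNReal) * (⋃ i ∈ T, O i).indicator (fun _ => (1 : ENNReal)) x ∂m := by
    rw [lintegral_const_mul _ (measurable_const.indicator hU), lintegral_indicator hU]
    simp
  rw [h1, h2]
  refine lintegral_mono fun x => ?_
  have h3 : ∑ i ∈ T, (O i).indicator (fun _ => (1 : ENNReal)) x =
      ((T.filter fun i => x ∈ O i).card : ENNReal) := by
    rw [Finset.card_filter]
    push_cast
    refine Finset.sum_congr rfl fun i hi => ?_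
    by_cases hx : x ∈ O i
    · simp [hx]
    · simp [hx]
  show ∑ i ∈ T, (O i).indicator (fun _ => (1 : ENNReal)) x ≤ _
  rw [h3]
  by_cases hx : x ∈ ⋃ i ∈ T, O i
  · rw [Set.indicator_of_mem hx, mul_one]
    exact_mod_cast h x _ (Finset.filter_subset _ _) fun i hi => (Finset.mem_filter.mp hi).2
  · rw [Set.indicator_of_notMem hx, mul_zero]
    have : T.filter (fun i => x ∈ O i) = ∅ := by
      rw [Finset.filter_eq_empty_iff]
      intro i hi hxi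
      exact hx (Set.mem_biUnion hi hxi)
    rw [this]
    simp

theorem I0_sph_compact : IsCompact Sph := by
  haveI : ProperSpace Eb := FiniteDimensional.proper ℂ Eb
  exact isCompact_sphere 0 1

/-- for every point of the ball there is a point of the sphere which is far -/
theorem I0_far {z : Eb} (hz : z ∈ Cb) : ∃ θ ∈ Sph, 1 ≤ kp z θ := by
  have key : ∀ v : Eb, (inner ℂ z v : ℂ).re ≤ 0 → 1 ≤ kp z v := by
    intro v hv
    have h1 := Complex.re_le_norm ((1 : ℂ) - inner ℂ z v)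
    simp only [Complex.sub_re, Complex.one_re] at h1
    show 1 ≤ ‖(1 : ℂ) - inner ℂ z v‖
    linarith
  set v : Eb := EuclideanSpace.single 0 1 with hv
  have hv1 : ‖v‖ = 1 := by simp [hv]
  rcases le_total (inner ℂ z v : ℂ).re 0 with h | h
  · exact ⟨v, by simp [Sph, hv1], key v h⟩
  · refine ⟨-v, by simp [Sph, hv1], key (-v) ?_⟩
    rw [inner_neg_right, Complex.neg_re]
    linarith

/-- a point of the sphere near `g 0` -/
theorem I0_proj (g : GU (Fin 2)) : ∃ θ ∈ Sph, kp (zz g) θ * c g ^ 2 ≤ 1 := by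
  have hc1 : 1 ≤ c g := c_ge_one g
  have hc0 : 0 < c g ^ 2 := by positivity
  have hn := zz_norm g
  by_cases hz : zz g = 0
  · obtain ⟨θ, hθ, -⟩ := I0_far (z := 0) (by simp [Cb])
    refine ⟨θ, hθ, ?_⟩
    rw [hz, norm_zero] at hn
    have h1 : (c g ^ 2)⁻¹ = 1 := by linarith
    have h2 : c g ^ 2 = 1 := by
      rw [← inv_inv (c g ^ 2), h1, inv_one]
    rw [hz, h2]
    simp [kp]
  · have hp : 0 < ‖zz g‖ := norm_pos_iff.mpr hz
    refine ⟨((‖zz g‖⁻¹ : ℝ) : ℂ) • zz g, ?_, ?_⟩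
    · rw [Sph, mem_sphere_zero_iff_norm, norm_smul, Complex.norm_real, norm_inv, norm_norm]
      exact inv_mul_cancel₀ hp.ne'
    · have hi : (inner ℂ (zz g) (((‖zz g‖⁻¹ : ℝ) : ℂ) • zz g) : ℂ) = ((‖zz g‖ : ℝ) : ℂ) := by
        have hpc : ((‖zz g‖ : ℝ) : ℂ) ≠ 0 := Complex.ofReal_ne_zero.mpr hp.ne'
        rw [inner_smul_right, inner_self_eq_norm_sq_to_K]
        push_cast
        show ((‖zz g‖ : ℝ) : ℂ)⁻¹ * ((‖zz g‖ : ℝ) : ℂ) ^ 2 = ((‖zz g‖ : ℝ) : ℂ)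
        field_simp
      have hle : ‖zz g‖ ≤ 1 := by
        have := zz_mem g
        simpa [Cb] using this
      have hk : kp (zz g) (((‖zz g‖⁻¹ : ℝ) : ℂ) • zz g) = 1 - ‖zz g‖ := by
        rw [kp, hi, ← Complex.ofReal_one, ← Complex.ofReal_sub, Complex.norm_real,
          Real.norm_eq_abs, abs_of_nonneg (by linarith)]
      rw [hk]
      have h1 : 1 - ‖zz g‖ ≤ (c g ^ 2)⁻¹ := by nlinarith
      calc (1 - ‖zz g‖) * c g ^ 2 ≤ (c g ^ 2)⁻¹ * c g ^ 2 :=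
            mul_le_mul_of_nonneg_right h1 hc0.le
        _ = 1 := inv_mul_cancel₀ hc0.ne'

/-- elements of the ball -/
theorem I0_sph_cb {θ : Eb} (h : θ ∈ Sph) : θ ∈ Cb := Metric.sphere_subset_closedBall h

theorem I0_c_inv (g : GU (Fin 2)) : c g⁻¹ = c g := c_inv g

theorem I0_c_mul_le (g h : GU (Fin 2)) : c (g * h) ≤ 2 * c g * c h := c_mul g h

namespace Kd

variable (D : Kd G)

theorem I0_fin (K : ℝ) : {g : G | c (D.σ g) ≤ K}.Finite := D.lat.finite_c K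


theorem I0_countable (D : Kd G) : Countable G := D.lat.countable

theorem I0_LL_fin (θ : Eb) (a s : ℝ) : (D.LL θ a s).Finite :=
  (D.I0_fin (D.C * s)).subset fun _ hg => hg.2.1

theorem I0_SS_eq (θ : Eb) (a s : ℝ) :
    D.SS θ a s = ∑ g ∈ (D.I0_LL_fin θ a s).toFinset, (s1 (D.R g) ^ 4)⁻¹ :=
  finsum_mem_eq_finite_toFinset_sum _ _

theorem I0_kpc (z : Eb) : Continuous fun θ : Eb => kp z θ :=
  kp_cont.comp (continuous_const.prodMk continuous_id)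

theorem I0_OO_closed (C : ℝ) (g : G) : IsClosed (D.OO C g) := by
  have h1 : IsClosed {θ : Eb | kp (zz (D.σ g)) θ * c (D.σ g) ^ 2 ≤ C} :=
    isClosed_le ((I0_kpc _).mul continuous_const) continuous_const
  exact Metric.isClosed_sphere.inter h1

/-- the open cells are relatively open -/
theorem I0_OI_open (C : ℝ) (g : G) : ∃ U : Set Eb, IsOpen U ∧ D.OI C g = Sph ∩ U :=
  ⟨{θ : Eb | kp (zz (D.σ g)) θ * c (D.σ g) ^ 2 < C},
    isOpen_lt ((I0_kpc _).mul continuous_const) continuous_const, rfl⟩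

theorem I0_OI_sub (C : ℝ) (g : G) : D.OI C g ⊆ D.OO C g := fun _ h => ⟨h.1, le_of_lt h.2⟩

/-- cells of one level overlap boundedly -/
theorem I0_card (C K : ℝ) : ∃ N : ℕ, ∀ s : ℝ, 1 ≤ s → ∀ x ∈ Sph, ∀ T : Finset G,
    (∀ g ∈ T, Near C (D.σ g) x ∧ s ≤ c (D.σ g) ∧ c (D.σ g) ≤ K * s) → T.card ≤ N := by
  classical
  obtain ⟨F, hF⟩ := near_fin D.lat (max |C| |K| + 1)
  refine ⟨F.card, fun s hs x hx T hT => ?_⟩
  rcases T.eq_empty_or_nonempty with h0 | ⟨g0, hg0⟩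
  · rw [h0]; simp
  have hCC : C ≤ max |C| |K| + 1 := by
    linarith [le_abs_self C, le_max_left |C| |K|]
  have hKK : |K| ≤ max |C| |K| + 1 := by
    linarith [le_max_right |C| |K|]
  have hcmp : ∀ g ∈ T, ∀ h ∈ T, c (D.σ g) ≤ (max |C| |K| + 1) * c (D.σ h) := by
    intro g hg h hh
    have h1 := (hT g hg).2.2
    have h2 := (hT h hh).2.1
    calc c (D.σ g) ≤ K * s := h1
      _ ≤ |K| * s := mul_le_mul_of_nonneg_right (le_abs_self K) (by linarith)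
      _ ≤ (max |C| |K| + 1) * c (D.σ h) :=
          mul_le_mul hKK h2 (by linarith) (by positivity)
  have hsub : T ⊆ F.image fun f => g0 * f := by
    intro g hg
    rw [Finset.mem_image]
    refine ⟨g0⁻¹ * g, hF g0 g x hx ((hT g0 hg0).1.trans hCC) ((hT g hg).1.trans hCC)
      (hcmp g0 hg0 g hg) (hcmp g hg g0 hg0), by group⟩
  exact (Finset.card_le_card hsub).trans Finset.card_image_le

theorem I0_cell {C b : ℝ} (hb : 0 < b) {g : G} {x : Eb} (hx : x ∈ D.OO C g)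
    (hS : max 1 (8 * |C| / b) ≤ c (D.σ g)) : kp (zz (D.σ g)) x ≤ b / 8 := by
  have h1 : 1 ≤ c (D.σ g) := (le_max_left _ _).trans hS
  have h2 : 8 * |C| / b ≤ c (D.σ g) := (le_max_right _ _).trans hS
  have h3 : kp (zz (D.σ g)) x * c (D.σ g) ^ 2 ≤ C := hx.2
  rw [div_le_iff₀ hb] at h2
  have h4 : kp (zz (D.σ g)) x * c (D.σ g) ^ 2 ≤ b / 8 * c (D.σ g) ^ 2 := by
    have h5 : C ≤ |C| := le_abs_self C
    have h6 : c (D.σ g) ≤ c (D.σ g) ^ 2 := by nlinarith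
    have h7 : c (D.σ g) * b ≤ c (D.σ g) ^ 2 * b := mul_le_mul_of_nonneg_right h6 hb.le
    linarith
  exact le_of_mul_le_mul_right h4 (by positivity)

/-- points of the cell of `g` are far from `θ` if `g 0` is -/
theorem I0_OO_far (C b : ℝ) (hb : 0 < b) : ∃ S : ℝ, ∀ g, ∀ x ∈ D.OO C g, ∀ θ ∈ Sph,
    b ≤ kp (zz (D.σ g)) θ → S ≤ c (D.σ g) → b / 8 ≤ kp x θ := by
  refine ⟨max 1 (8 * |C| / b), fun g x hx θ hθ h hS => ?_⟩
  have h1 := D.I0_cell hb hx hS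
  have h2 := kp_tri (zz_mem (D.σ g)) (I0_sph_cb hθ) (I0_sph_cb hx.1)
  rw [kp_symm x (zz (D.σ g))] at h2
  linarith

theorem I0_far_OO (C b : ℝ) (hb : 0 < b) : ∃ S : ℝ, ∀ g, ∀ x ∈ D.OO C g, ∀ θ ∈ Sph,
    b ≤ kp x θ → S ≤ c (D.σ g) → b / 8 ≤ kp (zz (D.σ g)) θ := by
  refine ⟨max 1 (8 * |C| / b), fun g x hx θ hθ h hS => ?_⟩
  have h1 := D.I0_cell hb hx hS
  have h2 := kp_tri (I0_sph_cb hx.1) (I0_sph_cb hθ) (zz_mem (D.σ g))
  linarith

/-- cells which meet a common smaller cell -/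
theorem I0_OO_trans (C : ℝ) (hC : 1 ≤ C) {g b : G} {x y : Eb} (hx : x ∈ D.OO C g)
    (hy : y ∈ D.OO C g) (hy' : y ∈ D.OO C b) (h : c (D.σ b) ≤ 2 * c (D.σ g)) :
    x ∈ D.OO (132 * C) b := by
  refine ⟨hx.1, ?_⟩
  have hg1 : 1 ≤ c (D.σ g) := c_ge_one _
  have hb1 : 1 ≤ c (D.σ b) := c_ge_one _
  have e1 : kp (zz (D.σ g)) x * c (D.σ g) ^ 2 ≤ C := hx.2
  have e2 : kp (zz (D.σ g)) y * c (D.σ g) ^ 2 ≤ C := hy.2
  have e3 : kp (zz (D.σ b)) y * c (D.σ b) ^ 2 ≤ C := hy'.2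
  have t1 := kp_tri (zz_mem (D.σ b)) (I0_sph_cb hx.1) (I0_sph_cb hy.1)
  have t2 := kp_tri (I0_sph_cb hy.1) (I0_sph_cb hx.1) (zz_mem (D.σ g))
  rw [kp_symm y (zz (D.σ b))] at t1
  have hcb : c (D.σ b) ^ 2 ≤ 4 * c (D.σ g) ^ 2 := by nlinarith
  have hk : 0 ≤ kp y x := norm_nonneg _
  have t3 : kp y x * c (D.σ g) ^ 2 ≤ 8 * C := by
    have := mul_le_mul_of_nonneg_right t2 (by positivity : 0 ≤ c (D.σ g) ^ 2)
    nlinarith
  have t4 : kp y x * c (D.σ b) ^ 2 ≤ 32 * C := by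
    have := mul_le_mul_of_nonneg_left hcb hk
    nlinarith
  have t5 := mul_le_mul_of_nonneg_right t1 (by positivity : 0 ≤ c (D.σ b) ^ 2)
  show kp (zz (D.σ b)) x * c (D.σ b) ^ 2 ≤ 132 * C
  nlinarith

/-- every point of the sphere is the point at infinity of a frame -/
theorem I0_frame {θ : Eb} (hθ : θ ∈ Sph) : ∃ k ∈ D.FF, D.t0 k = θ := by
  set v : V4 := D.xi θ with hv
  set u : V4 := ![-star (v 1), star (v 0), -star (v 3), star (v 2)] with hu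
  have hvn : ‖v‖ = 1 := D.xnorm θ hθ
  have hvv : hf v v = 0 := D.xnull θ hθ
  have hvv' : v 0 * star (v 0) + v 1 * star (v 1) - v 2 * star (v 2) - v 3 * star (v 3) = 0 := by
    rw [F0.hf_eq] at hvv
    simp [Fin.sum_univ_four, F0.sg] at hvv
    simp
    linear_combination hvv
  have huu : hf u u = 0 := by
    rw [F0.hf_eq]
    simp [Fin.sum_univ_four, F0.sg, hu]
    simp at hvv'
    linear_combination hvv'
  have huv : hf u v = 0 := by
    rw [F0.hf_eq]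
    simp [Fin.sum_univ_four, F0.sg, hu]
    ring
  have hN : v 0 * star (v 0) + v 1 * star (v 1) ≠ 0 := by
    intro h0
    have h1 : v 2 * star (v 2) + v 3 * star (v 3) = 0 := by linear_combination h0 - hvv'
    have e : ∀ z : ℂ, z * star z = ((‖z‖ ^ 2 : ℝ) : ℂ) := by
      intro z
      have := Complex.mul_conj' z
      rw [← Complex.ofReal_pow] at this
      simpa using this
    rw [e, e, ← Complex.ofReal_add, Complex.ofReal_eq_zero] at h0 h1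
    have z0 : ‖v 0‖ = 0 := by nlinarith [sq_nonneg ‖v 0‖, sq_nonneg ‖v 1‖, norm_nonneg (v 0)]
    have z1 : ‖v 1‖ = 0 := by nlinarith [sq_nonneg ‖v 0‖, sq_nonneg ‖v 1‖, norm_nonneg (v 1)]
    have z2 : ‖v 2‖ = 0 := by nlinarith [sq_nonneg ‖v 2‖, sq_nonneg ‖v 3‖, norm_nonneg (v 2)]
    have z3 : ‖v 3‖ = 0 := by nlinarith [sq_nonneg ‖v 2‖, sq_nonneg ‖v 3‖, norm_nonneg (v 3)]
    obtain ⟨i, hi⟩ := F0.exists_max v
    rw [hvn] at hi
    fin_cases i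
    · simp [z0] at hi
    · simp [z1] at hi
    · simp [z2] at hi
    · simp [z3] at hi
  have hl : ∀ a b : ℂ, a • u + b • v = 0 → a = 0 ∧ b = 0 := by
    intro a b hab
    have c0 := congrFun hab 0
    have c1 := congrFun hab 1
    simp [hu] at c0 c1
    have ha : a * (v 0 * star (v 0) + v 1 * star (v 1)) = 0 := by
      show a * (v 0 * (starRingEnd ℂ) (v 0) + v 1 * (starRingEnd ℂ) (v 1)) = 0
      linear_combination v 0 * c1 - v 1 * c0
    have hb : b * (v 0 * star (v 0) + v 1 * star (v 1)) = 0 := by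
      show b * (v 0 * (starRingEnd ℂ) (v 0) + v 1 * (starRingEnd ℂ) (v 1)) = 0
      linear_combination (starRingEnd ℂ) (v 0) * c0 + (starRingEnd ℂ) (v 1) * c1
    exact ⟨(mul_eq_zero.mp ha).resolve_right hN, (mul_eq_zero.mp hb).resolve_right hN⟩
  obtain ⟨k, hk, ⟨l, hl0, hkl⟩, -⟩ := exists_frame u v hl huu hvv huv
  have hkF : k ∈ D.FF := ⟨hk, θ, hθ, l, hl0, hkl⟩
  refine ⟨k, hkF, ?_⟩
  obtain ⟨ht, l', hl', hkl'⟩ := D.t0_spec hkF
  by_contra hne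
  have hx := D.xtv (D.t0 k) ht θ hθ hne
  have h1 : hf (k *ᵥ e1) v = 0 := by
    rw [hkl, F0.hf_smul_left, hvv, mul_zero]
  rw [hkl', F0.hf_smul_left] at h1
  exact (mul_ne_zero hl' hx) h1

/-- the middle blocks are bounded below -/
theorem I0_ratio : ∃ a : ℝ, 0 < a ∧ ∀ g, a * s1 (D.R g) ≤ s2 (D.R g) := by
  obtain ⟨a, C, ha, hcf⟩ := D.coef_far 1 one_pos
  have hC1 : 0 < |C| + 1 := by positivity
  refine ⟨Real.sqrt (a / (|C| + 1)), Real.sqrt_pos.mpr (by positivity), fun g => ?_⟩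
  obtain ⟨θ, hθ, hfar⟩ := I0_far (zz_mem (D.σ g))
  obtain ⟨k, hk, hkt⟩ := D.I0_frame hθ
  obtain ⟨k', hk', T, hT⟩ := D.exists_tr g hk
  obtain ⟨-, -, h1, h2⟩ := hcf g k hk k' hk' T hT (by rw [hkt]; exact hfar)
  have hs1 : 0 ≤ s1 (D.R g) := F0.s1_nonneg _
  have hs2 : 0 ≤ s2 (D.R g) := F0.s2_nonneg _
  have h3 : a * s1 (D.R g) ^ 2 ≤ (|C| + 1) * s2 (D.R g) ^ 2 := by
    have e1 : a * s1 (D.R g) * s1 (D.R g) ≤ ‖T.d2‖ * s2 (D.R g) * s1 (D.R g) :=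
      mul_le_mul_of_nonneg_right h2 hs1
    have e2 : ‖T.d2‖ * s1 (D.R g) * s2 (D.R g) ≤ C * s2 (D.R g) * s2 (D.R g) :=
      mul_le_mul_of_nonneg_right h1 hs2
    have e3 : C * s2 (D.R g) * s2 (D.R g) ≤ (|C| + 1) * s2 (D.R g) * s2 (D.R g) := by
      have : C ≤ |C| + 1 := by linarith [le_abs_self C]
      exact mul_le_mul_of_nonneg_right (mul_le_mul_of_nonneg_right this hs2) hs2
    nlinarith
  have h4 : (Real.sqrt (a / (|C| + 1)) * s1 (D.R g)) ^ 2 ≤ s2 (D.R g) ^ 2 := by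
    rw [mul_pow, Real.sq_sqrt (by positivity), div_mul_eq_mul_div, div_le_iff₀ hC1]
    linarith
  exact (le_abs_self _).trans (abs_le_of_sq_le_sq h4 hs2)

/-- multiplication by a fixed element changes sizes by bounded factors -/
theorem I0_mid_le (u : G) : ∃ C : ℝ, 0 < C ∧ ∀ h, s2 (D.R h) / s1 (D.R h) ≤
    C * (s2 (D.R (u * h)) / s1 (D.R (u * h))) := by
  have hs2u : 0 ≤ s2 (D.R u⁻¹) := F0.s2_nonneg _
  have hs1u : 0 ≤ s1 (D.R u) := F0.s1_nonneg _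
  refine ⟨64 * s2 (D.R u⁻¹) * s1 (D.R u) + 1, by positivity, fun h => ?_⟩
  have hp : 0 < s1 (D.R h) := D.toKp.F0_s1_pos' h
  have hp' : 0 < s1 (D.R (u * h)) := D.toKp.F0_s1_pos' (u * h)
  have hq : 0 ≤ s2 (D.R (u * h)) := F0.s2_nonneg _
  have h1 : s2 (D.R h) ≤ 16 * s2 (D.R u⁻¹) * s2 (D.R (u * h)) := by
    obtain ⟨w, hw, he⟩ := D.mul u⁻¹ (u * h)
    rw [inv_mul_cancel_left] at he
    rw [he, (s1_smul _ w hw).2]
    exact s2_mul _ _
  have h2 : s1 (D.R (u * h)) ≤ 4 * s1 (D.R u) * s1 (D.R h) := D.toKp.F0_s1_mul' u h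
  rw [← mul_div_assoc, div_le_div_iff₀ hp hp']
  calc s2 (D.R h) * s1 (D.R (u * h))
      ≤ (16 * s2 (D.R u⁻¹) * s2 (D.R (u * h))) * (4 * s1 (D.R u) * s1 (D.R h)) :=
        mul_le_mul h1 h2 hp'.le (by positivity)
    _ = (64 * s2 (D.R u⁻¹) * s1 (D.R u)) * s2 (D.R (u * h)) * s1 (D.R h) := by ring
    _ ≤ (64 * s2 (D.R u⁻¹) * s1 (D.R u) + 1) * s2 (D.R (u * h)) * s1 (D.R h) := by
        refine mul_le_mul_of_nonneg_right (mul_le_mul_of_nonneg_right ?_ hq) hp.le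
        linarith

theorem I0_ja_low (g : GU (Fin 2)) : ∃ r : ℝ, 0 < r ∧ ∀ z ∈ Cb, r ≤ ja g z := by
  have hc1 : 1 ≤ c g⁻¹ := c_ge_one _
  have hn := zz_norm g⁻¹
  have hlt : ‖zz g⁻¹‖ < 1 := by
    have : 0 < (c g⁻¹ ^ 2)⁻¹ := by positivity
    nlinarith [norm_nonneg (zz g⁻¹)]
  have hcg : 1 ≤ c g := c_ge_one g
  refine ⟨c g * (1 - ‖zz g⁻¹‖), mul_pos (by linarith) (by linarith), fun z hz => ?_⟩
  rw [ja_eq g hz, kp_symm]
  exact mul_le_mul_of_nonneg_left (kp_ge (zz_mem _) hz) (by linarith)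

/-- elements with a large middle block in general position with respect to all elements -/
theorem I0_moves (hub : ∀ B : ℝ, ∃ g, B * s1 (D.R g) ≤ s2 (D.R g)) : ∃ δ : ℝ, 0 < δ ∧
    ∀ B : ℝ, ∃ (H : Finset G) (S : ℝ), (∀ h ∈ H, B * s1 (D.R h) ≤ s2 (D.R h)) ∧
      ∀ g, S ≤ c (D.σ g) → ∃ h ∈ H, δ ≤ kp (zz (D.σ h)) (zz (D.σ g)⁻¹) := by
  classical
  obtain ⟨U, aU, haU, hU⟩ := moves D.lat
  choose r hr0 hr using fun u : G => I0_ja_low (D.σ u)
  choose Cm hCm0 hCm using fun u : G => D.I0_mid_le u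
  -- a bound for the inverse factors
  set CU : ℝ := ∑ u ∈ U, (r u)⁻¹ + 1 with hCU
  have hCU0 : 0 < CU := by
    have : 0 ≤ ∑ u ∈ U, (r u)⁻¹ := Finset.sum_nonneg fun u _ => (inv_pos.mpr (hr0 u)).le
    linarith
  have hCU1 : ∀ u ∈ U, (r u)⁻¹ ≤ CU := by
    intro u hu
    have := Finset.single_le_sum (f := fun u => (r u)⁻¹) (fun u _ => (inv_pos.mpr (hr0 u)).le) hu
    linarith
  refine ⟨aU / 64, by positivity, fun B => ?_⟩
  set M : ℝ := max 1 (32 * CU ^ 2 / aU) with hM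
  have hM1 : 1 ≤ M := le_max_left _ _
  set B₁ : ℝ := |B| * (∑ u ∈ U, Cm u) + 2 * (D.C * M ^ D.C) + 1 with hB₁
  have hsC : 0 ≤ ∑ u ∈ U, Cm u := Finset.sum_nonneg fun u _ => (hCm0 u).le
  have hDC : 0 < D.C := by linarith [D.hC]
  have hMC : 0 ≤ M ^ D.C := Real.rpow_nonneg (by linarith) _
  obtain ⟨h₁, hh₁⟩ := hub B₁
  have hp₁ : 0 < s1 (D.R h₁) := D.toKp.F0_s1_pos' h₁
  have hbig : M ≤ c (D.σ h₁) := by
    by_contra hlt
    push Not at hlt
    have hc1 : 1 ≤ c (D.σ h₁) := c_ge_one _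
    have e1 : s1 (D.R h₁) ≤ D.C * M ^ D.C := by
      refine (D.up h₁).trans (mul_le_mul_of_nonneg_left ?_ hDC.le)
      exact Real.rpow_le_rpow (by linarith) hlt.le hDC.le
    have e2 : s2 (D.R h₁) ≤ 2 * s1 (D.R h₁) ^ 2 := s2_le _
    have e3 : B₁ * s1 (D.R h₁) ≤ (2 * s1 (D.R h₁)) * s1 (D.R h₁) := by
      calc B₁ * s1 (D.R h₁) ≤ s2 (D.R h₁) := hh₁
        _ ≤ 2 * s1 (D.R h₁) ^ 2 := e2
        _ = (2 * s1 (D.R h₁)) * s1 (D.R h₁) := by ring
    have e4 : B₁ ≤ 2 * s1 (D.R h₁) := le_of_mul_le_mul_right e3 hp₁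
    have e5 : 0 ≤ |B| * (∑ u ∈ U, Cm u) := by positivity
    linarith
  have hc₁ : 1 ≤ c (D.σ h₁) := c_ge_one _
  have hsmall : CU ^ 2 / c (D.σ h₁) ^ 2 ≤ aU / 32 := by
    have e1 : 32 * CU ^ 2 / aU ≤ c (D.σ h₁) := (le_max_right _ _).trans hbig
    rw [div_le_iff₀ haU] at e1
    rw [div_le_iff₀ (by positivity)]
    have e2 : c (D.σ h₁) ≤ c (D.σ h₁) ^ 2 := by nlinarith
    have e3 : c (D.σ h₁) * aU ≤ c (D.σ h₁) ^ 2 * aU := mul_le_mul_of_nonneg_right e2 haU.le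
    linarith
  refine ⟨U.image fun u => u * h₁, max 1 (64 / aU), ?_, ?_⟩
  · intro h hh
    obtain ⟨u, hu, rfl⟩ := Finset.mem_image.mp hh
    have hpu : 0 < s1 (D.R (u * h₁)) := D.toKp.F0_s1_pos' _
    have e1 := hCm u h₁
    have e2 : B₁ ≤ s2 (D.R h₁) / s1 (D.R h₁) := by
      rw [le_div_iff₀ hp₁]; exact hh₁
    have e3 : Cm u ≤ ∑ u ∈ U, Cm u := Finset.single_le_sum (f := Cm) (fun u _ => (hCm0 u).le) hu
    have e4 : Cm u * |B| ≤ Cm u * (s2 (D.R (u * h₁)) / s1 (D.R (u * h₁))) := by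
      have : Cm u * |B| ≤ |B| * (∑ u ∈ U, Cm u) := by
        rw [mul_comm]; exact mul_le_mul_of_nonneg_left e3 (abs_nonneg B)
      have h0 : 0 ≤ D.C * M ^ D.C := by positivity
      linarith
    have e5 : |B| ≤ s2 (D.R (u * h₁)) / s1 (D.R (u * h₁)) := le_of_mul_le_mul_left e4 (hCm0 u)
    have e6 : B ≤ s2 (D.R (u * h₁)) / s1 (D.R (u * h₁)) := (le_abs_self B).trans e5
    rwa [le_div_iff₀ hpu] at e6
  · intro g hg
    obtain ⟨p, hp, hp1⟩ := I0_proj (D.σ h₁)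
    obtain ⟨q, hq, hq1⟩ := I0_proj (D.σ g)⁻¹
    obtain ⟨u, hu, hup⟩ := hU p hp q hq
    refine ⟨u * h₁, Finset.mem_image.mpr ⟨u, hu, rfl⟩, ?_⟩
    have hz0 : (0 : Eb) ∈ Cb := by simp [Cb]
    have hzz : zz (D.σ (u * h₁)) = ab (D.σ u) (zz (D.σ h₁)) := by
      rw [map_mul]
      exact ab_mul _ _ hz0
    have hpC := I0_sph_cb hp
    have hqC := I0_sph_cb hq
    have e1 := kp_ab (D.σ u) (zz_mem (D.σ h₁)) hpC
    have j1 := hr u _ (zz_mem (D.σ h₁))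
    have j2 := hr u _ hpC
    have k0 : 0 ≤ kp (ab (D.σ u) (zz (D.σ h₁))) (ab (D.σ u) p) := norm_nonneg _
    have k1 : 0 ≤ kp (zz (D.σ h₁)) p := norm_nonneg _
    -- the first distance
    have e2 : kp (ab (D.σ u) (zz (D.σ h₁))) (ab (D.σ u) p) ≤ aU / 32 := by
      have f1 : r u * r u ≤ ja (D.σ u) (zz (D.σ h₁)) * ja (D.σ u) p :=
        mul_le_mul j1 j2 (hr0 u).le ((hr0 u).le.trans j1)
      have f2 : kp (ab (D.σ u) (zz (D.σ h₁))) (ab (D.σ u) p) * (r u * r u) ≤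
          kp (zz (D.σ h₁)) p := by
        rw [← e1]
        exact mul_le_mul_of_nonneg_left f1 k0
      have f3 : kp (zz (D.σ h₁)) p ≤ 1 / c (D.σ h₁) ^ 2 := by
        rw [le_div_iff₀ (by positivity)]; exact hp1
      have f4 : kp (ab (D.σ u) (zz (D.σ h₁))) (ab (D.σ u) p) ≤
          (r u)⁻¹ ^ 2 * kp (zz (D.σ h₁)) p := by
        have hru := hr0 u
        rw [inv_pow, ← div_eq_inv_mul, le_div_iff₀ (by positivity)]
        calc _ = kp (ab (D.σ u) (zz (D.σ h₁))) (ab (D.σ u) p) * (r u * r u) := by ring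
          _ ≤ _ := f2
      calc kp (ab (D.σ u) (zz (D.σ h₁))) (ab (D.σ u) p)
          ≤ (r u)⁻¹ ^ 2 * kp (zz (D.σ h₁)) p := f4
        _ ≤ CU ^ 2 * (1 / c (D.σ h₁) ^ 2) := by
            refine mul_le_mul ?_ f3 k1 (by positivity)
            exact pow_le_pow_left₀ (inv_pos.mpr (hr0 u)).le (hCU1 u hu) 2
        _ = CU ^ 2 / c (D.σ h₁) ^ 2 := by ring
        _ ≤ aU / 32 := hsmall
    rw [← hzz] at e2
    have t1 := kp_tri (ab_mem (D.σ u) hpC) hqC (zz_mem (D.σ (u * h₁)))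
    have t2 := kp_tri (zz_mem (D.σ (u * h₁))) hqC (zz_mem (D.σ g)⁻¹)
    have hgS : 64 / aU ≤ c (D.σ g) := (le_max_right _ _).trans hg
    have hg1 : 1 ≤ c (D.σ g) := c_ge_one _
    have e3 : kp (zz (D.σ g)⁻¹) q ≤ aU / 64 := by
      rw [I0_c_inv] at hq1
      rw [div_le_iff₀ haU] at hgS
      have f1 : c (D.σ g) ≤ c (D.σ g) ^ 2 := by nlinarith
      have f2 : kp (zz (D.σ g)⁻¹) q * c (D.σ g) ^ 2 ≤ aU / 64 * c (D.σ g) ^ 2 := by
        have : c (D.σ g) * aU ≤ c (D.σ g) ^ 2 * aU := mul_le_mul_of_nonneg_right f1 haU.le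
        linarith
      exact le_of_mul_le_mul_right f2 (by positivity)
    rw [kp_symm (zz (D.σ (u * h₁)))]
    linarith

end Kd

end Pool.Agent.MPd01a95.KT
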