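import Mathlib
import Pool.Agent.Lib.MP_d01a95_gt_K.KDefs2
import Pool.Agent.Lib.MP_d01a95_gt_K.KA1
import Pool.Agent.Lib.MP_d01a95_gt_K.KA2
import Pool.Agent.Lib.MP_d01a95_gt_K.KF0
import Pool.Agent.Lib.MP_d01a95_gt_K.KI0
import Pool.Agent.Lib.MP_d01a95_gt_K.KI4
import Pool.Agent.Lib.MP_d01a95_gt_K.KI5

/-!
# Module KI6a: the elements with a large middle block
-/

set_option autoImplicit false
set_option linter.all false

open Matrix Filter Topology MeasureTheory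
open scoped ContDiff

namespace Pool.Agent.MPd01a95.KT

open GU

variable {G : Type} [Group G]

namespace Kd

variable (D : Kd G)

/-- the elements with a large middle block -/
def I6_Bad (θ : Eb) (b B S : ℝ) : Set G :=
  {g | S ≤ c (D.σ g) ∧ b ≤ kp (zz (D.σ g)) θ ∧ B * s1 (D.R g) < s2 (D.R g)}

/-- a disjoint family of bad cells which sees all bad cells -/
theorem I6_select (C b : ℝ) (hC : 1 ≤ C) (hb : 0 < b) : ∃ S₁ : ℝ, ∀ (C' S B : ℝ) (θ : Eb)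
    (m : Measure Eb), 1 ≤ C' → θ ∈ Sph → D.Ms C (b / 64) C' S θ m → S₁ ≤ S → 0 < B →
    ∃ u ⊆ D.I6_Bad θ b B S,
      (∀ T : Finset G, (T : Set G) ⊆ u → ∑ g ∈ T, (s1 (D.R g) ^ 4)⁻¹ ≤ C' ^ 2 / B ^ 2) ∧
      ∀ g ∈ D.I6_Bad θ b B S, ∃ h ∈ u, (D.OO C g ∩ D.OO C h).Nonempty ∧
        c (D.σ h) ≤ 2 * c (D.σ g) := by
  obtain ⟨S0, hS0⟩ := D.I0_OO_far C b hb
  refine ⟨max 1 S0, fun C' S B θ m hC' hθ hm hS hB => ?_⟩
  have hS1 : 1 ≤ S := (le_max_left _ _).trans hS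
  have hS2 : S0 ≤ S := (le_max_right _ _).trans hS
  obtain ⟨u, hut, hdis, hcov⟩ := Vitali.exists_disjoint_subfamily_covering_enlargement
    (fun g => D.OO C g) (D.I6_Bad θ b B S) (fun g => (c (D.σ g))⁻¹) 2 (by norm_num)
    (fun g hg => by
      have h1 : 1 ≤ c (D.σ g) := hS1.trans hg.1
      positivity) 1
    (fun g hg => by
      have h1 : 1 ≤ c (D.σ g) := hS1.trans hg.1
      exact inv_le_one_of_one_le₀ h1)
    (fun g hg => by
      obtain ⟨x, hx, hx'⟩ := I0_proj (D.σ g)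
      exact ⟨x, hx, hx'.trans hC⟩)
  refine ⟨u, hut, fun T hT => ?_, fun g hg => ?_⟩
  · have hd : (T : Set G).PairwiseDisjoint (fun g => D.OO C g) := hdis.subset hT
    have e1 : m (⋃ g ∈ T, D.OO C g) = ∑ g ∈ T, m (D.OO C g) :=
      measure_biUnion_finset hd fun g _ => (D.I0_OO_closed C g).measurableSet
    have hsub : (⋃ g ∈ T, D.OO C g) ⊆ {x | x ∈ Sph ∧ (b / 64) / 64 ≤ kp x θ} := by
      intro x hx
      simp only [Set.mem_iUnion] at hx
      obtain ⟨g, hg, hx⟩ := hx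
      have hbad := hut (hT hg)
      have h1 := hS0 g x hx θ hθ hbad.2.1 (hS2.trans hbad.1)
      exact ⟨hx.1, by linarith⟩
    have h2 : ∑ g ∈ T, m (D.OO C g) ≤ ENNReal.ofReal C' := by
      rw [← e1]
      exact (measure_mono hsub).trans hm.fin
    have h3 : ∀ g ∈ T, ENNReal.ofReal (C'⁻¹ * B ^ 2 * (s1 (D.R g) ^ 4)⁻¹) ≤ m (D.OO C g) := by
      intro g hg
      have hbad := hut (hT hg)
      have hp : 0 < s1 (D.R g) := D.toKp.F0_s1_pos' g
      refine le_trans ?_ ((hm.lo g hbad.1 (by linarith [hbad.2.1])).trans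
        (measure_mono (D.I0_OI_sub C g)))
      refine ENNReal.ofReal_le_ofReal ?_
      have h4 : B ≤ s2 (D.R g) / s1 (D.R g) := by
        rw [le_div_iff₀ hp]
        exact hbad.2.2.le
      have h5 : B ^ 2 ≤ (s2 (D.R g) / s1 (D.R g)) ^ 2 := pow_le_pow_left₀ hB.le h4 2
      have h6 : 0 ≤ C'⁻¹ := by positivity
      have h7 : 0 ≤ (s1 (D.R g) ^ 4)⁻¹ := by positivity
      exact mul_le_mul_of_nonneg_right (mul_le_mul_of_nonneg_left h5 h6) h7
    have h8 : ENNReal.ofReal (∑ g ∈ T, C'⁻¹ * B ^ 2 * (s1 (D.R g) ^ 4)⁻¹) ≤ ENNReal.ofReal C' := by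
      rw [ENNReal.ofReal_sum_of_nonneg (fun g _ => by
        have : 0 < s1 (D.R g) := D.toKp.F0_s1_pos' g
        positivity)]
      exact (Finset.sum_le_sum h3).trans h2
    rw [ENNReal.ofReal_le_ofReal_iff (by linarith), ← Finset.mul_sum] at h8
    have hC0 : 0 < C' := by linarith
    rw [le_div_iff₀ (by positivity)]
    have h9 := mul_le_mul_of_nonneg_left h8 hC0.le
    have e2 : C' * (C'⁻¹ * B ^ 2 * ∑ g ∈ T, (s1 (D.R g) ^ 4)⁻¹) =
        (∑ g ∈ T, (s1 (D.R g) ^ 4)⁻¹) * B ^ 2 := by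
      field_simp
    rw [e2] at h9
    linarith [sq C']
  · obtain ⟨h, hh, hne, hle⟩ := hcov g hg
    refine ⟨h, hh, hne, ?_⟩
    have h1 : 1 ≤ c (D.σ g) := hS1.trans hg.1
    have h2 : 1 ≤ c (D.σ h) := hS1.trans (hut hh).1
    have h3 : (c (D.σ g))⁻¹ ≤ 2 * (c (D.σ h))⁻¹ := hle
    rw [inv_le_iff_one_le_mul₀ (by linarith), mul_comm, ← mul_assoc, ← div_eq_mul_inv,
      le_div_iff₀ (by linarith)] at h3
    linarith

/-- the cells which meet an earlier bad cell have a small sum -/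
theorem I6_badsum (C a : ℝ) (hC : 1 ≤ C) (hD : D.C ≤ C) (ha : 0 < a) : ∃ C'' S₁ : ℝ, 0 ≤ C'' ∧
    ∀ (C' S B : ℝ) (θ : Eb) (m : Measure Eb), 1 ≤ C' → θ ∈ Sph →
    D.Ms C (a / 4096) C' S θ m → S₁ ≤ S → 0 < B → ∀ s : ℝ, 1 ≤ s → ∀ T : Finset G,
    (∀ g ∈ T, g ∈ D.LL θ a s ∧ ∃ g' ∈ D.I6_Bad θ (a / 64) B S, c (D.σ g') ≤ D.C * s ∧
      (D.OO C g ∩ D.OO C g').Nonempty) →
    ∑ g ∈ T, (s1 (D.R g) ^ 4)⁻¹ ≤ C'' * (C' ^ 2 / B ^ 2) := by
  classical
  obtain ⟨S₁, hS₁⟩ := D.I6_select C (a / 64) hC (by positivity)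
  obtain ⟨C3, hC3⟩ := D.desc (132 * C) a (by linarith) ha
  refine ⟨max C3 0, S₁, le_max_right _ _, fun C' S B θ m hC' hθ hm hS hB s hs T hT => ?_⟩
  have hm' : D.Ms C (a / 64 / 64) C' S θ m := by
    have e : a / 64 / 64 = a / 4096 := by ring
    rw [e]
    exact hm
  obtain ⟨u, hut, hsum, hcov⟩ := hS₁ C' S B θ m hC' hθ hm' hS hB
  have hex : ∀ g ∈ T, ∃ h ∈ u, (D.OO (132 * C) g ∩ D.OO (132 * C) h).Nonempty ∧
      c (D.σ h) ≤ 132 * C * s := by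
    intro g hg
    obtain ⟨-, g', hg', hc', x, hx, hx'⟩ := hT g hg
    obtain ⟨h, hh, ⟨y, hy, hy'⟩, hle⟩ := hcov g' hg'
    refine ⟨h, hh, ⟨x, ⟨hx.1, ?_⟩, D.I0_OO_trans C hC hx' hy hy' hle⟩, ?_⟩
    · exact le_trans hx.2 (by linarith)
    · have h1 : D.C * s ≤ C * s := mul_le_mul_of_nonneg_right hD (by linarith)
      have h2 : 0 ≤ C * s := by positivity
      linarith
  choose! f hf1 hf2 hf3 using hex
  have hmaps : ∀ g ∈ T, f g ∈ T.image f := fun g hg => Finset.mem_image_of_mem f hg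
  rw [← Finset.sum_fiberwise_of_maps_to hmaps]
  have hin : ∀ h ∈ T.image f, ∑ g ∈ T with f g = h, (s1 (D.R g) ^ 4)⁻¹ ≤
      max C3 0 * (s1 (D.R h) ^ 4)⁻¹ := by
    intro h hh
    obtain ⟨g0, hg0, rfl⟩ := Finset.mem_image.mp hh
    have hfin : {g | g ∈ D.LL θ a s ∧ (D.OO (132 * C) g ∩ D.OO (132 * C) (f g0)).Nonempty}.Finite :=
      (D.I0_LL_fin θ a s).subset fun g hg => hg.1
    have h1 := hC3 θ hθ (f g0) s (hf3 g0 hg0)
    rw [finsum_mem_eq_finite_toFinset_sum _ hfin] at h1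
    have hp : 0 ≤ (s1 (D.R (f g0)) ^ 4)⁻¹ := by
      have : 0 < s1 (D.R (f g0)) := D.toKp.F0_s1_pos' _
      positivity
    refine le_trans ?_ (h1.trans (mul_le_mul_of_nonneg_right (le_max_left _ _) hp))
    refine Finset.sum_le_sum_of_subset_of_nonneg ?_ ?_
    · intro g hg
      rw [Finset.mem_filter] at hg
      rw [Set.Finite.mem_toFinset]
      refine ⟨(hT g hg.1).1, ?_⟩
      rw [← hg.2]
      exact hf2 g hg.1
    · intro g _ _
      have : 0 < s1 (D.R g) := D.toKp.F0_s1_pos' _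
      positivity
  refine (Finset.sum_le_sum hin).trans ?_
  rw [← Finset.mul_sum]
  refine mul_le_mul_of_nonneg_left (hsum (T.image f) ?_) (le_max_right _ _)
  intro h hh
  obtain ⟨g, hg, rfl⟩ := Finset.mem_image.mp (Finset.mem_coe.mp hh)
  exact hf1 g hg

end Kd

end Pool.Agent.MPd01a95.KT
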