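import Mathlib
import Pool.Agent.Lib.MP_d01a95_gt_K.KDefs2
import Pool.Agent.Lib.MP_d01a95_gt_K.KA1
import Pool.Agent.Lib.MP_d01a95_gt_K.KA2
import Pool.Agent.Lib.MP_d01a95_gt_K.KA4
import Pool.Agent.Lib.MP_d01a95_gt_K.KF0
import Pool.Agent.Lib.MP_d01a95_gt_K.KF6
import Pool.Agent.Lib.MP_d01a95_gt_K.KH1
import Pool.Agent.Lib.MP_d01a95_gt_K.KH2
import Pool.Agent.Lib.MP_d01a95_gt_K.KH3
import Pool.Agent.Lib.MP_d01a95_gt_K.KH4
import Pool.Agent.Lib.MP_d01a95_gt_K.KI2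
import Pool.Agent.Lib.MP_d01a95_gt_K.KI4
import Pool.Agent.Lib.MP_d01a95_gt_K.KI5
import Pool.Agent.Lib.MP_d01a95_gt_K.KI6a
import Pool.Agent.Lib.MP_d01a95_gt_K.KI0

set_option autoImplicit false
set_option linter.all false

open Matrix Filter Topology MeasureTheory
open scoped ContDiff

namespace Pool.Agent.MPd01a95.KT

open GU

variable {G : Type} [Group G]

namespace Kd

variable (D : Kd G)

/-- the points which meet no bad cell up to level `s` -/
private def KI6F (C : ℝ) (a B S : ℝ) (θ : Eb) (s : ℝ) : Set Eb :=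
  {x | x ∈ Sph ∧ a / 8 ≤ kp x θ ∧ ∀ g' ∈ D.I6_Bad θ (a / 64) B S, c (D.σ g') ≤ D.C * s →
    x ∉ D.OI C g'}

private theorem KI6F_closed (C a B S : ℝ) (θ : Eb) (s : ℝ) : IsClosed (D.KI6F C a B S θ s) := by
  choose U hU hUe using fun g => D.I0_OI_open C g
  have e : D.KI6F C a B S θ s = Sph ∩ ({x | a / 8 ≤ kp x θ} ∩
      ⋂ g' : G, ⋂ _ : g' ∈ D.I6_Bad θ (a / 64) B S, ⋂ _ : c (D.σ g') ≤ D.C * s, (U g')ᶜ) := by
    ext x
    simp only [KI6F, Set.mem_setOf_eq, Set.mem_inter_iff, Set.mem_iInter, Set.mem_compl_iff]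
    constructor
    · rintro ⟨h1, h2, h3⟩
      refine ⟨h1, h2, fun g' hg hc hx => h3 g' hg hc ?_⟩
      rw [hUe g']
      exact ⟨h1, hx⟩
    · rintro ⟨h1, h2, h3⟩
      refine ⟨h1, h2, fun g' hg hc hx => h3 g' hg hc ?_⟩
      rw [hUe g'] at hx
      exact hx.2
  rw [e]
  have h1 : IsClosed {x : Eb | a / 8 ≤ kp x θ} := by
    have hc : Continuous fun x : Eb => kp x θ :=
      kp_cont.comp (continuous_id.prodMk continuous_const)
    exact isClosed_le continuous_const hc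
  exact I0_sph_compact.isClosed.inter (h1.inter (isClosed_iInter fun g' =>
    isClosed_iInter fun _ => isClosed_iInter fun _ => (hU g').isClosed_compl))

private theorem KI6F_anti (C a B S : ℝ) (θ : Eb) {s s' : ℝ} (h : s ≤ s') :
    D.KI6F C a B S θ s' ⊆ D.KI6F C a B S θ s := by
  rintro x ⟨h1, h2, h3⟩
  refine ⟨h1, h2, fun g' hg hc => h3 g' hg (hc.trans ?_)⟩
  have := D.hC
  exact mul_le_mul_of_nonneg_left h (by linarith)

private theorem KI6_ratio {a₀ : ℝ} (ha₀ : 0 < a₀) {g : M4} (h : a₀ * s1 g ≤ s2 g) :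
    a₀ ^ 2 * (s1 g ^ 4)⁻¹ ≤ (s2 g / s1 g) ^ 2 * (s1 g ^ 4)⁻¹ := by
  rcases (F0.s1_nonneg g).eq_or_lt with h0 | h0
  · rw [← h0]
    simp
  · refine mul_le_mul_of_nonneg_right ?_ (by positivity)
    have h1 : a₀ ≤ s2 g / s1 g := (le_div_iff₀ h0).2 h
    exact pow_le_pow_left₀ ha₀.le h1 2

/-- module I6: if the level sums stay away from zero there is a compact set of positive measure
which meets no cell with a large middle block -/
theorem exists_F {θ : Eb} (hθ : θ ∈ Sph) (a : ℝ) (ha : 0 < a) (η : ℝ) (hη : 0 < η) (S₀ : ℝ)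
    (h : ∀ s : ℝ, S₀ ≤ s → η ≤ D.SS θ a s) : ∀ C₁ : ℝ, ∃ (C B C' S : ℝ) (m : Measure Eb)
      (F : Set Eb), C₁ ≤ C ∧ 1 ≤ C' ∧ D.Ms C (a / 4096) C' S θ m ∧ IsCompact F ∧
      F ⊆ {x | x ∈ Sph ∧ a / 8 ≤ kp x θ} ∧ 0 < m F ∧
      ∀ g, S ≤ c (D.σ g) → a / 64 ≤ kp (zz (D.σ g)) θ → (D.OI C g ∩ F).Nonempty →
        s2 (D.R g) ≤ B * s1 (D.R g) := by
  intro C₁
  obtain ⟨C₀, hC₀, hms⟩ := D.exists_ms
  set C : ℝ := max (max C₁ 1) (max D.C C₀) with hCdef
  have hC1 : C₁ ≤ C := (le_max_left _ _).trans (le_max_left _ _)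
  have hC1' : 1 ≤ C := (le_max_right _ _).trans (le_max_left _ _)
  have hCD : D.C ≤ C := (le_max_left _ _).trans (le_max_right _ _)
  have hCC₀ : C₀ ≤ C := (le_max_right _ _).trans (le_max_right _ _)
  obtain ⟨C', S₂, hC', hm⟩ := hms C hCC₀ (a / 4096) (by positivity)
  obtain ⟨m, hM₂⟩ := hm θ hθ
  obtain ⟨C'', S₁, hC'', hbad⟩ := D.I6_badsum C a hC1' hCD ha
  obtain ⟨a₀, ha₀, hratio⟩ := D.I0_ratio
  obtain ⟨N, hN⟩ := D.I0_card C D.C
  obtain ⟨Sf, hf⟩ := D.I0_OO_far C a ha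
  set S : ℝ := max (max S₁ S₂) (max 1 Sf) with hSdef
  have hS₁ : S₁ ≤ S := (le_max_left _ _).trans (le_max_left _ _)
  have hS₂ : S₂ ≤ S := (le_max_right _ _).trans (le_max_left _ _)
  have hS1 : 1 ≤ S := (le_max_left _ _).trans (le_max_right _ _)
  have hSf : Sf ≤ S := (le_max_right _ _).trans (le_max_right _ _)
  have hM : D.Ms C (a / 4096) C' S θ m :=
    ⟨hM₂.supp, hM₂.fin, fun g hg => hM₂.lo g (hS₂.trans hg), fun g hg => hM₂.up g (hS₂.trans hg)⟩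
  set B : ℝ := Real.sqrt (2 * (C'' * C' ^ 2) / η) + 1 with hBdef
  have hB1 : 1 ≤ B := by
    have := Real.sqrt_nonneg (2 * (C'' * C' ^ 2) / η)
    linarith
  have hB : 0 < B := by linarith
  have hBη : C'' * (C' ^ 2 / B ^ 2) ≤ η / 2 := by
    have h0 : 0 ≤ 2 * (C'' * C' ^ 2) / η := by positivity
    have h1 : 2 * (C'' * C' ^ 2) / η ≤ B ^ 2 := by
      have h2 := Real.sq_sqrt h0
      have h3 := Real.sqrt_nonneg (2 * (C'' * C' ^ 2) / η)
      rw [hBdef]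
      nlinarith
    rw [div_le_iff₀ hη] at h1
    rw [← mul_div_assoc, div_le_iff₀ (by positivity)]
    linarith
  set Fs : ℝ → Set Eb := D.KI6F C a B S θ with hFs
  -- the lower bound at each level
  set K : ENNReal := ENNReal.ofReal (C'⁻¹ * a₀ ^ 2 * (η / 2)) with hK
  have hKpos : 0 < K := by
    rw [hK, ENNReal.ofReal_pos]
    have : 0 < C' := by linarith
    positivity
  have claim : ∀ s : ℝ, max S₀ S ≤ s → K ≤ N * m (Fs s) := by
    classical
    intro s hs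
    have hsS₀ : S₀ ≤ s := (le_max_left _ _).trans hs
    have hsS : S ≤ s := (le_max_right _ _).trans hs
    have hs1 : 1 ≤ s := hS1.trans hsS
    set T0 := (D.I0_LL_fin θ a s).toFinset with hT0
    have hT0m : ∀ g, g ∈ T0 ↔ g ∈ D.LL θ a s := fun g => (D.I0_LL_fin θ a s).mem_toFinset
    set p : G → Prop := fun g => ∃ g' ∈ D.I6_Bad θ (a / 64) B S, c (D.σ g') ≤ D.C * s ∧
      (D.OO C g ∩ D.OO C g').Nonempty with hp
    have h1 : ∑ g ∈ T0.filter p, (s1 (D.R g) ^ 4)⁻¹ ≤ C'' * (C' ^ 2 / B ^ 2) := by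
      refine hbad C' S B θ m hC' hθ hM hS₁ hB s hs1 _ fun g hg => ?_
      rw [Finset.mem_filter] at hg
      exact ⟨(hT0m g).1 hg.1, hg.2⟩
    have h2 : η ≤ ∑ g ∈ T0, (s1 (D.R g) ^ 4)⁻¹ := by
      rw [hT0, ← D.I0_SS_eq]
      exact h s hsS₀
    rw [← Finset.sum_filter_add_sum_filter_not T0 p] at h2
    have h3 : η / 2 ≤ ∑ g ∈ T0.filter (fun g => ¬ p g), (s1 (D.R g) ^ 4)⁻¹ := by linarith
    set T₂ := T0.filter (fun g => ¬ p g) with hT₂
    have hT₂L : ∀ g ∈ T₂, s ≤ c (D.σ g) ∧ c (D.σ g) ≤ D.C * s ∧ a ≤ kp (zz (D.σ g)) θ :=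
      fun g hg => (hT0m g).1 (Finset.mem_filter.1 hg).1
    have hsub : ∀ g ∈ T₂, D.OI C g ⊆ Fs s := by
      intro g hg x hx
      have hL := hT₂L g hg
      have hxO := D.I0_OI_sub C g hx
      refine ⟨hx.1, hf g x hxO θ hθ hL.2.2 (hSf.trans (hsS.trans hL.1)), ?_⟩
      intro g' hg' hc' hx'
      exact (Finset.mem_filter.1 hg).2 ⟨g', hg', hc', x, hxO, D.I0_OI_sub C g' hx'⟩
    have hlo : ∀ g ∈ T₂, ENNReal.ofReal (C'⁻¹ * a₀ ^ 2 * (s1 (D.R g) ^ 4)⁻¹) ≤ m (D.OI C g) := by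
      intro g hg
      have hL := hT₂L g hg
      have h4 := hM.lo g (hsS.trans hL.1) (by linarith [hL.2.2])
      refine le_trans (ENNReal.ofReal_le_ofReal ?_) h4
      rw [mul_assoc, mul_assoc]
      refine mul_le_mul_of_nonneg_left (KI6_ratio ha₀ (hratio g)) ?_
      have : 0 < C' := by linarith
      positivity
    have hmeas : ∀ g ∈ T₂, MeasurableSet (D.OI C g) := by
      intro g _
      obtain ⟨U, hU, hUe⟩ := D.I0_OI_open C g
      rw [hUe]
      exact I0_sph_compact.isClosed.measurableSet.inter hU.measurableSet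
    have hov := I0_overlap m N T₂ (fun g => D.OI C g) hmeas (by
      intro x T' hT' hx
      rcases T'.eq_empty_or_nonempty with h0 | ⟨g0, hg0⟩
      · rw [h0]
        simp
      · refine hN s hs1 x (hx g0 hg0).1 T' fun g hg => ?_
        have hL := hT₂L g (hT' hg)
        exact ⟨(D.I0_OI_sub C g (hx g hg)).2, hL.1, hL.2.1⟩)
    calc K ≤ ENNReal.ofReal (∑ g ∈ T₂, C'⁻¹ * a₀ ^ 2 * (s1 (D.R g) ^ 4)⁻¹) := by
          refine ENNReal.ofReal_le_ofReal ?_
          rw [← Finset.mul_sum]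
          refine mul_le_mul_of_nonneg_left h3 ?_
          have : 0 < C' := by linarith
          positivity
      _ = ∑ g ∈ T₂, ENNReal.ofReal (C'⁻¹ * a₀ ^ 2 * (s1 (D.R g) ^ 4)⁻¹) := by
          refine ENNReal.ofReal_sum_of_nonneg fun g _ => ?_
          have : 0 < C' := by linarith
          have := F0.s1_nonneg (D.R g)
          positivity
      _ ≤ ∑ g ∈ T₂, m (D.OI C g) := Finset.sum_le_sum hlo
      _ ≤ N * m (⋃ g ∈ T₂, D.OI C g) := hov
      _ ≤ N * m (Fs s) := by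
          refine mul_le_mul_right (measure_mono ?_) _
          exact Set.iUnion₂_subset hsub
  -- the limit set
  set F : Set Eb := ⋂ n : ℕ, Fs ((n : ℝ) + 1) with hF
  have hanti : Antitone fun n : ℕ => Fs ((n : ℝ) + 1) := by
    intro n n' hnn
    have : (n : ℝ) ≤ n' := by exact_mod_cast hnn
    exact D.KI6F_anti C a B S θ (by linarith)
  have hclosed : ∀ s, IsClosed (Fs s) := fun s => D.KI6F_closed C a B S θ s
  have hfin : m (Fs ((0 : ℕ) + 1 : ℝ)) ≠ ⊤ := by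
    refine ne_top_of_le_ne_top ENNReal.ofReal_ne_top (le_trans (measure_mono ?_) hM.fin)
    rintro x ⟨hx1, hx2, -⟩
    exact ⟨hx1, by linarith⟩
  have hlim : Tendsto (fun n : ℕ => m (Fs ((n : ℝ) + 1))) atTop (𝓝 (m F)) :=
    tendsto_measure_iInter_atTop (fun n => (hclosed _).measurableSet.nullMeasurableSet) hanti
      ⟨0, by exact_mod_cast hfin⟩
  have hKF : K ≤ N * m F := by
    have h1 : Tendsto (fun n : ℕ => (N : ENNReal) * m (Fs ((n : ℝ) + 1))) atTop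
        (𝓝 (N * m F)) := ENNReal.Tendsto.const_mul hlim (Or.inr (ENNReal.natCast_ne_top N))
    refine ge_of_tendsto h1 ?_
    obtain ⟨n₀, hn₀⟩ := exists_nat_ge (max S₀ S)
    filter_upwards [eventually_ge_atTop n₀] with n hn
    have : (n₀ : ℝ) ≤ n := by exact_mod_cast hn
    exact claim _ (by linarith)
  have hFsub : ∀ n : ℕ, F ⊆ Fs ((n : ℝ) + 1) := fun n => Set.iInter_subset _ n
  refine ⟨C, B, C', S, m, F, hC1, hC', hM, ?_, ?_, ?_, ?_⟩
  · have h1 : F ⊆ Sph := fun x hx => (hFsub 0 hx).1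
    exact I0_sph_compact.of_isClosed_subset (isClosed_iInter fun n => hclosed _) h1
  · intro x hx
    have := hFsub 0 hx
    exact ⟨this.1, this.2.1⟩
  · rw [pos_iff_ne_zero]
    intro h0
    rw [h0, mul_zero] at hKF
    exact absurd hKF (not_le.2 hKpos)
  · intro g hg hk hne
    obtain ⟨x, hx1, hx2⟩ := hne
    by_contra hcon
    rw [not_le] at hcon
    obtain ⟨n, hn⟩ := exists_nat_ge (c (D.σ g))
    have hDC := D.hC
    have hn' : c (D.σ g) ≤ D.C * ((n : ℝ) + 1) := by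
      have h0 : (0 : ℝ) ≤ n := Nat.cast_nonneg n
      nlinarith
    exact (hFsub n hx2).2.2 g ⟨hg, hk, hcon⟩ hn' hx1

end Kd

end Pool.Agent.MPd01a95.KT
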