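import Mathlib
import Pool.Agent.Lib.MP_d01a95_gt_K.KDefs2
import Pool.Agent.Lib.MP_d01a95_gt_K.KA1
import Pool.Agent.Lib.MP_d01a95_gt_K.KA2
import Pool.Agent.Lib.MP_d01a95_gt_K.KF0
import Pool.Agent.Lib.MP_d01a95_gt_K.KI0
import Pool.Agent.Lib.MP_d01a95_gt_K.KI2

/-!
# Module KI7a: from a cell with bounded middle block to a neighbouring bad cell
-/

set_option autoImplicit false
set_option linter.all false

open Matrix Filter Topology MeasureTheory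
open scoped ContDiff

namespace Pool.Agent.MPd01a95.KT

open GU

variable {G : Type} [Group G]

namespace Kd

variable (D : Kd G)

/-- one step: a neighbouring cell with a large middle block -/
theorem I7_step (hub : ∀ B : ℝ, ∃ g, B * s1 (D.R g) ≤ s2 (D.R g)) (a B C : ℝ) (ha : 0 < a)
    (hC : 1 ≤ C) : ∃ (K S₁ : ℝ) (H : Finset G), 1 ≤ K ∧ ∀ θ ∈ Sph, ∀ x ∈ Sph, ∀ g : G,
      Near D.C (D.σ g) x → a / 8 ≤ kp x θ → S₁ ≤ c (D.σ g) →
      s2 (D.R g) ≤ B * s1 (D.R g) → ∃ h ∈ H,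
        B * s1 (D.R (g * h)) < s2 (D.R (g * h)) ∧
        a / 64 ≤ kp (zz (D.σ (g * h))) θ ∧
        c (D.σ g) ≤ K * c (D.σ (g * h)) ∧ c (D.σ (g * h)) ≤ K * c (D.σ g) ∧
        s1 (D.R (g * h)) ≤ K * s1 (D.R g) ∧
        ∀ y ∈ D.OO C (g * h), kp y x ≤ K / c (D.σ g) ^ 2 := by
  obtain ⟨δ₁, hδ₁, hmoves⟩ := D.I0_moves hub
  obtain ⟨δ, hδ⟩ : ∃ δ, δ = min (a / 64) (δ₁ / 8) := ⟨_, rfl⟩
  have hδ0 : 0 < δ := by rw [hδ]; exact lt_min (by positivity) (by positivity)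
  have hδa : δ ≤ a / 64 := by rw [hδ]; exact min_le_left _ _
  have hδ8 : δ ≤ δ₁ / 8 := by rw [hδ]; exact min_le_right _ _
  obtain ⟨am, ham, hmid⟩ := D.mid_mul δ hδ0
  obtain ⟨B', hB'⟩ : ∃ B', B' = max B 1 := ⟨_, rfl⟩
  have hB1 : 1 ≤ B' := by rw [hB']; exact le_max_right _ _
  have hBB : B ≤ B' := by rw [hB']; exact le_max_left _ _
  obtain ⟨H, S, hH, hS⟩ := hmoves (B' ^ 2 / am + 1)
  have hDC := D.hC
  obtain ⟨M, hM1, hMc, hMs⟩ : ∃ M : ℝ, 1 ≤ M ∧ (∀ h ∈ H, c (D.σ h) ≤ M) ∧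
      (∀ h ∈ H, s1 (D.R h) ≤ M) := by
    obtain ⟨M₁, hM₁⟩ := (H.image fun h => c (D.σ h)).bddAbove
    obtain ⟨M₂, hM₂⟩ := (H.image fun h => s1 (D.R h)).bddAbove
    refine ⟨max 1 (max M₁ M₂), le_max_left _ _, fun h hh => ?_, fun h hh => ?_⟩
    · exact (hM₁ (Finset.mem_coe.2 (Finset.mem_image_of_mem _ hh))).trans
        ((le_max_left _ _).trans (le_max_right _ _))
    · exact (hM₂ (Finset.mem_coe.2 (Finset.mem_image_of_mem _ hh))).trans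
        ((le_max_right _ _).trans (le_max_right _ _))
  obtain ⟨K, hK⟩ : ∃ K, K = 1 + 1 / δ₁ + 4 * M + 4 * (C / δ₁ ^ 2 + 4 * (D.C + 1 / δ₁)) :=
    ⟨_, rfl⟩
  obtain ⟨T, hT⟩ : ∃ T, T = 1 + 64 * D.C / a + 256 * (D.C + 1 / δ₁) / a + 512 / (a * δ₁) :=
    ⟨_, rfl⟩
  have p1 : 0 ≤ 1 / δ₁ := by positivity
  have p2 : 0 ≤ C / δ₁ ^ 2 := by positivity
  have p3 : 0 ≤ D.C := by linarith
  have q1 : 0 ≤ 64 * D.C / a := by positivity
  have q2 : 0 ≤ 256 * (D.C + 1 / δ₁) / a := by positivity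
  have q3 : 0 ≤ 512 / (a * δ₁) := by positivity
  refine ⟨K, max S T, H, by rw [hK]; nlinarith, ?_⟩
  intro θ hθ x hx g hgx hxθ hcg hgB
  have hcS : S ≤ c (D.σ g) := (le_max_left _ _).trans hcg
  have hcT : T ≤ c (D.σ g) := (le_max_right _ _).trans hcg
  obtain ⟨h, hh, hhg⟩ := hS g hcS
  have hθC := I0_sph_cb hθ
  have hxC := I0_sph_cb hx
  have hc1 : 1 ≤ c (D.σ g) := c_ge_one _
  have hch1 : 1 ≤ c (D.σ h) := c_ge_one _
  have hc0 : 0 < c (D.σ g) := by linarith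
  have hch0 : 0 < c (D.σ h) := by linarith
  have hcc : c (D.σ g) ≤ c (D.σ g) ^ 2 := by nlinarith
  have hc2 : 0 < c (D.σ g) ^ 2 := by positivity
  -- the size of g
  have r1 : D.C / c (D.σ g) ^ 2 ≤ a / 64 := by
    have : 64 * D.C / a ≤ c (D.σ g) ^ 2 := by linarith
    rw [div_le_iff₀ ha] at this
    rw [div_le_iff₀ hc2]
    nlinarith
  have r2 : 4 * (D.C + 1 / δ₁) / c (D.σ g) ^ 2 ≤ a / 64 := by
    have : 256 * (D.C + 1 / δ₁) / a ≤ c (D.σ g) ^ 2 := by linarith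
    rw [div_le_iff₀ ha] at this
    rw [div_le_iff₀ hc2]
    nlinarith
  have r3 : 64 / (a * c (D.σ g) ^ 2) ≤ δ₁ / 8 := by
    have : 512 / (a * δ₁) ≤ c (D.σ g) ^ 2 := by linarith
    rw [div_le_iff₀ (by positivity)] at this
    rw [div_le_iff₀ (by positivity)]
    nlinarith
  -- the point x
  have hgx' : kp (zz (D.σ g)) x ≤ D.C / c (D.σ g) ^ 2 := by
    rw [le_div_iff₀ hc2]
    exact hgx
  have h1 : a / 64 ≤ kp (zz (D.σ g)) θ := by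
    have := kp_tri hxC hθC (zz_mem (D.σ g))
    linarith
  -- the product
  have hσ : D.σ (g * h) = D.σ g * D.σ h := map_mul _ _ _
  have hdiv : c (D.σ (g * h)) = c (D.σ g) * c (D.σ h) * kp (zz (D.σ g)⁻¹) (zz (D.σ h)) := by
    have := c_div (D.σ g)⁻¹ (D.σ h)
    rwa [inv_inv, c_inv, ← hσ] at this
  have hκ : δ₁ ≤ kp (zz (D.σ g)⁻¹) (zz (D.σ h)) := by
    rw [kp_symm]
    exact hhg
  have hκ2 : kp (zz (D.σ g)⁻¹) (zz (D.σ h)) ≤ 2 := kp_le_two (zz_mem _) (zz_mem _)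
  have hlow : δ₁ * c (D.σ g) ≤ c (D.σ (g * h)) := by
    rw [hdiv]
    have e1 : c (D.σ g) * δ₁ ≤ c (D.σ g) * kp (zz (D.σ g)⁻¹) (zz (D.σ h)) :=
      mul_le_mul_of_nonneg_left hκ hc0.le
    have e2 : 0 ≤ c (D.σ g) * kp (zz (D.σ g)⁻¹) (zz (D.σ h)) :=
      mul_nonneg hc0.le (hδ₁.le.trans hκ)
    nlinarith
  have hup : c (D.σ (g * h)) ≤ 2 * M * c (D.σ g) := by
    rw [hdiv]
    have e1 := hMc h hh
    have e2 : c (D.σ g) * c (D.σ h) * kp (zz (D.σ g)⁻¹) (zz (D.σ h)) ≤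
        c (D.σ g) * c (D.σ h) * 2 := mul_le_mul_of_nonneg_left hκ2 (by positivity)
    have e3 : c (D.σ g) * c (D.σ h) ≤ c (D.σ g) * M := mul_le_mul_of_nonneg_left e1 hc0.le
    linarith
  have hcgh : 0 < c (D.σ (g * h)) := lt_of_lt_of_le (by positivity) hlow
  have hzz : kp (zz (D.σ g)) (zz (D.σ (g * h))) ≤ (1 / δ₁) / c (D.σ g) ^ 2 := by
    have e1 := c_div (D.σ g) (D.σ (g * h))
    rw [hσ, inv_mul_cancel_left, ← hσ, hdiv] at e1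
    rw [le_div_iff₀ hc2, le_div_iff₀ hδ₁]
    have e2 : c (D.σ h) * (kp (zz (D.σ g)) (zz (D.σ (g * h))) * c (D.σ g) ^ 2 *
        kp (zz (D.σ g)⁻¹) (zz (D.σ h))) = c (D.σ h) * 1 := by
      rw [mul_one]
      conv_rhs => rw [e1]
      ring
    have e3 := mul_left_cancel₀ hch0.ne' e2
    rw [← e3]
    exact mul_le_mul_of_nonneg_left hκ (mul_nonneg (norm_nonneg _) hc2.le)
  have hxgh : kp (zz (D.σ (g * h))) x ≤ 4 * (D.C + 1 / δ₁) / c (D.σ g) ^ 2 := by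
    have e1 := kp_tri (zz_mem (D.σ (g * h))) hxC (zz_mem (D.σ g))
    refine e1.trans ?_
    have e2 : 4 * (D.C + 1 / δ₁) / c (D.σ g) ^ 2 =
        4 * ((1 / δ₁) / c (D.σ g) ^ 2 + D.C / c (D.σ g) ^ 2) := by ring
    rw [e2]
    linarith
  have h4 : a / 64 ≤ kp (zz (D.σ (g * h))) θ := by
    have := kp_tri hxC hθC (zz_mem (D.σ (g * h)))
    linarith
  -- the alignment
  have h5 : δ₁ / 8 ≤ kp (zz (D.σ h)) (ab (D.σ g)⁻¹ θ) := by
    have e1 := near_dual (D.σ g) hθ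
    have e2 : kp (zz (D.σ g)⁻¹) (ab (D.σ g)⁻¹ θ) ≤ 64 / (a * c (D.σ g) ^ 2) := by
      rw [le_div_iff₀ (by positivity)]
      have e3 : 0 ≤ kp (zz (D.σ g)⁻¹) (ab (D.σ g)⁻¹ θ) := norm_nonneg _
      have e4 : c (D.σ g) ^ 2 * (a / 64) * kp (zz (D.σ g)⁻¹) (ab (D.σ g)⁻¹ θ) ≤
          c (D.σ g) ^ 2 * kp (zz (D.σ g)) θ * kp (zz (D.σ g)⁻¹) (ab (D.σ g)⁻¹ θ) :=
        mul_le_mul_of_nonneg_right (mul_le_mul_of_nonneg_left h1 hc2.le) e3
      rw [e1] at e4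
      linarith
    have e5 := kp_tri (zz_mem (D.σ h)) (zz_mem (D.σ g)⁻¹) (ab_mem (D.σ g)⁻¹ hθC)
    rw [kp_symm (ab (D.σ g)⁻¹ θ) (zz (D.σ h)), kp_symm (ab (D.σ g)⁻¹ θ) (zz (D.σ g)⁻¹)] at e5
    linarith
  -- the middle blocks
  have s1g := D.toKp.F0_s1_pos' g
  have s1h := D.toKp.F0_s1_pos' h
  have s1gh := D.toKp.F0_s1_pos' (g * h)
  have h6 := hmid g h θ hθ (hδa.trans h1) (hδ8.trans h5) (hδa.trans h4)
  have h7 : B' ^ 2 / am + 1 ≤ s2 (D.R h) / s1 (D.R h) := by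
    rw [le_div_iff₀ s1h]
    exact hH h hh
  have h8 : s2 (D.R g) / s1 (D.R g) ≤ B' := by
    rw [div_le_iff₀ s1g]
    exact hgB.trans (mul_le_mul_of_nonneg_right hBB s1g.le)
  have h9 : 0 ≤ s2 (D.R (g * h)) / s1 (D.R (g * h)) := div_nonneg (F0.s2_nonneg _) s1gh.le
  have h10 : B' < s2 (D.R (g * h)) / s1 (D.R (g * h)) := by
    have e1 : am * (B' ^ 2 / am + 1) ≤ B' * (s2 (D.R (g * h)) / s1 (D.R (g * h))) :=
      (mul_le_mul_of_nonneg_left h7 ham.le).trans (h6.trans (mul_le_mul_of_nonneg_right h8 h9))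
    have e2 : am * (B' ^ 2 / am + 1) = B' ^ 2 + am := by
      field_simp
    rw [e2] at e1
    by_contra hcon
    rw [not_lt] at hcon
    nlinarith
  refine ⟨h, hh, ?_, h4, ?_, ?_, ?_, ?_⟩
  · rw [lt_div_iff₀ s1gh] at h10
    exact lt_of_le_of_lt (mul_le_mul_of_nonneg_right hBB s1gh.le) h10
  · have e1 : c (D.σ g) ≤ 1 / δ₁ * c (D.σ (g * h)) := by
      rw [div_mul_eq_mul_div, one_mul, le_div_iff₀ hδ₁, mul_comm]
      exact hlow
    refine e1.trans (mul_le_mul_of_nonneg_right ?_ hcgh.le)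
    rw [hK]
    linarith
  · refine hup.trans (mul_le_mul_of_nonneg_right ?_ hc0.le)
    rw [hK]
    linarith
  · have e1 := D.toKp.F0_s1_mul' g h
    have e2 : 4 * s1 (D.R g) * s1 (D.R h) ≤ 4 * s1 (D.R g) * M :=
      mul_le_mul_of_nonneg_left (hMs h hh) (by positivity)
    have e3 : 4 * s1 (D.R g) * M = 4 * M * s1 (D.R g) := by ring
    rw [e3] at e2
    refine (e1.trans e2).trans (mul_le_mul_of_nonneg_right ?_ s1g.le)
    rw [hK]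
    linarith
  · rintro y ⟨hy, hyn⟩
    have e1 := kp_tri (I0_sph_cb hy) hxC (zz_mem (D.σ (g * h)))
    have e2 : kp (zz (D.σ (g * h))) y ≤ C / δ₁ ^ 2 / c (D.σ g) ^ 2 := by
      have e3 : kp (zz (D.σ (g * h))) y ≤ C / c (D.σ (g * h)) ^ 2 := by
        rw [le_div_iff₀ (by positivity)]
        exact hyn
      refine e3.trans ?_
      rw [div_div, ← mul_pow]
      exact div_le_div_of_nonneg_left (by linarith) (by positivity)
        (pow_le_pow_left₀ (by positivity) hlow 2)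
    have e4 : 4 * (C / δ₁ ^ 2 + 4 * (D.C + 1 / δ₁)) / c (D.σ g) ^ 2 ≤ K / c (D.σ g) ^ 2 := by
      refine div_le_div_of_nonneg_right ?_ hc2.le
      rw [hK]
      linarith
    refine le_trans ?_ e4
    have e5 : 4 * (C / δ₁ ^ 2 + 4 * (D.C + 1 / δ₁)) / c (D.σ g) ^ 2 =
        4 * (C / δ₁ ^ 2 / c (D.σ g) ^ 2 + 4 * (D.C + 1 / δ₁) / c (D.σ g) ^ 2) := by ring
    rw [e5]
    linarith

end Kd

end Pool.Agent.MPd01a95.KT
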