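import Mathlib
import Pool.Agent.Lib.MP_d01a95_gt_K.KDefs2
import Pool.Agent.Lib.MP_d01a95_gt_K.KA1
import Pool.Agent.Lib.MP_d01a95_gt_K.KA2
import Pool.Agent.Lib.MP_d01a95_gt_K.KA4
import Pool.Agent.Lib.MP_d01a95_gt_K.KF0
import Pool.Agent.Lib.MP_d01a95_gt_K.KF6
import Pool.Agent.Lib.MP_d01a95_gt_K.KH1
import Pool.Agent.Lib.MP_d01a95_gt_K.KH2
import Pool.Agent.Lib.MP_d01a95_gt_K.KH3
import Pool.Agent.Lib.MP_d01a95_gt_K.KH4
import Pool.Agent.Lib.MP_d01a95_gt_K.KI2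
import Pool.Agent.Lib.MP_d01a95_gt_K.KI4
import Pool.Agent.Lib.MP_d01a95_gt_K.KI5
import Pool.Agent.Lib.MP_d01a95_gt_K.KI6
import Pool.Agent.Lib.MP_d01a95_gt_K.KI7a
import Pool.Agent.Lib.MP_d01a95_gt_K.KI0

set_option autoImplicit false
set_option linter.all false

open Matrix Filter Topology MeasureTheory
open scoped ContDiff

namespace Pool.Agent.MPd01a95.KT

open GU

variable {G : Type} [Group G]

namespace Kd

variable (D : Kd G)

/-- sizes of the cells of an element with a bounded and of one with a large middle block -/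
theorem I7_sizes {C a B C' S' K : ℝ} {θ : Eb} {m : Measure Eb} (hC' : 1 ≤ C')
    (hM : D.Ms C (a / 4096) C' S' θ m) (ha : 0 < a) (hK : 1 ≤ K) (g g' : G)
    (hg : S' ≤ c (D.σ g)) (hg' : S' ≤ c (D.σ g')) (hz : a / 64 ≤ kp (zz (D.σ g)) θ)
    (hz' : a / 64 ≤ kp (zz (D.σ g')) θ) (hB : s2 (D.R g) ≤ B * s1 (D.R g))
    (hB' : B * s1 (D.R g') < s2 (D.R g')) (hs : s1 (D.R g') ≤ K * s1 (D.R g)) :
    m (D.OO C g) ≤ ENNReal.ofReal (C' ^ 2 * K ^ 4) * m (D.OI C g') := by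
  have hp : 0 < s1 (D.R g) := D.toKp.F0_s1_pos' g
  have hp' : 0 < s1 (D.R g') := D.toKp.F0_s1_pos' g'
  have hn : 0 ≤ s2 (D.R g) := F0.s2_nonneg _
  have hB0 : 0 ≤ B := by
    by_contra hneg
    push Not at hneg
    nlinarith
  have h1 := hM.up g hg (by linarith)
  have h2 := hM.lo g' hg' (by linarith)
  have hr : s2 (D.R g) / s1 (D.R g) ≤ B := by
    rw [div_le_iff₀ hp]
    exact hB
  have hr0 : 0 ≤ s2 (D.R g) / s1 (D.R g) := div_nonneg hn hp.le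
  have hr' : B ≤ s2 (D.R g') / s1 (D.R g') := by
    rw [le_div_iff₀ hp']
    exact hB'.le
  have e1 : C' * (s2 (D.R g) / s1 (D.R g)) ^ 2 * (s1 (D.R g) ^ 4)⁻¹ ≤
      C' * B ^ 2 * (s1 (D.R g) ^ 4)⁻¹ := by
    gcongr
  have e2 : C'⁻¹ * B ^ 2 * ((K * s1 (D.R g)) ^ 4)⁻¹ ≤
      C'⁻¹ * (s2 (D.R g') / s1 (D.R g')) ^ 2 * (s1 (D.R g') ^ 4)⁻¹ := by
    gcongr
  have e3 : C' * B ^ 2 * (s1 (D.R g) ^ 4)⁻¹ =
      C' ^ 2 * K ^ 4 * (C'⁻¹ * B ^ 2 * ((K * s1 (D.R g)) ^ 4)⁻¹) := by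
    have hK0 : K ≠ 0 := by linarith
    have hC0 : C' ≠ 0 := by linarith
    field_simp
  calc m (D.OO C g) ≤ ENNReal.ofReal (C' * B ^ 2 * (s1 (D.R g) ^ 4)⁻¹) :=
        h1.trans (ENNReal.ofReal_le_ofReal e1)
    _ = ENNReal.ofReal (C' ^ 2 * K ^ 4) *
        ENNReal.ofReal (C'⁻¹ * B ^ 2 * ((K * s1 (D.R g)) ^ 4)⁻¹) := by
        rw [e3, ENNReal.ofReal_mul (by positivity)]
    _ ≤ ENNReal.ofReal (C' ^ 2 * K ^ 4) * m (D.OI C g') := by
        gcongr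
        exact (ENNReal.ofReal_le_ofReal e2).trans h2

theorem I7_OI_meas (C : ℝ) (g : G) : MeasurableSet (D.OI C g) := by
  obtain ⟨U, hU, e⟩ := D.I0_OI_open C g
  rw [e]
  exact (Metric.isClosed_sphere.measurableSet).inter hU.measurableSet

/-- the covering estimate -/
theorem I7_cover {θ : Eb} (hθ : θ ∈ Sph) {a : ℝ} (ha : 0 < a) {C B C' S' K S₁ S₂ S₃ : ℝ}
    {m : Measure Eb} {F : Set Eb} {H : Finset G} (hC1 : D.C < C) (hC' : 1 ≤ C')
    (hM : D.Ms C (a / 4096) C' S' θ m) (hFs : F ⊆ {x | x ∈ Sph ∧ a / 8 ≤ kp x θ})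
    (hFB : ∀ g, S' ≤ c (D.σ g) → a / 64 ≤ kp (zz (D.σ g)) θ → (D.OI C g ∩ F).Nonempty →
      s2 (D.R g) ≤ B * s1 (D.R g)) (hK : 1 ≤ K)
    (hstep : ∀ θ ∈ Sph, ∀ x ∈ Sph, ∀ g : G,
      Near D.C (D.σ g) x → a / 8 ≤ kp x θ → S₁ ≤ c (D.σ g) →
      s2 (D.R g) ≤ B * s1 (D.R g) → ∃ h ∈ H,
        B * s1 (D.R (g * h)) < s2 (D.R (g * h)) ∧
        a / 64 ≤ kp (zz (D.σ (g * h))) θ ∧
        c (D.σ g) ≤ K * c (D.σ (g * h)) ∧ c (D.σ (g * h)) ≤ K * c (D.σ g) ∧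
        s1 (D.R (g * h)) ≤ K * s1 (D.R g) ∧
        ∀ y ∈ D.OO C (g * h), kp y x ≤ K / c (D.σ g) ^ 2)
    (hS₂ : ∀ g, ∀ x ∈ D.OO C g, ∀ θ ∈ Sph, a / 64 ≤ kp (zz (D.σ g)) θ → S₂ ≤ c (D.σ g) →
      a / 64 / 8 ≤ kp x θ)
    (hS₃ : ∀ g, ∀ x ∈ D.OO D.C g, ∀ θ ∈ Sph, a / 8 ≤ kp x θ → S₃ ≤ c (D.σ g) →
      a / 8 / 8 ≤ kp (zz (D.σ g)) θ)
    {N : ℕ} (hN : ∀ s : ℝ, 1 ≤ s → ∀ x ∈ Sph, ∀ T : Finset G,
      (∀ g ∈ T, Near C (D.σ g) x ∧ s ≤ c (D.σ g) ∧ c (D.σ g) ≤ K ^ 2 * D.C * s) → T.card ≤ N)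
    {s : ℝ} (h1 : K ≤ s) (h2 : K * S' ≤ s) (h3 : S' ≤ s) (h4 : S₁ ≤ s) (h5 : K * S₂ ≤ s)
    (h6 : S₃ ≤ s) :
    m F ≤ ENNReal.ofReal (C' ^ 2 * K ^ 4) * (((H.card * N : ℕ) : ENNReal) *
      m ((Metric.cthickening (Real.sqrt (2 * K) / s) F \ F) ∩
        {x | x ∈ Sph ∧ a / 4096 / 64 ≤ kp x θ})) := by
  classical
  have hs1 : 1 ≤ s := hK.trans h1
  have hs0 : 0 < s := by linarith
  have hK0 : 0 < K := by linarith
  set P : Set G := {g | s ≤ c (D.σ g) ∧ c (D.σ g) ≤ D.C * s ∧ ∃ x ∈ F, Near D.C (D.σ g) x} with hP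
  have hPf : P.Finite := (D.I0_fin (D.C * s)).subset fun g hg => hg.2.1
  set T : Finset G := hPf.toFinset with hT
  have hmT : ∀ g, g ∈ T ↔ g ∈ P := fun g => hPf.mem_toFinset
  have hsel : ∀ g, g ∈ T → ∃ h ∈ H, c (D.σ g) ≤ K * c (D.σ (g * h)) ∧
      c (D.σ (g * h)) ≤ K * c (D.σ g) ∧
      D.OI C (g * h) ⊆ (Metric.cthickening (Real.sqrt (2 * K) / s) F \ F) ∩
        {x | x ∈ Sph ∧ a / 4096 / 64 ≤ kp x θ} ∧
      m (D.OO C g) ≤ ENNReal.ofReal (C' ^ 2 * K ^ 4) * m (D.OI C (g * h)) := by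
    intro g hg
    obtain ⟨hg1, hg2, x, hx, hgx⟩ := (hmT g).1 hg
    obtain ⟨hxS, hxa⟩ := hFs hx
    have hzg : a / 64 ≤ kp (zz (D.σ g)) θ := by
      have := hS₃ g x ⟨hxS, hgx⟩ θ hθ hxa (h6.trans hg1)
      linarith
    have hxI : x ∈ D.OI C g := ⟨hxS, lt_of_le_of_lt hgx hC1⟩
    have hBg := hFB g (h3.trans hg1) hzg ⟨x, hxI, hx⟩
    obtain ⟨h, hh, b1, b2, b3, b4, b5, b6⟩ := hstep θ hθ x hxS g hgx hxa (h4.trans hg1) hBg
    have hS'g : S' ≤ c (D.σ (g * h)) := by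
      have : K * S' ≤ K * c (D.σ (g * h)) := h2.trans (hg1.trans b3)
      exact le_of_mul_le_mul_left this hK0
    have hS₂g : S₂ ≤ c (D.σ (g * h)) := by
      have : K * S₂ ≤ K * c (D.σ (g * h)) := h5.trans (hg1.trans b3)
      exact le_of_mul_le_mul_left this hK0
    refine ⟨h, hh, b3, b4, ?_, D.I7_sizes hC' hM ha hK g (g * h) (h3.trans hg1) hS'g hzg b2 hBg b1 b5⟩
    intro y hy
    have hyO : y ∈ D.OO C (g * h) := D.I0_OI_sub C _ hy
    have hyS : y ∈ Sph := hy.1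
    refine ⟨⟨?_, ?_⟩, hyS, ?_⟩
    · refine Metric.mem_cthickening_of_dist_le y x _ F hx ?_
      have q1 := b6 y hyO
      have q2 := kp_sq (I0_sph_cb hyS) (I0_sph_cb hxS)
      have q3 : K / c (D.σ g) ^ 2 ≤ K / s ^ 2 := by gcongr
      rw [dist_eq_norm]
      refine abs_le_of_sq_le_sq' ?_ (by positivity) |>.2
      rw [div_pow, Real.sq_sqrt (by linarith)]
      calc ‖y - x‖ ^ 2 ≤ 2 * kp y x := q2
        _ ≤ 2 * (K / s ^ 2) := by linarith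
        _ = 2 * K / s ^ 2 := by ring
    · intro hyF
      have := hFB (g * h) hS'g b2 ⟨y, hy, hyF⟩
      linarith
    · have := hS₂ (g * h) y hyO θ hθ b2 hS₂g
      linarith
  choose! φ hφ1 hφ2 hφ3 hφ4 hφ5 using hsel
  have hcov : F ⊆ ⋃ g ∈ T, D.OO C g := by
    intro x hx
    have hxS := (hFs hx).1
    obtain ⟨g, hg1, hg2, hg3⟩ := D.near x hxS s hs1
    rw [Set.mem_iUnion₂]
    exact ⟨g, (hmT g).2 ⟨hg2, hg3, x, hx, hg1⟩, hxS, hg1.trans hC1.le⟩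
  have hover := I0_overlap m (H.card * N) T (fun g => D.OI C (g * φ g))
    (fun g _ => D.I7_OI_meas C _) (by
      intro x T' hT' hx
      rcases T'.eq_empty_or_nonempty with rfl | ⟨g₀, hg₀⟩
      · simp
      have hxS : x ∈ Sph := (hx g₀ hg₀).1
      refine (Finset.card_le_mul_card_image (f := fun g => g * φ g) T' H.card ?_).trans ?_
      · intro b hb
        refine Finset.card_le_card_of_injOn (fun g => g⁻¹ * b) ?_ ?_
        · intro g hg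
          simp only [Finset.coe_filter, Set.mem_setOf_eq] at hg
          have : g⁻¹ * b = φ g := by rw [← hg.2]; group
          show g⁻¹ * b ∈ (H : Set G)
          rw [this]
          exact hφ1 g (hT' hg.1)
        · intro g _ g' _ e
          simpa using e
      · refine Nat.mul_le_mul_left _ (hN (s / K) ?_ x hxS _ ?_)
        · rw [le_div_iff₀ hK0]
          linarith
        · intro b hb
          obtain ⟨g, hg, rfl⟩ := Finset.mem_image.1 hb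
          have hgT := hT' hg
          obtain ⟨hg1, hg2, -⟩ := (hmT g).1 hgT
          refine ⟨(D.I0_OI_sub C _ (hx g hg)).2, ?_, ?_⟩
          · rw [div_le_iff₀ hK0, mul_comm]
            exact hg1.trans (hφ2 g hgT)
          · calc c (D.σ (g * φ g)) ≤ K * c (D.σ g) := hφ3 g hgT
              _ ≤ K * (D.C * s) := by gcongr
              _ = K ^ 2 * D.C * (s / K) := by field_simp)
  calc m F ≤ m (⋃ g ∈ T, D.OO C g) := measure_mono hcov
    _ ≤ ∑ g ∈ T, m (D.OO C g) := measure_biUnion_finset_le T _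
    _ ≤ ∑ g ∈ T, ENNReal.ofReal (C' ^ 2 * K ^ 4) * m (D.OI C (g * φ g)) :=
        Finset.sum_le_sum fun g hg => hφ5 g hg
    _ = ENNReal.ofReal (C' ^ 2 * K ^ 4) * ∑ g ∈ T, m (D.OI C (g * φ g)) := by
        rw [Finset.mul_sum]
    _ ≤ _ := by
        gcongr
        refine hover.trans ?_
        gcongr
        exact Set.iUnion₂_subset fun g hg => hφ4 g hg

/-- module I7: the level sums tend to zero along a sequence -/
theorem SS_liminf (hub : ∀ B : ℝ, ∃ g, B * s1 (D.R g) ≤ s2 (D.R g)) {θ : Eb} (hθ : θ ∈ Sph)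
    (a : ℝ) (ha : 0 < a) (η : ℝ) (hη : 0 < η) (S : ℝ) : ∃ s : ℝ, S ≤ s ∧ D.SS θ a s ≤ η := by
  by_contra hcon
  push Not at hcon
  obtain ⟨C, B, C', S', m, F, hC1, hC', hM, hFc, hFs, hF0, hFB⟩ :=
    D.exists_F hθ a ha η hη S (fun s hs => (hcon s hs).le) (max D.C 1 + 1)
  have hDC : D.C < C := by
    have := le_max_left D.C 1
    linarith
  have h1C : 1 ≤ C := by
    have := le_max_right D.C 1
    linarith
  obtain ⟨K, S₁, H, hK, hstep⟩ := D.I7_step hub a B C ha h1C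
  obtain ⟨S₂, hS₂⟩ := D.I0_OO_far C (a / 64) (by positivity)
  obtain ⟨S₃, hS₃⟩ := D.I0_far_OO D.C (a / 8) (by positivity)
  obtain ⟨N, hN⟩ := D.I0_card C (K ^ 2 * D.C)
  set Q : Set Eb := {x | x ∈ Sph ∧ a / 4096 / 64 ≤ kp x θ} with hQ
  have hQf : m Q ≠ ⊤ := ne_top_of_le_ne_top ENNReal.ofReal_ne_top hM.fin
  haveI : IsFiniteMeasure (m.restrict Q) := isFiniteMeasure_restrict.2 hQf
  have hFcl : IsClosed F := hFc.isClosed
  have hlim0 : Tendsto (fun s : ℝ => Real.sqrt (2 * K) / s) atTop (𝓝 0) :=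
    tendsto_const_nhds.div_atTop tendsto_id
  have hlim1 : Tendsto (fun s : ℝ => (m.restrict Q) (Metric.cthickening (Real.sqrt (2 * K) / s) F))
      atTop (𝓝 ((m.restrict Q) F)) :=
    (tendsto_measure_cthickening_of_isClosed ⟨1, one_pos, measure_ne_top _ _⟩ hFcl).comp hlim0
  have hlim2 : Tendsto (fun s : ℝ => (m.restrict Q)
      (Metric.cthickening (Real.sqrt (2 * K) / s) F \ F)) atTop (𝓝 0) := by
    have e : ∀ s : ℝ, (m.restrict Q) (Metric.cthickening (Real.sqrt (2 * K) / s) F \ F) =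
        (m.restrict Q) (Metric.cthickening (Real.sqrt (2 * K) / s) F) - (m.restrict Q) F :=
      fun s => measure_diff (Metric.self_subset_cthickening F) hFcl.measurableSet.nullMeasurableSet
        (measure_ne_top _ _)
    simp_rw [e]
    have := ENNReal.Tendsto.sub hlim1 (tendsto_const_nhds (x := (m.restrict Q) F)) (Or.inl (measure_ne_top _ _))
    simpa using this
  have hlim3 : Tendsto (fun s : ℝ => ENNReal.ofReal (C' ^ 2 * K ^ 4) *
      (((H.card * N : ℕ) : ENNReal) * (m.restrict Q)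
      (Metric.cthickening (Real.sqrt (2 * K) / s) F \ F))) atTop (𝓝 0) := by
    have q1 := ENNReal.Tendsto.const_mul (a := ((H.card * N : ℕ) : ENNReal)) hlim2
      (Or.inr (ENNReal.natCast_ne_top _))
    rw [mul_zero] at q1
    have q2 := ENNReal.Tendsto.const_mul (a := ENNReal.ofReal (C' ^ 2 * K ^ 4)) q1
      (Or.inr ENNReal.ofReal_ne_top)
    rw [mul_zero] at q2
    exact q2
  have hle : m F ≤ 0 := by
    refine ge_of_tendsto hlim3 ?_
    filter_upwards [eventually_ge_atTop K, eventually_ge_atTop (K * S'), eventually_ge_atTop S',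
      eventually_ge_atTop S₁, eventually_ge_atTop (K * S₂), eventually_ge_atTop S₃]
      with s h1 h2 h3 h4 h5 h6
    have := D.I7_cover hθ ha hDC hC' hM hFs hFB hK hstep hS₂ hS₃ hN h1 h2 h3 h4 h5 h6
    rwa [Measure.restrict_apply (Metric.isClosed_cthickening.measurableSet.diff hFcl.measurableSet)]
  exact absurd hF0 (not_lt.2 hle)

end Kd

end Pool.Agent.MPd01a95.KT
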