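import Mathlib
import Pool.Agent.Lib.MP_d01a95_gt_K.KDefs2

set_option autoImplicit false
set_option linter.all false

open Matrix Filter Topology MeasureTheory
open scoped ContDiff

namespace Pool.Agent.MPd01a95.KT

open GU

variable {G : Type} [Group G]

/-- module J1 -/
theorem el_eq (A : ℂ → ℝ → ℂ) (μb : ℂ) (tb : ℝ) (μ : ℂ) (t : ℝ) :
    el A μb tb μ t = (t : ℂ) + (star μb - star μ) * A μ t - kb A μb tb μ := by
  unfold el kb
  rw [star_sub, star_star, star_star]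
  ring

/-- module J1: the conjugate variable -/
noncomputable def J1_de (μb : ℂ) (x : ℂ × ℝ × ℂ) : ℂ := star μb - star x.1

/-- module J1: the linear form -/
noncomputable def J1_el (A : ℂ → ℝ → ℂ) (μb : ℂ) (tb : ℝ) (x : ℂ × ℝ × ℂ) : ℂ :=
  (x.2.1 : ℂ) + (star μb - star x.1) * x.2.2 - kb A μb tb x.1

/-- module J1: projections -/
noncomputable def J1_s : (ℂ × ℝ × ℂ) →L[ℝ] ℂ :=
  (Complex.conjCLE : ℂ →L[ℝ] ℂ).comp (ContinuousLinearMap.fst ℝ ℂ (ℝ × ℂ))

noncomputable def J1_f : (ℂ × ℝ × ℂ) →L[ℝ] ℂ := ContinuousLinearMap.fst ℝ ℂ (ℝ × ℂ)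

noncomputable def J1_t : (ℂ × ℝ × ℂ) →L[ℝ] ℂ :=
  Complex.ofRealCLM.comp ((ContinuousLinearMap.fst ℝ ℝ ℂ).comp (ContinuousLinearMap.snd ℝ ℂ (ℝ × ℂ)))

noncomputable def J1_a : (ℂ × ℝ × ℂ) →L[ℝ] ℂ :=
  (ContinuousLinearMap.snd ℝ ℝ ℂ).comp (ContinuousLinearMap.snd ℝ ℂ (ℝ × ℂ))

theorem J1_s_apply (x : ℂ × ℝ × ℂ) : J1_s x = star x.1 := rfl
theorem J1_f_apply (x : ℂ × ℝ × ℂ) : J1_f x = x.1 := rfl
theorem J1_t_apply (x : ℂ × ℝ × ℂ) : J1_t x = (x.2.1 : ℂ) := rfl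
theorem J1_a_apply (x : ℂ × ℝ × ℂ) : J1_a x = x.2.2 := rfl

theorem J1_hde (μb : ℂ) (x : ℂ × ℝ × ℂ) : HasFDerivAt (J1_de μb) (-J1_s) x := by
  have h : HasFDerivAt (fun x => star μb - J1_s x) (-J1_s) x :=
    (J1_s.hasFDerivAt).const_sub _
  exact h

theorem J1_hel (A : ℂ → ℝ → ℂ) (μb : ℂ) (tb : ℝ) (x : ℂ × ℝ × ℂ) :
    HasFDerivAt (J1_el A μb tb)
      (J1_t + (J1_de μb x • J1_a + x.2.2 • (-J1_s)) - star (A μb tb) • J1_f) x := by
  have h1 : HasFDerivAt (fun x => J1_de μb x * J1_a x)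
      (J1_de μb x • J1_a + (J1_a x) • (-J1_s)) x := (J1_hde μb x).mul (J1_a.hasFDerivAt)
  have h2 : HasFDerivAt (fun x => (μb - J1_f x) * star (A μb tb))
      (-(star (A μb tb) • J1_f)) x := by
    have h := ((J1_f.hasFDerivAt (x := x)).const_sub μb).mul_const (star (A μb tb))
    rw [smul_neg] at h
    exact h
  have h3 := ((J1_t.hasFDerivAt (x := x)).add h1).sub_const (tb : ℂ)
  have h4 := h3.add h2
  have e : (fun x => J1_t x + J1_de μb x * J1_a x - (tb : ℂ) + (μb - J1_f x) * star (A μb tb)) =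
      J1_el A μb tb := by
    funext y
    unfold J1_el J1_de kb
    rw [J1_t_apply, J1_a_apply, J1_f_apply, star_sub, star_star, star_star]
    ring
  have h5 : HasFDerivAt (J1_el A μb tb)
      (J1_t + (J1_de μb x • J1_a + (J1_a x) • (-J1_s)) + (-(star (A μb tb) • J1_f))) x := by
    rw [← e]; exact h4
  rw [sub_eq_add_neg]
  exact h5

/-- the value of the derivative of the linear form -/
noncomputable def J1_D (A : ℂ → ℝ → ℂ) (μb : ℂ) (tb : ℝ) (x y : ℂ × ℝ × ℂ) : ℂ :=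
  (y.2.1 : ℂ) + (J1_de μb x * y.2.2 - x.2.2 * star y.1) - star (A μb tb) * y.1

theorem J1_hp (A : ℂ → ℝ → ℂ) (μb : ℂ) (tb : ℝ) (x : ℂ × ℝ × ℂ)
    (hd : J1_de μb x ≠ 0) (he : J1_el A μb tb x ≠ 0) :
    ∃ L : (ℂ × ℝ × ℂ) →L[ℝ] ℂ,
      HasFDerivAt (fun x => 1 / (J1_de μb x * J1_el A μb tb x)) L x ∧
      ∀ y, L y = -(J1_de μb x * J1_D A μb tb x y - J1_el A μb tb x * star y.1) /
        (J1_de μb x * J1_el A μb tb x) ^ 2 := by
  have h1 := (J1_hde μb x).mul (J1_hel A μb tb x)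
  have h2 : HasDerivAt (fun z : ℂ => z⁻¹) (-((J1_de μb x * J1_el A μb tb x) ^ 2)⁻¹)
      (J1_de μb x * J1_el A μb tb x) := hasDerivAt_inv (mul_ne_zero hd he)
  have h3 := h2.comp_hasFDerivAt_of_eq (𝕜 := ℝ) x h1 rfl
  refine ⟨_, h3.congr_of_eventuallyEq (Eventually.of_forall fun y => one_div _), fun y => ?_⟩
  simp only [ContinuousLinearMap.smul_apply, ContinuousLinearMap.add_apply,
    ContinuousLinearMap.sub_apply, ContinuousLinearMap.neg_apply, J1_s_apply, J1_f_apply,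
    J1_t_apply, J1_a_apply, smul_eq_mul, J1_D]
  ring

theorem J1_hq (A : ℂ → ℝ → ℂ) (μb : ℂ) (tb : ℝ) (w : ℂ) (hw : w ≠ 0) (x : ℂ × ℝ × ℂ)
    (hd : J1_de μb x ≠ 0) (he : J1_el A μb tb x ≠ 0)
    (hs : w * J1_el A μb tb x ∈ Complex.slitPlane) :
    ∃ L : (ℂ × ℝ × ℂ) →L[ℝ] ℂ,
      HasFDerivAt (fun x => x.2.2 / (J1_de μb x * J1_el A μb tb x) -
        Complex.log (w * J1_el A μb tb x) / J1_de μb x ^ 2) L x ∧
      ∀ y, y.1 = 0 → L y = y.2.2 / (J1_de μb x * J1_el A μb tb x) -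
        x.2.2 * (J1_de μb x * J1_D A μb tb x y) / (J1_de μb x * J1_el A μb tb x) ^ 2 -
        J1_D A μb tb x y / J1_el A μb tb x / J1_de μb x ^ 2 := by
  obtain ⟨P, hP, hP'⟩ := J1_hp A μb tb x hd he
  have h1 := (J1_a.hasFDerivAt (x := x)).mul hP
  have h2 := (Complex.hasDerivAt_log hs).comp_hasFDerivAt_of_eq (𝕜 := ℝ) x
    ((J1_hel A μb tb x).const_mul w) rfl
  have h4 := ((J1_hde μb x).mul (J1_hde μb x))
  have h5 : HasDerivAt (fun z : ℂ => z⁻¹) (-((J1_de μb x * J1_de μb x) ^ 2)⁻¹)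
      (J1_de μb x * J1_de μb x) := hasDerivAt_inv (mul_ne_zero hd hd)
  have h6 := h5.comp_hasFDerivAt_of_eq (𝕜 := ℝ) x h4 rfl
  have h7 := h1.sub (h2.mul h6)
  refine ⟨_, h7.congr_of_eventuallyEq (Eventually.of_forall fun y => ?_), fun y hy => ?_⟩
  · show y.2.2 / (J1_de μb y * J1_el A μb tb y) - _ = _
    simp only [Pi.mul_apply, Pi.sub_apply, J1_a_apply, Function.comp]
    rw [div_eq_mul_one_div, div_eq_mul_inv (Complex.log _), pow_two]
  · have e1 : ((fun z : ℂ => z⁻¹) ∘ (J1_de μb * J1_de μb)) x = (J1_de μb x * J1_de μb x)⁻¹ := rfl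
    rw [e1]
    simp only [ContinuousLinearMap.smul_apply, ContinuousLinearMap.add_apply,
      ContinuousLinearMap.sub_apply, ContinuousLinearMap.neg_apply, J1_s_apply, J1_f_apply,
      J1_t_apply, J1_a_apply, smul_eq_mul, J1_D, hP', hy, star_zero, mul_zero, neg_zero, sub_zero,
      add_zero]
    field_simp
    ring

theorem J1_kb_cont (A : ℂ → ℝ → ℂ) (μb : ℂ) (tb : ℝ) : Continuous (J1_el A μb tb) := by
  unfold J1_el kb
  have h1 : Continuous fun x : ℂ × ℝ × ℂ => star x.1 := continuous_star.comp continuous_fst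
  have h2 : Continuous fun x : ℂ × ℝ × ℂ => (x.2.1 : ℂ) :=
    Complex.continuous_ofReal.comp (continuous_fst.comp continuous_snd)
  have h3 : Continuous fun x : ℂ × ℝ × ℂ => x.2.2 := continuous_snd.comp continuous_snd
  exact (h2.add ((continuous_const.sub h1).mul h3)).sub
    (continuous_const.sub ((continuous_star.comp (continuous_const.sub h1)).mul continuous_const))

theorem J1_kb_smooth (A : ℂ → ℝ → ℂ) (μb : ℂ) (tb : ℝ) : ContDiff ℝ 1 (J1_el A μb tb) := by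
  have e : J1_el A μb tb = fun x => J1_t x + (star μb - J1_s x) * J1_a x -
      ((tb : ℂ) - (μb - J1_f x) * star (A μb tb)) := by
    funext y
    unfold J1_el kb
    rw [J1_t_apply, J1_a_apply, J1_f_apply, J1_s_apply, star_sub, star_star, star_star]
  rw [e]
  exact (J1_t.contDiff.add ((contDiff_const.sub J1_s.contDiff).mul J1_a.contDiff)).sub
    (contDiff_const.sub ((contDiff_const.sub J1_f.contDiff).mul contDiff_const))

theorem J1_de_smooth (μb : ℂ) : ContDiff ℝ 1 (J1_de μb) :=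
  contDiff_const.sub J1_s.contDiff

theorem J1_div {f g : ℂ × ℝ × ℂ → ℂ} {x : ℂ × ℝ × ℂ} (hf : ContDiffAt ℝ 1 f x)
    (hg : ContDiffAt ℝ 1 g x) (h : g x ≠ 0) : ContDiffAt ℝ 1 (fun x => f x / g x) x := by
  have e : (fun x => f x / g x) = fun x => f x * (g x)⁻¹ := by
    funext y
    rw [div_eq_mul_inv]
  rw [e]
  exact hf.mul (hg.inv h)

/-- module J1: the law with a logarithm, on the open set where `w` times the linear form is in the
slit plane -/
theorem law_log (A : ℂ → ℝ → ℂ) (μb : ℂ) (tb : ℝ) (w : ℂ) (hw : w ≠ 0) :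
    Law {x : ℂ × ℝ × ℂ | x.1 ≠ μb ∧
        w * ((x.2.1 : ℂ) + (star μb - star x.1) * x.2.2 - kb A μb tb x.1) ∈ Complex.slitPlane}
      (fun x => 1 / ((star μb - star x.1) *
        ((x.2.1 : ℂ) + (star μb - star x.1) * x.2.2 - kb A μb tb x.1)))
      (fun x => x.2.2 / ((star μb - star x.1) *
        ((x.2.1 : ℂ) + (star μb - star x.1) * x.2.2 - kb A μb tb x.1)) -
        Complex.log (w * ((x.2.1 : ℂ) + (star μb - star x.1) * x.2.2 - kb A μb tb x.1)) /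
          (star μb - star x.1) ^ 2) := by
  have hd : ∀ x : ℂ × ℝ × ℂ, x.1 ≠ μb → J1_de μb x ≠ 0 := by
    intro x hx h
    unfold J1_de at h
    rw [← star_sub, star_eq_zero, sub_eq_zero] at h
    exact hx h.symm
  have he : ∀ x : ℂ × ℝ × ℂ, w * J1_el A μb tb x ∈ Complex.slitPlane → J1_el A μb tb x ≠ 0 := by
    intro x hx h
    rw [h, mul_zero] at hx
    exact Complex.slitPlane_ne_zero hx rfl
  show Law {x : ℂ × ℝ × ℂ | x.1 ≠ μb ∧ w * J1_el A μb tb x ∈ Complex.slitPlane}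
      (fun x => 1 / (J1_de μb x * J1_el A μb tb x))
      (fun x => x.2.2 / (J1_de μb x * J1_el A μb tb x) -
        Complex.log (w * J1_el A μb tb x) / J1_de μb x ^ 2)
  refine ⟨?_, ?_, ?_, ?_, ?_, ?_⟩
  · exact (isOpen_ne.preimage continuous_fst).inter
      (Complex.isOpen_slitPlane.preimage (continuous_const.mul (J1_kb_cont A μb tb)))
  · intro x hx
    exact (J1_div contDiffAt_const ((J1_de_smooth μb).contDiffAt.mul
      (J1_kb_smooth A μb tb).contDiffAt) (mul_ne_zero (hd x hx.1) (he x hx.2))).contDiffWithinAt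
  · intro x hx
    have h1 : ContDiffAt ℝ 1 (fun x => Complex.log (w * J1_el A μb tb x)) x :=
      ContDiffAt.comp (g := Complex.log) (f := fun x => w * J1_el A μb tb x) x
        ((Complex.contDiffAt_log hx.2).restrict_scalars ℝ)
        (contDiffAt_const.mul (J1_kb_smooth A μb tb).contDiffAt)
    exact ((J1_div J1_a.contDiff.contDiffAt ((J1_de_smooth μb).contDiffAt.mul
      (J1_kb_smooth A μb tb).contDiffAt) (mul_ne_zero (hd x hx.1) (he x hx.2))).sub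
      (J1_div h1 ((J1_de_smooth μb).contDiffAt.pow 2)
        (pow_ne_zero 2 (hd x hx.1)))).contDiffWithinAt
  · intro x hx
    obtain ⟨L, hL, hL'⟩ := J1_hp A μb tb x (hd x hx.1) (he x hx.2)
    rw [hL.fderiv, hL', hL']
    unfold J1_D
    simp
    ring
  · intro x hx v
    have h1 := hd x hx.1
    have h2 := he x hx.2
    obtain ⟨L, hL, hL'⟩ := J1_hp A μb tb x (hd x hx.1) (he x hx.2)
    obtain ⟨Q, hQ, hQ'⟩ := J1_hq A μb tb w hw x (hd x hx.1) (he x hx.2) hx.2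
    rw [hL.fderiv, hQ.fderiv, hL', hQ' _ rfl]
    unfold J1_D
    simp
    field_simp
    ring
  · intro x hx
    have h1 := hd x hx.1
    have h2 := he x hx.2
    obtain ⟨L, hL, hL'⟩ := J1_hp A μb tb x (hd x hx.1) (he x hx.2)
    obtain ⟨Q, hQ, hQ'⟩ := J1_hq A μb tb w hw x (hd x hx.1) (he x hx.2) hx.2
    rw [hL.fderiv, hQ.fderiv, hL', hL', hQ' _ rfl]
    unfold J1_D
    simp
    field_simp
    ring_nf
    simp only [Complex.I_sq]
    ring

/-- module J1: the law of the Burgers equation -/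
theorem law_burgers : Law Set.univ (fun x : ℂ × ℝ × ℂ => x.2.2) (fun x => x.2.2 ^ 2 / 2) := by
  have hp : ∀ x : ℂ × ℝ × ℂ, HasFDerivAt (fun x : ℂ × ℝ × ℂ => x.2.2) J1_a x := fun x =>
    J1_a.hasFDerivAt
  have hq : ∀ x : ℂ × ℝ × ℂ, HasFDerivAt (fun x : ℂ × ℝ × ℂ => x.2.2 ^ 2 / 2) (x.2.2 • J1_a) x := by
    intro x
    have h := ((hp x).mul (hp x)).mul_const ((2 : ℂ)⁻¹)
    have e : (fun x : ℂ × ℝ × ℂ => x.2.2 ^ 2 / 2) = fun x : ℂ × ℝ × ℂ =>
        (x.2.2 * x.2.2) * (2 : ℂ)⁻¹ := by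
      funext y
      rw [pow_two, div_eq_mul_inv]
    rw [e]
    refine h.congr_fderiv ?_
    ext y <;> simp [J1_a_apply] <;> ring
  refine ⟨isOpen_univ, J1_a.contDiff.contDiffOn, ?_, ?_, ?_, ?_⟩
  · exact ((J1_a.contDiff.pow 2).div_const 2).contDiffOn
  · intro x _
    rw [(hp x).fderiv]
    simp [J1_a_apply]
  · intro x _ v
    rw [(hp x).fderiv, (hq x).fderiv]
    simp [J1_a_apply]
  · intro x _
    rw [(hp x).fderiv, (hq x).fderiv]
    simp [J1_a_apply]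

end Pool.Agent.MPd01a95.KT
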