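import Mathlib
import Pool.Agent.Lib.MP_d01a95_gt_K.KDefs2
import Pool.Agent.Lib.MP_d01a95_gt_K.KJ1

set_option autoImplicit false
set_option linter.all false

open Matrix Filter Topology MeasureTheory
open scoped ContDiff

namespace Pool.Agent.MPd01a95.KT

/-- functions on the line without zeros and close to the identity at infinity -/
structure Ad (s C : ℝ) (e : ℝ → ℂ) : Prop where
  cont : Continuous e
  ne : ∀ t, e t ≠ 0
  near : ∀ t : ℝ, ‖e t - t‖ ≤ C * (1 + |t|) ^ (1 - s)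

/-- the integral -/
noncomputable def JJ (e : ℝ → ℂ) : ℂ := ∫ t : ℝ, (1 / ((t : ℂ) + Complex.I) - 1 / e t)

/-- the integer of the increment of the logarithm -/
def Wi (e : ℝ → ℂ) (n : ℤ) : Prop :=
  ∃ L : ℝ → ℂ, Continuous L ∧ (∀ t : ℝ, Complex.exp (L t) = e t / ((t : ℂ) + Complex.I)) ∧
    Tendsto L atBot (𝓝 0) ∧ Tendsto L atTop (𝓝 (2 * Real.pi * Complex.I * n))

theorem JW_ti (t : ℝ) : ((t : ℂ) + Complex.I) ≠ 0 := by
  intro h
  have := congrArg Complex.im h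
  simp at this

theorem JW_ti_ge (t : ℝ) : |t| ≤ ‖(t : ℂ) + Complex.I‖ := by
  have h := Complex.abs_re_le_norm ((t : ℂ) + Complex.I)
  simpa using h

theorem JW_ti_one (t : ℝ) : 1 ≤ ‖(t : ℂ) + Complex.I‖ := by
  have h := Complex.abs_im_le_norm ((t : ℂ) + Complex.I)
  simpa using h

/-- the growth bound is small compared with `t` at infinity -/
theorem JW_large (s C : ℝ) (hs : 0 < s) : ∃ T : ℝ, 1 ≤ T ∧ ∀ t : ℝ, T ≤ |t| →
    C * (1 + |t|) ^ (1 - s) ≤ |t| / 2 := by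
  have h1 : Tendsto (fun x : ℝ => x ^ (-s)) atTop (𝓝 0) := tendsto_rpow_neg_atTop hs
  have h2 : ∀ᶠ x : ℝ in atTop, |C| * x ^ (-s) < 1 / 4 := by
    have h3 := h1.const_mul |C|
    rw [mul_zero] at h3
    exact h3.eventually (gt_mem_nhds (by norm_num))
  obtain ⟨T, hT⟩ := eventually_atTop.1 h2
  refine ⟨max 1 T, le_max_left _ _, fun t ht => ?_⟩
  have ht1 : 1 ≤ |t| := (le_max_left _ _).trans ht
  have ht2 : T ≤ 1 + |t| := (le_max_right 1 T).trans (by linarith)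
  have h4 := hT _ ht2
  have hp : 0 < 1 + |t| := by positivity
  have h5 : (1 + |t|) ^ (1 - s) = (1 + |t|) ^ (-s) * (1 + |t|) := by
    rw [show (1 - s) = -s + 1 by ring, Real.rpow_add hp, Real.rpow_one]
  calc C * (1 + |t|) ^ (1 - s) ≤ |C| * (1 + |t|) ^ (1 - s) :=
        mul_le_mul_of_nonneg_right (le_abs_self C) (by positivity)
    _ = (|C| * (1 + |t|) ^ (-s)) * (1 + |t|) := by rw [h5]; ring
    _ ≤ 1 / 4 * (1 + |t|) := mul_le_mul_of_nonneg_right h4.le hp.le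
    _ ≤ |t| / 2 := by linarith

theorem JW_norm_ge {z : ℂ} {t c : ℝ} (h : ‖z - t‖ ≤ c) (hc : c ≤ |t| / 2) : |t| / 2 ≤ ‖z‖ := by
  have h1 : ‖(t : ℂ)‖ ≤ ‖z - t‖ + ‖z‖ := by
    have := norm_sub_le (z) (z - t)
    rw [sub_sub_cancel] at this
    linarith
  rw [Complex.norm_real, Real.norm_eq_abs] at h1
  linarith

/-- bound of the integrand at infinity -/
theorem JW_tail {s C : ℝ} {z : ℂ} {t : ℝ} (hC : 0 ≤ C) (hs : s < 1) (ht1 : 1 ≤ |t|)
    (h : ‖z - t‖ ≤ C * (1 + |t|) ^ (1 - s)) (hc : C * (1 + |t|) ^ (1 - s) ≤ |t| / 2) :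
    ‖1 / ((t : ℂ) + Complex.I) - 1 / z‖ ≤ 8 * (C + 1) * (1 + |t|) ^ (-(1 + s)) := by
  have hz := JW_norm_ge h hc
  have hz0 : 0 < ‖z‖ := by linarith
  have hzn : z ≠ 0 := norm_pos_iff.1 hz0
  have e : 1 / ((t : ℂ) + Complex.I) - 1 / z = (z - t - Complex.I) /
      (((t : ℂ) + Complex.I) * z) := by
    have := JW_ti t
    field_simp
    ring
  rw [e, norm_div, norm_mul]
  have hp : 0 < 1 + |t| := by positivity
  have h1 : ‖z - t - Complex.I‖ ≤ (C + 1) * (1 + |t|) ^ (1 - s) := by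
    have h2 := norm_sub_le (z - t) Complex.I
    rw [Complex.norm_I] at h2
    have h3 : (1 : ℝ) ≤ (1 + |t|) ^ (1 - s) := Real.one_le_rpow (by linarith) (by linarith)
    nlinarith
  have h2 : (1 + |t|) ^ 2 / 8 ≤ ‖(t : ℂ) + Complex.I‖ * ‖z‖ := by
    have h3 := JW_ti_ge t
    have h4 : |t| * (|t| / 2) ≤ ‖(t : ℂ) + Complex.I‖ * ‖z‖ :=
      mul_le_mul h3 hz (by positivity) (by positivity)
    nlinarith
  have h3 : (1 + |t|) ^ (-(1 + s)) = (1 + |t|) ^ (1 - s) / (1 + |t|) ^ 2 := by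
    rw [show -(1 + s) = (1 - s) - 2 by ring, Real.rpow_sub hp]
    norm_num
  rw [h3]
  calc ‖z - t - Complex.I‖ / (‖(t : ℂ) + Complex.I‖ * ‖z‖)
      ≤ ((C + 1) * (1 + |t|) ^ (1 - s)) / ((1 + |t|) ^ 2 / 8) :=
        div_le_div₀ (by positivity) h1 (by positivity) h2
    _ = 8 * (C + 1) * ((1 + |t|) ^ (1 - s) / (1 + |t|) ^ 2) := by
        field_simp

theorem JW_mono {C s s' : ℝ} (h : s' ≤ s) (t : ℝ) :
    C * (1 + |t|) ^ (1 - s) ≤ |C| * (1 + |t|) ^ (1 - s') := by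
  have h1 : (1 : ℝ) ≤ 1 + |t| := by linarith [abs_nonneg t]
  calc C * (1 + |t|) ^ (1 - s) ≤ |C| * (1 + |t|) ^ (1 - s) :=
        mul_le_mul_of_nonneg_right (le_abs_self C) (by positivity)
    _ ≤ |C| * (1 + |t|) ^ (1 - s') :=
        mul_le_mul_of_nonneg_left (Real.rpow_le_rpow_of_exponent_le h1 (by linarith))
          (abs_nonneg C)

theorem JW_kc {P : Type*} [TopologicalSpace P] {E : P → ℝ → ℂ}
    (hE : Continuous fun x : P × ℝ => E x.1 x.2) (hne : ∀ p t, E p t ≠ 0) :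
    Continuous fun x : P × ℝ => (1 / ((x.2 : ℂ) + Complex.I) - 1 / E x.1 x.2) := by
  refine Continuous.sub ?_ ?_
  · exact Continuous.div continuous_const
      ((Complex.continuous_ofReal.comp continuous_snd).add continuous_const) fun x => JW_ti x.2
  · exact Continuous.div continuous_const hE fun x => hne x.1 x.2

/-- local boundedness on compact sets -/
theorem JW_cpt {P : Type*} [TopologicalSpace P] {f : P × ℝ → ℂ} (hf : Continuous f) (p : P)
    (T : ℝ) : ∃ M : ℝ, 0 ≤ M ∧ ∀ᶠ q in 𝓝 p, ∀ t ∈ Set.Icc (-T) T, ‖f (q, t)‖ ≤ M := by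
  have hc1 : Continuous fun t : ℝ => ‖f (p, t)‖ := by fun_prop
  obtain ⟨M, hM⟩ := (isCompact_Icc (a := -T) (b := T)).bddAbove_image hc1.continuousOn
  refine ⟨max (M + 1) 0, le_max_right _ _, ?_⟩
  refine (isCompact_Icc (a := -T) (b := T)).eventually_forall_of_forall_eventually
    (P := fun q t => ‖f (q, t)‖ ≤ max (M + 1) 0) fun t ht => ?_
  have h2 : ‖f (p, t)‖ < M + 1 := by
    have h := hM (Set.mem_image_of_mem (fun t : ℝ => ‖f (p, t)‖) ht)
    exact lt_of_le_of_lt h (lt_add_one M)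
  have h3 := (hf.norm.tendsto (p, t)).eventually_lt_const h2
  filter_upwards [h3] with z hz
  exact hz.le.trans (le_max_left _ _)

theorem JW_mid {x M T r t : ℝ} (hM : 0 ≤ M) (hr : 0 < r) (hx : x ≤ M) (ht : |t| ≤ T) :
    x ≤ (M * (1 + T) ^ (1 + r)) * (1 + |t|) ^ (-(1 + r)) := by
  have h4 : (1 : ℝ) ≤ (1 + T) ^ (1 + r) * (1 + |t|) ^ (-(1 + r)) := by
    have h5 : (1 + |t|) ^ (1 + r) ≤ (1 + T) ^ (1 + r) :=
      Real.rpow_le_rpow (by positivity) (by linarith) (by linarith)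
    have h6 : 0 < (1 + |t|) ^ (1 + r) := by positivity
    rw [Real.rpow_neg (by positivity), ← div_eq_mul_inv, le_div_iff₀ h6, one_mul]
    exact h5
  calc x ≤ M * 1 := by linarith
    _ ≤ M * ((1 + T) ^ (1 + r) * (1 + |t|) ^ (-(1 + r))) := mul_le_mul_of_nonneg_left h4 hM
    _ = (M * (1 + T) ^ (1 + r)) * (1 + |t|) ^ (-(1 + r)) := by ring

/-- a locally uniform integrable bound -/
theorem JW_bound {P : Type*} [TopologicalSpace P] {E : P → ℝ → ℂ}
    (hE : Continuous fun x : P × ℝ => E x.1 x.2) {s : ℝ} (hs : 0 < s)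
    (hne : ∀ p t, E p t ≠ 0) (hg : ∀ p, ∃ C : ℝ, ∀ᶠ q in 𝓝 p, ∀ t : ℝ,
      ‖E q t - t‖ ≤ C * (1 + |t|) ^ (1 - s)) (p : P) :
    ∃ B r : ℝ, 0 < r ∧ ∀ᶠ q in 𝓝 p, ∀ t : ℝ,
      ‖1 / ((t : ℂ) + Complex.I) - 1 / E q t‖ ≤ B * (1 + |t|) ^ (-(1 + r)) := by
  obtain ⟨C, hC⟩ := hg p
  obtain ⟨r, hr0, hr1, hrs⟩ : ∃ r : ℝ, 0 < r ∧ r < 1 ∧ r ≤ s :=
    ⟨min s (1 / 2), lt_min hs (by norm_num), (min_le_right _ _).trans_lt (by norm_num),
      min_le_left _ _⟩
  obtain ⟨T, hT1, hT⟩ := JW_large r |C| hr0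
  obtain ⟨M, hM0, hM⟩ := JW_cpt (JW_kc hE hne) p T
  refine ⟨max (8 * (|C| + 1)) (M * (1 + T) ^ (1 + r)), r, hr0, ?_⟩
  filter_upwards [hC, hM] with q hq1 hq2 t
  by_cases ht : T ≤ |t|
  · have h3 := JW_tail (abs_nonneg C) hr1 (hT1.trans ht)
      ((hq1 t).trans (JW_mono hrs t)) (hT t ht)
    exact h3.trans (mul_le_mul_of_nonneg_right (le_max_left _ _) (by positivity))
  · push Not at ht
    have h3 := hq2 t (by rw [Set.mem_Icc]; exact abs_le.1 ht.le)
    exact (JW_mid hM0 hr0 h3 ht.le).trans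
      (mul_le_mul_of_nonneg_right (le_max_right _ _) (by positivity))

theorem JW_int (B : ℝ) {r : ℝ} (hr : 0 < r) :
    Integrable fun t : ℝ => B * (1 + |t|) ^ (-(1 + r)) := by
  have h := integrable_one_add_norm (E := ℝ) (μ := volume) (r := 1 + r) (by
    rw [Module.finrank_self]
    push_cast
    linarith)
  simp only [Real.norm_eq_abs] at h
  exact h.const_mul B

/-- continuity of the integral -/
theorem JJ_cont {P : Type*} [TopologicalSpace P] [FirstCountableTopology P] {E : P → ℝ → ℂ}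
    (hE : Continuous fun x : P × ℝ => E x.1 x.2) {s : ℝ} (hs : 0 < s)
    (hne : ∀ p t, E p t ≠ 0) (hg : ∀ p, ∃ C : ℝ, ∀ᶠ q in 𝓝 p, ∀ t : ℝ,
      ‖E q t - t‖ ≤ C * (1 + |t|) ^ (1 - s)) : Continuous fun p => JJ (E p) := by
  rw [continuous_iff_continuousAt]
  intro p
  obtain ⟨B, r, hr, hB⟩ := JW_bound hE hs hne hg p
  unfold JJ
  refine continuousAt_of_dominated (bound := fun t => B * (1 + |t|) ^ (-(1 + r))) ?_ ?_
    (JW_int B hr) ?_
  · refine Eventually.of_forall fun q => Continuous.aestronglyMeasurable ?_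
    refine Continuous.sub ?_ ?_
    · exact Continuous.div continuous_const (by fun_prop) fun x => JW_ti x
    · exact Continuous.div continuous_const
        (hE.comp (by fun_prop : Continuous fun t : ℝ => (q, t))) fun x => hne q x
  · filter_upwards [hB] with q hq
    exact Eventually.of_forall hq
  · refine Eventually.of_forall fun t => Continuous.continuousAt ?_
    refine continuous_const.sub ?_
    exact Continuous.div continuous_const
        (hE.comp (by fun_prop : Continuous fun q : P => (q, t))) fun q => hne q t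

theorem Ad.bound {s C : ℝ} {e : ℝ → ℂ} (h : Ad s C e) (hs : 0 < s) : ∃ B r : ℝ, 0 < r ∧
    ∀ t : ℝ, ‖1 / ((t : ℂ) + Complex.I) - 1 / e t‖ ≤ B * (1 + |t|) ^ (-(1 + r)) := by
  obtain ⟨B, r, hr, hB⟩ := JW_bound (P := Unit) (E := fun _ => e)
    (h.cont.comp continuous_snd) hs (fun _ => h.ne) (fun _ => ⟨C, Eventually.of_forall
      fun _ => h.near⟩) ()
  exact ⟨B, r, hr, hB.self_of_nhds⟩

theorem Ad.cont' {s C : ℝ} {e : ℝ → ℂ} (h : Ad s C e) :
    Continuous fun t : ℝ => (1 / ((t : ℂ) + Complex.I) - 1 / e t) := by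
  refine Continuous.sub ?_ ?_
  · exact Continuous.div continuous_const (by fun_prop) fun x => JW_ti x
  · exact Continuous.div continuous_const h.cont h.ne

theorem Ad.integrable {s C : ℝ} {e : ℝ → ℂ} (h : Ad s C e) (hs : 0 < s) :
    Integrable fun t : ℝ => (1 / ((t : ℂ) + Complex.I) - 1 / e t) := by
  obtain ⟨B, r, hr, hB⟩ := h.bound hs
  exact (JW_int B hr).mono' h.cont'.aestronglyMeasurable (Eventually.of_forall hB)

/-! ### continuous logarithms -/

/-- continuous logarithms on simply connected spaces -/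
theorem JW_log {X : Type*} [TopologicalSpace X] [SimplyConnectedSpace X]
    [LocallyPathConnectedSpace X] (F : X → ℂ) (hF : Continuous F) (h0 : ∀ x, F x ≠ 0) :
    ∃ L : X → ℂ, Continuous L ∧ ∀ x, Complex.exp (L x) = F x := by
  obtain ⟨x₀⟩ : Nonempty X := inferInstance
  obtain ⟨L, ⟨-, hL⟩, -⟩ := Complex.isCoveringMap_exp.existsUnique_continuousMap_lifts
    (⟨fun x => ⟨F x, h0 x⟩, by fun_prop⟩ : C(X, {z : ℂ // z ≠ 0})) x₀ (Complex.log (F x₀))
    (Subtype.ext (Complex.exp_log (h0 x₀)))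
  refine ⟨L, L.continuous, fun x => ?_⟩
  have := congrFun hL x
  exact congrArg Subtype.val this

/-- A continuous function with values in `2 π i ℤ` is constant. -/
theorem JW_const {X : Type*} [TopologicalSpace X] {S : Set X} (hS : IsPreconnected S)
    (hne : S.Nonempty) (A : X → ℂ) (hA : ContinuousOn A S)
    (h : ∀ x ∈ S, ∃ m : ℤ, A x = 2 * Real.pi * Complex.I * m) :
    ∃ w : ℤ, ∀ x ∈ S, A x = 2 * Real.pi * Complex.I * w := by
  have hpi : (2 * Real.pi * Complex.I : ℂ) ≠ 0 := by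
    simp [Real.pi_ne_zero]
  have h' : ∀ x : S, ∃ m : ℤ, A x = 2 * Real.pi * Complex.I * m := fun x => h x x.2
  choose m hm using h'
  have h1 : (fun x : S => ((m x : ℤ) : ℝ)) =
      fun x : S => (A x / (2 * Real.pi * Complex.I)).re := by
    funext x
    rw [hm x, mul_comm, mul_div_assoc, div_self hpi, mul_one]
    simp
  have h2 : Continuous m := by
    rw [Int.isClosedEmbedding_coe_real.isEmbedding.isInducing.continuous_iff]
    change Continuous (fun x => ((m x : ℤ) : ℝ))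
    rw [h1]
    exact Complex.continuous_re.comp ((continuousOn_iff_continuous_restrict.1 hA).div_const _)
  obtain ⟨x₀, hx₀⟩ := hne
  have hS' : PreconnectedSpace S := Subtype.preconnectedSpace hS
  refine ⟨m ⟨x₀, hx₀⟩, fun x hx => ?_⟩
  have := PreconnectedSpace.constant hS' h2 (x := ⟨x, hx⟩) (y := ⟨x₀, hx₀⟩)
  rw [← this]
  exact hm ⟨x, hx⟩

/-- Two continuous logarithms of the same function differ by a constant. -/
theorem JW_diff {X : Type*} [TopologicalSpace X] {S : Set X} (hS : IsPreconnected S)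
    (hne : S.Nonempty) {A B : X → ℂ} (hA : ContinuousOn A S) (hB : ContinuousOn B S)
    (h : ∀ x ∈ S, Complex.exp (A x) = Complex.exp (B x)) :
    ∃ w : ℤ, ∀ x ∈ S, A x = B x + 2 * Real.pi * Complex.I * w := by
  obtain ⟨w, hw⟩ := JW_const hS hne (fun x => A x - B x) (hA.sub hB) fun x hx => by
    obtain ⟨n, hn⟩ := Complex.exp_eq_exp_iff_exists_int.1 (h x hx)
    exact ⟨n, by rw [hn]; ring⟩
  exact ⟨w, fun x hx => by rw [← hw x hx]; ring⟩

/-- the quotient tends to one -/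
theorem Ad.lim {s C : ℝ} {e : ℝ → ℂ} (h : Ad s C e) (hs : 0 < s) (η : ℝ) (hη : 0 < η) :
    ∃ T : ℝ, 1 ≤ T ∧ ∀ t : ℝ, T ≤ |t| → ‖e t / ((t : ℂ) + Complex.I) - 1‖ < η := by
  obtain ⟨T, hT1, hT⟩ := JW_large s (C / η) hs
  refine ⟨max T (4 / η), hT1.trans (le_max_left _ _), fun t ht => ?_⟩
  have h1 := hT t ((le_max_left _ _).trans ht)
  have h2 : 4 / η ≤ |t| := (le_max_right _ _).trans ht
  have h3 : 4 ≤ |t| * η := by rwa [div_le_iff₀ hη] at h2
  have ht0 : 0 < |t| := by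
    have : 0 < 4 / η := by positivity
    linarith
  have h4 : C * (1 + |t|) ^ (1 - s) ≤ |t| * η / 2 := by
    have h5 := mul_le_mul_of_nonneg_right h1 hη.le
    have e1 : C / η * (1 + |t|) ^ (1 - s) * η = C * (1 + |t|) ^ (1 - s) := by
      field_simp
    rw [e1] at h5
    linarith
  have hti := JW_ti_ge t
  have hti0 : 0 < ‖(t : ℂ) + Complex.I‖ := lt_of_lt_of_le ht0 hti
  have e2 : e t / ((t : ℂ) + Complex.I) - 1 = (e t - t - Complex.I) / ((t : ℂ) + Complex.I) := by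
    have := JW_ti t
    field_simp
    ring
  rw [e2, norm_div, div_lt_iff₀ hti0]
  have h6 := norm_sub_le (e t - t) Complex.I
  rw [Complex.norm_I] at h6
  have h7 := h.near t
  nlinarith

theorem Ad.top {s C : ℝ} {e : ℝ → ℂ} (h : Ad s C e) (hs : 0 < s) :
    Tendsto (fun t : ℝ => e t / ((t : ℂ) + Complex.I)) atTop (𝓝 1) := by
  rw [Metric.tendsto_nhds]
  intro η hη
  obtain ⟨T, -, hT⟩ := h.lim hs η hη
  filter_upwards [eventually_ge_atTop T] with t ht
  rw [dist_eq_norm]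
  exact hT t (ht.trans (le_abs_self t))

theorem Ad.bot {s C : ℝ} {e : ℝ → ℂ} (h : Ad s C e) (hs : 0 < s) :
    Tendsto (fun t : ℝ => e t / ((t : ℂ) + Complex.I)) atBot (𝓝 1) := by
  rw [Metric.tendsto_nhds]
  intro η hη
  obtain ⟨T, -, hT⟩ := h.lim hs η hη
  filter_upwards [eventually_le_atBot (-T)] with t ht
  rw [dist_eq_norm]
  refine hT t ?_
  have := neg_le_abs t
  linarith

theorem JW_slit {z : ℂ} (h : ‖z - 1‖ < 1) : z ∈ Complex.slitPlane := by
  rw [Complex.mem_slitPlane_iff]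
  left
  have h1 := Complex.abs_re_le_norm (z - 1)
  rw [Complex.sub_re, Complex.one_re] at h1
  have h2 := abs_lt.1 (h1.trans_lt h)
  linarith [h2.1]

theorem JW_log_one {F : Filter ℝ} {f : ℝ → ℂ} (h : Tendsto f F (𝓝 1)) :
    Tendsto (fun t => Complex.log (f t)) F (𝓝 0) := by
  have h1 : ContinuousAt Complex.log 1 := continuousAt_clog Complex.one_mem_slitPlane
  have h2 := h1.tendsto.comp h
  rwa [Complex.log_one] at h2

theorem Ad.quot_cont {s C : ℝ} {e : ℝ → ℂ} (h : Ad s C e) :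
    Continuous fun t : ℝ => e t / ((t : ℂ) + Complex.I) :=
  h.cont.div (by fun_prop) JW_ti

theorem Ad.quot_ne {s C : ℝ} {e : ℝ → ℂ} (h : Ad s C e) (t : ℝ) :
    e t / ((t : ℂ) + Complex.I) ≠ 0 := div_ne_zero (h.ne t) (JW_ti t)

theorem Ad.exists_wi {s C : ℝ} {e : ℝ → ℂ} (h : Ad s C e) (hs : 0 < s) : ∃ n : ℤ, Wi e n := by
  obtain ⟨L, hL, hL'⟩ := JW_log _ h.quot_cont h.quot_ne
  obtain ⟨T, hT1, hT⟩ := h.lim hs 1 one_pos
  have hlog : ∀ t : ℝ, Complex.exp (Complex.log (e t / ((t : ℂ) + Complex.I))) =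
      e t / ((t : ℂ) + Complex.I) := fun t => Complex.exp_log (h.quot_ne t)
  have hc : ∀ S : Set ℝ, (∀ t ∈ S, T ≤ |t|) →
      ContinuousOn (fun t : ℝ => Complex.log (e t / ((t : ℂ) + Complex.I))) S := by
    intro S hS
    exact ContinuousOn.clog h.quot_cont.continuousOn fun t ht => JW_slit (hT t (hS t ht))
  obtain ⟨w, hw⟩ := JW_diff (S := Set.Ici T) isPreconnected_Ici Set.nonempty_Ici
    hL.continuousOn (hc _ fun t ht => le_trans ht (le_abs_self t))
    fun t _ => (hL' t).trans (hlog t).symm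
  obtain ⟨v, hv⟩ := JW_diff (S := Set.Iic (-T)) isPreconnected_Iic Set.nonempty_Iic
    hL.continuousOn (hc _ fun t ht => by
      have h1 : t ≤ -T := ht
      have := neg_le_abs t
      linarith) fun t _ => (hL' t).trans (hlog t).symm
  refine ⟨w - v, fun t => L t - 2 * Real.pi * Complex.I * v, hL.sub continuous_const,
    fun t => ?_, ?_, ?_⟩
  · rw [Complex.exp_sub, hL' t, mul_comm _ (v : ℂ), Complex.exp_int_mul_two_pi_mul_I, div_one]
  · have h1 := JW_log_one (h.bot hs)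
    refine h1.congr' ?_
    filter_upwards [eventually_le_atBot (-T)] with t ht
    rw [hv t ht]
    ring
  · have h1 := (JW_log_one (h.top hs)).add_const (2 * Real.pi * Complex.I * w -
      2 * Real.pi * Complex.I * v)
    have e1 : (0 : ℂ) + (2 * Real.pi * Complex.I * w - 2 * Real.pi * Complex.I * v) =
        2 * Real.pi * Complex.I * ((w - v : ℤ) : ℂ) := by
      push_cast
      ring
    rw [e1] at h1
    refine h1.congr' ?_
    filter_upwards [eventually_ge_atTop T] with t ht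
    rw [hw t ht]
    ring

theorem JW_pi : (2 * Real.pi * Complex.I : ℂ) ≠ 0 := by
  simp [Real.pi_ne_zero]

theorem Wi.unique {e : ℝ → ℂ} {n m : ℤ} (h : Wi e n) (h' : Wi e m) : n = m := by
  obtain ⟨L, hL, h1, h2, h3⟩ := h
  obtain ⟨L', hL', h1', h2', h3'⟩ := h'
  obtain ⟨w, hw⟩ := JW_diff (S := Set.univ) isPreconnected_univ Set.univ_nonempty
    hL.continuousOn hL'.continuousOn fun t _ => (h1 t).trans (h1' t).symm
  have h4 := h2'.add_const (2 * Real.pi * Complex.I * w)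
  have h5 : Tendsto L atBot (𝓝 (0 + 2 * Real.pi * Complex.I * w)) :=
    h4.congr fun t => (hw t (Set.mem_univ t)).symm
  have h6 := tendsto_nhds_unique h2 h5
  rw [zero_add] at h6
  have h7 := h3'.add_const (2 * Real.pi * Complex.I * w)
  have h8 : Tendsto L atTop (𝓝 (2 * Real.pi * Complex.I * m + 2 * Real.pi * Complex.I * w)) :=
    h7.congr fun t => (hw t (Set.mem_univ t)).symm
  have h9 := tendsto_nhds_unique h3 h8
  rw [← h6, add_zero] at h9
  exact_mod_cast mul_left_cancel₀ JW_pi h9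

theorem Wi.of_near {s C C' : ℝ} {e e' : ℝ → ℂ} (h : Ad s C e) (h' : Ad s C' e') (hs : 0 < s)
    (hn : ∀ t, ‖e' t - e t‖ < ‖e t‖) {n : ℤ} (hw : Wi e n) : Wi e' n := by
  obtain ⟨L, hL, h1, h2, h3⟩ := hw
  have hsl : ∀ t, e' t / e t ∈ Complex.slitPlane := fun t => by
    refine JW_slit ?_
    rw [div_sub_one (h.ne t), norm_div, div_lt_one (norm_pos_iff.2 (h.ne t))]
    exact hn t
  have hlim : ∀ F : Filter ℝ, Tendsto (fun t : ℝ => e t / ((t : ℂ) + Complex.I)) F (𝓝 1) →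
      Tendsto (fun t : ℝ => e' t / ((t : ℂ) + Complex.I)) F (𝓝 1) →
      Tendsto (fun t => Complex.log (e' t / e t)) F (𝓝 0) := by
    intro F ha hb
    refine JW_log_one ?_
    have h4 := hb.div ha one_ne_zero
    rw [div_one] at h4
    refine h4.congr fun t => ?_
    have := JW_ti t
    have := h.ne t
    simp only [Pi.div_apply]
    field_simp
  refine ⟨fun t => L t + Complex.log (e' t / e t), hL.add ?_, fun t => ?_, ?_, ?_⟩
  · exact Continuous.clog (h'.cont.div h.cont h.ne) hsl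
  · rw [Complex.exp_add, h1 t, Complex.exp_log (div_ne_zero (h'.ne t) (h.ne t))]
    have := JW_ti t
    have := h.ne t
    field_simp
  · have := h2.add (hlim _ (h.bot hs) (h'.bot hs))
    rwa [add_zero] at this
  · have := h3.add (hlim _ (h.top hs) (h'.top hs))
    rwa [add_zero] at this

/-- local constancy of the integer -/
theorem Wi_loc {P : Type*} [TopologicalSpace P] {E : P → ℝ → ℂ}
    (hE : Continuous fun x : P × ℝ => E x.1 x.2) {s : ℝ} (hs : 0 < s)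
    (hne : ∀ p t, E p t ≠ 0) (hg : ∀ p, ∃ C : ℝ, ∀ᶠ q in 𝓝 p, ∀ t : ℝ,
      ‖E q t - t‖ ≤ C * (1 + |t|) ^ (1 - s)) (p : P) (n : ℤ) (h : Wi (E p) n) :
    ∀ᶠ q in 𝓝 p, Wi (E q) n := by
  obtain ⟨C, hC⟩ := hg p
  obtain ⟨T, hT1, hT⟩ := JW_large s (4 * |C|) hs
  have hcq : ∀ q, Continuous (E q) := fun q =>
    hE.comp (by fun_prop : Continuous fun t : ℝ => (q, t))
  have hp : Ad s C (E p) := ⟨hcq p, hne p, hC.self_of_nhds⟩
  have hf : Continuous fun x : P × ℝ => ‖E x.1 x.2 - E p x.2‖ - ‖E p x.2‖ := by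
    have h1 : Continuous fun x : P × ℝ => E p x.2 := (hcq p).comp continuous_snd
    exact (hE.sub h1).norm.sub h1.norm
  have h1 : ∀ᶠ q in 𝓝 p, ∀ t ∈ Set.Icc (-T) T, ‖E q t - E p t‖ - ‖E p t‖ < 0 := by
    refine (isCompact_Icc (a := -T) (b := T)).eventually_forall_of_forall_eventually
      (P := fun q t => ‖E q t - E p t‖ - ‖E p t‖ < 0) fun t _ => ?_
    have h2 : ‖E p t - E p t‖ - ‖E p t‖ < 0 := by
      rw [sub_self, norm_zero, zero_sub, neg_lt_zero]
      exact norm_pos_iff.2 (hne p t)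
    exact (hf.tendsto (p, t)).eventually_lt_const h2
  filter_upwards [hC, h1] with q hq1 hq2
  refine Wi.of_near hp ⟨hcq q, hne q, hq1⟩ hs (fun t => ?_) h
  by_cases ht : T ≤ |t|
  · have h2 := hT t ht
    have h3 : C * (1 + |t|) ^ (1 - s) ≤ |C| * (1 + |t|) ^ (1 - s) :=
      mul_le_mul_of_nonneg_right (le_abs_self C) (by positivity)
    have h4 := hq1 t
    have h5 := hp.near t
    have ht0 : 1 ≤ |t| := hT1.trans ht
    have h6 : |t| / 2 ≤ ‖E p t‖ := JW_norm_ge (h5.trans h3) (by nlinarith [abs_nonneg t])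
    have h7 : ‖E q t - E p t‖ ≤ ‖E q t - t‖ + ‖E p t - t‖ := by
      have := norm_sub_le (E q t - t) (E p t - t)
      rwa [sub_sub_sub_cancel_right] at this
    nlinarith
  · push Not at ht
    have := hq2 t (by rw [Set.mem_Icc]; exact abs_le.1 ht.le)
    linarith

/-- functions of the form `t + z` -/
theorem JW_ad (z : ℂ) (hz : 0 < z.im) : Ad (1 / 2) ‖z‖ fun t : ℝ => (t : ℂ) + z := by
  refine ⟨by fun_prop, fun t h => ?_, fun t => ?_⟩
  · have := congrArg Complex.im h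
    simp at this
    linarith
  · rw [add_sub_cancel_left]
    have h1 : (1 : ℝ) ≤ (1 + |t|) ^ (1 - (1 / 2) : ℝ) :=
      Real.one_le_rpow (by linarith [abs_nonneg t]) (by norm_num)
    nlinarith [norm_nonneg z]

theorem JW_re (z : ℂ) (hz : 0 < z.im) (t : ℝ) : 0 < (-Complex.I * ((t : ℂ) + z)).re := by
  simp
  exact hz

theorem JW_F (z : ℂ) (hz : 0 < z.im) (t : ℝ) :
    Complex.log (-Complex.I * ((t : ℂ) + z)) - Complex.log (-Complex.I * ((t : ℂ) + Complex.I)) =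
      Complex.log (((t : ℂ) + z) / ((t : ℂ) + Complex.I)) := by
  have hu := JW_re z hz t
  have hv := JW_re Complex.I (by simp) t
  have hu0 : -Complex.I * ((t : ℂ) + z) ≠ 0 := fun h => by rw [h] at hu; simp at hu
  have hv0 : -Complex.I * ((t : ℂ) + Complex.I) ≠ 0 := fun h => by rw [h] at hv; simp at hv
  have e1 : Complex.exp (Complex.log (-Complex.I * ((t : ℂ) + z)) -
      Complex.log (-Complex.I * ((t : ℂ) + Complex.I))) =
      ((t : ℂ) + z) / ((t : ℂ) + Complex.I) := by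
    rw [Complex.exp_sub, Complex.exp_log hu0, Complex.exp_log hv0]
    exact mul_div_mul_left _ _ (neg_ne_zero.2 Complex.I_ne_zero)
  rw [← e1]
  have ha := Complex.abs_arg_lt_pi_div_two_iff.2 (Or.inl hu)
  have hb := Complex.abs_arg_lt_pi_div_two_iff.2 (Or.inl hv)
  have ha' := abs_lt.1 ha
  have hb' := abs_lt.1 hb
  refine (Complex.log_exp ?_ ?_).symm
  · rw [Complex.sub_im, Complex.log_im, Complex.log_im]
    linarith [ha'.1, hb'.2]
  · rw [Complex.sub_im, Complex.log_im, Complex.log_im]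
    linarith [ha'.2, hb'.1]

/-- the integral of the difference of two Cauchy kernels with poles on the same side -/
theorem JW_zero (z : ℂ) (hz : 0 < z.im) : JJ (fun t : ℝ => (t : ℂ) + z) = 0 := by
  have had := JW_ad z hz
  have hint := had.integrable (by norm_num)
  have hd : ∀ t : ℝ, HasDerivAt (fun t : ℝ =>
      Complex.log (-Complex.I * ((t : ℂ) + Complex.I)) - Complex.log (-Complex.I * ((t : ℂ) + z)))
      (1 / ((t : ℂ) + Complex.I) - 1 / ((t : ℂ) + z)) t := by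
    intro t
    have h1 : ∀ w : ℂ, 0 < w.im → HasDerivAt (fun t : ℝ =>
        Complex.log (-Complex.I * ((t : ℂ) + w))) (1 / ((t : ℂ) + w)) t := by
      intro w hw
      have h2 : HasDerivAt (fun t : ℝ => -Complex.I * ((t : ℂ) + w)) (-Complex.I * 1) t :=
        ((Complex.ofRealCLM.hasDerivAt (x := t)).add_const w).const_mul (-Complex.I)
      have h3 := h2.clog_real (Complex.mem_slitPlane_iff.2 (Or.inl (JW_re w hw t)))
      refine h3.congr_deriv ?_
      exact mul_div_mul_left _ _ (neg_ne_zero.2 Complex.I_ne_zero)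
    exact (h1 Complex.I (by simp)).sub (h1 z hz)
  have hlim : ∀ F : Filter ℝ, Tendsto (fun t : ℝ => ((t : ℂ) + z) / ((t : ℂ) + Complex.I)) F
      (𝓝 1) → Tendsto (fun t : ℝ =>
      Complex.log (-Complex.I * ((t : ℂ) + Complex.I)) - Complex.log (-Complex.I * ((t : ℂ) + z)))
      F (𝓝 0) := by
    intro F hF
    have h1 := (JW_log_one hF).neg
    rw [neg_zero] at h1
    refine h1.congr fun t => ?_
    rw [← JW_F z hz t]
    ring
  have h := integral_of_hasDerivAt_of_tendsto hd hint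
    (hlim _ (had.bot (by norm_num))) (hlim _ (had.top (by norm_num)))
  unfold JJ
  rw [h, sub_zero]

/-- affine changes of the variable -/
theorem JJ_affine {s C : ℝ} {e e' : ℝ → ℂ} (h : Ad s C e') (hs : 0 < s) (r q : ℝ) (hr : 0 < r)
    (he : ∀ t, e (r * (t + q)) = r * e' t) : JJ e = JJ e' := by
  obtain ⟨z, hz⟩ : ∃ z : ℂ, z = (q : ℂ) + ((r⁻¹ : ℝ) : ℂ) * Complex.I := ⟨_, rfl⟩
  have hzi : 0 < z.im := by
    rw [hz]
    simp
    exact hr
  have h0 := JW_zero z hzi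
  have hi0 := (JW_ad z hzi).integrable (by norm_num)
  have hi1 := h.integrable hs
  have e1 : JJ e = ∫ t : ℝ, (r : ℂ) * (1 / (((r * (t + q) : ℝ) : ℂ) + Complex.I) -
      1 / e (r * (t + q))) := by
    have h1 := Measure.integral_comp_mul_left
      (fun t : ℝ => 1 / ((t : ℂ) + Complex.I) - 1 / e t) r
    have h2 := integral_add_right_eq_self (μ := (volume : Measure ℝ))
      (fun t : ℝ => 1 / (((r * t : ℝ) : ℂ) + Complex.I) - 1 / e (r * t)) q
    rw [integral_const_mul, h2, h1, abs_of_pos (inv_pos.2 hr)]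
    unfold JJ
    rw [Complex.real_smul, ← mul_assoc, ← Complex.ofReal_mul, mul_inv_cancel₀ hr.ne',
      Complex.ofReal_one, one_mul]
  rw [e1]
  have e2 : JJ e' = (∫ t : ℝ, (1 / ((t : ℂ) + Complex.I) - 1 / e' t)) -
      ∫ t : ℝ, (1 / ((t : ℂ) + Complex.I) - 1 / ((t : ℂ) + z)) := by
    have : (∫ t : ℝ, (1 / ((t : ℂ) + Complex.I) - 1 / ((t : ℂ) + z))) = 0 := h0
    rw [this, sub_zero]
    rfl
  rw [e2, ← integral_sub hi1 hi0]
  refine integral_congr_ae (Eventually.of_forall fun t => ?_)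
  simp only
  rw [he t]
  have hr' : (r : ℂ) ≠ 0 := by exact_mod_cast hr.ne'
  have ht := (JW_ad z hzi).ne t
  have hti := JW_ti t
  have het := h.ne t
  have e3 : (((r * (t + q) : ℝ) : ℂ) + Complex.I) = r * ((t : ℂ) + z) := by
    rw [hz]
    push_cast
    field_simp
    ring
  rw [e3, mul_sub]
  have e4 : (r : ℂ) * (1 / (r * ((t : ℂ) + z))) = 1 / ((t : ℂ) + z) := by
    have ht' : (t : ℂ) + z ≠ 0 := ht
    field_simp
  have e5 : (r : ℂ) * (1 / (r * e' t)) = 1 / e' t := by field_simp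
  rw [e4, e5]
  ring

/-- the growth condition for the linear form, locally uniformly -/
theorem el_near {A : ℂ → ℝ → ℂ} (hA : Ch A) : ∃ s : ℝ, 0 < s ∧ ∀ r : ℝ, ∃ C : ℝ,
    ∀ μb tb μ, ‖μb‖ ≤ r → |tb| ≤ r → ‖μ‖ ≤ r → ∀ t : ℝ,
      ‖el A μb tb μ t - t‖ ≤ C * (1 + |t|) ^ (1 - s) := by
  obtain ⟨ε, hε, hg⟩ := hA.grow
  obtain ⟨s, hs0, hs1, hsε⟩ : ∃ s : ℝ, 0 < s ∧ s < 1 ∧ s ≤ ε :=
    ⟨min ε (1 / 2), lt_min hε (by norm_num), (min_le_right _ _).trans_lt (by norm_num),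
      min_le_left _ _⟩
  refine ⟨s, hs0, fun r => ?_⟩
  obtain ⟨C, hC⟩ := hg r
  refine ⟨r + 2 * r * |C| + 2 * r * |C| * (1 + r) ^ (1 - s), fun μb tb μ h1 h2 h3 t => ?_⟩
  have hr : 0 ≤ r := (norm_nonneg _).trans h1
  have hX : (1 : ℝ) ≤ (1 + |t|) ^ (1 - s) :=
    Real.one_le_rpow (by linarith [abs_nonneg t]) (by linarith)
  have hA1 : ‖A μ t‖ ≤ |C| * (1 + |t|) ^ (1 - s) := (hC μ t h3).trans (JW_mono hsε t)
  have hA2 : ‖A μb tb‖ ≤ |C| * (1 + r) ^ (1 - s) := by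
    refine ((hC μb tb h1).trans (JW_mono hsε tb)).trans ?_
    exact mul_le_mul_of_nonneg_left (Real.rpow_le_rpow (by positivity) (by linarith)
      (by linarith)) (abs_nonneg C)
  have hd : ‖star μ - star μb‖ ≤ 2 * r := by
    rw [← star_sub, norm_star]
    have := norm_sub_le μ μb
    linarith
  have hd' : ‖μ - μb‖ ≤ 2 * r := by
    have := norm_sub_le μ μb
    linarith
  have e1 : el A μb tb μ t - t = -((tb : ℂ) + A μ t * (star μ - star μb) +
      star (A μb tb) * (μ - μb)) := by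
    unfold el
    ring
  rw [e1, norm_neg]
  have h4 : ‖A μ t * (star μ - star μb)‖ ≤ |C| * (1 + |t|) ^ (1 - s) * (2 * r) := by
    rw [norm_mul]
    exact mul_le_mul hA1 hd (norm_nonneg _) (by positivity)
  have h5 : ‖star (A μb tb) * (μ - μb)‖ ≤ |C| * (1 + r) ^ (1 - s) * (2 * r) := by
    rw [norm_mul, norm_star]
    exact mul_le_mul hA2 hd' (norm_nonneg _) (by positivity)
  have h6 : ‖(tb : ℂ)‖ ≤ r := by
    rw [Complex.norm_real]
    exact h2
  have h7 := norm_add₃_le (a := (tb : ℂ)) (b := A μ t * (star μ - star μb))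
    (c := star (A μb tb) * (μ - μb))
  have h8 : 0 ≤ |C| * (1 + r) ^ (1 - s) * (2 * r) := by positivity
  have h9 : r ≤ r * (1 + |t|) ^ (1 - s) := le_mul_of_one_le_right hr hX
  have h10 : |C| * (1 + r) ^ (1 - s) * (2 * r) ≤
      |C| * (1 + r) ^ (1 - s) * (2 * r) * (1 + |t|) ^ (1 - s) := le_mul_of_one_le_right h8 hX
  nlinarith

theorem el_cont {A : ℂ → ℝ → ℂ} (hA : Ch A) :
    Continuous fun p : (ℂ × ℝ × ℂ) × ℝ => el A p.1.1 p.1.2.1 p.1.2.2 p.2 := by
  unfold el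
  have h1 : Continuous fun p : (ℂ × ℝ × ℂ) × ℝ => A p.1.2.2 p.2 :=
    hA.cont.comp (by fun_prop : Continuous fun p : (ℂ × ℝ × ℂ) × ℝ => (p.1.2.2, p.2))
  have h2 : Continuous fun p : (ℂ × ℝ × ℂ) × ℝ => A p.1.1 p.1.2.1 :=
    hA.cont.comp (by fun_prop : Continuous fun p : (ℂ × ℝ × ℂ) × ℝ => (p.1.1, p.1.2.1))
  have h3 : Continuous fun p : (ℂ × ℝ × ℂ) × ℝ => (p.2 : ℂ) - (p.1.2.1 : ℂ) := by fun_prop
  have h4 : Continuous fun p : (ℂ × ℝ × ℂ) × ℝ => star p.1.2.2 - star p.1.1 := by fun_prop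
  have h5 : Continuous fun p : (ℂ × ℝ × ℂ) × ℝ => p.1.2.2 - p.1.1 := by fun_prop
  exact (h3.sub (h1.mul h4)).sub (h2.star.mul h5)

theorem el_ne' {A : ℂ → ℝ → ℂ} (hA : Ch A) (μb : ℂ) (tb : ℝ) (μ : ℂ) (h : μ ≠ μb) (t : ℝ) :
    el A μb tb μ t ≠ 0 := hA.ne μb tb μ t fun e => h (congrArg Prod.fst e)

/-- the linear form is admissible -/
theorem el_ad {A : ℂ → ℝ → ℂ} (hA : Ch A) : ∃ s : ℝ, 0 < s ∧ ∀ μb tb μ, μ ≠ μb → ∃ C : ℝ,
    Ad s C (el A μb tb μ) := by
  obtain ⟨s, hs, h⟩ := el_near hA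
  refine ⟨s, hs, fun μb tb μ hμ => ?_⟩
  obtain ⟨C, hC⟩ := h (max (max ‖μb‖ |tb|) ‖μ‖)
  refine ⟨C, ?_, el_ne' hA μb tb μ hμ, hC μb tb μ ?_ ?_ ?_⟩
  · exact (el_cont hA).comp (by fun_prop : Continuous fun t : ℝ => ((μb, tb, μ), t))
  · exact (le_max_left _ _).trans (le_max_left _ _)
  · exact (le_max_right _ _).trans (le_max_left _ _)
  · exact le_max_right _ _

theorem JW_unif {A : ℂ → ℝ → ℂ} (hA : Ch A) : ∃ s : ℝ, 0 < s ∧ ∀ p : ℂ × ℝ × ℂ,
    ∃ C : ℝ, ∀ᶠ q in 𝓝 p, ∀ t : ℝ,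
      ‖el A q.1 q.2.1 q.2.2 t - t‖ ≤ C * (1 + |t|) ^ (1 - s) := by
  obtain ⟨s, hs, h⟩ := el_near hA
  refine ⟨s, hs, fun p => ?_⟩
  obtain ⟨C, hC⟩ := h (‖p‖ + 1)
  refine ⟨C, ?_⟩
  filter_upwards [Metric.ball_mem_nhds p one_pos] with q hq t
  have hn : ‖q‖ ≤ ‖p‖ + 1 := by
    have h1 : ‖q - p‖ < 1 := by rwa [← dist_eq_norm]
    have h2 := norm_le_norm_add_norm_sub' q p
    linarith
  have h2 : ‖q.2‖ ≤ ‖q‖ := norm_snd_le q
  exact hC _ _ _ ((norm_fst_le q).trans hn) ((norm_fst_le q.2).trans (h2.trans hn))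
    ((norm_snd_le q.2).trans (h2.trans hn)) t

/-- continuity of the integral of one chart -/
theorem II_cont1 {A : ℂ → ℝ → ℂ} (hA : Ch A) :
    ContinuousOn (fun p : ℂ × ℝ × ℂ => II A p.1 p.2.1 p.2.2) {p | p.2.2 ≠ p.1} := by
  obtain ⟨s, hs, h⟩ := JW_unif hA
  rw [continuousOn_iff_continuous_restrict]
  refine JJ_cont (P := {p : ℂ × ℝ × ℂ | p.2.2 ≠ p.1})
    (E := fun p t => el A p.1.1 p.1.2.1 p.1.2.2 t) ?_ hs (fun p t => ?_) fun p => ?_
  · exact (el_cont hA).comp (by fun_prop : Continuous fun x :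
      {p : ℂ × ℝ × ℂ | p.2.2 ≠ p.1} × ℝ => (x.1.1, x.2))
  · exact el_ne' hA _ _ _ p.2 t
  · obtain ⟨C, hC⟩ := h p.1
    exact ⟨C, (continuous_subtype_val.tendsto p).eventually hC⟩

end Pool.Agent.MPd01a95.KT
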