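import Mathlib
import Pool.Agent.Lib.MP_d01a95_gt_K.KDefs2
import Pool.Agent.Lib.MP_d01a95_gt_K.KJ1
import Pool.Agent.Lib.MP_d01a95_gt_K.KJW

set_option autoImplicit false
set_option linter.all false

open Matrix Filter Topology MeasureTheory
open scoped ContDiff

namespace Pool.Agent.MPd01a95.KT

/-- the quotients tend to one uniformly -/
theorem J2a_lim {s C : ℝ} (hs : 0 < s) (η : ℝ) (hη : 0 < η) :
    ∃ T : ℝ, 1 ≤ T ∧ ∀ e : ℝ → ℂ, Ad s C e → ∀ t : ℝ, T ≤ |t| →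
      ‖e t / ((t : ℂ) + Complex.I) - 1‖ < η := by
  obtain ⟨T, hT1, hT⟩ := JW_large s (C / η) hs
  refine ⟨max T (4 / η), hT1.trans (le_max_left _ _), fun e h t ht => ?_⟩
  have h1 := hT t ((le_max_left _ _).trans ht)
  have h2 : 4 / η ≤ |t| := (le_max_right _ _).trans ht
  have h3 : 4 ≤ |t| * η := by rwa [div_le_iff₀ hη] at h2
  have ht0 : 0 < |t| := by
    have : 0 < 4 / η := by positivity
    linarith
  have h4 : C * (1 + |t|) ^ (1 - s) ≤ |t| * η / 2 := by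
    have h5 := mul_le_mul_of_nonneg_right h1 hη.le
    have e1 : C / η * (1 + |t|) ^ (1 - s) * η = C * (1 + |t|) ^ (1 - s) := by
      field_simp
    rw [e1] at h5
    linarith
  have hti := JW_ti_ge t
  have hti0 : 0 < ‖(t : ℂ) + Complex.I‖ := lt_of_lt_of_le ht0 hti
  have e2 : e t / ((t : ℂ) + Complex.I) - 1 = (e t - t - Complex.I) / ((t : ℂ) + Complex.I) := by
    have := JW_ti t
    field_simp
    ring
  rw [e2, norm_div, div_lt_iff₀ hti0]
  have h6 := norm_sub_le (e t - t) Complex.I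
  rw [Complex.norm_I] at h6
  have h7 := h.near t
  nlinarith

/-- one integer for all `μ` -/
theorem J2a_w {A : ℂ → ℝ → ℂ} (hA : Ch A) (μb : ℂ) (tb : ℝ) :
    ∃ w : ℤ, ∀ μ : ℂ, μ ≠ μb → Wi (el A μb tb μ) w := by
  obtain ⟨s, hs, h⟩ := el_near hA
  let E : {μ : ℂ // μ ≠ μb} → ℝ → ℂ := fun p t => el A μb tb p.1 t
  have hE : Continuous fun x : {μ : ℂ // μ ≠ μb} × ℝ => E x.1 x.2 :=
    (el_cont hA).comp (by fun_prop : Continuous fun x : {μ : ℂ // μ ≠ μb} × ℝ => ((μb, tb, x.1.1), x.2))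
  have hne : ∀ (p : {μ : ℂ // μ ≠ μb}) (t : ℝ), E p t ≠ 0 := fun p t => el_ne' hA μb tb p.1 p.2 t
  have hg : ∀ p : {μ : ℂ // μ ≠ μb}, ∃ C : ℝ, ∀ᶠ q in 𝓝 p, ∀ t : ℝ, ‖E q t - t‖ ≤ C * (1 + |t|) ^ (1 - s) := by
    intro p
    obtain ⟨C, hC⟩ := h (max (max ‖μb‖ |tb|) (‖p.1‖ + 1))
    refine ⟨C, ?_⟩
    have hev : ∀ᶠ μ in 𝓝 p.1, ‖μ‖ ≤ ‖p.1‖ + 1 := by
      filter_upwards [Metric.ball_mem_nhds p.1 one_pos] with q hq
      have h1 : ‖q - p.1‖ < 1 := by rwa [← dist_eq_norm]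
      have h2 := norm_le_norm_add_norm_sub' q p.1
      linarith
    filter_upwards [(continuous_subtype_val.tendsto p).eventually hev] with q hq t
    exact hC μb tb q.1 ((le_max_left _ _).trans (le_max_left _ _))
      ((le_max_right _ _).trans (le_max_left _ _)) (hq.trans (le_max_right _ _)) t
  have hex : ∀ p : {μ : ℂ // μ ≠ μb}, ∃ n : ℤ, Wi (E p) n := by
    intro p
    obtain ⟨C, hC⟩ := hg p
    exact Ad.exists_wi (s := s) (C := C)
      ⟨hE.comp (by fun_prop : Continuous fun t : ℝ => (p, t)), hne p, hC.self_of_nhds⟩ hs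
  choose n hn using hex
  have hloc : IsLocallyConstant n := by
    rw [IsLocallyConstant.iff_eventually_eq]
    intro p
    filter_upwards [Wi_loc hE hs hne hg p (n p) (hn p)] with q hq
    exact Wi.unique (hn q) hq
  have hpre : PreconnectedSpace {μ : ℂ // μ ≠ μb} := by
    have h1 : IsPreconnected ({μb}ᶜ : Set ℂ) :=
      (isConnected_compl_singleton_of_one_lt_rank (by
        rw [Complex.rank_real_complex]; exact Cardinal.one_lt_two) μb).isPreconnected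
    exact Subtype.preconnectedSpace h1
  have hp0 : μb + 1 ≠ μb := by
    intro hh
    have : (1 : ℂ) = 0 := by simpa using hh
    exact one_ne_zero this
  refine ⟨n ⟨μb + 1, hp0⟩, fun μ hμ => ?_⟩
  have h1 := hn ⟨μ, hμ⟩
  rwa [hloc.apply_eq_of_preconnectedSpace ⟨μ, hμ⟩ ⟨μb + 1, hp0⟩] at h1

/-- the retraction to a ball -/
theorem J2a_rho (μ0 : ℂ) (r : ℝ) (hr : 0 < r) : ∃ ρ : ℂ → ℂ, Continuous ρ ∧
    (∀ μ, ρ μ ∈ Metric.closedBall μ0 r) ∧ ∀ μ ∈ Metric.closedBall μ0 r, ρ μ = μ := by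
  have hm : ∀ μ : ℂ, 0 < max r ‖μ - μ0‖ := fun μ => lt_of_lt_of_le hr (le_max_left _ _)
  refine ⟨fun μ => μ0 + ((r / max r ‖μ - μ0‖ : ℝ) : ℂ) * (μ - μ0), ?_, fun μ => ?_,
    fun μ hμ => ?_⟩
  · have h1 : Continuous fun μ : ℂ => (r / max r ‖μ - μ0‖ : ℝ) :=
      Continuous.div continuous_const (by fun_prop) fun μ => (hm μ).ne'
    exact continuous_const.add ((Complex.continuous_ofReal.comp h1).mul (by fun_prop))
  · rw [Metric.mem_closedBall, dist_eq_norm, add_sub_cancel_left, norm_mul, Complex.norm_real,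
      Real.norm_of_nonneg (by have := hm μ; positivity), div_mul_eq_mul_div,
      div_le_iff₀ (hm μ)]
    exact mul_le_mul_of_nonneg_left (le_max_right _ _) hr.le
  · rw [Metric.mem_closedBall, dist_eq_norm] at hμ
    simp only
    rw [max_eq_left hμ, div_self hr.ne']
    simp

/-- module J2a: a continuous logarithm near a point, with uniform limits -/
theorem J2_lam {A : ℂ → ℝ → ℂ} (hA : Ch A) (μb : ℂ) (tb : ℝ) : ∃ w : ℤ, ∀ μ0 : ℂ, μ0 ≠ μb →
    ∃ r : ℝ, 0 < r ∧ μb ∉ Metric.closedBall μ0 r ∧ ∃ lam : ℂ × ℝ → ℂ, Continuous lam ∧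
      (∀ μ ∈ Metric.closedBall μ0 r, ∀ t : ℝ,
        Complex.exp (lam (μ, t)) = el A μb tb μ t / ((t : ℂ) + Complex.I)) ∧
      ∀ η : ℝ, 0 < η → ∃ T : ℝ, 0 < T ∧ ∀ μ ∈ Metric.closedBall μ0 r, ∀ t : ℝ,
        (t ≤ -T → ‖lam (μ, t)‖ ≤ η) ∧
        (T ≤ t → ‖lam (μ, t) - 2 * Real.pi * Complex.I * w‖ ≤ η) := by
  obtain ⟨w, hw⟩ := J2a_w hA μb tb
  refine ⟨w, fun μ0 hμ0 => ?_⟩
  have hd : 0 < dist μ0 μb := dist_pos.2 hμ0
  obtain ⟨r, hrdef⟩ : ∃ r : ℝ, r = dist μ0 μb / 2 := ⟨_, rfl⟩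
  have hr : 0 < r := by rw [hrdef]; linarith
  have hμb : μb ∉ Metric.closedBall μ0 r := by
    rw [Metric.mem_closedBall, dist_comm, not_le, hrdef]
    linarith
  refine ⟨r, hr, hμb, ?_⟩
  obtain ⟨ρ, hρc, hρb, hρi⟩ := J2a_rho μ0 r hr
  have hne : ∀ μ ∈ Metric.closedBall μ0 r, μ ≠ μb := fun μ hμ e => hμb (e ▸ hμ)
  obtain ⟨s, hs, hnear⟩ := el_near hA
  obtain ⟨C, hC⟩ := hnear (max (max ‖μb‖ |tb|) (‖μ0‖ + r))
  have had : ∀ μ ∈ Metric.closedBall μ0 r, Ad s C (el A μb tb μ) := by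
    intro μ hμ
    refine ⟨?_, el_ne' hA μb tb μ (hne μ hμ), hC μb tb μ ?_ ?_ ?_⟩
    · exact (el_cont hA).comp (by fun_prop : Continuous fun t : ℝ => ((μb, tb, μ), t))
    · exact (le_max_left _ _).trans (le_max_left _ _)
    · exact (le_max_right _ _).trans (le_max_left _ _)
    · rw [Metric.mem_closedBall, dist_eq_norm] at hμ
      have h2 := norm_le_norm_add_norm_sub' μ μ0
      exact (by linarith : ‖μ‖ ≤ ‖μ0‖ + r).trans (le_max_right _ _)
  -- the function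
  obtain ⟨F, hF⟩ : ∃ F : ℂ × ℝ → ℂ,
      F = fun x => el A μb tb (ρ x.1) x.2 / ((x.2 : ℂ) + Complex.I) := ⟨_, rfl⟩
  have hFv : ∀ μ t, F (μ, t) = el A μb tb (ρ μ) t / ((t : ℂ) + Complex.I) := fun μ t => by rw [hF]
  have hFc : Continuous F := by
    rw [hF]
    refine Continuous.div ?_ (by fun_prop) fun x => JW_ti x.2
    exact (el_cont hA).comp (by fun_prop :
      Continuous fun x : ℂ × ℝ => ((μb, tb, ρ x.1), x.2))
  have hF0 : ∀ x, F x ≠ 0 := fun x => by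
    rw [hF]
    exact div_ne_zero (el_ne' hA μb tb _ (hne _ (hρb _)) _) (JW_ti x.2)
  obtain ⟨L, hL, hLF⟩ := JW_log F hFc hF0
  obtain ⟨T1, hT11, hT1⟩ := J2a_lim (s := s) (C := C) hs 1 one_pos
  have hF1 : ∀ x : ℂ × ℝ, T1 ≤ |x.2| → ‖F x - 1‖ < 1 := fun x hx => by
    rw [hF]
    exact hT1 _ (had _ (hρb x.1)) x.2 hx
  have hlog : ∀ x, Complex.exp (Complex.log (F x)) = F x := fun x => Complex.exp_log (hF0 x)
  have hc : ∀ S : Set (ℂ × ℝ), (∀ x ∈ S, T1 ≤ |x.2|) →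
      ContinuousOn (fun x => Complex.log (F x)) S := fun S hS =>
    ContinuousOn.clog hFc.continuousOn fun x hx => JW_slit (hF1 x (hS x hx))
  have hSp : ∀ x ∈ (Set.univ ×ˢ Set.Ici T1 : Set (ℂ × ℝ)), T1 ≤ |x.2| := fun x hx =>
    le_trans (Set.mem_prod.1 hx).2 (le_abs_self _)
  have hSm : ∀ x ∈ (Set.univ ×ˢ Set.Iic (-T1) : Set (ℂ × ℝ)), T1 ≤ |x.2| := fun x hx => by
    have h1 : x.2 ≤ -T1 := (Set.mem_prod.1 hx).2
    have := neg_le_abs x.2
    linarith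
  obtain ⟨u, hu⟩ := JW_diff (S := (Set.univ ×ˢ Set.Ici T1 : Set (ℂ × ℝ)))
    (isPreconnected_univ.prod isPreconnected_Ici) ⟨(0, T1), Set.mem_univ _, Set.mem_Ici.2 le_rfl⟩
    hL.continuousOn (hc _ hSp) fun x _ => (hLF x).trans (hlog x).symm
  obtain ⟨v, hv⟩ := JW_diff (S := (Set.univ ×ˢ Set.Iic (-T1) : Set (ℂ × ℝ)))
    (isPreconnected_univ.prod isPreconnected_Iic) ⟨(0, -T1), Set.mem_univ _, Set.mem_Iic.2 le_rfl⟩
    hL.continuousOn (hc _ hSm) fun x _ => (hLF x).trans (hlog x).symm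
  have hexp : ∀ x, Complex.exp (L x - 2 * Real.pi * Complex.I * v) = F x := fun x => by
    rw [Complex.exp_sub, hLF x, mul_comm _ (v : ℂ), Complex.exp_int_mul_two_pi_mul_I, div_one]
  have hm0 : μ0 ∈ Metric.closedBall μ0 r := Metric.mem_closedBall_self hr.le
  have hFμ : ∀ μ ∈ Metric.closedBall μ0 r, ∀ t, F (μ, t) =
      el A μb tb μ t / ((t : ℂ) + Complex.I) := fun μ hμ t => by rw [hFv, hρi μ hμ]
  have hlamp : ∀ μ : ℂ, ∀ t : ℝ, T1 ≤ t → L (μ, t) - 2 * Real.pi * Complex.I * v =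
      Complex.log (F (μ, t)) + 2 * Real.pi * Complex.I * ((u - v : ℤ) : ℂ) := by
    intro μ t ht
    rw [hu (μ, t) ⟨Set.mem_univ _, ht⟩]
    push_cast
    ring
  have hlamm : ∀ μ : ℂ, ∀ t : ℝ, t ≤ -T1 → L (μ, t) - 2 * Real.pi * Complex.I * v =
      Complex.log (F (μ, t)) := by
    intro μ t ht
    rw [hv (μ, t) ⟨Set.mem_univ _, ht⟩]
    ring
  have hwuv : w = u - v := by
    refine Wi.unique (hw μ0 hμ0) ⟨fun t => L (μ0, t) - 2 * Real.pi * Complex.I * v, ?_, ?_, ?_, ?_⟩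
    · exact (hL.comp (by fun_prop : Continuous fun t : ℝ => (μ0, t))).sub continuous_const
    · intro t
      rw [hexp, hFμ μ0 hm0]
    · have h1 := JW_log_one ((had μ0 hm0).bot hs)
      refine h1.congr' ?_
      filter_upwards [eventually_le_atBot (-T1)] with t ht
      rw [hlamm μ0 t ht, hFμ μ0 hm0]
    · have h1 := (JW_log_one ((had μ0 hm0).top hs)).add_const
        (2 * Real.pi * Complex.I * ((u - v : ℤ) : ℂ))
      rw [zero_add] at h1
      refine h1.congr' ?_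
      filter_upwards [eventually_ge_atTop T1] with t ht
      rw [hlamp μ0 t ht, hFμ μ0 hm0]
  refine ⟨fun x => L x - 2 * Real.pi * Complex.I * v, hL.sub continuous_const, ?_, ?_⟩
  · intro μ hμ t
    simp only
    rw [hexp, hFμ μ hμ]
  · intro η hη
    have hcl : ContinuousAt Complex.log 1 := continuousAt_clog (by simp)
    obtain ⟨δ, hδ, hδ'⟩ := Metric.continuousAt_iff.1 hcl η hη
    obtain ⟨T2, hT21, hT2⟩ := J2a_lim (s := s) (C := C) hs δ hδ
    have hsm : ∀ μ ∈ Metric.closedBall μ0 r, ∀ t : ℝ, T2 ≤ |t| →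
        ‖Complex.log (F (μ, t))‖ ≤ η := by
      intro μ hμ t ht
      have h1 := hT2 _ (had μ hμ) t ht
      rw [← hFμ μ hμ, ← dist_eq_norm] at h1
      have h2 := hδ' h1
      rw [Complex.log_one, dist_zero_right] at h2
      exact h2.le
    refine ⟨max T1 T2, lt_of_lt_of_le (by linarith) (le_max_left _ _), fun μ hμ t =>
      ⟨fun ht => ?_, fun ht => ?_⟩⟩
    · have h1 : t ≤ -T1 := ht.trans (neg_le_neg (le_max_left _ _))
      have h2 : T2 ≤ |t| := by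
        have h3 : t ≤ -T2 := ht.trans (neg_le_neg (le_max_right _ _))
        have := neg_le_abs t
        linarith
      simp only
      rw [hlamm μ t h1]
      exact hsm μ hμ t h2
    · have h1 : T1 ≤ t := (le_max_left _ _).trans ht
      have h2 : T2 ≤ |t| := ((le_max_right _ _).trans ht).trans (le_abs_self t)
      simp only
      rw [hlamp μ t h1, hwuv, add_sub_cancel_right]
      exact hsm μ hμ t h2

end Pool.Agent.MPd01a95.KT
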