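import Mathlib
import Pool.Agent.Lib.MP_d01a95_gt_K.KDefs2
import Pool.Agent.Lib.MP_d01a95_gt_K.KJ1
import Pool.Agent.Lib.MP_d01a95_gt_K.KJW

set_option autoImplicit false
set_option linter.all false

open Matrix Filter Topology MeasureTheory
open scoped ContDiff

namespace Pool.Agent.MPd01a95.KT

/-! ### laws -/

theorem J2_sub {N N' : Set (ℂ × ℝ × ℂ)} {p q p' q' : ℂ × ℝ × ℂ → ℂ} (h : Law N p q)
    (h' : Law N' p' q') : Law (N ∩ N') (fun x => p x - p' x) (fun x => q x - q' x) := by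
  have dp : ∀ x ∈ N ∩ N', DifferentiableAt ℝ p x := fun x hx =>
    (h.smp.contDiffAt (h.isOpen.mem_nhds hx.1)).differentiableAt (by simp)
  have dq : ∀ x ∈ N ∩ N', DifferentiableAt ℝ q x := fun x hx =>
    (h.smq.contDiffAt (h.isOpen.mem_nhds hx.1)).differentiableAt (by simp)
  have dp' : ∀ x ∈ N ∩ N', DifferentiableAt ℝ p' x := fun x hx =>
    (h'.smp.contDiffAt (h'.isOpen.mem_nhds hx.2)).differentiableAt (by simp)
  have dq' : ∀ x ∈ N ∩ N', DifferentiableAt ℝ q' x := fun x hx =>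
    (h'.smq.contDiffAt (h'.isOpen.mem_nhds hx.2)).differentiableAt (by simp)
  refine ⟨h.isOpen.inter h'.isOpen, (h.smp.mono Set.inter_subset_left).sub
    (h'.smp.mono Set.inter_subset_right), (h.smq.mono Set.inter_subset_left).sub
    (h'.smq.mono Set.inter_subset_right), fun x hx => ?_, fun x hx v => ?_, fun x hx => ?_⟩
  · rw [fderiv_fun_sub (dp x hx) (dp' x hx)]
    simp only [ContinuousLinearMap.sub_apply]
    rw [h.hp x hx.1, h'.hp x hx.2, mul_sub]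
  · rw [fderiv_fun_sub (dp x hx) (dp' x hx), fderiv_fun_sub (dq x hx) (dq' x hx)]
    simp only [ContinuousLinearMap.sub_apply]
    rw [h.hq x hx.1 v, h'.hq x hx.2 v, mul_sub]
  · rw [fderiv_fun_sub (dp x hx) (dp' x hx), fderiv_fun_sub (dq x hx) (dq' x hx)]
    simp only [ContinuousLinearMap.sub_apply]
    have e1 := h.law x hx.1
    have e2 := h'.law x hx.2
    linear_combination e1 - e2

/-- laws are local -/
theorem J2_local {N : Set (ℂ × ℝ × ℂ)} (hN : IsOpen N) {p q : ℂ × ℝ × ℂ → ℂ}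
    (h : ∀ x ∈ N, ∃ N' : Set (ℂ × ℝ × ℂ), ∃ p' q' : ℂ × ℝ × ℂ → ℂ, Law N' p' q' ∧ x ∈ N' ∧
      p =ᶠ[𝓝 x] p' ∧ q =ᶠ[𝓝 x] q') : Law N p q := by
  refine ⟨hN, fun x hx => ?_, fun x hx => ?_, fun x hx => ?_, fun x hx v => ?_, fun x hx => ?_⟩
  all_goals obtain ⟨N', p', q', hL, hxN, hp, hq⟩ := h x hx
  · exact ((hL.smp.contDiffAt (hL.isOpen.mem_nhds hxN)).congr_of_eventuallyEq
      hp).contDiffWithinAt
  · exact ((hL.smq.contDiffAt (hL.isOpen.mem_nhds hxN)).congr_of_eventuallyEq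
      hq).contDiffWithinAt
  · rw [hp.fderiv_eq]
    exact hL.hp x hxN
  · rw [hp.fderiv_eq, hq.fderiv_eq]
    exact hL.hq x hxN v
  · rw [hp.fderiv_eq, hq.fderiv_eq]
    exact hL.law x hxN

theorem J2_comp {E : Type*} [NormedAddCommGroup E] [NormedSpace ℝ E] {f : E → ℂ}
    {f' : E →L[ℝ] ℂ} {x : E} {g : ℂ → ℂ} {g' : ℂ} (hg : HasDerivAt g g' (f x))
    (hf : HasFDerivAt f f' x) : HasFDerivAt (fun y => g (f y)) (g' • f') x := by
  have h := (hg.hasFDerivAt.restrictScalars ℝ).comp x hf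
  refine h.congr_fderiv ?_
  ext v
  simp [mul_comm]

/-- `star μb - star μ` as a real differentiable function -/
theorem J2_delta {E : Type*} [NormedAddCommGroup E] [NormedSpace ℝ E] (μb : ℂ) (x : ℂ × E) :
    HasFDerivAt (fun y : ℂ × E => star μb - star y.1)
      (-((Complex.conjCLE : ℂ →L[ℝ] ℂ).comp (ContinuousLinearMap.fst ℝ ℂ E))) x := by
  have h1 : HasFDerivAt (fun y : ℂ × E => star y.1)
      ((Complex.conjCLE : ℂ →L[ℝ] ℂ).comp (ContinuousLinearMap.fst ℝ ℂ E)) x :=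
    ((Complex.conjCLE : ℂ →L[ℝ] ℂ).comp (ContinuousLinearMap.fst ℝ ℂ E)).hasFDerivAt
  exact h1.const_sub (star μb)

theorem J2_delta_ne {μb μ : ℂ} (h : μ ≠ μb) : star μb - star μ ≠ 0 := by
  rw [← star_sub]
  intro e
  have := star_eq_zero.1 e
  exact h (sub_eq_zero.1 this).symm

/-- a fixed branch of the logarithm of `t + i` -/
noncomputable def J2_l (t : ℝ) : ℂ :=
  Complex.log (-Complex.I * ((t : ℂ) + Complex.I)) + Complex.log Complex.I

theorem J2_l_exp (t : ℝ) : Complex.exp (J2_l t) = (t : ℂ) + Complex.I := by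
  have hu := JW_re Complex.I (by simp) t
  have hu0 : -Complex.I * ((t : ℂ) + Complex.I) ≠ 0 := fun h => by rw [h] at hu; simp at hu
  rw [J2_l, Complex.exp_add, Complex.exp_log hu0, Complex.exp_log Complex.I_ne_zero]
  linear_combination (-((t : ℂ) + Complex.I)) * Complex.I_sq

theorem J2_l_fd (x : ℂ × ℝ × ℂ) : HasFDerivAt (fun y : ℂ × ℝ × ℂ => J2_l y.2.1)
    ((1 / ((x.2.1 : ℂ) + Complex.I)) • ((Complex.ofRealCLM.comp
      (ContinuousLinearMap.fst ℝ ℝ ℂ)).comp (ContinuousLinearMap.snd ℝ ℂ (ℝ × ℂ)))) x := by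
  have h1 : HasFDerivAt (fun y : ℂ × ℝ × ℂ => -Complex.I * ((y.2.1 : ℂ) + Complex.I))
      ((-Complex.I) • ((Complex.ofRealCLM.comp
      (ContinuousLinearMap.fst ℝ ℝ ℂ)).comp (ContinuousLinearMap.snd ℝ ℂ (ℝ × ℂ)))) x := by
    have h2 : HasFDerivAt (fun y : ℂ × ℝ × ℂ => (y.2.1 : ℂ)) ((Complex.ofRealCLM.comp
      (ContinuousLinearMap.fst ℝ ℝ ℂ)).comp (ContinuousLinearMap.snd ℝ ℂ (ℝ × ℂ))) x :=
      ((Complex.ofRealCLM.comp
      (ContinuousLinearMap.fst ℝ ℝ ℂ)).comp (ContinuousLinearMap.snd ℝ ℂ (ℝ × ℂ))).hasFDerivAt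
    exact (h2.add_const Complex.I).const_mul (-Complex.I)
  have h3 := Complex.hasDerivAt_log
    (Complex.mem_slitPlane_iff.2 (Or.inl (JW_re Complex.I (by simp) x.2.1)))
  have h4 := (J2_comp (f := fun y : ℂ × ℝ × ℂ => -Complex.I * ((y.2.1 : ℂ) + Complex.I)) h3
    h1).add_const (Complex.log Complex.I)
  refine h4.congr_fderiv (ContinuousLinearMap.ext fun v => ?_)
  simp only [ContinuousLinearMap.smul_apply, smul_eq_mul]
  have := JW_ti x.2.1
  have hI := Complex.I_ne_zero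
  field_simp

theorem J2_t_fd (x : ℂ × ℝ × ℂ) : HasFDerivAt (fun y : ℂ × ℝ × ℂ => ((y.2.1 : ℂ) + Complex.I))
    ((Complex.ofRealCLM.comp (ContinuousLinearMap.fst ℝ ℝ ℂ)).comp
      (ContinuousLinearMap.snd ℝ ℂ (ℝ × ℂ))) x :=
  ((Complex.ofRealCLM.comp (ContinuousLinearMap.fst ℝ ℝ ℂ)).comp
      (ContinuousLinearMap.snd ℝ ℂ (ℝ × ℂ))).hasFDerivAt.add_const Complex.I

theorem J2_cd_delta {E : Type*} [NormedAddCommGroup E] [NormedSpace ℝ E] (μb : ℂ) :
    ContDiff ℝ 1 (fun y : ℂ × E => star μb - star y.1) :=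
  contDiff_const.sub (Complex.conjCLE.contDiff.comp contDiff_fst)

theorem J2_cd_t : ContDiff ℝ 1 (fun y : ℂ × ℝ × ℂ => ((y.2.1 : ℂ) + Complex.I)) :=
  (Complex.ofRealCLM.contDiff.comp (contDiff_fst.comp contDiff_snd)).add contDiff_const

theorem J2_cd_l : ContDiff ℝ 1 (fun y : ℂ × ℝ × ℂ => J2_l y.2.1) := by
  unfold J2_l
  refine ContDiff.add ?_ contDiff_const
  refine contDiff_iff_contDiffAt.2 fun x => ?_
  have h1 : ContDiffAt ℝ 1 Complex.log (-Complex.I * ((x.2.1 : ℂ) + Complex.I)) :=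
    (Complex.contDiffAt_log (Complex.mem_slitPlane_iff.2
      (Or.inl (JW_re Complex.I (by simp) x.2.1)))).restrict_scalars ℝ
  exact ContDiffAt.comp x h1 (contDiff_const.mul J2_cd_t).contDiffAt

/-- a law which does not depend on `a` -/
theorem J2_triv (μb : ℂ) : Law {x : ℂ × ℝ × ℂ | x.1 ≠ μb}
    (fun x => 1 / ((star μb - star x.1) * ((x.2.1 : ℂ) + Complex.I)))
    (fun x => -(J2_l x.2.1 / (star μb - star x.1) ^ 2)) := by
  have hopen : IsOpen {x : ℂ × ℝ × ℂ | x.1 ≠ μb} :=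
    isOpen_ne.preimage continuous_fst
  have hp : ∀ x : ℂ × ℝ × ℂ, x.1 ≠ μb → HasFDerivAt
      (fun x : ℂ × ℝ × ℂ => 1 / ((star μb - star x.1) * ((x.2.1 : ℂ) + Complex.I)))
      ((-(((star μb - star x.1) * ((x.2.1 : ℂ) + Complex.I)) ^ 2)⁻¹) •
      ((star μb - star x.1) • ((Complex.ofRealCLM.comp (ContinuousLinearMap.fst ℝ ℝ ℂ)).comp
        (ContinuousLinearMap.snd ℝ ℂ (ℝ × ℂ))) + ((x.2.1 : ℂ) + Complex.I) •
        (-((Complex.conjCLE : ℂ →L[ℝ] ℂ).comp (ContinuousLinearMap.fst ℝ ℂ (ℝ × ℂ)))))) x := by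
    intro x hx
    have h1 := (J2_delta μb x).mul (J2_t_fd x)
    have h2 := hasDerivAt_inv (mul_ne_zero (J2_delta_ne hx) (JW_ti x.2.1))
    have h3 := J2_comp (f := fun y : ℂ × ℝ × ℂ => (star μb - star y.1) *
      ((y.2.1 : ℂ) + Complex.I)) h2 h1
    refine (h3.congr_of_eventuallyEq (Eventually.of_forall fun y => ?_))
    exact one_div _
  have hq : ∀ x : ℂ × ℝ × ℂ, x.1 ≠ μb → HasFDerivAt
      (fun x : ℂ × ℝ × ℂ => -(J2_l x.2.1 / (star μb - star x.1) ^ 2))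
      (-(J2_l x.2.1 • ((-(2 : ℂ) * ((star μb - star x.1) ^ 3)⁻¹) •
        (-((Complex.conjCLE : ℂ →L[ℝ] ℂ).comp (ContinuousLinearMap.fst ℝ ℂ (ℝ × ℂ))))) +
        ((star μb - star x.1) ^ 2)⁻¹ • ((1 / ((x.2.1 : ℂ) + Complex.I)) •
        ((Complex.ofRealCLM.comp (ContinuousLinearMap.fst ℝ ℝ ℂ)).comp
        (ContinuousLinearMap.snd ℝ ℂ (ℝ × ℂ)))))) x := by
    intro x hx
    have hd := J2_delta_ne hx
    have h2 : HasDerivAt (fun z : ℂ => (z ^ 2)⁻¹) (-(2 : ℂ) * ((star μb - star x.1) ^ 3)⁻¹)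
        (star μb - star x.1) := by
      have h3 := (hasDerivAt_pow 2 (star μb - star x.1)).inv (pow_ne_zero 2 hd)
      refine h3.congr_deriv ?_
      field_simp
      ring
    have h4 := J2_comp (f := fun y : ℂ × ℝ × ℂ => (star μb - star y.1)) h2 (J2_delta μb x)
    have h5 := ((J2_l_fd x).mul h4).neg
    refine h5.congr_of_eventuallyEq (Eventually.of_forall fun y => ?_)
    simp only [Pi.neg_apply, Pi.mul_apply, div_eq_mul_inv]
  refine ⟨hopen, fun x hx => ?_, fun x hx => ?_, fun x hx => ?_, fun x hx v => ?_,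
    fun x hx => ?_⟩
  · refine ContDiffAt.contDiffWithinAt ?_
    simp only [one_div]
    exact (((J2_cd_delta μb).mul J2_cd_t).contDiffAt).fun_inv
      (mul_ne_zero (J2_delta_ne hx) (JW_ti x.2.1))
  · refine ContDiffAt.contDiffWithinAt ?_
    simp only [div_eq_mul_inv]
    exact (J2_cd_l.contDiffAt.mul ((((J2_cd_delta μb).pow 2).contDiffAt).fun_inv
      (pow_ne_zero 2 (J2_delta_ne hx)))).neg
  · rw [(hp x hx).fderiv]
    simp
  · rw [(hp x hx).fderiv, (hq x hx).fderiv]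
    simp
  · rw [(hp x hx).fderiv, (hq x hx).fderiv]
    have hd := J2_delta_ne hx
    have ht := JW_ti x.2.1
    have hd' : (starRingEnd ℂ) μb - (starRingEnd ℂ) x.1 ≠ 0 := hd
    simp
    field_simp
    ring_nf
    try rw [Complex.I_sq]
    try ring

/-- a law which only depends on `μ` -/
theorem J2_cst (μb c : ℂ) : Law {x : ℂ × ℝ × ℂ | x.1 ≠ μb} (fun _ => 0)
    (fun x => c / (star μb - star x.1) ^ 2) := by
  have hopen : IsOpen {x : ℂ × ℝ × ℂ | x.1 ≠ μb} :=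
    isOpen_ne.preimage continuous_fst
  have hq : ∀ x : ℂ × ℝ × ℂ, x.1 ≠ μb → HasFDerivAt
      (fun x : ℂ × ℝ × ℂ => c / (star μb - star x.1) ^ 2)
      (c • ((-(2 : ℂ) * ((star μb - star x.1) ^ 3)⁻¹) •
        (-((Complex.conjCLE : ℂ →L[ℝ] ℂ).comp (ContinuousLinearMap.fst ℝ ℂ (ℝ × ℂ)))))) x := by
    intro x hx
    have hd := J2_delta_ne hx
    have h2 : HasDerivAt (fun z : ℂ => (z ^ 2)⁻¹) (-(2 : ℂ) * ((star μb - star x.1) ^ 3)⁻¹)
        (star μb - star x.1) := by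
      have h3 := (hasDerivAt_pow 2 (star μb - star x.1)).inv (pow_ne_zero 2 hd)
      refine h3.congr_deriv ?_
      field_simp
      ring
    have h4 := J2_comp (f := fun y : ℂ × ℝ × ℂ => (star μb - star y.1)) h2 (J2_delta μb x)
    have h5 := h4.const_mul c
    refine h5.congr_of_eventuallyEq (Eventually.of_forall fun y => ?_)
    simp only [div_eq_mul_inv]
  refine ⟨hopen, contDiffOn_const, fun x hx => ?_, fun x hx => ?_, fun x hx v => ?_,
    fun x hx => ?_⟩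
  · refine ContDiffAt.contDiffWithinAt ?_
    simp only [div_eq_mul_inv]
    exact contDiffAt_const.mul ((((J2_cd_delta μb).pow 2).contDiffAt).fun_inv
      (pow_ne_zero 2 (J2_delta_ne hx)))
  · simp
  · rw [(hq x hx).fderiv]
    simp
  · rw [(hq x hx).fderiv]
    simp

/-- the linear form with the variable `a` -/
noncomputable def J2_ell (A : ℂ → ℝ → ℂ) (μb : ℂ) (tb : ℝ) (x : ℂ × ℝ × ℂ) : ℂ :=
  (x.2.1 : ℂ) + (star μb - star x.1) * x.2.2 - kb A μb tb x.1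

theorem J2_ell_cont (A : ℂ → ℝ → ℂ) (μb : ℂ) (tb : ℝ) : Continuous (J2_ell A μb tb) := by
  unfold J2_ell kb
  have h1 : Continuous fun x : ℂ × ℝ × ℂ => star μb - star x.1 :=
    continuous_const.sub continuous_fst.star
  have h2 : Continuous fun x : ℂ × ℝ × ℂ => (x.2.1 : ℂ) := by fun_prop
  have h3 : Continuous fun x : ℂ × ℝ × ℂ => x.2.2 := by fun_prop
  exact (h2.add (h1.mul h3)).sub (continuous_const.sub (h1.star.mul continuous_const))

theorem J2_ell_el (A : ℂ → ℝ → ℂ) (μb : ℂ) (tb : ℝ) (μ : ℂ) (t : ℝ) (a : ℂ) :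
    J2_ell A μb tb (μ, t, a) = el A μb tb μ t + (star μb - star μ) * (a - A μ t) := by
  rw [el_eq]
  unfold J2_ell
  ring

/-- the global law -/
theorem J2_glob {A : ℂ → ℝ → ℂ} (hA : Ch A) (μb : ℂ) (tb : ℝ) {U : Set ℂ} (hU : IsOpen U)
    (hb : μb ∉ U) {lam : ℂ × ℝ → ℂ} (hl : Continuous lam)
    (he : ∀ μ ∈ U, ∀ t : ℝ, Complex.exp (lam (μ, t)) = el A μb tb μ t / ((t : ℂ) + Complex.I)) :
    Law {x : ℂ × ℝ × ℂ | x.1 ∈ U ∧ ‖(star μb - star x.1) * (x.2.2 - A x.1 x.2.1)‖ <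
        ‖el A μb tb x.1 x.2.1‖}
      (fun x => 1 / ((star μb - star x.1) * J2_ell A μb tb x))
      (fun x => x.2.2 / ((star μb - star x.1) * J2_ell A μb tb x) -
        (lam (x.1, x.2.1) + J2_l x.2.1 + Complex.log (J2_ell A μb tb x /
          el A μb tb x.1 x.2.1)) / (star μb - star x.1) ^ 2) := by
  have hAc : Continuous fun x : ℂ × ℝ × ℂ => A x.1 x.2.1 :=
    hA.cont.comp (by fun_prop : Continuous fun x : ℂ × ℝ × ℂ => (x.1, x.2.1))
  have hec : Continuous fun x : ℂ × ℝ × ℂ => el A μb tb x.1 x.2.1 :=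
    (el_cont hA).comp (by fun_prop : Continuous fun x : ℂ × ℝ × ℂ => ((μb, tb, x.1), x.2.1))
  have hdc : Continuous fun x : ℂ × ℝ × ℂ => star μb - star x.1 :=
    continuous_const.sub continuous_fst.star
  have hlc : Continuous fun x : ℂ × ℝ × ℂ => lam (x.1, x.2.1) :=
    hl.comp (by fun_prop : Continuous fun x : ℂ × ℝ × ℂ => (x.1, x.2.1))
  have hNo : IsOpen {x : ℂ × ℝ × ℂ | x.1 ∈ U ∧ ‖(star μb - star x.1) * (x.2.2 - A x.1 x.2.1)‖ <
        ‖el A μb tb x.1 x.2.1‖} := by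
    refine (hU.preimage continuous_fst).inter ?_
    exact isOpen_lt ((hdc.mul ((by fun_prop : Continuous fun x : ℂ × ℝ × ℂ => x.2.2).sub
      hAc)).norm) hec.norm
  refine J2_local hNo fun x hx => ?_
  obtain ⟨hxU, hxn⟩ := hx
  have hxb : x.1 ≠ μb := fun e => hb (e ▸ hxU)
  have hel : ∀ y : ℂ × ℝ × ℂ, y.1 ≠ μb → el A μb tb y.1 y.2.1 ≠ 0 := fun y hy =>
    el_ne' hA μb tb y.1 hy y.2.1
  -- the quotient is in the slit plane
  have hsl : ∀ y : ℂ × ℝ × ℂ, y.1 ∈ U → ‖(star μb - star y.1) * (y.2.2 - A y.1 y.2.1)‖ <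
        ‖el A μb tb y.1 y.2.1‖ → J2_ell A μb tb y / el A μb tb y.1 y.2.1 ∈
          Complex.slitPlane := by
    intro y hy1 hy2
    have hyb : y.1 ≠ μb := fun e => hb (e ▸ hy1)
    refine JW_slit ?_
    have e1 : J2_ell A μb tb y / el A μb tb y.1 y.2.1 - 1 =
        (star μb - star y.1) * (y.2.2 - A y.1 y.2.1) / el A μb tb y.1 y.2.1 := by
      have := J2_ell_el A μb tb y.1 y.2.1 y.2.2
      have h0 := hel y hyb
      rw [div_sub_one h0]
      congr 1
      rw [show y = (y.1, y.2.1, y.2.2) from rfl, this]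
      simp
    rw [e1, norm_div, div_lt_one (norm_pos_iff.2 (hel y hyb))]
    exact hy2
  obtain ⟨LL, hLL⟩ : ∃ LL : ℂ × ℝ × ℂ → ℂ, LL = fun y => lam (y.1, y.2.1) + J2_l y.2.1 +
    Complex.log (J2_ell A μb tb y / el A μb tb y.1 y.2.1) := ⟨_, rfl⟩
  have hexp : ∀ y : ℂ × ℝ × ℂ, y.1 ∈ U → ‖(star μb - star y.1) * (y.2.2 - A y.1 y.2.1)‖ <
        ‖el A μb tb y.1 y.2.1‖ → Complex.exp (LL y) = J2_ell A μb tb y := by
    intro y hy1 hy2
    have hyb : y.1 ≠ μb := fun e => hb (e ▸ hy1)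
    have h0 := hel y hyb
    have ht := JW_ti y.2.1
    rw [hLL]
    simp only
    rw [Complex.exp_add, Complex.exp_add, he y.1 hy1, J2_l_exp, Complex.exp_log
      (Complex.slitPlane_ne_zero (hsl y hy1 hy2))]
    field_simp
  have hx0 : J2_ell A μb tb x ≠ 0 := by
    rw [← hexp x hxU hxn]
    exact Complex.exp_ne_zero _
  have hLLc : ContinuousAt LL x := by
    rw [hLL]
    refine ContinuousAt.add (hlc.continuousAt.add J2_cd_l.continuous.continuousAt) ?_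
    refine ContinuousAt.clog ?_ (hsl x hxU hxn)
    exact (J2_ell_cont A μb tb).continuousAt.div hec.continuousAt (hel x hxb)
  have hw0 : (J2_ell A μb tb x)⁻¹ ≠ 0 := inv_ne_zero hx0
  have hws : (J2_ell A μb tb x)⁻¹ * J2_ell A μb tb x ∈ Complex.slitPlane := by
    rw [inv_mul_cancel₀ hx0]
    exact Complex.one_mem_slitPlane
  have hDc : ContinuousAt (fun y => LL y - Complex.log ((J2_ell A μb tb x)⁻¹ *
      J2_ell A μb tb y) - LL x) x := by
    refine (hLLc.sub ?_).sub continuousAt_const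
    refine ContinuousAt.clog ?_ hws
    exact continuousAt_const.mul (J2_ell_cont A μb tb).continuousAt
  have hD0 : LL x - Complex.log ((J2_ell A μb tb x)⁻¹ * J2_ell A μb tb x) - LL x = 0 := by
    rw [inv_mul_cancel₀ hx0, Complex.log_one]
    ring
  have hev : ∀ᶠ y in 𝓝 x, LL y - Complex.log ((J2_ell A μb tb x)⁻¹ *
      J2_ell A μb tb y) - LL x = 0 := by
    have h1 : ∀ᶠ y in 𝓝 x, ‖LL y - Complex.log ((J2_ell A μb tb x)⁻¹ *
      J2_ell A μb tb y) - LL x‖ < 1 := by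
      have h2 := hDc.norm.tendsto
      rw [hD0, norm_zero] at h2
      exact h2.eventually_lt_const one_pos
    have h3 : ∀ᶠ y in 𝓝 x, y ∈ {x : ℂ × ℝ × ℂ | x.1 ∈ U ∧
        ‖(star μb - star x.1) * (x.2.2 - A x.1 x.2.1)‖ < ‖el A μb tb x.1 x.2.1‖} :=
      hNo.mem_nhds ⟨hxU, hxn⟩
    filter_upwards [h1, h3] with y hy1 hy2
    have hy0 : J2_ell A μb tb y ≠ 0 := by
      rw [← hexp y hy2.1 hy2.2]
      exact Complex.exp_ne_zero _
    have h4 : Complex.exp (LL y - Complex.log ((J2_ell A μb tb x)⁻¹ *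
      J2_ell A μb tb y) - LL x) = 1 := by
      rw [Complex.exp_sub, Complex.exp_sub, hexp y hy2.1 hy2.2, hexp x hxU hxn,
        Complex.exp_log (mul_ne_zero hw0 hy0)]
      field_simp
    obtain ⟨n, hn⟩ := Complex.exp_eq_one_iff.1 h4
    rw [hn] at hy1 ⊢
    have h5 : ‖(n : ℂ) * (2 * Real.pi * Complex.I)‖ = |(n : ℝ)| * (2 * Real.pi) := by
      rw [norm_mul, norm_mul, norm_mul, Complex.norm_I, Complex.norm_real, Real.norm_eq_abs,
        abs_of_pos Real.pi_pos, Complex.norm_two, mul_one, Complex.norm_intCast]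
    rw [h5] at hy1
    have hn0 : n = 0 := by
      by_contra hne
      have h6 : (1 : ℝ) ≤ |(n : ℝ)| := by
        have := Int.one_le_abs hne
        exact_mod_cast this
      have h7 := Real.pi_gt_three
      nlinarith
    rw [hn0]
    simp
  -- the local law
  have hl1 := law_log A μb tb (J2_ell A μb tb x)⁻¹ hw0
  have hl2 := J2_cst μb (LL x)
  refine ⟨_, _, _, J2_sub hl1 hl2, ⟨⟨hxb, hws⟩, hxb⟩, ?_, ?_⟩
  · refine Eventually.of_forall fun y => ?_
    simp only [sub_zero]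
    rfl
  · filter_upwards [hev] with y hy
    have h8 : LL y = Complex.log ((J2_ell A μb tb x)⁻¹ * J2_ell A μb tb y) + LL x := by
      linear_combination hy
    have h9 : lam (y.1, y.2.1) + J2_l y.2.1 + Complex.log (J2_ell A μb tb y /
        el A μb tb y.1 y.2.1) = LL y := by rw [hLL]
    rw [h9, h8]
    unfold J2_ell
    ring

/-- module J2b: the weak law with the continuous logarithm -/
theorem J2_pair {A : ℂ → ℝ → ℂ} (hA : Ch A) (hW : WL A) (μb : ℂ) (tb : ℝ) {U : Set ℂ}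
    (hU : IsOpen U) (hb : μb ∉ U) {lam : ℂ × ℝ → ℂ} (hl : Continuous lam)
    (he : ∀ μ ∈ U, ∀ t : ℝ, Complex.exp (lam (μ, t)) = el A μb tb μ t / ((t : ℂ) + Complex.I))
    (Φ : ℂ × ℝ → ℂ) (h1 : ContDiff ℝ 1 Φ) (h2 : HasCompactSupport Φ)
    (h3 : ∀ x ∈ tsupport Φ, x.1 ∈ U) :
    ∫ x : ℂ × ℝ, ((1 / ((star μb - star x.1) * el A μb tb x.1 x.2) -
        1 / ((star μb - star x.1) * ((x.2 : ℂ) + Complex.I))) * dbm Φ x +
      (A x.1 x.2 / ((star μb - star x.1) * el A μb tb x.1 x.2) -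
        lam x / (star μb - star x.1) ^ 2) * dtm Φ x) = 0 := by
  have hL := J2_sub (J2_glob hA μb tb hU hb hl he) (J2_triv μb)
  have h4 := hW _ _ _ hL Φ h1 h2 (fun x hx => by
    have hxb : x.1 ≠ μb := fun e => hb (e ▸ h3 x hx)
    refine ⟨⟨h3 x hx, ?_⟩, hxb⟩
    simp only [sub_self, mul_zero, norm_zero]
    exact norm_pos_iff.2 (el_ne' hA μb tb x.1 hxb x.2))
  rw [← h4]
  unfold TT
  refine integral_congr_ae (Eventually.of_forall fun x => ?_)
  simp only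
  have e1 : J2_ell A μb tb (x.1, x.2, A x.1 x.2) = el A μb tb x.1 x.2 := by
    rw [J2_ell_el]
    ring
  rw [e1]
  by_cases hxb : x.1 = μb
  · rw [hxb]
    simp
  · rw [div_self (el_ne' hA μb tb x.1 hxb x.2), Complex.log_one]
    ring

end Pool.Agent.MPd01a95.KT
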