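import Mathlib
import Pool.Agent.Lib.MP_d01a95_gt_K.KDefs2
import Pool.Agent.Lib.MP_d01a95_gt_K.KJ1
import Pool.Agent.Lib.MP_d01a95_gt_K.KJW

set_option autoImplicit false
set_option linter.all false

open Matrix Filter Topology MeasureTheory
open scoped ContDiff

namespace Pool.Agent.MPd01a95.KT

/-- products with functions vanishing near a point are continuous -/
theorem J2c_cont {X : Type*} [TopologicalSpace X] {b : ℂ} {g : ℂ → ℂ} (hg : Continuous g)
    (hb : ∀ᶠ y in 𝓝 b, g y = 0) {p : X → ℂ} (hp : Continuous p) {f : X → ℂ}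
    (hf : ∀ x, p x ≠ b → ContinuousAt f x) : Continuous fun x => g (p x) * f x := by
  rw [continuous_iff_continuousAt]
  intro x
  by_cases h : p x = b
  · have h1 : ∀ᶠ y in 𝓝 (p x), g y = 0 := by rw [h]; exact hb
    have h2 : (fun x => g (p x) * f x) =ᶠ[𝓝 x] fun _ => 0 := by
      filter_upwards [hp.continuousAt.eventually h1] with y hy
      rw [hy, zero_mul]
    exact continuousAt_const.congr h2.symm
  · exact (hg.comp hp).continuousAt.mul (hf x h)

/-- cut-off functions -/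
theorem J2c_cut : ∃ N : ℝ, ∃ ρ : ℕ → ℝ → ℝ, ∀ n : ℕ, ContDiff ℝ 1 (ρ n) ∧
    HasCompactSupport (ρ n) ∧ (∀ t : ℝ, |ρ n t| ≤ 1) ∧ (∀ t : ℝ, |t| ≤ n + 1 → ρ n t = 1) ∧
    (∀ t : ℝ, |t| < n + 1 → deriv (ρ n) t = 0) ∧ ∫ t : ℝ, |deriv (ρ n) t| ≤ N := by
  let η : ContDiffBump (0 : ℝ) := ⟨1, 2, one_pos, one_lt_two⟩
  refine ⟨∫ t, |deriv η t|, fun n t => η (t / (n + 1)), fun n => ?_⟩
  have hn : (0 : ℝ) < n + 1 := by positivity
  have hc : ContDiff ℝ 1 (fun t : ℝ => η (t / (n + 1))) :=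
    η.contDiff.comp (contDiff_id.div_const _)
  have h1 : ∀ t : ℝ, |t| ≤ n + 1 → η (t / (n + 1)) = 1 := by
    intro t ht
    refine η.one_of_mem_closedBall ?_
    rw [mem_closedBall_zero_iff, Real.norm_eq_abs, abs_div, abs_of_pos hn, div_le_iff₀ hn]
    change |t| ≤ 1 * _
    linarith
  refine ⟨hc, ?_, fun t => ?_, h1, fun t ht => ?_, ?_⟩
  · have := η.hasCompactSupport.comp_homeomorph (Homeomorph.mulRight₀ ((n : ℝ) + 1)⁻¹
      (inv_ne_zero hn.ne'))
    exact this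
  · rw [abs_of_nonneg η.nonneg]
    exact η.le_one
  · have : (fun t : ℝ => η (t / (n + 1))) =ᶠ[𝓝 t] fun _ => 1 := by
      filter_upwards [(continuous_abs.continuousAt (x := t)).eventually_lt_const ht] with y hy
      exact h1 y hy.le
    rw [this.deriv_eq]
    exact deriv_const _ _
  · have hd : ∀ t : ℝ, deriv (fun t : ℝ => η (t / (n + 1))) t = deriv η (t / (n + 1)) / (n + 1) := by
      intro t
      have e1 : HasDerivAt (fun t : ℝ => t / ((n : ℝ) + 1)) (1 / ((n : ℝ) + 1)) t :=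
        (hasDerivAt_id t).div_const _
      have e2 : HasDerivAt η (deriv η (t / (n + 1))) (t / (n + 1)) :=
        (η.contDiff (n := 1)).differentiable (by simp) |>.differentiableAt.hasDerivAt
      have e3 := e2.comp t e1
      rw [show (fun t : ℝ => η (t / (n + 1))) = η ∘ fun t : ℝ => t / ((n : ℝ) + 1) from rfl,
        e3.deriv]
      ring
    have e4 := Measure.integral_comp_div (fun t : ℝ => |deriv η t| / (n + 1)) ((n : ℝ) + 1)
    have e5 : (∫ t : ℝ, |deriv (fun t : ℝ => η (t / (n + 1))) t|) =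
        ∫ t : ℝ, (fun t : ℝ => |deriv η t| / ((n : ℝ) + 1)) (t / (n + 1)) := by
      refine integral_congr_ae (Eventually.of_forall fun t => ?_)
      simp only
      rw [hd t, abs_div, abs_of_pos hn]
    rw [e5, e4, integral_div, abs_of_pos hn, smul_eq_mul, mul_div_cancel₀ _ hn.ne']

theorem J2c_el_cont {A : ℂ → ℝ → ℂ} (hA : Ch A) (μb : ℂ) (tb : ℝ) :
    Continuous fun x : ℂ × ℝ => el A μb tb x.1 x.2 :=
  (el_cont hA).comp (by fun_prop : Continuous fun x : ℂ × ℝ => ((μb, tb, x.1), x.2))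

/-- the kernel is continuous outside the centre -/
theorem J2c_k_cont {A : ℂ → ℝ → ℂ} (hA : Ch A) (μb : ℂ) (tb : ℝ) (x : ℂ × ℝ) (h : x.1 ≠ μb) :
    ContinuousAt (fun x : ℂ × ℝ => 1 / ((x.2 : ℂ) + Complex.I) - 1 / el A μb tb x.1 x.2) x := by
  refine ContinuousAt.sub ?_ ?_
  · exact ContinuousAt.div continuousAt_const (by fun_prop) (JW_ti x.2)
  · exact ContinuousAt.div continuousAt_const (J2c_el_cont hA μb tb).continuousAt
      (el_ne' hA μb tb x.1 h x.2)

/-- uniform bound of the kernel -/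
theorem J2c_bound {A : ℂ → ℝ → ℂ} (hA : Ch A) (μb : ℂ) (tb : ℝ) {K : Set ℂ} (hK : IsCompact K)
    (hb : μb ∉ K) : ∃ B s : ℝ, 0 < s ∧ ∀ μ ∈ K, ∀ t : ℝ,
      ‖1 / ((t : ℂ) + Complex.I) - 1 / el A μb tb μ t‖ ≤ B * (1 + |t|) ^ (-(1 + s)) := by
  obtain ⟨s, hs, hnear⟩ := el_near hA
  obtain ⟨R, hR⟩ := hK.isBounded.exists_norm_le
  obtain ⟨C, hC⟩ := hnear (max (max ‖μb‖ |tb|) R)
  obtain ⟨r, hr0, hr1, hrs⟩ : ∃ r : ℝ, 0 < r ∧ r < 1 ∧ r ≤ s :=
    ⟨min s (1 / 2), lt_min hs (by norm_num), (min_le_right _ _).trans_lt (by norm_num),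
      min_le_left _ _⟩
  obtain ⟨T, hT1, hT⟩ := JW_large r |C| hr0
  have hcon : ContinuousOn (fun x : ℂ × ℝ => 1 / ((x.2 : ℂ) + Complex.I) -
      1 / el A μb tb x.1 x.2) (K ×ˢ Set.Icc (-T) T) := fun x hx =>
    (J2c_k_cont hA μb tb x fun e => hb (e ▸ hx.1)).continuousWithinAt
  obtain ⟨M, hM⟩ := (hK.prod isCompact_Icc).exists_bound_of_continuousOn hcon
  refine ⟨max (8 * (|C| + 1)) (max M 0 * (1 + T) ^ (1 + r)), r, hr0, fun μ hμ t => ?_⟩
  have hn : ‖el A μb tb μ t - t‖ ≤ C * (1 + |t|) ^ (1 - s) :=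
    hC μb tb μ ((le_max_left _ _).trans (le_max_left _ _))
      ((le_max_right _ _).trans (le_max_left _ _)) ((hR μ hμ).trans (le_max_right _ _)) t
  by_cases ht : T ≤ |t|
  · have h3 := JW_tail (abs_nonneg C) hr1 (hT1.trans ht) (hn.trans (JW_mono hrs t)) (hT t ht)
    exact h3.trans (mul_le_mul_of_nonneg_right (le_max_left _ _) (by positivity))
  · push Not at ht
    have h3 := (hM (μ, t) ⟨hμ, Set.mem_Icc.2 (abs_le.1 ht.le)⟩).trans (le_max_left M 0)
    exact (JW_mid (le_max_right M 0) hr0 h3 ht.le).trans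
      (mul_le_mul_of_nonneg_right (le_max_right _ _) (by positivity))

/-- the quotient is small at infinity -/
theorem J2c_quot {A : ℂ → ℝ → ℂ} (hA : Ch A) (μb : ℂ) (tb : ℝ) {K : Set ℂ} (hK : IsCompact K)
    {ε : ℝ} (hε : 0 < ε) : ∃ T : ℝ, 0 < T ∧ ∀ μ ∈ K, ∀ t : ℝ, T ≤ |t| →
      ‖A μ t‖ ≤ ε * ‖el A μb tb μ t‖ := by
  obtain ⟨s, hs, hnear⟩ := el_near hA
  obtain ⟨e, he, hg⟩ := hA.grow
  obtain ⟨R, hR⟩ := hK.isBounded.exists_norm_le
  obtain ⟨C, hC⟩ := hnear (max (max ‖μb‖ |tb|) R)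
  obtain ⟨C', hC'⟩ := hg R
  obtain ⟨T, hT1, hT⟩ := JW_large s C hs
  obtain ⟨T', hT1', hT'⟩ := JW_large e (C' / ε) he
  refine ⟨max T T', lt_max_of_lt_left (by linarith), fun μ hμ t ht => ?_⟩
  have hn : ‖el A μb tb μ t - t‖ ≤ C * (1 + |t|) ^ (1 - s) :=
    hC μb tb μ ((le_max_left _ _).trans (le_max_left _ _))
      ((le_max_right _ _).trans (le_max_left _ _)) ((hR μ hμ).trans (le_max_right _ _)) t
  have h1 := JW_norm_ge hn (hT t ((le_max_left _ _).trans ht))
  have h2 := hT' t ((le_max_right _ _).trans ht)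
  have h3 := hC' μ t (hR μ hμ)
  have h4 : C' * (1 + |t|) ^ (1 - e) ≤ ε * (|t| / 2) := by
    have : C' * (1 + |t|) ^ (1 - e) = ε * (C' / ε * (1 + |t|) ^ (1 - e)) := by
      field_simp
    rw [this]
    exact mul_le_mul_of_nonneg_left h2 hε.le
  exact h3.trans (h4.trans (mul_le_mul_of_nonneg_left h1 hε.le))

/-- integration by parts -/
theorem J2c_parts (μb : ℂ) (φ : ℂ → ℝ) (h1 : ContDiff ℝ 1 φ) (h2 : HasCompactSupport φ)
    (h3 : μb ∉ tsupport φ) :
    ∫ μ : ℂ, ((1 / 2 : ℂ) * ((fderiv ℝ φ μ 1 : ℂ) + Complex.I * (fderiv ℝ φ μ Complex.I : ℂ)) *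
      (star μb - star μ)⁻¹ + (φ μ : ℂ) * ((star μb - star μ)⁻¹) ^ 2) = 0 := by
  have hz : ∀ μ, μ ∉ tsupport φ → φ =ᶠ[𝓝 μ] fun _ => 0 := fun μ h =>
    notMem_tsupport_iff_eventuallyEq.1 h
  let F : ℂ → ℂ := fun μ => (φ μ : ℂ) * (star μb - star μ)⁻¹
  have hde : ∀ μ ∈ tsupport φ, star μb - star μ ≠ 0 := by
    intro μ hμ e
    rw [← star_sub, star_eq_zero, sub_eq_zero] at e
    exact h3 (e ▸ hμ)
  let F' : ℂ → ℂ →L[ℝ] ℂ := fun μ => (φ μ : ℂ) • (((star μb - star μ)⁻¹) ^ 2 •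
      (Complex.conjCLE : ℂ →L[ℝ] ℂ)) +
      (star μb - star μ)⁻¹ • (Complex.ofRealCLM.comp (fderiv ℝ φ μ))
  have hF : ∀ μ, HasFDerivAt F (F' μ) μ := by
    intro μ
    by_cases hμ : μ ∈ tsupport φ
    · have e1 : HasFDerivAt (fun μ => (φ μ : ℂ)) (Complex.ofRealCLM.comp (fderiv ℝ φ μ)) μ :=
        Complex.ofRealCLM.hasFDerivAt.comp μ
          ((h1.differentiable (by simp)).differentiableAt.hasFDerivAt)
      have e2 : HasFDerivAt (fun μ : ℂ => star μb - star μ) (-(Complex.conjCLE : ℂ →L[ℝ] ℂ)) μ :=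
        (Complex.conjCLE : ℂ →L[ℝ] ℂ).hasFDerivAt.const_sub (star μb)
      have e3 : HasFDerivAt (fun μ : ℂ => (star μb - star μ)⁻¹)
          (((star μb - star μ)⁻¹) ^ 2 • (Complex.conjCLE : ℂ →L[ℝ] ℂ)) μ := by
        have e4 := ((hasDerivAt_inv (hde μ hμ)).hasFDerivAt.restrictScalars ℝ).comp μ e2
        refine e4.congr_fderiv (ContinuousLinearMap.ext fun v => ?_)
        simp
        ring
      exact e1.mul e3
    · have e1 : F =ᶠ[𝓝 μ] fun _ => 0 := by
        filter_upwards [hz μ hμ] with y hy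
        simp only [F]
        rw [hy]
        simp
      have e2 : F' μ = 0 := by
        simp only [F']
        rw [(hz μ hμ).fderiv_eq, (hz μ hμ).eq_of_nhds]
        ext v
        simp
      rw [e2]
      exact (hasFDerivAt_const (0 : ℂ) μ).congr_of_eventuallyEq e1
  have hcs : HasCompactSupport F := HasCompactSupport.intro h2 fun x hx => by
    simp only [F]
    rw [image_eq_zero_of_notMem_tsupport hx]
    simp
  have hbe : ∀ᶠ y in 𝓝 μb, y ∉ tsupport φ := (isClosed_tsupport φ).isOpen_compl.mem_nhds h3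
  have hcd : ∀ v : ℂ, Continuous fun μ => F' μ v := by
    intro v
    have e1 : Continuous fun μ => (φ μ : ℂ) * (((star μb - star μ)⁻¹) ^ 2 * star v) := by
      refine J2c_cont (b := μb) (g := fun μ => (φ μ : ℂ))
        (Complex.continuous_ofReal.comp h1.continuous) ?_ continuous_id fun μ hμ => ?_
      · filter_upwards [hbe] with y hy
        rw [image_eq_zero_of_notMem_tsupport hy]
        simp
      · have : star μb - star μ ≠ 0 := fun e => by
          rw [← star_sub, star_eq_zero, sub_eq_zero] at e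
          exact hμ e.symm
        have e5 : ContinuousAt (fun μ : ℂ => star μb - star μ) μ := by fun_prop
        exact ((e5.inv₀ this).pow 2).mul continuousAt_const
    have e2 : Continuous fun μ => ((fderiv ℝ φ μ v : ℝ) : ℂ) * (star μb - star μ)⁻¹ := by
      refine J2c_cont (b := μb) (g := fun μ => ((fderiv ℝ φ μ v : ℝ) : ℂ))
        (Complex.continuous_ofReal.comp ((h1.continuous_fderiv (by simp)).clm_apply
          continuous_const)) ?_ continuous_id fun μ hμ => ?_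
      · filter_upwards [hbe] with y hy
        rw [(hz y hy).fderiv_eq]
        simp
      · have : star μb - star μ ≠ 0 := fun e => by
          rw [← star_sub, star_eq_zero, sub_eq_zero] at e
          exact hμ e.symm
        have e5 : ContinuousAt (fun μ : ℂ => star μb - star μ) μ := by fun_prop
        exact e5.inv₀ this
    refine (e1.add e2).congr fun μ => ?_
    simp [F']
    ring
  have hfd : ∀ μ, fderiv ℝ F μ = F' μ := fun μ => (hF μ).fderiv
  have key : ∀ v : ℂ, ∫ μ : ℂ, F' μ v = 0 := by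
    intro v
    have i1 : Integrable fun μ => F' μ v := by
      refine (hcd v).integrable_of_hasCompactSupport ?_
      refine HasCompactSupport.intro h2 fun x hx => ?_
      simp only [F']
      rw [(hz x hx).fderiv_eq, (hz x hx).eq_of_nhds]
      simp
    have i2 : Integrable F := by
      have hc : Continuous F := continuous_iff_continuousAt.2 fun μ => (hF μ).continuousAt
      exact hc.integrable_of_hasCompactSupport hcs
    have := integral_mul_fderiv_eq_neg_fderiv_mul_of_integrable (𝕜 := ℂ) (μ := volume)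
      (f := fun _ : ℂ => (1 : ℂ)) (g := F) (v := v) (by simp) (by simpa [hfd] using i1)
      (by simpa using i2) (fun μ _ => differentiableAt_const _)
      (fun μ _ => (hF μ).differentiableAt)
    simpa [hfd] using this
  have k1 := key 1
  have k2 := key Complex.I
  have i : ∀ v : ℂ, Integrable fun μ => F' μ v := by
    intro v
    refine (hcd v).integrable_of_hasCompactSupport ?_
    refine HasCompactSupport.intro h2 fun x hx => ?_
    simp only [F']
    rw [(hz x hx).fderiv_eq, (hz x hx).eq_of_nhds]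
    simp
  have e : (∫ μ : ℂ, ((1 / 2 : ℂ) * ((fderiv ℝ φ μ 1 : ℂ) +
      Complex.I * (fderiv ℝ φ μ Complex.I : ℂ)) *
      (star μb - star μ)⁻¹ + (φ μ : ℂ) * ((star μb - star μ)⁻¹) ^ 2)) =
      (1 / 2 : ℂ) * ((∫ μ : ℂ, F' μ 1) + Complex.I * ∫ μ : ℂ, F' μ Complex.I) := by
    rw [← integral_const_mul, ← integral_add (i 1) ((i Complex.I).const_mul _),
      ← integral_const_mul]
    refine integral_congr_ae (Eventually.of_forall fun μ => ?_)
    obtain ⟨z, hz'⟩ : ∃ z : ℂ, z = (star μb - star μ)⁻¹ := ⟨_, rfl⟩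
    have a1 : F' μ 1 = (φ μ : ℂ) * (z ^ 2 * 1) + z * (fderiv ℝ φ μ 1 : ℂ) := by
      simp only [F', hz']
      simp
    have a2 : F' μ Complex.I = (φ μ : ℂ) * (z ^ 2 * (-Complex.I)) +
        z * (fderiv ℝ φ μ Complex.I : ℂ) := by
      simp only [F', hz']
      simp
    beta_reduce
    rw [a1, a2, ← hz']
    linear_combination ((1 / 2 : ℂ) * (φ μ : ℂ) * z ^ 2) * Complex.I_sq
  rw [e, k1, k2]
  simp

/-- module J2c: the limit of the weak law -/
theorem J2_lim {A : ℂ → ℝ → ℂ} (hA : Ch A) (μb : ℂ) (tb : ℝ) (w : ℤ) {μ0 : ℂ} {r : ℝ}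
    (hb : μb ∉ Metric.closedBall μ0 r) {lam : ℂ × ℝ → ℂ} (hl : Continuous lam)
    (hlim : ∀ η : ℝ, 0 < η → ∃ T : ℝ, 0 < T ∧ ∀ μ ∈ Metric.closedBall μ0 r, ∀ t : ℝ,
        (t ≤ -T → ‖lam (μ, t)‖ ≤ η) ∧
        (T ≤ t → ‖lam (μ, t) - 2 * Real.pi * Complex.I * w‖ ≤ η))
    (hpair : ∀ Φ : ℂ × ℝ → ℂ, ContDiff ℝ 1 Φ → HasCompactSupport Φ →
      (∀ x ∈ tsupport Φ, x.1 ∈ Metric.ball μ0 r) →
      ∫ x : ℂ × ℝ, ((1 / ((star μb - star x.1) * el A μb tb x.1 x.2) -
          1 / ((star μb - star x.1) * ((x.2 : ℂ) + Complex.I))) * dbm Φ x +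
        (A x.1 x.2 / ((star μb - star x.1) * el A μb tb x.1 x.2) -
          lam x / (star μb - star x.1) ^ 2) * dtm Φ x) = 0)
    (φ : ℂ → ℝ) (h1 : ContDiff ℝ ∞ φ) (h2 : HasCompactSupport φ)
    (h3 : tsupport φ ⊆ Metric.ball μ0 r) :
    ∫ μ : ℂ, (II A μb tb μ + 2 * Real.pi * Complex.I * w) / (star μb - star μ) *
      (fderiv ℝ φ μ 1 + Complex.I * fderiv ℝ φ μ Complex.I) = 0 := by
  obtain ⟨N, ρ, hρ⟩ := J2c_cut
  have hKc : IsCompact (tsupport φ) := h2
  have hbK : μb ∉ tsupport φ := fun h => hb (Metric.ball_subset_closedBall (h3 h))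
  have hφc : ContDiff ℝ 1 φ := h1.of_le (by simp)
  have hz : ∀ μ, μ ∉ tsupport φ → φ =ᶠ[𝓝 μ] fun _ => 0 := fun μ h =>
    notMem_tsupport_iff_eventuallyEq.1 h
  have hbe : ∀ᶠ y in 𝓝 μb, y ∉ tsupport φ := (isClosed_tsupport φ).isOpen_compl.mem_nhds hbK
  obtain ⟨ψ, hψ⟩ : ∃ ψ : ℂ → ℂ, ∀ μ, ψ μ = (1 / 2 : ℂ) * ((fderiv ℝ φ μ 1 : ℂ) +
    Complex.I * (fderiv ℝ φ μ Complex.I : ℂ)) := ⟨_, fun _ => rfl⟩
  have hψc : Continuous ψ := by
    have h4 : ∀ v : ℂ, Continuous fun μ => ((fderiv ℝ φ μ v : ℝ) : ℂ) := fun v =>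
      Complex.continuous_ofReal.comp ((hφc.continuous_fderiv (by simp)).clm_apply continuous_const)
    refine (continuous_const.mul ((h4 1).add (continuous_const.mul (h4 Complex.I)))).congr
      fun μ => (hψ μ).symm
  have hψ0 : ∀ μ, μ ∉ tsupport φ → ψ μ = 0 := fun μ h => by
    rw [hψ, (hz μ h).fderiv_eq]
    simp
  have hφ0 : ∀ μ, μ ∉ tsupport φ → φ μ = 0 := fun μ h => (hz μ h).eq_of_nhds
  have hφC : Continuous fun μ => (φ μ : ℂ) := Complex.continuous_ofReal.comp hφc.continuous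
  obtain ⟨d, hd⟩ : ∃ d : ℂ → ℂ, ∀ μ, d μ = (star μb - star μ)⁻¹ := ⟨_, fun _ => rfl⟩
  have hdc : ∀ μ, μ ≠ μb → ContinuousAt d μ := by
    intro μ hμ
    have h4 : star μb - star μ ≠ 0 := fun e => by
      rw [← star_sub, star_eq_zero, sub_eq_zero] at e
      exact hμ e.symm
    have e5 : ContinuousAt (fun μ : ℂ => star μb - star μ) μ := by fun_prop
    exact (e5.inv₀ h4).congr (Eventually.of_forall fun y => (hd y).symm)
  have hψb : ∀ᶠ y in 𝓝 μb, ψ y = 0 := hbe.mono fun y hy => hψ0 y hy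
  have hφb : ∀ᶠ y in 𝓝 μb, (φ y : ℂ) = 0 := hbe.mono fun y hy => by rw [hφ0 y hy]; simp
  have hG1 : Continuous fun μ => ψ μ * d μ := J2c_cont hψc hψb continuous_id hdc
  have hG2 : Continuous fun μ => (φ μ : ℂ) * d μ ^ 2 :=
    J2c_cont hφC hφb continuous_id fun μ hμ => (hdc μ hμ).pow 2
  have iG1 : Integrable fun μ => ψ μ * d μ := hG1.integrable_of_hasCompactSupport
    (HasCompactSupport.intro hKc fun x hx => by rw [hψ0 x hx, zero_mul])
  have iG2 : Integrable fun μ => (φ μ : ℂ) * d μ ^ 2 := hG2.integrable_of_hasCompactSupport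
    (HasCompactSupport.intro hKc fun x hx => by rw [hφ0 x hx]; simp)
  have iφ : Integrable φ := hφc.continuous.integrable_of_hasCompactSupport h2
  obtain ⟨k, hk⟩ : ∃ k : ℂ × ℝ → ℂ, ∀ x, k x = 1 / ((x.2 : ℂ) + Complex.I) -
    1 / el A μb tb x.1 x.2 := ⟨_, fun _ => rfl⟩
  have hkc : ∀ x : ℂ × ℝ, x.1 ≠ μb → ContinuousAt k x := fun x hx =>
    (J2c_k_cont hA μb tb x hx).congr (Eventually.of_forall fun y => (hk y).symm)
  have hd1 : ∀ x : ℂ × ℝ, x.1 ≠ μb → ContinuousAt (fun x : ℂ × ℝ => d x.1) x := fun x hx =>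
    (hdc x.1 hx).comp (f := fun x : ℂ × ℝ => x.1) continuousAt_fst
  obtain ⟨P, hP⟩ : ∃ P : ℂ × ℝ → ℂ, ∀ x, P x = ψ x.1 * (d x.1 * k x) := ⟨_, fun _ => rfl⟩
  have hPc : Continuous P := by
    refine (J2c_cont (b := μb) hψc hψb (p := fun x : ℂ × ℝ => x.1) continuous_fst
      (f := fun x => d x.1 * k x) fun x hx => ?_).congr fun x => (hP x).symm
    exact (hd1 x hx).mul (hkc x hx)
  obtain ⟨H, hH⟩ : ∃ H : ℂ × ℝ → ℂ, ∀ x, H x = (φ x.1 : ℂ) *
    (A x.1 x.2 * (d x.1 * (el A μb tb x.1 x.2)⁻¹) - lam x * d x.1 ^ 2) := ⟨_, fun _ => rfl⟩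
  have hHc : Continuous H := by
    refine (J2c_cont (b := μb) hφC hφb (p := fun x : ℂ × ℝ => x.1) continuous_fst
      (f := fun x => A x.1 x.2 * (d x.1 * (el A μb tb x.1 x.2)⁻¹) - lam x * d x.1 ^ 2)
      fun x hx => ?_).congr fun x => (hH x).symm
    refine ContinuousAt.sub ?_ ?_
    · exact hA.cont.continuousAt.mul ((hd1 x hx).mul
        ((J2c_el_cont hA μb tb).continuousAt.inv₀ (el_ne' hA μb tb x.1 hx x.2)))
    · exact hl.continuousAt.mul ((hd1 x hx).pow 2)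
  have hρc : ∀ n, Continuous fun t => ((ρ n t : ℝ) : ℂ) := fun n =>
    Complex.continuous_ofReal.comp (hρ n).1.continuous
  have hρd : ∀ n, Continuous fun t => ((deriv (ρ n) t : ℝ) : ℂ) := fun n =>
    Complex.continuous_ofReal.comp ((hρ n).1.continuous_deriv (by simp))
  have hρ0 : ∀ n t, t ∉ tsupport (ρ n) → ρ n t = 0 := fun n t h =>
    image_eq_zero_of_notMem_tsupport h
  have hρd0 : ∀ n t, t ∉ tsupport (ρ n) → deriv (ρ n) t = 0 := fun n t h => by
    rw [(notMem_tsupport_iff_eventuallyEq.1 h).deriv_eq]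
    simp
  have iP : ∀ n, Integrable fun x : ℂ × ℝ => P x * (ρ n x.2 : ℂ) := by
    intro n
    refine (hPc.mul ((hρc n).comp continuous_snd)).integrable_of_hasCompactSupport ?_
    refine HasCompactSupport.intro (hKc.prod (hρ n).2.1) fun x hx => ?_
    rw [Set.mem_prod, not_and_or] at hx
    change P x * ((ρ n x.2 : ℝ) : ℂ) = 0
    rcases hx with hx | hx
    · rw [hP, hψ0 _ hx]
      simp
    · rw [hρ0 n _ hx]
      simp
  have iH : ∀ n, Integrable fun x : ℂ × ℝ => H x * ((deriv (ρ n) x.2 : ℝ) : ℂ) := by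
    intro n
    refine (hHc.mul ((hρd n).comp continuous_snd)).integrable_of_hasCompactSupport ?_
    refine HasCompactSupport.intro (hKc.prod (hρ n).2.1) fun x hx => ?_
    rw [Set.mem_prod, not_and_or] at hx
    change H x * ((deriv (ρ n) x.2 : ℝ) : ℂ) = 0
    rcases hx with hx | hx
    · rw [hH, hφ0 _ hx]
      simp
    · rw [hρd0 n _ hx]
      simp
  -- the identity
  have hid : ∀ n, (∫ x : ℂ × ℝ, P x * (ρ n x.2 : ℂ)) =
      ∫ x : ℂ × ℝ, H x * ((deriv (ρ n) x.2 : ℝ) : ℂ) := by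
    intro n
    have g1 : ContDiff ℝ 1 fun x : ℂ × ℝ => (φ x.1 : ℂ) * (ρ n x.2 : ℂ) :=
      (Complex.ofRealCLM.contDiff.comp (hφc.comp contDiff_fst)).mul
        (Complex.ofRealCLM.contDiff.comp ((hρ n).1.comp contDiff_snd))
    have g2 : ∀ x : ℂ × ℝ, x ∉ tsupport φ ×ˢ tsupport (ρ n) →
        (φ x.1 : ℂ) * (ρ n x.2 : ℂ) = 0 := by
      intro x hx
      rw [Set.mem_prod, not_and_or] at hx
      rcases hx with hx | hx
      · rw [hφ0 _ hx]
        simp
      · rw [hρ0 n _ hx]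
        simp
    have g3 : HasCompactSupport fun x : ℂ × ℝ => (φ x.1 : ℂ) * (ρ n x.2 : ℂ) :=
      HasCompactSupport.intro (hKc.prod (hρ n).2.1) g2
    have g4 : tsupport (fun x : ℂ × ℝ => (φ x.1 : ℂ) * (ρ n x.2 : ℂ)) ⊆
        tsupport φ ×ˢ tsupport (ρ n) := by
      refine closure_minimal (fun x hx => ?_) ((isClosed_tsupport φ).prod (isClosed_tsupport _))
      by_contra h
      exact hx (g2 x h)
    have g5 := hpair _ g1 g3 fun x hx => h3 (g4 hx).1
    have g6 : ∀ x v : ℂ × ℝ, fderiv ℝ (fun x : ℂ × ℝ => (φ x.1 : ℂ) * (ρ n x.2 : ℂ)) x v =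
        (φ x.1 : ℂ) * ((v.2 * deriv (ρ n) x.2 : ℝ) : ℂ) +
          (ρ n x.2 : ℂ) * ((fderiv ℝ φ x.1 v.1 : ℝ) : ℂ) := by
      intro x v
      have e1 : HasFDerivAt (fun x : ℂ × ℝ => (φ x.1 : ℂ)) (Complex.ofRealCLM.comp
          ((fderiv ℝ φ x.1).comp (ContinuousLinearMap.fst ℝ ℂ ℝ))) x :=
        Complex.ofRealCLM.hasFDerivAt.comp x
          (((hφc.differentiable (by simp)).differentiableAt.hasFDerivAt).comp x hasFDerivAt_fst)
      have e2 : HasFDerivAt (fun x : ℂ × ℝ => (ρ n x.2 : ℂ)) (Complex.ofRealCLM.comp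
          ((fderiv ℝ (ρ n) x.2).comp (ContinuousLinearMap.snd ℝ ℂ ℝ))) x :=
        Complex.ofRealCLM.hasFDerivAt.comp x
          ((((hρ n).1.differentiable (by simp)).differentiableAt.hasFDerivAt).comp x
            hasFDerivAt_snd)
      have e4 : HasFDerivAt (fun x : ℂ × ℝ => (φ x.1 : ℂ) * (ρ n x.2 : ℂ)) _ x := e1.mul e2
      rw [e4.fderiv]
      have e3 : fderiv ℝ (ρ n) x.2 v.2 = v.2 * deriv (ρ n) x.2 := by
        rw [fderiv_eq_smul_deriv]
        rfl
      simp [e3]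
    have g7 : ∀ x : ℂ × ℝ, dbm (fun x : ℂ × ℝ => (φ x.1 : ℂ) * (ρ n x.2 : ℂ)) x =
        ψ x.1 * (ρ n x.2 : ℂ) := by
      intro x
      rw [dbm, g6, g6, hψ]
      simp
      ring
    have g8 : ∀ x : ℂ × ℝ, dtm (fun x : ℂ × ℝ => (φ x.1 : ℂ) * (ρ n x.2 : ℂ)) x =
        (φ x.1 : ℂ) * ((deriv (ρ n) x.2 : ℝ) : ℂ) := by
      intro x
      rw [dtm, g6]
      simp
    have g9 : (∫ x : ℂ × ℝ, (H x * ((deriv (ρ n) x.2 : ℝ) : ℂ) - P x * (ρ n x.2 : ℂ))) = 0 := by
      rw [← g5]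
      refine integral_congr_ae (Eventually.of_forall fun x => ?_)
      simp only
      rw [g7, g8, hP, hH, hk, hd]
      simp only [div_eq_mul_inv, mul_inv, one_mul, inv_pow]
      ring
    rw [integral_sub (iH n) (iP n), sub_eq_zero] at g9
    exact g9.symm
  -- the first limit
  obtain ⟨B, s, hs, hB⟩ := J2c_bound hA μb tb hKc hbK
  have hdom : Integrable fun x : ℂ × ℝ => ‖ψ x.1 * d x.1‖ * (B * (1 + |x.2|) ^ (-(1 + s))) :=
    iG1.norm.mul_prod (JW_int B hs)
  have hPb : ∀ x : ℂ × ℝ, ‖P x‖ ≤ ‖ψ x.1 * d x.1‖ * (B * (1 + |x.2|) ^ (-(1 + s))) := by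
    intro x
    by_cases hx : x.1 ∈ tsupport φ
    · rw [hP, ← mul_assoc, norm_mul, hk]
      exact mul_le_mul_of_nonneg_left (hB x.1 hx x.2) (norm_nonneg _)
    · rw [hP, hψ0 _ hx]
      simp
  have iPP : Integrable P := hdom.mono' hPc.aestronglyMeasurable (Eventually.of_forall hPb)
  have lim1 : Tendsto (fun n : ℕ => ∫ x : ℂ × ℝ, P x * (ρ n x.2 : ℂ)) atTop
      (𝓝 (∫ x : ℂ × ℝ, P x)) := by
    refine tendsto_integral_of_dominated_convergence _ (fun n => (iP n).aestronglyMeasurable)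
      hdom (fun n => Eventually.of_forall fun x => ?_) (Eventually.of_forall fun x => ?_)
    · rw [norm_mul, Complex.norm_real, Real.norm_eq_abs]
      calc ‖P x‖ * |ρ n x.2| ≤ ‖P x‖ * 1 :=
            mul_le_mul_of_nonneg_left ((hρ n).2.2.1 x.2) (norm_nonneg _)
        _ ≤ _ := by rw [mul_one]; exact hPb x
    · refine tendsto_const_nhds.congr' ?_
      filter_upwards [eventually_ge_atTop ⌈|x.2|⌉₊] with n hn
      have h5 : |x.2| ≤ n + 1 := by
        have := Nat.ceil_le.1 hn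
        linarith
      rw [(hρ n).2.2.2.1 x.2 h5]
      simp
  have val1 : (∫ x : ℂ × ℝ, P x) = ∫ μ : ℂ, ψ μ * d μ * II A μb tb μ := by
    rw [Measure.volume_eq_prod] at iPP ⊢
    rw [integral_prod _ iPP]
    refine integral_congr_ae (Eventually.of_forall fun μ => ?_)
    simp only [hP]
    simp only [← mul_assoc]
    rw [integral_const_mul]
    simp only [hk]
    rfl
  -- the second limit
  obtain ⟨c, hc⟩ : ∃ c : ℂ, c = 2 * Real.pi * Complex.I * w := ⟨_, rfl⟩
  obtain ⟨M, hM⟩ : ∃ M : ℝ, ∀ μ ∈ tsupport φ, ‖d μ‖ ≤ M :=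
    hKc.exists_bound_of_continuousOn fun μ hμ => (hdc μ fun e => hbK (e ▸ hμ)).continuousWithinAt
  have hM0 : 0 ≤ max M 0 := le_max_right _ _
  obtain ⟨M', hM'⟩ : ∃ M' : ℝ, M' = max M 0 := ⟨_, rfl⟩
  have hM1 : ∀ μ ∈ tsupport φ, ‖d μ‖ ≤ M' := fun μ hμ => hM' ▸ (hM μ hμ).trans (le_max_left _ _)
  have hM0 : 0 ≤ M' := hM' ▸ le_max_right _ _
  have hN0 : 0 ≤ N := le_trans (integral_nonneg fun t => abs_nonneg _) (hρ 0).2.2.2.2.2
  have lim2 : Tendsto (fun n : ℕ => ∫ x : ℂ × ℝ, H x * ((deriv (ρ n) x.2 : ℝ) : ℂ)) atTop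
      (𝓝 (c * ∫ μ : ℂ, (φ μ : ℂ) * d μ ^ 2)) := by
    have main : ∀ ε : ℝ, 0 < ε → ∀ᶠ n : ℕ in atTop,
        ‖(∫ x : ℂ × ℝ, H x * ((deriv (ρ n) x.2 : ℝ) : ℂ)) - c * ∫ μ : ℂ, (φ μ : ℂ) * d μ ^ 2‖ ≤
          ε * ((M' + M' ^ 2) * ((∫ μ : ℂ, |φ μ|) * N)) := by
      intro ε hε
      obtain ⟨T1, hT1, hq1⟩ := hlim ε hε
      obtain ⟨T2, hT2, hq2⟩ := J2c_quot hA μb tb hKc hε
      filter_upwards [eventually_ge_atTop ⌈max T1 T2⌉₊] with n hn
      have hnT : max T1 T2 ≤ (n : ℝ) + 1 := by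
        have := Nat.ceil_le.1 hn
        linarith
      have hρi : Integrable fun t => deriv (ρ n) t :=
        ((hρ n).1.continuous_deriv (by simp)).integrable_of_hasCompactSupport
          (HasCompactSupport.intro (hρ n).2.1 (hρd0 n))
      have iL : Integrable fun x : ℂ × ℝ => (-c * ((φ x.1 : ℂ) * d x.1 ^ 2)) *
          (Set.Ioi (0 : ℝ)).indicator (fun t => ((deriv (ρ n) t : ℝ) : ℂ)) x.2 :=
        (iG2.const_mul (-c)).mul_prod (hρi.ofReal.indicator measurableSet_Ioi)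
      have vL : (∫ x : ℂ × ℝ, (-c * ((φ x.1 : ℂ) * d x.1 ^ 2)) *
          (Set.Ioi (0 : ℝ)).indicator (fun t => ((deriv (ρ n) t : ℝ) : ℂ)) x.2) =
          c * ∫ μ : ℂ, (φ μ : ℂ) * d μ ^ 2 := by
        rw [Measure.volume_eq_prod, integral_prod_mul (f := fun μ : ℂ =>
          -c * ((φ μ : ℂ) * d μ ^ 2)) (g := fun t : ℝ => (Set.Ioi (0 : ℝ)).indicator
            (fun t => ((deriv (ρ n) t : ℝ) : ℂ)) t), integral_const_mul,
          integral_indicator measurableSet_Ioi, integral_complex_ofReal,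
          (hρ n).2.1.integral_Ioi_deriv_eq (hρ n).1, (hρ n).2.2.2.1 0 (by simp; positivity)]
        push_cast
        ring
      rw [← vL, ← integral_sub (iH n) iL]
      have hbd : ∀ x : ℂ × ℝ, ‖H x * ((deriv (ρ n) x.2 : ℝ) : ℂ) - (-c * ((φ x.1 : ℂ) * d x.1 ^ 2)) *
          (Set.Ioi (0 : ℝ)).indicator (fun t => ((deriv (ρ n) t : ℝ) : ℂ)) x.2‖ ≤
          (ε * (M' + M' ^ 2) * |φ x.1|) * |deriv (ρ n) x.2| := by
        intro x
        by_cases hx : x.1 ∈ tsupport φ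
        · by_cases hx2 : |x.2| < n + 1
          · have h5 := (hρ n).2.2.2.2.1 x.2 hx2
            have h6 : (Set.Ioi (0 : ℝ)).indicator (fun t => ((deriv (ρ n) t : ℝ) : ℂ)) x.2 = 0 := by
              by_cases h7 : x.2 ∈ Set.Ioi (0 : ℝ)
              · rw [Set.indicator_of_mem h7, h5]
                simp
              · exact Set.indicator_of_notMem h7 _
            rw [h6, h5]
            simp
          · push Not at hx2
            have hne : x.1 ≠ μb := fun e => hbK (e ▸ hx)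
            have hel := el_ne' hA μb tb x.1 hne x.2
            have hb1 : ‖A x.1 x.2 * (d x.1 * (el A μb tb x.1 x.2)⁻¹)‖ ≤ ε * M' := by
              have h5 := hq2 x.1 hx x.2 ((le_max_right _ _).trans (hnT.trans hx2))
              have h6 : 0 < ‖el A μb tb x.1 x.2‖ := norm_pos_iff.2 hel
              rw [norm_mul, norm_mul, norm_inv]
              calc ‖A x.1 x.2‖ * (‖d x.1‖ * ‖el A μb tb x.1 x.2‖⁻¹)
                  ≤ (ε * ‖el A μb tb x.1 x.2‖) * (M' * ‖el A μb tb x.1 x.2‖⁻¹) := by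
                    refine mul_le_mul h5 (mul_le_mul_of_nonneg_right (hM1 x.1 hx)
                      (inv_nonneg.2 h6.le)) (by positivity) (by positivity)
                _ = ε * M' := by field_simp
            have hball := Metric.ball_subset_closedBall (h3 hx)
            have hd2 : ‖d x.1 ^ 2‖ ≤ M' ^ 2 := by
              rw [norm_pow]
              exact pow_le_pow_left₀ (norm_nonneg _) (hM1 x.1 hx) 2
            have key : ∀ y : ℂ, ‖y‖ ≤ ε → ‖(φ x.1 : ℂ) * (A x.1 x.2 * (d x.1 *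
                (el A μb tb x.1 x.2)⁻¹) - y * d x.1 ^ 2) * ((deriv (ρ n) x.2 : ℝ) : ℂ)‖ ≤
                (ε * (M' + M' ^ 2) * |φ x.1|) * |deriv (ρ n) x.2| := by
              intro y hy
              rw [norm_mul, norm_mul, Complex.norm_real, Complex.norm_real, Real.norm_eq_abs,
                Real.norm_eq_abs]
              refine mul_le_mul_of_nonneg_right ?_ (abs_nonneg _)
              have h7 : ‖A x.1 x.2 * (d x.1 * (el A μb tb x.1 x.2)⁻¹) - y * d x.1 ^ 2‖ ≤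
                  ε * (M' + M' ^ 2) := by
                refine (norm_sub_le _ _).trans ?_
                have h8 : ‖y * d x.1 ^ 2‖ ≤ ε * M' ^ 2 := by
                  rw [norm_mul]
                  exact mul_le_mul hy hd2 (norm_nonneg _) hε.le
                linarith
              rw [mul_comm]
              exact mul_le_mul_of_nonneg_right h7 (abs_nonneg _)
            rcases le_or_gt 0 x.2 with ht | ht
            · rw [abs_of_nonneg ht] at hx2
              have ht0 : 0 < x.2 := lt_of_lt_of_le (by positivity) hx2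
              rw [Set.indicator_of_mem (Set.mem_Ioi.2 ht0), hH]
              have h5 := (hq1 x.1 hball x.2).2 ((le_max_left _ _).trans (hnT.trans hx2))
              rw [← hc] at h5
              refine le_of_eq_of_le ?_ (key _ h5)
              congr 1
              ring
            · rw [abs_of_neg ht] at hx2
              rw [Set.indicator_of_notMem (by rw [Set.mem_Ioi]; exact not_lt.2 ht.le), hH]
              have h5 := (hq1 x.1 hball x.2).1 (by
                have := (le_max_left T1 T2).trans (hnT.trans hx2)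
                linarith)
              refine le_of_eq_of_le ?_ (key _ h5)
              congr 1
              ring
        · rw [hH, hφ0 _ hx]
          simp
      refine (norm_integral_le_of_norm_le (((iφ.norm.const_mul (ε * (M' + M' ^ 2))).mul_prod
        hρi.norm)) (Eventually.of_forall hbd)).trans ?_
      rw [integral_prod_mul (f := fun μ : ℂ =>
          ε * (M' + M' ^ 2) * ‖φ μ‖) (g := fun t : ℝ => ‖deriv (ρ n) t‖), integral_const_mul]
      simp only [Real.norm_eq_abs]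
      have h9 : 0 ≤ ∫ μ : ℂ, |φ μ| := integral_nonneg fun _ => abs_nonneg _
      have h10 := (hρ n).2.2.2.2.2
      calc ε * (M' + M' ^ 2) * (∫ μ : ℂ, |φ μ|) * (∫ t : ℝ, |deriv (ρ n) t|)
          ≤ ε * (M' + M' ^ 2) * (∫ μ : ℂ, |φ μ|) * N :=
            mul_le_mul_of_nonneg_left h10 (by positivity)
        _ = _ := by ring
    rw [Metric.tendsto_atTop]
    intro ε hε
    obtain ⟨Q, hQ⟩ : ∃ Q : ℝ, Q = (M' + M' ^ 2) * ((∫ μ : ℂ, |φ μ|) * N) := ⟨_, rfl⟩
    have hQ0 : 0 ≤ Q := by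
      have h9 : 0 ≤ ∫ μ : ℂ, |φ μ| := integral_nonneg fun _ => abs_nonneg _
      rw [hQ]
      positivity
    obtain ⟨n0, hn0⟩ := eventually_atTop.1 (main (ε / (Q + 1) / 2) (by positivity))
    refine ⟨n0, fun n hn => ?_⟩
    rw [dist_eq_norm]
    refine lt_of_le_of_lt (hn0 n hn) ?_
    rw [← hQ]
    have h11 : ε / (Q + 1) / 2 * Q = ε * (Q / (Q + 1) / 2) := by field_simp
    rw [h11]
    have h12 : Q / (Q + 1) < 1 := by rw [div_lt_one (by positivity)]; linarith
    nlinarith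
  have h4 : (∫ μ : ℂ, ψ μ * d μ * II A μb tb μ) = c * ∫ μ : ℂ, (φ μ : ℂ) * d μ ^ 2 := by
    rw [← val1]
    exact tendsto_nhds_unique lim1 (lim2.congr fun n => (hid n).symm)
  have h5 := J2c_parts μb φ hφc h2 hbK
  have h6 : (∫ μ : ℂ, ψ μ * d μ) + ∫ μ : ℂ, (φ μ : ℂ) * d μ ^ 2 = 0 := by
    rw [← integral_add iG1 iG2, ← h5]
    refine integral_congr_ae (Eventually.of_forall fun μ => ?_)
    simp only
    rw [hψ, hd]
  have iII : Integrable fun μ : ℂ => ψ μ * d μ * II A μb tb μ := by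
    have h7 : Continuous fun μ : ℂ => ψ μ * (d μ * II A μb tb μ) := by
      refine J2c_cont (b := μb) hψc hψb (p := fun x : ℂ => x) continuous_id
        (f := fun μ => d μ * II A μb tb μ) fun μ hμ => (hdc μ hμ).mul ?_
      have h8 := (II_cont1 hA).continuousAt (x := ((μb, tb, μ) : ℂ × ℝ × ℂ)) (by
        refine IsOpen.mem_nhds ?_ hμ
        exact isOpen_ne_fun (by fun_prop) (by fun_prop))
      exact h8.comp (f := fun ν : ℂ => ((μb, tb, ν) : ℂ × ℝ × ℂ))
        (by fun_prop : Continuous fun ν : ℂ => ((μb, tb, ν) : ℂ × ℝ × ℂ)).continuousAt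
    refine (h7.congr fun μ => by ring).integrable_of_hasCompactSupport ?_
    exact HasCompactSupport.intro hKc fun x hx => by rw [hψ0 x hx]; simp
  have h7 : (∫ μ : ℂ, (II A μb tb μ + 2 * Real.pi * Complex.I * w) / (star μb - star μ) *
      (fderiv ℝ φ μ 1 + Complex.I * fderiv ℝ φ μ Complex.I)) =
      2 * ((∫ μ : ℂ, ψ μ * d μ * II A μb tb μ) + c * ∫ μ : ℂ, ψ μ * d μ) := by
    rw [← integral_const_mul c, ← integral_add iII (iG1.const_mul c), ← integral_const_mul]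
    refine integral_congr_ae (Eventually.of_forall fun μ => ?_)
    simp only
    rw [hψ, hd, hc, div_eq_mul_inv]
    ring
  rw [h7, h4]
  linear_combination (2 * c) * h6

end Pool.Agent.MPd01a95.KT
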