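import Mathlib
import Pool.Agent.Lib.MP_d01a95_gt_K.KDefs2
import Pool.Agent.Lib.MP_d01a95_gt_K.KJ1
import Pool.Agent.Lib.MP_d01a95_gt_K.KJW
import Pool.Agent.Lib.MP_d01a95_gt_K.KJ2a
import Pool.Agent.Lib.MP_d01a95_gt_K.KJ2b
import Pool.Agent.Lib.MP_d01a95_gt_K.KJ2c
import Pool.Agent.Lib.MP_099f24_an.TM.WeakHol

set_option autoImplicit false
set_option linter.all false

open Matrix Filter Topology MeasureTheory
open scoped ContDiff

namespace Pool.Agent.MPd01a95.KT

open GU

variable {G : Type} [Group G]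

/-- Weyl lemma for the Cauchy-Riemann operator -/
theorem J2_weyl {V : Set ℂ} (hV : IsOpen V) {f : ℂ → ℂ} (hf : ContinuousOn f V)
    (h : ∀ φ : ℂ → ℝ, ContDiff ℝ ∞ φ → HasCompactSupport φ → tsupport φ ⊆ V →
      ∫ x : ℂ, f x * (fderiv ℝ φ x 1 + Complex.I * fderiv ℝ φ x Complex.I) = 0) :
    DifferentiableOn ℂ f V := by
  have hfi : LocallyIntegrableOn f V := hf.locallyIntegrableOn hV.measurableSet
  have hgc : ContinuousOn (fun x => (starRingEnd ℂ) (f x)) V :=
    Complex.continuous_conj.comp_continuousOn hf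
  have hgi : LocallyIntegrableOn (fun x => (starRingEnd ℂ) (f x)) V :=
    hgc.locallyIntegrableOn hV.measurableSet
  have key : ∀ φ : ℂ → ℝ, ContDiff ℝ ∞ φ → HasCompactSupport φ → tsupport φ ⊆ V →
      IntegrableOn (fun x => f x * (fderiv ℝ φ x 1 + Complex.I * fderiv ℝ φ x Complex.I)) V ∧
      ∫ x in V, f x * (fderiv ℝ φ x 1 + Complex.I * fderiv ℝ φ x Complex.I) = 0 := by
    intro φ h1 h2 h3
    have hsm : ∀ v : ℂ, Continuous (fun x => fderiv ℝ φ x v) := fun v =>
      (MP099f24.tewh_fd_smooth h1 v).continuous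
    have hts : ∀ v : ℂ, tsupport (fun x => fderiv ℝ φ x v) ⊆ tsupport φ :=
      fun v => tsupport_fderiv_apply_subset ℝ v
    have hcs : ∀ v : ℂ, HasCompactSupport (fun x => fderiv ℝ φ x v) :=
      fun v => IsCompact.of_isClosed_subset h2 (isClosed_tsupport _) (hts v)
    have hz : ∀ v : ℂ, ∀ x ∉ V, fderiv ℝ φ x v = 0 := fun v x hx =>
      image_eq_zero_of_notMem_tsupport (f := fun x => fderiv ℝ φ x v)
        fun h' => hx (h3 (hts v h'))
    constructor
    · have i1 := MP099f24.tewh_int hfi hV (hsm 1) (hcs 1) ((hts 1).trans h3)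
      have i2 := (MP099f24.tewh_int hfi hV (hsm Complex.I) (hcs Complex.I)
        ((hts Complex.I).trans h3)).const_mul Complex.I
      refine (i1.add i2).congr (Eventually.of_forall fun x => ?_)
      simp only [Pi.add_apply, Complex.real_smul]
      ring
    · rw [setIntegral_eq_integral_of_forall_compl_eq_zero, h φ h1 h2 h3]
      intro x hx
      rw [hz 1 x hx, hz Complex.I x hx]
      simp
  obtain ⟨P, hP, hPe⟩ := MP099f24.te_weakhol hV hgi (fun φ h1 h2 h3 => by
    obtain ⟨i, e⟩ := key φ h1 h2 h3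
    have h4 := Complex.reCLM.integral_comp_comm i
    rw [e, map_zero] at h4
    rw [← h4]
    refine integral_congr_ae (Eventually.of_forall fun x => ?_)
    simp
    ring) (fun φ h1 h2 h3 => by
    obtain ⟨i, e⟩ := key φ h1 h2 h3
    have h4 := Complex.imCLM.integral_comp_comm i
    rw [e, map_zero] at h4
    rw [← h4]
    refine integral_congr_ae (Eventually.of_forall fun x => ?_)
    simp)
  have hPe' : ∀ᵐ x ∂(volume : Measure ℂ), x ∈ V → f x = P x := by
    filter_upwards [hPe] with x hx hxV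
    have := congrArg (starRingEnd ℂ) (hx hxV)
    rwa [Complex.conj_conj, Complex.conj_conj] at this
  have heq : Set.EqOn f P V :=
    Measure.eqOn_open_of_ae_eq ((ae_restrict_iff' hV.measurableSet).2 hPe') hV hf hP.continuousOn
  exact hP.congr heq

/-- module J2: the integral, corrected by an integer, is holomorphic -/
theorem II_hol {A : ℂ → ℝ → ℂ} (hA : Ch A) (hW : WL A) (μb : ℂ) (tb : ℝ) : ∃ w : ℤ,
    DifferentiableOn ℂ (fun μ => (II A μb tb μ + 2 * Real.pi * Complex.I * w) /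
      (star μb - star μ)) {μb}ᶜ := by
  obtain ⟨w, hw⟩ := J2_lam hA μb tb
  refine ⟨w, fun μ0 hμ0 => ?_⟩
  obtain ⟨r, hr, hb, lam, hl, he, hlim⟩ := hw μ0 hμ0
  have hsub : Metric.ball μ0 r ⊆ Metric.closedBall μ0 r := Metric.ball_subset_closedBall
  have hb' : μb ∉ Metric.ball μ0 r := fun h => hb (hsub h)
  have hne : ∀ μ ∈ Metric.ball μ0 r, μ ≠ μb := fun μ h e => hb' (e ▸ h)
  have hc : ContinuousOn (fun μ => (II A μb tb μ + 2 * Real.pi * Complex.I * w) /
      (star μb - star μ)) (Metric.ball μ0 r) := by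
    intro μ hμ
    have h1 : ContinuousOn (fun ν : ℂ => II A μb tb ν) (Metric.ball μ0 r) :=
      (II_cont1 hA).comp (f := fun ν : ℂ => ((μb, tb, ν) : ℂ × ℝ × ℂ))
        (by fun_prop : Continuous fun ν : ℂ => ((μb, tb, ν) : ℂ × ℝ × ℂ)).continuousOn
        fun ν hν => hne ν hν
    refine ContinuousWithinAt.div ?_ ?_ (sub_ne_zero.2 fun e => hne μ hμ (star_injective e).symm)
    · exact (h1 μ hμ).add continuousWithinAt_const
    · exact (continuous_const.sub continuous_star).continuousWithinAt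
  have hD := J2_weyl Metric.isOpen_ball hc fun φ h1 h2 h3 =>
    J2_lim hA μb tb w hb hl hlim (fun Φ g1 g2 g3 => J2_pair hA hW μb tb Metric.isOpen_ball hb'
      hl (fun μ hμ t => he μ (hsub hμ) t) Φ g1 g2 g3) φ h1 h2 h3
  exact (hD.differentiableAt (Metric.isOpen_ball.mem_nhds
    (Metric.mem_ball_self hr))).differentiableWithinAt

end Pool.Agent.MPd01a95.KT
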