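import Mathlib
import Pool.Agent.Lib.MP_d01a95_gt_K.KDefs2
import Pool.Agent.Lib.MP_d01a95_gt_K.KJ1
import Pool.Agent.Lib.MP_d01a95_gt_K.KJ2

set_option autoImplicit false
set_option linter.all false

open Matrix Filter Topology MeasureTheory
open scoped ContDiff

namespace Pool.Agent.MPd01a95.KT

open GU

variable {G : Type} [Group G]

/-- module J3: bounded holomorphic functions of this kind -/
theorem II_form {A : ℂ → ℝ → ℂ} (hA : Ch A) (hW : WL A) (μb : ℂ) (tb : ℝ)
    (hb : ∃ C : ℝ, ∀ μ, μ ≠ μb → ‖II A μb tb μ‖ ≤ C) : ∃ w : ℤ, ∃ n : ℂ, ∀ μ, μ ≠ μb →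
      II A μb tb μ = -(2 * Real.pi * Complex.I * w) - n * (star μb - star μ) / (μb - μ) := by
  obtain ⟨w, hw⟩ := II_hol hA hW μb tb
  obtain ⟨C, hC⟩ := hb
  set f : ℂ → ℂ := fun μ => (II A μb tb μ + 2 * Real.pi * Complex.I * w) /
      (star μb - star μ) with hf
  set h : ℂ → ℂ := fun μ => (μ - μb) * f μ with hh
  have hne : ∀ μ : ℂ, μ ≠ μb → star μb - star μ ≠ 0 := fun μ hμ =>
    sub_ne_zero.2 fun e => hμ (star_injective e).symm
  have hbd : ∀ μ : ℂ, μ ≠ μb → ‖h μ‖ ≤ C + ‖(2 * Real.pi * Complex.I * w : ℂ)‖ := by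
    intro μ hμ
    have h1 : ‖star μb - star μ‖ = ‖μ - μb‖ := by
      rw [← star_sub, norm_star, norm_sub_rev]
    have h2 : ‖μ - μb‖ ≠ 0 := norm_ne_zero_iff.2 (sub_ne_zero.2 hμ)
    have h3 : ‖h μ‖ = ‖II A μb tb μ + 2 * Real.pi * Complex.I * w‖ := by
      rw [hh, hf]
      simp only
      rw [norm_mul, norm_div, h1]
      field_simp
    rw [h3]
    exact (norm_add_le _ _).trans (add_le_add (hC μ hμ) le_rfl)
  have hd : DifferentiableOn ℂ h (Set.univ \ {μb}) := by
    have h1 : (Set.univ \ {μb} : Set ℂ) = {μb}ᶜ := by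
      ext x
      simp
    rw [h1]
    exact (differentiableOn_id.sub_const μb).mul hw
  have hba : BddAbove (norm ∘ h '' (Set.univ \ {μb})) := by
    refine ⟨C + ‖(2 * Real.pi * Complex.I * w : ℂ)‖, ?_⟩
    rintro _ ⟨μ, hμ, rfl⟩
    exact hbd μ hμ.2
  have hu := Complex.differentiableOn_update_limUnder_of_bddAbove (Filter.univ_mem) hd hba
  set g : ℂ → ℂ := Function.update h μb (limUnder (𝓝[≠] μb) h) with hg
  have hgd : Differentiable ℂ g := differentiableOn_univ.1 hu
  have hgb : Bornology.IsBounded (Set.range g) := by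
    refine (Metric.isBounded_closedBall (x := (0 : ℂ))
      (r := max (C + ‖(2 * Real.pi * Complex.I * w : ℂ)‖) ‖g μb‖)).subset ?_
    rintro _ ⟨μ, rfl⟩
    rw [mem_closedBall_zero_iff]
    by_cases hμ : μ = μb
    · rw [hμ]
      exact le_max_right _ _
    · refine le_trans ?_ (le_max_left _ _)
      rw [hg, Function.update_of_ne hμ]
      exact hbd μ hμ
  obtain ⟨c, hc⟩ := hgd.exists_const_forall_eq_of_bounded hgb
  refine ⟨w, c, fun μ hμ => ?_⟩
  have h1 : h μ = c := by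
    have := hc μ
    rwa [hg, Function.update_of_ne hμ] at this
  have h2 : μ - μb ≠ 0 := sub_ne_zero.2 hμ
  have h3 : μb - μ ≠ 0 := sub_ne_zero.2 (Ne.symm hμ)
  have h4 : II A μb tb μ + 2 * Real.pi * Complex.I * w = f μ * (star μb - star μ) := by
    rw [hf]
    simp only
    rw [div_mul_cancel₀ _ (hne μ hμ)]
  have h5 : f μ = c / (μ - μb) := by
    rw [← h1, hh]
    simp only
    rw [mul_div_cancel_left₀ _ h2]
  have h6 : II A μb tb μ = f μ * (star μb - star μ) - 2 * Real.pi * Complex.I * w := by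
    rw [← h4]
    ring
  rw [h6, h5]
  have h7 : μb - μ = -(μ - μb) := by ring
  rw [h7]
  field_simp
  ring

end Pool.Agent.MPd01a95.KT
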