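import Mathlib
import Pool.Agent.Lib.MP_d01a95_gt_K.KDefs2
import Pool.Agent.Lib.MP_d01a95_gt_K.KA1
import Pool.Agent.Lib.MP_d01a95_gt_K.KA2
import Pool.Agent.Lib.MP_d01a95_gt_K.KA4
import Pool.Agent.Lib.MP_d01a95_gt_K.KF0
import Pool.Agent.Lib.MP_d01a95_gt_K.KF6
import Pool.Agent.Lib.MP_d01a95_gt_K.KH1
import Pool.Agent.Lib.MP_d01a95_gt_K.KH2
import Pool.Agent.Lib.MP_d01a95_gt_K.KH3
import Pool.Agent.Lib.MP_d01a95_gt_K.KH4
import Pool.Agent.Lib.MP_d01a95_gt_K.KJ1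
import Pool.Agent.Lib.MP_d01a95_gt_K.KJW

set_option autoImplicit false
set_option linter.all false

open Matrix Filter Topology MeasureTheory
open scoped ContDiff

namespace Pool.Agent.MPd01a95.KT

open GU

variable {G : Type} [Group G]

private theorem J4_q (T : Tr) (μ : ℂ) : ((T.q μ : ℝ) : ℂ) =
    T.a * (μ * star μ) + (T.b * star μ + star T.b * μ) + T.e := by
  have h1 : ((‖μ‖ ^ 2 : ℝ) : ℂ) = μ * star μ := by
    have := Complex.mul_conj' μ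
    push_cast
    exact this.symm
  have h2 : ((2 * (T.b * star μ).re : ℝ) : ℂ) = T.b * star μ + star T.b * μ := by
    have h3 := Complex.add_conj (T.b * star μ)
    rw [map_mul] at h3
    rw [← h3]
    simp
  unfold Tr.q
  rw [Complex.ofReal_add, Complex.ofReal_add, Complex.ofReal_mul, h1, h2]

private theorem J4_tr {T : Tr} {A A' : ℂ → ℝ → ℂ} (h : T.Cmp A A') (μb : ℂ) (tb : ℝ) (μ : ℂ)
    (t : ℝ) : el A (T.m μb) (T.tr μb tb) (T.m μ) (T.tr μ t) =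
      ((1 / ‖T.d3‖ ^ 2 : ℝ) : ℂ) * el A' μb tb μ t := by
  have hn : ((‖T.d3‖ ^ 2 : ℝ) : ℂ) = T.d3 * star T.d3 := by
    have := Complex.mul_conj' T.d3
    push_cast
    exact this.symm
  have h2 := T.h2
  have h3 := T.h3
  have s2 : star T.d2 ≠ 0 := star_ne_zero.2 h2
  have s3 : star T.d3 ≠ 0 := star_ne_zero.2 h3
  unfold el
  rw [h μ t, h μb tb]
  unfold Tr.tr Tr.m Tr.κ Tr.dq
  rw [Complex.ofReal_div, Complex.ofReal_div, Complex.ofReal_div, hn, Complex.ofReal_add,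
    Complex.ofReal_add, J4_q, J4_q, Complex.ofReal_one]
  simp only [star_add, star_mul', star_div₀, star_inv₀, star_star, Complex.star_def,
    Complex.conj_ofReal, Complex.conj_conj] at *
  field_simp
  ring

namespace Kd

variable (D : Kd G)

/-- module J4: continuity in all parameters -/
theorem II_cont : ContinuousOn (fun p : M4 × ℂ × ℝ × ℂ => II (D.A p.1) p.2.1 p.2.2.1 p.2.2.2)
    {p | p.1 ∈ D.FF ∧ p.2.2.2 ≠ p.2.1} := by
  haveI : FirstCountableTopology M4 := inferInstanceAs (FirstCountableTopology (Fin 4 → Fin 4 → ℂ))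
  obtain ⟨ε, hε, hε1, hg⟩ := D.growth
  rw [continuousOn_iff_continuous_restrict]
  refine JJ_cont (P := {p : M4 × ℂ × ℝ × ℂ | p.1 ∈ D.FF ∧ p.2.2.2 ≠ p.2.1})
    (E := fun p t => el (D.A p.1.1) p.1.2.1 p.1.2.2.1 p.1.2.2.2 t) ?_ hε (fun p t => ?_)
    fun p => ?_
  · have h1 : Continuous fun x : {p : M4 × ℂ × ℝ × ℂ | p.1 ∈ D.FF ∧ p.2.2.2 ≠ p.2.1} × ℝ =>
        D.A x.1.1.1 x.1.1.2.2.2 x.2 := by
      have hc : Continuous fun x : {p : M4 × ℂ × ℝ × ℂ | p.1 ∈ D.FF ∧ p.2.2.2 ≠ p.2.1} × ℝ =>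
          ((x.1.1.1, x.1.1.2.2.2, x.2) : M4 × ℂ × ℝ) := by fun_prop
      exact D.A_cont.comp_continuous hc fun x => ⟨x.1.2.1, Set.mem_univ _⟩
    have h2 : Continuous fun x : {p : M4 × ℂ × ℝ × ℂ | p.1 ∈ D.FF ∧ p.2.2.2 ≠ p.2.1} × ℝ =>
        D.A x.1.1.1 x.1.1.2.1 x.1.1.2.2.1 := by
      have hc : Continuous fun x : {p : M4 × ℂ × ℝ × ℂ | p.1 ∈ D.FF ∧ p.2.2.2 ≠ p.2.1} × ℝ =>
          ((x.1.1.1, x.1.1.2.1, x.1.1.2.2.1) : M4 × ℂ × ℝ) := by fun_prop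
      exact D.A_cont.comp_continuous hc fun x => ⟨x.1.2.1, Set.mem_univ _⟩
    have h3 : Continuous fun x : {p : M4 × ℂ × ℝ × ℂ | p.1 ∈ D.FF ∧ p.2.2.2 ≠ p.2.1} × ℝ =>
        (x.2 : ℂ) - (x.1.1.2.2.1 : ℂ) := by fun_prop
    have h4 : Continuous fun x : {p : M4 × ℂ × ℝ × ℂ | p.1 ∈ D.FF ∧ p.2.2.2 ≠ p.2.1} × ℝ =>
        star x.1.1.2.2.2 - star x.1.1.2.1 := by fun_prop
    have h5 : Continuous fun x : {p : M4 × ℂ × ℝ × ℂ | p.1 ∈ D.FF ∧ p.2.2.2 ≠ p.2.1} × ℝ =>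
        x.1.1.2.2.2 - x.1.1.2.1 := by fun_prop
    unfold el
    exact (h3.sub (h1.mul h4)).sub (h2.star.mul h5)
  · exact D.el_ne p.2.1 _ _ _ _ fun e => p.2.2 (congrArg Prod.fst e)
  · obtain ⟨r, hr⟩ : ∃ r : ℝ, r = ‖p.1.2‖ + 1 := ⟨_, rfl⟩
    have hr0 : 0 ≤ r := by rw [hr]; positivity
    obtain ⟨C, hC⟩ := hg r
    refine ⟨r + 2 * r * |C| + 2 * r * |C| * (1 + r) ^ (1 - ε), ?_⟩
    have hcont : Continuous fun q : {p : M4 × ℂ × ℝ × ℂ | p.1 ∈ D.FF ∧ p.2.2.2 ≠ p.2.1} =>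
        q.1.2 := by fun_prop
    have hball := hcont.tendsto p (Metric.ball_mem_nhds p.1.2 one_pos)
    filter_upwards [hball] with q hq t
    have hn : ‖q.1.2‖ ≤ r := by
      have hq' : q.1.2 ∈ Metric.ball p.1.2 1 := hq
      have h1 : ‖q.1.2 - p.1.2‖ < 1 := by rwa [Metric.mem_ball, dist_eq_norm] at hq'
      have h2 := norm_le_norm_add_norm_sub' q.1.2 p.1.2
      rw [hr]
      linarith
    have n1 : ‖q.1.2.1‖ ≤ r := (norm_fst_le q.1.2).trans hn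
    have n2 : |q.1.2.2.1| ≤ r :=
      (norm_fst_le q.1.2.2).trans ((norm_snd_le q.1.2).trans hn)
    have n3 : ‖q.1.2.2.2‖ ≤ r :=
      (norm_snd_le q.1.2.2).trans ((norm_snd_le q.1.2).trans hn)
    have hX : (1 : ℝ) ≤ (1 + |t|) ^ (1 - ε) :=
      Real.one_le_rpow (by linarith [abs_nonneg t]) (by linarith)
    have hA1 : ‖D.A q.1.1 q.1.2.2.2 t‖ ≤ |C| * (1 + |t|) ^ (1 - ε) :=
      (hC q.1.1 q.2.1 _ t n3).trans (JW_mono le_rfl t)
    have hA2 : ‖D.A q.1.1 q.1.2.1 q.1.2.2.1‖ ≤ |C| * (1 + r) ^ (1 - ε) := by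
      refine ((hC q.1.1 q.2.1 _ _ n1).trans (JW_mono le_rfl _)).trans ?_
      exact mul_le_mul_of_nonneg_left (Real.rpow_le_rpow (by positivity) (by linarith)
        (by linarith)) (abs_nonneg C)
    have hd : ‖star q.1.2.2.2 - star q.1.2.1‖ ≤ 2 * r := by
      rw [← star_sub, norm_star]
      have := norm_sub_le q.1.2.2.2 q.1.2.1
      linarith
    have hd' : ‖q.1.2.2.2 - q.1.2.1‖ ≤ 2 * r := by
      have := norm_sub_le q.1.2.2.2 q.1.2.1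
      linarith
    show ‖el (D.A q.1.1) q.1.2.1 q.1.2.2.1 q.1.2.2.2 t - t‖ ≤ _
    have e1 : el (D.A q.1.1) q.1.2.1 q.1.2.2.1 q.1.2.2.2 t - t =
        -((q.1.2.2.1 : ℂ) + D.A q.1.1 q.1.2.2.2 t * (star q.1.2.2.2 - star q.1.2.1) +
        star (D.A q.1.1 q.1.2.1 q.1.2.2.1) * (q.1.2.2.2 - q.1.2.1)) := by
      unfold el
      ring
    rw [e1, norm_neg]
    have h4 : ‖D.A q.1.1 q.1.2.2.2 t * (star q.1.2.2.2 - star q.1.2.1)‖ ≤
        |C| * (1 + |t|) ^ (1 - ε) * (2 * r) := by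
      rw [norm_mul]
      exact mul_le_mul hA1 hd (norm_nonneg _) (by positivity)
    have h5 : ‖star (D.A q.1.1 q.1.2.1 q.1.2.2.1) * (q.1.2.2.2 - q.1.2.1)‖ ≤
        |C| * (1 + r) ^ (1 - ε) * (2 * r) := by
      rw [norm_mul, norm_star]
      exact mul_le_mul hA2 hd' (norm_nonneg _) (by positivity)
    have h6 : ‖(q.1.2.2.1 : ℂ)‖ ≤ r := by
      rw [Complex.norm_real]
      exact n2
    have h7 := norm_add₃_le (a := (q.1.2.2.1 : ℂ))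
      (b := D.A q.1.1 q.1.2.2.2 t * (star q.1.2.2.2 - star q.1.2.1))
      (c := star (D.A q.1.1 q.1.2.1 q.1.2.2.1) * (q.1.2.2.2 - q.1.2.1))
    have h8 : 0 ≤ |C| * (1 + r) ^ (1 - ε) * (2 * r) := by positivity
    have h9 : r ≤ r * (1 + |t|) ^ (1 - ε) := le_mul_of_one_le_right hr0 hX
    have h10 : |C| * (1 + r) ^ (1 - ε) * (2 * r) ≤
        |C| * (1 + r) ^ (1 - ε) * (2 * r) * (1 + |t|) ^ (1 - ε) := le_mul_of_one_le_right h8 hX
    nlinarith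

/-- module J4: invariance -/
theorem II_inv {g : G} {k k' : M4} (hk : k ∈ D.FF) (hk' : k' ∈ D.FF) {T : Tr}
    (h : Rel (D.R g) k k' T) (μb : ℂ) (tb : ℝ) (μ : ℂ) (hμ : μ ≠ μb) :
    II (D.A k) (T.m μb) (T.tr μb tb) (T.m μ) = II (D.A k') μb tb μ := by
  have hc := (D.rel_cmp hk hk' h).1
  obtain ⟨s, hs, had⟩ := el_ad (D.ch hk')
  obtain ⟨C, hC⟩ := had μb tb μ hμ
  have hn : 0 < ‖T.d3‖ := norm_pos_iff.2 T.h3
  refine JJ_affine (e := el (D.A k) (T.m μb) (T.tr μb tb) (T.m μ)) hC hs (1 / ‖T.d3‖ ^ 2) (T.q μ)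
    (by positivity) fun t => ?_
  rw [← J4_tr hc μb tb μ t]
  congr 1
  unfold Tr.tr
  ring

end Kd

end Pool.Agent.MPd01a95.KT
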