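import Mathlib
import Pool.Agent.Lib.MP_d01a95_gt_K.KDefs2
import Pool.Agent.Lib.MP_d01a95_gt_K.KA1
import Pool.Agent.Lib.MP_d01a95_gt_K.KA2
import Pool.Agent.Lib.MP_d01a95_gt_K.KA4
import Pool.Agent.Lib.MP_d01a95_gt_K.KF0
import Pool.Agent.Lib.MP_d01a95_gt_K.KF6
import Pool.Agent.Lib.MP_d01a95_gt_K.KH1
import Pool.Agent.Lib.MP_d01a95_gt_K.KH2
import Pool.Agent.Lib.MP_d01a95_gt_K.KH3
import Pool.Agent.Lib.MP_d01a95_gt_K.KH4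
import Pool.Agent.Lib.MP_d01a95_gt_K.KA3
import Pool.Agent.Lib.MP_d01a95_gt_K.KJ1
import Pool.Agent.Lib.MP_d01a95_gt_K.KJ4
import Pool.Agent.Lib.MP_d01a95_gt_K.KI2

set_option autoImplicit false
set_option linter.all false

open Matrix Filter Topology MeasureTheory
open scoped ContDiff

namespace Pool.Agent.MPd01a95.KT

open GU

variable {G : Type} [Group G]

theorem J5_sph_cb {θ : Eb} (h : θ ∈ Sph) : θ ∈ Cb := Metric.sphere_subset_closedBall h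

theorem J5_ab_inv (g : GU (Fin 2)) {z : Eb} (hz : z ∈ Cb) : ab g⁻¹ (ab g z) = z := by
  rw [← ab_mul _ _ hz, inv_mul_cancel, ab_one]

theorem J5_kp_nonneg (a b : Eb) : 0 ≤ kp a b := norm_nonneg _

/-- surjectivity of the transition on `μ` -/
theorem J5_m_surj (T : Tr) (x : ℂ) : ∃ y, T.m y = x := by
  refine ⟨(x - T.β) * T.d3 / T.d2, ?_⟩
  have h2 := T.h2
  have h3 := T.h3
  unfold Tr.m
  field_simp
  ring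

/-- surjectivity of the transition on `t` -/
theorem J5_tr_surj (T : Tr) (y : ℂ) (s : ℝ) : ∃ t, T.tr y t = s := by
  refine ⟨s * ‖T.d3‖ ^ 2 - T.q y, ?_⟩
  have h3 : ‖T.d3‖ ≠ 0 := norm_ne_zero_iff.mpr T.h3
  unfold Tr.tr
  field_simp
  ring

theorem J5_m_sub (T : Tr) (x y : ℂ) : ‖T.m x - T.m y‖ = ‖T.d2‖ / ‖T.d3‖ * ‖x - y‖ := by
  have e : T.m x - T.m y = T.d2 / T.d3 * (x - y) := by
    unfold Tr.m
    ring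
  rw [e, norm_mul, norm_div]

theorem J5_t_tr (T : Tr) (x : ℂ) (s : ℝ) : T.t x (s : ℂ) = ((T.tr x s : ℝ) : ℂ) := by
  unfold Tr.t Tr.tr
  push_cast
  rfl

theorem J5_comp_tr {T T' T'' : Tr} (ht : ∀ μ τ, T''.t μ τ = T.t (T'.m μ) (T'.t μ τ)) (x : ℂ)
    (s : ℝ) : T''.tr x s = T.tr (T'.m x) (T'.tr x s) := by
  have h := ht x (s : ℂ)
  rw [J5_t_tr, J5_t_tr, J5_t_tr] at h
  exact_mod_cast h

/-- the product estimate: the pair stays separated along a ladder of one of its points -/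
theorem J5_sep {g : GU (Fin 2)} {z w : Eb} (hz : z ∈ Sph) (hw : w ∈ Sph) {Cp Cl : ℝ}
    (hp : 0 < Cp) (hl : 0 < Cl) (h : Cp⁻¹ ≤ kp z w) (hn : Near Cl g z) :
    (2 * Cp * Cl)⁻¹ ≤ kp (ab g⁻¹ z) (ab g⁻¹ w) := by
  have e := kp_act g (J5_sph_cb hz) (J5_sph_cb hw)
  have h1 : kp w (zz g) ≤ 2 := kp_le_two (J5_sph_cb hw) (zz_mem g)
  have h2 : c g ^ 2 * kp z (zz g) ≤ Cl := by
    have := hn
    unfold Near at this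
    rw [kp_symm z (zz g)]
    linarith
  have hc : 0 ≤ c g ^ 2 := sq_nonneg _
  have h3 : c g ^ 2 * kp z (zz g) * kp w (zz g) ≤ Cl * 2 :=
    mul_le_mul h2 h1 (J5_kp_nonneg _ _) hl.le
  have h4 : Cp⁻¹ ≤ kp (ab g⁻¹ z) (ab g⁻¹ w) * (Cl * 2) := by
    refine h.trans ?_
    rw [← e]
    exact mul_le_mul_of_nonneg_left h3 (J5_kp_nonneg _ _)
  have h5 : (2 * Cp * Cl)⁻¹ = Cp⁻¹ / (Cl * 2) := by
    field_simp
  rw [h5, div_le_iff₀ (by positivity)]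
  exact h4

/-- the origin image stays far from the other point -/
theorem J5_far {g : GU (Fin 2)} {z w : Eb} (hz : z ∈ Sph) (hw : w ∈ Sph) {Cp Cl : ℝ}
    (hp : 0 < Cp) (hl : 1 ≤ Cl) (h : Cp⁻¹ ≤ kp z w) (hn : Near Cl g z) :
    (16 * Cp * Cl)⁻¹ ≤ kp (zz g) w := by
  have hl0 : 0 < Cl := by linarith
  have hc1 := c_ge_one g
  have hc0 : 0 < c g := by linarith
  have hc2 : 0 < c g ^ 2 := by positivity
  have h1 := kp_tri (J5_sph_cb hz) (J5_sph_cb hw) (zz_mem g)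
  have hn' : kp (zz g) z * c g ^ 2 ≤ Cl := hn
  by_cases hc : 8 * Cp * Cl ≤ c g ^ 2
  · have h2 : kp (zz g) z ≤ Cl / c g ^ 2 := by
      rw [le_div_iff₀ hc2]
      exact hn'
    have h3 : Cl / c g ^ 2 ≤ Cl / (8 * Cp * Cl) :=
      div_le_div_of_nonneg_left hl0.le (by positivity) hc
    have h4 : Cl / (8 * Cp * Cl) = Cp⁻¹ / 8 := by field_simp
    have h5 : (16 * Cp * Cl)⁻¹ ≤ Cp⁻¹ / 16 := by
      have e1 : (16 * Cp * Cl)⁻¹ = Cp⁻¹ / 16 * Cl⁻¹ := by field_simp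
      rw [e1]
      have e2 : Cl⁻¹ ≤ 1 := inv_le_one_of_one_le₀ hl
      have e3 : 0 ≤ Cp⁻¹ / 16 := by positivity
      nlinarith
    have h6 : 0 < Cp⁻¹ := by positivity
    linarith
  · push Not at hc
    have h2 := kp_ge (zz_mem g) (J5_sph_cb hw)
    have h3 := zz_norm g
    have h4 : ‖zz g‖ ≤ 1 := by
      have := zz_mem g
      simpa [Cb] using this
    have h5 : (c g ^ 2)⁻¹ ≤ 2 * (1 - ‖zz g‖) := by
      have h0 := norm_nonneg (zz g)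
      nlinarith
    have h6 : (8 * Cp * Cl)⁻¹ ≤ (c g ^ 2)⁻¹ := inv_anti₀ hc2 hc.le
    have h7 : (16 * Cp * Cl)⁻¹ = (8 * Cp * Cl)⁻¹ / 2 := by
      field_simp
      ring
    linarith

namespace Kd

variable (D : Kd G)

theorem J5_s1_pos (g : G) : 0 < s1 (D.R g) := by
  rcases (F0.s1_nonneg (D.R g)).eq_or_lt with h | h
  · exfalso
    have h1 := D.lo g
    have h2 := c_ge_one (D.σ g)
    have h3 := D.hC
    rw [← h, Real.zero_rpow D.hN.ne'] at h1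
    linarith
  · exact h

/-- the sizes become large along a ladder -/
theorem J5_big {w : ℕ → G} {Cl : ℝ} (hCl : 1 ≤ Cl)
    (h : ∀ i : ℕ, Real.exp i ≤ Cl * c (D.σ (w i))) (M : ℝ) : ∃ i, M ≤ s1 (D.R (w i)) := by
  have hM : 0 ≤ max M 0 := le_max_right _ _
  have hC := D.hC
  obtain ⟨i, hi⟩ := exists_nat_gt (Real.log (Cl * (D.C * (max M 0) ^ D.N) + 1))
  refine ⟨i, ?_⟩
  by_contra hlt
  push Not at hlt
  have hs : s1 (D.R (w i)) ≤ max M 0 := hlt.le.trans (le_max_left _ _)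
  have h1 : s1 (D.R (w i)) ^ D.N ≤ (max M 0) ^ D.N :=
    Real.rpow_le_rpow (F0.s1_nonneg _) hs D.hN.le
  have h2 := D.lo (w i)
  have h3 : c (D.σ (w i)) ≤ D.C * (max M 0) ^ D.N :=
    h2.trans (mul_le_mul_of_nonneg_left h1 (by linarith))
  have h4 : Real.exp i ≤ Cl * (D.C * (max M 0) ^ D.N) :=
    (h i).trans (mul_le_mul_of_nonneg_left h3 (by linarith))
  have hpos : 0 < Cl * (D.C * (max M 0) ^ D.N) + 1 := by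
    have : 0 ≤ (max M 0) ^ D.N := Real.rpow_nonneg hM _
    have : 0 ≤ Cl * (D.C * (max M 0) ^ D.N) := by
      apply mul_nonneg (by linarith)
      exact mul_nonneg (by linarith) this
    linarith
  have h5 : Cl * (D.C * (max M 0) ^ D.N) + 1 < Real.exp i := by
    rw [← Real.exp_log hpos]
    exact Real.exp_lt_exp.mpr hi
  linarith

/-- frames along a sequence -/
theorem J5_frames (w : ℕ → G) {k1 : M4} (hk1 : k1 ∈ D.FF) : ∃ kk : ℕ → M4, ∃ TT : ℕ → Tr,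
    (∀ i, kk i ∈ D.FF ∧ Rel (D.R (w i)) k1 (kk i) (TT i)) ∧
    ∀ i, ∃ S : Tr, Rel (D.R ((w i)⁻¹ * w (i + 1))) (kk i) (kk (i + 1)) S ∧
      ‖(TT (i + 1)).d2‖ = ‖(TT i).d2‖ * ‖S.d2‖ ∧ ‖(TT (i + 1)).d3‖ = ‖(TT i).d3‖ * ‖S.d3‖ := by
  classical
  let P : ℕ → Type := fun i => {p : M4 × Tr // p.1 ∈ D.FF ∧ Rel (D.R (w i)) k1 p.1 p.2}
  have h0 : Nonempty (P 0) := by
    obtain ⟨k', hk', T, hT⟩ := D.exists_tr (w 0) hk1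
    exact ⟨⟨(k', T), hk', hT⟩⟩
  have hs : ∀ i, ∀ p : P i, ∃ q : P (i + 1), ∃ S : Tr,
      Rel (D.R ((w i)⁻¹ * w (i + 1))) p.1.1 q.1.1 S ∧
      ‖q.1.2.d2‖ = ‖p.1.2.d2‖ * ‖S.d2‖ ∧ ‖q.1.2.d3‖ = ‖p.1.2.d3‖ * ‖S.d3‖ := by
    intro i p
    obtain ⟨k', hk', S, hS⟩ := D.exists_tr ((w i)⁻¹ * w (i + 1)) p.2.1
    obtain ⟨T'', h1, h2, h3, -, -⟩ := rel_comp D p.2.2 hS
    rw [mul_inv_cancel_left] at h1
    exact ⟨⟨(k', T''), hk', h1⟩, S, hS, h2, h3⟩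
  choose nx hnx using hs
  let f : ∀ i, P i := fun i => Nat.rec (motive := P) h0.some (fun i p => nx i p) i
  have hf : ∀ i, f (i + 1) = nx i (f i) := fun i => rfl
  refine ⟨fun i => (f i).1.1, fun i => (f i).1.2, fun i => (f i).2, fun i => ?_⟩
  obtain ⟨S, h1, h2, h3⟩ := hnx i (f i)
  exact ⟨S, h1, h2, h3⟩

/-- ratios along a ladder -/
theorem J5_ratio {w : ℕ → G} {F : Finset G} {CF : ℝ} (hCF : 1 ≤ CF)
    (hb : ∀ g ∈ F, ∀ k ∈ D.FF, ∀ k' ∈ D.FF, ∀ T : Tr,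
      Rel (D.R g) k k' T → ‖T.d2‖ ≤ CF ∧ ‖T.d3‖ ≤ CF ∧ ‖T.d2‖⁻¹ ≤ CF ∧ ‖T.d3‖⁻¹ ≤ CF)
    (hw0 : w 0 = 1) (h1F : (1 : G) ∈ F) (hwF : ∀ i, (w i)⁻¹ * w (i + 1) ∈ F)
    {k1 : M4} (hk1 : k1 ∈ D.FF) : ∃ kk : ℕ → M4, ∃ TT : ℕ → Tr,
    (∀ i, kk i ∈ D.FF ∧ Rel (D.R (w i)) k1 (kk i) (TT i)) ∧
    ((CF ^ 2)⁻¹ ≤ ‖(TT 0).d2‖ / ‖(TT 0).d3‖ ∧ ‖(TT 0).d2‖ / ‖(TT 0).d3‖ ≤ CF ^ 2) ∧
    ∀ i, ‖(TT (i + 1)).d2‖ / ‖(TT (i + 1)).d3‖ ≤ CF ^ 2 * (‖(TT i).d2‖ / ‖(TT i).d3‖) ∧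
      ‖(TT i).d2‖ / ‖(TT i).d3‖ ≤ CF ^ 2 * (‖(TT (i + 1)).d2‖ / ‖(TT (i + 1)).d3‖) := by
  obtain ⟨kk, TT, h1, h2⟩ := D.J5_frames w hk1
  have key : ∀ S : Tr, (‖S.d2‖ ≤ CF ∧ ‖S.d3‖ ≤ CF ∧ ‖S.d2‖⁻¹ ≤ CF ∧ ‖S.d3‖⁻¹ ≤ CF) →
      (CF ^ 2)⁻¹ ≤ ‖S.d2‖ / ‖S.d3‖ ∧ ‖S.d2‖ / ‖S.d3‖ ≤ CF ^ 2 := by
    intro S hS
    obtain ⟨a1, a2, a3, a4⟩ := hS
    have p2 : 0 < ‖S.d2‖ := norm_pos_iff.mpr S.h2
    have p3 : 0 < ‖S.d3‖ := norm_pos_iff.mpr S.h3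
    have hCF0 : 0 < CF := by linarith
    constructor
    · have e1 : CF⁻¹ ≤ ‖S.d2‖ := inv_le_of_inv_le₀ p2 a3
      have e2 : CF⁻¹ ≤ ‖S.d3‖⁻¹ := inv_anti₀ p3 a2
      calc (CF ^ 2)⁻¹ = CF⁻¹ * CF⁻¹ := by rw [sq, mul_inv]
        _ ≤ ‖S.d2‖ * ‖S.d3‖⁻¹ := mul_le_mul e1 e2 (by positivity) p2.le
        _ = ‖S.d2‖ / ‖S.d3‖ := (div_eq_mul_inv _ _).symm
    · calc ‖S.d2‖ / ‖S.d3‖ = ‖S.d2‖ * ‖S.d3‖⁻¹ := div_eq_mul_inv _ _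
        _ ≤ CF * CF := mul_le_mul a1 a4 (by positivity) hCF0.le
        _ = CF ^ 2 := (sq CF).symm
  refine ⟨kk, TT, h1, ?_, fun i => ?_⟩
  · have hR : Rel (D.R 1) k1 (kk 0) (TT 0) := by
      have := (h1 0).2
      rwa [hw0] at this
    exact key _ (hb 1 h1F k1 hk1 (kk 0) (h1 0).1 (TT 0) hR)
  · obtain ⟨S, hS, e2, e3⟩ := h2 i
    obtain ⟨b1, b2⟩ := key S (hb _ (hwF i) (kk i) (h1 i).1 (kk (i + 1)) (h1 (i + 1)).1 S hS)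
    have p2 : 0 < ‖(TT i).d2‖ := norm_pos_iff.mpr (TT i).h2
    have p3 : 0 < ‖(TT i).d3‖ := norm_pos_iff.mpr (TT i).h3
    have s2' : 0 < ‖S.d2‖ := norm_pos_iff.mpr S.h2
    have s3' : 0 < ‖S.d3‖ := norm_pos_iff.mpr S.h3
    have hq : 0 < ‖(TT i).d2‖ / ‖(TT i).d3‖ := div_pos p2 p3
    have e : ‖(TT (i + 1)).d2‖ / ‖(TT (i + 1)).d3‖ =
        ‖S.d2‖ / ‖S.d3‖ * (‖(TT i).d2‖ / ‖(TT i).d3‖) := by
      rw [e2, e3]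
      field_simp
    have hCF2 : 0 < CF ^ 2 := by positivity
    constructor
    · rw [e]
      exact mul_le_mul_of_nonneg_right b2 hq.le
    · rw [e]
      have b1' : 1 ≤ CF ^ 2 * (‖S.d2‖ / ‖S.d3‖) := by
        have := mul_le_mul_of_nonneg_left b1 hCF2.le
        rwa [mul_inv_cancel₀ hCF2.ne'] at this
      calc ‖(TT i).d2‖ / ‖(TT i).d3‖ = 1 * (‖(TT i).d2‖ / ‖(TT i).d3‖) := (one_mul _).symm
        _ ≤ CF ^ 2 * (‖S.d2‖ / ‖S.d3‖) * (‖(TT i).d2‖ / ‖(TT i).d3‖) :=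
          mul_le_mul_of_nonneg_right b1' hq.le
        _ = _ := by ring

/-- small ratios far from the point at infinity -/
theorem J5_small {a C : ℝ} (ha : 0 < a) {g : G} {T : Tr}
    (h : a * s1 (D.R g) ≤ ‖T.d3‖ ∧ ‖T.d3‖ ≤ C * s1 (D.R g) ∧
      ‖T.d2‖ * s1 (D.R g) ≤ C * s2 (D.R g) ∧ a * s1 (D.R g) ≤ ‖T.d2‖ * s2 (D.R g)) :
    ‖T.d2‖ / ‖T.d3‖ * s1 (D.R g) ^ D.ε ≤ C * D.C / a := by
  obtain ⟨h1, h2, h3, -⟩ := h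
  have hs := D.J5_s1_pos g
  have p3 : 0 < ‖T.d3‖ := norm_pos_iff.mpr T.h3
  have hC0 : 0 < C := by
    by_contra hn
    push Not at hn
    nlinarith
  have hD := D.hC
  have hgap := D.gap g
  have hre : s1 (D.R g) ^ (2 - D.ε) * s1 (D.R g) ^ D.ε = s1 (D.R g) ^ 2 := by
    rw [← Real.rpow_add hs]
    norm_num
  have hpe : 0 < s1 (D.R g) ^ D.ε := Real.rpow_pos_of_pos hs _
  rw [div_mul_eq_mul_div, div_le_div_iff₀ p3 ha]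
  have e1 : ‖T.d2‖ * s1 (D.R g) * s1 (D.R g) ^ D.ε ≤ C * D.C * s1 (D.R g) ^ 2 := by
    calc ‖T.d2‖ * s1 (D.R g) * s1 (D.R g) ^ D.ε ≤ C * s2 (D.R g) * s1 (D.R g) ^ D.ε :=
          mul_le_mul_of_nonneg_right h3 hpe.le
      _ ≤ C * (D.C * s1 (D.R g) ^ (2 - D.ε)) * s1 (D.R g) ^ D.ε :=
          mul_le_mul_of_nonneg_right (mul_le_mul_of_nonneg_left hgap hC0.le) hpe.le
      _ = C * D.C * (s1 (D.R g) ^ (2 - D.ε) * s1 (D.R g) ^ D.ε) := by ring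
      _ = _ := by rw [hre]
  have e2 : ‖T.d2‖ * s1 (D.R g) ^ D.ε ≤ C * D.C * s1 (D.R g) := by
    have : ‖T.d2‖ * s1 (D.R g) ^ D.ε * s1 (D.R g) ≤ C * D.C * s1 (D.R g) * s1 (D.R g) := by
      nlinarith
    exact le_of_mul_le_mul_right this hs
  calc ‖T.d2‖ * s1 (D.R g) ^ D.ε * a ≤ C * D.C * s1 (D.R g) * a :=
        mul_le_mul_of_nonneg_right e2 ha.le
    _ = C * D.C * (a * s1 (D.R g)) := by ring
    _ ≤ C * D.C * ‖T.d3‖ := mul_le_mul_of_nonneg_left h1 (by positivity)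

/-- large ratios near the point at infinity -/
theorem J5_large {a C : ℝ} (ha : 0 < a) {g : G} {T : Tr}
    (h : ‖T.d3‖ * s1 (D.R g) ≤ C ∧ a ≤ ‖T.d3‖ * s1 (D.R g) ∧
      ‖T.d2‖ * s1 (D.R g) ≤ C * s2 (D.R g) ∧ a * s1 (D.R g) ≤ ‖T.d2‖ * s2 (D.R g)) :
    a / (C * D.C) * s1 (D.R g) ^ D.ε ≤ ‖T.d2‖ / ‖T.d3‖ := by
  obtain ⟨h1, h2, -, h4⟩ := h
  have hs := D.J5_s1_pos g
  have p3 : 0 < ‖T.d3‖ := norm_pos_iff.mpr T.h3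
  have p2 : 0 < ‖T.d2‖ := norm_pos_iff.mpr T.h2
  have hC0 : 0 < C := lt_of_lt_of_le ha (h2.trans h1)
  have hD : 0 < D.C := by linarith [D.hC]
  have hgap := D.gap g
  have hre : s1 (D.R g) ^ (2 - D.ε) * s1 (D.R g) ^ D.ε = s1 (D.R g) ^ 2 := by
    rw [← Real.rpow_add hs]
    norm_num
  have hpe : 0 < s1 (D.R g) ^ D.ε := Real.rpow_pos_of_pos hs _
  have e1 : a * s1 (D.R g) * s1 (D.R g) ^ D.ε ≤ ‖T.d2‖ * D.C * s1 (D.R g) ^ 2 := by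
    calc a * s1 (D.R g) * s1 (D.R g) ^ D.ε ≤ ‖T.d2‖ * s2 (D.R g) * s1 (D.R g) ^ D.ε :=
          mul_le_mul_of_nonneg_right h4 hpe.le
      _ ≤ ‖T.d2‖ * (D.C * s1 (D.R g) ^ (2 - D.ε)) * s1 (D.R g) ^ D.ε :=
          mul_le_mul_of_nonneg_right (mul_le_mul_of_nonneg_left hgap p2.le) hpe.le
      _ = ‖T.d2‖ * D.C * (s1 (D.R g) ^ (2 - D.ε) * s1 (D.R g) ^ D.ε) := by ring
      _ = _ := by rw [hre]
  have e2 : a * s1 (D.R g) ^ D.ε ≤ ‖T.d2‖ * D.C * s1 (D.R g) := by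
    have : a * s1 (D.R g) ^ D.ε * s1 (D.R g) ≤ ‖T.d2‖ * D.C * s1 (D.R g) * s1 (D.R g) := by
      nlinarith
    exact le_of_mul_le_mul_right this hs
  rw [div_mul_eq_mul_div, div_le_div_iff₀ (by positivity) p3]
  calc a * s1 (D.R g) ^ D.ε * ‖T.d3‖ ≤ ‖T.d2‖ * D.C * s1 (D.R g) * ‖T.d3‖ :=
        mul_le_mul_of_nonneg_right e2 p3.le
    _ = ‖T.d2‖ * D.C * (‖T.d3‖ * s1 (D.R g)) := by ring
    _ ≤ ‖T.d2‖ * D.C * C := mul_le_mul_of_nonneg_left h1 (by positivity)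
    _ = ‖T.d2‖ * (C * D.C) := by ring

/-- there are arbitrarily large powers of sizes along a ladder -/
theorem J5_big' {w : ℕ → G} {Cl : ℝ} (hCl : 1 ≤ Cl)
    (h : ∀ i : ℕ, Real.exp i ≤ Cl * c (D.σ (w i))) (M : ℝ) :
    ∃ i, M ≤ s1 (D.R (w i)) ^ D.ε := by
  have hε := D.hε
  obtain ⟨i, hi⟩ := D.J5_big hCl h ((max M 0) ^ (D.ε⁻¹))
  refine ⟨i, ?_⟩
  have hM : 0 ≤ max M 0 := le_max_right _ _
  have h1 : ((max M 0) ^ (D.ε⁻¹)) ^ D.ε ≤ s1 (D.R (w i)) ^ D.ε :=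
    Real.rpow_le_rpow (Real.rpow_nonneg hM _) hi hε.le
  rw [← Real.rpow_mul hM, inv_mul_cancel₀ hε.ne', Real.rpow_one] at h1
  exact (le_max_left _ _).trans h1

/-- the final step of the proof: one rung of a ladder -/
theorem J5_fin {C₂ a₂ : ℝ} {r : ℝ}
    {sp : ℝ} (hr : ∀ k ∈ D.FF, ∀ μ t, sp ≤ kp (D.th k μ t) (D.t0 k) → ‖μ‖ ≤ r ∧ |t| ≤ r)
    {g1 w : G} {k k1 k2 : M4} {T1 T : Tr} (hk : k ∈ D.FF) (hk1 : k1 ∈ D.FF) (hk2 : k2 ∈ D.FF)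
    (h1 : Rel (D.R g1) k k1 T1) (h2 : Rel (D.R w) k1 k2 T) {x y : ℂ} {s : ℝ}
    (hsep : sp ≤ kp (ab (D.σ w)⁻¹ (D.th k1 x s)) (ab (D.σ w)⁻¹ (D.t0 k1)))
    (hlo : a₂ ≤ ‖y - x‖ / (‖T.d2‖ / ‖T.d3‖)) (hup : ‖y - x‖ / (‖T.d2‖ / ‖T.d3‖) ≤ C₂) :
    ∃ g : G, ∃ k' ∈ D.FF, ∃ T' : Tr, ∃ μb' : ℂ, ∃ tb' : ℝ, ∃ μ' : ℂ,
      Rel (D.R g) k k' T' ∧ T'.m μb' = T1.m x ∧
      T'.tr μb' tb' = T1.tr x s ∧ T'.m μ' = T1.m y ∧ a₂ ≤ ‖μ' - μb'‖ ∧ ‖μ' - μb'‖ ≤ C₂ ∧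
        ‖μb'‖ ≤ r ∧ |tb'| ≤ r := by
  obtain ⟨x', hx'⟩ := J5_m_surj T x
  obtain ⟨y', hy'⟩ := J5_m_surj T y
  obtain ⟨s', hs'⟩ := J5_tr_surj T x' s
  obtain ⟨T'', e1, -, -, e4, e5⟩ := rel_comp D h1 h2
  have p2 : 0 < ‖T.d2‖ := norm_pos_iff.mpr T.h2
  have p3 : 0 < ‖T.d3‖ := norm_pos_iff.mpr T.h3
  have hq : 0 < ‖T.d2‖ / ‖T.d3‖ := div_pos p2 p3
  have hn : ‖y' - x'‖ = ‖y - x‖ / (‖T.d2‖ / ‖T.d3‖) := by
    rw [eq_div_iff hq.ne', mul_comm, ← J5_m_sub, hx', hy']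
  obtain ⟨-, q2, q3⟩ := D.rel_cmp hk1 hk2 h2
  have q3' := q3 x' s'
  rw [hx', hs'] at q3'
  have hb : sp ≤ kp (D.th k2 x' s') (D.t0 k2) := by
    rw [q3', q2, J5_ab_inv _ (J5_sph_cb (D.A_spec hk2 x' s').1),
      J5_ab_inv _ (J5_sph_cb (D.t0_spec hk2).1)] at hsep
    exact hsep
  obtain ⟨r1, r2⟩ := hr k2 hk2 x' s' hb
  refine ⟨g1 * w, k2, hk2, T'', x', s', y', e1, ?_, ?_, ?_, ?_, ?_, r1, r2⟩
  · rw [e4, hx']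
  · rw [J5_comp_tr e5, hx', hs']
  · rw [e4, hy']
  · rw [hn]
    exact hlo
  · rw [hn]
    exact hup

/-- module J5: cocompactness on triples -/
theorem triples : ∃ C a : ℝ, 0 < a ∧ ∀ k ∈ D.FF, ∀ μb tb μ, μ ≠ μb → ∃ g : G, ∃ k' ∈ D.FF,
    ∃ T : Tr, ∃ μb' : ℂ, ∃ tb' : ℝ, ∃ μ' : ℂ, Rel (D.R g) k k' T ∧ T.m μb' = μb ∧
      T.tr μb' tb' = tb ∧ T.m μ' = μ ∧ a ≤ ‖μ' - μb'‖ ∧ ‖μ' - μb'‖ ≤ C ∧ ‖μb'‖ ≤ C ∧
        |tb'| ≤ C := by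
  classical
  obtain ⟨Cp, hCp, hpair⟩ := pair D.lat
  obtain ⟨Cl, F, hCl, hlad⟩ := ladder D.lat
  obtain ⟨CF0, hCF0⟩ := D.rel_bdd (insert 1 F)
  have hCp0 : 0 < Cp := by linarith
  have hCl0 : 0 < Cl := by linarith
  set CF : ℝ := max CF0 1 with hCFd
  have hCF : 1 ≤ CF := le_max_right _ _
  have hb : ∀ g ∈ insert 1 F, ∀ k ∈ D.FF, ∀ k' ∈ D.FF, ∀ T : Tr,
      Rel (D.R g) k k' T → ‖T.d2‖ ≤ CF ∧ ‖T.d3‖ ≤ CF ∧ ‖T.d2‖⁻¹ ≤ CF ∧ ‖T.d3‖⁻¹ ≤ CF := by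
    intro g hg k hk k' hk' T hT
    obtain ⟨b1, b2, b3, b4, -⟩ := hCF0 g hg k hk k' hk' T hT
    exact ⟨b1.trans (le_max_left _ _), b2.trans (le_max_left _ _), b3.trans (le_max_left _ _),
      b4.trans (le_max_left _ _)⟩
  obtain ⟨af, Cf, haf, hfar⟩ := D.coef_far (16 * Cp * Cl)⁻¹ (by positivity)
  obtain ⟨an, Cn, han, hnear⟩ := D.coef_near Cl
  obtain ⟨r, hr⟩ := D.far_box (2 * Cp * Cl)⁻¹ (by positivity)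
  have hCF2 : 1 ≤ CF ^ 2 := one_le_pow₀ hCF
  refine ⟨max (CF ^ 2) r, ((CF ^ 2) ^ 2)⁻¹, by positivity, ?_⟩
  intro k hk μb tb μ hμ
  obtain ⟨hθb, hθne, -⟩ := D.A_spec hk μb tb
  obtain ⟨hθ0, -⟩ := D.t0_spec hk
  obtain ⟨g1, -, -, hg1, -, -⟩ := hpair (D.t0 k) hθ0 (D.th k μb tb) hθb (Ne.symm hθne)
  obtain ⟨k1, hk1, T1, hT1⟩ := D.exists_tr g1 hk
  obtain ⟨-, q2, q3⟩ := D.rel_cmp hk hk1 hT1
  obtain ⟨x, hx⟩ := J5_m_surj T1 μb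
  obtain ⟨y, hy⟩ := J5_m_surj T1 μ
  obtain ⟨s, hs⟩ := J5_tr_surj T1 x tb
  have q3' := q3 x s
  rw [hx, hs] at q3'
  obtain ⟨hA, hAne, -⟩ := D.A_spec hk1 x s
  obtain ⟨hB, -⟩ := D.t0_spec hk1
  rw [q3', q2, J5_ab_inv _ (J5_sph_cb hA), J5_ab_inv _ (J5_sph_cb hB)] at hg1
  have hg1' : Cp⁻¹ ≤ kp (D.th k1 x s) (D.t0 k1) := by
    rw [kp_symm]
    exact hg1
  have hxy : 0 < ‖y - x‖ := by
    rw [norm_pos_iff, sub_ne_zero]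
    intro he
    apply hμ
    rw [← hx, ← hy, he]
  -- the two ladders
  obtain ⟨u, hu0, hu⟩ := hlad (D.th k1 x s) hA
  obtain ⟨v, hv0, hv⟩ := hlad (D.t0 k1) hB
  obtain ⟨ku, Tu, hU1, hU2, hU3⟩ := D.J5_ratio hCF hb hu0 (Finset.mem_insert_self _ _)
    (fun i => Finset.mem_insert_of_mem (hu i).2.2.2) hk1
  obtain ⟨kv, Tv, hV1, hV2, hV3⟩ := D.J5_ratio hCF hb hv0 (Finset.mem_insert_self _ _)
    (fun i => Finset.mem_insert_of_mem (hv i).2.2.2) hk1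
  have hposT : ∀ T : Tr, 0 < ‖T.d2‖ / ‖T.d3‖ := fun T =>
    div_pos (norm_pos_iff.mpr T.h2) (norm_pos_iff.mpr T.h3)
  have hCF4 : ((CF ^ 2) ^ 2)⁻¹ ≤ 1 := inv_le_one_of_one_le₀ (one_le_pow₀ hCF2)
  have hCFp : 0 < CF ^ 2 := by positivity
  -- conclusion from a good rung
  have fin_u : ∀ i, ((CF ^ 2) ^ 2)⁻¹ ≤ ‖y - x‖ / (‖(Tu i).d2‖ / ‖(Tu i).d3‖) →
      ‖y - x‖ / (‖(Tu i).d2‖ / ‖(Tu i).d3‖) ≤ CF ^ 2 → ∃ g : G, ∃ k' ∈ D.FF,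
    ∃ T : Tr, ∃ μb' : ℂ, ∃ tb' : ℝ, ∃ μ' : ℂ, Rel (D.R g) k k' T ∧ T.m μb' = μb ∧
      T.tr μb' tb' = tb ∧ T.m μ' = μ ∧ ((CF ^ 2) ^ 2)⁻¹ ≤ ‖μ' - μb'‖ ∧
        ‖μ' - μb'‖ ≤ max (CF ^ 2) r ∧ ‖μb'‖ ≤ max (CF ^ 2) r ∧ |tb'| ≤ max (CF ^ 2) r := by
    intro i h1 h2
    have hsep : (2 * Cp * Cl)⁻¹ ≤ kp (ab (D.σ (u i))⁻¹ (D.th k1 x s))
        (ab (D.σ (u i))⁻¹ (D.t0 k1)) := J5_sep hA hB hCp0 hCl0 hg1' (hu i).1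
    obtain ⟨g, k', hk', T, μb', tb', μ', z1, z2, z3, z4, z5, z6, z7, z8⟩ :=
      D.J5_fin hr hk hk1 (hU1 i).1 hT1 (hU1 i).2 hsep h1 h2
    refine ⟨g, k', hk', T, μb', tb', μ', z1, z2.trans hx, z3.trans hs, z4.trans hy, z5,
      z6.trans (le_max_left _ _), z7.trans (le_max_right _ _), z8.trans (le_max_right _ _)⟩
  have fin_v : ∀ i, ((CF ^ 2) ^ 2)⁻¹ ≤ ‖y - x‖ / (‖(Tv i).d2‖ / ‖(Tv i).d3‖) →
      ‖y - x‖ / (‖(Tv i).d2‖ / ‖(Tv i).d3‖) ≤ CF ^ 2 → ∃ g : G, ∃ k' ∈ D.FF,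
    ∃ T : Tr, ∃ μb' : ℂ, ∃ tb' : ℝ, ∃ μ' : ℂ, Rel (D.R g) k k' T ∧ T.m μb' = μb ∧
      T.tr μb' tb' = tb ∧ T.m μ' = μ ∧ ((CF ^ 2) ^ 2)⁻¹ ≤ ‖μ' - μb'‖ ∧
        ‖μ' - μb'‖ ≤ max (CF ^ 2) r ∧ ‖μb'‖ ≤ max (CF ^ 2) r ∧ |tb'| ≤ max (CF ^ 2) r := by
    intro i h1 h2
    have hsep : (2 * Cp * Cl)⁻¹ ≤ kp (ab (D.σ (v i))⁻¹ (D.th k1 x s))
        (ab (D.σ (v i))⁻¹ (D.t0 k1)) := by
      rw [kp_symm]
      exact J5_sep hB hA hCp0 hCl0 hg1 (hv i).1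
    obtain ⟨g, k', hk', T, μb', tb', μ', z1, z2, z3, z4, z5, z6, z7, z8⟩ :=
      D.J5_fin hr hk hk1 (hV1 i).1 hT1 (hV1 i).2 hsep h1 h2
    refine ⟨g, k', hk', T, μb', tb', μ', z1, z2.trans hx, z3.trans hs, z4.trans hy, z5,
      z6.trans (le_max_left _ _), z7.trans (le_max_right _ _), z8.trans (le_max_right _ _)⟩
  by_cases hm : ‖y - x‖ ≤ ‖(Tu 0).d2‖ / ‖(Tu 0).d3‖
  · -- go down the first ladder
    have hex : ∃ i, ‖(Tu i).d2‖ / ‖(Tu i).d3‖ ≤ ‖y - x‖ := by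
      obtain ⟨i, hi⟩ := D.J5_big' hCl (fun i => (hu i).2.1) (Cf * D.C / af / ‖y - x‖)
      refine ⟨i, ?_⟩
      have h1 := D.J5_small haf (hfar (u i) k1 hk1 (ku i) (hU1 i).1 (Tu i) (hU1 i).2
        (J5_far hA hB hCp0 hCl hg1' (hu i).1))
      have h2 : ‖(Tu i).d2‖ / ‖(Tu i).d3‖ * (Cf * D.C / af / ‖y - x‖) ≤ Cf * D.C / af :=
        (mul_le_mul_of_nonneg_left hi (hposT _).le).trans h1
      have hs0 : 0 < s1 (D.R (u i)) ^ D.ε := Real.rpow_pos_of_pos (D.J5_s1_pos _) _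
      have hK : 0 < Cf * D.C / af := lt_of_lt_of_le (mul_pos (hposT _) hs0) h1
      have h3 : ‖(Tu i).d2‖ / ‖(Tu i).d3‖ * (Cf * D.C / af / ‖y - x‖) =
          (‖(Tu i).d2‖ / ‖(Tu i).d3‖) / ‖y - x‖ * (Cf * D.C / af) := by ring
      rw [h3] at h2
      have h4 : (‖(Tu i).d2‖ / ‖(Tu i).d3‖) / ‖y - x‖ ≤ 1 := by
        by_contra hn
        push Not at hn
        nlinarith
      rwa [div_le_one hxy] at h4
    obtain ⟨i, hi, hmin⟩ : ∃ i, ‖(Tu i).d2‖ / ‖(Tu i).d3‖ ≤ ‖y - x‖ ∧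
        ∀ j, j < i → ¬ (‖(Tu j).d2‖ / ‖(Tu j).d3‖ ≤ ‖y - x‖) :=
      ⟨Nat.find hex, Nat.find_spec hex, fun j hj => Nat.find_min hex hj⟩
    apply fin_u i
    · refine hCF4.trans ?_
      rw [one_le_div (hposT _)]
      exact hi
    · rw [div_le_iff₀ (hposT _)]
      cases i with
      | zero =>
        refine hm.trans ?_
        exact le_mul_of_one_le_left (hposT _).le hCF2
      | succ j =>
        have h1 := hmin j (Nat.lt_succ_self j)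
        push Not at h1
        exact h1.le.trans (hU3 j).2
  · -- go up the second ladder
    push Not at hm
    have hex : ∃ i, ‖y - x‖ ≤ ‖(Tv i).d2‖ / ‖(Tv i).d3‖ := by
      have hCn : 0 < Cn := by
        have := hnear (v 0) k1 hk1 (kv 0) (hV1 0).1 (Tv 0) (hV1 0).2 (hv 0).1
        exact lt_of_lt_of_le han (this.2.1.trans this.1)
      have hD : 0 < D.C := by linarith [D.hC]
      obtain ⟨i, hi⟩ := D.J5_big' hCl (fun i => (hv i).2.1) (‖y - x‖ / (an / (Cn * D.C)))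
      refine ⟨i, ?_⟩
      have h1 := D.J5_large han (hnear (v i) k1 hk1 (kv i) (hV1 i).1 (Tv i) (hV1 i).2 (hv i).1)
      refine le_trans ?_ h1
      have hpos : 0 < an / (Cn * D.C) := by positivity
      rw [div_le_iff₀ hpos] at hi
      linarith
    obtain ⟨i, hi, hmin⟩ : ∃ i, ‖y - x‖ ≤ ‖(Tv i).d2‖ / ‖(Tv i).d3‖ ∧
        ∀ j, j < i → ¬ (‖y - x‖ ≤ ‖(Tv j).d2‖ / ‖(Tv j).d3‖) :=
      ⟨Nat.find hex, Nat.find_spec hex, fun j hj => Nat.find_min hex hj⟩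
    apply fin_v i
    · rw [le_div_iff₀ (hposT _)]
      cases i with
      | zero =>
        have h1 : ‖(Tv 0).d2‖ / ‖(Tv 0).d3‖ ≤ CF ^ 2 := hV2.2
        have h2 : (CF ^ 2)⁻¹ ≤ ‖(Tu 0).d2‖ / ‖(Tu 0).d3‖ := hU2.1
        calc ((CF ^ 2) ^ 2)⁻¹ * (‖(Tv 0).d2‖ / ‖(Tv 0).d3‖) ≤ ((CF ^ 2) ^ 2)⁻¹ * CF ^ 2 :=
              mul_le_mul_of_nonneg_left h1 (by positivity)
          _ = (CF ^ 2)⁻¹ := by
              field_simp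
          _ ≤ ‖y - x‖ := h2.trans hm.le
      | succ j =>
        have h1 := hmin j (Nat.lt_succ_self j)
        push Not at h1
        have h2 := (hV3 j).1
        calc ((CF ^ 2) ^ 2)⁻¹ * (‖(Tv (j + 1)).d2‖ / ‖(Tv (j + 1)).d3‖)
            ≤ ((CF ^ 2) ^ 2)⁻¹ * (CF ^ 2 * (‖(Tv j).d2‖ / ‖(Tv j).d3‖)) :=
              mul_le_mul_of_nonneg_left h2 (by positivity)
          _ = (CF ^ 2)⁻¹ * (‖(Tv j).d2‖ / ‖(Tv j).d3‖) := by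
              field_simp
          _ ≤ 1 * (‖(Tv j).d2‖ / ‖(Tv j).d3‖) :=
              mul_le_mul_of_nonneg_right (inv_le_one_of_one_le₀ hCF2) (hposT _).le
          _ ≤ ‖y - x‖ := by rw [one_mul]; exact h1.le
    · refine le_trans ?_ hCF2
      rw [div_le_one (hposT _)]
      exact hi

/-- module J5 -/
theorem II_bdd : ∃ C : ℝ, ∀ k ∈ D.FF, ∀ μb tb μ, μ ≠ μb → ‖II (D.A k) μb tb μ‖ ≤ C := by
  obtain ⟨C, a, ha, h⟩ := D.triples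
  let S : Set (M4 × ℂ × ℝ × ℂ) := D.FF ×ˢ (Metric.closedBall (0 : ℂ) C ×ˢ
    (Metric.closedBall (0 : ℝ) C ×ˢ Metric.closedBall (0 : ℂ) (C + C)))
  have hS : IsCompact S := D.ff_compact.prod ((isCompact_closedBall _ _).prod
    ((isCompact_closedBall _ _).prod (isCompact_closedBall _ _)))
  let Z : Set (M4 × ℂ × ℝ × ℂ) := {p | a ≤ ‖p.2.2.2 - p.2.1‖}
  have hZ : IsClosed Z := isClosed_le continuous_const (by fun_prop)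
  have hSZ : IsCompact (S ∩ Z) := hS.inter_right hZ
  have hsub : S ∩ Z ⊆ {p : M4 × ℂ × ℝ × ℂ | p.1 ∈ D.FF ∧ p.2.2.2 ≠ p.2.1} := by
    intro p hp
    refine ⟨hp.1.1, fun he => ?_⟩
    have h2' : a ≤ ‖p.2.2.2 - p.2.1‖ := hp.2
    rw [he, sub_self, norm_zero] at h2'
    linarith
  have hcont := D.II_cont.mono hsub
  obtain ⟨B, hB⟩ := hSZ.exists_bound_of_continuousOn hcont
  refine ⟨B, fun k hk μb tb μ hμ => ?_⟩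
  obtain ⟨g, k', hk', T, μb', tb', μ', z1, z2, z3, z4, z5, z6, z7, z8⟩ := h k hk μb tb μ hμ
  have hne : μ' ≠ μb' := by
    intro he
    rw [he, sub_self, norm_zero] at z5
    linarith
  have e := D.II_inv hk hk' z1 μb' tb' μ' hne
  rw [z2, z3, z4] at e
  rw [e]
  refine hB (k', μb', tb', μ') ⟨⟨hk', ?_, ?_, ?_⟩, z5⟩
  · simpa using z7
  · simpa using z8
  · have : ‖μ'‖ ≤ ‖μ' - μb'‖ + ‖μb'‖ := by
      calc ‖μ'‖ = ‖(μ' - μb') + μb'‖ := by rw [sub_add_cancel]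
        _ ≤ _ := norm_add_le _ _
    simp only [Metric.mem_closedBall, dist_zero_right]
    linarith

end Kd

end Pool.Agent.MPd01a95.KT
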