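import Mathlib
import Pool.Agent.Lib.MP_d01a95_gt_K.KDefs2
import Pool.Agent.Lib.MP_d01a95_gt_K.KA1
import Pool.Agent.Lib.MP_d01a95_gt_K.KA2
import Pool.Agent.Lib.MP_d01a95_gt_K.KA4
import Pool.Agent.Lib.MP_d01a95_gt_K.KF0
import Pool.Agent.Lib.MP_d01a95_gt_K.KF6
import Pool.Agent.Lib.MP_d01a95_gt_K.KH1
import Pool.Agent.Lib.MP_d01a95_gt_K.KH2
import Pool.Agent.Lib.MP_d01a95_gt_K.KH3
import Pool.Agent.Lib.MP_d01a95_gt_K.KH4
import Pool.Agent.Lib.MP_d01a95_gt_K.KJ1
import Pool.Agent.Lib.MP_d01a95_gt_K.KJ3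
import Pool.Agent.Lib.MP_d01a95_gt_K.KJ4
import Pool.Agent.Lib.MP_d01a95_gt_K.KJ5

set_option autoImplicit false
set_option linter.all false

open Matrix Filter Topology MeasureTheory
open scoped ContDiff

namespace Pool.Agent.MPd01a95.KT

open GU

variable {G : Type} [Group G]

namespace Kd

variable (D : Kd G)

/-- module JN: the form of the integral -/
theorem II_nn (hW : ∀ k ∈ D.FF, WL (D.A k)) {k : M4} (hk : k ∈ D.FF) (μb : ℂ) (tb : ℝ) :
    ∃ w : ℤ, ∀ μ, μ ≠ μb → II (D.A k) μb tb μ =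
      -(2 * Real.pi * Complex.I * w) - D.nn k μb tb * (star μb - star μ) / (μb - μ) := by
  obtain ⟨C, hC⟩ := D.II_bdd
  obtain ⟨w, n, h⟩ := II_form (D.ch hk) (hW k hk) μb tb ⟨C, fun μ hμ => hC k hk μb tb μ hμ⟩
  have e1 := h (μb + 1) (fun e => one_ne_zero (add_eq_left.1 e))
  have e2 := h (μb + Complex.I) (fun e => Complex.I_ne_zero (add_eq_left.1 e))
  have s1 : (star μb - star (μb + 1)) = -1 := by rw [star_add, star_one]; ring
  have s2 : (star μb - star (μb + Complex.I)) = Complex.I := by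
    rw [star_add, Complex.star_def, Complex.conj_I]; ring
  have s3 : μb - (μb + 1) = -1 := by ring
  have s4 : μb - (μb + Complex.I) = -Complex.I := by ring
  have hn : D.nn k μb tb = n := by
    unfold nn
    rw [e1, e2, s1, s2, s3, s4]
    have hI := Complex.I_ne_zero
    field_simp
    ring
  exact ⟨w, fun μ hμ => by rw [h μ hμ, hn]⟩

/-- module JN: transitions -/
theorem nn_tr (hW : ∀ k ∈ D.FF, WL (D.A k)) {g : G} {k k' : M4} (hk : k ∈ D.FF)
    (hk' : k' ∈ D.FF) {T : Tr} (h : Rel (D.R g) k k' T) (μb : ℂ) (tb : ℝ) :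
    star (T.d2 / T.d3) * D.nn k (T.m μb) (T.tr μb tb) = T.d2 / T.d3 * D.nn k' μb tb := by
  obtain ⟨w, hw⟩ := D.II_nn hW hk (T.m μb) (T.tr μb tb)
  obtain ⟨w', hw'⟩ := D.II_nn hW hk' μb tb
  have hal : T.d2 / T.d3 ≠ 0 := div_ne_zero T.h2 T.h3
  have hm : ∀ μ, T.m μb - T.m μ = T.d2 / T.d3 * (μb - μ) := fun μ => by
    unfold Tr.m
    ring
  have key : ∀ μ, μ ≠ μb →
      -(2 * Real.pi * Complex.I * w) - D.nn k (T.m μb) (T.tr μb tb) *
        (star (T.d2 / T.d3) * (star μb - star μ)) / (T.d2 / T.d3 * (μb - μ)) =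
      -(2 * Real.pi * Complex.I * w') - D.nn k' μb tb * (star μb - star μ) / (μb - μ) := by
    intro μ hμ
    have hne : T.m μ ≠ T.m μb := by
      intro e
      have h1 := hm μ
      rw [e, sub_self] at h1
      rcases mul_eq_zero.1 h1.symm with h2 | h2
      · exact hal h2
      · exact hμ (sub_eq_zero.1 h2).symm
    have h1 := D.II_inv hk hk' h μb tb μ hμ
    rw [hw _ hne, hw' _ hμ, hm μ] at h1
    have h2 : star (T.m μb) - star (T.m μ) = star (T.d2 / T.d3) * (star μb - star μ) := by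
      rw [← star_sub, hm μ, star_mul', star_sub]
    rw [h2] at h1
    exact h1
  have e1 := key (μb + 1) (fun e => one_ne_zero (add_eq_left.1 e))
  have e2 := key (μb + Complex.I) (fun e => Complex.I_ne_zero (add_eq_left.1 e))
  have s1 : (star μb - star (μb + 1)) = -1 := by rw [star_add, star_one]; ring
  have s2 : (star μb - star (μb + Complex.I)) = Complex.I := by
    rw [star_add, Complex.star_def, Complex.conj_I]; ring
  have s3 : μb - (μb + 1) = -1 := by ring
  have s4 : μb - (μb + Complex.I) = -Complex.I := by ring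
  rw [s1, s3] at e1
  rw [s2, s4] at e2
  have hI := Complex.I_ne_zero
  generalize D.nn k (T.m μb) (T.tr μb tb) = x at *
  generalize D.nn k' μb tb = y at *
  generalize star (T.d2 / T.d3) = al' at *
  generalize T.d2 / T.d3 = al at *
  have q1 : x * (al' * (-1)) / (al * (-1)) = x * al' / al := by
    field_simp
  have q2 : x * (al' * Complex.I) / (al * (-Complex.I)) = -(x * al' / al) := by
    field_simp
  have q3 : y * (-1) / (-1) = y := by ring
  have q4 : y * Complex.I / (-Complex.I) = -y := by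
    field_simp
  rw [q1, q3] at e1
  rw [q2, q4] at e2
  have e3 : x * al' / al = y := by
    linear_combination (-(1 : ℂ) / 2) * e1 + (1 / 2 : ℂ) * e2
  rw [← e3]
  field_simp

/-- module JN: continuity -/
theorem nn_cont : ContinuousOn (fun p : M4 × ℂ × ℝ => D.nn p.1 p.2.1 p.2.2)
    (D.FF ×ˢ Set.univ) := by
  have key : ∀ z : ℂ, z ≠ 0 → ContinuousOn
      (fun p : M4 × ℂ × ℝ => II (D.A p.1) p.2.1 p.2.2 (p.2.1 + z)) (D.FF ×ˢ Set.univ) := by
    intro z hz
    have h1 : Continuous fun p : M4 × ℂ × ℝ =>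
        ((p.1, p.2.1, p.2.2, p.2.1 + z) : M4 × ℂ × ℝ × ℂ) :=
      continuous_fst.prodMk (continuous_snd.fst.prodMk (continuous_snd.snd.prodMk
        (continuous_snd.fst.add continuous_const)))
    have h2 : Set.MapsTo (fun p : M4 × ℂ × ℝ =>
        ((p.1, p.2.1, p.2.2, p.2.1 + z) : M4 × ℂ × ℝ × ℂ)) (D.FF ×ˢ Set.univ)
        {p | p.1 ∈ D.FF ∧ p.2.2.2 ≠ p.2.1} := by
      rintro ⟨k, μb, tb⟩ hp
      refine ⟨hp.1, ?_⟩
      show μb + z ≠ μb
      exact fun e => hz (add_eq_left.1 e)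
    exact ContinuousOn.comp (g := fun p : M4 × ℂ × ℝ × ℂ => II (D.A p.1) p.2.1 p.2.2.1 p.2.2.2)
      (f := fun p : M4 × ℂ × ℝ => ((p.1, p.2.1, p.2.2, p.2.1 + z) : M4 × ℂ × ℝ × ℂ))
      D.II_cont h1.continuousOn h2
  have h3 := ((key 1 one_ne_zero).sub (key Complex.I Complex.I_ne_zero)).neg.div_const (2 : ℂ)
  refine h3.congr fun p _ => ?_
  show D.nn p.1 p.2.1 p.2.2 = _
  unfold nn
  rfl

end Kd

end Pool.Agent.MPd01a95.KT
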