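import Mathlib
import Pool.Agent.Lib.MP_d01a95_gt_K.KDefs2
import Pool.Agent.Lib.MP_d01a95_gt_K.KA1
import Pool.Agent.Lib.MP_d01a95_gt_K.KA2
import Pool.Agent.Lib.MP_d01a95_gt_K.KA4
import Pool.Agent.Lib.MP_d01a95_gt_K.KF0
import Pool.Agent.Lib.MP_d01a95_gt_K.KF6
import Pool.Agent.Lib.MP_d01a95_gt_K.KH1
import Pool.Agent.Lib.MP_d01a95_gt_K.KH2
import Pool.Agent.Lib.MP_d01a95_gt_K.KH3
import Pool.Agent.Lib.MP_d01a95_gt_K.KH4
import Pool.Agent.Lib.MP_d01a95_gt_K.KA3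
import Pool.Agent.Lib.MP_d01a95_gt_K.KA5
import Pool.Agent.Lib.MP_d01a95_gt_K.KJ1
import Pool.Agent.Lib.MP_d01a95_gt_K.KJ3
import Pool.Agent.Lib.MP_d01a95_gt_K.KJ4
import Pool.Agent.Lib.MP_d01a95_gt_K.KJ5
import Pool.Agent.Lib.MP_d01a95_gt_K.KJN

set_option autoImplicit false
set_option linter.all false

open Matrix Filter Topology MeasureTheory
open scoped ContDiff

namespace Pool.Agent.MPd01a95.KT

open GU

variable {G : Type} [Group G]

/-- a sequence which is close in the sense of the kernel to a convergent one converges -/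
theorem J6_close {x y : ℕ → Eb} {z : Eb} (hx : ∀ n, x n ∈ Cb) (hy : ∀ n, y n ∈ Cb)
    (h : Tendsto (fun n => kp (x n) (y n)) atTop (𝓝 0)) (hz : Tendsto y atTop (𝓝 z)) :
    Tendsto x atTop (𝓝 z) := by
  have h1 : Tendsto (fun n => ‖x n - y n‖ ^ 2) atTop (𝓝 0) := by
    refine squeeze_zero (fun n => by positivity) (fun n => kp_sq (hx n) (hy n)) ?_
    simpa using h.const_mul 2
  have h2 : Tendsto (fun n => ‖x n - y n‖) atTop (𝓝 0) := by
    have h3 := h1.sqrt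
    simp only [Real.sqrt_zero] at h3
    refine h3.congr fun n => ?_
    rw [Real.sqrt_sq (norm_nonneg _)]
  have h4 : Tendsto (fun n => x n - y n) atTop (𝓝 0) := tendsto_zero_iff_norm_tendsto_zero.2 h2
  have h5 := h4.add hz
  simpa using h5

/-- the kernel is jointly continuous along sequences -/
theorem J6_kp {x y : ℕ → Eb} {z w : Eb} (hx : Tendsto x atTop (𝓝 z))
    (hy : Tendsto y atTop (𝓝 w)) :
    Tendsto (fun n => kp (x n) (y n)) atTop (𝓝 (kp z w)) := by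
  have h1 : Tendsto (fun p : Eb × Eb => kp p.1 p.2) (𝓝 (z, w)) (𝓝 (kp z w)) :=
    kp_cont.tendsto (z, w)
  have h2 : Tendsto (fun n => (x n, y n)) atTop (𝓝 (z, w)) := hx.prodMk_nhds hy
  have h3 := h1.comp h2
  simpa only [Function.comp_def] using h3

theorem J6_zero_mem : (0 : Eb) ∈ Cb := by simp [Cb]

theorem J6_kp_zero (z : Eb) : kp z 0 = 1 := by simp [kp]

theorem J6_kp_zero' (z : Eb) : kp 0 z = 1 := by simp [kp]

/-- the distance of an image to the image of the origin -/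
theorem J6_orig (g : GU (Fin 2)) {z : Eb} (hz : z ∈ Cb) :
    kp (ab g z) (zz g) * (c g ^ 2 * kp z (zz g⁻¹)) = 1 := by
  have h := kp_ab g hz J6_zero_mem
  rw [ja_eq g hz, ja_eq g J6_zero_mem, J6_kp_zero, J6_kp_zero'] at h
  unfold zz at *
  linear_combination h

/-- a product which is one, with one factor going to infinity -/
theorem J6_inv {x y s : ℕ → ℝ} {b : ℝ} (hb : 0 < b) (h : ∀ n, x n * (s n ^ 2 * y n) = 1)
    (hy : Tendsto y atTop (𝓝 b)) (hs : Tendsto s atTop atTop) : Tendsto x atTop (𝓝 0) := by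
  have h1 : Tendsto (fun n => s n ^ 2 * y n) atTop atTop :=
    Tendsto.atTop_mul_pos hb ((tendsto_pow_atTop (two_ne_zero)).comp hs) hy
  exact (tendsto_inv_atTop_zero.comp h1).congr fun n => (eq_inv_of_mul_eq_one_left (h n)).symm

namespace Kd

variable (D : Kd G)

/-- points of the chart converge if their images do -/
theorem J6_conv {k : M4} (hk : k ∈ D.FF) {μb : ℂ} {tb : ℝ} {x : ℕ → ℂ} {t : ℕ → ℝ}
    (h : Tendsto (fun n => D.th k (x n) (t n)) atTop (𝓝 (D.th k μb tb))) :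
    Tendsto (fun n => (x n, t n)) atTop (𝓝 (μb, tb)) := by
  obtain ⟨hb1, hb2, _⟩ := D.A_spec hk μb tb
  obtain ⟨h01, _⟩ := D.t0_spec hk
  have hpos : 0 < kp (D.th k μb tb) (D.t0 k) :=
    kp_pos (Metric.sphere_subset_closedBall hb1) (Metric.sphere_subset_closedBall h01) hb2
  obtain ⟨r, hr⟩ := D.far_box (kp (D.th k μb tb) (D.t0 k) / 2) (by linarith)
  have h1 := J6_kp h (tendsto_const_nhds (x := D.t0 k))
  have h2 : ∀ᶠ n in atTop, kp (D.th k μb tb) (D.t0 k) / 2 ≤ kp (D.th k (x n) (t n)) (D.t0 k) :=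
    (h1.eventually (lt_mem_nhds (show kp (D.th k μb tb) (D.t0 k) / 2 < _ by linarith))).mono
      fun n hn => hn.le
  have hK : IsCompact (Metric.closedBall (0 : ℂ) r ×ˢ Metric.closedBall (0 : ℝ) r) :=
    (isCompact_closedBall _ _).prod (isCompact_closedBall _ _)
  refine hK.tendsto_nhds_of_unique_mapClusterPt ?_ ?_
  · filter_upwards [h2] with n hn
    obtain ⟨h3, h4⟩ := hr k hk _ _ hn
    exact ⟨by simpa using h3, by simpa using h4⟩
  · rintro ⟨y, s⟩ _ hc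
    have hcont : Continuous fun p : ℂ × ℝ => D.th k p.1 p.2 := by
      have : Continuous fun x : ℂ × ℝ => ((k, x.1, x.2) : M4 × ℂ × ℝ) := by fun_prop
      exact D.th_cont.comp_continuous this fun x => ⟨hk, Set.mem_univ _⟩
    have h5 := hc.tendsto_comp (hcont.tendsto (y, s))
    have h6 : D.th k y s = D.th k μb tb := by
      have h7 : Tendsto ((fun p : ℂ × ℝ => D.th k p.1 p.2) ∘ fun n => (x n, t n)) atTop
        (𝓝 (D.th k μb tb)) := h
      exact eq_of_nhds_neBot (ClusterPt.mono h5 h7)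
    obtain ⟨h8, h9⟩ := D.th_inj hk _ _ _ _ h6
    exact Prod.ext h8 h9

/-- a convergent subsequence of frames and unit numbers -/
theorem J6_sub {kk : ℕ → M4} (hkk : ∀ n, kk n ∈ D.FF) {w : ℕ → ℂ} (hw : ∀ n, ‖w n‖ = 1) :
    ∃ k' ∈ D.FF, ∃ u : ℂ, ‖u‖ = 1 ∧ ∃ φ : ℕ → ℕ, StrictMono φ ∧
      Tendsto (fun n => kk (φ n)) atTop (𝓝 k') ∧ Tendsto (fun n => w (φ n)) atTop (𝓝 u) := by
  haveI : FirstCountableTopology M4 := inferInstanceAs (FirstCountableTopology (Fin 4 → Fin 4 → ℂ))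
  obtain ⟨k', hk', φ, hφ, hlim⟩ := D.ff_compact.tendsto_subseq hkk
  obtain ⟨u, hu, ψ, hψ, hlim'⟩ := (isCompact_sphere (0 : ℂ) 1).tendsto_subseq
    (x := fun n => w (φ n)) (fun n => by simpa using hw (φ n))
  exact ⟨k', hk', u, by simpa using hu, fun n => φ (ψ n), hφ.comp hψ,
    hlim.comp hψ.tendsto_atTop, hlim'⟩

/-- limits of the points at infinity -/
theorem J6_t0 {kk : ℕ → M4} (hkk : ∀ n, kk n ∈ D.FF) {k' : M4} (hk' : k' ∈ D.FF)
    (h : Tendsto kk atTop (𝓝 k')) : Tendsto (fun n => D.t0 (kk n)) atTop (𝓝 (D.t0 k')) :=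
  (D.t0_cont k' hk').tendsto.comp (tendsto_nhdsWithin_iff.2 ⟨h, Eventually.of_forall fun n => hkk n⟩)

/-- limits in the parameter space -/
theorem J6_par {kk : ℕ → M4} (hkk : ∀ n, kk n ∈ D.FF) {k' : M4}
    (h : Tendsto kk atTop (𝓝 k')) {x : ℕ → ℂ × ℝ} {y : ℂ × ℝ} (hx : Tendsto x atTop (𝓝 y)) :
    Tendsto (fun n => ((kk n, x n) : M4 × ℂ × ℝ)) atTop (𝓝[D.FF ×ˢ Set.univ] (k', y)) :=
  tendsto_nhdsWithin_iff.2 ⟨h.prodMk_nhds hx, Eventually.of_forall fun n => ⟨hkk n, Set.mem_univ _⟩⟩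

/-- limits of points -/
theorem J6_th {kk : ℕ → M4} (hkk : ∀ n, kk n ∈ D.FF) {k' : M4} (hk' : k' ∈ D.FF)
    (h : Tendsto kk atTop (𝓝 k')) (μ : ℂ) (t : ℝ) :
    Tendsto (fun n => D.th (kk n) μ t) atTop (𝓝 (D.th k' μ t)) := by
  have h1 := D.J6_par hkk h (tendsto_const_nhds (x := (μ, t)))
  have h2 := (D.th_cont (k', μ, t) ⟨hk', Set.mem_univ _⟩).tendsto.comp h1
  simpa only [Function.comp_def] using h2

/-- limits of the coefficient -/
theorem J6_nn {kk : ℕ → M4} (hkk : ∀ n, kk n ∈ D.FF) {k' : M4} (hk' : k' ∈ D.FF)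
    (h : Tendsto kk atTop (𝓝 k')) {x : ℕ → ℂ} {s : ℕ → ℝ} {μ : ℂ} {t : ℝ}
    (hx : Tendsto (fun n => (x n, s n)) atTop (𝓝 (μ, t))) :
    Tendsto (fun n => D.nn (kk n) (x n) (s n)) atTop (𝓝 (D.nn k' μ t)) := by
  have h1 := D.J6_par hkk h hx
  have h2 := (D.nn_cont (k', μ, t) ⟨hk', Set.mem_univ _⟩).tendsto.comp h1
  simpa only [Function.comp_def] using h2

/-- the images of the origin converge to the direction -/
theorem J6_zz {θ : Eb} (hθ : θ ∈ Sph) {g : ℕ → G} (hn : ∀ n, Near D.C (D.σ (g n)) θ)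
    (hs : Tendsto (fun n => c (D.σ (g n))) atTop atTop) (hp : ∀ n, 0 < c (D.σ (g n))) :
    Tendsto (fun n => zz (D.σ (g n))) atTop (𝓝 θ) := by
  have hz1 : Tendsto (fun n => kp (zz (D.σ (g n))) θ) atTop (𝓝 0) := by
    have h1 : Tendsto (fun n => D.C / c (D.σ (g n)) ^ 2) atTop (𝓝 0) :=
      ((tendsto_pow_atTop two_ne_zero).comp hs).const_div_atTop _
    refine squeeze_zero (fun n => norm_nonneg _) (fun n => ?_) h1
    rw [le_div_iff₀ (pow_pos (hp _) 2)]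
    exact hn n
  exact J6_close (fun n => zz_mem _) (fun n => Metric.sphere_subset_closedBall hθ) hz1
    tendsto_const_nhds

/-- the core of the zooming: convergence of the images -/
theorem J6_core {k : M4} (hk : k ∈ D.FF) (μb : ℂ) (tb : ℝ) {g : ℕ → G}
    (hn : ∀ n, Near D.C (D.σ (g n)) (D.th k μb tb))
    (hs : Tendsto (fun n => c (D.σ (g n))) atTop atTop) (hp : ∀ n, 0 < c (D.σ (g n)))
    {kk : ℕ → M4} (hkk : ∀ n, kk n ∈ D.FF) {T : ℕ → Tr} (hT : ∀ n, Rel (D.R (g n)) k (kk n) (T n))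
    {k' : M4} (hk' : k' ∈ D.FF) (hlk : Tendsto kk atTop (𝓝 k')) (μ' : ℂ) (t' : ℝ) :
    Tendsto (fun n => D.th k ((T n).m μ') ((T n).tr μ' t')) atTop (𝓝 (D.th k μb tb)) := by
  obtain ⟨hb1, hb2, _⟩ := D.A_spec hk μb tb
  obtain ⟨h01, _⟩ := D.t0_spec hk
  have hcb : ∀ {θ : Eb}, θ ∈ Sph → θ ∈ Cb := fun h => Metric.sphere_subset_closedBall h
  have hz2 := D.J6_zz hb1 hn hs hp
  have hz3 := J6_kp hz2 (tendsto_const_nhds (x := D.t0 k))
  have hpos : 0 < kp (D.th k μb tb) (D.t0 k) := kp_pos (hcb hb1) (hcb h01) hb2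
  have ht0 : ∀ n, ab (D.σ (g n))⁻¹ (D.t0 k) = D.t0 (kk n) := fun n => by
    obtain ⟨_, h2, _⟩ := D.rel_cmp hk (hkk n) (hT n)
    rw [h2]
    exact J5_ab_inv _ (hcb (D.t0_spec (hkk n)).1)
  have hz4 : Tendsto (fun n => kp (zz (D.σ (g n))⁻¹) (D.t0 (kk n))) atTop (𝓝 0) := by
    refine J6_inv hpos (fun n => ?_) hz3 hs
    have h := near_dual (D.σ (g n)) h01
    rw [ht0] at h
    linear_combination h
  have hlt := D.J6_t0 hkk hk' hlk
  have hz5 : Tendsto (fun n => zz (D.σ (g n))⁻¹) atTop (𝓝 (D.t0 k')) :=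
    J6_close (fun n => zz_mem _) (fun n => hcb (D.t0_spec (hkk _)).1) hz4 hlt
  have hth := D.J6_th hkk hk' hlk μ' t'
  obtain ⟨hp1, hp2, _⟩ := D.A_spec hk' μ' t'
  have hz6 := J6_kp hth hz5
  have hpos' : 0 < kp (D.th k' μ' t') (D.t0 k') := kp_pos (hcb hp1) (hcb (D.t0_spec hk').1) hp2
  have hz7 : Tendsto (fun n => kp (ab (D.σ (g n)) (D.th (kk n) μ' t'))
      (zz (D.σ (g n)))) atTop (𝓝 0) :=
    J6_inv hpos' (fun n => J6_orig _ (hcb (D.A_spec (hkk _) _ _).1)) hz6 hs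
  have hz8 : Tendsto (fun n => ab (D.σ (g n)) (D.th (kk n) μ' t')) atTop
      (𝓝 (D.th k μb tb)) :=
    J6_close (fun n => ab_mem _ (hcb (D.A_spec (hkk _) _ _).1)) (fun n => zz_mem _) hz7 hz2
  refine hz8.congr fun n => ?_
  exact ((D.rel_cmp hk (hkk n) (hT n)).2.2 μ' t').symm

/-- module J6: zooming at a point -/
theorem zoom {k : M4} (hk : k ∈ D.FF) (hW : ∀ k ∈ D.FF, WL (D.A k)) (μb : ℂ) (tb : ℝ) :
    ∃ k' ∈ D.FF, ∃ u : ℂ, ‖u‖ = 1 ∧ ∀ μb' tb', D.nn k' μb' tb' = u * D.nn k μb tb := by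
  obtain ⟨hb1, hb2, _⟩ := D.A_spec hk μb tb
  choose g hg1 hg2 hg3 using fun n : ℕ => D.near (D.th k μb tb) hb1 ((n : ℝ) + 1)
    (by have := n.cast_nonneg (α := ℝ); linarith)
  choose kk hkk T hT using fun n : ℕ => D.exists_tr (g n) hk
  have hne : ∀ n, (T n).d2 / (T n).d3 ≠ 0 := fun n => div_ne_zero (T n).h2 (T n).h3
  obtain ⟨k', hk', u, hu, φ, hφ, hlk, hlu⟩ := D.J6_sub hkk
    (w := fun n => star ((T n).d2 / (T n).d3) / ((T n).d2 / (T n).d3)) (fun n => by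
      rw [norm_div, norm_star, div_self (norm_ne_zero_iff.2 (hne n))])
  refine ⟨k', hk', u, hu, fun μ' t' => ?_⟩
  have hs : Tendsto (fun n => c (D.σ (g (φ n)))) atTop atTop := by
    refine tendsto_atTop_mono (fun n => hg2 (φ n)) ?_
    exact (tendsto_atTop_add_const_right _ _ tendsto_natCast_atTop_atTop).comp hφ.tendsto_atTop
  have hcpos : ∀ n, 0 < c (D.σ (g n)) := fun n => by
    have := hg2 n; have h := n.cast_nonneg (α := ℝ); linarith
  have hz9 := D.J6_core hk μb tb (g := fun n => g (φ n)) (fun n => hg1 _) hs (fun n => hcpos _)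
    (kk := fun n => kk (φ n)) (fun n => hkk _) (T := fun n => T (φ n)) (fun n => hT _) hk' hlk μ' t'
  have hx := D.J6_conv hk hz9
  have hnn := D.J6_nn (kk := fun n => kk (φ n)) (fun n => hkk _) hk' hlk
    (tendsto_const_nhds (x := (μ', t')))
  have hnn2 := D.J6_nn (kk := fun _ => k) (fun n => hk) hk tendsto_const_nhds hx
  refine tendsto_nhds_unique hnn ((hlu.mul hnn2).congr fun n => ?_)
  have h := D.nn_tr hW hk (hkk (φ n)) (hT (φ n)) μ' t'
  rw [div_mul_eq_mul_div, div_eq_iff (hne (φ n)), mul_comm (D.nn (kk (φ n)) μ' t')]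
  exact h

end Kd

end Pool.Agent.MPd01a95.KT
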