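import Mathlib
import Pool.Agent.Lib.MP_d01a95_gt_K.KDefs2

set_option autoImplicit false
set_option linter.all false

open Matrix Filter Topology MeasureTheory
open scoped ContDiff

namespace Pool.Agent.MPd01a95.KT

open GU

variable {G : Type} [Group G]

/-- growth with a good exponent -/
theorem Ch.grow' {A : ℂ → ℝ → ℂ} (hA : Ch A) : ∃ ε : ℝ, 0 < ε ∧ ε < 1 ∧ ∀ r : ℝ, ∃ C : ℝ, 0 < C ∧
    ∀ μ t, ‖μ‖ ≤ r → ‖A μ t‖ ≤ C * (1 + |t|) ^ (1 - ε) := by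
  obtain ⟨ε, h1, h2⟩ := hA.grow
  refine ⟨min ε (1 / 2), by positivity, lt_of_le_of_lt (min_le_right _ _) (by norm_num),
    fun r => ?_⟩
  obtain ⟨C, hC⟩ := h2 r
  refine ⟨max C 1, by positivity, fun μ t h => (hC μ t h).trans ?_⟩
  have h3 : (1 : ℝ) ≤ 1 + |t| := by linarith [abs_nonneg t]
  have h4 : (1 + |t|) ^ (1 - ε) ≤ (1 + |t|) ^ (1 - min ε (1 / 2)) :=
    Real.rpow_le_rpow_of_exponent_le h3 (by linarith [min_le_left ε (1 / 2)])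
  have h5 : 0 ≤ (1 + |t|) ^ (1 - ε) := Real.rpow_nonneg (by linarith) _
  calc C * (1 + |t|) ^ (1 - ε) ≤ max C 1 * (1 + |t|) ^ (1 - ε) :=
        mul_le_mul_of_nonneg_right (le_max_left _ _) h5
    _ ≤ _ := mul_le_mul_of_nonneg_left h4 (by positivity)

/-- growth for one parameter -/
theorem KK3a_grow {A : ℂ → ℝ → ℂ} (hA : Ch A) (μ : ℂ) : ∃ ε C : ℝ, 0 < ε ∧ ε < 1 ∧ 0 < C ∧
    ∀ t : ℝ, ‖A μ t‖ ≤ C * ((1 + |t|) * (1 + |t|) ^ (-ε)) := by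
  obtain ⟨ε, h1, h2, h3⟩ := hA.grow'
  obtain ⟨C, hC, h4⟩ := h3 ‖μ‖
  refine ⟨ε, C, h1, h2, hC, fun t => (h4 μ t le_rfl).trans (le_of_eq ?_)⟩
  have h5 : (0 : ℝ) < 1 + |t| := by positivity
  rw [sub_eq_add_neg, Real.rpow_add h5, Real.rpow_one]

theorem KK3a_rpow_le {ε : ℝ} (hε : 0 < ε) (t : ℝ) : (1 + |t|) ^ (-ε) ≤ 1 :=
  Real.rpow_le_one_of_one_le_of_nonpos (by linarith [abs_nonneg t]) (by linarith)

theorem KK3a_cont {A : ℂ → ℝ → ℂ} (hA : Ch A) (μ : ℂ) : Continuous fun t : ℝ => A μ t := by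
  have h1 : Continuous fun t : ℝ => (μ, t) := by fun_prop
  exact hA.cont.comp h1

section

variable {A : ℂ → ℝ → ℂ} (hA : Ch A)

include hA

/-- module K3: bounded parameters -/
theorem Ks_far (μ : ℂ) (r : ℝ) : ∃ a T : ℝ, 0 < a ∧ ∀ δ κ : ℂ, ‖δ‖ ≤ r → ‖κ‖ ≤ r → ∀ t : ℝ, T ≤ |t| →
    a * (1 + |t|) ≤ ‖(t : ℂ) + δ * A μ t - κ‖ := by
  obtain ⟨ε, C, hε, hε1, hC, hg⟩ := KK3a_grow hA μ
  have h1 : Tendsto (fun s : ℝ => |r| * C * s ^ (-ε)) atTop (𝓝 (|r| * C * 0)) :=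
    (tendsto_rpow_neg_atTop hε).const_mul _
  rw [mul_zero] at h1
  have h2 : ∀ᶠ s : ℝ in atTop, |r| * C * s ^ (-ε) < 1 / 4 := h1.eventually_lt_const (by norm_num)
  obtain ⟨S, hS⟩ := eventually_atTop.mp h2
  refine ⟨1 / 2, max S (4 * (1 + |r|)), by norm_num, fun δ κ hδ hκ t ht => ?_⟩
  have hr : r ≤ |r| := le_abs_self r
  have t0 : (0 : ℝ) < 1 + |t| := by positivity
  have t1 : S ≤ 1 + |t| := by
    have := (le_max_left S (4 * (1 + |r|))).trans ht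
    linarith
  have t2 : 4 * (1 + |r|) ≤ |t| := (le_max_right S (4 * (1 + |r|))).trans ht
  have h3 := hS (1 + |t|) t1
  have h4 : ‖δ * A μ t‖ ≤ (1 / 4) * (1 + |t|) := by
    rw [norm_mul]
    calc ‖δ‖ * ‖A μ t‖ ≤ |r| * (C * ((1 + |t|) * (1 + |t|) ^ (-ε))) :=
          mul_le_mul (hδ.trans hr) (hg t) (norm_nonneg _) (abs_nonneg _)
      _ = (|r| * C * (1 + |t|) ^ (-ε)) * (1 + |t|) := by ring
      _ ≤ (1 / 4) * (1 + |t|) := mul_le_mul_of_nonneg_right h3.le t0.le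
  have h5 : ‖(t : ℂ)‖ = |t| := by rw [Complex.norm_real, Real.norm_eq_abs]
  have h6 : ‖(t : ℂ)‖ ≤ ‖(t : ℂ) + δ * A μ t - κ‖ + ‖δ * A μ t‖ + ‖κ‖ := by
    have e : (t : ℂ) = ((t : ℂ) + δ * A μ t - κ) - δ * A μ t + κ := by ring
    calc ‖(t : ℂ)‖ = ‖((t : ℂ) + δ * A μ t - κ) - δ * A μ t + κ‖ := by rw [← e]
      _ ≤ ‖((t : ℂ) + δ * A μ t - κ) - δ * A μ t‖ + ‖κ‖ := norm_add_le _ _
      _ ≤ _ := by
        have := norm_sub_le ((t : ℂ) + δ * A μ t - κ) (δ * A μ t)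
        linarith
  rw [h5] at h6
  linarith

/-- module K3 -/
theorem Ks_closed (μ δ : ℂ) : IsClosed (Ks A μ δ) := by
  have hc : Continuous fun t : ℝ => (t : ℂ) + δ * A μ t := by
    have := KK3a_cont hA μ
    fun_prop
  rw [← closure_subset_iff_isClosed]
  intro κ hκ
  obtain ⟨a, T, ha, hT⟩ := Ks_far hA μ (max ‖δ‖ ‖κ‖)
  have h1 : Ks A μ δ = (fun t : ℝ => (t : ℂ) + δ * A μ t) '' Set.Icc (-T) T ∪
      (fun t : ℝ => (t : ℂ) + δ * A μ t) '' {t | T ≤ |t|} := by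
    rw [← Set.image_union]
    have : Set.Icc (-T) T ∪ {t : ℝ | T ≤ |t|} = Set.univ := by
      ext t
      simp only [Set.mem_union, Set.mem_Icc, Set.mem_setOf_eq, Set.mem_univ, iff_true]
      rcases le_total T |t| with h | h
      · exact Or.inr h
      · exact Or.inl (abs_le.mp h)
    rw [this, Set.image_univ]
    rfl
  rw [h1, closure_union] at hκ
  rcases hκ with hκ | hκ
  · have h2 : IsClosed ((fun t : ℝ => (t : ℂ) + δ * A μ t) '' Set.Icc (-T) T) :=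
      (isCompact_Icc.image hc).isClosed
    rw [h2.closure_eq] at hκ
    rw [h1]
    exact Or.inl hκ
  · exfalso
    rw [Metric.mem_closure_iff] at hκ
    obtain ⟨b, ⟨t, ht, rfl⟩, hb⟩ := hκ a ha
    have h3 := hT δ κ (le_max_left _ _) (le_max_right _ _) t ht
    rw [dist_comm, dist_eq_norm] at hb
    have h4 : a ≤ a * (1 + |t|) := by nlinarith [abs_nonneg t]
    simp only at hb
    linarith

/-- the linear function does not vanish: quantitative form -/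
theorem KK3a_low (μ : ℂ) (δ κ : ℂ) (h : κ ∉ Ks A μ δ) :
    ∃ c : ℝ, 0 < c ∧ ∀ t : ℝ, c * (1 + |t|) ≤ ‖(t : ℂ) + δ * A μ t - κ‖ := by
  have hc : Continuous fun t : ℝ => ‖(t : ℂ) + δ * A μ t - κ‖ / (1 + |t|) := by
    have h1 := KK3a_cont hA μ
    have h2 : Continuous fun t : ℝ => ‖(t : ℂ) + δ * A μ t - κ‖ := by fun_prop
    have h3 : Continuous fun t : ℝ => 1 + |t| := by fun_prop
    exact h2.div h3 fun t => by positivity
  obtain ⟨a, T, ha, hT⟩ := Ks_far hA μ (max ‖δ‖ ‖κ‖)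
  have hne : (Set.Icc (-|T|) |T|).Nonempty := ⟨0, by simp, by simp⟩
  obtain ⟨t₀, ht₀, hmin⟩ := isCompact_Icc.exists_isMinOn hne hc.continuousOn
  have hpos : 0 < ‖(t₀ : ℂ) + δ * A μ t₀ - κ‖ / (1 + |t₀|) := by
    refine div_pos ?_ (by positivity)
    rw [norm_pos_iff]
    intro h0
    exact h ⟨t₀, by simpa [sub_eq_zero] using h0⟩
  refine ⟨min a (‖(t₀ : ℂ) + δ * A μ t₀ - κ‖ / (1 + |t₀|)), lt_min ha hpos, fun t => ?_⟩
  have t0 : (0 : ℝ) < 1 + |t| := by positivity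
  rcases le_total T |t| with h1 | h1
  · exact (mul_le_mul_of_nonneg_right (min_le_left _ _) t0.le).trans
      (hT δ κ (le_max_left _ _) (le_max_right _ _) t h1)
  · have h2 : t ∈ Set.Icc (-|T|) |T| := by
      have := h1.trans (le_abs_self T)
      exact abs_le.mp this
    have h3 := hmin h2
    simp only [Set.mem_setOf_eq] at h3
    have h4 : ‖(t₀ : ℂ) + δ * A μ t₀ - κ‖ / (1 + |t₀|) * (1 + |t|) ≤ ‖(t : ℂ) + δ * A μ t - κ‖ := by
      rw [← le_div_iff₀ t0]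
      exact h3
    exact (mul_le_mul_of_nonneg_right (min_le_right _ _) t0.le).trans h4

/-- the same in a neighbourhood -/
theorem KK3a_nhd (μ : ℂ) (p₀ : ℂ × ℂ) (h : p₀.2 ∉ Ks A μ p₀.1) :
    ∃ c ρ : ℝ, 0 < c ∧ 0 < ρ ∧ ∀ p ∈ Metric.ball p₀ ρ, ∀ t : ℝ,
      c * (1 + |t|) ≤ ‖(t : ℂ) + p.1 * A μ t - p.2‖ := by
  obtain ⟨ε, C, hε, hε1, hC, hg⟩ := KK3a_grow hA μ
  obtain ⟨c, hc, hl⟩ := KK3a_low hA μ p₀.1 p₀.2 h
  refine ⟨c / 2, c / (2 * (C + 1)), by positivity, by positivity, fun p hp t => ?_⟩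
  have t0 : (0 : ℝ) ≤ |t| := abs_nonneg t
  have t1 : (0 : ℝ) < 1 + |t| := by positivity
  have h1 := hl t
  rw [Metric.mem_ball] at hp
  have d1 : ‖p.1 - p₀.1‖ ≤ dist p p₀ := by
    rw [Prod.dist_eq, ← dist_eq_norm]; exact le_max_left _ _
  have d2 : ‖p.2 - p₀.2‖ ≤ dist p p₀ := by
    rw [Prod.dist_eq, ← dist_eq_norm]; exact le_max_right _ _
  have hA1 : ‖A μ t‖ ≤ C * (1 + |t|) := by
    refine (hg t).trans (mul_le_mul_of_nonneg_left ?_ hC.le)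
    have := KK3a_rpow_le hε t
    nlinarith
  have h2 : ‖(p₀.1 - p.1) * A μ t‖ ≤ dist p p₀ * (C * (1 + |t|)) := by
    rw [norm_mul, norm_sub_rev]
    exact mul_le_mul d1 hA1 (norm_nonneg _) dist_nonneg
  have h3 : ‖(t : ℂ) + p₀.1 * A μ t - p₀.2‖ ≤ ‖(t : ℂ) + p.1 * A μ t - p.2‖ +
      dist p p₀ * (C * (1 + |t|)) + dist p p₀ := by
    have e : (t : ℂ) + p₀.1 * A μ t - p₀.2 =
        ((t : ℂ) + p.1 * A μ t - p.2) + (p₀.1 - p.1) * A μ t + (p.2 - p₀.2) := by ring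
    rw [e]
    refine (norm_add_le _ _).trans ?_
    have := norm_add_le ((t : ℂ) + p.1 * A μ t - p.2) ((p₀.1 - p.1) * A μ t)
    linarith
  have h4 : dist p p₀ * (C * (1 + |t|)) + dist p p₀ ≤ (dist p p₀ * (C + 1)) * (1 + |t|) := by
    have : 0 ≤ dist p p₀ * |t| := mul_nonneg dist_nonneg t0
    nlinarith
  have h5 : dist p p₀ * (C + 1) ≤ c / 2 := by
    have : dist p p₀ * (C + 1) ≤ c / (2 * (C + 1)) * (C + 1) :=
      mul_le_mul_of_nonneg_right hp.le (by positivity)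
    refine this.trans (le_of_eq ?_)
    field_simp
  have h6 : (dist p p₀ * (C + 1)) * (1 + |t|) ≤ c / 2 * (1 + |t|) :=
    mul_le_mul_of_nonneg_right h5 t1.le
  linarith

omit hA in
/-- bounds for the weight -/
theorem KK3a_pw (ε : ℝ) (t : ℝ) : (1 + ‖t‖) ^ (-(1 + ε)) = (1 + |t|) ^ (-ε) * (1 + |t|)⁻¹ := by
  have h5 : (0 : ℝ) < 1 + |t| := by positivity
  rw [Real.norm_eq_abs, neg_add, add_comm (-1) (-ε), Real.rpow_add h5, Real.rpow_neg_one]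

omit hA in
theorem KK3a_ge {ε : ℝ} (hε1 : ε < 1) (t : ℝ) : 1 ≤ (1 + |t|) * (1 + |t|) ^ (-ε) := by
  have t1 : (0 : ℝ) < 1 + |t| := by positivity
  have h : (1 + |t|)⁻¹ ≤ (1 + |t|) ^ (-ε) := by
    rw [← Real.rpow_neg_one]
    exact Real.rpow_le_rpow_of_exponent_le (by linarith [abs_nonneg t]) (by linarith)
  have := mul_le_mul_of_nonneg_left h t1.le
  rw [mul_inv_cancel₀ t1.ne'] at this
  exact this

/-- integrability of the integrand -/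
theorem KK3a_int (μ : ℂ) (p₀ : ℂ × ℂ) (c : ℝ) (hc : 0 < c)
    (hl : ∀ t : ℝ, c * (1 + |t|) ≤ ‖(t : ℂ) + p₀.1 * A μ t - p₀.2‖) :
    Continuous (fun t : ℝ =>
      (1 / ((t : ℂ) + Complex.I) - 1 / ((t : ℂ) + p₀.1 * A μ t - p₀.2))) ∧
    Integrable fun t : ℝ =>
      (1 / ((t : ℂ) + Complex.I) - 1 / ((t : ℂ) + p₀.1 * A μ t - p₀.2)) := by
  obtain ⟨ε, C, hε, hε1, hC, hg⟩ := KK3a_grow hA μ
  have hAc := KK3a_cont hA μ
  have hne : ∀ t : ℝ, (t : ℂ) + p₀.1 * A μ t - p₀.2 ≠ 0 := by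
    intro t h0
    have := hl t
    rw [h0, norm_zero] at this
    have : 0 < c * (1 + |t|) := by positivity
    linarith
  have hIne : ∀ t : ℝ, (t : ℂ) + Complex.I ≠ 0 := by
    intro t h0
    have := congrArg Complex.im h0
    simp at this
  have hIn : ∀ t : ℝ, (1 / 2) * (1 + |t|) ≤ ‖(t : ℂ) + Complex.I‖ := by
    intro t
    have e1 : |t| ≤ ‖(t : ℂ) + Complex.I‖ := by
      have := Complex.abs_re_le_norm ((t : ℂ) + Complex.I)
      simpa using this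
    have e2 : 1 ≤ ‖(t : ℂ) + Complex.I‖ := by
      have := Complex.abs_im_le_norm ((t : ℂ) + Complex.I)
      simpa using this
    linarith
  have hcont : Continuous fun t : ℝ =>
      (1 / ((t : ℂ) + Complex.I) - 1 / ((t : ℂ) + p₀.1 * A μ t - p₀.2)) := by
    refine Continuous.sub ?_ ?_
    · exact continuous_const.div (by fun_prop) hIne
    · exact continuous_const.div (by fun_prop) hne
  have hbd : Integrable (fun t : ℝ => (1 + ‖t‖) ^ (-(1 + ε))) :=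
    integrable_one_add_norm (by simp; linarith)
  refine ⟨hcont, ?_⟩
  refine Integrable.mono' (hbd.const_mul ((‖p₀.1‖ * C + (‖p₀.2‖ + 1)) * (2 / c)))
    hcont.aestronglyMeasurable (ae_of_all _ fun t => ?_)
  have t1 : (0 : ℝ) < 1 + |t| := by positivity
  have hF := hl t
  have hI := hIn t
  have hFp : 0 < ‖(t : ℂ) + p₀.1 * A μ t - p₀.2‖ := lt_of_lt_of_le (by positivity) hF
  have hIp : 0 < ‖(t : ℂ) + Complex.I‖ := lt_of_lt_of_le (by positivity) hI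
  have e : 1 / ((t : ℂ) + Complex.I) - 1 / ((t : ℂ) + p₀.1 * A μ t - p₀.2) =
      (p₀.1 * A μ t - (p₀.2 + Complex.I)) /
        (((t : ℂ) + Complex.I) * ((t : ℂ) + p₀.1 * A μ t - p₀.2)) := by
    rw [div_sub_div _ _ (hIne t) (hne t)]
    congr 1
    ring
  rw [e, norm_div, norm_mul, div_le_iff₀ (by positivity), KK3a_pw]
  have n1 : ‖p₀.1 * A μ t - (p₀.2 + Complex.I)‖ ≤
      (‖p₀.1‖ * C + (‖p₀.2‖ + 1)) * ((1 + |t|) * (1 + |t|) ^ (-ε)) := by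
    have a1 := norm_sub_le (p₀.1 * A μ t) (p₀.2 + Complex.I)
    have a2 := norm_add_le p₀.2 Complex.I
    rw [Complex.norm_I] at a2
    rw [norm_mul] at a1
    have a3 : ‖p₀.1‖ * ‖A μ t‖ ≤ ‖p₀.1‖ * (C * ((1 + |t|) * (1 + |t|) ^ (-ε))) :=
      mul_le_mul_of_nonneg_left (hg t) (norm_nonneg _)
    have a4 := KK3a_ge hε1 t
    have a5 : (‖p₀.2‖ + 1) * 1 ≤ (‖p₀.2‖ + 1) * ((1 + |t|) * (1 + |t|) ^ (-ε)) :=
      mul_le_mul_of_nonneg_left a4 (by positivity)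
    nlinarith
  refine n1.trans ?_
  have n2 : (1 / 2) * (1 + |t|) * (c * (1 + |t|)) ≤
      ‖(t : ℂ) + Complex.I‖ * ‖(t : ℂ) + p₀.1 * A μ t - p₀.2‖ :=
    mul_le_mul hI hF (by positivity) hIp.le
  have n3 : 0 ≤ (‖p₀.1‖ * C + (‖p₀.2‖ + 1)) * (2 / c) * ((1 + |t|) ^ (-ε) * (1 + |t|)⁻¹) := by
    positivity
  have n4 := mul_le_mul_of_nonneg_left n2 n3
  refine le_trans (le_of_eq ?_) n4
  field_simp

omit hA in
/-- the derivative of the integrand -/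
noncomputable def KK3a_G (A : ℂ → ℝ → ℂ) (μ : ℂ) (p : ℂ × ℂ) (t : ℝ) : ℂ × ℂ →L[ℂ] ℂ :=
  (((t : ℂ) + p.1 * A μ t - p.2) ^ 2)⁻¹ •
      ((A μ t) • ContinuousLinearMap.fst ℂ ℂ ℂ - ContinuousLinearMap.snd ℂ ℂ ℂ)

/-- bound of the derivative -/
theorem KK3a_Gb (μ : ℂ) : ∃ ε C : ℝ, 0 < ε ∧ 0 < C ∧ ∀ (p : ℂ × ℂ) (c : ℝ), 0 < c →
    (∀ t : ℝ, c * (1 + |t|) ≤ ‖(t : ℂ) + p.1 * A μ t - p.2‖) →
    ∀ t : ℝ, ‖KK3a_G A μ p t‖ ≤ (C / c ^ 2) * (1 + ‖t‖) ^ (-(1 + ε)) := by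
  obtain ⟨ε, C, hε, hε1, hC, hg⟩ := KK3a_grow hA μ
  refine ⟨ε, C + 1, hε, by positivity, fun p c hc hl t => ?_⟩
  have t1 : (0 : ℝ) < 1 + |t| := by positivity
  have hF := hl t
  have hFp : 0 < ‖(t : ℂ) + p.1 * A μ t - p.2‖ := lt_of_lt_of_le (by positivity) hF
  unfold KK3a_G
  rw [norm_smul, norm_inv, norm_pow, KK3a_pw]
  have n1 : ‖(A μ t) • ContinuousLinearMap.fst ℂ ℂ ℂ - ContinuousLinearMap.snd ℂ ℂ ℂ‖ ≤
      (C + 1) * ((1 + |t|) * (1 + |t|) ^ (-ε)) := by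
    refine (norm_sub_le _ _).trans ?_
    rw [norm_smul]
    have b1 : ‖A μ t‖ * ‖ContinuousLinearMap.fst ℂ ℂ ℂ‖ ≤ ‖A μ t‖ * 1 :=
      mul_le_mul_of_nonneg_left (ContinuousLinearMap.norm_fst_le ℂ ℂ ℂ) (norm_nonneg _)
    have b2 := ContinuousLinearMap.norm_snd_le ℂ ℂ ℂ
    have a4 := KK3a_ge hε1 t
    have := hg t
    nlinarith
  have n2 : (‖(t : ℂ) + p.1 * A μ t - p.2‖ ^ 2)⁻¹ ≤ ((c * (1 + |t|)) ^ 2)⁻¹ := by
    refine inv_anti₀ (by positivity) ?_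
    exact pow_le_pow_left₀ (by positivity) hF 2
  have n3 := mul_le_mul n2 n1 (norm_nonneg _) (by positivity)
  refine n3.trans (le_of_eq ?_)
  field_simp

/-- the pointwise derivative -/
theorem KK3a_pt (μ : ℂ) (p : ℂ × ℂ) (t : ℝ) (hne : (t : ℂ) + p.1 * A μ t - p.2 ≠ 0) :
    HasFDerivAt (fun q : ℂ × ℂ => (1 / ((t : ℂ) + Complex.I) - 1 / ((t : ℂ) + q.1 * A μ t - q.2)))
      (KK3a_G A μ p t) p := by
  have e : ∀ q : ℂ × ℂ, (t : ℂ) + q.1 * A μ t - q.2 = (t : ℂ) +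
      ((A μ t) • ContinuousLinearMap.fst ℂ ℂ ℂ - ContinuousLinearMap.snd ℂ ℂ ℂ) q := by
    intro q
    simp [smul_eq_mul]
    ring
  have d1 : HasFDerivAt (fun q : ℂ × ℂ => (t : ℂ) + q.1 * A μ t - q.2)
      ((A μ t) • ContinuousLinearMap.fst ℂ ℂ ℂ - ContinuousLinearMap.snd ℂ ℂ ℂ) p := by
    have := (((A μ t) • ContinuousLinearMap.fst ℂ ℂ ℂ -
      ContinuousLinearMap.snd ℂ ℂ ℂ).hasFDerivAt (x := p)).const_add (t : ℂ)
    exact this.congr_of_eventuallyEq (Eventually.of_forall fun q => e q)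
  have d2 := (hasDerivAt_inv hne).comp_hasFDerivAt p d1
  have d3 := d2.const_sub (1 / ((t : ℂ) + Complex.I))
  have e2 : -(-(((t : ℂ) + p.1 * A μ t - p.2) ^ 2)⁻¹ •
      ((A μ t) • ContinuousLinearMap.fst ℂ ℂ ℂ - ContinuousLinearMap.snd ℂ ℂ ℂ)) =
      KK3a_G A μ p t := by
    unfold KK3a_G
    refine ContinuousLinearMap.ext fun v => ?_
    simp [smul_eq_mul]
  rw [e2] at d3
  refine d3.congr_of_eventuallyEq (Eventually.of_forall fun q => ?_)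
  simp [one_div]

/-- the derivative of the integral -/
theorem KK3a_deriv (μ : ℂ) (p₀ : ℂ × ℂ) (h : p₀.2 ∉ Ks A μ p₀.1) :
    Integrable (fun t : ℝ => KK3a_G A μ p₀ t) ∧
    HasFDerivAt (fun p : ℂ × ℂ => Ph A μ p.1 p.2) (∫ t : ℝ, KK3a_G A μ p₀ t) p₀ := by
  obtain ⟨ε, C, hε, hC, hbound⟩ := KK3a_Gb hA μ
  obtain ⟨c, ρ, hc, hρ, hl⟩ := KK3a_nhd hA μ p₀ h
  have hAc := KK3a_cont hA μ
  have hne : ∀ p ∈ Metric.ball p₀ ρ, ∀ t : ℝ, (t : ℂ) + p.1 * A μ t - p.2 ≠ 0 := by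
    intro p hp t h0
    have := hl p hp t
    rw [h0, norm_zero] at this
    have : 0 < c * (1 + |t|) := by positivity
    linarith
  have hb : p₀ ∈ Metric.ball p₀ ρ := Metric.mem_ball_self hρ
  have hbd : Integrable (fun t : ℝ => (1 + ‖t‖) ^ (-(1 + ε))) :=
    integrable_one_add_norm (by simp; linarith)
  have hmeas : AEStronglyMeasurable (fun t : ℝ => KK3a_G A μ p₀ t) := by
    refine Continuous.aestronglyMeasurable ?_
    unfold KK3a_G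
    have c1 : Continuous fun t : ℝ => (((t : ℂ) + p₀.1 * A μ t - p₀.2) ^ 2)⁻¹ :=
      Continuous.inv₀ (by fun_prop) fun t => pow_ne_zero 2 (hne p₀ hb t)
    have c2 : Continuous fun t : ℝ =>
        ((A μ t) • ContinuousLinearMap.fst ℂ ℂ ℂ - ContinuousLinearMap.snd ℂ ℂ ℂ) :=
      (hAc.smul continuous_const).sub continuous_const
    exact c1.smul c2
  refine ⟨Integrable.mono' (hbd.const_mul (C / c ^ 2)) hmeas
    (ae_of_all _ fun t => hbound p₀ c hc (hl p₀ hb) t), ?_⟩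
  unfold Ph
  refine hasFDerivAt_integral_of_dominated_of_fderiv_le
    (F' := fun (p : ℂ × ℂ) (t : ℝ) => KK3a_G A μ p t)
    (bound := fun t : ℝ => (C / c ^ 2) * (1 + ‖t‖) ^ (-(1 + ε)))
    (Metric.ball_mem_nhds p₀ hρ) ?_ (KK3a_int hA μ p₀ c hc (hl p₀ hb)).2 hmeas
    ?_ (hbd.const_mul (C / c ^ 2)) ?_
  · filter_upwards [Metric.ball_mem_nhds p₀ hρ] with p hp
    exact (KK3a_int hA μ p c hc (hl p hp)).1.aestronglyMeasurable
  · exact ae_of_all _ fun t p hp => hbound p c hc (hl p hp) t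
  · exact ae_of_all _ fun t p hp => KK3a_pt hA μ p t (hne p hp t)

/-- module K3 -/
theorem Ph_hol (μ : ℂ) : IsOpen {p : ℂ × ℂ | p.2 ∉ Ks A μ p.1} ∧
    DifferentiableOn ℂ (fun p : ℂ × ℂ => Ph A μ p.1 p.2) {p | p.2 ∉ Ks A μ p.1} ∧
    ∀ κ : ℂ, κ.im ≠ 0 → HasDerivAt (fun δ => Ph A μ δ κ) (∫ t : ℝ, A μ t / ((t : ℂ) - κ) ^ 2) 0 := by
  refine ⟨?_, ?_, ?_⟩
  · rw [Metric.isOpen_iff]
    intro p₀ h
    obtain ⟨c, ρ, hc, hρ, hl⟩ := KK3a_nhd hA μ p₀ h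
    refine ⟨ρ, hρ, fun p hp => ?_⟩
    rintro ⟨t, ht⟩
    have h1 := hl p hp t
    simp only at ht
    rw [ht, sub_self, norm_zero] at h1
    have : 0 < c * (1 + |t|) := by positivity
    linarith
  · intro p hp
    exact (KK3a_deriv hA μ p hp).2.differentiableAt.differentiableWithinAt
  · intro κ hκ
    have h0 : (((0 : ℂ), κ) : ℂ × ℂ).2 ∉ Ks A μ (((0 : ℂ), κ) : ℂ × ℂ).1 := by
      rintro ⟨t, ht⟩
      apply hκ
      simp only [zero_mul, add_zero] at ht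
      rw [← ht]
      simp
    obtain ⟨h1, h2⟩ := KK3a_deriv hA μ ((0 : ℂ), κ) h0
    have h3 : HasDerivAt (fun δ : ℂ => (δ, κ)) ((1 : ℂ), (0 : ℂ)) 0 :=
      (hasDerivAt_id (0 : ℂ)).prodMk (hasDerivAt_const (0 : ℂ) κ)
    have h4 := h2.comp_hasDerivAt (0 : ℂ) h3
    rw [ContinuousLinearMap.integral_apply h1] at h4
    have e : ∀ t : ℝ, (KK3a_G A μ ((0 : ℂ), κ) t)
        ((1 : ℂ), (0 : ℂ)) = A μ t / ((t : ℂ) - κ) ^ 2 := by
      intro t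
      unfold KK3a_G
      simp [smul_eq_mul]
      ring
    simp only [e] at h4
    exact h4

end

end Pool.Agent.MPd01a95.KT
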