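import Mathlib
import Pool.Agent.Lib.MP_d01a95_gt_K.KDefs2
import Pool.Agent.Lib.MP_d01a95_gt_K.KK3a

set_option autoImplicit false
set_option linter.all false

open Matrix Filter Topology MeasureTheory
open scoped ContDiff

namespace Pool.Agent.MPd01a95.KT

open GU

variable {G : Type} [Group G]

theorem KK3b_P {Y : ℝ} (hY : 0 < Y) : Integrable (fun t : ℝ => Y / (t ^ 2 + Y ^ 2)) ∧
    ∫ t : ℝ, Y / (t ^ 2 + Y ^ 2) = Real.pi := by
  have e : (fun t : ℝ => Y / (t ^ 2 + Y ^ 2)) = fun t => Y⁻¹ * (1 + (Y⁻¹ * t) ^ 2)⁻¹ := by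
    funext t
    have h1 : 0 < t ^ 2 + Y ^ 2 := by positivity
    have h2 : 0 < 1 + (Y⁻¹ * t) ^ 2 := by positivity
    rw [← div_eq_mul_inv, inv_eq_one_div, div_div, div_eq_div_iff h1.ne' (by positivity)]
    field_simp
    ring
  rw [e]
  refine ⟨(integrable_inv_one_add_sq.comp_mul_left' (inv_ne_zero hY.ne')).const_mul _, ?_⟩
  rw [integral_const_mul, Measure.integral_comp_mul_left (fun x : ℝ => (1 + x ^ 2)⁻¹) Y⁻¹,
    integral_univ_inv_one_add_sq, inv_inv, abs_of_pos hY, smul_eq_mul]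
  field_simp

theorem KK3b_ne (t y : ℝ) (hy : y ≠ 0) : (t : ℂ) + Complex.I * (y : ℂ) ≠ 0 := by
  intro h
  have h1 := congrArg Complex.im h
  simp at h1
  exact hy h1

theorem KK3b_norm (t y : ℝ) : ‖(t : ℂ) + Complex.I * (y : ℂ)‖ = Real.sqrt (t ^ 2 + y ^ 2) := by
  rw [mul_comm, Complex.norm_add_mul_I]

theorem KK3b_H {s Y : ℝ} (hs : s = 1 ∨ s = -1) (hY : 0 < Y) :
    Integrable (fun t : ℝ => 1 / ((t : ℂ) + Complex.I) -
      1 / ((t : ℂ) + Complex.I * ((s * Y : ℝ) : ℂ))) ∧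
    ∫ t : ℝ, (1 / ((t : ℂ) + Complex.I) - 1 / ((t : ℂ) + Complex.I * ((s * Y : ℝ) : ℂ))) =
      -(Complex.I * Real.pi) + Complex.I * (s * Real.pi) := by
  have hs2 : s ^ 2 = 1 := by rcases hs with h | h <;> rw [h] <;> norm_num
  have hs0 : s ≠ 0 := by rcases hs with h | h <;> rw [h] <;> norm_num
  have hy0 : s * Y ≠ 0 := mul_ne_zero hs0 hY.ne'
  have hyy : (s * Y) ^ 2 = Y ^ 2 := by rw [mul_pow, hs2, one_mul]
  have hi : ∀ t : ℝ, (t : ℂ) + Complex.I ≠ 0 := fun t => by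
    have := KK3b_ne t 1 one_ne_zero
    simpa using this
  have hP1 := KK3b_P (Y := 1) one_pos
  have hPY := KK3b_P hY
  have hint : Integrable (fun t : ℝ => 1 / ((t : ℂ) + Complex.I) -
      1 / ((t : ℂ) + Complex.I * ((s * Y : ℝ) : ℂ))) := by
    have hb : Integrable (fun t : ℝ => |s * Y - 1| * (1 / (t ^ 2 + 1 ^ 2) +
        Y⁻¹ * (Y / (t ^ 2 + Y ^ 2)))) := (hP1.1.add (hPY.1.const_mul _)).const_mul _
    refine hb.mono' ?_ (Filter.Eventually.of_forall fun t => ?_)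
    · apply Measurable.aestronglyMeasurable
      have : Measurable fun t : ℝ => (t : ℂ) := Complex.measurable_ofReal
      fun_prop
    · have e1 : 1 / ((t : ℂ) + Complex.I) - 1 / ((t : ℂ) + Complex.I * ((s * Y : ℝ) : ℂ)) =
          Complex.I * (((s * Y - 1 : ℝ)) : ℂ) /
            (((t : ℂ) + Complex.I) * ((t : ℂ) + Complex.I * ((s * Y : ℝ) : ℂ))) := by
        rw [div_sub_div _ _ (hi t) (KK3b_ne t _ hy0)]
        congr 1
        push_cast
        ring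
      have n1 : ‖(t : ℂ) + Complex.I‖ = Real.sqrt (t ^ 2 + 1 ^ 2) := by
        have := KK3b_norm t 1
        simpa using this
      rw [e1, norm_div, norm_mul, norm_mul, Complex.norm_I, one_mul, Complex.norm_real,
        Real.norm_eq_abs, n1, KK3b_norm, hyy, div_eq_mul_one_div]
      refine mul_le_mul_of_nonneg_left ?_ (abs_nonneg _)
      have p1 : 0 < t ^ 2 + 1 ^ 2 := by positivity
      have p2 : 0 < t ^ 2 + Y ^ 2 := by positivity
      have q1 := Real.sqrt_pos.mpr p1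
      have q2 := Real.sqrt_pos.mpr p2
      have r1 := Real.sq_sqrt p1.le
      have r2 := Real.sq_sqrt p2.le
      have e2 : Y⁻¹ * (Y / (t ^ 2 + Y ^ 2)) = 1 / (t ^ 2 + Y ^ 2) := by
        field_simp
      rw [e2]
      have e3 : 1 / (Real.sqrt (t ^ 2 + 1 ^ 2) * Real.sqrt (t ^ 2 + Y ^ 2)) =
          (1 / Real.sqrt (t ^ 2 + 1 ^ 2)) * (1 / Real.sqrt (t ^ 2 + Y ^ 2)) := by field_simp
      have e4 : 1 / (t ^ 2 + 1 ^ 2) = (1 / Real.sqrt (t ^ 2 + 1 ^ 2)) ^ 2 := by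
        rw [div_pow, r1, one_pow]
      have e5 : 1 / (t ^ 2 + Y ^ 2) = (1 / Real.sqrt (t ^ 2 + Y ^ 2)) ^ 2 := by
        rw [div_pow, r2, one_pow]
      rw [e3, e4, e5]
      nlinarith [sq_nonneg (1 / Real.sqrt (t ^ 2 + 1 ^ 2) - 1 / Real.sqrt (t ^ 2 + Y ^ 2)),
        sq_nonneg (1 / Real.sqrt (t ^ 2 + 1 ^ 2)), sq_nonneg (1 / Real.sqrt (t ^ 2 + Y ^ 2))]
  refine ⟨hint, ?_⟩
  set h : ℝ → ℂ := fun t : ℝ => 1 / ((t : ℂ) + Complex.I) -
      1 / ((t : ℂ) + Complex.I * ((s * Y : ℝ) : ℂ)) with hh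
  have hsum : ∀ t : ℝ, h t + h (-t) = -(2 * Complex.I) * ((1 / (t ^ 2 + 1 ^ 2) : ℝ) : ℂ) +
      (2 * Complex.I * s) * ((Y / (t ^ 2 + Y ^ 2) : ℝ) : ℂ) := by
    intro t
    have a1 := hi t
    have a2 : -(t : ℂ) + Complex.I ≠ 0 := by
      have := hi (-t)
      simpa using this
    have a3 := KK3b_ne t _ hy0
    have a4 : -(t : ℂ) + Complex.I * ((s * Y : ℝ) : ℂ) ≠ 0 := by
      have := KK3b_ne (-t) _ hy0
      simpa using this
    have b1 : 1 / ((t : ℂ) + Complex.I) + 1 / (-(t : ℂ) + Complex.I) =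
        -(2 * Complex.I) * ((1 / (t ^ 2 + 1 ^ 2) : ℝ) : ℂ) := by
      have c1 : ((t : ℂ) + Complex.I) * (-(t : ℂ) + Complex.I) = -((t : ℂ) ^ 2 + 1 ^ 2) := by
        ring_nf
        rw [Complex.I_sq]
        ring
      have c2 : ((t : ℂ) ^ 2 + 1 ^ 2) ≠ 0 := by
        intro h0
        rw [h0, neg_zero] at c1
        exact (mul_ne_zero a1 a2) c1
      rw [div_add_div _ _ a1 a2, c1]
      push_cast
      field_simp
      ring
    have b2 : 1 / ((t : ℂ) + Complex.I * ((s * Y : ℝ) : ℂ)) +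
        1 / (-(t : ℂ) + Complex.I * ((s * Y : ℝ) : ℂ)) =
        -((2 * Complex.I * s) * ((Y / (t ^ 2 + Y ^ 2) : ℝ) : ℂ)) := by
      have c1 : ((t : ℂ) + Complex.I * ((s * Y : ℝ) : ℂ)) *
          (-(t : ℂ) + Complex.I * ((s * Y : ℝ) : ℂ)) = -((t : ℂ) ^ 2 + (Y : ℂ) ^ 2) := by
        have c0 : (((s * Y : ℝ)) : ℂ) ^ 2 = (Y : ℂ) ^ 2 := by
          rw [← Complex.ofReal_pow, hyy, Complex.ofReal_pow]
        ring_nf
        rw [Complex.I_sq, c0]
        ring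
      have c2 : ((t : ℂ) ^ 2 + (Y : ℂ) ^ 2) ≠ 0 := by
        intro h0
        rw [h0, neg_zero] at c1
        exact (mul_ne_zero a3 a4) c1
      rw [div_add_div _ _ a3 a4, c1]
      push_cast
      field_simp
      ring
    have b3 : h t + h (-t) = (1 / ((t : ℂ) + Complex.I) + 1 / (-(t : ℂ) + Complex.I)) -
        (1 / ((t : ℂ) + Complex.I * ((s * Y : ℝ) : ℂ)) +
        1 / (-(t : ℂ) + Complex.I * ((s * Y : ℝ) : ℂ))) := by
      simp only [hh]
      push_cast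
      ring
    rw [b3, b1, b2]
    ring
  have h2 : ∫ t : ℝ, (h t + h (-t)) = 2 * ∫ t : ℝ, h t := by
    rw [integral_add hint hint.comp_neg, integral_neg_eq_self]
    ring
  have h3 : ∫ t : ℝ, (h t + h (-t)) = -(2 * Complex.I) * Real.pi +
      (2 * Complex.I * s) * Real.pi := by
    simp_rw [hsum]
    rw [integral_add (hP1.1.ofReal.const_mul _) (hPY.1.ofReal.const_mul _), integral_const_mul,
      integral_const_mul, integral_complex_ofReal, integral_complex_ofReal, hP1.2, hPY.2]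
  have h4 : 2 * ∫ t : ℝ, h t = 2 * (-(Complex.I * Real.pi) + Complex.I * (s * Real.pi)) := by
    rw [← h2, h3]
    ring
  exact mul_left_cancel₀ two_ne_zero h4

theorem KK3b_D {B : ℝ → ℂ} (hB : Continuous B) {C ε : ℝ} (hC : 0 < C) (h0 : 0 < ε) (h1 : ε < 1)
    (hBb : ∀ t, ‖B t‖ ≤ C * (1 + |t|) ^ (1 - ε)) {s : ℝ} (hs : s = 1 ∨ s = -1) :
    (∀ᶠ Y : ℝ in atTop, Integrable fun t : ℝ => 1 / ((t : ℂ) + Complex.I * ((s * Y : ℝ) : ℂ)) -
      1 / ((t : ℂ) + B t + Complex.I * ((s * Y : ℝ) : ℂ))) ∧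
    Tendsto (fun Y : ℝ => ∫ t : ℝ, (1 / ((t : ℂ) + Complex.I * ((s * Y : ℝ) : ℂ)) -
      1 / ((t : ℂ) + B t + Complex.I * ((s * Y : ℝ) : ℂ)))) atTop (𝓝 0) := by
  have hs2 : s ^ 2 = 1 := by rcases hs with h | h <;> rw [h] <;> norm_num
  have hs0 : s ≠ 0 := by rcases hs with h | h <;> rw [h] <;> norm_num
  have hsa : |s| = 1 := by rcases hs with h | h <;> rw [h] <;> norm_num
  -- a threshold
  obtain ⟨X, hX⟩ : ∃ X : ℝ, 1 ≤ X ∧ ∀ x : ℝ, X ≤ x → 4 * C ≤ x ^ ε := by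
    have := (tendsto_rpow_atTop h0).eventually_ge_atTop (4 * C)
    obtain ⟨X, hX⟩ := eventually_atTop.mp this
    exact ⟨max X 1, le_max_right _ _, fun x hx => hX x ((le_max_left _ _).trans hx)⟩
  obtain ⟨hX1, hX2⟩ := hX
  have key : ∀ Y : ℝ, max 1 (4 * (C * X)) ≤ Y → ∀ t : ℝ, ‖B t‖ ≤ (|t| + Y) / 4 := by
    intro Y hY t
    have hY1 : 1 ≤ Y := (le_max_left _ _).trans hY
    have hY2 : 4 * (C * X) ≤ Y := (le_max_right _ _).trans hY
    have ht := abs_nonneg t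
    have ht1 : (1 : ℝ) ≤ 1 + |t| := by linarith
    refine (hBb t).trans ?_
    rcases le_total X (1 + |t|) with hx | hx
    · have h2 := hX2 _ hx
      have h3 : (1 + |t|) ^ (1 - ε) * (1 + |t|) ^ ε = 1 + |t| := by
        rw [← Real.rpow_add (by linarith)]
        simp
      have h4 : 0 < (1 + |t|) ^ (1 - ε) := Real.rpow_pos_of_pos (by linarith) _
      have h5 : 4 * C * (1 + |t|) ^ (1 - ε) ≤ 1 + |t| := by
        calc 4 * C * (1 + |t|) ^ (1 - ε) ≤ (1 + |t|) ^ ε * (1 + |t|) ^ (1 - ε) :=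
              mul_le_mul_of_nonneg_right h2 h4.le
          _ = _ := by rw [mul_comm, h3]
      linarith
    · have h2 : (1 + |t|) ^ (1 - ε) ≤ (1 + |t|) ^ (1 : ℝ) :=
        Real.rpow_le_rpow_of_exponent_le ht1 (by linarith)
      rw [Real.rpow_one] at h2
      have h3 : C * (1 + |t|) ^ (1 - ε) ≤ C * X :=
        mul_le_mul_of_nonneg_left (h2.trans hx) hC.le
      linarith
  have nlow : ∀ Y : ℝ, 0 < Y → ∀ t : ℝ, (|t| + Y) / 2 ≤
      ‖(t : ℂ) + Complex.I * ((s * Y : ℝ) : ℂ)‖ := by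
    intro Y hY t
    rw [KK3b_norm]
    apply Real.le_sqrt_of_sq_le
    have h2 : (s * Y) ^ 2 = Y ^ 2 := by rw [mul_pow, hs2, one_mul]
    rw [h2]
    have h3 : |t| ^ 2 = t ^ 2 := sq_abs t
    nlinarith [sq_nonneg (|t| - Y), sq_nonneg t]
  have nlow2 : ∀ Y : ℝ, max 1 (4 * (C * X)) ≤ Y → ∀ t : ℝ, (|t| + Y) / 4 ≤
      ‖(t : ℂ) + B t + Complex.I * ((s * Y : ℝ) : ℂ)‖ := by
    intro Y hY t
    have hY1 : 1 ≤ Y := (le_max_left _ _).trans hY
    have h2 := nlow Y (by linarith) t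
    have h3 := key Y hY t
    have h4 : (t : ℂ) + Complex.I * ((s * Y : ℝ) : ℂ) =
        ((t : ℂ) + B t + Complex.I * ((s * Y : ℝ) : ℂ)) - B t := by ring
    have h5 : ‖(t : ℂ) + Complex.I * ((s * Y : ℝ) : ℂ)‖ ≤
        ‖(t : ℂ) + B t + Complex.I * ((s * Y : ℝ) : ℂ)‖ + ‖B t‖ := by
      conv_lhs => rw [h4]
      exact norm_sub_le _ _
    linarith
  have bd : ∀ Y : ℝ, max 1 (4 * (C * X)) ≤ Y → ∀ t : ℝ,
      ‖1 / ((t : ℂ) + Complex.I * ((s * Y : ℝ) : ℂ)) -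
      1 / ((t : ℂ) + B t + Complex.I * ((s * Y : ℝ) : ℂ))‖ ≤ 8 * ‖B t‖ / (|t| + Y) ^ 2 := by
    intro Y hY t
    have hY1 : 1 ≤ Y := (le_max_left _ _).trans hY
    have ht := abs_nonneg t
    have hp : 0 < |t| + Y := by linarith
    have u1 := nlow Y (by linarith) t
    have u2 := nlow2 Y hY t
    have v1 : 0 < ‖(t : ℂ) + Complex.I * ((s * Y : ℝ) : ℂ)‖ := by linarith
    have v2 : 0 < ‖(t : ℂ) + B t + Complex.I * ((s * Y : ℝ) : ℂ)‖ := by linarith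
    have w1 := norm_pos_iff.mp v1
    have w2 := norm_pos_iff.mp v2
    have e1 : 1 / ((t : ℂ) + Complex.I * ((s * Y : ℝ) : ℂ)) -
        1 / ((t : ℂ) + B t + Complex.I * ((s * Y : ℝ) : ℂ)) =
        B t / (((t : ℂ) + Complex.I * ((s * Y : ℝ) : ℂ)) *
          ((t : ℂ) + B t + Complex.I * ((s * Y : ℝ) : ℂ))) := by
      rw [div_sub_div _ _ w1 w2]
      congr 1
      ring
    rw [e1, norm_div, norm_mul]
    have h3 : (|t| + Y) ^ 2 / 8 ≤ ‖(t : ℂ) + Complex.I * ((s * Y : ℝ) : ℂ)‖ *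
        ‖(t : ℂ) + B t + Complex.I * ((s * Y : ℝ) : ℂ)‖ := by
      calc (|t| + Y) ^ 2 / 8 = (|t| + Y) / 2 * ((|t| + Y) / 4) := by ring
        _ ≤ _ := mul_le_mul u1 u2 (by positivity) v1.le
    rw [div_le_div_iff₀ (by positivity) (by positivity)]
    have h4 : ‖B t‖ * (|t| + Y) ^ 2 ≤ 8 * ‖B t‖ * ((|t| + Y) ^ 2 / 8) := by
      rw [show 8 * ‖B t‖ * ((|t| + Y) ^ 2 / 8) = ‖B t‖ * (|t| + Y) ^ 2 by ring]
    exact h4.trans (mul_le_mul_of_nonneg_left h3 (by positivity))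
  have bd2 : ∀ Y : ℝ, max 1 (4 * (C * X)) ≤ Y → ∀ t : ℝ,
      8 * ‖B t‖ / (|t| + Y) ^ 2 ≤ 8 * C * (1 + ‖t‖) ^ (-(1 + ε)) := by
    intro Y hY t
    have hY1 : 1 ≤ Y := (le_max_left _ _).trans hY
    have ht := abs_nonneg t
    have hp : 0 < |t| + Y := by linarith
    have hq : 0 < 1 + |t| := by linarith
    rw [Real.norm_eq_abs, div_le_iff₀ (by positivity)]
    have e1 : (1 + |t|) ^ (-(1 + ε)) * (1 + |t|) ^ (2 : ℝ) = (1 + |t|) ^ (1 - ε) := by
      rw [← Real.rpow_add hq]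
      congr 1
      ring
    rw [Real.rpow_two] at e1
    have e2 : (1 + |t|) ^ 2 ≤ (|t| + Y) ^ 2 := pow_le_pow_left₀ hq.le (by linarith) 2
    have e3 : 0 ≤ (1 + |t|) ^ (-(1 + ε)) := Real.rpow_nonneg hq.le _
    calc 8 * ‖B t‖ ≤ 8 * (C * (1 + |t|) ^ (1 - ε)) := by linarith [hBb t]
      _ = 8 * C * ((1 + |t|) ^ (-(1 + ε)) * (1 + |t|) ^ 2) := by rw [e1]; ring
      _ ≤ 8 * C * ((1 + |t|) ^ (-(1 + ε)) * (|t| + Y) ^ 2) := by
          refine mul_le_mul_of_nonneg_left (mul_le_mul_of_nonneg_left e2 e3) (by positivity)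
      _ = _ := by ring
  have bint : Integrable (fun t : ℝ => 8 * C * (1 + ‖t‖) ^ (-(1 + ε))) := by
    refine Integrable.const_mul ?_ _
    exact integrable_one_add_norm (by simp [h0])
  have meas : ∀ Y : ℝ, AEStronglyMeasurable (fun t : ℝ =>
      1 / ((t : ℂ) + Complex.I * ((s * Y : ℝ) : ℂ)) -
      1 / ((t : ℂ) + B t + Complex.I * ((s * Y : ℝ) : ℂ))) volume := by
    intro Y
    apply Measurable.aestronglyMeasurable
    have m1 : Measurable fun t : ℝ => (t : ℂ) := Complex.measurable_ofReal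
    have m2 : Measurable B := hB.measurable
    fun_prop
  have ev : ∀ᶠ Y : ℝ in atTop, max 1 (4 * (C * X)) ≤ Y := eventually_ge_atTop _
  refine ⟨?_, ?_⟩
  · filter_upwards [ev] with Y hY
    exact bint.mono' (meas Y) (Filter.Eventually.of_forall fun t => (bd Y hY t).trans (bd2 Y hY t))
  · have h0' : (0 : ℂ) = ∫ t : ℝ, (0 : ℂ) := by simp
    rw [h0']
    refine tendsto_integral_filter_of_dominated_convergence
      (fun t : ℝ => 8 * C * (1 + ‖t‖) ^ (-(1 + ε))) (Filter.Eventually.of_forall meas) ?_ bint ?_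
    · filter_upwards [ev] with Y hY
      exact Filter.Eventually.of_forall fun t => (bd Y hY t).trans (bd2 Y hY t)
    · refine Filter.Eventually.of_forall fun t => ?_
      have l1 : Tendsto (fun Y : ℝ => 8 * ‖B t‖ / (|t| + Y) ^ 2) atTop (𝓝 0) := by
        apply Tendsto.const_div_atTop
        have : Tendsto (fun Y : ℝ => |t| + Y) atTop atTop :=
          tendsto_atTop_add_const_left _ _ tendsto_id
        exact (tendsto_pow_atTop two_ne_zero).comp this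
      refine squeeze_zero_norm' ?_ l1
      filter_upwards [ev] with Y hY
      exact bd Y hY t

section

variable {A : ℂ → ℝ → ℂ} (hA : Ch A)

include hA

theorem KK3b_main (μ δ : ℂ) {s : ℝ} (hs : s = 1 ∨ s = -1) :
    Tendsto (fun Y : ℝ => Ph A μ δ (-(Complex.I * ((s * Y : ℝ) : ℂ)))) atTop
      (𝓝 (-(Complex.I * Real.pi) + Complex.I * (s * Real.pi))) := by
  obtain ⟨ε, h0, h1, h2⟩ := hA.grow'
  obtain ⟨C, hC, h3⟩ := h2 ‖μ‖
  have hcont : Continuous fun t : ℝ => δ * A μ t := by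
    have h4 : Continuous fun t : ℝ => A μ t :=
      hA.cont.comp (f := fun t : ℝ => ((μ, t) : ℂ × ℝ)) (by fun_prop)
    exact continuous_const.mul h4
  have hb : ∀ t : ℝ, ‖δ * A μ t‖ ≤ ((‖δ‖ + 1) * C) * (1 + |t|) ^ (1 - ε) := by
    intro t
    have h4 : 0 ≤ (1 + |t|) ^ (1 - ε) := Real.rpow_nonneg (by positivity) _
    rw [norm_mul]
    calc ‖δ‖ * ‖A μ t‖ ≤ (‖δ‖ + 1) * (C * (1 + |t|) ^ (1 - ε)) :=
          mul_le_mul (by linarith) (h3 μ t le_rfl) (norm_nonneg _) (by positivity)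
      _ = _ := by ring
  obtain ⟨hi, hl⟩ := KK3b_D hcont (mul_pos (by positivity) hC) h0 h1 hb hs
  have e : (fun Y : ℝ => (-(Complex.I * Real.pi) + Complex.I * (s * Real.pi)) +
      ∫ t : ℝ, (1 / ((t : ℂ) + Complex.I * ((s * Y : ℝ) : ℂ)) -
      1 / ((t : ℂ) + δ * A μ t + Complex.I * ((s * Y : ℝ) : ℂ)))) =ᶠ[atTop]
      fun Y : ℝ => Ph A μ δ (-(Complex.I * ((s * Y : ℝ) : ℂ))) := by
    filter_upwards [hi, eventually_gt_atTop 0] with Y hY hpos
    obtain ⟨g1, g2⟩ := KK3b_H hs hpos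
    rw [← g2, ← integral_add g1 hY, Ph]
    congr 1
    funext t
    rw [sub_neg_eq_add]
    ring
  refine Tendsto.congr' e ?_
  have := (tendsto_const_nhds (x := (-(Complex.I * Real.pi) + Complex.I * (s * Real.pi)))).add hl
  rw [add_zero] at this
  exact this

/-- module K3 -/
theorem Ph_low (μ δ : ℂ) : Tendsto (fun Y : ℝ => Ph A μ δ (-(Complex.I * Y))) atTop (𝓝 0) := by
  have h := KK3b_main hA μ δ (s := 1) (Or.inl rfl)
  have e : (-(Complex.I * Real.pi) + Complex.I * ((1 : ℝ) * Real.pi) : ℂ) = 0 := by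
    push_cast
    ring
  rw [e] at h
  simpa using h

/-- module K3 -/
theorem Ph_up (μ δ : ℂ) : Tendsto (fun Y : ℝ => Ph A μ δ (Complex.I * Y)) atTop
    (𝓝 (-(2 * Real.pi * Complex.I))) := by
  have h := KK3b_main hA μ δ (s := -1) (Or.inr rfl)
  have e : (-(Complex.I * Real.pi) + Complex.I * ((-1 : ℝ) * Real.pi) : ℂ) =
      -(2 * Real.pi * Complex.I) := by
    push_cast
    ring
  rw [e] at h
  refine h.congr fun Y => ?_
  congr 1
  push_cast
  ring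

end

end Pool.Agent.MPd01a95.KT
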