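import Mathlib
import Pool.Agent.Lib.MP_d01a95_gt_K.KDefs2
import Pool.Agent.Lib.MP_d01a95_gt_K.KK3a

set_option autoImplicit false
set_option linter.all false

open Matrix Filter Topology MeasureTheory
open scoped ContDiff

namespace Pool.Agent.MPd01a95.KT

open GU

variable {G : Type} [Group G]

section

variable {A : ℂ → ℝ → ℂ} (hA : Ch A)

include hA

/-- points of the curve with bounded real part are bounded -/
theorem KK3c_bd (μ δ : ℂ) (R : ℝ) : ∃ M : ℝ, ∀ z ∈ Ks A μ δ, |z.re| ≤ R → |z.im| ≤ M := by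
  obtain ⟨ε, hε0, hε1, hg⟩ := hA.grow'
  obtain ⟨C, hC, hCA⟩ := hg ‖μ‖
  have hAt : ∀ t, ‖A μ t‖ ≤ C * (1 + |t|) ^ (1 - ε) := fun t => hCA μ t le_rfl
  set T : ℝ := (2 * ‖δ‖ * C + 1) ^ (1 / ε) with hT
  have hb0 : (0 : ℝ) ≤ 2 * ‖δ‖ * C + 1 := by positivity
  have hT0 : 0 ≤ T := Real.rpow_nonneg hb0 _
  refine ⟨‖δ‖ * (C * (1 + (T + (2 * |R| + 1)))), ?_⟩
  rintro z ⟨t, rfl⟩ hz
  have ht0 : (0 : ℝ) < 1 + |t| := by positivity
  have ht1 : (1 : ℝ) ≤ 1 + |t| := by linarith [abs_nonneg t]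
  have hle : (1 + |t|) ^ (1 - ε) ≤ 1 + |t| := by
    calc (1 + |t|) ^ (1 - ε) ≤ (1 + |t|) ^ (1 : ℝ) :=
          Real.rpow_le_rpow_of_exponent_le ht1 (by linarith)
      _ = 1 + |t| := Real.rpow_one _
  have hbt : |t| ≤ T + (2 * |R| + 1) := by
    by_cases hcase : T ≤ |t|
    · have h1 : 2 * ‖δ‖ * C + 1 ≤ (1 + |t|) ^ ε := by
        have h2 : T ^ ε ≤ (1 + |t|) ^ ε :=
          Real.rpow_le_rpow hT0 (by linarith) hε0.le
        have h3 : T ^ ε = 2 * ‖δ‖ * C + 1 := by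
          rw [hT, ← Real.rpow_mul hb0, one_div, inv_mul_cancel₀ hε0.ne', Real.rpow_one]
        linarith
      have h4 : (1 + |t|) ^ (1 - ε) * (1 + |t|) ^ ε = 1 + |t| := by
        rw [← Real.rpow_add ht0, sub_add_cancel, Real.rpow_one]
      have h5 : 0 ≤ (1 + |t|) ^ (1 - ε) := Real.rpow_nonneg ht0.le _
      have h6 : ‖δ‖ * (C * (1 + |t|) ^ (1 - ε)) ≤ (1 + |t|) / 2 := by
        have h7 : (1 + |t|) ^ (1 - ε) * (2 * ‖δ‖ * C + 1) ≤ 1 + |t| := by
          calc (1 + |t|) ^ (1 - ε) * (2 * ‖δ‖ * C + 1)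
              ≤ (1 + |t|) ^ (1 - ε) * (1 + |t|) ^ ε := mul_le_mul_of_nonneg_left h1 h5
            _ = 1 + |t| := h4
        nlinarith
      have h8 : ‖δ * A μ t‖ ≤ (1 + |t|) / 2 := by
        rw [norm_mul]
        exact (mul_le_mul_of_nonneg_left (hAt t) (norm_nonneg _)).trans h6
      have h9 : |(δ * A μ t).re| ≤ (1 + |t|) / 2 := (Complex.abs_re_le_norm _).trans h8
      have h10 : ((t : ℂ) + δ * A μ t).re = t + (δ * A μ t).re := by
        rw [Complex.add_re, Complex.ofReal_re]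
      rw [h10] at hz
      have h11 : |t| ≤ |t + (δ * A μ t).re| + |(δ * A μ t).re| := by
        have := abs_sub (t + (δ * A μ t).re) (δ * A μ t).re
        simpa using this
      have h12 : R ≤ |R| := le_abs_self R
      linarith
    · have : 0 ≤ |R| := abs_nonneg R
      linarith [not_le.1 hcase]
  have h1 : ((t : ℂ) + δ * A μ t).im = (δ * A μ t).im := by
    rw [Complex.add_im, Complex.ofReal_im, zero_add]
  rw [h1]
  calc |(δ * A μ t).im| ≤ ‖δ * A μ t‖ := Complex.abs_im_le_norm _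
    _ = ‖δ‖ * ‖A μ t‖ := norm_mul _ _
    _ ≤ ‖δ‖ * (C * (1 + (T + (2 * |R| + 1)))) := by
        refine mul_le_mul_of_nonneg_left ?_ (norm_nonneg _)
        refine (hAt t).trans (mul_le_mul_of_nonneg_left ?_ hC.le)
        linarith

/-- module K3: points from which a vertical half line misses the curve -/
theorem conn_side (μ δ : ℂ) (s : ℝ) (hs : s = 1 ∨ s = -1) (z : ℂ)
    (h : ∀ y : ℝ, 0 ≤ y → z + s * (Complex.I * y) ∉ Ks A μ δ) :
    ∃ Y₀ : ℝ, ∀ Y : ℝ, Y₀ ≤ Y → JoinedIn (Ks A μ δ)ᶜ z (s * (Complex.I * Y)) := by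
  obtain ⟨M, hM⟩ := KK3c_bd hA μ δ |z.re|
  refine ⟨max (M + 1) |z.im|, fun Y hY => ?_⟩
  have hY1 : M + 1 ≤ Y := (le_max_left _ _).trans hY
  have hY2 : |z.im| ≤ Y := (le_max_right _ _).trans hY
  have hss : s * s = 1 := by rcases hs with rfl | rfl <;> norm_num
  have hsa : |s| = 1 := by rcases hs with rfl | rfl <;> norm_num
  have hsz : s * z.im ≤ |z.im| := by
    rcases hs with rfl | rfl
    · simpa using le_abs_self z.im
    · simpa using neg_le_abs z.im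
  set y1 : ℝ := Y - s * z.im with hy1
  have hy10 : 0 ≤ y1 := by rw [hy1]; linarith
  have hj1 : JoinedIn (Ks A μ δ)ᶜ z (z + s * (Complex.I * y1)) := by
    refine JoinedIn.ofLine (f := fun τ : ℝ => z + s * (Complex.I * ((τ * y1 : ℝ) : ℂ))) ?_ ?_ ?_ ?_
    · fun_prop
    · simp
    · simp
    · rintro _ ⟨τ, hτ, rfl⟩
      exact h (τ * y1) (mul_nonneg hτ.1 hy10)
  have hre : (z + s * (Complex.I * y1)).re = z.re := by simp
  have him : (z + s * (Complex.I * y1)).im = s * Y := by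
    simp only [Complex.add_im, Complex.mul_im, Complex.ofReal_re, Complex.ofReal_im, Complex.I_re,
      Complex.I_im, Complex.mul_re]
    rw [hy1]
    ring_nf
    have : s ^ 2 = 1 := by rw [pow_two]; exact hss
    rw [this]; ring
  have hj2 : JoinedIn (Ks A μ δ)ᶜ (z + s * (Complex.I * y1)) (s * (Complex.I * Y)) := by
    refine JoinedIn.ofLine
      (f := fun τ : ℝ => (((1 - τ) * z.re : ℝ) : ℂ) + s * (Complex.I * Y)) ?_ ?_ ?_ ?_
    · fun_prop
    · apply Complex.ext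
      · rw [hre]; simp
      · rw [him]; simp
    · simp
    · rintro _ ⟨τ, hτ, rfl⟩ hmem
      have h1 := hM _ hmem
      have h2 : ((((1 - τ) * z.re : ℝ) : ℂ) + s * (Complex.I * Y)).re = (1 - τ) * z.re := by simp
      have h3 : ((((1 - τ) * z.re : ℝ) : ℂ) + s * (Complex.I * Y)).im = s * Y := by simp
      rw [h2, h3, abs_mul, abs_mul, hsa, one_mul] at h1
      have h4 : |1 - τ| ≤ 1 := by
        rw [abs_le]; constructor <;> linarith [hτ.1, hτ.2]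
      have h5 := h1 (by
        calc |1 - τ| * |z.re| ≤ 1 * |z.re| := mul_le_mul_of_nonneg_right h4 (abs_nonneg _)
          _ = |z.re| := one_mul _)
      have h6 : Y ≤ |Y| := le_abs_self Y
      linarith
  exact hj1.trans hj2

/-- a point joined to a point of the lower component is in it -/
theorem KK3c_join (μ δ : ℂ) {z w : ℂ} (hz : z ∈ Lo A μ δ) (h : JoinedIn (Ks A μ δ)ᶜ w z) :
    w ∈ Lo A μ δ := by
  obtain ⟨Y₀, hY₀⟩ := hz
  exact ⟨Y₀, fun Y hY => h.trans (hY₀ Y hY)⟩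

/-- points near a point of the complement are joined to it -/
theorem KK3c_ball (μ δ : ℂ) {z : ℂ} (hz : z ∉ Ks A μ δ) :
    ∃ r : ℝ, 0 < r ∧ Metric.ball z r ⊆ (Ks A μ δ)ᶜ ∧
      ∀ w ∈ Metric.ball z r, JoinedIn (Ks A μ δ)ᶜ w z := by
  have ho : IsOpen (Ks A μ δ)ᶜ := (Ks_closed hA μ δ).isOpen_compl
  obtain ⟨r, hr, hb⟩ := Metric.isOpen_iff.1 ho z hz
  refine ⟨r, hr, hb, fun w hw => ?_⟩
  have hp : IsPathConnected (Metric.ball z r) :=
    (convex_ball z r).isPathConnected ⟨z, Metric.mem_ball_self hr⟩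
  exact (hp.joinedIn w hw z (Metric.mem_ball_self hr)).mono hb

/-- module K3: the lower component -/
theorem Lo_spec (μ δ : ℂ) : IsOpen (Lo A μ δ) ∧ IsPreconnected (Lo A μ δ) ∧
    Lo A μ δ ⊆ (Ks A μ δ)ᶜ ∧ (∃ Y₀ : ℝ, ∀ Y : ℝ, Y₀ ≤ Y → -(Complex.I * Y) ∈ Lo A μ δ) ∧
    (∀ z, (∀ y : ℝ, 0 ≤ y → z - Complex.I * y ∉ Ks A μ δ) → z ∈ Lo A μ δ) ∧
    (∀ U : Set ℂ, IsPreconnected U → U ⊆ (Ks A μ δ)ᶜ → (U ∩ Lo A μ δ).Nonempty → U ⊆ Lo A μ δ) := by
  have h3 : Lo A μ δ ⊆ (Ks A μ δ)ᶜ := by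
    rintro z ⟨Y₀, hY₀⟩
    exact (hY₀ Y₀ le_rfl).source_mem
  have h1 : IsOpen (Lo A μ δ) := by
    rw [Metric.isOpen_iff]
    intro z hz
    obtain ⟨r, hr, -, hj⟩ := KK3c_ball hA μ δ (h3 hz)
    exact ⟨r, hr, fun w hw => KK3c_join hA μ δ hz (hj w hw)⟩
  have h5 : ∀ z, (∀ y : ℝ, 0 ≤ y → z - Complex.I * y ∉ Ks A μ δ) → z ∈ Lo A μ δ := by
    intro z hz
    obtain ⟨Y₀, hY₀⟩ := conn_side hA μ δ (-1) (Or.inr rfl) z (fun y hy => by
      have := hz y hy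
      have he : z + ((-1 : ℝ) : ℂ) * (Complex.I * y) = z - Complex.I * y := by
        push_cast; ring
      rwa [he])
    refine ⟨Y₀, fun Y hY => ?_⟩
    have := hY₀ Y hY
    have he : (((-1 : ℝ) : ℂ) * (Complex.I * Y)) = -(Complex.I * Y) := by
      push_cast; ring
    rwa [he] at this
  have h4 : ∃ Y₀ : ℝ, ∀ Y : ℝ, Y₀ ≤ Y → -(Complex.I * Y) ∈ Lo A μ δ := by
    obtain ⟨M, hM⟩ := KK3c_bd hA μ δ 0
    refine ⟨|M| + 1, fun Y hY => h5 _ fun y hy hmem => ?_⟩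
    have h6 := hM _ hmem (by simp)
    have h7 : (-(Complex.I * Y) - Complex.I * y).im = -(Y + y) := by
      simp; ring
    rw [h7, abs_neg] at h6
    have h8 := le_abs_self (Y + y)
    have h9 := le_abs_self M
    linarith
  have h6 : ∀ U : Set ℂ, IsPreconnected U → U ⊆ (Ks A μ δ)ᶜ → (U ∩ Lo A μ δ).Nonempty →
      U ⊆ Lo A μ δ := by
    intro U hU hUK hne
    have hv : IsOpen ((Ks A μ δ)ᶜ \ Lo A μ δ) := by
      rw [Metric.isOpen_iff]
      rintro z ⟨hz1, hz2⟩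
      obtain ⟨r, hr, hb, hj⟩ := KK3c_ball hA μ δ hz1
      exact ⟨r, hr, fun w hw => ⟨hb hw, fun hw2 => hz2 (KK3c_join hA μ δ hw2 (hj w hw).symm)⟩⟩
    refine IsPreconnected.subset_left_of_subset_union h1 hv disjoint_sdiff_self_right ?_ hne hU
    intro z hz
    by_cases hzL : z ∈ Lo A μ δ
    · exact Or.inl hzL
    · exact Or.inr ⟨hUK hz, hzL⟩
  refine ⟨h1, ?_, h3, h4, h5, h6⟩
  obtain ⟨Y₁, hY₁⟩ := h4
  set p : ℂ := -(Complex.I * Y₁) with hp
  have hpL : p ∈ Lo A μ δ := hY₁ Y₁ le_rfl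
  have he : Lo A μ δ = pathComponentIn (Ks A μ δ)ᶜ p := by
    apply Set.Subset.antisymm
    · rintro z ⟨Y₀, hY₀⟩
      obtain ⟨Y₂, hY₂⟩ := hpL
      exact (hY₂ (max Y₀ Y₂) (le_max_right _ _)).trans (hY₀ (max Y₀ Y₂) (le_max_left _ _)).symm
    · intro z hz
      exact KK3c_join hA μ δ hpL (JoinedIn.symm hz)
  rw [he]
  exact (isPathConnected_pathComponentIn (h3 hpL)).isConnected.isPreconnected

/-- module K3: points of the lower half plane, for small parameters -/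
theorem Lo_small (μ κ : ℂ) (hκ : κ.im < 0) : ∀ᶠ δ in 𝓝 (0 : ℂ), κ ∈ Lo A μ δ := by
  obtain ⟨ε, hε0, hε1, hg⟩ := hA.grow'
  obtain ⟨C, hC, hCA⟩ := hg ‖μ‖
  have hAt : ∀ t, ‖A μ t‖ ≤ C * (1 + |t|) := fun t => by
    refine (hCA μ t le_rfl).trans (mul_le_mul_of_nonneg_left ?_ hC.le)
    have ht1 : (1 : ℝ) ≤ 1 + |t| := by linarith [abs_nonneg t]
    calc (1 + |t|) ^ (1 - ε) ≤ (1 + |t|) ^ (1 : ℝ) :=
          Real.rpow_le_rpow_of_exponent_le ht1 (by linarith)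
      _ = 1 + |t| := Real.rpow_one _
  have hη : 0 < min (1 / (2 * C)) (-κ.im / (C * (2 + 2 * ‖κ‖))) := by
    have : 0 < -κ.im := by linarith
    positivity
  filter_upwards [Metric.ball_mem_nhds (0 : ℂ) hη] with δ hδ
  rw [mem_ball_zero_iff, lt_min_iff] at hδ
  obtain ⟨hδ1, hδ2⟩ := hδ
  have h1 : ‖δ‖ * C ≤ 1 / 2 := by
    rw [lt_div_iff₀ (by positivity)] at hδ1
    linarith
  have h2 : ‖δ‖ * (C * (2 + 2 * ‖κ‖)) < -κ.im := by
    rwa [lt_div_iff₀ (by positivity)] at hδ2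
  refine (Lo_spec hA μ δ).2.2.2.2.1 κ fun y hy hmem => ?_
  obtain ⟨t, ht⟩ := hmem
  have hb : ‖δ * A μ t‖ ≤ ‖δ‖ * (C * (1 + |t|)) := by
    rw [norm_mul]
    exact mul_le_mul_of_nonneg_left (hAt t) (norm_nonneg _)
  have hr : t + (δ * A μ t).re = κ.re := by
    have := congrArg Complex.re ht
    simpa using this
  have hi : (δ * A μ t).im = κ.im - y := by
    have := congrArg Complex.im ht
    simpa using this
  have h3 : |t| ≤ 2 * ‖κ‖ + 1 := by
    have h4 : |t| ≤ |κ.re| + |(δ * A μ t).re| := by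
      have h5 : t = κ.re - (δ * A μ t).re := by linarith
      calc |t| = |κ.re - (δ * A μ t).re| := by rw [← h5]
        _ ≤ _ := abs_sub _ _
    have h6 := Complex.abs_re_le_norm κ
    have h7 := (Complex.abs_re_le_norm (δ * A μ t)).trans hb
    have h8 : ‖δ‖ * (C * (1 + |t|)) ≤ 1 / 2 * (1 + |t|) := by
      rw [← mul_assoc]
      exact mul_le_mul_of_nonneg_right h1 (by positivity)
    linarith
  have h9 : ‖δ‖ * (C * (1 + |t|)) ≤ ‖δ‖ * (C * (2 + 2 * ‖κ‖)) := by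
    refine mul_le_mul_of_nonneg_left (mul_le_mul_of_nonneg_left (by linarith) hC.le)
      (norm_nonneg _)
  have h10 := (Complex.abs_im_le_norm (δ * A μ t)).trans hb
  rw [hi] at h10
  have h11 := neg_le_abs (κ.im - y)
  linarith

end

end Pool.Agent.MPd01a95.KT
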