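import Mathlib
import Pool.Agent.Lib.MP_d01a95_gt_K.KDefs2
import Pool.Agent.Lib.MP_d01a95_gt_K.KJ1
import Pool.Agent.Lib.MP_d01a95_gt_K.KK3a
import Pool.Agent.Lib.MP_d01a95_gt_K.KK3b
import Pool.Agent.Lib.MP_d01a95_gt_K.KK3c

set_option autoImplicit false
set_option linter.all false

open Matrix Filter Topology MeasureTheory
open scoped ContDiff

namespace Pool.Agent.MPd01a95.KT

open GU

variable {G : Type} [Group G]

section

variable {A : ℂ → ℝ → ℂ} (hA : Ch A)

include hA

/-- module K3: the extension to the component -/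
theorem Ph_kb (μb : ℂ) (tb : ℝ) (μ : ℂ) :
    Ph A μ (star μb - star μ) (kb A μb tb μ) = II A μb tb μ := by
  unfold Ph II
  refine integral_congr_ae (Eventually.of_forall fun t => ?_)
  simp only [el_eq]

end

end Pool.Agent.MPd01a95.KT
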