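import Mathlib
import Pool.Agent.Lib.MP_d01a95_gt_K.KDefs2
import Pool.Agent.Lib.MP_d01a95_gt_K.KJ1
import Pool.Agent.Lib.MP_d01a95_gt_K.KJW
import Pool.Agent.Lib.MP_d01a95_gt_K.KK3

set_option autoImplicit false
set_option linter.all false

open Matrix Filter Topology MeasureTheory
open scoped ContDiff

namespace Pool.Agent.MPd01a95.KT

open GU

variable {G : Type} [Group G]

theorem J7_int_ev {X : Type*} [TopologicalSpace X] (w : X → ℤ) (x : X)
    (hw : ContinuousAt (fun y => (w y : ℂ)) x) : ∀ᶠ y in 𝓝 x, w y = w x := by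
  have h1 := Metric.continuousAt_iff'.1 hw 1 one_pos
  filter_upwards [h1] with y hy
  rw [dist_eq_norm, ← Int.cast_sub, Complex.norm_intCast] at hy
  have h2 : |w y - w x| < 1 := by exact_mod_cast hy
  have h3 := Int.abs_lt_one_iff.1 h2
  omega

theorem J7_K_eq (A : ℂ → ℝ → ℂ) (δ : ℂ) (tb : ℝ) :
    kb A (star δ) tb 0 = (tb : ℂ) - star δ * star (A (star δ) tb) := by
  unfold kb
  simp

theorem J7_Ph {A : ℂ → ℝ → ℂ} (hA : Ch A) (δ : ℂ) (tb : ℝ) :
    Ph A 0 δ (kb A (star δ) tb 0) = II A (star δ) tb 0 := by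
  have h := Ph_kb hA (star δ) tb 0
  rw [star_zero, star_star, sub_zero] at h
  exact h

theorem J7_notMem {A : ℂ → ℝ → ℂ} (hA : Ch A) {δ : ℂ} (hδ : δ ≠ 0) (tb : ℝ) :
    kb A (star δ) tb 0 ∉ Ks A 0 δ := by
  rintro ⟨t, ht⟩
  have h1 := hA.ne (star δ) tb 0 t (by
    intro h
    have h2 := (Prod.ext_iff.1 h).1
    exact hδ (star_eq_zero.1 h2.symm))
  apply h1
  rw [el_eq, star_zero, star_star, sub_zero]
  have ht' : (t : ℂ) + δ * A 0 t = kb A (star δ) tb 0 := ht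
  rw [ht', sub_self]

theorem J7_K_cont {A : ℂ → ℝ → ℂ} (hA : Ch A) :
    Continuous fun p : ℂ × ℝ => kb A (star p.1) p.2 0 := by
  have h1 : Continuous fun p : ℂ × ℝ => A (star p.1) p.2 :=
    hA.cont.comp (continuous_star.comp continuous_fst |>.prodMk continuous_snd)
  have h2 : (fun p : ℂ × ℝ => kb A (star p.1) p.2 0) =
      fun p : ℂ × ℝ => (p.2 : ℂ) - star p.1 * star (A (star p.1) p.2) := by
    funext p
    exact J7_K_eq A p.1 p.2
  rw [h2]
  exact (Complex.continuous_ofReal.comp continuous_snd).sub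
    ((continuous_star.comp continuous_fst).mul (continuous_star.comp h1))

theorem J7_nonconst {A : ℂ → ℝ → ℂ} (hA : Ch A) (δ k : ℂ)
    (hk : ∀ tb : ℝ, kb A (star δ) tb 0 = k) : False := by
  obtain ⟨ε, hε, hg⟩ := hA.grow
  obtain ⟨C, hC⟩ := hg ‖star δ‖
  have h1 : ∀ t : ℝ, 0 ≤ t → 1 - (1 + ‖k‖) * (1 + t)⁻¹ ≤ ‖δ‖ * C * (1 + t) ^ (-ε) := by
    intro t ht
    have h2 := hC (star δ) t le_rfl
    have h3 := hk t
    rw [J7_K_eq] at h3
    have h4 : (t : ℂ) = k + star δ * star (A (star δ) t) := by rw [← h3]; ring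
    have h5 : t ≤ ‖k‖ + ‖δ‖ * ‖A (star δ) t‖ := by
      calc t = ‖(t : ℂ)‖ := by rw [Complex.norm_real, Real.norm_of_nonneg ht]
        _ = ‖k + star δ * star (A (star δ) t)‖ := by rw [← h4]
        _ ≤ ‖k‖ + ‖star δ * star (A (star δ) t)‖ := norm_add_le _ _
        _ = ‖k‖ + ‖δ‖ * ‖A (star δ) t‖ := by rw [norm_mul, norm_star, norm_star]
    rw [abs_of_nonneg ht] at h2
    have h6 : 0 < 1 + t := by linarith
    have h7 : (1 + t) ^ (1 - ε) = (1 + t) * (1 + t) ^ (-ε) := by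
      rw [sub_eq_add_neg, Real.rpow_add h6, Real.rpow_one]
    rw [h7] at h2
    have h8 : t ≤ ‖k‖ + ‖δ‖ * (C * ((1 + t) * (1 + t) ^ (-ε))) :=
      h5.trans (by gcongr)
    have h9 : (1 + t) * (1 - (1 + ‖k‖) * (1 + t)⁻¹) ≤ (1 + t) * (‖δ‖ * C * (1 + t) ^ (-ε)) := by
      have h10 : (1 + t) * (1 - (1 + ‖k‖) * (1 + t)⁻¹) = t - ‖k‖ := by
        field_simp
        ring
      rw [h10]
      linarith
    exact le_of_mul_le_mul_left h9 h6
  have h2 : Tendsto (fun t : ℝ => 1 - (1 + ‖k‖) * (1 + t)⁻¹) atTop (𝓝 (1 - (1 + ‖k‖) * 0)) := by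
    refine Tendsto.const_sub _ (Tendsto.const_mul _ ?_)
    exact tendsto_inv_atTop_zero.comp (tendsto_atTop_add_const_left _ _ tendsto_id)
  have h3 : Tendsto (fun t : ℝ => ‖δ‖ * C * (1 + t) ^ (-ε)) atTop (𝓝 (‖δ‖ * C * 0)) := by
    refine Tendsto.const_mul _ ?_
    exact (tendsto_rpow_neg_atTop hε).comp (tendsto_atTop_add_const_left _ _ tendsto_id)
  have h4 := le_of_tendsto_of_tendsto h2 h3 (by
    filter_upwards [eventually_ge_atTop (0 : ℝ)] with t ht using h1 t ht)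
  norm_num at h4

theorem J7_comp {f : ℂ × ℝ × ℂ → ℂ} {S : Set (ℂ × ℝ × ℂ)} (hf : ContinuousOn f S) (a b : ℂ)
    (hS : ∀ t : ℝ, (a, t, b) ∈ S) : Continuous fun t : ℝ => f (a, t, b) := by
  have h3 : Continuous fun t : ℝ => ((a, t, b) : ℂ × ℝ × ℂ) := by fun_prop
  exact hf.comp_continuous h3 hS

theorem J7_IIc {A : ℂ → ℝ → ℂ} (hA : Ch A) {a : ℂ} (ha : (0 : ℂ) ≠ a) :
    Continuous fun t : ℝ => II A a t 0 := by
  have h2 := J7_comp (II_cont1 hA) a 0 (fun t => ha)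
  exact h2

theorem J7_slice {f : ℂ × ℂ → ℂ} {S : Set (ℂ × ℂ)} (hf : DifferentiableOn ℂ f S) (a : ℂ)
    (U : Set ℂ) (hS : ∀ z ∈ U, (a, z) ∈ S) : DifferentiableOn ℂ (fun z : ℂ => f (a, z)) U := by
  have h2 : DifferentiableOn ℂ (fun κ : ℂ => ((a, κ) : ℂ × ℂ)) U := by
    fun_prop
  exact hf.comp h2 hS

theorem J7_slice2 {f : ℂ × ℂ → ℂ} (a b : ℂ) (hf : DifferentiableAt ℂ f (a, b)) :
    DifferentiableAt ℂ (fun z : ℂ => f (z, b)) a := by
  have h2 : DifferentiableAt ℂ (fun κ : ℂ => ((κ, b) : ℂ × ℂ)) a := by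
    fun_prop
  exact DifferentiableAt.comp (f := fun κ : ℂ => ((κ, b) : ℂ × ℂ)) a hf h2

/-- the values of the integral at fixed `δ` -/
theorem J7_const {A : ℂ → ℝ → ℂ} (hA : Ch A) (n : ℂ)
    (h : ∀ μb tb, ∃ w : ℤ, ∀ μ, μ ≠ μb → II A μb tb μ = -(2 * Real.pi * Complex.I * w) -
      n * (star μb - star μ) / (μb - μ)) {δ : ℂ} (hδ : δ ≠ 0) (tb tb' : ℝ) :
    II A (star δ) tb 0 = II A (star δ) tb' 0 := by
  have hδ' : (0 : ℂ) ≠ star δ := fun h0 => hδ (star_eq_zero.1 h0.symm)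
  choose w hw using fun tb : ℝ => h (star δ) tb
  have h1 : ∀ t, II A (star δ) t 0 = -(2 * Real.pi * Complex.I * w t) -
      n * (star (star δ) - star 0) / (star δ - 0) := fun t => hw t 0 hδ'
  have hc : Continuous fun t : ℝ => II A (star δ) t 0 := J7_IIc hA hδ'
  have hpi : (2 * Real.pi * Complex.I : ℂ) ≠ 0 := Complex.two_pi_I_ne_zero
  have hwc : Continuous fun t : ℝ => (w t : ℂ) := by
    have h4 : (fun t : ℝ => (w t : ℂ)) = fun t : ℝ =>
        -(II A (star δ) t 0 + n * (star (star δ) - star 0) / (star δ - 0)) /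
          (2 * Real.pi * Complex.I) := by
      funext t
      rw [h1 t]
      rw [eq_div_iff hpi]
      ring
    rw [h4]
    exact (hc.add continuous_const).neg.div_const _
  have hl : IsLocallyConstant w := by
    rw [IsLocallyConstant.iff_eventually_eq]
    intro x
    exact J7_int_ev w x hwc.continuousAt
  have := hl.apply_eq_of_preconnectedSpace tb tb'
  rw [h1, h1, this]

/-- module J7: a constant coefficient is zero -/
theorem nn_zero {A : ℂ → ℝ → ℂ} (hA : Ch A) (n : ℂ)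
    (h : ∀ μb tb, ∃ w : ℤ, ∀ μ, μ ≠ μb → II A μb tb μ = -(2 * Real.pi * Complex.I * w) -
      n * (star μb - star μ) / (μb - μ)) : n = 0 := by
  obtain ⟨hopen, hdiff, -⟩ := Ph_hol hA 0
  set κ₀ : ℂ := kb A (star 1) 0 0 with hκ
  have hmem : ((1 : ℂ), κ₀) ∈ {p : ℂ × ℂ | p.2 ∉ Ks A 0 p.1} := J7_notMem hA one_ne_zero 0
  obtain ⟨r, hr, hball⟩ := Metric.isOpen_iff.1 hopen _ hmem
  have hb : ∀ δ κ : ℂ, dist δ 1 < r → dist κ κ₀ < r → κ ∉ Ks A 0 δ := by
    intro δ κ h1 h2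
    have h3 : (δ, κ) ∈ Metric.ball ((1 : ℂ), κ₀) r := by
      rw [Metric.mem_ball, Prod.dist_eq]
      exact max_lt h1 h2
    exact hball h3
  -- values near `δ = 1`
  choose w hw using fun δ : ℂ => h (star δ) 0
  have hval : ∀ δ : ℂ, δ ≠ 0 → II A (star δ) 0 0 = -(2 * Real.pi * Complex.I * w δ) -
      n * δ / star δ := by
    intro δ hδ
    have h1 := hw δ 0 (fun h0 => hδ (star_eq_zero.1 h0.symm))
    rw [star_star, star_zero, sub_zero, sub_zero] at h1
    exact h1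
  have hpi : (2 * Real.pi * Complex.I : ℂ) ≠ 0 := Complex.two_pi_I_ne_zero
  have hIc : ContinuousAt (fun δ : ℂ => II A (star δ) 0 0) 1 := by
    have h2 := II_cont1 hA
    have h3 : Continuous fun δ : ℂ => ((star δ, (0 : ℝ), (0 : ℂ)) : ℂ × ℝ × ℂ) := by fun_prop
    have h4 : IsOpen {p : ℂ × ℝ × ℂ | p.2.2 ≠ p.1} :=
      isOpen_ne_fun (continuous_snd.comp continuous_snd) continuous_fst
    have h5 : ContinuousAt (fun p : ℂ × ℝ × ℂ => II A p.1 p.2.1 p.2.2) (star 1, 0, 0) :=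
      h2.continuousAt (h4.mem_nhds (by simp))
    exact ContinuousAt.comp (f := fun δ : ℂ => ((star δ, (0 : ℝ), (0 : ℂ)) : ℂ × ℝ × ℂ))
      h5 h3.continuousAt
  have hne : ∀ᶠ δ : ℂ in 𝓝 1, δ ≠ 0 := isOpen_ne.mem_nhds one_ne_zero
  have hwc : ContinuousAt (fun δ : ℂ => (w δ : ℂ)) 1 := by
    have h4 : (fun δ : ℂ => (w δ : ℂ)) =ᶠ[𝓝 1] fun δ : ℂ =>
        -(II A (star δ) 0 0 + n * δ / star δ) / (2 * Real.pi * Complex.I) := by
      filter_upwards [hne] with δ hδ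
      rw [hval δ hδ, eq_div_iff hpi]
      ring
    refine ContinuousAt.congr ?_ h4.symm
    refine ContinuousAt.div_const (ContinuousAt.neg (hIc.add ?_)) _
    exact ContinuousAt.div (by fun_prop) continuous_star.continuousAt (by simp)
  have hwe := J7_int_ev w 1 hwc
  have hKe : ∀ᶠ δ : ℂ in 𝓝 1, dist (kb A (star δ) 0 0) κ₀ < r := by
    have h1 : Continuous fun δ : ℂ => kb A (star δ) 0 0 :=
      (J7_K_cont hA).comp (continuous_id.prodMk continuous_const)
    exact Metric.continuousAt_iff'.1 h1.continuousAt r hr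
  -- the identity theorem
  have hF : (fun δ : ℂ => Ph A 0 δ κ₀) =ᶠ[𝓝 1] fun δ : ℂ =>
      -(2 * Real.pi * Complex.I * w 1) - n * δ / star δ := by
    filter_upwards [hne, hwe, hKe, Metric.ball_mem_nhds (1 : ℂ) hr] with δ hδ hwδ hKδ hδr
    have h1 : DifferentiableOn ℂ (fun κ => Ph A 0 δ κ) (Metric.ball κ₀ r) := by
      exact J7_slice hdiff δ (Metric.ball κ₀ r) fun κ hκ' => hb δ κ hδr hκ'
    have h3 : AnalyticOnNhd ℂ (fun κ => Ph A 0 δ κ) (Metric.ball κ₀ r) :=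
      h1.analyticOnNhd Metric.isOpen_ball
    have hΓ : IsPreconnected (Set.range fun t : ℝ => kb A (star δ) t 0) := by
      refine isPreconnected_range ?_
      exact (J7_K_cont hA).comp (continuous_const.prodMk continuous_id)
    have hnt : (Set.range fun t : ℝ => kb A (star δ) t 0).Nontrivial := by
      by_contra hcon
      rw [Set.not_nontrivial_iff] at hcon
      exact J7_nonconst hA δ (kb A (star δ) 0 0) fun t => hcon ⟨t, rfl⟩ ⟨0, rfl⟩
    have hacc := hΓ.preperfect_of_nontrivial hnt (kb A (star δ) 0 0) ⟨0, rfl⟩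
    rw [accPt_iff_frequently_nhdsNE] at hacc
    have h4 : ∃ᶠ z in 𝓝[≠] (kb A (star δ) 0 0), Ph A 0 δ z = II A (star δ) 0 0 := by
      refine hacc.mono ?_
      rintro z ⟨t, rfl⟩
      show Ph A 0 δ (kb A (star δ) t 0) = _
      rw [J7_Ph hA]
      exact J7_const hA n h hδ t 0
    have h5 := h3.eqOn_of_preconnected_of_frequently_eq
      (g := fun _ => II A (star δ) 0 0) analyticOnNhd_const
      (convex_ball κ₀ r).isPreconnected (Metric.mem_ball.2 hKδ) h4
    have h6 : Ph A 0 δ κ₀ = II A (star δ) 0 0 := h5 (Metric.mem_ball_self hr)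
    rw [h6, hval δ hδ, hwδ]
  -- the derivative at `1`
  have hd : DifferentiableAt ℂ (fun δ : ℂ => Ph A 0 δ κ₀) 1 := by
    have h2 : DifferentiableAt ℂ (fun p : ℂ × ℂ => Ph A 0 p.1 p.2) ((1 : ℂ), κ₀) :=
      hdiff.differentiableAt (hopen.mem_nhds hmem)
    exact J7_slice2 1 κ₀ h2
  have hd2 : DifferentiableAt ℂ (fun δ : ℂ => -(2 * Real.pi * Complex.I * w 1) -
      n * δ / star δ) 1 := hd.congr_of_eventuallyEq hF.symm
  set c : ℂ := -(2 * Real.pi * Complex.I * w 1) with hc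
  obtain ⟨D, hD⟩ : ∃ D : ℂ, HasDerivAt (fun δ : ℂ => c - n * δ / star δ) D 1 :=
    ⟨_, hd2.hasDerivAt⟩
  -- along the real direction
  have hr1 : HasDerivAt (fun s : ℝ => c - n * (1 + (s : ℂ) * 1) / star (1 + (s : ℂ) * 1)) (D * 1) 0 := by
    have h1 : HasDerivAt (fun s : ℝ => (1 : ℂ) + (s : ℂ) * 1) 1 0 := by
      have := ((Complex.ofRealCLM.hasDerivAt (x := (0 : ℝ))).mul_const (1 : ℂ)).const_add (1 : ℂ)
      simpa using this
    have h2 : HasDerivAt (fun δ : ℂ => c - n * δ / star δ) D ((1 : ℂ) + ((0 : ℝ) : ℂ) * 1) := by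
      simpa using hD
    exact HasDerivAt.comp (h₂ := fun δ : ℂ => c - n * δ / star δ)
      (h := fun s : ℝ => (1 : ℂ) + (s : ℂ) * 1) (0 : ℝ) h2 h1
  have hr2 : HasDerivAt (fun s : ℝ => c - n * (1 + (s : ℂ) * 1) / star (1 + (s : ℂ) * 1)) 0 0 := by
    have h1 : (fun s : ℝ => c - n * (1 + (s : ℂ) * 1) / star (1 + (s : ℂ) * 1)) =ᶠ[𝓝 0]
        fun _ => c - n := by
      have h2 : ∀ᶠ s : ℝ in 𝓝 0, -1 < s := isOpen_lt continuous_const continuous_id |>.mem_nhds (by simp)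
      filter_upwards [h2] with s hs
      have h3 : (1 : ℂ) + (s : ℂ) * 1 ≠ 0 := by
        rw [mul_one]
        have : (1 : ℝ) + s ≠ 0 := by linarith
        exact_mod_cast this
      have h4 : star ((1 : ℂ) + (s : ℂ) * 1) = 1 + (s : ℂ) * 1 := by simp
      rw [h4, mul_div_assoc, div_self h3, mul_one]
    exact (hasDerivAt_const (0 : ℝ) (c - n)).congr_of_eventuallyEq h1
  have hD0 : D = 0 := by
    have := hr1.unique hr2
    simpa using this
  -- along the imaginary direction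
  have hi1 : HasDerivAt (fun s : ℝ => c - n * (1 + (s : ℂ) * Complex.I) /
      star (1 + (s : ℂ) * Complex.I)) (D * Complex.I) 0 := by
    have h1 : HasDerivAt (fun s : ℝ => (1 : ℂ) + (s : ℂ) * Complex.I) Complex.I 0 := by
      have := ((Complex.ofRealCLM.hasDerivAt (x := (0 : ℝ))).mul_const Complex.I).const_add (1 : ℂ)
      simpa using this
    have h2 : HasDerivAt (fun δ : ℂ => c - n * δ / star δ) D
        ((1 : ℂ) + ((0 : ℝ) : ℂ) * Complex.I) := by
      simpa using hD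
    exact HasDerivAt.comp (h₂ := fun δ : ℂ => c - n * δ / star δ)
      (h := fun s : ℝ => (1 : ℂ) + (s : ℂ) * Complex.I) (0 : ℝ) h2 h1
  have hi2 : HasDerivAt (fun s : ℝ => c - n * (1 + (s : ℂ) * Complex.I) /
      (1 - (s : ℂ) * Complex.I)) (-(2 * n * Complex.I)) 0 := by
    have h1 : HasDerivAt (fun s : ℝ => n * ((1 : ℂ) + (s : ℂ) * Complex.I)) (n * Complex.I) 0 := by
      have := (((Complex.ofRealCLM.hasDerivAt (x := (0 : ℝ))).mul_const
        Complex.I).const_add (1 : ℂ)).const_mul n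
      simpa using this
    have h2 : HasDerivAt (fun s : ℝ => (1 : ℂ) - (s : ℂ) * Complex.I) (-Complex.I) 0 := by
      have := ((Complex.ofRealCLM.hasDerivAt (x := (0 : ℝ))).mul_const
        Complex.I).const_sub (1 : ℂ)
      simpa using this
    have h3 := (h1.div h2 (by simp)).const_sub c
    have h4 : -((n * Complex.I * (1 - ((0 : ℝ) : ℂ) * Complex.I) -
        n * (1 + ((0 : ℝ) : ℂ) * Complex.I) * -Complex.I) / (1 - ((0 : ℝ) : ℂ) * Complex.I) ^ 2) =
        -(2 * n * Complex.I) := by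
      simp
      ring
    rw [h4] at h3
    exact h3
  have hi3 : (fun s : ℝ => c - n * (1 + (s : ℂ) * Complex.I) /
      star (1 + (s : ℂ) * Complex.I)) = fun s : ℝ => c - n * (1 + (s : ℂ) * Complex.I) /
      (1 - (s : ℂ) * Complex.I) := by
    funext s
    have : star ((1 : ℂ) + (s : ℂ) * Complex.I) = 1 - (s : ℂ) * Complex.I := by
      simp
      ring
    rw [this]
  rw [hi3] at hi1
  have h7 := hi1.unique hi2
  rw [hD0, zero_mul] at h7
  have h8 : 2 * n * Complex.I = 0 := by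
    rw [← neg_eq_zero]
    exact h7.symm
  have h9 : (2 : ℂ) ≠ 0 := two_ne_zero
  have h10 := Complex.I_ne_zero
  rcases mul_eq_zero.1 h8 with h11 | h11
  · rcases mul_eq_zero.1 h11 with h12 | h12
    · exact absurd h12 h9
    · exact h12
  · exact absurd h11 h10

end Pool.Agent.MPd01a95.KT
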