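import Mathlib
import Pool.Agent.Lib.MP_d01a95_gt_K.KDefs2
import Pool.Agent.Lib.Misc72.PoincareMiranda

set_option autoImplicit false
set_option linter.all false

open Matrix Filter Topology MeasureTheory
open scoped ContDiff

namespace Pool.Agent.MPd01a95.KT

open GU

variable {G : Type} [Group G]

/-- module K1: crossing lemma -/
theorem crossing {f g : ℝ → ℂ} (hf : ContinuousOn f (Set.Icc 0 1))
    (hg : ContinuousOn g (Set.Icc 0 1)) (h1 : ∀ u ∈ Set.Icc (0 : ℝ) 1, (f 0).re < (g u).re)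
    (h2 : ∀ u ∈ Set.Icc (0 : ℝ) 1, (g u).re < (f 1).re)
    (h3 : ∀ s ∈ Set.Icc (0 : ℝ) 1, (g 0).im < (f s).im)
    (h4 : ∀ s ∈ Set.Icc (0 : ℝ) 1, (f s).im < (g 1).im) :
    ∃ s ∈ Set.Icc (0 : ℝ) 1, ∃ u ∈ Set.Icc (0 : ℝ) 1, f s = g u := by
  have h01 : (0 : ℝ) ≤ 1 := zero_le_one
  let f' : ℝ → ℂ := Set.IccExtend h01 ((Set.Icc (0 : ℝ) 1).restrict f)
  let g' : ℝ → ℂ := Set.IccExtend h01 ((Set.Icc (0 : ℝ) 1).restrict g)
  have hf' : Continuous f' := (continuousOn_iff_continuous_restrict.1 hf).Icc_extend'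
  have hg' : Continuous g' := (continuousOn_iff_continuous_restrict.1 hg).Icc_extend'
  have ef : ∀ s ∈ Set.Icc (0 : ℝ) 1, f' s = f s := by
    intro s hs
    show Set.IccExtend h01 ((Set.Icc (0 : ℝ) 1).restrict f) s = f s
    rw [Set.IccExtend_of_mem h01 _ hs]
    rfl
  have eg : ∀ s ∈ Set.Icc (0 : ℝ) 1, g' s = g s := by
    intro s hs
    show Set.IccExtend h01 ((Set.Icc (0 : ℝ) 1).restrict g) s = g s
    rw [Set.IccExtend_of_mem h01 _ hs]
    rfl
  let F : (Fin 2 → ℝ) → ℂ := fun x => f' (x 0) - g' (x 1)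
  have hF : Continuous F :=
    (hf'.comp (continuous_apply 0)).sub (hg'.comp (continuous_apply 1))
  have hre : Continuous fun x => (F x).re := Complex.continuous_re.comp hF
  have him : Continuous fun x => (F x).im := Complex.continuous_im.comp hF
  let A : Fin 2 → Set (Fin 2 → ℝ) := ![{x | (F x).re < 0}, {x | 0 < (F x).im}]
  let B : Fin 2 → Set (Fin 2 → ℝ) := ![{x | 0 < (F x).re}, {x | (F x).im < 0}]
  have hA : ∀ i, IsOpen (A i) := by
    intro i
    fin_cases i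
    · exact isOpen_lt hre continuous_const
    · exact isOpen_lt continuous_const him
  have hB : ∀ i, IsOpen (B i) := by
    intro i
    fin_cases i
    · exact isOpen_lt continuous_const hre
    · exact isOpen_lt him continuous_const
  have hd : ∀ i, ∀ x ∈ Set.Icc (0 : Fin 2 → ℝ) 1, x ∈ A i → x ∈ B i → False := by
    intro i x _ ha hb
    fin_cases i
    · exact lt_asymm (show (F x).re < 0 from ha) (show 0 < (F x).re from hb)
    · exact lt_asymm (show 0 < (F x).im from ha) (show (F x).im < 0 from hb)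
  have hmem : ∀ x ∈ Set.Icc (0 : Fin 2 → ℝ) 1, ∀ i, x i ∈ Set.Icc (0 : ℝ) 1 :=
    fun x hx i => ⟨hx.1 i, hx.2 i⟩
  have m0 : (0 : ℝ) ∈ Set.Icc (0 : ℝ) 1 := ⟨le_rfl, h01⟩
  have m1 : (1 : ℝ) ∈ Set.Icc (0 : ℝ) 1 := ⟨h01, le_rfl⟩
  have hFe : ∀ x ∈ Set.Icc (0 : Fin 2 → ℝ) 1, F x = f (x 0) - g (x 1) := by
    intro x hx
    show f' (x 0) - g' (x 1) = f (x 0) - g (x 1)
    rw [ef _ (hmem x hx 0), eg _ (hmem x hx 1)]
  have hl : ∀ i, ∀ x ∈ Set.Icc (0 : Fin 2 → ℝ) 1, x i = 0 → x ∈ A i := by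
    intro i x hx hi
    fin_cases i
    · show (F x).re < 0
      have hi' : x 0 = 0 := hi
      rw [hFe x hx, hi', Complex.sub_re]
      exact sub_neg.2 (h1 _ (hmem x hx 1))
    · show 0 < (F x).im
      have hi' : x 1 = 0 := hi
      rw [hFe x hx, hi', Complex.sub_im]
      exact sub_pos.2 (h3 _ (hmem x hx 0))
  have hr : ∀ i, ∀ x ∈ Set.Icc (0 : Fin 2 → ℝ) 1, x i = 1 → x ∈ B i := by
    intro i x hx hi
    fin_cases i
    · show 0 < (F x).re
      have hi' : x 0 = 1 := hi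
      rw [hFe x hx, hi', Complex.sub_re]
      exact sub_pos.2 (h2 _ (hmem x hx 1))
    · show (F x).im < 0
      have hi' : x 1 = 1 := hi
      rw [hFe x hx, hi', Complex.sub_im]
      exact sub_neg.2 (h4 _ (hmem x hx 0))
  obtain ⟨x, hx, hxx⟩ := Pool.Agent.Misc72.poincare_miranda A B hA hB hd hl hr
  have hr0 : (F x).re = 0 := by
    have h0 := hxx 0
    have ha : ¬ (F x).re < 0 := h0.1
    have hb : ¬ 0 < (F x).re := h0.2
    exact le_antisymm (not_lt.1 hb) (not_lt.1 ha)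
  have hi0 : (F x).im = 0 := by
    have h0 := hxx 1
    have ha : ¬ 0 < (F x).im := h0.1
    have hb : ¬ (F x).im < 0 := h0.2
    exact le_antisymm (not_lt.1 ha) (not_lt.1 hb)
  have hF0 : F x = 0 := Complex.ext hr0 hi0
  rw [hFe x hx] at hF0
  exact ⟨x 0, hmem x hx 0, x 1, hmem x hx 1, sub_eq_zero.1 hF0⟩

end Pool.Agent.MPd01a95.KT
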