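import Mathlib
import Pool.Agent.Lib.MP_d01a95_gt_K.KDefs2
import Pool.Agent.Lib.MP_d01a95_gt_K.KK1

set_option autoImplicit false
set_option linter.all false

open Matrix Filter Topology MeasureTheory
open scoped ContDiff

namespace Pool.Agent.MPd01a95.KT

open GU

variable {G : Type} [Group G]

private theorem KK2_growth (C ε : ℝ) (hC : 0 ≤ C) (hε : 0 < ε) :
    ∃ X : ℝ, 0 ≤ X ∧ ∀ t : ℝ, X ≤ |t| → C * (1 + |t|) ^ (1 - ε) ≤ (1 + |t|) / 4 := by
  have h1 : Tendsto (fun x : ℝ => C * x ^ (-ε)) atTop (𝓝 (C * 0)) :=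
    (tendsto_rpow_neg_atTop hε).const_mul C
  rw [mul_zero] at h1
  have h2 : ∀ᶠ x : ℝ in atTop, C * x ^ (-ε) < 1 / 4 := h1.eventually (gt_mem_nhds (by norm_num))
  obtain ⟨X, hX⟩ := eventually_atTop.1 h2
  refine ⟨max X 0, le_max_right _ _, fun t ht => ?_⟩
  have hx : 0 < 1 + |t| := by positivity
  have h3 := hX (1 + |t|) (by linarith [le_max_left X 0])
  have h4 : (1 + |t|) ^ (1 - ε) = (1 + |t|) * (1 + |t|) ^ (-ε) := by
    rw [sub_eq_add_neg, Real.rpow_add hx, Real.rpow_one]
  rw [h4]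
  have h5 := mul_lt_mul_of_pos_left h3 hx
  linarith

private theorem KK2_est {f : ℝ → ℂ} {C ε X : ℝ}
    (hX : ∀ t : ℝ, X ≤ |t| → C * (1 + |t|) ^ (1 - ε) ≤ (1 + |t|) / 4)
    (h1 : ∀ t : ℝ, ‖f t - t‖ ≤ C * (1 + |t|) ^ (1 - ε)) {t : ℝ} (ht : X ≤ |t|) :
    |(f t).re - t| ≤ (1 + |t|) / 4 ∧ |(f t).im| ≤ (1 + |t|) / 4 := by
  have h := (h1 t).trans (hX t ht)
  have h2 := Complex.abs_re_le_norm (f t - t)
  have h3 := Complex.abs_im_le_norm (f t - t)
  simp only [Complex.sub_re, Complex.sub_im, Complex.ofReal_re, Complex.ofReal_im, sub_zero] at h2 h3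
  exact ⟨h2.trans h, h3.trans h⟩

private theorem KK2_tend {f : ℝ → ℂ} {C ε X : ℝ}
    (hX : ∀ t : ℝ, X ≤ |t| → C * (1 + |t|) ^ (1 - ε) ≤ (1 + |t|) / 4)
    (h1 : ∀ t : ℝ, ‖f t - t‖ ≤ C * (1 + |t|) ^ (1 - ε)) (σ : ℝ) (hσ : |σ| = 1) :
    Tendsto (fun t => |(f t).re| + σ * (f t).im) (cocompact ℝ) atTop := by
  have h2 : Tendsto (fun t : ℝ => ‖t‖) (cocompact ℝ) atTop := tendsto_norm_cocompact_atTop
  have h3 : Tendsto (fun t : ℝ => (‖t‖ + (-1)) / 2) (cocompact ℝ) atTop :=
    (tendsto_atTop_add_const_right _ _ h2).atTop_div_const (by norm_num)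
  refine tendsto_atTop_mono' _ ?_ h3
  filter_upwards [h2.eventually (eventually_ge_atTop X)] with t ht
  rw [Real.norm_eq_abs] at ht ⊢
  obtain ⟨e1, e2⟩ := KK2_est hX h1 ht
  have e3 : |t| - |(f t).re| ≤ |(f t).re - t| := by
    rw [abs_sub_comm]
    exact abs_sub_abs_le_abs_sub t (f t).re
  have e4 : |σ * (f t).im| ≤ (1 + |t|) / 4 := by
    rw [abs_mul, hσ, one_mul]
    exact e2
  have e5 := neg_abs_le (σ * (f t).im)
  linarith

/-- module K2: two disjoint curves close to the real axis -/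
theorem sides {f g : ℝ → ℂ} (hf : Continuous f) (hg : Continuous g) (hd : ∀ s t, f s ≠ g t)
    (C ε : ℝ) (hε : 0 < ε) (h1 : ∀ t : ℝ, ‖f t - t‖ ≤ C * (1 + |t|) ^ (1 - ε))
    (h2 : ∀ t : ℝ, ‖g t - t‖ ≤ C * (1 + |t|) ^ (1 - ε)) :
    (∃ s : ℝ, ∀ y : ℝ, 0 ≤ y → ∀ t, f t ≠ g s - Complex.I * y) ∨
      (∃ s : ℝ, ∀ y : ℝ, 0 ≤ y → ∀ t, f t ≠ g s + Complex.I * y) := by
  have hC : 0 ≤ C := by
    have h := (norm_nonneg _).trans (h1 0)
    simpa using h
  obtain ⟨X, hX0, hX⟩ := KK2_growth C ε hC hε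
  have cont : ∀ (k : ℝ → ℂ), Continuous k → ∀ σ : ℝ,
      Continuous (fun t => |(k t).re| + σ * (k t).im) := fun k hk σ =>
    ((Complex.continuous_re.comp hk).abs).add
      (continuous_const.mul (Complex.continuous_im.comp hk))
  obtain ⟨fm, hfm⟩ := (cont f hf 1).exists_forall_le (KK2_tend hX h1 1 (by norm_num))
  obtain ⟨fp, hfp⟩ := (cont f hf (-1)).exists_forall_le (KK2_tend hX h1 (-1) (by norm_num))
  obtain ⟨gm, hgm⟩ := (cont g hg 1).exists_forall_le (KK2_tend hX h2 1 (by norm_num))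
  obtain ⟨gp, hgp⟩ := (cont g hg (-1)).exists_forall_le (KK2_tend hX h2 (-1) (by norm_num))
  simp only [one_mul, neg_mul] at hfm hfp hgm hgp
  by_cases hc1 : |(g gm).re| + (g gm).im ≤ |(f fm).re| + (f fm).im
  · left
    refine ⟨gm, fun y hy t ht => ?_⟩
    have e1 : (f t).re = (g gm).re := by rw [ht]; simp
    have e2 : (f t).im = (g gm).im - y := by rw [ht]; simp
    have h3 := hfm t
    rw [e1, e2] at h3
    have hy0 : y = 0 := by linarith
    rw [hy0] at ht
    exact hd t gm (by rw [ht]; simp)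
  by_cases hc2 : |(g gp).re| + -(g gp).im ≤ |(f fp).re| + -(f fp).im
  · right
    refine ⟨gp, fun y hy t ht => ?_⟩
    have e1 : (f t).re = (g gp).re := by rw [ht]; simp
    have e2 : (f t).im = (g gp).im + y := by rw [ht]; simp
    have h3 := hfp t
    rw [e1, e2] at h3
    have hy0 : y = 0 := by linarith
    rw [hy0] at ht
    exact hd t gp (by rw [ht]; simp)
  exfalso
  rw [not_le] at hc1 hc2
  have k1 : ∀ s, |(f fm).re| + (f fm).im < |(g s).re| + (g s).im := fun s =>
    hc1.trans_le (hgm s)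
  have k2 : ∀ s, |(f fp).re| + -(f fp).im < |(g s).re| + -(g s).im := fun s =>
    hc2.trans_le (hgp s)
  -- the path
  set sg : ℝ → ℝ := fun u => max 0 (min u 1) with hsg
  have hsgc : Continuous sg := by
    rw [hsg]
    fun_prop
  set P : ℝ → ℂ := fun u => f (fm + sg u * (fp - fm)) with hP
  have hPc : Continuous P := hf.comp (continuous_const.add (hsgc.mul continuous_const))
  obtain ⟨M, hM⟩ := (isCompact_Icc (a := (-1 : ℝ)) (b := 2)).exists_bound_of_continuousOn
    hPc.continuousOn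
  have hM0 : 0 ≤ M := (norm_nonneg _).trans (hM 0 (by constructor <;> norm_num))
  set T : ℝ := X + 2 * M + 1 with hT
  have hT0 : 0 < T := by positivity
  have gT : M < (g T).re := by
    obtain ⟨e1, -⟩ := KK2_est hX h2 (t := T) (by rw [abs_of_pos hT0]; linarith)
    rw [abs_of_pos hT0] at e1
    have := (abs_le.1 e1).1
    linarith
  have gT' : (g (-T)).re < -M := by
    obtain ⟨e1, -⟩ := KK2_est hX h2 (t := -T) (by rw [abs_neg, abs_of_pos hT0]; linarith)
    rw [abs_neg, abs_of_pos hT0] at e1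
    have := (abs_le.1 e1).2
    linarith
  obtain ⟨N, hN⟩ := (isCompact_Icc (a := -T) (b := T)).exists_bound_of_continuousOn
    hg.continuousOn
  have hN0 : 0 ≤ N := (norm_nonneg _).trans (hN 0 (by constructor <;> linarith))
  set Y : ℝ := N + M + 1 with hY
  have hY0 : 0 < Y := by positivity
  have hPre : ∀ u ∈ Set.Icc (-1 : ℝ) 2, |(P u).re| ≤ M := fun u hu =>
    (Complex.abs_re_le_norm _).trans (hM u hu)
  have hPim : ∀ u ∈ Set.Icc (-1 : ℝ) 2, |(P u).im| ≤ M := fun u hu =>
    (Complex.abs_im_le_norm _).trans (hM u hu)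
  set Q : ℝ → ℂ := fun u => P u + Complex.I * ((Y * (u - sg u) : ℝ) : ℂ) with hQ
  have hQc : Continuous Q := by
    refine hPc.add (continuous_const.mul (Complex.continuous_ofReal.comp ?_))
    exact continuous_const.mul (continuous_id.sub hsgc)
  have hQre : ∀ u, (Q u).re = (P u).re := fun u => by simp [hQ]
  have hQim : ∀ u, (Q u).im = (P u).im + Y * (u - sg u) := fun u => by simp [hQ]
  have hs1 : sg (-1) = 0 := by rw [hsg]; norm_num
  have hs2 : sg 2 = 1 := by rw [hsg]; norm_num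
  have hcr := crossing (f := fun v => g (-T + 2 * T * v)) (g := fun v => Q (-1 + 3 * v))
    (hg.comp (by fun_prop)).continuousOn (hQc.comp (by fun_prop)).continuousOn
    (by
      intro u hu
      have hu' : -1 + 3 * u ∈ Set.Icc (-1 : ℝ) 2 := ⟨by linarith [hu.1], by linarith [hu.2]⟩
      have := (abs_le.1 (hPre _ hu')).1
      simp only [mul_zero, add_zero, hQre]
      linarith)
    (by
      intro u hu
      have hu' : -1 + 3 * u ∈ Set.Icc (-1 : ℝ) 2 := ⟨by linarith [hu.1], by linarith [hu.2]⟩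
      have := (abs_le.1 (hPre _ hu')).2
      have e : -T + 2 * T * 1 = T := by ring
      simp only [e, hQre]
      linarith)
    (by
      intro s hs
      have hs' : -T + 2 * T * s ∈ Set.Icc (-T) T :=
        ⟨by nlinarith [hs.1], by nlinarith [hs.2]⟩
      have e1 := (abs_le.1 ((Complex.abs_im_le_norm _).trans (hN _ hs'))).1
      have e2 := (abs_le.1 (hPim (-1) (by constructor <;> norm_num))).2
      simp only [mul_zero, add_zero, hQim, hs1]
      linarith)
    (by
      intro s hs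
      have hs' : -T + 2 * T * s ∈ Set.Icc (-T) T :=
        ⟨by nlinarith [hs.1], by nlinarith [hs.2]⟩
      have e1 := (abs_le.1 ((Complex.abs_im_le_norm _).trans (hN _ hs'))).2
      have e2 := (abs_le.1 (hPim 2 (by constructor <;> norm_num))).1
      have e : (-1 : ℝ) + 3 * 1 = 2 := by norm_num
      simp only [e, hQim, hs2]
      linarith)
  obtain ⟨s, -, v, hv, he⟩ := hcr
  set s' : ℝ := -T + 2 * T * s with hs'
  set u : ℝ := -1 + 3 * v with hu
  have hre : (g s').re = (P u).re := by rw [he, hQre]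
  have him : (g s').im = (P u).im + Y * (u - sg u) := by rw [he, hQim]
  by_cases hu0 : u < 0
  · have e : sg u = 0 := by
      rw [hsg]
      simp only
      rw [min_eq_left (by linarith), max_eq_left hu0.le]
    have eP : P u = f fm := by rw [hP]; simp [e]
    rw [eP] at hre him
    rw [e] at him
    have h3 := k1 s'
    rw [hre, him] at h3
    nlinarith
  · rw [not_lt] at hu0
    by_cases hu1 : u ≤ 1
    · have e : sg u = u := by
        rw [hsg]
        simp only
        rw [min_eq_left hu1, max_eq_right hu0]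
      have eQ : Q u = f (fm + u * (fp - fm)) := by
        rw [hQ]
        simp [hP, e]
      rw [eQ] at he
      exact hd _ _ he.symm
    · rw [not_le] at hu1
      have e : sg u = 1 := by
        rw [hsg]
        simp only
        rw [min_eq_right hu1.le, max_eq_right (by norm_num)]
      have eP : P u = f fp := by rw [hP]; simp [e]
      rw [eP] at hre him
      rw [e] at him
      have h3 := k2 s'
      rw [hre, him] at h3
      nlinarith

end Pool.Agent.MPd01a95.KT
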