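import Mathlib
import Pool.Agent.Lib.MP_d01a95_gt_K.KDefs2
import Pool.Agent.Lib.MP_d01a95_gt_K.KK1
import Pool.Agent.Lib.MP_d01a95_gt_K.KK2
import Pool.Agent.Lib.MP_d01a95_gt_K.KK3
import Pool.Agent.Lib.MP_d01a95_gt_K.KJ1

set_option autoImplicit false
set_option linter.all false

open Matrix Filter Topology MeasureTheory
open scoped ContDiff

namespace Pool.Agent.MPd01a95.KT

open GU

variable {G : Type} [Group G]

/-- a continuous function with values in a discrete group is constant on connected sets -/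
theorem KK4_const {X : Type} [TopologicalSpace X] {S : Set X} (hS : IsPreconnected S) {F : X → ℂ}
    (hF : ContinuousOn F S) (hw : ∀ x ∈ S, ∃ w : ℤ, F x = -(2 * Real.pi * Complex.I * w))
    {x y : X} (hx : x ∈ S) (hy : y ∈ S) : F x = F y := by
  have hpi : (2 * Real.pi * Complex.I : ℂ) ≠ 0 := by
    simp [Real.pi_ne_zero, Complex.I_ne_zero]
  let φ : X → ℝ := fun x => (F x * (-(2 * Real.pi * Complex.I : ℂ))⁻¹).re
  have hφ : ContinuousOn φ S :=
    Complex.continuous_re.comp_continuousOn (hF.mul continuousOn_const)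
  have hφw : ∀ x ∈ S, ∀ w : ℤ, F x = -(2 * Real.pi * Complex.I * w) → φ x = w := by
    intro x _ w h
    have h1 : F x * (-(2 * Real.pi * Complex.I : ℂ))⁻¹ = (w : ℂ) := by
      rw [h]
      field_simp
    change (F x * (-(2 * Real.pi * Complex.I : ℂ))⁻¹).re = w
    rw [h1]
    simp
  have key : ∀ a ∈ S, ∀ b ∈ S, ¬ φ a < φ b := by
    intro a ha b hb hab
    obtain ⟨w, hwa⟩ := hw a ha
    obtain ⟨w', hwb⟩ := hw b hb
    have h1 := hφw a ha w hwa
    have h2 := hφw b hb w' hwb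
    rw [h1, h2] at hab
    have hlt : w < w' := by exact_mod_cast hab
    have hle : w + 1 ≤ w' := hlt
    have hle' : (w : ℝ) + 1 ≤ w' := by exact_mod_cast hle
    have h3 : (w : ℝ) + 1 / 2 ∈ Set.Icc (φ a) (φ b) := by
      rw [h1, h2]
      constructor <;> linarith
    obtain ⟨z, hz, hz'⟩ := hS.intermediate_value ha hb hφ h3
    obtain ⟨v, hv⟩ := hw z hz
    have h4 := hφw z hz v hv
    rw [hz'] at h4
    have h5 : (2 * w + 1 : ℤ) = 2 * v := by
      have : (2 * w + 1 : ℝ) = 2 * v := by rw [← h4]; ring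
      exact_mod_cast this
    omega
  obtain ⟨w, hwx⟩ := hw x hx
  obtain ⟨w', hwy⟩ := hw y hy
  have h1 := hφw x hx w hwx
  have h2 := hφw y hy w' hwy
  have h3 : φ x = φ y := le_antisymm (not_lt.1 (key y hy x hx)) (not_lt.1 (key x hx y hy))
  rw [h1, h2] at h3
  have h4 : w = w' := by exact_mod_cast h3
  rw [hwx, hwy, h4]

theorem KK4_pi_ne : -(2 * Real.pi * Complex.I : ℂ) ≠ 0 := by
  simp [Real.pi_ne_zero, Complex.I_ne_zero]

section

variable {A : ℂ → ℝ → ℂ} (hA : Ch A)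

include hA

/-- identity theorem on an open connected set which contains a connected set -/
theorem KK4_eqOn (μ δ : ℂ) {Γ U : Set ℂ} (hΓ : IsPreconnected Γ) (hn : Γ.Nontrivial)
    (hU : IsOpen U) (hUc : IsPreconnected U) (hUs : U ⊆ (Ks A μ δ)ᶜ) (hsub : Γ ⊆ U) (v : ℂ)
    (hv : ∀ z ∈ Γ, Ph A μ δ z = v) : ∀ z ∈ U, Ph A μ δ z = v := by
  have hd := (Ph_hol hA μ).2.1
  generalize Ph A μ = P at hd hv ⊢
  generalize hKs : Ks A μ = K at hd hUs
  have h1 : DifferentiableOn ℂ (fun κ : ℂ => P δ κ) U := by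
    have h2 : DifferentiableOn ℂ (fun κ : ℂ => ((δ, κ) : ℂ × ℂ)) U :=
      (differentiableOn_const δ).prodMk differentiableOn_id
    have hm : Set.MapsTo (fun κ : ℂ => ((δ, κ) : ℂ × ℂ)) U {p : ℂ × ℂ | p.2 ∉ K p.1} :=
      fun κ hκ => hUs hκ
    exact hd.comp h2 hm
  have h2 : AnalyticOnNhd ℂ (fun κ : ℂ => P δ κ) U := h1.analyticOnNhd hU
  have h3 : AnalyticOnNhd ℂ (fun _ : ℂ => v) U := analyticOnNhd_const
  obtain ⟨z₀, hz₀⟩ := hn.nonempty
  have h4 : AccPt z₀ (𝓟 Γ) := hΓ.preperfect_of_nontrivial hn z₀ hz₀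
  have h5 : ∃ᶠ z in 𝓝[≠] z₀, P δ z = v := by
    have h6 : ∃ᶠ z in 𝓝[≠] z₀, z ∈ Γ := accPt_iff_frequently_nhdsNE.1 h4
    exact h6.mono fun z hz => hv z hz
  intro z hz
  exact h2.eqOn_of_preconnected_of_frequently_eq h3 hUc (hsub hz₀) h5 hz

/-- the value on a component which contains a vertical half line -/
theorem KK4_val (μ δ : ℂ) {Γ : Set ℂ} (hΓ : IsPreconnected Γ) (hn : Γ.Nontrivial)
    (hsub : Γ ⊆ (Ks A μ δ)ᶜ) (v : ℂ) (hv : ∀ z ∈ Γ, Ph A μ δ z = v) (s : ℝ) (hs : s = 1 ∨ s = -1)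
    {z : ℂ} (hz : z ∈ Γ) (h : ∀ y : ℝ, 0 ≤ y → z + s * (Complex.I * y) ∉ Ks A μ δ) :
    ∀ᶠ Y : ℝ in atTop, Ph A μ δ (s * (Complex.I * Y)) = v := by
  obtain ⟨Y₀, hY⟩ := conn_side hA μ δ s hs z h
  have hop : IsOpen (Ks A μ δ)ᶜ := (Ks_closed hA μ δ).isOpen_compl
  filter_upwards [eventually_ge_atTop Y₀] with Y hYY
  have hj := hY Y hYY
  have hU : IsOpen (connectedComponentIn (Ks A μ δ)ᶜ z) := hop.connectedComponentIn
  have hsub' : Γ ⊆ connectedComponentIn (Ks A μ δ)ᶜ z := hΓ.subset_connectedComponentIn hz hsub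
  refine KK4_eqOn hA μ δ hΓ hn hU isPreconnected_connectedComponentIn
    (connectedComponentIn_subset _ _) hsub' v hv _ ?_
  have h1 : IsPreconnected (Set.range hj.somePath) :=
    (isPreconnected_range hj.somePath.continuous)
  have h2 : Set.range hj.somePath ⊆ (Ks A μ δ)ᶜ := by
    rintro _ ⟨t, rfl⟩
    exact hj.somePath_mem t
  have h3 : z ∈ Set.range hj.somePath := ⟨0, hj.somePath.source⟩
  exact h1.subset_connectedComponentIn h3 h2 ⟨1, hj.somePath.target⟩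

/-- the curve of the centres -/
theorem KK4_curve (μb μ : ℂ) (hμ : μ ≠ μb) :
    Continuous (fun s : ℝ => kb A μb s μ) ∧
    (∀ s t : ℝ, (t : ℂ) + (star μb - star μ) * A μ t ≠ kb A μb s μ) ∧
    ((∃ s : ℝ, ∀ y : ℝ, 0 ≤ y → kb A μb s μ + ((-1 : ℝ) : ℂ) * (Complex.I * y) ∉
        Ks A μ (star μb - star μ)) ∨
      ∃ s : ℝ, ∀ y : ℝ, 0 ≤ y → kb A μb s μ + ((1 : ℝ) : ℂ) * (Complex.I * y) ∉
        Ks A μ (star μb - star μ)) := by
  have hc1 : ∀ ν : ℂ, Continuous fun t : ℝ => A ν t := fun ν => by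
    have h1 : Continuous fun t : ℝ => ((ν, t) : ℂ × ℝ) := by fun_prop
    exact hA.cont.comp h1
  have hg : Continuous fun s : ℝ => kb A μb s μ := by
    unfold kb
    exact Complex.continuous_ofReal.sub (continuous_const.mul (continuous_star.comp (hc1 μb)))
  have hf : Continuous fun t : ℝ => (t : ℂ) + (star μb - star μ) * A μ t :=
    Complex.continuous_ofReal.add (continuous_const.mul (hc1 μ))
  have hne : ∀ s t : ℝ, (t : ℂ) + (star μb - star μ) * A μ t ≠ kb A μb s μ := by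
    intro s t h
    have h1 := hA.ne μb s μ t (fun h => hμ (congrArg Prod.fst h))
    apply h1
    rw [el_eq, h, sub_self]
  refine ⟨hg, hne, ?_⟩
  obtain ⟨ε, h1, h1', h2⟩ := hA.grow'
  obtain ⟨C, hC, hC'⟩ := h2 (max ‖μ‖ ‖μb‖)
  have hnn : ∀ t : ℝ, 0 ≤ C * (1 + |t|) ^ (1 - ε) := fun t =>
    mul_nonneg hC.le (Real.rpow_nonneg (by positivity) _)
  have hs := sides (f := fun t : ℝ => (t : ℂ) + (star μb - star μ) * A μ t)
    (g := fun s : ℝ => kb A μb s μ) hf hg (fun t s => hne s t) (‖star μb - star μ‖ * C) ε h1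
    (fun t => by
      have h3 : (t : ℂ) + (star μb - star μ) * A μ t - t = (star μb - star μ) * A μ t := by ring
      rw [h3, norm_mul, mul_assoc]
      exact mul_le_mul_of_nonneg_left (hC' μ t (le_max_left _ _)) (norm_nonneg _))
    (fun t => by
      have h3 : kb A μb t μ - t = - (star (star μb - star μ) * star (A μb t)) := by
        unfold kb
        ring
      rw [h3, norm_neg, norm_mul, norm_star, norm_star, mul_assoc]
      exact mul_le_mul_of_nonneg_left (hC' μb t (le_max_right _ _)) (norm_nonneg _))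
  rcases hs with ⟨s, hs⟩ | ⟨s, hs⟩
  · left
    refine ⟨s, fun y hy => ?_⟩
    rintro ⟨t, ht⟩
    refine hs y hy t ?_
    change (t : ℂ) + (star μb - star μ) * A μ t = _ at ht
    change (t : ℂ) + (star μb - star μ) * A μ t = kb A μb s μ - Complex.I * y
    rw [ht]
    push_cast
    ring
  · right
    refine ⟨s, fun y hy => ?_⟩
    rintro ⟨t, ht⟩
    refine hs y hy t ?_
    change (t : ℂ) + (star μb - star μ) * A μ t = _ at ht
    change (t : ℂ) + (star μb - star μ) * A μ t = kb A μb s μ + Complex.I * y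
    rw [ht]
    push_cast
    ring

/-- the set of centres -/
theorem KK4_range (μb μ : ℂ) (hμ : μ ≠ μb) :
    IsPreconnected (Set.range fun s : ℝ => kb A μb s μ) ∧
    (Set.range fun s : ℝ => kb A μb s μ).Nontrivial ∧
    (Set.range fun s : ℝ => kb A μb s μ) ⊆ (Ks A μ (star μb - star μ))ᶜ := by
  obtain ⟨hg, hne, -⟩ := KK4_curve hA μb μ hμ
  refine ⟨isPreconnected_range hg, ?_, ?_⟩
  · by_contra hcon
    rw [Set.not_nontrivial_iff] at hcon
    -- the curve would be constant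
    obtain ⟨ε, h1, h1', h2⟩ := hA.grow'
    obtain ⟨C, hC, hC'⟩ := h2 ‖μb‖
    have hconst : ∀ s : ℝ, kb A μb s μ = kb A μb 0 μ := fun s => hcon ⟨s, rfl⟩ ⟨0, rfl⟩
    have hb : ∀ s : ℝ, |s| ≤ ‖star μb - star μ‖ * (C * (1 + |s|) ^ (1 - ε)) + ‖kb A μb 0 μ‖ := by
      intro s
      have h3 : (s : ℂ) = star (star μb - star μ) * star (A μb s) + kb A μb 0 μ := by
        rw [← hconst s]
        unfold kb
        ring
      have h4 : |s| = ‖(s : ℂ)‖ := by simp
      rw [h4, h3]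
      refine (norm_add_le _ _).trans ?_
      rw [norm_mul, norm_star, norm_star]
      gcongr
      have h5 := hC' μb s le_rfl
      rw [← h3]
      have h6 : ‖(s : ℂ)‖ = |s| := by simp
      rw [h6]
      exact h5
    have ht : Tendsto (fun s : ℝ => ‖star μb - star μ‖ * C * (1 + s) ^ (-ε)) atTop (𝓝 0) := by
      have h3 : Tendsto (fun s : ℝ => (1 + s) ^ (-ε)) atTop (𝓝 0) :=
        (tendsto_rpow_neg_atTop h1).comp (tendsto_atTop_add_const_left _ _ tendsto_id)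
      simpa using h3.const_mul (‖star μb - star μ‖ * C)
    have ht' : ∀ᶠ s : ℝ in atTop, ‖star μb - star μ‖ * C * (1 + s) ^ (-ε) < 1 / 2 :=
      ht.eventually (gt_mem_nhds (by norm_num))
    obtain ⟨s, hs1, hs2, hs3⟩ := (ht'.and ((eventually_ge_atTop (0 : ℝ)).and
      (eventually_gt_atTop (1 + 2 * ‖kb A μb 0 μ‖)))).exists
    have h5 := hb s
    rw [abs_of_nonneg hs2] at h5
    have h6 : (1 + s) ^ (1 - ε) = (1 + s) * (1 + s) ^ (-ε) := by
      rw [sub_eq_add_neg, Real.rpow_add (by linarith), Real.rpow_one]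
    rw [h6] at h5
    have h7 : ‖star μb - star μ‖ * (C * ((1 + s) * (1 + s) ^ (-ε))) =
        (‖star μb - star μ‖ * C * (1 + s) ^ (-ε)) * (1 + s) := by ring
    rw [h7] at h5
    have h8 : (‖star μb - star μ‖ * C * (1 + s) ^ (-ε)) * (1 + s) ≤ 1 / 2 * (1 + s) :=
      mul_le_mul_of_nonneg_right hs1.le (by linarith)
    linarith
  · rintro _ ⟨s, rfl⟩ ⟨t, ht⟩
    exact hne s t ht

/-- module K4: only two values -/
theorem w_cases (h : ∀ μb tb, ∃ w : ℤ, ∀ μ, μ ≠ μb →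
      II A μb tb μ = -(2 * Real.pi * Complex.I * w)) :
    (∀ μb tb μ, μ ≠ μb → II A μb tb μ = 0) ∨
      (∀ μb tb μ, μ ≠ μb → II A μb tb μ = -(2 * Real.pi * Complex.I)) := by
  -- for fixed `μ` the value is constant
  have hconst : ∀ μ μb tb μb' tb', μ ≠ μb → μ ≠ μb' → II A μb tb μ = II A μb' tb' μ := by
    intro μ μb tb μb' tb' h1 h2
    have hpre : IsPreconnected ({μ}ᶜ ×ˢ (Set.univ : Set ℝ) : Set (ℂ × ℝ)) := by
      refine IsPreconnected.prod ?_ isPreconnected_univ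
      refine (isConnected_compl_singleton_of_one_lt_rank ?_ μ).isPreconnected
      rw [Complex.rank_real_complex]
      norm_num
    have hd := (Ph_hol hA μ).2.1
    have hPI : ∀ ν t, Ph A μ (star ν - star μ) (kb A ν t μ) = II A ν t μ :=
      fun ν t => Ph_kb hA ν t μ
    have hsubK : ∀ ν : ℂ, μ ≠ ν → ∀ t : ℝ, kb A ν t μ ∉ Ks A μ (star ν - star μ) :=
      fun ν h4 t => (KK4_range hA ν μ h4).2.2 ⟨t, rfl⟩
    generalize Ph A μ = P at hd hPI
    generalize hKs : Ks A μ = K at hd hsubK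
    have h3 : Continuous fun p : ℂ × ℝ => ((star p.1 - star μ, kb A p.1 p.2 μ) : ℂ × ℂ) := by
      refine Continuous.prodMk ((continuous_star.comp continuous_fst).sub continuous_const) ?_
      unfold kb
      exact (Complex.continuous_ofReal.comp continuous_snd).sub
        ((continuous_star.comp ((continuous_star.comp continuous_fst).sub
          continuous_const)).mul (continuous_star.comp hA.cont))
    have hm : Set.MapsTo (fun p : ℂ × ℝ => ((star p.1 - star μ, kb A p.1 p.2 μ) : ℂ × ℂ))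
        ({μ}ᶜ ×ˢ (Set.univ : Set ℝ)) {p : ℂ × ℂ | p.2 ∉ K p.1} := by
      rintro ⟨ν, t⟩ ⟨hν, -⟩
      have h4 : μ ≠ ν := fun h => hν h.symm
      exact hsubK ν h4 t
    let F : ℂ × ℝ → ℂ := fun p => P (star p.1 - star μ) (kb A p.1 p.2 μ)
    have hF : ContinuousOn F ({μ}ᶜ ×ˢ (Set.univ : Set ℝ)) :=
      hd.continuousOn.comp h3.continuousOn hm
    have hFI : ∀ ν t, F (ν, t) = II A ν t μ := fun ν t => hPI ν t
    have h4 := KK4_const hpre hF (fun p hp => by
      obtain ⟨w, hw⟩ := h p.1 p.2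
      refine ⟨w, ?_⟩
      have h5 : μ ≠ p.1 := fun h => hp.1 h.symm
      rw [← hw μ h5]
      exact hFI p.1 p.2) (x := (μb, tb)) (y := (μb', tb')) ⟨fun h => h1 h.symm, Set.mem_univ _⟩
      ⟨fun h => h2 h.symm, Set.mem_univ _⟩
    rwa [hFI, hFI] at h4
  -- the value does not depend on `μ` either
  have hall : ∀ μ μb tb μ' μb' tb', μ ≠ μb → μ' ≠ μb' → II A μb tb μ = II A μb' tb' μ' := by
    intro μ μb tb μ' μb' tb' h1 h2
    obtain ⟨ν, hν⟩ : ∃ ν : ℂ, ν ∉ ({μ, μ'} : Set ℂ) := (Set.toFinite {μ, μ'}).exists_notMem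
    have hν1 : μ ≠ ν := fun h => hν (by simp [h])
    have hν2 : μ' ≠ ν := fun h => hν (by simp [h])
    rw [hconst μ μb tb ν 0 h1 hν1, hconst μ' μb' tb' ν 0 h2 hν2]
    obtain ⟨w, hw⟩ := h ν 0
    rw [hw μ hν1, hw μ' hν2]
  have h10 : (1 : ℂ) ≠ 0 := one_ne_zero
  obtain ⟨hg, hne, hside⟩ := KK4_curve hA 0 1 h10
  obtain ⟨hr1, hr2, hr3⟩ := KK4_range hA 0 1 h10
  have hv : ∀ z ∈ Set.range (fun s : ℝ => kb A 0 s 1), Ph A 1 (star 0 - star 1) z = II A 0 0 1 := by
    rintro _ ⟨s, rfl⟩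
    rw [Ph_kb hA]
    exact hall _ _ _ _ _ _ h10 h10
  rcases hside with ⟨s, hs⟩ | ⟨s, hs⟩
  · left
    have h3 := KK4_val hA 1 (star 0 - star 1) hr1 hr2 hr3 _ hv (-1) (Or.inr rfl) ⟨s, rfl⟩ hs
    have h4 := Ph_low hA 1 (star 0 - star 1)
    have h5 : Tendsto (fun Y : ℝ => Ph A 1 (star 0 - star 1) (-(Complex.I * Y))) atTop
        (𝓝 (II A 0 0 1)) := by
      refine tendsto_const_nhds.congr' ?_
      filter_upwards [h3] with Y hY
      rw [← hY]
      congr 1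
      push_cast
      ring
    have h6 : II A 0 0 1 = 0 := tendsto_nhds_unique h5 h4
    intro μb tb μ hμ
    rw [hall μ μb tb 1 0 0 hμ h10, h6]
  · right
    have h3 := KK4_val hA 1 (star 0 - star 1) hr1 hr2 hr3 _ hv 1 (Or.inl rfl) ⟨s, rfl⟩ hs
    have h4 := Ph_up hA 1 (star 0 - star 1)
    have h5 : Tendsto (fun Y : ℝ => Ph A 1 (star 0 - star 1) (Complex.I * Y)) atTop
        (𝓝 (II A 0 0 1)) := by
      refine tendsto_const_nhds.congr' ?_
      filter_upwards [h3] with Y hY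
      rw [← hY]
      congr 1
      push_cast
      ring
    have h6 : II A 0 0 1 = -(2 * Real.pi * Complex.I) := tendsto_nhds_unique h5 h4
    intro μb tb μ hμ
    rw [hall μ μb tb 1 0 0 hμ h10, h6]

/-- module K4 -/
theorem low_of_zero (h : ∀ μb tb μ, μ ≠ μb → II A μb tb μ = 0) (μb : ℂ) (tb : ℝ) (μ : ℂ)
    (hμ : μ ≠ μb) : kb A μb tb μ ∈ Lo A μ (star μb - star μ) := by
  obtain ⟨hg, hne, hside⟩ := KK4_curve hA μb μ hμ
  obtain ⟨hr1, hr2, hr3⟩ := KK4_range hA μb μ hμ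
  have hv : ∀ z ∈ Set.range (fun s : ℝ => kb A μb s μ), Ph A μ (star μb - star μ) z = 0 := by
    rintro _ ⟨s, rfl⟩
    rw [Ph_kb hA]
    exact h _ _ _ hμ
  obtain ⟨-, -, -, -, h5, h6⟩ := Lo_spec hA μ (star μb - star μ)
  rcases hside with ⟨s, hs⟩ | ⟨s, hs⟩
  · refine h6 _ hr1 hr3 ⟨kb A μb s μ, ⟨s, rfl⟩, h5 _ fun y hy => ?_⟩ ⟨tb, rfl⟩
    have h7 := hs y hy
    have h8 : kb A μb s μ + ((-1 : ℝ) : ℂ) * (Complex.I * y) = kb A μb s μ - Complex.I * y := by
      push_cast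
      ring
    rwa [h8] at h7
  · exfalso
    have h3 := KK4_val hA μ (star μb - star μ) hr1 hr2 hr3 _ hv 1 (Or.inl rfl) ⟨s, rfl⟩ hs
    have h4 := Ph_up hA μ (star μb - star μ)
    have h5 : Tendsto (fun Y : ℝ => Ph A μ (star μb - star μ) (Complex.I * Y)) atTop
        (𝓝 0) := by
      refine tendsto_const_nhds.congr' ?_
      filter_upwards [h3] with Y hY
      rw [← hY]
      congr 1
      push_cast
      ring
    exact KK4_pi_ne (tendsto_nhds_unique h4 h5)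

/-- module K4 -/
theorem cau_zero (h : ∀ μb tb μ, μ ≠ μb → II A μb tb μ = 0) (μ κ : ℂ) (hκ : κ.im < 0) :
    ∫ t : ℝ, A μ t / ((t : ℂ) - κ) ^ 2 = 0 := by
  obtain ⟨-, -, hder⟩ := Ph_hol hA μ
  have hD := hder κ hκ.ne
  have hev : ∀ᶠ δ in 𝓝 (0 : ℂ), δ ≠ 0 → Ph A μ δ κ = 0 := by
    filter_upwards [Lo_small hA μ κ hκ] with δ hδ hδ0
    have hμ : μ ≠ μ + star δ := by
      intro h
      have : star δ = 0 := by
        have h1 : μ + star δ = μ + 0 := by rw [add_zero]; exact h.symm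
        exact add_left_cancel h1
      exact hδ0 (star_eq_zero.1 this)
    have hst : star (μ + star δ) - star μ = δ := by
      rw [star_add, star_star]
      ring
    obtain ⟨hr1, hr2, hr3⟩ := KK4_range hA (μ + star δ) μ hμ
    obtain ⟨h1, h2, h3, -, -, -⟩ := Lo_spec hA μ δ
    have hlow : (Set.range fun s : ℝ => kb A (μ + star δ) s μ) ⊆ Lo A μ δ := by
      rintro _ ⟨s, rfl⟩
      have := low_of_zero hA h (μ + star δ) s μ hμ
      rwa [hst] at this
    refine KK4_eqOn hA μ δ hr1 hr2 h1 h2 h3 hlow 0 ?_ κ hδ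
    rintro _ ⟨s, rfl⟩
    have h4 := Ph_kb hA (μ + star δ) s μ
    rw [hst] at h4
    rw [h4]
    exact h _ _ _ hμ
  have hcont : Tendsto (fun δ => Ph A μ δ κ) (𝓝[≠] 0) (𝓝 (Ph A μ 0 κ)) :=
    hD.continuousAt.tendsto.mono_left nhdsWithin_le_nhds
  have hz : Tendsto (fun δ => Ph A μ δ κ) (𝓝[≠] 0) (𝓝 0) := by
    refine tendsto_const_nhds.congr' ?_
    have h1 : ∀ᶠ δ in 𝓝[≠] (0 : ℂ), δ ≠ 0 → Ph A μ δ κ = 0 := hev.filter_mono nhdsWithin_le_nhds
    filter_upwards [h1, self_mem_nhdsWithin] with δ h2 h3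
    exact (h2 h3).symm
  have h0 : Ph A μ 0 κ = 0 := tendsto_nhds_unique hcont hz
  have hev2 : (fun δ => Ph A μ δ κ) =ᶠ[𝓝 0] fun _ => (0 : ℂ) := by
    filter_upwards [hev] with δ h1
    by_cases hδ : δ = 0
    · rw [hδ, h0]
    · exact h1 hδ
  have h2 : HasDerivAt (fun δ => Ph A μ δ κ) 0 0 := (hasDerivAt_const (0 : ℂ) (0 : ℂ)).congr_of_eventuallyEq hev2
  exact hD.unique h2

end

end Pool.Agent.MPd01a95.KT
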