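import Mathlib
import Pool.Agent.Lib.MP_d01a95_gt_K.KDefs2
import Pool.Agent.Lib.MP_d01a95_gt_K.KA1
import Pool.Agent.Lib.MP_d01a95_gt_K.KA2
import Pool.Agent.Lib.MP_d01a95_gt_K.KA4
import Pool.Agent.Lib.MP_d01a95_gt_K.KF0
import Pool.Agent.Lib.MP_d01a95_gt_K.KF6
import Pool.Agent.Lib.MP_d01a95_gt_K.KH1
import Pool.Agent.Lib.MP_d01a95_gt_K.KH2
import Pool.Agent.Lib.MP_d01a95_gt_K.KH3
import Pool.Agent.Lib.MP_d01a95_gt_K.KH4

set_option autoImplicit false
set_option linter.all false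

open Matrix Filter Topology MeasureTheory
open scoped ContDiff

namespace Pool.Agent.MPd01a95.KT

open GU


/-- the frames fixing a line: an explicit family -/
noncomputable def KK5a_U (l a b : ℂ) : M4 :=
  !![(a + b) / 2, 0, (b - a) * Complex.I / 2, 0;
     0, l, 0, 0;
     (a - b) * Complex.I / 2, 0, (a + b) / 2, 0;
     0, 0, 0, l]

theorem KK5a_cont {X : Type*} [TopologicalSpace X] {l a b : X → ℂ} (hl : Continuous l)
    (ha : Continuous a) (hb : Continuous b) : Continuous fun x => KK5a_U (l x) (a x) (b x) := by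
  refine continuous_matrix fun i j => ?_
  fin_cases i <;> fin_cases j <;> simp [KK5a_U] <;> fun_prop

theorem KK5a_one : KK5a_U 1 1 1 = 1 := by
  ext i j
  fin_cases i <;> fin_cases j <;> simp [KK5a_U, Matrix.one_apply]

theorem KK5a_U_e1 (l a b : ℂ) : KK5a_U l a b *ᵥ e1 = l • e1 := by
  ext i
  fin_cases i <;> simp [KK5a_U, e1, Matrix.mulVec, dotProduct, Fin.sum_univ_four]

theorem KK5a_unit {z : ℂ} (h : ‖z‖ = 1) : star z * z = 1 := by
  rw [Complex.star_def, ← Complex.normSq_eq_conj_mul_self, Complex.normSq_eq_norm_sq, h]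
  norm_num

theorem KK5a_U_unitary {l a b : ℂ} (hl : ‖l‖ = 1) (ha : ‖a‖ = 1) (hb : ‖b‖ = 1) :
    (KK5a_U l a b)ᴴ * KK5a_U l a b = 1 := by
  have h1 := KK5a_unit hl
  have h2 := KK5a_unit ha
  have h3 := KK5a_unit hb
  simp only [Complex.star_def] at h1 h2 h3
  have hI : Complex.I * Complex.I = -1 := Complex.I_mul_I
  have hc2 : (starRingEnd ℂ) (2 : ℂ) = 2 := Complex.conj_ofNat 2
  ext i j
  fin_cases i <;> fin_cases j <;>
    simp [KK5a_U, Matrix.mul_apply, Fin.sum_univ_four, Matrix.conjTranspose_apply,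
      Matrix.one_apply, hc2]
  · linear_combination (1/2) * h2 + (1/2) * h3 - (1/4) * (starRingEnd ℂ a - starRingEnd ℂ b) * (a - b) * hI
  · linear_combination (1/2) * Complex.I * h3 - (1/2) * Complex.I * h2
  · linear_combination h1
  · linear_combination (1/2) * Complex.I * h2 - (1/2) * Complex.I * h3
  · linear_combination (1/2) * h2 + (1/2) * h3 - (1/4) * (starRingEnd ℂ b - starRingEnd ℂ a) * (b - a) * hI
  · linear_combination h1

theorem KK5a_U_fc {l a b : ℂ} (hl : ‖l‖ = 1) (ha : ‖a‖ = 1) (hb : ‖b‖ = 1) (Z W : V4) :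
    fc (KK5a_U l a b *ᵥ Z) (KK5a_U l a b *ᵥ W) = fc Z W := by
  have h1 := KK5a_unit hl
  have h2 := KK5a_unit ha
  have h3 := KK5a_unit hb
  simp only [Complex.star_def] at h1 h2 h3
  have hI : Complex.I * Complex.I = -1 := Complex.I_mul_I
  have hc2 : (starRingEnd ℂ) (2 : ℂ) = 2 := Complex.conj_ofNat 2
  simp [fc, KK5a_U, Matrix.mulVec, dotProduct, Fin.sum_univ_four, hc2]
  generalize (starRingEnd ℂ) a = A at *
  generalize (starRingEnd ℂ) b = B at *
  generalize (starRingEnd ℂ) l = L at *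
  generalize (starRingEnd ℂ) (W 0) = w0 at *
  generalize (starRingEnd ℂ) (W 1) = w1 at *
  generalize (starRingEnd ℂ) (W 2) = w2 at *
  generalize (starRingEnd ℂ) (W 3) = w3 at *
  linear_combination ((-Complex.I / 2 * Z 0 * w0 + 1 / 2 * Z 0 * w2 - 1 / 2 * Z 2 * w0
      - Complex.I / 2 * Z 2 * w2) * h2 +
    (Complex.I / 2 * Z 0 * w0 + 1 / 2 * Z 0 * w2 - 1 / 2 * Z 2 * w0
      + Complex.I / 2 * Z 2 * w2) * h3 +
    (a - b) * (B - A) / 4 * (Z 0 * w2 - Z 2 * w0) * hI +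
    (Z 1 * w3 - Z 3 * w1) * h1)

/-- the shape of a unitary matrix which preserves the form and the line of `e1` -/
theorem KK5a_shape {u : M4} (hu : uᴴ * u = 1) (hf : ∀ Z W : V4, fc (u *ᵥ Z) (u *ᵥ W) = fc Z W)
    {l : ℂ} (hl : u *ᵥ e1 = l • e1) :
    ∃ a b : ℂ, ‖l‖ = 1 ∧ ‖a‖ = 1 ∧ ‖b‖ = 1 ∧ u = KK5a_U l a b := by
  have hu' : u * uᴴ = 1 := mul_eq_one_comm.mp hu
  -- entries of column one
  have c1 : ∀ i, u i 1 = l * e1 i := by
    intro i
    have := congrFun hl i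
    simpa [e1, Matrix.mulVec, dotProduct, Fin.sum_univ_four, Pi.single_apply] using this
  have c01 : u 0 1 = 0 := by simpa [e1] using c1 0
  have c11 : u 1 1 = l := by simpa [e1] using c1 1
  have c21 : u 2 1 = 0 := by simpa [e1] using c1 2
  have c31 : u 3 1 = 0 := by simpa [e1] using c1 3
  -- commutation with the form
  have hcom : ∀ i j : Fin 4, fc (u *ᵥ Pi.single j 1) (Pi.single i 1) =
      fc (Pi.single j 1) (uᴴ *ᵥ Pi.single i 1) := by
    intro i j
    have h := hf (Pi.single j 1) (uᴴ *ᵥ Pi.single i 1)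
    rwa [Matrix.mulVec_mulVec, hu', Matrix.one_mulVec] at h
  have hI := Complex.I_ne_zero
  have g : ∀ i j : Fin 4, (u 0 j * star ((Pi.single i 1 : V4) 2) - u 2 j * star ((Pi.single i 1 : V4) 0) +
      u 1 j * star ((Pi.single i 1 : V4) 3) - u 3 j * star ((Pi.single i 1 : V4) 1)) =
      ((Pi.single j 1 : V4) 0 * u i 2 - (Pi.single j 1 : V4) 2 * u i 0 +
        (Pi.single j 1 : V4) 1 * u i 3 - (Pi.single j 1 : V4) 3 * u i 1) := by
    intro i j
    have := hcom i j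
    simp only [fc, Matrix.mulVec_single_one, Matrix.col_apply, Matrix.conjTranspose_apply,
      star_star] at this
    exact mul_left_cancel₀ hI this
  have g00 := g 0 0
  have g02 := g 0 2
  have g30 := g 3 0
  have g31 := g 3 1
  have g32 := g 3 2
  have g33 := g 3 3
  have g01 := g 0 1
  have g21 := g 2 1
  simp at g00 g02 g30 g31 g32 g33 g01 g21
  -- unitarity
  have hrow : ∀ i j : Fin 4, ∑ m, u i m * star (u j m) = if i = j then 1 else 0 := by
    intro i j
    have := congrFun (congrFun hu' i) j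
    rwa [Matrix.mul_apply, Matrix.one_apply] at this
  have hcol : ∀ i j : Fin 4, ∑ m, star (u m i) * u m j = if i = j then 1 else 0 := by
    intro i j
    have := congrFun (congrFun hu i) j
    rwa [Matrix.mul_apply, Matrix.one_apply] at this
  have hns : ∀ z : ℂ, star z * z = ((‖z‖ ^ 2 : ℝ) : ℂ) := by
    intro z
    rw [Complex.star_def, ← Complex.normSq_eq_conj_mul_self, Complex.normSq_eq_norm_sq]
  have n1 : ‖l‖ ^ 2 = 1 := by
    have h := hcol 1 1
    rw [Fin.sum_univ_four, c01, c11, c21, c31, hns l, if_pos rfl, mul_zero, zero_add,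
      add_zero, add_zero] at h
    exact_mod_cast h
  have nl : ‖l‖ = 1 := by
    have h0 : 0 ≤ ‖l‖ := norm_nonneg l
    nlinarith [sq_nonneg (‖l‖ - 1)]
  have hns' : ∀ z : ℂ, z * star z = ((‖z‖ ^ 2 : ℝ) : ℂ) := by
    intro z; rw [mul_comm]; exact hns z
  have hr1 : ‖u 1 0‖ ^ 2 + ‖u 1 2‖ ^ 2 + ‖u 1 3‖ ^ 2 = 0 := by
    have h := hrow 1 1
    rw [Fin.sum_univ_four, hns', hns', hns', hns', c11, n1, if_pos rfl] at h
    have h' : ‖u 1 0‖ ^ 2 + 1 + ‖u 1 2‖ ^ 2 + ‖u 1 3‖ ^ 2 = 1 := by exact_mod_cast h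
    linarith
  have z10 : u 1 0 = 0 := by
    rw [← norm_eq_zero]
    have h0 := sq_nonneg ‖u 1 0‖
    have h1 := sq_nonneg ‖u 1 2‖
    have h2 := sq_nonneg ‖u 1 3‖
    exact pow_eq_zero_iff (two_ne_zero) |>.mp (by linarith)
  have z12 : u 1 2 = 0 := by
    rw [← norm_eq_zero]
    have h0 := sq_nonneg ‖u 1 0‖
    have h1 := sq_nonneg ‖u 1 2‖
    have h2 := sq_nonneg ‖u 1 3‖
    exact pow_eq_zero_iff (two_ne_zero) |>.mp (by linarith)
  have z13 : u 1 3 = 0 := by
    rw [← norm_eq_zero]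
    have h0 := sq_nonneg ‖u 1 0‖
    have h1 := sq_nonneg ‖u 1 2‖
    have h2 := sq_nonneg ‖u 1 3‖
    exact pow_eq_zero_iff (two_ne_zero) |>.mp (by linarith)
  have z32 : u 3 2 = 0 := by rw [← g30]; exact z10
  have z30 : u 3 0 = 0 := by
    have : -u 3 0 = 0 := by rw [← g32]; exact z12
    exact neg_eq_zero.mp this
  have z33 : u 3 3 = l := by rw [← g31]; exact c11
  have z03 : u 0 3 = 0 := by rw [← g01, c21, neg_zero]
  have z23 : u 2 3 = 0 := by rw [← g21]; exact c01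
  have d1 : star (u 0 0) * u 0 0 + star (u 2 0) * u 2 0 = 1 := by
    have h := hcol 0 0
    rw [Fin.sum_univ_four, z10, z30, if_pos rfl] at h
    simpa using h
  have d2 : - (star (u 0 0) * u 2 0) + star (u 2 0) * u 0 0 = 0 := by
    have h := hcol 0 2
    rw [Fin.sum_univ_four, z10, z30, ← g00, g02, if_neg (by decide)] at h
    simpa using h
  have hII : Complex.I * Complex.I = -1 := Complex.I_mul_I
  have hsI : star Complex.I = -Complex.I := Complex.conj_I
  have key : ∀ z : ℂ, star z * z = 1 → ‖z‖ = 1 := by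
    intro z hz
    rw [hns] at hz
    have h' : ‖z‖ ^ 2 = 1 := by exact_mod_cast hz
    have h0 : 0 ≤ ‖z‖ := norm_nonneg z
    nlinarith [sq_nonneg (‖z‖ - 1)]
  refine ⟨u 0 0 - Complex.I * u 2 0, u 0 0 + Complex.I * u 2 0, nl, key _ ?_, key _ ?_, ?_⟩
  · rw [star_sub, star_mul', hsI]
    linear_combination d1 + Complex.I * d2 - star (u 2 0) * u 2 0 * (hII)
  · rw [star_add, star_mul', hsI]
    linear_combination d1 - Complex.I * d2 - star (u 2 0) * u 2 0 * (hII)
  · ext i j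
    fin_cases i <;> fin_cases j <;> simp [KK5a_U, c01, c11, c21, c31, z10, z12, z13, z32, z30,
      z33, z03, z23]
    · rw [← g00]
      linear_combination (-1) * u 2 0 * hII
    · linear_combination u 2 0 * hII
    · rw [g02]

variable {G : Type} [Group G]

namespace Kd

variable (D : Kd G)

/-- module K5: the frames of the flags with given line form a connected set -/
theorem ff_joined {k k' : M4} (hk : k ∈ D.FF) (hk' : k' ∈ D.FF)
    (h : ∃ l : ℂ, k' *ᵥ e1 = l • (k *ᵥ e1)) : JoinedIn D.FF k k' := by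
  obtain ⟨l, hl⟩ := h
  obtain ⟨⟨hk1, hk2⟩, hk3⟩ := hk
  obtain ⟨⟨hk1', hk2'⟩, hk3'⟩ := hk'
  have hkk : k * kᴴ = 1 := mul_eq_one_comm.mp hk1
  set u : M4 := kᴴ * k' with hu
  have hku : k * u = k' := by rw [hu, ← Matrix.mul_assoc, hkk, Matrix.one_mul]
  have huu : uᴴ * u = 1 := by
    rw [hu, Matrix.conjTranspose_mul, Matrix.conjTranspose_conjTranspose, Matrix.mul_assoc,
      ← Matrix.mul_assoc k, hkk, Matrix.one_mul, hk1']
  have huf : ∀ Z W : V4, fc (u *ᵥ Z) (u *ᵥ W) = fc Z W := by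
    intro Z W
    rw [← hk2, Matrix.mulVec_mulVec, Matrix.mulVec_mulVec, hku, hk2']
  have hul : u *ᵥ e1 = l • e1 := by
    rw [hu, ← Matrix.mulVec_mulVec, hl, Matrix.mulVec_smul, Matrix.mulVec_mulVec, hk1,
      Matrix.one_mulVec]
  obtain ⟨a, b, nl, na, nb, hU⟩ := KK5a_shape huu huf hul
  have hE : ∀ z : ℂ, ‖z‖ = 1 → Complex.exp (Complex.arg z * Complex.I) = z := by
    intro z hz
    have := Complex.norm_mul_exp_arg_mul_I z
    rwa [hz, Complex.ofReal_one, one_mul] at this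
  have hnE : ∀ (s : ℝ) (z : ℂ), ‖Complex.exp ((s : ℂ) * (Complex.arg z * Complex.I))‖ = 1 := by
    intro s z
    have := Complex.norm_exp_ofReal_mul_I (s * Complex.arg z)
    rw [← this]
    congr 2
    push_cast
    ring
  have hcE : ∀ z : ℂ, Continuous fun s : unitInterval =>
      Complex.exp (((s : ℝ) : ℂ) * (Complex.arg z * Complex.I)) := by
    intro z
    fun_prop
  refine ⟨⟨⟨fun s : unitInterval => k * KK5a_U
      (Complex.exp (((s : ℝ) : ℂ) * (Complex.arg l * Complex.I)))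
      (Complex.exp (((s : ℝ) : ℂ) * (Complex.arg a * Complex.I)))
      (Complex.exp (((s : ℝ) : ℂ) * (Complex.arg b * Complex.I))), ?_⟩, ?_, ?_⟩, ?_⟩
  · exact continuous_const.matrix_mul (KK5a_cont (hcE l) (hcE a) (hcE b))
  · simp [KK5a_one]
  · simp [hE l nl, hE a na, hE b nb, ← hU, hku]
  · intro s
    refine ⟨⟨?_, ?_⟩, ?_⟩
    · show (k * KK5a_U _ _ _)ᴴ * (k * KK5a_U _ _ _) = 1
      rw [Matrix.conjTranspose_mul, Matrix.mul_assoc, ← Matrix.mul_assoc _ k, hk1, Matrix.one_mul]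
      exact KK5a_U_unitary (hnE _ _) (hnE _ _) (hnE _ _)
    · intro Z W
      show hf ((k * KK5a_U _ _ _) *ᵥ Z) ((k * KK5a_U _ _ _) *ᵥ W) = fc Z W
      rw [← Matrix.mulVec_mulVec, ← Matrix.mulVec_mulVec, hk2]
      exact KK5a_U_fc (hnE _ _) (hnE _ _) (hnE _ _) Z W
    · show (k * KK5a_U _ _ _) *ᵥ e1 ∈ D.Lam
      rw [← Matrix.mulVec_mulVec, KK5a_U_e1, Matrix.mulVec_smul]
      obtain ⟨θ, hθ, c, hc, hx⟩ := hk3
      refine ⟨θ, hθ, Complex.exp (((s : ℝ) : ℂ) * (Complex.arg l * Complex.I)) * c,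
        mul_ne_zero (Complex.exp_ne_zero _) hc, ?_⟩
      rw [hx, smul_smul]


end Kd

end Pool.Agent.MPd01a95.KT
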