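import Mathlib
import Pool.Agent.Lib.MP_d01a95_gt_K.KDefs2
import Pool.Agent.Lib.MP_d01a95_gt_K.KA1
import Pool.Agent.Lib.MP_d01a95_gt_K.KA2
import Pool.Agent.Lib.MP_d01a95_gt_K.KA4
import Pool.Agent.Lib.MP_d01a95_gt_K.KF0
import Pool.Agent.Lib.MP_d01a95_gt_K.KF6
import Pool.Agent.Lib.MP_d01a95_gt_K.KH1
import Pool.Agent.Lib.MP_d01a95_gt_K.KH2
import Pool.Agent.Lib.MP_d01a95_gt_K.KH3
import Pool.Agent.Lib.MP_d01a95_gt_K.KH4
import Pool.Agent.Lib.MP_d01a95_gt_K.KK5a

set_option autoImplicit false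
set_option linter.all false

open Matrix Filter Topology MeasureTheory
open scoped ContDiff

namespace Pool.Agent.MPd01a95.KT

open GU

variable {G : Type} [Group G]

namespace Kd

variable (D : Kd G)

private theorem hf_smul_self (v : V4) (c : ℂ) (h : hf v v = 0) : hf v (c • v) = 0 := by
  have h1 : hf v (c • v) = star c * hf v v := by
    simp only [hf, CW.hh, Pi.smul_apply, smul_eq_mul, star_mul']
    ring
  rw [h1, h, mul_zero]

private theorem exists_second {v : V4} (hv : ‖v‖ = 1) (h0 : hf v v = 0) : ∃ u : V4,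
    (∀ a b : ℂ, a • u + b • v = 0 → a = 0 ∧ b = 0) ∧ hf u u = 0 ∧ hf u v = 0 := by
  have hn : v 0 * star (v 0) + v 1 * star (v 1) - v 2 * star (v 2) - v 3 * star (v 3) = 0 := h0
  have hpos : v 0 * star (v 0) + v 1 * star (v 1) ≠ 0 := by
    intro h1
    have h2 : v 2 * star (v 2) + v 3 * star (v 3) = 0 := by linear_combination h1 - hn
    have key : ∀ a b : ℂ, a * star a + b * star b = 0 → a = 0 ∧ b = 0 := by
      intro a b hab
      have e : ∀ z : ℂ, z * star z = ((Complex.normSq z : ℝ) : ℂ) := fun z => Complex.mul_conj z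
      rw [e, e, ← Complex.ofReal_add, Complex.ofReal_eq_zero] at hab
      have ha := Complex.normSq_nonneg a
      have hb := Complex.normSq_nonneg b
      exact ⟨Complex.normSq_eq_zero.1 (by linarith), Complex.normSq_eq_zero.1 (by linarith)⟩
    obtain ⟨a0, a1⟩ := key _ _ h1
    obtain ⟨a2, a3⟩ := key _ _ h2
    have : v = 0 := by
      funext i
      fin_cases i
      · exact a0
      · exact a1
      · exact a2
      · exact a3
    rw [this, norm_zero] at hv
    exact zero_ne_one hv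
  refine ⟨![-star (v 1), star (v 0), -star (v 3), star (v 2)], fun a b hab => ?_, ?_, ?_⟩
  · have e0 := congrFun hab 0
    have e1 := congrFun hab 1
    simp only [Pi.add_apply, Pi.smul_apply, smul_eq_mul, Pi.zero_apply, Matrix.cons_val_zero,
      Matrix.cons_val_one] at e0 e1
    have hb : b * (v 0 * star (v 0) + v 1 * star (v 1)) = 0 := by
      linear_combination star (v 0) * e0 + star (v 1) * e1
    have ha : star a * (v 0 * star (v 0) + v 1 * star (v 1)) = 0 := by
      have hb0 : b = 0 := (mul_eq_zero.1 hb).resolve_right hpos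
      rw [hb0] at e0 e1
      have e0' := congrArg star e0
      have e1' := congrArg star e1
      simp only [star_add, star_mul', star_neg, star_star, zero_mul, add_zero, star_zero] at e0' e1'
      linear_combination star (v 0) * e1' - star (v 1) * e0'
    exact ⟨star_eq_zero.1 ((mul_eq_zero.1 ha).resolve_right hpos),
      (mul_eq_zero.1 hb).resolve_right hpos⟩
  · simp only [hf, CW.hh]
    simp
    simp only [starRingEnd_apply]
    linear_combination hn
  · simp only [hf, CW.hh]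
    simp
    ring

private theorem t0_eq {θ : Eb} (hθ : θ ∈ Sph) {k : M4} (hk : k ∈ D.FF) {l : ℂ} (hl : l ≠ 0)
    (h : k *ᵥ e1 = l • D.xi θ) : D.t0 k = θ := by
  obtain ⟨h1, l', hl', h2⟩ := D.t0_spec hk
  by_contra hne
  apply D.xtv _ h1 θ hθ hne
  have h3 : D.xi θ = (l⁻¹ * l') • D.xi (D.t0 k) := by
    rw [mul_smul, ← h2, h, smul_smul, inv_mul_cancel₀ hl, one_smul]
  rw [h3]
  exact hf_smul_self _ _ (D.xnull _ h1)

/-- module K5: every point of the sphere has a frame -/
theorem ff_surj {θ : Eb} (hθ : θ ∈ Sph) : ∃ k ∈ D.FF, D.t0 k = θ := by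
  obtain ⟨u, hl, hu, huv⟩ := exists_second (D.xnorm θ hθ) (D.xnull θ hθ)
  obtain ⟨k, hk, ⟨l, hl0, hkl⟩, -⟩ := exists_frame u (D.xi θ) hl hu (D.xnull θ hθ) huv
  have hF : k ∈ D.FF := ⟨hk, θ, hθ, l, hl0, hkl⟩
  exact ⟨k, hF, D.t0_eq hθ hF hl0 hkl⟩

private theorem sph_preconn : IsPreconnected Sph := by
  refine isPreconnected_sphere ?_ 0 1
  have h : Module.rank ℝ Eb = 4 := by
    rw [rank_real_of_complex]
    have : Module.rank ℂ Eb = 2 := by
      rw [← Module.finrank_eq_rank, finrank_euclideanSpace]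
      simp
    rw [this]
    norm_num
  rw [h]
  norm_num

/-- module K5: the set of frames is connected -/
theorem ff_preconn : IsPreconnected D.FF := by
  rw [isPreconnected_iff_subset_of_disjoint_closed]
  intro u v hu hv huv hd
  have hc0 : IsCompact (D.t0 '' (D.FF ∩ u)) :=
    (D.ff_compact.inter_right hu).image_of_continuousOn (D.t0_cont.mono Set.inter_subset_left)
  have hc1 : IsCompact (D.t0 '' (D.FF ∩ v)) :=
    (D.ff_compact.inter_right hv).image_of_continuousOn (D.t0_cont.mono Set.inter_subset_left)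
  have hdis : ∀ k ∈ D.FF, ∀ k' ∈ D.FF, k ∈ u → k' ∈ v → D.t0 k = D.t0 k' → False := by
    intro k hk k' hk' hku hkv he
    obtain ⟨-, l, hl, h1⟩ := D.t0_spec hk
    obtain ⟨-, l', hl', h2⟩ := D.t0_spec hk'
    have hj : JoinedIn D.FF k k' := by
      refine D.ff_joined hk hk' ⟨l' * l⁻¹, ?_⟩
      rw [h1, h2, he, smul_smul, mul_assoc, inv_mul_cancel₀ hl, mul_one]
    have hp : IsPreconnected (Set.range hj.somePath) :=
      isPreconnected_range hj.somePath.continuous
    have hsub : Set.range hj.somePath ⊆ D.FF := by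
      rintro _ ⟨t, rfl⟩
      exact hj.somePath_mem t
    have hk0 : k ∈ Set.range hj.somePath := ⟨0, hj.somePath.source⟩
    have hk1 : k' ∈ Set.range hj.somePath := ⟨1, hj.somePath.target⟩
    rcases isPreconnected_iff_subset_of_disjoint_closed.1 hp u v hu hv (hsub.trans huv)
      (Set.subset_eq_empty (Set.inter_subset_inter_left _ hsub) hd) with h | h
    · have : k' ∈ D.FF ∩ (u ∩ v) := ⟨hk', h hk1, hkv⟩
      rw [hd] at this
      exact this
    · have : k ∈ D.FF ∩ (u ∩ v) := ⟨hk, hku, h hk0⟩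
      rw [hd] at this
      exact this
  have hcov : Sph ⊆ D.t0 '' (D.FF ∩ u) ∪ D.t0 '' (D.FF ∩ v) := by
    intro θ hθ
    obtain ⟨k, hk, rfl⟩ := D.ff_surj hθ
    rcases huv hk with h | h
    · exact Or.inl ⟨k, ⟨hk, h⟩, rfl⟩
    · exact Or.inr ⟨k, ⟨hk, h⟩, rfl⟩
  have hint : Sph ∩ (D.t0 '' (D.FF ∩ u) ∩ D.t0 '' (D.FF ∩ v)) = ∅ := by
    rw [Set.eq_empty_iff_forall_notMem]
    rintro θ ⟨-, ⟨k, ⟨hk, hku⟩, rfl⟩, ⟨k', ⟨hk', hkv⟩, he⟩⟩
    exact hdis k hk k' hk' hku hkv he.symm
  rcases isPreconnected_iff_subset_of_disjoint_closed.1 sph_preconn _ _ hc0.isClosed hc1.isClosed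
    hcov hint with h | h
  · left
    intro k hk
    rcases huv hk with h' | h'
    · exact h'
    · obtain ⟨k0, ⟨hk0, hu0⟩, he⟩ := h (D.t0_spec hk).1
      exact (hdis k0 hk0 k hk hu0 h' he).elim
  · right
    intro k hk
    rcases huv hk with h' | h'
    · obtain ⟨k0, ⟨hk0, hu0⟩, he⟩ := h (D.t0_spec hk).1
      exact (hdis k hk k0 hk0 h' hu0 he.symm).elim
    · exact h'

end Kd

end Pool.Agent.MPd01a95.KT
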