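import Mathlib
import Pool.Agent.Lib.MP_d01a95_gt_K.KDefs2
import Pool.Agent.Lib.MP_d01a95_gt_K.KA1
import Pool.Agent.Lib.MP_d01a95_gt_K.KA2
import Pool.Agent.Lib.MP_d01a95_gt_K.KA4
import Pool.Agent.Lib.MP_d01a95_gt_K.KF0
import Pool.Agent.Lib.MP_d01a95_gt_K.KF6
import Pool.Agent.Lib.MP_d01a95_gt_K.KH1
import Pool.Agent.Lib.MP_d01a95_gt_K.KH2
import Pool.Agent.Lib.MP_d01a95_gt_K.KH3
import Pool.Agent.Lib.MP_d01a95_gt_K.KH4
import Pool.Agent.Lib.MP_d01a95_gt_K.KA5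
import Pool.Agent.Lib.MP_d01a95_gt_K.KJ1
import Pool.Agent.Lib.MP_d01a95_gt_K.KJ4
import Pool.Agent.Lib.MP_d01a95_gt_K.KK4
import Pool.Agent.Lib.MP_d01a95_gt_K.KK5b

set_option autoImplicit false
set_option linter.all false

open Matrix Filter Topology MeasureTheory
open scoped ContDiff

namespace Pool.Agent.MPd01a95.KT

open GU

variable {G : Type} [Group G]

namespace Kd

variable (D : Kd G)

/-- module K5: the side does not depend on the frame -/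
theorem side_const (h : ∀ k ∈ D.FF, ∀ μb tb, ∃ w : ℤ, ∀ μ, μ ≠ μb →
      II (D.A k) μb tb μ = -(2 * Real.pi * Complex.I * w)) :
    (∀ k ∈ D.FF, ∀ μb tb μ, μ ≠ μb → II (D.A k) μb tb μ = 0) ∨
      (∀ k ∈ D.FF, ∀ μb tb μ, μ ≠ μb → II (D.A k) μb tb μ = -(2 * Real.pi * Complex.I)) := by
  classical
  have h2 : ∀ k ∈ D.FF, (∀ μb tb μ, μ ≠ μb → II (D.A k) μb tb μ = 0) ∨
      (∀ μb tb μ, μ ≠ μb → II (D.A k) μb tb μ = -(2 * Real.pi * Complex.I)) :=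
    fun k hk => w_cases (D.ch hk) (h k hk)
  obtain ⟨F, hc, hFk⟩ : ∃ F : M4 → ℂ, ContinuousOn F D.FF ∧ ∀ k, F k = II (D.A k) 0 0 1 := by
    have h3 := D.II_cont
    have h4 : Continuous fun k : M4 => ((k, (0 : ℂ), (0 : ℝ), (1 : ℂ)) : M4 × ℂ × ℝ × ℂ) :=
      continuous_id.prodMk continuous_const
    have h5 : Set.MapsTo (fun k : M4 => ((k, (0 : ℂ), (0 : ℝ), (1 : ℂ)) : M4 × ℂ × ℝ × ℂ)) D.FF
        {p | p.1 ∈ D.FF ∧ p.2.2.2 ≠ p.2.1} := fun k hk => ⟨hk, one_ne_zero⟩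
    obtain ⟨Q, hQ⟩ : ∃ Q : M4 → ℂ → ℝ → ℂ → ℂ, ∀ k a b c, Q k a b c = II (D.A k) a b c :=
      ⟨fun k a b c => II (D.A k) a b c, fun _ _ _ _ => rfl⟩
    simp only [← hQ] at h3 ⊢
    exact ⟨_, h3.comp h4.continuousOn h5, fun k => rfl⟩
  have hpi : (-(2 * Real.pi * Complex.I) : ℂ) ≠ 0 := by
    simp [Real.pi_ne_zero, Complex.I_ne_zero]
  have hz : ∀ k ∈ D.FF, F k = 0 ∨ F k = -(2 * Real.pi * Complex.I) := by
    intro k hk
    rw [hFk]
    rcases h2 k hk with h3 | h3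
    · exact Or.inl (h3 0 0 1 one_ne_zero)
    · exact Or.inr (h3 0 0 1 one_ne_zero)
  by_cases hne : D.FF.Nonempty
  swap
  · left
    intro k hk
    exact (hne ⟨k, hk⟩).elim
  obtain ⟨k₀, hk₀⟩ := hne
  have himg : IsPreconnected (F '' D.FF) := D.ff_preconn.image _ hc
  have hsub : (F '' D.FF).Subsingleton := by
    have hfin : (F '' D.FF).Finite := by
      refine Set.Finite.subset (Set.toFinite {0, -(2 * Real.pi * Complex.I)}) ?_
      rintro _ ⟨k, hk, rfl⟩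
      exact hz k hk
    by_contra hns
    exact (himg.infinite_of_nontrivial (Set.not_subsingleton_iff.1 hns)) hfin
  have heq : ∀ k ∈ D.FF, F k = F k₀ := fun k hk => hsub ⟨k, hk, rfl⟩ ⟨k₀, hk₀, rfl⟩
  rcases h2 k₀ hk₀ with h3 | h3
  · left
    intro k hk
    rcases h2 k hk with h4 | h4
    · exact h4
    · exfalso
      have h5 := heq k hk
      rw [hFk, hFk, h4 0 0 1 one_ne_zero, h3 0 0 1 one_ne_zero] at h5
      exact hpi h5
  · right
    intro k hk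
    rcases h2 k hk with h4 | h4
    · exfalso
      have h5 := heq k hk
      rw [hFk, hFk, h4 0 0 1 one_ne_zero, h3 0 0 1 one_ne_zero] at h5
      exact hpi h5.symm
    · exact h4

end Kd

end Pool.Agent.MPd01a95.KT
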