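import Mathlib
import Pool.Agent.Lib.MP_d01a95_gt_K.KDefs2
import Pool.Agent.Lib.MP_d01a95_gt_K.KA1
import Pool.Agent.Lib.MP_d01a95_gt_K.KA2
import Pool.Agent.Lib.MP_d01a95_gt_K.KA4
import Pool.Agent.Lib.MP_d01a95_gt_K.KF0
import Pool.Agent.Lib.MP_d01a95_gt_K.KF6
import Pool.Agent.Lib.MP_d01a95_gt_K.KH1
import Pool.Agent.Lib.MP_d01a95_gt_K.KH2
import Pool.Agent.Lib.MP_d01a95_gt_K.KH3
import Pool.Agent.Lib.MP_d01a95_gt_K.KH4

set_option autoImplicit false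
set_option linter.all false

open Matrix Filter Topology MeasureTheory
open scoped ContDiff

namespace Pool.Agent.MPd01a95.KT

open GU

variable {G : Type} [Group G]

/-- the permutation of the indices -/
private def KK6a_p : Fin 4 → Fin 4 := ![2, 3, 0, 1]

private theorem KK6a_pp (i : Fin 4) : KK6a_p (KK6a_p i) = i := by
  fin_cases i <;> rfl

private theorem KK6a_io_vec (v : V4) (i : Fin 4) : (io *ᵥ v) i = v (KK6a_p i) := by
  fin_cases i <;> simp [io, KK6a_p, Matrix.mulVec, dotProduct, Fin.sum_univ_four]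

private theorem KK6a_io_io : io * io = 1 := by
  ext i j
  fin_cases i <;> fin_cases j <;>
    simp [io, Matrix.mul_apply, Fin.sum_univ_four, Matrix.one_apply]

private theorem KK6a_ioH : ioᴴ = io := by
  ext i j
  fin_cases i <;> fin_cases j <;> simp [io, Matrix.conjTranspose_apply]

private theorem KK6a_conj (g : M4) (i j : Fin 4) :
    (io * g * io) i j = g (KK6a_p i) (KK6a_p j) := by
  fin_cases i <;> fin_cases j <;>
    simp [io, KK6a_p, Matrix.mul_apply, Fin.sum_univ_four, Matrix.vecMul, dotProduct]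

private theorem KK6a_ioio (v : V4) : io *ᵥ (io *ᵥ v) = v := by
  rw [Matrix.mulVec_mulVec, KK6a_io_io, Matrix.one_mulVec]

private theorem KK6a_hf (v w : V4) : hf (io *ᵥ v) (io *ᵥ w) = - hf v w := by
  have e : ∀ v w : V4, hf v w = v 0 * star (w 0) + v 1 * star (w 1) - v 2 * star (w 2) -
      v 3 * star (w 3) := fun _ _ => rfl
  rw [e, e]
  simp only [KK6a_io_vec, KK6a_p, Matrix.cons_val_zero, Matrix.cons_val_one, Matrix.cons_val]
  ring

private theorem KK6a_norm_le (v : V4) : ‖io *ᵥ v‖ ≤ ‖v‖ :=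
  (pi_norm_le_iff_of_nonneg (norm_nonneg _)).mpr fun i => by
    rw [KK6a_io_vec]
    exact norm_le_pi_norm v _

private theorem KK6a_norm (v : V4) : ‖io *ᵥ v‖ = ‖v‖ := by
  refine le_antisymm (KK6a_norm_le v) ?_
  have h := KK6a_norm_le (io *ᵥ v)
  rwa [KK6a_ioio] at h

private theorem KK6a_s1_le (g : M4) : s1 (io * g * io) ≤ s1 g :=
  F0.s1_le (F0.s1_nonneg g) fun i j => by
    rw [KK6a_conj]
    exact F0.le_s1 g _ _

private theorem KK6a_cc (g : M4) : io * (io * g * io) * io = g := by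
  have : io * (io * g * io) * io = (io * io) * g * (io * io) := by
    simp only [Matrix.mul_assoc]
  rw [this, KK6a_io_io, Matrix.one_mul, Matrix.mul_one]

private theorem KK6a_s1 (g : M4) : s1 (io * g * io) = s1 g := by
  refine le_antisymm (KK6a_s1_le g) ?_
  have h := KK6a_s1_le (io * g * io)
  rwa [KK6a_cc] at h

private theorem KK6a_s2_le (g : M4) : s2 (io * g * io) ≤ s2 g :=
  F0.s2_le_of (F0.s2_nonneg g) fun i i' j j' => by
    simp only [KK6a_conj]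
    exact F0.le_s2 g _ _ _ _

private theorem KK6a_s2 (g : M4) : s2 (io * g * io) = s2 g := by
  refine le_antisymm (KK6a_s2_le g) ?_
  have h := KK6a_s2_le (io * g * io)
  rwa [KK6a_cc] at h

private theorem KK6a_wd_le (x y : V4) : wd (io *ᵥ x) (io *ᵥ y) ≤ wd x y :=
  F0.wd_le_of (F0.wd_nonneg x y) fun i j => by
    simp only [KK6a_io_vec]
    exact F0.le_wd x y _ _

private theorem KK6a_act (g : M4) (v : V4) : (io * g * io) *ᵥ v = io *ᵥ (g *ᵥ (io *ᵥ v)) := by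
  simp only [Matrix.mulVec_mulVec, Matrix.mul_assoc]

private theorem KK6a_act2 (g : M4) (v : V4) : (io * g * io) *ᵥ (io *ᵥ v) = io *ᵥ (g *ᵥ v) := by
  rw [KK6a_act, KK6a_ioio]

/-- the data with the opposite form -/
private noncomputable def KK6a_D (D : Kd G) : Kd G where
  σ := D.σ
  R g := io * D.R g * io
  lat := D.lat
  pres g v w := by
    rw [KK6a_act, KK6a_act, KK6a_hf, D.pres, KK6a_hf, neg_neg]
  one := by
    rw [D.one, Matrix.mul_one, KK6a_io_io]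
  mul g h := by
    obtain ⟨u, hu, e⟩ := D.mul g h
    refine ⟨u, hu, ?_⟩
    rw [e]
    have h1 : io * D.R g * io * (io * D.R h * io) = io * D.R g * (io * io) * D.R h * io := by
      simp only [Matrix.mul_assoc]
    rw [h1, KK6a_io_io, Matrix.mul_one, Matrix.mul_smul, Matrix.smul_mul]
    simp only [Matrix.mul_assoc]
  C := D.C
  N := D.N
  ε := D.ε
  hC := D.hC
  hN := D.hN
  hε := D.hε
  gap g := by
    rw [KK6a_s1, KK6a_s2]
    exact D.gap g
  lo g := by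
    rw [KK6a_s1]
    exact D.lo g
  up g := by
    rw [KK6a_s1]
    exact D.up g
  near := D.near
  xi θ := io *ᵥ D.xi θ
  xnorm θ hθ := by
    rw [KK6a_norm]
    exact D.xnorm θ hθ
  xnull θ hθ := by
    rw [KK6a_hf, D.xnull θ hθ, neg_zero]
  xtv θ hθ θ' hθ' h := by
    rw [KK6a_hf]
    exact neg_ne_zero.mpr (D.xtv θ hθ θ' hθ' h)
  xeqv g θ hθ := by
    obtain ⟨l, hl, e⟩ := D.xeqv g θ hθ
    refine ⟨l, hl, ?_⟩
    rw [KK6a_act2, e, Matrix.mulVec_smul]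
  xcont θ hθ η hη := by
    obtain ⟨δ, hδ, h⟩ := D.xcont θ hθ η hη
    refine ⟨δ, hδ, fun θ' hθ' hd => ?_⟩
    obtain ⟨l, hl, e⟩ := h θ' hθ' hd
    refine ⟨l, hl, ?_⟩
    rw [← Matrix.mulVec_smul, ← Matrix.mulVec_sub, KK6a_norm]
    exact e
  xexp δ hδ := by
    obtain ⟨a, ha, h⟩ := D.xexp δ hδ
    refine ⟨a, ha, fun g θ hθ hk => ?_⟩
    rw [KK6a_s1, KK6a_act2, KK6a_norm]
    exact h g θ hθ hk
  xapx := by
    obtain ⟨C', ε', hε', h⟩ := D.xapx
    refine ⟨C', ε', hε', fun g θ hθ w => ?_⟩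
    rw [KK6a_s1, KK6a_act]
    have h1 := h g θ hθ (io *ᵥ w)
    rw [KK6a_norm] at h1
    exact (KK6a_wd_le _ _).trans h1
  fol u v hl hu hv huv := by
    obtain ⟨θ, hθ, a, b, e⟩ := D.fol (io *ᵥ u) (io *ᵥ v) (fun a b hab => by
      apply hl a b
      have h1 := congrArg (fun x => io *ᵥ x) hab
      simp only [Matrix.mulVec_add, Matrix.mulVec_smul, KK6a_ioio, Matrix.mulVec_zero] at h1
      exact h1) (by rw [KK6a_hf, hu, neg_zero]) (by rw [KK6a_hf, hv, neg_zero])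
      (by rw [KK6a_hf, huv, neg_zero])
    refine ⟨θ, hθ, a, b, ?_⟩
    rw [e, Matrix.mulVec_add, Matrix.mulVec_smul, Matrix.mulVec_smul, KK6a_ioio, KK6a_ioio]

/-- the sign change in the frames -/
private def KK6a_d : M4 := !![-1, 0, 0, 0; 0, -1, 0, 0; 0, 0, 1, 0; 0, 0, 0, 1]

private theorem KK6a_d_vec (v : V4) : KK6a_d *ᵥ v = ![-v 0, -v 1, v 2, v 3] := by
  ext i
  fin_cases i <;> simp [KK6a_d, Matrix.mulVec, dotProduct, Fin.sum_univ_four]

private theorem KK6a_dd : KK6a_dᴴ * KK6a_d = 1 := by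
  ext i j
  fin_cases i <;> fin_cases j <;>
    simp [KK6a_d, Matrix.mul_apply, Fin.sum_univ_four, Matrix.one_apply,
      Matrix.conjTranspose_apply]

private theorem KK6a_fc (Z W : V4) : fc (KK6a_d *ᵥ Z) (KK6a_d *ᵥ W) = - fc Z W := by
  rw [KK6a_d_vec, KK6a_d_vec]
  simp only [fc, Matrix.cons_val_zero, Matrix.cons_val_one, Matrix.cons_val, star_neg]
  ring

private theorem KK6a_XX (a μ : ℂ) (t : ℝ) :
    KK6a_d *ᵥ XX (-a) μ ((-t : ℝ) : ℂ) = XX a μ (t : ℂ) := by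
  rw [KK6a_d_vec]
  ext i
  fin_cases i
  · simp [XX]
  · simp [XX]
    ring
  · simp [XX]
  · simp [XX]

private theorem KK6a_e1 : KK6a_d *ᵥ e1 = -e1 := by
  rw [KK6a_d_vec]
  ext i
  fin_cases i <;> simp [e1]

private theorem KK6a_frame_act (k : M4) (v : V4) :
    (io * k * KK6a_d) *ᵥ v = io *ᵥ (k *ᵥ (KK6a_d *ᵥ v)) := by
  simp only [Matrix.mulVec_mulVec, Matrix.mul_assoc]

private theorem KK6a_frame {k : M4} (hk : k ∈ KK) : io * k * KK6a_d ∈ KK := by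
  refine ⟨?_, fun Z W => ?_⟩
  · rw [Matrix.conjTranspose_mul, Matrix.conjTranspose_mul, KK6a_ioH]
    have : KK6a_dᴴ * (kᴴ * io) * (io * k * KK6a_d) = KK6a_dᴴ * (kᴴ * ((io * io) * k)) * KK6a_d := by
      simp only [Matrix.mul_assoc]
    rw [this, KK6a_io_io, Matrix.one_mul, hk.1, Matrix.mul_one, KK6a_dd]
  · rw [KK6a_frame_act, KK6a_frame_act, KK6a_hf, hk.2, KK6a_fc, neg_neg]

/-- module K6: changing the sign of the form -/
theorem flip (D : Kd G) : ∃ D' : Kd G, D'.σ = D.σ ∧ (∀ g, D'.R g = io * D.R g * io) ∧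
    ∀ k ∈ D'.FF, ∃ k₂ ∈ D.FF, ∀ μ t, D'.A k μ t = - D.A k₂ μ (-t) := by
  refine ⟨KK6a_D D, rfl, fun g => rfl, fun k hk => ?_⟩
  have hk2 : io * k * KK6a_d ∈ D.FF := by
    refine ⟨KK6a_frame hk.1, ?_⟩
    obtain ⟨θ, hθ, l, hl, e⟩ := hk.2
    refine ⟨θ, hθ, -l, neg_ne_zero.mpr hl, ?_⟩
    have e' : k *ᵥ e1 = l • (io *ᵥ D.xi θ) := e
    rw [KK6a_frame_act, KK6a_e1, Matrix.mulVec_neg, Matrix.mulVec_neg, e', Matrix.mulVec_smul,
      KK6a_ioio, neg_smul]
  refine ⟨io * k * KK6a_d, hk2, fun μ t => ?_⟩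
  obtain ⟨hθ, -, l, hl, e⟩ := (KK6a_D D).A_spec hk μ t
  have e' : k *ᵥ XX ((KK6a_D D).A k μ t) μ t = l • (io *ᵥ D.xi ((KK6a_D D).th k μ t)) := e
  have h := D.A_unique hk2 (-((KK6a_D D).A k μ t)) μ (-t) ⟨_, hθ, l, hl, by
    rw [KK6a_frame_act, KK6a_XX, e', Matrix.mulVec_smul, KK6a_ioio]⟩
  rw [← h, neg_neg]

end Pool.Agent.MPd01a95.KT
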