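import Mathlib
import Pool.Agent.Lib.MP_d01a95_gt_K.KDefs2

set_option autoImplicit false
set_option linter.all false

open Matrix Filter Topology MeasureTheory
open scoped ContDiff

namespace Pool.Agent.MPd01a95.KT

open GU

variable {G : Type} [Group G]

/-- the linear form after the change of sign -/
theorem KK6b_el {A A' : ℂ → ℝ → ℂ} (h : ∀ μ t, A' μ t = - A μ (-t)) (μb : ℂ) (tb : ℝ)
    (μ : ℂ) (t : ℝ) : el A' μb tb μ t = - el A μb (-tb) μ (-t) := by
  unfold el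
  rw [h μ t, h μb tb]
  simp only [star_neg]
  push_cast
  ring

/-- integrability of the integrand of `II` -/
theorem KK6b_int {A : ℂ → ℝ → ℂ} (hA : Ch A) (μb : ℂ) (tb : ℝ) (μ : ℂ) (hμ : μ ≠ μb) :
    Integrable fun t : ℝ => (1 / ((t : ℂ) + Complex.I) - 1 / el A μb tb μ t) := by
  have hne : ∀ t : ℝ, el A μb tb μ t ≠ 0 := fun t => hA.ne μb tb μ t (by
    intro hh
    exact hμ (congrArg Prod.fst hh))
  have hi : ∀ t : ℝ, (t : ℂ) + Complex.I ≠ 0 := by
    intro t ht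
    have := congrArg Complex.im ht
    simp at this
  have hcA : Continuous fun t : ℝ => A μ t :=
    hA.cont.comp (Continuous.prodMk continuous_const continuous_id)
  have hcel : Continuous fun t : ℝ => el A μb tb μ t := by
    unfold el
    exact ((Complex.continuous_ofReal.sub continuous_const).sub
      (hcA.mul continuous_const)).sub continuous_const
  have hcont : Continuous fun t : ℝ => (1 / ((t : ℂ) + Complex.I) - 1 / el A μb tb μ t) :=
    (continuous_const.div (Complex.continuous_ofReal.add continuous_const) hi).sub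
      (continuous_const.div hcel hne)
  obtain ⟨ε, hε, hg⟩ := hA.grow
  obtain ⟨C, hC⟩ := hg ‖μ‖
  -- reduce to an exponent at most one
  set e : ℝ := min ε 1 with he
  have he0 : 0 < e := lt_min hε one_pos
  have he1 : e ≤ 1 := min_le_right _ _
  have hpow : ∀ t : ℝ, (1 + |t|) ^ (1 - ε) ≤ (1 + |t|) ^ (1 - e) := fun t =>
    Real.rpow_le_rpow_of_exponent_le (by linarith [abs_nonneg t]) (by linarith [min_le_left ε 1])
  have hpow1 : ∀ t : ℝ, 1 ≤ (1 + |t|) ^ (1 - e) := fun t =>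
    Real.one_le_rpow (by linarith [abs_nonneg t]) (by linarith)
  set K : ℝ := |C| * ‖star μ - star μb‖ + (|tb| + ‖star (A μb tb) * (μ - μb)‖ + 1) with hK
  have hK0 : 0 < K := by
    have h1 : 0 ≤ |C| * ‖star μ - star μb‖ := by positivity
    have h2 : 0 ≤ |tb| := abs_nonneg _
    have h3 : 0 ≤ ‖star (A μb tb) * (μ - μb)‖ := norm_nonneg _
    linarith
  have hdiff : ∀ t : ℝ, ‖el A μb tb μ t - ((t : ℂ) + Complex.I)‖ ≤ K * (1 + |t|) ^ (1 - e) := by
    intro t
    have h1 : el A μb tb μ t - ((t : ℂ) + Complex.I) =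
        -(A μ t * (star μ - star μb)) + -((tb : ℂ) + star (A μb tb) * (μ - μb) + Complex.I) := by
      unfold el; ring
    rw [h1]
    have h2 : ‖A μ t‖ ≤ |C| * (1 + |t|) ^ (1 - e) := by
      calc ‖A μ t‖ ≤ C * (1 + |t|) ^ (1 - ε) := hC μ t le_rfl
        _ ≤ |C| * (1 + |t|) ^ (1 - ε) :=
            mul_le_mul_of_nonneg_right (le_abs_self C)
              (Real.rpow_nonneg (by linarith [abs_nonneg t]) _)
        _ ≤ |C| * (1 + |t|) ^ (1 - e) := mul_le_mul_of_nonneg_left (hpow t) (abs_nonneg C)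
    have h3 : ‖A μ t * (star μ - star μb)‖ ≤
        |C| * ‖star μ - star μb‖ * (1 + |t|) ^ (1 - e) := by
      rw [norm_mul]
      calc ‖A μ t‖ * ‖star μ - star μb‖ ≤ (|C| * (1 + |t|) ^ (1 - e)) * ‖star μ - star μb‖ :=
            mul_le_mul_of_nonneg_right h2 (norm_nonneg _)
        _ = _ := by ring
    have h4 : ‖(tb : ℂ) + star (A μb tb) * (μ - μb) + Complex.I‖ ≤
        |tb| + ‖star (A μb tb) * (μ - μb)‖ + 1 := by
      refine (norm_add_le _ _).trans ?_
      refine add_le_add ((norm_add_le _ _).trans ?_) (by simp)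
      simp
    have h5 : |tb| + ‖star (A μb tb) * (μ - μb)‖ + 1 ≤
        (|tb| + ‖star (A μb tb) * (μ - μb)‖ + 1) * (1 + |t|) ^ (1 - e) := by
      have : 0 ≤ |tb| + ‖star (A μb tb) * (μ - μb)‖ + 1 := by positivity
      calc _ = (|tb| + ‖star (A μb tb) * (μ - μb)‖ + 1) * 1 := by ring
        _ ≤ _ := mul_le_mul_of_nonneg_left (hpow1 t) this
    calc _ ≤ ‖-(A μ t * (star μ - star μb))‖ +
          ‖-((tb : ℂ) + star (A μb tb) * (μ - μb) + Complex.I)‖ := norm_add_le _ _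
      _ = ‖A μ t * (star μ - star μb)‖ +
          ‖(tb : ℂ) + star (A μb tb) * (μ - μb) + Complex.I‖ := by rw [norm_neg, norm_neg]
      _ ≤ |C| * ‖star μ - star μb‖ * (1 + |t|) ^ (1 - e) +
          (|tb| + ‖star (A μb tb) * (μ - μb)‖ + 1) * (1 + |t|) ^ (1 - e) :=
            add_le_add h3 (h4.trans h5)
      _ = _ := by rw [hK]; ring
  -- lower bound far away
  have hlow : ∀ᶠ t : ℝ in cocompact ℝ, (1 + |t|) / 4 ≤ ‖el A μb tb μ t‖ := by
    have hlim : Tendsto (fun t : ℝ => (1 + |t|) ^ (-e)) (cocompact ℝ) (𝓝 0) := by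
      have h1 : Tendsto (fun t : ℝ => 1 + |t|) (cocompact ℝ) atTop :=
        tendsto_atTop_add_const_left _ _ (tendsto_norm_cocompact_atTop (E := ℝ))
      exact (tendsto_rpow_neg_atTop he0).comp h1
    have h2 : ∀ᶠ t : ℝ in cocompact ℝ, (1 + |t|) ^ (-e) < 1 / (4 * K) :=
      hlim.eventually (gt_mem_nhds (by positivity))
    have h3 : ∀ᶠ t : ℝ in cocompact ℝ, 1 ≤ |t| :=
      (tendsto_norm_cocompact_atTop (E := ℝ)).eventually_ge_atTop 1
    filter_upwards [h2, h3] with t ht ht1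
    have hp : 0 < 1 + |t| := by linarith
    have h4 : (1 + |t|) ^ (1 - e) = (1 + |t|) * (1 + |t|) ^ (-e) := by
      rw [sub_eq_add_neg, Real.rpow_add hp, Real.rpow_one]
    have h5 : K * (1 + |t|) ^ (1 - e) ≤ (1 + |t|) / 4 := by
      rw [h4]
      calc K * ((1 + |t|) * (1 + |t|) ^ (-e)) ≤ K * ((1 + |t|) * (1 / (4 * K))) := by
            gcongr
        _ = (1 + |t|) / 4 := by field_simp
    have h6 : |t| ≤ ‖(t : ℂ) + Complex.I‖ := by
      have := Complex.abs_re_le_norm ((t : ℂ) + Complex.I)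
      simpa using this
    have h7 : ‖(t : ℂ) + Complex.I‖ ≤ ‖el A μb tb μ t‖ +
        ‖el A μb tb μ t - ((t : ℂ) + Complex.I)‖ := by
      have := norm_sub_le (el A μb tb μ t) (el A μb tb μ t - ((t : ℂ) + Complex.I))
      simpa using this
    have h8 := hdiff t
    linarith
  refine hcont.locallyIntegrable.integrable_of_isBigO_cocompact
    (g := fun t : ℝ => (1 + ‖t‖) ^ (-(1 + e))) ?_ ?_
  · refine Asymptotics.IsBigO.of_bound (8 * K) ?_
    have h3 : ∀ᶠ t : ℝ in cocompact ℝ, 1 ≤ |t| :=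
      (tendsto_norm_cocompact_atTop (E := ℝ)).eventually_ge_atTop 1
    filter_upwards [hlow, h3] with t ht ht1
    have hp : 0 < 1 + |t| := by linarith
    have h6 : (1 + |t|) / 2 ≤ ‖(t : ℂ) + Complex.I‖ := by
      have := Complex.abs_re_le_norm ((t : ℂ) + Complex.I)
      have h' : |t| ≤ ‖(t : ℂ) + Complex.I‖ := by simpa using this
      linarith
    have h7 : (1 / ((t : ℂ) + Complex.I) - 1 / el A μb tb μ t) =
        (el A μb tb μ t - ((t : ℂ) + Complex.I)) / (((t : ℂ) + Complex.I) * el A μb tb μ t) := by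
      have := hi t
      have := hne t
      field_simp
    rw [h7, norm_div, norm_mul]
    have hpos : 0 < ‖(t : ℂ) + Complex.I‖ * ‖el A μb tb μ t‖ :=
      mul_pos (norm_pos_iff.2 (hi t)) (norm_pos_iff.2 (hne t))
    rw [div_le_iff₀ hpos]
    have h8 : (1 + |t|) ^ 2 / 8 ≤ ‖(t : ℂ) + Complex.I‖ * ‖el A μb tb μ t‖ := by
      calc (1 + |t|) ^ 2 / 8 = ((1 + |t|) / 2) * ((1 + |t|) / 4) := by ring
        _ ≤ _ := mul_le_mul h6 ht (by positivity) (norm_nonneg _)
    have h9 : ‖(1 + ‖t‖) ^ (-(1 + e))‖ = (1 + |t|) ^ (-(1 + e)) := by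
      rw [Real.norm_eq_abs t, Real.norm_of_nonneg (Real.rpow_nonneg hp.le _)]
    rw [h9]
    have h10 : (1 + |t|) ^ (1 - e) = (1 + |t|) ^ (-(1 + e)) * (1 + |t|) ^ 2 := by
      rw [← Real.rpow_natCast (1 + |t|) 2, ← Real.rpow_add hp]
      congr 1
      push_cast
      ring
    calc ‖el A μb tb μ t - ((t : ℂ) + Complex.I)‖ ≤ K * (1 + |t|) ^ (1 - e) := hdiff t
      _ = 8 * K * (1 + |t|) ^ (-(1 + e)) * ((1 + |t|) ^ 2 / 8) := by rw [h10]; ring
      _ ≤ _ := by
        refine mul_le_mul_of_nonneg_left h8 ?_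
        have := Real.rpow_nonneg hp.le (-(1 + e))
        positivity
  · have hI : Integrable (fun t : ℝ => (1 + ‖t‖) ^ (-(1 + e))) :=
      integrable_one_add_norm (by simpa using he0)
    exact hI.integrableAtFilter _

/-- the elementary integral -/
theorem KK6b_pi : ∫ t : ℝ, (1 / ((t : ℂ) + Complex.I) + 1 / (-(t : ℂ) + Complex.I)) =
    - (2 * Real.pi * Complex.I) := by
  have h1 : ∀ t : ℝ, (1 / ((t : ℂ) + Complex.I) + 1 / (-(t : ℂ) + Complex.I)) =
      (-(2 * Complex.I)) * (((1 + t ^ 2)⁻¹ : ℝ) : ℂ) := by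
    intro t
    have h2 : (t : ℂ) + Complex.I ≠ 0 := by
      intro ht
      have := congrArg Complex.im ht
      simp at this
    have h3 : -(t : ℂ) + Complex.I ≠ 0 := by
      intro ht
      have := congrArg Complex.im ht
      simp at this
    have h4 : (1 + (t : ℂ) ^ 2) ≠ 0 := by
      have : (0 : ℝ) < 1 + t ^ 2 := by positivity
      intro h5
      have h6 : ((1 + t ^ 2 : ℝ) : ℂ) = 0 := by push_cast; exact h5
      exact this.ne' (by exact_mod_cast h6)
    push_cast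
    have h7 : ((t : ℂ) + Complex.I) * (-(t : ℂ) + Complex.I) = -(1 + (t : ℂ) ^ 2) := by
      have := Complex.I_sq
      linear_combination this
    rw [div_add_div _ _ h2 h3, h7]
    field_simp
    ring
  simp_rw [h1]
  rw [integral_const_mul, integral_complex_ofReal, integral_univ_inv_one_add_sq]
  ring

/-- module K6 -/
theorem II_flip {A A' : ℂ → ℝ → ℂ} (hA : Ch A) (h : ∀ μ t, A' μ t = - A μ (-t)) (μb : ℂ) (tb : ℝ)
    (μ : ℂ) (hμ : μ ≠ μb) : II A' μb tb μ = - II A μb (-tb) μ - 2 * Real.pi * Complex.I := by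
  have hI := KK6b_int hA μb (-tb) μ hμ
  have h1 : II A' μb tb μ =
      ∫ t : ℝ, (1 / (-(t : ℂ) + Complex.I) + 1 / el A μb (-tb) μ t) := by
    unfold II
    rw [← integral_neg_eq_self]
    refine integral_congr_ae (Eventually.of_forall fun t => ?_)
    show 1 / (((-t : ℝ) : ℂ) + Complex.I) - 1 / el A' μb tb μ (-t) = _
    rw [KK6b_el h, neg_neg]
    push_cast
    rw [div_neg]
    ring
  have hI2 : Integrable fun t : ℝ => (1 / ((t : ℂ) + Complex.I) + 1 / (-(t : ℂ) + Complex.I)) := by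
    by_contra hh
    have := KK6b_pi
    rw [integral_undef hh] at this
    have h2 : (2 * Real.pi * Complex.I : ℂ) = 0 := by
      have := this.symm
      simpa using this
    simp [Real.pi_ne_zero] at h2
  rw [h1]
  have h2 : (fun t : ℝ => (1 / (-(t : ℂ) + Complex.I) + 1 / el A μb (-tb) μ t)) =
      fun t : ℝ => (1 / ((t : ℂ) + Complex.I) + 1 / (-(t : ℂ) + Complex.I)) -
        (1 / ((t : ℂ) + Complex.I) - 1 / el A μb (-tb) μ t) := by
    funext t; ring
  rw [h2, integral_sub hI2 hI, KK6b_pi]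
  unfold II
  ring

/-- the linear map of the flip on `(μ, t)` -/
noncomputable def KK6b_e : (ℂ × ℝ) ≃L[ℝ] (ℂ × ℝ) :=
  (ContinuousLinearEquiv.refl ℝ ℂ).prodCongr (ContinuousLinearEquiv.neg ℝ)

theorem KK6b_e_apply (x : ℂ × ℝ) : KK6b_e x = (x.1, -x.2) := rfl

/-- the linear map of the flip on `(μ, t, a)` -/
noncomputable def KK6b_f : (ℂ × ℝ × ℂ) ≃L[ℝ] (ℂ × ℝ × ℂ) :=
  (ContinuousLinearEquiv.refl ℝ ℂ).prodCongr (ContinuousLinearEquiv.neg ℝ)

theorem KK6b_f_apply (x : ℂ × ℝ × ℂ) : KK6b_f x = (x.1, -x.2.1, -x.2.2) := rfl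

theorem KK6b_mp : MeasurePreserving (fun x : ℂ × ℝ => KK6b_e x) volume volume := by
  have h := (MeasurePreserving.id (volume : Measure ℂ)).prod
    (Measure.measurePreserving_neg (volume : Measure ℝ))
  exact h

theorem KK6b_integral (F : ℂ × ℝ → ℂ) : ∫ x, F (KK6b_e x) = ∫ x, F x :=
  KK6b_mp.integral_comp KK6b_e.toHomeomorph.measurableEmbedding F

theorem KK6b_law {N : Set (ℂ × ℝ × ℂ)} {p q : ℂ × ℝ × ℂ → ℂ} (hL : Law N p q) :
    Law (KK6b_f ⁻¹' N) (fun x => p (KK6b_f x)) (fun x => - q (KK6b_f x)) := by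
  have hdp : ∀ x ∈ KK6b_f ⁻¹' N, DifferentiableAt ℝ p (KK6b_f x) := fun x hx =>
    (hL.smp.contDiffAt (hL.isOpen.mem_nhds hx)).differentiableAt one_ne_zero
  have hdq : ∀ x ∈ KK6b_f ⁻¹' N, DifferentiableAt ℝ q (KK6b_f x) := fun x hx =>
    (hL.smq.contDiffAt (hL.isOpen.mem_nhds hx)).differentiableAt one_ne_zero
  have hfp : ∀ x v, fderiv ℝ (fun x => p (KK6b_f x)) x v = fderiv ℝ p (KK6b_f x) (KK6b_f v) := by
    intro x v
    have := KK6b_f.comp_right_fderiv (f := p) (x := x)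
    change fderiv ℝ (p ∘ KK6b_f) x v = _
    rw [this]
    rfl
  have hfq : ∀ x v, fderiv ℝ (fun x => - q (KK6b_f x)) x v =
      - fderiv ℝ q (KK6b_f x) (KK6b_f v) := by
    intro x v
    have := KK6b_f.comp_right_fderiv (f := q) (x := x)
    change fderiv ℝ (-(q ∘ KK6b_f)) x v = _
    rw [fderiv_neg, this]
    rfl
  refine ⟨hL.isOpen.preimage KK6b_f.continuous, ?_, ?_, ?_, ?_, ?_⟩
  · exact hL.smp.comp KK6b_f.contDiff.contDiffOn (Set.Subset.refl _)
  · exact (hL.smq.comp KK6b_f.contDiff.contDiffOn (Set.Subset.refl _)).neg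
  · intro x hx
    have := hL.hp (KK6b_f x) hx
    rw [hfp, hfp]
    have e1 : KK6b_f (0, 0, Complex.I) = -(0, 0, Complex.I) := by
      rw [KK6b_f_apply]; simp
    have e2 : KK6b_f (0, 0, 1) = -(0, 0, 1) := by
      rw [KK6b_f_apply]; simp
    rw [e1, e2, map_neg, map_neg, this]
    ring
  · intro x hx v
    have := hL.hq (KK6b_f x) hx v
    rw [hfp, hfq]
    have e1 : KK6b_f (0, 0, v) = -(0, 0, v) := by
      rw [KK6b_f_apply]; simp
    rw [e1, map_neg, map_neg, this, KK6b_f_apply]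
    ring
  · intro x hx
    have := hL.law (KK6b_f x) hx
    rw [hfp, hfp, hfq]
    have e1 : KK6b_f (0, 1, 0) = -(0, 1, 0) := by
      rw [KK6b_f_apply]; simp
    have e2 : KK6b_f (1, 0, 0) = (1, 0, 0) := by
      rw [KK6b_f_apply]; simp
    have e3 : KK6b_f (Complex.I, 0, 0) = (Complex.I, 0, 0) := by
      rw [KK6b_f_apply]; simp
    rw [e1, e2, e3, map_neg, neg_neg]
    exact this

/-- module K6: conservation laws after the change of sign -/
theorem WL_flip {A A' : ℂ → ℝ → ℂ} (hA : Ch A) (h : ∀ μ t, A' μ t = - A μ (-t)) (hW : WL A) :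
    WL A' := by
  intro N p q hL φ hφ hc hN
  have hψ : ContDiff ℝ 1 fun x => φ (KK6b_e x) := hφ.comp KK6b_e.contDiff
  have hψc : HasCompactSupport fun x => φ (KK6b_e x) :=
    hc.comp_homeomorph KK6b_e.toHomeomorph
  have hts : ∀ x ∈ tsupport (fun x => φ (KK6b_e x)), KK6b_e x ∈ tsupport φ := by
    intro x hx
    have h1 : tsupport (φ ∘ KK6b_e.toHomeomorph) ⊆ KK6b_e.toHomeomorph ⁻¹' tsupport φ :=
      tsupport_comp_subset_preimage φ KK6b_e.continuous
    exact h1 hx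
  have hAA : ∀ μ t, - A μ t = A' μ (-t) := by
    intro μ t
    rw [h μ (-t), neg_neg]
  have key := hW (KK6b_f ⁻¹' N) _ _ (KK6b_law hL) (fun x => φ (KK6b_e x)) hψ hψc (by
    intro x hx
    have h2 := hN _ (hts x hx)
    show KK6b_f (x.1, x.2, A x.1 x.2) ∈ N
    rw [KK6b_f_apply]
    show (x.1, -x.2, -A x.1 x.2) ∈ N
    rw [hAA]
    exact h2)
  rw [← key]
  unfold TT
  rw [← KK6b_integral]
  refine integral_congr_ae (Eventually.of_forall fun x => ?_)
  have hfd : ∀ v, fderiv ℝ (fun x => φ (KK6b_e x)) x v = fderiv ℝ φ (KK6b_e x) (KK6b_e v) := by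
    intro v
    have := KK6b_e.comp_right_fderiv (f := φ) (x := x)
    change fderiv ℝ (φ ∘ KK6b_e) x v = _
    rw [this]
    rfl
  have e1 : KK6b_e (0, 1) = -(0, 1) := by
    rw [KK6b_e_apply]; simp
  have e2 : KK6b_e (1, 0) = (1, 0) := by
    rw [KK6b_e_apply]; simp
  have e3 : KK6b_e (Complex.I, 0) = (Complex.I, 0) := by
    rw [KK6b_e_apply]; simp
  have h3 : dbm (fun x => φ (KK6b_e x)) x = dbm φ (KK6b_e x) := by
    unfold dbm
    rw [hfd, hfd, e2, e3]
  have h4 : dtm (fun x => φ (KK6b_e x)) x = - dtm φ (KK6b_e x) := by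
    unfold dtm
    rw [hfd, e1, map_neg]
  have h5 : ((KK6b_e x).1, (KK6b_e x).2, A' (KK6b_e x).1 (KK6b_e x).2) =
      KK6b_f (x.1, x.2, A x.1 x.2) := by
    rw [KK6b_f_apply]
    show (x.1, -x.2, A' x.1 (-x.2)) = (x.1, -x.2, -A x.1 x.2)
    rw [hAA]
  show p ((KK6b_e x).1, (KK6b_e x).2, A' (KK6b_e x).1 (KK6b_e x).2) * dbm φ (KK6b_e x) +
    q ((KK6b_e x).1, (KK6b_e x).2, A' (KK6b_e x).1 (KK6b_e x).2) * dtm φ (KK6b_e x) =
    p (KK6b_f (x.1, x.2, A x.1 x.2)) * dbm (fun x => φ (KK6b_e x)) x +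
    -q (KK6b_f (x.1, x.2, A x.1 x.2)) * dtm (fun x => φ (KK6b_e x)) x
  rw [h5, h3, h4]
  ring

end Pool.Agent.MPd01a95.KT
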