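import Mathlib
import Pool.Agent.Lib.MP_d01a95_gt_K.KDefs2
import Pool.Agent.Lib.MP_d01a95_gt_K.KK3a

set_option autoImplicit false
set_option linter.all false

open Matrix Filter Topology MeasureTheory
open scoped ContDiff

namespace Pool.Agent.MPd01a95.KT

open GU

variable {G : Type} [Group G]

/-- module K7: the Poisson integral after a change of variables, valid up to the boundary -/
theorem PE_eq (A : ℂ → ℝ → ℂ) (μ τ : ℂ) (hτ : 0 ≤ τ.im) :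
    PE A μ τ = (Real.pi : ℂ)⁻¹ * ∫ s : ℝ, A μ (τ.re + τ.im * s) / ((1 + s ^ 2 : ℝ) : ℂ) := by
  have hpi : (Real.pi : ℂ) ≠ 0 := by exact_mod_cast Real.pi_ne_zero
  rcases hτ.lt_or_eq with h | h
  · unfold PE
    rw [if_pos h]
    obtain ⟨F, hF⟩ : ∃ F : ℝ → ℂ, F = fun t => A μ t * (1 / ((t : ℂ) - τ) - 1 / ((t : ℂ) - star τ)) :=
      ⟨_, rfl⟩
    have e1 : ∫ t : ℝ, F t = ∫ t : ℝ, F (τ.re + t) := (integral_add_left_eq_self F τ.re).symm
    have e2 := Measure.integral_comp_mul_left (fun t => F (τ.re + t)) τ.im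
    have e3 : ∫ t : ℝ, F (τ.re + t) = τ.im • ∫ s : ℝ, F (τ.re + τ.im * s) := by
      rw [e2, smul_smul, abs_inv, abs_of_pos h, mul_inv_cancel₀ h.ne', one_smul]
    have e4 : ∀ s : ℝ, F (τ.re + τ.im * s) =
        (2 * Complex.I / (τ.im : ℂ)) * (A μ (τ.re + τ.im * s) / ((1 + s ^ 2 : ℝ) : ℂ)) := by
      intro s
      rw [hF]
      simp only
      have hy : (τ.im : ℂ) ≠ 0 := by exact_mod_cast h.ne'
      have h1 : ((τ.re + τ.im * s : ℝ) : ℂ) - τ = (τ.im : ℂ) * ((s : ℂ) - Complex.I) := by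
        push_cast
        linear_combination (Complex.re_add_im τ)
      have h2 : ((τ.re + τ.im * s : ℝ) : ℂ) - star τ = (τ.im : ℂ) * ((s : ℂ) + Complex.I) := by
        have : star τ = (τ.re : ℂ) - (τ.im : ℂ) * Complex.I := by
          apply Complex.ext <;> simp
        rw [this]
        push_cast
        ring
      have h3 : (s : ℂ) - Complex.I ≠ 0 := by
        intro h0
        have := congrArg Complex.im h0
        simp at this
      have h4 : (s : ℂ) + Complex.I ≠ 0 := by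
        intro h0
        have := congrArg Complex.im h0
        simp at this
      have h5 : ((1 + s ^ 2 : ℝ) : ℂ) = ((s : ℂ) - Complex.I) * ((s : ℂ) + Complex.I) := by
        push_cast
        have := Complex.I_sq
        linear_combination this
      rw [h1, h2, h5]
      field_simp
      ring
    have e5 : ∫ t : ℝ, A μ t * (1 / ((t : ℂ) - τ) - 1 / ((t : ℂ) - star τ)) = ∫ t, F t := by
      rw [hF]
    rw [e5, e1, e3]
    simp only [e4]
    rw [integral_const_mul, Complex.real_smul]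
    have hy : (τ.im : ℂ) ≠ 0 := by exact_mod_cast h.ne'
    have hI := Complex.I_ne_zero
    field_simp
  · unfold PE
    rw [if_neg (by rw [← h]; exact lt_irrefl 0)]
    have e1 : ∀ s : ℝ, A μ (τ.re + τ.im * s) / ((1 + s ^ 2 : ℝ) : ℂ) =
        A μ τ.re * (((1 + s ^ 2)⁻¹ : ℝ) : ℂ) := by
      intro s
      rw [← h, zero_mul, add_zero, div_eq_mul_inv]
      push_cast
      rfl
    simp only [e1]
    rw [integral_const_mul]
    have e2 : ∫ s : ℝ, (((1 + s ^ 2)⁻¹ : ℝ) : ℂ) = (Real.pi : ℂ) := by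
      rw [integral_complex_ofReal, integral_univ_inv_one_add_sq]
    rw [e2]
    field_simp

section

variable {A : ℂ → ℝ → ℂ} (hA : Ch A)

omit [Group G] in
theorem KK7a_integrable {ε : ℝ} (hε : 0 < ε) :
    Integrable (fun s : ℝ => 2 * (1 + ‖s‖) ^ (-(1 + ε))) := by
  refine (integrable_one_add_norm (E := ℝ) (μ := volume) (r := 1 + ε) ?_).const_mul 2
  simp
  exact hε

omit [Group G] in
theorem KK7a_pt {ε C : ℝ} (hε : 0 < ε) (hε1 : ε < 1) (hC : 0 < C) {μ : ℂ}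
    (h : ∀ t : ℝ, ‖A μ t‖ ≤ C * (1 + |t|) ^ (1 - ε)) (R x y s : ℝ) (hx : |x| ≤ R) (hy : |y| ≤ R) :
    ‖A μ (x + y * s) / ((1 + s ^ 2 : ℝ) : ℂ)‖ ≤
      C * (1 + R) ^ (1 - ε) * (2 * (1 + ‖s‖) ^ (-(1 + ε))) := by
  have hR : 0 ≤ R := (abs_nonneg x).trans hx
  have h1 : 1 + |x + y * s| ≤ (1 + R) * (1 + |s|) := by
    have h2 : |x + y * s| ≤ |x| + |y| * |s| := by
      rw [← abs_mul]
      exact abs_add_le _ _
    have h3 : |y| * |s| ≤ R * |s| := mul_le_mul_of_nonneg_right hy (abs_nonneg s)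
    nlinarith [abs_nonneg s]
  have h2 : (1 + |x + y * s|) ^ (1 - ε) ≤ ((1 + R) * (1 + |s|)) ^ (1 - ε) :=
    Real.rpow_le_rpow (by positivity) h1 (by linarith)
  rw [Real.mul_rpow (by positivity) (by positivity)] at h2
  have h3 : 0 < 1 + s ^ 2 := by positivity
  rw [norm_div, Complex.norm_real, Real.norm_of_nonneg h3.le, div_le_iff₀ h3]
  have h4 : (1 + |s|) ^ (1 - ε) ≤ (2 * (1 + ‖s‖) ^ (-(1 + ε))) * (1 + s ^ 2) := by
    have h5 : (1 + |s|) ^ (1 - ε) = (1 + |s|) ^ (-(1 + ε)) * (1 + |s|) ^ (2 : ℕ) := by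
      rw [← Real.rpow_natCast, ← Real.rpow_add (by positivity)]
      congr 1
      push_cast
      ring
    rw [h5, Real.norm_eq_abs]
    have h6 : (1 + |s|) ^ 2 ≤ 2 * (1 + s ^ 2) := by
      have := sq_abs s
      nlinarith [sq_nonneg (1 - |s|)]
    have h7 : 0 ≤ (1 + |s|) ^ (-(1 + ε)) := Real.rpow_nonneg (by positivity) _
    nlinarith [mul_le_mul_of_nonneg_left h6 h7]
  calc ‖A μ (x + y * s)‖ ≤ C * (1 + |x + y * s|) ^ (1 - ε) := h _
    _ ≤ C * ((1 + R) ^ (1 - ε) * (1 + |s|) ^ (1 - ε)) := mul_le_mul_of_nonneg_left h2 hC.le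
    _ ≤ C * ((1 + R) ^ (1 - ε) * ((2 * (1 + ‖s‖) ^ (-(1 + ε))) * (1 + s ^ 2))) := by
        apply mul_le_mul_of_nonneg_left _ hC.le
        apply mul_le_mul_of_nonneg_left h4
        exact Real.rpow_nonneg (by positivity) _
    _ = _ := by ring

include hA

theorem KK7a_cont (μ : ℂ) (x y : ℝ) :
    Continuous fun s : ℝ => A μ (x + y * s) / ((1 + s ^ 2 : ℝ) : ℂ) := by
  refine Continuous.div ?_ (by fun_prop) ?_
  · exact hA.cont.comp (f := fun s : ℝ => (μ, x + y * s)) (by fun_prop)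
  · intro s
    have : (1 + s ^ 2 : ℝ) ≠ 0 := by positivity
    exact_mod_cast this

theorem KK7a_int (μ : ℂ) (x y : ℝ) :
    Integrable fun s : ℝ => A μ (x + y * s) / ((1 + s ^ 2 : ℝ) : ℂ) := by
  obtain ⟨ε, h1, h2, h3⟩ := hA.grow'
  obtain ⟨C, hC, hC2⟩ := h3 ‖μ‖
  refine Integrable.mono' ((KK7a_integrable h1).const_mul (C * (1 + (|x| + |y|)) ^ (1 - ε)))
    (KK7a_cont hA μ x y).aestronglyMeasurable (Eventually.of_forall fun s => ?_)
  exact KK7a_pt h1 h2 hC (fun t => hC2 μ t le_rfl) (|x| + |y|) x y s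
    (by linarith [abs_nonneg y]) (by linarith [abs_nonneg x])

theorem KK7a_Qcont : Continuous fun p : ℂ × ℝ × ℝ =>
    ∫ s : ℝ, A p.1 (p.2.1 + p.2.2 * s) / ((1 + s ^ 2 : ℝ) : ℂ) := by
  obtain ⟨ε, h1, h2, h3⟩ := hA.grow'
  rw [continuous_iff_continuousAt]
  rintro ⟨μ0, x0, y0⟩
  obtain ⟨C, hC, hC2⟩ := h3 (‖μ0‖ + 1)
  obtain ⟨R, hR⟩ : ∃ R, R = |x0| + |y0| + 1 := ⟨_, rfl⟩
  refine continuousAt_of_dominated (bound := fun s =>
    C * (1 + R) ^ (1 - ε) * (2 * (1 + ‖s‖) ^ (-(1 + ε)))) ?_ ?_ ?_ ?_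
  · exact Eventually.of_forall fun p => (KK7a_cont hA p.1 p.2.1 p.2.2).aestronglyMeasurable
  · have e1 : ∀ᶠ p : ℂ × ℝ × ℝ in 𝓝 (μ0, x0, y0), ‖p.1‖ < ‖μ0‖ + 1 :=
      (continuous_fst.norm.continuousAt).eventually_lt continuousAt_const (by simp)
    have e2 : ∀ᶠ p : ℂ × ℝ × ℝ in 𝓝 (μ0, x0, y0), |p.2.1| < |x0| + 1 := by
      refine ContinuousAt.eventually_lt (f := fun p : ℂ × ℝ × ℝ => |p.2.1|) ?_
        continuousAt_const (by simp)
      fun_prop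
    have e3 : ∀ᶠ p : ℂ × ℝ × ℝ in 𝓝 (μ0, x0, y0), |p.2.2| < |y0| + 1 := by
      refine ContinuousAt.eventually_lt (f := fun p : ℂ × ℝ × ℝ => |p.2.2|) ?_
        continuousAt_const (by simp)
      fun_prop
    filter_upwards [e1, e2, e3] with p h4 h5 h6
    refine Eventually.of_forall fun s => ?_
    exact KK7a_pt h1 h2 hC (fun t => hC2 p.1 t h4.le) R p.2.1 p.2.2 s
      (by rw [hR]; linarith [abs_nonneg y0]) (by rw [hR]; linarith [abs_nonneg x0])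
  · exact (KK7a_integrable h1).const_mul _
  · refine Eventually.of_forall fun s => ?_
    refine ContinuousAt.div ?_ continuousAt_const ?_
    · exact (hA.cont.comp (f := fun p : ℂ × ℝ × ℝ => (p.1, p.2.1 + p.2.2 * s))
        (by fun_prop)).continuousAt
    · have : (1 + s ^ 2 : ℝ) ≠ 0 := by positivity
      exact_mod_cast this

/-- module K7 -/
theorem PE_cont : ContinuousOn (fun p : ℂ × ℂ => PE A p.1 p.2) {p | 0 ≤ p.2.im} := by
  have h1 : Continuous fun p : ℂ × ℂ => (Real.pi : ℂ)⁻¹ *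
      ∫ s : ℝ, A p.1 (p.2.re + p.2.im * s) / ((1 + s ^ 2 : ℝ) : ℂ) := by
    refine continuous_const.mul ?_
    exact (KK7a_Qcont hA).comp (f := fun p : ℂ × ℂ => (p.1, p.2.re, p.2.im)) (by fun_prop)
  exact h1.continuousOn.congr fun p hp => PE_eq A p.1 p.2 hp

/-- module K7 -/
theorem PE_grow : ∃ ε : ℝ, 0 < ε ∧ ∀ r : ℝ, ∃ C : ℝ, ∀ μ τ : ℂ, ‖μ‖ ≤ r → 0 ≤ τ.im →
    ‖PE A μ τ‖ ≤ C * (1 + ‖τ‖) ^ (1 - ε) := by
  obtain ⟨ε, h1, h2, h3⟩ := hA.grow'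
  refine ⟨ε, h1, fun r => ?_⟩
  obtain ⟨C, hC, hC2⟩ := h3 r
  refine ⟨Real.pi⁻¹ * (C * ∫ s : ℝ, 2 * (1 + ‖s‖) ^ (-(1 + ε))), fun μ τ hμ hτ => ?_⟩
  rw [PE_eq A μ τ hτ, norm_mul, norm_inv, Complex.norm_real, Real.norm_of_nonneg Real.pi_pos.le]
  have h4 : ‖∫ s : ℝ, A μ (τ.re + τ.im * s) / ((1 + s ^ 2 : ℝ) : ℂ)‖ ≤
      ∫ s : ℝ, C * (1 + ‖τ‖) ^ (1 - ε) * (2 * (1 + ‖s‖) ^ (-(1 + ε))) := by
    refine norm_integral_le_of_norm_le ((KK7a_integrable h1).const_mul _)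
      (Eventually.of_forall fun s => ?_)
    exact KK7a_pt h1 h2 hC (fun t => hC2 μ t hμ) ‖τ‖ τ.re τ.im s
      (Complex.abs_re_le_norm τ) (Complex.abs_im_le_norm τ)
  rw [integral_const_mul] at h4
  calc Real.pi⁻¹ * ‖∫ s : ℝ, A μ (τ.re + τ.im * s) / ((1 + s ^ 2 : ℝ) : ℂ)‖
      ≤ Real.pi⁻¹ * (C * (1 + ‖τ‖) ^ (1 - ε) * ∫ s : ℝ, 2 * (1 + ‖s‖) ^ (-(1 + ε))) :=
        mul_le_mul_of_nonneg_left h4 (by positivity)
    _ = _ := by ring

/-- module K7 -/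
theorem PE_tr {A' : ℂ → ℝ → ℂ} (hA' : Ch A') {T : Tr} (h : T.Cmp A A') (μ τ : ℂ)
    (hτ : 0 ≤ τ.im) : PE A (T.m μ) (T.t μ τ) = T.κ * (PE A' μ τ + T.dq μ) := by
  have hpi : (Real.pi : ℂ) ≠ 0 := by exact_mod_cast Real.pi_ne_zero
  have hn : 0 < ‖T.d3‖ ^ 2 := by
    have := norm_pos_iff.2 T.h3
    positivity
  have hre : (T.t μ τ).re = (τ.re + T.q μ) / ‖T.d3‖ ^ 2 := by
    unfold Tr.t
    rw [Complex.div_ofReal_re]
    simp
  have him : (T.t μ τ).im = τ.im / ‖T.d3‖ ^ 2 := by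
    unfold Tr.t
    rw [Complex.div_ofReal_im]
    simp
  have him0 : 0 ≤ (T.t μ τ).im := by rw [him]; positivity
  rw [PE_eq A _ _ him0, PE_eq A' μ τ hτ]
  have e1 : ∀ s : ℝ, A (T.m μ) ((T.t μ τ).re + (T.t μ τ).im * s) / ((1 + s ^ 2 : ℝ) : ℂ) =
      T.κ * (A' μ (τ.re + τ.im * s) / ((1 + s ^ 2 : ℝ) : ℂ) +
        T.dq μ * (((1 + s ^ 2)⁻¹ : ℝ) : ℂ)) := by
    intro s
    have e2 : (T.t μ τ).re + (T.t μ τ).im * s = T.tr μ (τ.re + τ.im * s) := by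
      rw [hre, him]
      unfold Tr.tr
      ring
    rw [e2, h μ (τ.re + τ.im * s)]
    push_cast
    ring
  simp only [e1]
  rw [integral_const_mul, integral_add (KK7a_int hA' μ τ.re τ.im) ?_, integral_const_mul]
  · have e2 : ∫ s : ℝ, (((1 + s ^ 2)⁻¹ : ℝ) : ℂ) = (Real.pi : ℂ) := by
      rw [integral_complex_ofReal, integral_univ_inv_one_add_sq]
    rw [e2]
    field_simp
  · exact (integrable_inv_one_add_sq.ofReal).const_mul _

end

end Pool.Agent.MPd01a95.KT
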