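import Mathlib
import Pool.Agent.Lib.MP_d01a95_gt_K.KDefs2
import Pool.Agent.Lib.MP_d01a95_gt_K.KK3a

set_option autoImplicit false
set_option linter.all false

open Matrix Filter Topology MeasureTheory
open scoped ContDiff

namespace Pool.Agent.MPd01a95.KT

open GU

variable {G : Type} [Group G]

/-- lower bound for the distance of the real line from points near `κ` -/
theorem KK7b_low (κ : ℂ) (hκ : κ.im ≠ 0) : ∃ a : ℝ, 0 < a ∧
    ∀ κ' ∈ Metric.ball κ (|κ.im| / 2), ∀ t : ℝ, a * (1 + |t|) ≤ ‖(t : ℂ) - κ'‖ := by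
  obtain ⟨m, hm⟩ : ∃ m, m = |κ.im| / 2 := ⟨_, rfl⟩
  have hm0 : 0 < m := by
    rw [hm]
    have := abs_pos.2 hκ
    positivity
  have hn : 0 ≤ ‖κ‖ := norm_nonneg κ
  have hR : 0 ≤ 1 + (‖κ‖ + m) := by positivity
  refine ⟨(1 + (1 + (‖κ‖ + m)) / m)⁻¹, by positivity, fun κ' h t => ?_⟩
  rw [Metric.mem_ball, dist_eq_norm, ← hm] at h
  have h1 : m ≤ ‖(t : ℂ) - κ'‖ := by
    have e1 : |((t : ℂ) - κ').im| ≤ ‖(t : ℂ) - κ'‖ := Complex.abs_im_le_norm _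
    rw [Complex.sub_im, Complex.ofReal_im, zero_sub, abs_neg] at e1
    have e2 : |(κ' - κ).im| ≤ ‖κ' - κ‖ := Complex.abs_im_le_norm _
    rw [Complex.sub_im] at e2
    have e3 : |κ.im| ≤ |κ'.im| + |κ'.im - κ.im| := by
      have := abs_sub κ'.im (κ'.im - κ.im)
      rwa [sub_sub_cancel] at this
    linarith
  have h2 : |t| - (‖κ‖ + m) ≤ ‖(t : ℂ) - κ'‖ := by
    have e1 : ‖(t : ℂ)‖ ≤ ‖(t : ℂ) - κ'‖ + ‖κ'‖ := by
      have := norm_add_le ((t : ℂ) - κ') κ'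
      rwa [sub_add_cancel] at this
    rw [Complex.norm_real, Real.norm_eq_abs] at e1
    have e2 : ‖κ'‖ ≤ ‖κ' - κ‖ + ‖κ‖ := by
      have := norm_add_le (κ' - κ) κ
      rwa [sub_add_cancel] at this
    linarith
  rw [inv_mul_le_iff₀ (by positivity), add_mul, one_mul]
  have h3 : 1 + (‖κ‖ + m) ≤ (1 + (‖κ‖ + m)) / m * ‖(t : ℂ) - κ'‖ := by
    rw [div_mul_eq_mul_div, le_div_iff₀ hm0]
    exact mul_le_mul_of_nonneg_left h1 hR
  linarith

theorem KK7b_bound {f : ℝ → ℂ} {C ε a b : ℝ} (hC0 : 0 ≤ C)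
    (hC : ∀ t, ‖f t‖ ≤ C * (1 + |t|) ^ (1 - ε)) (ha : 0 < a) (hb : 0 < b) {κ κ' : ℂ}
    (h : ∀ t : ℝ, a * (1 + |t|) ≤ ‖(t : ℂ) - κ‖) (h' : ∀ t : ℝ, b * (1 + |t|) ≤ ‖(t : ℂ) - κ'‖)
    (t : ℝ) : ‖f t / (((t : ℂ) - κ) * ((t : ℂ) - κ'))‖ ≤
      C / (a * b) * (1 + |t|) ^ (-(1 + ε)) := by
  have ht : 0 < 1 + |t| := by positivity
  have h1 : 0 < a * (1 + |t|) := by positivity
  have h2 : 0 < b * (1 + |t|) := by positivity
  rw [norm_div, norm_mul, div_le_iff₀ (mul_pos (h1.trans_le (h t)) (h2.trans_le (h' t)))]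
  refine (hC t).trans ?_
  have h3 : a * (1 + |t|) * (b * (1 + |t|)) ≤ ‖(t : ℂ) - κ‖ * ‖(t : ℂ) - κ'‖ :=
    mul_le_mul (h t) (h' t) h2.le (norm_nonneg _)
  have h4 : C * (1 + |t|) ^ (1 - ε) =
      C / (a * b) * (1 + |t|) ^ (-(1 + ε)) * (a * (1 + |t|) * (b * (1 + |t|))) := by
    have h5 : (1 + |t|) ^ (1 - ε) = (1 + |t|) ^ (-(1 + ε)) * ((1 + |t|) * (1 + |t|)) := by
      have h6 : (1 + |t|) * (1 + |t|) = (1 + |t|) ^ (2 : ℝ) := by
        rw [← sq, ← Real.rpow_natCast]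
        norm_num
      rw [h6, ← Real.rpow_add ht]
      congr 1
      ring
    rw [h5]
    field_simp
  rw [h4]
  exact mul_le_mul_of_nonneg_left h3 (by positivity)

theorem KK7b_integrable {ε : ℝ} (hε : 0 < ε) (c : ℝ) :
    Integrable fun t : ℝ => c * (1 + |t|) ^ (-(1 + ε)) := by
  have h := integrable_one_add_norm (E := ℝ) (μ := volume) (r := 1 + ε) (by
    rw [Module.finrank_self]
    push_cast
    linarith)
  simp only [Real.norm_eq_abs] at h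
  exact h.const_mul c

theorem KK7b_ne {κ : ℂ} (hκ : κ.im ≠ 0) (t : ℝ) : (t : ℂ) - κ ≠ 0 := by
  intro h
  apply hκ
  rw [← sub_eq_zero.1 h, Complex.ofReal_im]

theorem KK7b_cont {κ : ℂ} (hκ : κ.im ≠ 0) : Continuous fun t : ℝ => 1 / ((t : ℂ) - κ) :=
  continuous_const.div (Complex.continuous_ofReal.sub continuous_const) (KK7b_ne hκ)

theorem KK7b_eq {κ κ' : ℂ} (hκ : κ.im ≠ 0) (hκ' : κ'.im ≠ 0) (f : ℝ → ℂ) (t : ℝ) :
    f t * (1 / ((t : ℂ) - κ) - 1 / ((t : ℂ) - κ')) =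
      (κ - κ') * (f t / (((t : ℂ) - κ) * ((t : ℂ) - κ'))) := by
  have h1 := KK7b_ne hκ t
  have h2 := KK7b_ne hκ' t
  field_simp
  ring

theorem KK7b_intg {f : ℝ → ℂ} (hf : Continuous f) {C ε : ℝ} (hε : 0 < ε) (hC0 : 0 ≤ C)
    (hC : ∀ t, ‖f t‖ ≤ C * (1 + |t|) ^ (1 - ε)) {κ κ' : ℂ} (hκ : κ.im ≠ 0) (hκ' : κ'.im ≠ 0) :
    Integrable fun t : ℝ => f t * (1 / ((t : ℂ) - κ) - 1 / ((t : ℂ) - κ')) := by
  obtain ⟨a, ha, h⟩ := KK7b_low κ hκ
  obtain ⟨b, hb, h'⟩ := KK7b_low κ' hκ'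
  have h1 : Integrable fun t : ℝ => f t / (((t : ℂ) - κ) * ((t : ℂ) - κ')) := by
    refine (KK7b_integrable hε (C / (a * b))).mono' ?_ ?_
    · refine Continuous.aestronglyMeasurable ?_
      exact hf.div ((Complex.continuous_ofReal.sub continuous_const).mul
        (Complex.continuous_ofReal.sub continuous_const))
        fun t => mul_ne_zero (KK7b_ne hκ t) (KK7b_ne hκ' t)
    · refine Eventually.of_forall fun t => KK7b_bound hC0 hC ha hb
        (fun t => h κ (Metric.mem_ball_self (by have := abs_pos.2 hκ; positivity)) t)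
        (fun t => h' κ' (Metric.mem_ball_self (by have := abs_pos.2 hκ'; positivity)) t) t
  refine (h1.const_mul (κ - κ')).congr (Eventually.of_forall fun t => ?_)
  exact (KK7b_eq hκ hκ' f t).symm

/-- the Cauchy integral is differentiable -/
theorem KK7b_der {f : ℝ → ℂ} (hf : Continuous f) {C ε : ℝ} (hε : 0 < ε) (hC0 : 0 ≤ C)
    (hC : ∀ t, ‖f t‖ ≤ C * (1 + |t|) ^ (1 - ε)) {κ κ' : ℂ} (hκ : κ.im ≠ 0) (hκ' : κ'.im ≠ 0) :
    HasDerivAt (fun κ : ℂ => ∫ t : ℝ, f t * (1 / ((t : ℂ) - κ) - 1 / ((t : ℂ) - κ')))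
      (∫ t : ℝ, f t / ((t : ℂ) - κ) ^ 2) κ := by
  obtain ⟨a, ha, h⟩ := KK7b_low κ hκ
  have hpos : 0 < |κ.im| / 2 := by
    have := abs_pos.2 hκ
    positivity
  have him : ∀ x ∈ Metric.ball κ (|κ.im| / 2), x.im ≠ 0 := by
    intro x hx h0
    have e1 := h x hx x.re
    have e2 : ((x.re : ℝ) : ℂ) - x = 0 := by
      apply Complex.ext
      · simp
      · simp [h0]
    rw [e2, norm_zero] at e1
    have : 0 < a * (1 + |x.re|) := by positivity
    linarith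
  refine (hasDerivAt_integral_of_dominated_loc_of_deriv_le
    (F := fun (κ : ℂ) (t : ℝ) => f t * (1 / ((t : ℂ) - κ) - 1 / ((t : ℂ) - κ')))
    (F' := fun (κ : ℂ) (t : ℝ) => f t / ((t : ℂ) - κ) ^ 2)
    (bound := fun t => C / (a * a) * (1 + |t|) ^ (-(1 + ε)))
    (Metric.ball_mem_nhds κ hpos) ?_ ?_ ?_ ?_ ?_ ?_).2
  · filter_upwards [Metric.ball_mem_nhds κ hpos] with x hx
    exact (KK7b_intg hf hε hC0 hC (him x hx) hκ').aestronglyMeasurable
  · exact KK7b_intg hf hε hC0 hC hκ hκ'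
  · refine Continuous.aestronglyMeasurable ?_
    exact hf.div ((Complex.continuous_ofReal.sub continuous_const).pow 2)
      fun t => pow_ne_zero 2 (KK7b_ne hκ t)
  · refine Eventually.of_forall fun t x hx => ?_
    have := KK7b_bound hC0 hC ha ha (h x hx) (h x hx) t
    rwa [← sq] at this
  · exact KK7b_integrable hε _
  · refine Eventually.of_forall fun t x hx => ?_
    have h1 := KK7b_ne (him x hx) t
    have h2 : HasDerivAt (fun κ : ℂ => (t : ℂ) - κ) (-1) x := by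
      simpa using (hasDerivAt_id x).const_sub (t : ℂ)
    have h3 : HasDerivAt (fun κ : ℂ => 1 / ((t : ℂ) - κ)) (1 / ((t : ℂ) - x) ^ 2) x := by
      have : HasDerivAt (fun κ : ℂ => ((t : ℂ) - κ)⁻¹) (-(-1) / ((t : ℂ) - x) ^ 2) x := h2.inv h1
      simp only [neg_neg] at this
      simpa only [one_div] using this
    have h4 := (h3.sub_const (1 / ((t : ℂ) - κ'))).const_mul (f t)
    have h5 : f t * (1 / ((t : ℂ) - x) ^ 2) = f t / ((t : ℂ) - x) ^ 2 := by ring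
    rw [h5] at h4
    exact h4

section

variable {A : ℂ → ℝ → ℂ} (hA : Ch A)

include hA

theorem KK7b_fun (μ : ℂ) : Continuous (A μ) ∧ ∃ C ε : ℝ, 0 < ε ∧ 0 ≤ C ∧
    ∀ t, ‖A μ t‖ ≤ C * (1 + |t|) ^ (1 - ε) := by
  obtain ⟨ε, h1, h2, h3⟩ := Ch.grow' hA
  obtain ⟨C, hC0, hC⟩ := h3 ‖μ‖
  refine ⟨hA.cont.comp (continuous_const.prodMk continuous_id), C, ε, h1, hC0.le,
    fun t => hC μ t le_rfl⟩

/-- module K7 -/
theorem PE_rep (hz : CZ A) (μ τ τ' : ℂ) (h : 0 < τ.im) (h' : 0 < τ'.im) :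
    ∫ t : ℝ, A μ t * (1 / ((t : ℂ) - τ) - 1 / ((t : ℂ) - star τ')) =
      2 * Real.pi * Complex.I * PE A μ τ := by
  obtain ⟨hf, C, ε, hε, hC0, hC⟩ := KK7b_fun hA μ
  have hτ : τ.im ≠ 0 := h.ne'
  have hs : (star τ).im < 0 := by
    rw [Complex.star_def, Complex.conj_im]
    linarith
  have hs' : (star τ').im < 0 := by
    rw [Complex.star_def, Complex.conj_im]
    linarith
  -- the Cauchy integral is constant on the lower half plane
  have hconst : ∫ t : ℝ, A μ t * (1 / ((t : ℂ) - star τ) - 1 / ((t : ℂ) - star τ')) =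
      ∫ t : ℝ, A μ t * (1 / ((t : ℂ) - star τ') - 1 / ((t : ℂ) - star τ')) := by
    have hopen : IsOpen {κ : ℂ | κ.im < 0} := isOpen_lt Complex.continuous_im continuous_const
    have hconv : Convex ℝ {κ : ℂ | κ.im < 0} := convex_halfSpace_im_lt 0
    have hd : ∀ κ ∈ {κ : ℂ | κ.im < 0}, HasDerivAt
        (fun κ : ℂ => ∫ t : ℝ, A μ t * (1 / ((t : ℂ) - κ) - 1 / ((t : ℂ) - star τ'))) 0 κ := by
      intro κ hκ
      have := KK7b_der hf hε hC0 hC (κ := κ) (κ' := star τ') (ne_of_lt hκ) hs'.ne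
      rwa [hz μ κ hκ] at this
    exact hopen.is_const_of_deriv_eq_zero hconv.isPreconnected
      (fun κ hκ => (hd κ hκ).differentiableAt.differentiableWithinAt)
      (fun κ hκ => (hd κ hκ).deriv) hs hs'
  have hzero : ∫ t : ℝ, A μ t * (1 / ((t : ℂ) - star τ') - 1 / ((t : ℂ) - star τ')) = 0 := by
    simp
  have h1 : ∫ t : ℝ, A μ t * (1 / ((t : ℂ) - τ) - 1 / ((t : ℂ) - star τ')) =
      (∫ t : ℝ, A μ t * (1 / ((t : ℂ) - τ) - 1 / ((t : ℂ) - star τ))) +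
        ∫ t : ℝ, A μ t * (1 / ((t : ℂ) - star τ) - 1 / ((t : ℂ) - star τ')) := by
    rw [← integral_add (KK7b_intg hf hε hC0 hC hτ hs.ne) (KK7b_intg hf hε hC0 hC hs.ne hs'.ne)]
    exact integral_congr_ae (Eventually.of_forall fun t => by ring)
  rw [h1, hconst, hzero, add_zero, PE, if_pos h, ← mul_assoc, mul_inv_cancel₀, one_mul]
  exact mul_ne_zero (mul_ne_zero two_ne_zero (Complex.ofReal_ne_zero.2 Real.pi_ne_zero))
    Complex.I_ne_zero

/-- module K7 -/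
theorem PE_hol (hz : CZ A) (μ : ℂ) : DifferentiableOn ℂ (PE A μ) {τ | 0 < τ.im} := by
  obtain ⟨hf, C, ε, hε, hC0, hC⟩ := KK7b_fun hA μ
  have hI : (0 : ℝ) < Complex.I.im := by
    rw [Complex.I_im]
    exact zero_lt_one
  have hs : (star Complex.I).im ≠ 0 := by
    rw [Complex.star_def, Complex.conj_im, Complex.I_im]
    norm_num
  have hpi : (2 * Real.pi * Complex.I : ℂ) ≠ 0 :=
    mul_ne_zero (mul_ne_zero two_ne_zero (Complex.ofReal_ne_zero.2 Real.pi_ne_zero))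
      Complex.I_ne_zero
  have h1 : ∀ τ ∈ {τ : ℂ | 0 < τ.im}, PE A μ τ = (2 * Real.pi * Complex.I)⁻¹ *
      ∫ t : ℝ, A μ t * (1 / ((t : ℂ) - τ) - 1 / ((t : ℂ) - star Complex.I)) := by
    intro τ hτ
    rw [PE_rep hA hz μ τ Complex.I hτ hI, ← mul_assoc, inv_mul_cancel₀ hpi, one_mul]
  refine DifferentiableOn.congr (fun τ hτ => ?_) h1
  have h2 := (KK7b_der hf hε hC0 hC (κ := τ) (κ' := star Complex.I)
    (ne_of_gt (show 0 < τ.im from hτ)) hs).const_mul ((2 * Real.pi * Complex.I)⁻¹ : ℂ)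
  exact h2.differentiableAt.differentiableWithinAt

end

end Pool.Agent.MPd01a95.KT
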