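import Mathlib
import Pool.Agent.Lib.MP_d01a95_gt_K.KDefs2
import Pool.Agent.Lib.MP_d01a95_gt_K.KA1
import Pool.Agent.Lib.MP_d01a95_gt_K.KA2
import Pool.Agent.Lib.MP_d01a95_gt_K.KA4
import Pool.Agent.Lib.MP_d01a95_gt_K.KF0
import Pool.Agent.Lib.MP_d01a95_gt_K.KF6
import Pool.Agent.Lib.MP_d01a95_gt_K.KH1
import Pool.Agent.Lib.MP_d01a95_gt_K.KH2
import Pool.Agent.Lib.MP_d01a95_gt_K.KH3
import Pool.Agent.Lib.MP_d01a95_gt_K.KH4
import Pool.Agent.Lib.MP_d01a95_gt_K.KK7a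

set_option autoImplicit false
set_option linter.all false

open Matrix Filter Topology MeasureTheory
open scoped ContDiff

namespace Pool.Agent.MPd01a95.KT

open GU

variable {G : Type} [Group G]

theorem KK7c_aux (D : Kd G) : ContinuousOn (fun p : M4 × ℂ × ℝ × ℝ =>
    ∫ s : ℝ, D.A p.1 p.2.1 (p.2.2.1 + p.2.2.2 * s) / ((1 + s ^ 2 : ℝ) : ℂ)) (D.FF ×ˢ Set.univ) := by
  obtain ⟨ε, h1, h2, h3⟩ := D.growth
  rintro ⟨k0, μ0, x0, y0⟩ hp0
  obtain ⟨C0, hC0⟩ := h3 (‖μ0‖ + 1)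
  obtain ⟨C, hC⟩ : ∃ C, C = max C0 1 := ⟨_, rfl⟩
  have hCp : 0 < C := by rw [hC]; exact lt_of_lt_of_le one_pos (le_max_right _ _)
  have hC2 : ∀ k ∈ D.FF, ∀ μ t, ‖μ‖ ≤ ‖μ0‖ + 1 → ‖D.A k μ t‖ ≤ C * (1 + |t|) ^ (1 - ε) := by
    intro k hk μ t h
    refine (hC0 k hk μ t h).trans ?_
    exact mul_le_mul_of_nonneg_right (by rw [hC]; exact le_max_left _ _)
      (Real.rpow_nonneg (by positivity) _)
  obtain ⟨R, hR⟩ : ∃ R, R = |x0| + |y0| + 1 := ⟨_, rfl⟩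
  haveI : FirstCountableTopology M4 := inferInstanceAs (FirstCountableTopology (Fin 4 → Fin 4 → ℂ))
  refine continuousWithinAt_of_dominated (bound := fun s =>
    C * (1 + R) ^ (1 - ε) * (2 * (1 + ‖s‖) ^ (-(1 + ε)))) ?_ ?_ ?_ ?_
  · filter_upwards [self_mem_nhdsWithin] with p hp
    exact (KK7a_cont (D.ch hp.1) p.2.1 p.2.2.1 p.2.2.2).aestronglyMeasurable
  · have e1 : ∀ᶠ p : M4 × ℂ × ℝ × ℝ in 𝓝 (k0, μ0, x0, y0), ‖p.2.1‖ < ‖μ0‖ + 1 := by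
      refine ContinuousAt.eventually_lt (f := fun p : M4 × ℂ × ℝ × ℝ => ‖p.2.1‖) ?_
        continuousAt_const (by simp)
      fun_prop
    have e2 : ∀ᶠ p : M4 × ℂ × ℝ × ℝ in 𝓝 (k0, μ0, x0, y0), |p.2.2.1| < |x0| + 1 := by
      refine ContinuousAt.eventually_lt (f := fun p : M4 × ℂ × ℝ × ℝ => |p.2.2.1|) ?_
        continuousAt_const (by simp)
      fun_prop
    have e3 : ∀ᶠ p : M4 × ℂ × ℝ × ℝ in 𝓝 (k0, μ0, x0, y0), |p.2.2.2| < |y0| + 1 := by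
      refine ContinuousAt.eventually_lt (f := fun p : M4 × ℂ × ℝ × ℝ => |p.2.2.2|) ?_
        continuousAt_const (by simp)
      fun_prop
    filter_upwards [mem_nhdsWithin_of_mem_nhds e1, mem_nhdsWithin_of_mem_nhds e2,
      mem_nhdsWithin_of_mem_nhds e3, self_mem_nhdsWithin] with p h4 h5 h6 hp
    refine Eventually.of_forall fun s => ?_
    exact KK7a_pt h1 h2 hCp (fun t => hC2 p.1 hp.1 p.2.1 t h4.le) R p.2.2.1 p.2.2.2 s
      (by rw [hR]; linarith [abs_nonneg y0]) (by rw [hR]; linarith [abs_nonneg x0])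
  · exact (KK7a_integrable h1).const_mul _
  · refine Eventually.of_forall fun s => ?_
    refine ContinuousWithinAt.div ?_ continuousWithinAt_const ?_
    · have hc := D.A_cont (k0, μ0, x0 + y0 * s) ⟨hp0.1, Set.mem_univ _⟩
      have hm : Continuous fun p : M4 × ℂ × ℝ × ℝ =>
          ((p.1, p.2.1, p.2.2.1 + p.2.2.2 * s) : M4 × ℂ × ℝ) := by fun_prop
      exact ContinuousWithinAt.comp (f := fun p : M4 × ℂ × ℝ × ℝ =>
        ((p.1, p.2.1, p.2.2.1 + p.2.2.2 * s) : M4 × ℂ × ℝ)) (x := (k0, μ0, x0, y0)) hc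
        hm.continuousWithinAt fun p hp => ⟨hp.1, Set.mem_univ _⟩
    · have : (1 + s ^ 2 : ℝ) ≠ 0 := by positivity
      exact_mod_cast this

/-- module K7: continuity including the frame -/
theorem Kd.P_cont (D : Kd G) : ContinuousOn (fun p : M4 × C2 => D.P p.1 p.2) (D.FF ×ˢ Upc) := by
  have h1 : ContinuousOn (fun p : M4 × C2 => (Real.pi : ℂ)⁻¹ *
      ∫ s : ℝ, D.A p.1 (p.2 0) ((p.2 1).re + (p.2 1).im * s) / ((1 + s ^ 2 : ℝ) : ℂ))
      (D.FF ×ˢ Upc) := by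
    refine continuousOn_const.mul ?_
    have hm : Continuous fun p : M4 × C2 =>
        ((p.1, p.2 0, (p.2 1).re, (p.2 1).im) : M4 × ℂ × ℝ × ℝ) := by fun_prop
    exact (KK7c_aux D).comp (f := fun p : M4 × C2 =>
      ((p.1, p.2 0, (p.2 1).re, (p.2 1).im) : M4 × ℂ × ℝ × ℝ)) hm.continuousOn
      fun p hp => ⟨hp.1, Set.mem_univ _⟩
  exact h1.congr fun p hp => PE_eq (D.A p.1) (p.2 0) (p.2 1) hp.2

end Pool.Agent.MPd01a95.KT
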