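import Mathlib
import Pool.Agent.Lib.MP_d01a95_gt_K.KK7a
import Pool.Agent.Lib.MP_d01a95_gt_K.KK7b
import Pool.Agent.Lib.MP_d01a95_gt_K.KK7c

set_option autoImplicit false
set_option linter.all false

open Matrix Filter Topology MeasureTheory
open scoped ContDiff

namespace Pool.Agent.MPd01a95.KT

open GU

variable {G : Type} [Group G]


end Pool.Agent.MPd01a95.KT
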