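import Mathlib
import Pool.Agent.Lib.MP_d01a95_gt_K.KDefs2
import Pool.Agent.Lib.MP_d01a95_gt_K.KJ1
import Pool.Agent.Lib.MP_d01a95_gt_K.KK7
import Pool.Agent.Lib.MP_d01a95_gt_P.BU.WB

set_option autoImplicit false
set_option linter.all false

open Matrix Filter Topology MeasureTheory
open scoped ContDiff

namespace Pool.Agent.MPd01a95.KT

open GU

variable {G : Type} [Group G]

theorem kl1_PE_real (A : ℂ → ℝ → ℂ) (μ : ℂ) (t : ℝ) : PE A μ (t : ℂ) = A μ t := by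
  simp [PE]

/-- module L1: weak Burgers equation in the half plane -/
theorem weak_burgers {A : ℂ → ℝ → ℂ} (hA : Ch A) (hW : WL A) (hz : CZ A) (τ : ℂ) (hτ : 0 < τ.im)
    (φ : ℂ → ℂ) (hφ : ContDiff ℝ 1 φ) (hφc : HasCompactSupport φ) :
    ∫ μ : ℂ, (PE A μ τ * dbc φ μ - φ μ * (PE A μ τ * deriv (PE A μ) τ)) = 0 := by
  have h := BU.burgers_core (B := PE A) (PE_cont hA) (PE_hol hA hz) ?_ ?_ hτ hφ hφc
  · exact h
  · obtain ⟨ε, hε, hg⟩ := PE_grow hA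
    intro r
    obtain ⟨C, hC⟩ := hg r
    refine ⟨|C|, fun μ σ hμ hσ => (hC μ σ hμ hσ).trans ?_⟩
    have h1 : (1 : ℝ) ≤ 1 + ‖σ‖ := by linarith [norm_nonneg σ]
    have h2 : (1 + ‖σ‖) ^ (1 - ε) ≤ 1 + ‖σ‖ := by
      calc (1 + ‖σ‖) ^ (1 - ε) ≤ (1 + ‖σ‖) ^ (1 : ℝ) :=
            Real.rpow_le_rpow_of_exponent_le h1 (by linarith)
        _ = 1 + ‖σ‖ := Real.rpow_one _
    have h3 : 0 ≤ (1 + ‖σ‖) ^ (1 - ε) := Real.rpow_nonneg (by linarith) _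
    calc C * (1 + ‖σ‖) ^ (1 - ε) ≤ |C| * (1 + ‖σ‖) ^ (1 - ε) :=
          mul_le_mul_of_nonneg_right (le_abs_self C) h3
      _ ≤ |C| * (1 + ‖σ‖) := mul_le_mul_of_nonneg_left h2 (abs_nonneg _)
  · intro ψ hψ hψc
    have h1 := hW Set.univ _ _ law_burgers ψ hψ hψc (fun x _ => Set.mem_univ _)
    unfold TT at h1
    simpa only [kl1_PE_real] using h1

end Pool.Agent.MPd01a95.KT
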