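import Mathlib
import Pool.Agent.Lib.MP_d01a95_gt_K.KDefs2
import Pool.Agent.Lib.MP_d01a95_gt_P.BU.LG

set_option autoImplicit false
set_option linter.all false

open Matrix Filter Topology MeasureTheory
open scoped ContDiff

namespace Pool.Agent.MPd01a95.KT

open GU

variable {G : Type} [Group G]

theorem kl2_wd {B : ℂ → ℂ → ℂ} (hB : BU.Fam B)
    (hw : ∀ τ : ℂ, 0 < τ.im → ∀ φ : ℂ → ℂ, ContDiff ℝ 1 φ → HasCompactSupport φ →
      ∫ μ : ℂ, (B μ τ * dbc φ μ - φ μ * (B μ τ * deriv (B μ) τ)) = 0) :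
    ∀ τ ∈ BU.Ho, BU.WD Set.univ (fun μ => B μ τ) fun μ => -(B μ τ * deriv (B μ) τ) := by
  intro τ hτ φ hφ hφc _
  have h1 := hw τ hτ φ (hφ.of_le (by simp)) hφc
  have hK : IsCompact (tsupport φ) := hφc
  have i1 : Integrable fun μ => B μ τ * BU.dbar φ μ :=
    BU.integrable_mul hK (hB.slice hτ).continuousOn (BU.continuous_dbar hφ)
      fun z hz => BU.dbar_eq_zero hz
  have i2 : Integrable fun μ => (B μ τ * deriv (B μ) τ) * φ μ :=
    BU.integrable_mul hK ((hB.mul hB.deriv).slice hτ).continuousOn hφ.continuous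
      fun z hz => image_eq_zero_of_notMem_tsupport hz
  have e1 : ∀ μ, (B μ τ * dbc φ μ - φ μ * (B μ τ * deriv (B μ) τ)) =
      B μ τ * BU.dbar φ μ - (B μ τ * deriv (B μ) τ) * φ μ := by
    intro μ
    simp only [dbc, BU.dbar]
    ring
  simp only [e1] at h1
  rw [integral_sub i1 i2, sub_eq_zero] at h1
  have e2 : ∀ μ, -(B μ τ * deriv (B μ) τ) * φ μ = -((B μ τ * deriv (B μ) τ) * φ μ) :=
    fun μ => by ring
  simp only [e2]
  rw [integral_neg, neg_neg]
  exact h1

/-- module L2: the surface is locally the graph of a holomorphic function -/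
theorem local_graph {B : ℂ → ℂ → ℂ} (hc : ContinuousOn (fun p : ℂ × ℂ => B p.1 p.2) {p | 0 < p.2.im})
    (hh : ∀ μ, DifferentiableOn ℂ (B μ) {τ | 0 < τ.im})
    (hw : ∀ τ : ℂ, 0 < τ.im → ∀ φ : ℂ → ℂ, ContDiff ℝ 1 φ → HasCompactSupport φ →
      ∫ μ : ℂ, (B μ τ * dbc φ μ - φ μ * (B μ τ * deriv (B μ) τ)) = 0) (a τ₀ : ℂ)
    (hτ : 0 < τ₀.im) : ∃ r₁ r : ℝ, 0 < r₁ ∧ 0 < r ∧ ∃ F : ℂ × ℂ → ℂ,
      DifferentiableOn ℂ F (Metric.ball a r₁ ×ˢ Metric.ball τ₀ (2 * r)) ∧
      (∀ μ ∈ Metric.ball a r₁, ∀ τ ∈ Metric.ball τ₀ r,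
        τ - (star μ - star a) * B μ τ ∈ Metric.ball τ₀ (2 * r) ∧
          B μ τ = F (μ, τ - (star μ - star a) * B μ τ)) ∧
      (∀ μ ∈ Metric.ball a r₁, ∀ c ∈ Metric.ball τ₀ (2 * r), ∃ τ ∈ Metric.ball τ₀ (4 * r),
        0 < τ.im ∧ c = τ - (star μ - star a) * B μ τ ∧ B μ τ = F (μ, c)) := by
  classical
  have hBF : BU.Fam B := ⟨hc, hh⟩
  have hB' : BU.Fam fun μ τ => deriv (B μ) τ := hBF.deriv
  have hwd := kl2_wd hBF hw
  obtain ⟨r, hr⟩ : ∃ r : ℝ, r = τ₀.im / 8 := ⟨_, rfl⟩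
  have hr0 : 0 < r := by rw [hr]; positivity
  have hball : Metric.closedBall τ₀ (4 * r) ⊆ BU.Ho := by
    intro x hx
    rw [Metric.mem_closedBall, dist_eq_norm] at hx
    have h1 : |(x - τ₀).im| ≤ ‖x - τ₀‖ := Complex.abs_im_le_norm _
    rw [Complex.sub_im] at h1
    have h2 := (abs_le.1 (h1.trans hx)).1
    show 0 < x.im
    rw [hr] at h2
    linarith
  have hball3 : Metric.closedBall τ₀ (3 * r) ⊆ BU.Ho :=
    (Metric.closedBall_subset_closedBall (by linarith)).trans hball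
  have hKc : IsCompact (Metric.closedBall a 1 ×ˢ Metric.closedBall τ₀ (3 * r)) :=
    (isCompact_closedBall a 1).prod (isCompact_closedBall τ₀ (3 * r))
  have hKs : Metric.closedBall a 1 ×ˢ Metric.closedBall τ₀ (3 * r) ⊆ {p : ℂ × ℂ | 0 < p.2.im} :=
    fun p hp => hball3 hp.2
  obtain ⟨M1, hM1⟩ := hKc.exists_bound_of_continuousOn (hBF.cont.mono hKs)
  obtain ⟨M2, hM2⟩ := hKc.exists_bound_of_continuousOn (hB'.cont.mono hKs)
  obtain ⟨M, hM⟩ : ∃ M : ℝ, M = |M1| + |M2| + 1 := ⟨_, rfl⟩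
  have hM0 : 0 < M := by rw [hM]; positivity
  have hMB : ∀ μ ∈ Metric.closedBall a 1, ∀ τ ∈ Metric.closedBall τ₀ (3 * r), ‖B μ τ‖ ≤ M := by
    intro μ hμ τ hτ
    have h1 := hM1 (μ, τ) ⟨hμ, hτ⟩
    simp only at h1
    have h2 := le_abs_self M1
    have h3 := abs_nonneg M2
    rw [hM]; linarith
  have hMB' : ∀ μ ∈ Metric.closedBall a 1, ∀ τ ∈ Metric.closedBall τ₀ (3 * r),
      ‖deriv (B μ) τ‖ ≤ M := by
    intro μ hμ τ hτ
    have h1 := hM2 (μ, τ) ⟨hμ, hτ⟩
    simp only at h1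
    have h2 := le_abs_self M2
    have h3 := abs_nonneg M1
    rw [hM]; linarith
  obtain ⟨r₁, hr₁⟩ : ∃ r₁ : ℝ, r₁ = min 1 (min (r / (2 * M)) (1 / (4 * M))) := ⟨_, rfl⟩
  have hr₁0 : 0 < r₁ := by rw [hr₁]; positivity
  have hr₁1 : r₁ ≤ 1 := by rw [hr₁]; exact min_le_left _ _
  have hr₁2 : r₁ * M ≤ r / 2 := by
    have h1 : r₁ ≤ r / (2 * M) := by
      rw [hr₁]; exact (min_le_right _ _).trans (min_le_left _ _)
    calc r₁ * M ≤ r / (2 * M) * M := mul_le_mul_of_nonneg_right h1 hM0.le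
      _ = r / 2 := by field_simp
  have hr₁3 : r₁ * M ≤ 1 / 4 := by
    have h1 : r₁ ≤ 1 / (4 * M) := by
      rw [hr₁]; exact (min_le_right _ _).trans (min_le_right _ _)
    calc r₁ * M ≤ 1 / (4 * M) * M := mul_le_mul_of_nonneg_right h1 hM0.le
      _ = 1 / 4 := by field_simp
  have hδ : ∀ μ ∈ Metric.ball a r₁, ‖star μ - star a‖ ≤ r₁ := by
    intro μ hμ
    rw [Metric.mem_ball, dist_eq_norm] at hμ
    rw [← star_sub, norm_star]
    exact hμ.le
  have hball1 : ∀ μ ∈ Metric.ball a r₁, μ ∈ Metric.closedBall a 1 := fun μ hμ =>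
    Metric.ball_subset_closedBall (Metric.ball_subset_ball hr₁1 hμ)
  -- the three basic estimates
  have K1 : ∀ μ ∈ Metric.ball a r₁, ∀ x ∈ Metric.closedBall τ₀ (3 * r),
      ‖(star μ - star a) * B μ x‖ ≤ r / 2 := by
    intro μ hμ x hx
    rw [norm_mul]
    exact (mul_le_mul (hδ μ hμ) (hMB μ (hball1 μ hμ) x hx) (norm_nonneg _) hr₁0.le).trans hr₁2
  have K3 : ∀ μ ∈ Metric.ball a r₁, ∀ x ∈ Metric.closedBall τ₀ (3 * r),
      ‖(star μ - star a) * deriv (B μ) x‖ ≤ 1 / 4 := by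
    intro μ hμ x hx
    rw [norm_mul]
    exact (mul_le_mul (hδ μ hμ) (hMB' μ (hball1 μ hμ) x hx) (norm_nonneg _) hr₁0.le).trans hr₁3
  have K3' : ∀ μ ∈ Metric.ball a r₁, ∀ x ∈ Metric.closedBall τ₀ (3 * r),
      1 - (star μ - star a) * deriv (B μ) x ≠ 0 := by
    intro μ hμ x hx h0
    have h1 := K3 μ hμ x hx
    rw [← sub_eq_zero.1 h0, norm_one] at h1
    linarith
  have K2 : ∀ μ ∈ Metric.ball a r₁, ∀ x ∈ Metric.closedBall τ₀ (3 * r),
      ∀ y ∈ Metric.closedBall τ₀ (3 * r),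
      ‖(star μ - star a) * B μ x - (star μ - star a) * B μ y‖ ≤ (1 / 4) * ‖x - y‖ := by
    intro μ hμ x hx y hy
    have h1 : ‖B μ x - B μ y‖ ≤ M * ‖x - y‖ :=
      (convex_closedBall τ₀ (3 * r)).norm_image_sub_le_of_norm_deriv_le
        (fun z hz => (hh μ).differentiableAt (BU.isOpen_Ho.mem_nhds (hball3 hz)))
        (fun z hz => hMB' μ (hball1 μ hμ) z hz) hy hx
    rw [← mul_sub, norm_mul]
    calc ‖star μ - star a‖ * ‖B μ x - B μ y‖ ≤ r₁ * (M * ‖x - y‖) :=
          mul_le_mul (hδ μ hμ) h1 (norm_nonneg _) hr₁0.le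
      _ = (r₁ * M) * ‖x - y‖ := by ring
      _ ≤ (1 / 4) * ‖x - y‖ := mul_le_mul_of_nonneg_right hr₁3 (norm_nonneg _)
  -- uniqueness of the solution
  have huniq : ∀ μ ∈ Metric.ball a r₁, ∀ x ∈ Metric.closedBall τ₀ (3 * r),
      ∀ y ∈ Metric.closedBall τ₀ (3 * r),
      x - (star μ - star a) * B μ x = y - (star μ - star a) * B μ y → x = y := by
    intro μ hμ x hx y hy h
    have h1 := K2 μ hμ x hx y hy
    have h2 : (star μ - star a) * B μ x - (star μ - star a) * B μ y = x - y := by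
      linear_combination -h
    rw [h2] at h1
    have h3 : ‖x - y‖ = 0 := by
      have := norm_nonneg (x - y)
      linarith
    exact sub_eq_zero.1 (norm_eq_zero.1 h3)
  -- existence
  have hex : ∀ μ ∈ Metric.ball a r₁, ∀ c ∈ Metric.ball τ₀ (2 * r),
      ∃ x ∈ Metric.ball τ₀ (3 * r), x - (star μ - star a) * B μ x = c := by
    intro μ hμ c hc
    rw [Metric.mem_ball, dist_eq_norm] at hc
    have hmap : ∀ x ∈ Metric.closedBall τ₀ (3 * r),
        c + (star μ - star a) * B μ x ∈ Metric.ball τ₀ (3 * r) := by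
      intro x hx
      rw [Metric.mem_ball, dist_eq_norm]
      have e : c + (star μ - star a) * B μ x - τ₀ = (c - τ₀) + (star μ - star a) * B μ x := by ring
      rw [e]
      have h1 := norm_add_le (c - τ₀) ((star μ - star a) * B μ x)
      have h2 := K1 μ hμ x hx
      linarith
    obtain ⟨x, hx, hx2⟩ := BU.fp (S := fun x => c + (star μ - star a) * B μ x) (z := τ₀)
      (R := 3 * r) (by positivity) (fun x hx => Metric.ball_subset_closedBall (hmap x hx))
      (fun x hx y hy => by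
        have e : c + (star μ - star a) * B μ x - (c + (star μ - star a) * B μ y) =
          (star μ - star a) * B μ x - (star μ - star a) * B μ y := by ring
        rw [e]
        exact K2 μ hμ x hx y hy)
    refine ⟨x, ?_, by linear_combination (-1 : ℂ) * hx2⟩
    rw [← hx2]
    exact hmap x hx
  -- the solution
  let T : ℂ × ℂ → ℂ := fun p =>
    if h : ∃ x ∈ Metric.ball τ₀ (3 * r), x - (star p.1 - star a) * B p.1 x = p.2 then h.choose
    else 0
  let V : Set (ℂ × ℂ) := Metric.ball a r₁ ×ˢ Metric.ball τ₀ (2 * r)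
  have hVo : IsOpen V := Metric.isOpen_ball.prod Metric.isOpen_ball
  have hT : ∀ p ∈ V, T p ∈ Metric.ball τ₀ (3 * r) ∧
      T p - (star p.1 - star a) * B p.1 (T p) = p.2 := by
    intro p hp
    have h := hex p.1 hp.1 p.2 hp.2
    have e : T p = h.choose := dif_pos h
    rw [e]
    exact h.choose_spec
  have hTc : ∀ p ∈ V, T p ∈ Metric.closedBall τ₀ (3 * r) := fun p hp =>
    Metric.ball_subset_closedBall (hT p hp).1
  have hTu : ∀ p ∈ V, ∀ x ∈ Metric.closedBall τ₀ (3 * r),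
      x - (star p.1 - star a) * B p.1 x = p.2 → T p = x := by
    intro p hp x hx h
    exact huniq p.1 hp.1 _ (hTc p hp) _ hx ((hT p hp).2.trans h.symm)
  -- continuity of the solution
  have hTcont : ContinuousOn T V := by
    intro p₀ hp₀
    apply ContinuousAt.continuousWithinAt
    set x₀ := T p₀ with hx₀
    have hx₀c := hTc p₀ hp₀
    have hx₀H : 0 < x₀.im := hball3 hx₀c
    have hcx : Continuous fun p : ℂ × ℂ => (star p.1 - star a) * B p.1 x₀ := by
      have h1 : Continuous fun p : ℂ × ℂ => B p.1 x₀ := (hBF.slice hx₀H).comp continuous_fst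
      have h2 : Continuous fun p : ℂ × ℂ => star p.1 - star a := by fun_prop
      exact h2.mul h1
    have hest : ∀ᶠ p in 𝓝 p₀, ‖T p - x₀‖ ≤ (4 / 3) * (‖p.2 - p₀.2‖ +
        ‖(star p.1 - star a) * B p.1 x₀ - (star p₀.1 - star a) * B p₀.1 x₀‖) := by
      filter_upwards [hVo.mem_nhds hp₀] with p hp
      have h1 := (hT p hp).2
      have h2 := (hT p₀ hp₀).2
      have h3 := K2 p.1 hp.1 (T p) (hTc p hp) x₀ hx₀c
      have e : T p - x₀ = (p.2 - p₀.2) +
          ((star p.1 - star a) * B p.1 (T p) - (star p.1 - star a) * B p.1 x₀) +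
          ((star p.1 - star a) * B p.1 x₀ - (star p₀.1 - star a) * B p₀.1 x₀) := by
        rw [← hx₀] at h2
        linear_combination h1 - h2
      have h4 : ‖T p - x₀‖ ≤ ‖p.2 - p₀.2‖ + (1 / 4) * ‖T p - x₀‖ +
          ‖(star p.1 - star a) * B p.1 x₀ - (star p₀.1 - star a) * B p₀.1 x₀‖ := by
        calc ‖T p - x₀‖ = ‖(p.2 - p₀.2) +
          ((star p.1 - star a) * B p.1 (T p) - (star p.1 - star a) * B p.1 x₀) +
          ((star p.1 - star a) * B p.1 x₀ - (star p₀.1 - star a) * B p₀.1 x₀)‖ := by rw [← e]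
          _ ≤ _ := by
            refine (norm_add_le _ _).trans (add_le_add_left ?_ _)
            exact (norm_add_le _ _).trans (add_le_add_right h3 _)
      linarith
    have hlim : Tendsto (fun p : ℂ × ℂ => (4 / 3) * (‖p.2 - p₀.2‖ +
        ‖(star p.1 - star a) * B p.1 x₀ - (star p₀.1 - star a) * B p₀.1 x₀‖)) (𝓝 p₀) (𝓝 0) := by
      have h1 : Continuous fun p : ℂ × ℂ => (4 / 3 : ℝ) * (‖p.2 - p₀.2‖ +
        ‖(star p.1 - star a) * B p.1 x₀ - (star p₀.1 - star a) * B p₀.1 x₀‖) :=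
        continuous_const.mul (((continuous_snd.sub continuous_const).norm).add
          ((hcx.sub continuous_const).norm))
      have h2 := h1.tendsto p₀
      simpa using h2
    have h5 : Tendsto (fun p => T p - x₀) (𝓝 p₀) (𝓝 0) :=
      squeeze_zero_norm' hest hlim
    have h6 := h5.add_const x₀
    have h7 : Tendsto T (𝓝 p₀) (𝓝 x₀) := by simpa using h6
    exact h7
  let F : ℂ × ℂ → ℂ := fun p => B p.1 (T p)
  have hFcont : ContinuousOn F V := by
    have h1 : ContinuousOn (fun p : ℂ × ℂ => ((p.1, T p) : ℂ × ℂ)) V :=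
      continuousOn_fst.prodMk hTcont
    exact hBF.cont.comp h1 fun p hp => hball3 (hTc p hp)
  -- holomorphic in the second variable
  have hF2 : ∀ p ∈ V, DifferentiableAt ℂ (fun c => F (p.1, c)) p.2 := by
    intro p hp
    have hxH : BU.Ho ∈ 𝓝 (T p) := BU.isOpen_Ho.mem_nhds (hball3 (hTc p hp))
    have d1 : HasDerivAt (B p.1) (deriv (B p.1) (T p)) (T p) :=
      ((hh p.1).differentiableAt hxH).hasDerivAt
    have d2 : HasDerivAt (fun x => x - (star p.1 - star a) * B p.1 x)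
        (1 - (star p.1 - star a) * deriv (B p.1) (T p)) (T p) :=
      (hasDerivAt_id _).sub (d1.const_mul (star p.1 - star a))
    have c1 : ContinuousAt (fun c => T (p.1, c)) p.2 := by
      have h1 : ContinuousAt T p := hTcont.continuousAt (hVo.mem_nhds hp)
      have h2 : ContinuousAt (fun c : ℂ => ((p.1, c) : ℂ × ℂ)) p.2 := by fun_prop
      exact ContinuousAt.comp (g := T) (f := fun c : ℂ => ((p.1, c) : ℂ × ℂ)) h1 h2
    have c2 : ∀ᶠ c in 𝓝 p.2, T (p.1, c) - (star p.1 - star a) * B p.1 (T (p.1, c)) = c := by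
      filter_upwards [Metric.isOpen_ball.mem_nhds hp.2] with c hc
      exact (hT (p.1, c) ⟨hp.1, hc⟩).2
    have d3 : HasDerivAt (fun c => T (p.1, c))
        (1 - (star p.1 - star a) * deriv (B p.1) (T p))⁻¹ p.2 :=
      HasDerivAt.of_local_left_inverse (f := fun x => x - (star p.1 - star a) * B p.1 x)
        (g := fun c => T (p.1, c)) c1 d2 (K3' p.1 hp.1 _ (hTc p hp)) c2
    exact (d1.comp p.2 d3).differentiableAt
  -- holomorphic in the first variable
  have hF1 : ∀ p ∈ V, DifferentiableAt ℂ (fun μ => F (μ, p.2)) p.1 := by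
    intro p hp
    have hne : ∀ μ ∈ Metric.ball a r₁, ∀ τ ∈ Metric.closedBall τ₀ (3 * r), τ ≠ T (μ, p.2) →
        τ - (star μ - star a) * B μ τ - p.2 ≠ 0 := by
      intro μ hμ τ hτ h1 h2
      exact h1 (hTu (μ, p.2) ⟨hμ, hp.2⟩ τ hτ (sub_eq_zero.1 h2)).symm
    have hsph : ∀ μ ∈ Metric.ball a r₁, ∀ τ ∈ Metric.sphere τ₀ (3 * r), τ ≠ T (μ, p.2) := by
      rintro μ hμ τ hτ rfl
      have h1 := (hT (μ, p.2) ⟨hμ, hp.2⟩).1
      rw [Metric.mem_ball] at h1
      rw [Metric.mem_sphere] at hτ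
      linarith
    have h1 := BU.contour_wd hBF hwd a (U := Metric.ball a r₁) Metric.isOpen_ball (z := τ₀)
      (R := 3 * r) (by positivity) hball3 p.2
      (fun μ hμ τ hτ => hne μ hμ τ (Metric.sphere_subset_closedBall hτ) (hsph μ hμ τ hτ))
    have h2 : ∀ μ ∈ Metric.ball a r₁, (∮ τ in C(τ₀, 3 * r), B μ τ *
        (1 - (star μ - star a) * deriv (B μ) τ) *
        (τ - (star μ - star a) * B μ τ - p.2)⁻¹) = 2 * Real.pi * Complex.I * F (μ, p.2) := by
      intro μ hμ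
      have hp' : (μ, p.2) ∈ V := ⟨hμ, hp.2⟩
      refine BU.contour (b := B μ) (L := fun τ => τ - (star μ - star a) * B μ τ - p.2)
        (L' := fun τ => 1 - (star μ - star a) * deriv (B μ) τ) BU.isOpen_Ho (by positivity)
        hball3 (hh μ) ?_ ?_ (hT _ hp').1 ?_ (fun x hx hxw => hne μ hμ x hx hxw)
        (K3' μ hμ _ (hTc _ hp'))
      · exact (differentiableOn_id.sub ((hh μ).const_mul _)).sub_const _
      · intro x hx
        have d1 : HasDerivAt (B μ) (deriv (B μ) x) x :=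
          ((hh μ).differentiableAt (BU.isOpen_Ho.mem_nhds hx)).hasDerivAt
        exact ((hasDerivAt_id _).sub (d1.const_mul (star μ - star a))).sub_const _
      · have := (hT _ hp').2
        simp only at this
        rw [this, sub_self]
    have h3 := h1.const_mul ((2 * Real.pi * Complex.I : ℂ)⁻¹)
    have h4 : BU.WD (Metric.ball a r₁) (fun μ => F (μ, p.2)) fun _ => 0 := by
      refine h3.congr (fun μ hμ => ?_) fun μ hμ => by simp
      simp only
      rw [h2 μ hμ, ← mul_assoc, inv_mul_cancel₀ Complex.two_pi_I_ne_zero, one_mul]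
    have h5 : ContinuousOn (fun μ => F (μ, p.2)) (Metric.ball a r₁) := by
      have h6 : ContinuousOn (fun μ : ℂ => ((μ, p.2) : ℂ × ℂ)) (Metric.ball a r₁) := by fun_prop
      exact hFcont.comp h6 fun μ hμ => ⟨hμ, hp.2⟩
    exact (h4.holo Metric.isOpen_ball h5).differentiableAt (Metric.isOpen_ball.mem_nhds hp.1)
  have hFan := SCV.osgood V hVo F hFcont hF1 hF2
  refine ⟨r₁, r, hr₁0, hr0, F, hFan.differentiableOn, ?_, ?_⟩
  · intro μ hμ τ hτ
    have hτc : τ ∈ Metric.closedBall τ₀ (3 * r) :=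
      Metric.closedBall_subset_closedBall (by linarith) (Metric.ball_subset_closedBall hτ)
    have h1 : τ - (star μ - star a) * B μ τ ∈ Metric.ball τ₀ (2 * r) := by
      rw [Metric.mem_ball, dist_eq_norm] at hτ ⊢
      have e : τ - (star μ - star a) * B μ τ - τ₀ = (τ - τ₀) - (star μ - star a) * B μ τ := by ring
      rw [e]
      have h1 := norm_sub_le (τ - τ₀) ((star μ - star a) * B μ τ)
      have h2 := K1 μ hμ τ hτc
      linarith
    refine ⟨h1, ?_⟩
    have h2 := hTu (μ, τ - (star μ - star a) * B μ τ) ⟨hμ, h1⟩ τ hτc rfl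
    show B μ τ = B μ (T (μ, τ - (star μ - star a) * B μ τ))
    rw [h2]
  · intro μ hμ c hc
    have hp : (μ, c) ∈ V := ⟨hμ, hc⟩
    refine ⟨T (μ, c), Metric.ball_subset_ball (by linarith) (hT _ hp).1, hball3 (hTc _ hp),
      (hT _ hp).2.symm, rfl⟩

end Pool.Agent.MPd01a95.KT
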