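import Mathlib
import Pool.Agent.Lib.MP_d01a95_gt_K.KDefs2
import Pool.Agent.Lib.SCV.Osgood

set_option autoImplicit false
set_option linter.all false

open Matrix Filter Topology MeasureTheory
open scoped ContDiff

namespace Pool.Agent.MPd01a95.KT

open GU

variable {G : Type} [Group G]

/-- the linear equivalence `(h, k) ↦ (h, k + conj h * w)` -/
private noncomputable def kl3_eq (w : ℂ) : (ℂ × ℂ) ≃L[ℝ] (ℂ × ℂ) :=
  LinearEquiv.toContinuousLinearEquiv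
    { toFun := fun p => (p.1, p.2 + star p.1 * w)
      map_add' := by
        intro p q
        ext1
        · rfl
        · show p.2 + q.2 + star (p.1 + q.1) * w = p.2 + star p.1 * w + (q.2 + star q.1 * w)
          rw [star_add]; ring
      map_smul' := by
        intro c p
        ext1
        · rfl
        · show c • p.2 + star (c • p.1) * w = c • (p.2 + star p.1 * w)
          rw [star_smul, star_trivial, smul_add, smul_mul_assoc]
      invFun := fun p => (p.1, p.2 - star p.1 * w)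
      left_inv := by
        intro p
        ext1
        · rfl
        · show p.2 + star p.1 * w - star p.1 * w = p.2
          ring
      right_inv := by
        intro p
        ext1
        · rfl
        · show p.2 - star p.1 * w + star p.1 * w = p.2
          ring }

private theorem kl3_eq_apply (w : ℂ) (p : ℂ × ℂ) : kl3_eq w p = (p.1, p.2 + star p.1 * w) := rfl

private noncomputable def kl3_cj : (ℂ × ℂ) →L[ℝ] ℂ :=
  (Complex.conjCLE : ℂ →L[ℝ] ℂ).comp (ContinuousLinearMap.fst ℝ ℂ ℂ)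

private theorem kl3_cj_apply (p : ℂ × ℂ) : kl3_cj p = star p.1 := rfl

private theorem kl3_u (a : ℂ) (x : ℂ × ℂ) :
    HasFDerivAt (fun p : ℂ × ℂ => star p.1 - star a) kl3_cj x :=
  (kl3_cj.hasFDerivAt (x := x)).sub_const (star a)

private theorem kl3_mul {g : ℂ × ℂ → ℂ} {g' : (ℂ × ℂ) →L[ℝ] ℂ} {a τ₀ : ℂ}
    (hg : HasFDerivAt g g' (a, τ₀)) :
    HasFDerivAt (fun p : ℂ × ℂ => (star p.1 - star a) * g p) (g (a, τ₀) • kl3_cj) (a, τ₀) := by
  have h := (kl3_u a (a, τ₀)).mul hg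
  refine h.congr_fderiv (ContinuousLinearMap.ext fun p => ?_)
  show (star a - star a) • g' p + g (a, τ₀) • kl3_cj p = g (a, τ₀) • kl3_cj p
  rw [sub_self, zero_smul, zero_add]

private theorem kl3_local {B : ℂ → ℂ → ℂ} {a τ₀ : ℂ} {r₁ r : ℝ} (hr₁ : 0 < r₁) (hr : 0 < r)
    {F : ℂ × ℂ → ℂ} (hF : DifferentiableOn ℂ F (Metric.ball a r₁ ×ˢ Metric.ball τ₀ (2 * r)))
    (hB : ∀ μ ∈ Metric.ball a r₁, ∀ τ ∈ Metric.ball τ₀ r,
        τ - (star μ - star a) * B μ τ ∈ Metric.ball τ₀ (2 * r) ∧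
          B μ τ = F (μ, τ - (star μ - star a) * B μ τ))
    (hc : ContinuousAt (fun p : ℂ × ℂ => B p.1 p.2) (a, τ₀)) :
    ContDiffAt ℝ ∞ (fun p : ℂ × ℂ => B p.1 p.2) (a, τ₀) ∧
    ∃ L : (ℂ × ℂ) →L[ℝ] ℂ, HasFDerivAt (fun p : ℂ × ℂ => B p.1 p.2) L (a, τ₀) ∧
      ∃ A C : ℂ, ∀ h k : ℂ, L (h, k) = A * h + C * (k - star h * B a τ₀) := by
  set U : Set (ℂ × ℂ) := Metric.ball a r₁ ×ˢ Metric.ball τ₀ (2 * r) with hU
  have hUo : IsOpen U := Metric.isOpen_ball.prod Metric.isOpen_ball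
  have hmem : (a, τ₀) ∈ U := ⟨Metric.mem_ball_self hr₁, Metric.mem_ball_self (by linarith)⟩
  have hFan : AnalyticAt ℂ F (a, τ₀) :=
    SCV.differentiableOn_analyticOnNhd U hUo F hF (a, τ₀) hmem
  have hFc : ContDiffAt ℝ ∞ F (a, τ₀) := (hFan.contDiffAt (n := ∞)).restrict_scalars ℝ
  have hF1 : HasFDerivAt F (fderiv ℂ F (a, τ₀)) (a, τ₀) :=
    hFan.differentiableAt.hasFDerivAt
  have hF2 : HasFDerivAt F ((fderiv ℂ F (a, τ₀)).restrictScalars ℝ) (a, τ₀) :=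
    hF1.restrictScalars ℝ
  have hB0 : B a τ₀ = F (a, τ₀) := by
    have h := (hB a (Metric.mem_ball_self hr₁) τ₀ (Metric.mem_ball_self hr)).2
    rw [sub_self, zero_mul, sub_zero] at h
    exact h
  -- the map G
  set Gm : ℂ × ℂ → ℂ × ℂ := fun p => (p.1, p.2 + (star p.1 - star a) * F p) with hGm
  have hu : ContDiff ℝ ∞ (fun p : ℂ × ℂ => star p.1 - star a) := by
    have : ContDiff ℝ ∞ (fun p : ℂ × ℂ => kl3_cj p - star a) :=
      kl3_cj.contDiff.sub contDiff_const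
    exact this
  have hGc : ContDiffAt ℝ ∞ Gm (a, τ₀) := by
    refine contDiffAt_fst.prodMk (contDiffAt_snd.add ?_)
    exact hu.contDiffAt.mul hFc
  have hGd : HasFDerivAt Gm (kl3_eq (F (a, τ₀)) : (ℂ × ℂ) →L[ℝ] (ℂ × ℂ)) (a, τ₀) := by
    have h1 : HasFDerivAt Gm ((ContinuousLinearMap.fst ℝ ℂ ℂ).prod
        (ContinuousLinearMap.snd ℝ ℂ ℂ + F (a, τ₀) • kl3_cj)) (a, τ₀) :=
      hasFDerivAt_fst.prodMk (hasFDerivAt_snd.add (kl3_mul hF2))
    refine h1.congr_fderiv (ContinuousLinearMap.ext fun p => ?_)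
    show (p.1, p.2 + F (a, τ₀) • star p.1) = (p.1, p.2 + star p.1 * F (a, τ₀))
    rw [smul_eq_mul, mul_comm]
  have hGs : HasStrictFDerivAt Gm (kl3_eq (F (a, τ₀)) : (ℂ × ℂ) →L[ℝ] (ℂ × ℂ)) (a, τ₀) :=
    hGc.hasStrictFDerivAt' hGd (by simp)
  have hGa : Gm (a, τ₀) = (a, τ₀) := by
    show (a, τ₀ + (star a - star a) * F (a, τ₀)) = (a, τ₀)
    rw [sub_self, zero_mul, add_zero]
  set Psi := hGc.localInverse hGd (by simp) with hPsi
  have hPc : ContDiffAt ℝ ∞ Psi (a, τ₀) := by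
    have h := hGc.to_localInverse hGd (by simp)
    rw [hGa] at h
    exact h
  have hleft : ∀ᶠ y in 𝓝 (a, τ₀), Psi (Gm y) = y := hGs.eventually_left_inverse
  -- the map Θ
  set Th : ℂ × ℂ → ℂ × ℂ := fun p => (p.1, p.2 - (star p.1 - star a) * B p.1 p.2) with hTh
  have hThc : ContinuousAt Th (a, τ₀) := by
    refine continuousAt_fst.prodMk (continuousAt_snd.sub ?_)
    exact (hu.continuous.continuousAt).mul hc
  have hTha : Th (a, τ₀) = (a, τ₀) := by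
    show (a, τ₀ - (star a - star a) * B a τ₀) = (a, τ₀)
    rw [sub_self, zero_mul, sub_zero]
  have hN : ∀ᶠ p : ℂ × ℂ in 𝓝 (a, τ₀), p.1 ∈ Metric.ball a r₁ ∧ p.2 ∈ Metric.ball τ₀ r := by
    have : Metric.ball a r₁ ×ˢ Metric.ball τ₀ r ∈ 𝓝 (a, τ₀) :=
      (Metric.isOpen_ball.prod Metric.isOpen_ball).mem_nhds
        ⟨Metric.mem_ball_self hr₁, Metric.mem_ball_self hr⟩
    exact this
  have hBF : ∀ᶠ p : ℂ × ℂ in 𝓝 (a, τ₀), B p.1 p.2 = F (Th p) := by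
    filter_upwards [hN] with p hp
    exact (hB p.1 hp.1 p.2 hp.2).2
  have hGT : ∀ᶠ p : ℂ × ℂ in 𝓝 (a, τ₀), Gm (Th p) = p := by
    filter_upwards [hBF] with p hp
    show (p.1, p.2 - (star p.1 - star a) * B p.1 p.2 + (star p.1 - star a) * F (Th p)) = p
    rw [← hp]
    ext1
    · rfl
    · show p.2 - (star p.1 - star a) * B p.1 p.2 + (star p.1 - star a) * B p.1 p.2 = p.2
      ring
  have hTP : ∀ᶠ p : ℂ × ℂ in 𝓝 (a, τ₀), Th p = Psi p := by
    have h1 : ∀ᶠ p : ℂ × ℂ in 𝓝 (a, τ₀), Psi (Gm (Th p)) = Th p := by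
      have h2 : Tendsto Th (𝓝 (a, τ₀)) (𝓝 (a, τ₀)) := by
        have h3 := hThc.tendsto
        rw [hTha] at h3
        exact h3
      exact h2.eventually hleft
    filter_upwards [h1, hGT] with p hp hp2
    rw [hp2] at hp
    exact hp.symm
  have hPa : Psi (a, τ₀) = (a, τ₀) := by
    rw [← hTP.self_of_nhds, hTha]
  have hBc : ContDiffAt ℝ ∞ (fun p : ℂ × ℂ => B p.1 p.2) (a, τ₀) := by
    have h1 : ContDiffAt ℝ ∞ (fun p => F (Psi p)) (a, τ₀) := by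
      refine ContDiffAt.comp (a, τ₀) ?_ hPc
      rw [hPa]
      exact hFc
    refine h1.congr_of_eventuallyEq ?_
    filter_upwards [hBF, hTP] with p hp hp2
    rw [hp, hp2]
  refine ⟨hBc, ?_⟩
  set L := fderiv ℝ (fun p : ℂ × ℂ => B p.1 p.2) (a, τ₀) with hLd
  have hL : HasFDerivAt (fun p : ℂ × ℂ => B p.1 p.2) L (a, τ₀) :=
    (hBc.differentiableAt (by simp)).hasFDerivAt
  have hThd : HasFDerivAt Th ((ContinuousLinearMap.fst ℝ ℂ ℂ).prod
      (ContinuousLinearMap.snd ℝ ℂ ℂ - B a τ₀ • kl3_cj)) (a, τ₀) :=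
    hasFDerivAt_fst.prodMk (hasFDerivAt_snd.sub (kl3_mul hL))
  have hcomp : HasFDerivAt (fun p => F (Th p)) (((fderiv ℂ F (a, τ₀)).restrictScalars ℝ).comp
      ((ContinuousLinearMap.fst ℝ ℂ ℂ).prod
      (ContinuousLinearMap.snd ℝ ℂ ℂ - B a τ₀ • kl3_cj))) (a, τ₀) := by
    refine HasFDerivAt.comp (a, τ₀) ?_ hThd
    rw [hTha]
    exact hF2
  have hL2 := hcomp.congr_of_eventuallyEq hBF
  have hLe := hL.unique hL2
  refine ⟨L, hL, fderiv ℂ F (a, τ₀) (1, 0), fderiv ℂ F (a, τ₀) (0, 1), fun h k => ?_⟩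
  rw [hLe]
  show fderiv ℂ F (a, τ₀) (h, k - B a τ₀ • star h) = _
  have hdec : ((h, k - B a τ₀ • star h) : ℂ × ℂ) =
      h • ((1, 0) : ℂ × ℂ) + (k - star h * B a τ₀) • ((0, 1) : ℂ × ℂ) := by
    ext1
    · simp
    · simp [mul_comm]
  rw [hdec, map_add, map_smul, map_smul, smul_eq_mul, smul_eq_mul]
  ring

/-- module L3: classical solutions -/
theorem smooth_burgers {B : ℂ → ℂ → ℂ}
    (hg : ∀ a τ₀ : ℂ, 0 < τ₀.im → ∃ r₁ r : ℝ, 0 < r₁ ∧ 0 < r ∧ ∃ F : ℂ × ℂ → ℂ,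
      DifferentiableOn ℂ F (Metric.ball a r₁ ×ˢ Metric.ball τ₀ (2 * r)) ∧
      (∀ μ ∈ Metric.ball a r₁, ∀ τ ∈ Metric.ball τ₀ r,
        τ - (star μ - star a) * B μ τ ∈ Metric.ball τ₀ (2 * r) ∧
          B μ τ = F (μ, τ - (star μ - star a) * B μ τ)))
    (hc : ContinuousOn (fun p : ℂ × ℂ => B p.1 p.2) {p | 0 < p.2.im}) :
    ContDiffOn ℝ ∞ (fun x : C2 => B (x 0) (x 1)) Up ∧
      (∀ x ∈ Up, pb (fun x : C2 => B (x 0) (x 1)) 1 x = 0) ∧
      ∀ x ∈ Up, pb (fun x : C2 => B (x 0) (x 1)) 0 x +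
        B (x 0) (x 1) * pd (fun x : C2 => B (x 0) (x 1)) 1 x = 0 := by
  have hopen : IsOpen {p : ℂ × ℂ | 0 < p.2.im} :=
    isOpen_lt continuous_const (Complex.continuous_im.comp continuous_snd)
  have hloc : ∀ x ∈ Up, ContDiffAt ℝ ∞ (fun p : ℂ × ℂ => B p.1 p.2) (x 0, x 1) ∧
      ∃ L : (ℂ × ℂ) →L[ℝ] ℂ, HasFDerivAt (fun p : ℂ × ℂ => B p.1 p.2) L (x 0, x 1) ∧
      ∃ A C : ℂ, ∀ h k : ℂ, L (h, k) = A * h + C * (k - star h * B (x 0) (x 1)) := by
    intro x hx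
    obtain ⟨r₁, r, hr₁, hr, F, hF, hB⟩ := hg (x 0) (x 1) hx
    exact kl3_local hr₁ hr hF hB (hc.continuousAt (hopen.mem_nhds hx))
  set π : C2 →L[ℝ] ℂ × ℂ := (ContinuousLinearMap.proj (R := ℝ) (φ := fun _ : Fin 2 => ℂ) 0).prod
    (ContinuousLinearMap.proj (R := ℝ) (φ := fun _ : Fin 2 => ℂ) 1) with hπ
  have hπa : ∀ x : C2, π x = (x 0, x 1) := fun x => rfl
  have hder : ∀ x : C2, ∀ L : (ℂ × ℂ) →L[ℝ] ℂ,
      HasFDerivAt (fun p : ℂ × ℂ => B p.1 p.2) L (x 0, x 1) →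
      fderiv ℝ (fun x : C2 => B (x 0) (x 1)) x = L.comp π := by
    intro x L hL
    have h : HasFDerivAt (fun x : C2 => B (x 0) (x 1)) (L.comp π) x :=
      HasFDerivAt.comp x (f := π) (g := fun p : ℂ × ℂ => B p.1 p.2) hL π.hasFDerivAt
    exact h.fderiv
  have e0 : ∀ c : ℂ, π (Pi.single 0 c) = (c, 0) := by
    intro c
    rw [hπa]
    simp
  have e1 : ∀ c : ℂ, π (Pi.single 1 c) = (0, c) := by
    intro c
    rw [hπa]
    simp
  refine ⟨fun x hx => ?_, fun x hx => ?_, fun x hx => ?_⟩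
  · have h := (hloc x hx).1
    have h2 : ContDiffAt ℝ ∞ (fun x : C2 => B (x 0) (x 1)) x :=
      ContDiffAt.comp x (f := π) (g := fun p : ℂ × ℂ => B p.1 p.2) h π.contDiff.contDiffAt
    exact h2.contDiffWithinAt
  · obtain ⟨-, L, hL, A, C, hAC⟩ := hloc x hx
    unfold pb
    rw [hder x L hL]
    show (1 / 2 : ℂ) * (L (π (Pi.single 1 1)) + Complex.I * L (π (Pi.single 1 Complex.I))) = 0
    rw [e1, e1, hAC, hAC]
    have hI : Complex.I * Complex.I = -1 := Complex.I_mul_I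
    simp only [star_zero, zero_mul, mul_zero, sub_zero, zero_add, mul_one]
    linear_combination (1 / 2 : ℂ) * C * hI
  · obtain ⟨-, L, hL, A, C, hAC⟩ := hloc x hx
    unfold pb pd
    rw [hder x L hL]
    show (1 / 2 : ℂ) * (L (π (Pi.single 0 1)) + Complex.I * L (π (Pi.single 0 Complex.I))) +
      B (x 0) (x 1) * ((1 / 2 : ℂ) * (L (π (Pi.single 1 1)) -
        Complex.I * L (π (Pi.single 1 Complex.I)))) = 0
    rw [e0, e0, e1, e1, hAC, hAC, hAC, hAC]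
    have hI : Complex.I * Complex.I = -1 := Complex.I_mul_I
    have hs1 : star (1 : ℂ) = 1 := star_one ℂ
    have hsI : star Complex.I = -Complex.I := Complex.conj_I
    rw [hs1, hsI, star_zero]
    linear_combination ((1 / 2 : ℂ) * A - (0 : ℂ)) * hI

end Pool.Agent.MPd01a95.KT
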