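import Mathlib
import Pool.Agent.Lib.MP_d01a95_gt_K.KDefs2
import Pool.Agent.Lib.MP_d01a95_gt_K.KA1
import Pool.Agent.Lib.MP_d01a95_gt_K.KA2
import Pool.Agent.Lib.MP_d01a95_gt_K.KA4
import Pool.Agent.Lib.MP_d01a95_gt_K.KF0
import Pool.Agent.Lib.MP_d01a95_gt_K.KF6
import Pool.Agent.Lib.MP_d01a95_gt_K.KH1
import Pool.Agent.Lib.MP_d01a95_gt_K.KH2
import Pool.Agent.Lib.MP_d01a95_gt_K.KH3
import Pool.Agent.Lib.MP_d01a95_gt_K.KH4
import Pool.Agent.Lib.MP_d01a95_gt_K.KJ1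
import Pool.Agent.Lib.MP_d01a95_gt_K.KK3
import Pool.Agent.Lib.MP_d01a95_gt_K.KK7

set_option autoImplicit false
set_option linter.all false

open Matrix Filter Topology MeasureTheory
open scoped ContDiff

namespace Pool.Agent.MPd01a95.KT

open GU

variable {G : Type} [Group G]

/-- sublinear growth -/
theorem kl4_scal {K ε : ℝ} (hK : 0 ≤ K) (hε : 0 < ε) : ∃ R : ℝ, 1 ≤ R ∧ ∀ s : ℝ, R ≤ s →
    K * (1 + s) ^ (1 - ε) ≤ s / 4 := by
  obtain ⟨R0, hR0⟩ := eventually_atTop.1 ((tendsto_rpow_atTop hε).eventually_ge_atTop (8 * K))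
  refine ⟨max R0 1, le_max_right _ _, fun s hs => ?_⟩
  have h1 : R0 ≤ 1 + s := by
    have := le_max_left R0 1
    linarith
  have h2 : 1 ≤ s := le_trans (le_max_right _ _) hs
  have h3 : 8 * K ≤ (1 + s) ^ ε := hR0 (1 + s) h1
  have hx : 0 < 1 + s := by linarith
  have hp : 0 < (1 + s) ^ ε := Real.rpow_pos_of_pos hx _
  rw [Real.rpow_sub hx, Real.rpow_one, ← mul_div_assoc, div_le_iff₀ hp]
  have h4 : K * (1 + s) ≤ K * (2 * s) := mul_le_mul_of_nonneg_left (by linarith) hK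
  have h5 : s / 4 * (8 * K) ≤ s / 4 * (1 + s) ^ ε := mul_le_mul_of_nonneg_left h3 (by linarith)
  linarith

/-- the boundary values of the Poisson extension -/
theorem kl4_real (A : ℂ → ℝ → ℂ) (μ σ : ℂ) (h : 0 = σ.im) :
    PE A μ σ = A μ σ.re ∧ σ = ((σ.re : ℝ) : ℂ) := by
  constructor
  · unfold PE
    rw [if_neg (by rw [← h]; exact lt_irrefl 0)]
  · exact Complex.ext (by simp) (by simp [← h])

/-- the values of `τ + δ B τ` in the upper half plane do not meet the lower component -/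
theorem kl4_core {A : ℂ → ℝ → ℂ} (hA : Ch A) (hz : CZ A) (μ δ κ : ℂ) (hκ : κ ∈ Lo A μ δ)
    (τ : ℂ) (hτ : 0 < τ.im) : τ + δ * PE A μ τ ≠ κ := by
  obtain ⟨ε, hε, hg⟩ := PE_grow hA
  obtain ⟨C, hC⟩ := hg ‖μ‖
  have hK : 0 ≤ ‖δ‖ * |C| := by positivity
  obtain ⟨K, hKd⟩ : ∃ K, K = ‖δ‖ * |C| := ⟨_, rfl⟩
  rw [← hKd] at hK
  have hB : ∀ σ : ℂ, 0 ≤ σ.im → ‖δ * PE A μ σ‖ ≤ K * (1 + ‖σ‖) ^ (1 - ε) := by
    intro σ hσ
    rw [norm_mul, hKd, mul_assoc]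
    refine mul_le_mul_of_nonneg_left ((hC μ σ le_rfl hσ).trans ?_) (norm_nonneg _)
    exact mul_le_mul_of_nonneg_right (le_abs_self C) (Real.rpow_nonneg (by positivity) _)
  obtain ⟨R, hR1, hR⟩ := kl4_scal hK hε
  have hB1 : ∀ σ : ℂ, 0 ≤ σ.im → R ≤ ‖σ‖ → ‖δ * PE A μ σ‖ ≤ ‖σ‖ / 4 := fun σ h1 h2 =>
    (hB σ h1).trans (hR _ h2)
  have hB2 : ∀ σ : ℂ, 0 ≤ σ.im → ‖δ * PE A μ σ‖ ≤ K * (1 + ‖σ‖) := by
    intro σ hσ
    refine (hB σ hσ).trans (mul_le_mul_of_nonneg_left ?_ hK)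
    calc (1 + ‖σ‖) ^ (1 - ε) ≤ (1 + ‖σ‖) ^ (1 : ℝ) :=
          Real.rpow_le_rpow_of_exponent_le (by linarith [norm_nonneg σ]) (by linarith)
      _ = 1 + ‖σ‖ := Real.rpow_one _
  obtain ⟨F, hF⟩ : ∃ F : ℂ → ℂ, F = fun σ => σ + δ * PE A μ σ := ⟨_, rfl⟩
  have hFs : ∀ σ, F σ = σ + δ * PE A μ σ := fun σ => by rw [hF]
  -- lower bound
  have hlow : ∀ σ : ℂ, 0 ≤ σ.im → R ≤ ‖σ‖ → 3 / 4 * ‖σ‖ ≤ ‖F σ‖ := by
    intro σ h1 h2
    have h3 := hB1 σ h1 h2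
    have h4 : ‖σ‖ ≤ ‖F σ‖ + ‖δ * PE A μ σ‖ := by
      have : σ = F σ - δ * PE A μ σ := by rw [hFs]; ring
      calc ‖σ‖ = ‖F σ - δ * PE A μ σ‖ := by rw [← this]
        _ ≤ _ := norm_sub_le _ _
    linarith
  have hBc : ContinuousOn (fun σ : ℂ => PE A μ σ) {σ | 0 ≤ σ.im} :=
    (PE_cont hA).comp (f := fun σ : ℂ => ((μ, σ) : ℂ × ℂ)) (by fun_prop) fun σ h => h
  have hFc : ContinuousOn F {σ | 0 ≤ σ.im} := by
    rw [hF]
    exact continuousOn_id.add (continuousOn_const.mul hBc)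
  have hFd : DifferentiableOn ℂ F {σ | 0 < σ.im} := by
    rw [hF]
    exact differentiableOn_id.add ((PE_hol hA hz μ).const_mul δ)
  have hH : IsOpen {σ : ℂ | 0 < σ.im} := isOpen_lt continuous_const Complex.continuous_im
  have hH' : IsClosed {σ : ℂ | 0 ≤ σ.im} := isClosed_le continuous_const Complex.continuous_im
  have hUo : IsOpen (F '' {σ | 0 < σ.im}) := by
    rcases (hFd.analyticOnNhd hH).is_constant_or_isOpen (convex_halfSpace_im_gt 0).isPreconnected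
      with ⟨w, hw⟩ | h
    · exfalso
      have hw0 := norm_nonneg w
      have hY : 0 < R + 2 * ‖w‖ := by linarith
      have h1 : (Complex.I * ((R + 2 * ‖w‖ : ℝ) : ℂ)).im = R + 2 * ‖w‖ := by simp
      have h2 : ‖Complex.I * ((R + 2 * ‖w‖ : ℝ) : ℂ)‖ = R + 2 * ‖w‖ := by
        rw [norm_mul, Complex.norm_I, one_mul, Complex.norm_real, Real.norm_of_nonneg hY.le]
      have h3 := hlow (Complex.I * ((R + 2 * ‖w‖ : ℝ) : ℂ)) (by rw [h1]; exact hY.le)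
        (by rw [h2]; linarith)
      rw [hw _ (by
        show 0 < (Complex.I * ((R + 2 * ‖w‖ : ℝ) : ℂ)).im
        rw [h1]; exact hY), h2] at h3
      linarith
    · exact h _ subset_rfl hH
  obtain ⟨-, hpre, hsub, ⟨Y₀, hY₀⟩, -, -⟩ := Lo_spec hA μ δ
  have hcl : closure (F '' {σ | 0 < σ.im}) ∩ Lo A μ δ ⊆ F '' {σ | 0 < σ.im} := by
    rintro z ⟨hz1, hz2⟩
    obtain ⟨M, hM⟩ : ∃ M, M = R + 2 * (‖z‖ + 1) := ⟨_, rfl⟩
    have hKc : IsCompact (Metric.closedBall (0 : ℂ) M ∩ {σ : ℂ | 0 ≤ σ.im}) :=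
      (isCompact_closedBall 0 M).inter_right hH'
    have hcl1 : IsClosed (F '' (Metric.closedBall (0 : ℂ) M ∩ {σ : ℂ | 0 ≤ σ.im})) :=
      (hKc.image_of_continuousOn (hFc.mono Set.inter_subset_right)).isClosed
    have h1 : z ∈ closure (Metric.ball z 1 ∩ F '' {σ | 0 < σ.im}) :=
      Metric.isOpen_ball.inter_closure ⟨Metric.mem_ball_self one_pos, hz1⟩
    have h2 : Metric.ball z 1 ∩ F '' {σ | 0 < σ.im} ⊆
        F '' (Metric.closedBall (0 : ℂ) M ∩ {σ : ℂ | 0 ≤ σ.im}) := by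
      rintro w ⟨hw, σ, hσ, rfl⟩
      have hσ' : 0 < σ.im := hσ
      refine ⟨σ, ⟨?_, hσ'.le⟩, rfl⟩
      rw [mem_closedBall_zero_iff, hM]
      have hz0 := norm_nonneg z
      by_contra hcon
      rw [not_le] at hcon
      have h3 := hlow σ hσ'.le (by linarith)
      have h4 : ‖F σ‖ ≤ ‖z‖ + 1 := by
        rw [Metric.mem_ball, dist_eq_norm] at hw
        have h5 : F σ = (F σ - z) + z := by ring
        calc ‖F σ‖ = ‖(F σ - z) + z‖ := by rw [← h5]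
          _ ≤ ‖F σ - z‖ + ‖z‖ := norm_add_le _ _
          _ ≤ ‖z‖ + 1 := by linarith
      linarith
    obtain ⟨σ, ⟨-, hσ2⟩, hσ⟩ := closure_minimal h2 hcl1 h1
    have hσ2' : 0 ≤ σ.im := hσ2
    rcases hσ2'.lt_or_eq with h | h
    · exact ⟨σ, h, hσ⟩
    · exfalso
      apply hsub hz2
      obtain ⟨e1, e2⟩ := kl4_real A μ σ h
      refine ⟨σ.re, ?_⟩
      show ((σ.re : ℝ) : ℂ) + δ * A μ σ.re = z
      rw [← hσ, hFs, e1, ← e2]
  intro hcon
  have hin : (Lo A μ δ ∩ F '' {σ | 0 < σ.im}).Nonempty := ⟨κ, hκ, τ, hτ, by rw [hFs, hcon]⟩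
  have hall := hpre.subset_of_closure_inter_subset hUo hin hcl
  obtain ⟨Y, hY⟩ : ∃ Y, Y = max Y₀ (K * (1 + R) + 1) := ⟨_, rfl⟩
  have hY1 : Y₀ ≤ Y := by rw [hY]; exact le_max_left _ _
  have hY2 : K * (1 + R) + 1 ≤ Y := by rw [hY]; exact le_max_right _ _
  have hKR : 0 ≤ K * (1 + R) := mul_nonneg hK (by linarith)
  obtain ⟨σ, hσ, hσe⟩ := hall (hY₀ Y hY1)
  have hσ' : 0 < σ.im := hσ
  rw [hFs] at hσe
  have he : δ * PE A μ σ = -(σ + Complex.I * Y) := by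
    linear_combination hσe
  have hn : ‖δ * PE A μ σ‖ = ‖σ + Complex.I * Y‖ := by rw [he, norm_neg]
  have him : (σ + Complex.I * Y).im = σ.im + Y := by simp
  have hre : (σ + Complex.I * Y).re = σ.re := by simp
  have hn1 : Y ≤ ‖σ + Complex.I * Y‖ := by
    have h1 := Complex.abs_im_le_norm (σ + Complex.I * Y)
    rw [him] at h1
    have h2 := le_abs_self (σ.im + Y)
    linarith
  have hn2 : ‖σ‖ ≤ ‖σ + Complex.I * Y‖ := by
    rw [← sq_le_sq₀ (norm_nonneg _) (norm_nonneg _), ← Complex.normSq_eq_norm_sq,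
      ← Complex.normSq_eq_norm_sq, Complex.normSq_apply, Complex.normSq_apply, him, hre]
    nlinarith
  rw [← hn] at hn1 hn2
  rcases le_or_gt R ‖σ‖ with h | h
  · have h1 := hB1 σ hσ'.le h
    linarith
  · have h1 := hB2 σ hσ'.le
    have h2 : K * (1 + ‖σ‖) ≤ K * (1 + R) := mul_le_mul_of_nonneg_left (by linarith) hK
    linarith

namespace Kd

variable (D : Kd G)

variable {D} (hD : Good D)

include hD

/-- module L4: equivariance -/
theorem vx_act {g : G} {k k' : M4} (hk : k ∈ D.FF) (hk' : k' ∈ D.FF) {T : Tr}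
    (h : Rel (D.R g) k k' T) (x : C2) (hx : x ∈ Upc) :
    ![T.m (x 0), T.t (x 0) (x 1)] ∈ Upc ∧ (x ∈ Up → ![T.m (x 0), T.t (x 0) (x 1)] ∈ Up) ∧
    D.R g *ᵥ D.vx k' x = T.d3 • D.vx k ![T.m (x 0), T.t (x 0) (x 1)] := by
  have hn : 0 < ‖T.d3‖ ^ 2 := by
    have := norm_pos_iff.2 T.h3
    positivity
  have him : (T.t (x 0) (x 1)).im = (x 1).im / ‖T.d3‖ ^ 2 := by
    unfold Tr.t
    rw [Complex.div_ofReal_im]
    simp
  have hx' : 0 ≤ (x 1).im := hx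
  refine ⟨?_, fun hx1 => ?_, ?_⟩
  · show 0 ≤ (T.t (x 0) (x 1)).im
    rw [him]
    positivity
  · show 0 < (T.t (x 0) (x 1)).im
    rw [him]
    exact div_pos hx1 hn
  · have h1 := PE_tr (D.ch hk) (D.ch hk') (D.rel_cmp hk hk' h).1 (x 0) (x 1) hx'
    have h2 := h.act (D.P k' x) (x 0) (x 1)
    unfold Kd.vx
    rw [h2]
    show _ = T.d3 • (k *ᵥ XX (D.P k ![T.m (x 0), T.t (x 0) (x 1)]) (T.m (x 0)) (T.t (x 0) (x 1)))
    have h3 : D.P k ![T.m (x 0), T.t (x 0) (x 1)] = T.κ * (D.P k' x + T.dq (x 0)) := h1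
    rw [h3]

/-- module L4 -/
theorem hf_vx {k : M4} (hk : k ∈ D.FF) (x : C2) : hf (D.vx k x) (D.vx k x) = -2 * ((x 1).im : ℂ) := by
  unfold Kd.vx
  rw [hk.1.2, fc_XX]
  have h1 : x 1 - star (x 1) = (2 * (x 1).im : ℝ) * Complex.I := Complex.sub_conj (x 1)
  rw [h1]
  push_cast
  linear_combination 2 * ((x 1).im : ℂ) * Complex.I_mul_I

/-- module L4: the surface does not meet the hyperplanes of the limit set -/
theorem vx_tv {k : M4} (hk : k ∈ D.FF) {x : C2} (hx : x ∈ Up) {θ : Eb} (hθ : θ ∈ Sph) :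
    hf (D.vx k x) (D.xi θ) ≠ 0 := by
  intro h0
  have hx' : 0 < (x 1).im := hx
  by_cases ht : θ = D.t0 k
  · obtain ⟨-, l, hl, he⟩ := D.t0_spec hk
    have h1 : hf (D.vx k x) (k *ᵥ e1) = 0 := by
      rw [he, F0.hf_smul_right, ← ht, h0, mul_zero]
    unfold Kd.vx at h1
    rw [hk.1.2, fc_e1] at h1
    have h2 : XX (D.P k x) (x 0) (x 1) 3 = 1 := rfl
    rw [h2, mul_one, neg_eq_zero] at h1
    exact Complex.I_ne_zero h1
  · obtain ⟨μb, tb, he⟩ := D.th_surj hk hθ ht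
    obtain ⟨-, -, l, hl, hA⟩ := D.A_spec hk μb tb
    have h1 : hf (D.vx k x) (k *ᵥ XX (D.A k μb tb) μb tb) = 0 := by
      rw [hA, F0.hf_smul_right, he, h0, mul_zero]
    unfold Kd.vx at h1
    rw [hk.1.2, fc_XX] at h1
    have h2 := (mul_eq_zero.1 h1).resolve_left Complex.I_ne_zero
    have htb : star ((tb : ℝ) : ℂ) = ((tb : ℝ) : ℂ) := Complex.conj_ofReal tb
    rw [htb] at h2
    by_cases hμ : x 0 = μb
    · rw [hμ, sub_self, sub_self, mul_zero, mul_zero, sub_zero, sub_zero] at h2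
      have h3 := congrArg Complex.im h2
      rw [Complex.sub_im, Complex.ofReal_im, sub_zero, Complex.zero_im] at h3
      exact hx'.ne' h3
    · refine kl4_core (D.ch hk) (hD.cz k hk) (x 0) (star μb - star (x 0))
        (kb (D.A k) μb tb (x 0)) (hD.lo k hk μb tb (x 0) hμ) (x 1) hx' ?_
      have h3 : D.P k x = PE (D.A k) (x 0) (x 1) := rfl
      rw [h3] at h2
      unfold kb
      rw [star_sub, star_star, star_star]
      linear_combination h2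

end Kd

end Pool.Agent.MPd01a95.KT
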