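import Mathlib
import Pool.Agent.Lib.MP_d01a95_gt_K.KDefs2
import Pool.Agent.Lib.MP_d01a95_gt_K.KA1
import Pool.Agent.Lib.MP_d01a95_gt_K.KA2
import Pool.Agent.Lib.MP_d01a95_gt_K.KA4
import Pool.Agent.Lib.MP_d01a95_gt_K.KF0
import Pool.Agent.Lib.MP_d01a95_gt_K.KF6
import Pool.Agent.Lib.MP_d01a95_gt_K.KH1
import Pool.Agent.Lib.MP_d01a95_gt_K.KH2
import Pool.Agent.Lib.MP_d01a95_gt_K.KH3
import Pool.Agent.Lib.MP_d01a95_gt_K.KH4
import Pool.Agent.Lib.MP_d01a95_gt_K.KA3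
import Pool.Agent.Lib.MP_d01a95_gt_K.KA5
import Pool.Agent.Lib.MP_d01a95_gt_K.KJ1
import Pool.Agent.Lib.MP_d01a95_gt_K.KK3
import Pool.Agent.Lib.MP_d01a95_gt_K.KK7
import Pool.Agent.Lib.MP_d01a95_gt_K.KL4

set_option autoImplicit false
set_option linter.all false

open Matrix Filter Topology MeasureTheory
open scoped ContDiff

namespace Pool.Agent.MPd01a95.KT

open GU

variable {G : Type} [Group G]

namespace Kd

/-! ### auxiliary statements -/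

theorem kl5_wd_self (x : V4) : wd x x = 0 := by
  refine le_antisymm (F0.wd_le_of le_rfl fun i j => ?_) (F0.wd_nonneg _ _)
  rw [mul_comm (x j) (x i), sub_self, norm_zero]

theorem kl5_kp_nonneg (z w : Eb) : 0 ≤ kp z w := norm_nonneg _

theorem kl5_sph_cb {θ : Eb} (h : θ ∈ Sph) : θ ∈ Cb := Metric.sphere_subset_closedBall h

theorem kl5_norm_le {x : C2} {r : ℝ} (h0 : ‖x 0‖ ≤ r) (h1 : ‖x 1‖ ≤ r) : ‖x‖ ≤ r := by
  refine (pi_norm_le_iff_of_nonneg ((norm_nonneg _).trans h0)).mpr fun i => ?_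
  fin_cases i
  · exact h0
  · exact h1

theorem kl5_norm_tau {z : ℂ} {r : ℝ} (h1 : |z.re - z.im| ≤ r) (h2 : |z.re + z.im| ≤ r) :
    ‖z‖ ≤ 2 * r := by
  have h3 := Complex.norm_le_abs_re_add_abs_im z
  rw [abs_le] at h1 h2
  have h4 : |z.re| ≤ r := abs_le.mpr ⟨by linarith, by linarith⟩
  have h5 : |z.im| ≤ r := abs_le.mpr ⟨by linarith, by linarith⟩
  linarith

theorem kl5_t_real (T : Tr) (μ : ℂ) (t : ℝ) : T.t μ (t : ℂ) = ((T.tr μ t : ℝ) : ℂ) := by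
  simp only [Tr.t, Tr.tr]
  push_cast
  ring

theorem kl5_t_re (T : Tr) (μ τ : ℂ) : (T.t μ τ).re = (τ.re + T.q μ) / ‖T.d3‖ ^ 2 := by
  simp only [Tr.t]
  rw [Complex.div_ofReal_re, Complex.add_re, Complex.ofReal_re]

theorem kl5_t_im (T : Tr) (μ τ : ℂ) : (T.t μ τ).im = τ.im / ‖T.d3‖ ^ 2 := by
  simp only [Tr.t]
  rw [Complex.div_ofReal_im, Complex.add_im, Complex.ofReal_im, add_zero]

theorem kl5_pos3 (T : Tr) : 0 < ‖T.d3‖ ^ 2 := by
  have := norm_pos_iff.mpr T.h3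
  positivity

theorem kl5_sub (T : Tr) (μ τ : ℂ) :
    (T.t μ τ).re - (T.t μ τ).im = T.tr μ (τ.re - τ.im) := by
  rw [kl5_t_re, kl5_t_im, Tr.tr]
  ring

theorem kl5_add (T : Tr) (μ τ : ℂ) :
    (T.t μ τ).re + (T.t μ τ).im = T.tr μ (τ.re + τ.im) := by
  rw [kl5_t_re, kl5_t_im, Tr.tr]
  ring

/-- bounded transitions preserve bounded sets -/
theorem kl5_bdd (T : Tr) {C r : ℝ} (hC : 0 ≤ C) (hr : 0 ≤ r) (h2 : ‖T.d2‖ ≤ C)
    (h3 : ‖T.d3‖⁻¹ ≤ C) (hβ : ‖T.β‖ ≤ C) (ha : |T.a| ≤ C) (hb : ‖T.b‖ ≤ C) (he : |T.e| ≤ C)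
    {μ τ : ℂ} (hμ : ‖μ‖ ≤ r) (hτ : ‖τ‖ ≤ r) :
    ‖T.m μ‖ ≤ C * C * r + C + (r + (C * r ^ 2 + 2 * (C * r) + C)) * (C * C) ∧
    ‖T.t μ τ‖ ≤ C * C * r + C + (r + (C * r ^ 2 + 2 * (C * r) + C)) * (C * C) := by
  have i3 : 0 ≤ ‖T.d3‖⁻¹ := by positivity
  have e1 : ‖T.m μ‖ ≤ C * C * r + C := by
    unfold Tr.m
    refine (norm_add_le _ _).trans (add_le_add ?_ hβ)
    rw [norm_mul, norm_div, div_eq_mul_inv]
    exact mul_le_mul (mul_le_mul h2 h3 i3 hC) hμ (norm_nonneg _) (by positivity)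
  have e2 : |T.q μ| ≤ C * r ^ 2 + 2 * (C * r) + C := by
    unfold Tr.q
    refine (abs_add_le _ _).trans (add_le_add ((abs_add_le _ _).trans (add_le_add ?_ ?_)) he)
    · rw [abs_mul, abs_of_nonneg (by positivity : (0 : ℝ) ≤ ‖μ‖ ^ 2)]
      exact mul_le_mul ha (pow_le_pow_left₀ (norm_nonneg _) hμ 2) (by positivity) hC
    · rw [abs_mul, abs_of_pos (by norm_num : (0 : ℝ) < 2)]
      have := Complex.abs_re_le_norm (T.b * star μ)
      rw [norm_mul, norm_star] at this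
      have h5 := mul_le_mul hb hμ (norm_nonneg _) hC
      linarith
  have e3 : ‖T.t μ τ‖ ≤ (r + (C * r ^ 2 + 2 * (C * r) + C)) * (C * C) := by
    unfold Tr.t
    rw [norm_div, Complex.norm_real, Real.norm_of_nonneg (kl5_pos3 T).le, div_eq_mul_inv]
    refine mul_le_mul ((norm_add_le _ _).trans (add_le_add hτ ?_)) ?_ (by positivity)
      (by positivity)
    · rw [Complex.norm_real]
      exact e2
    · rw [← inv_pow, sq]
      exact mul_le_mul h3 h3 i3 hC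
  have e4 : 0 ≤ (r + (C * r ^ 2 + 2 * (C * r) + C)) * (C * C) := by positivity
  have e5 : 0 ≤ C * C * r + C := by positivity
  constructor <;> linarith

variable (D : Kd G)

/-- convergence of the limit map -/
theorem kl5_xi_tendsto {θ : ℕ → Eb} {θ₀ : Eb} (hθ : ∀ n, θ n ∈ Sph) (h0 : θ₀ ∈ Sph)
    (h : Tendsto θ atTop (𝓝 θ₀)) :
    Tendsto (fun n => wd (D.xi (θ n)) (D.xi θ₀)) atTop (𝓝 0) := by
  rw [Metric.tendsto_atTop]
  intro η hη
  obtain ⟨δ, hδ, hd⟩ := D.xcont θ₀ h0 (η / 2) (by positivity)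
  obtain ⟨N, hN⟩ := (Metric.tendsto_atTop.mp h) δ hδ
  refine ⟨N, fun n hn => ?_⟩
  obtain ⟨l, hl, hl2⟩ := hd (θ n) (hθ n) (by rw [← dist_eq_norm]; exact hN n hn)
  rw [Real.dist_eq, sub_zero, abs_of_nonneg (F0.wd_nonneg _ _)]
  have e1 : wd (D.xi (θ n)) (D.xi θ₀) = wd (l • D.xi (θ n)) (D.xi θ₀) := by
    rw [F0.wd_smul, hl, one_mul]
  have e2 : l • D.xi (θ n) = (l • D.xi (θ n) - D.xi θ₀) + D.xi θ₀ := by abel
  rw [e1, e2]
  refine (F0.wd_add_left _ _ _).trans_lt ?_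
  rw [kl5_wd_self, add_zero]
  refine (wd_le _ _).trans_lt ?_
  rw [D.xnorm θ₀ h0]
  linarith

/-- points of the boundary of the surface -/
theorem kl5_bd {k : M4} (x : C2) (hx : (x 1).im = 0) :
    D.vx k x = k *ᵥ XX (D.A k (x 0) (x 1).re) (x 0) (((x 1).re : ℝ) : ℂ) := by
  have e : (x 1) = (((x 1).re : ℝ) : ℂ) := Complex.ext rfl (by rw [Complex.ofReal_im]; exact hx)
  unfold vx P PE
  rw [if_neg (by rw [hx]; exact lt_irrefl _), ← e]

/-- unbounded sequences of the real chart tend to the point at infinity -/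
theorem kl5_far {k : M4} (hk : k ∈ D.FF) {μ : ℕ → ℂ} {t : ℕ → ℝ}
    (h : ∀ r : ℝ, ∀ᶠ n in atTop, ¬ (‖μ n‖ ≤ r ∧ |t n| ≤ r)) :
    Tendsto (fun n => kp (D.th k (μ n) (t n)) (D.t0 k)) atTop (𝓝 0) := by
  rw [Metric.tendsto_atTop']
  intro a ha
  obtain ⟨r, hr⟩ := D.far_box a ha
  obtain ⟨N, hN⟩ := eventually_atTop.mp (h r)
  refine ⟨N, fun n hn => ?_⟩
  rw [Real.dist_eq, sub_zero, abs_of_nonneg (kl5_kp_nonneg _ _)]
  by_contra hlt
  rw [not_lt] at hlt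
  exact hN n hn.le (hr k hk (μ n) (t n) hlt)

variable {D} (hD : Good D)

/-- convergence of points of the sphere from the kernel -/
theorem kl5_of_kp {θ : ℕ → Eb} {θ₀ : Eb} (hθ : ∀ n, θ n ∈ Sph) (h0 : θ₀ ∈ Sph)
    (h : Tendsto (fun n => kp (θ n) θ₀) atTop (𝓝 0)) : Tendsto θ atTop (𝓝 θ₀) := by
  rw [tendsto_iff_norm_sub_tendsto_zero]
  have h1 : Tendsto (fun n => ‖θ n - θ₀‖ ^ 2) atTop (𝓝 0) := by
    refine squeeze_zero (fun n => by positivity)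
      (fun n => kp_sq (kl5_sph_cb (hθ n)) (kl5_sph_cb h0)) ?_
    simpa using h.const_mul 2
  have h2 := h1.sqrt
  simpa using h2

/-- the case of the boundary -/
theorem kl5_case_bd {k : M4} (hk : k ∈ D.FF) (u : ℕ → C2) (hu : ∀ n, (u n 1).im = 0)
    (h : Tendsto (fun n => ‖u n‖) atTop atTop) :
    Tendsto (fun n => wd (D.vx k (u n)) (k *ᵥ e1) / ‖D.vx k (u n)‖) atTop (𝓝 0) := by
  obtain ⟨h0, l0, hl0, he1⟩ := D.t0_spec hk
  have hfar := D.kl5_far hk (μ := fun n => u n 0) (t := fun n => (u n 1).re) fun r => by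
    filter_upwards [h.eventually_gt_atTop r] with n hn hc
    refine absurd (kl5_norm_le hc.1 ?_) (not_le.mpr hn)
    have e : u n 1 = (((u n 1).re : ℝ) : ℂ) :=
      Complex.ext rfl (by rw [Complex.ofReal_im]; exact hu n)
    rw [e, Complex.norm_real]
    exact hc.2
  have hS : ∀ n, D.th k (u n 0) (u n 1).re ∈ Sph := fun n => (D.A_spec hk _ _).1
  have h1 := D.kl5_xi_tendsto hS h0 (kl5_of_kp hS h0 hfar)
  have h2 : ∀ n, wd (D.vx k (u n)) (k *ᵥ e1) / ‖D.vx k (u n)‖ =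
      ‖l0‖ * wd (D.xi (D.th k (u n 0) (u n 1).re)) (D.xi (D.t0 k)) := fun n => by
    obtain ⟨-, -, l, hl, hlx⟩ := D.A_spec hk (u n 0) (u n 1).re
    rw [D.kl5_bd (u n) (hu n), hlx, he1, F0.wd_smul, F0.wd_smul', norm_smul, D.xnorm _ (hS n)]
    have := norm_ne_zero_iff.mpr hl
    field_simp
  simp only [h2]
  simpa using h1.const_mul ‖l0‖

/-- renormalisation of a point of the surface -/
theorem kl5_ren (D : Kd G) : ∃ a r : ℝ, 0 < a ∧ 0 ≤ r ∧ ∀ k ∈ D.FF, ∀ x ∈ Up, ∃ g, ∃ k' ∈ D.FF,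
    ∃ T : Tr, ∃ x' ∈ Up, Rel (D.R g) k k' T ∧ T.m (x' 0) = x 0 ∧ T.t (x' 0) (x' 1) = x 1 ∧
      ‖x' 0‖ ≤ r ∧ ‖x' 1‖ ≤ r ∧
      a ≤ kp (D.th k' (x' 0) ((x' 1).re - (x' 1).im)) (D.th k' (x' 0) ((x' 1).re + (x' 1).im)) ∧
      kp (zz (D.σ g)) (D.t0 k) ^ 2 ≤ 4 * (2 / (a * c (D.σ g) ^ 2) +
        2 * min (kp (D.th k (x 0) ((x 1).re - (x 1).im)) (D.t0 k))
          (kp (D.th k (x 0) ((x 1).re + (x 1).im)) (D.t0 k))) := by
  obtain ⟨a, ha, htr⟩ := triple D.lat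
  obtain ⟨r, hr⟩ := D.far_box a ha
  refine ⟨a, 2 * |r|, ha, by positivity, fun k hk x hx => ?_⟩
  obtain ⟨s1, n1, -⟩ := D.A_spec hk (x 0) ((x 1).re - (x 1).im)
  obtain ⟨s2, n2, -⟩ := D.A_spec hk (x 0) ((x 1).re + (x 1).im)
  have s3 := (D.t0_spec hk).1
  have hx1 : 0 < (x 1).im := hx
  have n3 : D.th k (x 0) ((x 1).re - (x 1).im) ≠ D.th k (x 0) ((x 1).re + (x 1).im) := fun e => by
    have := (D.th_inj hk _ _ _ _ e).2
    linarith
  obtain ⟨g, k12, k13, k23⟩ := htr _ s1 _ s2 _ s3 n3 n1 n2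
  obtain ⟨k', hk', T, hT⟩ := D.exists_tr g hk
  obtain ⟨-, ht0, hth⟩ := D.rel_cmp hk hk' hT
  obtain ⟨T', hT', -, -, hm, htt⟩ := D.rel_inv hT
  have hinv : ∀ {z : Eb}, z ∈ Cb → ab (D.σ g)⁻¹ (ab (D.σ g) z) = z := fun {z} hz => by
    rw [← ab_mul _ _ hz, inv_mul_cancel, ab_one]
  have s3' := (D.t0_spec hk').1
  have b3 : ab (D.σ g)⁻¹ (D.t0 k) = D.t0 k' := by
    rw [ht0, hinv (kl5_sph_cb s3')]
  have hb : ∀ t : ℝ, ab (D.σ g)⁻¹ (D.th k (x 0) t) = D.th k' (T'.m (x 0)) (T'.tr (x 0) t) :=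
    fun t => by
      have e1 := hth (T'.m (x 0)) (T'.tr (x 0) t)
      have e2 : T.tr (T'.m (x 0)) (T'.tr (x 0) t) = t := by
        have e3 := (htt (x 0) (t : ℂ)).2
        rw [kl5_t_real, kl5_t_real] at e3
        exact_mod_cast e3
      rw [(hm (x 0)).2, e2] at e1
      rw [e1, hinv (kl5_sph_cb (D.A_spec hk' _ _).1)]
  have hC := c_ge_one (D.σ g)
  have hac : 0 < a * c (D.σ g) ^ 2 := by positivity
  have key : ∀ b ∈ Sph, a ≤ kp (ab (D.σ g)⁻¹ b) (ab (D.σ g)⁻¹ (D.t0 k)) →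
      kp (zz (D.σ g)) (D.t0 k) ^ 2 ≤ 4 * (2 / (a * c (D.σ g) ^ 2) + 2 * kp b (D.t0 k)) :=
    fun b hbs hab => by
      have e1 := kp_act (D.σ g) (kl5_sph_cb hbs) (kl5_sph_cb s3)
      have e2 := kp_tri (zz_mem (D.σ g)) (kl5_sph_cb s3) (kl5_sph_cb hbs)
      have e3 := kp_le_two (kl5_sph_cb hbs) (kl5_sph_cb s3)
      have e4 := kp_le_two (zz_mem (D.σ g)) (kl5_sph_cb s3)
      have p1 := kl5_kp_nonneg b (zz (D.σ g))
      have p2 := kl5_kp_nonneg (zz (D.σ g)) (D.t0 k)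
      have p3 := kl5_kp_nonneg b (D.t0 k)
      rw [kp_symm (D.t0 k) (zz (D.σ g))] at e1
      have e5 : kp b (zz (D.σ g)) * kp (zz (D.σ g)) (D.t0 k) ≤ 2 / (a * c (D.σ g) ^ 2) := by
        rw [le_div_iff₀ hac]
        have : 0 ≤ c (D.σ g) ^ 2 * kp b (zz (D.σ g)) * kp (zz (D.σ g)) (D.t0 k) := by positivity
        nlinarith [mul_le_mul_of_nonneg_right hab this]
      have e6 : kp (zz (D.σ g)) (D.t0 k) ^ 2 ≤
          4 * (kp b (zz (D.σ g)) + kp b (D.t0 k)) * kp (zz (D.σ g)) (D.t0 k) := by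
        rw [sq]
        exact mul_le_mul_of_nonneg_right e2 p2
      nlinarith [mul_le_mul_of_nonneg_left e4 p3]
  have q1 := hb ((x 1).re - (x 1).im)
  have q2 := hb ((x 1).re + (x 1).im)
  rw [← kl5_sub] at q1
  rw [← kl5_add] at q2
  have f1 := hr k' hk' (T'.m (x 0)) ((T'.t (x 0) (x 1)).re - (T'.t (x 0) (x 1)).im)
    (by rw [← q1, ← b3]; exact k13)
  have f2 := hr k' hk' (T'.m (x 0)) ((T'.t (x 0) (x 1)).re + (T'.t (x 0) (x 1)).im)
    (by rw [← q2, ← b3]; exact k23)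
  refine ⟨g, k', hk', T, ![T'.m (x 0), T'.t (x 0) (x 1)], ?_, hT, (hm (x 0)).2,
    (htt (x 0) (x 1)).2, ?_, ?_, ?_, ?_⟩
  · show 0 < (T'.t (x 0) (x 1)).im
    rw [kl5_t_im]
    exact div_pos hx1 (kl5_pos3 T')
  · show ‖T'.m (x 0)‖ ≤ 2 * |r|
    have := le_abs_self r
    have := abs_nonneg r
    linarith [f1.1]
  · show ‖T'.t (x 0) (x 1)‖ ≤ 2 * |r|
    exact (kl5_norm_tau f1.2 f2.2).trans (mul_le_mul_of_nonneg_left (le_abs_self r) (by norm_num))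
  · show a ≤ kp (D.th k' (T'.m (x 0)) ((T'.t (x 0) (x 1)).re - (T'.t (x 0) (x 1)).im))
      (D.th k' (T'.m (x 0)) ((T'.t (x 0) (x 1)).re + (T'.t (x 0) (x 1)).im))
    rw [← q1, ← q2]
    exact k12
  · rcases min_choice (kp (D.th k (x 0) ((x 1).re - (x 1).im)) (D.t0 k))
      (kp (D.th k (x 0) ((x 1).re + (x 1).im)) (D.t0 k)) with h | h
    · rw [h]
      exact key _ s1 k13
    · rw [h]
      exact key _ s2 k23

/-- the elements of the renormalisation tend to infinity -/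
theorem kl5_c_inf (D : Kd G) {k : M4} (hk : k ∈ D.FF) {r : ℝ} (hr : 0 ≤ r) {u x' : ℕ → C2}
    {g : ℕ → G} {k' : ℕ → M4} {T : ℕ → Tr} (hk' : ∀ n, k' n ∈ D.FF)
    (hrel : ∀ n, Rel (D.R (g n)) k (k' n) (T n)) (hm : ∀ n, (T n).m (x' n 0) = u n 0)
    (ht : ∀ n, (T n).t (x' n 0) (x' n 1) = u n 1) (b0 : ∀ n, ‖x' n 0‖ ≤ r)
    (b1 : ∀ n, ‖x' n 1‖ ≤ r) (h : Tendsto (fun n => ‖u n‖) atTop atTop) :
    Tendsto (fun n => c (D.σ (g n))) atTop atTop := by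
  rw [tendsto_atTop]
  intro M
  by_contra hne
  rw [Filter.not_eventually] at hne
  obtain ⟨C, hC⟩ := D.rel_bdd (D.lat.finite_c M).toFinset
  set B : ℝ := |C| * |C| * r + |C| + (r + (|C| * r ^ 2 + 2 * (|C| * r) + |C|)) * (|C| * |C|) with hB
  have h1 := h.eventually_gt_atTop B
  obtain ⟨n, hn1, hn2⟩ := (hne.and_eventually h1).exists
  rw [not_le] at hn1
  have hmem : g n ∈ (D.lat.finite_c M).toFinset := by
    rw [Set.Finite.mem_toFinset]
    exact hn1.le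
  obtain ⟨a1, a2, a3, a4, a5, a6, a7, a8⟩ := hC (g n) hmem k hk (k' n) (hk' n) (T n) (hrel n)
  have hle := le_abs_self C
  obtain ⟨c1, c2⟩ := kl5_bdd (T n) (abs_nonneg C) hr (a1.trans hle) (a4.trans hle) (a5.trans hle)
    (a6.trans hle) (a7.trans hle) (a8.trans hle) (b0 n) (b1 n)
  rw [hm n] at c1
  rw [ht n] at c2
  exact absurd (kl5_norm_le c1 c2) (not_le.mpr hn2)

theorem kl5_upc_closed : IsClosed Upc := by
  have : Continuous fun x : C2 => (x 1).im := Complex.continuous_im.comp (continuous_apply 1)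
  exact isClosed_le continuous_const this

theorem kl5_norm_tendsto {g : ℕ → GU (Fin 2)} (h : Tendsto (fun n => c (g n)) atTop atTop)
    {θ : Eb} (hθ : Tendsto (fun n => zz (g n)) atTop (𝓝 θ)) : θ ∈ Sph := by
  have h1 : Tendsto (fun n => ‖zz (g n)‖ ^ 2) atTop (𝓝 (‖θ‖ ^ 2)) := (hθ.norm).pow 2
  have h2 : Tendsto (fun n => ‖zz (g n)‖ ^ 2) atTop (𝓝 (1 - 0)) := by
    simp only [zz_norm]
    exact tendsto_const_nhds.sub (tendsto_inv_atTop_zero.comp (tendsto_pow_atTop two_ne_zero |>.comp h))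
  have h3 := tendsto_nhds_unique h1 h2
  rw [sub_zero] at h3
  have h4 : ‖θ‖ = 1 := by
    have := norm_nonneg θ
    nlinarith
  exact mem_sphere_zero_iff_norm.mpr h4

theorem kl5_vx_cont (D : Kd G) : ContinuousOn (fun p : M4 × C2 => D.vx p.1 p.2)
    (D.FF ×ˢ Upc) := by
  have h := D.P_cont
  have h0 : Continuous fun p : M4 × C2 => p.2 0 := (continuous_apply 0).comp continuous_snd
  have h1 : Continuous fun p : M4 × C2 => p.2 1 := (continuous_apply 1).comp continuous_snd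
  have hX : ∀ j, ContinuousOn (fun p : M4 × C2 => XX (D.P p.1 p.2) (p.2 0) (p.2 1) j)
      (D.FF ×ˢ Upc) := by
    intro j
    fin_cases j
    · exact h
    · exact h1.continuousOn.sub (h0.star.continuousOn.mul h)
    · exact h0.continuousOn
    · exact continuousOn_const
  refine continuousOn_pi.mpr fun i => ?_
  simp only [vx, Matrix.mulVec, dotProduct, Fin.sum_univ_four]
  have hk : ∀ j, ContinuousOn (fun p : M4 × C2 => p.1 i j) (D.FF ×ˢ Upc) := fun j =>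
    (continuous_fst.matrix_elem i j).continuousOn
  exact ((((hk 0).mul (hX 0)).add ((hk 1).mul (hX 1))).add ((hk 2).mul (hX 2))).add
    ((hk 3).mul (hX 3))

/-- the case of the interior -/
theorem kl5_case_in (hD : Good D) {k : M4} (hk : k ∈ D.FF) (u : ℕ → C2) (hu : ∀ n, u n ∈ Up)
    (h : Tendsto (fun n => ‖u n‖) atTop atTop) : ∃ φ : ℕ → ℕ,
    Tendsto (fun n => wd (D.vx k (u (φ n))) (k *ᵥ e1) / ‖D.vx k (u (φ n))‖) atTop (𝓝 0) := by
  obtain ⟨a, r, ha, hr, hren⟩ := kl5_ren D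
  choose g k' hk' T x' hx' hrel hm ht b0 b1 hsep hkp using fun n => hren k hk (u n) (hu n)
  have hc := kl5_c_inf D hk hr hk' hrel hm ht b0 b1 h
  have hCb : IsCompact Cb := isCompact_closedBall 0 1
  have hUK : IsCompact (Upc ∩ Metric.closedBall (0 : C2) r) :=
    (isCompact_closedBall 0 r).inter_left kl5_upc_closed
  haveI : FirstCountableTopology M4 :=
    inferInstanceAs (FirstCountableTopology (Fin 4 → Fin 4 → ℂ))
  have hK : IsCompact (D.FF ×ˢ ((Upc ∩ Metric.closedBall (0 : C2) r) ×ˢ (Cb ×ˢ Cb))) :=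
    D.ff_compact.prod (hUK.prod (hCb.prod hCb))
  obtain ⟨⟨k3, u3, θ1, θ2⟩, ⟨hk3, ⟨hu3, -⟩, hθ1, hθ2⟩, φ, hφ, hlim⟩ := hK.tendsto_subseq
    (x := fun n => (k' n, x' n, zz (D.σ (g n)), zz (D.σ (g n))⁻¹)) fun n => by
      refine ⟨hk' n, ⟨(le_of_lt (hx' n) : (0 : ℝ) ≤ (x' n 1).im), ?_⟩, zz_mem _, zz_mem _⟩
      rw [mem_closedBall_zero_iff]
      exact kl5_norm_le (b0 n) (b1 n)
  rw [nhds_prod_eq, nhds_prod_eq, nhds_prod_eq] at hlim
  have l1 : Tendsto (fun n => k' (φ n)) atTop (𝓝 k3) := tendsto_fst.comp hlim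
  have l2 : Tendsto (fun n => x' (φ n)) atTop (𝓝 u3) := tendsto_fst.comp (tendsto_snd.comp hlim)
  have l3 : Tendsto (fun n => zz (D.σ (g (φ n)))) atTop (𝓝 θ1) :=
    tendsto_fst.comp (tendsto_snd.comp (tendsto_snd.comp hlim))
  have l4 : Tendsto (fun n => zz (D.σ (g (φ n)))⁻¹) atTop (𝓝 θ2) :=
    tendsto_snd.comp (tendsto_snd.comp (tendsto_snd.comp hlim))
  have hcφ : Tendsto (fun n => c (D.σ (g (φ n)))) atTop atTop := hc.comp hφ.tendsto_atTop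
  have sθ1 : θ1 ∈ Sph := kl5_norm_tendsto hcφ l3
  have sθ2 : θ2 ∈ Sph := by
    refine kl5_norm_tendsto (g := fun n => (D.σ (g (φ n)))⁻¹) ?_ l4
    simpa only [c_inv] using hcφ
  -- the limit is an interior point
  have hu3' : u3 ∈ Up := by
    rcases (show (0 : ℝ) ≤ (u3 1).im from hu3).eq_or_lt with h0 | h0
    · exfalso
      have m1 : Tendsto (fun n => ((k' (φ n), x' (φ n) 0, (x' (φ n) 1).re - (x' (φ n) 1).im) :
          M4 × ℂ × ℝ)) atTop (𝓝[D.FF ×ˢ Set.univ] (k3, u3 0, (u3 1).re)) := by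
        refine tendsto_nhdsWithin_iff.mpr ⟨?_, Eventually.of_forall fun n =>
          ⟨hk' (φ n), Set.mem_univ _⟩⟩
        have q : Continuous fun x : C2 => (x 1).re - (x 1).im :=
          (Complex.continuous_re.comp (continuous_apply 1)).sub
            (Complex.continuous_im.comp (continuous_apply 1))
        have q2 := (q.tendsto u3).comp l2
        rw [← h0, sub_zero] at q2
        exact l1.prodMk_nhds ((((continuous_apply 0).tendsto u3).comp l2).prodMk_nhds q2)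
      have m2 : Tendsto (fun n => ((k' (φ n), x' (φ n) 0, (x' (φ n) 1).re + (x' (φ n) 1).im) :
          M4 × ℂ × ℝ)) atTop (𝓝[D.FF ×ˢ Set.univ] (k3, u3 0, (u3 1).re)) := by
        refine tendsto_nhdsWithin_iff.mpr ⟨?_, Eventually.of_forall fun n =>
          ⟨hk' (φ n), Set.mem_univ _⟩⟩
        have q : Continuous fun x : C2 => (x 1).re + (x 1).im :=
          (Complex.continuous_re.comp (continuous_apply 1)).add
            (Complex.continuous_im.comp (continuous_apply 1))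
        have q2 := (q.tendsto u3).comp l2
        rw [← h0, add_zero] at q2
        exact l1.prodMk_nhds ((((continuous_apply 0).tendsto u3).comp l2).prodMk_nhds q2)
      have hcont := D.th_cont (k3, u3 0, (u3 1).re) ⟨hk3, Set.mem_univ _⟩
      have n1 := hcont.tendsto.comp m1
      have n2 := hcont.tendsto.comp m2
      have n3 := (kp_cont.tendsto _).comp (n1.prodMk_nhds n2)
      have n4 := ge_of_tendsto' n3 fun n => hsep (φ n)
      dsimp only at n4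
      rw [kp_self (D.A_spec hk3 _ _).1] at n4
      linarith
    · exact h0
  -- the attracting point
  have s3 := (D.t0_spec hk).1
  have hmin : Tendsto (fun n => min (kp (D.th k (u n 0) ((u n 1).re - (u n 1).im)) (D.t0 k))
      (kp (D.th k (u n 0) ((u n 1).re + (u n 1).im)) (D.t0 k))) atTop (𝓝 0) := by
    rw [Metric.tendsto_atTop']
    intro δ hδ
    obtain ⟨ρ, hρ⟩ := D.far_box δ hδ
    obtain ⟨N, hN⟩ := eventually_atTop.mp (h.eventually_gt_atTop (2 * |ρ|))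
    refine ⟨N, fun n hn => ?_⟩
    rw [Real.dist_eq, sub_zero, abs_of_nonneg (le_min (kl5_kp_nonneg _ _) (kl5_kp_nonneg _ _))]
    by_contra hlt
    rw [not_lt, le_min_iff] at hlt
    obtain ⟨f0, f1⟩ := hρ k hk _ _ hlt.1
    obtain ⟨-, f2⟩ := hρ k hk _ _ hlt.2
    refine absurd (kl5_norm_le (r := 2 * |ρ|) ?_ ?_) (not_le.mpr (hN n hn.le))
    · have := le_abs_self ρ
      have := abs_nonneg ρ
      linarith
    · exact (kl5_norm_tau f1 f2).trans (mul_le_mul_of_nonneg_left (le_abs_self ρ) (by norm_num))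
  have hθ1e : θ1 = D.t0 k := by
    have e1 : Tendsto (fun n => kp (zz (D.σ (g n))) (D.t0 k) ^ 2) atTop (𝓝 0) := by
      refine squeeze_zero (fun n => by positivity) hkp ?_
      have e2 : Tendsto (fun n => 2 / (a * c (D.σ (g n)) ^ 2)) atTop (𝓝 0) :=
        tendsto_const_nhds.div_atTop
          (Tendsto.const_mul_atTop ha ((tendsto_pow_atTop two_ne_zero).comp hc))
      simpa using (e2.add (hmin.const_mul 2)).const_mul 4
    have e3 : Tendsto (fun n => kp (zz (D.σ (g (φ n)))) (D.t0 k) ^ 2) atTop (𝓝 0) :=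
      e1.comp hφ.tendsto_atTop
    have e4 : Tendsto (fun n => kp (zz (D.σ (g (φ n)))) (D.t0 k) ^ 2) atTop
        (𝓝 (kp θ1 (D.t0 k) ^ 2)) :=
      ((kp_cont.tendsto _).comp (l3.prodMk_nhds tendsto_const_nhds)).pow 2
    have e5 := tendsto_nhds_unique e4 e3
    by_contra hne
    have e6 := kp_pos hθ1 (kl5_sph_cb s3) hne
    have : 0 < kp θ1 (D.t0 k) ^ 2 := by positivity
    linarith
  -- the dynamics
  have hv : Tendsto (fun n => D.vx (k' (φ n)) (x' (φ n))) atTop (𝓝 (D.vx k3 u3)) := by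
    have hP := (kl5_vx_cont D (k3, u3) ⟨hk3, hu3⟩).tendsto.comp
      (tendsto_nhdsWithin_iff.mpr ⟨l1.prodMk_nhds l2, Eventually.of_forall fun n =>
        ⟨hk' (φ n), (le_of_lt (hx' (φ n)) : (0 : ℝ) ≤ (x' (φ n) 1).im)⟩⟩ :
        Tendsto (fun n => ((k' (φ n), x' (φ n)) : M4 × C2)) atTop (𝓝[D.FF ×ˢ Upc] (k3, u3)))
    exact hP
  obtain ⟨-, hdyn⟩ := D.dyn sθ1 sθ2 hcφ l3 l4 hv (vx_tv hD hk3 hu3' sθ2)
  obtain ⟨-, l0, hl0, he1⟩ := D.t0_spec hk
  refine ⟨φ, ?_⟩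
  have hfin : ∀ n, wd (D.vx k (u (φ n))) (k *ᵥ e1) / ‖D.vx k (u (φ n))‖ =
      ‖l0‖ * (wd (D.R (g (φ n)) *ᵥ D.vx (k' (φ n)) (x' (φ n))) (D.xi θ1) /
        ‖D.R (g (φ n)) *ᵥ D.vx (k' (φ n)) (x' (φ n))‖) := fun n => by
    obtain ⟨-, -, e⟩ := vx_act hD hk (hk' (φ n)) (hrel (φ n)) (x' (φ n))
      (le_of_lt (hx' (φ n)) : (0 : ℝ) ≤ (x' (φ n) 1).im)
    have e2 : (![(T (φ n)).m (x' (φ n) 0), (T (φ n)).t (x' (φ n) 0) (x' (φ n) 1)] : C2) =
        u (φ n) := by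
      rw [hm, ht]
      ext i
      fin_cases i <;> rfl
    rw [e, e2, he1, hθ1e, F0.wd_smul', F0.wd_smul, norm_smul]
    have := norm_ne_zero_iff.mpr (T (φ n)).h3
    rw [mul_div_mul_left _ _ this]
    ring
  simp only [hfin]
  simpa using hdyn.const_mul ‖l0‖

include hD

/-- module L5: behaviour at infinity -/
theorem vx_inf {k : M4} (hk : k ∈ D.FF) (u : ℕ → C2) (hu : ∀ n, u n ∈ Upc)
    (h : Tendsto (fun n => ‖u n‖) atTop atTop) :
    Tendsto (fun n => wd (D.vx k (u n)) (k *ᵥ e1) / ‖D.vx k (u n)‖) atTop (𝓝 0) := by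
  refine tendsto_of_subseq_tendsto fun ns hns => ?_
  have hv : Tendsto (fun n => ‖u (ns n)‖) atTop atTop := h.comp hns
  by_cases hf : ∃ᶠ n in atTop, (u (ns n) 1).im = 0
  · obtain ⟨φ, hφ, hφ2⟩ := Filter.extraction_of_frequently_atTop hf
    exact ⟨φ, kl5_case_bd hk (fun n => u (ns (φ n))) hφ2 (hv.comp hφ.tendsto_atTop)⟩
  · rw [Filter.not_frequently] at hf
    obtain ⟨N, hN⟩ := eventually_atTop.mp hf
    obtain ⟨φ, hφ⟩ := kl5_case_in hD hk (fun n => u (ns (n + N)))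
      (fun n => lt_of_le_of_ne (hu _) fun e => hN (n + N) (by omega) e.symm)
      (hv.comp (tendsto_add_atTop_nat N))
    exact ⟨fun n => φ n + N, hφ⟩

end Kd

end Pool.Agent.MPd01a95.KT
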