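import Mathlib
import Pool.Agent.Lib.MP_d01a95_gt_K.KDefs2
import Pool.Agent.Lib.MP_d01a95_gt_K.KA1
import Pool.Agent.Lib.MP_d01a95_gt_K.KA2
import Pool.Agent.Lib.MP_d01a95_gt_K.KA4
import Pool.Agent.Lib.MP_d01a95_gt_K.KF0
import Pool.Agent.Lib.MP_d01a95_gt_K.KF6
import Pool.Agent.Lib.MP_d01a95_gt_K.KH1
import Pool.Agent.Lib.MP_d01a95_gt_K.KH2
import Pool.Agent.Lib.MP_d01a95_gt_K.KH3
import Pool.Agent.Lib.MP_d01a95_gt_K.KH4
import Pool.Agent.Lib.MP_d01a95_gt_K.KK7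
import Pool.Agent.Lib.MP_d01a95_gt_K.KL1
import Pool.Agent.Lib.MP_d01a95_gt_K.KL2
import Pool.Agent.Lib.MP_d01a95_gt_K.KL4
import Pool.Agent.Lib.MP_d01a95_gt_K.KL5

/-!
# Project K, module M0: chart coordinates of a vector
-/

set_option autoImplicit false
set_option linter.all false

open Matrix Filter Topology MeasureTheory
open scoped ContDiff

namespace Pool.Agent.MPd01a95.KT

open GU

variable {G : Type} [Group G]

/-- the vector in the chart of the frame `k` -/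
noncomputable def M0z (k : M4) (v : V4) : V4 := kᴴ *ᵥ v

/-- chart coordinate `a` -/
noncomputable def M0a (k : M4) (v : V4) : ℂ := M0z k v 0 / M0z k v 3

/-- chart coordinate `μ` -/
noncomputable def M0m (k : M4) (v : V4) : ℂ := M0z k v 2 / M0z k v 3

/-- the coordinate `τ`, with a fixed number `m` instead of `μ` (holomorphic in `v`) -/
noncomputable def M0s (k : M4) (m : ℂ) (v : V4) : ℂ := (M0z k v 1 + star m * M0z k v 0) / M0z k v 3

/-- chart coordinate `τ` -/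
noncomputable def M0t (k : M4) (v : V4) : ℂ := M0s k (M0m k v) v

/-- module M0 -/
theorem M0z_left {k : M4} (hk : k ∈ KK) (v : V4) : M0z k (k *ᵥ v) = v := by
  rw [M0z, Matrix.mulVec_mulVec, hk.1, Matrix.one_mulVec]

/-- module M0 -/
theorem M0z_right {k : M4} (hk : k ∈ KK) (v : V4) : k *ᵥ M0z k v = v := by
  rw [M0z, Matrix.mulVec_mulVec, mul_eq_one_comm.1 hk.1, Matrix.one_mulVec]

/-- module M0 -/
theorem M0z_smul (k : M4) (l : ℂ) (v : V4) : M0z k (l • v) = l • M0z k v := by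
  rw [M0z, M0z, Matrix.mulVec_smul]

/-- module M0 -/
theorem M0z_cont (k : M4) : Continuous (M0z k) :=
  continuous_const.matrix_mulVec continuous_id

/-- module M0 -/
theorem M0_hf_yy {k : M4} (hk : k ∈ KK) (v : V4) (m : ℂ) :
    hf v (k *ᵥ yy m) = -Complex.I * (M0z k v 2 - m * M0z k v 3) := by
  have h : hf v (k *ᵥ yy m) = fc (M0z k v) (yy m) := by
    rw [← hk.2, M0z_right hk]
  rw [h]
  simp only [fc, yy, Matrix.cons_val_zero, Matrix.cons_val_one, Matrix.cons_val, star_neg,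
    star_star, star_one, star_zero]
  ring

/-- module M0 -/
theorem M0_hf_e1 {k : M4} (hk : k ∈ KK) (v : V4) :
    hf v (k *ᵥ e1) = -Complex.I * M0z k v 3 := by
  have h : hf v (k *ᵥ e1) = fc (M0z k v) e1 := by
    rw [← hk.2, M0z_right hk]
  rw [h, fc_e1]

/-- module M0: the coordinates do not depend on the scale -/
theorem M0_smul (k : M4) {l : ℂ} (hl : l ≠ 0) (v : V4) (m : ℂ) : M0a k (l • v) = M0a k v ∧
    M0m k (l • v) = M0m k v ∧ M0s k m (l • v) = M0s k m v ∧ M0t k (l • v) = M0t k v := by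
  have e : ∀ i, M0z k (l • v) i = l * M0z k v i := fun i => by rw [M0z_smul]; rfl
  have h1 : M0m k (l • v) = M0m k v := by
    rw [M0m, M0m, e, e, mul_div_mul_left _ _ hl]
  have h2 : ∀ m, M0s k m (l • v) = M0s k m v := fun m => by
    rw [M0s, M0s, e, e, e, ← mul_div_mul_left (M0z k v 1 + star m * M0z k v 0) (M0z k v 3) hl]
    ring
  refine ⟨?_, h1, h2 m, ?_⟩
  · rw [M0a, M0a, e, e, mul_div_mul_left _ _ hl]
  · rw [M0t, M0t, h1, h2]

/-- module M0: a vector is given by its coordinates -/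
theorem M0_rep {k : M4} (hk : k ∈ KK) {v : V4} (h : M0z k v 3 ≠ 0) :
    v = M0z k v 3 • (k *ᵥ XX (M0a k v) (M0m k v) (M0t k v)) := by
  have h1 : M0z k v = M0z k v 3 • XX (M0a k v) (M0m k v) (M0t k v) := by
    funext i
    fin_cases i
    · change M0z k v 0 = M0z k v 3 * (M0z k v 0 / M0z k v 3)
      field_simp
    · change M0z k v 1 = M0z k v 3 * (((M0z k v 1 + star (M0z k v 2 / M0z k v 3) * M0z k v 0) /
        M0z k v 3) - star (M0z k v 2 / M0z k v 3) * (M0z k v 0 / M0z k v 3))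
      generalize star (M0z k v 2 / M0z k v 3) = c
      field_simp
      ring
    · change M0z k v 2 = M0z k v 3 * (M0z k v 2 / M0z k v 3)
      field_simp
    · change M0z k v 3 = M0z k v 3 * 1
      ring
  calc v = k *ᵥ M0z k v := (M0z_right hk v).symm
    _ = k *ᵥ (M0z k v 3 • XX (M0a k v) (M0m k v) (M0t k v)) := by rw [← h1]
    _ = _ := by rw [Matrix.mulVec_smul]

/-- module M0: coordinates of a chart vector -/
theorem M0_XX {k : M4} (hk : k ∈ KK) (a μ τ : ℂ) : M0z k (k *ᵥ XX a μ τ) 3 = 1 ∧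
    M0a k (k *ᵥ XX a μ τ) = a ∧ M0m k (k *ᵥ XX a μ τ) = μ ∧ M0t k (k *ᵥ XX a μ τ) = τ := by
  have e := M0z_left hk (XX a μ τ)
  have x0 : XX a μ τ 0 = a := rfl
  have x1 : XX a μ τ 1 = τ - star μ * a := rfl
  have x2 : XX a μ τ 2 = μ := rfl
  have x3 : XX a μ τ 3 = 1 := rfl
  have hm : M0m k (k *ᵥ XX a μ τ) = μ := by rw [M0m, e, x2, x3, div_one]
  refine ⟨by rw [e, x3], by rw [M0a, e, x0, x3, div_one], hm, ?_⟩
  rw [M0t, hm, M0s, e, x0, x1, x3]
  ring

/-- module M0 -/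
theorem M0_self {k : M4} (hk : k ∈ KK) {v : V4} (h : M0z k v 3 ≠ 0) :
    hf v v = -2 * ((‖M0z k v 3‖ ^ 2 * (M0t k v).im : ℝ) : ℂ) := by
  have e := M0_rep hk h
  have h1 : hf v v = M0z k v 3 * star (M0z k v 3) *
      fc (XX (M0a k v) (M0m k v) (M0t k v)) (XX (M0a k v) (M0m k v) (M0t k v)) := by
    conv_lhs => rw [e]
    rw [F0.hf_smul_left, F0.hf_smul_right, hk.2]
    ring
  rw [h1, fc_XX]
  have h2 : M0t k v - star (M0t k v) = (2 * (M0t k v).im : ℝ) * Complex.I :=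
    Complex.sub_conj (M0t k v)
  have h3 : M0z k v 3 * star (M0z k v 3) = ((‖M0z k v 3‖ ^ 2 : ℝ) : ℂ) := by
    have := Complex.mul_conj (M0z k v 3)
    rw [Complex.normSq_eq_norm_sq] at this
    exact this
  rw [h2, h3]
  push_cast
  linear_combination 2 * (‖M0z k v 3‖ : ℂ) ^ 2 * ((M0t k v).im : ℂ) * Complex.I_mul_I

/-- module M0 -/
theorem M0_hf_smul (l l' : ℂ) (v w : V4) : hf (l • v) (l' • w) = l * star l' * hf v w := by
  rw [F0.hf_smul_left, F0.hf_smul_right]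
  ring

/-- module M0 -/
theorem M0_hf_symm (v w : V4) : hf w v = star (hf v w) := F0.hf_symm v w

/-- module M0 -/
theorem M0_hf_cont : Continuous fun p : V4 × V4 => hf p.1 p.2 := by
  have h1 : ∀ i, Continuous fun p : V4 × V4 => p.1 i :=
    fun i => (continuous_apply i).comp continuous_fst
  have h2 : ∀ i, Continuous fun p : V4 × V4 => star (p.2 i) :=
    fun i => continuous_star.comp ((continuous_apply i).comp continuous_snd)
  exact ((((h1 0).mul (h2 0)).add ((h1 1).mul (h2 1))).sub ((h1 2).mul (h2 2))).sub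
    ((h1 3).mul (h2 3))

/-- module M0: continuity of the wedge size -/
private theorem m0q_wd_cont (y : V4) : Continuous fun x : V4 => wd x y := by
  unfold wd
  refine continuous_norm.comp (continuous_pi fun i => continuous_pi fun j => ?_)
  exact ((continuous_apply i).mul continuous_const).sub ((continuous_apply j).mul continuous_const)

/-- module M0: the point at infinity is not zero -/
private theorem m0q_e1_ne {k : M4} (hk : k ∈ KK) : k *ᵥ e1 ≠ 0 := by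
  intro h
  have h1 := M0z_left hk e1
  rw [h] at h1
  have h2 : M0z k 0 = 0 := by
    unfold M0z
    exact Matrix.mulVec_zero _
  rw [h2] at h1
  have h3 := congrFun h1 1
  simp [e1] at h3

/-- module M0: the point at infinity is null -/
private theorem m0q_null {k : M4} (hk : k ∈ KK) : hf (k *ᵥ e1) (k *ᵥ e1) = 0 := by
  rw [hk.2]
  simp [fc, e1]

/-- module M0: parallel vectors -/
private theorem m0q_par {v w : V4} (hw : w ≠ 0) (h : wd v w = 0) : ∃ l : ℂ, v = l • w := by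
  obtain ⟨i, hi⟩ := Function.ne_iff.mp hw
  have h1 : (fun i j => v i * w j - v j * w i : Fin 4 → Fin 4 → ℂ) = 0 := norm_eq_zero.mp h
  refine ⟨v i / w i, funext fun j => ?_⟩
  have h2 : v i * w j - v j * w i = 0 := congrFun (congrFun h1 i) j
  rw [Pi.smul_apply, smul_eq_mul]
  have hi' : w i ≠ 0 := hi
  rw [div_mul_eq_mul_div, eq_div_iff hi']
  linear_combination -h2

namespace Kd

variable {D : Kd G}

/-- module M0 -/
theorem M0_kk {k : M4} (hk : k ∈ D.FF) : k ∈ KK := hk.1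

/-- module M0 -/
theorem M0_P_real (k : M4) (μ : ℂ) (t : ℝ) : D.P k ![μ, (t : ℂ)] = D.A k μ t := by
  change PE (D.A k) μ (t : ℂ) = D.A k μ t
  rw [PE, if_neg (by rw [Complex.ofReal_im]; exact lt_irrefl 0), Complex.ofReal_re]

/-- module M0 -/
theorem M0_vx {k : M4} (hk : k ∈ D.FF) (x : C2) : M0z k (D.vx k x) 3 = 1 ∧
    M0a k (D.vx k x) = D.P k x ∧ M0m k (D.vx k x) = x 0 ∧ M0t k (D.vx k x) = x 1 ∧
    D.vx k x ≠ 0 := by
  obtain ⟨h3, ha, hm, ht⟩ := M0_XX (M0_kk hk) (D.P k x) (x 0) (x 1)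
  refine ⟨h3, ha, hm, ht, fun h0 => ?_⟩
  have h4 : M0z k (D.vx k x) 3 = 1 := h3
  rw [h0, M0z, Matrix.mulVec_zero] at h4
  exact zero_ne_one h4

/-- module M0: membership in the surface -/
theorem M0_V {k : M4} (hk : k ∈ D.FF) (v : V4) : v ∈ D.VV k ↔ M0z k v 3 ≠ 0 ∧
    0 < (M0t k v).im ∧ M0a k v = D.P k ![M0m k v, M0t k v] := by
  constructor
  · rintro ⟨x, hx, l, hl, rfl⟩
    obtain ⟨h3, ha, hm, ht, -⟩ := M0_vx hk x
    obtain ⟨sa, sm, -, st⟩ := M0_smul k hl (D.vx k x) 0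
    have hx' : ![x 0, x 1] = x := by
      funext i
      fin_cases i <;> rfl
    refine ⟨?_, ?_, ?_⟩
    · rw [M0z_smul, Pi.smul_apply, h3, smul_eq_mul, mul_one]
      exact hl
    · rw [st, ht]
      exact hx
    · rw [sa, sm, st, ha, hm, ht, hx']
  · rintro ⟨h3, hi, ha⟩
    refine ⟨![M0m k v, M0t k v], hi, M0z k v 3, h3, ?_⟩
    have e := M0_rep (M0_kk hk) h3
    rw [ha] at e
    exact e

/-- module M0: membership in a disc -/
theorem M0_D {k : M4} (hk : k ∈ D.FF) (m : ℂ) (v : V4) :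
    v ∈ D.DD k m ↔ v ∈ D.VV k ∧ M0m k v = m := by
  constructor
  · rintro ⟨τ, hτ, l, hl, rfl⟩
    refine ⟨⟨![m, τ], hτ, l, hl, rfl⟩, ?_⟩
    rw [(M0_smul k hl (D.vx k ![m, τ]) 0).2.1, (M0_vx hk ![m, τ]).2.2.1]
    rfl
  · rintro ⟨⟨x, hx, l, hl, rfl⟩, hm⟩
    rw [(M0_smul k hl (D.vx k x) 0).2.1, (M0_vx hk x).2.2.1] at hm
    refine ⟨x 1, hx, l, hl, ?_⟩
    have hx' : ![m, x 1] = x := by
      rw [← hm]
      funext i
      fin_cases i <;> rfl
    rw [hx']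

/-- module M0: points of the surface in another chart -/
theorem M0_E (hD : Good D) {k k' : M4} (hk : k ∈ D.FF) (hk' : k' ∈ D.FF) {v : V4}
    (hv : v ∈ D.VV k) : M0z k' v 3 ≠ 0 ∧ 0 < (M0t k' v).im ∧ hf v v ≠ 0 ∧ v ≠ 0 := by
  obtain ⟨x, hx, l, hl, rfl⟩ := hv
  have hx' : 0 < (x 1).im := hx
  obtain ⟨hs, l', hl', he⟩ := D.t0_spec hk'
  have h1 : hf (l • D.vx k x) (k' *ᵥ e1) ≠ 0 := by
    rw [he, M0_hf_smul]
    exact mul_ne_zero (mul_ne_zero hl (star_ne_zero.2 hl')) (Kd.vx_tv hD hk hx hs)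
  rw [M0_hf_e1 (M0_kk hk')] at h1
  have h3 : M0z k' (l • D.vx k x) 3 ≠ 0 := right_ne_zero_of_mul h1
  have h4 : hf (l • D.vx k x) (l • D.vx k x) = -2 * ((‖l‖ ^ 2 * (x 1).im : ℝ) : ℂ) := by
    rw [M0_hf_smul, Kd.hf_vx hD hk]
    have h5 : l * star l = ((‖l‖ ^ 2 : ℝ) : ℂ) := by
      have := Complex.mul_conj l
      rw [Complex.normSq_eq_norm_sq] at this
      exact this
    rw [h5]
    push_cast
    ring
  have h6 := M0_self (M0_kk hk') h3
  rw [h4] at h6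
  have h7 : ‖l‖ ^ 2 * (x 1).im = ‖M0z k' (l • D.vx k x) 3‖ ^ 2 * (M0t k' (l • D.vx k x)).im :=
    Complex.ofReal_injective (mul_left_cancel₀ (by norm_num) h6)
  have hl2 : 0 < ‖l‖ := norm_pos_iff.2 hl
  have h8 : 0 < ‖l‖ ^ 2 * (x 1).im := by positivity
  refine ⟨h3, ?_, ?_, ?_⟩
  · rw [h7] at h8
    by_contra hn
    rw [not_lt] at hn
    have := mul_nonpos_of_nonneg_of_nonpos (sq_nonneg ‖M0z k' (l • D.vx k x) 3‖) hn
    linarith
  · rw [h4]
    refine mul_ne_zero (by norm_num) ?_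
    exact_mod_cast h8.ne'
  · intro h0
    rw [h0, M0z, Matrix.mulVec_zero] at h3
    exact h3 rfl

/-- module M0: points of the limit cone in a chart -/
theorem M0_L {k : M4} (hk : k ∈ D.FF) {v : V4} (hv : v ∈ D.Lam) :
    (M0z k v 3 ≠ 0 → (M0t k v).im = 0 ∧ M0a k v = D.P k ![M0m k v, M0t k v]) ∧
    (M0z k v 3 = 0 → ∃ l : ℂ, l ≠ 0 ∧ v = l • (k *ᵥ e1)) := by
  obtain ⟨θ, hθ, l, hl, rfl⟩ := hv
  constructor
  · intro h3
    have h1 := M0_self (M0_kk hk) h3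
    rw [M0_hf_smul, D.xnull θ hθ, mul_zero] at h1
    have h2 : ‖M0z k (l • D.xi θ) 3‖ ^ 2 * (M0t k (l • D.xi θ)).im = 0 := by
      have := (mul_eq_zero.1 h1.symm).resolve_left (by norm_num)
      exact_mod_cast this
    have h4 : (M0t k (l • D.xi θ)).im = 0 :=
      (mul_eq_zero.1 h2).resolve_left (pow_ne_zero 2 (norm_ne_zero_iff.2 h3))
    have h5 : M0t k (l • D.xi θ) = (((M0t k (l • D.xi θ)).re : ℝ) : ℂ) :=
      Complex.ext (by simp) (by simp [h4])
    refine ⟨h4, ?_⟩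
    have e := M0_rep (M0_kk hk) h3
    have h6 : k *ᵥ XX (M0a k (l • D.xi θ)) (M0m k (l • D.xi θ))
        (((M0t k (l • D.xi θ)).re : ℝ) : ℂ) ∈ D.Lam := by
      rw [← h5]
      refine ⟨θ, hθ, (M0z k (l • D.xi θ) 3)⁻¹ * l, mul_ne_zero (inv_ne_zero h3) hl, ?_⟩
      have e' := congrArg (fun v => (M0z k (l • D.xi θ) 3)⁻¹ • v) e
      simp only [smul_smul, inv_mul_cancel₀ h3, one_smul] at e'
      exact e'.symm
    rw [h5, M0_P_real]
    exact D.A_unique hk _ _ _ h6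
  · intro h3
    obtain ⟨hs, l', hl', he⟩ := D.t0_spec hk
    have h1 := M0_hf_e1 (M0_kk hk) (l • D.xi θ)
    rw [h3, mul_zero, he, M0_hf_smul] at h1
    have h2 : hf (D.xi θ) (D.xi (D.t0 k)) = 0 :=
      (mul_eq_zero.1 h1).resolve_left (mul_ne_zero hl (star_ne_zero.2 hl'))
    have h4 : θ = D.t0 k := by
      by_contra hne
      exact D.xtv θ hθ _ hs hne h2
    refine ⟨l * l'⁻¹, mul_ne_zero hl (inv_ne_zero hl'), ?_⟩
    rw [he, smul_smul, mul_assoc, inv_mul_cancel₀ hl', mul_one, ← h4]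

/-- module M0: the points `yy m` are not in the limit cone -/
theorem M0_yy {k : M4} (hk : k ∈ D.FF) (m : ℂ) : k *ᵥ yy m ∉ D.Lam := by
  intro h
  have e := M0z_left (M0_kk hk) (yy m)
  obtain ⟨l, hl, h1⟩ := (M0_L hk h).2 (by rw [e]; rfl)
  have h2 := congrArg (M0z k) h1
  rw [e, M0z_smul, M0z_left (M0_kk hk)] at h2
  have h3 := congrFun h2 0
  have h4 : yy m 0 = 1 := rfl
  have h5 : e1 0 = 0 := by simp [e1]
  rw [h4, Pi.smul_apply, h5, smul_zero] at h3
  exact one_ne_zero h3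

/-- module M0: the boundary points of the surface -/
theorem M0_bd {k : M4} (hk : k ∈ D.FF) {x : C2} (hx : (x 1).im = 0) : D.vx k x ∈ D.Lam := by
  have h1 : x 1 = (((x 1).re : ℝ) : ℂ) := Complex.ext (by simp) (by simp [hx])
  have h2 : x = ![x 0, (((x 1).re : ℝ) : ℂ)] := by
    funext i
    fin_cases i
    · rfl
    · exact h1
  obtain ⟨hs, -, l, hl, he⟩ := D.A_spec hk (x 0) (x 1).re
  refine ⟨_, hs, l, hl, ?_⟩
  rw [← he, Kd.vx, ← h1]
  have h3 : D.P k x = D.A k (x 0) (x 1).re := by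
    conv_lhs => rw [h2]
    exact M0_P_real k _ _
  rw [h3]

/-- module M0: transversality of two points of the limit cone -/
theorem M0_tv {v w : V4} (hv : v ∈ D.Lam) (hw : w ∈ D.Lam) (h : hf v w = 0) :
    ∃ l : ℂ, l ≠ 0 ∧ v = l • w := by
  obtain ⟨θ, hθ, l, hl, rfl⟩ := hv
  obtain ⟨θ', hθ', l', hl', rfl⟩ := hw
  rw [M0_hf_smul] at h
  have h2 : hf (D.xi θ) (D.xi θ') = 0 :=
    (mul_eq_zero.1 h).resolve_left (mul_ne_zero hl (star_ne_zero.2 hl'))
  have h4 : θ = θ' := by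
    by_contra hne
    exact D.xtv θ hθ _ hθ' hne h2
  refine ⟨l * l'⁻¹, mul_ne_zero hl (inv_ne_zero hl'), ?_⟩
  rw [smul_smul, mul_assoc, inv_mul_cancel₀ hl', mul_one, ← h4]

/-- module M0: sequences on the surface (the closure of the surface) -/
theorem M0_seq (hD : Good D) {k : M4} (hk : k ∈ D.FF) (x : ℕ → C2) (hx : ∀ n, x n ∈ Upc)
    (l : ℕ → ℂ) {v : V4} (hv : v ≠ 0) (h : Tendsto (fun n => l n • D.vx k (x n)) atTop (𝓝 v)) :
    (∃ y ∈ Upc, ∃ l₀ : ℂ, l₀ ≠ 0 ∧ v = l₀ • D.vx k y) ∨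
      ∃ l₀ : ℂ, l₀ ≠ 0 ∧ v = l₀ • (k *ᵥ e1) := by
  by_cases hb : Tendsto (fun n => ‖x n‖) atTop atTop
  · right
    have h1 := vx_inf hD hk x hx hb
    have h2 : Tendsto (fun n => wd (l n • D.vx k (x n)) (k *ᵥ e1)) atTop
        (𝓝 (wd v (k *ᵥ e1))) := ((m0q_wd_cont _).tendsto v).comp h
    have h3 : Tendsto (fun n => ‖l n • D.vx k (x n)‖ *
        (wd (D.vx k (x n)) (k *ᵥ e1) / ‖D.vx k (x n)‖)) atTop (𝓝 (‖v‖ * 0)) := h.norm.mul h1
    have h4 : ∀ n, wd (l n • D.vx k (x n)) (k *ᵥ e1) = ‖l n • D.vx k (x n)‖ *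
        (wd (D.vx k (x n)) (k *ᵥ e1) / ‖D.vx k (x n)‖) := by
      intro n
      have h0 := norm_ne_zero_iff.mpr (M0_vx hk (x n)).2.2.2.2
      rw [F0.wd_smul, norm_smul]
      field_simp
    rw [mul_zero] at h3
    simp only [h4] at h2
    have h5 := tendsto_nhds_unique h2 h3
    obtain ⟨l₀, hl⟩ := m0q_par (m0q_e1_ne hk.1) h5
    refine ⟨l₀, ?_, hl⟩
    rintro rfl
    exact hv (by rw [hl, zero_smul])
  · left
    rw [tendsto_atTop] at hb
    push Not at hb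
    obtain ⟨r, hr⟩ := hb
    obtain ⟨φ, hφ, hφ2⟩ := Filter.extraction_of_frequently_atTop hr
    have hc : IsCompact (Metric.closedBall (0 : C2) r ∩ Upc) :=
      (isCompact_closedBall 0 r).inter_right kl5_upc_closed
    obtain ⟨y, hy, ψ, hψ, hψ2⟩ := hc.tendsto_subseq (x := fun n => x (φ n)) fun n =>
      ⟨mem_closedBall_zero_iff.mpr (hφ2 n).le, hx _⟩
    have h1 : Tendsto (fun n => D.vx k (x (φ (ψ n)))) atTop (𝓝 (D.vx k y)) := by
      have h2 := (kl5_vx_cont D (k, y) ⟨hk, hy.2⟩).tendsto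
      refine h2.comp (f := fun n : ℕ => (k, x (φ (ψ n)))) (tendsto_nhdsWithin_iff.mpr
        ⟨?_, Eventually.of_forall fun n => ⟨hk, hx _⟩⟩)
      exact tendsto_const_nhds.prodMk_nhds hψ2
    have h0 : Tendsto (fun n => l (φ (ψ n)) • D.vx k (x (φ (ψ n)))) atTop (𝓝 v) :=
      h.comp (hφ.tendsto_atTop.comp hψ.tendsto_atTop)
    have h2 : Tendsto (fun n => l (φ (ψ n))) atTop (𝓝 (M0z k v 3)) := by
      have h3 := ((continuous_apply (3 : Fin 4)).comp (M0z_cont k)).tendsto v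
      have h4 := h3.comp h0
      refine h4.congr fun n => ?_
      change M0z k (l (φ (ψ n)) • D.vx k (x (φ (ψ n)))) 3 = _
      rw [M0z_smul, Pi.smul_apply, (M0_vx hk _).1, smul_eq_mul, mul_one]
    have h3 := tendsto_nhds_unique h0 (h2.smul h1)
    refine ⟨y, hy.2, M0z k v 3, ?_, h3⟩
    intro h4
    rw [h4, zero_smul] at h3
    exact hv h3

/-- module M0: the surface is closed among the vectors which are not null -/
theorem M0_cl (hD : Good D) {k : M4} (hk : k ∈ D.FF) {u : ℕ → V4} (hu : ∀ n, u n ∈ D.VV k)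
    {v : V4} (h : Tendsto u atTop (𝓝 v)) (hv : hf v v ≠ 0) : v ∈ D.VV k := by
  choose x hx l hl hxl using hu
  have hv0 : v ≠ 0 := by
    rintro rfl
    apply hv
    have := M0_hf_smul 0 0 (0 : V4) (0 : V4)
    rw [zero_smul] at this
    rw [this, zero_mul, zero_mul]
  have h1 : Tendsto (fun n => l n • D.vx k (x n)) atTop (𝓝 v) := h.congr hxl
  have hx2 : ∀ n, x n ∈ Upc := fun n => by
    have h2 : 0 < ((x n) 1).im := hx n
    exact h2.le
  rcases M0_seq hD hk x hx2 l hv0 h1 with ⟨y, hy, l₀, hl₀, e⟩ | ⟨l₀, hl₀, e⟩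
  · refine ⟨y, ?_, l₀, hl₀, e⟩
    refine lt_of_le_of_ne (show 0 ≤ (y 1).im from hy) fun h0 => hv ?_
    rw [e, M0_hf_smul, hf_vx hD hk, ← h0]
    simp
  · exact absurd (by rw [e, M0_hf_smul, m0q_null hk.1, mul_zero]) hv

end Kd

end Pool.Agent.MPd01a95.KT
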