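import Mathlib
import Pool.Agent.Lib.MP_d01a95_gt_K.KDefs2
import Pool.Agent.Lib.MP_d01a95_gt_K.KA1
import Pool.Agent.Lib.MP_d01a95_gt_K.KA2
import Pool.Agent.Lib.MP_d01a95_gt_K.KA4
import Pool.Agent.Lib.MP_d01a95_gt_K.KF0
import Pool.Agent.Lib.MP_d01a95_gt_K.KF6
import Pool.Agent.Lib.MP_d01a95_gt_K.KH1
import Pool.Agent.Lib.MP_d01a95_gt_K.KH2
import Pool.Agent.Lib.MP_d01a95_gt_K.KH3
import Pool.Agent.Lib.MP_d01a95_gt_K.KH4
import Pool.Agent.Lib.MP_d01a95_gt_K.KK7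
import Pool.Agent.Lib.MP_d01a95_gt_K.KL4
import Pool.Agent.Lib.MP_d01a95_gt_K.KM0

set_option autoImplicit false
set_option linter.all false

open Matrix Filter Topology MeasureTheory
open scoped ContDiff

namespace Pool.Agent.MPd01a95.KT

open GU

variable {G : Type} [Group G]

/-- module M1: maximum principle in the half plane -/
theorem M1_max {g : ℂ → ℂ} (hc : ContinuousOn g {τ | 0 ≤ τ.im})
    (hd : DifferentiableOn ℂ g {τ | 0 < τ.im}) (h0 : ∀ τ : ℂ, τ.im = 0 → g τ = 0)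
    (hinf : Tendsto g (Bornology.cobounded ℂ ⊓ 𝓟 {τ | 0 ≤ τ.im}) (𝓝 0)) (τ : ℂ)
    (hτ : 0 ≤ τ.im) : g τ = 0 := by
  rcases hτ.lt_or_eq with h | h
  swap
  · exact h0 τ h.symm
  have key : ∀ ε : ℝ, 0 < ε → ‖g τ‖ ≤ ε := by
    intro ε hε
    have h1 : ∀ᶠ z in Bornology.cobounded ℂ ⊓ 𝓟 {τ : ℂ | 0 ≤ τ.im}, ‖g z‖ < ε := by
      have := hinf.norm
      rw [norm_zero] at this
      exact this.eventually (gt_mem_nhds hε)
    rw [eventually_inf_principal] at h1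
    obtain ⟨R, -, hR⟩ := (Filter.hasBasis_cobounded_norm (E := ℂ)).eventually_iff.1 h1
    obtain ⟨R', hR'⟩ : ∃ R', R' = max R (‖τ‖ + 1) := ⟨_, rfl⟩
    obtain ⟨U, hU⟩ : ∃ U : Set ℂ, U = Metric.ball 0 R' ∩ {z | 0 < z.im} := ⟨_, rfl⟩
    have hopen : IsOpen U := by
      rw [hU]
      exact Metric.isOpen_ball.inter (isOpen_lt continuous_const Complex.continuous_im)
    have hcl1 : closure U ⊆ {z | 0 ≤ z.im} := by
      refine closure_minimal (fun z hz => ?_) (isClosed_le continuous_const Complex.continuous_im)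
      rw [hU] at hz
      have h5 : 0 < z.im := hz.2
      exact h5.le
    have hb : Bornology.IsBounded U := by
      rw [hU]
      exact Metric.isBounded_ball.subset Set.inter_subset_left
    have hdc : DiffContOnCl ℂ g U := by
      refine ⟨hd.mono ?_, hc.mono hcl1⟩
      rw [hU]
      exact fun z hz => hz.2
    have hmem : τ ∈ U := by
      rw [hU]
      refine ⟨?_, h⟩
      rw [mem_ball_zero_iff, hR']
      exact lt_of_lt_of_le (by linarith) (le_max_right _ _)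
    refine Complex.norm_le_of_forall_mem_frontier_norm_le hb hdc (fun z hz => ?_)
      (subset_closure hmem)
    have hz1 : 0 ≤ z.im := hcl1 hz.1
    have hz2 : z ∉ U := by
      have := hz.2
      rwa [hopen.interior_eq] at this
    rcases hz1.lt_or_eq with h2 | h2
    · have h3 : R' ≤ ‖z‖ := by
        by_contra h4
        rw [not_le] at h4
        refine hz2 ?_
        rw [hU]
        exact ⟨mem_ball_zero_iff.2 h4, h2⟩
      have h4 : R ≤ ‖z‖ := le_trans (by rw [hR']; exact le_max_left _ _) h3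
      exact (hR h4 hz1).le
    · rw [h0 z h2.symm, norm_zero]
      exact hε.le
  have h2 : ‖g τ‖ ≤ 0 := le_of_forall_pos_le_add fun ε hε => by
    have := key ε hε
    linarith
  exact norm_le_zero_iff.1 h2

/-- module M1: growth with an exponent below one -/
theorem M1_grow {A : ℂ → ℝ → ℂ} (hA : Ch A) (m : ℂ) : ∃ ε C : ℝ, 0 < ε ∧ ε < 1 ∧ 0 ≤ C ∧
    ∀ τ : ℂ, 0 ≤ τ.im → ‖PE A m τ‖ ≤ C * (1 + ‖τ‖) ^ (1 - ε) := by
  obtain ⟨ε, hε, h⟩ := PE_grow hA
  obtain ⟨C, hC⟩ := h ‖m‖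
  refine ⟨min ε (1 / 2), |C|, lt_min hε (by norm_num), ?_, abs_nonneg C, fun τ hτ => ?_⟩
  · exact lt_of_le_of_lt (min_le_right _ _) (by norm_num)
  · have h1 := hC m τ le_rfl hτ
    have h2 : (1 + ‖τ‖) ^ (1 - ε) ≤ (1 + ‖τ‖) ^ (1 - min ε (1 / 2)) :=
      Real.rpow_le_rpow_of_exponent_le (by linarith [norm_nonneg τ])
        (by linarith [min_le_left ε (1 / 2)])
    have h3 : 0 ≤ (1 + ‖τ‖) ^ (1 - ε) := Real.rpow_nonneg (by positivity) _
    calc ‖PE A m τ‖ ≤ C * (1 + ‖τ‖) ^ (1 - ε) := h1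
      _ ≤ |C| * (1 + ‖τ‖) ^ (1 - ε) := mul_le_mul_of_nonneg_right (le_abs_self C) h3
      _ ≤ _ := mul_le_mul_of_nonneg_left h2 (abs_nonneg C)

/-- module M1: continuity of the Poisson extension on the closed half plane -/
theorem M1_cont {A : ℂ → ℝ → ℂ} (hA : Ch A) (m : ℂ) :
    ContinuousOn (fun τ : ℂ => PE A m τ) {τ | 0 ≤ τ.im} := by
  have h1 : ContinuousOn (fun τ : ℂ => ((m, τ) : ℂ × ℂ)) {τ | 0 ≤ τ.im} := by fun_prop
  exact (PE_cont hA).comp h1 fun τ hτ => hτ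

/-- module M1: the inverse of `τ + i` tends to zero -/
theorem M1_inv : Tendsto (fun τ : ℂ => (τ + Complex.I)⁻¹) (Bornology.cobounded ℂ) (𝓝 0) :=
  tendsto_inv₀_cobounded.comp (tendsto_add_const_cobounded Complex.I)

/-- module M1 -/
theorem M1_small {A : ℂ → ℝ → ℂ} (hA : Ch A) (m : ℂ) :
    Tendsto (fun τ : ℂ => PE A m τ * (τ + Complex.I)⁻¹)
      (Bornology.cobounded ℂ ⊓ 𝓟 {τ | 0 ≤ τ.im}) (𝓝 0) := by
  obtain ⟨ε, C, hε, hε1, hC, h⟩ := M1_grow hA m
  have h1 : Tendsto (fun τ : ℂ => 2 * C * (1 + ‖τ‖) ^ (-ε)) (Bornology.cobounded ℂ) (𝓝 0) := by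
    have e1 : Tendsto (fun τ : ℂ => 1 + ‖τ‖) (Bornology.cobounded ℂ) atTop :=
      tendsto_atTop_add_const_left _ _ tendsto_norm_cobounded_atTop
    have e2 := ((tendsto_rpow_neg_atTop hε).comp e1).const_mul (2 * C)
    rw [mul_zero] at e2
    exact e2
  refine squeeze_zero_norm' ?_ (h1.mono_left inf_le_left)
  have h3 : ∀ᶠ τ : ℂ in Bornology.cobounded ℂ, 3 ≤ ‖τ‖ :=
    tendsto_norm_cobounded_atTop.eventually (eventually_ge_atTop 3)
  rw [eventually_inf_principal]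
  filter_upwards [h3] with τ hτ3 hτ
  have h4 : (1 + ‖τ‖) / 2 ≤ ‖τ + Complex.I‖ := by
    have h5 : ‖τ‖ ≤ ‖τ + Complex.I‖ + ‖Complex.I‖ := by
      have := norm_sub_le (τ + Complex.I) Complex.I
      simpa using this
    rw [Complex.norm_I] at h5
    linarith
  have h5 : 0 < (1 + ‖τ‖) / 2 := by positivity
  rw [norm_mul, norm_inv, ← div_eq_mul_inv, div_le_iff₀ (lt_of_lt_of_le h5 h4)]
  have h6 : (1 + ‖τ‖) ^ (1 - ε) = (1 + ‖τ‖) ^ (-ε) * (1 + ‖τ‖) := by
    rw [show (1 - ε) = -ε + 1 by ring, Real.rpow_add (by positivity), Real.rpow_one]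
  have h7 : 0 ≤ (1 + ‖τ‖) ^ (-ε) := Real.rpow_nonneg (by positivity) _
  calc ‖PE A m τ‖ ≤ C * (1 + ‖τ‖) ^ (1 - ε) := h τ hτ
    _ = 2 * C * (1 + ‖τ‖) ^ (-ε) * ((1 + ‖τ‖) / 2) := by rw [h6]; ring
    _ ≤ _ := mul_le_mul_of_nonneg_left h4 (by positivity)

/-- module M1: the key identity between two charts -/
theorem M1_key {A A' : ℂ → ℝ → ℂ} (hA : Ch A) (hz : CZ A) (hA' : Ch A') (hz' : CZ A')
    {m m' l E0 W0 a b c d : ℂ} (hc : c ≠ 0)
    (H1 : ∀ τ : ℂ, 0 < τ.im → τ * c + d ≠ 0 ∧ 0 < ((τ * a + b) / (τ * c + d)).im)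
    (H2 : ∀ τ : ℂ, τ.im = 0 → τ * c + d ≠ 0 → ((τ * a + b) / (τ * c + d)).im = 0 ∧
      PE A m τ * l + τ * E0 + W0 = (τ * c + d) * PE A' m' ((τ * a + b) / (τ * c + d)))
    (H3 : ∀ τ : ℂ, τ.im = 0 → τ * c + d = 0 → PE A m τ * l + τ * E0 + W0 = 0)
    (H4 : 0 ≤ (a / c).im) (H5 : E0 = c * PE A' m' (a / c)) (τ : ℂ) (hτ : 0 < τ.im) :
    PE A m τ * l + τ * E0 + W0 = (τ * c + d) * PE A' m' ((τ * a + b) / (τ * c + d)) := by
  -- the auxiliary function
  obtain ⟨f, hf⟩ : ∃ f : ℂ → ℂ, f = fun τ => PE A m τ * l + τ * E0 + W0 -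
      (τ * c + d) * PE A' m' ((τ * a + b) / (τ * c + d)) := ⟨_, rfl⟩
  have hI : ∀ τ : ℂ, 0 ≤ τ.im → τ + Complex.I ≠ 0 := by
    intro τ hτ h0
    have := congrArg Complex.im h0
    simp at this
    linarith
  have hmaps : Set.MapsTo (fun τ : ℂ => (τ * a + b) / (τ * c + d)) {τ | 0 ≤ τ.im}
      {τ | 0 ≤ τ.im} := by
    intro τ hτ
    have hτ' : 0 ≤ τ.im := hτ
    rcases hτ'.lt_or_eq with h | h
    · exact (H1 τ h).2.le
    · by_cases hq : τ * c + d = 0
      · simp [hq]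
      · exact (H2 τ h.symm hq).1.ge
  have hfc : ContinuousOn f {τ | 0 ≤ τ.im} := by
    rw [hf]
    refine ContinuousOn.sub ?_ ?_
    · exact (((M1_cont hA m).mul continuousOn_const).add (by fun_prop)).add continuousOn_const
    · intro τ₀ hτ₀
      by_cases hq : τ₀ * c + d = 0
      · -- squeeze
        obtain ⟨ε, C, hε, hε1, hC, h⟩ := M1_grow hA' m'
        unfold ContinuousWithinAt
        beta_reduce
        rw [hq, zero_mul]
        have hB : Continuous fun τ : ℂ => C * (‖τ * c + d‖ ^ ε *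
            (‖τ * c + d‖ + ‖τ * a + b‖) ^ (1 - ε)) := by
          refine continuous_const.mul (Continuous.mul ?_ ?_)
          · exact Continuous.rpow_const (by fun_prop) fun _ => Or.inr hε.le
          · exact Continuous.rpow_const (by fun_prop) fun _ => Or.inr (by linarith)
        have hB0 : Tendsto (fun τ : ℂ => C * (‖τ * c + d‖ ^ ε *
            (‖τ * c + d‖ + ‖τ * a + b‖) ^ (1 - ε))) (𝓝[{τ | 0 ≤ τ.im}] τ₀) (𝓝 0) := by
          have := (hB.tendsto τ₀).mono_left (nhdsWithin_le_nhds (s := {τ : ℂ | 0 ≤ τ.im}))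
          rw [hq, norm_zero, Real.zero_rpow hε.ne', zero_mul, mul_zero] at this
          exact this
        refine squeeze_zero_norm' ?_ hB0
        filter_upwards [self_mem_nhdsWithin] with τ hτ
        by_cases hq' : τ * c + d = 0
        · rw [hq', zero_mul, norm_zero, Real.zero_rpow hε.ne', zero_mul, mul_zero]
        · have hq0 : 0 < ‖τ * c + d‖ := norm_pos_iff.2 hq'
          have h1 := h ((τ * a + b) / (τ * c + d)) (hmaps hτ)
          rw [norm_div] at h1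
          have e1 : 1 + ‖τ * a + b‖ / ‖τ * c + d‖ =
              (‖τ * c + d‖ + ‖τ * a + b‖) / ‖τ * c + d‖ := by field_simp
          rw [e1, Real.div_rpow (by positivity) hq0.le] at h1
          rw [norm_mul]
          calc ‖τ * c + d‖ * ‖PE A' m' ((τ * a + b) / (τ * c + d))‖
              ≤ ‖τ * c + d‖ * (C * ((‖τ * c + d‖ + ‖τ * a + b‖) ^ (1 - ε) /
                ‖τ * c + d‖ ^ (1 - ε))) := mul_le_mul_of_nonneg_left h1 hq0.le
            _ = C * (‖τ * c + d‖ ^ ε * (‖τ * c + d‖ + ‖τ * a + b‖) ^ (1 - ε)) := by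
              have e2 : ‖τ * c + d‖ = ‖τ * c + d‖ ^ ε * ‖τ * c + d‖ ^ (1 - ε) := by
                rw [← Real.rpow_add hq0]
                simp
              have e3 : ‖τ * c + d‖ ^ (1 - ε) ≠ 0 := (Real.rpow_pos_of_pos hq0 _).ne'
              rw [show ‖τ * c + d‖ * (C * ((‖τ * c + d‖ + ‖τ * a + b‖) ^ (1 - ε) /
                ‖τ * c + d‖ ^ (1 - ε))) = (‖τ * c + d‖ / ‖τ * c + d‖ ^ (1 - ε)) *
                (C * (‖τ * c + d‖ + ‖τ * a + b‖) ^ (1 - ε)) by ring]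
              rw [show ‖τ * c + d‖ / ‖τ * c + d‖ ^ (1 - ε) = ‖τ * c + d‖ ^ ε by
                rw [div_eq_iff e3]; exact e2]
              ring
      · have h1 : ContinuousAt (fun τ : ℂ => (τ * a + b) / (τ * c + d)) τ₀ :=
          ContinuousAt.div (by fun_prop) (by fun_prop) hq
        have h2 : ContinuousWithinAt (fun τ : ℂ => PE A' m' ((τ * a + b) / (τ * c + d)))
            {τ | 0 ≤ τ.im} τ₀ :=
          ContinuousWithinAt.comp (f := fun τ : ℂ => (τ * a + b) / (τ * c + d))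
            (g := fun σ : ℂ => PE A' m' σ) (t := {τ | 0 ≤ τ.im})
            ((M1_cont hA' m') _ (hmaps hτ₀)) h1.continuousWithinAt hmaps
        refine ContinuousWithinAt.mul ?_ h2
        have : Continuous fun τ : ℂ => τ * c + d := by fun_prop
        exact this.continuousWithinAt
  have hfd : DifferentiableOn ℂ f {τ | 0 < τ.im} := by
    rw [hf]
    refine DifferentiableOn.sub ?_ ?_
    · have h1 : DifferentiableOn ℂ (fun τ => PE A m τ) {τ | 0 < τ.im} := PE_hol hA hz m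
      refine ((h1.mul_const l).add ?_).add (differentiableOn_const _)
      exact (differentiable_id.mul_const E0).differentiableOn
    · refine DifferentiableOn.mul ?_ ?_
      · exact ((differentiable_id.mul_const c).add_const d).differentiableOn
      · have h1 : DifferentiableOn ℂ (fun τ => PE A' m' τ) {τ | 0 < τ.im} := PE_hol hA' hz' m'
        refine h1.comp (f := fun τ : ℂ => (τ * a + b) / (τ * c + d)) ?_ fun τ hτ => (H1 τ hτ).2
        refine DifferentiableOn.div ?_ ?_ fun τ hτ => (H1 τ hτ).1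
        · exact ((differentiable_id.mul_const a).add_const b).differentiableOn
        · exact ((differentiable_id.mul_const c).add_const d).differentiableOn
  have hf0 : ∀ τ : ℂ, τ.im = 0 → f τ = 0 := by
    intro τ hτ
    rw [hf]
    by_cases hq : τ * c + d = 0
    · simp only
      rw [H3 τ hτ hq, hq, zero_mul, sub_zero]
    · simp only
      rw [(H2 τ hτ hq).2, sub_self]
  -- behaviour at infinity
  have hu := M1_inv.mono_left (inf_le_left (b := 𝓟 {τ : ℂ | 0 ≤ τ.im}))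
  have hinf : Tendsto (fun τ => f τ * (τ + Complex.I)⁻¹)
      (Bornology.cobounded ℂ ⊓ 𝓟 {τ | 0 ≤ τ.im}) (𝓝 0) := by
    have h1 := (M1_small hA m).mul_const l
    -- the argument
    have h2 : Tendsto (fun τ : ℂ => (τ * a + b) / (τ * c + d))
        (Bornology.cobounded ℂ ⊓ 𝓟 {τ | 0 ≤ τ.im}) (𝓝 (a / c)) := by
      have e1 : Tendsto (fun τ : ℂ => (a + (b - Complex.I * a) * (τ + Complex.I)⁻¹) /
          (c + (d - Complex.I * c) * (τ + Complex.I)⁻¹))
          (Bornology.cobounded ℂ ⊓ 𝓟 {τ | 0 ≤ τ.im}) (𝓝 (a / c)) := by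
        have e2 := (hu.const_mul (b - Complex.I * a)).const_add a
        have e3 := (hu.const_mul (d - Complex.I * c)).const_add c
        rw [mul_zero, add_zero] at e2 e3
        exact e2.div e3 hc
      refine e1.congr' ?_
      rw [EventuallyEq, eventually_inf_principal]
      refine Eventually.of_forall fun τ hτ => ?_
      have h3 := hI τ hτ
      have e4 : a + (b - Complex.I * a) * (τ + Complex.I)⁻¹ = (τ * a + b) * (τ + Complex.I)⁻¹ := by
        field_simp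
        ring
      have e5 : c + (d - Complex.I * c) * (τ + Complex.I)⁻¹ = (τ * c + d) * (τ + Complex.I)⁻¹ := by
        field_simp
        ring
      rw [e4, e5, mul_div_mul_right _ _ (inv_ne_zero h3)]
    have h3 : Tendsto (fun τ : ℂ => PE A' m' ((τ * a + b) / (τ * c + d)))
        (Bornology.cobounded ℂ ⊓ 𝓟 {τ | 0 ≤ τ.im}) (𝓝 (PE A' m' (a / c))) := by
      have e1 : ContinuousWithinAt (fun σ : ℂ => PE A' m' σ) {τ | 0 ≤ τ.im} (a / c) :=
        (M1_cont hA' m') _ H4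
      refine e1.tendsto.comp (tendsto_nhdsWithin_iff.2 ⟨h2, ?_⟩)
      rw [eventually_inf_principal]
      exact Eventually.of_forall fun τ hτ => hmaps hτ
    have h4 : Tendsto (fun τ : ℂ => c + (d - Complex.I * c) * (τ + Complex.I)⁻¹)
        (Bornology.cobounded ℂ ⊓ 𝓟 {τ | 0 ≤ τ.im}) (𝓝 c) := by
      have e3 := (hu.const_mul (d - Complex.I * c)).const_add c
      rwa [mul_zero, add_zero] at e3
    have h5 : Tendsto (fun τ : ℂ => E0 + (W0 - Complex.I * E0) * (τ + Complex.I)⁻¹)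
        (Bornology.cobounded ℂ ⊓ 𝓟 {τ | 0 ≤ τ.im}) (𝓝 E0) := by
      have e3 := (hu.const_mul (W0 - Complex.I * E0)).const_add E0
      rwa [mul_zero, add_zero] at e3
    have h6 := (h1.add h5).sub (h4.mul h3)
    rw [zero_mul, zero_add, ← H5, sub_self] at h6
    refine h6.congr' ?_
    rw [EventuallyEq, eventually_inf_principal]
    refine Eventually.of_forall fun τ hτ => ?_
    have h7 := hI τ hτ
    rw [hf]
    simp only
    field_simp
    ring
  have hfin := M1_max (g := fun τ => f τ * (τ + Complex.I)⁻¹) ?_ ?_ ?_ hinf τ hτ.le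
  · have h8 := hI τ hτ.le
    have h9 : f τ = 0 := by
      rcases mul_eq_zero.1 hfin with h | h
      · exact h
      · exact absurd h (inv_ne_zero h8)
    rw [hf] at h9
    exact sub_eq_zero.1 h9
  · refine hfc.mul (ContinuousOn.inv₀ (by fun_prop) fun τ hτ => hI τ hτ)
  · refine hfd.mul (DifferentiableOn.inv ?_ fun τ hτ => hI τ (le_of_lt hτ))
    exact (differentiable_id.add_const _).differentiableOn
  · intro τ hτ
    show f τ * _ = 0
    rw [hf0 τ hτ, zero_mul]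


/-- module M1 -/
theorem M1_yy_eq (μ : ℂ) : yy μ = e0 - star μ • e1 := by
  funext i
  fin_cases i <;> simp [yy, e0, e1]

/-- module M1 -/
theorem M1_XX_eq (a μ τ : ℂ) : XX a μ τ = a • yy μ + τ • e1 + XX 0 μ 0 := by
  funext i
  simp only [Pi.add_apply, Pi.smul_apply, smul_eq_mul]
  fin_cases i <;> simp [yy, XX, e1]
  ring

/-- module M1 -/
theorem M1_lin (k : M4) (a b : ℂ) (x y w : V4) :
    M0z k (a • x + b • y + w) = a • M0z k x + b • M0z k y + M0z k w := by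
  unfold M0z
  rw [Matrix.mulVec_add, Matrix.mulVec_add, Matrix.mulVec_smul, Matrix.mulVec_smul]

namespace Kd

variable (D : Kd G)

variable {D} (hD : Good D)

include hD

/-- module M1: the case of a common point at infinity -/
theorem M1_case1 {k k' : M4} (hk : k ∈ D.FF) (hk' : k' ∈ D.FF) {m m' l l1 : ℂ} (hl : l ≠ 0)
    (hy : k *ᵥ yy m = l • (k' *ᵥ yy m')) (hl1 : l1 ≠ 0) (h1 : k *ᵥ e1 = l1 • (k' *ᵥ e1)) :
    D.DD k' m' ⊆ D.DD k m := by
  have hone : D.R 1 = 1 := D.one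
  have h1' : k' *ᵥ e1 = l1⁻¹ • (k *ᵥ e1) := by
    rw [h1, smul_smul, inv_mul_cancel₀ hl1, one_smul]
  have hy' : k' *ᵥ yy m' = l⁻¹ • (k *ᵥ yy m) := by
    rw [hy, smul_smul, inv_mul_cancel₀ hl, one_smul]
  have h0 : k' *ᵥ e0 = l⁻¹ • (k *ᵥ e0) + (star m' * l1⁻¹ - l⁻¹ * star m) • (k *ᵥ e1) := by
    have e2 : (e0 : V4) = yy m' + star m' • e1 := by
      rw [M1_yy_eq]
      simp
    have e3 : k *ᵥ yy m = k *ᵥ e0 - star m • (k *ᵥ e1) := by
      rw [M1_yy_eq, Matrix.mulVec_sub, Matrix.mulVec_smul]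
    calc k' *ᵥ e0 = k' *ᵥ (yy m' + star m' • e1) := by rw [← e2]
      _ = l⁻¹ • (k *ᵥ e0 - star m • (k *ᵥ e1)) + star m' • (l1⁻¹ • (k *ᵥ e1)) := by
        rw [Matrix.mulVec_add, Matrix.mulVec_smul, hy', e3, h1']
      _ = _ := by
        rw [smul_sub, smul_smul, smul_smul, sub_smul]
        abel
  obtain ⟨T, hT⟩ := D.exists_tr' 1 hk hk'
    ⟨l1⁻¹, by rw [hone, Matrix.one_mulVec, h1']⟩
    ⟨l⁻¹, star m' * l1⁻¹ - l⁻¹ * star m, by rw [hone, Matrix.one_mulVec, h0]⟩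
  rintro v ⟨τ, hτ, c, hc, rfl⟩
  have hx : ![m', τ] ∈ Up := hτ
  have hxc : ![m', τ] ∈ Upc := hτ.le
  obtain ⟨-, h2, h3⟩ := Kd.vx_act hD hk hk' hT ![m', τ] hxc
  have h2' := h2 hx
  rw [hone, Matrix.one_mulVec] at h3
  have e0 : (![m', τ] : C2) 0 = m' := rfl
  have e1' : (![m', τ] : C2) 1 = τ := rfl
  rw [e0, e1'] at h3 h2'
  -- orthogonality gives `T.m m' = m`
  have hm : T.m m' = m := by
    obtain ⟨a3, -, a2, -, -⟩ := M0_vx hk' (![m', τ] : C2)
    obtain ⟨b3, -, b2, -, -⟩ := M0_vx hk (![T.m m', T.t m' τ] : C2)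
    have c1 : hf (D.vx k' ![m', τ]) (k' *ᵥ yy m') = 0 := by
      rw [M0_hf_yy (M0_kk hk')]
      unfold M0m at a2
      rw [a3, div_one] at a2
      rw [a2, a3, e0]
      ring
    have c2 : hf (D.vx k ![T.m m', T.t m' τ]) (k *ᵥ yy m) = -Complex.I * (T.m m' - m) := by
      rw [M0_hf_yy (M0_kk hk)]
      unfold M0m at b2
      rw [b3, div_one] at b2
      rw [b2, b3]
      have : (![T.m m', T.t m' τ] : C2) 0 = T.m m' := rfl
      rw [this]
      ring
    have c3 : hf (D.vx k' ![m', τ]) (k *ᵥ yy m) = 0 := by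
      rw [hy, F0.hf_smul_right, c1, mul_zero]
    rw [h3, F0.hf_smul_left, c2] at c3
    have c4 : T.m m' - m = 0 := by
      rcases mul_eq_zero.1 c3 with h | h
      · exact absurd h T.h3
      · rcases mul_eq_zero.1 h with h' | h'
        · exact absurd (neg_eq_zero.1 h') Complex.I_ne_zero
        · exact h'
    exact sub_eq_zero.1 c4
  rw [hm] at h3 h2'
  exact ⟨T.t m' τ, h2', c * T.d3, mul_ne_zero hc T.h3, by rw [h3, smul_smul]⟩

/-- module M1: the case of different points at infinity -/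
theorem M1_case2 {k k' : M4} (hk : k ∈ D.FF) (hk' : k' ∈ D.FF) {m m' l : ℂ}
    (hy : k *ᵥ yy m = l • (k' *ᵥ yy m')) (h1 : ¬ ∃ l1 : ℂ, l1 ≠ 0 ∧ k *ᵥ e1 = l1 • (k' *ᵥ e1)) :
    D.DD k m ⊆ D.DD k' m' := by
  have hkk := M0_kk hk
  have hkk' := M0_kk hk'
  obtain ⟨E, hE⟩ : ∃ E, E = M0z k' (k *ᵥ e1) := ⟨_, rfl⟩
  obtain ⟨W, hW⟩ : ∃ W, W = M0z k' (k *ᵥ XX 0 m 0) := ⟨_, rfl⟩
  have hL1 : k *ᵥ e1 ∈ D.Lam := hk.2
  have hL1' : k' *ᵥ e1 ∈ D.Lam := hk'.2
  have hc : E 3 ≠ 0 := by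
    intro h0
    have h2 : hf (k *ᵥ e1) (k' *ᵥ e1) = 0 := by
      rw [M0_hf_e1 hkk', ← hE, h0, mul_zero]
    exact h1 (M0_tv hL1 hL1' h2)
  -- the coordinates of the vectors in the second chart
  have hZ : ∀ τ : ℂ, M0z k' (D.vx k ![m, τ]) =
      (PE (D.A k) m τ * l) • yy m' + τ • E + W := by
    intro τ
    have e2 : D.vx k ![m, τ] =
        PE (D.A k) m τ • (k *ᵥ yy m) + τ • (k *ᵥ e1) + k *ᵥ XX 0 m 0 := by
      show k *ᵥ XX (PE (D.A k) m τ) m τ = _
      rw [M1_XX_eq (PE (D.A k) m τ), Matrix.mulVec_add, Matrix.mulVec_add, Matrix.mulVec_smul,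
        Matrix.mulVec_smul]
    rw [e2, M1_lin, hy, M0z_smul, M0z_left hkk', smul_smul, hE, hW]
  have hZ3 : ∀ τ : ℂ, M0z k' (D.vx k ![m, τ]) 3 = τ * E 3 + W 3 := by
    intro τ
    rw [hZ]
    simp only [Pi.add_apply, Pi.smul_apply, smul_eq_mul]
    simp [yy]
  have hZ0 : ∀ τ : ℂ, M0z k' (D.vx k ![m, τ]) 0 = PE (D.A k) m τ * l + τ * E 0 + W 0 := by
    intro τ
    rw [hZ]
    simp only [Pi.add_apply, Pi.smul_apply, smul_eq_mul]
    simp [yy]
  have hZ1 : ∀ τ : ℂ, M0z k' (D.vx k ![m, τ]) 1 + star m' * M0z k' (D.vx k ![m, τ]) 0 =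
      τ * (E 1 + star m' * E 0) + (W 1 + star m' * W 0) := by
    intro τ
    rw [hZ]
    simp only [Pi.add_apply, Pi.smul_apply, smul_eq_mul]
    simp [yy]
    ring
  have horth : ∀ v : V4, hf v (k *ᵥ yy m) = 0 → M0z k' v 2 = m' * M0z k' v 3 := by
    intro v hv
    have hl : l ≠ 0 := by
      rintro rfl
      rw [zero_smul] at hy
      have h2 : M0z k (k *ᵥ yy m) = 0 := by
        rw [hy]
        unfold M0z
        rw [Matrix.mulVec_zero]
      rw [M0z_left hkk] at h2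
      have := congrFun h2 0
      simp [yy] at this
    rw [hy, F0.hf_smul_right, M0_hf_yy hkk'] at hv
    rcases mul_eq_zero.1 hv with h | h
    · exact absurd (star_eq_zero.1 h) hl
    · rcases mul_eq_zero.1 h with h' | h'
      · exact absurd (neg_eq_zero.1 h') Complex.I_ne_zero
      · exact sub_eq_zero.1 h'
  have hZ2 : ∀ τ : ℂ, M0z k' (D.vx k ![m, τ]) 2 = m' * M0z k' (D.vx k ![m, τ]) 3 := by
    intro τ
    refine horth _ ?_
    obtain ⟨a3, -, a2, -, -⟩ := M0_vx hk (![m, τ] : C2)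
    rw [M0_hf_yy hkk]
    unfold M0m at a2
    rw [a3, div_one] at a2
    rw [a2, a3]
    have : (![m, τ] : C2) 0 = m := rfl
    rw [this]
    ring
  have hE2 : E 2 = m' * E 3 := by
    rw [hE]
    refine horth _ ?_
    rw [M0_hf_yy hkk, M0z_left hkk]
    simp [e1]
  -- coordinates of a vector with nonzero last coordinate
  have hM : ∀ v : V4, M0z k' v 3 ≠ 0 → M0z k' v 2 = m' * M0z k' v 3 → M0m k' v = m' ∧
      M0t k' v = (M0z k' v 1 + star m' * M0z k' v 0) / M0z k' v 3 := by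
    intro v h3 h2
    have e2 : M0m k' v = m' := by
      unfold M0m
      rw [h2, mul_div_assoc, div_self h3, mul_one]
    refine ⟨e2, ?_⟩
    unfold M0t
    rw [e2]
    rfl
  have hup : ∀ τ : ℂ, 0 < τ.im → D.vx k ![m, τ] ∈ D.VV k := by
    intro τ hτ
    exact ⟨![m, τ], hτ, 1, one_ne_zero, by rw [one_smul]⟩
  have hPP : ∀ τ : ℂ, D.P k' ![m', τ] = PE (D.A k') m' τ := fun τ => rfl
  have hEM := hM (k *ᵥ e1) (by rw [← hE]; exact hc) (by rw [← hE]; exact hE2)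
  rw [← hE] at hEM
  have hEL := (M0_L hk' hL1).1 (by rw [← hE]; exact hc)
  rw [hEM.1, hEM.2] at hEL
  have key := M1_key (A := D.A k) (A' := D.A k') (D.ch hk) (hD.cz k hk) (D.ch hk') (hD.cz k' hk')
    (m := m) (m' := m') (l := l) (E0 := E 0) (W0 := W 0) (a := E 1 + star m' * E 0)
    (b := W 1 + star m' * W 0) (c := E 3) (d := W 3) hc
    (by
      intro τ hτ
      obtain ⟨b1, b2, -, -⟩ := M0_E hD hk hk' (hup τ hτ)
      rw [(hM _ b1 (hZ2 τ)).2, hZ1, hZ3] at b2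
      rw [hZ3] at b1
      exact ⟨b1, b2⟩)
    (by
      intro τ hτ hq
      have b0 : D.vx k ![m, τ] ∈ D.Lam := M0_bd hk (x := ![m, τ]) hτ
      have b1 : M0z k' (D.vx k ![m, τ]) 3 ≠ 0 := by rw [hZ3]; exact hq
      obtain ⟨b2, b3⟩ := (M0_L hk' b0).1 b1
      rw [(hM _ b1 (hZ2 τ)).1, (hM _ b1 (hZ2 τ)).2, hZ1, hZ3] at b3
      rw [(hM _ b1 (hZ2 τ)).2, hZ1, hZ3] at b2
      refine ⟨b2, ?_⟩
      unfold M0a at b3
      rw [hZ0, hZ3, hPP, div_eq_iff hq] at b3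
      rw [b3]
      ring)
    (by
      intro τ hτ hq
      have b0 : D.vx k ![m, τ] ∈ D.Lam := M0_bd hk (x := ![m, τ]) hτ
      have b1 : M0z k' (D.vx k ![m, τ]) 3 = 0 := by rw [hZ3]; exact hq
      obtain ⟨l2, -, b2⟩ := (M0_L hk' b0).2 b1
      rw [← hZ0, b2, M0z_smul, M0z_left hkk']
      simp [e1])
    (by exact hEL.1.ge)
    (by
      have b3 := hEL.2
      unfold M0a at b3
      rw [← hE, hPP, div_eq_iff hc] at b3
      exact b3.trans (mul_comm _ _))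
  rintro v ⟨τ, hτ, c, hc', rfl⟩
  obtain ⟨b1, b2, -, -⟩ := M0_E hD hk hk' (hup τ hτ)
  have hmem : D.vx k ![m, τ] ∈ D.DD k' m' := by
    rw [M0_D hk', M0_V hk']
    refine ⟨⟨b1, b2, ?_⟩, (hM _ b1 (hZ2 τ)).1⟩
    rw [(hM _ b1 (hZ2 τ)).1, (hM _ b1 (hZ2 τ)).2, hZ1, hZ3, hPP]
    unfold M0a
    have b1' := b1
    rw [hZ3] at b1'
    rw [hZ0, hZ3, key τ hτ, mul_div_assoc, mul_comm, div_mul_cancel₀ _ b1']
  obtain ⟨τ', hτ', c', hc'', h2⟩ := hmem
  exact ⟨τ', hτ', c * c', mul_ne_zero hc' hc'', by rw [h2, smul_smul]⟩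

/-- module M1: the discs -/
theorem disc_eq {k k' : M4} (hk : k ∈ D.FF) (hk' : k' ∈ D.FF) (m m' : ℂ)
    (h : ∃ l : ℂ, l ≠ 0 ∧ k *ᵥ yy m = l • (k' *ᵥ yy m')) : D.DD k m = D.DD k' m' := by
  obtain ⟨l, hl, hy⟩ := h
  have hy' : k' *ᵥ yy m' = l⁻¹ • (k *ᵥ yy m) := by
    rw [hy, smul_smul, inv_mul_cancel₀ hl, one_smul]
  by_cases h1 : ∃ l1 : ℂ, l1 ≠ 0 ∧ k *ᵥ e1 = l1 • (k' *ᵥ e1)
  · obtain ⟨l1, hl1, h1⟩ := h1
    have h1' : k' *ᵥ e1 = l1⁻¹ • (k *ᵥ e1) := by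
      rw [h1, smul_smul, inv_mul_cancel₀ hl1, one_smul]
    exact Set.Subset.antisymm (M1_case1 hD hk' hk (inv_ne_zero hl) hy' (inv_ne_zero hl1) h1')
      (M1_case1 hD hk hk' hl hy hl1 h1)
  · have h1' : ¬ ∃ l1 : ℂ, l1 ≠ 0 ∧ k' *ᵥ e1 = l1 • (k *ᵥ e1) := by
      rintro ⟨l1, hl1, h2⟩
      exact h1 ⟨l1⁻¹, inv_ne_zero hl1, by rw [h2, smul_smul, inv_mul_cancel₀ hl1, one_smul]⟩
    exact Set.Subset.antisymm (M1_case2 hD hk hk' hy h1) (M1_case2 hD hk' hk hy' h1')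

end Kd

end Pool.Agent.MPd01a95.KT
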