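import Mathlib
import Pool.Agent.Lib.MP_d01a95_gt_K.KDefs2
import Pool.Agent.Lib.SCV.Osgood

set_option autoImplicit false
set_option linter.all false

open Matrix Filter Topology MeasureTheory
open scoped ContDiff

namespace Pool.Agent.MPd01a95.KT

open GU

variable {G : Type} [Group G]

open Metric in
/-- the zeros in a closed disc are finitely many -/
theorem M2_fin (b : ℂ) (ρ : ℝ) (hρ : 0 < ρ) (v : ℂ → ℂ) (hv : AnalyticOnNhd ℂ v (closedBall b ρ))
    (hne : ∀ z ∈ sphere b ρ, v z ≠ 0) : {z | z ∈ closedBall b ρ ∧ v z = 0}.Finite := by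
  by_contra hinf
  have hinf' : {z | z ∈ closedBall b ρ ∧ v z = 0}.Infinite := hinf
  obtain ⟨x, hx, hacc⟩ := hinf'.exists_accPt_of_subset_isCompact (isCompact_closedBall b ρ)
    (fun z hz => hz.1)
  rw [accPt_iff_frequently_nhdsNE] at hacc
  have h1 : ∃ᶠ z in 𝓝[≠] x, v z = 0 := hacc.mono fun z hz => hz.2
  have h2 := hv.eqOn_zero_of_preconnected_of_frequently_eq_zero
    (convex_closedBall b ρ).isPreconnected hx h1
  obtain ⟨y, hy⟩ := (NormedSpace.sphere_nonempty (x := b) (r := ρ)).2 hρ.le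
  exact hne y hy (h2 (sphere_subset_closedBall hy))

open Metric in
theorem M2_ind (b : ℂ) (ρ : ℝ) (hρ : 0 < ρ) (n : ℕ) : ∀ (v : ℂ → ℂ),
    AnalyticOnNhd ℂ v (closedBall b ρ) → (∀ z ∈ sphere b ρ, v z ≠ 0) →
    {z | z ∈ closedBall b ρ ∧ v z = 0}.ncard = n →
    ∃ (S : Finset ℂ) (m : ℂ → ℕ), (∀ a ∈ S, a ∈ ball b ρ ∧ v a = 0 ∧ 1 ≤ m a) ∧
      (∀ z ∈ closedBall b ρ, v z = 0 → z ∈ S) ∧
      ∀ g : ℂ → ℂ, AnalyticOnNhd ℂ g (closedBall b ρ) →
        (∮ z in C(b, ρ), g z * logDeriv v z) = 2 * Real.pi * Complex.I * ∑ a ∈ S, (m a : ℂ) * g a := by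
  induction n with
  | zero =>
    intro v hv hne hc
    have hfin := M2_fin b ρ hρ v hv hne
    have hemp : {z | z ∈ closedBall b ρ ∧ v z = 0} = ∅ := (Set.ncard_eq_zero hfin).1 hc
    have hnz : ∀ z ∈ closedBall b ρ, v z ≠ 0 := by
      intro z hz h0
      have : z ∈ {z | z ∈ closedBall b ρ ∧ v z = 0} := ⟨hz, h0⟩
      rw [hemp] at this
      exact this
    refine ⟨∅, fun _ => 0, by simp, fun z hz h0 => absurd h0 (hnz z hz), ?_⟩
    intro g hg
    have han : AnalyticOnNhd ℂ (fun z => g z * logDeriv v z) (closedBall b ρ) := by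
      intro z hz
      have h1 : AnalyticAt ℂ (fun z => deriv v z / v z) z :=
        ((hv z hz).deriv).div (hv z hz) (hnz z hz)
      exact (hg z hz).mul h1
    rw [Finset.sum_empty, mul_zero]
    exact Complex.circleIntegral_eq_zero_of_differentiable_on_off_countable hρ.le
      Set.countable_empty han.continuousOn
      (fun z hz => (han z (ball_subset_closedBall hz.1)).differentiableAt)
  | succ n ih =>
    intro v hv hne hc
    have hfin := M2_fin b ρ hρ v hv hne
    have hnem : {z | z ∈ closedBall b ρ ∧ v z = 0}.Nonempty := by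
      rw [← Set.ncard_pos hfin]
      omega
    obtain ⟨a, ha, ha0⟩ := hnem
    have haball : a ∈ ball b ρ := by
      rcases lt_or_eq_of_le (mem_closedBall.1 ha) with h | h
      · exact mem_ball.2 h
      · exact absurd ha0 (hne a (mem_sphere.2 h))
    -- the order at `a`
    have hord : analyticOrderAt v a ≠ ⊤ := by
      intro htop
      rw [analyticOrderAt_eq_top] at htop
      have h1 : ∃ᶠ z in 𝓝[≠] a, v z = 0 :=
        (htop.filter_mono nhdsWithin_le_nhds).frequently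
      have h2 := hv.eqOn_zero_of_preconnected_of_frequently_eq_zero
        (convex_closedBall b ρ).isPreconnected ha h1
      obtain ⟨y, hy⟩ := (NormedSpace.sphere_nonempty (x := b) (r := ρ)).2 hρ.le
      exact hne y hy (h2 (sphere_subset_closedBall hy))
    obtain ⟨k, hk⟩ := ENat.ne_top_iff_exists.1 hord
    obtain ⟨h, hh, hha, hev⟩ := ((hv a ha).analyticOrderAt_eq_natCast).1 hk.symm
    have hk1 : 1 ≤ k := by
      by_contra hcon
      have hk0 : k = 0 := by omega
      subst hk0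
      have := hev.self_of_nhds
      simp only [pow_zero, one_smul] at this
      exact hha (this.symm.trans ha0)
    classical
    set w : ℂ → ℂ := fun z => if z = a then h a else v z / (z - a) ^ k with hw
    have hvw : v = fun z => (z - a) ^ k * w z := by
      funext z
      by_cases hz : z = a
      · simp only [hw, hz, if_true, sub_self, ha0, zero_pow (by omega : k ≠ 0), zero_mul]
      · have : (z - a) ^ k ≠ 0 := pow_ne_zero _ (sub_ne_zero.2 hz)
        simp only [hw, hz, if_false]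
        field_simp
    have hwa : w a ≠ 0 := by simpa [hw] using hha
    have hwan : AnalyticOnNhd ℂ w (closedBall b ρ) := by
      intro z hz
      by_cases hza : z = a
      · subst hza
        refine hh.congr ?_
        filter_upwards [hev] with y hy
        by_cases hya : y = z
        · simp only [hw, hya, if_true]
        · have : (y - z) ^ k ≠ 0 := pow_ne_zero _ (sub_ne_zero.2 hya)
          simp only [hw, hya, if_false, hy, smul_eq_mul]
          field_simp
      · have h1 : AnalyticAt ℂ (fun y => v y / (y - a) ^ k) z :=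
          (hv z hz).div ((analyticAt_id.sub analyticAt_const).pow k)
            (pow_ne_zero _ (sub_ne_zero.2 hza))
        refine h1.congr ?_
        filter_upwards [isOpen_ne.mem_nhds hza] with y hy
        have hy' : y ≠ a := hy
        simp only [hw, hy', if_false]
    have hwne : ∀ z ∈ sphere b ρ, w z ≠ 0 := by
      intro z hz h0
      apply hne z hz
      rw [hvw]
      simp only [h0, mul_zero]
    have hzero : {z | z ∈ closedBall b ρ ∧ w z = 0} = {z | z ∈ closedBall b ρ ∧ v z = 0} \ {a} := by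
      ext z
      simp only [Set.mem_setOf_eq, Set.mem_diff, Set.mem_singleton_iff]
      constructor
      · rintro ⟨h1, h2⟩
        refine ⟨⟨h1, ?_⟩, ?_⟩
        · rw [hvw]
          simp only [h2, mul_zero]
        · rintro rfl
          exact hwa h2
      · rintro ⟨⟨h1, h2⟩, h3⟩
        refine ⟨h1, ?_⟩
        simp only [hw, h3, if_false, h2, zero_div]
    have hcard : {z | z ∈ closedBall b ρ ∧ w z = 0}.ncard = n := by
      have hmem : a ∈ {z | z ∈ closedBall b ρ ∧ v z = 0} := ⟨ha, ha0⟩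
      rw [hzero, Set.ncard_diff_singleton_of_mem hmem, hc]
      rfl
    obtain ⟨S, m, hS1, hS2, hS3⟩ := ih w hwan hwne hcard
    have haS : a ∉ S := fun haS => hwa (hS1 a haS).2.1
    refine ⟨insert a S, fun z => if z = a then k else m z, ?_, ?_, ?_⟩
    · intro z hz
      rcases Finset.mem_insert.1 hz with rfl | hz
      · exact ⟨haball, ha0, by simpa using hk1⟩
      · have hza : z ≠ a := fun h => haS (h ▸ hz)
        obtain ⟨h1, h2, h3⟩ := hS1 z hz
        refine ⟨h1, ?_, by simpa [hza] using h3⟩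
        rw [hvw]
        simp only [h2, mul_zero]
    · intro z hz h0
      by_cases hza : z = a
      · exact Finset.mem_insert.2 (Or.inl hza)
      · refine Finset.mem_insert.2 (Or.inr (hS2 z hz ?_))
        simp only [hw, hza, if_false, h0, zero_div]
    · intro g hg
      have hlog : ∀ z ∈ sphere b ρ, g z * logDeriv v z =
          (k : ℂ) * ((z - a)⁻¹ • g z) + g z * logDeriv w z := by
        intro z hz
        have hza : z ≠ a := by
          rintro rfl
          exact absurd (mem_sphere.1 hz) (ne_of_lt (mem_ball.1 haball))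
        have hza' : z - a ≠ 0 := sub_ne_zero.2 hza
        have h1 : logDeriv v z = logDeriv (fun z => (z - a) ^ k) z + logDeriv w z := by
          conv_lhs => rw [hvw]
          exact logDeriv_mul z (pow_ne_zero _ hza') (hwne z hz)
            (by fun_prop) (hwan z (sphere_subset_closedBall hz)).differentiableAt
        have h2 : logDeriv (fun z : ℂ => (z - a) ^ k) z = k * (z - a)⁻¹ := by
          rw [logDeriv_apply]
          have h3 : HasDerivAt (fun z : ℂ => (z - a) ^ k) (k * (z - a) ^ (k - 1) * 1) z :=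
            ((hasDerivAt_id z).sub_const a).pow k
          rw [h3.deriv]
          obtain ⟨j, rfl⟩ : ∃ j, k = j + 1 := ⟨k - 1, by omega⟩
          rw [Nat.add_sub_cancel, pow_succ]
          field_simp
        rw [h1, h2, smul_eq_mul]
        ring
      have hint1 : CircleIntegrable (fun z => (k : ℂ) * ((z - a)⁻¹ • g z)) b ρ := by
        apply ContinuousOn.circleIntegrable hρ.le
        apply ContinuousOn.mul continuousOn_const
        simp only [smul_eq_mul]
        apply ContinuousOn.mul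
        · apply ContinuousOn.inv₀ (by fun_prop)
          intro z hz
          rw [sub_ne_zero]
          rintro rfl
          exact absurd (mem_sphere.1 hz) (ne_of_lt (mem_ball.1 haball))
        · exact hg.continuousOn.mono sphere_subset_closedBall
      have hint2 : CircleIntegrable (fun z => g z * logDeriv w z) b ρ := by
        apply ContinuousOn.circleIntegrable hρ.le
        intro z hz
        have hzc := sphere_subset_closedBall hz
        have h1 : AnalyticAt ℂ (fun z => deriv w z / w z) z :=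
          ((hwan z hzc).deriv).div (hwan z hzc) (hwne z hz)
        exact (((hg z hzc).mul h1).continuousAt).continuousWithinAt
      rw [circleIntegral.integral_congr hρ.le hlog, circleIntegral.integral_add hint1 hint2,
        circleIntegral.integral_const_mul, hS3 g hg, Finset.sum_insert haS]
      have h4 : (∮ z in C(b, ρ), (z - a)⁻¹ • g z) = (2 * Real.pi * Complex.I : ℂ) • g a :=
        DifferentiableOn.circleIntegral_sub_inv_smul
          (fun z hz => (hg z hz).differentiableAt.differentiableWithinAt) haball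
      rw [h4, smul_eq_mul]
      have h5 : ∑ x ∈ S, ((if x = a then k else m x : ℕ) : ℂ) * g x = ∑ x ∈ S, (m x : ℂ) * g x := by
        apply Finset.sum_congr rfl
        intro x hx
        have hxa : x ≠ a := fun h => haS (h ▸ hx)
        simp only [hxa, if_false]
      rw [h5]
      simp only [if_true]
      ring

open Metric in
theorem M2_fac (b : ℂ) (ρ : ℝ) (hρ : 0 < ρ) (v : ℂ → ℂ)
    (hv : AnalyticOnNhd ℂ v (closedBall b ρ)) (hne : ∀ z ∈ sphere b ρ, v z ≠ 0) :
    ∃ (S : Finset ℂ) (m : ℂ → ℕ), (∀ a ∈ S, a ∈ ball b ρ ∧ v a = 0 ∧ 1 ≤ m a) ∧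
      (∀ z ∈ closedBall b ρ, v z = 0 → z ∈ S) ∧
      ∀ g : ℂ → ℂ, AnalyticOnNhd ℂ g (closedBall b ρ) →
        (∮ z in C(b, ρ), g z * logDeriv v z) = 2 * Real.pi * Complex.I * ∑ a ∈ S, (m a : ℂ) * g a :=
  M2_ind b ρ hρ _ v hv hne rfl

/-- equality in the triangle inequality -/
theorem M2_eq (S : Finset ℂ) (m : ℂ → ℕ) (g : ℂ → ℂ) (c : ℂ) (hm : ∀ a ∈ S, 1 ≤ m a)
    (hg : ∀ a ∈ S, ‖g a‖ ≤ ‖c‖) (h : ∑ a ∈ S, (m a : ℂ) * g a = (∑ a ∈ S, (m a : ℂ)) * c) :
    ∀ a ∈ S, g a = c := by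
  have h1 : ∑ a ∈ S, (m a : ℝ) * (‖c‖ ^ 2 - (star c * g a).re) = 0 := by
    have h2 : ∑ a ∈ S, (m a : ℂ) * (star c * c - star c * g a) = 0 := by
      have h3 : ∀ a ∈ S, (m a : ℂ) * (star c * c - star c * g a) =
          star c * ((m a : ℂ) * c - (m a : ℂ) * g a) := fun a _ => by ring
      rw [Finset.sum_congr rfl h3, ← Finset.mul_sum, Finset.sum_sub_distrib, h, ← Finset.sum_mul,
        sub_self, mul_zero]
    have h4 := congrArg Complex.re h2
    rw [Complex.re_sum, Complex.zero_re] at h4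
    rw [← h4]
    apply Finset.sum_congr rfl
    intro a ha
    have h5 : star c * c = ((‖c‖ ^ 2 : ℝ) : ℂ) := by
      rw [Complex.star_def, ← Complex.normSq_eq_conj_mul_self, Complex.normSq_eq_norm_sq]
    rw [h5, ← Complex.ofReal_natCast, Complex.re_ofReal_mul, Complex.sub_re, Complex.ofReal_re]
  have hre : ∀ a ∈ S, (star c * g a).re ≤ ‖c‖ ^ 2 := by
    intro a ha
    calc (star c * g a).re ≤ ‖star c * g a‖ := Complex.re_le_norm _
      _ = ‖c‖ * ‖g a‖ := by rw [norm_mul, norm_star]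
      _ ≤ ‖c‖ * ‖c‖ := by gcongr; exact hg a ha
      _ = ‖c‖ ^ 2 := by ring
  have h6 : ∀ a ∈ S, 0 ≤ (m a : ℝ) * (‖c‖ ^ 2 - (star c * g a).re) := by
    intro a ha
    exact mul_nonneg (Nat.cast_nonneg _) (sub_nonneg.2 (hre a ha))
  have h7 := (Finset.sum_eq_zero_iff_of_nonneg h6).1 h1
  intro a ha
  have h8 := h7 a ha
  have h9 : (m a : ℝ) ≠ 0 := by
    have := hm a ha
    positivity
  have h10 : ‖c‖ ^ 2 - (star c * g a).re = 0 := by
    rcases mul_eq_zero.1 h8 with h | h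
    · exact absurd h h9
    · exact h
  have h11 : ‖g a - c‖ ^ 2 ≤ 0 := by
    have h12 : ‖g a - c‖ ^ 2 = ‖g a‖ ^ 2 + ‖c‖ ^ 2 - 2 * (star c * g a).re := by
      rw [← Complex.normSq_eq_norm_sq, ← Complex.normSq_eq_norm_sq, ← Complex.normSq_eq_norm_sq]
      simp only [Complex.normSq_apply, Complex.sub_re, Complex.sub_im, Complex.mul_re,
        Complex.star_def, Complex.conj_re, Complex.conj_im]
      ring
    have h13 : ‖g a‖ ^ 2 ≤ ‖c‖ ^ 2 := by
      have := hg a ha
      gcongr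
    rw [h12]
    linarith
  have h14 : ‖g a - c‖ = 0 := by
    have : 0 ≤ ‖g a - c‖ ^ 2 := by positivity
    have h15 : ‖g a - c‖ ^ 2 = 0 := le_antisymm h11 this
    exact pow_eq_zero_iff (two_ne_zero) |>.1 h15
  exact sub_eq_zero.1 (norm_eq_zero.1 h14)

/-- a continuous function with natural values on a preconnected set is constant -/
theorem M2_nat {U : Set ℂ} (hU : IsPreconnected U) (N : ℂ → ℂ) (hN : ContinuousOn N U) (k : ℂ → ℕ)
    (hk : ∀ s ∈ U, N s = (k s : ℂ)) {s t : ℂ} (hs : s ∈ U) (ht : t ∈ U) : k s = k t := by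
  have hI : IsPreconnected ((fun s => (N s).re) '' U) :=
    hU.image _ (Complex.continuous_re.comp_continuousOn hN)
  have hv : ∀ s ∈ U, (N s).re = (k s : ℝ) := by
    intro s hs
    rw [hk s hs, Complex.natCast_re]
  have key : ∀ s ∈ U, ∀ t ∈ U, ¬ k s < k t := by
    intro s hs t ht hlt
    have h1 : Set.Icc (k s : ℝ) (k t : ℝ) ⊆ (fun s => (N s).re) '' U :=
      hI.Icc_subset ⟨s, hs, hv s hs⟩ ⟨t, ht, hv t ht⟩
    have h2 : ((k s : ℝ) + 1 / 2) ∈ Set.Icc (k s : ℝ) (k t : ℝ) := by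
      refine ⟨by linarith, ?_⟩
      have : (k s : ℝ) + 1 ≤ k t := by exact_mod_cast hlt
      linarith
    obtain ⟨x, hx, hx2⟩ := h1 h2
    have h3 : (k x : ℝ) = (k s : ℝ) + 1 / 2 := by
      rw [← hv x hx]
      exact hx2
    have h4 : (2 * k x : ℝ) = ((2 * k s + 1 : ℕ) : ℝ) := by
      push_cast
      linarith
    have h5 : 2 * k x = 2 * k s + 1 := by exact_mod_cast h4
    omega
  exact le_antisymm (not_lt.1 (key t ht s hs)) (not_lt.1 (key s hs t ht))

open Metric in
/-- contour integrals with a parameter -/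
theorem M2_par {a b : ℂ} {r ρ : ℝ} (hρ : 0 < ρ) (H : ℂ × ℂ → ℂ)
    (hH : ∀ s ∈ ball a r, ∀ z ∈ sphere b ρ, AnalyticAt ℂ H (s, z)) :
    DifferentiableOn ℂ (fun s => ∮ z in C(b, ρ), H (s, z)) (ball a r) := by
  have h1 := Pool.Agent.SCV.analyticOnNhd_cauchy b ρ hρ.le (ball a r) isOpen_ball
    (fun x => (x.2 - b) * H x)
    (by
      rintro ⟨s, z⟩ ⟨hs, hz⟩
      have h2 : AnalyticAt ℂ (fun x : ℂ × ℂ => (x.2 - b) * H x) (s, z) :=
        (analyticAt_snd.sub analyticAt_const).mul (hH s hs z hz)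
      exact h2.continuousAt.continuousWithinAt)
    (by
      intro z hz s hs
      have h2 : AnalyticAt ℂ (fun x : ℂ × ℂ => (x.2 - b) * H x) (s, z) :=
        (analyticAt_snd.sub analyticAt_const).mul (hH s hs z hz)
      exact h2.curry_left.differentiableAt.differentiableWithinAt)
  intro s hs
  have h3 := (h1 (s, b) ⟨hs, mem_ball_self hρ⟩).curry_left.differentiableAt
  have h4 : DifferentiableAt ℂ (fun s => (2 * Real.pi * Complex.I : ℂ) *
      ((2 * Real.pi * Complex.I : ℂ)⁻¹ • ∮ ζ in C(b, ρ), (ζ - b)⁻¹ • ((ζ - b) * H (s, ζ)))) s :=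
    h3.const_mul _
  have h5 : (fun s => (2 * Real.pi * Complex.I : ℂ) *
      ((2 * Real.pi * Complex.I : ℂ)⁻¹ • ∮ ζ in C(b, ρ), (ζ - b)⁻¹ • ((ζ - b) * H (s, ζ)))) =
      fun s => ∮ z in C(b, ρ), H (s, z) := by
    funext s
    rw [smul_eq_mul, ← mul_assoc, mul_inv_cancel₀ Complex.two_pi_I_ne_zero, one_mul]
    apply circleIntegral.integral_congr hρ.le
    intro z hz
    have hzb : z - b ≠ 0 := by
      rw [sub_ne_zero]
      rintro rfl
      rw [mem_sphere, dist_self] at hz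
      exact hρ.ne hz
    show (z - b)⁻¹ • ((z - b) * H (s, z)) = H (s, z)
    rw [smul_eq_mul, ← mul_assoc, inv_mul_cancel₀ hzb, one_mul]
  rw [h5] at h4
  exact h4.differentiableWithinAt

open Metric in
theorem M2_core {u f : ℂ × ℂ → ℂ} {U : Set (ℂ × ℂ)} (hU : IsOpen U) (hu : AnalyticOnNhd ℂ u U)
    (hf : AnalyticOnNhd ℂ f U) {a b : ℂ} (hp : (a, b) ∈ U) (hp0 : u (a, b) = 0)
    (hne : ¬ ∀ᶠ z in 𝓝 b, u (a, z) = 0)
    (hmax : ∀ x ∈ U, u x = 0 → ‖f x‖ ≤ ‖f (a, b)‖) (ε : ℝ) (hε : 0 < ε) :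
    ∃ ρ r : ℝ, 0 < ρ ∧ ρ < ε ∧ 0 < r ∧ r < ε ∧ (∀ s ∈ ball a r, ∃ z ∈ ball b ρ, u (s, z) = 0) ∧
      ∀ s ∈ ball a r, ∀ z ∈ closedBall b ρ, u (s, z) = 0 → f (s, z) = f (a, b) := by
  -- isolated zero
  have hg0 : AnalyticAt ℂ (fun z => u (a, z)) b := (hu (a, b) hp).curry_right
  have hiso : ∀ᶠ z in 𝓝[≠] b, u (a, z) ≠ 0 :=
    (hg0.eventually_eq_zero_or_eventually_ne_zero).resolve_left hne
  rw [eventually_nhdsWithin_iff] at hiso
  obtain ⟨δ, hδ, hδ2⟩ := Metric.eventually_nhds_iff_ball.1 hiso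
  obtain ⟨η, hη, hη2⟩ := Metric.isOpen_iff.1 hU _ hp
  obtain ⟨ρ, hρ, hρε, hρδ, hρη⟩ : ∃ ρ : ℝ, 0 < ρ ∧ ρ < ε ∧ ρ < δ ∧ ρ < η := by
    refine ⟨min ε (min δ η) / 2, by positivity, ?_, ?_, ?_⟩
    · have := min_le_left ε (min δ η)
      have h0 : 0 < min ε (min δ η) := by positivity
      linarith
    · have := (min_le_right ε (min δ η)).trans (min_le_left δ η)
      have h0 : 0 < min ε (min δ η) := by positivity
      linarith
    · have := (min_le_right ε (min δ η)).trans (min_le_right δ η)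
      have h0 : 0 < min ε (min δ η) := by positivity
      linarith
  have hzero_a : ∀ z ∈ closedBall b ρ, u (a, z) = 0 → z = b := by
    intro z hz h0
    by_contra hzb
    exact hδ2 z (mem_ball.2 (lt_of_le_of_lt (mem_closedBall.1 hz) hρδ)) hzb h0
  have hUmem : ∀ s z : ℂ, dist s a < η → z ∈ closedBall b ρ → (s, z) ∈ U := by
    intro s z hs hz
    apply hη2
    rw [mem_ball, Prod.dist_eq]
    exact max_lt hs (lt_of_le_of_lt (mem_closedBall.1 hz) hρη)
  have hcirc : ∀ᶠ s in 𝓝 a, ∀ z ∈ sphere b ρ, u (s, z) ≠ 0 := by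
    refine (isCompact_sphere b ρ).eventually_forall_of_forall_eventually
      (P := fun s z => u (s, z) ≠ 0) ?_
    intro z hz
    have hzU : (a, z) ∈ U := hUmem a z (by rw [dist_self]; exact hη) (sphere_subset_closedBall hz)
    have hne0 : u (a, z) ≠ 0 := by
      intro h0
      have := hzero_a z (sphere_subset_closedBall hz) h0
      rw [this, mem_sphere, dist_self] at hz
      exact hρ.ne hz
    exact (hu (a, z) hzU).continuousAt.eventually_ne hne0
  obtain ⟨r₀, hr₀, hr₀2⟩ := Metric.eventually_nhds_iff_ball.1 hcirc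
  obtain ⟨r, hr, hrε, hrr, hrη⟩ : ∃ r : ℝ, 0 < r ∧ r < ε ∧ r < r₀ ∧ r < η := by
    refine ⟨min ε (min r₀ η) / 2, by positivity, ?_, ?_, ?_⟩
    · have := min_le_left ε (min r₀ η)
      have h0 : 0 < min ε (min r₀ η) := by positivity
      linarith
    · have := (min_le_right ε (min r₀ η)).trans (min_le_left r₀ η)
      have h0 : 0 < min ε (min r₀ η) := by positivity
      linarith
    · have := (min_le_right ε (min r₀ η)).trans (min_le_right r₀ η)
      have h0 : 0 < min ε (min r₀ η) := by positivity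
      linarith
  have hball : ∀ s ∈ ball a r, ∀ z ∈ closedBall b ρ, (s, z) ∈ U := fun s hs z hz =>
    hUmem s z ((mem_ball.1 hs).trans hrη) hz
  have hsph : ∀ s ∈ ball a r, ∀ z ∈ sphere b ρ, u (s, z) ≠ 0 := fun s hs z hz =>
    hr₀2 s (mem_ball.2 ((mem_ball.1 hs).trans hrr)) z hz
  have hfac : ∀ s ∈ ball a r, _ := fun s hs => M2_fac b ρ hρ (fun z => u (s, z))
    (fun z hz => (hu (s, z) (hball s hs z hz)).curry_right) (hsph s hs)
  classical
  choose! S m hS1 hS2 hS3 using hfac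
  -- the integrand
  set D : ℂ × ℂ → ℂ := fun x => fderiv ℂ u x (0, 1) / u x with hD
  have hDan : ∀ s ∈ ball a r, ∀ z ∈ sphere b ρ, AnalyticAt ℂ D (s, z) := by
    intro s hs z hz
    have h1 : AnalyticAt ℂ (fderiv ℂ u) (s, z) :=
      (hu (s, z) (hball s hs z (sphere_subset_closedBall hz))).fderiv
    have h2 : AnalyticAt ℂ (fun x => fderiv ℂ u x (0, 1)) (s, z) :=
      ((ContinuousLinearMap.apply ℂ ℂ ((0 : ℂ), (1 : ℂ))).analyticAt _).comp h1
    exact h2.div (hu (s, z) (hball s hs z (sphere_subset_closedBall hz))) (hsph s hs z hz)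
  have hDlog : ∀ s ∈ ball a r, ∀ z ∈ sphere b ρ, D (s, z) = logDeriv (fun z => u (s, z)) z := by
    intro s hs z hz
    have h1 : HasFDerivAt u (fderiv ℂ u (s, z)) (s, z) :=
      (hu (s, z) (hball s hs z (sphere_subset_closedBall hz))).differentiableAt.hasFDerivAt
    have h2 : HasDerivAt (fun z : ℂ => (s, z)) ((0 : ℂ), (1 : ℂ)) z :=
      (hasDerivAt_const z s).prodMk (hasDerivAt_id z)
    have h3 : HasDerivAt (fun z => u (s, z)) (fderiv ℂ u (s, z) (0, 1)) z :=
      HasFDerivAt.comp_hasDerivAt z (f := fun z : ℂ => (s, z)) h1 h2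
    rw [logDeriv_apply, h3.deriv]
  have hval : ∀ F : ℂ × ℂ → ℂ, AnalyticOnNhd ℂ F U → ∀ s ∈ ball a r,
      (∮ z in C(b, ρ), F (s, z) * D (s, z)) =
        2 * Real.pi * Complex.I * ∑ x ∈ S s, (m s x : ℂ) * F (s, x) := by
    intro F hF s hs
    rw [← hS3 s hs (fun z => F (s, z)) (fun z hz => (hF (s, z) (hball s hs z hz)).curry_right)]
    apply circleIntegral.integral_congr hρ.le
    intro z hz
    show F (s, z) * D (s, z) = F (s, z) * logDeriv (fun z => u (s, z)) z
    rw [hDlog s hs z hz]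
  have hdiff : ∀ F : ℂ × ℂ → ℂ, AnalyticOnNhd ℂ F U →
      DifferentiableOn ℂ (fun s => ∑ x ∈ S s, (m s x : ℂ) * F (s, x)) (ball a r) := by
    intro F hF
    have h1 := M2_par (a := a) (b := b) (r := r) hρ (fun x => F x * D x)
      (fun s hs z hz => (hF (s, z) (hball s hs z (sphere_subset_closedBall hz))).mul
        (hDan s hs z hz))
    have h2 : DifferentiableOn ℂ (fun s => (2 * Real.pi * Complex.I : ℂ)⁻¹ *
        ∮ z in C(b, ρ), F (s, z) * D (s, z)) (ball a r) := h1.const_mul _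
    refine h2.congr ?_
    intro s hs
    show _ = (2 * Real.pi * Complex.I : ℂ)⁻¹ * ∮ z in C(b, ρ), F (s, z) * D (s, z)
    rw [hval F hF s hs, ← mul_assoc, inv_mul_cancel₀ Complex.two_pi_I_ne_zero, one_mul]
  have hN := hdiff (fun _ => 1) (fun _ _ => analyticAt_const)
  have hE := hdiff f hf
  have hpre : IsPreconnected (ball a r) := (convex_ball a r).isPreconnected
  have haa : a ∈ ball a r := mem_ball_self hr
  have hbb : b ∈ closedBall b ρ := mem_closedBall_self hρ.le
  have hconst : ∀ s ∈ ball a r, ∑ x ∈ S s, m s x = ∑ x ∈ S a, m a x := by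
    intro s hs
    refine M2_nat hpre _ hN.continuousOn (fun s => ∑ x ∈ S s, m s x) ?_ hs haa
    intro s _
    push_cast
    apply Finset.sum_congr rfl
    intro x _
    ring
  have hSa : S a = {b} := by
    apply Finset.eq_singleton_iff_unique_mem.2
    refine ⟨hS2 a haa b hbb hp0, ?_⟩
    intro x hx
    obtain ⟨h1, h2, -⟩ := hS1 a haa x hx
    exact hzero_a x (ball_subset_closedBall h1) h2
  have hma : 1 ≤ m a b := (hS1 a haa b (hS2 a haa b hbb hp0)).2.2
  have hsum : ∀ s ∈ ball a r, ∑ x ∈ S s, m s x = m a b := by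
    intro s hs
    rw [hconst s hs, hSa, Finset.sum_singleton]
  have hbd : ∀ s ∈ ball a r, ∀ x ∈ S s, ‖f (s, x)‖ ≤ ‖f (a, b)‖ := by
    intro s hs x hx
    obtain ⟨h1, h2, -⟩ := hS1 s hs x hx
    exact hmax _ (hball s hs x (ball_subset_closedBall h1)) h2
  have hmaxE : IsMaxOn (norm ∘ fun s => ∑ x ∈ S s, (m s x : ℂ) * f (s, x)) (ball a r) a := by
    intro s hs
    show ‖∑ x ∈ S s, (m s x : ℂ) * f (s, x)‖ ≤ ‖∑ x ∈ S a, (m a x : ℂ) * f (a, x)‖
    rw [hSa, Finset.sum_singleton, norm_mul, Complex.norm_natCast]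
    calc ‖∑ x ∈ S s, (m s x : ℂ) * f (s, x)‖ ≤ ∑ x ∈ S s, ‖(m s x : ℂ) * f (s, x)‖ :=
          norm_sum_le _ _
      _ ≤ ∑ x ∈ S s, (m s x : ℝ) * ‖f (a, b)‖ := by
          apply Finset.sum_le_sum
          intro x hx
          rw [norm_mul, Complex.norm_natCast]
          exact mul_le_mul_of_nonneg_left (hbd s hs x hx) (Nat.cast_nonneg _)
      _ = (m a b : ℝ) * ‖f (a, b)‖ := by
          rw [← Finset.sum_mul]
          congr 1
          exact_mod_cast congrArg (fun n : ℕ => (n : ℝ)) (hsum s hs)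
  have hEq := Complex.eqOn_of_isPreconnected_of_isMaxOn_norm hpre isOpen_ball hE haa hmaxE
  refine ⟨ρ, r, hρ, hρε, hr, hrε, ?_, ?_⟩
  · intro s hs
    have h1 := hsum s hs
    have hnem : (S s).Nonempty := by
      by_contra hcon
      rw [Finset.not_nonempty_iff_eq_empty] at hcon
      rw [hcon, Finset.sum_empty] at h1
      omega
    obtain ⟨x, hx⟩ := hnem
    obtain ⟨h2, h3, -⟩ := hS1 s hs x hx
    exact ⟨x, h2, h3⟩
  · intro s hs z hz h0
    have h1 : ∑ x ∈ S s, (m s x : ℂ) * f (s, x) = ∑ x ∈ S a, (m a x : ℂ) * f (a, x) := hEq hs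
    rw [hSa, Finset.sum_singleton] at h1
    have h2 : ∑ x ∈ S s, (m s x : ℂ) * f (s, x) = (∑ x ∈ S s, (m s x : ℂ)) * f (a, b) := by
      rw [h1]
      congr 1
      exact_mod_cast congrArg (fun n : ℕ => (n : ℂ)) (hsum s hs).symm
    exact M2_eq (S s) (m s) (fun x => f (s, x)) (f (a, b)) (fun x hx => (hS1 s hs x hx).2.2)
      (hbd s hs) h2 z (hS2 s hs z hz h0)

theorem M2_lin (v : ℂ × ℂ) (hv : v ≠ 0) : ∃ L : (ℂ × ℂ) ≃L[ℂ] (ℂ × ℂ), L (0, 1) = v := by
  by_cases h2 : v.2 = 0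
  · have h1 : v.1 ≠ 0 := by
      intro h1
      exact hv (Prod.ext h1 h2)
    refine ⟨ContinuousLinearEquiv.equivOfInverse
      ((v.1 • ContinuousLinearMap.snd ℂ ℂ ℂ).prod (ContinuousLinearMap.fst ℂ ℂ ℂ))
      ((ContinuousLinearMap.snd ℂ ℂ ℂ).prod (v.1⁻¹ • ContinuousLinearMap.fst ℂ ℂ ℂ)) ?_ ?_, ?_⟩
    · intro x
      refine Prod.ext ?_ ?_
      · simp
      · simp [h1]
    · intro x
      refine Prod.ext ?_ ?_
      · simp [h1]
      · simp
    · refine Prod.ext ?_ ?_
      · simp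
      · simp [h2]
  · refine ⟨ContinuousLinearEquiv.equivOfInverse
      ((ContinuousLinearMap.fst ℂ ℂ ℂ + v.1 • ContinuousLinearMap.snd ℂ ℂ ℂ).prod
        (v.2 • ContinuousLinearMap.snd ℂ ℂ ℂ))
      ((ContinuousLinearMap.fst ℂ ℂ ℂ - (v.1 / v.2) • ContinuousLinearMap.snd ℂ ℂ ℂ).prod
        (v.2⁻¹ • ContinuousLinearMap.snd ℂ ℂ ℂ)) ?_ ?_, ?_⟩
    · intro x
      refine Prod.ext ?_ ?_
      · simp
        field_simp
        ring
      · simp [h2]
    · intro x
      refine Prod.ext ?_ ?_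
      · simp
        field_simp
        ring
      · simp [h2]
    · refine Prod.ext ?_ ?_
      · simp
      · simp

open Metric in
/-- module M2: maximum principle on a curve in a surface -/
theorem max_curve {u f : ℂ × ℂ → ℂ} {U : Set (ℂ × ℂ)} (hU : IsOpen U)
    (hu : DifferentiableOn ℂ u U) (hf : DifferentiableOn ℂ f U) {p : ℂ × ℂ} (hp : p ∈ U)
    (hp0 : u p = 0) (hne : ¬ ∀ᶠ x in 𝓝 p, u x = 0) (hmax : ∀ x ∈ U, u x = 0 → ‖f x‖ ≤ ‖f p‖) :
    (∀ᶠ x in 𝓝 p, u x = 0 → f x = f p) ∧ ∃ᶠ x in 𝓝[≠] p, u x = 0 := by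
  have hua := Pool.Agent.SCV.differentiableOn_analyticOnNhd U hU u hu
  have hfa := Pool.Agent.SCV.differentiableOn_analyticOnNhd U hU f hf
  obtain ⟨R, hR, hRU⟩ := Metric.isOpen_iff.1 hU p hp
  obtain ⟨w, hwR, hw0⟩ : ∃ w ∈ ball p R, u w ≠ 0 := by
    by_contra hcon
    push Not at hcon
    exact hne (Filter.eventually_of_mem (ball_mem_nhds p hR) hcon)
  set v : ℂ × ℂ := w - p with hv
  have hv0 : v ≠ 0 := by
    intro h0
    rw [hv, sub_eq_zero] at h0
    rw [h0] at hw0
    exact hw0 hp0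
  have hvR : ‖v‖ < R := by
    rw [hv, ← dist_eq_norm]
    exact mem_ball.1 hwR
  have hvpos : 0 < ‖v‖ := norm_pos_iff.2 hv0
  obtain ⟨L, hL⟩ := M2_lin v hv0
  have hTa : ∀ y, AnalyticAt ℂ (fun y : ℂ × ℂ => p + L y) y := fun y =>
    analyticAt_const.add ((L : (ℂ × ℂ) →L[ℂ] (ℂ × ℂ)).analyticAt y)
  have hTc : Continuous fun y : ℂ × ℂ => p + L y := continuous_const.add L.continuous
  have hU' : IsOpen ((fun y : ℂ × ℂ => p + L y) ⁻¹' U) := hU.preimage hTc
  have hT0 : p + L (0, 0) = p := by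
    have : L (0, 0) = 0 := L.map_zero
    rw [this, add_zero]
  have hu' : AnalyticOnNhd ℂ (fun y : ℂ × ℂ => u (p + L y)) ((fun y : ℂ × ℂ => p + L y) ⁻¹' U) :=
    fun y hy => AnalyticAt.fun_comp (g := u) (f := fun y : ℂ × ℂ => p + L y) (hua _ hy) (hTa y)
  have hf' : AnalyticOnNhd ℂ (fun y : ℂ × ℂ => f (p + L y)) ((fun y : ℂ × ℂ => p + L y) ⁻¹' U) :=
    fun y hy => AnalyticAt.fun_comp (g := f) (f := fun y : ℂ × ℂ => p + L y) (hfa _ hy) (hTa y)
  have h00 : ((0 : ℂ), (0 : ℂ)) ∈ (fun y : ℂ × ℂ => p + L y) ⁻¹' U := by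
    show p + L (0, 0) ∈ U
    rw [hT0]
    exact hp
  have hLz : ∀ z : ℂ, L (0, z) = z • v := by
    intro z
    rw [← hL, ← L.map_smul]
    congr 1
    refine Prod.ext ?_ ?_
    · simp
    · simp
  have hne' : ¬ ∀ᶠ z in 𝓝 (0 : ℂ), u (p + L (0, z)) = 0 := by
    intro hev
    have hW : ∀ z ∈ ball (0 : ℂ) (R / ‖v‖), p + L (0, z) ∈ U := by
      intro z hz
      apply hRU
      rw [mem_ball, dist_eq_norm, add_sub_cancel_left, hLz, norm_smul]
      rw [mem_ball_zero_iff, lt_div_iff₀ hvpos] at hz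
      exact hz
    have hA : AnalyticOnNhd ℂ (fun z : ℂ => u (p + L (0, z))) (ball (0 : ℂ) (R / ‖v‖)) := by
      intro z hz
      exact (hu' (0, z) (hW z hz)).curry_right
    have hE := hA.eqOn_zero_of_preconnected_of_eventuallyEq_zero
      (convex_ball (0 : ℂ) (R / ‖v‖)).isPreconnected (mem_ball_self (by positivity)) hev
    have h1 : (1 : ℂ) ∈ ball (0 : ℂ) (R / ‖v‖) := by
      rw [mem_ball_zero_iff, norm_one, lt_div_iff₀ hvpos, one_mul]
      exact hvR
    have h2 := hE h1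
    apply hw0
    have h3 : p + L (0, 1) = w := by
      rw [hL, hv]
      abel
    rw [← h3]
    exact h2
  have hmax' : ∀ x ∈ (fun y : ℂ × ℂ => p + L y) ⁻¹' U, u (p + L x) = 0 →
      ‖f (p + L x)‖ ≤ ‖f (p + L (0, 0))‖ := by
    intro x hx h0
    rw [hT0]
    exact hmax _ hx h0
  have hp0' : u (p + L (0, 0)) = 0 := by
    rw [hT0]
    exact hp0
  have core := M2_core hU' hu' hf' h00 hp0' hne' hmax'
  constructor
  · obtain ⟨ρ, r, hρ, -, hr, -, -, h2⟩ := core 1 one_pos
    have hc : Continuous fun x : ℂ × ℂ => L.symm (x - p) :=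
      L.symm.continuous.comp (continuous_id.sub continuous_const)
    have ho : IsOpen ((fun x : ℂ × ℂ => L.symm (x - p)) ⁻¹' (ball (0 : ℂ) r ×ˢ ball (0 : ℂ) ρ)) :=
      (isOpen_ball.prod isOpen_ball).preimage hc
    have hmem : p ∈ (fun x : ℂ × ℂ => L.symm (x - p)) ⁻¹' (ball (0 : ℂ) r ×ˢ ball (0 : ℂ) ρ) := by
      show L.symm (p - p) ∈ (ball (0 : ℂ) r ×ˢ ball (0 : ℂ) ρ : Set (ℂ × ℂ))
      rw [sub_self, map_zero]
      exact ⟨mem_ball_self hr, mem_ball_self hρ⟩
    filter_upwards [ho.mem_nhds hmem] with x hx hx0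
    have h3 : p + L (L.symm (x - p)) = x := by
      rw [L.apply_symm_apply]
      abel
    have h4 := h2 (L.symm (x - p)).1 hx.1 (L.symm (x - p)).2 (ball_subset_closedBall hx.2)
      (by
        show u (p + L (L.symm (x - p))) = 0
        rw [h3]
        exact hx0)
    have h5 : f (p + L (L.symm (x - p))) = f (p + L (0, 0)) := h4
    rw [h3, hT0] at h5
    exact h5
  · rw [Filter.frequently_iff]
    intro V hV
    obtain ⟨ε, hε, hεV⟩ := Metric.mem_nhdsWithin_iff.1 hV
    have hc0 : ContinuousAt (fun y : ℂ × ℂ => p + L y) (0, 0) := hTc.continuousAt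
    obtain ⟨ε', hε', hε'2⟩ := Metric.continuousAt_iff.1 hc0 ε hε
    obtain ⟨ρ, r, hρ, hρε, hr, hrε, h1, -⟩ := core ε' hε'
    have hs : ((r / 2 : ℝ) : ℂ) ∈ ball (0 : ℂ) r := by
      rw [mem_ball_zero_iff, Complex.norm_real, Real.norm_of_nonneg (by linarith)]
      linarith
    obtain ⟨z, hz, hz0⟩ := h1 _ hs
    have hsne : ((r / 2 : ℝ) : ℂ) ≠ 0 := by
      rw [Ne, Complex.ofReal_eq_zero]
      linarith
    refine ⟨p + L (((r / 2 : ℝ) : ℂ), z), hεV ⟨?_, ?_⟩, hz0⟩
    · rw [mem_ball]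
      have h2 : dist ((((r / 2 : ℝ) : ℂ), z) : ℂ × ℂ) (0, 0) < ε' := by
        rw [Prod.dist_eq]
        exact max_lt ((mem_ball.1 hs).trans hrε) ((mem_ball.1 hz).trans hρε)
      have h3 := hε'2 h2
      rw [hT0] at h3
      exact h3
    · intro h3
      have h4 : p + L (((r / 2 : ℝ) : ℂ), z) = p := h3
      have h5 : L (((r / 2 : ℝ) : ℂ), z) = 0 := by
        have := add_eq_left.1 h4
        exact this
      have h6 : ((((r / 2 : ℝ) : ℂ), z) : ℂ × ℂ) = 0 := (map_eq_zero_iff L L.injective).1 h5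
      exact hsne (Prod.ext_iff.1 h6).1


end Pool.Agent.MPd01a95.KT
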