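import Mathlib
import Pool.Agent.Lib.MP_d01a95_gt_K.KM0
import Pool.Agent.Lib.SCV.Osgood

/-!
# Project K, module M0b: local holomorphic coordinates, non degeneracy
-/

set_option autoImplicit false
set_option linter.all false

open Matrix Filter Topology MeasureTheory
open scoped ContDiff

namespace Pool.Agent.MPd01a95.KT

open GU

variable {G : Type} [Group G]

theorem km0b_up_open : IsOpen Up := isOpen_lt continuous_const
  (Complex.continuous_im.comp (continuous_apply 1))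

theorem km0b_up_conn : IsPreconnected Up := by
  apply Convex.isPreconnected
  intro x hx y hy a b ha hb hab
  show 0 < ((a • x + b • y) 1).im
  have hx' : 0 < (x 1).im := hx
  have hy' : 0 < (y 1).im := hy
  simp only [Pi.add_apply, Pi.smul_apply, Complex.add_im, Complex.real_smul, Complex.mul_im,
    Complex.ofReal_re, Complex.ofReal_im, zero_mul, add_zero]
  rcases ha.lt_or_eq with h | h
  · have := mul_pos h hx'
    have := mul_nonneg hb hy'.le
    linarith
  · rw [← h, zero_add] at hab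
    rw [← h, hab]
    linarith

/-- the form in the second variable -/
theorem km0b_fc (a μ τ : ℂ) (Y : V4) : fc (XX a μ τ) Y = Complex.I *
    (a * (star (Y 2) - star μ * star (Y 3)) + τ * star (Y 3) - μ * star (Y 0) - star (Y 1)) := by
  simp only [fc, XX, Matrix.cons_val_zero, Matrix.cons_val_one, Matrix.cons_val]
  ring

theorem km0b_hf_hol {f : ℂ × ℂ → V4} {U : Set (ℂ × ℂ)} (hf' : DifferentiableOn ℂ f U) (w : V4) :
    DifferentiableOn ℂ (fun p => hf (f p) w) U := by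
  have h : ∀ i, DifferentiableOn ℂ (fun p => f p i) U := fun i => (differentiableOn_pi.1 hf') i
  unfold hf CW.hh
  have h0 := h 0
  have h1 := h 1
  have h2 := h 2
  have h3 := h 3
  fun_prop

namespace Kd

section helper72

variable {D : Kd G} (hD : Good D)

include hD

/-- module M0: local holomorphic parametrisation -/
theorem km0b_loc_par {k : M4} (hk : k ∈ D.FF) {x₀ : C2} (hx₀ : x₀ ∈ Up) :
    ∃ (U : Set (ℂ × ℂ)) (Ψ : ℂ × ℂ → V4) (χ : ℂ × ℂ → C2) (θ : C2 → ℂ × ℂ) (N : Set C2),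
      IsOpen U ∧ IsPreconnected U ∧ IsOpen N ∧ x₀ ∈ N ∧ N ⊆ Up ∧ DifferentiableOn ℂ Ψ U ∧
      ContinuousOn χ U ∧ ContinuousOn θ N ∧ (∀ p ∈ U, χ p ∈ Up ∧ D.vx k (χ p) = Ψ p) ∧
      (∀ x ∈ N, θ x ∈ U ∧ χ (θ x) = x) ∧ (∀ p ∈ U, θ (χ p) = p) := by
  have hA := D.ch hk
  have hc : ContinuousOn (fun p : ℂ × ℂ => PE (D.A k) p.1 p.2) {p | 0 < p.2.im} :=
    (PE_cont hA).mono fun p (hp : 0 < p.2.im) => hp.le
  obtain ⟨r₁, r, hr₁, hr, F, hF, h1, h2⟩ := local_graph hc (PE_hol hA (hD.cz k hk))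
      (fun τ hτ φ hφ hφc => weak_burgers hA (hD.wl k hk) (hD.cz k hk) τ hτ φ hφ hφc)
      (x₀ 0) (x₀ 1) hx₀
  have hFc : ContinuousOn F (Metric.ball (x₀ 0) r₁ ×ˢ Metric.ball (x₀ 1) (2 * r)) :=
    hF.continuousOn
  -- the key property of points of U
  have key : ∀ p ∈ Metric.ball (x₀ 0) r₁ ×ˢ Metric.ball (x₀ 1) (2 * r),
      0 < (p.2 + (star p.1 - star (x₀ 0)) * F p).im ∧
      PE (D.A k) p.1 (p.2 + (star p.1 - star (x₀ 0)) * F p) = F p := by
    intro p hp
    obtain ⟨τ, hτ1, hτ2, hτ3, hτ4⟩ := h2 p.1 hp.1 p.2 hp.2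
    have e : p.2 + (star p.1 - star (x₀ 0)) * F p = τ := by
      have h5 : F p = PE (D.A k) p.1 τ := hτ4.symm
      rw [h5]
      linear_combination hτ3
    rw [e]
    exact ⟨hτ2, hτ4⟩
  refine ⟨Metric.ball (x₀ 0) r₁ ×ˢ Metric.ball (x₀ 1) (2 * r),
    fun p => k *ᵥ ![F p, p.2 - star (x₀ 0) * F p, p.1, 1],
    fun p => ![p.1, p.2 + (star p.1 - star (x₀ 0)) * F p],
    fun x => (x 0, x 1 - (star (x 0) - star (x₀ 0)) * D.P k x),
    {x | x 0 ∈ Metric.ball (x₀ 0) r₁ ∧ x 1 ∈ Metric.ball (x₀ 1) r ∧ 0 < (x 1).im},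
    Metric.isOpen_ball.prod Metric.isOpen_ball, ?_, ?_, ?_, ?_, ?_, ?_, ?_, ?_, ?_, ?_⟩
  · exact (convex_ball _ _).isPreconnected.prod (convex_ball _ _).isPreconnected
  · have o1 : IsOpen {x : C2 | x 0 ∈ Metric.ball (x₀ 0) r₁} :=
      Metric.isOpen_ball.preimage (continuous_apply 0)
    have o2 : IsOpen {x : C2 | x 1 ∈ Metric.ball (x₀ 1) r} :=
      Metric.isOpen_ball.preimage (continuous_apply 1)
    exact o1.inter (o2.inter km0b_up_open)
  · exact ⟨Metric.mem_ball_self hr₁, Metric.mem_ball_self hr, hx₀⟩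
  · exact fun x hx => hx.2.2
  · have h3 : DifferentiableOn ℂ (fun p : ℂ × ℂ =>
        (![F p, p.2 - star (x₀ 0) * F p, p.1, 1] : V4))
        (Metric.ball (x₀ 0) r₁ ×ˢ Metric.ball (x₀ 1) (2 * r)) := by
      rw [differentiableOn_pi]
      intro i
      fin_cases i
      · exact hF
      · exact differentiableOn_snd.sub ((differentiableOn_const _).mul hF)
      · exact differentiableOn_fst
      · exact differentiableOn_const _
    have h4 : Differentiable ℂ fun v : V4 => k *ᵥ v := (Matrix.mulVecLin k).toContinuousLinearMap.differentiable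
    exact h4.comp_differentiableOn h3
  · rw [continuousOn_pi]
    intro i
    fin_cases i
    · exact continuousOn_fst
    · refine continuousOn_snd.add (ContinuousOn.mul ?_ hFc)
      fun_prop
  · have h3 : ContinuousOn (fun x : C2 => D.P k x)
        {x | x 0 ∈ Metric.ball (x₀ 0) r₁ ∧ x 1 ∈ Metric.ball (x₀ 1) r ∧ 0 < (x 1).im} := by
      have h4 : ContinuousOn (fun x : C2 => ((x 0, x 1) : ℂ × ℂ))
          {x | x 0 ∈ Metric.ball (x₀ 0) r₁ ∧ x 1 ∈ Metric.ball (x₀ 1) r ∧ 0 < (x 1).im} := by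
        fun_prop
      exact hc.comp h4 fun x hx => hx.2.2
    have h5 : ContinuousOn (fun x : C2 => star (x 0) - star (x₀ 0))
        {x | x 0 ∈ Metric.ball (x₀ 0) r₁ ∧ x 1 ∈ Metric.ball (x₀ 1) r ∧ 0 < (x 1).im} := by
      fun_prop
    exact (continuous_apply 0).continuousOn.prodMk
      ((continuous_apply 1).continuousOn.sub (h5.mul h3))
  · intro p hp
    obtain ⟨k1, k2⟩ := key p hp
    refine ⟨k1, ?_⟩
    have e1 : D.P k ![p.1, p.2 + (star p.1 - star (x₀ 0)) * F p] = F p := k2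
    unfold Kd.vx
    rw [e1]
    congr 1
    simp only [XX, Matrix.cons_val_zero, Matrix.cons_val_one]
    congr 2
    ring
  · intro x hx
    obtain ⟨h3, h4⟩ := h1 (x 0) hx.1 (x 1) hx.2.1
    refine ⟨⟨hx.1, h3⟩, ?_⟩
    have e1 : F (x 0, x 1 - (star (x 0) - star (x₀ 0)) * D.P k x) = D.P k x := h4.symm
    funext i
    fin_cases i
    · rfl
    · show x 1 - (star (x 0) - star (x₀ 0)) * D.P k x + (star (x 0) - star (x₀ 0)) *
        F (x 0, x 1 - (star (x 0) - star (x₀ 0)) * D.P k x) = x 1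
      rw [e1]
      ring
  · intro p hp
    obtain ⟨k1, k2⟩ := key p hp
    have e1 : D.P k ![p.1, p.2 + (star p.1 - star (x₀ 0)) * F p] = F p := k2
    ext1
    · rfl
    · show p.2 + (star p.1 - star (x₀ 0)) * F p - (star p.1 - star (x₀ 0)) *
        D.P k ![p.1, p.2 + (star p.1 - star (x₀ 0)) * F p] = p.2
      rw [e1]
      ring

/-- module M0: the surface is in no hyperplane orthogonal to a null vector -/
theorem km0b_hf_nz_glob {k : M4} (hk : k ∈ D.FF) {w : V4} (hw : w ≠ 0) (hw0 : hf w w = 0) :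
    ¬ ∀ x ∈ Up, hf (D.vx k x) w = 0 := by
  intro h
  have hA := D.ch hk
  have hkk := hk.1
  set Y : V4 := kᴴ *ᵥ w with hY
  have hkY : k *ᵥ Y = w := by
    rw [hY, Matrix.mulVec_mulVec, mul_eq_one_comm.1 hkk.1, Matrix.one_mulVec]
  have hY0 : Y ≠ 0 := by
    intro h0
    apply hw
    rw [← hkY, h0, Matrix.mulVec_zero]
  have hYY : fc Y Y = 0 := by rw [← hkk.2, hkY, hw0]
  have h1 : ∀ μ τ : ℂ, 0 < τ.im → PE (D.A k) μ τ * (star (Y 2) - star μ * star (Y 3)) +
      τ * star (Y 3) - μ * star (Y 0) - star (Y 1) = 0 := by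
    intro μ τ hτ
    have h2 := h ![μ, τ] hτ
    have h3 : D.vx k ![μ, τ] = k *ᵥ XX (PE (D.A k) μ τ) μ τ := rfl
    rw [h3, ← hkY, hkk.2, km0b_fc] at h2
    exact (mul_eq_zero.1 h2).resolve_left Complex.I_ne_zero
  -- Y 3 = 0
  have hY3 : Y 3 = 0 := by
    by_contra hne
    obtain ⟨ε, hε, hg⟩ := PE_grow hA
    obtain ⟨C, hC⟩ := hg 0
    have hlim : Tendsto (fun y : ℝ => (|C| * ‖Y 2‖) * ((1 + y) ^ (-ε)) + ‖Y 1‖ * (1 + y)⁻¹)
        atTop (𝓝 0) := by
      have l0 : Tendsto (fun y : ℝ => 1 + y) atTop atTop :=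
        tendsto_atTop_add_const_left _ _ tendsto_id
      have l1 : Tendsto (fun y : ℝ => (1 + y) ^ (-ε)) atTop (𝓝 0) :=
        (tendsto_rpow_neg_atTop hε).comp l0
      have l2 : Tendsto (fun y : ℝ => (1 + y)⁻¹) atTop (𝓝 0) := tendsto_inv_atTop_zero.comp l0
      have := (l1.const_mul (|C| * ‖Y 2‖)).add (l2.const_mul ‖Y 1‖)
      simpa using this
    have hpos : 0 < ‖Y 3‖ / 2 := by
      have := norm_pos_iff.2 hne
      positivity
    obtain ⟨y, hy1, hy2⟩ := ((hlim.eventually (gt_mem_nhds hpos)).and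
      (eventually_ge_atTop 1)).exists
    have h2 := h1 0 (Complex.I * y) (by simp; linarith)
    have h3 : ‖PE (D.A k) 0 (Complex.I * y)‖ ≤ C * (1 + y) ^ (1 - ε) := by
      have := hC 0 (Complex.I * y) (by simp) (by simp; linarith)
      have e : ‖Complex.I * (y:ℂ)‖ = y := by
        rw [norm_mul, Complex.norm_I, one_mul, Complex.norm_real, Real.norm_eq_abs,
          abs_of_nonneg (by linarith)]
      rwa [e] at this
    have hy0 : 0 < 1 + y := by linarith
    have h4 : (1 + y) ^ (1 - ε) = (1 + y) * (1 + y) ^ (-ε) := by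
      rw [sub_eq_add_neg, Real.rpow_add hy0, Real.rpow_one]
    have h5 : Complex.I * y * star (Y 3) =
        -(PE (D.A k) 0 (Complex.I * y) * star (Y 2)) + star (Y 1) := by
      simp only [star_zero, zero_mul, sub_zero] at h2
      linear_combination h2
    have h6 : y * ‖Y 3‖ ≤ |C| * ((1 + y) * (1 + y) ^ (-ε)) * ‖Y 2‖ + ‖Y 1‖ := by
      have h7 := congrArg norm h5
      rw [norm_mul, norm_mul, Complex.norm_I, one_mul, Complex.norm_real, Real.norm_eq_abs,
        abs_of_nonneg (by linarith), norm_star] at h7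
      rw [h7]
      refine (norm_add_le _ _).trans ?_
      rw [norm_neg, norm_mul, norm_star, norm_star]
      gcongr
      rw [← h4]
      refine h3.trans ?_
      exact mul_le_mul_of_nonneg_right (le_abs_self C) (Real.rpow_nonneg hy0.le _)
    have h8 : (1 + y) / 2 * ‖Y 3‖ ≤ (1 + y) * ((|C| * ‖Y 2‖) * ((1 + y) ^ (-ε)) +
        ‖Y 1‖ * (1 + y)⁻¹) := by
      have e : (1 + y) * ((|C| * ‖Y 2‖) * ((1 + y) ^ (-ε)) + ‖Y 1‖ * (1 + y)⁻¹) =
          |C| * ((1 + y) * (1 + y) ^ (-ε)) * ‖Y 2‖ + ‖Y 1‖ := by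
        field_simp
      rw [e]
      refine le_trans ?_ h6
      have := norm_nonneg (Y 3)
      nlinarith
    have h9 : (1 + y) * ((|C| * ‖Y 2‖) * ((1 + y) ^ (-ε)) + ‖Y 1‖ * (1 + y)⁻¹) <
        (1 + y) * (‖Y 3‖ / 2) := mul_lt_mul_of_pos_left hy1 hy0
    linarith
  have h2 : ∀ μ τ : ℂ, 0 < τ.im → PE (D.A k) μ τ * star (Y 2) = μ * star (Y 0) + star (Y 1) := by
    intro μ τ hτ
    have h3 := h1 μ τ hτ
    rw [hY3] at h3
    simp only [star_zero, mul_zero, sub_zero, add_zero] at h3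
    linear_combination h3
  have hY2 : Y 2 ≠ 0 := by
    intro h0
    have a1 := h2 0 Complex.I (by simp)
    have a2 := h2 1 Complex.I (by simp)
    rw [h0] at a1 a2
    simp only [star_zero, mul_zero, zero_mul, zero_add, one_mul] at a1 a2
    have b1 : Y 1 = 0 := by
      have := a1.symm
      simpa using this
    have b0 : Y 0 = 0 := by
      rw [← a1, add_zero] at a2
      have := a2.symm
      simpa using this
    apply hY0
    funext i
    fin_cases i
    · exact b0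
    · exact b1
    · exact h0
    · exact hY3
  have hs2 : star (Y 2) ≠ 0 := by simpa using hY2
  set α : ℂ := star (Y 0) / star (Y 2) with hα
  set β : ℂ := star (Y 1) / star (Y 2) with hβ
  have h3 : ∀ μ τ : ℂ, 0 < τ.im → PE (D.A k) μ τ = α * μ + β := by
    intro μ τ hτ
    have h4 := h2 μ τ hτ
    rw [hα, hβ]
    field_simp
    rw [h4]
    ring
  -- boundary values
  have h4 : ∀ (μ : ℂ) (t : ℝ), D.A k μ t = α * μ + β := by
    intro μ t
    have h5 : ContinuousWithinAt (fun p : ℂ × ℂ => PE (D.A k) p.1 p.2) {p | 0 ≤ p.2.im} (μ, (t:ℂ)) :=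
      PE_cont hA (μ, (t:ℂ)) (by simp)
    have h6 : Tendsto (fun n : ℕ => ((μ, (t:ℂ) + Complex.I * (((n:ℝ) + 1)⁻¹ : ℝ)) : ℂ × ℂ)) atTop
        (𝓝[{p | 0 ≤ p.2.im}] (μ, (t:ℂ))) := by
      apply tendsto_nhdsWithin_iff.2
      constructor
      · apply Tendsto.prodMk_nhds tendsto_const_nhds
        have h7 : Tendsto (fun n : ℕ => ((n:ℝ) + 1)⁻¹) atTop (𝓝 0) := by
          have := tendsto_one_div_add_atTop_nhds_zero_nat (𝕜 := ℝ)
          simpa using this
        have h8 : Tendsto (fun n : ℕ => ((((n:ℝ) + 1)⁻¹ : ℝ) : ℂ)) atTop (𝓝 ((0:ℝ):ℂ)) :=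
          (Complex.continuous_ofReal.tendsto 0).comp h7
        have h9 := (h8.const_mul Complex.I).const_add (t:ℂ)
        simpa using h9
      · refine Eventually.of_forall fun n => ?_
        have : (0:ℝ) < ((n:ℝ) + 1)⁻¹ := by positivity
        simp only [Set.mem_setOf_eq, Complex.add_im, Complex.ofReal_im, Complex.mul_im,
          Complex.I_re, Complex.I_im, Complex.ofReal_re, zero_mul, one_mul, zero_add]
        exact this.le
    have h10 := h5.tendsto.comp h6
    have h11 : ∀ n : ℕ, PE (D.A k) μ ((t:ℂ) + Complex.I * (((n:ℝ) + 1)⁻¹ : ℝ)) = α * μ + β := by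
      intro n
      apply h3
      have : (0:ℝ) < ((n:ℝ) + 1)⁻¹ := by positivity
      simp only [Complex.add_im, Complex.ofReal_im, Complex.mul_im,
          Complex.I_re, Complex.I_im, Complex.ofReal_re, zero_mul, one_mul, zero_add]
      exact this
    have h12 : Tendsto (fun _ : ℕ => α * μ + β) atTop (𝓝 (PE (D.A k) μ (t:ℂ))) := by
      refine h10.congr fun n => ?_
      exact h11 n
    have h13 := tendsto_nhds_unique h12 tendsto_const_nhds
    have h14 : PE (D.A k) μ (t:ℂ) = D.A k μ t := by simp [PE]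
    rw [← h14, h13]
  -- alpha is real
  have hαr : α.im = 0 := by
    have h5 : Y 0 * star (Y 2) - Y 2 * star (Y 0) = 0 := by
      have h6 := hYY
      unfold fc at h6
      rw [hY3] at h6
      simp only [star_zero, mul_zero, zero_mul, add_zero, sub_zero] at h6
      exact (mul_eq_zero.1 h6).resolve_left Complex.I_ne_zero
    have h6 : star α = α := by
      rw [hα, star_div₀, star_star, star_star]
      rw [div_eq_div_iff hY2 hs2]
      linear_combination h5
    have h7 := congrArg Complex.im h6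
    have h8 : (star α).im = -α.im := rfl
    rw [h8] at h7
    linarith
  have hel := hA.ne 0 0 1 (α.re + 2 * β.re) (by
    intro h0
    have := congrArg Prod.fst h0
    simp at this)
  apply hel
  unfold el
  rw [h4, h4]
  have hαe : α = (α.re : ℂ) := by
    apply Complex.ext
    · simp
    · simp [hαr]
  have hβe : β + star β = ((2 * β.re : ℝ) : ℂ) := by
    apply Complex.ext
    · simp; ring
    · simp
  simp only [mul_one, mul_zero, zero_add, star_one, star_zero, sub_zero, Complex.ofReal_zero]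
  push_cast
  push_cast at hβe
  rw [← hαe]
  linear_combination (-1 : ℂ) * hβe

/-- module M0: local version -/
theorem km0b_hf_nz {k : M4} (hk : k ∈ D.FF) {w : V4} (hw : w ≠ 0) (hw0 : hf w w = 0) {x₀ : C2}
    (hx₀ : x₀ ∈ Up) : ¬ ∀ᶠ x in 𝓝 x₀, hf (D.vx k x) w = 0 := by
  intro h0
  apply km0b_hf_nz_glob hD hk hw hw0
  -- the set of points near which the function vanishes
  set S : Set C2 := {x | ∀ᶠ y in 𝓝 x, hf (D.vx k y) w = 0} with hS
  have hSo : IsOpen S := by
    rw [isOpen_iff_eventually]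
    intro x hx
    exact eventually_eventually_nhds.2 hx
  have hstep : ∀ x ∈ Up, x ∈ closure S → x ∈ S := by
    intro x hx hxS
    obtain ⟨U, Ψ, χ, θ, N, hU, hUc, hN, hxN, hNU, hΨ, hχ, hθ, hp1, hp2, hp3⟩ := km0b_loc_par hD hk hx
    obtain ⟨s, hsN, hsS⟩ : (N ∩ S).Nonempty := mem_closure_iff.1 hxS N hN hxN
    have hu : DifferentiableOn ℂ (fun p => hf (Ψ p) w) U := km0b_hf_hol hΨ w
    have han := SCV.differentiableOn_analyticOnNhd U hU _ hu
    have hs1 := (hp2 s hsN).1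
    have hs2 := (hp2 s hsN).2
    have hev : (fun p => hf (Ψ p) w) =ᶠ[𝓝 (θ s)] 0 := by
      have hc : ContinuousAt χ (θ s) := hχ.continuousAt (hU.mem_nhds hs1)
      have h1 : ∀ᶠ p in 𝓝 (θ s), hf (D.vx k (χ p)) w = 0 :=
        hc.eventually (p := fun y => hf (D.vx k y) w = 0) (by rw [hs2]; exact hsS)
      filter_upwards [h1, hU.mem_nhds hs1] with p hp hpU
      rw [← (hp1 p hpU).2]
      exact hp
    have hzero := han.eqOn_zero_of_preconnected_of_eventuallyEq_zero hUc hs1 hev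
    show ∀ᶠ y in 𝓝 x, hf (D.vx k y) w = 0
    filter_upwards [hN.mem_nhds hxN] with y hy
    have h2 := hzero (hp2 y hy).1
    simp only [Pi.zero_apply] at h2
    rw [← (hp1 _ (hp2 y hy).1).2, (hp2 y hy).2] at h2
    exact h2
  have hsub : Up ⊆ S := by
    apply km0b_up_conn.subset_of_closure_inter_subset hSo ⟨x₀, hx₀, h0⟩
    rintro x ⟨hx1, hx2⟩
    exact hstep x hx2 hx1
  intro x hx
  exact (hsub hx).self_of_nhds

end helper72

variable {D : Kd G}

/-- module M0b: the surface is locally a graph -/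
theorem M0_loc (hD : Good D) {k : M4} (hk : k ∈ D.FF) {p : C2} (hp : p ∈ Up) :
    ∃ (W : Set (ℂ × ℂ)) (F : ℂ × ℂ → ℂ), IsOpen W ∧ (p 0, p 1) ∈ W ∧ DifferentiableOn ℂ F W ∧
      (∀ w ∈ W, ∃ τ : ℂ, 0 < τ.im ∧ w.2 = τ - (star w.1 - star (p 0)) * D.P k ![w.1, τ] ∧
        D.P k ![w.1, τ] = F w) ∧
      ∀ᶠ x in 𝓝 p, (x 0, x 1 - (star (x 0) - star (p 0)) * D.P k x) ∈ W ∧
        D.P k x = F (x 0, x 1 - (star (x 0) - star (p 0)) * D.P k x) := by
  have hA := D.ch hk
  have hc : ContinuousOn (fun p : ℂ × ℂ => PE (D.A k) p.1 p.2) {p | 0 < p.2.im} :=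
    (PE_cont hA).mono fun p (hp : 0 < p.2.im) => hp.le
  obtain ⟨r₁, r, hr₁, hr, F, hF, h1, h2⟩ := local_graph hc (PE_hol hA (hD.cz k hk))
      (fun τ hτ φ hφ hφc => weak_burgers hA (hD.wl k hk) (hD.cz k hk) τ hτ φ hφ hφc)
      (p 0) (p 1) hp
  refine ⟨Metric.ball (p 0) r₁ ×ˢ Metric.ball (p 1) (2 * r), F,
    Metric.isOpen_ball.prod Metric.isOpen_ball,
    ⟨Metric.mem_ball_self hr₁, Metric.mem_ball_self (by positivity)⟩, hF, ?_, ?_⟩
  · rintro w ⟨hw1, hw2⟩
    obtain ⟨τ, hτ1, hτ2, hτ3, hτ4⟩ := h2 w.1 hw1 w.2 hw2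
    exact ⟨τ, hτ2, hτ3, hτ4⟩
  · have o1 : IsOpen {x : C2 | x 0 ∈ Metric.ball (p 0) r₁} :=
      Metric.isOpen_ball.preimage (continuous_apply 0)
    have o2 : IsOpen {x : C2 | x 1 ∈ Metric.ball (p 1) r} :=
      Metric.isOpen_ball.preimage (continuous_apply 1)
    filter_upwards [o1.mem_nhds (Metric.mem_ball_self hr₁), o2.mem_nhds (Metric.mem_ball_self hr)]
      with x hx1 hx2
    obtain ⟨h3, h4⟩ := h1 (x 0) hx1 (x 1) hx2
    exact ⟨⟨hx1, h3⟩, h4⟩

/-- module M0b: the surface is not contained in a hyperplane, locally -/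
theorem M0_nv (hD : Good D) {k : M4} (hk : k ∈ D.FF) {p : C2} (hp : p ∈ Up) {y : V4} (hy : y ≠ 0)
    (hy0 : hf y y = 0) : ¬ ∀ᶠ x in 𝓝 p, hf (D.vx k x) y = 0 := km0b_hf_nz hD hk hy hy0 hp

end Kd

end Pool.Agent.MPd01a95.KT
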