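import Mathlib
import Pool.Agent.Lib.MP_d01a95_gt_K.KM0
import Pool.Agent.Lib.MP_d01a95_gt_K.KK7a
import Pool.Agent.Lib.MP_d01a95_gt_K.KK7c

/-!
# Project K, module M3a: the comparison function tends to zero at the boundary
-/

set_option autoImplicit false
set_option linter.all false

open Matrix Filter Topology MeasureTheory
open scoped ContDiff

namespace Pool.Agent.MPd01a95.KT

open GU

variable {G : Type} [Group G]

namespace Kd

variable {D : Kd G}

/-- the comparison function of a vector orthogonal to `k *ᵥ yy m` -/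
noncomputable def M3f (D : Kd G) (k : M4) (m : ℂ) (v : V4) : ℂ :=
  (M0a k v - D.P k ![m, M0s k m v]) / (M0s k m v + Complex.I)

/-- module M3a -/
theorem M3_lim {k : M4} (hk : k ∈ D.FF) (m : ℂ) {u : ℕ → V4} (h3 : ∀ n, M0z k (u n) 3 ≠ 0)
    (hm : ∀ n, M0m k (u n) = m) (ht : ∀ n, 0 < (M0t k (u n)).im) {v : V4} (hv : v ∈ D.Lam)
    (h : Tendsto u atTop (𝓝 v)) : Tendsto (fun n => D.M3f k m (u n)) atTop (𝓝 0) := by
  have hkk : k ∈ KK := M0_kk hk
  have hst : ∀ n, M0t k (u n) = M0s k m (u n) := by
    intro n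
    unfold M0t
    rw [hm n]
  have hs : ∀ n, 0 < (M0s k m (u n)).im := fun n => by rw [← hst n]; exact ht n
  have hz : ∀ i, Tendsto (fun n => M0z k (u n) i) atTop (𝓝 (M0z k v i)) := fun i =>
    (((continuous_apply i).comp (M0z_cont k)).tendsto v).comp h
  by_cases h0 : M0z k v 3 = 0
  · -- the point at infinity of the chart
    obtain ⟨l, hl, hvl⟩ := (M0_L hk hv).2 h0
    have hzv : M0z k v = l • e1 := by rw [hvl, M0z_smul, M0z_left hkk]
    have z0 : M0z k v 0 = 0 := by rw [hzv]; simp [e1]
    have z1 : M0z k v 1 = l := by rw [hzv]; simp [e1]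
    -- first quotient
    have hnum : Tendsto (fun n => M0z k (u n) 1 + star m * M0z k (u n) 0) atTop (𝓝 l) := by
      have := (hz 1).add ((hz 0).const_mul (star m))
      rwa [z0, z1, mul_zero, add_zero] at this
    have hden : Tendsto (fun n => M0z k (u n) 1 + star m * M0z k (u n) 0 +
        Complex.I * M0z k (u n) 3) atTop (𝓝 l) := by
      have := hnum.add ((hz 3).const_mul Complex.I)
      rwa [h0, mul_zero, add_zero] at this
    have q1 : Tendsto (fun n => M0a k (u n) / (M0s k m (u n) + Complex.I)) atTop (𝓝 0) := by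
      have h1 := (hz 0).div hden hl
      rw [z0, zero_div] at h1
      refine h1.congr fun n => ?_
      have h4 := h3 n
      have e : M0s k m (u n) + Complex.I = (M0z k (u n) 1 + star m * M0z k (u n) 0 +
          Complex.I * M0z k (u n) 3) / M0z k (u n) 3 := by
        unfold M0s
        field_simp
      unfold M0a
      rw [e, div_div_div_cancel_right₀ h4]
      rfl
    -- the coordinate tends to infinity
    have hinf : Tendsto (fun n => ‖M0s k m (u n)‖) atTop atTop := by
      have h1 : Tendsto (fun n => ‖M0z k (u n) 3‖) atTop (𝓝[>] 0) := by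
        rw [tendsto_nhdsWithin_iff]
        refine ⟨?_, Eventually.of_forall fun n => norm_pos_iff.mpr (h3 n)⟩
        have := (hz 3).norm
        rwa [h0, norm_zero] at this
      have h2 := hnum.norm.pos_mul_atTop (norm_pos_iff.mpr hl) (tendsto_inv_nhdsGT_zero.comp h1)
      refine h2.congr fun n => ?_
      unfold M0s
      rw [norm_div, div_eq_mul_inv]
      rfl
    obtain ⟨ε, hε, hg⟩ := PE_grow (D.ch hk)
    obtain ⟨C, hC⟩ := hg ‖m‖
    have q2 : Tendsto (fun n => D.P k ![m, M0s k m (u n)] / (M0s k m (u n) + Complex.I))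
        atTop (𝓝 0) := by
      have hb : Tendsto (fun n => 2 * |C| * (1 + ‖M0s k m (u n)‖) ^ (-ε)) atTop (𝓝 0) := by
        have h1 : Tendsto (fun n => 1 + ‖M0s k m (u n)‖) atTop atTop :=
          tendsto_atTop_add_const_left _ _ hinf
        have h2 := ((tendsto_rpow_neg_atTop hε).comp h1).const_mul (2 * |C|)
        rw [mul_zero] at h2
        exact h2
      refine squeeze_zero_norm (fun n => ?_) hb
      set s := M0s k m (u n) with hsd
      have hsn : 0 < s.im := hs n
      have hx : 0 < 1 + ‖s‖ := by positivity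
      have h1 : ‖D.P k ![m, s]‖ ≤ |C| * (1 + ‖s‖) ^ (1 - ε) := by
        have h4 := hC m s le_rfl hsn.le
        have h5 : C * (1 + ‖s‖) ^ (1 - ε) ≤ |C| * (1 + ‖s‖) ^ (1 - ε) :=
          mul_le_mul_of_nonneg_right (le_abs_self C) (Real.rpow_nonneg hx.le _)
        exact h4.trans h5
      have h2 : (1 + ‖s‖) / 2 ≤ ‖s + Complex.I‖ := by
        have e1 : ‖s + Complex.I‖ ^ 2 = ‖s‖ ^ 2 + 2 * s.im + 1 := by
          rw [← Complex.normSq_eq_norm_sq, ← Complex.normSq_eq_norm_sq, Complex.normSq_apply,
            Complex.normSq_apply]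
          simp only [Complex.add_re, Complex.add_im, Complex.I_re, Complex.I_im]
          ring
        refine le_of_sq_le_sq ?_ (norm_nonneg _)
        rw [e1]
        nlinarith [norm_nonneg s, sq_nonneg (‖s‖ - 1)]
      have h3' : 0 < ‖s + Complex.I‖ := lt_of_lt_of_le (by positivity) h2
      rw [norm_div, div_le_iff₀ h3']
      have h6 : (1 + ‖s‖) ^ (1 - ε) = (1 + ‖s‖) ^ (-ε) * (1 + ‖s‖) := by
        rw [sub_eq_add_neg, add_comm (1 : ℝ) (-ε), Real.rpow_add hx, Real.rpow_one]
      have h7 : 0 ≤ (1 + ‖s‖) ^ (-ε) := Real.rpow_nonneg hx.le _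
      calc ‖D.P k ![m, s]‖ ≤ |C| * (1 + ‖s‖) ^ (1 - ε) := h1
        _ = 2 * |C| * (1 + ‖s‖) ^ (-ε) * ((1 + ‖s‖) / 2) := by rw [h6]; ring
        _ ≤ 2 * |C| * (1 + ‖s‖) ^ (-ε) * ‖s + Complex.I‖ :=
          mul_le_mul_of_nonneg_left h2 (by positivity)
    have h5 := q1.sub q2
    rw [sub_zero] at h5
    refine h5.congr fun n => ?_
    unfold M3f
    rw [sub_div]
  · -- a finite point
    obtain ⟨hti, hta⟩ := (M0_L hk hv).1 h0
    have ca : Tendsto (fun n => M0a k (u n)) atTop (𝓝 (M0a k v)) := (hz 0).div (hz 3) h0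
    have cm : Tendsto (fun n => M0m k (u n)) atTop (𝓝 (M0m k v)) := (hz 2).div (hz 3) h0
    have cs : Tendsto (fun n => M0s k m (u n)) atTop (𝓝 (M0s k m v)) :=
      ((hz 1).add ((hz 0).const_mul (star m))).div (hz 3) h0
    have em : M0m k v = m := by
      refine tendsto_nhds_unique cm ?_
      exact tendsto_const_nhds.congr fun n => (hm n).symm
    have et : M0t k v = M0s k m v := by
      unfold M0t
      rw [em]
    rw [et] at hti hta
    rw [em] at hta
    have hP : ContinuousOn (D.P k) Upc := by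
      have h2 : Continuous fun x : C2 => ((k, x) : M4 × C2) := continuous_const.prodMk continuous_id
      have h3 : Set.MapsTo (fun x : C2 => ((k, x) : M4 × C2)) Upc (D.FF ×ˢ Upc) :=
        fun x hx => Set.mk_mem_prod hk hx
      have h4 := D.P_cont
      exact h4.comp h2.continuousOn h3
    have hx : (![m, M0s k m v] : C2) ∈ Upc := by
      show 0 ≤ (M0s k m v).im
      rw [hti]
    have hxt : Tendsto (fun n => (![m, M0s k m (u n)] : C2)) atTop (𝓝[Upc] ![m, M0s k m v]) := by
      rw [tendsto_nhdsWithin_iff]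
      refine ⟨?_, Eventually.of_forall fun n => (hs n).le⟩
      rw [tendsto_pi_nhds]
      intro i
      fin_cases i
      · exact tendsto_const_nhds
      · exact cs
    have cP : Tendsto (fun n => D.P k ![m, M0s k m (u n)]) atTop (𝓝 (D.P k ![m, M0s k m v])) :=
      (hP _ hx).tendsto.comp hxt
    have hd : M0s k m v + Complex.I ≠ 0 := by
      intro h1
      have h2 := congrArg Complex.im h1
      rw [Complex.add_im, Complex.I_im, Complex.zero_im, hti] at h2
      linarith
    have h5 := (ca.sub cP).div (cs.add_const Complex.I) hd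
    rw [hta, sub_self, zero_div] at h5
    exact h5

end Kd

end Pool.Agent.MPd01a95.KT
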