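import Mathlib
import Pool.Agent.Lib.MP_d01a95_gt_K.KDefs2
import Pool.Agent.Lib.MP_d01a95_gt_K.KA1
import Pool.Agent.Lib.MP_d01a95_gt_K.KA2
import Pool.Agent.Lib.MP_d01a95_gt_K.KA4
import Pool.Agent.Lib.MP_d01a95_gt_K.KF0
import Pool.Agent.Lib.MP_d01a95_gt_K.KF6
import Pool.Agent.Lib.MP_d01a95_gt_K.KH1
import Pool.Agent.Lib.MP_d01a95_gt_K.KH2
import Pool.Agent.Lib.MP_d01a95_gt_K.KH3
import Pool.Agent.Lib.MP_d01a95_gt_K.KH4
import Pool.Agent.Lib.MP_d01a95_gt_K.KK7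
import Pool.Agent.Lib.MP_d01a95_gt_K.KL1
import Pool.Agent.Lib.MP_d01a95_gt_K.KL2
import Pool.Agent.Lib.MP_d01a95_gt_K.KL3
import Pool.Agent.Lib.MP_d01a95_gt_K.KL4
import Pool.Agent.Lib.MP_d01a95_gt_K.KL5
import Pool.Agent.Lib.MP_d01a95_gt_K.KM1
import Pool.Agent.Lib.MP_d01a95_gt_K.KM2
import Pool.Agent.Lib.MP_d01a95_gt_K.KM0b
import Pool.Agent.Lib.MP_d01a95_gt_K.KM3a

set_option autoImplicit false
set_option linter.all false

open Matrix Filter Topology MeasureTheory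
open scoped ContDiff

namespace Pool.Agent.MPd01a95.KT

open GU

variable {G : Type} [Group G]

namespace Kd

variable {D : Kd G} (hD : Good D)

private theorem M3_open : IsOpen Up :=
  isOpen_lt continuous_const (Complex.continuous_im.comp (continuous_apply 1))

private theorem M3_sub : Up ⊆ Upc := fun x (hx : 0 < (x 1).im) => hx.le

private theorem M3_P {k : M4} (hk : k ∈ D.FF) : ContinuousOn (D.P k) Upc := by
  have h2 : Continuous fun x : C2 => ((k, x) : M4 × C2) := continuous_const.prodMk continuous_id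
  have h3 : Set.MapsTo (fun x : C2 => ((k, x) : M4 × C2)) Upc (D.FF ×ˢ Upc) :=
    fun x hx => Set.mk_mem_prod hk hx
  have h4 := D.P_cont
  have h5 := h4.comp h2.continuousOn h3
  exact h5

private theorem M3_Pat {k : M4} (hk : k ∈ D.FF) {x : C2} (hx : x ∈ Up) :
    ContinuousAt (D.P k) x :=
  ((M3_P hk).mono M3_sub).continuousAt (M3_open.mem_nhds hx)

/-- continuity of the coordinates -/
private theorem M3_coord {k : M4} {v : V4} (h : M0z k v 3 ≠ 0) (m : ℂ) :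
    ContinuousAt (M0a k) v ∧ ContinuousAt (M0m k) v ∧ ContinuousAt (M0s k m) v ∧
      ContinuousAt (M0t k) v := by
  have hz : ∀ i, ContinuousAt (fun v => M0z k v i) v := fun i =>
    ((continuous_apply i).comp (M0z_cont k)).continuousAt
  have hm : ContinuousAt (M0m k) v := (hz 2).div (hz 3) h
  refine ⟨(hz 0).div (hz 3) h, hm, ((hz 1).add (continuousAt_const.mul (hz 0))).div (hz 3) h, ?_⟩
  exact ((hz 1).add ((hm.star).mul (hz 0))).div (hz 3) h

private theorem M3_den {s : ℂ} (hs : 0 < s.im) : s + Complex.I ≠ 0 := by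
  intro h
  have h1 := congrArg Complex.im h
  rw [Complex.add_im, Complex.I_im, Complex.zero_im] at h1
  linarith

/-- continuity of the comparison function -/
private theorem M3_fcont {k : M4} (hk : k ∈ D.FF) (m : ℂ) {v : V4} (h3 : M0z k v 3 ≠ 0)
    (hs : 0 < (M0s k m v).im) : ContinuousAt (D.M3f k m) v := by
  obtain ⟨ha, -, hs', -⟩ := M3_coord h3 m
  have hx : (![m, M0s k m v] : C2) ∈ Up := hs
  have h1 : ContinuousAt (fun v => (![m, M0s k m v] : C2)) v := by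
    refine continuousAt_pi.mpr fun i => ?_
    fin_cases i
    · exact continuousAt_const
    · exact hs'
  have hP : ContinuousAt (fun v => D.P k ![m, M0s k m v]) v :=
    ContinuousAt.comp (g := D.P k) (M3_Pat hk hx) h1
  exact (ha.sub hP).div (hs'.add continuousAt_const) (M3_den hs)

/-- points of the curve -/
private theorem M3_E (hD : Good D) {k k' : M4} (hk : k ∈ D.FF) (hk' : k' ∈ D.FF) (m' : ℂ) {v : V4}
    (hv : v ∈ D.VV k) (h : hf v (k' *ᵥ yy m') = 0) : M0z k' v 3 ≠ 0 ∧ M0m k' v = m' ∧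
    0 < (M0t k' v).im ∧ 0 < (M0s k' m' v).im := by
  obtain ⟨h3, ht, -, -⟩ := M0_E hD hk hk' hv
  rw [M0_hf_yy (M0_kk hk')] at h
  have h1 : M0z k' v 2 - m' * M0z k' v 3 = 0 :=
    (mul_eq_zero.mp h).resolve_left (neg_ne_zero.mpr Complex.I_ne_zero)
  have h2 : M0m k' v = m' := by
    rw [M0m, div_eq_iff h3]
    linear_combination h1
  refine ⟨h3, h2, ht, ?_⟩
  have h4 : M0t k' v = M0s k' m' v := by rw [M0t, h2]
  rw [← h4]
  exact ht

private theorem M3_mem {k : M4} {x : C2} (hx : x ∈ Up) : D.vx k x ∈ D.VV k :=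
  ⟨x, hx, 1, one_ne_zero, (one_smul _ _).symm⟩

private theorem M3_fsmul (k : M4) {l : ℂ} (hl : l ≠ 0) (v : V4) (m : ℂ) :
    D.M3f k m (l • v) = D.M3f k m v := by
  obtain ⟨h1, -, h2, -⟩ := M0_smul k hl v m
  unfold M3f
  rw [h1, h2]

private theorem M3_Lam {v : V4} (hv : v ∈ D.Lam) {l : ℂ} (hl : l ≠ 0) : l • v ∈ D.Lam := by
  obtain ⟨θ, hθ, l', hl', h⟩ := hv
  exact ⟨θ, hθ, l * l', mul_ne_zero hl hl', by rw [h, smul_smul]⟩

private theorem M3_hfc (y : V4) : Continuous fun v : V4 => hf v y := by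
  have h0 : Continuous fun v : V4 => ((v, y) : V4 × V4) := continuous_id.prodMk continuous_const
  have h1 := M0_hf_cont
  exact h1.comp h0

/-- the sets where the comparison function is large are compact -/
private theorem M3_cpt (hD : Good D) {k k' : M4} (hk : k ∈ D.FF) (hk' : k' ∈ D.FF) (m' : ℂ)
    {δ : ℝ} (hδ : 0 < δ) : IsCompact {x : C2 | x ∈ Up ∧ hf (D.vx k x) (k' *ᵥ yy m') = 0 ∧
      δ ≤ ‖D.M3f k' m' (D.vx k x)‖} := by
  apply IsSeqCompact.isCompact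
  intro x hx
  have hne : ∀ n, D.vx k (x n) ≠ 0 := fun n => (M0_vx hk (x n)).2.2.2.2
  set l : ℕ → ℂ := fun n => ((‖D.vx k (x n)‖⁻¹ : ℝ) : ℂ) with hl
  have hl0 : ∀ n, l n ≠ 0 := fun n =>
    Complex.ofReal_ne_zero.mpr (inv_ne_zero (norm_ne_zero_iff.mpr (hne n)))
  have hnorm : ∀ n, ‖l n • D.vx k (x n)‖ = 1 := by
    intro n
    rw [norm_smul, hl]
    simp only [Complex.norm_real, norm_inv, norm_norm]
    exact inv_mul_cancel₀ (norm_ne_zero_iff.mpr (hne n))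
  obtain ⟨v, hv, ψ, hψ, hlim⟩ := (isCompact_sphere (0 : V4) 1).tendsto_subseq
    (x := fun n => l n • D.vx k (x n)) fun n => by
      rw [mem_sphere_zero_iff_norm]
      exact hnorm n
  have hv0 : v ≠ 0 := by
    intro h
    rw [mem_sphere_zero_iff_norm, h, norm_zero] at hv
    exact zero_ne_one hv
  set u : ℕ → V4 := fun n => l (ψ n) • D.vx k (x (ψ n)) with hu
  have hlim' : Tendsto u atTop (𝓝 v) := hlim
  -- points of the sequence
  have hE : ∀ n, M0z k' (D.vx k (x (ψ n))) 3 ≠ 0 ∧ M0m k' (D.vx k (x (ψ n))) = m' ∧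
      0 < (M0t k' (D.vx k (x (ψ n)))).im ∧ 0 < (M0s k' m' (D.vx k (x (ψ n)))).im := fun n =>
    M3_E hD hk hk' m' (M3_mem (hx (ψ n)).1) (hx (ψ n)).2.1
  have hsm : ∀ n, M0a k' (u n) = M0a k' (D.vx k (x (ψ n))) ∧
      M0m k' (u n) = M0m k' (D.vx k (x (ψ n))) ∧ M0s k' m' (u n) = M0s k' m' (D.vx k (x (ψ n))) ∧
      M0t k' (u n) = M0t k' (D.vx k (x (ψ n))) := fun n => M0_smul k' (hl0 _) _ m'
  have hfu : ∀ n, D.M3f k' m' (u n) = D.M3f k' m' (D.vx k (x (ψ n))) := fun n =>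
    M3_fsmul k' (hl0 _) _ m'
  have hbig : ∀ n, δ ≤ ‖D.M3f k' m' (u n)‖ := fun n => by
    rw [hfu]
    exact (hx (ψ n)).2.2
  have hu3 : ∀ n, M0z k' (u n) 3 ≠ 0 := by
    intro n
    have h1 : M0z k' (u n) = l (ψ n) • M0z k' (D.vx k (x (ψ n))) := M0z_smul k' _ _
    rw [h1, Pi.smul_apply, smul_eq_mul]
    exact mul_ne_zero (hl0 _) (hE n).1
  have hum : ∀ n, M0m k' (u n) = m' := fun n => (hsm n).2.1.trans (hE n).2.1
  have hut : ∀ n, 0 < (M0t k' (u n)).im := by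
    intro n
    rw [(hsm n).2.2.2]
    exact (hE n).2.2.1
  have hLam : v ∉ D.Lam := by
    intro hvL
    have h1 : Tendsto (fun n => D.M3f k' m' (u n)) atTop (𝓝 0) :=
      M3_lim hk' m' hu3 hum hut hvL hlim'
    have h2 := h1.norm
    rw [norm_zero] at h2
    have h3 := ge_of_tendsto' h2 hbig
    linarith
  have hfv : hf v (k' *ᵥ yy m') = 0 := by
    have h1 : Tendsto (fun n => hf (u n) (k' *ᵥ yy m')) atTop (𝓝 (hf v (k' *ᵥ yy m'))) :=
      ((M3_hfc (k' *ᵥ yy m')).tendsto v).comp hlim'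
    have h2 : (fun n => hf (u n) (k' *ᵥ yy m')) = fun _ => 0 := by
      funext n
      have h3 := M0_hf_smul (l (ψ n)) 1 (D.vx k (x (ψ n))) (k' *ᵥ yy m')
      rw [one_smul, (hx (ψ n)).2.1, mul_zero] at h3
      exact h3
    rw [h2] at h1
    exact tendsto_nhds_unique h1 tendsto_const_nhds
  rcases M0_seq hD hk (fun n => x (ψ n)) (fun n => M3_sub (hx (ψ n)).1) (fun n => l (ψ n)) hv0
    hlim' with ⟨y, hy, l₀, hl₀, hvy⟩ | ⟨l₀, hl₀, hvy⟩
  swap
  · exact absurd (by rw [hvy]; exact M3_Lam hk.2 hl₀) hLam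
  have hyU : y ∈ Up := by
    rcases lt_or_eq_of_le (show (0 : ℝ) ≤ (y 1).im from hy) with h | h
    · exact h
    · exact absurd (by rw [hvy]; exact M3_Lam (M0_bd hk h.symm) hl₀) hLam
  have hvV : v ∈ D.VV k := ⟨y, hyU, l₀, hl₀, hvy⟩
  obtain ⟨y3, ya, ym, yt, yne⟩ := M0_vx hk y
  have hv3 : M0z k v 3 ≠ 0 := by
    rw [hvy, M0z_smul, Pi.smul_apply, y3, smul_eq_mul, mul_one]
    exact hl₀
  obtain ⟨-, cm, -, ct⟩ := M3_coord hv3 0
  obtain ⟨-, sm, -, st⟩ := M0_smul k hl₀ (D.vx k y) 0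
  rw [← hvy] at sm st
  have hlimx : Tendsto (x ∘ ψ) atTop (𝓝 y) := by
    rw [tendsto_pi_nhds]
    intro i
    fin_cases i
    · have h1 : Tendsto (fun n => M0m k (u n)) atTop (𝓝 (M0m k v)) := cm.tendsto.comp hlim'
      rw [sm, ym] at h1
      refine h1.congr fun n => ?_
      have h2 := (M0_smul k (hl0 (ψ n)) (D.vx k (x (ψ n))) 0).2.1
      rw [(M0_vx hk (x (ψ n))).2.2.1] at h2
      exact h2
    · have h1 : Tendsto (fun n => M0t k (u n)) atTop (𝓝 (M0t k v)) := ct.tendsto.comp hlim'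
      rw [st, yt] at h1
      refine h1.congr fun n => ?_
      have h2 := (M0_smul k (hl0 (ψ n)) (D.vx k (x (ψ n))) 0).2.2.2
      rw [(M0_vx hk (x (ψ n))).2.2.2.1] at h2
      exact h2
  obtain ⟨v3', vm', vt', vs'⟩ := M3_E hD hk hk' m' hvV hfv
  have hcf := M3_fcont hk' m' v3' vs'
  have hlimf : Tendsto (fun n => ‖D.M3f k' m' (u n)‖) atTop (𝓝 ‖D.M3f k' m' v‖) :=
    (hcf.tendsto.comp hlim').norm
  have hge : δ ≤ ‖D.M3f k' m' v‖ := ge_of_tendsto' hlimf hbig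
  refine ⟨y, ⟨hyU, ?_, ?_⟩, ψ, hψ, hlimx⟩
  · have h3 := M0_hf_smul l₀ 1 (D.vx k y) (k' *ᵥ yy m')
    rw [one_smul, ← hvy, hfv, star_one, mul_one] at h3
    exact (mul_eq_zero.mp h3.symm).resolve_left hl₀
  · rw [hvy, M3_fsmul k' hl₀] at hge
    exact hge

/-- holomorphic functions of a matrix times a vector -/
private theorem M3_mul {W : Set (ℂ × ℂ)} {g : ℂ × ℂ → V4}
    (hg : ∀ j, DifferentiableOn ℂ (fun w => g w j) W) (k : M4) (i : Fin 4) :
    DifferentiableOn ℂ (fun w => (k *ᵥ g w) i) W := by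
  simp only [Matrix.mulVec, dotProduct]
  exact DifferentiableOn.fun_sum fun j _ => (hg j).const_mul _

private theorem M3_div {W : Set (ℂ × ℂ)} {f g : ℂ × ℂ → ℂ} (hf : DifferentiableOn ℂ f W)
    (hg : DifferentiableOn ℂ g W) (h : ∀ w ∈ W, g w ≠ 0) :
    DifferentiableOn ℂ (fun w => f w / g w) W := by
  have e : (fun w => f w / g w) = fun w => f w * (g w)⁻¹ := funext fun w => div_eq_mul_inv _ _
  rw [e]
  exact hf.mul (hg.inv h)

private theorem M3_vc {k : M4} (hk : k ∈ D.FF) : ContinuousOn (D.vx k) Up := by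
  have h1 : ContinuousOn (D.P k) Up := (M3_P hk).mono M3_sub
  have h0 : ContinuousOn (fun x : C2 => x 0) Up := (continuous_apply 0).continuousOn
  have h2 : ContinuousOn (fun x : C2 => x 1) Up := (continuous_apply 1).continuousOn
  have h3 : ContinuousOn (fun x : C2 => XX (D.P k x) (x 0) (x 1)) Up := by
    refine continuousOn_pi.mpr fun i => ?_
    fin_cases i
    · exact h1
    · exact h2.sub ((continuous_star.comp_continuousOn h0).mul h1)
    · exact h0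
    · exact continuousOn_const
  exact (Continuous.matrix_mulVec continuous_const continuous_id).comp_continuousOn h3

/-- the first three coordinates -/
private noncomputable def M3N (D : Kd G) (k : M4) (x : C2) : EuclideanSpace ℂ (Fin 3) :=
  WithLp.toLp 2 ![D.P k x, x 1 - star (x 0) * D.P k x, x 0]

private theorem M3_Nc {k : M4} (hk : k ∈ D.FF) : ContinuousOn (M3N D k) Up := by
  have h1 : ContinuousOn (D.P k) Up := (M3_P hk).mono M3_sub
  have h0 : ContinuousOn (fun x : C2 => x 0) Up := (continuous_apply 0).continuousOn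
  have h2 : ContinuousOn (fun x : C2 => x 1) Up := (continuous_apply 1).continuousOn
  have h3 : ContinuousOn (fun x : C2 => (![D.P k x, x 1 - star (x 0) * D.P k x, x 0] :
      Fin 3 → ℂ)) Up := by
    refine continuousOn_pi.mpr fun i => ?_
    fin_cases i
    · exact h1
    · exact h2.sub ((continuous_star.comp_continuousOn h0).mul h1)
    · exact h0
  exact (PiLp.continuous_toLp 2 (fun _ : Fin 3 => ℂ)).comp_continuousOn h3

private theorem M3_main (hD : Good D) {k k' : M4} (hk : k ∈ D.FF) (hk' : k' ∈ D.FF) (m' : ℂ)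
    {x₀ : C2} (hx₀ : x₀ ∈ Up) (h₀ : hf (D.vx k x₀) (k' *ᵥ yy m') = 0) :
    D.M3f k' m' (D.vx k x₀) = 0 := by
  by_contra hne0
  have hcpt : ∀ δ : ℝ, 0 < δ → IsCompact {x : C2 | x ∈ Up ∧ hf (D.vx k x) (k' *ᵥ yy m') = 0 ∧
      δ ≤ ‖D.M3f k' m' (D.vx k x)‖} := fun δ hδ => M3_cpt hD hk hk' m' hδ
  have hvc := M3_vc hk
  have hEs : ∀ x ∈ Up, hf (D.vx k x) (k' *ᵥ yy m') = 0 → M0z k' (D.vx k x) 3 ≠ 0 ∧
      0 < (M0s k' m' (D.vx k x)).im := by
    intro x hx hE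
    obtain ⟨h3, -, -, hs⟩ := M3_E hD hk hk' m' (M3_mem hx) hE
    exact ⟨h3, hs⟩
  have hφc : ∀ x ∈ Up, hf (D.vx k x) (k' *ᵥ yy m') = 0 →
      ContinuousAt (fun x => D.M3f k' m' (D.vx k x)) x := by
    intro x hx hE
    obtain ⟨h3, hs⟩ := hEs x hx hE
    exact ContinuousAt.comp (g := D.M3f k' m') (M3_fcont hk' m' h3 hs)
      (hvc.continuousAt (M3_open.mem_nhds hx))
  -- the maximum
  have hδ : 0 < ‖D.M3f k' m' (D.vx k x₀)‖ := norm_pos_iff.mpr hne0
  obtain ⟨x₁, hx₁, hmax₁⟩ := (hcpt _ hδ).exists_isMaxOn ⟨x₀, hx₀, h₀, le_refl _⟩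
    (f := fun x => ‖D.M3f k' m' (D.vx k x)‖)
    (fun x hx => (hφc x hx.1 hx.2.1).norm.continuousWithinAt)
  obtain ⟨M, hM⟩ : ∃ M : ℝ, M = ‖D.M3f k' m' (D.vx k x₁)‖ := ⟨_, rfl⟩
  have hMpos : 0 < M := by
    rw [hM]
    exact hδ.trans_le hx₁.2.2
  have hMax : ∀ x ∈ Up, hf (D.vx k x) (k' *ᵥ yy m') = 0 → ‖D.M3f k' m' (D.vx k x)‖ ≤ M := by
    intro x hx hE
    rw [hM]
    rcases le_or_gt ‖D.M3f k' m' (D.vx k x₀)‖ ‖D.M3f k' m' (D.vx k x)‖ with h | h
    · exact hmax₁ ⟨hx, hE, h⟩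
    · exact h.le.trans hx₁.2.2
  obtain ⟨p, hp, hmaxp⟩ := (hcpt M hMpos).exists_isMaxOn ⟨x₁, hx₁.1, hx₁.2.1, hM.le⟩
    (f := fun x => ‖M3N D k x‖)
    (fun x hx => ((M3_Nc hk).continuousAt (M3_open.mem_nhds hx.1)).norm.continuousWithinAt)
  have hpM : ‖D.M3f k' m' (D.vx k p)‖ = M := le_antisymm (hMax p hp.1 hp.2.1) hp.2.2
  -- local coordinates
  obtain ⟨W, F, hWo, hpW, hF, hW1, hW2⟩ := M0_loc hD hk hp.1
  obtain ⟨g, hg⟩ : ∃ g : ℂ × ℂ → V4, ∀ w, g w = ![F w, w.2 - star (p 0) * F w, w.1, 1] :=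
    ⟨_, fun _ => rfl⟩
  obtain ⟨N, hN⟩ : ∃ N : ℂ × ℂ → EuclideanSpace ℂ (Fin 3),
      ∀ w, N w = WithLp.toLp 2 ![F w, w.2 - star (p 0) * F w, w.1] := ⟨_, fun _ => rfl⟩
  have hΞ : ∀ w ∈ W, ∃ τ : ℂ, 0 < τ.im ∧ k *ᵥ g w = D.vx k ![w.1, τ] ∧
      N w = M3N D k ![w.1, τ] := by
    intro w hw
    obtain ⟨τ, hτ, h1, h2⟩ := hW1 w hw
    have h3 : w.2 - star (p 0) * F w = τ - star w.1 * F w := by
      rw [← h2]
      linear_combination h1
    refine ⟨τ, hτ, ?_, ?_⟩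
    · unfold vx XX
      rw [hg, h3]
      simp only [Matrix.cons_val_zero, Matrix.cons_val_one, h2]
    · unfold M3N
      rw [hN, h3]
      simp only [Matrix.cons_val_zero, Matrix.cons_val_one, h2]
  -- the transformation near the point
  have hT : ∀ᶠ x in 𝓝 p, (x 0, x 1 - (star (x 0) - star (p 0)) * D.P k x) ∈ W ∧
      k *ᵥ g (x 0, x 1 - (star (x 0) - star (p 0)) * D.P k x) = D.vx k x ∧
      N (x 0, x 1 - (star (x 0) - star (p 0)) * D.P k x) = M3N D k x := by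
    filter_upwards [hW2] with x hx
    have h3 : x 1 - (star (x 0) - star (p 0)) * D.P k x - star (p 0) * D.P k x =
        x 1 - star (x 0) * D.P k x := by ring
    refine ⟨hx.1, ?_, ?_⟩
    · unfold vx XX
      rw [hg, ← hx.2]
      simp only [h3]
    · unfold M3N
      rw [hN, ← hx.2]
      simp only [h3]
  have hTp := hT.self_of_nhds
  rw [sub_self, zero_mul, sub_zero] at hTp
  obtain ⟨-, hTp1, hTp2⟩ := hTp
  -- holomorphic functions
  have h1W : DifferentiableOn ℂ (fun w : ℂ × ℂ => w.1) W := differentiable_fst.differentiableOn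
  have h2W : DifferentiableOn ℂ (fun w : ℂ × ℂ => w.2) W := differentiable_snd.differentiableOn
  have hgd : ∀ j, DifferentiableOn ℂ (fun w => g w j) W := by
    intro j
    simp only [hg]
    fin_cases j
    · exact hF
    · exact h2W.sub (hF.const_mul _)
    · exact h1W
    · exact differentiableOn_const _
  have hΞd : ∀ i, DifferentiableOn ℂ (fun w => (k *ᵥ g w) i) W := M3_mul hgd k
  have hzd : ∀ i, DifferentiableOn ℂ (fun w => M0z k' (k *ᵥ g w) i) W := M3_mul hΞd k'ᴴ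
  have hud : DifferentiableOn ℂ (fun w => hf (k *ᵥ g w) (k' *ᵥ yy m')) W := by
    simp only [M0_hf_yy (M0_kk hk')]
    exact ((hzd 2).sub ((hzd 3).const_mul _)).const_mul _
  have hz3 : ∀ w ∈ W, M0z k' (k *ᵥ g w) 3 ≠ 0 := by
    intro w hw
    obtain ⟨τ, hτ, h1, -⟩ := hΞ w hw
    rw [h1]
    exact (M0_E hD hk hk' (M3_mem (show (![w.1, τ] : C2) ∈ Up from hτ))).1
  have hsd : DifferentiableOn ℂ (fun w => M0s k' m' (k *ᵥ g w)) W :=
    M3_div ((hzd 1).add ((hzd 0).const_mul _)) (hzd 3) hz3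
  have had : DifferentiableOn ℂ (fun w => M0a k' (k *ᵥ g w)) W := M3_div (hzd 0) (hzd 3) hz3
  have hUo : IsOpen (W ∩ (fun w => (M0s k' m' (k *ᵥ g w)).im) ⁻¹' Set.Ioi 0) :=
    (Complex.continuous_im.comp_continuousOn hsd.continuousOn).isOpen_inter_preimage hWo
      isOpen_Ioi
  have hpU : (p 0, p 1) ∈ W ∩ (fun w => (M0s k' m' (k *ᵥ g w)).im) ⁻¹' Set.Ioi 0 := by
    refine ⟨hpW, ?_⟩
    change 0 < (M0s k' m' (k *ᵥ g (p 0, p 1))).im
    rw [hTp1]
    exact (hEs p hp.1 hp.2.1).2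
  have hPd : DifferentiableOn ℂ (fun w => D.P k' ![m', M0s k' m' (k *ᵥ g w)])
      (W ∩ (fun w => (M0s k' m' (k *ᵥ g w)).im) ⁻¹' Set.Ioi 0) := by
    have h1 := PE_hol (D.ch hk') (hD.cz k' hk') m'
    exact h1.comp (hsd.mono Set.inter_subset_left) fun w hw => hw.2
  have hfd : DifferentiableOn ℂ (fun w => D.M3f k' m' (k *ᵥ g w))
      (W ∩ (fun w => (M0s k' m' (k *ᵥ g w)).im) ⁻¹' Set.Ioi 0) :=
    M3_div ((had.mono Set.inter_subset_left).sub hPd)
      ((hsd.mono Set.inter_subset_left).add_const _) fun w hw => M3_den hw.2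
  have hu0 : hf (k *ᵥ g (p 0, p 1)) (k' *ᵥ yy m') = 0 := by
    rw [hTp1]
    exact hp.2.1
  have hy0 : k' *ᵥ yy m' ≠ 0 := by
    intro h
    have h1 := M0z_left (M0_kk hk') (yy m')
    rw [h] at h1
    have h2 : M0z k' 0 = 0 := by
      have h3 := M0z_smul k' 0 (0 : V4)
      rwa [zero_smul, zero_smul] at h3
    rw [h2] at h1
    have h3 := congrFun h1 0
    simp [yy] at h3
  have hyy : hf (k' *ᵥ yy m') (k' *ᵥ yy m') = 0 := by
    rw [M0_hf_yy (M0_kk hk'), M0z_left (M0_kk hk')]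
    simp [yy]
  have hne : ¬ ∀ᶠ w in 𝓝 (p 0, p 1), hf (k *ᵥ g w) (k' *ᵥ yy m') = 0 := by
    intro hev
    refine M0_nv hD hk hp.1 hy0 hyy ?_
    have hcT : ContinuousAt (fun x : C2 => (x 0, x 1 - (star (x 0) - star (p 0)) * D.P k x)) p := by
      have c0 : ContinuousAt (fun x : C2 => x 0) p := (continuous_apply 0).continuousAt
      have c1 : ContinuousAt (fun x : C2 => x 1) p := (continuous_apply 1).continuousAt
      exact c0.prodMk (c1.sub ((c0.star.sub continuousAt_const).mul (M3_Pat hk hp.1)))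
    have h1 : Tendsto (fun x : C2 => (x 0, x 1 - (star (x 0) - star (p 0)) * D.P k x)) (𝓝 p)
        (𝓝 (p 0, p 1)) := by
      have h2 := hcT.tendsto
      rw [sub_self, zero_mul, sub_zero] at h2
      exact h2
    filter_upwards [h1.eventually hev, hT] with x h2 h3
    rw [h3.2.1] at h2
    exact h2
  -- zeros are points of the curve
  have hzero : ∀ w ∈ W, hf (k *ᵥ g w) (k' *ᵥ yy m') = 0 → ∃ x ∈ Up,
      hf (D.vx k x) (k' *ᵥ yy m') = 0 ∧ k *ᵥ g w = D.vx k x ∧ N w = M3N D k x := by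
    intro w hw h
    obtain ⟨τ, hτ, h1, h2⟩ := hΞ w hw
    rw [h1] at h
    exact ⟨![w.1, τ], hτ, h, h1, h2⟩
  obtain ⟨hA, hB⟩ := max_curve hUo (hud.mono Set.inter_subset_left) hfd hpU hu0 hne
    (fun w hw h => by
      obtain ⟨x, hx, hx1, hx2, -⟩ := hzero w hw.1 h
      rw [hx2, hTp1, hpM]
      exact hMax x hx hx1)
  obtain ⟨V, hV, hVo, hpV⟩ := eventually_nhds_iff.mp (hA.and (hUo.mem_nhds hpU))
  have hVW : V ⊆ W := fun w hw => (hV w hw).2.1
  have hNi : ∀ i, DifferentiableOn ℂ (fun w => N w i) W := by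
    intro i
    simp only [hN]
    fin_cases i
    · exact hF
    · exact h2W.sub (hF.const_mul _)
    · exact h1W
  have hin : (fun w => inner ℂ (N (p 0, p 1)) (N w)) =
      fun w => ∑ i, N w i * star (N (p 0, p 1) i) := by
    funext w
    rw [PiLp.inner_apply]
    rfl
  have hf2 : DifferentiableOn ℂ (fun w => inner ℂ (N (p 0, p 1)) (N w)) V := by
    rw [hin]
    exact DifferentiableOn.fun_sum fun i _ => ((hNi i).mono hVW).mul_const _
  -- zeros near the point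
  have hNle : ∀ w ∈ V, hf (k *ᵥ g w) (k' *ᵥ yy m') = 0 → ‖N w‖ ≤ ‖N (p 0, p 1)‖ := by
    intro w hw h
    obtain ⟨x, hx, hx1, hx2, hx3⟩ := hzero w (hVW hw) h
    rw [hx3, hTp2]
    refine hmaxp ⟨hx, hx1, ?_⟩
    have h1 := (hV w hw).1 h
    rw [hx2, hTp1] at h1
    rw [h1, hpM]
  obtain ⟨hA2, -⟩ := max_curve hVo (hud.mono hVW) hf2 hpV hu0 hne
    (fun w hw h => by
      refine (norm_inner_le_norm _ _).trans ?_
      have h1 : ‖inner ℂ (N (p 0, p 1)) (N (p 0, p 1))‖ = ‖N (p 0, p 1)‖ * ‖N (p 0, p 1)‖ := by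
        rw [inner_self_eq_norm_sq_to_K, norm_pow, RCLike.norm_ofReal, abs_norm, sq]
      rw [h1]
      exact mul_le_mul_of_nonneg_left (hNle w hw h) (norm_nonneg _))
  have hfin : ∀ᶠ w in 𝓝 (p 0, p 1), hf (k *ᵥ g w) (k' *ᵥ yy m') = 0 → w = (p 0, p 1) := by
    filter_upwards [hA2, hVo.mem_nhds hpV] with w h2 hw h
    have h3 := h2 h
    have h4 := hNle w hw h
    have h5 : N w = N (p 0, p 1) := by
      have h6 := @norm_sub_sq ℂ _ _ _ _ (N (p 0, p 1)) (N w)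
      rw [h3, inner_self_eq_norm_sq] at h6
      have h7 : ‖N w‖ ^ 2 ≤ ‖N (p 0, p 1)‖ ^ 2 := pow_le_pow_left₀ (norm_nonneg _) h4 2
      have h8 : ‖N (p 0, p 1) - N w‖ ^ 2 = 0 :=
        le_antisymm (by rw [h6]; linarith) (sq_nonneg _)
      have h9 := norm_eq_zero.mp (pow_eq_zero_iff (two_ne_zero) |>.mp h8)
      exact (sub_eq_zero.mp h9).symm
    have e0 : F w = F (p 0, p 1) := by
      have h6 := congrArg (fun v : EuclideanSpace ℂ (Fin 3) => v 0) h5
      simp only [hN] at h6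
      exact h6
    have e2 : w.1 = p 0 := by
      have h6 := congrArg (fun v : EuclideanSpace ℂ (Fin 3) => v 2) h5
      simp only [hN] at h6
      exact h6
    have e1 : w.2 - star (p 0) * F w = p 1 - star (p 0) * F (p 0, p 1) := by
      have h6 := congrArg (fun v : EuclideanSpace ℂ (Fin 3) => v 1) h5
      simp only [hN] at h6
      exact h6
    rw [e0] at e1
    exact Prod.ext e2 (sub_left_injective e1)
  obtain ⟨w, hw, h1, h2⟩ := (hB.and_eventually (eventually_nhdsWithin_of_eventually_nhds hfin |>.and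
    self_mem_nhdsWithin)).exists
  exact h2 (h1 hw)

include hD

/-- module M3 -/
theorem E_sub {k k' : M4} (hk : k ∈ D.FF) (hk' : k' ∈ D.FF) (m' : ℂ) {x : C2} (hx : x ∈ Up)
    (h : hf (D.vx k x) (k' *ᵥ yy m') = 0) : D.vx k x ∈ D.DD k' m' := by
  obtain ⟨h3, hm, ht, hs⟩ := M3_E hD hk hk' m' (M3_mem hx) h
  have h0 := M3_main hD hk hk' m' hx h
  unfold M3f at h0
  have h1 : M0a k' (D.vx k x) = D.P k' ![m', M0s k' m' (D.vx k x)] :=
    sub_eq_zero.mp ((div_eq_zero_iff.mp h0).resolve_right (M3_den hs))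
  refine (M0_D hk' m' _).mpr ⟨(M0_V hk' _).mpr ⟨h3, ht, ?_⟩, hm⟩
  have h4 : M0t k' (D.vx k x) = M0s k' m' (D.vx k x) := by rw [M0t, hm]
  rw [h1, h4, hm]

end Kd

end Pool.Agent.MPd01a95.KT
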