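import Mathlib
import Pool.Agent.Lib.MP_d01a95_gt_K.KDefs2
import Pool.Agent.Lib.MP_d01a95_gt_K.KA1
import Pool.Agent.Lib.MP_d01a95_gt_K.KA2
import Pool.Agent.Lib.MP_d01a95_gt_K.KA4
import Pool.Agent.Lib.MP_d01a95_gt_K.KF0
import Pool.Agent.Lib.MP_d01a95_gt_K.KF6
import Pool.Agent.Lib.MP_d01a95_gt_K.KH1
import Pool.Agent.Lib.MP_d01a95_gt_K.KH2
import Pool.Agent.Lib.MP_d01a95_gt_K.KH3
import Pool.Agent.Lib.MP_d01a95_gt_K.KH4
import Pool.Agent.Lib.MP_d01a95_gt_K.KK7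
import Pool.Agent.Lib.MP_d01a95_gt_K.KL1
import Pool.Agent.Lib.MP_d01a95_gt_K.KL2
import Pool.Agent.Lib.MP_d01a95_gt_K.KL3
import Pool.Agent.Lib.MP_d01a95_gt_K.KL4
import Pool.Agent.Lib.MP_d01a95_gt_K.KL5
import Pool.Agent.Lib.MP_d01a95_gt_K.KM1
import Pool.Agent.Lib.MP_d01a95_gt_K.KM2
import Pool.Agent.Lib.MP_d01a95_gt_K.KM0b
import Pool.Agent.Lib.MP_d01a95_gt_K.KM3

set_option autoImplicit false
set_option linter.all false

open Matrix Filter Topology MeasureTheory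
open scoped ContDiff

namespace Pool.Agent.MPd01a95.KT

open GU

variable {G : Type} [Group G]

theorem M4_mv {α : Type*} [NormedAddCommGroup α] [NormedSpace ℂ α] {f : α → V4} {x : α}
    (h : ∀ j, DifferentiableAt ℂ (fun w => f w j) x) (k : M4) (i : Fin 4) :
    DifferentiableAt ℂ (fun w => (k *ᵥ f w) i) x := by
  simp only [Matrix.mulVec, dotProduct, Fin.sum_univ_four]
  exact ((((h 0).const_mul _).add ((h 1).const_mul _)).add ((h 2).const_mul _)).add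
    ((h 3).const_mul _)

theorem M4_z {α : Type*} [NormedAddCommGroup α] [NormedSpace ℂ α] {f : α → V4} {x : α}
    (h : ∀ j, DifferentiableAt ℂ (fun w => f w j) x) (k : M4) (i : Fin 4) :
    DifferentiableAt ℂ (fun w => M0z k (f w) i) x := M4_mv h kᴴ i

theorem M4_div {α : Type*} [NormedAddCommGroup α] [NormedSpace ℂ α] {f g : α → ℂ} {x : α}
    (hf : DifferentiableAt ℂ f x) (hg : DifferentiableAt ℂ g x) (h : g x ≠ 0) :
    DifferentiableAt ℂ (fun w => f w / g w) x := by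
  simp only [div_eq_mul_inv]
  exact hf.mul (hg.inv h)

theorem M4_a {α : Type*} [NormedAddCommGroup α] [NormedSpace ℂ α] {f : α → V4} {x : α}
    (h : ∀ j, DifferentiableAt ℂ (fun w => f w j) x) (k : M4) (h3 : M0z k (f x) 3 ≠ 0) :
    DifferentiableAt ℂ (fun w => M0a k (f w)) x := M4_div (M4_z h k 0) (M4_z h k 3) h3

theorem M4_m {α : Type*} [NormedAddCommGroup α] [NormedSpace ℂ α] {f : α → V4} {x : α}
    (h : ∀ j, DifferentiableAt ℂ (fun w => f w j) x) (k : M4) (h3 : M0z k (f x) 3 ≠ 0) :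
    DifferentiableAt ℂ (fun w => M0m k (f w)) x := M4_div (M4_z h k 2) (M4_z h k 3) h3

theorem M4_s {α : Type*} [NormedAddCommGroup α] [NormedSpace ℂ α] {f : α → V4} {x : α}
    (h : ∀ j, DifferentiableAt ℂ (fun w => f w j) x) (k : M4) (m : ℂ) (h3 : M0z k (f x) 3 ≠ 0) :
    DifferentiableAt ℂ (fun w => M0s k m (f w)) x :=
  M4_div ((M4_z h k 1).add ((M4_z h k 0).const_mul (star m))) (M4_z h k 3) h3

/-- the point with given coordinates -/
noncomputable def M4_X (k : M4) (F : ℂ × ℂ → ℂ) (a : ℂ) (w : ℂ × ℂ) : V4 :=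
  k *ᵥ ![F w, w.2 - star a * F w, w.1, 1]

theorem M4_X_diff (k : M4) {F : ℂ × ℂ → ℂ} (a : ℂ) {w : ℂ × ℂ} (hF : DifferentiableAt ℂ F w)
    (j : Fin 4) : DifferentiableAt ℂ (fun w => M4_X k F a w j) w := by
  refine M4_mv (f := fun w : ℂ × ℂ => (![F w, w.2 - star a * F w, w.1, 1] : V4)) ?_ k j
  intro j
  fin_cases j
  · exact hF
  · exact differentiableAt_snd.sub (hF.const_mul (star a))
  · exact differentiableAt_fst
  · exact differentiableAt_const 1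

theorem M4_X_coord {k : M4} (hk : k ∈ KK) (F : ℂ × ℂ → ℂ) (a : ℂ) (w : ℂ × ℂ) :
    M0z k (M4_X k F a w) 3 = 1 ∧ M0a k (M4_X k F a w) = F w ∧ M0m k (M4_X k F a w) = w.1 ∧
      M0s k a (M4_X k F a w) = w.2 := by
  have e : M0z k (M4_X k F a w) = ![F w, w.2 - star a * F w, w.1, 1] := M0z_left hk _
  refine ⟨?_, ?_, ?_, ?_⟩
  · rw [e]; rfl
  · simp [M0a, e]
  · simp [M0m, e]
  · simp [M0s, e]

namespace Kd

variable {D : Kd G} (hD : Good D)

theorem M4_X_vx (k : M4) {F : ℂ × ℂ → ℂ} (a : ℂ) (x : C2)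
    (h : D.P k x = F (x 0, x 1 - (star (x 0) - star a) * D.P k x)) :
    M4_X k F a (x 0, x 1 - (star (x 0) - star a) * D.P k x) = D.vx k x := by
  unfold M4_X vx XX
  rw [← h]
  congr 1
  ext i
  fin_cases i
  · rfl
  · show x 1 - (star (x 0) - star a) * D.P k x - star a * D.P k x = x 1 - star (x 0) * D.P k x
    ring
  · rfl
  · rfl

theorem M4_P_cont {k : M4} (hk : k ∈ D.FF) {p : C2} (hp : p ∈ Up) : ContinuousAt (D.P k) p := by
  have h1 := PE_cont (D.ch hk)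
  have h2 : ContinuousAt (fun q : ℂ × ℂ => PE (D.A k) q.1 q.2) (p 0, p 1) := by
    refine h1.continuousAt ?_
    have h3 : IsOpen {q : ℂ × ℂ | 0 < q.2.im} :=
      isOpen_lt continuous_const (Complex.continuous_im.comp continuous_snd)
    exact mem_of_superset (h3.mem_nhds (show (0 : ℝ) < (p 1).im from hp))
      fun q (hq : 0 < q.2.im) => (le_of_lt hq : (0 : ℝ) ≤ q.2.im)
  have h4 : ContinuousAt (fun x : C2 => ((x 0, x 1) : ℂ × ℂ)) p :=
    ((continuous_apply 0).prodMk (continuous_apply 1)).continuousAt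
  exact ContinuousAt.comp (g := fun q : ℂ × ℂ => PE (D.A k) q.1 q.2)
    (f := fun x : C2 => ((x 0, x 1) : ℂ × ℂ)) h2 h4

include hD

theorem M4_v_diff {k' : M4} (hk' : k' ∈ D.FF) (m' : ℂ) {τ : ℂ} (hτ : 0 < τ.im) (j : Fin 4) :
    DifferentiableAt ℂ (fun σ => D.vx k' ![m', σ] j) τ := by
  have hP : DifferentiableAt ℂ (fun σ => D.P k' ![m', σ]) τ :=
    (PE_hol (D.ch hk') (hD.cz k' hk') m').differentiableAt
      ((isOpen_lt continuous_const Complex.continuous_im).mem_nhds hτ)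
  refine M4_mv (f := fun σ : ℂ => XX (D.P k' ![m', σ]) m' σ) ?_ k' j
  intro j
  fin_cases j
  · exact hP
  · exact differentiableAt_id.sub (hP.const_mul (star m'))
  · exact differentiableAt_const m'
  · exact differentiableAt_const 1

theorem M4_v_mem {k' : M4} (m' : ℂ) {τ : ℂ} (hτ : 0 < τ.im) :
    D.vx k' ![m', τ] ∈ D.VV k' := ⟨![m', τ], hτ, 1, one_ne_zero, (one_smul _ _).symm⟩

theorem M4_v_z3 {k k' : M4} (hk : k ∈ D.FF) (hk' : k' ∈ D.FF) (m' : ℂ) {τ : ℂ} (hτ : 0 < τ.im) :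
    M0z k (D.vx k' ![m', τ]) 3 ≠ 0 := (M0_E hD hk' hk (M4_v_mem hD m' hτ)).1

theorem M4_v_y {k' : M4} (hk' : k' ∈ D.FF) (m' τ : ℂ) :
    hf (D.vx k' ![m', τ]) (k' *ᵥ yy m') = 0 := by
  rw [vx, (M0_kk hk').2, fc_yy]
  show -Complex.I * (m' - m') = 0
  ring

/-- the set of the parameters is open -/
theorem M4_open {k k' : M4} (hk : k ∈ D.FF) (hk' : k' ∈ D.FF) (m' : ℂ) {τ₀ : ℂ} (hτ₀ : 0 < τ₀.im)
    (h : D.vx k' ![m', τ₀] ∈ D.VV k) : ∀ᶠ τ in 𝓝 τ₀, D.vx k' ![m', τ] ∈ D.VV k := by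
  obtain ⟨x₀, hx₀, l₀, hl₀, hv₀⟩ := h
  obtain ⟨W, F, hWo, hW0, hF, hA, hB⟩ := M0_loc hD hk hx₀
  obtain ⟨a, ha⟩ : ∃ a, a = x₀ 0 := ⟨_, rfl⟩
  obtain ⟨w₀, hw₀⟩ : ∃ w₀ : ℂ × ℂ, w₀ = (x₀ 0, x₀ 1) := ⟨_, rfl⟩
  rw [← ha] at hA hB
  rw [← hw₀] at hW0
  have hkK := M0_kk hk
  have hk'K := M0_kk hk'
  obtain ⟨c3, ca, cm, ct, cne⟩ := M0_vx hk x₀
  -- continuity of the coordinates at `τ₀`
  have hd : ∀ τ : ℂ, 0 < τ.im → ∀ j, DifferentiableAt ℂ (fun σ => D.vx k' ![m', σ] j) τ :=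
    fun τ hτ j => M4_v_diff hD hk' m' hτ j
  have hz : ∀ τ : ℂ, 0 < τ.im → M0z k (D.vx k' ![m', τ]) 3 ≠ 0 := fun τ hτ =>
    M4_v_z3 hD hk hk' m' hτ
  have hw : ∀ τ : ℂ, 0 < τ.im → DifferentiableAt ℂ
      (fun σ => ((M0m k (D.vx k' ![m', σ]), M0s k a (D.vx k' ![m', σ])) : ℂ × ℂ)) τ :=
    fun τ hτ => (M4_m (hd τ hτ) k (hz τ hτ)).prodMk (M4_s (hd τ hτ) k a (hz τ hτ))
  obtain ⟨s0, s1, s2, s3⟩ := M0_smul k hl₀ (D.vx k x₀) a
  have hw0 : ((M0m k (D.vx k' ![m', τ₀]), M0s k a (D.vx k' ![m', τ₀])) : ℂ × ℂ) = w₀ := by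
    rw [hv₀, s1, s2, cm, hw₀]
    refine Prod.ext rfl ?_
    show M0s k a (D.vx k x₀) = x₀ 1
    rw [← ct, M0t, cm, ha]
  have hH : IsOpen {τ : ℂ | 0 < τ.im} := isOpen_lt continuous_const Complex.continuous_im
  have hev1 : ∀ᶠ τ in 𝓝 τ₀, 0 < τ.im := hH.mem_nhds hτ₀
  have hev2 : ∀ᶠ τ in 𝓝 τ₀,
      ((M0m k (D.vx k' ![m', τ]), M0s k a (D.vx k' ![m', τ])) : ℂ × ℂ) ∈ W := by
    have h1 := (hw τ₀ hτ₀).continuousAt
    refine h1.eventually_mem (hWo.mem_nhds ?_)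
    rw [hw0]
    exact hW0
  -- the function `ψ`
  obtain ⟨ψ, hψ⟩ : ∃ ψ : ℂ → ℂ, ψ = fun τ => M0a k (D.vx k' ![m', τ]) -
      F (M0m k (D.vx k' ![m', τ]), M0s k a (D.vx k' ![m', τ])) := ⟨_, rfl⟩
  have hψd : AnalyticAt ℂ ψ τ₀ := by
    obtain ⟨U, hU, hUo, hU0⟩ := eventually_nhds_iff.1 (hev1.and hev2)
    have h1 : DifferentiableOn ℂ ψ U := by
      intro τ hτ
      obtain ⟨hτ1, hτ2⟩ := hU τ hτ
      apply DifferentiableAt.differentiableWithinAt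
      rw [hψ]
      have h2 := M4_a (hd τ hτ1) k (hz τ hτ1)
      have h3 : DifferentiableAt ℂ F
          ((M0m k (D.vx k' ![m', τ]), M0s k a (D.vx k' ![m', τ])) : ℂ × ℂ) :=
        hF.differentiableAt (hWo.mem_nhds hτ2)
      exact h2.sub (DifferentiableAt.comp (g := F) (f := fun σ =>
        ((M0m k (D.vx k' ![m', σ]), M0s k a (D.vx k' ![m', σ])) : ℂ × ℂ)) τ h3 (hw τ hτ1))
    exact h1.analyticAt (hUo.mem_nhds hU0)
  -- the zeros of `u`
  have hXd : ∀ w ∈ W, ∀ j, DifferentiableAt ℂ (fun w => M4_X k F a w j) w := fun w hw j =>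
    M4_X_diff k a (hF.differentiableAt (hWo.mem_nhds hw)) j
  have hcx : ContinuousAt (fun x : C2 => ((x 0, x 1 - (star (x 0) - star a) * D.P k x) : ℂ × ℂ))
      x₀ := by
    have h1 := M4_P_cont (D := D) hk hx₀
    have c0 : ContinuousAt (fun x : C2 => x 0) x₀ := (continuous_apply 0).continuousAt
    have c1 : ContinuousAt (fun x : C2 => x 1) x₀ := (continuous_apply 1).continuousAt
    exact c0.prodMk (c1.sub ((c0.star.sub continuousAt_const).mul h1))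
  have hcx0 : ((x₀ 0, x₀ 1 - (star (x₀ 0) - star a) * D.P k x₀) : ℂ × ℂ) = w₀ := by
    rw [ha, hw₀]
    simp
  have hX0 : M4_X k F a w₀ = D.vx k x₀ := by
    have h1 := hB.self_of_nhds.2
    have h2 := M4_X_vx (D := D) k a x₀ h1
    rw [hcx0] at h2
    exact h2
  have hXv : D.vx k' ![m', τ₀] = l₀ • M4_X k F a w₀ := by rw [hX0]; exact hv₀
  obtain ⟨u, hu⟩ : ∃ u : ℂ × ℂ → ℂ, u = fun w => hf (M4_X k F a w) (k' *ᵥ yy m') := ⟨_, rfl⟩
  have hud : DifferentiableOn ℂ u W := by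
    intro w hw
    apply DifferentiableAt.differentiableWithinAt
    have e : u = fun w => -Complex.I * (M0z k' (M4_X k F a w) 2 - m' * M0z k' (M4_X k F a w) 3) := by
      rw [hu]
      funext w
      exact M0_hf_yy hk'K _ _
    rw [e]
    exact ((M4_z (hXd w hw) k' 2).sub ((M4_z (hXd w hw) k' 3).const_mul m')).const_mul _
  have hu0 : u w₀ = 0 := by
    have h1 := M4_v_y hD hk' m' τ₀
    have h2 := M0_hf_smul l₀ 1 (M4_X k F a w₀) (k' *ᵥ yy m')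
    rw [one_smul, ← hXv, h1, star_one, mul_one] at h2
    rw [hu]
    exact (mul_eq_zero.1 h2.symm).resolve_left hl₀
  have hne : ¬ ∀ᶠ w in 𝓝 w₀, u w = 0 := by
    intro h1
    have hyne : k' *ᵥ yy m' ≠ 0 := by
      intro h0
      have h2 := M0z_left hk'K (yy m')
      rw [h0] at h2
      have h3 := congrFun h2 0
      simp [M0z, yy] at h3
    have hy0 : hf (k' *ᵥ yy m') (k' *ᵥ yy m') = 0 := by
      rw [hk'K.2]
      simp [fc, yy]
    apply M0_nv hD hk hx₀ hyne hy0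
    rw [← hcx0] at h1
    have h2 := hcx.eventually h1
    filter_upwards [h2, hB] with x hx hx2
    have h3 := M4_X_vx (D := D) k a x hx2.2
    rw [hu] at hx
    rw [← h3]
    exact hx
  obtain ⟨-, hfreq⟩ := max_curve (f := fun _ => (0 : ℂ)) hWo hud
    (differentiableOn_const (0 : ℂ)) hW0 hu0 hne (fun x _ _ => le_rfl)
  -- the corresponding parameters
  have hz0 : M0z k' (M4_X k F a w₀) 3 ≠ 0 := by
    rw [hX0]
    exact (M0_E hD hk hk' ⟨x₀, hx₀, 1, one_ne_zero, (one_smul _ _).symm⟩).1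
  have hs : ContinuousAt (fun w => M0s k' m' (M4_X k F a w)) w₀ :=
    (M4_s (hXd w₀ hW0) k' m' hz0).continuousAt
  have hcoord' : ∀ (σ : ℂ) (l : ℂ), l ≠ 0 → M0s k' m' (l • D.vx k' ![m', σ]) = σ := by
    intro σ l hl
    obtain ⟨-, -, h2, h3, -⟩ := M0_vx hk' ![m', σ]
    rw [(M0_smul k' hl (D.vx k' ![m', σ]) m').2.2.1]
    have h4 : M0t k' (D.vx k' ![m', σ]) = σ := h3
    have h5 : M0m k' (D.vx k' ![m', σ]) = m' := h2
    rw [M0t, h5] at h4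
    exact h4
  have hs0 : M0s k' m' (M4_X k F a w₀) = τ₀ := by
    have h1 : M4_X k F a w₀ = l₀⁻¹ • D.vx k' ![m', τ₀] := by
      rw [hXv, smul_smul, inv_mul_cancel₀ hl₀, one_smul]
    rw [h1]
    exact hcoord' τ₀ _ (inv_ne_zero hl₀)
  have hkey : ∀ w ∈ W, w ≠ w₀ → u w = 0 → M0s k' m' (M4_X k F a w) ≠ τ₀ ∧
      ψ (M0s k' m' (M4_X k F a w)) = 0 := by
    intro w hwW hwne huw
    obtain ⟨τ, hτ, hτ2, hτ3⟩ := hA w hwW
    have hx : (![w.1, τ] : C2) ∈ Up := hτ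
    have hXx : M4_X k F a w = D.vx k ![w.1, τ] := by
      have e1 : (((![w.1, τ] : C2) 0, (![w.1, τ] : C2) 1 - (star ((![w.1, τ] : C2) 0) - star a) *
          D.P k ![w.1, τ]) : ℂ × ℂ) = w := Prod.ext rfl hτ2.symm
      have h1 := M4_X_vx (D := D) k (F := F) a ![w.1, τ] (by rw [e1]; exact hτ3)
      rw [e1] at h1
      exact h1
    have h0 : hf (D.vx k ![w.1, τ]) (k' *ᵥ yy m') = 0 := by
      rw [← hXx]
      rw [hu] at huw
      exact huw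
    obtain ⟨σ, hσ, l, hl, hlv⟩ := E_sub hD hk hk' m' hx h0
    have hσs : M0s k' m' (M4_X k F a w) = σ := by
      rw [hXx, hlv]
      exact hcoord' σ l hl
    rw [hσs]
    constructor
    · intro hστ
      apply hwne
      rw [hστ, hv₀, smul_smul] at hlv
      have hll : l * l₀ ≠ 0 := mul_ne_zero hl hl₀
      obtain ⟨-, -, m1, t1, -⟩ := M0_vx hk ![w.1, τ]
      obtain ⟨-, q1, -, q3⟩ := M0_smul k hll (D.vx k x₀) 0
      rw [hlv, q1, cm] at m1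
      rw [hlv, q3, ct] at t1
      have m2 : x₀ 0 = w.1 := m1
      have t2 : x₀ 1 = τ := t1
      rw [hw₀]
      refine Prod.ext m2.symm ?_
      show w.2 = x₀ 1
      rw [hτ2, ha, m2, t2, sub_self, zero_mul, sub_zero]
    · have h1 : D.vx k' ![m', σ] = l⁻¹ • M4_X k F a w := by
        rw [hXx, hlv, smul_smul, inv_mul_cancel₀ hl, one_smul]
      obtain ⟨-, p1, p2, p3⟩ := M4_X_coord hkK F a w
      obtain ⟨q0, q1, q2, -⟩ := M0_smul k (inv_ne_zero hl) (M4_X k F a w) a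
      rw [hψ]
      show M0a k (D.vx k' ![m', σ]) - F (M0m k (D.vx k' ![m', σ]), M0s k a (D.vx k' ![m', σ])) = 0
      rw [h1, q0, q1, q2, p1, p2, p3]
      exact sub_self _
  have hψ0 : ∀ᶠ τ in 𝓝 τ₀, ψ τ = 0 := by
    rcases hψd.eventually_eq_zero_or_eventually_ne_zero with h1 | h1
    · exact h1
    · exfalso
      rw [eventually_nhdsWithin_iff] at h1
      have h2 : ∀ᶠ w in 𝓝 w₀, M0s k' m' (M4_X k F a w) ∈ ({τ₀}ᶜ : Set ℂ) →
          ψ (M0s k' m' (M4_X k F a w)) ≠ 0 := by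
        have h3 : Tendsto (fun w => M0s k' m' (M4_X k F a w)) (𝓝 w₀) (𝓝 τ₀) := by
          have h4 := hs.tendsto
          rw [hs0] at h4
          exact h4
        exact h3.eventually h1
      have h3 : ∀ᶠ w in 𝓝[≠] w₀, w ∈ W ∧ w ≠ w₀ ∧ (M0s k' m' (M4_X k F a w) ∈ ({τ₀}ᶜ : Set ℂ) →
          ψ (M0s k' m' (M4_X k F a w)) ≠ 0) := by
        rw [eventually_nhdsWithin_iff]
        filter_upwards [h2, hWo.mem_nhds hW0] with w q1 q2 q3
        exact ⟨q2, q3, q1⟩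
      obtain ⟨w, hw1, hw2, hw3, hw4⟩ := (hfreq.and_eventually h3).exists
      obtain ⟨r1, r2⟩ := hkey w hw2 hw3 hw1
      exact hw4 r1 r2
  -- conclusion
  filter_upwards [hev1, hev2, hψ0] with τ t1 t2 t3
  obtain ⟨τ', hτ', hc, hP⟩ := hA _ t2
  rw [hψ] at t3
  have t4 : M0a k (D.vx k' ![m', τ]) =
      F (M0m k (D.vx k' ![m', τ]), M0s k a (D.vx k' ![m', τ])) := sub_eq_zero.1 t3
  have hz3 := hz τ t1
  have t5 : M0t k (D.vx k' ![m', τ]) = M0s k a (D.vx k' ![m', τ]) +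
      (star (M0m k (D.vx k' ![m', τ])) - star a) * M0a k (D.vx k' ![m', τ]) := by
    unfold M0t M0s M0a
    field_simp
    ring
  have t6 : M0t k (D.vx k' ![m', τ]) = τ' := by
    rw [t5, t4, ← hP]
    dsimp only at hc ⊢
    rw [hc]
    ring
  refine (M0_V hk _).2 ⟨hz3, ?_, ?_⟩
  · rw [t6]; exact hτ'
  · rw [t6, t4, ← hP]

/-- module M4 -/
theorem E_all {k k' : M4} (hk : k ∈ D.FF) (hk' : k' ∈ D.FF) (m' : ℂ)
    (h : ∃ x ∈ Up, hf (D.vx k x) (k' *ᵥ yy m') = 0) : D.DD k' m' ⊆ D.VV k := by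
  have hH : Convex ℝ {τ : ℂ | 0 < τ.im} := convex_halfSpace_im_gt 0
  have hpre : IsPreconnected {τ : ℂ | 0 < τ.im} := hH.isPreconnected
  obtain ⟨S, hS⟩ : ∃ S : Set ℂ, S = {τ : ℂ | 0 < τ.im ∧ D.vx k' ![m', τ] ∈ D.VV k} := ⟨_, rfl⟩
  have hHo : IsOpen {τ : ℂ | 0 < τ.im} := isOpen_lt continuous_const Complex.continuous_im
  have hSo : IsOpen S := by
    rw [isOpen_iff_mem_nhds]
    intro τ₀ hτ₀
    rw [hS] at hτ₀ ⊢
    have h1 : ∀ᶠ τ in 𝓝 τ₀, 0 < τ.im := hHo.mem_nhds hτ₀.1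
    exact h1.and (M4_open hD hk hk' m' hτ₀.1 hτ₀.2)
  have hne : ({τ : ℂ | 0 < τ.im} ∩ S).Nonempty := by
    obtain ⟨x, hx, hx0⟩ := h
    obtain ⟨τ, hτ, l, hl, hlv⟩ := E_sub hD hk hk' m' hx hx0
    refine ⟨τ, hτ, ?_⟩
    rw [hS]
    refine ⟨hτ, x, hx, l⁻¹, inv_ne_zero hl, ?_⟩
    rw [hlv, smul_smul, inv_mul_cancel₀ hl, one_smul]
  have hcl : closure S ∩ {τ : ℂ | 0 < τ.im} ⊆ S := by
    rintro τ ⟨hτ1, hτ2⟩
    obtain ⟨t, ht, htt⟩ := mem_closure_iff_seq_limit.1 hτ1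
    rw [hS]
    refine ⟨hτ2, ?_⟩
    have hc : ContinuousAt (fun σ => D.vx k' ![m', σ]) τ :=
      continuousAt_pi.2 fun j => (M4_v_diff hD hk' m' hτ2 j).continuousAt
    refine M0_cl hD hk (u := fun n => D.vx k' ![m', t n]) (fun n => ?_) (hc.tendsto.comp htt) ?_
    · have h1 := ht n
      rw [hS] at h1
      exact h1.2
    · rw [hf_vx hD hk']
      intro h0
      have h1 : ((τ.im : ℝ) : ℂ) = 0 := by
        have h2 : (-2 : ℂ) * (((![m', τ] : C2) 1).im : ℂ) = 0 := h0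
        have h3 := (mul_eq_zero.1 h2).resolve_left (by norm_num)
        exact h3
      have h2 : τ.im = 0 := by exact_mod_cast h1
      have h3 : 0 < τ.im := hτ2
      linarith
  have hsub : {τ : ℂ | 0 < τ.im} ⊆ S := hpre.subset_of_closure_inter_subset hSo hne hcl
  rintro v ⟨τ, hτ, l, hl, rfl⟩
  have h1 := hsub hτ
  rw [hS] at h1
  obtain ⟨x, hx, l', hl', hv⟩ := h1.2
  refine ⟨x, hx, l * l', mul_ne_zero hl hl', ?_⟩
  rw [hv, smul_smul]

end Kd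

end Pool.Agent.MPd01a95.KT
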