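import Mathlib
import Pool.Agent.Lib.MP_d01a95_gt_K.KDefs2
import Pool.Agent.Lib.MP_d01a95_gt_K.KA1
import Pool.Agent.Lib.MP_d01a95_gt_K.KA2
import Pool.Agent.Lib.MP_d01a95_gt_K.KA4
import Pool.Agent.Lib.MP_d01a95_gt_K.KF0
import Pool.Agent.Lib.MP_d01a95_gt_K.KF6
import Pool.Agent.Lib.MP_d01a95_gt_K.KH1
import Pool.Agent.Lib.MP_d01a95_gt_K.KH2
import Pool.Agent.Lib.MP_d01a95_gt_K.KH3
import Pool.Agent.Lib.MP_d01a95_gt_K.KH4
import Pool.Agent.Lib.MP_d01a95_gt_K.KK7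
import Pool.Agent.Lib.MP_d01a95_gt_K.KL1
import Pool.Agent.Lib.MP_d01a95_gt_K.KL2
import Pool.Agent.Lib.MP_d01a95_gt_K.KL3
import Pool.Agent.Lib.MP_d01a95_gt_K.KL4
import Pool.Agent.Lib.MP_d01a95_gt_K.KL5
import Pool.Agent.Lib.MP_d01a95_gt_K.KM0
import Pool.Agent.Lib.MP_d01a95_gt_K.KM0b
import Pool.Agent.Lib.MP_d01a95_gt_K.KM1
import Pool.Agent.Lib.MP_d01a95_gt_K.KM2
import Pool.Agent.Lib.MP_d01a95_gt_K.KM3
import Pool.Agent.Lib.MP_d01a95_gt_K.KM4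

/-!
# Project K, module M5: the surface does not depend on the frame
-/

set_option autoImplicit false
set_option linter.all false

open Matrix Filter Topology MeasureTheory
open scoped ContDiff

namespace Pool.Agent.MPd01a95.KT

open GU

variable {G : Type} [Group G]

/-! ### linear algebra -/

theorem M5_yy (m : ℂ) : yy m = e0 - star m • e1 := by
  funext i
  fin_cases i <;> simp [yy, e0, e1]

theorem M5_kyy (k : M4) (m : ℂ) : k *ᵥ yy m = k *ᵥ e0 - star m • (k *ᵥ e1) := by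
  rw [M5_yy, Matrix.mulVec_sub, Matrix.mulVec_smul]

theorem M5_fc_yy (m m' : ℂ) : fc (yy m) (yy m') = 0 := by
  simp [fc, yy]

theorem M5_null {k : M4} (hk : k ∈ KK) (m : ℂ) : hf (k *ᵥ yy m) (k *ᵥ yy m) = 0 := by
  rw [hk.2, M5_fc_yy]

theorem M5_ne {k : M4} (hk : k ∈ KK) (m : ℂ) : k *ᵥ yy m ≠ 0 := by
  intro h
  have h1 : yy m = 0 := by
    apply H3_kk_inj hk
    rw [h, Matrix.mulVec_zero]
  have h2 := congrFun h1 0
  simp [yy] at h2

/-- the vector with given holomorphic coordinates -/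
noncomputable def M5X (k : M4) (s : ℂ) (F : ℂ × ℂ → ℂ) (w : ℂ × ℂ) : V4 :=
  k *ᵥ ![F w, w.2 - s * F w, w.1, 1]

theorem M5_XX (D : Kd G) (k : M4) (s : ℂ) (F : ℂ × ℂ → ℂ) (w : ℂ × ℂ) (τ : ℂ)
    (h1 : w.2 = τ - (star w.1 - s) * D.P k ![w.1, τ]) (h2 : D.P k ![w.1, τ] = F w) :
    M5X k s F w = D.vx k ![w.1, τ] := by
  unfold M5X Kd.vx
  congr 1
  unfold XX
  funext i
  have e0 : (![w.1, τ] : C2) 0 = w.1 := rfl
  have e1 : (![w.1, τ] : C2) 1 = τ := rfl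
  rw [h2] at h1
  fin_cases i
  · exact h2.symm
  · show w.2 - s * F w = τ - star w.1 * D.P k ![w.1, τ]
    rw [h2, h1]
    ring
  · rfl
  · rfl

theorem M5_diff (k k' : M4) (s : ℂ) {W : Set (ℂ × ℂ)} {F : ℂ × ℂ → ℂ}
    (hF : DifferentiableOn ℂ F W) (i : Fin 4) :
    DifferentiableOn ℂ (fun w => M0z k' (M5X k s F w) i) W := by
  have h1 : ∀ j : Fin 4, DifferentiableOn ℂ
      (fun w : ℂ × ℂ => (![F w, w.2 - s * F w, w.1, 1] : V4) j) W := by
    intro j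
    fin_cases j
    · exact hF
    · exact (differentiable_snd.differentiableOn).sub (hF.const_mul s)
    · exact differentiable_fst.differentiableOn
    · exact differentiableOn_const _
  have h2 : ∀ w : ℂ × ℂ, M0z k' (M5X k s F w) i =
      ∑ j, (k'ᴴ * k) i j * (![F w, w.2 - s * F w, w.1, 1] : V4) j := by
    intro w
    unfold M0z M5X
    rw [Matrix.mulVec_mulVec]
    rfl
  have h3 : DifferentiableOn ℂ (fun w : ℂ × ℂ =>
      ∑ j, (k'ᴴ * k) i j * (![F w, w.2 - s * F w, w.1, 1] : V4) j) W :=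
    DifferentiableOn.fun_sum fun j _ => (h1 j).const_mul _
  exact h3.congr fun w _ => h2 w

/-- the open mapping theorem in two variables -/
theorem M5_open {W : Set (ℂ × ℂ)} (hW : IsOpen W) {g : ℂ × ℂ → ℂ} (hg : DifferentiableOn ℂ g W)
    {w₀ : ℂ × ℂ} (hw₀ : w₀ ∈ W) (hnc : ¬ ∀ᶠ w in 𝓝 w₀, g w = g w₀) {T : Set ℂ}
    (hT : ∀ w ∈ W, g w ∈ T) : T ∈ 𝓝 (g w₀) := by
  obtain ⟨r, hr, hrW⟩ := Metric.isOpen_iff.1 hW w₀ hw₀
  obtain ⟨w₁, hw₁, hne⟩ : ∃ w₁ ∈ Metric.ball w₀ r, g w₁ ≠ g w₀ := by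
    by_contra h
    push Not at h
    exact hnc (Filter.eventually_of_mem (Metric.ball_mem_nhds w₀ hr) h)
  let L : ℂ → ℂ × ℂ := fun z => w₀ + z • (w₁ - w₀)
  have hLd : Differentiable ℂ L := by
    exact (differentiable_const _).add (differentiable_id.smul_const _)
  have hL0 : L 0 = w₀ := by simp [L]
  have hL1 : L 1 = w₁ := by simp [L]
  have hUo : IsOpen (L ⁻¹' Metric.ball w₀ r) := Metric.isOpen_ball.preimage hLd.continuous
  have hUc : IsPreconnected (L ⁻¹' Metric.ball w₀ r) := by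
    apply Convex.isPreconnected
    intro a ha b hb s t hs ht hst
    have h1 : L (s • a + t • b) = s • L a + t • L b := by
      have h2 : s • w₀ + t • w₀ = w₀ := by rw [← add_smul, hst, one_smul]
      simp only [L, add_smul, smul_add, smul_assoc]
      rw [add_add_add_comm, h2]
    change L (s • a + t • b) ∈ Metric.ball w₀ r
    rw [h1]
    exact convex_ball w₀ r ha hb hs ht hst
  have h0U : (0 : ℂ) ∈ L ⁻¹' Metric.ball w₀ r := by
    change L 0 ∈ Metric.ball w₀ r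
    rw [hL0]
    exact Metric.mem_ball_self hr
  have h1U : (1 : ℂ) ∈ L ⁻¹' Metric.ball w₀ r := by
    change L 1 ∈ Metric.ball w₀ r
    rw [hL1]
    exact hw₁
  have hGd : DifferentiableOn ℂ (g ∘ L) (L ⁻¹' Metric.ball w₀ r) :=
    hg.comp hLd.differentiableOn fun z hz => hrW hz
  have hGa : AnalyticOnNhd ℂ (g ∘ L) (L ⁻¹' Metric.ball w₀ r) := hGd.analyticOnNhd hUo
  rcases (hGa 0 h0U).eventually_constant_or_nhds_le_map_nhds with h | h
  · exfalso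
    have h2 : Set.EqOn (g ∘ L) (fun _ => (g ∘ L) 0) (L ⁻¹' Metric.ball w₀ r) :=
      hGa.eqOn_of_preconnected_of_eventuallyEq analyticOnNhd_const hUc h0U h
    have h3 := h2 h1U
    simp only [Function.comp_apply, hL0, hL1] at h3
    exact hne h3
  · have h2 : (g ∘ L) 0 = g w₀ := by simp only [Function.comp_apply, hL0]
    rw [h2] at h
    apply h
    rw [Filter.mem_map]
    exact Filter.mem_of_superset (hUo.mem_nhds h0U) fun z hz => hT _ (hrW hz)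

namespace Kd

variable {D : Kd G}

theorem M5_ev1 (x : C2) : ![x 0, x 1] = x := by
  funext i
  fin_cases i <;> rfl

theorem M5_Upc {x : C2} (h : x ∈ Up) : x ∈ Upc := by
  have h1 : 0 < (x 1).im := h
  exact h1.le

theorem M5_vx_cont {k : M4} (hk : k ∈ D.FF) : ContinuousOn (fun x : C2 => D.vx k x) Upc := by
  have h := kl5_vx_cont D
  exact h.comp (f := fun x : C2 => (k, x)) (by fun_prop) fun x hx => ⟨hk, hx⟩

theorem M5_P_cont {k : M4} (hk : k ∈ D.FF) : ContinuousOn (fun x : C2 => D.P k x) Upc := by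
  have h := D.P_cont
  exact h.comp (f := fun x : C2 => (k, x)) (by fun_prop) fun x hx => ⟨hk, hx⟩

theorem M5_Up_open : IsOpen Up := isOpen_lt continuous_const (by fun_prop)

/-- the values of the coordinate `μ` of another frame -/
theorem M5_T (hD : Good D) {k k' : M4} (hk : k ∈ D.FF) (hk' : k' ∈ D.FF) (s : ℂ)
    (F : ℂ × ℂ → ℂ) (w : ℂ × ℂ)
    (h : ∃ τ : ℂ, 0 < τ.im ∧ w.2 = τ - (star w.1 - s) * D.P k ![w.1, τ] ∧
        D.P k ![w.1, τ] = F w) :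
    M0z k' (M5X k s F w) 3 ≠ 0 ∧ D.DD k' (M0m k' (M5X k s F w)) ⊆ D.VV k := by
  obtain ⟨τ, hτ, h1, h2⟩ := h
  have hx : (![w.1, τ] : C2) ∈ Up := hτ
  rw [M5_XX D k s F w τ h1 h2]
  have hV : D.vx k ![w.1, τ] ∈ D.VV k := ⟨_, hx, 1, one_ne_zero, (one_smul _ _).symm⟩
  have h3 := (M0_E hD hk hk' hV).1
  refine ⟨h3, E_all hD hk hk' _ ⟨_, hx, ?_⟩⟩
  rw [M0_hf_yy hk'.1]
  unfold M0m
  rw [div_mul_cancel₀ _ h3, sub_self, mul_zero]

/-- the first case -/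
theorem M5_sub (hD : Good D) {k k' : M4} (hk : k ∈ D.FF) (hk' : k' ∈ D.FF) (m m' : ℂ)
    (h : ∃ l : ℂ, l ≠ 0 ∧ k *ᵥ yy m = l • (k' *ᵥ yy m')) : D.VV k' ⊆ D.VV k := by
  have hT1 : m' ∈ {m'' : ℂ | D.DD k' m'' ⊆ D.VV k} := by
    change D.DD k' m' ⊆ D.VV k
    rw [← disc_eq hD hk hk' m m' h]
    exact fun v hv => ((M0_D hk m v).1 hv).1
  have hcl : IsClosed {m'' : ℂ | D.DD k' m'' ⊆ D.VV k} := by
    apply IsSeqClosed.isClosed
    intro u m₀ hu hlim v hv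
    obtain ⟨τ, hτ, l, hl, rfl⟩ := hv
    have hV : l • D.vx k' ![m₀, τ] ∈ D.VV k' := ⟨_, hτ, l, hl, rfl⟩
    refine M0_cl hD hk (u := fun n => l • D.vx k' ![u n, τ]) ?_ ?_ (M0_E hD hk' hk hV).2.2.1
    · intro n
      exact hu n ⟨τ, hτ, l, hl, rfl⟩
    · have h1 : Tendsto (fun n => (![u n, τ] : C2)) atTop (𝓝[Upc] ![m₀, τ]) := by
        refine tendsto_nhdsWithin_iff.2 ⟨?_, Filter.Eventually.of_forall fun n => le_of_lt hτ⟩
        rw [tendsto_pi_nhds]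
        intro i
        fin_cases i
        · exact hlim
        · exact tendsto_const_nhds
      have h2 := (M5_vx_cont hk' ![m₀, τ] (le_of_lt hτ)).tendsto.comp h1
      exact h2.const_smul l
  have hop : IsOpen {m'' : ℂ | D.DD k' m'' ⊆ D.VV k} := by
    rw [isOpen_iff_mem_nhds]
    intro m₀ hm₀
    have hI : (![m₀, Complex.I] : C2) ∈ Up := by
      change 0 < Complex.I.im
      norm_num
    obtain ⟨p, hp, l, hl, hv₀⟩ := hm₀ (⟨Complex.I, by norm_num, 1, one_ne_zero,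
      (one_smul _ _).symm⟩ : D.vx k' ![m₀, Complex.I] ∈ D.DD k' m₀)
    obtain ⟨W, F, hWo, hpW, hF, hW, hWx⟩ := M0_loc hD hk hp
    have hgd : DifferentiableOn ℂ (fun w => M0m k' (M5X k (star (p 0)) F w)) W := by
      unfold M0m
      simp only [div_eq_mul_inv]
      exact (M5_diff k k' _ hF 2).mul ((M5_diff k k' _ hF 3).inv
        fun w hw => (M5_T hD hk hk' _ F w (hW w hw)).1)
    -- the points of the surface in the holomorphic coordinates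
    have hXx : ∀ᶠ x in 𝓝 p, M5X k (star (p 0)) F
        (x 0, x 1 - (star (x 0) - star (p 0)) * D.P k x) = D.vx k x := by
      filter_upwards [hWx] with x hx
      have h1 := M5_XX D k (star (p 0)) F (x 0, x 1 - (star (x 0) - star (p 0)) * D.P k x) (x 1)
        (by
          change x 1 - (star (x 0) - star (p 0)) * D.P k x =
            x 1 - (star (x 0) - star (p 0)) * D.P k ![x 0, x 1]
          rw [M5_ev1]) (by
          change D.P k ![x 0, x 1] = _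
          rw [M5_ev1]
          exact hx.2)
      rw [h1]
      change D.vx k ![x 0, x 1] = D.vx k x
      rw [M5_ev1]
    have hXp : M5X k (star (p 0)) F (p 0, p 1) = D.vx k p := by
      have h1 := hXx.self_of_nhds
      rwa [sub_self, zero_mul, sub_zero] at h1
    have hmp : M0m k' (D.vx k p) = m₀ := by
      have h1 := (M0_vx hk' (![m₀, Complex.I] : C2)).2.2.1
      rw [hv₀, (M0_smul k' hl (D.vx k p) 0).2.1] at h1
      exact h1
    have hg₀ : M0m k' (M5X k (star (p 0)) F (p 0, p 1)) = m₀ := by rw [hXp, hmp]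
    have key := M5_open hWo hgd hpW ?_ (T := {m'' : ℂ | D.DD k' m'' ⊆ D.VV k})
      fun w hw => (M5_T hD hk hk' _ F w (hW w hw)).2
    · simp only [hg₀] at key
      exact key
    · intro hc
      refine M0_nv hD hk hp (M5_ne hk'.1 m₀) (M5_null hk'.1 m₀) ?_
      have hlim : Tendsto (fun x : C2 => ((x 0, x 1 - (star (x 0) - star (p 0)) * D.P k x) : ℂ × ℂ))
          (𝓝 p) (𝓝 (p 0, p 1)) := by
        have hP : ContinuousAt (fun x : C2 => D.P k x) p :=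
          ((M5_P_cont hk).mono fun x hx => M5_Upc hx).continuousAt (M5_Up_open.mem_nhds hp)
        have h1 : ContinuousAt (fun x : C2 =>
            ((x 0, x 1 - (star (x 0) - star (p 0)) * D.P k x) : ℂ × ℂ)) p := by
          have e0 : ContinuousAt (fun x : C2 => x 0) p := (continuous_apply 0).continuousAt
          have e1 : ContinuousAt (fun x : C2 => x 1) p := (continuous_apply 1).continuousAt
          have e2 : ContinuousAt (fun x : C2 => star (x 0)) p := e0.star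
          exact e0.prodMk (e1.sub ((e2.sub continuousAt_const).mul hP))
        have h2 := h1.tendsto
        simpa using h2
      filter_upwards [hlim.eventually hc, hXx, M5_Up_open.mem_nhds hp] with x hx hx' hxU
      simp only [hg₀] at hx
      rw [hx'] at hx
      have hV : D.vx k x ∈ D.VV k := ⟨x, hxU, 1, one_ne_zero, (one_smul _ _).symm⟩
      have h3 := (M0_E hD hk hk' hV).1
      rw [M0_hf_yy hk'.1]
      unfold M0m at hx
      rw [← hx, div_mul_cancel₀ _ h3, sub_self, mul_zero]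
  have huniv := IsClopen.eq_univ ⟨hcl, hop⟩ ⟨m', hT1⟩
  intro v hv
  have h1 : M0m k' v ∈ {m'' : ℂ | D.DD k' m'' ⊆ D.VV k} := by
    rw [huniv]
    trivial
  exact h1 ((M0_D hk' _ v).2 ⟨hv, rfl⟩)

theorem M5_eq1 (hD : Good D) {k k' : M4} (hk : k ∈ D.FF) (hk' : k' ∈ D.FF) (m m' : ℂ)
    (h : ∃ l : ℂ, l ≠ 0 ∧ k *ᵥ yy m = l • (k' *ᵥ yy m')) : D.VV k = D.VV k' := by
  refine le_antisymm (M5_sub hD hk' hk m' m ?_) (M5_sub hD hk hk' m m' h)
  obtain ⟨l, hl, h1⟩ := h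
  refine ⟨l⁻¹, inv_ne_zero hl, ?_⟩
  rw [h1, smul_smul, inv_mul_cancel₀ hl, one_smul]

/-- the second case -/
theorem M5_eq2 (hD : Good D) {k k' : M4} (hk : k ∈ D.FF) (hk' : k' ∈ D.FF)
    (h : ¬ ∃ l : ℂ, l ≠ 0 ∧ k *ᵥ e1 = l • (k' *ᵥ e1)) : D.VV k = D.VV k' := by
  have h11 : hf (k *ᵥ e1) (k' *ᵥ e1) ≠ 0 := fun h0 => h (M0_tv hk.2 hk'.2 h0)
  -- the point `y`
  obtain ⟨m, hm⟩ : ∃ m : ℂ, hf (k *ᵥ yy m) (k' *ᵥ e1) = 1 := by
    refine ⟨star ((hf (k *ᵥ e0) (k' *ᵥ e1) - 1) / hf (k *ᵥ e1) (k' *ᵥ e1)), ?_⟩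
    rw [M5_kyy, F0.hf_sub_left, F0.hf_smul_left, star_star, div_mul_cancel₀ _ h11]
    ring
  obtain ⟨n, hn⟩ : ∃ n : ℂ, hf (k *ᵥ yy m) (k' *ᵥ yy n) = 0 := by
    refine ⟨hf (k *ᵥ yy m) (k' *ᵥ e0), ?_⟩
    rw [M5_kyy k' , F0.hf_sub_right, F0.hf_smul_right, star_star, hm, mul_one, sub_self]
  have hz1 : hf (k' *ᵥ yy n) (k' *ᵥ e1) = 0 := by
    rw [hk'.1.2, fc_e1]
    simp [yy]
  have hind : ∀ a b : ℂ, a • (k *ᵥ yy m) + b • (k' *ᵥ yy n) = 0 → a = 0 ∧ b = 0 := by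
    intro a b hab
    have h1 : hf (a • (k *ᵥ yy m) + b • (k' *ᵥ yy n)) (k' *ᵥ e1) = a := by
      rw [F0.hf_add_left, F0.hf_smul_left, F0.hf_smul_left, hm, hz1]
      ring
    have h2 : a = 0 := by
      rw [← h1, hab]
      have h3 := F0.hf_smul_left 0 (0 : V4) (k' *ᵥ e1)
      rwa [zero_smul, zero_mul] at h3
    refine ⟨h2, ?_⟩
    rw [h2, zero_smul, zero_add] at hab
    rcases smul_eq_zero.1 hab with h3 | h3
    · exact h3
    · exact absurd h3 (M5_ne hk'.1 n)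
  obtain ⟨θ, hθ, a, b, hab⟩ := D.fol _ _ hind (M5_null hk.1 m) (M5_null hk'.1 n) hn
  have hxi : D.xi θ ≠ 0 := by
    intro h0
    have h1 := D.xnorm θ hθ
    rw [h0, norm_zero] at h1
    exact zero_ne_one h1
  have hb : b ≠ 0 := by
    rintro rfl
    rw [zero_smul, add_zero] at hab
    have ha : a ≠ 0 := by
      rintro rfl
      rw [zero_smul] at hab
      exact hxi hab
    refine M0_yy hk m ⟨θ, hθ, a⁻¹, inv_ne_zero ha, ?_⟩
    rw [hab, smul_smul, inv_mul_cancel₀ ha, one_smul]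
  have ha : a ≠ 0 := by
    rintro rfl
    rw [zero_smul, zero_add] at hab
    refine M0_yy hk' n ⟨θ, hθ, b⁻¹, inv_ne_zero hb, ?_⟩
    rw [hab, smul_smul, inv_mul_cancel₀ hb, one_smul]
  have hind2 : ∀ s t : ℂ, s • (k *ᵥ yy m) + t • D.xi θ = 0 → s = 0 ∧ t = 0 := by
    intro s t hst
    rw [hab, smul_add, ← add_assoc, smul_smul, smul_smul, ← add_smul] at hst
    obtain ⟨h1, h2⟩ := hind _ _ hst
    have h3 : t = 0 := (mul_eq_zero.1 h2).resolve_right hb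
    rw [h3, zero_mul, add_zero] at h1
    exact ⟨h1, h3⟩
  have horth : hf (k *ᵥ yy m) (D.xi θ) = 0 := by
    rw [hab, F0.hf_add_right, F0.hf_smul_right, F0.hf_smul_right, hn, M5_null hk.1]
    ring
  obtain ⟨k₁, hk₁, ⟨l₁, hl₁, he1⟩, a₁, b₁, ha₁, he0⟩ := exists_frame (k *ᵥ yy m) (D.xi θ) hind2
    (M5_null hk.1 m) (D.xnull θ hθ) horth
  have hF₁ : k₁ ∈ D.FF := ⟨hk₁, θ, hθ, l₁, hl₁, he1⟩
  have hxi' : D.xi θ = l₁⁻¹ • (k₁ *ᵥ e1) := by
    rw [he1, smul_smul, inv_mul_cancel₀ hl₁, one_smul]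
  have hy : k *ᵥ yy m = a₁⁻¹ • (k₁ *ᵥ yy (star (b₁ / l₁))) := by
    rw [M5_kyy k₁, star_star, he0, he1, smul_smul, div_mul_cancel₀ _ hl₁, add_sub_cancel_right,
      smul_smul, inv_mul_cancel₀ ha₁, one_smul]
  have hz : k' *ᵥ yy n = (-(a / (b * a₁))) • (k₁ *ᵥ yy (star (b₁ / l₁ + a₁ / (a * l₁)))) := by
    have h1 : b • (k' *ᵥ yy n) = D.xi θ - a • (k *ᵥ yy m) := by
      rw [hab]
      abel
    have h2 : k' *ᵥ yy n = b⁻¹ • (D.xi θ - a • (k *ᵥ yy m)) := by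
      rw [← h1, smul_smul, inv_mul_cancel₀ hb, one_smul]
    have key : ∀ X Y : V4, b⁻¹ • (X - a • Y) = (-(a / (b * a₁))) •
        (a₁ • Y + b₁ • X - (b₁ / l₁ + a₁ / (a * l₁)) • (l₁ • X)) := by
      intro X Y
      funext i
      simp only [Pi.smul_apply, Pi.sub_apply, Pi.add_apply, smul_eq_mul]
      field_simp
      ring
    rw [h2, M5_kyy k₁, star_star, he0, he1]
    exact key _ _
  exact (M5_eq1 hD hk hF₁ m _ ⟨_, inv_ne_zero ha₁, hy⟩).trans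
    (M5_eq1 hD hk' hF₁ n _ ⟨_, neg_ne_zero.2 (div_ne_zero ha (mul_ne_zero hb ha₁)), hz⟩).symm

/-- there are frames with different lines -/
theorem M5_third {k : M4} (hk : k ∈ D.FF) : ∃ k₃ ∈ D.FF,
    ¬ ∃ l : ℂ, l ≠ 0 ∧ k *ᵥ e1 = l • (k₃ *ᵥ e1) := by
  obtain ⟨hθ, -, l, hl, hv⟩ := D.A_spec hk 0 0
  have hnull : hf (k *ᵥ XX (D.A k 0 0) 0 (0 : ℝ)) (k *ᵥ XX (D.A k 0 0) 0 (0 : ℝ)) = 0 := by
    rw [hv, F0.hf_smul_left, F0.hf_smul_right, D.xnull _ hθ]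
    ring
  have hu : hf (k *ᵥ e0) (k *ᵥ e0) = 0 := by rw [hk.1.2, H3_fc_00]
  have huv : hf (k *ᵥ e0) (k *ᵥ XX (D.A k 0 0) 0 (0 : ℝ)) = 0 := by
    rw [hk.1.2]
    simp [fc, XX, e0]
  have hind : ∀ a b : ℂ, a • (k *ᵥ e0) + b • (k *ᵥ XX (D.A k 0 0) 0 (0 : ℝ)) = 0 →
      a = 0 ∧ b = 0 := by
    intro a b hab
    have h1 : a • e0 + b • XX (D.A k 0 0) 0 ((0 : ℝ) : ℂ) = 0 := by
      apply H3_kk_inj hk.1
      rw [Matrix.mulVec_add, Matrix.mulVec_smul, Matrix.mulVec_smul, hab, Matrix.mulVec_zero]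
    have h3 := congrFun h1 3
    have h0 := congrFun h1 0
    have hb : b = 0 := by simpa [e0, XX] using h3
    refine ⟨?_, hb⟩
    rw [hb] at h0
    simpa [e0, XX] using h0
  obtain ⟨k₃, hk₃, ⟨l₃, hl₃, h3⟩, -⟩ := exists_frame _ _ hind hu hnull huv
  refine ⟨k₃, ⟨hk₃, D.th k 0 0, hθ, l₃ * l, mul_ne_zero hl₃ hl, ?_⟩, ?_⟩
  · rw [h3, hv, smul_smul]
  · rintro ⟨c, hc, h4⟩
    rw [h3, smul_smul, ← Matrix.mulVec_smul] at h4
    have h5 := congrFun (H3_kk_inj hk.1 h4) 3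
    simp [e1, XX] at h5
    rcases h5 with h5 | h5
    · exact hc h5
    · exact hl₃ h5

end Kd

namespace Kd

variable {D : Kd G} (hD : Good D)

include hD

/-- module M5 -/
theorem VV_eq {k k' : M4} (hk : k ∈ D.FF) (hk' : k' ∈ D.FF) : D.VV k = D.VV k' := by
  by_cases h : ∃ l : ℂ, l ≠ 0 ∧ k *ᵥ e1 = l • (k' *ᵥ e1)
  · obtain ⟨l, hl, h1⟩ := h
    obtain ⟨k₃, hk₃, h3⟩ := M5_third hk
    have h4 : ¬ ∃ c : ℂ, c ≠ 0 ∧ k' *ᵥ e1 = c • (k₃ *ᵥ e1) := by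
      rintro ⟨c, hc, h5⟩
      refine h3 ⟨l * c, mul_ne_zero hl hc, ?_⟩
      rw [h1, h5, smul_smul]
    exact (M5_eq2 hD hk hk₃ h3).trans (M5_eq2 hD hk' hk₃ h4).symm
  · exact M5_eq2 hD hk hk' h

end Kd

end Pool.Agent.MPd01a95.KT
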