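import Mathlib
import Pool.Agent.Lib.MP_d01a95_gt_K.KDefs2
import Pool.Agent.Lib.MP_d01a95_gt_K.KA1
import Pool.Agent.Lib.MP_d01a95_gt_K.KF0
import Pool.Agent.Lib.MP_d01a95_gt_K.KH1
import Pool.Agent.Lib.MP_d01a95_gt_K.KH2

set_option autoImplicit false
set_option linter.all false

open Matrix Filter Topology MeasureTheory
open scoped ContDiff

namespace Pool.Agent.MPd01a95.KT

open GU

variable {G : Type} [Group G]

theorem N0_wd_self (y : V4) : wd y y = 0 := by
  refine le_antisymm (F0.wd_le_of le_rfl fun i j => ?_) (F0.wd_nonneg _ _)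
  rw [mul_comm (y i), sub_self, norm_zero]

theorem N0_wd_close (x y : V4) (η : ℝ) (h : ‖x - y‖ ≤ η) (hy : ‖y‖ = 1) : wd x y ≤ 2 * η := by
  have h1 : wd x y ≤ wd (x - y) y + wd y y := by
    have h2 := F0.wd_add_left (x - y) y y
    rwa [sub_add_cancel] at h2
  rw [N0_wd_self, add_zero] at h1
  have h2 := wd_le (x - y) y
  rw [hy, mul_one] at h2
  linarith

theorem N0_wd_cont (y : V4) : Continuous fun x : V4 => wd x y := by
  unfold wd
  refine continuous_norm.comp ?_
  refine continuous_pi fun i => continuous_pi fun j => ?_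
  exact ((continuous_apply i).mul continuous_const).sub ((continuous_apply j).mul continuous_const)

namespace Kd

variable {D : Kd G} (hD : Good D)

include hD

omit hD in
/-- module H2: the unit vectors of the limit cone form a compact set -/
theorem lam_compact (k : M4) (hk : k ∈ D.FF) :
    IsCompact {b : V4 | ‖b‖ = 1 ∧ k *ᵥ b ∈ D.Lam} := by
  have hkc : Continuous fun b : V4 => k *ᵥ b :=
    Continuous.matrix_mulVec continuous_const continuous_id
  have hinj : ∀ b : V4, k *ᵥ b = 0 → b = 0 := by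
    intro b hb
    have h1 : kᴴ *ᵥ (k *ᵥ b) = b := by
      rw [Matrix.mulVec_mulVec, hk.1.1, Matrix.one_mulVec]
    rw [← h1, hb, Matrix.mulVec_zero]
  refine Metric.isCompact_of_isClosed_isBounded ?_ ?_
  · refine IsSeqClosed.isClosed fun b b₀ hb hlim => ?_
    have hn : ‖b₀‖ = 1 := by
      have h1 := hlim.norm
      have h2 : (fun n => ‖b n‖) = fun _ => (1 : ℝ) := funext fun n => (hb n).1
      rw [h2] at h1
      exact (tendsto_nhds_unique h1 tendsto_const_nhds)
    refine ⟨hn, ?_⟩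
    choose th hth l hl e using fun n => (hb n).2
    have hS : IsCompact Sph := isCompact_sphere _ _
    obtain ⟨θ, hθ, φ, hφ, hlim2⟩ := hS.tendsto_subseq hth
    have h1 : Tendsto (fun n => k *ᵥ b (φ n)) atTop (𝓝 (k *ᵥ b₀)) :=
      (hkc.tendsto b₀).comp (hlim.comp hφ.tendsto_atTop)
    have h2 : Tendsto (fun n => wd (k *ᵥ b (φ n)) (D.xi θ)) atTop (𝓝 (wd (k *ᵥ b₀) (D.xi θ))) :=
      ((N0_wd_cont (D.xi θ)).tendsto _).comp h1
    obtain ⟨M, hM⟩ : ∃ M : ℝ, ∀ v : V4, ‖v‖ = 1 → ‖k *ᵥ v‖ ≤ M :=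
      ⟨4 * s1 k, fun v hv => by have := norm_mulVec k v; rwa [hv, mul_one] at this⟩
    have hM0 : 0 ≤ M := (norm_nonneg _).trans (hM b₀ hn)
    have h3 : Tendsto (fun n => wd (k *ᵥ b (φ n)) (D.xi θ)) atTop (𝓝 0) := by
      rw [Metric.tendsto_atTop]
      intro ε hε
      obtain ⟨δ, hδ, hx⟩ := D.xcont θ hθ (ε / (4 * (M + 1))) (by positivity)
      obtain ⟨N, hN⟩ := (Metric.tendsto_atTop.mp hlim2) δ hδ
      refine ⟨N, fun n hn' => ?_⟩
      obtain ⟨u, hu, hx2⟩ := hx (th (φ n)) (hth _) (by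
        have := hN n hn'
        rwa [dist_eq_norm] at this)
      have h4 := N0_wd_close (u • D.xi (th (φ n))) (D.xi θ) _ hx2.le (D.xnorm θ hθ)
      rw [F0.wd_smul, hu, one_mul] at h4
      have h5 : ‖l (φ n)‖ ≤ M := by
        have h6 := hM (b (φ n)) (hb _).1
        rw [e, norm_smul, D.xnorm _ (hth _), mul_one] at h6
        exact h6
      rw [Real.dist_eq, sub_zero, abs_of_nonneg (F0.wd_nonneg _ _), e, F0.wd_smul]
      have h7 : ‖l (φ n)‖ * wd (D.xi (th (φ n))) (D.xi θ) ≤ M * (2 * (ε / (4 * (M + 1)))) :=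
        mul_le_mul h5 h4 (F0.wd_nonneg _ _) hM0
      have h8 : M * (2 * (ε / (4 * (M + 1)))) < ε := by
        have h9 : M * (2 * (ε / (4 * (M + 1)))) = (M / (M + 1)) * (ε / 2) := by
          field_simp
          ring
        rw [h9]
        have h10 : M / (M + 1) ≤ 1 := by
          rw [div_le_one (by positivity)]
          linarith
        have h11 : (M / (M + 1)) * (ε / 2) ≤ 1 * (ε / 2) :=
          mul_le_mul_of_nonneg_right h10 (by positivity)
        linarith
      exact lt_of_le_of_lt h7 h8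
    have h4 : wd (k *ᵥ b₀) (D.xi θ) = 0 := tendsto_nhds_unique h2 h3
    obtain ⟨c, -, hc⟩ := F0.wd_decomp (k *ᵥ b₀) (D.xi θ) (D.xnorm θ hθ)
    rw [h4] at hc
    have h5 : k *ᵥ b₀ = c • D.xi θ := sub_eq_zero.mp (norm_le_zero_iff.mp hc)
    refine ⟨θ, hθ, c, ?_, h5⟩
    rintro rfl
    rw [zero_smul] at h5
    rw [hinj b₀ h5, norm_zero] at hn
    exact zero_ne_one hn
  · refine (Metric.isBounded_closedBall (x := (0 : V4)) (r := 1)).subset fun b hb => ?_
    rw [mem_closedBall_zero_iff]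
    exact hb.1.le

end Kd

end Pool.Agent.MPd01a95.KT
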