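import Mathlib
import Pool.Agent.Lib.MP_d01a95_gt_K.KDefs2
import Pool.Agent.Lib.MP_d01a95_gt_K.KA1
import Pool.Agent.Lib.MP_d01a95_gt_K.KF0
import Pool.Agent.Lib.MP_d01a95_gt_K.KH1
import Pool.Agent.Lib.MP_d01a95_gt_K.KH2
import Pool.Agent.Lib.MP_d01a95_gt_K.KK7

/-!
# Block N: preliminaries
-/

set_option autoImplicit false
set_option linter.all false

open Matrix Filter Topology MeasureTheory
open scoped ContDiff

namespace Pool.Agent.MPd01a95.KT

open GU

variable {G : Type} [Group G]

namespace NA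

theorem hf_smul_left (l : ℂ) (v w : V4) : hf (l • v) w = l * hf v w := by
  simp only [hf, CW.hh, Pi.smul_apply, smul_eq_mul]
  ring

theorem hf_smul_right (l : ℂ) (v w : V4) : hf v (l • w) = star l * hf v w := by
  simp only [hf, CW.hh, Pi.smul_apply, smul_eq_mul, star_mul']
  ring

theorem hf_add_left (u v w : V4) : hf (u + v) w = hf u w + hf v w := by
  simp only [hf, CW.hh, Pi.add_apply]
  ring

theorem hf_add_right (u v w : V4) : hf u (v + w) = hf u v + hf u w := by
  simp only [hf, CW.hh, Pi.add_apply, star_add]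
  ring

theorem hf_star (v w : V4) : star (hf v w) = hf w v := by
  simp only [hf, CW.hh, star_sub, star_add, star_mul', star_star]
  ring

theorem hf_norm_symm (v w : V4) : ‖hf v w‖ = ‖hf w v‖ := by
  rw [← hf_star v w, norm_star]

theorem hf_real (v : V4) : hf v v = ((hf v v).re : ℂ) := by
  have h := hf_star v v
  exact (Complex.conj_eq_iff_re.mp h).symm

theorem hf_cont : Continuous fun p : V4 × V4 => hf p.1 p.2 := by
  unfold hf CW.hh
  have h1 : ∀ i, Continuous fun p : V4 × V4 => p.1 i := fun i =>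
    (continuous_apply i).comp continuous_fst
  have h2 : ∀ i, Continuous fun p : V4 × V4 => star (p.2 i) := fun i =>
    continuous_star.comp ((continuous_apply i).comp continuous_snd)
  exact ((((h1 0).mul (h2 0)).add ((h1 1).mul (h2 1))).sub ((h1 2).mul (h2 2))).sub
    ((h1 3).mul (h2 3))

theorem hf_contOn {X : Type*} [TopologicalSpace X] {s : Set X} {f g : X → V4}
    (h1 : ContinuousOn f s) (h2 : ContinuousOn g s) : ContinuousOn (fun w => hf (f w) (g w)) s := by
  have h3 := h1.prodMk h2
  have h4 := hf_cont.comp_continuousOn h3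
  exact h4

theorem kk_inj {k : M4} (hk : k ∈ KK) {v w : V4} (h : k *ᵥ v = k *ᵥ w) : v = w := by
  have := congrArg (fun u => kᴴ *ᵥ u) h
  simpa only [Matrix.mulVec_mulVec, hk.1, Matrix.one_mulVec] using this

theorem kk_inv {k : M4} (hk : k ∈ KK) (v : V4) : k *ᵥ (kᴴ *ᵥ v) = v := by
  have h : k * kᴴ = 1 := mul_eq_one_comm.mp hk.1
  rw [Matrix.mulVec_mulVec, h, Matrix.one_mulVec]

theorem kk_inv' {k : M4} (hk : k ∈ KK) (v : V4) : kᴴ *ᵥ (k *ᵥ v) = v := by
  rw [Matrix.mulVec_mulVec, hk.1, Matrix.one_mulVec]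

end NA

open NA

namespace Kd

variable (D : Kd G)

theorem vx_def (k : M4) (x : C2) : D.vx k x = k *ᵥ XX (D.P k x) (x 0) (x 1) := rfl

/-- points of the surface with proportional vectors coincide -/
theorem vx_smul {k : M4} (hk : k ∈ KK) {x y : C2} {l : ℂ} (h : D.vx k x = l • D.vx k y) :
    l = 1 ∧ x = y := by
  rw [vx_def, vx_def, ← Matrix.mulVec_smul] at h
  have h1 := kk_inj hk h
  have e0 := congrFun h1 0
  have e1 := congrFun h1 1
  have e2 := congrFun h1 2
  have e3 := congrFun h1 3
  simp only [XX, Pi.smul_apply, smul_eq_mul, Matrix.cons_val_zero, Matrix.cons_val_one,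
    Matrix.cons_val, mul_one] at e0 e1 e2 e3
  rw [← e3, one_mul] at e0 e2 e1
  refine ⟨e3.symm, ?_⟩
  rw [e0, e2] at e1
  ext i
  fin_cases i
  · exact e2
  · exact sub_left_injective e1

theorem vx_ne (k : M4) (hk : k ∈ KK) (x : C2) : D.vx k x ≠ 0 := by
  intro h
  rw [vx_def] at h
  have h1 : XX (D.P k x) (x 0) (x 1) = 0 := kk_inj hk (by rw [h, Matrix.mulVec_zero])
  have := congrFun h1 3
  simp [XX] at this

theorem XX_cont : Continuous fun p : ℂ × ℂ × ℂ => XX p.1 p.2.1 p.2.2 := by
  unfold XX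
  refine continuous_pi fun i => ?_
  fin_cases i
  · exact continuous_fst
  · exact (continuous_snd.comp continuous_snd).sub
      ((continuous_star.comp (continuous_fst.comp continuous_snd)).mul continuous_fst)
  · exact continuous_fst.comp continuous_snd
  · exact continuous_const

theorem vx_cont {k : M4} (hk : k ∈ D.FF) : ContinuousOn (D.vx k) Upc := by
  have h1 : ContinuousOn (fun x : C2 => D.P k x) Upc := by
    have h2 : Continuous fun x : C2 => ((k, x) : M4 × C2) :=
      continuous_const.prodMk continuous_id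
    have h3 : Set.MapsTo (fun x : C2 => ((k, x) : M4 × C2)) Upc (D.FF ×ˢ Upc) :=
      fun x hx => Set.mk_mem_prod hk hx
    have h4 := D.P_cont
    have h5 := h4.comp h2.continuousOn h3
    exact h5
  have h2 : ContinuousOn (fun x : C2 => ((D.P k x, x 0, x 1) : ℂ × ℂ × ℂ)) Upc :=
    h1.prodMk ((continuous_apply 0).continuousOn.prodMk (continuous_apply 1).continuousOn)
  have h3 : ContinuousOn (fun x : C2 => XX (D.P k x) (x 0) (x 1)) Upc :=
    XX_cont.comp_continuousOn h2
  exact (Continuous.matrix_mulVec continuous_const continuous_id).comp_continuousOn h3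

theorem up_sub : Up ⊆ Upc := fun x (hx : 0 < (x 1).im) => hx.le

/-- an orthogonal null vector -/
theorem exists_perp {z : V4} (hz0 : z ≠ 0) (hzz : hf z z = 0) : ∃ v : V4, hf z v = 0 ∧
    hf v v = 0 ∧ ∀ a b : ℂ, a • z + b • v = 0 → a = 0 ∧ b = 0 := by
  obtain ⟨v, v0, v1, v2, v3⟩ : ∃ v : V4, v 0 = -star (z 1) ∧ v 1 = star (z 0) ∧
      v 2 = -star (z 3) ∧ v 3 = star (z 2) :=
    ⟨![-star (z 1), star (z 0), -star (z 3), star (z 2)], rfl, rfl, rfl, rfl⟩
  have hzz' : z 0 * star (z 0) + z 1 * star (z 1) - z 2 * star (z 2) - z 3 * star (z 3) = 0 := hzz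
  refine ⟨v, ?_, ?_, ?_⟩
  · simp only [hf, CW.hh]
    rw [v0, v1, v2, v3, star_neg, star_neg, star_star, star_star, star_star, star_star]
    ring
  · simp only [hf, CW.hh]
    rw [v0, v1, v2, v3, star_neg, star_neg, star_star, star_star, star_star, star_star]
    linear_combination hzz'
  · intro a b h
    have f0 : a * z 0 + b * v 0 = 0 := congrFun h 0
    have f1 : a * z 1 + b * v 1 = 0 := congrFun h 1
    rw [v0] at f0
    rw [v1] at f1
    have n1 : a * (z 0 * star (z 0) + z 1 * star (z 1)) = 0 := by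
      linear_combination star (z 0) * f0 + star (z 1) * f1
    have n2 : b * (z 0 * star (z 0) + z 1 * star (z 1)) = 0 := by
      linear_combination z 0 * f1 - z 1 * f0
    have hne : z 0 * star (z 0) + z 1 * star (z 1) ≠ 0 := by
      intro h0
      apply hz0
      have hms : ∀ w : ℂ, w * star w = (Complex.normSq w : ℂ) := fun w => Complex.mul_conj w
      have h2 : z 2 * star (z 2) + z 3 * star (z 3) = 0 := by
        linear_combination h0 - hzz'
      rw [hms, hms] at h0 h2
      have h1' : Complex.normSq (z 0) + Complex.normSq (z 1) = 0 := by exact_mod_cast h0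
      have h3' : Complex.normSq (z 2) + Complex.normSq (z 3) = 0 := by exact_mod_cast h2
      have p0 := Complex.normSq_nonneg (z 0)
      have p1 := Complex.normSq_nonneg (z 1)
      have p2 := Complex.normSq_nonneg (z 2)
      have p3 := Complex.normSq_nonneg (z 3)
      have q0 : z 0 = 0 := Complex.normSq_eq_zero.mp (by linarith)
      have q1 : z 1 = 0 := Complex.normSq_eq_zero.mp (by linarith)
      have q2 : z 2 = 0 := Complex.normSq_eq_zero.mp (by linarith)
      have q3 : z 3 = 0 := Complex.normSq_eq_zero.mp (by linarith)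
      funext i
      fin_cases i
      · exact q0
      · exact q1
      · exact q2
      · exact q3
    exact ⟨(mul_eq_zero.mp n1).resolve_right hne, (mul_eq_zero.mp n2).resolve_right hne⟩

/-- null vectors outside the limit cone are points of frames -/
theorem exists_chart_null {z : V4} (hz0 : z ≠ 0) (hzz : hf z z = 0) (hzL : z ∉ D.Lam) :
    ∃ k ∈ D.FF, ∃ m l : ℂ, l ≠ 0 ∧ k *ᵥ yy m = l • z := by
  obtain ⟨v, hzv, hvv, hind⟩ := exists_perp hz0 hzz
  obtain ⟨θ, hθ, a, b, hab⟩ := D.fol z v hind hzz hvv hzv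
  have hxne : D.xi θ ≠ 0 := by
    intro h
    have := D.xnorm θ hθ
    rw [h, norm_zero] at this
    exact zero_ne_one this
  have hb : b ≠ 0 := by
    intro hb
    rw [hb, zero_smul, add_zero] at hab
    have ha : a ≠ 0 := by
      intro ha
      rw [ha, zero_smul] at hab
      exact hxne hab
    exact hzL ⟨θ, hθ, a⁻¹, inv_ne_zero ha, by rw [hab, smul_smul, inv_mul_cancel₀ ha, one_smul]⟩
  have hind2 : ∀ c d : ℂ, c • z + d • D.xi θ = 0 → c = 0 ∧ d = 0 := by
    intro c d h
    rw [hab, smul_add, smul_smul, smul_smul, ← add_assoc, ← add_smul] at h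
    obtain ⟨h1, h2⟩ := hind _ _ h
    have hd : d = 0 := by
      rcases mul_eq_zero.mp h2 with h | h
      · exact h
      · exact absurd h hb
    rw [hd, zero_mul, add_zero] at h1
    exact ⟨h1, hd⟩
  have hzx : hf z (D.xi θ) = 0 := by
    rw [hab, hf_add_right, hf_smul_right, hf_smul_right, hzz, hzv, mul_zero, mul_zero, add_zero]
  obtain ⟨k, hk, ⟨l, hl, e1'⟩, c, d, hc, e0'⟩ :=
    exists_frame z (D.xi θ) hind2 hzz (D.xnull θ hθ) hzx
  refine ⟨k, ⟨hk, θ, hθ, l, hl, e1'⟩, star (d / l), c, hc, ?_⟩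
  have hy : yy (star (d / l)) = e0 - (d / l) • e1 := by
    unfold yy e0 e1
    ext i
    fin_cases i <;> simp
  rw [hy, Matrix.mulVec_sub, Matrix.mulVec_smul, e0', e1', smul_smul, div_mul_cancel₀ _ hl]
  abel

end Kd

end Pool.Agent.MPd01a95.KT
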