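import Mathlib

set_option autoImplicit false

open Set Filter Topology

namespace Pool.Agent.MPd01a95.A2Unb

/-- the upper half space `{Im τ > 0}` in `C²` minus a point is connected -/
theorem isPreconnected_up_diff (p : Fin 2 → ℂ) :
    IsPreconnected ({x : Fin 2 → ℂ | 0 < (x 1).im} \ {p}) := by
  by_cases hp : 0 < (p 1).im
  · obtain ⟨φ, hφ⟩ : ∃ φ : (Fin 2 → ℂ) → (Fin 2 → ℂ), ∀ x, φ x =
        ![x 0, ((x 1).re : ℂ) + (Real.exp (x 1).im : ℝ) * Complex.I] := ⟨_, fun _ => rfl⟩
    have h0 : ∀ x, φ x 0 = x 0 := fun x => by rw [hφ]; rfl
    have hre : ∀ x, (φ x 1).re = (x 1).re := fun x => by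
      rw [hφ]
      simp
    have him : ∀ x, (φ x 1).im = Real.exp (x 1).im := fun x => by
      rw [hφ]
      simp [Complex.exp_ofReal_re]
    have hc : Continuous φ := by
      have : φ = fun x => ![x 0, ((x 1).re : ℂ) + (Real.exp (x 1).im : ℝ) * Complex.I] :=
        funext hφ
      rw [this]
      refine continuous_pi fun i => ?_
      fin_cases i
      · exact continuous_apply 0
      · show Continuous fun x : Fin 2 → ℂ => ((x 1).re : ℂ) + (Real.exp (x 1).im : ℝ) * Complex.I
        have h1 : Continuous fun x : Fin 2 → ℂ => x 1 := continuous_apply 1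
        exact (Complex.continuous_ofReal.comp (Complex.continuous_re.comp h1)).add
          ((Complex.continuous_ofReal.comp (Real.continuous_exp.comp
            (Complex.continuous_im.comp h1))).mul continuous_const)
    obtain ⟨q, hq⟩ : ∃ q : Fin 2 → ℂ, φ q = p := by
      refine ⟨![p 0, ((p 1).re : ℂ) + (Real.log (p 1).im : ℝ) * Complex.I], ?_⟩
      rw [hφ]
      ext i
      fin_cases i
      · rfl
      · apply Complex.ext
        · simp
        · simp [Real.exp_log hp]
    have hinj : ∀ x y, φ x = φ y → x = y := by
      intro x y h
      have e0 : x 0 = y 0 := by rw [← h0 x, ← h0 y, h]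
      have e1 : (x 1).re = (y 1).re := by rw [← hre x, ← hre y, h]
      have e2 : (x 1).im = (y 1).im := by
        apply Real.exp_injective
        rw [← him x, ← him y, h]
      ext i
      fin_cases i
      · exact e0
      · exact Complex.ext e1 e2
    have himg : {x : Fin 2 → ℂ | 0 < (x 1).im} \ {p} = φ '' {q}ᶜ := by
      ext x
      constructor
      · rintro ⟨hx, hxp⟩
        refine ⟨![x 0, ((x 1).re : ℂ) + (Real.log (x 1).im : ℝ) * Complex.I], ?_, ?_⟩
        · intro h
          apply hxp
          rw [mem_singleton_iff] at h ⊢
          rw [← hq, ← h, hφ]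
          ext i
          fin_cases i
          · rfl
          · apply Complex.ext
            · simp
            · simp [Real.exp_log hx]
        · rw [hφ]
          ext i
          fin_cases i
          · rfl
          · apply Complex.ext
            · simp
            · simp [Real.exp_log hx]
      · rintro ⟨y, hy, rfl⟩
        refine ⟨?_, ?_⟩
        · show 0 < (φ y 1).im
          rw [him]
          exact Real.exp_pos _
        · intro h
          apply hy
          rw [mem_singleton_iff] at h ⊢
          rw [← hq] at h
          exact hinj _ _ h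
    rw [himg]
    have hrank : 1 < Module.rank ℝ (Fin 2 → ℂ) := by
      apply Module.one_lt_rank_of_one_lt_finrank
      have : Module.finrank ℝ (Fin 2 → ℂ) = 4 := by
        rw [Module.finrank_pi_fintype]
        simp [Complex.finrank_real_complex]
      omega
    exact (isConnected_compl_singleton_of_one_lt_rank hrank q).isPreconnected.image φ hc.continuousOn
  · have : {x : Fin 2 → ℂ | 0 < (x 1).im} \ {p} = {x : Fin 2 → ℂ | 0 < (x 1).im} := by
      ext x
      constructor
      · exact fun h => h.1
      · intro h
        refine ⟨h, ?_⟩
        rintro rfl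
        exact hp h
    rw [this]
    have hconv : Convex ℝ {x : Fin 2 → ℂ | 0 < (x 1).im} := by
      intro x hx y hy a b ha hb hab
      simp only [Set.mem_ofPred_eq, Pi.add_apply, Pi.smul_apply, Complex.add_im, Complex.real_smul,
        Complex.mul_im, Complex.ofReal_re, Complex.ofReal_im, zero_mul, add_zero] at hx hy ⊢
      rcases ha.lt_or_eq with h | h
      · have := mul_pos h hx
        have := mul_nonneg hb hy.le
        linarith
      · have hb1 : b = 1 := by linarith
        rw [← h, hb1]
        simpa using hy
    exact hconv.isPreconnected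

end Pool.Agent.MPd01a95.A2Unb
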