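import Mathlib
import Pool.Agent.Lib.MP_d01a95_gt_K.KDefs2
import Pool.Agent.Lib.MP_d01a95_gt_K.KA1
import Pool.Agent.Lib.MP_d01a95_gt_K.KA2
import Pool.Agent.Lib.MP_d01a95_gt_K.KA4
import Pool.Agent.Lib.MP_d01a95_gt_K.KF0
import Pool.Agent.Lib.MP_d01a95_gt_K.KF6
import Pool.Agent.Lib.MP_d01a95_gt_K.KH1
import Pool.Agent.Lib.MP_d01a95_gt_K.KH2
import Pool.Agent.Lib.MP_d01a95_gt_K.KH3
import Pool.Agent.Lib.MP_d01a95_gt_K.KH4
import Pool.Agent.Lib.MP_d01a95_gt_K.KA3
import Pool.Agent.Lib.MP_d01a95_gt_K.KA5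
import Pool.Agent.Lib.MP_d01a95_gt_K.KJ1
import Pool.Agent.Lib.MP_d01a95_gt_K.KJ4
import Pool.Agent.Lib.MP_d01a95_gt_K.KK3
import Pool.Agent.Lib.MP_d01a95_gt_K.KK7
import Pool.Agent.Lib.MP_d01a95_gt_K.KL1
import Pool.Agent.Lib.MP_d01a95_gt_K.KL2
import Pool.Agent.Lib.MP_d01a95_gt_K.KL3
import Pool.Agent.Lib.MP_d01a95_gt_K.KL4
import Pool.Agent.Lib.MP_d01a95_gt_K.KL5
import Pool.Agent.Lib.MP_d01a95_gt_K.KM1
import Pool.Agent.Lib.MP_d01a95_gt_K.KM2
import Pool.Agent.Lib.MP_d01a95_gt_K.KM3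
import Pool.Agent.Lib.MP_d01a95_gt_K.KM4
import Pool.Agent.Lib.MP_d01a95_gt_K.KM5
import Pool.Agent.Lib.MP_d01a95_gt_K.KN1a
import Pool.Agent.Lib.MP_d01a95_gt_K.KN1b

set_option autoImplicit false
set_option linter.all false

open Matrix Filter Topology MeasureTheory
open scoped ContDiff

namespace Pool.Agent.MPd01a95.KT

open GU NA

variable {G : Type} [Group G]

namespace Kd

variable {D : Kd G} (hD : Good D)

/-- the form on two points of the surface with the same first coordinate -/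
theorem N1_same {k : M4} (hk : k ∈ D.FF) (x y : C2) (h : x 0 = y 0) :
    hf (D.vx k x) (D.vx k y) = Complex.I * (x 1 - star (y 1)) := by
  rw [vx_def, vx_def, hk.1.2, fc_XX, h, sub_self, sub_self, mul_zero, mul_zero, sub_zero, sub_zero]

include hD

/-- the degenerate case does not occur -/
theorem N1_ne {k : M4} (hk : k ∈ D.FF) {x y : C2} (hx : x ∈ Up) (hy : y ∈ Up) (h : x ≠ y) :
    ‖hf (D.vx k x) (D.vx k y)‖ ^ 2 ≠ 4 * (x 1).im * (y 1).im := by
  intro heq
  have hx' : 0 < (x 1).im := hx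
  have hy' : 0 < (y 1).im := hy
  have hxx := hf_vx hD hk x
  have hyy := hf_vx hD hk y
  obtain ⟨p, hp⟩ : ∃ p, p = D.vx k x := ⟨_, rfl⟩
  obtain ⟨p', hp'⟩ : ∃ p', p' = D.vx k y := ⟨_, rfl⟩
  rw [← hp] at hxx heq
  rw [← hp'] at hyy heq
  have hxne : (-2 * ((x 1).im : ℂ)) ≠ 0 :=
    mul_ne_zero (by norm_num) (by exact_mod_cast hx'.ne')
  obtain ⟨l, hl⟩ : ∃ l : ℂ, l = -(hf p' p) / (-2 * ((x 1).im : ℂ)) := ⟨_, rfl⟩
  obtain ⟨z, hz⟩ : ∃ z : V4, z = p' + l • p := ⟨_, rfl⟩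
  have hzp : hf z p = 0 := by
    rw [hz, hf_add_left, hf_smul_left, hxx, hl, div_mul_cancel₀ _ hxne]
    ring
  have hnorm : hf p p' * hf p' p = ((4 * (x 1).im * (y 1).im : ℝ) : ℂ) := by
    rw [← heq, ← hf_star p p']
    exact (Complex.mul_conj (hf p p')).trans (by rw [Complex.normSq_eq_norm_sq])
  have hzp' : hf z p' = 0 := by
    rw [hz, hf_add_left, hf_smul_left, hyy, hl]
    have hxne' : ((x 1).im : ℂ) ≠ 0 := by exact_mod_cast hx'.ne'
    have e : -(hf p' p) / (-2 * ((x 1).im : ℂ)) * hf p p' =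
        (hf p p' * hf p' p) / (2 * ((x 1).im : ℂ)) := by
      field_simp
    rw [e, hnorm]
    push_cast
    field_simp
    ring
  have hzz : hf z z = 0 := by
    have e0 : hf z z = hf p' z + l * hf p z := by
      rw [← hf_smul_left, ← hf_add_left, ← hz]
    rw [e0]
    have e1 : hf p' z = 0 := by rw [← hf_star, hzp', star_zero]
    have e2 : hf p z = 0 := by rw [← hf_star, hzp, star_zero]
    rw [e1, e2, mul_zero, add_zero]
  have hpz : hf p z = 0 := by rw [← hf_star, hzp, star_zero]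
  have hpz' : hf p' z = 0 := by rw [← hf_star, hzp', star_zero]
  have hz0 : z ≠ 0 := by
    intro h0
    have h1 : p' = (-l) • p := by
      rw [neg_smul]
      rw [hz] at h0
      exact eq_neg_of_add_eq_zero_left h0
    rw [hp, hp'] at h1
    exact h (vx_smul D hk.1 h1).2.symm
  by_cases hzL : z ∈ D.Lam
  · obtain ⟨θ, hθ, c, hc, e⟩ := hzL
    have h1 := vx_tv hD hk hx hθ
    rw [← hp] at h1
    apply h1
    rw [e, hf_smul_right] at hpz
    exact (mul_eq_zero.mp hpz).resolve_left (star_ne_zero.mpr hc)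
  · obtain ⟨k', hk', m, c, hc, e⟩ := D.exists_chart_null hz0 hzz hzL
    have hx0 : hf (D.vx k x) (k' *ᵥ yy m) = 0 := by
      rw [e, hf_smul_right, ← hp, hpz, mul_zero]
    have hy0 : hf (D.vx k y) (k' *ᵥ yy m) = 0 := by
      rw [e, hf_smul_right, ← hp', hpz', mul_zero]
    obtain ⟨τ, hτ, a, ha, ea⟩ := E_sub hD hk hk' m hx hx0
    obtain ⟨τ', hτ', b, hb, eb⟩ := E_sub hD hk hk' m hy hy0
    rw [← hp] at ea
    rw [← hp'] at eb
    have h1 : c⁻¹ • (k' *ᵥ yy m) = b • D.vx k' ![m, τ'] + (l * a) • D.vx k' ![m, τ] := by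
      rw [e, smul_smul, inv_mul_cancel₀ hc, one_smul, hz, ea, eb, smul_smul]
    rw [vx_def, vx_def, ← Matrix.mulVec_smul, ← Matrix.mulVec_smul, ← Matrix.mulVec_smul,
      ← Matrix.mulVec_add] at h1
    have h2 := kk_inj hk'.1 h1
    have f0 := congrFun h2 0
    have f1 := congrFun h2 1
    have f3 := congrFun h2 3
    have g0 : (![m, τ'] : C2) 0 = m := rfl
    have g1 : (![m, τ'] : C2) 1 = τ' := rfl
    have g2 : (![m, τ] : C2) 0 = m := rfl
    have g3 : (![m, τ] : C2) 1 = τ := rfl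
    rw [g0, g1, g2, g3] at f0 f1 f3
    obtain ⟨u, hu⟩ : ∃ u, u = D.P k' ![m, τ'] := ⟨_, rfl⟩
    obtain ⟨v, hv⟩ : ∃ v, v = D.P k' ![m, τ] := ⟨_, rfl⟩
    rw [← hu, ← hv] at f0 f1 f3
    have q0 : c⁻¹ * 1 = b * u + l * a * v := f0
    have q1 : c⁻¹ * (-star m) = b * (τ' - star m * u) + l * a * (τ - star m * v) := f1
    have q3 : c⁻¹ * 0 = b * 1 + l * a * 1 := f3
    have hla : l * a = -b := by linear_combination -q3
    have hττ : τ' = τ := by
      have h3 : b * (τ' - τ) = 0 := by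
        rw [hla] at q0 q1
        linear_combination -q1 - star m * q0
      exact sub_eq_zero.mp ((mul_eq_zero.mp h3).resolve_left hb)
    rw [hττ] at eb
    have h4 : D.vx k y = (b * a⁻¹) • D.vx k x := by
      rw [← hp, ← hp', ea, eb, smul_smul, mul_assoc, inv_mul_cancel₀ ha, mul_one]
    exact h (vx_smul D hk.1 h4).2.symm

/-- module N1: two points of the surface span a plane of signature (1,1) -/
theorem sep_gt {k : M4} (hk : k ∈ D.FF) {x y : C2} (hx : x ∈ Up) (hy : y ∈ Up) (h : x ≠ y) :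
    4 * (x 1).im * (y 1).im < ‖hf (D.vx k x) (D.vx k y)‖ ^ 2 := by
  have hx' : 0 < (x 1).im := hx
  obtain ⟨f, hf'⟩ : ∃ f : C2 → ℝ, ∀ w, f w = ‖hf (D.vx k x) (D.vx k w)‖ ^ 2 -
      4 * (x 1).im * (w 1).im := ⟨_, fun _ => rfl⟩
  have hc : ContinuousOn f (Up \ {x}) := by
    have h1 : ContinuousOn (fun w => D.vx k w) (Up \ {x}) :=
      (D.vx_cont hk).mono fun w hw => up_sub hw.1
    have h2 := hf_contOn (continuousOn_const (c := D.vx k x)) h1
    have h3 : Continuous fun w : C2 => 4 * (x 1).im * (w 1).im :=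
      continuous_const.mul (Complex.continuous_im.comp (continuous_apply 1))
    have h4 := (h2.norm.pow 2).sub h3.continuousOn
    exact h4.congr fun w _ => hf' w
  have hne : ∀ w ∈ Up \ {x}, f w ≠ 0 := by
    intro w hw h0
    rw [hf', sub_eq_zero] at h0
    exact N1_ne hD hk hx hw.1 (fun e => hw.2 e.symm) h0
  obtain ⟨w₀, hw₀⟩ : ∃ w₀ : C2, w₀ = ![x 0, x 1 + Complex.I] := ⟨_, rfl⟩
  have hw1 : w₀ 1 = x 1 + Complex.I := by rw [hw₀]; rfl
  have hw2 : w₀ 0 = x 0 := by rw [hw₀]; rfl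
  have hw₀U : w₀ ∈ Up \ {x} := by
    constructor
    · show 0 < (w₀ 1).im
      rw [hw1, Complex.add_im, Complex.I_im]
      linarith
    · intro e
      have : w₀ 1 = x 1 := by rw [Set.mem_singleton_iff.mp e]
      rw [hw1] at this
      have h5 : Complex.I = 0 := by linear_combination this
      exact Complex.I_ne_zero h5
  have hpos : 0 < f w₀ := by
    rw [hf', N1_same hk x w₀ hw2.symm, hw1, norm_mul, Complex.norm_I, one_mul,
      ← Complex.normSq_eq_norm_sq, Complex.normSq_apply]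
    simp
    nlinarith
  have hcon : IsPreconnected (Up \ {x}) := A2Unb.isPreconnected_up_diff x
  by_contra hlt
  push Not at hlt
  have hyU : y ∈ Up \ {x} := ⟨hy, fun e => h (Set.mem_singleton_iff.mp e).symm⟩
  have h6 : f y ≤ 0 := by rw [hf']; linarith
  have h7 := hcon.intermediate_value hyU hw₀U hc
  obtain ⟨w, hw, hw0⟩ := h7 ⟨h6, hpos.le⟩
  exact hne w hw hw0

end Kd


namespace Kd

variable {D : Kd G} (hD : Good D)

theorem N1_wd_cont (y : V4) : Continuous fun x : V4 => wd x y := by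
  unfold wd
  refine Continuous.norm ?_
  refine continuous_pi fun i => continuous_pi fun j => ?_
  exact ((continuous_apply i).mul continuous_const).sub ((continuous_apply j).mul continuous_const)

theorem N1_wd_smul (c : ℂ) (x y : V4) : wd (c • x) y = ‖c‖ * wd x y := by
  unfold wd
  rw [← norm_smul]
  congr 1
  funext i j
  simp only [Pi.smul_apply, smul_eq_mul]
  ring

theorem N1_wd_zero {x y : V4} (h : wd x y = 0) (hy : y ≠ 0) : ∃ c : ℂ, x = c • y := by
  have h1 : (fun i j => x i * y j - x j * y i : Fin 4 → Fin 4 → ℂ) = 0 := norm_eq_zero.mp h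
  obtain ⟨j, hj⟩ : ∃ j, y j ≠ 0 := by
    by_contra hcon
    push Not at hcon
    exact hy (funext hcon)
  refine ⟨x j / y j, ?_⟩
  funext i
  have h2 : x i * y j - x j * y i = 0 := congrFun (congrFun h1 i) j
  rw [Pi.smul_apply, smul_eq_mul]
  field_simp
  linear_combination h2

/-- boundary points of the closed half space give points of the limit cone -/
theorem N1_bdry {k : M4} (hk : k ∈ D.FF) {y : C2} (hy : (y 1).im = 0) :
    ∃ θ ∈ Sph, ∃ l : ℂ, l ≠ 0 ∧ D.vx k y = l • D.xi θ := by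
  obtain ⟨h1, -, l, hl, e⟩ := D.A_spec hk (y 0) (y 1).re
  refine ⟨_, h1, l, hl, ?_⟩
  rw [← e, vx_def]
  have e1 : D.P k y = D.A k (y 0) (y 1).re := by
    unfold Kd.P PE
    rw [if_neg (by rw [hy]; exact lt_irrefl 0)]
  have e2 : y 1 = ((y 1).re : ℂ) := by
    apply Complex.ext
    · simp
    · simp [hy]
  rw [e1]
  congr 2

include hD

/-- module N1: properness of the point pair invariant -/
theorem psi_proper {k : M4} (hk : k ∈ D.FF) (K : Set C2) (hK : K ⊆ Up) (hKc : IsCompact K)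
    (r : ℝ) : ∃ K' ⊆ Up, IsCompact K' ∧ ∀ x ∈ K, ∀ y ∈ Up,
      ‖hf (D.vx k x) (D.vx k y)‖ ^ 2 ≤ r * (4 * (x 1).im * (y 1).im) → y ∈ K' := by
  by_contra hcon
  push Not at hcon
  have hKn : ∀ n : ℕ, ∃ x ∈ K, ∃ y ∈ Up, ‖hf (D.vx k x) (D.vx k y)‖ ^ 2 ≤
      r * (4 * (x 1).im * (y 1).im) ∧ ¬ (‖y‖ ≤ n ∧ 1 / ((n : ℝ) + 1) ≤ (y 1).im) := by
    intro n
    have h1 := hcon (Metric.closedBall 0 n ∩ {y : C2 | 1 / ((n : ℝ) + 1) ≤ (y 1).im}) (by
      rintro y ⟨-, hy⟩
      show 0 < (y 1).im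
      have h2 : 1 / ((n : ℝ) + 1) ≤ (y 1).im := hy
      have h3 : (0 : ℝ) < 1 / ((n : ℝ) + 1) := by positivity
      linarith) (by
      refine (isCompact_closedBall 0 (n : ℝ)).inter_right ?_
      exact isClosed_le continuous_const (Complex.continuous_im.comp (continuous_apply 1)))
    obtain ⟨x, hx, y, hy, h2, h3⟩ := h1
    refine ⟨x, hx, y, hy, h2, fun h4 => h3 ⟨?_, h4.2⟩⟩
    rw [mem_closedBall_zero_iff]
    exact h4.1
  choose x hxK y hyU hle hnot using hKn
  have himc : Continuous fun w : C2 => (w 1).im :=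
    Complex.continuous_im.comp (continuous_apply 1)
  have hvU : ContinuousOn (D.vx k) Upc := D.vx_cont hk
  by_cases hT : Tendsto (fun n => ‖y n‖) atTop atTop
  · obtain ⟨xs, hxs, φ, hφ, hlx⟩ := hKc.tendsto_subseq hxK
    have hsph : IsCompact (Metric.sphere (0 : V4) 1) := isCompact_sphere 0 1
    have hw : ∀ n, ((‖D.vx k (y (φ n))‖ : ℂ)⁻¹ • D.vx k (y (φ n))) ∈ Metric.sphere (0 : V4) 1 := by
      intro n
      rw [mem_sphere_zero_iff_norm, norm_smul, norm_inv, Complex.norm_real, norm_norm]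
      exact inv_mul_cancel₀ (norm_ne_zero_iff.mpr (D.vx_ne k hk.1 _))
    obtain ⟨ws, hws, ψ, hψ, hlw⟩ := hsph.tendsto_subseq hw
    have hws1 : ‖ws‖ = 1 := by rwa [mem_sphere_zero_iff_norm] at hws
    obtain ⟨W, hW⟩ : ∃ W : ℕ → V4, ∀ n, W n = (‖D.vx k (y (φ (ψ n)))‖ : ℂ)⁻¹ •
      D.vx k (y (φ (ψ n))) := ⟨_, fun _ => rfl⟩
    have hlW : Tendsto W atTop (𝓝 ws) := by
      have : W = (fun n => (‖D.vx k (y (φ n))‖ : ℂ)⁻¹ • D.vx k (y (φ n))) ∘ ψ := funext hW
      rw [this]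
      exact hlw
    have hT2 : Tendsto (fun n => ‖y (φ (ψ n))‖) atTop atTop :=
      hT.comp (hφ.tendsto_atTop.comp hψ.tendsto_atTop)
    have h1 := vx_inf hD hk (fun n => y (φ (ψ n))) (fun n => up_sub (hyU _)) hT2
    have h2 : ∀ n, wd (D.vx k (y (φ (ψ n)))) (k *ᵥ e1) / ‖D.vx k (y (φ (ψ n)))‖ =
        wd (W n) (k *ᵥ e1) := by
      intro n
      rw [hW, N1_wd_smul, norm_inv, Complex.norm_real, norm_norm, div_eq_inv_mul]
    simp only [h2] at h1
    have h3 : Tendsto (fun n => wd (W n) (k *ᵥ e1)) atTop (𝓝 (wd ws (k *ᵥ e1))) :=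
      ((N1_wd_cont (k *ᵥ e1)).tendsto ws).comp hlW
    have h4 : wd ws (k *ᵥ e1) = 0 := tendsto_nhds_unique h3 h1
    obtain ⟨t1, l, hl, e1'⟩ := D.t0_spec hk
    have hxne : D.xi (D.t0 k) ≠ 0 := by
      intro h
      have := D.xnorm _ t1
      rw [h, norm_zero] at this
      exact zero_ne_one this
    have hke : k *ᵥ e1 ≠ 0 := by
      rw [e1']
      exact smul_ne_zero hl hxne
    obtain ⟨c, hc⟩ := N1_wd_zero h4 hke
    have hc0 : c ≠ 0 := by
      intro h0
      rw [h0, zero_smul] at hc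
      rw [hc, norm_zero] at hws1
      exact zero_ne_one hws1
    -- limit of the inequality
    have hxs' : xs ∈ Up := hK hxs
    have hlx2 : Tendsto (fun n => x (φ (ψ n))) atTop (𝓝 xs) := hlx.comp hψ.tendsto_atTop
    have h5 : Tendsto (fun n => D.vx k (x (φ (ψ n)))) atTop (𝓝 (D.vx k xs)) := by
      have h6 := hvU xs (up_sub hxs')
      have h7 : Tendsto (fun n => x (φ (ψ n))) atTop (𝓝[Upc] xs) :=
        tendsto_nhdsWithin_iff.mpr ⟨hlx2, Eventually.of_forall fun n => up_sub (hK (hxK _))⟩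
      have h8 := h6.tendsto.comp h7
      exact h8
    have h6 : Tendsto (fun n => hf (D.vx k (x (φ (ψ n)))) (W n)) atTop
        (𝓝 (hf (D.vx k xs) ws)) := by
      have h7 := (hf_cont.tendsto (D.vx k xs, ws)).comp (h5.prodMk_nhds hlW)
      exact h7
    have h7 : Tendsto (fun n => hf (W n) (W n)) atTop (𝓝 (hf ws ws)) := by
      have h8 := (hf_cont.tendsto (ws, ws)).comp (hlW.prodMk_nhds hlW)
      exact h8
    have h8 : hf ws ws = 0 := by
      rw [hc, hf_smul_left, hf_smul_right, hk.1.2, fc_e1]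
      have : e1 3 = 0 := rfl
      rw [this, mul_zero, mul_zero, mul_zero]
    have h9 : ∀ n, ‖hf (D.vx k (x (φ (ψ n)))) (W n)‖ ^ 2 ≤
        r * (4 * (x (φ (ψ n)) 1).im * (-(hf (W n) (W n)).re / 2)) := by
      intro n
      have hN : 0 < ‖D.vx k (y (φ (ψ n)))‖ := norm_pos_iff.mpr (D.vx_ne k hk.1 _)
      have e1 : hf (D.vx k (x (φ (ψ n)))) (W n) =
          star ((‖D.vx k (y (φ (ψ n)))‖ : ℂ)⁻¹) *
            hf (D.vx k (x (φ (ψ n)))) (D.vx k (y (φ (ψ n)))) := by
        rw [hW, hf_smul_right]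
      have e2 : hf (W n) (W n) = ((‖D.vx k (y (φ (ψ n)))‖ : ℂ)⁻¹) *
          (star ((‖D.vx k (y (φ (ψ n)))‖ : ℂ)⁻¹) * (-2 * ((y (φ (ψ n)) 1).im : ℂ))) := by
        rw [hW, hf_smul_left, hf_smul_right, hf_vx hD hk]
      have e3 : (hf (W n) (W n)).re = ‖D.vx k (y (φ (ψ n)))‖⁻¹ ^ 2 *
          (-2 * (y (φ (ψ n)) 1).im) := by
        have e4 : hf (W n) (W n) = ((‖D.vx k (y (φ (ψ n)))‖⁻¹ ^ 2 *
          (-2 * (y (φ (ψ n)) 1).im) : ℝ) : ℂ) := by
          rw [e2, star_inv₀]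
          have e5 : star (‖D.vx k (y (φ (ψ n)))‖ : ℂ) = (‖D.vx k (y (φ (ψ n)))‖ : ℂ) :=
            Complex.conj_ofReal _
          rw [e5]
          push_cast
          ring
        rw [e4, Complex.ofReal_re]
      rw [e1, e3, norm_mul, norm_star, norm_inv, Complex.norm_real, norm_norm, mul_pow]
      have e6 := hle (φ (ψ n))
      have e7 : 0 ≤ ‖D.vx k (y (φ (ψ n)))‖⁻¹ ^ 2 := by positivity
      calc ‖D.vx k (y (φ (ψ n)))‖⁻¹ ^ 2 *
            ‖hf (D.vx k (x (φ (ψ n)))) (D.vx k (y (φ (ψ n))))‖ ^ 2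
          ≤ ‖D.vx k (y (φ (ψ n)))‖⁻¹ ^ 2 *
            (r * (4 * (x (φ (ψ n)) 1).im * (y (φ (ψ n)) 1).im)) :=
            mul_le_mul_of_nonneg_left e6 e7
        _ = _ := by ring
    have h10 : Tendsto (fun n => r * (4 * (x (φ (ψ n)) 1).im * (-(hf (W n) (W n)).re / 2)))
        atTop (𝓝 (r * (4 * (xs 1).im * (-(hf ws ws).re / 2)))) := by
      have i1 : Tendsto (fun n => (x (φ (ψ n)) 1).im) atTop (𝓝 (xs 1).im) := by
        have i2 := (himc.tendsto xs).comp hlx2
        exact i2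
      have i3 : Tendsto (fun n => (hf (W n) (W n)).re) atTop (𝓝 (hf ws ws).re) := by
        have i4 := (Complex.continuous_re.tendsto _).comp h7
        exact i4
      exact (((i1.const_mul 4).mul ((i3.neg).div_const 2))).const_mul r
    have h11 := le_of_tendsto_of_tendsto' (h6.norm.pow 2) h10 h9
    rw [h8, Complex.zero_re, neg_zero, zero_div, mul_zero, mul_zero] at h11
    have h12 : hf (D.vx k xs) ws = 0 := by
      have := le_antisymm h11 (sq_nonneg _)
      exact norm_eq_zero.mp (pow_eq_zero_iff (two_ne_zero) |>.mp this)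
    rw [hc, e1', hf_smul_right, hf_smul_right] at h12
    have h13 := vx_tv hD hk hxs' t1
    rcases mul_eq_zero.mp h12 with h | h
    · exact star_ne_zero.mpr hc0 h
    · rcases mul_eq_zero.mp h with h | h
      · exact star_ne_zero.mpr hl h
      · exact h13 h
  · rw [tendsto_atTop] at hT
    push Not at hT
    obtain ⟨b, hb⟩ := hT
    have hfr : ∃ᶠ n in atTop, ‖y n‖ < b := hb
    obtain ⟨φ, hφ, hφb⟩ := extraction_of_frequently_atTop hfr
    have hcK : IsCompact (K ×ˢ Metric.closedBall (0 : C2) b) :=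
      hKc.prod (isCompact_closedBall 0 b)
    have hmem : ∀ n, ((x (φ n), y (φ n)) : C2 × C2) ∈ K ×ˢ Metric.closedBall (0 : C2) b := by
      intro n
      refine Set.mk_mem_prod (hxK _) ?_
      rw [mem_closedBall_zero_iff]
      exact (hφb n).le
    obtain ⟨⟨xs, ys⟩, hs, ψ, hψ, hlim⟩ := hcK.tendsto_subseq hmem
    have hxs : xs ∈ K := (Set.mem_prod.mp hs).1
    have hlx : Tendsto (fun n => x (φ (ψ n))) atTop (𝓝 xs) := by
      have h1 := (continuous_fst.tendsto (xs, ys)).comp hlim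
      exact h1
    have hly : Tendsto (fun n => y (φ (ψ n))) atTop (𝓝 ys) := by
      have h1 := (continuous_snd.tendsto (xs, ys)).comp hlim
      exact h1
    have hlim0 : Tendsto (fun n => (y (φ (ψ n)) 1).im) atTop (𝓝 (ys 1).im) := by
      have h1 := (himc.tendsto ys).comp hly
      exact h1
    have hmt : Tendsto (fun n => φ (ψ n)) atTop atTop :=
      hφ.tendsto_atTop.comp hψ.tendsto_atTop
    have hle0 : (ys 1).im ≤ 0 := by
      have h1 : Tendsto (fun n : ℕ => 1 / (((φ (ψ n) : ℕ) : ℝ) + 1)) atTop (𝓝 0) := by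
        have h2 := (tendsto_one_div_add_atTop_nhds_zero_nat (𝕜 := ℝ)).comp hmt
        exact h2
      refine le_of_tendsto_of_tendsto hlim0 h1 ?_
      obtain ⟨N, hN⟩ := exists_nat_gt b
      filter_upwards [hmt.eventually_ge_atTop N] with n hn
      have h2 := hnot (φ (ψ n))
      have h3 : ‖y (φ (ψ n))‖ ≤ (φ (ψ n) : ℕ) := by
        have h4 := (hφb (ψ n)).le
        have h5 : (N : ℝ) ≤ (φ (ψ n) : ℕ) := by exact_mod_cast hn
        linarith
      by_contra h4
      push Not at h4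
      exact h2 ⟨h3, h4.le⟩
    have hge0 : 0 ≤ (ys 1).im := by
      refine ge_of_tendsto' hlim0 fun n => ?_
      have h1 : 0 < (y (φ (ψ n)) 1).im := hyU _
      exact h1.le
    have hy0 : (ys 1).im = 0 := le_antisymm hle0 hge0
    have hysU : ys ∈ Upc := hge0
    have hxs' : xs ∈ Up := hK hxs
    have h5 : Tendsto (fun n => D.vx k (x (φ (ψ n)))) atTop (𝓝 (D.vx k xs)) := by
      have h6 := hvU xs (up_sub hxs')
      have h7 : Tendsto (fun n => x (φ (ψ n))) atTop (𝓝[Upc] xs) :=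
        tendsto_nhdsWithin_iff.mpr ⟨hlx, Eventually.of_forall fun n => up_sub (hK (hxK _))⟩
      have h8 := h6.tendsto.comp h7
      exact h8
    have h6 : Tendsto (fun n => D.vx k (y (φ (ψ n)))) atTop (𝓝 (D.vx k ys)) := by
      have h6 := hvU ys hysU
      have h7 : Tendsto (fun n => y (φ (ψ n))) atTop (𝓝[Upc] ys) :=
        tendsto_nhdsWithin_iff.mpr ⟨hly, Eventually.of_forall fun n => up_sub (hyU _)⟩
      have h8 := h6.tendsto.comp h7
      exact h8
    have h7 : Tendsto (fun n => hf (D.vx k (x (φ (ψ n)))) (D.vx k (y (φ (ψ n))))) atTop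
        (𝓝 (hf (D.vx k xs) (D.vx k ys))) := by
      have h8 := (hf_cont.tendsto (D.vx k xs, D.vx k ys)).comp (h5.prodMk_nhds h6)
      exact h8
    have h10 : Tendsto (fun n => r * (4 * (x (φ (ψ n)) 1).im * (y (φ (ψ n)) 1).im))
        atTop (𝓝 (r * (4 * (xs 1).im * (ys 1).im))) := by
      have i1 : Tendsto (fun n => (x (φ (ψ n)) 1).im) atTop (𝓝 (xs 1).im) := by
        have i2 := (himc.tendsto xs).comp hlx
        exact i2
      exact ((i1.const_mul 4).mul hlim0).const_mul r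
    have h11 := le_of_tendsto_of_tendsto' (h7.norm.pow 2) h10 fun n => hle (φ (ψ n))
    rw [hy0, mul_zero, mul_zero] at h11
    have h12 : hf (D.vx k xs) (D.vx k ys) = 0 := by
      have := le_antisymm h11 (sq_nonneg _)
      exact norm_eq_zero.mp (pow_eq_zero_iff (two_ne_zero) |>.mp this)
    obtain ⟨θ, hθ, l, hl, e⟩ := N1_bdry (D := D) hk hy0
    rw [e, hf_smul_right] at h12
    rcases mul_eq_zero.mp h12 with h | h
    · exact star_ne_zero.mpr hl h
    · exact vx_tv hD hk hxs' hθ h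

end Kd

end Pool.Agent.MPd01a95.KT
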