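import Mathlib
import Pool.Agent.Lib.MP_d01a95_gt_K.KDefs2
import Pool.Agent.Lib.MP_d01a95_gt_K.KA1
import Pool.Agent.Lib.MP_d01a95_gt_K.KA2
import Pool.Agent.Lib.MP_d01a95_gt_K.KA4
import Pool.Agent.Lib.MP_d01a95_gt_K.KF0
import Pool.Agent.Lib.MP_d01a95_gt_K.KF6
import Pool.Agent.Lib.MP_d01a95_gt_K.KH1
import Pool.Agent.Lib.MP_d01a95_gt_K.KH2
import Pool.Agent.Lib.MP_d01a95_gt_K.KH3
import Pool.Agent.Lib.MP_d01a95_gt_K.KH4
import Pool.Agent.Lib.MP_d01a95_gt_K.KA3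
import Pool.Agent.Lib.MP_d01a95_gt_K.KA5
import Pool.Agent.Lib.MP_d01a95_gt_K.KJ1
import Pool.Agent.Lib.MP_d01a95_gt_K.KJ4
import Pool.Agent.Lib.MP_d01a95_gt_K.KK3
import Pool.Agent.Lib.MP_d01a95_gt_K.KK7
import Pool.Agent.Lib.MP_d01a95_gt_K.KL1
import Pool.Agent.Lib.MP_d01a95_gt_K.KL2
import Pool.Agent.Lib.MP_d01a95_gt_K.KL3
import Pool.Agent.Lib.MP_d01a95_gt_K.KL4
import Pool.Agent.Lib.MP_d01a95_gt_K.KL5
import Pool.Agent.Lib.MP_d01a95_gt_K.KM1
import Pool.Agent.Lib.MP_d01a95_gt_K.KM2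
import Pool.Agent.Lib.MP_d01a95_gt_K.KM3
import Pool.Agent.Lib.MP_d01a95_gt_K.KM4
import Pool.Agent.Lib.MP_d01a95_gt_K.KM5
import Pool.Agent.Lib.MP_d01a95_gt_K.KN1
import Pool.Agent.Lib.MP_d01a95_gt_K.KN1a

set_option autoImplicit false
set_option linter.all false

open Matrix Filter Topology MeasureTheory
open scoped ContDiff

namespace Pool.Agent.MPd01a95.KT

open GU NA

variable {G : Type} [Group G]

namespace NA

/-- real derivatives in terms of the Wirtinger derivatives -/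
theorem N2_fderiv {f : C2 → ℂ} (x v : C2) : fderiv ℝ f x v =
    pd f 0 x * v 0 + pb f 0 x * star (v 0) + (pd f 1 x * v 1 + pb f 1 x * star (v 1)) := by
  have hv : v = (v 0).re • (Pi.single 0 1 : C2) + (v 0).im • (Pi.single 0 Complex.I : C2) +
      ((v 1).re • (Pi.single 1 1 : C2) + (v 1).im • (Pi.single 1 Complex.I : C2)) := by
    funext i
    fin_cases i
    · apply Complex.ext <;> simp
    · apply Complex.ext <;> simp
  have h1 : fderiv ℝ f x v = (v 0).re • fderiv ℝ f x (Pi.single 0 1) +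
      (v 0).im • fderiv ℝ f x (Pi.single 0 Complex.I) +
      ((v 1).re • fderiv ℝ f x (Pi.single 1 1) + (v 1).im • fderiv ℝ f x (Pi.single 1 Complex.I)) := by
    conv_lhs => rw [hv]
    simp only [map_add, map_smul]
  rw [h1]
  unfold pd pb
  have e : ∀ w : ℂ, w = (w.re : ℂ) + (w.im : ℂ) * Complex.I := fun w => (Complex.re_add_im w).symm
  have e' : ∀ w : ℂ, star w = (w.re : ℂ) - (w.im : ℂ) * Complex.I := fun w => by
    apply Complex.ext <;> simp
  have hI : Complex.I * Complex.I = -1 := Complex.I_mul_I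
  rw [e' (v 0), e' (v 1)]
  conv_rhs => rw [e (v 0), e (v 1)]
  simp only [Complex.real_smul, Complex.add_re, Complex.add_im, Complex.mul_re, Complex.mul_im,
    Complex.ofReal_re, Complex.ofReal_im, Complex.I_re, Complex.I_im, mul_zero, mul_one, sub_zero,
    zero_add, add_zero, zero_mul]
  linear_combination (((v 0).im : ℂ) * fderiv ℝ f x (Pi.single 0 Complex.I) +
    ((v 1).im : ℂ) * fderiv ℝ f x (Pi.single 1 Complex.I)) * hI

/-- derivative of the chart vector paired with a fixed vector along a curve -/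
theorem N2_curve {P : C2 → ℂ} {y : ℝ → C2} {v : C2} (ξ : V4)
    (hP : DifferentiableAt ℝ P (y 0)) (hy : ∀ i, HasDerivAt (fun s => y s i) (v i) 0) :
    HasDerivAt (fun s => fc (XX (P (y s)) (y s 0) (y s 1)) ξ)
      (Complex.I * (fderiv ℝ P (y 0) v * star (ξ 2) - v 0 * star (ξ 0) +
        (v 1 - (star (v 0) * P (y 0) + star (y 0 0) * fderiv ℝ P (y 0) v)) * star (ξ 3))) 0 := by
  have hyy : HasDerivAt y v 0 := hasDerivAt_pi.mpr hy
  have h1 : HasDerivAt (fun s => P (y s)) (fderiv ℝ P (y 0) v) 0 :=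
    hP.hasFDerivAt.comp_hasDerivAt 0 hyy
  have h2 : HasDerivAt (fun s => star (y s 0)) (star (v 0)) 0 := (hy 0).star
  have h3 : HasDerivAt (fun s => y s 1 - star (y s 0) * P (y s))
      (v 1 - (star (v 0) * P (y 0) + star (y 0 0) * fderiv ℝ P (y 0) v)) 0 :=
    (hy 1).sub (h2.mul h1)
  have h4 : HasDerivAt (fun s => Complex.I * (P (y s) * star (ξ 2) - y s 0 * star (ξ 0) +
      (y s 1 - star (y s 0) * P (y s)) * star (ξ 3) - 1 * star (ξ 1)))
      (Complex.I * (fderiv ℝ P (y 0) v * star (ξ 2) - v 0 * star (ξ 0) +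
        (v 1 - (star (v 0) * P (y 0) + star (y 0 0) * fderiv ℝ P (y 0) v)) * star (ξ 3))) 0 := by
    have h5 := ((((h1.mul_const (star (ξ 2))).sub ((hy 0).mul_const (star (ξ 0)))).add
      (h3.mul_const (star (ξ 3)))).sub_const (1 * star (ξ 1))).const_mul Complex.I
    exact h5
  exact h4

/-- the quadratic inequality at a point -/
theorem N2_quad {P : C2 → ℂ} {x : C2} (hx : 0 < (x 1).im) (hP : DifferentiableAt ℝ P x)
    (h0 : pb P 0 x + P x * pd P 1 x = 0) (h1 : pb P 1 x = 0)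
    (hge : ∀ y : C2, 0 < (y 1).im →
      4 * (x 1).im * (y 1).im ≤ ‖fc (XX (P x) (x 0) (x 1)) (XX (P y) (y 0) (y 1))‖ ^ 2) :
    (pd P 0 x + star (P x) * pd P 1 x).im + (x 1).im * ‖pd P 1 x‖ ^ 2 ≤ 0 := by
  obtain ⟨a, ha⟩ : ∃ a, a = P x := ⟨_, rfl⟩
  obtain ⟨a0, ha0⟩ : ∃ a0, a0 = pd P 0 x := ⟨_, rfl⟩
  obtain ⟨a1, ha1⟩ : ∃ a1, a1 = pd P 1 x := ⟨_, rfl⟩
  obtain ⟨t, ht⟩ : ∃ t, t = (x 1).im := ⟨_, rfl⟩
  rw [← ha, ← ha0, ← ha1, ← ht]
  rw [← ha, ← ha1] at h0
  rw [← ht] at hx hge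
  obtain ⟨u, hu⟩ : ∃ u : ℂ, u = star a + 2 * Complex.I * t * star a1 := ⟨_, rfl⟩
  obtain ⟨v, hv⟩ : ∃ v : C2, v = ![1, u + a] := ⟨_, rfl⟩
  have hv0 : v 0 = 1 := by rw [hv]; rfl
  have hv1 : v 1 = u + a := by rw [hv]; rfl
  obtain ⟨β, hβ⟩ : ∃ β : ℂ, β = a0 + a1 * u := ⟨_, rfl⟩
  have hfd : fderiv ℝ P x v = β := by
    rw [N2_fderiv, hv0, hv1, h1, ← ha0, ← ha1, hβ, star_one]
    linear_combination h0
  -- the curve
  have hcurve : HasDerivAt (fun s : ℝ => P (x + s • v)) β 0 := by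
    have h2 : HasDerivAt (fun s : ℝ => x + s • v) v 0 := by
      have h3 := ((hasDerivAt_id (0 : ℝ)).smul_const v).const_add x
      simpa using h3
    have h4 : HasFDerivAt P (fderiv ℝ P x) (x + (0 : ℝ) • v) := by
      rw [zero_smul, add_zero]
      exact hP.hasFDerivAt
    have h5 := h4.comp_hasDerivAt (0 : ℝ) h2
    rw [hfd] at h5
    exact h5
  have hslope : Tendsto (fun s : ℝ => (s : ℂ)⁻¹ * (P (x + s • v) - a)) (𝓝[>] 0) (𝓝 β) := by
    have h2 := hcurve.tendsto_slope_zero_right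
    refine h2.congr fun s => ?_
    rw [zero_add, zero_smul, add_zero, ← ha, Complex.real_smul, Complex.ofReal_inv]
  have hev : ∀ᶠ s : ℝ in 𝓝[>] 0, 0 ≤ 4 * t ^ 2 * ‖a1‖ ^ 2 +
      2 * (-(2 * Complex.I * t) * (1 + s * star a1) *
        star ((s : ℂ)⁻¹ * (P (x + s • v) - a))).re +
      s ^ 2 * ‖(s : ℂ)⁻¹ * (P (x + s • v) - a)‖ ^ 2 := by
    have hopen : ∀ᶠ s : ℝ in 𝓝[>] 0, 0 < ((x + s • v) 1).im := by
      have h3 : Tendsto (fun s : ℝ => ((x + s • v) 1).im) (𝓝[>] 0) (𝓝 t) := by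
        have h4 : Continuous fun s : ℝ => ((x + s • v) 1).im := by
          have h5 : Continuous fun s : ℝ => (x + s • v) 1 :=
            (continuous_apply 1).comp (continuous_const.add (continuous_id.smul continuous_const))
          exact Complex.continuous_im.comp h5
        have h5 := h4.tendsto 0
        rw [zero_smul, add_zero, ← ht] at h5
        exact h5.mono_left nhdsWithin_le_nhds
      exact h3.eventually (lt_mem_nhds hx)
    filter_upwards [hopen, self_mem_nhdsWithin] with s hs hs0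
    have hs0' : 0 < s := hs0
    have hsC : (s : ℂ) ≠ 0 := by exact_mod_cast hs0'.ne'
    have h2 := hge _ hs
    obtain ⟨δ, hδ⟩ : ∃ δ : ℂ, δ = (s : ℂ)⁻¹ * (P (x + s • v) - a) := ⟨_, rfl⟩
    rw [← hδ]
    have hPs : P (x + s • v) = a + s * δ := by
      rw [hδ, ← mul_assoc, mul_inv_cancel₀ hsC]
      ring
    have hy0 : (x + s • v) 0 = x 0 + s := by
      rw [Pi.add_apply, Pi.smul_apply, hv0, Complex.real_smul, mul_one]
    have hy1 : (x + s • v) 1 = x 1 + s * (u + a) := by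
      rw [Pi.add_apply, Pi.smul_apply, hv1, Complex.real_smul]
    rw [fc_XX, hPs, hy0, hy1, ← ha] at h2
    have hstar : ∀ w : ℂ, x 1 - star (x 1) = 2 * Complex.I * t := by
      intro _
      rw [ht]
      apply Complex.ext <;> simp
      ring
    have hsr : star (s : ℂ) = s := Complex.conj_ofReal s
    have htr : star (t : ℂ) = t := Complex.conj_ofReal t
    have hIs : star Complex.I = -Complex.I := Complex.conj_I
    have h2s : star (2 : ℂ) = 2 := star_ofNat 2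
    have hF : Complex.I * (x 1 - star (x 1 + ↑s * (u + a)) - a * (star (x 0) - star (x 0 + ↑s)) -
        star (a + ↑s * δ) * (x 0 - (x 0 + ↑s))) =
        Complex.I * (2 * Complex.I * t * (1 + s * a1) + s * (s * star δ)) := by
      congr 1
      rw [hu]
      simp only [star_add, star_mul', star_star, hsr, htr, hIs, h2s]
      linear_combination hstar 0
    rw [hF, norm_mul, Complex.norm_I, one_mul] at h2
    have him : (x 1 + ↑s * (u + a)).im = t + 2 * s * t * a1.re := by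
      rw [hu]
      simp [← ht]
      ring
    rw [him] at h2
    -- expand the square
    have hexp : ‖2 * Complex.I * ↑t * (1 + ↑s * a1) + ↑s * (↑s * star δ)‖ ^ 2 =
        4 * t ^ 2 * (1 + 2 * s * a1.re + s ^ 2 * ‖a1‖ ^ 2) +
        s ^ 2 * (2 * (-(2 * Complex.I * t) * (1 + s * star a1) * star δ).re +
          s ^ 2 * ‖δ‖ ^ 2) := by
      simp only [← Complex.normSq_eq_norm_sq, Complex.normSq_apply]
      simp
      ring
    rw [hexp] at h2
    have h3 : 0 ≤ s ^ 2 * (4 * t ^ 2 * ‖a1‖ ^ 2 +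
        2 * (-(2 * Complex.I * t) * (1 + s * star a1) * star δ).re + s ^ 2 * ‖δ‖ ^ 2) := by
      nlinarith
    exact nonneg_of_mul_nonneg_right h3 (by positivity)
  have hlim : Tendsto (fun s : ℝ => 4 * t ^ 2 * ‖a1‖ ^ 2 +
      2 * (-(2 * Complex.I * t) * (1 + s * star a1) *
        star ((s : ℂ)⁻¹ * (P (x + s • v) - a))).re +
      s ^ 2 * ‖(s : ℂ)⁻¹ * (P (x + s • v) - a)‖ ^ 2) (𝓝[>] 0)
      (𝓝 (4 * t ^ 2 * ‖a1‖ ^ 2 + 2 * (-(2 * Complex.I * t) * (1 + (0 : ℝ) * star a1) * star β).re +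
        (0 : ℝ) ^ 2 * ‖β‖ ^ 2)) := by
    have hs : Tendsto (fun s : ℝ => s) (𝓝[>] 0) (𝓝 0) := nhdsWithin_le_nhds
    have hsc : Tendsto (fun s : ℝ => (s : ℂ)) (𝓝[>] 0) (𝓝 ((0 : ℝ) : ℂ)) :=
      (Complex.continuous_ofReal.tendsto 0).comp hs
    have h2 : Tendsto (fun s : ℝ => -(2 * Complex.I * (t : ℂ)) * (1 + s * star a1) *
        star ((s : ℂ)⁻¹ * (P (x + s • v) - a))) (𝓝[>] 0)
        (𝓝 (-(2 * Complex.I * (t : ℂ)) * (1 + (0 : ℝ) * star a1) * star β)) :=
      (((hsc.mul_const _).const_add 1).const_mul _).mul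
        ((continuous_star.tendsto β).comp hslope)
    have h3 := (Complex.continuous_re.tendsto _).comp h2
    exact ((h3.const_mul 2).const_add _).add ((hs.pow 2).mul ((hslope.norm).pow 2))
  have hfin := ge_of_tendsto hlim hev
  have e1 : 4 * t ^ 2 * ‖a1‖ ^ 2 + 2 * (-(2 * Complex.I * (t : ℂ)) * (1 + ((0 : ℝ) : ℂ) * star a1) *
      star β).re + (0 : ℝ) ^ 2 * ‖β‖ ^ 2 =
      -(4 * t) * ((a0 + star a * a1).im + t * ‖a1‖ ^ 2) := by
    rw [hβ, hu]
    simp only [← Complex.normSq_eq_norm_sq, Complex.normSq_apply]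
    simp
    ring
  rw [e1] at hfin
  nlinarith

end NA

namespace Kd

variable {D : Kd G} (hD : Good D)

include hD

theorem N2_ba {k : M4} (hk : k ∈ D.FF) : ContDiffOn ℝ ∞ (D.P k) Up ∧
    (∀ x ∈ Up, pb (D.P k) 1 x = 0) ∧
      ∀ x ∈ Up, pb (D.P k) 0 x + D.P k x * pd (D.P k) 1 x = 0 := by
  have hA := D.ch hk
  have hc : ContinuousOn (fun p : ℂ × ℂ => PE (D.A k) p.1 p.2) {p | 0 < p.2.im} :=
    (PE_cont hA).mono fun p (hp : 0 < p.2.im) => hp.le
  have h := smooth_burgers (B := PE (D.A k)) (fun a τ₀ hτ => by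
    obtain ⟨r₁, r, h1, h2, F, h3, h4, h5⟩ := local_graph hc (PE_hol hA (hD.cz k hk))
      (fun τ hτ φ hφ hφc => weak_burgers hA (hD.wl k hk) (hD.cz k hk) τ hτ φ hφ hφc) a τ₀ hτ
    exact ⟨r₁, r, h1, h2, F, h3, h4⟩) hc
  exact h

theorem N2_diff {k : M4} (hk : k ∈ D.FF) {x : C2} (hx : x ∈ Up) :
    DifferentiableAt ℝ (D.P k) x := by
  have h1 := (N2_ba hD hk).1
  have hopen : IsOpen Up :=
    isOpen_lt continuous_const (Complex.continuous_im.comp (continuous_apply 1))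
  exact (h1.contDiffAt (hopen.mem_nhds hx)).differentiableAt (by simp)

end Kd


namespace NA

/-- the null vector of a degenerate tangent plane -/
noncomputable def N2_xi (a a0 a1 μ τ u : ℂ) : V4 :=
  ![a0 + a1 * u - star a1 * a, u - star μ * (a0 + a1 * u) - star a1 * (τ - star μ * a),
    1 - star a1 * μ, -star a1]

theorem N2_alg {a a0 a1 μ τ u T : ℂ} (hT : τ - star τ = T) (hTs : star T = -T)
    (hu : u = star a + T * star a1)
    (hI : a0 + star a * a1 - star (a0 + star a * a1) + T * a1 * star a1 = 0) :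
    fc (XX a μ τ) (N2_xi a a0 a1 μ τ u) = 0 ∧
    (∀ v0 v1 b : ℂ, b = a0 * v0 + a1 * (v1 - a * star v0) →
      b * star (N2_xi a a0 a1 μ τ u 2) - v0 * star (N2_xi a a0 a1 μ τ u 0) +
        (v1 - (star v0 * a + star μ * b)) * star (N2_xi a a0 a1 μ τ u 3) = 0) ∧
    fc (N2_xi a a0 a1 μ τ u) (N2_xi a a0 a1 μ τ u) = 0 ∧ N2_xi a a0 a1 μ τ u ≠ 0 := by
  have x0 : N2_xi a a0 a1 μ τ u 0 = a0 + a1 * u - star a1 * a := rfl
  have x1 : N2_xi a a0 a1 μ τ u 1 =
    u - star μ * (a0 + a1 * u) - star a1 * (τ - star μ * a) := rfl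
  have x2 : N2_xi a a0 a1 μ τ u 2 = 1 - star a1 * μ := rfl
  have x3 : N2_xi a a0 a1 μ τ u 3 = -star a1 := rfl
  have hus : star u = a - T * a1 := by
    rw [hu, star_add, star_mul', star_star, star_star, hTs]
    ring
  have hτs : star τ = τ - T := by linear_combination -hT
  have hIs : star (a0 + star a * a1) = star a0 + a * star a1 := by
    rw [star_add, star_mul', star_star]
  rw [hIs] at hI
  refine ⟨?_, ?_, ?_, ?_⟩
  · have z0 : XX a μ τ 0 = a := rfl
    have z1 : XX a μ τ 1 = τ - star μ * a := rfl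
    have z2 : XX a μ τ 2 = μ := rfl
    have z3 : XX a μ τ 3 = 1 := rfl
    unfold fc
    rw [x0, x1, x2, x3, z0, z1, z2, z3]
    simp only [star_sub, star_add, star_mul', star_star, star_neg, star_one]
    rw [hus, hτs]
    ring
  · intro v0 v1 b hb
    rw [x0, x2, x3]
    simp only [star_sub, star_add, star_mul', star_star, star_neg, star_one]
    rw [hus, hb]
    linear_combination v0 * hI
  · unfold fc
    rw [x0, x1, x2, x3]
    simp only [star_sub, star_add, star_mul', star_star, star_neg, star_one]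
    rw [hus, hτs, hu]
    linear_combination Complex.I * hI
  · intro h
    have h3 := congrFun h 3
    have h2 := congrFun h 2
    rw [x3] at h3
    rw [x2] at h2
    have h4 : star a1 = 0 := by
      have : -star a1 = 0 := h3
      exact neg_eq_zero.mp this
    rw [h4] at h2
    have h5 : (1 : ℂ) - 0 * μ = 0 := h2
    rw [zero_mul, sub_zero] at h5
    exact one_ne_zero h5

end NA

namespace Kd

variable {D : Kd G} (hD : Good D)

include hD

/-- change of charts along a line -/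
theorem N2_line {k k' : M4} (hk : k ∈ D.FF) (hk' : k' ∈ D.FF) (m τ : ℂ) (hτ : 0 < τ.im) :
    ∃ y : ℝ → C2, ∃ c : ℝ → ℂ, (∀ s, y s ∈ Up) ∧ (∀ s, c s ≠ 0) ∧
      (∀ s : ℝ, D.vx k' ![m + s, τ] = c s • D.vx k (y s)) ∧ DifferentiableAt ℝ c 0 ∧
      ∀ i, DifferentiableAt ℝ (fun s => y s i) 0 := by
  obtain ⟨w, hw⟩ : ∃ w : ℝ → V4, ∀ s, w s = kᴴ *ᵥ D.vx k' ![m + s, τ] := ⟨_, fun _ => rfl⟩
  have hkey : ∀ s : ℝ, ∃ y : C2, y ∈ Up ∧ w s 3 ≠ 0 ∧ D.vx k' ![m + s, τ] = w s 3 • D.vx k y ∧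
      y 0 = w s 2 / w s 3 ∧ y 1 = (w s 1 + star (w s 2 / w s 3) * w s 0) / w s 3 := by
    intro s
    have h1 : D.vx k' ![m + s, τ] ∈ D.VV k' := ⟨![m + s, τ], hτ, 1, one_ne_zero, by rw [one_smul]⟩
    rw [← VV_eq hD hk hk'] at h1
    obtain ⟨y, hy, l, hl, e⟩ := h1
    have h2 : w s = l • XX (D.P k y) (y 0) (y 1) := by
      rw [hw, e, Matrix.mulVec_smul, vx_def, kk_inv' hk.1]
    have f0 : w s 0 = l * D.P k y := by rw [h2]; rfl
    have f1 : w s 1 = l * (y 1 - star (y 0) * D.P k y) := by rw [h2]; rfl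
    have f2 : w s 2 = l * y 0 := by rw [h2]; rfl
    have f3 : w s 3 = l := by
      rw [h2]
      show l * 1 = l
      rw [mul_one]
    refine ⟨y, hy, by rw [f3]; exact hl, by rw [f3]; exact e, ?_, ?_⟩
    · rw [f2, f3, mul_div_cancel_left₀ _ hl]
    · rw [f0, f1, f2, f3, mul_div_cancel_left₀ _ hl]
      field_simp
      ring
  choose y hyU hc he h0 h1 using hkey
  have hY : HasDerivAt (fun s : ℝ => (![m + s, τ] : C2)) (Pi.single 0 1) 0 := by
    refine hasDerivAt_pi.mpr fun i => ?_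
    fin_cases i
    · have h2 : HasDerivAt (fun s : ℝ => m + (s : ℂ)) 1 0 :=
        (Complex.ofRealCLM.hasDerivAt (x := (0 : ℝ))).const_add m
      exact h2
    · exact hasDerivAt_const (0 : ℝ) τ
  have hP : DifferentiableAt ℝ (fun s : ℝ => D.P k' ![m + s, τ]) 0 := by
    have hU : (![m + ((0 : ℝ) : ℂ), τ] : C2) ∈ Up := hτ
    have h2 := (N2_diff hD hk' hU).hasFDerivAt.comp_hasDerivAt (0 : ℝ) hY
    exact h2.differentiableAt
  have hX : ∀ j, DifferentiableAt ℝ (fun s : ℝ => XX (D.P k' ![m + s, τ]) (m + s) τ j) 0 := by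
    have hm : DifferentiableAt ℝ (fun s : ℝ => m + (s : ℂ)) 0 :=
      ((Complex.ofRealCLM.hasDerivAt (x := (0 : ℝ))).const_add m).differentiableAt
    have hms : DifferentiableAt ℝ (fun s : ℝ => star (m + (s : ℂ))) 0 := hm.star
    intro j
    fin_cases j
    · exact hP
    · exact (differentiableAt_const τ).sub (hms.mul hP)
    · exact hm
    · exact differentiableAt_const (1 : ℂ)
  have hwd : ∀ i, DifferentiableAt ℝ (fun s => w s i) 0 := by
    intro i
    have h2 : (fun s => w s i) = fun s : ℝ => ∑ j, (kᴴ * k') i j *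
        XX (D.P k' ![m + s, τ]) (m + s) τ j := by
      funext s
      rw [hw, vx_def, Matrix.mulVec_mulVec]
      rfl
    rw [h2]
    exact DifferentiableAt.fun_sum fun j _ => (hX j).const_mul _
  refine ⟨y, fun s => w s 3, hyU, hc, he, hwd 3, fun i => ?_⟩
  fin_cases i
  · have h2 : (fun s => y s 0) = fun s => w s 2 / w s 3 := funext h0
    show DifferentiableAt ℝ (fun s => y s 0) 0
    rw [h2]
    exact (hwd 2).div (hwd 3) (hc 0)
  · have h2 : (fun s => y s 1) = fun s => (w s 1 + star (w s 2 / w s 3) * w s 0) / w s 3 :=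
      funext h1
    show DifferentiableAt ℝ (fun s => y s 1) 0
    rw [h2]
    exact ((hwd 1).add ((((hwd 2).div (hwd 3) (hc 0)).star).mul (hwd 0))).div (hwd 3) (hc 0)

/-- module N2: the surface is spacelike -/
theorem spacelike {k : M4} (hk : k ∈ D.FF) {x : C2} (hx : x ∈ Up) :
    (pd (D.P k) 0 x + star (D.P k x) * pd (D.P k) 1 x).im + (x 1).im * ‖pd (D.P k) 1 x‖ ^ 2 < 0 := by
  have hx' : 0 < (x 1).im := hx
  obtain ⟨-, hb1, hb2⟩ := N2_ba hD hk
  have h1 := hb1 x hx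
  have h0 := hb2 x hx
  have hPd := N2_diff hD hk hx
  have hge : ∀ y : C2, 0 < (y 1).im →
      4 * (x 1).im * (y 1).im ≤ ‖fc (XX (D.P k x) (x 0) (x 1)) (XX (D.P k y) (y 0) (y 1))‖ ^ 2 := by
    intro y hy
    rw [← hk.1.2]
    by_cases h : x = y
    · rw [← h]
      have h2 := hf_vx hD hk x
      rw [vx_def] at h2
      rw [h2, norm_mul, norm_neg, Complex.norm_real, Real.norm_of_nonneg hx'.le]
      norm_num
      nlinarith
    · exact (sep_gt hD hk hx hy h).le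
  have hle := N2_quad hx' hPd h0 h1 hge
  refine lt_of_le_of_ne hle fun heq => ?_
  obtain ⟨a, ha⟩ : ∃ a, a = D.P k x := ⟨_, rfl⟩
  obtain ⟨a0, ha0⟩ : ∃ a0, a0 = pd (D.P k) 0 x := ⟨_, rfl⟩
  obtain ⟨a1, ha1⟩ : ∃ a1, a1 = pd (D.P k) 1 x := ⟨_, rfl⟩
  rw [← ha, ← ha0, ← ha1] at heq
  rw [← ha, ← ha1] at h0
  obtain ⟨T, hTdef⟩ : ∃ T : ℂ, T = x 1 - star (x 1) := ⟨_, rfl⟩
  have hT2 : T = 2 * Complex.I * (x 1).im := by
    rw [hTdef]
    apply Complex.ext <;> simp
    ring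
  have hTs : star T = -T := by
    rw [hTdef, star_sub, star_star]
    ring
  obtain ⟨u, hu⟩ : ∃ u, u = star a + T * star a1 := ⟨_, rfl⟩
  have hI : a0 + star a * a1 - star (a0 + star a * a1) + T * a1 * star a1 = 0 := by
    have e1 : a0 + star a * a1 - star (a0 + star a * a1) =
        2 * Complex.I * ((a0 + star a * a1).im : ℂ) := by
      apply Complex.ext <;> simp
      ring
    have e2 : a1 * star a1 = ((‖a1‖ ^ 2 : ℝ) : ℂ) := by
      have := Complex.mul_conj a1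
      rw [Complex.normSq_eq_norm_sq] at this
      exact this
    have e3 : (((a0 + star a * a1).im + (x 1).im * ‖a1‖ ^ 2 : ℝ) : ℂ) = 0 := by
      rw [heq, Complex.ofReal_zero]
    push_cast at e3
    rw [e1, hT2, mul_assoc (2 * Complex.I * ((x 1).im : ℂ)), e2]
    push_cast
    linear_combination 2 * Complex.I * e3
  obtain ⟨A1, A2, A3, A4⟩ := N2_alg (μ := x 0) hTdef.symm hTs hu hI
  obtain ⟨ξ, hξ⟩ : ∃ ξ, ξ = N2_xi a a0 a1 (x 0) (x 1) u := ⟨_, rfl⟩
  rw [← hξ] at A1 A2 A3 A4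
  have hz0 : k *ᵥ ξ ≠ 0 := by
    intro h
    exact A4 (kk_inj hk.1 (by rw [h, Matrix.mulVec_zero]))
  have hzz : hf (k *ᵥ ξ) (k *ᵥ ξ) = 0 := by rw [hk.1.2, A3]
  have hxz : hf (D.vx k x) (k *ᵥ ξ) = 0 := by rw [vx_def, hk.1.2, ← ha, A1]
  by_cases hzL : k *ᵥ ξ ∈ D.Lam
  · obtain ⟨θ, hθ, c, hc, e⟩ := hzL
    rw [e, hf_smul_right] at hxz
    rcases mul_eq_zero.mp hxz with h | h
    · exact star_ne_zero.mpr hc h
    · exact vx_tv hD hk hx hθ h
  · obtain ⟨k', hk', m, c, hc, e⟩ := D.exists_chart_null hz0 hzz hzL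
    have hx0 : hf (D.vx k x) (k' *ᵥ yy m) = 0 := by rw [e, hf_smul_right, hxz, mul_zero]
    obtain ⟨τ, hτ, l, hl, ea⟩ := E_sub hD hk hk' m hx hx0
    obtain ⟨y, C, hyU, hC0, hy, hCd, hyd⟩ := N2_line hD hk hk' m τ hτ
    have hyx : y 0 = x := by
      have e1 := hy 0
      have e2 : (![m + ((0 : ℝ) : ℂ), τ] : C2) = ![m, τ] := by
        rw [Complex.ofReal_zero, add_zero]
      rw [e2] at e1
      rw [e1, smul_smul] at ea
      exact (vx_smul D hk.1 ea).2.symm
    obtain ⟨v, hv⟩ : ∃ v : C2, ∀ i, v i = deriv (fun s => y s i) 0 := ⟨fun i => _, fun _ => rfl⟩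
    have hcur := N2_curve (P := D.P k) (y := y) (v := v) ξ (by rw [hyx]; exact hPd)
      fun i => by rw [hv]; exact (hyd i).hasDerivAt
    rw [hyx] at hcur
    have hfd : fderiv ℝ (D.P k) x v = a0 * v 0 + a1 * (v 1 - a * star (v 0)) := by
      rw [N2_fderiv, h1, ← ha0, ← ha1]
      linear_combination star (v 0) * h0
    have hz := A2 (v 0) (v 1) _ hfd
    rw [← ha, hz, mul_zero] at hcur
    -- the equation
    have heqn : ∀ s : ℝ, C s * fc (XX (D.P k (y s)) (y s 0) (y s 1)) ξ =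
        (-Complex.I * star c⁻¹) * (s : ℂ) := by
      intro s
      have e1 : fc (XX (D.P k (y s)) (y s 0) (y s 1)) ξ = hf (D.vx k (y s)) (k *ᵥ ξ) := by
        rw [vx_def, hk.1.2]
      have e2 : k *ᵥ ξ = c⁻¹ • (k' *ᵥ yy m) := by
        rw [e, smul_smul, inv_mul_cancel₀ hc, one_smul]
      rw [e1, ← hf_smul_left, ← hy s, e2, hf_smul_right, vx_def, hk'.1.2, fc_yy]
      have e3 : (![m + (s : ℂ), τ] : C2) 0 = m + s := rfl
      rw [e3]
      ring
    have hg0 : fc (XX (D.P k (y 0)) (y 0 0) (y 0 1)) ξ = 0 := by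
      have := heqn 0
      rw [Complex.ofReal_zero, mul_zero] at this
      exact (mul_eq_zero.mp this).resolve_left (hC0 0)
    have hd1 := hCd.hasDerivAt.mul hcur
    rw [hg0, mul_zero, mul_zero, add_zero] at hd1
    have hd2 : HasDerivAt (fun s : ℝ => (-Complex.I * star c⁻¹) * (s : ℂ))
        (-Complex.I * star c⁻¹ * 1) 0 :=
      (Complex.ofRealCLM.hasDerivAt (x := (0 : ℝ))).const_mul _
    have hd3 : HasDerivAt (fun s : ℝ => (-Complex.I * star c⁻¹) * (s : ℂ)) 0 0 := by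
      refine hd1.congr_of_eventuallyEq (Eventually.of_forall fun s => ?_)
      exact (heqn s).symm
    have hfin := hd2.unique hd3
    rw [mul_one] at hfin
    rcases mul_eq_zero.mp hfin with h | h
    · exact Complex.I_ne_zero (neg_eq_zero.mp h)
    · exact (star_ne_zero.mpr (inv_ne_zero hc)) h

end Kd

end Pool.Agent.MPd01a95.KT
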