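import Mathlib
import Pool.Agent.Lib.MP_d01a95_gt_K.KDefs2
import Pool.Agent.Lib.MP_d01a95_gt_K.KA1
import Pool.Agent.Lib.MP_d01a95_gt_K.KA2
import Pool.Agent.Lib.MP_d01a95_gt_K.KA4
import Pool.Agent.Lib.MP_d01a95_gt_K.KF0
import Pool.Agent.Lib.MP_d01a95_gt_K.KF6
import Pool.Agent.Lib.MP_d01a95_gt_K.KH1
import Pool.Agent.Lib.MP_d01a95_gt_K.KH2
import Pool.Agent.Lib.MP_d01a95_gt_K.KH3
import Pool.Agent.Lib.MP_d01a95_gt_K.KH4
import Pool.Agent.Lib.MP_d01a95_gt_K.KA3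
import Pool.Agent.Lib.MP_d01a95_gt_K.KA5
import Pool.Agent.Lib.MP_d01a95_gt_K.KJ1
import Pool.Agent.Lib.MP_d01a95_gt_K.KJ4
import Pool.Agent.Lib.MP_d01a95_gt_K.KK3
import Pool.Agent.Lib.MP_d01a95_gt_K.KK7
import Pool.Agent.Lib.MP_d01a95_gt_K.KL1
import Pool.Agent.Lib.MP_d01a95_gt_K.KL2
import Pool.Agent.Lib.MP_d01a95_gt_K.KL3
import Pool.Agent.Lib.MP_d01a95_gt_K.KL4
import Pool.Agent.Lib.MP_d01a95_gt_K.KL5
import Pool.Agent.Lib.MP_d01a95_gt_K.KM1
import Pool.Agent.Lib.MP_d01a95_gt_K.KM2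
import Pool.Agent.Lib.MP_d01a95_gt_K.KM3
import Pool.Agent.Lib.MP_d01a95_gt_K.KM4
import Pool.Agent.Lib.MP_d01a95_gt_K.KM5
import Pool.Agent.Lib.MP_d01a95_gt_K.KN1a

set_option autoImplicit false
set_option linter.all false

open Matrix Filter Topology MeasureTheory
open scoped ContDiff

namespace Pool.Agent.MPd01a95.KT

open GU NA

variable {G : Type} [Group G]

namespace Kd

variable {D : Kd G} (hD : Good D)

/-- coordinates of a vector -/
noncomputable def N3_cor (v : V4) : C2 := ![v 2 / v 3, (v 1 + star (v 2 / v 3) * v 0) / v 3]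

omit hD in
theorem N3_cor_smul {l : ℂ} (hl : l ≠ 0) (a : ℂ) (x : C2) :
    N3_cor (l • XX a (x 0) (x 1)) = x := by
  have e0 : (l • XX a (x 0) (x 1)) 0 = l * a := rfl
  have e1 : (l • XX a (x 0) (x 1)) 1 = l * (x 1 - star (x 0) * a) := rfl
  have e2 : (l • XX a (x 0) (x 1)) 2 = l * x 0 := rfl
  have e3 : (l • XX a (x 0) (x 1)) 3 = l * 1 := rfl
  unfold N3_cor
  rw [e0, e1, e2, e3, mul_one, mul_div_cancel_left₀ _ hl]
  funext i
  fin_cases i
  · rfl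
  · show (l * (x 1 - star (x 0) * a) + star (x 0) * (l * a)) / l = x 1
    field_simp
    ring

include hD

/-- the surface is invariant -/
theorem N3_inv {k : M4} (hk : k ∈ D.FF) (g : G) {x : C2} (hx : x ∈ Up) :
    ∃ y ∈ Up, ∃ l : ℂ, l ≠ 0 ∧ D.R g *ᵥ D.vx k x = l • D.vx k y := by
  obtain ⟨k', hk', T, hT⟩ := D.exists_tr g hk
  have h1 : D.vx k x ∈ D.VV k := ⟨x, hx, 1, one_ne_zero, by rw [one_smul]⟩
  rw [VV_eq hD hk hk'] at h1
  obtain ⟨x', hx', l, hl, e⟩ := h1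
  obtain ⟨h2, h3, h4⟩ := vx_act hD hk hk' hT x' (up_sub hx')
  refine ⟨_, h3 hx', l * T.d3, mul_ne_zero hl T.h3, ?_⟩
  rw [e, Matrix.mulVec_smul, h4, smul_smul]

/-- module N3: the action in the chart of `k` -/
theorem exists_al {k : M4} (hk : k ∈ D.FF) : ∃ al : G → C2 → C2,
    (∀ g, ∀ x ∈ Up, al g x ∈ Up) ∧ (∀ x ∈ Up, al 1 x = x) ∧
    (∀ g g', ∀ x ∈ Up, al (g * g') x = al g (al g' x)) ∧
    (∀ g, ∀ x ∈ Up, ∃ l : ℂ, l ≠ 0 ∧ D.vx k (al g x) = l • (D.R g *ᵥ D.vx k x)) ∧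
    (∀ g, ContinuousOn (al g) Up) := by
  obtain ⟨w, hw⟩ : ∃ w : G → C2 → V4, ∀ g x, w g x = kᴴ *ᵥ (D.R g *ᵥ D.vx k x) :=
    ⟨_, fun _ _ => rfl⟩
  have hkey : ∀ g, ∀ x ∈ Up, ∀ y : C2, ∀ l : ℂ, l ≠ 0 → D.R g *ᵥ D.vx k x = l • D.vx k y →
      N3_cor (w g x) = y ∧ w g x 3 = l := by
    intro g x _ y l hl e
    have h2 : w g x = l • XX (D.P k y) (y 0) (y 1) := by
      rw [hw, e, Matrix.mulVec_smul, vx_def, kk_inv' hk.1]
    rw [h2]
    refine ⟨N3_cor_smul hl _ _, ?_⟩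
    show l * 1 = l
    rw [mul_one]
  have hlift : ∀ g, ∀ x ∈ Up, N3_cor (w g x) ∈ Up ∧ w g x 3 ≠ 0 ∧
      D.R g *ᵥ D.vx k x = w g x 3 • D.vx k (N3_cor (w g x)) := by
    intro g x hx
    obtain ⟨y, hy, l, hl, e⟩ := N3_inv hD hk g hx
    obtain ⟨h1, h2⟩ := hkey g x hx y l hl e
    rw [h1, h2]
    exact ⟨hy, hl, e⟩
  refine ⟨fun g x => N3_cor (w g x), fun g x hx => (hlift g x hx).1, ?_, ?_, ?_, ?_⟩
  · intro x hx
    exact (hkey 1 x hx x 1 one_ne_zero (by rw [D.one, Matrix.one_mulVec, one_smul])).1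
  · intro g g' x hx
    obtain ⟨h1, h2, h3⟩ := hlift g' x hx
    obtain ⟨h4, h5, h6⟩ := hlift g _ h1
    obtain ⟨u, hu, hm⟩ := D.mul g g'
    have hu0 : u ≠ 0 := by
      intro h
      rw [h, norm_zero] at hu
      exact zero_ne_one hu
    refine (hkey (g * g') x hx _ (u * (w g' x 3 * w g (N3_cor (w g' x)) 3))
      (mul_ne_zero hu0 (mul_ne_zero h2 h5)) ?_).1
    rw [hm, Matrix.smul_mulVec, ← Matrix.mulVec_mulVec, h3, Matrix.mulVec_smul, h6, smul_smul,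
      smul_smul, mul_assoc]
  · intro g x hx
    obtain ⟨h1, h2, h3⟩ := hlift g x hx
    refine ⟨(w g x 3)⁻¹, inv_ne_zero h2, ?_⟩
    rw [h3, smul_smul, inv_mul_cancel₀ h2, one_smul]
  · intro g
    have h1 : ContinuousOn (fun x => w g x) Up := by
      have h2 := (D.vx_cont hk).mono up_sub
      have h3 : Continuous fun v : V4 => kᴴ *ᵥ (D.R g *ᵥ v) :=
        Continuous.matrix_mulVec continuous_const
          (Continuous.matrix_mulVec continuous_const continuous_id)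
      have h4 := h3.comp_continuousOn h2
      exact h4.congr fun x _ => hw g x
    have h5 : ∀ i, ContinuousOn (fun x => w g x i) Up := fun i => by
      have h6 := (continuous_apply (A := fun _ : Fin 4 => ℂ) i).comp_continuousOn h1
      exact h6
    have h7 : ContinuousOn (fun x => w g x 2 / w g x 3) Up :=
      (h5 2).div (h5 3) fun x hx => (hlift g x hx).2.1
    have h8 : ContinuousOn (fun x => (w g x 1 + star (w g x 2 / w g x 3) * w g x 0) / w g x 3) Up :=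
      ((h5 1).add ((continuous_star.comp_continuousOn h7).mul (h5 0))).div (h5 3)
        fun x hx => (hlift g x hx).2.1
    refine continuousOn_pi.mpr fun i => ?_
    fin_cases i
    · exact h7
    · exact h8

end Kd

end Pool.Agent.MPd01a95.KT
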