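import Mathlib
import Pool.Agent.Lib.MP_d01a95_gt_K.KDefs2
import Pool.Agent.Lib.MP_d01a95_gt_K.KA1
import Pool.Agent.Lib.MP_d01a95_gt_K.KA2
import Pool.Agent.Lib.MP_d01a95_gt_K.KA4
import Pool.Agent.Lib.MP_d01a95_gt_K.KF0
import Pool.Agent.Lib.MP_d01a95_gt_K.KF6
import Pool.Agent.Lib.MP_d01a95_gt_K.KH1
import Pool.Agent.Lib.MP_d01a95_gt_K.KH2
import Pool.Agent.Lib.MP_d01a95_gt_K.KH3
import Pool.Agent.Lib.MP_d01a95_gt_K.KH4
import Pool.Agent.Lib.MP_d01a95_gt_K.KA3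
import Pool.Agent.Lib.MP_d01a95_gt_K.KA5
import Pool.Agent.Lib.MP_d01a95_gt_K.KJ1
import Pool.Agent.Lib.MP_d01a95_gt_K.KJ4
import Pool.Agent.Lib.MP_d01a95_gt_K.KK3
import Pool.Agent.Lib.MP_d01a95_gt_K.KK7
import Pool.Agent.Lib.MP_d01a95_gt_K.KL1
import Pool.Agent.Lib.MP_d01a95_gt_K.KL2
import Pool.Agent.Lib.MP_d01a95_gt_K.KL3
import Pool.Agent.Lib.MP_d01a95_gt_K.KL4
import Pool.Agent.Lib.MP_d01a95_gt_K.KL5
import Pool.Agent.Lib.MP_d01a95_gt_K.KM1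
import Pool.Agent.Lib.MP_d01a95_gt_K.KM2
import Pool.Agent.Lib.MP_d01a95_gt_K.KM3
import Pool.Agent.Lib.MP_d01a95_gt_K.KM4
import Pool.Agent.Lib.MP_d01a95_gt_K.KM5
import Pool.Agent.Lib.MP_d01a95_gt_K.KN1
import Pool.Agent.Lib.MP_d01a95_gt_K.KN3
import Pool.Agent.Lib.MP_d01a95_gt_K.KN1a

set_option autoImplicit false
set_option linter.all false

open Matrix Filter Topology MeasureTheory
open scoped ContDiff

namespace Pool.Agent.MPd01a95.KT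

open GU

variable {G : Type} [Group G]

namespace Kd

variable {D : Kd G} (hD : Good D)

/-- the coordinates of a vector in the chart of the frame `k` -/
noncomputable def N4c (k : M4) (v : V4) : C2 :=
  ![(kᴴ *ᵥ v) 2 / (kᴴ *ᵥ v) 3,
    ((kᴴ *ᵥ v) 1 + star ((kᴴ *ᵥ v) 2 / (kᴴ *ᵥ v) 3) * (kᴴ *ᵥ v) 0) / (kᴴ *ᵥ v) 3]

theorem N4c_smul {k : M4} (hk : k ∈ KK) {l : ℂ} (hl : l ≠ 0) (y : C2) :
    (kᴴ *ᵥ (l • D.vx k y)) 3 = l ∧ N4c k (l • D.vx k y) = y := by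
  have e : kᴴ *ᵥ (l • D.vx k y) = l • XX (D.P k y) (y 0) (y 1) := by
    rw [vx_def, ← Matrix.mulVec_smul, NA.kk_inv' hk]
  have e3 : (kᴴ *ᵥ (l • D.vx k y)) 3 = l := by
    rw [e]
    simp [XX]
  refine ⟨e3, ?_⟩
  have e2 : (kᴴ *ᵥ (l • D.vx k y)) 2 / (kᴴ *ᵥ (l • D.vx k y)) 3 = y 0 := by
    rw [e3, e]
    simp only [XX, Pi.smul_apply, smul_eq_mul, Matrix.cons_val]
    field_simp
  unfold N4c
  rw [e2, e3, e]
  ext i
  fin_cases i
  · rfl
  · simp only [XX, Pi.smul_apply, smul_eq_mul, Matrix.cons_val_zero, Matrix.cons_val_one]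
    show (l * (y 1 - star (y 0) * D.P k y) + star (y 0) * (l * D.P k y)) / l = y 1
    field_simp
    ring

theorem N4_inv (g : G) (w : V4) : ∃ u : ℂ, u ≠ 0 ∧ D.R g⁻¹ *ᵥ (D.R g *ᵥ w) = u • w := by
  obtain ⟨u, hu, hu2⟩ := D.mul g⁻¹ g
  rw [inv_mul_cancel, D.one] at hu2
  have hu0 : u ≠ 0 := fun h => by
    rw [h, norm_zero] at hu
    exact zero_ne_one hu
  refine ⟨u⁻¹, inv_ne_zero hu0, ?_⟩
  have h1 : D.R g⁻¹ * D.R g = u⁻¹ • (1 : M4) := by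
    rw [hu2, smul_smul, inv_mul_cancel₀ hu0, one_smul]
  rw [Matrix.mulVec_mulVec, h1, Matrix.smul_mulVec, Matrix.one_mulVec]

/-- the distance of the two boundary points of a half disc -/
noncomputable def N4q (D : Kd G) (p : M4 × C2) : ℝ :=
  kp (D.th p.1 (p.2 0) ((p.2 1).re - (p.2 1).im)) (D.th p.1 (p.2 0) ((p.2 1).re + (p.2 1).im))

theorem N4q_cont (D : Kd G) (S : Set (M4 × C2)) (hS : ∀ p ∈ S, p.1 ∈ D.FF) :
    ContinuousOn (N4q D) S := by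
  have c0 : Continuous fun p : M4 × C2 => p.2 0 := (continuous_apply 0).comp continuous_snd
  have c1 : Continuous fun p : M4 × C2 => p.2 1 := (continuous_apply 1).comp continuous_snd
  have m1 : ContinuousOn (fun p : M4 × C2 => D.th p.1 (p.2 0) ((p.2 1).re - (p.2 1).im)) S := by
    have hc : Continuous fun p : M4 × C2 =>
        ((p.1, p.2 0, (p.2 1).re - (p.2 1).im) : M4 × ℂ × ℝ) :=
      continuous_fst.prodMk (c0.prodMk ((Complex.continuous_re.comp c1).sub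
        (Complex.continuous_im.comp c1)))
    have h := D.th_cont.comp hc.continuousOn fun p hp => Set.mk_mem_prod (hS p hp) (Set.mem_univ _)
    exact h
  have m2 : ContinuousOn (fun p : M4 × C2 => D.th p.1 (p.2 0) ((p.2 1).re + (p.2 1).im)) S := by
    have hc : Continuous fun p : M4 × C2 =>
        ((p.1, p.2 0, (p.2 1).re + (p.2 1).im) : M4 × ℂ × ℝ) :=
      continuous_fst.prodMk (c0.prodMk ((Complex.continuous_re.comp c1).add
        (Complex.continuous_im.comp c1)))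
    have h := D.th_cont.comp hc.continuousOn fun p hp => Set.mk_mem_prod (hS p hp) (Set.mem_univ _)
    exact h
  have h3 := kp_cont.comp_continuousOn (m1.prodMk m2)
  exact h3

include hD

section al

variable {k : M4} (hk : k ∈ D.FF) {al : G → C2 → C2} (hm : ∀ g, ∀ x ∈ Up, al g x ∈ Up)
  (hl : ∀ g, ∀ x ∈ Up, ∃ l : ℂ, l ≠ 0 ∧ D.vx k (al g x) = l • (D.R g *ᵥ D.vx k x))

include hk hm hl

/-- module N4: properness -/
theorem al_proper (K : Set C2) (hK : K ⊆ Up) (hKc : IsCompact K) :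
    {g : G | ∃ x ∈ K, al g x ∈ K}.Finite := by
  by_contra hinf
  have h1 : ∀ n : ℕ, ∃ g : G, (∃ x ∈ K, al g x ∈ K) ∧ (n : ℝ) ≤ c (D.σ g) := by
    intro n
    by_contra hno
    push Not at hno
    exact hinf ((D.lat.finite_c n).subset fun g hg => (hno g hg).le)
  choose g hx hc using h1
  choose x hxK hyK using hx
  have hcinf : Tendsto (fun n => c (D.σ (g n))) atTop atTop :=
    tendsto_atTop_mono hc tendsto_natCast_atTop_atTop
  have hCb : IsCompact Cb := isCompact_closedBall 0 1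
  have hKK : IsCompact ((K ×ˢ K) ×ˢ (Cb ×ˢ Cb)) := (hKc.prod hKc).prod (hCb.prod hCb)
  obtain ⟨⟨⟨x0, y0⟩, θ1, θ2⟩, ⟨⟨hx0, hy0⟩, hθ1, hθ2⟩, φ, hφ, hlim⟩ := hKK.tendsto_subseq
    (x := fun n => ((x n, al (g n) (x n)), zz (D.σ (g n)), zz (D.σ (g n))⁻¹)) fun n =>
      ⟨⟨hxK n, hyK n⟩, zz_mem _, zz_mem _⟩
  rw [nhds_prod_eq, nhds_prod_eq, nhds_prod_eq] at hlim
  have l1 : Tendsto (fun n => x (φ n)) atTop (𝓝 x0) := tendsto_fst.comp (tendsto_fst.comp hlim)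
  have l2 : Tendsto (fun n => al (g (φ n)) (x (φ n))) atTop (𝓝 y0) :=
    tendsto_snd.comp (tendsto_fst.comp hlim)
  have l3 : Tendsto (fun n => zz (D.σ (g (φ n)))) atTop (𝓝 θ1) :=
    tendsto_fst.comp (tendsto_snd.comp hlim)
  have l4 : Tendsto (fun n => zz (D.σ (g (φ n)))⁻¹) atTop (𝓝 θ2) :=
    tendsto_snd.comp (tendsto_snd.comp hlim)
  have hcφ : Tendsto (fun n => c (D.σ (g (φ n)))) atTop atTop := hcinf.comp hφ.tendsto_atTop
  have sθ1 : θ1 ∈ Sph := kl5_norm_tendsto hcφ l3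
  have sθ2 : θ2 ∈ Sph := by
    refine kl5_norm_tendsto (g := fun n => (D.σ (g (φ n)))⁻¹) ?_ l4
    simpa only [c_inv] using hcφ
  have hvc := D.vx_cont hk
  have hv : Tendsto (fun n => D.vx k (x (φ n))) atTop (𝓝 (D.vx k x0)) :=
    (hvc x0 (up_sub (hK hx0))).tendsto.comp (tendsto_nhdsWithin_iff.mpr ⟨l1,
      Eventually.of_forall fun n => up_sub (hK (hxK (φ n)))⟩)
  have hw : Tendsto (fun n => D.vx k (al (g (φ n)) (x (φ n)))) atTop (𝓝 (D.vx k y0)) :=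
    (hvc y0 (up_sub (hK hy0))).tendsto.comp (tendsto_nhdsWithin_iff.mpr ⟨l2,
      Eventually.of_forall fun n => up_sub (hK (hyK (φ n)))⟩)
  obtain ⟨-, hdyn⟩ := D.dyn sθ1 sθ2 hcφ l3 l4 hv (vx_tv hD hk (hK hx0) sθ2)
  have hy0n : D.vx k y0 ≠ 0 := D.vx_ne k hk.1 y0
  have hfin : ∀ n, wd (D.vx k (al (g (φ n)) (x (φ n)))) (D.xi θ1) /
      ‖D.vx k (al (g (φ n)) (x (φ n)))‖ = wd (D.R (g (φ n)) *ᵥ D.vx k (x (φ n))) (D.xi θ1) /
        ‖D.R (g (φ n)) *ᵥ D.vx k (x (φ n))‖ := fun n => by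
    obtain ⟨l, hl0, hle⟩ := hl (g (φ n)) (x (φ n)) (hK (hxK (φ n)))
    rw [hle, F0.wd_smul, norm_smul, mul_div_mul_left _ _ (norm_ne_zero_iff.mpr hl0)]
  have hlimw : Tendsto (fun n => wd (D.vx k (al (g (φ n)) (x (φ n)))) (D.xi θ1) /
      ‖D.vx k (al (g (φ n)) (x (φ n)))‖) atTop (𝓝 (wd (D.vx k y0) (D.xi θ1) / ‖D.vx k y0‖)) := by
    refine Tendsto.div ?_ hw.norm (norm_ne_zero_iff.mpr hy0n)
    have hcw : Continuous fun v : V4 => wd v (D.xi θ1) := by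
      unfold wd
      refine Continuous.norm (continuous_pi fun i => continuous_pi fun j => ?_)
      exact ((continuous_apply i).mul continuous_const).sub
        ((continuous_apply j).mul continuous_const)
    exact (hcw.tendsto _).comp hw
  simp only [hfin] at hlimw
  have h0 := tendsto_nhds_unique hlimw hdyn
  have h0' : wd (D.vx k y0) (D.xi θ1) = 0 := by
    rcases div_eq_zero_iff.mp h0 with h | h
    · exact h
    · exact absurd h (norm_ne_zero_iff.mpr hy0n)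
  obtain ⟨l, -, hl2⟩ := F0.wd_decomp (D.vx k y0) (D.xi θ1) (D.xnorm θ1 sθ1)
  rw [h0'] at hl2
  have hl3 : D.vx k y0 = l • D.xi θ1 := sub_eq_zero.mp (norm_le_zero_iff.mp hl2)
  have h4 := hf_vx hD hk y0
  rw [hl3, F0.hf_smul_left, F0.hf_smul_right, D.xnull θ1 sθ1, mul_zero, mul_zero] at h4
  have h5 : 0 < (y0 1).im := hK hy0
  have h6 : (-2 * ((y0 1).im : ℂ)) ≠ 0 :=
    mul_ne_zero (by norm_num) (Complex.ofReal_ne_zero.mpr h5.ne')
  exact h6 h4.symm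

/-- module N4: cocompactness -/
theorem al_coc : ∃ K ⊆ Up, IsCompact K ∧ ∀ x ∈ Up, ∃ g, al g x ∈ K := by
  obtain ⟨a, r, ha, hr, hren⟩ := kl5_ren D
  set E : Set (M4 × C2) := D.FF ×ˢ (Upc ∩ Metric.closedBall (0 : C2) r) with hE
  have hEc : IsCompact E := D.ff_compact.prod ((isCompact_closedBall 0 r).inter_left kl5_upc_closed)
  have hqc : ContinuousOn (N4q D) E := N4q_cont D E fun p hp => hp.1
  have hSc : IsCompact (E ∩ N4q D ⁻¹' Set.Ici a) :=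
    hEc.of_isClosed_subset (hqc.preimage_isClosed_of_isClosed hEc.isClosed isClosed_Ici)
      Set.inter_subset_left
  have hSUp : ∀ p ∈ E ∩ N4q D ⁻¹' Set.Ici a, p.2 ∈ Up := by
    rintro ⟨k', x'⟩ ⟨⟨hk', hx', -⟩, hp⟩
    rcases (show (0 : ℝ) ≤ (x' 1).im from hx').eq_or_lt with h0 | h0
    · exfalso
      have hp' : a ≤ kp (D.th k' (x' 0) ((x' 1).re - (x' 1).im))
        (D.th k' (x' 0) ((x' 1).re + (x' 1).im)) := hp
      rw [← h0, sub_zero, add_zero, kp_self (D.A_spec hk' _ _).1] at hp'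
      linarith
    · exact h0
  have hrep : ∀ p ∈ E ∩ N4q D ⁻¹' Set.Ici a, ∃ y ∈ Up, ∃ l : ℂ, l ≠ 0 ∧
      D.vx p.1 p.2 = l • D.vx k y := by
    intro p hp
    have h1 : D.vx p.1 p.2 ∈ D.VV p.1 := ⟨p.2, hSUp p hp, 1, one_ne_zero, (one_smul _ _).symm⟩
    rw [VV_eq hD hp.1.1 hk] at h1
    obtain ⟨y, hy, l, hl0, e⟩ := h1
    exact ⟨y, hy, l, hl0, e⟩
  have hΦ : ContinuousOn (fun p : M4 × C2 => N4c k (D.vx p.1 p.2)) (E ∩ N4q D ⁻¹' Set.Ici a) := by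
    have hvc : ContinuousOn (fun p : M4 × C2 => D.vx p.1 p.2) (E ∩ N4q D ⁻¹' Set.Ici a) :=
      (kl5_vx_cont D).mono fun p hp => ⟨hp.1.1, hp.1.2.1⟩
    have hz : ContinuousOn (fun p : M4 × C2 => kᴴ *ᵥ D.vx p.1 p.2) (E ∩ N4q D ⁻¹' Set.Ici a) :=
      (Continuous.matrix_mulVec continuous_const continuous_id).comp_continuousOn hvc
    have hz' : ∀ j, ContinuousOn (fun p : M4 × C2 => (kᴴ *ᵥ D.vx p.1 p.2) j)
        (E ∩ N4q D ⁻¹' Set.Ici a) := fun j => (continuous_apply j).comp_continuousOn hz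
    have hne : ∀ p ∈ E ∩ N4q D ⁻¹' Set.Ici a, (kᴴ *ᵥ D.vx p.1 p.2) 3 ≠ 0 := by
      intro p hp
      obtain ⟨y, -, l, hl0, e⟩ := hrep p hp
      rw [e, (N4c_smul hk.1 hl0 y).1]
      exact hl0
    have hm2 := (hz' 2).div (hz' 3) hne
    refine continuousOn_pi.mpr fun i => ?_
    fin_cases i
    · exact hm2
    · exact ((hz' 1).add ((continuous_star.comp_continuousOn hm2).mul (hz' 0))).div (hz' 3) hne
  refine ⟨(fun p : M4 × C2 => N4c k (D.vx p.1 p.2)) '' (E ∩ N4q D ⁻¹' Set.Ici a), ?_,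
    hSc.image_of_continuousOn hΦ, ?_⟩
  · rintro _ ⟨p, hp, rfl⟩
    obtain ⟨y, hy, l, hl0, e⟩ := hrep p hp
    show N4c k (D.vx p.1 p.2) ∈ Up
    rw [e, (N4c_smul hk.1 hl0 y).2]
    exact hy
  · intro x hx
    obtain ⟨g, k', hk', T, x', hx', hrel, hmx, htx, b0, b1, hsep, -⟩ := hren k hk x hx
    have hp : (k', x') ∈ E ∩ N4q D ⁻¹' Set.Ici a := by
      refine ⟨⟨hk', up_sub hx', ?_⟩, hsep⟩
      rw [mem_closedBall_zero_iff]
      exact kl5_norm_le b0 b1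
    obtain ⟨y, hy, l, hl0, e⟩ := hrep _ hp
    refine ⟨g⁻¹, (k', x'), hp, ?_⟩
    show N4c k (D.vx k' x') = al g⁻¹ x
    have e' : D.vx k' x' = l • D.vx k y := e
    rw [e', (N4c_smul hk.1 hl0 y).2]
    obtain ⟨-, -, e1⟩ := vx_act hD hk hk' hrel x' (up_sub hx')
    have e2 : (![T.m (x' 0), T.t (x' 0) (x' 1)] : C2) = x := by
      rw [hmx, htx]
      ext i
      fin_cases i <;> rfl
    rw [e2] at e1
    obtain ⟨u, hu0, e3⟩ := N4_inv (D := D) g (D.vx k' x')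
    rw [e1, Matrix.mulVec_smul, e'] at e3
    obtain ⟨l1, hl1, e4⟩ := hl g⁻¹ x hx
    have e5 : D.R g⁻¹ *ᵥ D.vx k x = (T.d3⁻¹ * (u * l)) • D.vx k y := by
      rw [← smul_smul, ← smul_smul, ← e3, smul_smul, inv_mul_cancel₀ T.h3, one_smul]
    rw [e5, smul_smul] at e4
    exact (D.vx_smul hk.1 e4).2.symm

end al

end Kd

end Pool.Agent.MPd01a95.KT
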