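import Mathlib
import Pool.Agent.Lib.MP_d01a95_gt_K.KDefs2
import Pool.Agent.Lib.MP_d01a95_gt_K.KA1
import Pool.Agent.Lib.MP_d01a95_gt_K.KA2
import Pool.Agent.Lib.MP_d01a95_gt_K.KA4
import Pool.Agent.Lib.MP_d01a95_gt_K.KF0
import Pool.Agent.Lib.MP_d01a95_gt_K.KF6
import Pool.Agent.Lib.MP_d01a95_gt_K.KH1
import Pool.Agent.Lib.MP_d01a95_gt_K.KH2
import Pool.Agent.Lib.MP_d01a95_gt_K.KH3
import Pool.Agent.Lib.MP_d01a95_gt_K.KH4
import Pool.Agent.Lib.MP_d01a95_gt_K.KA3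
import Pool.Agent.Lib.MP_d01a95_gt_K.KA5
import Pool.Agent.Lib.MP_d01a95_gt_K.KJ1
import Pool.Agent.Lib.MP_d01a95_gt_K.KJ4
import Pool.Agent.Lib.MP_d01a95_gt_K.KK3
import Pool.Agent.Lib.MP_d01a95_gt_K.KK7
import Pool.Agent.Lib.MP_d01a95_gt_K.KL1
import Pool.Agent.Lib.MP_d01a95_gt_K.KL2
import Pool.Agent.Lib.MP_d01a95_gt_K.KL3
import Pool.Agent.Lib.MP_d01a95_gt_K.KL4
import Pool.Agent.Lib.MP_d01a95_gt_K.KL5
import Pool.Agent.Lib.MP_d01a95_gt_K.KM1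
import Pool.Agent.Lib.MP_d01a95_gt_K.KM2
import Pool.Agent.Lib.MP_d01a95_gt_K.KM3
import Pool.Agent.Lib.MP_d01a95_gt_K.KM4
import Pool.Agent.Lib.MP_d01a95_gt_K.KM5
import Pool.Agent.Lib.MP_d01a95_gt_K.KN1
import Pool.Agent.Lib.MP_d01a95_gt_K.KN3
import Pool.Agent.Lib.MP_d01a95_gt_K.KN4

set_option autoImplicit false
set_option linter.all false

open Matrix Filter Topology MeasureTheory
open scoped ContDiff

namespace Pool.Agent.MPd01a95.KT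

open GU

variable {G : Type} [Group G]

theorem N5_hf_cont (b : V4) : Continuous fun w : V4 => hf w b := by
  unfold hf CW.hh
  fun_prop

/-- limits of quotients of the form -/
theorem N5_lim {ξ : V4} (hξ : ‖ξ‖ = 1) {w : ℕ → V4} (h0 : ∀ᶠ n in atTop, w n ≠ 0)
    (h : Tendsto (fun n => wd (w n) ξ / ‖w n‖) atTop (𝓝 0)) (b v : V4) (hv : hf ξ v ≠ 0) :
    Tendsto (fun n => hf (w n) b / hf (w n) v) atTop (𝓝 (hf ξ b / hf ξ v)) := by
  choose l hl he using fun n => F0.wd_decomp (w n) ξ hξ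
  have h1 : ∀ᶠ n in atTop, wd (w n) ξ / ‖w n‖ < 1 / 2 := by
    have := h.eventually (gt_mem_nhds (show (0 : ℝ) < 1 / 2 by norm_num))
    exact this
  have key : ∀ᶠ n in atTop, l n ≠ 0 ∧ ‖(l n)⁻¹ • (w n - l n • ξ)‖ ≤ 2 * (wd (w n) ξ / ‖w n‖) := by
    filter_upwards [h0, h1] with n hn0 hn1
    have hw : 0 < ‖w n‖ := norm_pos_iff.mpr hn0
    have hln : ‖w n‖ / 2 ≤ ‖l n‖ := by
      have e1 : ‖w n‖ - ‖l n • ξ‖ ≤ ‖w n - l n • ξ‖ := norm_sub_norm_le _ _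
      rw [norm_smul, hξ, mul_one] at e1
      rw [div_lt_iff₀ hw] at hn1
      have := he n
      linarith
    have hlp : 0 < ‖l n‖ := by linarith
    refine ⟨norm_pos_iff.mp hlp, ?_⟩
    rw [norm_smul, norm_inv, inv_mul_le_iff₀ hlp]
    refine (he n).trans ?_
    have e2 : wd (w n) ξ = (wd (w n) ξ / ‖w n‖) * ‖w n‖ := by field_simp
    have e3 : 0 ≤ wd (w n) ξ / ‖w n‖ := div_nonneg (F0.wd_nonneg _ _) hw.le
    calc wd (w n) ξ = (wd (w n) ξ / ‖w n‖) * ‖w n‖ := e2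
      _ ≤ (wd (w n) ξ / ‖w n‖) * (2 * ‖l n‖) := mul_le_mul_of_nonneg_left (by linarith) e3
      _ = _ := by ring
  have h2 : Tendsto (fun n => (l n)⁻¹ • (w n - l n • ξ)) atTop (𝓝 0) := by
    refine squeeze_zero_norm' (key.mono fun n hn => hn.2) ?_
    simpa using h.const_mul 2
  have h3 : Tendsto (fun n => ξ + (l n)⁻¹ • (w n - l n • ξ)) atTop (𝓝 ξ) := by
    simpa using (tendsto_const_nhds (x := ξ)).add h2
  have h4 := (((N5_hf_cont b).tendsto ξ).comp h3).div (((N5_hf_cont v).tendsto ξ).comp h3) hv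
  refine h4.congr' ?_
  filter_upwards [key] with n hn
  have e : w n = l n • (ξ + (l n)⁻¹ • (w n - l n • ξ)) := by
    rw [smul_add, smul_smul, mul_inv_cancel₀ hn.1, one_smul]
    abel
  show hf (ξ + (l n)⁻¹ • (w n - l n • ξ)) b / hf (ξ + (l n)⁻¹ • (w n - l n • ξ)) v =
    hf (w n) b / hf (w n) v
  conv_rhs => rw [e, F0.hf_smul_left, F0.hf_smul_left]
  rw [mul_div_mul_left _ _ hn.1]

theorem N5_zz (g : GU (Fin 2)) : zz g = WithLp.toLp 2 (act g.M 0) := rfl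

theorem N5_toLp_cont : Continuous fun η : C2 => (WithLp.toLp 2 η : Eb) :=
  PiLp.continuous_toLp 2 _

theorem N5_sph {η : C2} (h : ∑ i, ‖η i‖ ^ 2 = 1) : (WithLp.toLp 2 η : Eb) ∈ Sph := by
  rw [Sph, mem_sphere_zero_iff_norm, EuclideanSpace.norm_eq]
  show Real.sqrt (∑ i, ‖η i‖ ^ 2) = 1
  rw [h, Real.sqrt_one]

theorem N5_c_inf {g : ℕ → GU (Fin 2)} {θ : Eb} (hθ : θ ∈ Sph)
    (h : Tendsto (fun n => zz (g n)) atTop (𝓝 θ)) : Tendsto (fun n => c (g n)) atTop atTop := by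
  have h1 : Tendsto (fun n => 1 - ‖zz (g n)‖ ^ 2) atTop (𝓝 0) := by
    have h2 : Tendsto (fun n => 1 - ‖zz (g n)‖ ^ 2) atTop (𝓝 (1 - ‖θ‖ ^ 2)) :=
      tendsto_const_nhds.sub (h.norm.pow 2)
    have h3 : ‖θ‖ = 1 := mem_sphere_zero_iff_norm.mp hθ
    rw [h3] at h2
    simpa using h2
  have h2 : ∀ n, 1 - ‖zz (g n)‖ ^ 2 = (c (g n) ^ 2)⁻¹ := fun n => by rw [zz_norm]; ring
  simp only [h2] at h1
  have hc : ∀ n, 1 ≤ c (g n) := fun n => c_ge_one _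
  rw [tendsto_atTop]
  intro M
  have hM : (0 : ℝ) < (max M 1 ^ 2)⁻¹ := by
    have : (0 : ℝ) < max M 1 := lt_of_lt_of_le one_pos (le_max_right _ _)
    positivity
  filter_upwards [h1.eventually (gt_mem_nhds hM)] with n hn
  have h3 : 0 < c (g n) ^ 2 := by have := hc n; positivity
  have h4 : max M 1 ^ 2 < c (g n) ^ 2 := by
    have h5 : (0 : ℝ) < max M 1 ^ 2 := by
      have : (0 : ℝ) < max M 1 := lt_of_lt_of_le one_pos (le_max_right _ _)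
      positivity
    exact (inv_lt_inv₀ h3 h5).mp hn
  have h6 : max M 1 < c (g n) := by
    have := hc n
    exact lt_of_pow_lt_pow_left₀ 2 (by linarith) h4
  exact (le_max_left _ _).trans h6.le

namespace Kd

variable {D : Kd G} (hD : Good D)

include hD

section al

variable {k : M4} (hk : k ∈ D.FF) {al : G → C2 → C2} (hm : ∀ g, ∀ x ∈ Up, al g x ∈ Up)
  (hl : ∀ g, ∀ x ∈ Up, ∃ l : ℂ, l ≠ 0 ∧ D.vx k (al g x) = l • (D.R g *ᵥ D.vx k x))

include hk hm hl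

/-- module N5: boundary values -/
theorem al_bd (o : C2) (ho : o ∈ Up) (b : V4) : ∃ fb : C2 → ℂ, ∀ η : C2, ∑ i, ‖η i‖ ^ 2 = 1 →
    ∀ K ⊆ Up, IsCompact K → ∀ δ > 0, ∃ N ∈ 𝓝 η, ∀ g, act (D.σ g).M 0 ∈ N → ∀ x ∈ K,
      ‖hf (D.vx k (al g x)) b / hf (D.vx k (al g x)) (D.vx k o) - fb η‖ < δ := by
  refine ⟨fun η => hf (D.xi (WithLp.toLp 2 η)) b / hf (D.xi (WithLp.toLp 2 η)) (D.vx k o), ?_⟩
  intro η hη K hK hKc δ hδ
  have hθ := N5_sph hη
  set θ : Eb := WithLp.toLp 2 η with hθdef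
  by_contra hcon
  push Not at hcon
  choose g hg x hx hδ' using fun n : ℕ =>
    hcon (Metric.ball η (1 / ((n : ℝ) + 1))) (Metric.ball_mem_nhds η (by positivity))
  have hact : Tendsto (fun n => act (D.σ (g n)).M 0) atTop (𝓝 η) := by
    rw [tendsto_iff_dist_tendsto_zero]
    refine squeeze_zero (fun n => dist_nonneg) (fun n => (Metric.mem_ball.mp (hg n)).le) ?_
    exact tendsto_one_div_add_atTop_nhds_zero_nat
  have hz : Tendsto (fun n => zz (D.σ (g n))) atTop (𝓝 θ) :=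
    (N5_toLp_cont.tendsto η).comp hact
  have hc := N5_c_inf (g := fun n => D.σ (g n)) hθ hz
  have hCb : IsCompact Cb := isCompact_closedBall 0 1
  obtain ⟨⟨θ', x0⟩, ⟨-, hx0⟩, φ, hφ, hlim⟩ := (hCb.prod hKc).tendsto_subseq
    (x := fun n => (zz (D.σ (g n))⁻¹, x n)) fun n => ⟨zz_mem _, hx n⟩
  rw [nhds_prod_eq] at hlim
  have l1 : Tendsto (fun n => zz (D.σ (g (φ n)))⁻¹) atTop (𝓝 θ') := tendsto_fst.comp hlim
  have l2 : Tendsto (fun n => x (φ n)) atTop (𝓝 x0) := tendsto_snd.comp hlim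
  have l3 := hz.comp hφ.tendsto_atTop
  have l4 : Tendsto (fun n => c (D.σ (g (φ n)))) atTop atTop := hc.comp hφ.tendsto_atTop
  have sθ' : θ' ∈ Sph := by
    refine kl5_norm_tendsto (g := fun n => (D.σ (g (φ n)))⁻¹) ?_ l1
    simpa only [c_inv] using l4
  have hx0' : x0 ∈ Up := hK hx0
  have hv : Tendsto (fun n => D.vx k (x (φ n))) atTop (𝓝 (D.vx k x0)) := by
    have hP := (kl5_vx_cont D (k, x0) ⟨hk, (le_of_lt hx0' : (0 : ℝ) ≤ (x0 1).im)⟩).tendsto.comp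
      (tendsto_nhdsWithin_iff.mpr ⟨(tendsto_const_nhds (x := k)).prodMk_nhds l2,
        Eventually.of_forall fun n =>
        ⟨hk, (le_of_lt (hK (hx (φ n))) : (0 : ℝ) ≤ (x (φ n) 1).im)⟩⟩ :
        Tendsto (fun n => ((k, x (φ n)) : M4 × C2)) atTop (𝓝[D.FF ×ˢ Upc] (k, x0)))
    exact hP
  obtain ⟨⟨a, ha, hexp⟩, hdyn⟩ := D.dyn hθ sθ' l4 l3 l1 hv (vx_tv hD hk hx0' sθ')
  have hw0 : ∀ᶠ n in atTop, D.R (g (φ n)) *ᵥ D.vx k (x (φ n)) ≠ 0 := by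
    filter_upwards [hexp] with n hn h0
    rw [h0, norm_zero] at hn
    have := D.F0_s1_pos' (g (φ n))
    have : 0 < a * s1 (D.R (g (φ n))) := by positivity
    linarith
  have hv0 : hf (D.xi θ) (D.vx k o) ≠ 0 := by
    have h := vx_tv hD hk ho hθ
    rw [F0.hf_symm]
    exact star_ne_zero.mpr h
  have hmain := N5_lim (D.xnorm θ hθ) hw0 hdyn b (D.vx k o) hv0
  have hev := (tendsto_iff_norm_sub_tendsto_zero.mp hmain).eventually (gt_mem_nhds hδ)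
  obtain ⟨n, hn⟩ := hev.exists
  have h1 := hδ' (φ n)
  obtain ⟨l, hl0, hle⟩ := hl (g (φ n)) (x (φ n)) (hK (hx (φ n)))
  rw [hle, F0.hf_smul_left, F0.hf_smul_left, mul_div_mul_left _ _ hl0] at h1
  exact absurd hn (not_lt.mpr h1)

end al

end Kd

end Pool.Agent.MPd01a95.KT
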