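import Mathlib
import Pool.Agent.Lib.MP_d01a95_gt_K.KDefs2
import Pool.Agent.Lib.MP_d01a95_gt_K.KA1
import Pool.Agent.Lib.MP_d01a95_gt_K.KA2
import Pool.Agent.Lib.MP_d01a95_gt_K.KA4
import Pool.Agent.Lib.MP_d01a95_gt_K.KF0
import Pool.Agent.Lib.MP_d01a95_gt_K.KF6
import Pool.Agent.Lib.MP_d01a95_gt_K.KH1
import Pool.Agent.Lib.MP_d01a95_gt_K.KH2
import Pool.Agent.Lib.MP_d01a95_gt_K.KH3
import Pool.Agent.Lib.MP_d01a95_gt_K.KH4
import Pool.Agent.Lib.MP_d01a95_gt_K.KA3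
import Pool.Agent.Lib.MP_d01a95_gt_K.KA5
import Pool.Agent.Lib.MP_d01a95_gt_K.KJ1
import Pool.Agent.Lib.MP_d01a95_gt_K.KJ4
import Pool.Agent.Lib.MP_d01a95_gt_K.KK3
import Pool.Agent.Lib.MP_d01a95_gt_K.KK7
import Pool.Agent.Lib.MP_d01a95_gt_K.KL1
import Pool.Agent.Lib.MP_d01a95_gt_K.KL2
import Pool.Agent.Lib.MP_d01a95_gt_K.KL3
import Pool.Agent.Lib.MP_d01a95_gt_K.KL4
import Pool.Agent.Lib.MP_d01a95_gt_K.KL5
import Pool.Agent.Lib.MP_d01a95_gt_K.KM1
import Pool.Agent.Lib.MP_d01a95_gt_K.KM2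
import Pool.Agent.Lib.MP_d01a95_gt_K.KM3
import Pool.Agent.Lib.MP_d01a95_gt_K.KM4
import Pool.Agent.Lib.MP_d01a95_gt_K.KM5
import Pool.Agent.Lib.MP_d01a95_gt_K.KN0
import Pool.Agent.Lib.MP_d01a95_gt_K.KN1
import Pool.Agent.Lib.MP_d01a95_gt_K.KN2
import Pool.Agent.Lib.MP_d01a95_gt_K.KN3
import Pool.Agent.Lib.MP_d01a95_gt_K.KN4
import Pool.Agent.Lib.MP_d01a95_gt_K.KN5
import Pool.Agent.Lib.MP_d01a95_gt_S.SDefs

set_option autoImplicit false
set_option linter.all false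

open Matrix Filter Topology MeasureTheory
open scoped ContDiff

namespace Pool.Agent.MPd01a95.KT

open GU

variable {G : Type} [Group G]

namespace Kd

variable {D : Kd G} (hD : Good D)

include hD

/-- assembly: the Burgers equation -/
theorem ba_P {k : M4} (hk : k ∈ D.FF) : BA Up (D.P k) := by
  have hA := D.ch hk
  have hc : ContinuousOn (fun p : ℂ × ℂ => PE (D.A k) p.1 p.2) {p | 0 < p.2.im} :=
    (PE_cont hA).mono fun p (hp : 0 < p.2.im) => hp.le
  have h := smooth_burgers (B := PE (D.A k)) (fun a τ₀ hτ => by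
    obtain ⟨r₁, r, h1, h2, F, h3, h4, h5⟩ := local_graph hc (PE_hol hA (hD.cz k hk))
      (fun τ hτ φ hφ hφc => weak_burgers hA (hD.wl k hk) (hD.cz k hk) τ hτ φ hφ hφc) a τ₀ hτ
    exact ⟨r₁, r, h1, h2, F, h3, h4⟩) hc
  exact ⟨h.1, h.2.1, h.2.2⟩

/-- assembly: the Kerr structure -/
theorem exists_kerr {k : M4} (hk : k ∈ D.FF) : ∃ K : Kerr D.σ,
    ∀ g, K.R g = k⁻¹ * D.R g * k := by
  obtain ⟨al, h1, h2, h3, h4', h5⟩ := exists_al hD hk
  have hcoe : ∀ v w : V4, h4 v w = fc v w := by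
    intro v w
    simp only [h4, fc]
    ring
  have hkk := hk.1
  have hk1 : k⁻¹ * k = 1 := by
    have := hkk.1
    have h2 : k⁻¹ = kᴴ := Matrix.inv_eq_left_inv this
    rw [h2]; exact this
  have hk2 : k * k⁻¹ = 1 := mul_eq_one_comm.mp hk1
  have hfc : ∀ v w : V4, fc v w = hf (k *ᵥ v) (k *ᵥ w) := fun v w => (hkk.2 v w).symm
  have hvv : ∀ x : C2, k *ᵥ vv (D.P k) x = D.vx k x := fun x => rfl
  have hR : ∀ g v, k *ᵥ ((k⁻¹ * D.R g * k) *ᵥ v) = D.R g *ᵥ (k *ᵥ v) := by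
    intro g v
    simp only [Matrix.mulVec_mulVec, ← Matrix.mul_assoc, hk2, Matrix.one_mul]
  have hh4 : ∀ v w : V4, h4 v w = hf (k *ᵥ v) (k *ᵥ w) := fun v w => (hcoe v w).trans (hfc v w)
  have hinj : ∀ v w : V4, k *ᵥ v = k *ᵥ w → v = w := by
    intro v w h
    have := congrArg (fun u => k⁻¹ *ᵥ u) h
    simpa only [Matrix.mulVec_mulVec, hk1, Matrix.one_mulVec] using this
  have hps : ∀ x ∈ Up, ∀ y ∈ Up, x ≠ y → 0 < ps (D.P k) x y := by
    intro x hx y hy hne
    have hx' : 0 < (x 1).im := hx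
    have hy' : 0 < (y 1).im := hy
    have h := sep_gt hD hk hx hy hne
    have e : ps (D.P k) x y = ‖hf (D.vx k x) (D.vx k y)‖ ^ 2 / (4 * (x 1).im * (y 1).im) - 1 := by
      rw [ps, hh4]
      rfl
    rw [e, sub_pos, lt_div_iff₀ (by positivity), one_mul]
    exact h
  have hps0 : ∀ x ∈ Up, ps (D.P k) x x = 0 := by
    intro x hx
    have hx' : 0 < (x 1).im := hx
    rw [ps, hh4]
    have e : hf (k *ᵥ vv (D.P k) x) (k *ᵥ vv (D.P k) x) = -2 * ((x 1).im : ℂ) := hf_vx hD hk x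
    rw [e, norm_mul, norm_neg, Complex.norm_real, Real.norm_of_nonneg hx'.le]
    norm_num
    field_simp
    ring
  exact ⟨{
    A := D.P k
    al := al
    R := fun g => k⁻¹ * D.R g * k
    ba := ba_P hD hk
    pos := fun x hx => spacelike hD hk hx
    maps := h1
    one := h2
    mul := h3
    lift := fun g x hx => by
      obtain ⟨l, hl, e⟩ := h4' g x hx
      refine ⟨l, hl, hinj _ _ ?_⟩
      rw [Matrix.mulVec_smul, hR]
      exact e
    pres := fun g v w => by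
      rw [hh4, hR, hR, D.pres, ← hh4]
    proper := fun K hK hKc => al_proper hD hk h1 h4' K hK hKc
    coc := al_coc hD hk h1 h4'
    nneg := fun x hx y hy => by
      by_cases h : x = y
      · subst h; exact (hps0 x hx).ge
      · exact (hps x hx y hy h).le
    sep := fun x hx y hy h => by
      by_contra hne
      exact (hps x hx y hy hne).ne' h
    psp := fun K hK hKc r => by
      obtain ⟨K', h1, h2, h3⟩ := psi_proper hD hk K hK hKc (r + 1)
      refine ⟨K', h1, h2, fun x hx y hy h => h3 x hx y hy ?_⟩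
      have hx' : 0 < (x 1).im := hK hx
      have hy' : 0 < (y 1).im := hy
      rw [ps, hh4, sub_le_iff_le_add, div_le_iff₀ (by positivity)] at h
      exact h
    lam := {b | ‖b‖ = 1 ∧ k *ᵥ b ∈ D.Lam}
    lam_cpt := lam_compact k hk
    lam_inv := fun g b hb => by
      obtain ⟨hb1, θ, hθ, l, hl, e⟩ := hb
      obtain ⟨l', hl', e'⟩ := D.xeqv g θ hθ
      have hne : (k⁻¹ * D.R g * k) *ᵥ b ≠ 0 := by
        intro h0
        have := hR g b
        rw [h0, Matrix.mulVec_zero, e, Matrix.mulVec_smul, e'] at this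
        have hx := D.xnorm (ab (D.σ g) θ) (ab_sph (D.σ g) hθ)
        have : D.xi (ab (D.σ g) θ) = 0 := by
          have h3 := this.symm
          rw [smul_eq_zero, smul_eq_zero] at h3
          rcases h3 with h | h | h
          · exact absurd h hl
          · exact absurd h hl'
          · exact h
        rw [this, norm_zero] at hx
        exact zero_ne_one hx
      have hn : (‖(k⁻¹ * D.R g * k) *ᵥ b‖ : ℂ) ≠ 0 := by
        exact_mod_cast (norm_ne_zero_iff.mpr hne)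
      refine ⟨(‖(k⁻¹ * D.R g * k) *ᵥ b‖ : ℂ)⁻¹, inv_ne_zero hn, ?_, ab (D.σ g) θ,
        ab_sph (D.σ g) hθ, (‖(k⁻¹ * D.R g * k) *ᵥ b‖ : ℂ)⁻¹ * (l * l'), ?_, ?_⟩
      · rw [norm_smul, norm_inv, Complex.norm_real, norm_norm]
        exact inv_mul_cancel₀ (norm_ne_zero_iff.mpr hne)
      · exact mul_ne_zero (inv_ne_zero hn) (mul_ne_zero hl hl')
      · rw [Matrix.mulVec_smul, hR, e, Matrix.mulVec_smul, e', smul_smul, smul_smul]
        congr 1
        ring
    lam_inf := by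
      refine ⟨1, one_ne_zero, ?_, ?_⟩
      · rw [one_smul]
        rw [Pi.norm_single, norm_one]
      · rw [one_smul]; exact hk.2
    lam_ne := fun x hx b hb => by
      obtain ⟨hb1, θ, hθ, l, hl, e⟩ := hb
      rw [hh4, e]
      have h := vx_tv hD hk hx hθ
      have e2 : ∀ (v w : V4) (l : ℂ), hf v (l • w) = star l * hf v w := by
        intro v w l
        simp only [hf, CW.hh, Pi.smul_apply, smul_eq_mul, star_mul']
        ring
      rw [e2]
      exact mul_ne_zero (star_ne_zero.mpr hl) h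
    bd := fun o ho b => by
      obtain ⟨fb, h⟩ := al_bd hD hk h1 h4' o ho (k *ᵥ b)
      refine ⟨fb, fun η hη K hK hKc δ hδ => ?_⟩
      obtain ⟨N, hN, h2⟩ := h η hη K hK hKc δ hδ
      refine ⟨N, hN, fun g hg x hx => ?_⟩
      rw [hh4, hh4]
      exact h2 g hg x hx }, fun g => rfl⟩

end Kd

end Pool.Agent.MPd01a95.KT
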