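import Mathlib
import Pool.Agent.Lib.MP_d01a95_gt_K.KDefs2
import Pool.Agent.Lib.MP_d01a95_gt_K.KA1
import Pool.Agent.Lib.MP_d01a95_gt_K.KA2
import Pool.Agent.Lib.MP_d01a95_gt_K.KA3
import Pool.Agent.Lib.MP_d01a95_gt_K.KA4
import Pool.Agent.Lib.MP_d01a95_gt_K.KA5
import Pool.Agent.Lib.MP_d01a95_gt_K.KB1
import Pool.Agent.Lib.MP_d01a95_gt_K.KB2
import Pool.Agent.Lib.MP_d01a95_gt_K.KB3
import Pool.Agent.Lib.MP_d01a95_gt_K.KB4
import Pool.Agent.Lib.MP_d01a95_gt_K.KB5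
import Pool.Agent.Lib.MP_d01a95_gt_K.KC
import Pool.Agent.Lib.MP_d01a95_gt_K.KD1
import Pool.Agent.Lib.MP_d01a95_gt_K.KD2
import Pool.Agent.Lib.MP_d01a95_gt_K.KD3
import Pool.Agent.Lib.MP_d01a95_gt_K.KD4
import Pool.Agent.Lib.MP_d01a95_gt_K.KEZ
import Pool.Agent.Lib.MP_d01a95_gt_K.KF0
import Pool.Agent.Lib.MP_d01a95_gt_K.KF1
import Pool.Agent.Lib.MP_d01a95_gt_K.KF2
import Pool.Agent.Lib.MP_d01a95_gt_K.KF3
import Pool.Agent.Lib.MP_d01a95_gt_K.KF4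
import Pool.Agent.Lib.MP_d01a95_gt_K.KF5
import Pool.Agent.Lib.MP_d01a95_gt_K.KF6
import Pool.Agent.Lib.MP_d01a95_gt_K.KFZ
import Pool.Agent.Lib.MP_d01a95_gt_K.KH1
import Pool.Agent.Lib.MP_d01a95_gt_K.KH2
import Pool.Agent.Lib.MP_d01a95_gt_K.KH3
import Pool.Agent.Lib.MP_d01a95_gt_K.KH4
import Pool.Agent.Lib.MP_d01a95_gt_K.KI1
import Pool.Agent.Lib.MP_d01a95_gt_K.KI2
import Pool.Agent.Lib.MP_d01a95_gt_K.KI3
import Pool.Agent.Lib.MP_d01a95_gt_K.KI4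
import Pool.Agent.Lib.MP_d01a95_gt_K.KI5
import Pool.Agent.Lib.MP_d01a95_gt_K.KI6
import Pool.Agent.Lib.MP_d01a95_gt_K.KI7
import Pool.Agent.Lib.MP_d01a95_gt_K.KJ1
import Pool.Agent.Lib.MP_d01a95_gt_K.KJ2
import Pool.Agent.Lib.MP_d01a95_gt_K.KJ3
import Pool.Agent.Lib.MP_d01a95_gt_K.KJ4
import Pool.Agent.Lib.MP_d01a95_gt_K.KJ5
import Pool.Agent.Lib.MP_d01a95_gt_K.KJ6
import Pool.Agent.Lib.MP_d01a95_gt_K.KJ7
import Pool.Agent.Lib.MP_d01a95_gt_K.KJZ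
import Pool.Agent.Lib.MP_d01a95_gt_K.KK1
import Pool.Agent.Lib.MP_d01a95_gt_K.KK2
import Pool.Agent.Lib.MP_d01a95_gt_K.KK3
import Pool.Agent.Lib.MP_d01a95_gt_K.KK4
import Pool.Agent.Lib.MP_d01a95_gt_K.KK5
import Pool.Agent.Lib.MP_d01a95_gt_K.KK6
import Pool.Agent.Lib.MP_d01a95_gt_K.KK7
import Pool.Agent.Lib.MP_d01a95_gt_K.KL1
import Pool.Agent.Lib.MP_d01a95_gt_K.KL2
import Pool.Agent.Lib.MP_d01a95_gt_K.KL3
import Pool.Agent.Lib.MP_d01a95_gt_K.KL4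
import Pool.Agent.Lib.MP_d01a95_gt_K.KL5
import Pool.Agent.Lib.MP_d01a95_gt_K.KM1
import Pool.Agent.Lib.MP_d01a95_gt_K.KM2
import Pool.Agent.Lib.MP_d01a95_gt_K.KM3
import Pool.Agent.Lib.MP_d01a95_gt_K.KM4
import Pool.Agent.Lib.MP_d01a95_gt_K.KM5
import Pool.Agent.Lib.MP_d01a95_gt_K.KN0
import Pool.Agent.Lib.MP_d01a95_gt_K.KN1
import Pool.Agent.Lib.MP_d01a95_gt_K.KN2
import Pool.Agent.Lib.MP_d01a95_gt_K.KN3
import Pool.Agent.Lib.MP_d01a95_gt_K.KN4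
import Pool.Agent.Lib.MP_d01a95_gt_K.KN5
import Pool.Agent.Lib.MP_d01a95_gt_K.KNZ

set_option autoImplicit false
set_option linter.all false

open Matrix Filter Topology MeasureTheory
open scoped ContDiff

namespace Pool.Agent.MPd01a95.KT

open GU

variable {G : Type} [Group G]

/-! # Project K: assembly of part (1) -/

theorem prop_sub {Γ : Type} [Group Γ] {ρ : Γ →* Matrix I6 I6 ℝ} (hp : PropAdS ρ) (H : Subgroup Γ) :
    PropAdS (ρ.comp H.subtype) := by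
  intro K hK hq
  have := hp K hK hq
  exact (this.preimage (f := fun h : H => (h : Γ)) (Subtype.val_injective.injOn)).subset
    fun h hh => hh

theorem WL_of {D : Kd G} (hub : ∀ B : ℝ, ∃ g, B * s1 (D.R g) ≤ s2 (D.R g)) {k : M4}
    (hk : k ∈ D.FF) : WL (D.A k) := by
  intro N p q hL φ hφ hφc hN
  obtain ⟨a, C, S, ha, h⟩ := D.TT_le hk hL φ hφ hφc hN
  by_contra hne
  have hpos : 0 < ‖TT (D.A k) p q φ‖ := norm_pos_iff.mpr hne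
  obtain ⟨s, hs1, hs2⟩ := D.SS_liminf hub (D.t0_spec hk).1 a ha
    (‖TT (D.A k) p q φ‖ / (2 * (|C| + 1))) (by positivity) S
  have h1 := h s hs1
  have hSS : 0 ≤ D.SS (D.t0 k) a s := by
    unfold Kd.SS
    refine finsum_nonneg fun g => finsum_nonneg fun _ => ?_
    have : 0 ≤ s1 (D.R g) := norm_nonneg _
    positivity
  have h2 : C * D.SS (D.t0 k) a s ≤ (|C| + 1) * (‖TT (D.A k) p q φ‖ / (2 * (|C| + 1))) := by
    have e1 : C * D.SS (D.t0 k) a s ≤ (|C| + 1) * D.SS (D.t0 k) a s :=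
      mul_le_mul_of_nonneg_right (by linarith [le_abs_self C]) hSS
    exact e1.trans (mul_le_mul_of_nonneg_left hs2 (by positivity))
  have h3 : (|C| + 1) * (‖TT (D.A k) p q φ‖ / (2 * (|C| + 1))) = ‖TT (D.A k) p q φ‖ / 2 := by
    have : |C| + 1 ≠ 0 := by positivity
    field_simp
  linarith

theorem good_of_zero {D : Kd G} (hW : ∀ k ∈ D.FF, WL (D.A k))
    (h : ∀ k ∈ D.FF, ∀ μb tb μ, μ ≠ μb → II (D.A k) μb tb μ = 0) : Good D where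
  wl := hW
  ii := h
  cz := fun k hk μ κ hκ => cau_zero (D.ch hk) (h k hk) μ κ hκ
  lo := fun k hk μb tb μ hμ => low_of_zero (D.ch hk) (h k hk) μb tb μ hμ

theorem exists_good {D : Kd G} (hub : ∀ B : ℝ, ∃ g, B * s1 (D.R g) ≤ s2 (D.R g)) :
    ∃ D' : Kd G, Good D' ∧ D'.σ = D.σ ∧ ((∀ g, D'.R g = D.R g) ∨
      ∀ g, D'.R g = io * D.R g * io) := by
  have hW : ∀ k ∈ D.FF, WL (D.A k) := fun k hk => WL_of hub hk
  rcases D.side_const (fun k hk μb tb => D.II_const hW hk μb tb) with h | h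
  · exact ⟨D, good_of_zero hW h, rfl, Or.inl fun g => rfl⟩
  · obtain ⟨D', e1, e2, e3⟩ := flip D
    refine ⟨D', good_of_zero ?_ ?_, e1, Or.inr e2⟩
    · intro k hk
      obtain ⟨k₂, hk₂, h2⟩ := e3 k hk
      exact WL_flip (D.ch hk₂) h2 (hW k₂ hk₂)
    · intro k hk μb tb μ hμ
      obtain ⟨k₂, hk₂, h2⟩ := e3 k hk
      rw [II_flip (D.ch hk₂) h2 μb tb μ hμ, h k₂ hk₂ μb (-tb) μ hμ]
      ring

/-- THEOREM (part (1)) -/
theorem part_one {Γ : Type} [Group Γ] {σ : Γ →* GU (Fin 2)} (hL : Lat σ)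
    (ρ : Γ →* Matrix I6 I6 ℝ) (hJ : ∀ g, (ρ g)ᵀ * J (Fin 4) * ρ g = J (Fin 4))
    (hz : ZDense ρ) (hp : PropAdS ρ) : ∃ H : Subgroup Γ, H.FiniteIndex ∧
      ∃ (R : H → M4) (K : Kerr (σ.comp H.subtype)) (k : M4), k.det ≠ 0 ∧
        Lat (σ.comp H.subtype) ∧ ((∀ v w : V4, hf (k *ᵥ v) (k *ᵥ w) = fc v w) ∨
          ∀ v w : V4, hf (k *ᵥ v) (k *ᵥ w) = - fc v w) ∧
        (∀ h, SI (R h) ∧ LR (R h) = ρ h) ∧ ∀ h, K.R h = k⁻¹ * R h * k := by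
  obtain ⟨H, hH, h1⟩ := exists_sub ρ hJ
  haveI := hH
  have hLat := lat_sub hL H
  have hJ' : ∀ g : H, ((ρ.comp H.subtype) g)ᵀ * J (Fin 4) * (ρ.comp H.subtype) g = J (Fin 4) :=
    fun g => hJ g
  have hp' := prop_sub hp H
  have hd' : ∀ g : H, ((ρ.comp H.subtype) g).det = 1 ∧
      0 < ((ρ.comp H.subtype) g).toBlocks₂₂.det := fun g => h1 g g.2
  obtain ⟨R, r1, r2, r3, r4⟩ := exists_R (ρ.comp H.subtype) hJ' hd'
  have hc := cocpt hLat (ρ.comp H.subtype) hJ' hd' hp'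
  obtain ⟨C, hC1, hC⟩ := sharp hLat (ρ.comp H.subtype) hJ' hp' hc
  obtain ⟨P, hP1, hP2⟩ := exists_kp hLat R r1 r4 r2 ⟨C, hC1, fun g => by rw [r3]; exact hC g⟩
  have hdet : ∀ g, (P.R g).det = 1 := fun g => by rw [hP2]; exact (r2 g).2
  have hc' : ∃ K : Set (I6 → ℝ), IsCompact K ∧ (∀ x ∈ K, nq x = 1) ∧
      ∀ x, nq x = 1 → ∃ g, ∃ y ∈ K, LR (P.R g) *ᵥ y = x := by
    simp only [hP2, r3]
    exact hc
  obtain ⟨D, hD⟩ := exists_kd P hdet hc'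
  have hDR : D.R = R := by rw [← hP2, ← hD]
  have hDσ : D.σ = σ.comp H.subtype := by rw [← hP1, ← hD]
  obtain ⟨C₂, hC₂, hs⟩ := sizes
  have hub : ∀ B : ℝ, ∃ g, B * s1 (D.R g) ≤ s2 (D.R g) := by
    intro B
    obtain ⟨g, hg, hg2⟩ := unb_sub ρ hJ (mid_unb ρ hJ hz hp) H (C₂ ^ 3 * B ^ 2)
    refine ⟨⟨g, hg⟩, ?_⟩
    rw [hDR]
    have e := hs (R ⟨g, hg⟩) (r2 _)
    rw [r3] at e
    have e0 : (ρ.comp H.subtype) ⟨g, hg⟩ = ρ g := rfl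
    rw [e0] at e
    obtain ⟨f1, f2, f3, f4⟩ := e
    have p1 : 0 ≤ s1 (R ⟨g, hg⟩) := norm_nonneg _
    have p2 : 0 ≤ s2 (R ⟨g, hg⟩) := norm_nonneg _
    by_contra hcon
    push Not at hcon
    have q1 : rr (ρ g) ^ 2 ≤ (C₂ * s2 (R ⟨g, hg⟩)) ^ 2 := by
      refine pow_le_pow_left₀ ?_ f1 2
      unfold rr
      exact le_max_of_le_left (Real.sqrt_nonneg _)
    have q2 : s2 (R ⟨g, hg⟩) ^ 2 ≤ (B * s1 (R ⟨g, hg⟩)) ^ 2 :=
      pow_le_pow_left₀ p2 hcon.le 2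
    have q3 : (B * s1 (R ⟨g, hg⟩)) ^ 2 ≤ B ^ 2 * (C₂ * Del (ρ g)) := by
      rw [mul_pow]; exact mul_le_mul_of_nonneg_left f4 (sq_nonneg _)
    have : C₂ ^ 3 * B ^ 2 * Del (ρ g) < C₂ ^ 3 * B ^ 2 * Del (ρ g) := by
      calc C₂ ^ 3 * B ^ 2 * Del (ρ g) < rr (ρ g) ^ 2 := hg2
        _ ≤ C₂ ^ 2 * s2 (R ⟨g, hg⟩) ^ 2 := by rw [← mul_pow]; exact q1
        _ ≤ C₂ ^ 2 * (B ^ 2 * (C₂ * Del (ρ g))) :=
            mul_le_mul_of_nonneg_left (q2.trans q3) (by positivity)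
        _ = C₂ ^ 3 * B ^ 2 * Del (ρ g) := by ring
    exact lt_irrefl _ this
  obtain ⟨D', hG, hσ', hR'⟩ := exists_good hub
  obtain ⟨k, hk⟩ := D'.ff_nonempty
  obtain ⟨K, hK⟩ := Kd.exists_kerr hG hk
  have hio : io * io = 1 := by
    ext i j; fin_cases i <;> fin_cases j <;> simp [io, Matrix.mul_apply, Fin.sum_univ_four]
  have hkk : k⁻¹ * k = 1 := by
    have := hk.1.1
    have h2 : k⁻¹ = kᴴ := Matrix.inv_eq_left_inv this
    rw [h2]; exact this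
  have hkd : k.det ≠ 0 := by
    intro h0
    have := congrArg Matrix.det hkk
    rw [Matrix.det_mul, h0, mul_zero, Matrix.det_one] at this
    exact zero_ne_one this
  have hs' : D'.σ = σ.comp H.subtype := hσ'.trans hDσ
  obtain ⟨K', hK'⟩ : ∃ K' : Kerr (σ.comp H.subtype), ∀ g, K'.R g = k⁻¹ * D'.R g * k := by
    rw [← hs']
    exact ⟨K, hK⟩
  rcases hR' with e | e
  · refine ⟨H, hH, R, K', k, hkd, hLat, Or.inl hk.1.2, fun h => ⟨r2 h, r3 h⟩,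
      fun h => ?_⟩
    rw [hK', e, hDR]
  · have hii : io⁻¹ = io := Matrix.inv_eq_left_inv hio
    have hid : io.det ≠ 0 := by
      intro h0
      have := congrArg Matrix.det hio
      rw [Matrix.det_mul, h0, mul_zero, Matrix.det_one] at this
      exact zero_ne_one this
    refine ⟨H, hH, R, K', io * k, ?_, hLat, Or.inr fun v w => ?_, fun h => ⟨r2 h, r3 h⟩,
      fun h => ?_⟩
    · rw [Matrix.det_mul]; exact mul_ne_zero hid hkd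
    · rw [← hk.1.2 v w, ← Matrix.mulVec_mulVec, ← Matrix.mulVec_mulVec]
      simp only [hf, CW.hh, io, Matrix.mulVec, dotProduct, Fin.sum_univ_four]
      simp
      ring
    · rw [hK', e, hDR, Matrix.mul_inv_rev, hii]
      simp only [Matrix.mul_assoc]

end Pool.Agent.MPd01a95.KT
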