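import Mathlib
import Pool.Agent.Lib.MP_d01a95_gt_K.KDefs2
import Pool.Agent.Lib.MP_d01a95_gt_K.KB5
import Pool.Agent.Lib.MP_d01a95_gt_K.KMain
import Pool.Agent.Lib.MP_d01a95_gt_S.SDefs
import Pool.Agent.Lib.MP_d01a95_gt_S.SDefs2
import Pool.Agent.Lib.MP_d01a95_gt_M.FinalM

set_option autoImplicit false
set_option linter.all false

open Matrix Filter Topology MeasureTheory
open scoped ContDiff

namespace Pool.Agent.MPd01a95.KT

open GU

variable {G : Type} [Group G]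

/-! # Project K: the case m = 2, from part (2) -/

theorem fin_cj (g : GU (Fin 2)) : g.cj.cj = g := by
  apply GU.ext
  ext i j
  change star (star (g.M i j)) = g.M i j
  exact star_star _

theorem fin_cj_mul (g h : GU (Fin 2)) : (g * h).cj = g.cj * h.cj := by
  apply GU.ext
  ext i j
  change star ((g.M * h.M) i j) = (g.M.map star * h.M.map star) i j
  simp [Matrix.mul_apply]

theorem fin_cj_one : (1 : GU (Fin 2)).cj = 1 := by
  apply GU.ext
  ext i j
  change star ((1 : Matrix N3 N3 ℂ) i j) = (1 : Matrix N3 N3 ℂ) i j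
  rw [Matrix.one_apply]
  split_ifs <;> simp

theorem fin_cj_c (g : GU (Fin 2)) : GU.c g.cj = GU.c g := by
  change ‖star (g.M (Sum.inr ()) (Sum.inr ()))‖ = ‖g.M (Sum.inr ()) (Sum.inr ())‖
  exact norm_star _

theorem fin_cj_cont : Continuous (GU.cj : GU (Fin 2) → GU (Fin 2)) := by
  refine isClosedEmbedding_M.isInducing.continuous_iff.mpr ?_
  have : (M ∘ GU.cj : GU (Fin 2) → Matrix N3 N3 ℂ) = fun g => (M g).map star := rfl
  rw [this]
  exact continuous_M.matrix_map continuous_star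

theorem lat_cj {σ : G →* GU (Fin 2)} (hL : Lat σ) : Lat (cjG σ) := by
  obtain ⟨⟨U, hU, hU1, hU2⟩, R, hR⟩ := hL
  refine ⟨⟨GU.cj ⁻¹' U, hU.preimage fin_cj_cont, ?_, fun g hg => hU2 g ?_⟩, R, fun h => ?_⟩
  · change (1 : GU (Fin 2)).cj ∈ U
    rw [fin_cj_one]; exact hU1
  · have : ((σ g).cj).cj ∈ U := hg
    rwa [fin_cj] at this
  · obtain ⟨g, hg⟩ := hR h.cj
    refine ⟨g, ?_⟩
    change GU.c ((σ g).cj * h) ≤ R
    rw [← fin_cj_c, fin_cj_mul, fin_cj]
    exact hg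

theorem fin_h4 (v w : V4) : h4 v w = fc v w := by
  simp only [h4, fc]
  ring

theorem fin_hq (v : V4) : CW.hq v = (hf v v).re := by
  rw [hf, CW.hh_self, Complex.ofReal_re]

theorem fin_line {σ : G →* GU (Fin 2)} (hL : Lat σ) (R' : G → M4)
    (hR' : ∀ g, Iso4 (R' g)) (k : M4) (hdet : k.det ≠ 0)
    (hk : ∀ v w : V4, hf (k *ᵥ v) (k *ᵥ w) = fc v w) (KR : G → M4)
    (hKR : ∀ g, KR g = k⁻¹ * R' g * k) {w : C2 → V4} (hw : VB σ KR w) :
    ∃ N : V4, CW.hq N < 0 ∧ ∀ g, ∃ c : ℂ, R' g *ᵥ N = c • N := by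
  have hk2 : k * k⁻¹ = 1 := Matrix.mul_nonsing_inv _ (isUnit_iff_ne_zero.mpr hdet)
  let P : C2 → V4 := fun z => k *ᵥ w z
  have hfd : ∀ z ∈ CW.B, ∀ ξ : Fin 2 → ℂ, fderiv ℂ P z ξ = k *ᵥ fderiv ℂ w z ξ := by
    intro z hz ξ
    have hd : DifferentiableAt ℂ w z := hw.hol.differentiableAt (CW.isOpen_B.mem_nhds hz)
    have h1 : HasFDerivAt P ((Matrix.mulVecLin k).toContinuousLinearMap.comp (fderiv ℂ w z)) z :=
      ((Matrix.mulVecLin k).toContinuousLinearMap.hasFDerivAt).comp z hd.hasFDerivAt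
    rw [h1.fderiv]
    rfl
  have hIn : CW.HIn P := by
    refine ⟨fun a => ?_, fun z hz => ?_, fun z hz ξ hξ => ?_⟩
    · have h1 : DifferentiableOn ℂ P CW.B := fun z hz =>
        ((Matrix.mulVecLin k).toContinuousLinearMap.differentiableAt.comp z
          (hw.hol.differentiableAt (CW.isOpen_B.mem_nhds hz))).differentiableWithinAt
      exact fun z hz => (differentiableWithinAt_pi.mp (h1 z hz)) a
    · rw [fin_hq]
      change (hf (k *ᵥ w z) (k *ᵥ w z)).re < 0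
      rw [hk, ← fin_h4]
      exact hw.neg z hz
    · rw [hfd z hz]
      have h1 := hw.spl z hz ξ hξ
      rw [fin_hq, fin_hq]
      change 0 < -(hf (k *ᵥ w z) (k *ᵥ w z)).re * (hf (k *ᵥ fderiv ℂ w z ξ) (k *ᵥ fderiv ℂ w z ξ)).re +
        ‖hf (k *ᵥ fderiv ℂ w z ξ) (k *ᵥ w z)‖ ^ 2
      rw [hk, hk, hk, ← fin_h4, ← fin_h4, ← fin_h4]
      linarith
  refine CW.vhs_line hL hIn R' (fun g v w => hR' g v w) fun g z hz => ?_
  obtain ⟨c, hc⟩ := hw.eqv g z hz
  refine ⟨c, ?_⟩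
  change k *ᵥ w (act (σ g).M z) = c • (R' g *ᵥ (k *ᵥ w z))
  rw [hc, hKR, Matrix.mulVec_smul]
  congr 1
  simp only [Matrix.mulVec_mulVec, ← Matrix.mul_assoc, hk2, Matrix.one_mul]

/-- the case m = 2, from part (2) -/
theorem two_false
    (part2 : ∀ {G : Type} [Group G] {σ : G →* GU (Fin 2)}, Lat σ → ∀ K : Kerr σ,
      (∃ w, VB σ K.R w) ∨ ∃ w, VB (cjG σ) K.R w)
    {Γ : Type} [Group Γ] {σ : Γ →* GU (Fin 2)} (hL : Lat σ)
    (ρ : Γ →* Matrix I6 I6 ℝ) (hJ : ∀ g, (ρ g)ᵀ * J (Fin 4) * ρ g = J (Fin 4))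
    (hz : ZDense ρ) (hp : PropAdS ρ) : False := by
  obtain ⟨H, hH, R, K, k, hdet, hLat, hk, hR, hK⟩ := part_one hL ρ hJ hz hp
  haveI := hH
  have hw := part2 hLat K
  have hio : io * io = 1 := by
    ext i j; fin_cases i <;> fin_cases j <;> simp [io, Matrix.mul_apply, Fin.sum_univ_four]
  have hii : io⁻¹ = io := Matrix.inv_eq_left_inv hio
  have hid : io.det ≠ 0 := by
    intro h0
    have := congrArg Matrix.det hio
    rw [Matrix.det_mul, h0, mul_zero, Matrix.det_one] at this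
    exact zero_ne_one this
  have hfio : ∀ v w : V4, hf (io *ᵥ v) (io *ᵥ w) = - hf v w := by
    intro v w
    simp only [hf, CW.hh, io, Matrix.mulVec, dotProduct, Fin.sum_univ_four]
    simp
    ring
  -- the line
  have key : ∀ {σ' : H →* GU (Fin 2)}, Lat σ' → (∃ w, VB σ' K.R w) →
      ∃ N : V4, hf N N ≠ 0 ∧ ∀ h, ∃ l : ℂ, R h *ᵥ N = l • N := by
    rintro σ' hL' ⟨w, hw'⟩
    rcases hk with hk | hk
    · obtain ⟨N, hN, hN2⟩ := fin_line hL' R (fun h => (hR h).1.1) k hdet hk K.R hK hw'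
      refine ⟨N, fun h0 => ?_, hN2⟩
      rw [fin_hq, h0, Complex.zero_re] at hN
      exact lt_irrefl _ hN
    · have hdet' : (io * k).det ≠ 0 := by
        rw [Matrix.det_mul]; exact mul_ne_zero hid hdet
      obtain ⟨N, hN, hN2⟩ := fin_line hL' (fun h => io * R h * io) (fun h v w => by
          have e : ∀ u : V4, (io * R h * io) *ᵥ u = io *ᵥ (R h *ᵥ (io *ᵥ u)) := by
            intro u; simp only [Matrix.mulVec_mulVec, Matrix.mul_assoc]
          rw [e, e, hfio, (hR h).1.1, hfio, neg_neg]) (io * k) hdet'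
        (fun v w => by
          rw [← Matrix.mulVec_mulVec, ← Matrix.mulVec_mulVec, hfio, hk, neg_neg]) K.R
        (fun h => by
          rw [hK, Matrix.mul_inv_rev, hii]
          have : k⁻¹ * io * (io * R h * io) * (io * k) = k⁻¹ * (io * io) * R h * (io * io) * k := by
            simp only [Matrix.mul_assoc]
          rw [this, hio, Matrix.mul_one, Matrix.mul_one]) hw'
      refine ⟨io *ᵥ N, fun h0 => ?_, fun h => ?_⟩
      · rw [hfio, neg_eq_zero] at h0
        rw [fin_hq, h0, Complex.zero_re] at hN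
        exact lt_irrefl _ hN
      · obtain ⟨c, hc⟩ := hN2 h
        refine ⟨c, ?_⟩
        have e : io *ᵥ ((io * R h * io) *ᵥ N) = R h *ᵥ (io *ᵥ N) := by
          simp only [Matrix.mulVec_mulVec]
          rw [← Matrix.mul_assoc, ← Matrix.mul_assoc, hio, Matrix.one_mul]
        rw [← e, hc, Matrix.mulVec_smul]
  obtain ⟨N, hN, hN2⟩ : ∃ N : V4, hf N N ≠ 0 ∧ ∀ h, ∃ l : ℂ, R h *ᵥ N = l • N := by
    rcases hw with hw | hw
    · exact key hLat hw
    · exact key (lat_cj hLat) hw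
  exact zd_contra ρ hJ hz H R hR N hN hN2

end Pool.Agent.MPd01a95.KT
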