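import Mathlib
import Pool.Agent.Lib.MP_d01a95_gt_K.KDefs2

set_option autoImplicit false
set_option linter.all false

open Matrix Filter Topology MeasureTheory
open scoped ContDiff

namespace Pool.Agent.MPd01a95.KT

private theorem J2cB_quot {μb : ℂ} {ψ : ℂ → ℂ} {n : ℕ} (hψ : Continuous ψ)
    (hb : μb ∉ tsupport ψ) : Continuous fun μ => ψ μ / (star μb - star μ) ^ n := by
  rw [continuous_iff_continuousAt]
  intro μ
  by_cases h : μ = μb
  · have h0 : (fun μ => ψ μ / (star μb - star μ) ^ n) =ᶠ[𝓝 μ] fun _ => 0 := by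
      rw [h]
      filter_upwards [(isClosed_tsupport ψ).isOpen_compl.mem_nhds hb] with y hy
      rw [image_eq_zero_of_notMem_tsupport hy, zero_div]
    exact (continuousAt_const).congr h0.symm
  · have hne : star μb - star μ ≠ 0 := by
      intro h1
      apply h
      have h2 := star_injective (sub_eq_zero.mp h1)
      exact h2.symm
    exact hψ.continuousAt.div ((continuousAt_const.sub continuous_star.continuousAt).pow n)
      (pow_ne_zero n hne)

private theorem J2cB_cs {μb : ℂ} {ψ : ℂ → ℂ} {n : ℕ} (hc : HasCompactSupport ψ) :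
    HasCompactSupport fun μ => ψ μ / (star μb - star μ) ^ n := by
  refine hc.mono fun μ hμ => ?_
  rw [Function.mem_support] at hμ ⊢
  intro h
  exact hμ (by rw [h, zero_div])

theorem J2c_ibp {μb μ0 : ℂ} {r : ℝ} (hb : μb ∉ Metric.closedBall μ0 r) (φ : ℂ → ℝ)
    (h1 : ContDiff ℝ ∞ φ) (h2 : HasCompactSupport φ) (h3 : tsupport φ ⊆ Metric.ball μ0 r) :
    ∫ μ : ℂ, 1 / (star μb - star μ) * (fderiv ℝ φ μ 1 + Complex.I * fderiv ℝ φ μ Complex.I) =
      - 2 * ∫ μ : ℂ, (φ μ : ℂ) / (star μb - star μ) ^ 2 := by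
  have hbt : μb ∉ tsupport φ := fun h => hb (Metric.ball_subset_closedBall (h3 h))
  set ψ : ℂ → ℂ := fun μ => (φ μ : ℂ) with hψ
  have hψs : ContDiff ℝ ∞ ψ := Complex.ofRealCLM.contDiff.comp h1
  have hψt : tsupport ψ ⊆ tsupport φ := by
    apply closure_mono
    intro x hx
    rw [Function.mem_support] at hx ⊢
    intro h
    exact hx (by simp [hψ, h])
  have hψc : HasCompactSupport ψ := h2.of_isClosed_subset (isClosed_tsupport ψ) hψt
  have hbψ : μb ∉ tsupport ψ := fun h => hbt (hψt h)
  have hψd : ∀ μ v, fderiv ℝ ψ μ v = ((fderiv ℝ φ μ v : ℝ) : ℂ) := by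
    intro μ v
    have hd := (Complex.ofRealCLM.hasFDerivAt (x := φ μ)).comp μ
      ((h1.differentiable (by simp)) μ).hasFDerivAt
    have he : fderiv ℝ ψ μ = _ := hd.fderiv
    rw [he]
    rfl
  set F : ℂ → ℂ := fun μ => ψ μ / (star μb - star μ) with hF
  -- the derivative of `F`
  have hFd : ∀ μ, HasFDerivAt F ((star μb - star μ)⁻¹ • fderiv ℝ ψ μ +
      (ψ μ / (star μb - star μ) ^ 2) • (Complex.conjCLE : ℂ →L[ℝ] ℂ)) μ := by
    intro μ
    by_cases h : μ = μb
    · have h0 : F =ᶠ[𝓝 μ] fun _ => 0 := by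
        rw [h]
        filter_upwards [(isClosed_tsupport ψ).isOpen_compl.mem_nhds hbψ] with y hy
        rw [hF]
        simp only
        rw [image_eq_zero_of_notMem_tsupport hy, zero_div]
      have hz : ψ μ = 0 := by rw [h]; exact image_eq_zero_of_notMem_tsupport hbψ
      have hs : (star μb - star μ)⁻¹ = 0 := by rw [h, sub_self, _root_.inv_zero]
      refine ((hasFDerivAt_const (0 : ℂ) μ).congr_of_eventuallyEq h0).congr_fderiv ?_
      ext v
      simp only [ContinuousLinearMap.add_apply, ContinuousLinearMap.smul_apply, smul_eq_mul]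
      rw [hz, hs]
      simp
    · have hne : star μb - star μ ≠ 0 := by
        intro h1
        apply h
        exact (star_injective (sub_eq_zero.mp h1)).symm
      have hq : HasFDerivAt (fun μ : ℂ => star μb - star μ)
          (-(Complex.conjCLE : ℂ →L[ℝ] ℂ)) μ := by
        have := ((Complex.conjCLE : ℂ →L[ℝ] ℂ).hasFDerivAt (x := μ)).const_sub (star μb)
        exact this
      have hp : HasFDerivAt ψ (fderiv ℝ ψ μ) μ :=
        ((hψs.differentiable (by simp)) μ).hasFDerivAt
      have hi : HasFDerivAt (fun μ : ℂ => (star μb - star μ)⁻¹)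
          (((star μb - star μ) ^ 2)⁻¹ • (Complex.conjCLE : ℂ →L[ℝ] ℂ)) μ := by
        have h5 := ((hasDerivAt_inv hne).hasFDerivAt.restrictScalars ℝ).comp μ hq
        have h6 : HasFDerivAt (fun μ : ℂ => (star μb - star μ)⁻¹) _ μ := h5
        refine h6.congr_fderiv ?_
        ext v
        simp
        ring
      have hm := hp.mul hi
      have h7 : F = fun μ => ψ μ * (star μb - star μ)⁻¹ := by
        funext y
        rw [hF]
        exact div_eq_mul_inv _ _
      rw [h7]
      refine hm.congr_fderiv ?_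
      ext v
      simp
      ring
  have hdF : Differentiable ℝ F := fun μ => (hFd μ).differentiableAt
  have hfd : ∀ μ v, fderiv ℝ F μ v = ((fderiv ℝ φ μ v : ℝ) : ℂ) / (star μb - star μ) +
      ψ μ / (star μb - star μ) ^ 2 * star v := by
    intro μ v
    rw [(hFd μ).fderiv]
    simp only [ContinuousLinearMap.add_apply, ContinuousLinearMap.smul_apply, smul_eq_mul]
    rw [hψd]
    change (star μb - star μ)⁻¹ * _ + _ * star v = _
    ring
  -- continuity of the pieces
  have c1 : ∀ v : ℂ, Continuous fun μ => ((fderiv ℝ φ μ v : ℝ) : ℂ) / (star μb - star μ) ^ 1 := by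
    intro v
    refine J2cB_quot (ψ := fun μ => ((fderiv ℝ φ μ v : ℝ) : ℂ)) ?_ ?_
    · exact Complex.continuous_ofReal.comp
        ((h1.continuous_fderiv (by simp)).clm_apply continuous_const)
    · intro h
      apply hbt
      have h8 : tsupport (fun μ => ((fderiv ℝ φ μ v : ℝ) : ℂ)) ⊆ tsupport φ := by
        refine closure_minimal ?_ (isClosed_tsupport φ)
        intro x hx
        rw [Function.mem_support] at hx
        by_contra hcon
        apply hx
        have h9 : fderiv ℝ φ x = 0 := by
          have : φ =ᶠ[𝓝 x] fun _ => 0 := by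
            filter_upwards [(isClosed_tsupport φ).isOpen_compl.mem_nhds hcon] with y hy
            exact image_eq_zero_of_notMem_tsupport hy
          rw [this.fderiv_eq]
          simp
        rw [h9]
        simp
      exact h8 h
  have s1 : ∀ v : ℂ, HasCompactSupport
      fun μ => ((fderiv ℝ φ μ v : ℝ) : ℂ) / (star μb - star μ) ^ 1 := by
    intro v
    refine J2cB_cs (ψ := fun μ => ((fderiv ℝ φ μ v : ℝ) : ℂ)) ?_
    have h9 : HasCompactSupport (fun μ => fderiv ℝ φ μ v) := h2.fderiv_apply (𝕜 := ℝ) v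
    refine h9.mono fun x hx => ?_
    rw [Function.mem_support] at hx ⊢
    intro h
    exact hx (by rw [h]; simp)
  have i1 : ∀ v : ℂ, Integrable fun μ => ((fderiv ℝ φ μ v : ℝ) : ℂ) / (star μb - star μ) := by
    intro v
    have h10 : Integrable (fun μ => ((fderiv ℝ φ μ v : ℝ) : ℂ) / (star μb - star μ) ^ 1) volume :=
      (c1 v).integrable_of_hasCompactSupport (s1 v)
    simpa only [pow_one] using h10
  have i2 : Integrable fun μ => ψ μ / (star μb - star μ) ^ 2 :=
    (J2cB_quot hψs.continuous hbψ).integrable_of_hasCompactSupport (J2cB_cs hψc)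
  have iF : Integrable F := by
    have h10 : Integrable (fun μ => ψ μ / (star μb - star μ) ^ 1) volume :=
      (J2cB_quot (n := 1) hψs.continuous hbψ).integrable_of_hasCompactSupport
        (J2cB_cs (μb := μb) (n := 1) hψc)
    simpa only [pow_one] using h10
  have z : ∀ v : ℂ, ∫ μ, (((fderiv ℝ φ μ v : ℝ) : ℂ) / (star μb - star μ) +
      ψ μ / (star μb - star μ) ^ 2 * star v) = 0 := by
    intro v
    have hI : Integrable fun μ => fderiv ℝ F μ v := by
      simp only [hfd]
      exact (i1 v).add (i2.mul_const _)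
    have h := integral_mul_fderiv_eq_neg_fderiv_mul_of_integrable (𝕜 := ℂ) (f := fun _ : ℂ => (1 : ℂ))
      (g := F) (v := v) (μ := volume) (by simp) (by simpa using hI) (by simpa using iF)
      (fun x _ => differentiableAt_const _) (fun x _ => hdF x)
    simp only [one_mul] at h
    rw [show (fun μ => fderiv ℝ F μ v) = fun μ => (((fderiv ℝ φ μ v : ℝ) : ℂ) / (star μb - star μ) +
      ψ μ / (star μb - star μ) ^ 2 * star v) from funext fun μ => hfd μ v] at h
    rw [h]
    simp
  have z1 := z 1
  have zI := z Complex.I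
  rw [integral_add (i1 1) (i2.mul_const _), integral_mul_const] at z1
  rw [integral_add (i1 Complex.I) (i2.mul_const _), integral_mul_const] at zI
  have e : ∫ μ : ℂ, 1 / (star μb - star μ) *
      (fderiv ℝ φ μ 1 + Complex.I * fderiv ℝ φ μ Complex.I) =
      (∫ μ : ℂ, ((fderiv ℝ φ μ 1 : ℝ) : ℂ) / (star μb - star μ)) +
      Complex.I * ∫ μ : ℂ, ((fderiv ℝ φ μ Complex.I : ℝ) : ℂ) / (star μb - star μ) := by
    rw [← integral_const_mul, ← integral_add (i1 1) ((i1 Complex.I).const_mul _)]
    congr 1
    funext μ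
    ring
  rw [e]
  have hsI : star Complex.I = -Complex.I := by
    rw [Complex.star_def, Complex.conj_I]
  rw [star_one, mul_one] at z1
  rw [hsI] at zI
  linear_combination z1 + Complex.I * zI + (∫ μ : ℂ, ψ μ / (star μb - star μ) ^ 2) * Complex.I_sq

end Pool.Agent.MPd01a95.KT
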