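import Mathlib
import Pool.Agent.Lib.MP_d01a95_gt_K.KDefs2
import Pool.Agent.Lib.MP_d01a95_gt_K.KA1
import Pool.Agent.Lib.MP_d01a95_gt_K.KA2
import Pool.Agent.Lib.MP_d01a95_gt_K.KA4
import Pool.Agent.Lib.MP_d01a95_gt_K.KF0
import Pool.Agent.Lib.MP_d01a95_gt_K.KF6
import Pool.Agent.Lib.MP_d01a95_gt_K.KH1
import Pool.Agent.Lib.MP_d01a95_gt_K.KH2
import Pool.Agent.Lib.MP_d01a95_gt_K.KH3
import Pool.Agent.Lib.MP_d01a95_gt_K.KH4
import Pool.Agent.Lib.MP_d01a95_gt_K.KJ3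
import Pool.Agent.Lib.MP_d01a95_gt_K.KJ5
import Pool.Agent.Lib.MP_d01a95_gt_K.KJ6
import Pool.Agent.Lib.MP_d01a95_gt_K.KJ7
import Pool.Agent.Lib.MP_d01a95_gt_K.KJN

set_option autoImplicit false
set_option linter.all false

open Matrix Filter Topology MeasureTheory
open scoped ContDiff

namespace Pool.Agent.MPd01a95.KT

open GU

variable {G : Type} [Group G]

namespace Kd

variable (D : Kd G)

/-- assembly -/
theorem II_const (hW : ∀ k ∈ D.FF, WL (D.A k)) {k : M4} (hk : k ∈ D.FF) (μb : ℂ) (tb : ℝ) :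
    ∃ w : ℤ, ∀ μ, μ ≠ μb → II (D.A k) μb tb μ = -(2 * Real.pi * Complex.I * w) := by
  obtain ⟨k', hk', u, hu, hz⟩ := D.zoom hk hW μb tb
  have h0 : u * D.nn k μb tb = 0 := by
    refine nn_zero (D.ch hk') _ fun μb' tb' => ?_
    obtain ⟨w, hw⟩ := D.II_nn hW hk' μb' tb'
    exact ⟨w, fun μ hμ => by rw [hw μ hμ, hz]⟩
  have h1 : D.nn k μb tb = 0 := by
    rcases mul_eq_zero.1 h0 with h | h
    · rw [h, norm_zero] at hu
      exact absurd hu (by norm_num)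
    · exact h
  obtain ⟨w, hw⟩ := D.II_nn hW hk μb tb
  exact ⟨w, fun μ hμ => by rw [hw μ hμ, h1, zero_mul, zero_div, sub_zero]⟩

end Kd

end Pool.Agent.MPd01a95.KT
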