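import Mathlib
import Pool.Agent.Lib.MP_d01a95_gt_K.KM0

/-!
# Project K, module M0s: sequences on the surface and closedness
-/

set_option autoImplicit false
set_option linter.all false

open Matrix Filter Topology MeasureTheory
open scoped ContDiff

namespace Pool.Agent.MPd01a95.KT

open GU

variable {G : Type} [Group G]

/-- module M0s: continuity of the wedge size -/
theorem m0s_wd_cont (y : V4) : Continuous fun x : V4 => wd x y := by
  unfold wd
  refine continuous_norm.comp (continuous_pi fun i => continuous_pi fun j => ?_)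
  exact ((continuous_apply i).mul continuous_const).sub ((continuous_apply j).mul continuous_const)

/-- module M0s: the point at infinity is not zero -/
theorem m0s_e1_ne {k : M4} (hk : k ∈ KK) : k *ᵥ e1 ≠ 0 := by
  intro h
  have h1 := M0z_left hk e1
  rw [h] at h1
  have h2 : M0z k 0 = 0 := by
    unfold M0z
    exact Matrix.mulVec_zero _
  rw [h2] at h1
  have h3 := congrFun h1 1
  simp [e1] at h3

/-- module M0s: the point at infinity is null -/
theorem m0s_null {k : M4} (hk : k ∈ KK) : hf (k *ᵥ e1) (k *ᵥ e1) = 0 := by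
  rw [hk.2]
  simp [fc, e1]

/-- module M0s: parallel vectors -/
theorem m0s_par {v w : V4} (hw : w ≠ 0) (h : wd v w = 0) : ∃ l : ℂ, v = l • w := by
  obtain ⟨i, hi⟩ := Function.ne_iff.mp hw
  have h1 : (fun i j => v i * w j - v j * w i : Fin 4 → Fin 4 → ℂ) = 0 := norm_eq_zero.mp h
  refine ⟨v i / w i, funext fun j => ?_⟩
  have h2 : v i * w j - v j * w i = 0 := congrFun (congrFun h1 i) j
  rw [Pi.smul_apply, smul_eq_mul]
  have hi' : w i ≠ 0 := hi
  rw [div_mul_eq_mul_div, eq_div_iff hi']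
  linear_combination -h2

namespace Kd

variable {D : Kd G}

/-- module M0s: sequences on the surface (the closure of the surface) -/
theorem M0s_seq (hD : Good D) {k : M4} (hk : k ∈ D.FF) (x : ℕ → C2) (hx : ∀ n, x n ∈ Upc)
    (l : ℕ → ℂ) {v : V4} (hv : v ≠ 0) (h : Tendsto (fun n => l n • D.vx k (x n)) atTop (𝓝 v)) :
    (∃ y ∈ Upc, ∃ l₀ : ℂ, l₀ ≠ 0 ∧ v = l₀ • D.vx k y) ∨
      ∃ l₀ : ℂ, l₀ ≠ 0 ∧ v = l₀ • (k *ᵥ e1) := by
  by_cases hb : Tendsto (fun n => ‖x n‖) atTop atTop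
  · right
    have h1 := vx_inf hD hk x hx hb
    have h2 : Tendsto (fun n => wd (l n • D.vx k (x n)) (k *ᵥ e1)) atTop
        (𝓝 (wd v (k *ᵥ e1))) := ((m0s_wd_cont _).tendsto v).comp h
    have h3 : Tendsto (fun n => ‖l n • D.vx k (x n)‖ *
        (wd (D.vx k (x n)) (k *ᵥ e1) / ‖D.vx k (x n)‖)) atTop (𝓝 (‖v‖ * 0)) := h.norm.mul h1
    have h4 : ∀ n, wd (l n • D.vx k (x n)) (k *ᵥ e1) = ‖l n • D.vx k (x n)‖ *
        (wd (D.vx k (x n)) (k *ᵥ e1) / ‖D.vx k (x n)‖) := by
      intro n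
      have h0 := norm_ne_zero_iff.mpr (M0_vx hk (x n)).2.2.2.2
      rw [F0.wd_smul, norm_smul]
      field_simp
    rw [mul_zero] at h3
    simp only [h4] at h2
    have h5 := tendsto_nhds_unique h2 h3
    obtain ⟨l₀, hl⟩ := m0s_par (m0s_e1_ne hk.1) h5
    refine ⟨l₀, ?_, hl⟩
    rintro rfl
    exact hv (by rw [hl, zero_smul])
  · left
    rw [tendsto_atTop] at hb
    push Not at hb
    obtain ⟨r, hr⟩ := hb
    obtain ⟨φ, hφ, hφ2⟩ := Filter.extraction_of_frequently_atTop hr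
    have hc : IsCompact (Metric.closedBall (0 : C2) r ∩ Upc) :=
      (isCompact_closedBall 0 r).inter_right kl5_upc_closed
    obtain ⟨y, hy, ψ, hψ, hψ2⟩ := hc.tendsto_subseq (x := fun n => x (φ n)) fun n =>
      ⟨mem_closedBall_zero_iff.mpr (hφ2 n).le, hx _⟩
    have h1 : Tendsto (fun n => D.vx k (x (φ (ψ n)))) atTop (𝓝 (D.vx k y)) := by
      have h2 := (kl5_vx_cont D (k, y) ⟨hk, hy.2⟩).tendsto
      refine h2.comp (f := fun n : ℕ => (k, x (φ (ψ n)))) (tendsto_nhdsWithin_iff.mpr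
        ⟨?_, Eventually.of_forall fun n => ⟨hk, hx _⟩⟩)
      exact tendsto_const_nhds.prodMk_nhds hψ2
    have h0 : Tendsto (fun n => l (φ (ψ n)) • D.vx k (x (φ (ψ n)))) atTop (𝓝 v) :=
      h.comp (hφ.tendsto_atTop.comp hψ.tendsto_atTop)
    have h2 : Tendsto (fun n => l (φ (ψ n))) atTop (𝓝 (M0z k v 3)) := by
      have h3 := ((continuous_apply (3 : Fin 4)).comp (M0z_cont k)).tendsto v
      have h4 := h3.comp h0
      refine h4.congr fun n => ?_
      change M0z k (l (φ (ψ n)) • D.vx k (x (φ (ψ n)))) 3 = _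
      rw [M0z_smul, Pi.smul_apply, (M0_vx hk _).1, smul_eq_mul, mul_one]
    have h3 := tendsto_nhds_unique h0 (h2.smul h1)
    refine ⟨y, hy.2, M0z k v 3, ?_, h3⟩
    intro h4
    rw [h4, zero_smul] at h3
    exact hv h3

/-- module M0s: the surface is closed among the vectors which are not null -/
theorem M0s_cl (hD : Good D) {k : M4} (hk : k ∈ D.FF) {u : ℕ → V4} (hu : ∀ n, u n ∈ D.VV k)
    {v : V4} (h : Tendsto u atTop (𝓝 v)) (hv : hf v v ≠ 0) : v ∈ D.VV k := by
  choose x hx l hl hxl using hu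
  have hv0 : v ≠ 0 := by
    rintro rfl
    apply hv
    have := M0_hf_smul 0 0 (0 : V4) (0 : V4)
    rw [zero_smul] at this
    rw [this, zero_mul, zero_mul]
  have h1 : Tendsto (fun n => l n • D.vx k (x n)) atTop (𝓝 v) := h.congr hxl
  have hx2 : ∀ n, x n ∈ Upc := fun n => by
    have h2 : 0 < ((x n) 1).im := hx n
    exact h2.le
  rcases M0s_seq hD hk x hx2 l hv0 h1 with ⟨y, hy, l₀, hl₀, e⟩ | ⟨l₀, hl₀, e⟩
  · refine ⟨y, ?_, l₀, hl₀, e⟩
    refine lt_of_le_of_ne (show 0 ≤ (y 1).im from hy) fun h0 => hv ?_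
    rw [e, M0_hf_smul, hf_vx hD hk, ← h0]
    simp
  · exact absurd (by rw [e, M0_hf_smul, m0s_null hk.1, mul_zero]) hv

end Kd

end Pool.Agent.MPd01a95.KT
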