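import Mathlib
import Pool.Agent.Lib.MP_d01a95_gt_K.KDefs2
import Pool.Agent.Lib.MP_d01a95_gt_K.KF0
import Pool.Agent.Lib.MP_d01a95_gt_K.KH1

set_option autoImplicit false
set_option linter.all false

open Matrix Filter Topology MeasureTheory
open scoped ContDiff ComplexOrder

namespace Pool.Agent.MPd01a95.KT

open GU F0

/-- the Gram matrix of the standard form -/
noncomputable def N6J : M4 := Matrix.diagonal sg

/-- the negative part of the standard form relative to a positive definite form -/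
def N6N (H : M4) : Set V4 := {v | ∀ q : Polynomial ℂ,
  (hf (Polynomial.aeval (N6J * H) q *ᵥ v) (Polynomial.aeval (N6J * H) q *ᵥ v)).re ≤ 0}

theorem N6_hf (v w : V4) : hf v w = star w ⬝ᵥ (N6J *ᵥ v) := by
  rw [F0.hf_eq, N6J]
  simp only [dotProduct, Matrix.mulVec_diagonal, Pi.star_apply]
  refine Finset.sum_congr rfl fun i _ => ?_
  ring

theorem N6_JJ : N6J * N6J = 1 := by
  rw [N6J, Matrix.diagonal_mul_diagonal]
  rw [show (fun i => sg i * sg i) = fun _ => (1 : ℂ) from funext F0.sg_sq]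
  exact Matrix.diagonal_one

theorem N6_JH : N6Jᴴ = N6J := by
  rw [N6J, Matrix.diagonal_conjTranspose]
  congr 1
  exact funext F0.star_sg

theorem N6_root {H : M4} (hH : H.PosDef) : ∃ B Pm : M4, Pm * B = 1 ∧ B * Pm = 1 ∧ H = Bᴴ * B := by
  have hs := hH.1.spectral_theorem
  rw [Unitary.conjStarAlgAut_apply] at hs
  have hp := hH.eigenvalues_pos
  obtain ⟨d, hd⟩ : ∃ d : Fin 4 → ℝ, d = hH.1.eigenvalues := ⟨_, rfl⟩
  rw [← hd] at hs hp
  obtain ⟨U, hU⟩ : ∃ U : Matrix.unitaryGroup (Fin 4) ℂ, U = hH.1.eigenvectorUnitary := ⟨_, rfl⟩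
  rw [← hU] at hs
  have h1 : star (U : M4) * (U : M4) = 1 := Unitary.coe_star_mul_self U
  have h2 : (U : M4) * star (U : M4) = 1 := Unitary.coe_mul_star_self U
  have hdd : diagonal (fun i => ((Real.sqrt (d i) : ℝ) : ℂ)) *
      diagonal (fun i => (((Real.sqrt (d i))⁻¹ : ℝ) : ℂ)) = (1 : M4) := by
    rw [Matrix.diagonal_mul_diagonal, ← Matrix.diagonal_one]
    congr 1
    funext i
    rw [← Complex.ofReal_mul, mul_inv_cancel₀ (Real.sqrt_pos.2 (hp i)).ne', Complex.ofReal_one]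
  have hdd' : diagonal (fun i => (((Real.sqrt (d i))⁻¹ : ℝ) : ℂ)) *
      diagonal (fun i => ((Real.sqrt (d i) : ℝ) : ℂ)) = (1 : M4) := by
    rw [Matrix.diagonal_mul_diagonal, ← Matrix.diagonal_one]
    congr 1
    funext i
    rw [← Complex.ofReal_mul, inv_mul_cancel₀ (Real.sqrt_pos.2 (hp i)).ne', Complex.ofReal_one]
  refine ⟨diagonal (fun i => ((Real.sqrt (d i) : ℝ) : ℂ)) * star (U : M4),
    (U : M4) * diagonal (fun i => (((Real.sqrt (d i))⁻¹ : ℝ) : ℂ)), ?_, ?_, ?_⟩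
  · rw [Matrix.mul_assoc, ← Matrix.mul_assoc (diagonal _) (diagonal _), hdd', Matrix.one_mul, h2]
  · rw [Matrix.mul_assoc, ← Matrix.mul_assoc (star (U : M4)), h1, Matrix.one_mul, hdd]
  · have e1 : (diagonal (fun i => ((Real.sqrt (d i) : ℝ) : ℂ)) * star (U : M4))ᴴ =
        (U : M4) * diagonal (fun i => ((Real.sqrt (d i) : ℝ) : ℂ)) := by
      rw [Matrix.conjTranspose_mul, Matrix.diagonal_conjTranspose]
      congr 1
      · exact Matrix.conjTranspose_conjTranspose _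
      · congr 1
        funext i
        simp
    rw [e1, Matrix.mul_assoc, ← Matrix.mul_assoc (diagonal _) (diagonal _),
      Matrix.diagonal_mul_diagonal]
    have e2 : (fun i => ((Real.sqrt (d i) : ℝ) : ℂ) * ((Real.sqrt (d i) : ℝ) : ℂ)) =
        (RCLike.ofReal ∘ d : Fin 4 → ℂ) := by
      funext i
      rw [← Complex.ofReal_mul, Real.mul_self_sqrt (hp i).le]
      rfl
    rw [e2, ← Matrix.mul_assoc]
    exact hs

/-- simultaneous diagonalisation -/
theorem N6_diag {H : M4} (hH : H.PosDef) : ∃ (B Pm : M4) (l : Fin 4 → ℝ), Pm * B = 1 ∧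
    B * Pm = 1 ∧ (∀ i, l i ≠ 0) ∧ N6J = Bᴴ * diagonal (fun i => (l i : ℂ)) * B ∧
    B * N6J * Bᴴ = diagonal (fun i => ((l i)⁻¹ : ℂ)) ∧ H = Bᴴ * B := by
  obtain ⟨B0, P0, h1, h2, h3⟩ := N6_root hH
  have hJ : (P0ᴴ * N6J * P0).IsHermitian := by
    unfold Matrix.IsHermitian
    rw [Matrix.conjTranspose_mul, Matrix.conjTranspose_mul, N6_JH,
      Matrix.conjTranspose_conjTranspose, Matrix.mul_assoc]
  have hs := hJ.spectral_theorem
  rw [Unitary.conjStarAlgAut_apply] at hs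
  obtain ⟨l, hl⟩ : ∃ l : Fin 4 → ℝ, l = hJ.eigenvalues := ⟨_, rfl⟩
  rw [← hl] at hs
  obtain ⟨U, hU⟩ : ∃ U : Matrix.unitaryGroup (Fin 4) ℂ, U = hJ.eigenvectorUnitary := ⟨_, rfl⟩
  rw [← hU] at hs
  have u1 : star (U : M4) * (U : M4) = 1 := Unitary.coe_star_mul_self U
  have u2 : (U : M4) * star (U : M4) = 1 := Unitary.coe_mul_star_self U
  have e0 : (star (U : M4) * B0)ᴴ = B0ᴴ * (U : M4) := by
    rw [Matrix.conjTranspose_mul]
    congr 1
    exact Matrix.conjTranspose_conjTranspose _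
  have hc : B0ᴴ * P0ᴴ = 1 := by
    rw [← Matrix.conjTranspose_mul, h1, Matrix.conjTranspose_one]
  have hN : N6J = (star (U : M4) * B0)ᴴ * diagonal (fun i => (l i : ℂ)) * (star (U : M4) * B0) := by
    have e1 : (B0ᴴ * P0ᴴ) * N6J * (P0 * B0) = N6J := by
      rw [hc, h1, Matrix.one_mul, Matrix.mul_one]
    rw [← e1, e0]
    have e2 : B0ᴴ * P0ᴴ * N6J * (P0 * B0) = B0ᴴ * (P0ᴴ * N6J * P0) * B0 := by
      simp only [Matrix.mul_assoc]
    rw [e2, hs]
    simp only [Matrix.mul_assoc]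
    rfl
  have hBP : (star (U : M4) * B0) * (P0 * (U : M4)) = 1 := by
    rw [Matrix.mul_assoc, ← Matrix.mul_assoc B0, h2, Matrix.one_mul, u1]
  have hPB : (P0 * (U : M4)) * (star (U : M4) * B0) = 1 := by
    rw [Matrix.mul_assoc, ← Matrix.mul_assoc (U : M4), u2, Matrix.one_mul, h1]
  obtain ⟨B, hB⟩ : ∃ B : M4, B = star (U : M4) * B0 := ⟨_, rfl⟩
  obtain ⟨Q, hQ⟩ : ∃ Q : M4, Q = P0 * (U : M4) := ⟨_, rfl⟩
  rw [← hB, ← hQ] at hBP
  rw [← hB, ← hQ] at hPB
  rw [← hB] at hN e0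
  have hQB : Qᴴ * Bᴴ = 1 := by
    rw [← Matrix.conjTranspose_mul, hBP, Matrix.conjTranspose_one]
  have hD : diagonal (fun i => (l i : ℂ)) * (B * N6J * Bᴴ) = 1 := by
    have e1 : diagonal (fun i => (l i : ℂ)) = Qᴴ * N6J * Q := by
      rw [hN]
      have : Qᴴ * (Bᴴ * diagonal (fun i => (l i : ℂ)) * B) * Q =
          (Qᴴ * Bᴴ) * diagonal (fun i => (l i : ℂ)) * (B * Q) := by
        simp only [Matrix.mul_assoc]
      rw [this, hQB, hBP, Matrix.one_mul, Matrix.mul_one]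
    rw [e1]
    have : Qᴴ * N6J * Q * (B * N6J * Bᴴ) = Qᴴ * (N6J * (Q * B) * N6J) * Bᴴ := by
      simp only [Matrix.mul_assoc]
    rw [this, hPB, Matrix.mul_one, N6_JJ, Matrix.mul_one, hQB]
  have hl0 : ∀ i, l i ≠ 0 := by
    intro i h0
    have e1 := congrFun (congrFun hD i) i
    rw [Matrix.diagonal_mul, Matrix.one_apply_eq, h0, Complex.ofReal_zero, zero_mul] at e1
    exact zero_ne_one e1
  refine ⟨B, Q, l, hPB, hBP, hl0, hN, ?_, ?_⟩
  · have e1 : diagonal (fun i => ((l i)⁻¹ : ℂ)) * diagonal (fun i => (l i : ℂ)) = (1 : M4) := by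
      rw [Matrix.diagonal_mul_diagonal, ← Matrix.diagonal_one]
      congr 1
      funext i
      exact inv_mul_cancel₀ (by exact_mod_cast hl0 i)
    calc B * N6J * Bᴴ = (diagonal (fun i => ((l i)⁻¹ : ℂ)) * diagonal (fun i => (l i : ℂ))) *
          (B * N6J * Bᴴ) := by rw [e1, Matrix.one_mul]
      _ = diagonal (fun i => ((l i)⁻¹ : ℂ)) := by rw [Matrix.mul_assoc, hD, Matrix.mul_one]
  · rw [e0, hB, Matrix.mul_assoc, ← Matrix.mul_assoc (U : M4), u2, Matrix.one_mul]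
    exact h3

theorem N6_poly {B M : M4} {d : Fin 4 → ℂ} (h : B * M = diagonal d * B) (q : Polynomial ℂ) :
    B * Polynomial.aeval M q = diagonal (fun i => q.eval (d i)) * B := by
  induction q using Polynomial.induction_on' with
  | add p q hp hq =>
    rw [map_add, Matrix.mul_add, hp, hq, ← Matrix.add_mul, Matrix.diagonal_add]
    simp only [Polynomial.eval_add]
  | monomial n a =>
    rw [Polynomial.aeval_monomial]
    have hpow : B * M ^ n = diagonal (fun i => d i ^ n) * B := by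
      induction n with
      | zero => simp
      | succ n ih =>
        rw [pow_succ, ← Matrix.mul_assoc, ih, Matrix.mul_assoc, h, ← Matrix.mul_assoc,
          Matrix.diagonal_mul_diagonal]
        simp only [pow_succ]
    rw [Algebra.algebraMap_eq_smul_one, Matrix.smul_mul, Matrix.one_mul, Matrix.mul_smul, hpow,
      ← Matrix.smul_mul]
    congr 1
    ext i j
    rw [Matrix.smul_apply]
    by_cases hij : i = j
    · subst hij
      simp
    · simp [Matrix.diagonal_apply_ne _ hij]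

/-- the form in the diagonalising coordinates -/
theorem N6_hfB {B : M4} {l : Fin 4 → ℝ} (hJ : N6J = Bᴴ * diagonal (fun i => (l i : ℂ)) * B)
    (v w : V4) : hf v w = ∑ i, (l i : ℂ) * ((B *ᵥ v) i * star ((B *ᵥ w) i)) := by
  rw [N6_hf, hJ, ← Matrix.mulVec_mulVec, ← Matrix.mulVec_mulVec, Matrix.dotProduct_mulVec,
    ← Matrix.star_mulVec]
  simp only [dotProduct, Matrix.mulVec_diagonal, Pi.star_apply]
  refine Finset.sum_congr rfl fun i _ => ?_
  ring

theorem N6_hfB_re {B : M4} {l : Fin 4 → ℝ} (hJ : N6J = Bᴴ * diagonal (fun i => (l i : ℂ)) * B)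
    (v : V4) : (hf v v).re = ∑ i, l i * ‖(B *ᵥ v) i‖ ^ 2 := by
  rw [N6_hfB hJ, Complex.re_sum]
  refine Finset.sum_congr rfl fun i _ => ?_
  have : (B *ᵥ v) i * star ((B *ᵥ v) i) = ((‖(B *ᵥ v) i‖ ^ 2 : ℝ) : ℂ) := by
    rw [Complex.star_def, Complex.mul_conj, Complex.normSq_eq_norm_sq]
  rw [this, ← Complex.ofReal_mul, Complex.ofReal_re]

theorem N6_mem {H B Pm : M4} {l : Fin 4 → ℝ} (hl : ∀ i, l i ≠ 0)
    (hJ : N6J = Bᴴ * diagonal (fun i => (l i : ℂ)) * B)
    (hD : B * N6J * Bᴴ = diagonal (fun i => ((l i)⁻¹ : ℂ))) (hH : H = Bᴴ * B) (v : V4) :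
    v ∈ N6N H ↔ ∀ i, 0 < l i → (B *ᵥ v) i = 0 := by
  have hM : B * (N6J * H) = diagonal (fun i => ((l i)⁻¹ : ℂ)) * B := by
    rw [hH, ← hD]
    simp only [Matrix.mul_assoc]
  have key : ∀ q : Polynomial ℂ, (hf (Polynomial.aeval (N6J * H) q *ᵥ v)
      (Polynomial.aeval (N6J * H) q *ᵥ v)).re =
      ∑ i, l i * (‖q.eval ((l i)⁻¹ : ℂ)‖ ^ 2 * ‖(B *ᵥ v) i‖ ^ 2) := by
    intro q
    rw [N6_hfB_re hJ]
    refine Finset.sum_congr rfl fun i _ => ?_
    rw [Matrix.mulVec_mulVec, N6_poly hM, ← Matrix.mulVec_mulVec, Matrix.mulVec_diagonal,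
      norm_mul, mul_pow]
  constructor
  · intro hv i hi
    obtain ⟨q, hq⟩ : ∃ q : Polynomial ℂ, q = ∏ j ∈ Finset.univ.filter (fun j => l j ≠ l i),
      (Polynomial.X - Polynomial.C ((l j)⁻¹ : ℂ)) := ⟨_, rfl⟩
    have h1 := hv q
    rw [key] at h1
    have hqi : q.eval ((l i)⁻¹ : ℂ) ≠ 0 := by
      rw [hq, Polynomial.eval_prod, Finset.prod_ne_zero_iff]
      intro j hj
      rw [Polynomial.eval_sub, Polynomial.eval_X, Polynomial.eval_C, sub_ne_zero]
      intro e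
      have e2 : (l i : ℂ) = (l j : ℂ) := inv_injective e
      exact (Finset.mem_filter.1 hj).2 (by exact_mod_cast e2.symm)
    have hqj : ∀ j, l j ≠ l i → q.eval ((l j)⁻¹ : ℂ) = 0 := by
      intro j hj
      rw [hq, Polynomial.eval_prod]
      refine Finset.prod_eq_zero (Finset.mem_filter.2 ⟨Finset.mem_univ j, hj⟩) ?_
      rw [Polynomial.eval_sub, Polynomial.eval_X, Polynomial.eval_C, sub_self]
    have hnn : ∀ j ∈ Finset.univ, 0 ≤ l j * (‖q.eval ((l j)⁻¹ : ℂ)‖ ^ 2 * ‖(B *ᵥ v) j‖ ^ 2) := by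
      intro j _
      by_cases hj : l j = l i
      · rw [hj]
        positivity
      · rw [hqj j hj]
        simp
    have h2 := (Finset.sum_eq_zero_iff_of_nonneg hnn).1 (le_antisymm h1
      (Finset.sum_nonneg hnn)) i (Finset.mem_univ i)
    have h3 : ‖(B *ᵥ v) i‖ ^ 2 = 0 := by
      rcases mul_eq_zero.1 h2 with h | h
      · exact absurd h (hl i)
      · rcases mul_eq_zero.1 h with h | h
        · exact absurd (norm_eq_zero.1 (pow_eq_zero_iff (two_ne_zero) |>.1 h)) hqi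
        · exact h
    exact norm_eq_zero.1 (pow_eq_zero_iff (two_ne_zero) |>.1 h3)
  · intro hv q
    rw [key]
    refine Finset.sum_nonpos fun i _ => ?_
    rcases lt_or_gt_of_ne (hl i) with h | h
    · exact mul_nonpos_of_nonpos_of_nonneg h.le (by positivity)
    · rw [hv i h]
      simp

/-- the negative part is a linear subspace -/
theorem N6_add {H : M4} (hH : H.PosDef) {v w : V4} (hv : v ∈ N6N H) (hw : w ∈ N6N H) (a b : ℂ) :
    a • v + b • w ∈ N6N H := by
  obtain ⟨B, Pm, l, h1, h2, hl, hJ, hD, hHB⟩ := N6_diag hH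
  rw [N6_mem (Pm := Pm) hl hJ hD hHB] at hv hw ⊢
  intro i hi
  rw [Matrix.mulVec_add, Matrix.mulVec_smul, Matrix.mulVec_smul, Pi.add_apply, Pi.smul_apply,
    Pi.smul_apply, hv i hi, hw i hi, smul_zero, smul_zero, add_zero]

/-- the form is negative definite on the negative part -/
theorem N6_neg {H : M4} (hH : H.PosDef) {v : V4} (hv : v ∈ N6N H) (h0 : v ≠ 0) :
    (hf v v).re < 0 := by
  obtain ⟨B, Pm, l, h1, h2, hl, hJ, hD, hHB⟩ := N6_diag hH
  rw [N6_mem (Pm := Pm) hl hJ hD hHB] at hv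
  rw [N6_hfB_re hJ]
  obtain ⟨i, hi⟩ : ∃ i, (B *ᵥ v) i ≠ 0 := by
    by_contra hcon
    push Not at hcon
    apply h0
    have : Pm *ᵥ (B *ᵥ v) = v := by rw [Matrix.mulVec_mulVec, h1, Matrix.one_mulVec]
    rw [← this, show B *ᵥ v = 0 from funext hcon, Matrix.mulVec_zero]
  have hneg : ∀ j ∈ Finset.univ, l j * ‖(B *ᵥ v) j‖ ^ 2 ≤ 0 := by
    intro j _
    rcases lt_or_gt_of_ne (hl j) with h | h
    · exact mul_nonpos_of_nonpos_of_nonneg h.le (by positivity)
    · rw [hv j h]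
      simp
  have hi' : l i * ‖(B *ᵥ v) i‖ ^ 2 < 0 := by
    have hli : l i < 0 := by
      rcases lt_or_gt_of_ne (hl i) with h | h
      · exact h
      · exact absurd (hv i h) hi
    have : 0 < ‖(B *ᵥ v) i‖ ^ 2 := by positivity
    exact mul_neg_of_neg_of_pos hli this
  exact Finset.sum_neg' hneg ⟨i, Finset.mem_univ i, hi'⟩

theorem N6_semi {R M M' : M4} (h : R * M = M' * R) (q : Polynomial ℂ) :
    R * Polynomial.aeval M q = Polynomial.aeval M' q * R := by
  induction q using Polynomial.induction_on' with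
  | add p q hp hq => rw [map_add, map_add, Matrix.mul_add, hp, hq, ← Matrix.add_mul]
  | monomial n a =>
    rw [Polynomial.aeval_monomial, Polynomial.aeval_monomial]
    have hpow : R * M ^ n = M' ^ n * R := by
      induction n with
      | zero => simp
      | succ n ih =>
        rw [pow_succ, ← Matrix.mul_assoc, ih, Matrix.mul_assoc, h, ← Matrix.mul_assoc, ← pow_succ]
    rw [Algebra.algebraMap_eq_smul_one, Matrix.smul_mul, Matrix.one_mul, Matrix.mul_smul, hpow,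
      Matrix.smul_mul, Matrix.one_mul, Matrix.smul_mul]

theorem N6_equiv {R H H' : M4} (hR : Iso4 R) (h : H = Rᴴ * H' * R) {v : V4} (hv : v ∈ N6N H) :
    R *ᵥ v ∈ N6N H' := by
  have h1 : R * N6J * Rᴴ = N6J := by
    have e1 : adj R = N6J * Rᴴ * N6J := by
      ext i j
      rw [F0.adj_apply, N6J, Matrix.mul_diagonal, Matrix.diagonal_mul, Matrix.conjTranspose_apply]
    have e2 : R * adj R = 1 := mul_eq_one_comm.1 (F0.adj_mul_self hR)
    rw [e1] at e2
    calc R * N6J * Rᴴ = R * (N6J * Rᴴ * N6J) * N6J := by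
          simp only [Matrix.mul_assoc, N6_JJ, Matrix.mul_one]
      _ = N6J := by rw [e2, Matrix.one_mul]
  have h2 : R * (N6J * H) = (N6J * H') * R := by
    rw [h]
    calc R * (N6J * (Rᴴ * H' * R)) = (R * N6J * Rᴴ) * H' * R := by
          simp only [Matrix.mul_assoc]
      _ = N6J * H' * R := by rw [h1]
  intro q
  have e : Polynomial.aeval (N6J * H') q *ᵥ (R *ᵥ v) =
      R *ᵥ (Polynomial.aeval (N6J * H) q *ᵥ v) := by
    rw [Matrix.mulVec_mulVec, Matrix.mulVec_mulVec, N6_semi h2]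
  rw [e, hR]
  exact hv q

theorem N6_closed {ι : Type*} {F : Filter ι} [F.NeBot] {Hn : ι → M4} {vn : ι → V4} {H : M4}
    {v : V4} (h1 : Tendsto Hn F (𝓝 H)) (h2 : Tendsto vn F (𝓝 v)) (h : ∀ᶠ n in F, vn n ∈ N6N (Hn n)) :
    v ∈ N6N H := by
  intro q
  have hc : Continuous fun p : M4 × V4 => (hf (Polynomial.aeval (N6J * p.1) q *ᵥ p.2)
      (Polynomial.aeval (N6J * p.1) q *ᵥ p.2)).re := by
    have c1 : Continuous fun p : M4 × V4 => Polynomial.aeval (N6J * p.1) q *ᵥ p.2 := by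
      refine Continuous.matrix_mulVec ?_ continuous_snd
      exact (Polynomial.continuous_aeval q).comp (continuous_const.mul continuous_fst)
    have c2 : Continuous fun x : V4 => (hf x x).re := by
      simp only [F0.hf_eq]
      refine Complex.continuous_re.comp ?_
      fun_prop
    exact c2.comp c1
  exact le_of_tendsto ((hc.tendsto (H, v)).comp (h1.prodMk_nhds h2)) (h.mono fun n hn => hn q)

theorem N6_zero (H : M4) : (0 : V4) ∈ N6N H := by
  intro q
  rw [Matrix.mulVec_zero]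
  simp [F0.hf_eq]

/-- the negative part is a graph -/
theorem N6_graph {H : M4} (hH : H.PosDef) {k : M4} (hk : k ∈ KK) : ∃ m : Fin 4 → ℂ,
    (∀ x y : ℂ, (x ≠ 0 ∨ y ≠ 0) →
      0 < ((m 0 * x + m 1 * y) * star x + (m 2 * x + m 3 * y) * star y).im) ∧
    ∀ x y : ℂ, k *ᵥ ![m 0 * x + m 1 * y, m 2 * x + m 3 * y, x, y] ∈ N6N H := by
  obtain ⟨W, hW⟩ : ∃ W : Submodule ℂ V4, ∀ v, v ∈ W ↔ v ∈ N6N H := by
    refine ⟨{ carrier := N6N H, add_mem' := ?_, zero_mem' := N6_zero H, smul_mem' := ?_ },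
      fun v => Iff.rfl⟩
    · intro v w hv hw
      have := N6_add hH hv hw 1 1
      rwa [one_smul, one_smul] at this
    · intro c v hv
      have := N6_add hH hv (N6_zero H) c 0
      rwa [zero_smul, add_zero] at this
  have hk1 : kᴴ * k = 1 := hk.1
  have hk2 : k * kᴴ = 1 := mul_eq_one_comm.1 hk1
  obtain ⟨π, hπ⟩ : ∃ π : W →ₗ[ℂ] (Fin 2 → ℂ), ∀ v : W, ∀ i, π v i = (kᴴ *ᵥ (v : V4)) (Fin.natAdd 2 i) := by
    refine ⟨(LinearMap.pi fun i : Fin 2 => (LinearMap.proj (Fin.natAdd 2 i)).comp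
      (Matrix.mulVecLin kᴴ)).comp W.subtype, fun v i => ?_⟩
    simp
  have hsurj : LinearMap.range π = ⊤ := by
    by_contra hne
    obtain ⟨f, hf0, hfl⟩ := Submodule.exists_le_ker_of_lt_top _ (lt_top_iff_ne_top.2 hne)
    have hfs : ∀ z : Fin 2 → ℂ, f z = f (Pi.single 0 1) * z 0 + f (Pi.single 1 1) * z 1 := by
      intro z
      have e : z = z 0 • (Pi.single 0 1 : Fin 2 → ℂ) + z 1 • (Pi.single 1 1 : Fin 2 → ℂ) := by
        ext i
        fin_cases i <;> simp
      conv_lhs => rw [e]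
      rw [map_add, map_smul, map_smul, smul_eq_mul, smul_eq_mul]
      ring
    obtain ⟨L0, hL0⟩ : ∃ L0 : V4, L0 = ![star (f (Pi.single 0 1)), star (f (Pi.single 1 1)), 0, 0] :=
      ⟨_, rfl⟩
    have horth : ∀ v ∈ N6N H, hf v (k *ᵥ L0) = 0 := by
      intro v hv
      have e1 : v = k *ᵥ (kᴴ *ᵥ v) := by rw [Matrix.mulVec_mulVec, hk2, Matrix.one_mulVec]
      rw [e1, hk.2, hL0]
      have e2 := hfl (LinearMap.mem_range_self π ⟨v, (hW v).2 hv⟩)
      rw [LinearMap.mem_ker, hfs, hπ, hπ] at e2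
      have e3 : f (Pi.single 0 1) * (kᴴ *ᵥ v) 2 + f (Pi.single 1 1) * (kᴴ *ᵥ v) 3 = 0 := e2
      simp only [fc]
      simp
      linear_combination (-1 : ℂ) * e3
    obtain ⟨B, Pm, l, h1, h2, hl, hJ, hD, hHB⟩ := N6_diag hH
    have hB : ∀ i, l i < 0 → (B *ᵥ (k *ᵥ L0)) i = 0 := by
      intro i hi
      have hv : Pm *ᵥ Pi.single i 1 ∈ N6N H := by
        rw [N6_mem (Pm := Pm) hl hJ hD hHB]
        intro j hj
        rw [Matrix.mulVec_mulVec, h2, Matrix.one_mulVec]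
        have : j ≠ i := fun e => by rw [e] at hj; exact lt_asymm hi hj
        rw [Pi.single_eq_of_ne this]
      have e1 := horth _ hv
      rw [N6_hfB hJ, Matrix.mulVec_mulVec, h2, Matrix.one_mulVec,
        Finset.sum_eq_single i (fun j _ hj => by rw [Pi.single_eq_of_ne hj]; simp)
        (fun h => absurd (Finset.mem_univ i) h), Pi.single_eq_same, one_mul] at e1
      have hli : (l i : ℂ) ≠ 0 := by exact_mod_cast hl i
      exact star_eq_zero.1 ((mul_eq_zero.1 e1).resolve_left hli)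
    have hzero : (hf (k *ᵥ L0) (k *ᵥ L0)).re = 0 := by
      rw [hk.2, hL0]
      simp [fc]
    rw [N6_hfB_re hJ] at hzero
    have hnn : ∀ i ∈ Finset.univ, 0 ≤ l i * ‖(B *ᵥ (k *ᵥ L0)) i‖ ^ 2 := by
      intro i _
      rcases lt_or_gt_of_ne (hl i) with h | h
      · rw [hB i h]
        simp
      · positivity
    have h3 := (Finset.sum_eq_zero_iff_of_nonneg hnn).1 hzero
    have h4 : B *ᵥ (k *ᵥ L0) = 0 := by
      funext i
      have h5 := (mul_eq_zero.1 (h3 i (Finset.mem_univ i))).resolve_left (hl i)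
      exact norm_eq_zero.1 (pow_eq_zero_iff (two_ne_zero) |>.1 h5)
    have h5 : L0 = 0 := by
      have e1 : kᴴ *ᵥ (Pm *ᵥ (B *ᵥ (k *ᵥ L0))) = L0 := by
        rw [Matrix.mulVec_mulVec _ Pm B, h1, Matrix.one_mulVec, Matrix.mulVec_mulVec, hk1,
          Matrix.one_mulVec]
      rw [← e1, h4, Matrix.mulVec_zero, Matrix.mulVec_zero]
    have f0 : f (Pi.single 0 1) = 0 := by
      have := congrFun h5 0
      rw [hL0] at this
      exact star_eq_zero.1 this
    have f1 : f (Pi.single 1 1) = 0 := by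
      have := congrFun h5 1
      rw [hL0] at this
      exact star_eq_zero.1 this
    exact hf0 (LinearMap.ext fun z => by rw [hfs, f0, f1]; simp)
  obtain ⟨v0, hv0⟩ := LinearMap.range_eq_top.1 hsurj ![1, 0]
  obtain ⟨v1, hv1⟩ := LinearMap.range_eq_top.1 hsurj ![0, 1]
  obtain ⟨z0, hz0⟩ : ∃ z0 : V4, z0 = kᴴ *ᵥ (v0 : V4) := ⟨_, rfl⟩
  obtain ⟨z1, hz1⟩ : ∃ z1 : V4, z1 = kᴴ *ᵥ (v1 : V4) := ⟨_, rfl⟩
  have a0 : z0 2 = 1 := by
    have := congrFun hv0 0
    rw [hπ] at this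
    rw [hz0]
    exact this
  have a1 : z0 3 = 0 := by
    have := congrFun hv0 1
    rw [hπ] at this
    rw [hz0]
    exact this
  have b0 : z1 2 = 0 := by
    have := congrFun hv1 0
    rw [hπ] at this
    rw [hz1]
    exact this
  have b1 : z1 3 = 1 := by
    have := congrFun hv1 1
    rw [hπ] at this
    rw [hz1]
    exact this
  have hmem : ∀ x y : ℂ, k *ᵥ ![z0 0 * x + z1 0 * y, z0 1 * x + z1 1 * y, x, y] ∈ N6N H := by
    intro x y
    have e1 : (![z0 0 * x + z1 0 * y, z0 1 * x + z1 1 * y, x, y] : V4) = x • z0 + y • z1 := by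
      ext i
      fin_cases i
      · simp
        ring
      · simp
        ring
      · simp [a0, b0]
      · simp [a1, b1]
    have e2 : k *ᵥ (x • z0 + y • z1) = x • (v0 : V4) + y • (v1 : V4) := by
      rw [Matrix.mulVec_add, Matrix.mulVec_smul, Matrix.mulVec_smul, hz0, hz1,
        Matrix.mulVec_mulVec, Matrix.mulVec_mulVec, hk2, Matrix.one_mulVec, Matrix.one_mulVec]
    rw [e1, e2]
    exact N6_add hH ((hW _).1 v0.2) ((hW _).1 v1.2) x y
  refine ⟨![z0 0, z1 0, z0 1, z1 1], fun x y hxy => ?_, fun x y => hmem x y⟩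
  have hne : k *ᵥ ![z0 0 * x + z1 0 * y, z0 1 * x + z1 1 * y, x, y] ≠ 0 := by
    intro h0
    have e1 := congrArg (fun u => kᴴ *ᵥ u) h0
    simp only [Matrix.mulVec_mulVec, hk1, Matrix.one_mulVec, Matrix.mulVec_zero] at e1
    have e2 := congrFun e1 2
    have e3 := congrFun e1 3
    rcases hxy with h | h
    · exact h e2
    · exact h e3
  have h6 := N6_neg hH (hmem x y) hne
  rw [hk.2] at h6
  have e7 : (fc ![z0 0 * x + z1 0 * y, z0 1 * x + z1 1 * y, x, y]
      ![z0 0 * x + z1 0 * y, z0 1 * x + z1 1 * y, x, y]).re =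
      -2 * ((z0 0 * x + z1 0 * y) * star x + (z0 1 * x + z1 1 * y) * star y).im := by
    simp [fc]
    ring
  rw [e7] at h6
  have : (![z0 0, z1 0, z0 1, z1 1] : Fin 4 → ℂ) 0 = z0 0 := rfl
  have h8 : 0 < ((z0 0 * x + z1 0 * y) * star x + (z0 1 * x + z1 1 * y) * star y).im := by
    linarith
  exact h8

end Pool.Agent.MPd01a95.KT
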