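import Mathlib
import Pool.Agent.Lib.MP_d01a95_gt_K.KDefs2
import Pool.Agent.Lib.MP_d01a95_gt_K.KA1
import Pool.Agent.Lib.MP_d01a95_gt_K.KA2
import Pool.Agent.Lib.MP_d01a95_gt_K.KA4
import Pool.Agent.Lib.MP_d01a95_gt_K.KF0
import Pool.Agent.Lib.MP_d01a95_gt_K.KF6
import Pool.Agent.Lib.MP_d01a95_gt_K.KH1
import Pool.Agent.Lib.MP_d01a95_gt_K.KH2
import Pool.Agent.Lib.MP_d01a95_gt_K.KH3
import Pool.Agent.Lib.MP_d01a95_gt_K.KH4
import Pool.Agent.Lib.MP_d01a95_gt_K.KA3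
import Pool.Agent.Lib.MP_d01a95_gt_K.KA5
import Pool.Agent.Lib.MP_d01a95_gt_K.KJ1
import Pool.Agent.Lib.MP_d01a95_gt_K.KJ4
import Pool.Agent.Lib.MP_d01a95_gt_K.KK3
import Pool.Agent.Lib.MP_d01a95_gt_K.KK7
import Pool.Agent.Lib.MP_d01a95_gt_K.KL1
import Pool.Agent.Lib.MP_d01a95_gt_K.KL2
import Pool.Agent.Lib.MP_d01a95_gt_K.KL3
import Pool.Agent.Lib.MP_d01a95_gt_K.KL4
import Pool.Agent.Lib.MP_d01a95_gt_K.KL5
import Pool.Agent.Lib.MP_d01a95_gt_K.KM1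
import Pool.Agent.Lib.MP_d01a95_gt_K.KM2
import Pool.Agent.Lib.MP_d01a95_gt_K.KM3
import Pool.Agent.Lib.MP_d01a95_gt_K.KM4
import Pool.Agent.Lib.MP_d01a95_gt_K.KM5
import Pool.Agent.Lib.MP_d01a95_gt_K.KN1
import Pool.Agent.Lib.MP_d01a95_gt_K.KN2

import Pool.Agent.Lib.MP_d01a95_gt_S.SDefs

set_option autoImplicit false
set_option linter.all false

open Matrix Filter Topology MeasureTheory
open scoped ContDiff

namespace Pool.Agent.MPd01a95.KT

open GU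

namespace N6b

/-- the form of a plane -/
noncomputable def N (m : Fin 4 → ℂ) (x y : ℂ) : ℝ :=
  ((m 0 * x + m 1 * y) * star x + (m 2 * x + m 3 * y) * star y).im

/-- the second coordinate of the point of the plane -/
noncomputable def Q (m : Fin 4 → ℂ) (μ : ℂ) : ℂ := star μ * (m 0 * μ + m 1) + m 2 * μ + m 3

/-- the path of planes -/
noncomputable def ms (m0 m : Fin 4 → ℂ) (s : ℝ) : Fin 4 → ℂ := fun i => (1 - s) * m0 i + s * m i

/-- the equations -/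
def E (P : C2 → ℂ) (m : Fin 4 → ℂ) (x : C2) : Prop :=
  P x = m 0 * x 0 + m 1 ∧ x 1 = star (x 0) * P x + m 2 * x 0 + m 3

theorem Q_im (m : Fin 4 → ℂ) (μ : ℂ) : (Q m μ).im = N m μ 1 := by
  unfold Q N
  rw [star_one]
  congr 1
  ring

theorem N_ms (m0 m : Fin 4 → ℂ) (s : ℝ) (x y : ℂ) :
    N (ms m0 m s) x y = (1 - s) * N m0 x y + s * N m x y := by
  unfold N ms
  have e : (((1 - s) * m0 0 + s * m 0) * x + ((1 - s) * m0 1 + s * m 1) * y) * star x +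
      (((1 - s) * m0 2 + s * m 2) * x + ((1 - s) * m0 3 + s * m 3) * y) * star y =
      ((1 - s : ℝ) : ℂ) * ((m0 0 * x + m0 1 * y) * star x + (m0 2 * x + m0 3 * y) * star y) +
      ((s : ℝ) : ℂ) * ((m 0 * x + m 1 * y) * star x + (m 2 * x + m 3 * y) * star y) := by
    push_cast
    ring
  rw [e, Complex.add_im, Complex.im_ofReal_mul, Complex.im_ofReal_mul]

theorem N_smul (m : Fin 4 → ℂ) (r : ℝ) (x y : ℂ) : N m (r * x) (r * y) = r ^ 2 * N m x y := by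
  unfold N
  have e : (m 0 * (r * x) + m 1 * (r * y)) * star (r * x) +
      (m 2 * (r * x) + m 3 * (r * y)) * star (r * y) =
      ((r ^ 2 : ℝ) : ℂ) * ((m 0 * x + m 1 * y) * star x + (m 2 * x + m 3 * y) * star y) := by
    have hr : star (r : ℂ) = r := Complex.conj_ofReal r
    rw [star_mul', star_mul', hr]
    push_cast
    ring
  rw [e, Complex.im_ofReal_mul]

theorem N_cont (m : Fin 4 → ℂ) : Continuous fun p : ℂ × ℂ => N m p.1 p.2 := by
  unfold N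
  refine Complex.continuous_im.comp ?_
  have h1 : Continuous fun p : ℂ × ℂ => p.1 := continuous_fst
  have h2 : Continuous fun p : ℂ × ℂ => p.2 := continuous_snd
  exact (((continuous_const.mul h1).add (continuous_const.mul h2)).mul h1.star).add
    (((continuous_const.mul h1).add (continuous_const.mul h2)).mul h2.star)

/-- a positive definite form is bounded below -/
theorem N_low (m : Fin 4 → ℂ) (hm : ∀ x y : ℂ, (x ≠ 0 ∨ y ≠ 0) → 0 < N m x y) :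
    ∃ c : ℝ, 0 < c ∧ ∀ μ : ℂ, c * (‖μ‖ ^ 2 + 1) ≤ N m μ 1 := by
  obtain ⟨S, hS⟩ : ∃ S : Set (ℂ × ℂ), S = {p : ℂ × ℂ | ‖p.1‖ ^ 2 + ‖p.2‖ ^ 2 = 1} := ⟨_, rfl⟩
  have hSc : IsCompact S := by
    have h1 : IsClosed S := by
      rw [hS]
      exact isClosed_eq ((continuous_fst.norm.pow 2).add (continuous_snd.norm.pow 2))
        continuous_const
    refine (isCompact_closedBall (0 : ℂ × ℂ) 1).of_isClosed_subset h1 ?_
    intro p hp
    rw [hS] at hp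
    have hp' : ‖p.1‖ ^ 2 + ‖p.2‖ ^ 2 = 1 := hp
    rw [mem_closedBall_zero_iff, Prod.norm_def, max_le_iff]
    constructor
    · nlinarith [norm_nonneg p.1, sq_nonneg ‖p.2‖]
    · nlinarith [norm_nonneg p.2, sq_nonneg ‖p.1‖]
  have hne : S.Nonempty := ⟨(1, 0), by rw [hS]; simp⟩
  obtain ⟨p, hp, hmin⟩ := hSc.exists_isMinOn hne (N_cont m).continuousOn
  have hp' : ‖p.1‖ ^ 2 + ‖p.2‖ ^ 2 = 1 := by rw [hS] at hp; exact hp
  have hpos : 0 < N m p.1 p.2 := by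
    apply hm
    by_contra hcon
    push Not at hcon
    rw [hcon.1, hcon.2] at hp'
    simp at hp'
  refine ⟨N m p.1 p.2, hpos, fun μ => ?_⟩
  obtain ⟨r, hr⟩ : ∃ r : ℝ, r = Real.sqrt (‖μ‖ ^ 2 + 1) := ⟨_, rfl⟩
  have hr0 : 0 < r := by rw [hr]; positivity
  have hr2 : r ^ 2 = ‖μ‖ ^ 2 + 1 := by rw [hr]; exact Real.sq_sqrt (by positivity)
  have hrc : (r : ℂ) ≠ 0 := by exact_mod_cast hr0.ne'
  have h1 : ((r : ℂ)⁻¹ * μ, (r : ℂ)⁻¹) ∈ S := by
    rw [hS]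
    show ‖(r : ℂ)⁻¹ * μ‖ ^ 2 + ‖(r : ℂ)⁻¹‖ ^ 2 = 1
    rw [norm_mul, norm_inv, Complex.norm_real, Real.norm_of_nonneg hr0.le]
    have : (r⁻¹ * ‖μ‖) ^ 2 + (r⁻¹) ^ 2 = (r ^ 2)⁻¹ * (‖μ‖ ^ 2 + 1) := by
      field_simp
    rw [this, ← hr2]
    exact inv_mul_cancel₀ (by positivity)
  have h2 := hmin h1
  have h3 : N m μ 1 = r ^ 2 * N m ((r : ℂ)⁻¹ * μ) (r : ℂ)⁻¹ := by
    rw [← N_smul, ← mul_assoc, mul_inv_cancel₀ hrc, one_mul]
  rw [h3, ← hr2, mul_comm]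
  exact mul_le_mul_of_nonneg_left h2 (by positivity)

theorem Q_cont (m : Fin 4 → ℂ) : Continuous (Q m) := by
  unfold Q
  exact (((continuous_star.mul ((continuous_const.mul continuous_id).add continuous_const))).add
    (continuous_const.mul continuous_id)).add continuous_const

theorem E_iff {P : C2 → ℂ} {m : Fin 4 → ℂ} {μ : ℂ} (h : P ![μ, Q m μ] = m 0 * μ + m 1) :
    E P m ![μ, Q m μ] := by
  refine ⟨h, ?_⟩
  rw [h]
  rfl

theorem E_eq {P : C2 → ℂ} {m : Fin 4 → ℂ} {x : C2} (h : E P m x) : x = ![x 0, Q m (x 0)] := by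
  funext i
  fin_cases i
  · rfl
  · show x 1 = Q m (x 0)
    rw [h.2, h.1]
    rfl


/-- the key identity at a point of intersection -/
theorem key (m : Fin 4 → ℂ) (μ a p q τ : ℂ) (ha : a = m 0 * μ + m 1)
    (hτ : τ = star μ * a + m 2 * μ + m 3) (hq : q = m 0 - p * (m 0 * star μ + m 2)) :
    (q + star a * p).im + τ.im * ‖p‖ ^ 2 = N m (1 - star p * μ) (-star p) := by
  unfold N
  have e1 : (m 0 * (1 - star p * μ) + m 1 * -star p) * star (1 - star p * μ) +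
      (m 2 * (1 - star p * μ) + m 3 * -star p) * star (-star p) =
      q - star p * a + ((‖p‖ ^ 2 : ℝ) : ℂ) * τ := by
    have e2 : ((‖p‖ ^ 2 : ℝ) : ℂ) = p * star p := by
      rw [← Complex.normSq_eq_norm_sq]
      exact (Complex.mul_conj p).symm
    rw [e2, hq, hτ, ha]
    simp only [star_sub, star_neg, star_mul', star_star, star_one]
    ring
  have e3 : (star a * p).im = -(star p * a).im := by
    have h : star p * a = star (star a * p) := by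
      rw [star_mul', star_star, mul_comm]
    have h2 : (star (star a * p)).im = -(star a * p).im := rfl
    rw [h, h2, neg_neg]
  have e4 : (q - star p * a + ((‖p‖ ^ 2 : ℝ) : ℂ) * τ).im =
      q.im - (star p * a).im + ‖p‖ ^ 2 * τ.im := by
    rw [Complex.add_im, Complex.sub_im, Complex.im_ofReal_mul]
  rw [e1, e4, Complex.add_im, e3]
  ring

/-- the map whose zeros are the solutions -/
noncomputable def F (P : C2 → ℂ) (m0 m : Fin 4 → ℂ) (z : ℝ × ℂ) : ℂ :=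
  P ![z.2, Q (ms m0 m z.1) z.2] - ms m0 m z.1 0 * z.2 - ms m0 m z.1 1

theorem ms_contDiff (m0 m : Fin 4 → ℂ) (i : Fin 4) :
    ContDiff ℝ ∞ fun z : ℝ × ℂ => ms m0 m z.1 i := by
  unfold ms
  have h1 : ContDiff ℝ ∞ fun z : ℝ × ℂ => ((z.1 : ℝ) : ℂ) :=
    Complex.ofRealCLM.contDiff.comp contDiff_fst
  exact ((contDiff_const.sub h1).mul contDiff_const).add (h1.mul contDiff_const)

theorem phi_contDiff (m0 m : Fin 4 → ℂ) :
    ContDiff ℝ ∞ fun z : ℝ × ℂ => (![z.2, Q (ms m0 m z.1) z.2] : C2) := by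
  have h2 : ContDiff ℝ ∞ fun z : ℝ × ℂ => z.2 := contDiff_snd
  have h3 : ContDiff ℝ ∞ fun z : ℝ × ℂ => star z.2 :=
    (Complex.conjCLE.contDiff (𝕜 := ℝ)).comp contDiff_snd
  refine contDiff_pi.mpr fun i => ?_
  fin_cases i
  · exact h2
  · show ContDiff ℝ ∞ fun z : ℝ × ℂ => Q (ms m0 m z.1) z.2
    unfold Q
    exact (((h3.mul (((ms_contDiff m0 m 0).mul h2).add (ms_contDiff m0 m 1)))).add
      ((ms_contDiff m0 m 2).mul h2)).add (ms_contDiff m0 m 3)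

theorem F_contDiffAt {P : C2 → ℂ} (hs : ContDiffOn ℝ ∞ P Up) (m0 m : Fin 4 → ℂ) {z : ℝ × ℂ}
    (hz : (![z.2, Q (ms m0 m z.1) z.2] : C2) ∈ Up) : ContDiffAt ℝ ∞ (F P m0 m) z := by
  have hopen : IsOpen Up :=
    isOpen_lt continuous_const (Complex.continuous_im.comp (continuous_apply 1))
  have h1 : ContDiffAt ℝ ∞ P (![z.2, Q (ms m0 m z.1) z.2] : C2) :=
    hs.contDiffAt (hopen.mem_nhds hz)
  have h2 := h1.comp z (phi_contDiff m0 m).contDiffAt
  have h3 : ContDiffAt ℝ ∞ (fun z : ℝ × ℂ => ms m0 m z.1 0 * z.2) z :=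
    ((ms_contDiff m0 m 0).mul contDiff_snd).contDiffAt
  exact (h2.sub h3).sub (ms_contDiff m0 m 1).contDiffAt

/-- the derivative in the direction of the fibre -/
theorem F_deriv {P : C2 → ℂ} (hs : ContDiffOn ℝ ∞ P Up)
    (h1 : ∀ x ∈ Up, pb P 1 x = 0) (h0 : ∀ x ∈ Up, pb P 0 x + P x * pd P 1 x = 0)
    (m0 m : Fin 4 → ℂ) {z : ℝ × ℂ} {x : C2} (hx : x = ![z.2, Q (ms m0 m z.1) z.2]) (hxU : x ∈ Up)
    (he : P x = ms m0 m z.1 0 * z.2 + ms m0 m z.1 1) (v : ℂ) :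
    fderiv ℝ (F P m0 m) z (0, v) =
      (pd P 0 x + pd P 1 x * (ms m0 m z.1 0 * star z.2 + ms m0 m z.1 2) - ms m0 m z.1 0) * v := by
  obtain ⟨n, hn⟩ : ∃ n, n = ms m0 m z.1 := ⟨_, rfl⟩
  have hz : (![z.2, Q (ms m0 m z.1) z.2] : C2) ∈ Up := by rw [← hx]; exact hxU
  have hF := ((F_contDiffAt hs m0 m hz).differentiableAt (by simp)).hasFDerivAt
  have hopen : IsOpen Up :=
    isOpen_lt continuous_const (Complex.continuous_im.comp (continuous_apply 1))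
  have hP : DifferentiableAt ℝ P x := (hs.contDiffAt (hopen.mem_nhds hxU)).differentiableAt (by simp)
  -- the curve
  have hc : HasDerivAt (fun t : ℝ => ((z.1, z.2 + t * v) : ℝ × ℂ)) ((0, v) : ℝ × ℂ) 0 := by
    refine HasDerivAt.prodMk (hasDerivAt_const _ _) ?_
    have h2 := ((Complex.ofRealCLM.hasDerivAt (x := (0 : ℝ))).mul_const v).const_add z.2
    simpa using h2
  have hc0 : (fun t : ℝ => ((z.1, z.2 + t * v) : ℝ × ℂ)) 0 = z := by simp
  have hd : HasDerivAt (fun t : ℝ => F P m0 m (z.1, z.2 + t * v))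
      (fderiv ℝ (F P m0 m) z (0, v)) 0 := by
    have h2 : HasFDerivAt (F P m0 m) (fderiv ℝ (F P m0 m) z)
        ((fun t : ℝ => ((z.1, z.2 + t * v) : ℝ × ℂ)) 0) := by rw [hc0]; exact hF
    exact h2.comp_hasDerivAt (0 : ℝ) hc
  -- the direct computation
  have hmu : HasDerivAt (fun t : ℝ => z.2 + t * v) v 0 := by
    have h2 := ((Complex.ofRealCLM.hasDerivAt (x := (0 : ℝ))).mul_const v).const_add z.2
    simpa using h2
  have hmus : HasDerivAt (fun t : ℝ => star (z.2 + t * v)) (star v) 0 := hmu.star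
  have hq : HasDerivAt (fun t : ℝ => Q n (z.2 + t * v))
      (star v * (n 0 * z.2 + n 1) + star z.2 * (n 0 * v) + n 2 * v) 0 := by
    unfold Q
    have h2 := ((hmus.mul ((hmu.const_mul (n 0)).add_const (n 1))).add
      (hmu.const_mul (n 2))).add_const (n 3)
    have e0 : z.2 + ((0 : ℝ) : ℂ) * v = z.2 := by simp
    simp only [e0] at h2
    exact h2
  have hy : HasDerivAt (fun t : ℝ => (![z.2 + t * v, Q n (z.2 + t * v)] : C2))
      (![v, star v * (n 0 * z.2 + n 1) + star z.2 * (n 0 * v) + n 2 * v] : C2) 0 := by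
    refine hasDerivAt_pi.mpr fun i => ?_
    fin_cases i
    · exact hmu
    · exact hq
  have hy0 : (fun t : ℝ => (![z.2 + t * v, Q n (z.2 + t * v)] : C2)) 0 = x := by
    rw [hx, ← hn]
    simp
  have hPy : HasDerivAt (fun t : ℝ => P ![z.2 + t * v, Q n (z.2 + t * v)])
      (fderiv ℝ P x ![v, star v * (n 0 * z.2 + n 1) + star z.2 * (n 0 * v) + n 2 * v]) 0 := by
    have h2 : HasFDerivAt P (fderiv ℝ P x)
        ((fun t : ℝ => (![z.2 + t * v, Q n (z.2 + t * v)] : C2)) 0) := by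
      rw [hy0]; exact hP.hasFDerivAt
    exact h2.comp_hasDerivAt (0 : ℝ) hy
  have hd2 : HasDerivAt (fun t : ℝ => F P m0 m (z.1, z.2 + t * v))
      (fderiv ℝ P x ![v, star v * (n 0 * z.2 + n 1) + star z.2 * (n 0 * v) + n 2 * v] -
        n 0 * v) 0 := by
    have h2 := (hPy.sub (hmu.const_mul (n 0))).sub_const (n 1)
    rw [hn] at h2 ⊢
    exact h2
  have hu := hd.unique hd2
  rw [hu, NA.N2_fderiv, h1 x hxU, ← hn]
  have g0 : (![v, star v * (n 0 * z.2 + n 1) + star z.2 * (n 0 * v) + n 2 * v] : C2) 0 = v := rfl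
  have g1 : (![v, star v * (n 0 * z.2 + n 1) + star z.2 * (n 0 * v) + n 2 * v] : C2) 1 =
    star v * (n 0 * z.2 + n 1) + star z.2 * (n 0 * v) + n 2 * v := rfl
  rw [g0, g1]
  have h3 := h0 x hxU
  rw [he, ← hn] at h3
  linear_combination star v * h3

/-- openness -/
theorem open_step {P : C2 → ℂ} (hs : ContDiffOn ℝ ∞ P Up)
    (h1 : ∀ x ∈ Up, pb P 1 x = 0) (h0 : ∀ x ∈ Up, pb P 0 x + P x * pd P 1 x = 0)
    (hsp : ∀ x ∈ Up, (pd P 0 x + star (P x) * pd P 1 x).im + (x 1).im * ‖pd P 1 x‖ ^ 2 < 0)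
    (m0 m : Fin 4 → ℂ) {s : ℝ} {x : C2} (hxU : x ∈ Up) (he : E P (ms m0 m s) x)
    (hm : ∀ x y : ℂ, (x ≠ 0 ∨ y ≠ 0) → 0 < N (ms m0 m s) x y) :
    {s : ℝ | ∃ x ∈ Up, E P (ms m0 m s) x} ∈ 𝓝 s := by
  obtain ⟨z, hz⟩ : ∃ z : ℝ × ℂ, z = (s, x 0) := ⟨_, rfl⟩
  have hz1 : z.1 = s := by rw [hz]
  have hz2 : z.2 = x 0 := by rw [hz]
  have hx : x = ![z.2, Q (ms m0 m z.1) z.2] := by
    rw [hz1, hz2]; exact E_eq he
  have he' : P x = ms m0 m z.1 0 * z.2 + ms m0 m z.1 1 := by rw [hz1, hz2]; exact he.1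
  obtain ⟨L, hL⟩ : ∃ L : ℂ, L = pd P 0 x + pd P 1 x *
    (ms m0 m z.1 0 * star z.2 + ms m0 m z.1 2) - ms m0 m z.1 0 := ⟨_, rfl⟩
  have hL0 : L ≠ 0 := by
    intro h
    rw [hL] at h
    have h2 := key (ms m0 m s) (x 0) (P x) (pd P 1 x) (pd P 0 x) (x 1) he.1 he.2 (by
      rw [hz1, hz2] at h
      linear_combination h)
    have h3 := hsp x hxU
    rw [h2] at h3
    refine absurd h3 (not_lt.mpr (hm _ _ ?_).le)
    by_cases hp : star (pd P 1 x) = 0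
    · left
      rw [hp, zero_mul, sub_zero]
      exact one_ne_zero
    · right
      exact neg_ne_zero.mpr hp
  have hzU : (![z.2, Q (ms m0 m z.1) z.2] : C2) ∈ Up := by rw [← hx]; exact hxU
  have hFs : HasStrictFDerivAt (F P m0 m) (fderiv ℝ (F P m0 m) z) z :=
    (F_contDiffAt hs m0 m hzU).hasStrictFDerivAt (by simp)
  have hG : HasStrictFDerivAt (fun z : ℝ × ℂ => ((z.1, F P m0 m z) : ℝ × ℂ))
      ((ContinuousLinearMap.fst ℝ ℝ ℂ).prod (fderiv ℝ (F P m0 m) z)) z :=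
    hasStrictFDerivAt_fst.prodMk hFs
  have hsurj : ((ContinuousLinearMap.fst ℝ ℝ ℂ).prod (fderiv ℝ (F P m0 m) z)).range = ⊤ := by
    rw [LinearMap.range_eq_top]
    intro w
    obtain ⟨f0, hf0⟩ : ∃ f0, f0 = fderiv ℝ (F P m0 m) z (w.1, 0) := ⟨_, rfl⟩
    refine ⟨(w.1, L⁻¹ * (w.2 - f0)), ?_⟩
    have e1 : ((w.1, L⁻¹ * (w.2 - f0)) : ℝ × ℂ) = (w.1, 0) + (0, L⁻¹ * (w.2 - f0)) := by
      rw [Prod.mk_add_mk, add_zero, zero_add]
    have e2 : fderiv ℝ (F P m0 m) z (w.1, L⁻¹ * (w.2 - f0)) = w.2 := by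
      rw [e1, map_add, ← hf0, F_deriv hs h1 h0 m0 m hx hxU he', ← hL]
      rw [mul_inv_cancel_left₀ hL0]
      ring
    exact Prod.ext rfl e2
  have hmap := hG.map_nhds_eq_of_surj hsurj
  have hF0 : F P m0 m z = 0 := by
    unfold F
    rw [← hx, he']
    ring
  rw [hF0, hz1] at hmap
  -- a neighbourhood
  have hopen : IsOpen Up :=
    isOpen_lt continuous_const (Complex.continuous_im.comp (continuous_apply 1))
  have hV : {z : ℝ × ℂ | (![z.2, Q (ms m0 m z.1) z.2] : C2) ∈ Up} ∈ 𝓝 z :=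
    (phi_contDiff m0 m).continuous.continuousAt.preimage_mem_nhds (hopen.mem_nhds hzU)
  have hW := Filter.image_mem_map (m := fun z : ℝ × ℂ => ((z.1, F P m0 m z) : ℝ × ℂ)) hV
  rw [hmap] at hW
  have hcs : Tendsto (fun s : ℝ => ((s, 0) : ℝ × ℂ)) (𝓝 s) (𝓝 (s, 0)) :=
    (continuous_id.prodMk continuous_const).tendsto s
  filter_upwards [hcs hW] with t ht
  obtain ⟨w, hw, hwe⟩ := ht
  have hw1 : w.1 = t := congrArg Prod.fst hwe
  have hw2 : F P m0 m w = 0 := congrArg Prod.snd hwe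
  refine ⟨![w.2, Q (ms m0 m t) w.2], ?_, E_iff ?_⟩
  · rw [← hw1]; exact hw
  · unfold F at hw2
    rw [hw1] at hw2
    linear_combination hw2


/-- the form of the base point and a solution -/
theorem bound (m0 m : Fin 4 → ℂ) (P0 : ℂ) : ∃ B : ℝ, 0 < B ∧ ∀ s : ℝ, 0 ≤ s → s ≤ 1 → ∀ μ : ℂ,
    ‖fc (XX P0 0 Complex.I) (XX (ms m0 m s 0 * μ + ms m0 m s 1) μ (Q (ms m0 m s) μ))‖ ^ 2 ≤
      B * (‖μ‖ ^ 2 + 1) := by
  obtain ⟨b, hb⟩ : ∃ b : ℝ, b = 1 + ‖P0‖ + (‖m0 2‖ + ‖m 2‖) + (‖m0 3‖ + ‖m 3‖) := ⟨_, rfl⟩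
  have hb0 : 0 < b := by rw [hb]; positivity
  have hms : ∀ s : ℝ, 0 ≤ s → s ≤ 1 → ∀ i, ‖ms m0 m s i‖ ≤ ‖m0 i‖ + ‖m i‖ := by
    intro s h1 h2 i
    unfold ms
    refine (norm_add_le _ _).trans (add_le_add ?_ ?_)
    · rw [norm_mul]
      have : ‖(1 - (s : ℂ))‖ ≤ 1 := by
        have e : (1 - (s : ℂ)) = ((1 - s : ℝ) : ℂ) := by push_cast; ring
        rw [e, Complex.norm_real, Real.norm_of_nonneg (by linarith)]
        linarith
      nlinarith [norm_nonneg (m0 i)]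
    · rw [norm_mul, Complex.norm_real, Real.norm_of_nonneg h1]
      nlinarith [norm_nonneg (m i)]
  refine ⟨2 * b ^ 2, by positivity, fun s h1 h2 μ => ?_⟩
  have e : fc (XX P0 0 Complex.I) (XX (ms m0 m s 0 * μ + ms m0 m s 1) μ (Q (ms m0 m s) μ)) =
      Complex.I * (Complex.I + P0 * star μ - star (ms m0 m s 2 * μ + ms m0 m s 3)) := by
    rw [fc_XX]
    unfold Q
    simp only [star_add, star_mul', star_star, star_zero]
    ring
  rw [e, norm_mul, Complex.norm_I, one_mul]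
  have h3 : ‖Complex.I + P0 * star μ - star (ms m0 m s 2 * μ + ms m0 m s 3)‖ ≤ b * (‖μ‖ + 1) := by
    refine (norm_sub_le _ _).trans ?_
    have h4 : ‖Complex.I + P0 * star μ‖ ≤ 1 + ‖P0‖ * ‖μ‖ := by
      refine (norm_add_le _ _).trans ?_
      rw [Complex.norm_I, norm_mul, norm_star]
    have h5 : ‖star (ms m0 m s 2 * μ + ms m0 m s 3)‖ ≤
        (‖m0 2‖ + ‖m 2‖) * ‖μ‖ + (‖m0 3‖ + ‖m 3‖) := by
      rw [norm_star]
      refine (norm_add_le _ _).trans (add_le_add ?_ (hms s h1 h2 3))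
      rw [norm_mul]
      exact mul_le_mul_of_nonneg_right (hms s h1 h2 2) (norm_nonneg _)
    rw [hb]
    nlinarith [norm_nonneg μ, norm_nonneg P0, norm_nonneg (m0 2), norm_nonneg (m 2),
      norm_nonneg (m0 3), norm_nonneg (m 3), mul_nonneg (norm_nonneg (m0 3)) (norm_nonneg μ),
      mul_nonneg (norm_nonneg (m 3)) (norm_nonneg μ)]
  have h6 : (‖μ‖ + 1) ^ 2 ≤ 2 * (‖μ‖ ^ 2 + 1) := by nlinarith [sq_nonneg (‖μ‖ - 1)]
  calc ‖Complex.I + P0 * star μ - star (ms m0 m s 2 * μ + ms m0 m s 3)‖ ^ 2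
      ≤ (b * (‖μ‖ + 1)) ^ 2 := by gcongr
    _ = b ^ 2 * (‖μ‖ + 1) ^ 2 := by ring
    _ ≤ b ^ 2 * (2 * (‖μ‖ ^ 2 + 1)) := by gcongr
    _ = 2 * b ^ 2 * (‖μ‖ ^ 2 + 1) := by ring

theorem ms_zero (m0 m : Fin 4 → ℂ) : ms m0 m 0 = m0 := by
  funext i
  simp [ms]

theorem ms_one (m0 m : Fin 4 → ℂ) : ms m0 m 1 = m := by
  funext i
  simp [ms]

/-- the method of continuity -/
theorem main {P : C2 → ℂ} (hs : ContDiffOn ℝ ∞ P Up)
    (h1 : ∀ x ∈ Up, pb P 1 x = 0) (h0 : ∀ x ∈ Up, pb P 0 x + P x * pd P 1 x = 0)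
    (hsp : ∀ x ∈ Up, (pd P 0 x + star (P x) * pd P 1 x).im + (x 1).im * ‖pd P 1 x‖ ^ 2 < 0)
    (hpr : ∀ r : ℝ, ∃ K' ⊆ Up, IsCompact K' ∧ ∀ y ∈ Up,
      ‖fc (XX (P ![0, Complex.I]) 0 Complex.I) (XX (P y) (y 0) (y 1))‖ ^ 2 ≤
        r * (y 1).im → y ∈ K')
    (m : Fin 4 → ℂ) (hm : ∀ x y : ℂ, (x ≠ 0 ∨ y ≠ 0) → 0 < N m x y) :
    ∃ x ∈ Up, E P m x := by
  obtain ⟨P0, hP0⟩ : ∃ P0, P0 = P ![0, Complex.I] := ⟨_, rfl⟩
  rw [← hP0] at hpr
  obtain ⟨m0, hm0⟩ : ∃ m0 : Fin 4 → ℂ, m0 = ![Complex.I, P0, star P0, Complex.I] := ⟨_, rfl⟩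
  have hN0 : ∀ x y : ℂ, N m0 x y = ‖x‖ ^ 2 + ‖y‖ ^ 2 := by
    intro x y
    rw [hm0]
    show ((Complex.I * x + P0 * y) * star x + (star P0 * x + Complex.I * y) * star y).im = _
    have e1 : (Complex.I * x + P0 * y) * star x + (star P0 * x + Complex.I * y) * star y =
        Complex.I * (((‖x‖ ^ 2 + ‖y‖ ^ 2 : ℝ) : ℂ)) + (P0 * y * star x + star (P0 * y * star x)) := by
      have e2 : ∀ w : ℂ, ((‖w‖ ^ 2 : ℝ) : ℂ) = w * star w := fun w => by
        rw [← Complex.normSq_eq_norm_sq]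
        exact (Complex.mul_conj w).symm
      rw [Complex.ofReal_add, e2, e2]
      simp only [star_mul', star_star]
      ring
    rw [e1, Complex.add_im]
    have e3 : (P0 * y * star x + star (P0 * y * star x)).im = 0 := by
      rw [Complex.add_im]
      show (P0 * y * star x).im + -(P0 * y * star x).im = 0
      ring
    rw [e3, Complex.I_mul_im, Complex.ofReal_re, add_zero]
  have hN0' : ∀ x y : ℂ, (x ≠ 0 ∨ y ≠ 0) → 0 < N m0 x y := by
    intro x y h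
    rw [hN0]
    rcases h with h | h
    · have := norm_pos_iff.mpr h
      positivity
    · have := norm_pos_iff.mpr h
      positivity
  have hms : ∀ s : ℝ, 0 ≤ s → s ≤ 1 → ∀ x y : ℂ, (x ≠ 0 ∨ y ≠ 0) → 0 < N (ms m0 m s) x y := by
    intro s hs0 hs1 x y h
    rw [N_ms]
    have a1 := hN0' x y h
    have a2 := hm x y h
    rcases eq_or_lt_of_le hs0 with h2 | h2
    · rw [← h2]; linarith
    · have := mul_pos h2 a2
      have := mul_nonneg (sub_nonneg.mpr hs1) a1.le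
      linarith
  obtain ⟨c, hc, hcl⟩ := N_low m hm
  obtain ⟨c', hc', hc1, hc2⟩ : ∃ c' : ℝ, 0 < c' ∧ c' ≤ 1 ∧ c' ≤ c :=
    ⟨min 1 c, lt_min one_pos hc, min_le_left _ _, min_le_right _ _⟩
  have hlow : ∀ s : ℝ, 0 ≤ s → s ≤ 1 → ∀ μ : ℂ, c' * (‖μ‖ ^ 2 + 1) ≤ (Q (ms m0 m s) μ).im := by
    intro s hs0 hs1 μ
    rw [Q_im, N_ms, hN0, norm_one, one_pow]
    have a1 : c' * (‖μ‖ ^ 2 + 1) ≤ ‖μ‖ ^ 2 + 1 := by nlinarith [sq_nonneg ‖μ‖]
    have a2 : c' * (‖μ‖ ^ 2 + 1) ≤ N m μ 1 :=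
      (mul_le_mul_of_nonneg_right hc2 (by positivity)).trans (hcl μ)
    have a3 := mul_le_mul_of_nonneg_left a1 (sub_nonneg.mpr hs1)
    have a4 := mul_le_mul_of_nonneg_left a2 hs0
    linarith
  obtain ⟨B, hB, hBd⟩ := bound m0 m P0
  obtain ⟨K, hKU, hKc, hK⟩ := hpr (B / c')
  have hin : ∀ s : ℝ, 0 ≤ s → s ≤ 1 → ∀ x : C2, E P (ms m0 m s) x → x ∈ K := by
    intro s hs0 hs1 x hx
    have e1 := E_eq hx
    have e2 : x 1 = Q (ms m0 m s) (x 0) := congrFun e1 1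
    have hxU : x ∈ Up := by
      show 0 < (x 1).im
      rw [e2]
      exact lt_of_lt_of_le (by positivity) (hlow s hs0 hs1 (x 0))
    refine hK x hxU ?_
    rw [hx.1, e2]
    refine (hBd s hs0 hs1 (x 0)).trans ?_
    rw [div_mul_eq_mul_div, le_div_iff₀ hc', mul_assoc]
    refine mul_le_mul_of_nonneg_left ?_ hB.le
    rw [mul_comm]
    exact hlow s hs0 hs1 (x 0)
  obtain ⟨S, hS⟩ : ∃ S : Set ℝ, S = {s : ℝ | ∃ x ∈ Up, E P (ms m0 m s) x} := ⟨_, rfl⟩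
  have hmem : ∀ s, s ∈ S ↔ ∃ x ∈ Up, E P (ms m0 m s) x := fun s => by rw [hS]; rfl
  have hcl : IsClosed (S ∩ Set.Icc 0 1) := by
    obtain ⟨T, hT⟩ : ∃ T : Set (ℝ × C2), T = (Set.Icc (0 : ℝ) 1 ×ˢ K) ∩
      (fun p : ℝ × C2 => (P p.2 - (ms m0 m p.1 0 * p.2 0 + ms m0 m p.1 1),
        p.2 1 - (star (p.2 0) * P p.2 + ms m0 m p.1 2 * p.2 0 + ms m0 m p.1 3))) ⁻¹' {(0, 0)} :=
      ⟨_, rfl⟩
    have hcpt : IsCompact (Set.Icc (0 : ℝ) 1 ×ˢ K) := isCompact_Icc.prod hKc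
    have hTc : IsCompact T := by
      have hcont : ContinuousOn (fun p : ℝ × C2 => (P p.2 - (ms m0 m p.1 0 * p.2 0 + ms m0 m p.1 1),
          p.2 1 - (star (p.2 0) * P p.2 + ms m0 m p.1 2 * p.2 0 + ms m0 m p.1 3)))
          (Set.Icc (0 : ℝ) 1 ×ˢ K) := by
        have hP : ContinuousOn (fun p : ℝ × C2 => P p.2) (Set.Icc (0 : ℝ) 1 ×ˢ K) :=
          hs.continuousOn.comp continuous_snd.continuousOn fun p hp => hKU hp.2
        have hmc : ∀ i, Continuous fun p : ℝ × C2 => ms m0 m p.1 i := by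
          intro i
          unfold ms
          have h1 : Continuous fun p : ℝ × C2 => ((p.1 : ℝ) : ℂ) :=
            Complex.continuous_ofReal.comp continuous_fst
          exact ((continuous_const.sub h1).mul continuous_const).add (h1.mul continuous_const)
        have hx0 : Continuous fun p : ℝ × C2 => p.2 0 := (continuous_apply 0).comp continuous_snd
        have hx1 : Continuous fun p : ℝ × C2 => p.2 1 := (continuous_apply 1).comp continuous_snd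
        refine ContinuousOn.prodMk ?_ ?_
        · exact hP.sub (((hmc 0).mul hx0).add (hmc 1)).continuousOn
        · exact hx1.continuousOn.sub (((hx0.star.continuousOn.mul hP).add
            ((hmc 2).mul hx0).continuousOn).add (hmc 3).continuousOn)
      refine hcpt.of_isClosed_subset ?_ ?_
      · rw [hT]
        exact hcont.preimage_isClosed_of_isClosed hcpt.isClosed isClosed_singleton
      · rw [hT]
        exact Set.inter_subset_left
    have hST : S ∩ Set.Icc 0 1 = Prod.fst '' T := by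
      ext s
      constructor
      · rintro ⟨h2, h3⟩
        obtain ⟨x, hxU, hx⟩ := (hmem s).mp h2
        refine ⟨(s, x), ?_, rfl⟩
        rw [hT]
        refine ⟨⟨h3, hin s h3.1 h3.2 x hx⟩, ?_⟩
        have a1 : P x - (ms m0 m s 0 * x 0 + ms m0 m s 1) = 0 := sub_eq_zero.mpr hx.1
        have a2 : x 1 - (star (x 0) * P x + ms m0 m s 2 * x 0 + ms m0 m s 3) = 0 :=
          sub_eq_zero.mpr hx.2
        exact Prod.ext a1 a2
      · rintro ⟨p, hp, rfl⟩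
        rw [hT] at hp
        obtain ⟨⟨h2, h3⟩, h4⟩ := hp
        have a1 := congrArg Prod.fst h4
        have a2 := congrArg Prod.snd h4
        exact ⟨(hmem p.1).mpr ⟨p.2, hKU h3, sub_eq_zero.mp a1, sub_eq_zero.mp a2⟩, h2⟩
    rw [hST]
    exact (hTc.image continuous_fst).isClosed
  have h00 : (0 : ℝ) ∈ S := by
    rw [hmem, ms_zero]
    refine ⟨![0, Complex.I], ?_, ?_, ?_⟩
    · show 0 < (Complex.I).im
      rw [Complex.I_im]; exact one_pos
    · rw [← hP0, hm0]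
      show P0 = Complex.I * 0 + P0
      ring
    · rw [← hP0, hm0]
      show Complex.I = star 0 * P0 + star P0 * 0 + Complex.I
      rw [star_zero]
      ring
  have hgt : ∀ s ∈ S ∩ Set.Ico 0 1, S ∈ 𝓝[>] s := by
    rintro s ⟨h2, h3⟩
    obtain ⟨x, hxU, hx⟩ := (hmem s).mp h2
    have h4 := open_step hs h1 h0 hsp m0 m hxU hx (hms s h3.1 h3.2.le)
    rw [← hS] at h4
    exact mem_nhdsWithin_of_mem_nhds h4
  have hfin := hcl.Icc_subset_of_forall_mem_nhdsWithin h00 hgt (show (1 : ℝ) ∈ Set.Icc (0:ℝ) 1 from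
    ⟨zero_le_one, le_rfl⟩)
  rw [hmem, ms_one] at hfin
  exact hfin

end N6b

variable {G : Type} [Group G]

namespace Kd

variable {D : Kd G} (hD : Good D)

include hD

/-- module N6b: a negative definite plane, given as a graph over the last two coordinates of the
chart, meets the surface -/
theorem N6_ex {k : M4} (hk : k ∈ D.FF) {m : Fin 4 → ℂ}
    (hm : ∀ x y : ℂ, (x ≠ 0 ∨ y ≠ 0) →
      0 < ((m 0 * x + m 1 * y) * star x + (m 2 * x + m 3 * y) * star y).im) :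
    ∃ x ∈ Up, D.P k x = m 0 * x 0 + m 1 ∧
      x 1 = star (x 0) * D.P k x + m 2 * x 0 + m 3 := by
  obtain ⟨hs, h1, h0⟩ := N2_ba hD hk
  refine N6b.main hs h1 h0 (fun x hx => spacelike hD hk hx) (fun r => ?_) m hm
  have hI : (![0, Complex.I] : C2) ∈ Up := by
    show 0 < (Complex.I).im
    rw [Complex.I_im]; exact one_pos
  obtain ⟨K', hK, hKc, h⟩ := psi_proper hD hk {![0, Complex.I]}
    (Set.singleton_subset_iff.mpr hI) isCompact_singleton (r / 4)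
  refine ⟨K', hK, hKc, fun y hy hle => h _ rfl y hy ?_⟩
  rw [vx_def, vx_def, hk.1.2]
  have e : (![0, Complex.I] : C2) 1 = Complex.I := rfl
  have e' : (![0, Complex.I] : C2) 0 = 0 := rfl
  rw [e, e', Complex.I_im]
  refine hle.trans (le_of_eq ?_)
  ring

end Kd

end Pool.Agent.MPd01a95.KT
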