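import Mathlib
import Pool.Agent.Lib.MP_d01a95_gt_K.KDefs2
import Pool.Agent.Lib.MP_d01a95_gt_K.KA1
import Pool.Agent.Lib.MP_d01a95_gt_K.KF0
import Pool.Agent.Lib.MP_d01a95_gt_S.SDefs
import Pool.Agent.Lib.MP_d01a95_gt_M.Act

set_option autoImplicit false
set_option linter.all false

open Matrix Filter Topology MeasureTheory
open scoped ContDiff ComplexOrder

namespace Pool.Agent.MPd01a95.KT

open GU

variable {G : Type} [Group G]

/-- one minus the square of the norm -/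
noncomputable def N6c_q (z : C2) : ℝ := 1 - ∑ i, ‖z i‖ ^ 2

theorem N6c_q_pos {z : C2} (hz : z ∈ HolAux.Bl (Fin 2)) : 0 < N6c_q z := by
  have : ∑ i, ‖z i‖ ^ 2 < 1 := hz
  unfold N6c_q
  linarith

theorem N6c_q_cont : Continuous N6c_q := by
  unfold N6c_q
  fun_prop

theorem N6c_q_nq (z : C2) : LowAux.nqC (CW.vz z) = N6c_q z := CW.nqC_vz z

theorem N6c_B {z : C2} (hz : z ∈ HolAux.Bl (Fin 2)) : z ∈ CW.B := hz

/-- the square of the hyperbolic cosine -/
noncomputable def N6c_w (P : Kp G) (g : G) (z : C2) : ℝ := ‖CW.den (P.σ g) z‖ ^ 2 / N6c_q z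

/-- the weight -/
noncomputable def N6c_u (P : Kp G) (r : ℝ) (g : G) (z : C2) : ℝ := max 0 (r - N6c_w P g z)

/-- the summand -/
noncomputable def N6c_f (P : Kp G) (r : ℝ) (g : G) (z : C2) : M4 :=
  (N6c_u P r g z : ℂ) • ((P.R g)ᴴ * P.R g)

theorem N6c_u_nonneg (P : Kp G) (r : ℝ) (g : G) (z : C2) : 0 ≤ N6c_u P r g z := le_max_left _ _

theorem N6c_den_cont (g : GU (Fin 2)) : Continuous (CW.den g) :=
  (CW.mulVec_diff g (Sum.inr ())).continuous

theorem N6c_u_cont (P : Kp G) (r : ℝ) (g : G) :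
    ContinuousOn (N6c_u P r g) (HolAux.Bl (Fin 2)) := by
  have h1 : ContinuousOn (N6c_w P g) (HolAux.Bl (Fin 2)) := by
    unfold N6c_w
    refine ContinuousOn.div ?_ ?_ ?_
    · exact ((N6c_den_cont _).norm.pow 2).continuousOn
    · exact N6c_q_cont.continuousOn
    · intro z hz
      exact (N6c_q_pos hz).ne'
  have h2 : Continuous fun x : ℝ => max 0 (r - x) := by fun_prop
  exact h2.comp_continuousOn h1

theorem N6c_ee (A : Matrix (Fin 2 ⊕ Unit) (Fin 2 ⊕ Unit) ℂ) :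
    (A *ᵥ LowAux.ee (Fin 2)) (Sum.inr ()) = A (Sum.inr ()) (Sum.inr ()) := by
  rw [Matrix.mulVec, dotProduct, Fintype.sum_sum_type]
  simp [LowAux.ee]

/-- transitivity -/
theorem N6c_trans {z : C2} (hz : z ∈ HolAux.Bl (Fin 2)) : ∃ h : GU (Fin 2),
    ∀ g : GU (Fin 2), c (g * h) ^ 2 = ‖CW.den g z‖ ^ 2 / N6c_q z := by
  have hq := N6c_q_pos hz
  set a : ℂ := (((Real.sqrt (N6c_q z))⁻¹ : ℝ) : ℂ) with ha
  have han : ‖a‖ ^ 2 = (N6c_q z)⁻¹ := by
    rw [ha, Complex.norm_real, Real.norm_eq_abs, sq_abs, inv_pow, Real.sq_sqrt hq.le]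
  have h1 : LowAux.nqC (a • CW.vz z) = 1 := by
    rw [CW.nqC_smul, N6c_q_nq, han, inv_mul_cancel₀ hq.ne']
  obtain ⟨h, hh, hh2⟩ := LowAux.exists_iso (a • CW.vz z) h1
  obtain ⟨k, hk⟩ : ∃ k : GU (Fin 2), k.M = h := ⟨⟨h, hh⟩, rfl⟩
  rw [← hk] at hh2
  refine ⟨k, fun g => ?_⟩
  have e : (g * k).M (Sum.inr ()) (Sum.inr ()) = a * CW.den g z := by
    rw [← N6c_ee (g * k).M, GU.M_mul, ← Matrix.mulVec_mulVec, hh2, Matrix.mulVec_smul]
    rfl
  have e2 : c (g * k) = ‖a * CW.den g z‖ := by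
    rw [← e]; rfl
  rw [e2, norm_mul, mul_pow, han, div_eq_inv_mul]

theorem N6c_den_one (z : C2) : CW.den 1 z = 1 := by
  simp [CW.den, CW.vz]

/-- local finiteness -/
theorem N6c_fin (P : Kp G) (r : ℝ) {s : ℝ} (hs : 0 < s) :
    {g : G | ∃ z ∈ HolAux.Bl (Fin 2), s ≤ N6c_q z ∧ N6c_u P r g z ≠ 0}.Finite := by
  refine (P.lat.finite_meet r s⁻¹).subset ?_
  rintro g ⟨z, hz, hs2, hu⟩
  have hw : N6c_w P g z < r := by
    by_contra hcon
    push Not at hcon
    apply hu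
    unfold N6c_u
    exact max_eq_left (by linarith)
  obtain ⟨h, hh⟩ := N6c_trans hz
  have h1 := hh 1
  have h2 := hh (P.σ g)
  rw [one_mul, N6c_den_one, norm_one, one_pow, one_div] at h1
  have h3 := c_ge_one h
  have h4 := c_ge_one (P.σ g * h)
  refine ⟨h, ?_, ?_⟩
  · have h5 : (N6c_q z)⁻¹ ≤ s⁻¹ := inv_anti₀ hs hs2
    nlinarith
  · change c (P.σ g * h) ^ 2 = N6c_w P g z at h2
    nlinarith

theorem N6c_supp (P : Kp G) (r : ℝ) {z : C2} (hz : z ∈ HolAux.Bl (Fin 2)) :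
    (Function.support fun g => N6c_f P r g z).Finite := by
  refine (N6c_fin P r (N6c_q_pos hz)).subset ?_
  intro g hg
  refine ⟨z, hz, le_rfl, fun h0 => hg ?_⟩
  simp only [N6c_f, h0, Complex.ofReal_zero, zero_smul]

/-- continuity -/
theorem N6c_cont (P : Kp G) (r : ℝ) :
    ContinuousOn (fun z => ∑ᶠ g, N6c_f P r g z) (HolAux.Bl (Fin 2)) := by
  rw [continuousOn_iff_continuous_restrict]
  change Continuous fun z : HolAux.Bl (Fin 2) => ∑ᶠ g, N6c_f P r g z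
  apply continuous_finsum
  · intro g
    have h1 : Continuous fun z : HolAux.Bl (Fin 2) => N6c_u P r g z :=
      continuousOn_iff_continuous_restrict.mp (N6c_u_cont P r g)
    exact (Complex.continuous_ofReal.comp h1).smul continuous_const
  · intro z
    have hq := N6c_q_pos z.2
    refine ⟨{z' | N6c_q z / 2 < N6c_q z'}, ?_, ?_⟩
    · apply IsOpen.mem_nhds
      · exact isOpen_lt continuous_const (N6c_q_cont.comp continuous_subtype_val)
      · change N6c_q z / 2 < N6c_q z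
        linarith
    · refine (N6c_fin P r (half_pos hq)).subset ?_
      rintro g ⟨z', hz', hz2⟩
      refine ⟨z', z'.2, le_of_lt hz2, fun h0 => hz' ?_⟩
      simp only [N6c_f, h0, Complex.ofReal_zero, zero_smul]

theorem N6c_term_psd (P : Kp G) (r : ℝ) (g : G) (z : C2) : (N6c_f P r g z).PosSemidef := by
  unfold N6c_f
  refine (Matrix.posSemidef_conjTranspose_mul_self (P.R g)).smul ?_
  exact_mod_cast N6c_u_nonneg P r g z

theorem N6c_term_pd (P : Kp G) (r : ℝ) (g : G) (z : C2) (h : 0 < N6c_u P r g z) :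
    (N6c_f P r g z).PosDef := by
  unfold N6c_f
  refine (Matrix.PosDef.conjTranspose_mul_self (P.R g) ?_).smul ?_
  · have hu := F0.isUnit_det (P.F0_iso g)
    exact Matrix.mulVec_injective_of_isUnit ((Matrix.isUnit_iff_isUnit_det _).mpr hu)
  · exact_mod_cast h

/-- positivity -/
theorem N6c_pd (P : Kp G) (r : ℝ) {z : C2} (hz : z ∈ HolAux.Bl (Fin 2))
    (h : ∃ g, 0 < N6c_u P r g z) : (∑ᶠ g, N6c_f P r g z).PosDef := by
  classical
  obtain ⟨g0, hg0⟩ := h
  have hfin := N6c_supp P r hz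
  set s : Finset G := insert g0 hfin.toFinset with hs
  rw [finsum_eq_sum_of_support_subset (s := s) _ (by
    intro g hg
    simp only [hs, Finset.coe_insert, Set.Finite.coe_toFinset]
    exact Set.mem_insert_of_mem _ hg)]
  rw [← Finset.add_sum_erase s _ (Finset.mem_insert_self g0 _)]
  exact (N6c_term_pd P r g0 z hg0).add_posSemidef
    (Matrix.posSemidef_sum _ fun g _ => N6c_term_psd P r g z)

theorem N6c_w_act (P : Kp G) (g g' : G) {z : C2} (hz : z ∈ HolAux.Bl (Fin 2)) :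
    N6c_w P g' (act (P.σ g).M z) = N6c_w P (g' * g) z := by
  have h1 := CW.vz_act (P.σ g) (N6c_B hz)
  have h2 := CW.nqC_vz_act (P.σ g) (N6c_B hz)
  rw [N6c_q_nq, N6c_q_nq] at h2
  have hd := CW.den_ne (P.σ g) (N6c_B hz)
  have ha := N6c_q_pos (CW.act_mem (P.σ g) (N6c_B hz))
  have h3 : CW.den (P.σ (g' * g)) z = CW.den (P.σ g) z * CW.den (P.σ g') (act (P.σ g).M z) := by
    change ((P.σ (g' * g)).M *ᵥ CW.vz z) (Sum.inr ()) = _
    rw [map_mul, GU.M_mul, ← Matrix.mulVec_mulVec, h1, Matrix.mulVec_smul]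
    rfl
  unfold N6c_w
  rw [h3, h2, norm_mul, mul_pow]
  have hd2 : ‖CW.den (P.σ g) z‖ ^ 2 ≠ 0 := by
    have := norm_pos_iff.mpr hd
    positivity
  have ha2 : N6c_q (act (P.σ g).M z) ≠ 0 := ha.ne'
  field_simp

theorem N6c_R (P : Kp G) (g g' : G) : (P.R (g' * g))ᴴ * P.R (g' * g) =
    (P.R g)ᴴ * ((P.R g')ᴴ * P.R g') * P.R g := by
  obtain ⟨u, hu, h⟩ := P.mul g' g
  rw [h, Matrix.conjTranspose_smul, Matrix.smul_mul, Matrix.mul_smul, smul_smul]
  have h1 : star u * u = 1 := by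
    have h2 : star u * u = ((‖u‖ ^ 2 : ℝ) : ℂ) := by
      rw [mul_comm]
      simpa using Complex.mul_conj' u
    rw [h2, hu]
    norm_num
  rw [h1, one_smul, Matrix.conjTranspose_mul]
  simp only [Matrix.mul_assoc]

theorem N6c_f_act (P : Kp G) (r : ℝ) (g g' : G) {z : C2} (hz : z ∈ HolAux.Bl (Fin 2)) :
    N6c_f P r (g' * g) z = (P.R g)ᴴ * N6c_f P r g' (act (P.σ g).M z) * P.R g := by
  unfold N6c_f N6c_u
  rw [N6c_w_act P g g' hz, N6c_R, Matrix.mul_smul, Matrix.smul_mul]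

/-- conjugation as an additive map -/
def N6c_conj (A : M4) : M4 →+ M4 where
  toFun X := Aᴴ * X * A
  map_zero' := by simp
  map_add' X Y := by rw [Matrix.mul_add, Matrix.add_mul]

/-- module N6c: an equivariant continuous family of positive definite forms on the ball -/
theorem N6_metric (P : Kp G) : ∃ H : C2 → M4, ContinuousOn H (HolAux.Bl (Fin 2)) ∧
    (∀ z ∈ HolAux.Bl (Fin 2), (H z).PosDef) ∧
    ∀ g, ∀ z ∈ HolAux.Bl (Fin 2), H z = (P.R g)ᴴ * H (act (P.σ g).M z) * P.R g := by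
  obtain ⟨R₀, hR⟩ := P.lat.coc
  set r : ℝ := R₀ ^ 2 + 1 with hr
  refine ⟨fun z => ∑ᶠ g, N6c_f P r g z, N6c_cont P r, ?_, ?_⟩
  · intro z hz
    apply N6c_pd P r hz
    obtain ⟨h, hh⟩ := N6c_trans hz
    obtain ⟨g, hg⟩ := hR h
    refine ⟨g, ?_⟩
    have h1 : c (P.σ g * h) ^ 2 = N6c_w P g z := hh (P.σ g)
    have h2 := c_ge_one (P.σ g * h)
    unfold N6c_u
    refine lt_of_lt_of_le ?_ (le_max_right _ _)
    nlinarith
  · intro g z hz
    have ha : act (P.σ g).M z ∈ HolAux.Bl (Fin 2) := CW.act_mem (P.σ g) (N6c_B hz)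
    have h1 := (N6c_conj (P.R g)).map_finsum (f := fun g' => N6c_f P r g' (act (P.σ g).M z))
      (N6c_supp P r ha)
    change (P.R g)ᴴ * (∑ᶠ g', N6c_f P r g' (act (P.σ g).M z)) * P.R g = _ at h1
    have h2 : (fun g' => (N6c_conj (P.R g)) (N6c_f P r g' (act (P.σ g).M z))) =
        (fun g' => N6c_f P r g' z) ∘ Equiv.mulRight g := by
      funext g'
      exact (N6c_f_act P r g g' hz).symm
    rw [h1, h2]
    exact (finsum_comp_equiv (Equiv.mulRight g) (f := fun g' => N6c_f P r g' z)).symm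

end Pool.Agent.MPd01a95.KT
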