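import Mathlib
import Pool.Agent.Lib.MP_d01a95_gt_K.KDefs2
import Pool.Agent.Lib.MP_d01a95_gt_K.KA1
import Pool.Agent.Lib.MP_d01a95_gt_K.KA2
import Pool.Agent.Lib.MP_d01a95_gt_K.KA4
import Pool.Agent.Lib.MP_d01a95_gt_K.KF0
import Pool.Agent.Lib.MP_d01a95_gt_K.KF6
import Pool.Agent.Lib.MP_d01a95_gt_K.KH1
import Pool.Agent.Lib.MP_d01a95_gt_K.KH2
import Pool.Agent.Lib.MP_d01a95_gt_K.KH3
import Pool.Agent.Lib.MP_d01a95_gt_K.KH4
import Pool.Agent.Lib.MP_d01a95_gt_K.KA3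
import Pool.Agent.Lib.MP_d01a95_gt_K.KA5
import Pool.Agent.Lib.MP_d01a95_gt_K.KJ1
import Pool.Agent.Lib.MP_d01a95_gt_K.KJ4
import Pool.Agent.Lib.MP_d01a95_gt_K.KK3
import Pool.Agent.Lib.MP_d01a95_gt_K.KK7
import Pool.Agent.Lib.MP_d01a95_gt_K.KL1
import Pool.Agent.Lib.MP_d01a95_gt_K.KL2
import Pool.Agent.Lib.MP_d01a95_gt_K.KL3
import Pool.Agent.Lib.MP_d01a95_gt_K.KL4
import Pool.Agent.Lib.MP_d01a95_gt_K.KL5
import Pool.Agent.Lib.MP_d01a95_gt_K.KM1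
import Pool.Agent.Lib.MP_d01a95_gt_K.KM2
import Pool.Agent.Lib.MP_d01a95_gt_K.KM3
import Pool.Agent.Lib.MP_d01a95_gt_K.KM4
import Pool.Agent.Lib.MP_d01a95_gt_K.KM5
import Pool.Agent.Lib.MP_d01a95_gt_K.KN1
import Pool.Agent.Lib.MP_d01a95_gt_K.KN3
import Pool.Agent.Lib.MP_d01a95_gt_K.KN4
import Pool.Agent.Lib.MP_d01a95_gt_K.KN6a
import Pool.Agent.Lib.MP_d01a95_gt_K.KN6b
import Pool.Agent.Lib.MP_d01a95_gt_K.KN6c
import Pool.Agent.Lib.MP_d01a95_gt_H.Equiv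
import Pool.Agent.Lib.MP_d01a95_gt_S.SDefs

set_option autoImplicit false
set_option linter.all false

open Matrix Filter Topology MeasureTheory
open scoped ContDiff ComplexOrder

namespace Pool.Agent.MPd01a95.KT

open GU NA

variable {G : Type} [Group G]

theorem N6_re {H : M4} {v : V4} (hv : v ∈ N6N H) : (hf v v).re ≤ 0 := by
  have := hv 1
  rwa [map_one, Matrix.one_mulVec] at this

theorem N6_hfc : Continuous fun v : V4 => (hf v v).re := by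
  simp only [F0.hf_eq]
  refine Complex.continuous_re.comp ?_
  fun_prop

theorem N6_tend {f : ℕ → V4} {a : V4} (h : Tendsto f atTop (𝓝 a)) :
    Tendsto (fun n => (hf (f n) (f n)).re) atTop (𝓝 (hf a a).re) :=
  (N6_hfc.tendsto a).comp h

namespace Kd

variable {D : Kd G} (hD : Good D)

include hD

/-- two points of the surface in the same negative part coincide -/
theorem N6_uniq {k : M4} (hk : k ∈ D.FF) {H : M4} (hH : H.PosDef) {x y : C2} (hx : x ∈ Up)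
    (hy : y ∈ Up) (h1 : D.vx k x ∈ N6N H) (h2 : D.vx k y ∈ N6N H) : x = y := by
  by_contra hne
  have hx' : 0 < (x 1).im := hx
  have hy' : 0 < (y 1).im := hy
  have h3 := sep_gt hD hk hx hy hne
  obtain ⟨v, hv⟩ : ∃ v, v = D.vx k x := ⟨_, rfl⟩
  obtain ⟨w, hw⟩ : ∃ w, w = D.vx k y := ⟨_, rfl⟩
  have hvv : hf v v = ((-2 * (x 1).im : ℝ) : ℂ) := by
    rw [hv, hf_vx hD hk x]
    push_cast
    ring
  have hww : hf w w = ((-2 * (y 1).im : ℝ) : ℂ) := by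
    rw [hw, hf_vx hD hk y]
    push_cast
    ring
  rw [← hv, ← hw] at h3
  rw [← hv] at h1
  rw [← hw] at h2
  have h4 := N6_re (N6_add hH h1 h2 (hf w w) (-(hf v w)))
  have hd : hf v w * star (hf v w) = ((‖hf v w‖ ^ 2 : ℝ) : ℂ) := by
    rw [Complex.star_def, Complex.mul_conj, Complex.normSq_eq_norm_sq]
  have e : hf (hf w w • v + (-(hf v w)) • w) (hf w w • v + (-(hf v w)) • w) =
      ((-2 * (y 1).im * ((-2 * (y 1).im) * (-2 * (x 1).im) - ‖hf v w‖ ^ 2) : ℝ) : ℂ) := by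
    rw [hf_add_left, hf_add_right, hf_add_right, hf_smul_left, hf_smul_left, hf_smul_left,
      hf_smul_left, hf_smul_right, hf_smul_right, hf_smul_right, hf_smul_right, ← hf_star v w,
      star_neg, hf_star w w, hww, hvv]
    push_cast
    push_cast at hd
    linear_combination (-(-2 * ((y 1).im : ℂ))) * hd
  rw [e, Complex.ofReal_re] at h4
  nlinarith

/-- a compact set containing the points of bounded size -/
theorem N6_bound {k : M4} (hk : k ∈ D.FF) {c : ℝ} (hc : 0 < c) : ∃ K' ⊆ Up, IsCompact K' ∧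
    ∀ y ∈ Up, c * ‖D.vx k y‖ ^ 2 ≤ 2 * (y 1).im → y ∈ K' := by
  obtain ⟨x0, hx0⟩ : ∃ x0 : C2, x0 ∈ Up := ⟨![0, Complex.I], by
    show 0 < (Complex.I).im
    rw [Complex.I_im]
    exact one_pos⟩
  have hF0 : 0 < (x0 1).im := hx0
  obtain ⟨r, hr⟩ : ∃ r : ℝ, r = 8 * ‖D.vx k x0‖ ^ 2 / (c * (x0 1).im) := ⟨_, rfl⟩
  obtain ⟨K', hK1, hK2, hK3⟩ := psi_proper hD hk {x0} (by
    rintro x hx
    rw [Set.mem_singleton_iff.1 hx]
    exact hx0) isCompact_singleton r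
  refine ⟨K', hK1, hK2, fun y hy h => hK3 x0 rfl y hy ?_⟩
  have ht0 : 0 < (y 1).im := hy
  have h6 := hf_bd (D.vx k x0) (D.vx k y)
  have h10 : ‖hf (D.vx k x0) (D.vx k y)‖ ^ 2 ≤ (4 * ‖D.vx k x0‖ * ‖D.vx k y‖) ^ 2 :=
    pow_le_pow_left₀ (norm_nonneg _) h6 2
  refine h10.trans ?_
  have h11 : r * (4 * (x0 1).im * (y 1).im) = 16 * ‖D.vx k x0‖ ^ 2 * (2 * (y 1).im / c) := by
    rw [hr]
    field_simp
    ring
  rw [h11]
  have h12 : ‖D.vx k y‖ ^ 2 ≤ 2 * (y 1).im / c := by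
    rw [le_div_iff₀ hc]
    linarith
  calc (4 * ‖D.vx k x0‖ * ‖D.vx k y‖) ^ 2 = 16 * ‖D.vx k x0‖ ^ 2 * ‖D.vx k y‖ ^ 2 := by
        ring
    _ ≤ 16 * ‖D.vx k x0‖ ^ 2 * (2 * (y 1).im / c) :=
        mul_le_mul_of_nonneg_left h12 (by positivity)

theorem N6_norm {k : M4} (hk : k ∈ D.FF) {y : C2} {c : ℝ}
    (h : (hf (((‖D.vx k y‖ : ℂ)⁻¹) • D.vx k y) (((‖D.vx k y‖ : ℂ)⁻¹) • D.vx k y)).re < -c) :
    c * ‖D.vx k y‖ ^ 2 ≤ 2 * (y 1).im := by
  have hvp : 0 < ‖D.vx k y‖ := norm_pos_iff.2 (vx_ne D k hk.1 y)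
  have h7 : hf (D.vx k y) (D.vx k y) = ((-2 * (y 1).im : ℝ) : ℂ) := by
    rw [hf_vx hD hk]
    push_cast
    ring
  have h8 : (hf (((‖D.vx k y‖ : ℂ)⁻¹) • D.vx k y) (((‖D.vx k y‖ : ℂ)⁻¹) • D.vx k y)).re =
      -2 * (y 1).im / ‖D.vx k y‖ ^ 2 := by
    have e9 : (‖D.vx k y‖ : ℂ)⁻¹ = ((‖D.vx k y‖⁻¹ : ℝ) : ℂ) := by push_cast; rfl
    rw [hf_smul_left, hf_smul_right, h7, e9, Complex.star_def, Complex.conj_ofReal,
      ← Complex.ofReal_mul, ← Complex.ofReal_mul, Complex.ofReal_re]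
    field_simp
  rw [h8, div_lt_iff₀ (by positivity)] at h
  linarith

/-- continuity -/
theorem N6_cont {k : M4} (hk : k ∈ D.FF) {H : C2 → M4} {Om : Set C2} (hHc : ContinuousOn H Om)
    (hHp : ∀ z ∈ Om, (H z).PosDef) {F : C2 → C2} (hF1 : ∀ z, F z ∈ Up)
    (hF2 : ∀ z, z ∈ Om → D.vx k (F z) ∈ N6N (H z)) : ContinuousOn F Om := by
  intro z0 hz0
  refine tendsto_of_seq_tendsto fun u hu => ?_
  have hu1 : Tendsto u atTop (𝓝 z0) := hu.mono_right nhdsWithin_le_nhds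
  have hu2 : ∀ᶠ n in atTop, u n ∈ Om := hu.eventually self_mem_nhdsWithin
  have hH : Tendsto (fun n => H (u n)) atTop (𝓝 (H z0)) := (hHc z0 hz0).tendsto.comp hu
  refine tendsto_of_subseq_tendsto fun ns hns => ?_
  obtain ⟨w, hw⟩ : ∃ w : ℕ → V4, ∀ n, w n = ((‖D.vx k (F (u (ns n)))‖ : ℂ)⁻¹) •
    D.vx k (F (u (ns n))) := ⟨_, fun n => rfl⟩
  have hw1 : ∀ n, ‖w n‖ = 1 := fun n => by
    rw [hw, norm_smul, norm_inv, Complex.norm_real, norm_norm]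
    exact inv_mul_cancel₀ (norm_ne_zero_iff.2 (vx_ne D k hk.1 _))
  have hwm : ∀ᶠ n in atTop, w n ∈ N6N (H (u (ns n))) := by
    filter_upwards [hns.eventually hu2] with n hn2
    have := N6_add (hHp _ hn2) (hF2 _ hn2) (N6_zero _) ((‖D.vx k (F (u (ns n)))‖ : ℂ)⁻¹) 0
    rw [zero_smul, add_zero] at this
    rw [hw]
    exact this
  obtain ⟨w0, hw0, φ, hφ, hlim⟩ := (isCompact_sphere (0 : V4) 1).tendsto_subseq
    (x := w) (fun n => by rw [mem_sphere_zero_iff_norm]; exact hw1 n)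
  have hH2 : Tendsto (fun n => H (u (ns (φ n)))) atTop (𝓝 (H z0)) :=
    hH.comp (hns.comp hφ.tendsto_atTop)
  have hw0m : w0 ∈ N6N (H z0) := N6_closed hH2 hlim (hφ.tendsto_atTop.eventually hwm)
  have hw0n : w0 ≠ 0 := by
    intro h0
    rw [mem_sphere_zero_iff_norm, h0, norm_zero] at hw0
    exact zero_ne_one hw0
  have hneg := N6_neg (hHp z0 hz0) hw0m hw0n
  obtain ⟨c, hc⟩ : ∃ c : ℝ, c = -(hf w0 w0).re / 2 := ⟨_, rfl⟩
  have hc0 : 0 < c := by rw [hc]; linarith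
  have hev : ∀ᶠ n in atTop, (hf (w (φ n)) (w (φ n))).re < -c := by
    have h5 := N6_tend hlim
    refine h5.eventually (gt_mem_nhds ?_)
    rw [hc]
    linarith
  obtain ⟨K', hK1, hK2, hK3⟩ := N6_bound hD hk hc0
  have hin : ∀ᶠ n in atTop, F (u (ns (φ n))) ∈ K' := by
    filter_upwards [hev] with n hn
    rw [hw] at hn
    exact hK3 _ (hF1 _) (N6_norm hD hk hn)
  obtain ⟨x0, hx0, ψ, hψ, hlim2⟩ := hK2.tendsto_subseq' hin.frequently
  refine ⟨φ ∘ ψ, ?_⟩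
  have hx0U : x0 ∈ Up := hK1 hx0
  have hvx : Tendsto (fun n => D.vx k (F (u (ns (φ (ψ n)))))) atTop (𝓝 (D.vx k x0)) := by
    have h13 : ContinuousAt (D.vx k) x0 := by
      have h14 := D.vx_cont hk
      have h15 : IsOpen Up := isOpen_lt continuous_const
        (Complex.continuous_im.comp (continuous_apply 1))
      exact (h14.mono (fun x (hx : 0 < (x 1).im) => hx.le)).continuousAt (h15.mem_nhds hx0U)
    exact h13.tendsto.comp hlim2
  have hmem : D.vx k x0 ∈ N6N (H z0) := by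
    refine N6_closed (hH2.comp hψ.tendsto_atTop) hvx ?_
    have h16 := (hns.comp (hφ.tendsto_atTop.comp hψ.tendsto_atTop)).eventually hu2
    filter_upwards [h16] with n hn
    exact hF2 _ hn
  have hx0e : x0 = F z0 := N6_uniq hD hk (hHp z0 hz0) hx0U (hF1 z0) hmem (hF2 z0 hz0)
  rw [← hx0e]
  exact hlim2

section al

variable {k : M4} (hk : k ∈ D.FF) {al : G → C2 → C2} (hm : ∀ g, ∀ x ∈ Up, al g x ∈ Up)
  (hl : ∀ g, ∀ x ∈ Up, ∃ l : ℂ, l ≠ 0 ∧ D.vx k (al g x) = l • (D.R g *ᵥ D.vx k x))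

include hk hm hl

/-- module N6: an equivariant continuous map from the ball -/
theorem exists_FB : ∃ F : C2 → C2, (∀ z ∈ HolAux.Bl (Fin 2), F z ∈ Up) ∧
    ContinuousOn F (HolAux.Bl (Fin 2)) ∧
    ∀ g, ∀ z ∈ HolAux.Bl (Fin 2), F (act (D.σ g).M z) = al g (F z) := by
  obtain ⟨H, hHc, hHp, hHe⟩ := N6_metric D.toKp
  have hex : ∀ z, ∃ x ∈ Up, z ∈ HolAux.Bl (Fin 2) → D.vx k x ∈ N6N (H z) := by
    intro z
    by_cases hz : z ∈ HolAux.Bl (Fin 2)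
    · obtain ⟨m, hm1, hm2⟩ := N6_graph (hHp z hz) hk.1
      obtain ⟨x, hx, e1, e2⟩ := N6_ex hD hk hm1
      refine ⟨x, hx, fun _ => ?_⟩
      have h3 := hm2 (x 0) 1
      have e3 : (![m 0 * x 0 + m 1 * 1, m 2 * x 0 + m 3 * 1, x 0, 1] : V4) =
          XX (D.P k x) (x 0) (x 1) := by
        rw [XX, e2]
        ext i
        fin_cases i
        · simp [e1]
        · simp
          ring
        · rfl
        · rfl
      rw [e3] at h3
      exact h3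
    · exact ⟨![0, Complex.I], by
        show 0 < (Complex.I).im
        rw [Complex.I_im]
        exact one_pos, fun h => absurd h hz⟩
  choose F hF1 hF2 using hex
  refine ⟨F, fun z _ => hF1 z, ?_, fun g z hz => ?_⟩
  · exact N6_cont hD hk hHc hHp hF1 hF2
  · have hgz : act (D.σ g).M z ∈ HolAux.Bl (Fin 2) := EquivAux.act_mem (D.σ g).pres hz
    refine N6_uniq hD hk (hHp _ hgz) (hF1 _) (hm g _ (hF1 z)) (hF2 _ hgz) ?_
    obtain ⟨l, hl0, e⟩ := hl g (F z) (hF1 z)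
    rw [e]
    have h1 := N6_equiv (D.pres g) (hHe g z hz) (hF2 z hz)
    have h2 := N6_add (hHp _ hgz) h1 (N6_zero _) l 0
    rwa [zero_smul, add_zero] at h2

end al

end Kd

end Pool.Agent.MPd01a95.KT
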