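import Mathlib
import Pool.Agent.Lib.MP_d01a95_gt_K.KDefs2
import Pool.Agent.Lib.MP_d01a95_gt_K.KB1
import Pool.Agent.Lib.MP_d01a95_gt_K.KB2
import Pool.Agent.Lib.MP_d01a95_gt_K.KB3
import Pool.Agent.Lib.MP_d01a95_gt_K.KB4
import Pool.Agent.Lib.MP_d01a95_gt_K.KB5
import Pool.Agent.Lib.MP_d01a95_gt_K.KC
import Pool.Agent.Lib.MP_d01a95_gt_K.KD1
import Pool.Agent.Lib.MP_d01a95_gt_K.KD2
import Pool.Agent.Lib.MP_d01a95_gt_K.KD3
import Pool.Agent.Lib.MP_d01a95_gt_K.KD4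
import Pool.Agent.Lib.MP_d01a95_gt_K.KEZ

/-! aggregator: do not put declarations here -/
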