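import Mathlib
import Pool.Agent.Lib.MP_d01a95_gt_K.KDefs2
import Pool.Agent.Lib.MP_d01a95_gt_K.KI1
import Pool.Agent.Lib.MP_d01a95_gt_K.KI2
import Pool.Agent.Lib.MP_d01a95_gt_K.KI3
import Pool.Agent.Lib.MP_d01a95_gt_K.KI4
import Pool.Agent.Lib.MP_d01a95_gt_K.KI5
import Pool.Agent.Lib.MP_d01a95_gt_K.KI6
import Pool.Agent.Lib.MP_d01a95_gt_K.KI7

/-! aggregator: do not put declarations here -/
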