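import Mathlib
import Pool.Agent.Lib.MP_d01a95_gt_K.KDefs2
import Pool.Agent.Lib.MP_d01a95_gt_K.KJ1
import Pool.Agent.Lib.MP_d01a95_gt_K.KJ2
import Pool.Agent.Lib.MP_d01a95_gt_K.KJ3
import Pool.Agent.Lib.MP_d01a95_gt_K.KJ4
import Pool.Agent.Lib.MP_d01a95_gt_K.KJ5
import Pool.Agent.Lib.MP_d01a95_gt_K.KJ6
import Pool.Agent.Lib.MP_d01a95_gt_K.KJ7
import Pool.Agent.Lib.MP_d01a95_gt_K.KJZ

/-! aggregator: do not put declarations here -/
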