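import Mathlib
import Pool.Agent.Lib.MP_d01a95_gt_K.KDefs2
import Pool.Agent.Lib.MP_d01a95_gt_K.KN0
import Pool.Agent.Lib.MP_d01a95_gt_K.KN1
import Pool.Agent.Lib.MP_d01a95_gt_K.KN2
import Pool.Agent.Lib.MP_d01a95_gt_K.KN3
import Pool.Agent.Lib.MP_d01a95_gt_K.KN4
import Pool.Agent.Lib.MP_d01a95_gt_K.KN5
import Pool.Agent.Lib.MP_d01a95_gt_K.KN6
import Pool.Agent.Lib.MP_d01a95_gt_K.KNZ

/-! aggregator: do not put declarations here -/
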